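import Pool.Agent.Lib.MP_6567fb_al.Defs

/-!
# MP_6567fb_al, module Defs2

Definitions used in parts T, K, F (complete, no sorry).
-/

set_option autoImplicit false

open scoped Pointwise

namespace Pool.Agent.Lib.MP_6567fb_al

open MTree

variable {Γ : Type} [Group Γ]

/-! ### gluing data -/
namespace MTree
variable {M : Subgroup Γ}

/-- data for a tree of trees over the base tree `B` -/
structure Glue (B : MTree M) where
  Y : Type
  GY : SimpleGraph Y
  act : Γ → Y → Y
  pr : Y → B.X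
  att : B.X → B.X → Y
  act_one : ∀ y, act 1 y = y
  act_mul : ∀ m ∈ M, ∀ m' ∈ M, ∀ y, act (m * m') y = act m (act m' y)
  act_adj : ∀ m ∈ M, ∀ x y, GY.Adj x y → GY.Adj (act m x) (act m y)
  equi : ∀ m ∈ M, ∀ y, pr (act m y) = B.act m (pr y)
  fib : ∀ x y, GY.Adj x y → pr x = pr y
  tree : ∀ v, (GY.induce (pr ⁻¹' {v})).IsTree
  pr_att : ∀ v w, B.G.Adj v w → pr (att v w) = v
  act_att : ∀ m ∈ M, ∀ v w, B.G.Adj v w → act m (att v w) = att (B.act m v) (B.act m w)

/-- the glued graph: fibre edges and one edge for every edge of the base -/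
def Glue.graph {B : MTree M} (D : Glue B) : SimpleGraph D.Y where
  Adj x y := D.GY.Adj x y ∨
    (B.G.Adj (D.pr x) (D.pr y) ∧ x = D.att (D.pr x) (D.pr y) ∧ y = D.att (D.pr y) (D.pr x))
  symm := ⟨fun x y h => h.elim (fun h => Or.inl h.symm) (fun h => Or.inr ⟨h.1.symm, h.2.2, h.2.1⟩)⟩
  loopless := ⟨fun x h => h.elim (fun h => D.GY.loopless.irrefl x h) (fun h => B.G.loopless.irrefl _ h.1)⟩

/-- pull back of a tree along a homomorphism -/
def pullback {Γ' : Type} [Group Γ'] (φ : Γ →* Γ') {M' : Subgroup Γ'} (T : MTree M') :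
    MTree (M'.comap φ) where
  X := T.X
  G := T.G
  tree := T.tree
  act := fun m x => T.act (φ m) x
  act_one := fun x => by rw [map_one]; exact T.act_one x
  act_mul := fun m hm m' hm' x => by rw [map_mul]; exact T.act_mul _ hm _ hm' x
  act_adj := fun m hm x y h => T.act_adj _ hm x y h

/-- special vertex: non-trivial stabiliser or valency different from two -/
def Special (T : MTree M) (x : T.X) : Prop :=
  T.stab x ≠ ⊥ ∨ ¬ ∃ y z, y ≠ z ∧ T.G.Adj x y ∧ T.G.Adj x z ∧ ∀ w, T.G.Adj x w → w = y ∨ w = z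

end MTree

/-- finite boundary (almost invariant set) -/
def FinBd (A : Subgroup Γ) (N : Set Γ) : Prop :=
  ∀ s ∈ A, {f | f ∈ A ∧ ¬ (f ∈ N ↔ f * s ∈ N)}.Finite

/-- restriction of a family to a factor -/
def resFam (Ω : Set (Subgroup Γ)) (D : Subgroup Γ) : Set (Subgroup Γ) :=
  {E | E ≠ ⊥ ∧ ∃ B ∈ Ω, E = B ⊓ D}

/-- `D` is a factor of `H` relative to `Ω` -/
def IsOFactor (F H : Subgroup Γ) (Ω : Set (Subgroup Γ)) (D : Subgroup Γ) : Prop :=
  D = H ∨ ∃ T : MTree H, T.IsSplitting F ∧ T.Rel Ω ∧ ∃ x, T.stab x ⊓ F = D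

section
variable {G : Type} [Group G]

/-- local hypotheses: `M ⊓ F` is a non-trivial factor of `F` -/
structure Loc (π : Γ →* G) (M : Subgroup Γ) : Prop where
  ne : M ⊓ π.ker ≠ ⊥
  fac : IsFactor π.ker π.ker (M ⊓ π.ker)

/-- `M` maps onto `G` and is the normaliser of `M ⊓ F` -/
structure Full (π : Γ →* G) (M : Subgroup Γ) : Prop extends Loc π M where
  surj : ∀ g, ∃ m ∈ M, π m = g
  max : M = Subgroup.normalizer (M ⊓ π.ker : Subgroup Γ)

/-- `π(M)` is cyclic, generated by `g` -/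
structure Cyc (π : Γ →* G) (M : Subgroup Γ) (g : G) : Prop extends Loc π M where
  surj : ∃ m ∈ M, π m = g
  cyc : ∀ m ∈ M, π m ∈ Subgroup.zpowers g

/-- the part of `M` over the cyclic group generated by `g` -/
def Mg (π : Γ →* G) (M : Subgroup Γ) (g : G) : Subgroup Γ := M ⊓ (Subgroup.zpowers g).comap π

end

end Pool.Agent.Lib.MP_6567fb_al
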