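import Pool.Agent.Lib.MP_6567fb_al.T1b

/-!
# MP_6567fb_al, module T1c

Geometry of trees 3: half spaces.
-/

set_option autoImplicit false

open scoped Pointwise

namespace Pool.Agent.Lib.MP_6567fb_al

open MTree
namespace TG
variable {X : Type} {G : SimpleGraph X}

theorem beyond_iff (hG : G.IsTree) {x y : X} (h : G.Adj x y) (z : X) :
    Beyond G x y z ↔ ¬ Beyond G y x z := by
  unfold Beyond
  rcases adj_dist hG h z with h1 | h1 <;> omega

theorem beyond_iff_btw (hG : G.IsTree) {x y : X} (h : G.Adj x y) (z : X) :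
    Beyond G x y z ↔ Btw G x y z := by
  unfold Beyond Btw
  rw [dist_eq_one h]
  rcases adj_dist hG h z with h1 | h1 <;> omega

theorem not_beyond_iff_btw (hG : G.IsTree) {x y : X} (h : G.Adj x y) (z : X) :
    ¬ Beyond G x y z ↔ Btw G y x z := by
  rw [← beyond_iff hG h.symm, beyond_iff_btw hG h.symm]

theorem beyond_self_right {x y : X} (h : G.Adj x y) : Beyond G x y y := by
  unfold Beyond
  rw [SimpleGraph.dist_self, dist_eq_one h]
  exact one_pos

theorem not_beyond_self_left (x y : X) : ¬ Beyond G x y x := by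
  unfold Beyond
  simp

theorem conv_beyond (hG : G.IsTree) {x y : X} (h : G.Adj x y) : Conv G {z | Beyond G x y z} := by
  intro z hz z' hz' w hw
  by_contra hcon
  have h1 : Btw G y x w := (not_beyond_iff_btw hG h w).1 hcon
  have h2 : Btw G x y z := (beyond_iff_btw hG h z).1 hz
  have h3 : Btw G x y z' := (beyond_iff_btw hG h z').1 hz'
  have h4 := (btw_glue hG (btw_symm hG h1) h2 h.ne).2
  have h5 := (btw_glue hG (btw_symm hG h1) h3 h.ne).2
  have t := dist_tri hG z y z'
  have h6 : G.dist w y = 0 := by
    unfold Btw at hw h4 h5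
    rw [G.dist_comm (u := z) (v := w)] at hw
    rw [G.dist_comm (u := z) (v := y)] at t
    omega
  have h7 := dist_zero hG h6
  subst h7
  exact hcon (beyond_self_right h)

theorem conv_not_beyond (hG : G.IsTree) {x y : X} (h : G.Adj x y) :
    Conv G {z | ¬ Beyond G x y z} := by
  have e : {z | ¬ Beyond G x y z} = {z | Beyond G y x z} := by
    ext z
    exact (beyond_iff hG h.symm z).symm
  rw [e]
  exact conv_beyond hG h.symm

/-- the only edge between a half space and its complement -/
theorem beyond_edge (hG : G.IsTree) {x y a b : X} (h : G.Adj x y) (hab : G.Adj a b)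
    (ha : ¬ Beyond G x y a) (hb : Beyond G x y b) : a = x ∧ b = y := by
  have h1 : Btw G y x a := (not_beyond_iff_btw hG h a).1 ha
  have h2 : Btw G x y b := (beyond_iff_btw hG h b).1 hb
  have h3 := (btw_glue hG (btw_symm hG h1) h2 h.ne).1
  have e1 := dist_eq_one hab
  have e2 := dist_eq_one h
  unfold Btw at h2 h3
  exact ⟨dist_zero hG (by omega), (dist_zero hG (by omega : G.dist y b = 0)).symm⟩

/-- an oriented edge lies on the geodesic `[a,b]` in the direction of `b` iff it separates -/
theorem beyond_sep (hG : G.IsTree) {x y a b : X} (h : G.Adj x y) :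
    (¬ Beyond G x y a ∧ Beyond G x y b) ↔
      (Btw G a x b ∧ Btw G a y b ∧ G.dist a x < G.dist a y) := by
  constructor
  · rintro ⟨ha, hb⟩
    have h1 : Btw G y x a := (not_beyond_iff_btw hG h a).1 ha
    have h2 : Btw G x y b := (beyond_iff_btw hG h b).1 hb
    have h3 := btw_glue hG (btw_symm hG h1) h2 h.ne
    refine ⟨h3.1, h3.2, ?_⟩
    have e2 := dist_eq_one h
    unfold Btw at h1
    rw [G.dist_comm (u := y) (v := x), G.dist_comm (u := x) (v := a),
      G.dist_comm (u := y) (v := a)] at h1
    omega
  · rintro ⟨h1, h2, h3⟩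
    unfold Beyond Btw at *
    rw [G.dist_comm (u := y) (v := a), G.dist_comm (u := x) (v := a)]
    omega

/-- nested half spaces -/
theorem beyond_nested (hG : G.IsTree) {x y a b : X} (h : G.Adj x y) (hab : G.Adj a b)
    (ha : Beyond G x y a) (hx : ¬ Beyond G a b x) (z : X) (hz : Beyond G a b z) :
    Beyond G x y z := by
  by_contra hcon
  have h1 := ((beyond_sep hG hab).1 ⟨hx, hz⟩).1
  exact conv_not_beyond hG h x (not_beyond_self_left x y) z hcon a h1 ha

/-- criterion: connected and every edge separates -/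
theorem isTree_of_sep (hc : G.Connected)
    (h : ∀ a b, G.Adj a b → ∃ S : Set X, a ∈ S ∧ b ∉ S ∧
      ∀ x y, G.Adj x y → x ∈ S → y ∉ S → x = a ∧ y = b) : G.IsTree := by
  refine ⟨hc, ?_⟩
  rw [SimpleGraph.isAcyclic_iff_forall_adj_isBridge]
  intro a b hab
  rw [SimpleGraph.isBridge_iff]
  intro hr
  obtain ⟨S, haS, hbS, hS⟩ := h a b hab
  obtain ⟨p⟩ := hr
  have key : ∀ (u v : X) (_ : (G \ SimpleGraph.fromEdgeSet {s(a, b)}).Walk u v), u ∈ S → v ∈ S := by
    intro u v q
    induction q with
    | nil => exact fun h => h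
    | @cons u w v huw q ih =>
      intro hu
      apply ih
      by_contra hw
      have h1 : G.Adj u w := huw.1
      obtain ⟨rfl, rfl⟩ := hS u w h1 hu hw
      exact huw.2 (by simp [SimpleGraph.fromEdgeSet_adj, h1.ne])
  exact hbS (key a b p haS)

/-- a non-empty convex subset of a tree is a tree, with the same distances -/
theorem induce_conv (hG : G.IsTree) {S : Set X} (hS : Conv G S) (hne : S.Nonempty) :
    (G.induce S).IsTree ∧ ∀ a b : S, (G.induce S).dist a b = G.dist (a : X) b := by
  have key : ∀ k : ℕ, ∀ a b : S, G.dist (a : X) b = k → ∃ p : (G.induce S).Walk a b, p.length = k := by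
    intro k
    induction k with
    | zero =>
      intro a b h
      have : a = b := Subtype.ext (dist_zero hG h)
      subst this
      exact ⟨SimpleGraph.Walk.nil, rfl⟩
    | succ k ih =>
      intro a b h
      have hab : (a : X) ≠ b := by
        intro h'
        rw [h', SimpleGraph.dist_self] at h
        omega
      obtain ⟨n, hn, hnb⟩ := exists_next hG hab
      have hnS : n ∈ S := hS a a.2 b b.2 n (btw_next hn hnb)
      obtain ⟨p, hp⟩ := ih ⟨n, hnS⟩ b (by simp only; omega)
      have hadj : (G.induce S).Adj a ⟨n, hnS⟩ := hn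
      exact ⟨SimpleGraph.Walk.cons hadj p, by rw [SimpleGraph.Walk.length_cons, hp]⟩
  have hconn : (G.induce S).Connected := by
    obtain ⟨s, hs⟩ := hne
    have : Nonempty S := ⟨⟨s, hs⟩⟩
    refine ⟨fun a b => ?_⟩
    obtain ⟨p, _⟩ := key _ a b rfl
    exact ⟨p⟩
  refine ⟨⟨hconn, hG.isAcyclic.induce S⟩, fun a b => le_antisymm ?_ ?_⟩
  · obtain ⟨p, hp⟩ := key _ a b rfl
    rw [← hp]
    exact SimpleGraph.dist_le p
  · obtain ⟨p, hp⟩ := hconn.exists_walk_length_eq_dist a b
    rw [← hp, ← SimpleGraph.Walk.length_map (SimpleGraph.Embedding.induce S).toHom p]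
    exact SimpleGraph.dist_le _

/-- every point between the ends of a walk is on the walk -/
theorem mem_support_of_btw (hG : G.IsTree) {x z : X} (p : G.Walk x z) :
    ∀ y, Btw G x y z → y ∈ p.support := by
  induction p with
  | @nil u =>
    intro y hy
    unfold Btw at hy
    rw [SimpleGraph.dist_self] at hy
    have := dist_zero hG (by omega : G.dist u y = 0)
    subst this
    simp
  | @cons x x1 z h p ih =>
    intro y hy
    rw [SimpleGraph.Walk.support_cons, List.mem_cons]
    by_cases hxy : y = x
    · exact Or.inl hxy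
    right
    apply ih
    rcases adj_dist hG h z with h3 | h3
    · obtain ⟨n, hn, hny⟩ := exists_next hG (Ne.symm hxy)
      have h4 := next_of_btw hG hy hn hny
      have h5 := next_unique hG hn h4 h h3.symm
      subst h5
      unfold Btw at *
      omega
    · have h4 : Btw G x1 x z := btw_next h.symm h3.symm
      exact (btw_trans hG h4 hy).2

/-- a set such that the induced graph is connected is convex -/
theorem conv_of_connected (hG : G.IsTree) {S : Set X} (h : (G.induce S).Preconnected) :
    Conv G S := by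
  intro x hx z hz y hy
  obtain ⟨p⟩ := h ⟨x, hx⟩ ⟨z, hz⟩
  have h1 := mem_support_of_btw hG (p.map (SimpleGraph.Embedding.induce S).toHom) y hy
  rw [SimpleGraph.Walk.support_map, List.mem_map] at h1
  obtain ⟨a, _, rfl⟩ := h1
  exact a.2

theorem dist_of_local (hG : G.IsTree) (p : ℕ → X) (hadj : ∀ i, G.Adj (p i) (p (i + 1)))
    (hne : ∀ i, p i ≠ p (i + 2)) (n : ℕ) : G.dist (p 0) (p n) = n := by
  rw [chain_geod hG p n (fun i _ => (hadj i).ne) (fun i _ => ?_)]
  · rw [Finset.sum_congr rfl fun i _ => dist_eq_one (hadj i)]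
    simp
  · have e1 : G.dist (p (i + 1)) (p (i + 2)) = 1 := dist_eq_one (hadj (i + 1))
    have h1 : G.dist (p i) (p (i + 2)) = 2 := by
      rcases adj_dist hG (hadj i) (p (i + 2)) with h3 | h3
      · rw [h3, e1]
      · exfalso
        apply hne i
        apply dist_zero hG
        omega
    unfold Btw
    rw [h1, dist_eq_one (hadj i), e1]

theorem ray_of_local (hG : G.IsTree) (L : ℕ → X) (hadj : ∀ i, G.Adj (L i) (L (i + 1)))
    (hne : ∀ i, L i ≠ L (i + 2)) : IsRay G L := by
  have key : ∀ i n : ℕ, G.dist (L i) (L (i + n)) = n := fun i n =>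
    dist_of_local hG (fun k => L (i + k)) (fun k => hadj (i + k)) (fun k => hne (i + k)) n
  intro i j
  rcases le_total i j with h | h
  · obtain ⟨n, rfl⟩ := Nat.exists_eq_add_of_le h
    rw [key]
    push_cast
    omega
  · obtain ⟨n, rfl⟩ := Nat.exists_eq_add_of_le h
    rw [SimpleGraph.dist_comm, key]
    push_cast
    omega

theorem line_of_local (hG : G.IsTree) (L : ℤ → X) (hadj : ∀ i, G.Adj (L i) (L (i + 1)))
    (hne : ∀ i, L i ≠ L (i + 2)) : IsLine G L := by
  have key : ∀ (i : ℤ) (n : ℕ), G.dist (L i) (L (i + n)) = n := by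
    intro i n
    have h := dist_of_local hG (fun k : ℕ => L (i + k)) (fun k => by
      have := hadj (i + k)
      simpa [add_assoc] using this) (fun k => by
      have := hne (i + k)
      simpa [add_assoc] using this) n
    simpa using h
  intro i j
  rcases le_total i j with h | h
  · obtain ⟨n, hn⟩ := Int.eq_ofNat_of_zero_le (sub_nonneg.2 h)
    have : j = i + n := by omega
    subst this
    rw [key]
    omega
  · obtain ⟨n, hn⟩ := Int.eq_ofNat_of_zero_le (sub_nonneg.2 h)
    have : i = j + n := by omega
    subst this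
    rw [SimpleGraph.dist_comm, key]
    omega

theorem conv_range_line (hG : G.IsTree) {L : ℤ → X} (hL : IsLine G L) :
    Conv G (Set.range L) := by
  have key : ∀ (i : ℤ) (j : ℤ), i ≤ j → ∀ y, Btw G (L i) y (L j) → y ∈ Set.range L := by
    intro i j hij y hy
    refine ⟨i + G.dist (L i) y, ?_⟩
    have hd := hL i j
    have h1 : G.dist (L i) y ≤ (i - j).natAbs := by
      unfold Btw at hy
      omega
    have h2 := hL i (i + G.dist (L i) y)
    have h3 := hL (i + G.dist (L i) y) j
    refine btw_point_unique hG (x := L i) (z := L j) (k := G.dist (L i) y) ?_ (by omega) hy rfl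
    unfold Btw
    omega
  rintro _ ⟨i, rfl⟩ _ ⟨j, rfl⟩ y hy
  rcases le_total i j with h | h
  · exact key i j h y hy
  · exact key j i h y (btw_symm hG hy)

end TG

end Pool.Agent.Lib.MP_6567fb_al
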