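import Pool.Agent.Lib.MP_6567fb_al.T7c

/-!
# MP_6567fb_al, module T0

Cayley tree of a factor: vertices are the reduced words in a basis of D, neighbours by left multiplication by a
letter, D acts by right multiplication by inverses.  The basis is finite since D is finitely generated.
-/

set_option autoImplicit false

open scoped Pointwise

namespace Pool.Agent.Lib.MP_6567fb_al

open MTree
variable {Γ G : Type} [Group Γ] [Group G] {π : Γ →* G}

/-- the Cayley graph of a free group (neighbours by left multiplication) -/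
def cayG (ι : Type) : SimpleGraph (FreeGroup ι) where
  Adj x y := ∃ i : ι, y = FreeGroup.of i * x ∨ x = FreeGroup.of i * y
  symm := ⟨fun _ _ ⟨i, h⟩ => ⟨i, h.symm⟩⟩
  loopless := ⟨fun x ⟨i, h⟩ => by
    have h1 : x = FreeGroup.of i * x := h.elim id id
    exact FreeGroup.of_ne_one i (by simpa using h1.symm)⟩

theorem cayG_adj {ι : Type} {x y : FreeGroup ι} :
    (cayG ι).Adj x y ↔ ∃ m : ι × Bool, y = FreeGroup.mk [m] * x := by
  constructor
  · rintro ⟨i, h | h⟩
    · exact ⟨(i, true), h⟩
    · refine ⟨(i, false), ?_⟩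
      have h2 : (FreeGroup.mk [(i, false)] : FreeGroup ι) = (FreeGroup.of i)⁻¹ := by
        rw [FreeGroup.of, FreeGroup.inv_mk]; rfl
      rw [h2, h]
      group
  · rintro ⟨⟨i, b⟩, h⟩
    cases b
    · refine ⟨i, Or.inr ?_⟩
      have h2 : (FreeGroup.mk [(i, false)] : FreeGroup ι) = (FreeGroup.of i)⁻¹ := by
        rw [FreeGroup.of, FreeGroup.inv_mk]; rfl
      rw [h, h2]
      group
    · exact ⟨i, Or.inl h⟩

theorem cayG_connected (ι : Type) : (cayG ι).Connected := by
  classical
  have key : ∀ x : FreeGroup ι, (cayG ι).Reachable 1 x := by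
    intro x
    have h : ∀ (L : List (ι × Bool)), (cayG ι).Reachable 1 (FreeGroup.mk L) := by
      intro L
      induction L with
      | nil => exact SimpleGraph.Reachable.refl _
      | cons m L ih =>
        refine ih.trans (SimpleGraph.Adj.reachable (cayG_adj.2 ⟨m, ?_⟩))
        simp [FreeGroup.mul_mk]
    have := h x.toWord
    rwa [FreeGroup.mk_toWord] at this
  exact { preconnected := fun x y => (key x).symm.trans (key y), nonempty := ⟨1⟩ }

/-- left multiplication by a letter adds or cancels the first letter of the reduced word -/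
theorem cay_letter {ι : Type} [DecidableEq ι] (m : ι × Bool) (v : FreeGroup ι) :
    (FreeGroup.mk [m] * v).toWord = m :: v.toWord ∨
      v.toWord = (m.1, !m.2) :: (FreeGroup.mk [m] * v).toWord := by
  have h : (FreeGroup.mk [m] * v).toWord = FreeGroup.reduce (m :: v.toWord) := by
    conv_lhs => rw [← FreeGroup.mk_toWord (x := v), FreeGroup.mul_mk, FreeGroup.toWord_mk]
    rfl
  rw [h, FreeGroup.reduce.cons, FreeGroup.reduce_toWord]
  rcases hv : v.toWord with _ | ⟨hd, tl⟩
  · left; rfl
  · by_cases hc : m.1 = hd.1 ∧ m.2 = !hd.2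
    · right
      change hd :: tl = (m.1, !m.2) ::
        (if m.1 = hd.1 ∧ m.2 = !hd.2 then tl else m :: hd :: tl)
      rw [if_pos hc, hc.1, hc.2, Bool.not_not]
    · left
      change (if m.1 = hd.1 ∧ m.2 = !hd.2 then tl else m :: hd :: tl) = m :: hd :: tl
      rw [if_neg hc]

theorem cayG_isTree (ι : Type) : (cayG ι).IsTree := by
  classical
  refine TG.isTree_of_sep (cayG_connected ι) ?_
  intro a b hab
  obtain ⟨l, rfl⟩ := cayG_adj.1 hab
  refine ⟨{x | (x * a⁻¹).toWord.getLast? ≠ some l}, ?_, ?_, ?_⟩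
  · simp
  · simp
  · intro x y hxy hx hy
    obtain ⟨m, rfl⟩ := cayG_adj.1 hxy
    have hx : (x * a⁻¹).toWord.getLast? ≠ some l := hx
    have hy : (FreeGroup.mk [m] * x * a⁻¹).toWord.getLast? = some l := not_not.1 hy
    rw [mul_assoc] at hy
    rcases cay_letter m (x * a⁻¹) with h | h
    · rw [h] at hy
      rcases hu : (x * a⁻¹).toWord with _ | ⟨hd, tl⟩
      · rw [hu] at hy
        simp at hy
        subst hy
        have : x * a⁻¹ = 1 := FreeGroup.toWord_eq_nil_iff.1 hu
        have hxa : x = a := by rwa [mul_inv_eq_one] at this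
        subst hxa
        exact ⟨rfl, rfl⟩
      · rw [hu] at hy hx
        rw [List.getLast?_cons_cons] at hy
        exact absurd hy hx
    · exfalso
      apply hx
      rw [h]
      rcases hu : (FreeGroup.mk [m] * (x * a⁻¹)).toWord with _ | ⟨hd, tl⟩
      · rw [hu] at hy
        simp at hy
      · rw [hu] at hy
        rw [List.getLast?_cons_cons]
        exact hy

theorem cay_finite_of_fg {D ι : Type} [Group D] (hD : Group.FG D) (b : FreeGroupBasis ι D) :
    Finite ι := by
  classical
  obtain ⟨S, hS⟩ := hD.out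
  have hinj : Function.Injective
      (fun (f : ι → Multiplicative (ZMod 2)) (s : S) => b.lift f s.1) := by
    intro f g h
    have h2 : b.lift f = b.lift g :=
      MonoidHom.eq_of_eqOn_dense hS (fun s hs => congrFun h ⟨s, hs⟩)
    exact b.lift.injective h2
  have hfin : Finite (ι → Multiplicative (ZMod 2)) := Finite.of_injective _ hinj
  refine Finite.of_injective (fun i : ι =>
    (Function.update 1 i (Multiplicative.ofAdd 1) : ι → Multiplicative (ZMod 2))) ?_
  intro i j hij
  by_contra hne
  have h1 := congrFun hij i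
  simp only [Function.update_self, Function.update_of_ne hne, Pi.one_apply] at h1
  revert h1
  decide

theorem cay_isFree (hc : Ctx π) {D : Subgroup Γ} (hD : D ≤ π.ker) : IsFreeGroup D := by
  obtain ⟨n, ⟨b⟩⟩ := hc.free
  have : IsFreeGroup π.ker := b.isFreeGroup
  exact IsFreeGroup.ofMulEquiv (Subgroup.subgroupOfEquivOfLe hD)

/-- the Cayley tree of a factor -/
theorem cayley_exists (hc : Ctx π) {D : Subgroup Γ} (hD : IsFactor π.ker π.ker D) :
    ∃ (C : MTree D) (c₀ : C.X), C.IsSplitting π.ker ∧ (∀ x, ∃! d, d ∈ D ∧ C.act d c₀ = x) ∧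
      ∀ x, {y | C.G.Adj x y}.Finite := by
  classical
  have hle : D ≤ π.ker := fac_le hD
  have : IsFreeGroup D := cay_isFree hc hle
  let b := IsFreeGroup.basis D
  have hfg : Group.FG D := (Group.fg_iff_subgroup_fg D).2 (fac_fg hc hD)
  have : Finite (IsFreeGroup.Generators D) := cay_finite_of_fg hfg b
  let act : Γ → FreeGroup (IsFreeGroup.Generators D) → FreeGroup (IsFreeGroup.Generators D) :=
    fun d x => if h : d ∈ D then x * (b.repr ⟨d, h⟩)⁻¹ else x
  have hact : ∀ d (h : d ∈ D) x, act d x = x * (b.repr ⟨d, h⟩)⁻¹ := fun d h x => dif_pos h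
  refine ⟨{ X := FreeGroup (IsFreeGroup.Generators D)
            G := cayG _
            tree := cayG_isTree _
            act := act
            act_one := ?_
            act_mul := ?_
            act_adj := ?_ }, (1 : FreeGroup (IsFreeGroup.Generators D)), ⟨?_, ?_, ?_⟩, ?_, ?_⟩
  · intro x
    rw [hact 1 D.one_mem]
    have : (⟨1, D.one_mem⟩ : D) = 1 := rfl
    rw [this, map_one, inv_one, mul_one]
  · intro m hm m' hm' x
    rw [hact _ (D.mul_mem hm hm'), hact m hm, hact m' hm']
    have : (⟨m * m', D.mul_mem hm hm'⟩ : D) = ⟨m, hm⟩ * ⟨m', hm'⟩ := rfl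
    rw [this, map_mul, mul_inv_rev, mul_assoc]
  · rintro m hm x y ⟨i, h | h⟩
    · exact ⟨i, Or.inl (by rw [hact m hm, hact m hm, h, mul_assoc])⟩
    · exact ⟨i, Or.inr (by rw [hact m hm, hact m hm, h, mul_assoc])⟩
  · rintro h ⟨hh, -⟩ x y - hx -
    change act h x = x at hx
    rw [hact h hh] at hx
    have h1 : (b.repr ⟨h, hh⟩)⁻¹ = 1 := by simpa using hx
    have h2 : b.repr ⟨h, hh⟩ = 1 := by simpa using h1
    have h3 : (⟨h, hh⟩ : D) = 1 := by simpa using h2
    exact congrArg Subtype.val h3
  · intro m hm x y _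
    exact ⟨m, ⟨hm, hle hm⟩, rfl, rfl⟩
  · have := Fintype.ofFinite (IsFreeGroup.Generators D)
    refine ⟨Finset.univ.image (fun m : IsFreeGroup.Generators D × Bool =>
      ((1 : FreeGroup (IsFreeGroup.Generators D)), FreeGroup.mk [m])), ?_⟩
    intro x y hxy
    obtain ⟨m, rfl⟩ := cayG_adj.1 hxy
    have hd := (b.repr.symm x).2
    refine ⟨(b.repr.symm x : D), ⟨hd, hle hd⟩, ?_⟩
    have e1 : act (b.repr.symm x : D) x = 1 := by
      rw [hact _ hd]; simp
    have e2 : act (b.repr.symm x : D) (FreeGroup.mk [m] * x) = FreeGroup.mk [m] := by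
      rw [hact _ hd]; simp [mul_assoc]
    refine Finset.mem_image.2 ⟨m, Finset.mem_univ _, ?_⟩
    exact Prod.ext e1.symm e2.symm
  · intro x
    refine ⟨(b.repr.symm x⁻¹ : D), ⟨(b.repr.symm x⁻¹).2, ?_⟩, ?_⟩
    · change act (b.repr.symm x⁻¹ : D) 1 = x
      rw [hact _ (b.repr.symm x⁻¹).2, one_mul]
      have e : (⟨((b.repr.symm x⁻¹ : D) : Γ), (b.repr.symm x⁻¹).2⟩ : D) = b.repr.symm x⁻¹ := rfl
      rw [e, MulEquiv.apply_symm_apply, inv_inv]
    · rintro d ⟨hd, h⟩
      change act d 1 = x at h
      rw [hact d hd, one_mul] at h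
      rw [← h]
      simp
  · intro x
    have := Fintype.ofFinite (IsFreeGroup.Generators D)
    refine (Set.finite_range (fun m : IsFreeGroup.Generators D × Bool =>
      FreeGroup.mk [m] * x)).subset ?_
    intro y hy
    obtain ⟨m, rfl⟩ := cayG_adj.1 hy
    exact ⟨m, rfl⟩

end Pool.Agent.Lib.MP_6567fb_al
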