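import Pool.Agent.Lib.MP_6567fb_al.T2a

/-!
# MP_6567fb_al, module T12

Twisted action; routine.
-/

set_option autoImplicit false

open scoped Pointwise

namespace Pool.Agent.Lib.MP_6567fb_al

open MTree
open scoped Pointwise
namespace MTree
variable {Γ : Type} [Group Γ] {M : Subgroup Γ}

theorem mem_conj_smul {γ m : Γ} {M : Subgroup Γ} :
    m ∈ MulAut.conj γ • M ↔ γ⁻¹ * m * γ ∈ M := by
  rw [Subgroup.mem_pointwise_smul_iff_inv_smul_mem]
  have h : (MulAut.conj γ)⁻¹ • m = γ⁻¹ * m * γ := by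
    rw [← map_inv, MulAut.smul_def, MulAut.conj_apply, inv_inv]
  rw [h]

/-- the action twisted by conjugation with `γ` -/
def tw (T : MTree M) (γ : Γ) : MTree (MulAut.conj γ • M) where
  X := T.X
  G := T.G
  tree := T.tree
  act := fun m x => T.act (γ⁻¹ * m * γ) x
  act_one := fun x => by
    rw [mul_one, inv_mul_cancel]
    exact T.act_one x
  act_mul := fun m hm m' hm' x => by
    rw [← T.act_mul _ (mem_conj_smul.1 hm) _ (mem_conj_smul.1 hm')]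
    congr 1
    group
  act_adj := fun m hm x y h => T.act_adj _ (mem_conj_smul.1 hm) x y h

theorem tw_stab (T : MTree M) (γ : Γ) (x : T.X) : (T.tw γ).stab x = MulAut.conj γ • T.stab x := by
  ext m
  rw [mem_conj_smul]
  constructor
  · rintro ⟨h1, h2⟩
    exact ⟨mem_conj_smul.1 h1, h2⟩
  · rintro ⟨h1, h2⟩
    exact ⟨mem_conj_smul.2 h1, h2⟩

theorem conj_smul_inf {F : Subgroup Γ} [F.Normal] (γ : Γ) (D : Subgroup Γ) :
    (MulAut.conj γ • D) ⊓ F = MulAut.conj γ • (D ⊓ F) := by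
  ext m
  rw [Subgroup.mem_inf, mem_conj_smul, mem_conj_smul, Subgroup.mem_inf]
  constructor
  · rintro ⟨h1, h2⟩
    refine ⟨h1, ?_⟩
    have h3 := ‹F.Normal›.conj_mem m h2 γ⁻¹
    rwa [inv_inv] at h3
  · rintro ⟨h1, h2⟩
    refine ⟨h1, ?_⟩
    have h3 := ‹F.Normal›.conj_mem _ h2 γ
    have h4 : γ * (γ⁻¹ * m * γ) * γ⁻¹ = m := by group
    rwa [h4] at h3

theorem tw_isSplitting {F : Subgroup Γ} [F.Normal] {T : MTree M} (hT : T.IsSplitting F) (γ : Γ) :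
    (T.tw γ).IsSplitting F := by
  have hmem : ∀ h, h ∈ (MulAut.conj γ • M) ⊓ F ↔ γ⁻¹ * h * γ ∈ M ⊓ F := by
    intro h
    rw [conj_smul_inf, mem_conj_smul]
  have hc : ∀ h : Γ, γ⁻¹ * (γ * h * γ⁻¹) * γ = h := fun h => by group
  refine ⟨?_, ?_, ?_⟩
  · intro h hh x y hxy hx hy
    have h1 := hT.free _ ((hmem h).1 hh) x y hxy hx hy
    have h2 : h = γ * (γ⁻¹ * h * γ) * γ⁻¹ := by group
    rw [h2, h1]
    group
  · intro m hm x y hxy
    obtain ⟨h, hh, h1, h2⟩ := hT.orb _ (mem_conj_smul.1 hm) x y hxy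
    refine ⟨γ * h * γ⁻¹, (hmem _).2 (by rw [hc]; exact hh), ?_, ?_⟩
    · change T.act (γ⁻¹ * (γ * h * γ⁻¹) * γ) x = _
      rw [hc]
      exact h1
    · change T.act (γ⁻¹ * (γ * h * γ⁻¹) * γ) y = _
      rw [hc]
      exact h2
  · obtain ⟨S, hS⟩ := hT.cocpt
    refine ⟨S, fun x y hxy => ?_⟩
    obtain ⟨h, hh, h1⟩ := hS x y hxy
    refine ⟨γ * h * γ⁻¹, (hmem _).2 (by rw [hc]; exact hh), ?_⟩
    change (T.act (γ⁻¹ * (γ * h * γ⁻¹) * γ) x, T.act (γ⁻¹ * (γ * h * γ⁻¹) * γ) y) ∈ S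
    rw [hc]
    exact h1

theorem tw_vgs {F : Subgroup Γ} [F.Normal] (T : MTree M) (γ : Γ) :
    (T.tw γ).vgs F = {B | ∃ D ∈ T.vgs F, B = MulAut.conj γ • D} := by
  have hbot : ∀ D : Subgroup Γ, MulAut.conj γ • D = ⊥ → D = ⊥ := by
    intro D hD
    rw [Subgroup.eq_bot_iff_forall] at hD ⊢
    intro d hd
    have h1 : γ * d * γ⁻¹ ∈ MulAut.conj γ • D := by
      rw [mem_conj_smul]
      have h2 : γ⁻¹ * (γ * d * γ⁻¹) * γ = d := by group
      rw [h2]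
      exact hd
    have h3 := hD _ h1
    have h4 : d = γ⁻¹ * (γ * d * γ⁻¹) * γ := by group
    rw [h4, h3]
    group
  have hbot' : MulAut.conj γ • (⊥ : Subgroup Γ) = ⊥ := Subgroup.smul_bot _
  have key : ∀ x : T.X, (T.tw γ).stab x ⊓ F = MulAut.conj γ • (T.stab x ⊓ F) := fun x => by
    rw [tw_stab, conj_smul_inf]
  ext B
  constructor
  · rintro ⟨h1, x, h2⟩
    have h3 : B = MulAut.conj γ • (T.stab x ⊓ F) := h2.symm.trans (key x)
    refine ⟨T.stab x ⊓ F, ⟨?_, x, rfl⟩, h3⟩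
    intro h4
    rw [h4, hbot'] at h3
    exact h1 h3
  · rintro ⟨D, ⟨h1, x, h2⟩, h3⟩
    refine ⟨?_, x, ?_⟩
    · intro h4
      rw [h3] at h4
      exact h1 (hbot D h4)
    · refine (key x).trans ?_
      rw [h2, h3]

/-- restriction from `M` to `M'` with `M' ⊓ F = M ⊓ F` does not change the vertex groups in `F` -/
theorem res_vgs {F M' : Subgroup Γ} (T : MTree M) (h : M' ≤ M) (hF : M' ⊓ F = M ⊓ F) :
    (T.res h).vgs F = T.vgs F := by
  have h1 : ∀ x : T.X, (T.res h).stab x ⊓ F = T.stab x ⊓ F := by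
    intro x
    ext m
    rw [Subgroup.mem_inf, Subgroup.mem_inf]
    constructor
    · rintro ⟨⟨h2, h3⟩, h4⟩
      exact ⟨⟨h h2, h3⟩, h4⟩
    · rintro ⟨⟨h2, h3⟩, h4⟩
      have h5 : m ∈ M' ⊓ F := by
        rw [hF]
        exact ⟨h2, h4⟩
      exact ⟨⟨h5.1, h3⟩, h4⟩
  ext B
  constructor
  · rintro ⟨h2, x, h3⟩
    exact ⟨h2, x, by rw [← h1 x]; exact h3⟩
  · rintro ⟨h2, x, h3⟩
    exact ⟨h2, x, by rw [h1 x]; exact h3⟩

theorem res_stab {M' : Subgroup Γ} (T : MTree M) (h : M' ≤ M) (x : T.X) :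
    (T.res h).stab x = T.stab x ⊓ M' := by
  ext m
  rw [Subgroup.mem_inf]
  constructor
  · rintro ⟨h2, h3⟩
    exact ⟨⟨h h2, h3⟩, h2⟩
  · rintro ⟨⟨_, h3⟩, h2⟩
    exact ⟨h2, h3⟩

end MTree

end Pool.Agent.Lib.MP_6567fb_al
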