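import Pool.Agent.Lib.MP_6567fb_al.T8
import Pool.Agent.Lib.MP_6567fb_al.T12
import Pool.Agent.Lib.MP_6567fb_al.T0

/-!
# MP_6567fb_al, module T14b

Members of a family.
-/

set_option autoImplicit false

open scoped Pointwise

namespace Pool.Agent.Lib.MP_6567fb_al

open MTree
open scoped Pointwise
variable {Γ G : Type} [Group Γ] [Group G] {π : Γ →* G}

theorem stab_le_t14b {M : Subgroup Γ} (T : MTree M) (x : T.X) : T.stab x ≤ M := fun _ hm => hm.1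

theorem exists_ne_one_t14b {B : Subgroup Γ} (h : B ≠ ⊥) : ∃ b ∈ B, b ≠ 1 := by
  by_contra hcon
  push Not at hcon
  apply h
  rw [Subgroup.eq_bot_iff_forall]
  exact hcon

/-- conjugates by elements of the normaliser -/
theorem conj_smul_of_norm_t14b {D : Subgroup Γ} {m : Γ} (hm : m ∈ Subgroup.normalizer (D : Set Γ)) :
    MulAut.conj m • D = D := by
  ext x
  rw [Subgroup.mem_pointwise_smul_iff_inv_smul_mem, MulAut.smul_def, ← map_inv,
    MulAut.conj_apply, inv_inv]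
  have h1 := (Subgroup.mem_normalizer_iff.1 hm) (m⁻¹ * x * m)
  rw [h1]
  have h2 : m * (m⁻¹ * x * m) * m⁻¹ = x := by group
  rw [h2]

theorem smul_ne_bot_t14b {B : Subgroup Γ} (h : B ≠ ⊥) (m : Γ) : MulAut.conj m • B ≠ ⊥ := by
  intro hbot
  apply h
  rw [← inv_smul_smul (MulAut.conj m) B, hbot, Subgroup.smul_bot]

theorem periph_ne {M : Subgroup Γ} {Ω : Set (Subgroup Γ)} (h : IsPeriph π.ker M Ω) {B : Subgroup Γ}
    (hB : B ∈ Ω) : B ≠ ⊥ := by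
  obtain ⟨T, -, hv⟩ := h.tree
  rw [← hv] at hB
  exact hB.1

theorem periph_le {M : Subgroup Γ} {Ω : Set (Subgroup Γ)} (h : IsPeriph π.ker M Ω) {B : Subgroup Γ}
    (hB : B ∈ Ω) : B ≤ M ⊓ π.ker := by
  obtain ⟨T, -, hv⟩ := h.tree
  rw [← hv] at hB
  obtain ⟨-, x, rfl⟩ := hB
  exact inf_le_left.trans (stab_le_t14b T x)

theorem periph_disj {M : Subgroup Γ} {Ω : Set (Subgroup Γ)} (h : IsPeriph π.ker M Ω) {B B' : Subgroup Γ}
    (hB : B ∈ Ω) (hB' : B' ∈ Ω) (hne : B ⊓ B' ≠ ⊥) : B = B' := by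
  obtain ⟨T, hT, hv⟩ := h.tree
  rw [← hv] at hB hB'
  obtain ⟨-, x, rfl⟩ := hB
  obtain ⟨-, y, rfl⟩ := hB'
  obtain ⟨b, ⟨hb1, hb2⟩, hb⟩ := exists_ne_one_t14b hne
  have hxy : x = y := hT.fixed_unique (h := b) ⟨hb1.1.1, hb1.2⟩ hb hb1.1.2 hb2.1.2
  rw [hxy]

theorem periph_mfactor (hc : Ctx π) {M : Subgroup Γ} (hM : Loc π M) {Ω : Set (Subgroup Γ)}
    (h : IsPeriph π.ker M Ω) {B : Subgroup Γ} (hB : B ∈ Ω) : IsMFactor π.ker M B := by
  obtain ⟨T, hT, hv⟩ := h.tree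
  refine ⟨periph_ne h hB, ?_, ?_⟩
  · rw [← hv] at hB
    obtain ⟨-, x, hx⟩ := hB
    exact Or.inr ⟨T, hT, x, hx⟩
  · intro m hm
    apply class_fixed hc hM T hT _ hm (by rw [hv]; exact hB)
    intro m' hm' B' hB'
    rw [hv] at hB' ⊢
    exact h.inv m' hm' B' hB'

/-- elements of `H` normalising a member belong to it -/
theorem periph_self_norm {M : Subgroup Γ} {Ω : Set (Subgroup Γ)} (h : IsPeriph π.ker M Ω) {B : Subgroup Γ}
    (hB : B ∈ Ω) {x : Γ} (hx : x ∈ M ⊓ π.ker) (hxB : MulAut.conj x • B ⊓ B ≠ ⊥) : x ∈ B := by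
  obtain ⟨T, hT, hv⟩ := h.tree
  rw [← hv] at hB
  obtain ⟨-, v, rfl⟩ := hB
  obtain ⟨b, ⟨hb1, hb2⟩, hb⟩ := exists_ne_one_t14b hxB
  have hb3 : b ∈ T.stab (T.act x v) := by
    rw [T.stab_act hx]
    have hb1' : b ∈ MulAut.conj x • (T.stab v ⊓ π.ker) := hb1
    rw [Subgroup.mem_pointwise_smul_iff_inv_smul_mem] at hb1' ⊢
    exact hb1'.1
  have hxy : T.act x v = v := hT.fixed_unique (h := b) ⟨hb2.1.1, hb2.2⟩ hb hb3.2 hb2.1.2
  exact ⟨⟨hx, hxy⟩, hx.2⟩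

theorem proper_iff (hc : Ctx π) {M : Subgroup Γ} (hM : Loc π M) {Ω : Set (Subgroup Γ)} :
    IsProper π.ker M Ω ↔ IsPeriph π.ker M Ω ∧ (M ⊓ π.ker) ∉ Ω := by
  constructor
  · rintro ⟨hinv, T, hT, hn, hv⟩
    refine ⟨⟨hinv, T, hT, hv⟩, ?_⟩
    rw [← hv]
    rintro ⟨-, x, hx⟩
    obtain ⟨h, hh, hne⟩ := hn x
    apply hne
    have h1 : h ∈ T.stab x ⊓ π.ker := by
      rw [hx]
      exact hh.1
    exact h1.1.2
  · rintro ⟨⟨hinv, T, hT, hv⟩, hnot⟩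
    refine ⟨hinv, T, hT, ?_, hv⟩
    intro x
    by_contra hcon
    push Not at hcon
    apply hnot
    rw [← hv]
    refine ⟨hM.ne, x, ?_⟩
    apply le_antisymm
    · exact inf_le_left.trans (stab_le_t14b T x)
    · intro h hh
      exact ⟨⟨hh, hcon h ⟨hh, hh.2⟩⟩, hh.2⟩

/-- `M ⊓ F` instead of `M` -/
theorem Loc.ker_t14b {M : Subgroup Γ} (hM : Loc π M) : Loc π (M ⊓ π.ker) := by
  have h : (M ⊓ π.ker) ⊓ π.ker = M ⊓ π.ker := by rw [inf_assoc, inf_idem]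
  exact ⟨by rw [h]; exact hM.ne, by rw [h]; exact hM.fac⟩

theorem IsMFactor.ker_t14b {M D : Subgroup Γ} (hD : IsMFactor π.ker M D) :
    IsMFactor π.ker (M ⊓ π.ker) D := by
  have h : (M ⊓ π.ker) ⊓ π.ker = M ⊓ π.ker := by rw [inf_assoc, inf_idem]
  refine ⟨hD.ne, by rw [h]; exact hD.fac, ?_⟩
  intro m hm
  exact ⟨m, ⟨hm, hm.2⟩, rfl⟩

/-- a splitting of a smaller group from the core of a factor, or one point -/
theorem core_tree_t14b (hc : Ctx π) {M : Subgroup Γ} (hM : Loc π M) {D : Subgroup Γ}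
    (hD : IsMFactor π.ker M D) (T : MTree (M ⊓ π.ker)) (hT : T.IsSplitting π.ker) :
    ∃ T' : MTree ((M ⊓ Subgroup.normalizer D) ⊓ π.ker), T'.IsSplitting π.ker ∧
      T'.vgs π.ker = resFam (T.vgs π.ker) D := by
  have hDM : D ≤ M ⊓ π.ker := fac_le hD.fac
  have hnorm := norm_inf hc hM hD
  by_cases hell : T.Ell (D : Set Γ)
  · obtain ⟨v, hv⟩ := hell
    refine ⟨point _, point_isSplitting _ _, ?_⟩
    rw [hnorm]
    have hDv : D ≤ T.stab v ⊓ π.ker := fun d hd => ⟨⟨hDM hd, hv d hd⟩, (hDM hd).2⟩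
    have hpt : ∀ x : (point D).X, (point D).stab x ⊓ π.ker = D := by
      intro x
      apply le_antisymm
      · exact inf_le_left.trans (stab_le_t14b _ x)
      · intro d hd
        exact ⟨⟨hd, rfl⟩, (hDM hd).2⟩
    ext E
    constructor
    · rintro ⟨hE, x, hx⟩
      rw [hpt] at hx
      subst hx
      refine ⟨hE, T.stab v ⊓ π.ker, ⟨?_, v, rfl⟩, ?_⟩
      · intro hbot
        rw [hbot] at hDv
        exact hE (le_bot_iff.1 hDv)
      · exact (inf_eq_right.2 hDv).symm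
    · rintro ⟨hE, B, ⟨hB, y, rfl⟩, rfl⟩
      refine ⟨hE, Unit.unit, ?_⟩
      obtain ⟨b, ⟨hb1, hb2⟩, hb⟩ := exists_ne_one_t14b hE
      have hyv : y = v := hT.fixed_unique (h := b) ⟨hb1.1.1, hb1.2⟩ hb hb1.1.2 (hv b hb2)
      rw [hpt, hyv, inf_eq_right.2 hDv]
  · have hcomm : (M ⊓ Subgroup.normalizer D) ⊓ π.ker = (M ⊓ π.ker) ⊓ Subgroup.normalizer D :=
      inf_right_comm _ _ _
    obtain ⟨T', ι, hι, hran, hT', -⟩ := core_splitting hc hM.ker_t14b hT hD.ker_t14b hell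
    rw [hcomm]
    refine ⟨T', hT', ?_⟩
    have hstab : ∀ x : T'.X, T'.stab x ⊓ π.ker = (T.stab (ι x) ⊓ π.ker) ⊓ D := by
      intro x
      ext m
      constructor
      · rintro ⟨⟨h1, h2⟩, h3⟩
        have hmD : m ∈ D := by
          rw [← hnorm, hcomm]
          exact h1
        refine ⟨⟨⟨h1.1, ?_⟩, h3⟩, hmD⟩
        rw [← hι.equi m h1, h2]
      · rintro ⟨⟨⟨h1, h2⟩, h3⟩, h4⟩
        have h5 : m ∈ (M ⊓ π.ker) ⊓ Subgroup.normalizer (D : Set Γ) := by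
          rw [← hcomm, hnorm]
          exact h4
        refine ⟨⟨h5, hι.inj ?_⟩, h3⟩
        rw [hι.equi m h5]
        exact h2
    ext E
    constructor
    · rintro ⟨hE, x, rfl⟩
      rw [hstab] at hE ⊢
      refine ⟨hE, T.stab (ι x) ⊓ π.ker, ⟨?_, ι x, rfl⟩, rfl⟩
      intro hbot
      rw [hbot, bot_inf_eq] at hE
      exact hE rfl
    · rintro ⟨hE, B, ⟨hB, y, rfl⟩, rfl⟩
      obtain ⟨b, ⟨hb1, hb2⟩, hb⟩ := exists_ne_one_t14b hE
      have hni := hT.noInv hc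
      have hDfg : D.FG := by
        apply fac_fg hc
        exact (fac_trans hc le_rfl hM.fac hD.fac)
      have hne := T.core_nonempty hni hDM hDfg
      have hfix := T.fix_proj (hDM hb2) (S := T.core D) ⟨y, hb1.1.2⟩ (T.core_conv hni hDM) hne (by
        intro x hx
        have h1 := T.core_conj hDM (hDM hb2)
        rw [Subgroup.conj_smul_eq_self_of_mem hb2] at h1
        rw [h1]
        exact ⟨x, hx, rfl⟩)
      obtain ⟨w, hw, hbw⟩ := hfix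
      have hyw : y = w := hT.fixed_unique (h := b) ⟨hb1.1.1, hb1.2⟩ hb hb1.1.2 hbw
      rw [← hran] at hw
      obtain ⟨x, hx⟩ := hw
      refine ⟨hE, x, ?_⟩
      rw [hstab, hx, hyw]

theorem periph_res (hc : Ctx π) {M : Subgroup Γ} (hM : Loc π M) {Ω : Set (Subgroup Γ)}
    (h : IsPeriph π.ker M Ω) {D : Subgroup Γ} (hD : IsMFactor π.ker M D) :
    IsPeriph π.ker (M ⊓ Subgroup.normalizer D) (resFam Ω D) := by
  constructor
  · rintro m ⟨hm, hmD⟩ E ⟨hE, B, hB, rfl⟩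
    refine ⟨?_, MulAut.conj m • B, h.inv m hm B hB, ?_⟩
    · exact smul_ne_bot_t14b hE m
    · rw [Subgroup.smul_inf, conj_smul_of_norm_t14b hmD]
  · obtain ⟨T, hT, hv⟩ := h.tree
    obtain ⟨T', hT', hv'⟩ := core_tree_t14b hc hM hD T hT
    exact ⟨T', hT', by rw [hv', hv]⟩

theorem proper_res (hc : Ctx π) {M : Subgroup Γ} (hM : Loc π M) {Ω : Set (Subgroup Γ)}
    (h : IsPeriph π.ker M Ω) {D : Subgroup Γ} (hD : IsMFactor π.ker M D) (hn : ∀ B ∈ Ω, ¬ D ≤ B) :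
    IsProper π.ker (M ⊓ Subgroup.normalizer D) (resFam Ω D) := by
  rw [proper_iff hc (mfactor_loc hc hM hD)]
  refine ⟨periph_res hc hM h hD, ?_⟩
  rw [norm_inf hc hM hD]
  rintro ⟨-, B, hB, hDB⟩
  apply hn B hB
  rw [hDB]
  exact inf_le_left

/-- the vertex groups of an `M`-splitting are a family -/
theorem periph_of_splitting {M : Subgroup Γ} {T : MTree M} (hT : T.IsSplitting π.ker) :
    IsPeriph π.ker M (T.vgs π.ker) := by
  constructor
  · rintro m hm B ⟨hB, x, rfl⟩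
    refine ⟨?_, T.act m x, ?_⟩
    · exact smul_ne_bot_t14b hB m
    · rw [Subgroup.smul_inf, T.stab_act hm, Subgroup.Normal.conj_smul_eq_self m π.ker]
  · have hF : (M ⊓ π.ker) ⊓ π.ker = M ⊓ π.ker := by rw [inf_assoc, inf_idem]
    exact ⟨T.res inf_le_left, hT.res _ hF, res_vgs T _ hF⟩

/-- the empty family (Cayley tree) -/
theorem periph_empty (hc : Ctx π) {M : Subgroup Γ} (hM : Loc π M) : IsProper π.ker M ∅ := by
  obtain ⟨C, c₀, hC, hu, -⟩ := cayley_exists hc hM.fac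
  have hfree : ∀ x : C.X, ∀ h ∈ M ⊓ π.ker, C.act h x = x → h = 1 := by
    intro x h hh hx
    obtain ⟨d, ⟨hd, hdx⟩, -⟩ := hu x
    obtain ⟨d', -, hd'⟩ := hu x
    have h1 : h * d = d' := hd' _ ⟨mul_mem hh hd, by
      rw [C.act_mul h hh d hd, hdx, hx]⟩
    have h2 : d = d' := hd' _ ⟨hd, hdx⟩
    have h3 : h * d = d := h1.trans h2.symm
    exact mul_eq_right.1 h3
  refine ⟨fun m _ B hB => hB.elim, C, hC, ?_, ?_⟩
  · intro x
    obtain ⟨h, hh, hne⟩ := exists_ne_one_t14b hM.ne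
    exact ⟨h, ⟨hh, hh.2⟩, fun hx => hne (hfree x h hh hx)⟩
  · rw [Set.eq_empty_iff_forall_notMem]
    rintro B ⟨hB, x, rfl⟩
    apply hB
    rw [Subgroup.eq_bot_iff_forall]
    intro h hh
    exact hfree x h hh.1.1 hh.1.2

end Pool.Agent.Lib.MP_6567fb_al
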