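import Pool.Agent.Lib.MP_6567fb_al.T1c

/-!
# MP_6567fb_al, module T2a

Automorphisms, trivial facts.  dist_act: `act m` is a graph automorphism (inverse `act m⁻¹`), so it preserves
distances.  fix_conv: uniqueness of geodesics (btw_point).
-/

set_option autoImplicit false

open scoped Pointwise

namespace Pool.Agent.Lib.MP_6567fb_al

open MTree
namespace MTree
variable {Γ : Type} [Group Γ] {M : Subgroup Γ} (T : MTree M)

theorem act_inv_act {m : Γ} (hm : m ∈ M) (x : T.X) : T.act m⁻¹ (T.act m x) = x := by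
  rw [← T.act_mul _ (M.inv_mem hm) _ hm, inv_mul_cancel, T.act_one]
theorem act_act_inv {m : Γ} (hm : m ∈ M) (x : T.X) : T.act m (T.act m⁻¹ x) = x := by
  rw [← T.act_mul _ hm _ (M.inv_mem hm), mul_inv_cancel, T.act_one]
theorem act_inj {m : Γ} (hm : m ∈ M) : Function.Injective (T.act m) :=
  Function.LeftInverse.injective (T.act_inv_act hm)
theorem act_surj {m : Γ} (hm : m ∈ M) : Function.Surjective (T.act m) :=
  Function.RightInverse.surjective (T.act_act_inv hm)
theorem adj_act_iff {m : Γ} (hm : m ∈ M) (x y : T.X) : T.G.Adj (T.act m x) (T.act m y) ↔ T.G.Adj x y := by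
  refine ⟨fun h => ?_, T.act_adj m hm x y⟩
  have := T.act_adj m⁻¹ (M.inv_mem hm) _ _ h
  rwa [T.act_inv_act hm, T.act_inv_act hm] at this

theorem dist_act_le {m : Γ} (hm : m ∈ M) (x y : T.X) : T.G.dist (T.act m x) (T.act m y) ≤ T.G.dist x y := by
  obtain ⟨p, hp⟩ := (T.tree.connected x y).exists_walk_length_eq_dist
  let f : T.G →g T.G := ⟨T.act m, fun {a b} h => T.act_adj m hm a b h⟩
  have := SimpleGraph.dist_le (p.map f)
  rw [SimpleGraph.Walk.length_map, hp] at this
  exact this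

theorem dist_act {m : Γ} (hm : m ∈ M) (x y : T.X) : T.G.dist (T.act m x) (T.act m y) = T.G.dist x y := by
  refine le_antisymm (T.dist_act_le hm x y) ?_
  have := T.dist_act_le (M.inv_mem hm) (T.act m x) (T.act m y)
  rwa [T.act_inv_act hm, T.act_inv_act hm] at this
theorem btw_act {m : Γ} (hm : m ∈ M) (x y z : T.X) :
    T.Btw (T.act m x) (T.act m y) (T.act m z) ↔ T.Btw x y z := by
  unfold Btw TG.Btw
  rw [T.dist_act hm, T.dist_act hm, T.dist_act hm]
theorem beyond_act {m : Γ} (hm : m ∈ M) (x y z : T.X) :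
    T.Beyond (T.act m x) (T.act m y) (T.act m z) ↔ T.Beyond x y z := by
  unfold Beyond TG.Beyond
  rw [T.dist_act hm, T.dist_act hm]
theorem conv_image {m : Γ} (hm : m ∈ M) {S : Set T.X} (hS : T.Conv S) : T.Conv (T.act m '' S) := by
  rintro _ ⟨x, hx, rfl⟩ _ ⟨z, hz, rfl⟩ y hy
  obtain ⟨y', rfl⟩ := T.act_surj hm y
  exact ⟨y', hS x hx z hz y' ((T.btw_act hm x y' z).1 hy), rfl⟩
theorem fix_conv {m : Γ} (hm : m ∈ M) : T.Conv (T.Fix m) := by
  intro x hx z hz y hy
  have hx' : T.act m x = x := hx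
  have hz' : T.act m z = z := hz
  have hle : T.G.dist x y ≤ T.G.dist x z := by
    have : T.G.dist x y + T.G.dist y z = T.G.dist x z := hy
    omega
  obtain ⟨w, _, hw⟩ := TG.btw_point T.tree hle
  have h1 : y = w := hw y ⟨hy, rfl⟩
  have h2 : T.act m y = w := by
    apply hw
    constructor
    · have := (T.btw_act hm x y z).2 hy
      rwa [hx', hz'] at this
    · have := T.dist_act hm x y
      rwa [hx'] at this
  show T.act m y = y
  rw [h2, ← h1]
theorem fix_inv {m : Γ} (hm : m ∈ M) : T.Fix m⁻¹ = T.Fix m := by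
  ext x
  constructor
  · intro h
    have h' : T.act m⁻¹ x = x := h
    show T.act m x = x
    have := T.act_act_inv hm x
    rwa [h'] at this
  · intro h
    have h' : T.act m x = x := h
    show T.act m⁻¹ x = x
    have := T.act_inv_act hm x
    rwa [h'] at this
theorem fix_pow {m : Γ} (hm : m ∈ M) {x : T.X} (hx : T.act m x = x) (k : ℕ) : T.act (m ^ k) x = x := by
  induction k with
  | zero => rw [pow_zero, T.act_one]
  | succ k ih => rw [pow_succ, T.act_mul _ (M.pow_mem hm k) _ hm, hx, ih]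
theorem stab_act {m : Γ} (hm : m ∈ M) (x : T.X) : T.stab (T.act m x) = MulAut.conj m • T.stab x := by
  ext g
  rw [Subgroup.mem_pointwise_smul_iff_inv_smul_mem, ← map_inv, MulAut.smul_def, MulAut.conj_apply, inv_inv]
  show (g ∈ M ∧ T.act g (T.act m x) = T.act m x) ↔ (m⁻¹ * g * m ∈ M ∧ T.act (m⁻¹ * g * m) x = x)
  constructor
  · rintro ⟨hg, h⟩
    refine ⟨M.mul_mem (M.mul_mem (M.inv_mem hm) hg) hm, ?_⟩
    rw [T.act_mul _ (M.mul_mem (M.inv_mem hm) hg) _ hm, T.act_mul _ (M.inv_mem hm) _ hg, h,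
      T.act_inv_act hm]
  · rintro ⟨hg, h⟩
    have hg' : g ∈ M := by
      have := M.mul_mem (M.mul_mem hm hg) (M.inv_mem hm)
      have e : m * (m⁻¹ * g * m) * m⁻¹ = g := by group
      rwa [e] at this
    refine ⟨hg', ?_⟩
    have : T.act m (T.act (m⁻¹ * g * m) x) = T.act m x := by rw [h]
    rw [← T.act_mul _ hm _ hg] at this
    have e : m * (m⁻¹ * g * m) = g * m := by group
    rw [e, T.act_mul _ hg' _ hm] at this
    exact this
theorem fix_conj {m n : Γ} (hm : m ∈ M) (hn : n ∈ M) : T.Fix (m * n * m⁻¹) = T.act m '' T.Fix n := by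
  ext x
  constructor
  · intro h
    have h' : T.act (m * n * m⁻¹) x = x := h
    refine ⟨T.act m⁻¹ x, ?_, T.act_act_inv hm x⟩
    show T.act n (T.act m⁻¹ x) = T.act m⁻¹ x
    apply T.act_inj hm
    rw [← T.act_mul _ hn _ (M.inv_mem hm), ← T.act_mul _ hm _ (M.mul_mem hn (M.inv_mem hm)), ← mul_assoc,
      h', T.act_act_inv hm]
  · rintro ⟨y, hy, rfl⟩
    have hy' : T.act n y = y := hy
    show T.act (m * n * m⁻¹) (T.act m y) = T.act m y
    rw [T.act_mul _ (M.mul_mem hm hn) _ (M.inv_mem hm), T.act_inv_act hm, T.act_mul _ hm _ hn, hy']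

end MTree

end Pool.Agent.Lib.MP_6567fb_al
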