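import Pool.Agent.Lib.MP_6567fb_al.T10a
import Pool.Agent.Lib.MP_6567fb_al.T2a

/-!
# MP_6567fb_al, module T10b

Induction of vertex trees.  Y := {(v, u) : v in B.X, u in (U (r v)).X} where r v is the representative of the orbit of v; choose g_v in M
with g_v (r v) = v, g_v = 1 for v in R.  Action: m (v,u) = (m v, (g_{mv}⁻¹ m g_v) u) (g_{mv}⁻¹ m g_v in stab (r v); r (m v) = r v: use a
dependent elimination or the set {(v, ⟨r, u⟩) : Σ r, (U r).X // ...}).  Attaching: att v w := (v, att (r v) (g_v⁻¹ w)).  T := Glue.toTree.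
exists_reps: choose representatives of the orbits, v₀ for its own orbit.
-/

set_option autoImplicit false

open scoped Pointwise

namespace Pool.Agent.Lib.MP_6567fb_al

open MTree
namespace MTree
variable {Γ : Type} [Group Γ] {M : Subgroup Γ}

/-- orbit representatives containing a given vertex -/
theorem exists_reps (B : MTree M) (v₀ : B.X) :
    ∃ R : Set B.X, v₀ ∈ R ∧ ∀ v, ∃! r, r ∈ R ∧ ∃ m ∈ M, B.act m r = v := by
  classical
  let s : Setoid B.X :=
    { r := fun u v => ∃ m ∈ M, B.act m u = v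
      iseqv := by
        refine ⟨fun u => ⟨1, M.one_mem, B.act_one u⟩, ?_, ?_⟩
        · rintro u v ⟨m, hm, rfl⟩
          exact ⟨m⁻¹, M.inv_mem hm, B.act_inv_act hm u⟩
        · rintro u v w ⟨m, hm, rfl⟩ ⟨n, hn, rfl⟩
          exact ⟨n * m, M.mul_mem hn hm, B.act_mul n hn m hm u⟩ }
  let f : Quotient s → B.X := fun q => if q = Quotient.mk s v₀ then v₀ else q.out
  have hf : ∀ q, Quotient.mk s (f q) = q := by
    intro q
    by_cases h : q = Quotient.mk s v₀
    · simp only [f, if_pos h]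
      exact h.symm
    · simp only [f, if_neg h]
      exact q.out_eq
  refine ⟨Set.range f, ⟨Quotient.mk s v₀, if_pos rfl⟩, fun v => ?_⟩
  refine ⟨f (Quotient.mk s v), ⟨⟨_, rfl⟩, ?_⟩, ?_⟩
  · exact Quotient.exact (hf (Quotient.mk s v))
  · rintro r ⟨⟨q, rfl⟩, hr⟩
    have h : Quotient.mk s (f q) = Quotient.mk s v := Quotient.sound hr
    rw [hf q] at h
    rw [h]

section induction
variable (B : MTree M) (U : ∀ v, MTree (B.stab v))

/-- graph on the disjoint union of the vertex trees -/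
def t10Sig : SimpleGraph (Σ s, (U s).X) where
  Adj p q := ∃ s, ∃ u u' : (U s).X, p = ⟨s, u⟩ ∧ q = ⟨s, u'⟩ ∧ (U s).G.Adj u u'
  symm := ⟨by
    rintro p q ⟨s, u, u', h1, h2, h3⟩
    exact ⟨s, u', u, h2, h1, h3.symm⟩⟩
  loopless := ⟨by
    rintro p ⟨s, u, u', h1, h2, h3⟩
    rw [h1] at h2
    have : u = u' := eq_of_heq (Sigma.mk.inj h2).2
    rw [this] at h3
    exact (U s).G.loopless.irrefl _ h3⟩

theorem t10Sig_adj (s : B.X) (u u' : (U s).X) : (t10Sig B U).Adj ⟨s, u⟩ ⟨s, u'⟩ ↔ (U s).G.Adj u u' := by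
  constructor
  · rintro ⟨t, a, b, h1, h2, h3⟩
    obtain ⟨rfl, h1⟩ := Sigma.mk.inj h1
    have h1 := eq_of_heq h1
    have h2 := eq_of_heq (Sigma.mk.inj h2).2
    rw [h1, h2]
    exact h3
  · intro h
    exact ⟨s, u, u', rfl, rfl, h⟩

open Classical in
/-- the gluing datum of an induction of vertex trees -/
noncomputable def t10Glue (r : B.X → B.X) (g : B.X → Γ) (hg : ∀ v, g v ∈ M) (hgr : ∀ v, B.act (g v) (r v) = v)
    (hr : ∀ m ∈ M, ∀ v, r (B.act m v) = r v) (att : ∀ v, B.X → (U v).X)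
    (hatt : ∀ v, ∀ m ∈ B.stab (r v), ∀ w, B.G.Adj (r v) w →
      att (r v) (B.act m w) = (U (r v)).act m (att (r v) w)) : Glue B :=
  have hc : ∀ m ∈ M, ∀ v, (g (B.act m v))⁻¹ * m * g v ∈ B.stab (r v) := by
    intro m hm v
    have h1 : (g (B.act m v))⁻¹ ∈ M := M.inv_mem (hg _)
    refine ⟨M.mul_mem (M.mul_mem h1 hm) (hg v), ?_⟩
    rw [B.act_mul _ (M.mul_mem h1 hm) _ (hg v), hgr v, B.act_mul _ h1 _ hm]
    have h2 := hgr (B.act m v)
    rw [hr m hm v] at h2
    nth_rewrite 2 [← h2]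
    exact B.act_inv_act (hg _) _
  { Y := {p : B.X × (Σ s, (U s).X) // p.2.1 = r p.1}
    GY :=
      { Adj := fun p q => p.1.1 = q.1.1 ∧ (t10Sig B U).Adj p.1.2 q.1.2
        symm := ⟨fun p q h => ⟨h.1.symm, h.2.symm⟩⟩
        loopless := ⟨fun p h => (t10Sig B U).loopless.irrefl _ h.2⟩ }
    act := fun m y => if hm : m ∈ M then
      ⟨(B.act m y.1.1, ⟨y.1.2.1, (U y.1.2.1).act ((g (B.act m y.1.1))⁻¹ * m * g y.1.1) y.1.2.2⟩),
        y.2.trans (hr m hm _).symm⟩ else y
    pr := fun y => y.1.1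
    att := fun v w => ⟨(v, ⟨r v, att (r v) (B.act (g v)⁻¹ w)⟩), rfl⟩
    act_one := by
      rintro ⟨⟨v, ⟨s, u⟩⟩, h⟩
      rw [dif_pos M.one_mem]
      apply Subtype.ext
      change (B.act 1 v, (⟨s, (U s).act ((g (B.act 1 v))⁻¹ * 1 * g v) u⟩ : Σ s, (U s).X)) = (v, ⟨s, u⟩)
      rw [B.act_one, mul_one, inv_mul_cancel, (U s).act_one]
    act_mul := by
      rintro m hm m' hm' ⟨⟨v, ⟨s, u⟩⟩, h⟩
      change s = r v at h
      rw [dif_pos (M.mul_mem hm hm'), dif_pos hm, dif_pos hm']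
      apply Subtype.ext
      change (B.act (m * m') v, (⟨s, (U s).act ((g (B.act (m * m') v))⁻¹ * (m * m') * g v) u⟩ : Σ s, (U s).X)) =
        (B.act m (B.act m' v), ⟨s, (U s).act ((g (B.act m (B.act m' v)))⁻¹ * m * g (B.act m' v))
          ((U s).act ((g (B.act m' v))⁻¹ * m' * g v) u)⟩)
      have e1 : (g (B.act m (B.act m' v)))⁻¹ * m * g (B.act m' v) ∈ B.stab s := by
        have := hc m hm (B.act m' v)
        rw [hr m' hm' v, ← h] at this
        exact this
      have e2 : (g (B.act m' v))⁻¹ * m' * g v ∈ B.stab s := by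
        rw [h]
        exact hc m' hm' v
      rw [← (U s).act_mul _ e1 _ e2, B.act_mul m hm m' hm' v]
      have e3 : (g (B.act m (B.act m' v)))⁻¹ * (m * m') * g v =
        (g (B.act m (B.act m' v)))⁻¹ * m * g (B.act m' v) * ((g (B.act m' v))⁻¹ * m' * g v) := by group
      rw [e3]
    act_adj := by
      rintro m hm ⟨⟨v, ⟨s, u⟩⟩, h⟩ ⟨⟨v', ⟨s', u'⟩⟩, h'⟩ ⟨h1, h2⟩
      change s = r v at h
      change s' = r v' at h'
      change v = v' at h1
      subst h1
      obtain rfl : s = s' := h.trans h'.symm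
      rw [dif_pos hm, dif_pos hm]
      refine ⟨rfl, ?_⟩
      change (t10Sig B U).Adj ⟨s, _⟩ ⟨s, _⟩
      rw [t10Sig_adj]
      have h3 : (U s).G.Adj u u' := (t10Sig_adj B U s u u').mp h2
      refine (U s).act_adj _ ?_ _ _ h3
      have h4 := hc m hm v
      rw [← h] at h4
      exact h4
    equi := by
      rintro m hm y
      rw [dif_pos hm]
    fib := fun x y h => h.1
    tree := by
      intro v
      let e : (U (r v)).G ≃g SimpleGraph.induce ((fun y : {p : B.X × (Σ s, (U s).X) // p.2.1 = r p.1} => y.1.1) ⁻¹' {v})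
          ({ Adj := fun p q => p.1.1 = q.1.1 ∧ (t10Sig B U).Adj p.1.2 q.1.2
             symm := ⟨fun p q h => ⟨h.1.symm, h.2.symm⟩⟩
             loopless := ⟨fun p h => (t10Sig B U).loopless.irrefl _ h.2⟩ } :
             SimpleGraph {p : B.X × (Σ s, (U s).X) // p.2.1 = r p.1}) :=
        { toEquiv := Equiv.ofBijective (fun u => ⟨⟨(v, ⟨r v, u⟩), rfl⟩, rfl⟩) (by
            constructor
            · intro a b hab
              have h1 := congrArg (fun z => z.1.1.2) hab
              exact eq_of_heq (Sigma.mk.inj h1).2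
            · rintro ⟨⟨⟨v', ⟨s, u⟩⟩, h⟩, hv⟩
              change v' = v at hv
              subst hv
              change s = r v' at h
              subst h
              exact ⟨u, rfl⟩)
          map_rel_iff' := by
            intro a b
            constructor
            · intro h
              exact (t10Sig_adj B U (r v) a b).mp h.2
            · intro h
              exact ⟨rfl, (t10Sig_adj B U (r v) a b).mpr h⟩ }
      exact (SimpleGraph.Iso.isTree_iff e).mp (U (r v)).tree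
    pr_att := fun v w _ => rfl
    act_att := by
      intro m hm v w hvw
      rw [dif_pos hm]
      apply Subtype.ext
      change (B.act m v, (⟨r v, (U (r v)).act ((g (B.act m v))⁻¹ * m * g v) (att (r v) (B.act (g v)⁻¹ w))⟩ :
        Σ s, (U s).X)) = (B.act m v, ⟨r (B.act m v), att (r (B.act m v)) (B.act (g (B.act m v))⁻¹ (B.act m w))⟩)
      have h0 : (g v)⁻¹ ∈ M := M.inv_mem (hg v)
      have h0' : (g (B.act m v))⁻¹ ∈ M := M.inv_mem (hg _)
      have h1 : B.G.Adj (r v) (B.act (g v)⁻¹ w) := by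
        have := B.act_adj _ h0 _ _ hvw
        have h2 : B.act (g v)⁻¹ v = r v := by
          nth_rewrite 2 [← hgr v]
          exact B.act_inv_act (hg v) _
        rw [h2] at this
        exact this
      have h2 := hatt v _ (hc m hm v) _ h1
      have h3 : B.act ((g (B.act m v))⁻¹ * m * g v) (B.act (g v)⁻¹ w) = B.act (g (B.act m v))⁻¹ (B.act m w) := by
        rw [B.act_mul _ (M.mul_mem h0' hm) _ (hg v), B.act_act_inv (hg v), B.act_mul _ h0' _ hm]
      rw [h3] at h2
      rw [← h2, hr m hm v] }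

end induction

theorem blowup_exists (B : MTree M) (R : Set B.X)
    (hR : ∀ v, ∃! r, r ∈ R ∧ ∃ m ∈ M, B.act m r = v) (U : ∀ v, MTree (B.stab v))
    (att : ∀ v, B.X → (U v).X)
    (hatt : ∀ v ∈ R, ∀ m ∈ B.stab v, ∀ w, B.G.Adj v w → att v (B.act m w) = (U v).act m (att v w)) :
    ∃ (T : MTree M) (pr : T.X → B.X) (ι : ∀ v, (U v).X → T.X), IsBlowup T B pr ∧
      ∀ v ∈ R, IsEmb (U v) T (ι v) ∧ Set.range (ι v) = pr ⁻¹' {v} ∧
        ∀ w, B.G.Adj v w → ∃ z, pr z = w ∧ T.G.Adj (ι v (att v w)) z := by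
  classical
  have h1 : ∀ v, ∃ r, r ∈ R ∧ ∃ m ∈ M, B.act m r = v ∧ (v ∈ R → r = v ∧ m = 1) := by
    intro v
    by_cases hv : v ∈ R
    · exact ⟨v, hv, 1, M.one_mem, B.act_one v, fun _ => ⟨rfl, rfl⟩⟩
    · obtain ⟨r, hr, m, hm, h⟩ := (hR v).exists
      exact ⟨r, hr, m, hm, h, fun h => absurd h hv⟩
  choose r hrR g hg hgr hone using h1
  have hr : ∀ m ∈ M, ∀ v, r (B.act m v) = r v := by
    intro m hm v
    refine (hR (B.act m v)).unique ⟨hrR _, g _, hg _, hgr _⟩ ⟨hrR v, m * g v, M.mul_mem hm (hg v), ?_⟩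
    rw [B.act_mul m hm _ (hg v), hgr v]
  let D := t10Glue B U r g hg hgr hr att (fun v m hm w hw => hatt (r v) (hrR v) m hm w hw)
  let ι : ∀ v, (U v).X → D.toTree.X := fun v u => if h : v = r v then ⟨(v, ⟨v, u⟩), h⟩ else D.att v v
  have hι : ∀ v (h : v = r v) u, ι v u = ⟨(v, ⟨v, u⟩), h⟩ := fun v h u => dif_pos h
  refine ⟨D.toTree, D.pr, ι, D.isBlowup, ?_⟩
  intro v hv
  obtain ⟨hrv, hgv⟩ := hone v hv
  have hrv' : v = r v := hrv.symm
  have hinj : Function.Injective (ι v) := by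
    intro a b hab
    rw [hι v hrv', hι v hrv'] at hab
    have h1 := congrArg (fun z => z.1.2) hab
    exact eq_of_heq (Sigma.mk.inj h1).2
  refine ⟨⟨hinj, ?_, ?_⟩, ?_, ?_⟩
  · intro x y
    refine TG.local_inj D.toTree.tree (U v).tree (ι v) ?_ ?_ x y
    · intro a b hab
      rw [hι v hrv', hι v hrv']
      refine Or.inl ⟨rfl, ?_⟩
      exact (t10Sig_adj B U v a b).mpr hab
    · intro a b c _ _ hbc h
      exact hbc (hinj h)
  · intro m hm x
    rw [hι v hrv', hι v hrv']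
    have h2 : D.toTree.act m ⟨(v, ⟨v, x⟩), hrv'⟩ =
        ⟨(B.act m v, ⟨v, (U v).act ((g (B.act m v))⁻¹ * m * g v) x⟩), hrv'.trans (hr m hm.1 _).symm⟩ :=
      dif_pos hm.1
    rw [h2]
    apply Subtype.ext
    change (v, (⟨v, (U v).act m x⟩ : Σ s, (U s).X)) = (B.act m v, ⟨v, (U v).act ((g (B.act m v))⁻¹ * m * g v) x⟩)
    rw [hm.2, hgv, inv_one, one_mul, mul_one]
  · ext y
    constructor
    · rintro ⟨u, rfl⟩
      rw [hι v hrv']
      rfl
    · intro hy
      obtain ⟨⟨v', ⟨s, u⟩⟩, h⟩ := y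
      have hy' : v' = v := hy
      subst hy'
      change s = r v' at h
      obtain rfl : s = v' := h.trans hrv
      exact ⟨u, hι s hrv' u⟩
  · intro w hw
    refine ⟨D.att w v, rfl, ?_⟩
    have h3 : ι v (att v w) = D.att v w := by
      rw [hι v hrv']
      apply Subtype.ext
      change (v, (⟨v, att v w⟩ : Σ s, (U s).X)) = (v, ⟨r v, att (r v) (B.act (g v)⁻¹ w)⟩)
      rw [hgv, inv_one, B.act_one, hrv]
    rw [h3]
    exact D.adj_att hw

/-- the one point tree -/
def point (M : Subgroup Γ) : MTree M where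
  X := Unit
  G := ⊥
  tree := by
    rw [SimpleGraph.isTree_iff]
    refine ⟨⟨fun x y => by rw [Subsingleton.elim x y]⟩, ?_⟩
    exact SimpleGraph.isAcyclic_bot
  act := fun _ x => x
  act_one := fun _ => rfl
  act_mul := fun _ _ _ _ _ => rfl
  act_adj := fun _ _ _ _ h => h

theorem point_isSplitting (F M : Subgroup Γ) : (point M).IsSplitting F := by
  refine ⟨?_, ?_, ⟨∅, ?_⟩⟩
  · intro h _ x y hxy
    exact absurd hxy id
  · intro m _ x y hxy
    exact absurd hxy id
  · intro x y hxy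
    exact absurd hxy id

end MTree

end Pool.Agent.Lib.MP_6567fb_al
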