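import Pool.Agent.Lib.MP_6567fb_al.T8
import Pool.Agent.Lib.MP_6567fb_al.T0
import Pool.Agent.Lib.MP_6567fb_al.T10b

/-!
# MP_6567fb_al, module T8b

mfactor_inter, see the hint in T8: D ⊓ E is a factor of D (fac_inter).  Let T_E be a splitting of H with vertex group E; blow up the vertices not in the
orbit of E by Cayley trees of their groups (T0), so that the non-trivial vertex groups are exactly the H-conjugates of E
(E = H: clear).  The core of D in T_E (or the fixed vertex) is a D-splitting with non-trivial vertex groups the D ⊓ hE ≠ ⊥, h in H: an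
(M ⊓ N(D))-invariant family since m E = h E.  class_fixed for M ⊓ N(D).
-/

set_option autoImplicit false

open scoped Pointwise

namespace Pool.Agent.Lib.MP_6567fb_al

open MTree
open scoped Pointwise
variable {Γ G : Type} [Group Γ] [Group G] {π : Γ →* G}

theorem t8b_ne {D : Subgroup Γ} (h : D ≠ ⊥) : ∃ d : Γ, d ∈ D ∧ d ≠ 1 := by
  by_contra hcon
  push Not at hcon
  exact h ((Subgroup.eq_bot_iff_forall D).mpr hcon)

/-- an equivariant attaching map -/
theorem t8b_att {H : Subgroup Γ} (T : MTree H)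
    (hfree : ∀ h ∈ H, ∀ x y, T.G.Adj x y → T.act h x = x → T.act h y = y → h = 1)
    (v : T.X) (U : MTree (T.stab v)) (hU : Nonempty U.X) :
    ∃ att : T.X → U.X, ∀ m ∈ T.stab v, ∀ w, T.G.Adj v w → att (T.act m w) = U.act m (att w) := by
  classical
  obtain ⟨c₀⟩ := hU
  -- orbit relation on all vertices under stab v
  let rel : T.X → T.X → Prop := fun a b => ∃ m ∈ T.stab v, T.act m a = b
  have hrefl : ∀ a, rel a a := fun a => ⟨1, (T.stab v).one_mem, T.act_one a⟩
  have hsymm : ∀ a b, rel a b → rel b a := by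
    rintro a b ⟨m, hm, rfl⟩
    exact ⟨m⁻¹, (T.stab v).inv_mem hm, T.act_inv_act hm.1 a⟩
  have htrans : ∀ a b c, rel a b → rel b c → rel a c := by
    rintro a b c ⟨m, hm, rfl⟩ ⟨n, hn, rfl⟩
    exact ⟨n * m, (T.stab v).mul_mem hn hm, T.act_mul n hn.1 m hm.1 a⟩
  let s : Setoid T.X := ⟨rel, hrefl, fun {a b} => hsymm a b, fun {a b c} => htrans a b c⟩
  let rep : T.X → T.X := fun w => (Quotient.mk s w).out
  have hrep : ∀ w, rel (rep w) w := fun w => Quotient.mk_out (s := s) w
  have hrepeq : ∀ a b, rel a b → rep a = rep b := by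
    intro a b h
    have : Quotient.mk s a = Quotient.mk s b := Quotient.sound h
    simp only [rep, this]
  choose g hg hgw using hrep
  refine ⟨fun w => U.act (g w) c₀, ?_⟩
  intro m hm w hw
  have h1 : rep (T.act m w) = rep w := (hrepeq w (T.act m w) ⟨m, hm, rfl⟩).symm
  have h2 : g (T.act m w) = m * g w := by
    have h3 : T.act (g (T.act m w)) (rep w) = T.act m w := by
      have := hgw (T.act m w)
      rwa [h1] at this
    have h4 : T.act (m * g w) (rep w) = T.act m w := by
      rw [T.act_mul m hm.1 _ (hg w).1, hgw]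
    have ha := hg (T.act m w)
    have hb : m * g w ∈ T.stab v := (T.stab v).mul_mem hm (hg w)
    have hadj : T.G.Adj v (rep w) := by
      have := T.act_adj (g w)⁻¹ (H.inv_mem (hg w).1) v w hw
      have h5 : T.act (g w)⁻¹ v = v := ((T.stab v).inv_mem (hg w)).2
      have h6 : T.act (g w)⁻¹ w = rep w := by
        have h7 := T.act_inv_act (hg w).1 (rep w)
        rwa [hgw w] at h7
      rwa [h5, h6] at this
    have h7 : (m * g w)⁻¹ * g (T.act m w) = 1 := by
      refine hfree _ (H.mul_mem (H.inv_mem hb.1) ha.1) v (rep w) hadj ?_ ?_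
      · rw [T.act_mul _ (H.inv_mem hb.1) _ ha.1, ha.2]
        exact ((T.stab v).inv_mem hb).2
      · rw [T.act_mul _ (H.inv_mem hb.1) _ ha.1, h3, ← h4]
        exact T.act_inv_act hb.1 _
    exact (inv_mul_eq_one.mp h7).symm
  show U.act (g (T.act m w)) c₀ = U.act m (U.act (g w) c₀)
  rw [h2, U.act_mul m hm (g w) (hg w)]

/-- a factor is the only class of non-trivial vertex groups of a splitting -/
theorem fac_single (hc : Ctx π) {H D : Subgroup Γ} (hH : IsFactor π.ker π.ker H)
    (hD : IsFactor π.ker H D) (hne : D ≠ ⊥) :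
    ∃ T : MTree H, T.IsSplitting π.ker ∧ T.vgs π.ker = {B | ∃ h ∈ H, B = MulAut.conj h • D} := by
  classical
  have hHF : H ≤ π.ker := fac_le hH
  have hconjH : ∀ h ∈ H, MulAut.conj h • H = H := by
    intro h hh
    ext x
    rw [Subgroup.mem_pointwise_smul_iff_inv_smul_mem]
    constructor
    · intro hx
      have : x = h * ((MulAut.conj h)⁻¹ • x) * h⁻¹ := by
        simp [MulAut.smul_def, ← map_inv]; group
      rw [this]
      exact H.mul_mem (H.mul_mem hh hx) (H.inv_mem hh)
    · intro hx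
      have : (MulAut.conj h)⁻¹ • x = h⁻¹ * x * h := by
        simp [MulAut.smul_def, ← map_inv]
      rw [this]
      exact H.mul_mem (H.mul_mem (H.inv_mem hh) hx) hh
  rcases hD with rfl | ⟨T, hT, x₀, hx₀⟩
  · refine ⟨point D, point_isSplitting _ _, ?_⟩
    ext B
    constructor
    · rintro ⟨hB, x, rfl⟩
      refine ⟨1, D.one_mem, ?_⟩
      rw [map_one, one_smul]
      apply le_antisymm
      · exact fun y hy => hy.1.1
      · exact fun y hy => ⟨⟨hy, rfl⟩, hHF hy⟩
    · rintro ⟨h, hh, rfl⟩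
      rw [hconjH h hh]
      refine ⟨hne, (), ?_⟩
      apply le_antisymm
      · exact fun y hy => hy.1.1
      · exact fun y hy => ⟨⟨hy, rfl⟩, hHF hy⟩
  · have hstabH : ∀ x, T.stab x ⊓ π.ker = T.stab x := fun x =>
      inf_eq_left.mpr (fun y hy => hHF hy.1)
    have hfree : ∀ h ∈ H, ∀ x y, T.G.Adj x y → T.act h x = x → T.act h y = y → h = 1 :=
      fun h hh => hT.free h ⟨hh, hHF hh⟩
    have hx₀' : T.stab x₀ = D := by rw [← hx₀, hstabH]
    obtain ⟨R, hx₀R, hR⟩ := exists_reps T x₀
    have hU : ∀ v, ∃ U : MTree (T.stab v), U.IsSplitting π.ker ∧ Nonempty U.X ∧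
        (v = x₀ → ∀ u, U.stab u = T.stab v) ∧ (v ≠ x₀ → ∀ u, U.stab u = ⊥) := by
      intro v
      by_cases hv : v = x₀
      · refine ⟨point _, point_isSplitting _ _, ⟨()⟩, fun _ u => ?_, fun h => absurd hv h⟩
        apply le_antisymm
        · exact fun y hy => hy.1
        · exact fun y hy => ⟨hy, rfl⟩
      · have hf : IsFactor π.ker π.ker (T.stab v) :=
          fac_trans hc le_rfl hH (Or.inr ⟨T, hT, v, hstabH v⟩)
        obtain ⟨C, c₀, hC, hC', -⟩ := cayley_exists hc hf
        refine ⟨C, hC, ⟨c₀⟩, fun h => absurd h hv, fun _ u => ?_⟩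
        rw [eq_bot_iff]
        intro y hy
        obtain ⟨d, ⟨hd, hdu⟩, huniq⟩ := hC' u
        have h1 : y * d = d := huniq (y * d) ⟨(T.stab v).mul_mem hy.1 hd, by
          show C.act (y * d) c₀ = u
          rw [C.act_mul y hy.1 d hd, hdu]; exact hy.2⟩
        exact Subgroup.mem_bot.mpr (mul_eq_right.mp h1)
    choose U hUs hUn hU1 hU2 using hU
    have hatt := fun v => t8b_att T hfree v (U v) (hUn v)
    choose att hatt using hatt
    obtain ⟨T', pr, ι, hb, hι⟩ := blowup_exists T R hR U att (fun v _ => hatt v)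
    have hT' : T'.IsSplitting π.ker := by
      refine hb.isSplitting hT R (fun v => ?_) (fun v hv => ⟨U v, ι v, (hι v hv).1, (hι v hv).2.1, hUs v⟩)
      obtain ⟨r, hr, -⟩ := hR v
      exact ⟨r, hr.1, hr.2⟩
    refine ⟨T', hT', ?_⟩
    -- stabilisers of vertices over representatives
    have hst : ∀ v ∈ R, ∀ z, pr z = v → T'.stab z = if v = x₀ then D else ⊥ := by
      intro v hv z hz
      have hz' : z ∈ Set.range (ι v) := by rw [(hι v hv).2.1]; exact hz
      obtain ⟨u, rfl⟩ := hz'
      have h1 : T'.stab (ι v u) = (U v).stab u := by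
        ext y
        constructor
        · intro hy
          have hyv : y ∈ T.stab v := by
            have := hb.stab_le _ hy
            rwa [hz] at this
          refine ⟨hyv, (hι v hv).1.inj ?_⟩
          rw [(hι v hv).1.equi y hyv]
          exact hy.2
        · intro hy
          refine ⟨hy.1.1, ?_⟩
          rw [← (hι v hv).1.equi y hy.1, hy.2]
      rw [h1]
      split_ifs with h
      · rw [hU1 v h u, h, hx₀']
      · exact hU2 v h u
    have hinter : ∀ z, T'.stab z ⊓ π.ker = T'.stab z := fun x =>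
      inf_eq_left.mpr (fun y hy => hHF hy.1)
    ext B
    constructor
    · rintro ⟨hB, z, rfl⟩
      obtain ⟨r, ⟨hr, m, hm, hmr⟩, -⟩ := hR (pr z)
      have hz : T'.act m (T'.act m⁻¹ z) = z := T'.act_act_inv hm z
      have hprz : pr (T'.act m⁻¹ z) = r := by
        rw [hb.equi _ (H.inv_mem hm), ← hmr]
        exact T.act_inv_act hm r
      have h1 := hst r hr _ hprz
      have h2 : T'.stab z = MulAut.conj m • T'.stab (T'.act m⁻¹ z) := by
        rw [← T'.stab_act hm, hz]
      rw [hinter, h2, h1] at hB ⊢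
      split_ifs at hB ⊢ with h
      · exact ⟨m, hm, rfl⟩
      · exact absurd (by simp) hB
    · rintro ⟨h, hh, rfl⟩
      refine ⟨fun hbot => hne ?_, ?_⟩
      · have := congrArg (fun K => (MulAut.conj h)⁻¹ • K) hbot
        simpa using this
      · obtain ⟨z, hz⟩ := hb.surj x₀
        refine ⟨T'.act h z, ?_⟩
        rw [hinter, T'.stab_act hh, hst x₀ hx₀R z hz, if_pos rfl]

theorem mfactor_inter (hc : Ctx π) {M : Subgroup Γ} (hM : Loc π M) {D E : Subgroup Γ}
    (hD : IsMFactor π.ker M D) (hE : IsMFactor π.ker M E) (hne : D ⊓ E ≠ ⊥) :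
    IsMFactor π.ker (M ⊓ Subgroup.normalizer D) (D ⊓ E) := by
  have hMD := norm_inf hc hM hD
  refine ⟨hne, ?_, ?_⟩
  · rw [hMD]
    exact fac_inter hc hM.fac hD.fac hE.fac
  · intro m hm
    obtain ⟨T, hT, hv⟩ := fac_single hc hM.fac hE.fac hE.ne
    have hni : T.NoInv := hT.noInv hc
    have hHF : M ⊓ π.ker ≤ π.ker := inf_le_right
    have hDH : D ≤ M ⊓ π.ker := fac_le hD.fac
    have hEH : E ≤ M ⊓ π.ker := fac_le hE.fac
    have hDM : ∀ m ∈ M ⊓ Subgroup.normalizer (D : Subgroup Γ), MulAut.conj m • D = D := by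
      intro m hm
      ext x
      rw [Subgroup.mem_pointwise_smul_iff_inv_smul_mem]
      have h1 := (Subgroup.mem_normalizer_iff.mp hm.2) ((MulAut.conj m)⁻¹ • x)
      rw [h1]
      have : m * ((MulAut.conj m)⁻¹ • x) * m⁻¹ = x := by
        simp [MulAut.smul_def, ← map_inv]; group
      rw [this]
    have hstab : ∀ x, T.stab x ⊓ π.ker = T.stab x := fun x =>
      inf_eq_left.mpr (fun y hy => hHF hy.1)
    have hEv : E ∈ T.vgs π.ker := by
      rw [hv]; exact ⟨1, Subgroup.one_mem _, by rw [map_one, one_smul]⟩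
    obtain ⟨-, y₀, hy₀⟩ := hEv
    rw [hstab] at hy₀
    by_cases hell : T.Ell (D : Set Γ)
    · obtain ⟨z, hz⟩ := hell
      obtain ⟨d, hd, hd1⟩ := t8b_ne hne
      have hdH : (d : Γ) ∈ (M ⊓ π.ker) ⊓ π.ker := ⟨hDH hd.1, hHF (hDH hd.1)⟩
      have hdy : T.act d y₀ = y₀ := by
        have : (d : Γ) ∈ T.stab y₀ := by rw [hy₀]; exact hd.2
        exact this.2
      have hzy : z = y₀ := hT.fixed_unique hdH hd1 (hz d hd.1) hdy
      have hle : D ≤ E := by
        intro x hx
        rw [← hy₀, ← hzy]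
        exact ⟨hDH hx, hz x hx⟩
      have : D ⊓ E = D := inf_eq_left.mpr hle
      refine ⟨1, Subgroup.one_mem _, ?_⟩
      rw [this, map_one, one_smul]
      exact hDM m hm
    · -- the core
      have hDfg : D.FG := fac_fg hc (fac_trans hc le_rfl hM.fac hD.fac)
      have hS : T.Conv (T.core D) := T.core_conv hni hDH
      have hSne : (T.core D).Nonempty := T.core_nonempty hni hDH hDfg
      have hM'H : (M ⊓ Subgroup.normalizer (D : Subgroup Γ)) ⊓ π.ker ≤ M ⊓ π.ker := by rw [hMD]; exact hDH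
      have hinv : ∀ m ∈ (M ⊓ Subgroup.normalizer (D : Subgroup Γ)) ⊓ π.ker, ∀ x ∈ T.core D,
          T.act m x ∈ T.core D := by
        intro m hm x hx
        have h1 := T.core_conj hDH (hM'H hm)
        rw [hDM m hm.1] at h1
        rw [h1]
        exact ⟨x, hx, rfl⟩
      let T' := T.sub (T.core D) hS hSne ((M ⊓ Subgroup.normalizer (D : Subgroup Γ)) ⊓ π.ker) hM'H hinv
      let v : T'.X → T.X := (Subtype.val : T.core D → T.X)
      have hvmem : ∀ x, v x ∈ T.core D := fun x => Subtype.property (p := (· ∈ T.core D)) x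
      have hemb : IsEmb T' T v := T.sub_isEmb (T.core D) hS hSne _ hM'H hinv
      have hadj : ∀ x y, T'.G.Adj x y → T.G.Adj (v x) (v y) := fun x y h => h
      have hact : ∀ m ∈ (M ⊓ Subgroup.normalizer (D : Subgroup Γ)) ⊓ π.ker, ∀ x : T'.X,
          v (T'.act m x) = T.act m (v x) := fun m hm x => hemb.equi m hm x
      have hT' : T'.IsSplitting π.ker := by
        refine ⟨?_, ?_, ?_⟩
        · intro h hh x y hxy hx hy
          have hh' := hM'H hh.1
          refine hT.free h ⟨hh', hh.2⟩ (v x) (v y) (hadj x y hxy) ?_ ?_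
          · rw [← hact h hh.1, hx]
          · rw [← hact h hh.1, hy]
        · intro m hm x y hxy
          exact ⟨m, ⟨hm, hm.2⟩, rfl, rfl⟩
        · obtain ⟨S, hS'⟩ := T.core_cofinite hni hDH hDfg hell
          classical
          refine ⟨(S.preimage (fun p : T'.X × T'.X => (v p.1, v p.2)) ?_), ?_⟩
          · intro a _ b _ hab
            simp only [Prod.mk.injEq] at hab
            exact Prod.ext (hemb.inj hab.1) (hemb.inj hab.2)
          · intro x y hxy
            obtain ⟨d, hd, hdS⟩ := hS' (v x) (hvmem x) (v y) (hvmem y) (hadj x y hxy)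
            have hd' : d ∈ (M ⊓ Subgroup.normalizer (D : Subgroup Γ)) ⊓ π.ker := by rw [hMD]; exact hd
            refine ⟨d, ⟨hd', hd'.2⟩, ?_⟩
            refine Finset.mem_preimage.mpr ?_
            show (v (T'.act d x), v (T'.act d y)) ∈ S
            rw [hact d hd', hact d hd']
            exact hdS
      have hst' : ∀ x : T'.X, T'.stab x ⊓ π.ker = T.stab (v x) ⊓ D := by
        intro x
        ext a
        constructor
        · rintro ⟨⟨ha, ha'⟩, ha''⟩
          refine ⟨⟨hM'H ha, ?_⟩, by rw [hMD] at ha; exact ha⟩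
          rw [← hact a ha, ha']
        · rintro ⟨⟨ha, ha'⟩, haD⟩
          have ha1 : a ∈ (M ⊓ Subgroup.normalizer (D : Subgroup Γ)) ⊓ π.ker := by rw [hMD]; exact haD
          refine ⟨⟨ha1, hemb.inj ?_⟩, ha1.2⟩
          rw [hact a ha1, ha']
      have hvg : T'.vgs π.ker = {B | B ≠ ⊥ ∧ ∃ h ∈ M ⊓ π.ker, B = D ⊓ MulAut.conj h • E} := by
        ext B
        constructor
        · rintro ⟨hB, x, hx⟩
          rw [hst' x] at hx
          refine ⟨hB, ?_⟩
          have h1 : T.stab (v x) ∈ T.vgs π.ker := by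
            refine ⟨fun h => hB ?_, _, hstab _⟩
            rw [← hx, h, bot_inf_eq]
          rw [hv] at h1
          obtain ⟨h, hh, hh'⟩ := h1
          exact ⟨h, hh, by rw [← hx, hh', inf_comm]⟩
        · rintro ⟨hB, h, hh, rfl⟩
          refine ⟨hB, ?_⟩
          have h1 : MulAut.conj h • E ∈ T.vgs π.ker := by rw [hv]; exact ⟨h, hh, rfl⟩
          obtain ⟨-, x, hx⟩ := h1
          rw [hstab] at hx
          obtain ⟨d, hd, hd1⟩ := t8b_ne hB
          have hdx : (d : Γ) ∈ T.stab x := by rw [hx]; exact hd.2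
          have hdN : (d : Γ) ∈ (M ⊓ Subgroup.normalizer (D : Subgroup Γ)) ⊓ π.ker := by rw [hMD]; exact hd.1
          obtain ⟨p, hp, hp'⟩ := T.fix_proj hdx.1 ⟨x, hdx.2⟩ hS hSne (hinv d hdN)
          have hpx : p = x := hT.fixed_unique ⟨hdx.1, hHF hdx.1⟩ hd1 hp' hdx.2
          subst hpx
          refine ⟨(⟨p, hp⟩ : T.core D), (hst' _).trans ?_⟩
          show T.stab p ⊓ D = _
          rw [hx, inf_comm]
      have hconj_inf : ∀ (m : Γ) (A B : Subgroup Γ),
          MulAut.conj m • (A ⊓ B) = MulAut.conj m • A ⊓ MulAut.conj m • B := by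
        intro m A B
        exact Subgroup.smul_inf _ _ _
      have hinvf : ∀ m ∈ M ⊓ Subgroup.normalizer (D : Subgroup Γ), ∀ B ∈ T'.vgs π.ker,
          MulAut.conj m • B ∈ T'.vgs π.ker := by
        rw [hvg]
        rintro m hm B ⟨hB, h, hh, rfl⟩
        refine ⟨fun hbot => hB ?_, ?_⟩
        · have := congrArg (fun K => (MulAut.conj m)⁻¹ • K) hbot
          simpa using this
        · obtain ⟨h', hh', hh''⟩ := hE.inv (m * h) (M.mul_mem hm.1 hh.1)
          refine ⟨h', hh', ?_⟩
          rw [hconj_inf, hDM m hm, ← hh'', map_mul, mul_smul]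
      have hB : D ⊓ E ∈ T'.vgs π.ker := by
        rw [hvg]
        exact ⟨hne, 1, Subgroup.one_mem _, by rw [map_one, one_smul]⟩
      exact class_fixed hc (mfactor_loc hc hM hD) T' hT' hinvf hm hB

/-- every factor containing ... : a factor of `F` which is contained in `H` is a factor of `H` -/
theorem fac_of_le (hc : Ctx π) {H D : Subgroup Γ} (hH : IsFactor π.ker π.ker H)
    (hD : IsFactor π.ker π.ker D) (hle : D ≤ H) : IsFactor π.ker H D := by
  have h := fac_inter hc (Or.inl rfl) hH hD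
  rwa [inf_eq_right.mpr hle] at h

end Pool.Agent.Lib.MP_6567fb_al
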