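import Pool.Agent.Lib.MP_6567fb_al.F0
import Pool.Agent.Lib.MP_6567fb_al.T8b
import Pool.Agent.Lib.MP_6567fb_al.T14b

/-!
# MP_6567fb_al, module F6b

F6.1.  b the basis of the honest flag (n ≥ 1 since F ≠ ⊥), A_j := closure (b i, i < j).  U j := {conj f • A_j, f ∈ F} for 1 ≤ j ≤ n, U 0 = ∅, U j = {F} for j ≥ n.  P := s0 g preserves A_j (honest flag; inverse: roots or induction on j).  hbs
gives for every j the HNN tree of (A_{j+1}, A_j) with an action of A_{j+1}<P>: vertices = cosets of A_j, one orbit of edges.  A_j is a factor of A_{j+1} (vertex group), so of F (fac_trans).  periph: a splitting of F with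
vertex groups exactly the conjugates of A_j: fac_single (T8b).  step: V = f A_{j+1} f⁻¹; Mg π ⊤ g ⊓ N(V) = f (A_{j+1}<P>) f⁻¹ (m = f' P^k normalises A_{j+1} iff f' does iff f' ∈ A_{j+1}: fac_malnormal); the tree for V is the one for A_{j+1}
moved by f (act m := T.act (f⁻¹ m f)); B ∈ U j, B ≤ A_{j+1}: B = conj f' • A_j, f' ∈ A_{j+1} (malnormal).  For V = F = A_n and U j = {F} (j ≥ n): point tree.  start: only j = 0: V = f A_1 f⁻¹: f P f⁻¹ commutes with it, CJ to s0 g.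
-/

set_option autoImplicit false

open scoped Pointwise
open Filter

namespace Pool.Agent.Lib.MP_6567fb_al

open MTree
variable {Γ G : Type} [Group Γ] [Group G] {π : Γ →* G}

/-- Bass-Serre trees of the HNN decompositions of the flags (supplied by module A.BS) -/
def BSTrees (π : Γ →* G) (s0 : G →* Γ) : Prop :=
  ∀ (g : G) (n : ℕ) (b : FreeGroupBasis (Fin n) π.ker),
    (∀ i : Fin n, ∃ w ∈ Subgroup.closure ((fun j => (b j : Γ)) '' {j | j < i}),
      ∃ v ∈ Subgroup.closure ((fun j => (b j : Γ)) '' {j | j < i}),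
      s0 g * (b i : Γ) * (s0 g)⁻¹ = w * (b i : Γ) * v) →
    ∀ i : Fin n, ∃ T : MTree (Subgroup.closure ((fun j => (b j : Γ)) '' {j | j ≤ i}) ⊔
        Subgroup.zpowers (s0 g)),
      (∀ h ∈ Subgroup.closure ((fun j => (b j : Γ)) '' {j | j ≤ i}), ∀ x y, T.G.Adj x y →
        T.act h x = x → T.act h y = y → h = 1) ∧
      (∀ m ∈ Subgroup.closure ((fun j => (b j : Γ)) '' {j | j ≤ i}) ⊔ Subgroup.zpowers (s0 g),
        ∀ x y, T.G.Adj x y → ∃ h ∈ Subgroup.closure ((fun j => (b j : Γ)) '' {j | j ≤ i}),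
          T.act h x = T.act m x ∧ T.act h y = T.act m y) ∧
      ∃ x0 : T.X, (∀ h ∈ Subgroup.closure ((fun j => (b j : Γ)) '' {j | j ≤ i}),
          (T.act h x0 = x0 ↔ h ∈ Subgroup.closure ((fun j => (b j : Γ)) '' {j | j < i}))) ∧
        (∀ x, ∃ h ∈ Subgroup.closure ((fun j => (b j : Γ)) '' {j | j ≤ i}), T.act h x0 = x) ∧
        ∃ y0, T.G.Adj x0 y0 ∧ ∀ x y, T.G.Adj x y →
          ∃ h ∈ Subgroup.closure ((fun j => (b j : Γ)) '' {j | j ≤ i}),
            (T.act h x0 = x ∧ T.act h y0 = y) ∨ (T.act h x0 = y ∧ T.act h y0 = x)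

/-- `⟨b_j, j < k⟩` as a subgroup of `Γ` -/
def Ab {n : ℕ} (b : FreeGroupBasis (Fin n) π.ker) (k : ℕ) : Subgroup Γ :=
  Subgroup.closure ((fun j => (b j : Γ)) '' {j : Fin n | (j : ℕ) < k})

section
variable {n : ℕ} (b : FreeGroupBasis (Fin n) π.ker)

theorem ab_lt (i : Fin n) : Subgroup.closure ((fun j => (b j : Γ)) '' {j | j < i}) = Ab b i := rfl

theorem ab_le (i : Fin n) :
    Subgroup.closure ((fun j => (b j : Γ)) '' {j | j ≤ i}) = Ab b (i + 1) := by
  have h : {j : Fin n | j ≤ i} = {j : Fin n | (j : ℕ) < i + 1} := by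
    ext j
    show j ≤ i ↔ (j : ℕ) < i + 1
    rw [Fin.le_def, Nat.lt_succ_iff]
  rw [Ab, h]

theorem ab_le_ker (k : ℕ) : Ab b k ≤ π.ker := by
  rw [Ab, Subgroup.closure_le]
  rintro _ ⟨j, _, rfl⟩
  exact (b j).2

theorem ab_mono {j k : ℕ} (h : j ≤ k) : Ab b j ≤ Ab b k := by
  apply Subgroup.closure_mono
  apply Set.image_mono
  intro x hx
  exact lt_of_lt_of_le (show (x : ℕ) < j from hx) h

theorem mem_ab {j : Fin n} {k : ℕ} (h : (j : ℕ) < k) : (b j : Γ) ∈ Ab b k :=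
  Subgroup.subset_closure ⟨j, h, rfl⟩

theorem ab_top {k : ℕ} (hk : n ≤ k) : Ab b k = π.ker := by
  apply le_antisymm (ab_le_ker b k)
  have h : ∀ w : FreeGroup (Fin n), ((b.repr.symm w : π.ker) : Γ) ∈ Ab b k := by
    intro w
    induction w using FreeGroup.induction_on with
    | C1 => rw [map_one]; exact one_mem _
    | of j => exact mem_ab b (lt_of_lt_of_le j.2 hk)
    | inv_of j hj => rw [map_inv]; exact inv_mem hj
    | mul x y hx hy => rw [map_mul]; exact mul_mem hx hy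
  intro x hx
  have h1 := h (b.repr ⟨x, hx⟩)
  rwa [MulEquiv.symm_apply_apply] at h1

theorem ab_zero : Ab b 0 = ⊥ := by
  rw [Ab, Subgroup.closure_eq_bot_iff]
  rintro _ ⟨j, hj, rfl⟩
  exact absurd (show (j : ℕ) < 0 from hj) (Nat.not_lt_zero _)

theorem ab_ne (hn : 0 < n) {k : ℕ} (hk : 0 < k) : Ab b k ≠ ⊥ := by
  intro h
  have h1 : (b ⟨0, hn⟩ : Γ) ∈ Ab b k := mem_ab b hk
  rw [h, Subgroup.mem_bot] at h1
  have h2 : b ⟨0, hn⟩ = 1 := Subtype.ext h1
  have h3 := b.repr_apply_coe ⟨0, hn⟩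
  rw [h2, map_one] at h3
  exact FreeGroup.of_ne_one _ h3.symm

variable {b}

/-- flag condition -/
theorem ab_conj_le {P : Γ} (hf : ∀ i : Fin n, ∃ w ∈ Ab b i, ∃ v ∈ Ab b i,
      P * (b i : Γ) * P⁻¹ = w * (b i : Γ) * v) (k : ℕ) : MulAut.conj P • Ab b k ≤ Ab b k := by
  have h : ∀ x ∈ Ab b k, P * x * P⁻¹ ∈ Ab b k := by
    intro x hx
    induction hx using Subgroup.closure_induction with
    | mem y hy =>
      obtain ⟨j, hj, rfl⟩ := hy
      have hj' : (j : ℕ) < k := hj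
      obtain ⟨w, hw, v, hv, h1⟩ := hf j
      show P * (b j : Γ) * P⁻¹ ∈ Ab b k
      rw [h1]
      exact mul_mem (mul_mem (ab_mono b hj'.le hw) (mem_ab b hj')) (ab_mono b hj'.le hv)
    | one => rw [mul_one, mul_inv_cancel]; exact one_mem _
    | mul y z _ _ hy hz =>
      have h2 : P * (y * z) * P⁻¹ = (P * y * P⁻¹) * (P * z * P⁻¹) := by group
      rw [h2]
      exact mul_mem hy hz
    | inv y _ hy =>
      have h2 : P * y⁻¹ * P⁻¹ = (P * y * P⁻¹)⁻¹ := by group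
      rw [h2]
      exact inv_mem hy
  intro x hx
  rw [t8_mem_conj] at hx
  have h2 := h _ hx
  have h3 : P * (P⁻¹ * x * P) * P⁻¹ = x := by group
  rwa [h3] at h2

theorem ab_le_conj {P : Γ} (hf : ∀ i : Fin n, ∃ w ∈ Ab b i, ∃ v ∈ Ab b i,
      P * (b i : Γ) * P⁻¹ = w * (b i : Γ) * v) (k : ℕ) : Ab b k ≤ MulAut.conj P • Ab b k := by
  induction k with
  | zero => rw [ab_zero]; exact bot_le
  | succ k ih =>
    rw [Ab, Subgroup.closure_le]
    rintro _ ⟨j, hj, rfl⟩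
    have hj' : (j : ℕ) < k + 1 := hj
    have hmono : MulAut.conj P • Ab b k ≤ MulAut.conj P • Ab b (k + 1) := by
      intro x hx
      rw [t8_mem_conj] at hx ⊢
      exact ab_mono b (Nat.le_succ k) hx
    by_cases hjk : (j : ℕ) < k
    · exact hmono (ih (mem_ab b hjk))
    · have hjk' : (j : ℕ) = k := by omega
      obtain ⟨w, hw, v, hv, h1⟩ := hf j
      rw [hjk'] at hw hv
      have h2 : (b j : Γ) = w⁻¹ * (P * (b j : Γ) * P⁻¹) * v⁻¹ := by rw [h1]; group
      have h3 : P * (b j : Γ) * P⁻¹ ∈ MulAut.conj P • Ab b (k + 1) := by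
        rw [t8_mem_conj]
        have h4 : P⁻¹ * (P * (b j : Γ) * P⁻¹) * P = (b j : Γ) := by group
        rw [h4]
        exact mem_ab b hj'
      show (b j : Γ) ∈ MulAut.conj P • Ab b (k + 1)
      rw [h2]
      exact mul_mem (mul_mem (inv_mem (hmono (ih hw))) h3) (inv_mem (hmono (ih hv)))

theorem ab_conj {P : Γ} (hf : ∀ i : Fin n, ∃ w ∈ Ab b i, ∃ v ∈ Ab b i,
      P * (b i : Γ) * P⁻¹ = w * (b i : Γ) * v) (k : ℕ) : MulAut.conj P • Ab b k = Ab b k :=
  le_antisymm (ab_conj_le hf k) (ab_le_conj hf k)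

theorem ab_conj_zpow {P : Γ} {A : Subgroup Γ} (h : MulAut.conj P • A = A) (k : ℤ) :
    MulAut.conj (P ^ k) • A = A := by
  have h1 : P ∈ Subgroup.normalizer (A : Set Γ) := t8_norm.2 h
  exact t8_norm.1 (Subgroup.zpow_mem _ h1 k)

/-- elements of `A ⊔ ⟨P⟩` -/
theorem mem_sup_zpowers {P : Γ} {A : Subgroup Γ} (h : MulAut.conj P • A = A) (m : Γ) :
    m ∈ A ⊔ Subgroup.zpowers P ↔ ∃ a ∈ A, ∃ k : ℤ, m = a * P ^ k := by
  have h1 : Subgroup.zpowers P ≤ Subgroup.normalizer (A : Set Γ) := by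
    rw [Subgroup.zpowers_le]
    exact t8_norm.2 h
  have h2 := Subgroup.coe_mul_of_right_le_normalizer_left A (Subgroup.zpowers P) h1
  constructor
  · intro hm
    have h3 : m ∈ ((A ⊔ Subgroup.zpowers P : Subgroup Γ) : Set Γ) := hm
    rw [h2] at h3
    obtain ⟨a, ha, p, hp, hap⟩ := Set.mem_mul.1 h3
    obtain ⟨k, rfl⟩ := Subgroup.mem_zpowers_iff.1 hp
    exact ⟨a, ha, k, hap.symm⟩
  · rintro ⟨a, ha, k, rfl⟩
    exact mul_mem (Subgroup.mem_sup_left ha)
      (Subgroup.mem_sup_right (Subgroup.zpow_mem _ (Subgroup.mem_zpowers P) k))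

/-- `A⟨P⟩ ⊓ F = A` -/
theorem sup_zpowers_inf (hc : Ctx π) {s0 : G →* Γ} (hs0 : IsSec π s0) (g : G) {A : Subgroup Γ}
    (hA : A ≤ π.ker) (h : MulAut.conj (s0 g) • A = A) :
    (A ⊔ Subgroup.zpowers (s0 g)) ⊓ π.ker = A := by
  apply le_antisymm
  · rintro m ⟨hm, hmk⟩
    obtain ⟨a, ha, k, rfl⟩ := (mem_sup_zpowers h m).1 hm
    have h1 : s0 g ^ k ∈ π.ker := by
      have h2 := mul_mem (inv_mem (hA ha)) hmk
      rwa [inv_mul_cancel_left] at h2
    have h2 : s0 g ^ k = 1 := by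
      have h3 : π (s0 g ^ k) = 1 := h1
      rw [map_zpow, hs0 g] at h3
      rw [← map_zpow, h3, map_one]
    rw [h2, mul_one]
    exact ha
  · exact le_inf le_sup_left hA

end

/-- splittings from the Bass-Serre trees -/
theorem bs_splitting (hc : Ctx π) {s0 : G →* Γ} (hs0 : IsSec π s0) (g : G) {A A' : Subgroup Γ}
    (hA' : A' ≤ π.ker) (hAA' : A ≤ A') (h : MulAut.conj (s0 g) • A' = A')
    (T : MTree (A' ⊔ Subgroup.zpowers (s0 g)))
    (h1 : ∀ h ∈ A', ∀ x y, T.G.Adj x y → T.act h x = x → T.act h y = y → h = 1)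
    (h2 : ∀ m ∈ A' ⊔ Subgroup.zpowers (s0 g),
        ∀ x y, T.G.Adj x y → ∃ h ∈ A', T.act h x = T.act m x ∧ T.act h y = T.act m y)
    (x0 : T.X) (h3 : ∀ h ∈ A', (T.act h x0 = x0 ↔ h ∈ A)) (h4 : ∀ x, ∃ h ∈ A', T.act h x0 = x)
    (y0 : T.X) (h5 : ∀ x y, T.G.Adj x y → ∃ h ∈ A',
            (T.act h x0 = x ∧ T.act h y0 = y) ∨ (T.act h x0 = y ∧ T.act h y0 = x)) :
    T.IsSplitting π.ker ∧ T.vgs π.ker = {B | B ≠ ⊥ ∧ ∃ a ∈ A', B = MulAut.conj a • A} ∧
      T.stab x0 ⊓ π.ker = A := by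
  classical
  have hM : (A' ⊔ Subgroup.zpowers (s0 g)) ⊓ π.ker = A' := sup_zpowers_inf hc hs0 g hA' h
  have hst : ∀ x, T.stab x ⊓ π.ker = T.stab x ⊓ A' := by
    intro x
    apply le_antisymm
    · rintro m ⟨hm, hmk⟩
      refine ⟨hm, ?_⟩
      show m ∈ A'
      rw [← hM]
      exact ⟨hm.1, hmk⟩
    · exact inf_le_inf_left _ hA'
  have hle : A' ≤ A' ⊔ Subgroup.zpowers (s0 g) := le_sup_left
  have hst0 : T.stab x0 ⊓ π.ker = A := by
    rw [hst]
    apply le_antisymm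
    · rintro m ⟨hm, hmA⟩
      exact (h3 m hmA).1 hm.2
    · intro m hm
      exact ⟨⟨hle (hAA' hm), (h3 m (hAA' hm)).2 hm⟩, hAA' hm⟩
  refine ⟨⟨?_, ?_, ?_⟩, ?_, hst0⟩
  · rw [hM]; exact h1
  · rw [hM]; exact h2
  · rw [hM]
    refine ⟨{(x0, y0), (y0, x0)}, ?_⟩
    intro x y hxy
    obtain ⟨h, hh, ⟨ha, hb⟩ | ⟨ha, hb⟩⟩ := h5 x y hxy
    · refine ⟨h⁻¹, inv_mem hh, ?_⟩
      rw [← ha, ← hb, act_inv_act T (hle hh), act_inv_act T (hle hh)]
      simp
    · refine ⟨h⁻¹, inv_mem hh, ?_⟩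
      rw [← ha, ← hb, act_inv_act T (hle hh), act_inv_act T (hle hh)]
      simp
  · have hkey : ∀ a ∈ A', T.stab (T.act a x0) ⊓ π.ker = MulAut.conj a • A := by
      intro a ha
      rw [stab_act T (hle ha), ← hst0, conj_smul_inf]
    ext B
    constructor
    · rintro ⟨hB, x, hx⟩
      refine ⟨hB, ?_⟩
      obtain ⟨a, ha, rfl⟩ := h4 x
      exact ⟨a, ha, by rw [← hx, hkey a ha]⟩
    · rintro ⟨hB, a, ha, rfl⟩
      exact ⟨hB, T.act a x0, hkey a ha⟩

theorem tower_of_flag (hc : Ctx π) (hne : π.ker ≠ ⊥) {s0 : G →* Γ} (hs0 : IsSec π s0)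
    (hbs : BSTrees π s0) (g : G) (h : HonestFlag π (s0 g)) :
    ∃ U, IsTower π ⊤ g (fun _ : Unit => s0 g) (fun _ => 0) U := by
  classical
  obtain ⟨n, b, hflag⟩ := h
  have hf : ∀ i : Fin n, ∃ w ∈ Ab b i, ∃ v ∈ Ab b i,
      s0 g * (b i : Γ) * (s0 g)⁻¹ = w * (b i : Γ) * v := hflag
  have hn : 0 < n := by
    rcases Nat.eq_zero_or_pos n with hn | hn
    · exfalso
      apply hne
      rw [← ab_top b (k := 0) (by omega), ab_zero]
    · exact hn
  have hinv : ∀ k, MulAut.conj (s0 g) • Ab b k = Ab b k := ab_conj hf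
  -- the trees
  have hT : ∀ j, j < n → ∃ T : MTree (Ab b (j + 1) ⊔ Subgroup.zpowers (s0 g)),
      T.IsSplitting π.ker ∧ T.vgs π.ker = {B | B ≠ ⊥ ∧ ∃ a ∈ Ab b (j + 1), B = MulAut.conj a • Ab b j} ∧
      ∃ x0, T.stab x0 ⊓ π.ker = Ab b j := by
    intro j hj
    have h1 := hbs g n b hflag ⟨j, hj⟩
    rw [ab_le, ab_lt] at h1
    obtain ⟨T, p1, p2, x0, p3, p4, y0, _, p5⟩ := h1
    obtain ⟨q1, q2, q3⟩ := bs_splitting hc hs0 g (ab_le_ker b (j + 1)) (ab_mono b (Nat.le_succ j))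
      (hinv (j + 1)) T p1 p2 x0 p3 p4 y0 p5
    exact ⟨T, q1, q2, x0, q3⟩
  -- factors
  have hfac : ∀ k j, j + k = n → IsFactor π.ker π.ker (Ab b j) := by
    intro k
    induction k with
    | zero =>
      intro j hj
      rw [ab_top b (by omega)]
      exact Or.inl rfl
    | succ k ih =>
      intro j hj
      obtain ⟨T, q1, _, x0, q3⟩ := hT j (by omega)
      have h1 := ih (j + 1) (by omega)
      have hle : Ab b (j + 1) ≤ Ab b (j + 1) ⊔ Subgroup.zpowers (s0 g) := le_sup_left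
      have hK := sup_zpowers_inf hc hs0 g (ab_le_ker b (j + 1)) (hinv (j + 1))
      have hF : Ab b (j + 1) ⊓ π.ker = (Ab b (j + 1) ⊔ Subgroup.zpowers (s0 g)) ⊓ π.ker := by
        rw [hK, inf_eq_left.2 (ab_le_ker b (j + 1))]
      refine fac_trans hc le_rfl h1 (Or.inr ⟨T.res hle, IsSplitting.res q1 hle hF, x0, ?_⟩)
      rw [res_stab, inf_right_comm, q3]
      exact inf_eq_left.2 (ab_mono b (Nat.le_succ j))
  have hfac' : ∀ j, IsFactor π.ker π.ker (Ab b j) := by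
    intro j
    rcases le_total j n with hj | hj
    · exact hfac (n - j) j (by omega)
    · rw [ab_top b hj]
      exact Or.inl rfl
  have hmal : ∀ j, 0 < j → ∀ x ∈ π.ker, Ab b j ⊓ MulAut.conj x • Ab b j ≠ ⊥ → x ∈ Ab b j :=
    fun j _ x hx h1 => fac_malnormal hc le_rfl (hfac' j) hx h1
  have hconjker : ∀ x : Γ, MulAut.conj x • π.ker = π.ker := t8_conj_ker
  have htop : (⊤ : Subgroup Γ) ⊓ π.ker = π.ker := top_inf_eq _
  have hlocTop : Loc π (⊤ : Subgroup Γ) := ⟨by rw [htop]; exact hne, by rw [htop]; exact Or.inl rfl⟩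
  have hloc : Loc π (Mg π ⊤ g) := Loc.mg hlocTop g
  have hMgker : Mg π ⊤ g ⊓ π.ker = π.ker := by rw [mg_inf, htop]
  have hmemMg : ∀ m, m ∈ Mg π ⊤ g ↔ ∃ k : ℤ, ∃ v ∈ π.ker, m = v * s0 g ^ k := by
    intro m
    have h1 := mem_mg_iff (π := π) (M := ⊤) (g := g) (Q := s0 g) (Subgroup.mem_top _) (hs0 g) m
    rw [htop] at h1
    exact h1
  let U : ℕ → Set (Subgroup Γ) := fun j => if j = 0 then ∅ else {B | ∃ f ∈ π.ker, B = MulAut.conj f • Ab b j}
  have hU0 : U 0 = ∅ := if_pos rfl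
  have hUj : ∀ j, j ≠ 0 → U j = {B | ∃ f ∈ π.ker, B = MulAut.conj f • Ab b j} := fun j hj => if_neg hj
  have hUmem : ∀ j B, B ∈ U j → j ≠ 0 ∧ ∃ f ∈ π.ker, B = MulAut.conj f • Ab b j := by
    intro j B hB
    by_cases hj : j = 0
    · rw [hj, hU0] at hB
      exact absurd hB (Set.notMem_empty B)
    · rw [hUj j hj] at hB
      exact ⟨hj, hB⟩
  have hUtop : ∀ j, n ≤ j → U j = {π.ker} := by
    intro j hj
    rw [hUj j (by omega), ab_top b hj]
    ext B
    constructor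
    · rintro ⟨f, _, rfl⟩
      exact hconjker f
    · intro hB
      refine ⟨1, one_mem _, ?_⟩
      rw [t8_conj_one]
      exact hB
  have hmono1 : ∀ (x : Γ) (A A' : Subgroup Γ), A ≤ A' → MulAut.conj x • A ≤ MulAut.conj x • A' := by
    intro x A A' h1 y hy
    rw [t8_mem_conj] at hy ⊢
    exact h1 hy
  refine ⟨U, ⟨fun _ => ⟨Subgroup.mem_top _, hs0 g⟩, ?_, hU0, ⟨n, ?_⟩, ?_, ?_, ?_⟩⟩
  · -- periph
    intro j
    by_cases hj : j = 0
    · rw [hj, hU0]
      have h1 := periph_empty hc hloc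
      exact ((proper_iff hc hloc).1 h1).1
    · rw [hUj j hj]
      refine ⟨?_, ?_⟩
      · rintro m hm _ ⟨f, hf', rfl⟩
        obtain ⟨k, v, hv, rfl⟩ := (hmemMg m).1 hm
        refine ⟨v * (s0 g ^ k * f * (s0 g ^ k)⁻¹), mul_mem hv ((MonoidHom.normal_ker π).conj_mem f hf' _), ?_⟩
        rw [← t8_conj_mul]
        have h1 : v * s0 g ^ k * f = (v * (s0 g ^ k * f * (s0 g ^ k)⁻¹)) * s0 g ^ k := by group
        rw [h1, t8_conj_mul, ab_conj_zpow (hinv j) k]
      · obtain ⟨T, hT1, hT2⟩ := fac_single hc (H := π.ker) (Or.inl rfl) (hfac' j)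
          (ab_ne b hn (Nat.pos_of_ne_zero hj))
        rw [hMgker]
        exact ⟨T, hT1, hT2⟩
  · -- top
    intro j hj
    rw [hUtop j hj, htop]
  · -- mono
    intro j B hB
    obtain ⟨hj, f, hf', rfl⟩ := hUmem j B hB
    refine ⟨MulAut.conj f • Ab b (j + 1), ?_, hmono1 _ _ _ (ab_mono b (Nat.le_succ j))⟩
    rw [hUj _ (Nat.succ_ne_zero j)]
    exact ⟨f, hf', rfl⟩
  · -- step
    intro j V hV
    obtain ⟨_, f, hfk, rfl⟩ := hUmem _ _ hV
    rcases lt_or_ge j n with hj | hj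
    · obtain ⟨T, q1, q2, x0, q3⟩ := hT j hj
      have hEq : Mg π ⊤ g ⊓ Subgroup.normalizer ((MulAut.conj f • Ab b (j + 1) : Subgroup Γ) : Set Γ) =
          MulAut.conj f • (Ab b (j + 1) ⊔ Subgroup.zpowers (s0 g)) := by
        ext m
        rw [t8_mem_conj, Subgroup.mem_inf, t8_norm]
        constructor
        · rintro ⟨hm, hmV⟩
          obtain ⟨k, v, hv, rfl⟩ := (hmemMg m).1 hm
          have h1 : f⁻¹ * (v * s0 g ^ k) * f =
              (f⁻¹ * v * (s0 g ^ k * f * (s0 g ^ k)⁻¹)) * s0 g ^ k := by group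
          have h2 : MulAut.conj (f⁻¹ * v * (s0 g ^ k * f * (s0 g ^ k)⁻¹)) • Ab b (j + 1) = Ab b (j + 1) := by
            have h3 : MulAut.conj (f⁻¹ * (v * s0 g ^ k) * f) • Ab b (j + 1) = Ab b (j + 1) := by
              rw [t8_conj_mul, t8_conj_mul, hmV, ← t8_conj_mul, inv_mul_cancel, t8_conj_one]
            rw [h1, t8_conj_mul, ab_conj_zpow (hinv _) k] at h3
            exact h3
          rw [h1, mem_sup_zpowers (hinv _)]
          refine ⟨_, ?_, k, rfl⟩
          apply hmal (j + 1) (Nat.succ_pos j)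
          · exact mul_mem (mul_mem (inv_mem hfk) hv) ((MonoidHom.normal_ker π).conj_mem f hfk _)
          · rw [h2, inf_idem]
            exact ab_ne b hn (Nat.succ_pos j)
        · intro hm
          obtain ⟨a, ha, k, hak⟩ := (mem_sup_zpowers (hinv (j + 1)) _).1 hm
          have h1 : m = f * a * (s0 g ^ k * f⁻¹ * (s0 g ^ k)⁻¹) * s0 g ^ k := by
            have h2 : m = f * (f⁻¹ * m * f) * f⁻¹ := by group
            rw [h2, hak]
            group
          constructor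
          · rw [hmemMg]
            refine ⟨k, f * a * (s0 g ^ k * f⁻¹ * (s0 g ^ k)⁻¹), ?_, h1⟩
            exact mul_mem (mul_mem hfk (ab_le_ker b _ ha))
              ((MonoidHom.normal_ker π).conj_mem _ (inv_mem hfk) _)
          · have h2 : m = f * (a * s0 g ^ k) * f⁻¹ := by
              rw [← hak]; group
            have h3 : MulAut.conj a • Ab b (j + 1) = Ab b (j + 1) :=
              t8_norm.1 (Subgroup.le_normalizer ha)
            rw [h2, ← t8_conj_mul, inv_mul_cancel_right, ← mul_assoc, t8_conj_mul,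
              ab_conj_zpow (hinv _) k, t8_conj_mul, h3]
      rw [hEq]
      refine ⟨T.tw f, tw_isSplitting q1 f, ?_⟩
      rw [tw_vgs, q2]
      ext B
      constructor
      · rintro ⟨D, ⟨hD, a, ha, rfl⟩, rfl⟩
        have hj0 : j ≠ 0 := by
          rintro rfl
          apply hD
          rw [ab_zero]
          simp
        refine ⟨?_, hmono1 _ _ _ ?_⟩
        · rw [hUj j hj0]
          exact ⟨f * a, mul_mem hfk (ab_le_ker b _ ha), by rw [t8_conj_mul]⟩
        · have h3 : MulAut.conj a • Ab b (j + 1) = Ab b (j + 1) :=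
            t8_norm.1 (Subgroup.le_normalizer ha)
          rw [← h3]
          exact hmono1 _ _ _ (ab_mono b (Nat.le_succ j))
      · rintro ⟨hBU, hBV⟩
        obtain ⟨hj0, f', hf', rfl⟩ := hUmem j B hBU
        have hsub : MulAut.conj (f⁻¹ * f') • Ab b j ≤ Ab b (j + 1) := by
          have h1 := hmono1 f⁻¹ _ _ hBV
          rw [← t8_conj_mul, ← t8_conj_mul, inv_mul_cancel, t8_conj_one] at h1
          exact h1
        have hjne := ab_ne b hn (Nat.pos_of_ne_zero hj0)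
        have hcne : MulAut.conj (f⁻¹ * f') • Ab b j ≠ ⊥ := smul_ne_bot_t14b hjne _
        have ha : f⁻¹ * f' ∈ Ab b (j + 1) := by
          apply hmal (j + 1) (Nat.succ_pos j) _ (mul_mem (inv_mem hfk) hf')
          intro h1
          apply hcne
          rw [eq_bot_iff, ← h1]
          exact le_inf hsub (hmono1 _ _ _ (ab_mono b (Nat.le_succ j)))
        refine ⟨MulAut.conj (f⁻¹ * f') • Ab b j, ⟨hcne, _, ha, rfl⟩, ?_⟩
        rw [← t8_conj_mul, mul_inv_cancel_left]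
    · -- above the top
      have hV' : MulAut.conj f • Ab b (j + 1) = π.ker := by
        rw [ab_top b (by omega), hconjker]
      rw [hV', hUtop j hj]
      refine ⟨point _, point_isSplitting _ _, ?_⟩
      have hst : ∀ x : (point (Mg π ⊤ g ⊓ Subgroup.normalizer (π.ker : Set Γ))).X,
          (point (Mg π ⊤ g ⊓ Subgroup.normalizer (π.ker : Set Γ))).stab x ⊓ π.ker = π.ker := by
        intro x
        apply le_antisymm inf_le_right
        intro y hy
        refine ⟨⟨⟨?_, ?_⟩, rfl⟩, hy⟩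
        · have : y ∈ Mg π ⊤ g ⊓ π.ker := by rw [hMgker]; exact hy
          exact this.1
        · exact t8_norm.2 (hconjker y)
      ext B
      constructor
      · rintro ⟨_, x, hx⟩
        rw [hst] at hx
        exact ⟨hx.symm, hx.symm.le⟩
      · rintro ⟨hB, _⟩
        have hB' : B = π.ker := hB
        exact ⟨by rw [hB']; exact hne, (), by rw [hst, hB']⟩
  · -- start
    intro j V hV hnone
    obtain ⟨_, f, hfk, rfl⟩ := hUmem _ _ hV
    have hj : j = 0 := by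
      by_contra hj
      apply hnone (MulAut.conj f • Ab b j)
      · rw [hUj j hj]
        exact ⟨f, hfk, rfl⟩
      · exact hmono1 _ _ _ (ab_mono b (Nat.le_succ j))
    subst hj
    refine ⟨f * s0 g * f⁻¹, ⟨Subgroup.mem_top _, ?_, Or.inl ⟨(), ?_, f, ?_, rfl⟩⟩, ?_⟩
    · have hf1 : π f = 1 := hfk
      rw [map_mul, map_mul, map_inv, hf1, hs0 g]
      simp
    · simp
    · exact ⟨Subgroup.mem_top _, hfk⟩
    · have hcom : ∀ x ∈ Ab b 1, s0 g * x = x * s0 g := by
        intro x hx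
        have hx' : x ∈ Subgroup.closure ((fun j => (b j : Γ)) '' {j : Fin n | (j : ℕ) < 1}) := hx
        induction hx' using Subgroup.closure_induction with
        | mem y hy =>
          obtain ⟨i, hi, rfl⟩ := hy
          have hi' : (i : ℕ) < 1 := hi
          obtain ⟨w, hw, v, hv, h1⟩ := hf i
          have hi0 : (i : ℕ) = 0 := by omega
          rw [hi0, ab_zero, Subgroup.mem_bot] at hw hv
          rw [hw, hv, one_mul, mul_one] at h1
          show s0 g * (b i : Γ) = (b i : Γ) * s0 g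
          have h2 : s0 g * (b i : Γ) = (s0 g * (b i : Γ) * (s0 g)⁻¹) * s0 g := by group
          rw [h2, h1]
        | one => rw [mul_one, one_mul]
        | mul y z hy' hz' hy hz => rw [← mul_assoc, hy hy', mul_assoc, hz hz', mul_assoc]
        | inv y hy' hy =>
          have h1 := hy hy'
          have h2 : s0 g * y⁻¹ = y⁻¹ * (y * s0 g) * y⁻¹ := by group
          rw [h2, ← h1]
          group
      intro v hv
      have hv' : v ∈ MulAut.conj f • Ab b 1 := hv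
      rw [t8_mem_conj] at hv'
      have h1 := hcom _ hv'
      have h2 : f * s0 g * f⁻¹ * v = f * (s0 g * (f⁻¹ * v * f)) * f⁻¹ := by group
      rw [h2, h1]
      group

end Pool.Agent.Lib.MP_6567fb_al
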