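import Pool.Agent.Lib.MP_6567fb_al.T5

/-!
# MP_6567fb_al, module T6

Cores of subgroups.
-/

set_option autoImplicit false

open scoped Pointwise

namespace Pool.Agent.Lib.MP_6567fb_al

open MTree

namespace TG
variable {X : Type} {G : SimpleGraph X}

/-- the geodesic between two vertices is finite -/
theorem finite_geod (hG : G.IsTree) (a b : X) : {z | Btw G a z b}.Finite := by
  apply Set.Finite.of_finite_image (f := fun z => G.dist a z)
  · apply (Set.finite_Iic (G.dist a b)).subset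
    rintro _ ⟨z, hz, rfl⟩
    have : G.dist a z + G.dist z b = G.dist a b := hz
    simp only [Set.mem_Iic]
    omega
  · intro z hz z' hz' h
    have h1 : G.dist a z + G.dist z b = G.dist a b := hz
    obtain ⟨w, -, hw⟩ := btw_point hG (x := a) (z := b) (k := G.dist a z) (by omega)
    rw [hw z ⟨hz, rfl⟩, hw z' ⟨hz', h.symm⟩]

end TG

namespace MTree
variable {Γ : Type} [Group Γ] {M : Subgroup Γ} (T : MTree M)

theorem axis_of_hyp (hni : T.NoInv) {m : Γ} (hm : m ∈ M) (h : T.Hyp m) :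
    ∃ (l : ℕ) (L : ℤ → T.X), T.IsAxis m l L := by
  rcases T.ell_or_axis hni hm with ⟨x, hx⟩ | h1
  · exact absurd hx (h x)
  · exact h1

theorem axis_conv (hni : T.NoInv) {m : Γ} (hm : m ∈ M) (h : T.Hyp m) : T.Conv (T.Axis m) := by
  obtain ⟨l, L, hL⟩ := T.axis_of_hyp hni hm h
  rw [(T.axis_eq hm hL).1]
  exact TG.conv_range_line T.tree hL.2.1

theorem axis_nonempty (hni : T.NoInv) {m : Γ} (hm : m ∈ M) (h : T.Hyp m) :
    (T.Axis m).Nonempty := by
  obtain ⟨l, L, hL⟩ := T.axis_of_hyp hni hm h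
  rw [(T.axis_eq hm hL).1]
  exact ⟨L 0, 0, rfl⟩

theorem axis_invariant {m : Γ} (hm : m ∈ M) {x : T.X} (hx : x ∈ T.Axis m) : T.act m x ∈ T.Axis m := by
  intro y
  rw [T.dist_act hm]
  exact hx y

theorem axis_invariant_inv {m : Γ} (hm : m ∈ M) {x : T.X} (hx : x ∈ T.Axis m) :
    T.act m⁻¹ x ∈ T.Axis m := by
  intro y
  have h := hx y
  rw [T.act_act_inv hm]
  have h2 := T.dist_act (M.inv_mem hm) x (T.act m x)
  rw [T.act_inv_act hm] at h2
  rw [h2]
  exact h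

/-- the bridge between two disjoint axes lies on the axis of the product -/
theorem axes_bridge {m n : Γ} (hm : m ∈ M) (hn : n ∈ M) (h1 : T.Hyp m)
    (h2 : T.Hyp n) {a b : T.X} (ha : a ∈ T.Axis m) (hb : b ∈ T.Axis n)
    (hab : ∀ s ∈ T.Axis m, ∀ s' ∈ T.Axis n, T.Btw s a s' ∧ T.Btw s b s' ∧ T.Btw a b s' ∧ T.Btw s a b)
    (hne : a ≠ b) :
    T.Hyp (m * n) ∧ a ∈ T.Axis (m * n) ∧ b ∈ T.Axis (m * n) := by
  have hmn : m * n ∈ M := M.mul_mem hm hn
  have hni' : n⁻¹ ∈ M := M.inv_mem hn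
  -- the points of the path
  have b1 : T.Btw (T.act n⁻¹ b) b a :=
    TG.btw_symm T.tree (hab a ha _ (T.axis_invariant_inv hn hb)).2.2.1
  have b2 : T.Btw b a (T.act m a) :=
    TG.btw_symm T.tree (hab _ (T.axis_invariant hm ha) b hb).2.2.2
  have b3 : T.Btw a (T.act m a) (T.act m b) := by
    have h := (hab _ (T.axis_invariant_inv hm ha) b hb).2.2.2
    have h' := (T.btw_act hm _ _ _).2 h
    rwa [T.act_act_inv hm] at h'
  have b4 : T.Btw (T.act m a) (T.act m b) (T.act m (T.act n b)) :=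
    (T.btw_act hm _ _ _).2 (hab a ha _ (T.axis_invariant hn hb)).2.2.1
  have n1 : T.act m a ≠ T.act m b := fun h => hne (T.act_inj hm h)
  have n2 : a ≠ T.act m a := fun h => h1 a h.symm
  have n3 : T.act m b ≠ T.act m (T.act n b) := fun h => h2 b (T.act_inj hm h).symm
  have g1 := TG.btw_glue T.tree b1 b2 (Ne.symm hne)
  have g2 := TG.btw_glue T.tree g1.2 b3 n2
  -- `g2.2 : Btw (n⁻¹ b) (m a) (m b)`
  have g3 := TG.btw_glue T.tree g2.2 b4 n1
  -- `g3.2 : Btw (n⁻¹ b) (m b) (m n b)`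
  have w1 : T.act (m * n) (T.act n⁻¹ b) = T.act m b := by
    rw [T.act_mul m hm n hn, T.act_act_inv hn]
  have w2 : T.act (m * n) b = T.act m (T.act n b) := T.act_mul m hm n hn b
  -- `b` and `a` lie between `n⁻¹ b` and `m b`
  have g4 : T.Btw (T.act n⁻¹ b) a (T.act m b) := g2.1
  have g5 : T.Btw (T.act n⁻¹ b) b (T.act m b) :=
    TG.btw_symm T.tree (TG.btw_trans T.tree (TG.btw_symm T.tree g4) (TG.btw_symm T.tree b1)).2
  have g6 : T.Btw (T.act m b) (T.act m (T.act n b)) (T.act (m * n) (T.act m b)) := by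
    have := (T.btw_act hmn _ _ _).2 g5
    rwa [w1, w2] at this
  have g7 := TG.btw_glue T.tree g3.2 g6 n3
  have hpq : T.act (m * n) (T.act n⁻¹ b) ≠ T.act n⁻¹ b := by
    rw [w1]
    intro h
    rw [h] at g5
    have e : T.G.dist (T.act n⁻¹ b) b + T.G.dist b (T.act n⁻¹ b) =
      T.G.dist (T.act n⁻¹ b) (T.act n⁻¹ b) := g5
    rw [SimpleGraph.dist_self] at e
    have e2 : T.G.dist (T.act n⁻¹ b) b = 0 := by omega
    have e3 := T.tree.1.dist_eq_zero_iff.1 e2
    apply h2 b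
    have := congrArg (T.act n) e3
    rw [T.act_act_inv hn] at this
    exact this.symm
  obtain ⟨l, L, hL, hL0, -⟩ := T.coherent hmn hpq (by rw [w1]; exact g7.1)
  have hc : T.Conv (Set.range L) := TG.conv_range_line T.tree hL.2.1
  have hp : T.act n⁻¹ b ∈ Set.range L := ⟨0, hL0⟩
  have hq : T.act m b ∈ Set.range L := ⟨0 + l, by rw [← hL.2.2 0, hL0, w1]⟩
  rw [(T.axis_eq hmn hL).1]
  exact ⟨T.hyp_of_axis hmn hL, hc _ hp _ hq _ g4, hc _ hp _ hq _ g5⟩

theorem mem_core_iff {D : Subgroup Γ} (h : ¬ T.Ell (D : Set Γ)) (x : T.X) :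
    x ∈ T.core D ↔ ∃ d ∈ D, T.Hyp d ∧ x ∈ T.Axis d := by
  unfold core
  rw [if_neg h]
  rfl

theorem mem_core_iff_ell {D : Subgroup Γ} (h : T.Ell (D : Set Γ)) (x : T.X) :
    x ∈ T.core D ↔ ∀ d ∈ D, T.act d x = x := by
  unfold core
  rw [if_pos h]
  rfl

theorem core_conv (hni : T.NoInv) {D : Subgroup Γ} (hD : D ≤ M) : T.Conv (T.core D) := by
  by_cases h : T.Ell (D : Set Γ)
  · intro x hx z hz y hy
    rw [T.mem_core_iff_ell h] at hx hz ⊢
    intro d hd
    exact T.fix_conv (hD hd) x (hx d hd) z (hz d hd) y hy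
  · intro x hx z hz y hy
    rw [T.mem_core_iff h] at hx hz ⊢
    obtain ⟨m, hmD, hm1, hm2⟩ := hx
    obtain ⟨n, hnD, hn1, hn2⟩ := hz
    have hm := hD hmD
    have hn := hD hnD
    have cm := T.axis_conv hni hm hm1
    have cn := T.axis_conv hni hn hn1
    by_cases hd : Disjoint (T.Axis m) (T.Axis n)
    · obtain ⟨⟨a, b⟩, ⟨ha, hb, hab⟩, -⟩ := TG.exists_unique_bridge T.tree cm cn
        (T.axis_nonempty hni hm hm1) (T.axis_nonempty hni hn hn1) hd
      simp only at ha hb hab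
      have hne : a ≠ b := fun e => Set.disjoint_left.1 hd ha (e ▸ hb)
      obtain ⟨w1, w2, w3⟩ := T.axes_bridge hm hn hm1 hn1 ha hb hab hne
      have hmn : m * n ∈ D := D.mul_mem hmD hnD
      have cw := T.axis_conv hni (hD hmn) w1
      have c1 : T.Conv (T.Axis m ∪ T.Axis (m * n)) := TG.conv_union T.tree cm cw ⟨a, ha, w2⟩
      have c2 : T.Conv (T.Axis m ∪ T.Axis (m * n) ∪ T.Axis n) :=
        TG.conv_union T.tree c1 cn ⟨b, Or.inr w3, hb⟩
      rcases c2 x (Or.inl (Or.inl hm2)) z (Or.inr hn2) y hy with (h1 | h1) | h1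
      · exact ⟨m, hmD, hm1, h1⟩
      · exact ⟨m * n, hmn, w1, h1⟩
      · exact ⟨n, hnD, hn1, h1⟩
    · rw [Set.not_disjoint_iff] at hd
      obtain ⟨c, hc⟩ := hd
      rcases TG.conv_union T.tree cm cn ⟨c, hc⟩ x (Or.inl hm2) z (Or.inr hn2) y hy with h1 | h1
      · exact ⟨m, hmD, hm1, h1⟩
      · exact ⟨n, hnD, hn1, h1⟩

theorem core_nonempty (hni : T.NoInv) {D : Subgroup Γ} (hD : D ≤ M) (hfg : D.FG) :
    (T.core D).Nonempty := by
  by_cases h : T.Ell (D : Set Γ)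
  · obtain ⟨x, hx⟩ := h
    exact ⟨x, (T.mem_core_iff_ell ⟨x, hx⟩ x).2 hx⟩
  · have h1 : ¬ ∀ d ∈ D, ∃ x, T.act d x = x := fun h2 => h (T.serre hni D hD hfg h2)
    push Not at h1
    obtain ⟨d, hd, h2⟩ := h1
    obtain ⟨x, hx⟩ := T.axis_nonempty hni (hD hd) h2
    exact ⟨x, (T.mem_core_iff h x).2 ⟨d, hd, h2, hx⟩⟩

theorem mem_conj_smul6 {D : Subgroup Γ} {m d : Γ} :
    d ∈ MulAut.conj m • D ↔ m⁻¹ * d * m ∈ D := by
  rw [Subgroup.mem_pointwise_smul_iff_inv_smul_mem]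
  simp [MulAut.smul_def]

theorem axis_conj' {m d : Γ} (hm : m ∈ M) (hd : d ∈ M) (x : T.X) :
    x ∈ T.Axis (m⁻¹ * d * m) ↔ T.act m x ∈ T.Axis d := by
  have hmi : m⁻¹ ∈ M := M.inv_mem hm
  have key : ∀ y, T.G.dist y (T.act (m⁻¹ * d * m) y) =
      T.G.dist (T.act m y) (T.act d (T.act m y)) := by
    intro y
    rw [T.act_mul _ (M.mul_mem hmi hd) _ hm, T.act_mul _ hmi _ hd,
      ← T.dist_act hm y, T.act_act_inv hm]
  constructor
  · intro h y
    obtain ⟨y', rfl⟩ := T.act_surj hm y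
    rw [← key, ← key]
    exact h y'
  · intro h y
    rw [key, key]
    exact h _

theorem core_conj {D : Subgroup Γ} (hD : D ≤ M) {m : Γ} (hm : m ∈ M) :
    T.core (MulAut.conj m • D) = T.act m '' T.core D := by
  have hmi : m⁻¹ ∈ M := M.inv_mem hm
  have act3 : ∀ d ∈ M, ∀ x, T.act (m * d * m⁻¹) (T.act m x) = T.act m (T.act d x) := by
    intro d hd x
    rw [T.act_mul _ (M.mul_mem hm hd) _ hmi, T.act_inv_act hm, T.act_mul _ hm _ hd]
  have e1 : ∀ x, (∀ d ∈ MulAut.conj m • D, T.act d (T.act m x) = T.act m x) ↔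
      ∀ d ∈ D, T.act d x = x := by
    intro x
    constructor
    · intro h d hd
      have h1 := h (m * d * m⁻¹) (mem_conj_smul6.2 (by simpa [mul_assoc] using hd))
      rw [act3 d (hD hd)] at h1
      exact T.act_inj hm h1
    · intro h d hd
      have hd' := mem_conj_smul6.1 hd
      have h1 := h _ hd'
      have h2 := act3 _ (hD hd') x
      rw [h1] at h2
      have h3 : m * (m⁻¹ * d * m) * m⁻¹ = d := by group
      rwa [h3] at h2
  have hell : T.Ell ((MulAut.conj m • D : Subgroup Γ) : Set Γ) ↔ T.Ell (D : Set Γ) := by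
    constructor
    · rintro ⟨x, hx⟩
      obtain ⟨y, rfl⟩ := T.act_surj hm x
      exact ⟨y, (e1 y).1 hx⟩
    · rintro ⟨x, hx⟩
      exact ⟨T.act m x, (e1 x).2 hx⟩
  have hyp3 : ∀ d ∈ M, (T.Hyp (m⁻¹ * d * m) ↔ T.Hyp d) := by
    intro d hd
    have e2 : ∀ y, T.act (m⁻¹ * d * m) y = y ↔ T.act d (T.act m y) = T.act m y := by
      intro y
      rw [T.act_mul _ (M.mul_mem hmi hd) _ hm, T.act_mul _ hmi _ hd]
      constructor
      · intro h
        have := congrArg (T.act m) h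
        rwa [T.act_act_inv hm] at this
      · intro h
        rw [h, T.act_inv_act hm]
    constructor
    · intro h x hx
      obtain ⟨y, rfl⟩ := T.act_surj hm x
      exact h y ((e2 y).2 hx)
    · intro h y hy
      exact h _ ((e2 y).1 hy)
  ext x
  obtain ⟨y, rfl⟩ := T.act_surj hm x
  rw [(T.act_inj hm).mem_set_image]
  by_cases h : T.Ell (D : Set Γ)
  · rw [T.mem_core_iff_ell (hell.2 h), T.mem_core_iff_ell h]
    exact e1 y
  · rw [T.mem_core_iff (fun h' => h (hell.1 h')), T.mem_core_iff h]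
    constructor
    · rintro ⟨d, hd, hd1, hd2⟩
      have hd' := mem_conj_smul6.1 hd
      have hdM : d ∈ M := by
        have h4 := M.mul_mem (M.mul_mem hm (hD hd')) hmi
        have h3 : m * (m⁻¹ * d * m) * m⁻¹ = d := by group
        rwa [h3] at h4
      exact ⟨_, hd', (hyp3 d hdM).2 hd1, (T.axis_conj' hm hdM y).2 hd2⟩
    · rintro ⟨d, hd, hd1, hd2⟩
      have hdM := hD hd
      have hc : m * d * m⁻¹ ∈ M := M.mul_mem (M.mul_mem hm hdM) hmi
      have h3 : m⁻¹ * (m * d * m⁻¹) * m = d := by group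
      refine ⟨m * d * m⁻¹, mem_conj_smul6.2 (by rw [h3]; exact hd), ?_, ?_⟩
      · rw [← hyp3 _ hc, h3]
        exact hd1
      · rw [← T.axis_conj' hm hc, h3]
        exact hd2

theorem core_min (hni : T.NoInv) {D : Subgroup Γ} (hD : D ≤ M) (hne : ¬ T.Ell (D : Set Γ))
    {S : Set T.X} (hS : T.Conv S) (hSne : S.Nonempty) (hi : ∀ d ∈ D, ∀ x ∈ S, T.act d x ∈ S) :
    T.core D ⊆ S := by
  intro x hx
  rw [T.mem_core_iff hne] at hx
  obtain ⟨d, hd, h1, h2⟩ := hx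
  have hdM := hD hd
  obtain ⟨l, L, hL⟩ := T.axis_of_hyp hni hdM h1
  rw [(T.axis_eq hdM hL).1] at h2
  refine T.axis_subset hdM hL hS hSne (fun y => ⟨fun h => ?_, hi d hd y⟩) h2
  have := hi d⁻¹ (D.inv_mem hd) _ h
  rwa [T.act_inv_act hdM] at this

/-- finitely many `D`-orbits of edges in the core -/
theorem core_cofinite (hni : T.NoInv) {D : Subgroup Γ} (hD : D ≤ M) (hfg : D.FG)
    (hne : ¬ T.Ell (D : Set Γ)) :
    ∃ S : Finset (T.X × T.X), ∀ x ∈ T.core D, ∀ y ∈ T.core D, T.G.Adj x y →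
      ∃ d ∈ D, (T.act d x, T.act d y) ∈ S := by
  classical
  obtain ⟨x₀, hx₀⟩ := T.core_nonempty hni hD hfg
  obtain ⟨S₀, hS₀⟩ := hfg
  -- the finite set of vertices on the geodesics `[x₀, s x₀]`
  let K : Set T.X := ⋃ s ∈ S₀, {z | T.Btw x₀ z (T.act s x₀)}
  have hK : K.Finite := S₀.finite_toSet.biUnion (fun s _ => TG.finite_geod T.tree _ _)
  refine ⟨(hK.prod hK).toFinset, ?_⟩
  intro x hx y hy hxy
  by_contra hcon
  push Not at hcon
  have hsM : ∀ s ∈ S₀, s ∈ D := fun s hs => hS₀ ▸ Subgroup.subset_closure hs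
  -- no translate of a generating geodesic crosses the edge
  have hK' : ∀ s ∈ S₀, ∀ z, T.Btw x₀ z (T.act s x₀) → z ∈ K := fun s hs z hz =>
    Set.mem_biUnion hs hz
  have cross : ∀ d ∈ D, ∀ s ∈ S₀,
      (T.Beyond x y (T.act d x₀) ↔ T.Beyond x y (T.act d (T.act s x₀))) := by
    intro d hd s hs
    have hdM := hD hd
    have hdi : d⁻¹ ∈ M := M.inv_mem hdM
    have push : ∀ z, T.Btw (T.act d x₀) z (T.act d (T.act s x₀)) →
        T.act d⁻¹ z ∈ K := by
      intro z hz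
      apply hK' s hs
      have := (T.btw_act hdi _ _ _).2 hz
      rwa [T.act_inv_act hdM, T.act_inv_act hdM] at this
    have no : ¬ (T.Btw (T.act d x₀) x (T.act d (T.act s x₀)) ∧
        T.Btw (T.act d x₀) y (T.act d (T.act s x₀))) := by
      rintro ⟨h1, h2⟩
      apply hcon d⁻¹ (D.inv_mem hd)
      rw [Set.Finite.mem_toFinset]
      exact ⟨push x h1, push y h2⟩
    constructor
    · intro h1
      by_contra h2
      have h3 := (TG.beyond_sep T.tree hxy).1 ⟨h2, h1⟩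
      exact no ⟨TG.btw_symm T.tree h3.1, TG.btw_symm T.tree h3.2.1⟩
    · intro h1
      by_contra h2
      have h3 := (TG.beyond_sep T.tree hxy).1 ⟨h2, h1⟩
      exact no ⟨h3.1, h3.2.1⟩
  -- the whole orbit is on one side
  have orb : ∀ d ∈ D, (T.Beyond x y (T.act d x₀) ↔ T.Beyond x y x₀) := by
    intro d hd
    have hd' : d ∈ Subgroup.closure (S₀ : Set Γ) := hS₀ ▸ hd
    induction hd' using Subgroup.closure_induction_right with
    | one => rw [T.act_one]
    | mul_right g hg s hs ih =>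
      have hgD : g ∈ D := hS₀ ▸ hg
      rw [T.act_mul g (hD hgD) s (hD (hsM s hs)), ← cross g hgD s hs]
      exact ih hgD
    | mul_inv_cancel g hg s hs ih =>
      have hgD : g ∈ D := hS₀ ▸ hg
      have hsD := hsM s hs
      have h1 := cross (g * s⁻¹) (D.mul_mem hgD (D.inv_mem hsD)) s hs
      rw [h1, ← T.act_mul _ (hD (D.mul_mem hgD (D.inv_mem hsD))) _ (hD hsD), inv_mul_cancel_right]
      exact ih hgD
  -- the hull of the orbit
  let H : Set T.X := T.hull {z | ∃ d ∈ D, z = T.act d x₀}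
  have hHc : T.Conv H := TG.conv_hull T.tree _
  have hHi : ∀ d ∈ D, ∀ z ∈ H, T.act d z ∈ H := by
    rintro d hd z ⟨_, ⟨e, he, rfl⟩, _, ⟨f, hf, rfl⟩, hz⟩
    refine ⟨_, ⟨d * e, D.mul_mem hd he, rfl⟩, _, ⟨d * f, D.mul_mem hd hf, rfl⟩, ?_⟩
    rw [T.act_mul _ (hD hd) _ (hD he), T.act_mul _ (hD hd) _ (hD hf)]
    exact (T.btw_act (hD hd) _ _ _).2 hz
  have hHne : H.Nonempty := by
    refine ⟨x₀, x₀, ⟨1, D.one_mem, (T.act_one _).symm⟩, x₀, ⟨1, D.one_mem, (T.act_one _).symm⟩, ?_⟩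
    show T.G.dist x₀ x₀ + T.G.dist x₀ x₀ = T.G.dist x₀ x₀
    simp
  have hsub := T.core_min hni hD hne hHc hHne hHi
  have nb : ¬ T.Beyond x y x := by
    intro h
    have h' : T.G.dist y x < T.G.dist x x := h
    simp at h'
  have bb : T.Beyond x y y := by
    show T.G.dist y y < T.G.dist x y
    rw [SimpleGraph.dist_self, SimpleGraph.dist_eq_one_iff_adj.2 hxy]
    exact Nat.one_pos
  by_cases hb : T.Beyond x y x₀
  · -- everything is beyond
    have hc := TG.conv_beyond T.tree hxy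
    obtain ⟨_, ⟨e, he, rfl⟩, _, ⟨f, hf, rfl⟩, hz⟩ := hsub hx
    exact nb (hc _ ((orb e he).2 hb) _ ((orb f hf).2 hb) _ hz)
  · have hc := TG.conv_beyond T.tree hxy.symm
    obtain ⟨_, ⟨e, he, rfl⟩, _, ⟨f, hf, rfl⟩, hz⟩ := hsub hy
    have h1 : ∀ d ∈ D, T.Beyond y x (T.act d x₀) := by
      intro d hd
      exact (TG.beyond_iff T.tree hxy.symm _).2 (fun h => hb ((orb d hd).1 h))
    have h2 : T.Beyond y x y := hc _ (h1 e he) _ (h1 f hf) _ hz
    exact (TG.beyond_iff T.tree hxy y).1 bb h2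

end MTree

end Pool.Agent.Lib.MP_6567fb_al
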