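import Pool.Agent.Lib.MP_6567fb_al.T2b

/-!
# MP_6567fb_al, module T7a

Retraction onto a vertex group.  `H` acts on `T` with trivial edge stabilisers.  For an edge `(x,y)` with `x = k x₀` the
element `k = retK (x,y)` is chosen equivariantly, `g x` is an element of `H` with `g x x₀ = x`; the difference
`a (x,y) = k⁻¹ g x` lies in the stabiliser of `x₀`; `u` is the potential of `a (y,x)⁻¹ a (x,y)`; the function
`u (h x)⁻¹ (g (h x)⁻¹ h g x) u x` does not depend on `x`; it is the value of the retraction at `h`.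
-/

set_option autoImplicit false

open scoped Pointwise

namespace Pool.Agent.Lib.MP_6567fb_al

open MTree

namespace TG
variable {X : Type} {G : SimpleGraph X}

/-- ordered product of the values of `c` along a walk -/
def wv {A : Type} [Group A] (c : X → X → A) : ∀ {x y : X}, G.Walk x y → A
  | _, _, .nil => 1
  | _, _, .cons (u := u) (v := v) _ p => wv c p * c u v

theorem wv_concat {A : Type} [Group A] (c : X → X → A) {x y z : X} (p : G.Walk x y)
    (h : G.Adj y z) : wv c (p.concat h) = c y z * wv c p := by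
  induction p with
  | nil => simp [wv, SimpleGraph.Walk.concat_nil]
  | cons h' p ih => rw [SimpleGraph.Walk.concat_cons, wv, wv, ih h, mul_assoc]

/-- induction along the edges -/
theorem adj_ind (hc : G.Preconnected) {P : X → Prop} (hP : ∀ x y, G.Adj x y → P x → P y)
    (x y : X) (hx : P x) : P y := by
  obtain ⟨p⟩ := hc x y
  induction p with
  | nil => exact hx
  | cons h p ih => exact ih (hP _ _ h hx)

/-- multiplicative potential -/
theorem potential_mul (hG : G.IsTree) {A : Type} [Group A] (c : X → X → A)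
    (hc : ∀ x y, G.Adj x y → c y x = (c x y)⁻¹) (x₀ : X) :
    ∃ u : X → A, u x₀ = 1 ∧ ∀ x y, G.Adj x y → u y = c x y * u x := by
  classical
  choose P hP hU using fun y => hG.existsUnique_path x₀ y
  have key : ∀ x y, ∀ h : G.Adj x y, y ∉ (P x).support → wv c (P y) = c x y * wv c (P x) := by
    intro x y h hy
    have h1 : ((P x).concat h).IsPath := (hP x).concat hy h
    rw [← hU y _ h1, wv_concat]
  have key2 : ∀ x y, G.Adj x y → wv c (P y) = c x y * wv c (P x) := by
    intro x y h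
    by_cases hy : y ∈ (P x).support
    · have h1 : ((P x).takeUntil y hy).IsPath := (hP x).takeUntil hy
      have h2 : ((P x).dropUntil y hy).IsPath := (hP x).dropUntil hy
      have h3 := hU y _ h1
      have h4 : (P x).dropUntil y hy = SimpleGraph.Walk.cons h.symm SimpleGraph.Walk.nil := by
        obtain ⟨q, _, hq⟩ := hG.existsUnique_path y x
        have h5 : (SimpleGraph.Walk.cons h.symm SimpleGraph.Walk.nil : G.Walk y x).IsPath := by
          rw [SimpleGraph.Walk.cons_isPath_iff]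
          refine ⟨SimpleGraph.Walk.IsPath.nil, ?_⟩
          simp only [SimpleGraph.Walk.support_nil, List.mem_singleton]
          exact h.ne'
        rw [hq _ h2, hq _ h5]
      have h5 := (P x).take_spec hy
      rw [h3, h4] at h5
      have h6 : (P y).concat h.symm = P x := h5
      rw [← h6, wv_concat, hc x y h, mul_inv_cancel_left]
    · exact key x y h hy
  refine ⟨fun y => wv c (P y) * (wv c (P x₀))⁻¹, mul_inv_cancel _, fun x y h => ?_⟩
  simp only [key2 x y h, mul_assoc]

end TG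

variable {Γ : Type} [Group Γ]

section
variable {H : Subgroup Γ} (T : MTree H)

/-- the orbits of the pairs of vertices -/
def retSetoid : Setoid (T.X × T.X) where
  r p q := ∃ h ∈ H, T.act h p.1 = q.1 ∧ T.act h p.2 = q.2
  iseqv := {
    refl := fun p => ⟨1, H.one_mem, T.act_one _, T.act_one _⟩
    symm := fun {p q} ⟨h, hh, h1, h2⟩ => ⟨h⁻¹, H.inv_mem hh, by
      rw [← h1, ← T.act_mul _ (H.inv_mem hh) _ hh, inv_mul_cancel, T.act_one], by
      rw [← h2, ← T.act_mul _ (H.inv_mem hh) _ hh, inv_mul_cancel, T.act_one]⟩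
    trans := fun {p q r} ⟨h, hh, h1, h2⟩ ⟨h', hh', h3, h4⟩ => ⟨h' * h, H.mul_mem hh' hh, by
      rw [T.act_mul _ hh' _ hh, h1, h3], by
      rw [T.act_mul _ hh' _ hh, h2, h4]⟩ }

/-- equivariant choice -/
theorem exists_retK (hfree : ∀ h ∈ H, ∀ x y, T.G.Adj x y → T.act h x = x → T.act h y = y → h = 1)
    (x₀ : T.X) : ∃ k : T.X → T.X → Γ, ∀ x y, T.G.Adj x y → (∃ h ∈ H, T.act h x₀ = x) →
      k x y ∈ H ∧ T.act (k x y) x₀ = x ∧ ∀ h ∈ H, k (T.act h x) (T.act h y) = h * k x y := by
  classical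
  let o : T.X × T.X → T.X × T.X := fun p => Quotient.out (Quotient.mk (retSetoid T) p)
  have ho : ∀ p, ∃ h ∈ H, T.act h (o p).1 = p.1 ∧ T.act h (o p).2 = p.2 := fun p =>
    Quotient.mk_out (s := retSetoid T) p
  have ho2 : ∀ p, ∀ h ∈ H, o (T.act h p.1, T.act h p.2) = o p := by
    intro p h hh
    have h1 : Quotient.mk (retSetoid T) (T.act h p.1, T.act h p.2) = Quotient.mk (retSetoid T) p :=
      Quotient.sound ((retSetoid T).symm ⟨h, hh, rfl, rfl⟩)
    simp only [o, h1]
  choose η hη h1 h2 using ho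
  let t : T.X → Γ := fun x => if hx : ∃ h ∈ H, T.act h x₀ = x then hx.choose else 1
  have ht : ∀ x, (∃ h ∈ H, T.act h x₀ = x) → t x ∈ H ∧ T.act (t x) x₀ = x := by
    intro x hx
    simp only [t, dif_pos hx]
    exact hx.choose_spec
  refine ⟨fun x y => η (x, y) * t (o (x, y)).1, fun x y hxy hx => ?_⟩
  have h3 : ∃ h ∈ H, T.act h x₀ = (o (x, y)).1 := by
    obtain ⟨h, hh, h4⟩ := hx
    refine ⟨(η (x, y))⁻¹ * h, H.mul_mem (H.inv_mem (hη _)) hh, ?_⟩
    rw [T.act_mul _ (H.inv_mem (hη _)) _ hh, h4]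
    have h5 := h1 (x, y)
    simp only at h5
    rw [← h5, ← T.act_mul _ (H.inv_mem (hη _)) _ (hη _)]
    rw [h5, inv_mul_cancel, T.act_one]
  obtain ⟨h4, h5⟩ := ht _ h3
  refine ⟨H.mul_mem (hη _) h4, ?_, fun h hh => ?_⟩
  · rw [T.act_mul _ (hη _) _ h4, h5, h1]
  · have h6 := ho2 (x, y) h hh
    simp only at h6
    have h7 : η (T.act h x, T.act h y) = h * η (x, y) := by
      have h8 := h1 (T.act h x, T.act h y)
      have h9 := h2 (T.act h x, T.act h y)
      rw [h6] at h8 h9
      have h10 := h1 (x, y)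
      have h11 := h2 (x, y)
      simp only at h8 h9 h10 h11
      have h12 : T.G.Adj (o (x, y)).1 (o (x, y)).2 := by
        have h13 := T.act_adj _ (H.inv_mem (hη (x, y))) _ _ hxy
        have h14 : ∀ z w, T.act (η (x, y)) z = w → T.act (η (x, y))⁻¹ w = z := by
          intro z w hzw
          rw [← hzw, ← T.act_mul _ (H.inv_mem (hη _)) _ (hη _), inv_mul_cancel, T.act_one]
        rwa [h14 _ _ h10, h14 _ _ h11] at h13
      have hm1 : h * η (x, y) ∈ H := H.mul_mem hh (hη _)
      have hm2 : (h * η (x, y))⁻¹ * η (T.act h x, T.act h y) ∈ H :=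
        H.mul_mem (H.inv_mem hm1) (hη _)
      have h15 : ∀ z, T.act (η (T.act h x, T.act h y)) z = T.act (h * η (x, y)) z →
          T.act ((h * η (x, y))⁻¹ * η (T.act h x, T.act h y)) z = z := by
        intro z hz
        rw [T.act_mul _ (H.inv_mem hm1) _ (hη _), hz, ← T.act_mul _ (H.inv_mem hm1) _ hm1,
          inv_mul_cancel, T.act_one]
      have h16 := hfree _ hm2 _ _ h12 (h15 _ (by rw [h8, T.act_mul _ hh _ (hη _), h10]))
        (h15 _ (by rw [h9, T.act_mul _ hh _ (hη _), h11]))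
      exact (inv_mul_eq_one.1 h16).symm
    simp only
    rw [h6, h7, mul_assoc]

end

/-- groups acting with trivial edge stabilisers: retraction onto a vertex group killing the other
vertex groups -/
theorem retract_vertex {H : Subgroup Γ} (T : MTree H) (hni : T.NoInv)
    (hfree : ∀ h ∈ H, ∀ x y, T.G.Adj x y → T.act h x = x → T.act h y = y → h = 1) (x₀ : T.X) :
    ∃ r : H →* H, (∀ h, ((r h : H) : Γ) ∈ T.stab x₀) ∧ (∀ h : H, (h : Γ) ∈ T.stab x₀ → r h = h) ∧
      ∀ x, (∀ h ∈ H, T.act h x₀ ≠ x) → ∀ h : H, (h : Γ) ∈ T.stab x → r h = 1 := by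
  classical
  obtain ⟨k, hk⟩ := exists_retK T hfree x₀
  let O : T.X → Prop := fun x => ∃ h ∈ H, T.act h x₀ = x
  have hO : ∀ x, ∀ h ∈ H, (O (T.act h x) ↔ O x) := by
    intro x h hh
    constructor
    · rintro ⟨h', hh', h1⟩
      refine ⟨h⁻¹ * h', H.mul_mem (H.inv_mem hh) hh', ?_⟩
      rw [T.act_mul _ (H.inv_mem hh) _ hh', h1, ← T.act_mul _ (H.inv_mem hh) _ hh,
        inv_mul_cancel, T.act_one]
    · rintro ⟨h', hh', h1⟩
      exact ⟨h * h', H.mul_mem hh hh', by rw [T.act_mul _ hh _ hh', h1]⟩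
  let g : T.X → Γ := fun x => if x = x₀ then 1 else if hx : O x then hx.choose else 1
  have hg0 : g x₀ = 1 := if_pos rfl
  have hg : ∀ x, O x → g x ∈ H ∧ T.act (g x) x₀ = x := by
    intro x hx
    by_cases h : x = x₀
    · simp only [g, if_pos h]
      exact ⟨H.one_mem, by rw [T.act_one, h]⟩
    · simp only [g, if_neg h, dif_pos hx]
      exact hx.choose_spec
  -- elements mapping `x₀` to the same vertex
  have hst : ∀ a b : Γ, a ∈ H → b ∈ H → T.act a x₀ = T.act b x₀ → a⁻¹ * b ∈ T.stab x₀ := by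
    intro a b ha hb hab
    refine ⟨H.mul_mem (H.inv_mem ha) hb, ?_⟩
    rw [T.act_mul _ (H.inv_mem ha) _ hb, ← hab, ← T.act_mul _ (H.inv_mem ha) _ ha,
      inv_mul_cancel, T.act_one]
  let a : T.X → T.X → Γ := fun x y => if O x then (k x y)⁻¹ * g x else 1
  have ha : ∀ x y, T.G.Adj x y → a x y ∈ T.stab x₀ := by
    intro x y hxy
    by_cases hx : O x
    · simp only [a, if_pos hx]
      obtain ⟨h1, h2, _⟩ := hk x y hxy hx
      obtain ⟨h3, h4⟩ := hg x hx
      exact hst _ _ h1 h3 (h2.trans h4.symm)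
    · simp only [a, if_neg hx]
      exact (T.stab x₀).one_mem
  let σ : Γ → T.X → Γ := fun h x => if O x then (g (T.act h x))⁻¹ * h * g x else 1
  have hσ : ∀ h ∈ H, ∀ x, σ h x ∈ T.stab x₀ := by
    intro h hh x
    by_cases hx : O x
    · simp only [σ, if_pos hx]
      obtain ⟨h1, h2⟩ := hg x hx
      obtain ⟨h3, h4⟩ := hg _ ((hO x h hh).2 hx)
      rw [mul_assoc]
      apply hst _ _ h3 (H.mul_mem hh h1)
      rw [h4, T.act_mul _ hh _ h1, h2]
    · simp only [σ, if_neg hx]
      exact (T.stab x₀).one_mem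
  have hequi : ∀ h ∈ H, ∀ x y, T.G.Adj x y → a (T.act h x) (T.act h y) = a x y * (σ h x)⁻¹ := by
    intro h hh x y hxy
    by_cases hx : O x
    · simp only [a, σ, if_pos hx, if_pos ((hO x h hh).2 hx)]
      rw [(hk x y hxy hx).2.2 h hh]
      group
    · simp only [a, σ, if_neg hx, if_neg (fun h' => hx ((hO x h hh).1 h'))]
      group
  obtain ⟨u, hu0, hu⟩ := TG.potential_mul T.tree (fun x y => (a y x)⁻¹ * a x y)
    (fun x y _ => by group) x₀
  have huS : ∀ x, u x ∈ T.stab x₀ := by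
    intro x
    refine TG.adj_ind T.tree.connected.preconnected (P := fun x => u x ∈ T.stab x₀)
      (fun x y hxy hx => ?_) x₀ x ?_
    · simp only [hu x y hxy]
      exact (T.stab x₀).mul_mem ((T.stab x₀).mul_mem ((T.stab x₀).inv_mem (ha y x hxy.symm))
        (ha x y hxy)) hx
    · simp only [hu0]
      exact (T.stab x₀).one_mem
  -- the value does not depend on the vertex
  have hconst : ∀ h ∈ H, ∀ x, (u (T.act h x))⁻¹ * σ h x * u x =
      (u (T.act h x₀))⁻¹ * σ h x₀ * u x₀ := by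
    intro h hh x
    refine TG.adj_ind T.tree.connected.preconnected
      (P := fun x => (u (T.act h x))⁻¹ * σ h x * u x = (u (T.act h x₀))⁻¹ * σ h x₀ * u x₀)
      (fun x y hxy hx => ?_) x₀ x rfl
    rw [← hx]
    have h1 := hu _ _ (T.act_adj h hh x y hxy)
    rw [hequi h hh x y hxy, hequi h hh y x hxy.symm] at h1
    have h2 := hu x y hxy
    rw [h1, h2]
    group
  have hcoc : ∀ h ∈ H, ∀ h' ∈ H, ∀ x, σ (h * h') x = σ h (T.act h' x) * σ h' x := by
    intro h hh h' hh' x
    by_cases hx : O x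
    · simp only [σ, if_pos hx, if_pos ((hO x h' hh').2 hx)]
      rw [T.act_mul _ hh _ hh']
      group
    · simp only [σ, if_neg hx, if_neg (fun h'' => hx ((hO x h' hh').1 h''))]
      group
  let R : Γ → Γ := fun h => (u (T.act h x₀))⁻¹ * σ h x₀ * u x₀
  have hRS : ∀ h ∈ H, R h ∈ T.stab x₀ := fun h hh =>
    (T.stab x₀).mul_mem ((T.stab x₀).mul_mem ((T.stab x₀).inv_mem (huS _)) (hσ h hh x₀)) (huS _)
  have hRmul : ∀ h ∈ H, ∀ h' ∈ H, R (h * h') = R h * R h' := by
    intro h hh h' hh'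
    have h1 : R h = (u (T.act h (T.act h' x₀)))⁻¹ * σ h (T.act h' x₀) * u (T.act h' x₀) :=
      (hconst h hh (T.act h' x₀)).symm
    rw [h1]
    simp only [R]
    rw [T.act_mul _ hh _ hh', hcoc h hh h' hh' x₀]
    group
  have hO0 : O x₀ := ⟨1, H.one_mem, T.act_one _⟩
  refine ⟨MonoidHom.mk' (fun h : H => (⟨R h, (hRS h h.2).1⟩ : H)) (fun h h' => ?_), ?_, ?_, ?_⟩
  · exact Subtype.ext (hRmul h h.2 h' h'.2)
  · intro h
    exact hRS h h.2
  · rintro h ⟨h1, h2⟩
    apply Subtype.ext
    change (u (T.act h x₀))⁻¹ * σ h x₀ * u x₀ = h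
    simp only [σ, if_pos hO0]
    rw [h2, hu0, hg0]
    group
  · rintro x hx h ⟨h1, h2⟩
    apply Subtype.ext
    change (u (T.act h x₀))⁻¹ * σ h x₀ * u x₀ = 1
    rw [← hconst h h.2 x]
    have h3 : ¬ O x := by
      rintro ⟨h', hh', h4⟩
      exact hx h' hh' h4
    simp only [σ, if_neg h3]
    rw [h2]
    group

end Pool.Agent.Lib.MP_6567fb_al
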