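import Pool.Agent.Lib.MP_6567fb_al.Defs2

/-!
# MP_6567fb_al : definitions for part K (complete, no sorry)
-/

set_option autoImplicit false

open scoped Pointwise

namespace Pool.Agent.Lib.MP_6567fb_al

open MTree

variable {Γ G : Type} [Group Γ] [Group G] (π : Γ →* G)

/-! ### K1-K4 : one element `g`; `M` is a group with `Cyc π M g` -/

/-- the bipartite graph `B(g)`: members of `Ω` and the lifts of `g` in `M`; `B -- P` iff `P B P⁻¹ = B`. -/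
def BG (M : Subgroup Γ) (g : G) (Ω : Set (Subgroup Γ)) : SimpleGraph (Ω ⊕ {P : Γ // P ∈ M ∧ π P = g}) where
  Adj a b := match a, b with
    | Sum.inl B, Sum.inr P => MulAut.conj (P : Γ) • (B : Subgroup Γ) = B
    | Sum.inr P, Sum.inl B => MulAut.conj (P : Γ) • (B : Subgroup Γ) = B
    | _, _ => False
  symm := ⟨fun a b h => by cases a <;> cases b <;> simp_all⟩
  loopless := ⟨fun a h => by cases a <;> simp_all⟩

/-- `Ω` is bounded for `M`: there is an `M`-splitting whose non-trivial vertex groups are exactly the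
members of `Ω`, and which is the hull of the vertices with stabiliser in `Ω` (if `Ω` is non-empty) -/
def IsBdd (M : Subgroup Γ) (Ω : Set (Subgroup Γ)) : Prop :=
  ∃ T : MTree M, T.IsSplitting π.ker ∧ T.vgs π.ker = Ω ∧
    (Ω.Nonempty → T.hull {x | T.stab x ⊓ π.ker ∈ Ω} = Set.univ)

/-- the data of K4 (case 1 and case 2) -/
structure KData (M : Subgroup Γ) (g : G) (Ω : Set (Subgroup Γ)) where
  /-- minimal splitting -/
  S : MTree M
  hS : S.IsSplitting π.ker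
  hSmin : S.Minimal π.ker
  /-- the vertex -/
  v : S.X
  hv : S.stab v ⊓ π.ker ≠ ⊥
  /-- (M) -/
  hM : ∀ U' : MTree (S.stab v), U'.IsSplitting π.ker → U'.Nontriv π.ker →
    ∃ w' Q, S.G.Adj v w' ∧ Q ∈ M ∧ π Q = g ∧ S.FixE Q v w' ∧ U'.Hyp Q
  /-- splitting of the vertex stabiliser rel `Ω_A` -/
  U : MTree (S.stab v)
  hU : U.IsSplitting π.ker
  hUmin : U.Minimal π.ker
  hUrel : U.Rel (resFam Ω (S.stab v ⊓ π.ker))
  /-- the edge `e = (v,w)` and its lift `P`, hyperbolic on `U` -/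
  w : S.X
  hw : S.G.Adj v w
  P : Γ
  hP : P ∈ M
  hPg : π P = g
  hPe : S.FixE P v w
  l : ℕ
  L : ℤ → U.X
  hL : U.IsAxis P l L

variable {π} in
/-- `A = F_v` -/
def KData.A {M : Subgroup Γ} {g : G} {Ω : Set (Subgroup Γ)} (D : KData π M g Ω) : Subgroup Γ :=
  D.S.stab D.v ⊓ π.ker

variable {π} in
/-- case 1: no non-trivial element of `A` commutes with `P` -/
def KData.Case1 {M : Subgroup Γ} {g : G} {Ω : Set (Subgroup Γ)} (D : KData π M g Ω) : Prop :=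
  ∀ a ∈ D.A, a * D.P = D.P * a → a = 1

variable {π} in
/-- case 2: `C_A(P)` is generated by `y`; `R` fixes the axis of `P` in `U` pointwise, `P = y ^ k * R` -/
structure KData.Case2 {M : Subgroup Γ} {g : G} {Ω : Set (Subgroup Γ)} (D : KData π M g Ω) (y R : Γ) (k : ℤ) :
    Prop where
  yA : y ∈ D.A
  y1 : y ≠ 1
  comm : y * D.P = D.P * y
  centr : ∀ a ∈ D.A, a * D.P = D.P * a → a ∈ Subgroup.zpowers y
  prim : ∀ z ∈ π.ker, ∀ m : ℤ, z ^ m = y → m = 1 ∨ m = -1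
  notB : ∀ B ∈ Ω, ∀ m : ℤ, m ≠ 0 → y ^ m ∉ B
  RM : R ∈ D.S.stab D.v
  Rg : π R = g
  Rfix : ∀ i, D.U.act R (D.L i) = D.L i
  k0 : k ≠ 0
  eq : D.P = y ^ k * R
  Rcomm : R * y = y * R

/-- good turn at `b` of the path `a, b, c` in `S`: `b = x v`, `x` in `F`, and exactly one of the two edges is
fixed by the conjugate `x P x⁻¹` -/
def GoodTurn {M : Subgroup Γ} (S : MTree M) (v : S.X) (P : Γ) (a b c : S.X) : Prop :=
  ∃ x ∈ M ⊓ π.ker, b = S.act x v ∧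
    ((S.act (x * P * x⁻¹) a = a ∧ S.act (x * P * x⁻¹) c ≠ c) ∨
     (S.act (x * P * x⁻¹) c = c ∧ S.act (x * P * x⁻¹) a ≠ a))

/-- the tree `T` of K4.4: for every `x` in `M` an edge `κ(x v) -- ℓ(x)`, which separates the vertices of `S` lying behind the
edges at `x v` fixed by `x P x⁻¹` from the others -/
structure CutTree {M : Subgroup Γ} (S : MTree M) (v : S.X) (P : Γ) where
  T : MTree M
  κ : S.X → T.X
  ℓ : Γ → T.X
  κ_equi : ∀ m ∈ M, ∀ z, κ (S.act m z) = T.act m (κ z)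
  ℓ_equi : ∀ m ∈ M, ∀ x ∈ M, T.act m (ℓ x) = ℓ (m * x)
  adj : ∀ x ∈ M, T.G.Adj (κ (S.act x v)) (ℓ x)
  edge : ∀ a b, T.G.Adj a b → ∃ x ∈ M, (a = κ (S.act x v) ∧ b = ℓ x) ∨ (b = κ (S.act x v) ∧ a = ℓ x)
  eq_iff : ∀ x ∈ M, ∀ x' ∈ M, (κ (S.act x v) = κ (S.act x' v) ∧ ℓ x = ℓ x') ↔
    (S.act x v = S.act x' v ∧ x * P * x⁻¹ = x' * P * x'⁻¹)
  orient : ∀ x ∈ M, ∀ x' ∈ M, ¬ (κ (S.act x v) = ℓ x' ∧ ℓ x = κ (S.act x' v))
  beyond : ∀ x ∈ M, ∀ z, T.Beyond (κ (S.act x v)) (ℓ x) (κ z) ↔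
    ∃ w', S.G.Adj (S.act x v) w' ∧ S.Beyond (S.act x v) w' z ∧ S.act (x * P * x⁻¹) w' = w'
  vert : ∀ t, (∃ z, t = κ z) ∨ ∃ x ∈ M, t = ℓ x

/-! ### K6 : ends -/

/-- two sequences in `A` converge to the same end -/
def SameEnd (A : Subgroup Γ) (z a : ℕ → Γ) : Prop :=
  ∀ N : Set Γ, FinBd A N → ∃ n₀, ∀ n ≥ n₀, ∀ m ≥ n₀, (z n ∈ N ↔ a m ∈ N)

/-! ### K8 : abstract version, `F` normal in `Γ`, acting on a set `Om` -/

/-- a tree for the subgroup `M`, spanned by `Om` -/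
structure GoodTree (F : Subgroup Γ) (Om : Type) [MulAction Γ Om] (M : Subgroup Γ) where
  T : MTree M
  ι : Om → T.X
  inj : Function.Injective ι
  equi : ∀ m ∈ M, ∀ ω, ι (m • ω) = T.act m (ι ω)
  span : T.hull (Set.range ι) = Set.univ
  free : ∀ h ∈ M ⊓ F, ∀ x y, T.G.Adj x y → T.act h x = x → T.act h y = y → h = 1
  orb : ∀ m ∈ M, ∀ x y, T.G.Adj x y → ∃ h ∈ M ⊓ F, T.act h x = T.act m x ∧ T.act h y = T.act m y
  triv : ∀ x, x ∉ Set.range ι → ∀ h ∈ M ⊓ F, T.act h x = x → h = 1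
  noinv : T.NoInv

/-- `Chain F γ ω ω' Q`: a reduced path from `ω` to `ω'` in the graph `B(γ F)` with first lift `Q` -/
def Chain (F : Subgroup Γ) {Om : Type} [MulAction Γ Om] (γ : Γ) (ω ω' : Om) (Q : Γ) : Prop :=
  ∃ (k : ℕ) (w : ℕ → Om) (q : ℕ → Γ), w 0 = ω ∧ w (k + 1) = ω' ∧ q 0 = Q ∧
    (∀ i ≤ k, q i * γ⁻¹ ∈ F ∧ q i • w i = w i ∧ q i • w (i + 1) = w (i + 1) ∧ w i ≠ w (i + 1)) ∧
    ∀ i < k, q i ≠ q (i + 1)

/-- iterated Frattini series for the prime 3 -/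
def frat3 (H : Subgroup Γ) : ℕ → Subgroup Γ
  | 0 => H
  | m + 1 => Subgroup.closure {z | ∃ x ∈ frat3 H m, ∃ y ∈ frat3 H m, z = x * y * x⁻¹ * y⁻¹ ∨ z = x ^ 3}

end Pool.Agent.Lib.MP_6567fb_al
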