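import Mathlib

/-!
# MP_6567fb_al : common definitions

One ambient group `Γ` with a homomorphism `π : Γ →* G`; `F = π.ker` is the free group.
All local objects are subgroups of `Γ`.  A tree with an action of a subgroup `M` of `Γ` is given by a
function `act : Γ → X → X` which is an action on `M` (outside `M` its values are irrelevant).
-/

set_option autoImplicit false

open scoped Pointwise

namespace Pool.Agent.Lib.MP_6567fb_al

variable {Γ : Type} [Group Γ]

/-! ### geometry of a tree given as a simple graph -/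
namespace TG

variable {X : Type} (G : SimpleGraph X)

/-- `y` lies on the geodesic from `x` to `z` -/
def Btw (x y z : X) : Prop := G.dist x y + G.dist y z = G.dist x z

/-- `z` lies beyond the oriented edge `(x,y)` (on the side of `y`) -/
def Beyond (x y z : X) : Prop := G.dist y z < G.dist x z

/-- convex set of vertices -/
def Conv (S : Set X) : Prop := ∀ x ∈ S, ∀ z ∈ S, ∀ y, Btw G x y z → y ∈ S

/-- hull of a set of vertices of a tree -/
def hull (S : Set X) : Set X := {y | ∃ x ∈ S, ∃ z ∈ S, Btw G x y z}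

/-- an isometrically embedded line of vertices -/
def IsLine (L : ℤ → X) : Prop := ∀ i j : ℤ, G.dist (L i) (L j) = (i - j).natAbs

/-- an isometrically embedded ray of vertices -/
def IsRay (L : ℕ → X) : Prop := ∀ i j : ℕ, G.dist (L i) (L j) = ((i : ℤ) - j).natAbs

end TG

/-- A tree with an action of the subgroup `M` of `Γ`. -/
structure MTree (M : Subgroup Γ) where
  /-- vertices -/
  X : Type
  /-- the graph -/
  G : SimpleGraph X
  tree : G.IsTree
  /-- the action (only its values for elements of `M` matter) -/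
  act : Γ → X → X
  act_one : ∀ x, act 1 x = x
  act_mul : ∀ m ∈ M, ∀ m' ∈ M, ∀ x, act (m * m') x = act m (act m' x)
  act_adj : ∀ m ∈ M, ∀ x y, G.Adj x y → G.Adj (act m x) (act m y)

namespace MTree

variable {M : Subgroup Γ} (T : MTree M)

/-- the stabiliser of a vertex, as a subgroup of `Γ` -/
def stab (x : T.X) : Subgroup Γ where
  carrier := {m | m ∈ M ∧ T.act m x = x}
  one_mem' := ⟨M.one_mem, T.act_one x⟩
  mul_mem' := by
    rintro a b ⟨ha, ha'⟩ ⟨hb, hb'⟩
    exact ⟨M.mul_mem ha hb, by rw [T.act_mul a ha b hb, hb', ha']⟩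
  inv_mem' := by
    rintro a ⟨ha, ha'⟩
    refine ⟨M.inv_mem ha, ?_⟩
    have h := T.act_mul a⁻¹ (M.inv_mem ha) a ha x
    rw [inv_mul_cancel, T.act_one, ha'] at h
    exact h.symm

/-- the same tree with the action restricted to a smaller subgroup -/
def res {M' : Subgroup Γ} (h : M' ≤ M) : MTree M' where
  X := T.X
  G := T.G
  tree := T.tree
  act := T.act
  act_one := T.act_one
  act_mul := fun m hm m' hm' x => T.act_mul m (h hm) m' (h hm') x
  act_adj := fun m hm x y hxy => T.act_adj m (h hm) x y hxy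

/-- `F` is the normal free subgroup; `T` is a splitting of `M` relative to `F`: the `M ⊓ F`-stabilisers of
edges are trivial, `M` preserves the `M ⊓ F`-orbits of oriented edges, finitely many orbits of edges. -/
structure IsSplitting (F : Subgroup Γ) : Prop where
  free : ∀ h ∈ M ⊓ F, ∀ x y, T.G.Adj x y → T.act h x = x → T.act h y = y → h = 1
  orb : ∀ m ∈ M, ∀ x y, T.G.Adj x y → ∃ h ∈ M ⊓ F, T.act h x = T.act m x ∧ T.act h y = T.act m y
  cocpt : ∃ S : Finset (T.X × T.X), ∀ x y, T.G.Adj x y →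
    ∃ h ∈ M ⊓ F, (T.act h x, T.act h y) ∈ S

/-- no vertex fixed by `M ⊓ F` -/
def Nontriv (F : Subgroup Γ) : Prop := ∀ x, ∃ h ∈ M ⊓ F, T.act h x ≠ x

/-- a set (in particular a subgroup) of elements fixes a common vertex -/
def Ell (D : Set Γ) : Prop := ∃ x, ∀ d ∈ D, T.act d x = x

/-- an element without fixed vertex -/
def Hyp (m : Γ) : Prop := ∀ x, T.act m x ≠ x

/-- rel a family of subgroups -/
def Rel (Ω : Set (Subgroup Γ)) : Prop := ∀ B ∈ Ω, T.Ell (B : Set Γ)

/-- `y` lies on the geodesic from `x` to `z` -/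
abbrev Btw (x y z : T.X) : Prop := TG.Btw T.G x y z

/-- `z` lies beyond the oriented edge `(x,y)` (on the side of `y`) -/
abbrev Beyond (x y z : T.X) : Prop := TG.Beyond T.G x y z

/-- convex set of vertices -/
abbrev Conv (S : Set T.X) : Prop := TG.Conv T.G S

/-- hull of a set of vertices -/
abbrev hull (S : Set T.X) : Set T.X := TG.hull T.G S

/-- vertices fixed by `m` -/
def Fix (m : Γ) : Set T.X := {x | T.act m x = x}

/-- vertices of minimal displacement (the axis, if `m` is hyperbolic) -/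
def Axis (m : Γ) : Set T.X := {x | ∀ y, T.G.dist x (T.act m x) ≤ T.G.dist y (T.act m y)}

/-- translation length -/
noncomputable def tl (m : Γ) : ℕ := sInf {n | ∃ y, T.G.dist y (T.act m y) = n}

open Classical in
/-- `T_D`: the fixed vertices if `D` is elliptic, otherwise the union of the axes of the hyperbolic
elements of `D` (the minimal `D`-invariant subtree). -/
noncomputable def core (D : Subgroup Γ) : Set T.X :=
  if T.Ell (D : Set Γ) then {x | ∀ d ∈ D, T.act d x = x}
  else {x | ∃ d ∈ D, T.Hyp d ∧ x ∈ T.Axis d}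

/-- minimal splitting: the whole tree is the core of `M ⊓ F` -/
def Minimal (F : Subgroup Γ) : Prop := T.Nontriv F ∧ T.core (M ⊓ F) = Set.univ

/-- an isometrically embedded line of vertices -/
abbrev IsLine (L : ℤ → T.X) : Prop := TG.IsLine T.G L

/-- an isometrically embedded ray of vertices -/
abbrev IsRay (L : ℕ → T.X) : Prop := TG.IsRay T.G L

/-- `L` is the axis of `m`, parametrised in the direction of translation, translation length `l > 0` -/
def IsAxis (m : Γ) (l : ℕ) (L : ℤ → T.X) : Prop :=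
  0 < l ∧ T.IsLine L ∧ ∀ i, T.act m (L i) = L (i + l)

/-- `m` fixes the edge `(x,y)` -/
def FixE (m : Γ) (x y : T.X) : Prop := T.act m x = x ∧ T.act m y = y

/-- no element of `M` inverts an edge -/
def NoInv : Prop := ∀ m ∈ M, ∀ x y, T.G.Adj x y → ¬ (T.act m x = y ∧ T.act m y = x)

/-- powers have the same fixed vertices -/
def Pure : Prop := ∀ m ∈ M, ∀ k : ℕ, 0 < k → ∀ x, T.act (m ^ k) x = x → T.act m x = x

/-- the set of non-trivial vertex groups (intersected with `F`) -/
def vgs (F : Subgroup Γ) : Set (Subgroup Γ) := {B | B ≠ ⊥ ∧ ∃ x, T.stab x ⊓ F = B}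

/-- `T` is a blow-up of `B` (equivalently `B` is a collapse of `T`): `pr : T.X → B.X` is surjective, equivariant,
adjacent vertices have equal or adjacent images, every oriented edge of `B` is covered by exactly one
edge of `T`, the fibres are convex. -/
structure IsBlowup (T B : MTree M) (pr : T.X → B.X) : Prop where
  surj : Function.Surjective pr
  equi : ∀ m ∈ M, ∀ x, pr (T.act m x) = B.act m (pr x)
  adj : ∀ x y, T.G.Adj x y → pr x = pr y ∨ B.G.Adj (pr x) (pr y)
  lift : ∀ u v, B.G.Adj u v → ∃! e : T.X × T.X, T.G.Adj e.1 e.2 ∧ pr e.1 = u ∧ pr e.2 = v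
  conv : ∀ v, T.Conv (pr ⁻¹' {v})

/-- An equivariant isomorphism onto its image, for the action of the subgroup `M'`. -/
structure IsEmb {M' : Subgroup Γ} (U : MTree M') (T : MTree M) (ι : U.X → T.X) : Prop where
  inj : Function.Injective ι
  dist : ∀ x y, T.G.dist (ι x) (ι y) = U.G.dist x y
  equi : ∀ m ∈ M', ∀ x, ι (U.act m x) = T.act m (ι x)

end MTree

/-- `D` is a factor of `H` (`H ≤ F`): `D = H` or `D` is a vertex stabiliser of a splitting of `H`. -/
def IsFactor (F H D : Subgroup Γ) : Prop :=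
  D = H ∨ ∃ T : MTree H, T.IsSplitting F ∧ ∃ x, T.stab x ⊓ F = D

/-- `D ≠ ⊥` is an `M`-factor: a factor of `M ⊓ F` whose conjugacy class is `M`-invariant. -/
structure IsMFactor (F M D : Subgroup Γ) : Prop where
  ne : D ≠ ⊥
  fac : IsFactor F (M ⊓ F) D
  inv : ∀ m ∈ M, ∃ h ∈ M ⊓ F, MulAut.conj m • D = MulAut.conj h • D

/-- peripheral family for `M` -/
structure IsPeriph (F M : Subgroup Γ) (Ω : Set (Subgroup Γ)) : Prop where
  inv : ∀ m ∈ M, ∀ B ∈ Ω, MulAut.conj m • B ∈ Ω
  tree : ∃ T : MTree (M ⊓ F), T.IsSplitting F ∧ T.vgs F = Ω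

/-- proper peripheral family for `M` -/
structure IsProper (F M : Subgroup Γ) (Ω : Set (Subgroup Γ)) : Prop where
  inv : ∀ m ∈ M, ∀ B ∈ Ω, MulAut.conj m • B ∈ Ω
  tree : ∃ T : MTree (M ⊓ F), T.IsSplitting F ∧ T.Nontriv F ∧ T.vgs F = Ω

/-- every member of `Ω` is contained in a member of `Ω'` -/
def FamLe (Ω Ω' : Set (Subgroup Γ)) : Prop := ∀ B ∈ Ω, ∃ B' ∈ Ω', B ≤ B'

/-- rank of a subgroup: dimension of the space of homomorphisms to `ℚ` -/
noncomputable def rk (D : Subgroup Γ) : ℕ := Module.finrank ℚ (Additive D →+ ℚ)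

section
variable {G : Type} [Group G] (π : Γ →* G)

/-- section of `π` -/
def IsSec (s : G →* Γ) : Prop := ∀ g, π (s g) = g

/-- linear model: `A_c = ℚ[F]/I^{c+1}` with the conjugation action of `Γ` -/
structure LinModel where
  A : ℕ → Type
  [acg : ∀ c, AddCommGroup (A c)]
  [mod : ∀ c, Module ℚ (A c)]
  [fin : ∀ c, FiniteDimensional ℚ (A c)]
  /-- action -/
  ρ : ∀ c, Γ →* (A c →ₗ[ℚ] A c)
  unip : ∀ c γ, ∃ N : ℕ, (ρ c γ - 1) ^ N = 0
  /-- embedding of `F` (values outside `F` are irrelevant) -/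
  emb : ∀ c, Γ → A c
  equiv : ∀ c γ, ∀ x ∈ π.ker, emb c (γ * x * γ⁻¹) = ρ c γ (emb c x)
  inj : ∀ x ∈ π.ker, ∀ y ∈ π.ker, (∀ c, emb c x = emb c y) → x = y
  endo : ∀ c (r : π.ker →* π.ker), ∃ R : A c →ₗ[ℚ] A c, ∀ x : π.ker,
    emb c (r x : Γ) = R (emb c (x : Γ))

/-- linear model for conjugacy classes: `A_c/[A_c,A_c]` with the action of `G` -/
structure ClModel where
  A : ℕ → Type
  [acg : ∀ c, AddCommGroup (A c)]
  [mod : ∀ c, Module ℚ (A c)]
  [fin : ∀ c, FiniteDimensional ℚ (A c)]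
  /-- action -/
  ρ : ∀ c, G →* (A c →ₗ[ℚ] A c)
  unip : ∀ c g, ∃ N : ℕ, (ρ c g - 1) ^ N = 0
  /-- class function -/
  cl : ∀ c, Γ → A c
  equiv : ∀ c γ, ∀ x ∈ π.ker, cl c (γ * x * γ⁻¹) = ρ c (π γ) (cl c x)
  inj : ∀ x ∈ π.ker, ∀ y ∈ π.ker, (∀ c, cl c x = cl c y) → ∃ f ∈ π.ker, f * x * f⁻¹ = y

/-- The context: all hypotheses used in parts T, K, F. -/
structure Ctx : Prop where
  surj : Function.Surjective π
  fgG : Group.FG G
  free : ∃ n : ℕ, Nonempty (FreeGroupBasis (Fin n) π.ker)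
  /-- (X1) unique roots -/
  roots : ∀ x y : Γ, ∀ k : ℕ, 0 < k → x ^ k = y ^ k → x = y
  /-- (X2) -/
  lin : Nonempty (LinModel π)
  /-- (X2') -/
  cls : Nonempty (ClModel π)
  /-- (X3) no exponential growth -/
  growth : ∀ P : Γ, ∀ f ∈ π.ker, ∀ (N : Γ → ℕ) (C : ℕ),
    (∀ x ∈ π.ker, ∀ y ∈ π.ker, N (x * y) ≤ N x + N y + C) → ∃ k : ℕ, N (P ^ k * f * (P ^ k)⁻¹) < 2 ^ k
  /-- (X4) -/
  split : ∀ P : Γ, ∀ E : Subgroup Γ, E ≠ ⊥ → IsFactor π.ker π.ker E → MulAut.conj P • E = E →
    ∃ T : MTree (E ⊔ Subgroup.zpowers P), T.IsSplitting π.ker ∧ T.Nontriv π.ker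
  /-- (X5) trivial action on `H_1(F; ℤ/3)` -/
  mod3 : ∀ (χ : π.ker →* Multiplicative (ZMod 3)) (γ : Γ) (x : π.ker),
    χ (MulAut.conjNormal γ x) = χ x
  /-- (X6) -/
  tf : ∀ (γ : Γ) (k : ℕ), 0 < k → γ ^ k ∈ π.ker → γ ∈ π.ker

end

end Pool.Agent.Lib.MP_6567fb_al
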