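import Pool.Agent.Lib.MP_6567fb_al.Defs3

/-!
# MP_6567fb_al, module Defs4

Definitions for K6, K7 (complete, no sorry).
-/

set_option autoImplicit false

open scoped Pointwise

namespace Pool.Agent.Lib.MP_6567fb_al

open MTree
variable {Γ G : Type} [Group Γ] [Group G]

/-- number of interior vertices `b` of `[p,q]` at which the turn is in `TT` -/
noncomputable def MTree.cnt {M : Subgroup Γ} (S : MTree M) (TT : S.X → S.X → S.X → Prop) (p q : S.X) : ℕ :=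
  Set.ncard {b | ∃ a c, S.G.Adj a b ∧ S.G.Adj b c ∧ a ≠ c ∧ S.Btw p a b ∧ S.Btw b c q ∧ S.Btw p b q ∧ TT a b c}

/-- turns in the `F`-orbits of the turns `(e.1, v, e.2)`, `e` in `W`, in both directions -/
def TurnIn (F : Subgroup Γ) {M : Subgroup Γ} (S : MTree M) (W : Finset (S.X × S.X)) (v a b c : S.X) : Prop :=
  ∃ x ∈ M ⊓ F, ∃ e ∈ W, b = S.act x v ∧
    ((a = S.act x e.1 ∧ c = S.act x e.2) ∨ (a = S.act x e.2 ∧ c = S.act x e.1))

/-- tree with cyclic edge stabilisers (conjugates of the elements of `W`) -/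
structure WTree {H : Subgroup Γ} (Om : Set (Subgroup Γ)) (Y W : Set Γ) (T : MTree H) : Prop where
  noinv : T.NoInv
  cocpt : ∃ S : Finset (T.X × T.X), ∀ x y, T.G.Adj x y → ∃ h ∈ H, (T.act h x, T.act h y) ∈ S
  nonell : ¬ T.Ell (H : Set Γ)
  min : T.core H = Set.univ
  relO : T.Rel Om
  relY : ∀ w ∈ Y, ∃ x, T.act w x = x
  edge : ∀ x y, T.G.Adj x y → ∃ h ∈ H, ∃ w ∈ W, T.stab x ⊓ T.stab y = MulAut.conj h • Subgroup.zpowers w
  distinct : ∀ x y x' y', T.G.Adj x y → T.G.Adj x' y' → T.stab x ⊓ T.stab y = T.stab x' ⊓ T.stab y' →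
    (x = x' ∧ y = y') ∨ (x = y' ∧ y = x')
  root : ∀ x, ∀ z ∈ H, ∀ m : ℕ, 0 < m → z ^ m ∈ T.stab x → z ∈ T.stab x

/-- edges in pairwise different orbits -/
def EdgeSet {H : Subgroup Γ} (T : MTree H) (sE : Finset (T.X × T.X)) : Prop :=
  (∀ e ∈ sE, T.G.Adj e.1 e.2) ∧ ∀ e ∈ sE, ∀ e' ∈ sE, ∀ d ∈ H, ((T.act d e.1 = e'.1 ∧ T.act d e.2 = e'.2) ∨
      (T.act d e.1 = e'.2 ∧ T.act d e.2 = e'.1)) → e = e'

end Pool.Agent.Lib.MP_6567fb_al
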