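import Pool.Agent.Lib.MP_6567fb_al.Defs4

/-!
# MP_6567fb_al, module Defs5

Definitions for K1-K15 (complete, no sorry): star blow ups, the tree of hulls, folding pairs.
-/

set_option autoImplicit false

open scoped Pointwise

namespace Pool.Agent.Lib.MP_6567fb_al

open MTree

variable {Γ G : Type} [Group Γ] [Group G] {π : Γ →* G}

/-- Star blow up of the orbit of `p` in `B`: leaves are indexed by `C`, on which `B.stab p` acts by `ac`; the edge of `B` from `p` to a neighbour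
`w` with `col w = some c` is attached to the leaf `c`, with `col w = none` to the centre.  `leaf x c` is the leaf over `x p`, the image under
`x` of the leaf `c` over `p`. -/
structure StarTree {M : Subgroup Γ} (B : MTree M) (p : B.X) (C : Type) (ac : Γ → C → C)
    (col : B.X → Option C) where
  T : MTree M
  pr : T.X → B.X
  blow : IsBlowup T B pr
  ctr : B.X → T.X
  leaf : Γ → C → T.X
  pr_ctr : ∀ z, pr (ctr z) = z
  pr_leaf : ∀ x ∈ M, ∀ c, pr (leaf x c) = B.act x p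
  ctr_equi : ∀ m ∈ M, ∀ z, T.act m (ctr z) = ctr (B.act m z)
  leaf_equi : ∀ m ∈ M, ∀ x ∈ M, ∀ c, T.act m (leaf x c) = leaf (m * x) c
  leaf_stab : ∀ x ∈ M, ∀ s ∈ B.stab p, ∀ c, leaf (x * s) c = leaf x (ac s c)
  leaf_inj : ∀ x ∈ M, ∀ c c', leaf x c = leaf x c' → c = c'
  ctr_ne_leaf : ∀ z, ∀ x ∈ M, ∀ c, ctr z ≠ leaf x c
  vert : ∀ t, (∃ z, t = ctr z) ∨ ∃ x ∈ M, ∃ c, t = leaf x c
  adj_leaf : ∀ x ∈ M, ∀ c, T.G.Adj (ctr (B.act x p)) (leaf x c)
  adj_fib : ∀ a b, T.G.Adj a b → pr a = pr b → ∃ x ∈ M, ∃ c,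
    (a = ctr (B.act x p) ∧ b = leaf x c) ∨ (b = ctr (B.act x p) ∧ a = leaf x c)
  /-- the end at `pr a` of the edge over `(pr a, pr b)` is a leaf iff the edge is coloured -/
  end_leaf : ∀ a b, T.G.Adj a b → pr a ≠ pr b → ∀ x ∈ M, pr a = B.act x p →
    ∀ c, (a = leaf x c ↔ col (B.act x⁻¹ (pr b)) = some c)

/-- vertices of `T₀` whose stabiliser is a member preserved by `P` -/
def presV {H : Subgroup Γ} (T₀ : MTree H) (Ω : Set (Subgroup Γ)) (P : Γ) : Set T₀.X :=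
  {x | T₀.stab x ∈ Ω ∧ MulAut.conj P • T₀.stab x = T₀.stab x}

/-- the tree obtained by gluing the hulls of the members preserved by the lifts along the common members -/
structure HullTree (π : Γ →* G) (M : Subgroup Γ) (g : G) (Ω : Set (Subgroup Γ)) (T₀ : MTree (M ⊓ π.ker))
    (i : Γ → ℤ) where
  T : MTree M
  ι : Γ → T₀.X → T.X
  dist : ∀ P ∈ M, π P = g → ∀ p ∈ T₀.hull (presV T₀ Ω P), ∀ q ∈ T₀.hull (presV T₀ Ω P),
    T.G.dist (ι P p) (ι P q) = T₀.G.dist p q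
  equi : ∀ m ∈ M, ∀ P ∈ M, π P = g → ∀ p ∈ T₀.hull (presV T₀ Ω P),
    T.act m (ι P p) = ι (m * P * m⁻¹) (T₀.act (m * P ^ (-(i m))) p)
  surj : ∀ x, ∃ P ∈ M, π P = g ∧ ∃ p ∈ T₀.hull (presV T₀ Ω P), x = ι P p
  edge : ∀ x y, T.G.Adj x y → ∃ P ∈ M, π P = g ∧ ∃ p ∈ T₀.hull (presV T₀ Ω P),
    ∃ q ∈ T₀.hull (presV T₀ Ω P), T₀.G.Adj p q ∧ x = ι P p ∧ y = ι P q
  vert : ∀ P ∈ M, π P = g → ∀ P' ∈ M, π P' = g → ∀ p ∈ T₀.hull (presV T₀ Ω P),
    ∀ p' ∈ T₀.hull (presV T₀ Ω P'), ι P p = ι P' p' ↔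
      (P = P' ∧ p = p') ∨ (p = p' ∧ p ∈ presV T₀ Ω P ∧ p' ∈ presV T₀ Ω P')

/-- an `H`-splitting rel `Ω` with an equivariant map to the `H`-tree `Y` and representatives of the edge orbits -/
structure FoldPair (F H : Subgroup Γ) (Ω : Set (Subgroup Γ)) (Y : MTree H) where
  T : MTree H
  hT : T.IsSplitting F
  hrel : T.Rel Ω
  f : T.X → Y.X
  equi : ∀ h ∈ H, ∀ x, f (T.act h x) = Y.act h (f x)
  R : Finset (T.X × T.X)
  hR : ∀ x y, T.G.Adj x y → ∃ h ∈ H, (T.act h x, T.act h y) ∈ R ∨ (T.act h y, T.act h x) ∈ R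

/-- total length -/
noncomputable def FoldPair.len {F H : Subgroup Γ} {Ω : Set (Subgroup Γ)} {Y : MTree H}
    (D : FoldPair F H Ω Y) : ℕ := ∑ e ∈ D.R, Y.G.dist (D.f e.1) (D.f e.2)

end Pool.Agent.Lib.MP_6567fb_al
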