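import Pool.Agent.Lib.MP_6567fb_al.Defs2

/-!
# MP_6567fb_al, module FDefs

Definitions of part F (complete, no sorry).
-/

set_option autoImplicit false

open scoped Pointwise
open Filter

namespace Pool.Agent.Lib.MP_6567fb_al

open MTree
variable {Γ G : Type} [Group Γ] [Group G] {π : Γ →* G}

/-! ### F1 -/

/-- for almost all `(b,a)` : for all large `b`, for all large `a` -/
def AA (p : ℕ → ℕ → Prop) : Prop := ∀ᶠ b in atTop, ∀ᶠ a in atTop, p b a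

/-- `w(b,a) = g1^{3a} g2^{3b}` -/
def wd (g1 g2 : G) (b a : ℕ) : G := g1 ^ (3 * a) * g2 ^ (3 * b)

/-- conjugate under the subgroup `H` -/
def CJ (H : Subgroup Γ) (x y : Γ) : Prop := ∃ v ∈ H, v * x * v⁻¹ = y

/-- sections conjugate under the subgroup `H` -/
def CJS (H : Subgroup Γ) (s s' : G →* Γ) : Prop := ∃ v ∈ H, ∀ g, v * s g * v⁻¹ = s' g

/-- isolated subgroup -/
def Isol (Y : Subgroup G) : Prop := ∀ g, ∀ k : ℕ, 0 < k → g ^ k ∈ Y → g ∈ Y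

/-- a section of `π` with values in `M` -/
structure SecIn (π : Γ →* G) (M : Subgroup Γ) (s : G →* Γ) : Prop where
  sec : IsSec π s
  mem : ∀ g, s g ∈ M

/-- `D` is the smallest non-trivial `p`-invariant `Ω`-factor of `H` (the support of `p`) -/
structure IsSupp (F H : Subgroup Γ) (Ω : Set (Subgroup Γ)) (p : Γ) (D : Subgroup Γ) : Prop where
  ofac : IsOFactor F H Ω D
  ne : D ≠ ⊥
  inv : MulAut.conj p • D = D
  min : ∀ E, IsOFactor F H Ω E → E ≠ ⊥ → MulAut.conj p • E = E → D ≤ E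

/-- an isometric path `q 0, ..., q m` in `core D`; inner vertices have trivial `D`-stabiliser and no other
neighbour in the core -/
structure IsArc {M : Subgroup Γ} (T : MTree M) (D : Subgroup Γ) (m : ℕ) (q : ℕ → T.X) : Prop where
  iso : ∀ i j, i ≤ m → j ≤ m → T.G.dist (q i) (q j) = ((i : ℤ) - j).natAbs
  mem : ∀ i ≤ m, q i ∈ T.core D
  triv : ∀ i, 0 < i → i < m → ∀ d ∈ D, T.act d (q i) = q i → d = 1
  two : ∀ i, 0 < i → i < m → ∀ y ∈ T.core D, T.G.Adj (q i) y → y = q (i - 1) ∨ y = q (i + 1)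

/-- `P` is periodic on `T` with axis `L`: `C_H(P) = <q>`, `P = q^k0 R` -/
structure IsPer (π : Γ →* G) {M : Subgroup Γ} (T : MTree M) (P q R : Γ) (l t k0 : ℕ) (L : ℤ → T.X) :
    Prop where
  axis : T.IsAxis P l L
  q_mem : q ∈ M ⊓ π.ker
  q_ne : q ≠ 1
  tpos : 0 < t
  q_act : ∀ i, T.act q (L i) = L (i + t)
  cent : ∀ z ∈ M ⊓ π.ker, z * P = P * z → z ∈ Subgroup.zpowers q
  stab : ∀ z ∈ M ⊓ π.ker, ∀ c : ℤ, (∀ i, T.act z (L i) = L (i + c)) → z ∈ Subgroup.zpowers q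
  R_mem : R ∈ M
  R_pi : π R = π P
  R_act : ∀ i, T.act R (L i) = L i
  R_q : R * q = q * R
  k0pos : 0 < k0
  eq : P = q ^ k0 * R
  len : l = k0 * t

/-- a generic ultrafilter (conclusion of Theorem F1) -/
structure Gen (π : Γ →* G) (U : Ultrafilter G) : Prop where
  /-- type I -/
  hyp : ∀ (M : Subgroup Γ) (T : MTree M) (s : G →* Γ), Full π M → T.IsSplitting π.ker →
    SecIn π M s → ¬ T.Ell (Set.range s) → ∀ᶠ g in (U : Filter G), T.Hyp (s g)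
  /-- type II -/
  sub : ∀ Y : Subgroup G, Isol Y → Y ≠ ⊤ → ∀ᶠ g in (U : Filter G), g ∉ Y
  /-- type III -/
  supp : ∀ (M : Subgroup Γ) (Ω : Set (Subgroup Γ)) (T : MTree M) (s : G →* Γ), Full π M →
    IsProper π.ker M Ω → T.IsSplitting π.ker → T.Rel Ω → SecIn π M s → ¬ T.Ell (Set.range s) →
    ∀ᶠ g in (U : Filter G), ∃ D, IsSupp π.ker (M ⊓ π.ker) Ω (s g) D ∧
      ∀ g', MulAut.conj (s g') • D = D
  /-- type IV -/
  conj : ∀ (M : Subgroup Γ) (T : MTree M) (s s' : G →* Γ), Full π M → T.IsSplitting π.ker →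
    SecIn π M s → SecIn π M s' → ¬ T.Ell (Set.range s) → ¬ T.Ell (Set.range s') →
    ¬ CJS (M ⊓ π.ker) s s' → ∀ᶠ g in (U : Filter G), ¬ CJ (M ⊓ π.ker) (s g) (s' g)

/-- Theorem K (hypothesis of part F) -/
def TheoremK (π : Γ →* G) : Prop :=
  ∀ (M : Subgroup Γ) (Ω : Set (Subgroup Γ)), Full π M → IsProper π.ker M Ω →
    (rk (M ⊓ π.ker) ≠ 1 ∨ ∃ s : G →* Γ, SecIn π M s) →
    ∃ T : MTree M, T.IsSplitting π.ker ∧ T.Nontriv π.ker ∧ T.Rel Ω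

/-! ### F6 : towers -/
section
variable (π)
variable {I : Type}

/-- `Q` is available at time `j` -/
def Avail (M : Subgroup Γ) (g : G) (s : I → Γ) (inn : I → ℕ∞) (U : ℕ → Set (Subgroup Γ)) (j : ℕ)
    (Q : Γ) : Prop :=
  Q ∈ M ∧ π Q = g ∧ ((∃ i, inn i ≤ j ∧ CJ (M ⊓ π.ker) (s i) Q) ∨ ∃ B ∈ U j, MulAut.conj Q • B = B)

/-- a tower for one element `g` -/
structure IsTower (M : Subgroup Γ) (g : G) (s : I → Γ) (inn : I → ℕ∞) (U : ℕ → Set (Subgroup Γ)) :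
    Prop where
  sM : ∀ i, s i ∈ M ∧ π (s i) = g
  periph : ∀ j, IsPeriph π.ker (Mg π M g) (U j)
  zero : U 0 = ∅
  top : ∃ N, ∀ j, N ≤ j → U j = {M ⊓ π.ker}
  mono : ∀ j, FamLe (U j) (U (j + 1))
  step : ∀ j, ∀ V ∈ U (j + 1), ∃ TT : MTree (Mg π M g ⊓ Subgroup.normalizer (V : Set Γ)),
    TT.IsSplitting π.ker ∧ TT.vgs π.ker = {B | B ∈ U j ∧ B ≤ V}
  start : ∀ j, ∀ V ∈ U (j + 1), (∀ B ∈ U j, ¬ B ≤ V) →
    ∃ Q, Avail π M g s inn U j Q ∧ ∀ v ∈ V, Q * v = v * Q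

/-- sources `A_j(Q)` -/
def Src {M : Subgroup Γ} (T : MTree M) (s : I → Γ) (inn : I → ℕ∞) (U : ℕ → Set (Subgroup Γ))
    (x : I → T.X) (j : ℕ) (Q : Γ) : Set T.X :=
  {z | T.act Q z = z ∧ ((∃ B ∈ U j, MulAut.conj Q • B = B ∧ B ⊓ T.stab z ≠ ⊥) ∨
    ∃ i, inn i ≤ j ∧ ∃ v ∈ M ⊓ π.ker, v * s i * v⁻¹ = Q ∧ T.act v (x i) = z)}

/-- requirement `(J,j)` satisfied by a tower; `none` is `*` -/
def TSat (M : Subgroup Γ) (s : I → Γ) (inn : I → ℕ∞) (U : ℕ → Set (Subgroup Γ)) (J : Set I) :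
    Option I → Prop
  | some j => (∃ i ∈ J, CJ (M ⊓ π.ker) (s i) (s j)) ∨
      ∃ t : ℕ, (∀ i, inn i < t → i ∈ J) ∧ ∃ B ∈ U t, MulAut.conj (s j) • B = B
  | none => ∃ t : ℕ, (∀ i, inn i < t → i ∈ J) ∧ M ⊓ π.ker ∈ U t

open Classical in
/-- the section fixing the edge `(x,y)` -/
noncomputable def eSec {M : Subgroup Γ} (T : MTree M) (x y : T.X) : G →* Γ :=
  if h : ∃ s : G →* Γ, SecIn π M s ∧ ∀ g, T.FixE (s g) x y then h.choose else 1

/-- representatives of the `H_x`-orbits of neighbours of `x` -/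
structure IsReps {M : Subgroup Γ} (T : MTree M) (x : T.X) (E : Finset T.X) : Prop where
  adj : ∀ y ∈ E, T.G.Adj x y
  rep : ∀ y, T.G.Adj x y → ∃ y' ∈ E, ∃ h ∈ T.stab x ⊓ π.ker, T.act h y' = y
  inj : ∀ y ∈ E, ∀ y' ∈ E, ∀ h ∈ T.stab x ⊓ π.ker, T.act h y = y' → y = y'

/-- the data of the induction step of Theorem D: an `M`-splitting `T`, sections `s i`, those with `ell i` fix the
vertex `xi i`, which belongs to the set `R` of representatives of the orbits of vertices; `E x` =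
representatives of the edges at `x` -/
structure Step {M : Subgroup Γ} (T : MTree M) (s : I → (G →* Γ)) (ell : I → Prop) (xi : I → T.X)
    (R : Set T.X) (E : T.X → Finset T.X) : Prop where
  full : Full π M
  split : T.IsSplitting π.ker
  nontriv : T.Nontriv π.ker
  sec : ∀ i, SecIn π M (s i)
  ell_fix : ∀ i, ell i → ∀ g, T.act (s i g) (xi i) = xi i
  xi_mem : ∀ i, ell i → xi i ∈ R
  R_fin : R.Finite
  R_rep : ∀ x, ∃ x' ∈ R, ∃ h ∈ M ⊓ π.ker, T.act h x' = x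
  R_inj : ∀ x ∈ R, ∀ x' ∈ R, ∀ h ∈ M ⊓ π.ker, T.act h x = x' → x = x'
  reps : ∀ x ∈ R, IsReps π T x (E x)

end

/-- local index set: edges at `x` and the inputs attached at `x` -/
abbrev LI {M : Subgroup Γ} {T : MTree M} {I : Type} (ell : I → Prop) (xi : I → T.X) (x : T.X)
    (E : Finset T.X) : Type := {y // y ∈ E} ⊕ {i : I // ell i ∧ xi i = x}

section
variable (π)
variable {I : Type}

/-- local sections -/
noncomputable def lsec {M : Subgroup Γ} (T : MTree M) (s : I → (G →* Γ))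
    (ell : I → Prop) (xi : I → T.X) (x : T.X) (E : Finset T.X) : LI ell xi x E → (G →* Γ)
  | Sum.inl y => eSec π T x y
  | Sum.inr i => s i

/-- local in-times -/
noncomputable def linn {M : Subgroup Γ} (T : MTree M) (g : G) (s : I → (G →* Γ))
    (inn : I → ℕ∞) (U : ℕ → Set (Subgroup Γ))
    (ell : I → Prop) (xi : I → T.X) (x : T.X) (E : Finset T.X) : LI ell xi x E → ℕ∞
  | Sum.inl y => ⨅ j ∈ {j : ℕ | ∃ z ∈ Src π T (fun i => s i g) inn U xi j (eSec π T x y g),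
      T.Beyond x y z}, (j : ℕ∞)
  | Sum.inr i => inn i

/-- local families -/
def lfam {M : Subgroup Γ} (T : MTree M) (U : ℕ → Set (Subgroup Γ)) (x : T.X) (j : ℕ) :
    Set (Subgroup Γ) := {C | C ≠ ⊥ ∧ ∃ B ∈ U j, B ⊓ T.stab x = C}

/-! ### F7 : gadgets -/

/-- gadget for `M` and sections `s i` -/
structure Gadget (M : Subgroup Γ) (s : I → (G →* Γ)) where
  X : MTree (M ⊓ π.ker)
  free : ∀ h ∈ M ⊓ π.ker, ∀ x, X.act h x = x → h = 1
  cocptV : ∃ S : Finset X.X, ∀ x, ∃ h ∈ M ⊓ π.ker, X.act h x ∈ S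
  cocptE : ∃ S : Finset (X.X × X.X), ∀ x y, X.G.Adj x y →
    ∃ h ∈ M ⊓ π.ker, (X.act h x, X.act h y) ∈ S
  /-- sections at the vertices -/
  sig : X.X → (G →* Γ)
  sig_sec : ∀ q, SecIn π M (sig q)
  sig_eq : ∀ h ∈ M ⊓ π.ker, ∀ q g, sig (X.act h q) g = h * sig q g * h⁻¹
  /-- sections at the edges -/
  tau : X.X → X.X → (G →* Γ)
  tau_sec : ∀ a b, X.G.Adj a b → SecIn π M (tau a b)
  tau_symm : ∀ a b, X.G.Adj a b → tau a b = tau b a
  tau_eq : ∀ h ∈ M ⊓ π.ker, ∀ a b, X.G.Adj a b → ∀ g,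
    tau (X.act h a) (X.act h b) g = h * tau a b g * h⁻¹
  /-- marked vertices -/
  p : I → X.X
  p_sig : ∀ i, sig (p i) = s i

variable {π} {M : Subgroup Γ} {s : I → (G →* Γ)}

/-- the least equivalence relation on the vertices closed under building admissible edges at active components -/
inductive Gadget.Conn (Y : Gadget π M s) (J : Set I) : Y.X.X → Y.X.X → Prop
  | refl (a : Y.X.X) : Gadget.Conn Y J a a
  | symm {a b : Y.X.X} (h : Gadget.Conn Y J a b) : Gadget.Conn Y J b a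
  | trans {a b c : Y.X.X} (h : Gadget.Conn Y J a b) (h' : Gadget.Conn Y J b c) : Gadget.Conn Y J a c
  | edge {a b : Y.X.X} (hab : Y.X.G.Adj a b)
      (ha : ∀ g, Gadget.Conn Y J a (Y.X.act (Y.tau a b g * (Y.sig a g)⁻¹) a))
      (hb : ∀ g, Gadget.Conn Y J b (Y.X.act (Y.tau a b g * (Y.sig b g)⁻¹) b))
      {i : I} (hi : i ∈ J) {k : Γ} (hk : k ∈ M ⊓ π.ker)
      (hact : Gadget.Conn Y J a (Y.X.act k (Y.p i))) : Gadget.Conn Y J a b

/-- `q` is active for `J` -/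
def Gadget.Act (Y : Gadget π M s) (J : Set I) (q : Y.X.X) : Prop :=
  ∃ i ∈ J, ∃ k ∈ M ⊓ π.ker, Y.Conn J q (Y.X.act k (Y.p i))

/-- requirement satisfied by a gadget -/
def Gadget.Sat (Y : Gadget π M s) (J : Set I) : Option I → Prop
  | some j => Y.Act J (Y.p j)
  | none => J.Nonempty ∧ ∀ a b, Y.X.G.Adj a b → Y.Conn J a b

end

/-- `Y` is glued from the gadgets `Yx` over the splitting `T` (properties of the construction F7c) -/
structure Glued (π : Γ →* G) {M : Subgroup Γ} {I : Type} {T : MTree M} {s : I → (G →* Γ)}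
    {ell : I → Prop} {xi : I → T.X} {R : Set T.X} {E : T.X → Finset T.X}
    (Yx : ∀ x : {x // x ∈ R}, Gadget π (T.stab x.1) (lsec π T s ell xi x.1 (E x.1)))
    (Y : Gadget π M s) where
  ι : ∀ x : {x // x ∈ R}, (Yx x).X.X → Y.X.X
  ι_act : ∀ x, ∀ h ∈ T.stab x.1 ⊓ π.ker, ∀ q, ι x ((Yx x).X.act h q) = Y.X.act h (ι x q)
  ι_adj : ∀ x a b, (Yx x).X.G.Adj a b → Y.X.G.Adj (ι x a) (ι x b)
  ι_sig : ∀ x q, Y.sig (ι x q) = (Yx x).sig q
  ι_tau : ∀ x a b, (Yx x).X.G.Adj a b → Y.tau (ι x a) (ι x b) = (Yx x).tau a b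
  ι_p : ∀ (x : {x // x ∈ R}) (i : I) (h : ell i ∧ xi i = x.1), Y.p i = ι x ((Yx x).p (Sum.inr ⟨i, h⟩))
  /-- the edge of `T` from `x` to `y = k x'` -/
  edge : ∀ (x x' : {x // x ∈ R}) (y : {y // y ∈ E x.1}) (y' : {y // y ∈ E x'.1}), ∀ k ∈ M ⊓ π.ker,
    T.act k x'.1 = y.1 → T.act k y'.1 = x.1 →
    Y.X.G.Adj (ι x ((Yx x).p (Sum.inl y))) (Y.X.act k (ι x' ((Yx x').p (Sum.inl y')))) ∧
    Y.tau (ι x ((Yx x).p (Sum.inl y))) (Y.X.act k (ι x' ((Yx x').p (Sum.inl y')))) = eSec π T x.1 y.1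
  /-- every edge is a translate of an edge of some `Yx`, of an edge of `T`, or of a leaf edge -/
  cover : ∀ a b, Y.X.G.Adj a b →
    (∃ (x : {x // x ∈ R}) (a' b' : (Yx x).X.X), (Yx x).X.G.Adj a' b' ∧ ∃ h ∈ M ⊓ π.ker,
      a = Y.X.act h (ι x a') ∧ b = Y.X.act h (ι x b')) ∨
    (∃ (x x' : {x // x ∈ R}) (y : {y // y ∈ E x.1}) (y' : {y // y ∈ E x'.1}), ∃ k ∈ M ⊓ π.ker,
      ∃ h ∈ M ⊓ π.ker, T.act k x'.1 = y.1 ∧ T.act k y'.1 = x.1 ∧
        a = Y.X.act h (ι x ((Yx x).p (Sum.inl y))) ∧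
        b = Y.X.act h (Y.X.act k (ι x' ((Yx x').p (Sum.inl y'))))) ∨
    (∃ i, ¬ ell i ∧ ∃ h ∈ M ⊓ π.ker, (a = Y.X.act h (Y.p i) ∨ b = Y.X.act h (Y.p i)) ∧
      ∀ g, Y.tau a b g = h * s i g * h⁻¹)
  /-- leaves have only one neighbour -/
  leaf : ∀ i, ¬ ell i → ∃ b, Y.X.G.Adj (Y.p i) b ∧ (∀ b', Y.X.G.Adj (Y.p i) b' → b' = b) ∧
    ∃ (x : {x // x ∈ R}) (q : (Yx x).X.X), ∃ h ∈ M ⊓ π.ker, b = Y.X.act h (ι x q)
  vert : ∀ q, (∃ (x : {x // x ∈ R}) (q' : (Yx x).X.X), ∃ h ∈ M ⊓ π.ker, q = Y.X.act h (ι x q')) ∨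
    ∃ i, ¬ ell i ∧ ∃ h ∈ M ⊓ π.ker, q = Y.X.act h (Y.p i)

/-- honest flag of `P` -/
def HonestFlag (π : Γ →* G) (P : Γ) : Prop :=
  ∃ (n : ℕ) (b : FreeGroupBasis (Fin n) π.ker), ∀ i : Fin n,
    ∃ w ∈ Subgroup.closure ((fun j => (b j : Γ)) '' {j | j < i}),
    ∃ v ∈ Subgroup.closure ((fun j => (b j : Γ)) '' {j | j < i}),
      P * (b i : Γ) * P⁻¹ = w * (b i : Γ) * v

/-- the conclusion of part F -/
def CommonFlag (π : Γ →* G) (s0 : G →* Γ) : Prop :=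
  ∃ (n : ℕ) (b : FreeGroupBasis (Fin n) π.ker), ∀ g, ∀ i : Fin n,
    ∃ w ∈ Subgroup.closure ((fun j => (b j : Γ)) '' {j | j < i}),
    ∃ v ∈ Subgroup.closure ((fun j => (b j : Γ)) '' {j | j < i}),
      s0 g * (b i : Γ) * (s0 g)⁻¹ = w * (b i : Γ) * v

end Pool.Agent.Lib.MP_6567fb_al
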