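import Pool.Agent.Lib.MP_6567fb_al.Defs5
import Pool.Agent.Lib.MP_6567fb_al.FDefs

/-!
# MP_6567fb_al, module Defs8

Definitions for K30-K43 (complete, no sorry): trees whose set of vertices is the family `Ω` itself, the quotient of such a
tree, the abstract bipartite graph `Bip` of Lemma M0, the graph `SG` of sections.
-/

set_option autoImplicit false

open scoped Pointwise

namespace Pool.Agent.Lib.MP_6567fb_al

open MTree

variable {Γ G : Type} [Group Γ] [Group G]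

open Classical in
/-- conjugation action on the family `Ω` (the value is irrelevant if `m B m⁻¹` is not in `Ω`) -/
noncomputable def omAct (Ω : Set (Subgroup Γ)) (m : Γ) (B : Ω) : Ω :=
  if h : MulAut.conj m • (B : Subgroup Γ) ∈ Ω then ⟨MulAut.conj m • (B : Subgroup Γ), h⟩ else B

theorem omAct_coe {Ω : Set (Subgroup Γ)} {m : Γ} {B : Ω}
    (h : MulAut.conj m • (B : Subgroup Γ) ∈ Ω) :
    (omAct Ω m B : Subgroup Γ) = MulAut.conj m • (B : Subgroup Γ) := by
  simp [omAct, h]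

theorem omAct_one (Ω : Set (Subgroup Γ)) (B : Ω) : omAct Ω 1 B = B := by
  apply Subtype.ext
  have h : MulAut.conj (1 : Γ) • (B : Subgroup Γ) = B := by rw [map_one, one_smul]
  rw [omAct_coe (by rw [h]; exact B.2), h]

theorem omAct_mul {Ω : Set (Subgroup Γ)} {M : Subgroup Γ} (hi : ∀ m ∈ M, ∀ B ∈ Ω, MulAut.conj m • B ∈ Ω)
    {m m' : Γ} (hm : m ∈ M) (hm' : m' ∈ M) (B : Ω) :
    omAct Ω (m * m') B = omAct Ω m (omAct Ω m' B) := by
  apply Subtype.ext
  rw [omAct_coe (hi _ (M.mul_mem hm hm') _ B.2), omAct_coe (hi _ hm _ (omAct Ω m' B).2),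
    omAct_coe (hi _ hm' _ B.2), map_mul, mul_smul]

/-- an `M`-invariant tree whose set of vertices is `Ω` -/
structure OG (F M : Subgroup Γ) (Ω : Set (Subgroup Γ)) (Gr : SimpleGraph Ω) : Prop where
  inv : ∀ m ∈ M, ∀ B ∈ Ω, MulAut.conj m • B ∈ Ω
  tree : Gr.IsTree
  adj : ∀ m ∈ M, ∀ B C : Ω, Gr.Adj B C → Gr.Adj (omAct Ω m B) (omAct Ω m C)
  orb : ∀ m ∈ M, ∀ B C : Ω, Gr.Adj B C →
    ∃ h ∈ M ⊓ F, omAct Ω h B = omAct Ω m B ∧ omAct Ω h C = omAct Ω m C
  ninv : ∀ h ∈ M ⊓ F, ∀ B C : Ω, Gr.Adj B C → ¬ (omAct Ω h B = C ∧ omAct Ω h C = B)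

/-- the same as an `MTree` -/
noncomputable def OG.toMTree {F M : Subgroup Γ} {Ω : Set (Subgroup Γ)} {Gr : SimpleGraph Ω}
    (h : OG F M Ω Gr) : MTree M where
  X := Ω
  G := Gr
  tree := h.tree
  act := omAct Ω
  act_one := omAct_one Ω
  act_mul := fun _ hm _ hm' x => omAct_mul h.inv hm hm' x
  act_adj := fun m hm x y hxy => h.adj m hm x y hxy

/-- `c` is the neighbour of `x` in the direction of `y` -/
def Nxt {X : Type} (Gr : SimpleGraph X) (x y c : X) : Prop := Gr.Adj x c ∧ Gr.dist c y + 1 = Gr.dist x y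

/-- same `N`-orbit -/
def omRel (N : Subgroup Γ) (Ω : Set (Subgroup Γ)) (B C : Ω) : Prop := ∃ n ∈ N, omAct Ω n B = C

/-- the subgroup generated by all `B ∩ frat3 H m`, `B ∈ Ω` -/
def oN (H : Subgroup Γ) (Ω : Set (Subgroup Γ)) (m : ℕ) : Subgroup Γ :=
  Subgroup.closure {x | x ∈ frat3 H m ∧ ∃ B ∈ Ω, x ∈ B}

/-- no folding modulo `D` on the geodesic from `B` to `C` -/
def NoFold {Ω : Set (Subgroup Γ)} (Gr : SimpleGraph Ω) (D : Subgroup Γ) (B C : Ω) : Prop :=
  ∀ x y z : Ω, Gr.Adj x y → Gr.Adj y z → x ≠ z → TG.Btw Gr B x C → TG.Btw Gr B y C → TG.Btw Gr B z C →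
    ¬ ∃ n ∈ D, omAct Ω n y = y ∧ omAct Ω n x = z

section
variable {W GG Q : Type} [Group GG] [Group Q]

/-- the bipartite graph `B(q)`: elements of `W` and the elements of `GG` over `q` with a fixed point -/
def Bip (a : GG →* Equiv.Perm W) (p : GG →* Q) (q : Q) :
    SimpleGraph (W ⊕ {P : GG // p P = q ∧ ∃ B, a P B = B}) where
  Adj u v := match u, v with
    | Sum.inl B, Sum.inr P => a (P : GG) B = B
    | Sum.inr P, Sum.inl B => a (P : GG) B = B
    | _, _ => False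
  symm := ⟨fun u v h => by cases u <;> cases v <;> simp_all⟩
  loopless := ⟨fun u h => by cases u <;> simp_all⟩

/-- `P` is the first lift on the way from `B` to `C` in `Bip a p (p P)` -/
def Lam (a : GG →* Equiv.Perm W) (p : GG →* Q) (B C : W) (P : GG) : Prop :=
  ∃ hP : a P B = B, Nxt (Bip a p (p P)) (Sum.inl B) (Sum.inl C) (Sum.inr ⟨P, rfl, B, hP⟩)

end

/-- sections fixing at least two members of `Ω` -/
def SecT (π : Γ →* G) (M : Subgroup Γ) (Ω : Set (Subgroup Γ)) : Type :=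
  {s : G →* Γ // SecIn π M s ∧ ∃ B C : Ω, B ≠ C ∧ ∀ g, omAct Ω (s g) B = B ∧ omAct Ω (s g) C = C}

/-- the bipartite graph `B(G)`: members of `Ω` and sections fixing at least two members -/
def SG (π : Γ →* G) (M : Subgroup Γ) (Ω : Set (Subgroup Γ)) : SimpleGraph (Ω ⊕ SecT π M Ω) where
  Adj u v := match u, v with
    | Sum.inl B, Sum.inr s => ∀ g, omAct Ω (s.1 g) B = B
    | Sum.inr s, Sum.inl B => ∀ g, omAct Ω (s.1 g) B = B
    | _, _ => False
  symm := ⟨fun u v h => by cases u <;> cases v <;> simp_all⟩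
  loopless := ⟨fun u h => by cases u <;> simp_all⟩

end Pool.Agent.Lib.MP_6567fb_al
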