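import Pool.Agent.Lib.MP_6567fb_al.T2b

/-!
# MP_6567fb_al, module T3

Products, and restriction to an invariant convex set.
-/

set_option autoImplicit false

open scoped Pointwise

namespace Pool.Agent.Lib.MP_6567fb_al

open MTree
namespace MTree
variable {Γ : Type} [Group Γ] {M : Subgroup Γ} (T : MTree M)

/-- if `y` is the projection of `x` to the fixed vertices of `n`, it lies between `x` and `n x` -/
theorem btw_of_proj {n : Γ} (hn : n ∈ M) {x y : T.X} (hy : T.act n y = y)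
    (hp : ∀ s ∈ T.Fix n, T.Btw x y s) : T.Btw x y (T.act n x) := by
  obtain ⟨c, ⟨h1, h2, h3⟩, -⟩ := TG.median T.tree x (T.act n x) y
  -- `c` is at the same distance from `y` on `[y,x]` and on `[y,n x]`
  have hyx : T.Btw y c x := TG.btw_symm T.tree h3
  have hynx : T.Btw y c (T.act n x) := TG.btw_symm T.tree h2
  have hnc : T.Btw y (T.act n c) (T.act n x) := by
    have := (T.btw_act hn y c x).2 hyx
    rwa [hy] at this
  have hd : T.G.dist y (T.act n c) = T.G.dist y c := by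
    have := T.dist_act hn y c
    rwa [hy] at this
  have hk : T.G.dist y c ≤ T.G.dist y (T.act n x) := by
    have : T.G.dist y c + T.G.dist c (T.act n x) = T.G.dist y (T.act n x) := hynx
    omega
  obtain ⟨z, -, hz⟩ := TG.btw_point T.tree hk
  have e1 := hz c ⟨hynx, rfl⟩
  have e2 := hz (T.act n c) ⟨hnc, hd⟩
  have hc : c ∈ T.Fix n := by
    show T.act n c = c
    rw [e2, ← e1]
  have h4 : T.G.dist x y + T.G.dist y c = T.G.dist x c := hp c hc
  have h5 : T.G.dist x c + T.G.dist c y = T.G.dist x y := h3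
  have h6 : T.G.dist y c = 0 := by omega
  have h7 : y = c := by
    rcases T.tree.1.dist_eq_zero_iff.1 h6 with h
    exact h
  rw [h7]
  exact h1

theorem ell_ell_hyp {m n : Γ} (hm : m ∈ M) (hn : n ∈ M) (h1 : (T.Fix m).Nonempty)
    (h2 : (T.Fix n).Nonempty) (hd : Disjoint (T.Fix m) (T.Fix n)) : T.Hyp (m * n) := by
  obtain ⟨⟨x, y⟩, ⟨hx, hy, hb⟩, -⟩ :=
    TG.exists_unique_bridge T.tree (T.fix_conv hm) (T.fix_conv hn) h1 h2 hd
  simp only at hx hy hb
  have hx' : T.act m x = x := hx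
  have hy' : T.act n y = y := hy
  have hxn : T.act n x ≠ x := fun h => Set.disjoint_left.1 hd hx h
  have hym : T.act m y ≠ y := fun h => Set.disjoint_left.1 hd h hy
  have hxy : x ≠ y := fun h => hxn (h ▸ hy')
  have hni : n⁻¹ ∈ M := M.inv_mem hn
  -- projections
  have hpy : ∀ s ∈ T.Fix n, T.Btw x y s := fun s hs => (hb x hx s hs).2.1
  have hpx : ∀ s ∈ T.Fix m, T.Btw y x s := fun s hs =>
    TG.btw_symm T.tree (hb s hs y hy).1
  have a1 : T.Btw x y (T.act n x) := T.btw_of_proj hn hy' hpy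
  have a2 : T.Btw x y (T.act n⁻¹ x) := by
    apply T.btw_of_proj hni
    · have : y ∈ T.Fix n⁻¹ := by rw [T.fix_inv hn]; exact hy
      exact this
    · rw [T.fix_inv hn]
      exact hpy
  have a3 : T.Btw y x (T.act m y) := T.btw_of_proj hm hx' hpx
  have a4 : T.Btw x (T.act m y) (T.act m (T.act n x)) := by
    have := (T.btw_act hm x y (T.act n x)).2 a1
    rwa [hx'] at this
  have g1 := TG.btw_glue T.tree (TG.btw_symm T.tree a2) a3 (Ne.symm hxy)
  have hne : x ≠ T.act m y := by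
    intro h
    apply hxy
    apply T.act_inj hm
    rw [hx']
    exact h
  have g2 := TG.btw_glue T.tree g1.2 a4 hne
  -- coherence at `n⁻¹ x`
  have w1 : T.act (m * n) (T.act n⁻¹ x) = x := by
    rw [T.act_mul m hm n hn, T.act_act_inv hn, hx']
  have w2 : T.act (m * n) x = T.act m (T.act n x) := T.act_mul m hm n hn x
  have hmn : m * n ∈ M := M.mul_mem hm hn
  obtain ⟨l, L, hL, -, -⟩ := T.coherent hmn (x := T.act n⁻¹ x)
    (by
      rw [w1]
      intro h
      apply hxn
      have := congrArg (T.act n) h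
      rw [T.act_act_inv hn] at this
      exact this)
    (by
      rw [w1, w2]
      exact g2.1)
  exact T.hyp_of_axis hmn hL

/-- if `m`, `n`, `m*n` are elliptic then `m`, `n` have a common fixed vertex -/
theorem common_fix (hni : T.NoInv) {m n : Γ} (hm : m ∈ M) (hn : n ∈ M) (h1 : (T.Fix m).Nonempty)
    (h2 : (T.Fix n).Nonempty) (h3 : (T.Fix (m * n)).Nonempty) : (T.Fix m ∩ T.Fix n).Nonempty := by
  by_contra h
  have hd : Disjoint (T.Fix m) (T.Fix n) := by
    rw [Set.disjoint_iff_inter_eq_empty]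
    exact Set.not_nonempty_iff_eq_empty.1 h
  obtain ⟨x, hx⟩ := h3
  exact T.ell_ell_hyp hm hn h1 h2 hd x hx

theorem ell_hyp_aux (hni : T.NoInv) (hp : T.Pure) {m n : Γ} (hm : m ∈ M) (hn : n ∈ M)
    (h1 : (T.Fix m).Nonempty) (h2 : T.Hyp n) {a b : ℕ}
    (hea : ¬ T.Hyp (m ^ a * n)) (heb : ¬ T.Hyp (m ^ b * n)) : ¬ a < b := by
  intro hab
  have nh : ∀ g, ¬ T.Hyp g → (T.Fix g).Nonempty := by
    intro g hg
    unfold Hyp at hg
    push Not at hg
    exact hg
  obtain ⟨y, hy⟩ := h1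
  have e1 : (T.Fix (m ^ (b - a))).Nonempty := ⟨y, T.fix_pow hm hy _⟩
  have hu : m ^ a * n ∈ M := M.mul_mem (M.pow_mem hm a) hn
  have hmul : m ^ (b - a) * (m ^ a * n) = m ^ b * n := by
    rw [← mul_assoc, ← pow_add]
    congr 2
    omega
  obtain ⟨x, hx1, hx2⟩ := T.common_fix hni (M.pow_mem hm (b - a)) hu e1 (nh _ hea)
    (by rw [hmul]; exact nh _ heb)
  have hmx : T.act m x = x := hp m hm (b - a) (by omega) x hx1
  apply h2 x
  have h3 : T.act (m ^ a) (T.act n x) = x := by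
    rw [← T.act_mul _ (M.pow_mem hm a) _ hn]
    exact hx2
  have h4 : T.act (m ^ a) x = x := T.fix_pow hm hmx a
  exact T.act_inj (M.pow_mem hm a) (h3.trans h4.symm)

theorem ell_hyp (hni : T.NoInv) (hp : T.Pure) {m n : Γ} (hm : m ∈ M) (hn : n ∈ M)
    (h1 : (T.Fix m).Nonempty) (h2 : T.Hyp n) {a b : ℕ} (ha : 0 < a) (hb : 0 < b)
    (hea : ¬ T.Hyp (m ^ a * n)) (heb : ¬ T.Hyp (m ^ b * n)) : a = b := by
  have h3 := T.ell_hyp_aux hni hp hm hn h1 h2 hea heb
  have h4 := T.ell_hyp_aux hni hp hm hn h1 h2 heb hea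
  omega

open Classical in
/-- the subtree `S` with the action of `M'` -/
noncomputable def sub (S : Set T.X) (hS : T.Conv S) (hne : S.Nonempty) (M' : Subgroup Γ) (hM : M' ≤ M)
    (hi : ∀ m ∈ M', ∀ x ∈ S, T.act m x ∈ S) : MTree M' where
  X := S
  G := T.G.induce S
  tree := (TG.induce_conv T.tree hS hne).1
  act := fun m x => if h : m ∈ M' then ⟨T.act m x, hi m h x x.2⟩ else x
  act_one := by
    intro x
    rw [dif_pos M'.one_mem]
    exact Subtype.ext (T.act_one _)
  act_mul := by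
    intro m hm m' hm' x
    rw [dif_pos (M'.mul_mem hm hm'), dif_pos hm, dif_pos hm']
    exact Subtype.ext (T.act_mul m (hM hm) m' (hM hm') _)
  act_adj := by
    intro m hm x y h
    rw [dif_pos hm, dif_pos hm]
    exact T.act_adj m (hM hm) _ _ h

/-- the inclusion of the subtree -/
theorem sub_isEmb (S : Set T.X) (hS : T.Conv S) (hne : S.Nonempty) (M' : Subgroup Γ) (hM : M' ≤ M)
    (hi : ∀ m ∈ M', ∀ x ∈ S, T.act m x ∈ S) :
    IsEmb (T.sub S hS hne M' hM hi) T (Subtype.val : S → T.X) where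
  inj := Subtype.val_injective
  dist := fun x y => ((TG.induce_conv T.tree hS hne).2 x y).symm
  equi := by
    intro m hm x
    exact congrArg (Subtype.val : S → T.X) (dif_pos hm)

theorem sub_stab (S : Set T.X) (hS : T.Conv S) (hne : S.Nonempty) (M' : Subgroup Γ) (hM : M' ≤ M)
    (hi : ∀ m ∈ M', ∀ x ∈ S, T.act m x ∈ S) (x : S) :
    (T.sub S hS hne M' hM hi).stab x = T.stab (x : T.X) ⊓ M' := by
  ext m
  constructor
  · rintro ⟨h1, h2⟩
    have h3 := (T.sub_isEmb S hS hne M' hM hi).equi m h1 x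
    have h4 := congrArg Subtype.val h2
    exact ⟨⟨hM h1, h3.symm.trans h4⟩, h1⟩
  · rintro ⟨⟨h1, h2⟩, h3⟩
    refine ⟨h3, ?_⟩
    apply Subtype.ext
    rw [(T.sub_isEmb S hS hne M' hM hi).equi m h3 x]
    exact h2

end MTree

end Pool.Agent.Lib.MP_6567fb_al
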