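import Pool.Agent.Lib.MP_6567fb_al.T2b
import Pool.Agent.Lib.MP_6567fb_al.T3

/-!
# MP_6567fb_al, module T2c

Splittings in the context.  lift: orb gives h ∈ M ⊓ F with h x = m x, h y = m y; p = h⁻¹ m; unique by
`free`.  lift_sec: uniqueness gives multiplicativity.  noInv: if m inverts (x,y): orb gives h ∈ M ⊓ F with h x = y, h y = x; h²
fixes the edge, so h² = 1, so h = 1 by (X1): contradiction.  pure: m^k x = x, m elliptic by ell_of_pow, if m x ≠ x take a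
fixed vertex z of m nearest to x, the first edge (z,w) of [z,x] is fixed by m^k; p := the lift of π m fixing this edge; p^k and m^k
are lifts of π(m^k) fixing it, so p^k = m^k, p = m by (X1), so m fixes w.  fixed_unique: otherwise h fixes the first edge
of [x,y].  eq_of_agree: a⁻¹ b.  commute_of_shift: (h P)⁻¹ (P h) is in ker π ⊓ M and fixes L i and L (i+1).  sub': `sub` is in T3.
-/

set_option autoImplicit false

open scoped Pointwise

namespace Pool.Agent.Lib.MP_6567fb_al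

open MTree
namespace MTree
variable {Γ G : Type} [Group Γ] [Group G] {π : Γ →* G} {M : Subgroup Γ} {T : MTree M}

/-- two elements of `M` with the same image which agree on an edge are equal -/
theorem T2c_eq_of_agree (hT : T.IsSplitting π.ker) {a b : Γ} (ha : a ∈ M) (hb : b ∈ M)
    (hab : π a = π b) {x y : T.X} (h : T.G.Adj x y) (hx : T.act a x = T.act b x)
    (hy : T.act a y = T.act b y) : a = b := by
  have hk : a⁻¹ * b ∈ M ⊓ π.ker := by
    refine ⟨M.mul_mem (M.inv_mem ha) hb, ?_⟩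
    show π (a⁻¹ * b) = 1
    rw [map_mul, map_inv, hab, inv_mul_cancel]
  have h1 := hT.free _ hk x y h
    (by rw [T.act_mul _ (M.inv_mem ha) _ hb, ← hx, T.act_inv_act ha])
    (by rw [T.act_mul _ (M.inv_mem ha) _ hb, ← hy, T.act_inv_act ha])
  exact (inv_mul_eq_one.1 h1)

theorem IsSplitting.noInv (hc : Ctx π) (hT : T.IsSplitting π.ker) : T.NoInv := by
  rintro m hm x y h ⟨h1, h2⟩
  obtain ⟨k, hk, hk1, hk2⟩ := hT.orb m hm x y h
  rw [h1] at hk1
  rw [h2] at hk2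
  have hkM : k ∈ M := hk.1
  have h3 : k ^ 2 = 1 := by
    refine hT.free _ ((M ⊓ π.ker).pow_mem hk 2) x y h ?_ ?_
    · rw [pow_two, T.act_mul _ hkM _ hkM, hk1, hk2]
    · rw [pow_two, T.act_mul _ hkM _ hkM, hk2, hk1]
  have h4 : k = 1 := hc.roots k 1 2 (by norm_num) (by rw [h3, one_pow])
  rw [h4, T.act_one] at hk1
  exact h.ne hk1

/-- the unique lift fixing an edge -/
theorem IsSplitting.lift (hT : T.IsSplitting π.ker) {x y : T.X} (h : T.G.Adj x y) {m : Γ} (hm : m ∈ M) :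
    ∃! p, p ∈ M ∧ π p = π m ∧ T.FixE p x y := by
  obtain ⟨k, hk, hk1, hk2⟩ := hT.orb m hm x y h
  have hkM : k ∈ M := hk.1
  have hkπ : π k = 1 := hk.2
  refine ⟨k⁻¹ * m, ⟨M.mul_mem (M.inv_mem hkM) hm, ?_, ?_, ?_⟩, ?_⟩
  · rw [map_mul, map_inv, hkπ, inv_one, one_mul]
  · rw [T.act_mul _ (M.inv_mem hkM) _ hm, ← hk1, T.act_inv_act hkM]
  · rw [T.act_mul _ (M.inv_mem hkM) _ hm, ← hk2, T.act_inv_act hkM]
  · rintro q ⟨hq1, hq2, hq3, hq4⟩
    refine T2c_eq_of_agree hT hq1 (M.mul_mem (M.inv_mem hkM) hm) ?_ h ?_ ?_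
    · rw [hq2, map_mul, map_inv, hkπ, inv_one, one_mul]
    · rw [hq3, T.act_mul _ (M.inv_mem hkM) _ hm, ← hk1, T.act_inv_act hkM]
    · rw [hq4, T.act_mul _ (M.inv_mem hkM) _ hm, ← hk2, T.act_inv_act hkM]

theorem IsSplitting.pure (hc : Ctx π) (hT : T.IsSplitting π.ker) : T.Pure := by
  intro m hm k hk x hx
  by_contra hne
  obtain ⟨y, hy⟩ := T.ell_of_pow (hT.noInv hc) hm hk hx
  obtain ⟨z, ⟨hz, hz2⟩, -⟩ := TG.exists_unique_proj T.tree (T.fix_conv hm) ⟨y, hy⟩ x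
  have hxz : z ≠ x := fun h0 => hne (h0 ▸ hz)
  obtain ⟨w, ⟨hw1, hw2⟩, -⟩ := TG.exists_unique_next T.tree hxz
  have hmk : m ^ k ∈ M := M.pow_mem hm k
  have hzk : T.act (m ^ k) z = z := T.fix_pow hm hz k
  have hd : T.G.dist z w = 1 := SimpleGraph.dist_eq_one_iff_adj.2 hw1
  have hwk : T.act (m ^ k) w = w := by
    refine T.fix_conv hmk z hzk x hx w ?_
    show T.G.dist z w + T.G.dist w x = T.G.dist z x
    omega
  obtain ⟨p, ⟨hp1, hp2, hp3, hp4⟩, -⟩ := hT.lift hw1 hm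
  have hpk : p ^ k = m ^ k := by
    refine T2c_eq_of_agree hT (M.pow_mem hp1 k) hmk ?_ hw1 ?_ ?_
    · rw [map_pow, map_pow, hp2]
    · rw [hzk, T.fix_pow hp1 hp3 k]
    · rw [hwk, T.fix_pow hp1 hp4 k]
  have hpm : p = m := hc.roots p m k hk hpk
  have hmw : w ∈ T.Fix m := by
    show T.act m w = w
    rw [← hpm]
    exact hp4
  have h3 : T.G.dist x z + T.G.dist z w = T.G.dist x w := hz2 w hmw
  rw [SimpleGraph.dist_comm (u := w)] at hw2
  rw [SimpleGraph.dist_comm (u := z) (v := x)] at hw2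
  omega

theorem IsSplitting.lift_sec (hT : T.IsSplitting π.ker) {x y : T.X} (h : T.G.Adj x y)
    (hM : ∀ g, ∃ m ∈ M, π m = g) :
    ∃! s : G →* Γ, IsSec π s ∧ ∀ g, s g ∈ M ∧ T.FixE (s g) x y := by
  have h1 : ∀ g, ∃ p, p ∈ M ∧ π p = g ∧ T.FixE p x y := by
    intro g
    obtain ⟨m, hm, rfl⟩ := hM g
    exact (hT.lift h hm).exists
  choose s hs1 hs2 hs3 using h1
  have huniq : ∀ p q, p ∈ M → q ∈ M → π p = π q → T.FixE p x y → T.FixE q x y → p = q :=
    fun p q hp hq hpq hp1 hq1 => T2c_eq_of_agree hT hp hq hpq h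
      (by rw [hp1.1, hq1.1]) (by rw [hp1.2, hq1.2])
  refine ⟨MonoidHom.mk' s ?_, ⟨fun g => hs2 g, fun g => ⟨hs1 g, hs3 g⟩⟩, ?_⟩
  · intro a b
    refine huniq _ _ (hs1 _) (M.mul_mem (hs1 _) (hs1 _)) ?_ (hs3 _) ⟨?_, ?_⟩
    · rw [hs2, map_mul, hs2, hs2]
    · rw [T.act_mul _ (hs1 _) _ (hs1 _), (hs3 b).1, (hs3 a).1]
    · rw [T.act_mul _ (hs1 _) _ (hs1 _), (hs3 b).2, (hs3 a).2]
  · rintro s' ⟨hs1', hs2'⟩
    refine MonoidHom.ext fun g => ?_
    refine huniq _ _ (hs2' g).1 (hs1 g) ?_ (hs2' g).2 (hs3 g)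
    show π (s' g) = π (s g)
    rw [hs1' g, hs2 g]

theorem IsSplitting.fixed_unique (hT : T.IsSplitting π.ker) {h : Γ} (hh : h ∈ M ⊓ π.ker) (h1 : h ≠ 1)
    {x y : T.X} (hx : T.act h x = x) (hy : T.act h y = y) : x = y := by
  by_contra hne
  obtain ⟨w, ⟨hw1, hw2⟩, -⟩ := TG.exists_unique_next T.tree hne
  have hd : T.G.dist x w = 1 := SimpleGraph.dist_eq_one_iff_adj.2 hw1
  have hw : T.act h w = w := by
    refine T.fix_conv hh.1 x hx y hy w ?_
    show T.G.dist x w + T.G.dist w y = T.G.dist x y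
    omega
  exact h1 (hT.free h hh x w hw1 hx hw)

theorem IsSplitting.eq_of_agree (hT : T.IsSplitting π.ker) {a b : Γ} (ha : a ∈ M) (hb : b ∈ M)
    (hab : π a = π b) {x y : T.X} (h : T.G.Adj x y) (hx : T.act a x = T.act b x)
    (hy : T.act a y = T.act b y) : a = b := T2c_eq_of_agree hT ha hb hab h hx hy

theorem IsSplitting.res {F M' : Subgroup Γ} (hT : T.IsSplitting F) (h : M' ≤ M) (hF : M' ⊓ F = M ⊓ F) :
    (T.res h).IsSplitting F where
  free := fun k hk => hT.free k (hF ▸ hk)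
  orb := fun m hm x y hxy => by
    obtain ⟨k, hk, hk2⟩ := hT.orb m (h hm) x y hxy
    exact ⟨k, hF ▸ hk, hk2⟩
  cocpt := by
    obtain ⟨S, hS⟩ := hT.cocpt
    refine ⟨S, fun x y hxy => ?_⟩
    obtain ⟨k, hk, hk2⟩ := hS x y hxy
    exact ⟨k, hF ▸ hk, hk2⟩

theorem T2c_sub_act {M' : Subgroup Γ} {S : Set T.X} (hS : T.Conv S)
    (hne : S.Nonempty) (hM : M' ≤ M) (hi : ∀ m ∈ M', ∀ x ∈ S, T.act m x ∈ S) {m : Γ} (hm : m ∈ M')
    (x : S) : (T.sub S hS hne M' hM hi).act m x = (⟨T.act m x, hi m hm x x.2⟩ : S) := by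
  exact dif_pos hm

/-- a convex invariant subset gives a splitting of the same group -/
theorem IsSplitting.sub' {F M' : Subgroup Γ} (hT : T.IsSplitting F) {S : Set T.X} (hS : T.Conv S)
    (hne : S.Nonempty) (hM : M' ≤ M) (hi : ∀ m ∈ M', ∀ x ∈ S, T.act m x ∈ S) (hF : M' ⊓ F = M ⊓ F) :
    (T.sub S hS hne M' hM hi).IsSplitting F where
  free := by
    intro k hk x y hxy hx hy
    rw [T2c_sub_act hS hne hM hi hk.1] at hx hy
    exact hT.free k (hF ▸ hk) x.1 y.1 hxy (congrArg Subtype.val hx) (congrArg Subtype.val hy)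
  orb := by
    intro m hm x y hxy
    obtain ⟨k, hk, hk1, hk2⟩ := hT.orb m (hM hm) x.1 y.1 hxy
    have hk' : k ∈ M' ⊓ F := hF ▸ hk
    refine ⟨k, hk', ?_, ?_⟩
    · rw [T2c_sub_act hS hne hM hi hk'.1, T2c_sub_act hS hne hM hi hm]
      exact Subtype.ext hk1
    · rw [T2c_sub_act hS hne hM hi hk'.1, T2c_sub_act hS hne hM hi hm]
      exact Subtype.ext hk2
  cocpt := by
    obtain ⟨E, hE⟩ := hT.cocpt
    have hinj : Function.Injective (fun p : S × S => ((p.1 : T.X), (p.2 : T.X))) := by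
      rintro ⟨a, b⟩ ⟨c, d⟩ h
      simp only [Prod.mk.injEq] at h
      exact Prod.ext (Subtype.ext h.1) (Subtype.ext h.2)
    refine ⟨E.preimage (fun p : S × S => ((p.1 : T.X), (p.2 : T.X))) hinj.injOn, fun x y hxy => ?_⟩
    obtain ⟨k, hk, hk2⟩ := hE x.1 y.1 hxy
    have hk' : k ∈ M' ⊓ F := hF ▸ hk
    refine ⟨k, hk', ?_⟩
    rw [T2c_sub_act hS hne hM hi hk'.1, T2c_sub_act hS hne hM hi hk'.1, Finset.mem_preimage]
    exact hk2

/-- elements acting on a hyperbolic axis -/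
theorem IsSplitting.commute_of_shift (hT : T.IsSplitting π.ker) {P h : Γ} (hP : P ∈ M)
    (hh : h ∈ M) {l : ℕ} {L : ℤ → T.X} (hL : T.IsAxis P l L) {i c : ℤ}
    (hcom : π (h * P) = π (P * h))
    (h1 : ∀ j : ℤ, i ≤ j → j ≤ i + l + 1 → T.act h (L j) = L (j + c)) : h * P = P * h := by
  obtain ⟨hl, hline, hact⟩ := hL
  have hadj : T.G.Adj (L i) (L (i + 1)) := by
    rw [← SimpleGraph.dist_eq_one_iff_adj, hline]
    omega
  refine T2c_eq_of_agree hT (M.mul_mem hh hP) (M.mul_mem hP hh) hcom hadj ?_ ?_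
  · rw [T.act_mul _ hh _ hP, T.act_mul _ hP _ hh, hact, h1 i le_rfl (by omega), hact,
      h1 (i + l) (by omega) (by omega)]
    congr 1
    ring
  · rw [T.act_mul _ hh _ hP, T.act_mul _ hP _ hh, hact, h1 (i + 1) (by omega) (by omega), hact,
      h1 (i + 1 + l) (by omega) (by omega)]
    congr 1
    ring

end MTree

end Pool.Agent.Lib.MP_6567fb_al
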