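import Pool.Agent.Lib.MP_6567fb_al.T7d

/-!
# MP_6567fb_al, module T8

M-factors: the finiteness lemma (rlemma), normalisers, the splitting of an M-factor on its core, transitivity,
vertex groups.
-/

set_option autoImplicit false

open scoped Pointwise

namespace Pool.Agent.Lib.MP_6567fb_al

open MTree
open scoped Pointwise
variable {Γ G : Type} [Group Γ] [Group G] {π : Γ →* G}

/-! ### conjugation -/

theorem t8_mem_conj {D : Subgroup Γ} {m g : Γ} : g ∈ MulAut.conj m • D ↔ m⁻¹ * g * m ∈ D := by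
  rw [Subgroup.mem_pointwise_smul_iff_inv_smul_mem, MulAut.smul_def, ← map_inv, MulAut.conj_apply, inv_inv]

theorem t8_norm {D : Subgroup Γ} {m : Γ} : m ∈ Subgroup.normalizer D ↔ MulAut.conj m • D = D := by
  rw [Subgroup.mem_normalizer_iff]
  constructor
  · intro h
    ext g
    rw [t8_mem_conj]
    have h1 := h (m⁻¹ * g * m)
    rw [show m * (m⁻¹ * g * m) * m⁻¹ = g by group] at h1
    exact h1
  · intro h g
    have h1 : m * g * m⁻¹ ∈ MulAut.conj m • D ↔ m * g * m⁻¹ ∈ D := by rw [h]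
    rw [t8_mem_conj, show m⁻¹ * (m * g * m⁻¹) * m = g by group] at h1
    exact h1

theorem t8_conj_mul (a b : Γ) (D : Subgroup Γ) :
    MulAut.conj (a * b) • D = MulAut.conj a • MulAut.conj b • D := by
  rw [map_mul, mul_smul]

theorem t8_conj_one (D : Subgroup Γ) : MulAut.conj (1 : Γ) • D = D := by
  rw [map_one, one_smul]

theorem t8_conj_inv {a : Γ} {D E : Subgroup Γ} (h : MulAut.conj a • D = E) : MulAut.conj a⁻¹ • E = D := by
  rw [← h, ← t8_conj_mul, inv_mul_cancel, t8_conj_one]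

theorem t8_conj_ker (m : Γ) : MulAut.conj m • π.ker = π.ker := by
  ext g
  rw [t8_mem_conj, MonoidHom.mem_ker, MonoidHom.mem_ker, map_mul, map_mul, map_inv]
  constructor
  · intro h
    have h1 : π g = π m * (π m)⁻¹ := by
      have h2 := congrArg (fun z => π m * z * (π m)⁻¹) h
      simp only [mul_one] at h2
      rw [← h2]
      group
    rw [h1, mul_inv_cancel]
  · intro h
    rw [h]
    group

theorem t8_fac (hc : Ctx π) {M : Subgroup Γ} (hM : Loc π M) {D : Subgroup Γ} (hD : IsMFactor π.ker M D) :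
    IsFactor π.ker π.ker D := fac_trans hc le_rfl hM.fac hD.fac

theorem t8_le {M D : Subgroup Γ} (hD : IsMFactor π.ker M D) : D ≤ M ⊓ π.ker := fac_le hD.fac

theorem norm_inf (hc : Ctx π) {M : Subgroup Γ} (_hM : Loc π M) {D : Subgroup Γ} (hD : IsMFactor π.ker M D) :
    (M ⊓ Subgroup.normalizer D) ⊓ π.ker = D := by
  apply le_antisymm
  · rintro h ⟨⟨hhM, hhN⟩, hhk⟩
    refine fac_malnormal hc inf_le_right hD.fac ⟨hhM, hhk⟩ ?_
    rw [t8_norm.1 hhN, inf_idem]
    exact hD.ne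
  · intro h hh
    exact ⟨⟨(t8_le hD hh).1, t8_norm.2 (Subgroup.conj_smul_eq_self_of_mem hh)⟩, (t8_le hD hh).2⟩

theorem rlemma (hc : Ctx π) {M : Subgroup Γ} (hM : Loc π M) {T : MTree M} (hT : T.IsSplitting π.ker)
    {D : Subgroup Γ} (hD : IsMFactor π.ker M D) (hne : ¬ T.Ell (D : Set Γ)) {x y : T.X}
    (hx : x ∈ T.core D) (hy : y ∈ T.core D) (hxy : T.G.Adj x y) {P : Γ} (hP : P ∈ M) (hf : T.FixE P x y) :
    MulAut.conj P • D = D := by
  classical
  have hni := hT.noInv hc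
  have hDM : D ≤ M := fun d hd => (t8_le hD hd).1
  obtain ⟨S, hS⟩ := T.core_cofinite hni hDM (fac_fg hc (t8_fac hc hM hD)) hne
  -- the conjugates by powers of `P`
  have key : ∀ k : ℕ, ∃ e : S, ∃ h ∈ M ⊓ π.ker, ∃ d ∈ D, MulAut.conj (P ^ k) • D = MulAut.conj h • D ∧
      (T.act d (T.act h⁻¹ x), T.act d (T.act h⁻¹ y)) = (e : T.X × T.X) := by
    intro k
    have hPk : P ^ k ∈ M := M.pow_mem hP k
    obtain ⟨h, hh, hhD⟩ := hD.inv (P ^ k) hPk
    have hcore : ∀ z, T.act P z = z → z ∈ T.core D → T.act h⁻¹ z ∈ T.core D := by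
      intro z hz hzD
      have h1 : z ∈ T.core (MulAut.conj h • D) := by
        rw [← hhD, T.core_conj hDM hPk]
        exact ⟨z, hzD, T.fix_pow hP hz k⟩
      rw [T.core_conj hDM hh.1] at h1
      obtain ⟨w, hw, hwz⟩ := h1
      rw [← hwz, T.act_inv_act hh.1]
      exact hw
    have hx1 := hcore x hf.1 hx
    have hy1 := hcore y hf.2 hy
    obtain ⟨d, hd, hdS⟩ := hS _ hx1 _ hy1 (T.act_adj _ (M.inv_mem hh.1) _ _ hxy)
    exact ⟨⟨_, hdS⟩, h, hh, d, hd, hhD, rfl⟩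
  choose e h hh d hd hconj he using key
  obtain ⟨i, j, hij, heq⟩ := Finite.exists_ne_map_eq_of_infinite e
  have hsame : MulAut.conj (h i) • D = MulAut.conj (h j) • D := by
    have h1 := he i
    rw [heq, ← he j] at h1
    have h2 := congrArg Prod.fst h1
    have h3 := congrArg Prod.snd h1
    dsimp only at h2 h3
    have hdM : ∀ k, d k ∈ M ⊓ π.ker := fun k => t8_le hD (hd k)
    -- `g := (d_j h_j⁻¹)⁻¹ (d_i h_i⁻¹)` fixes the edge
    have hg : (d j * (h j)⁻¹)⁻¹ * (d i * (h i)⁻¹) = 1 := by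
      have hmem : ∀ k, d k * (h k)⁻¹ ∈ M ⊓ π.ker := fun k =>
        Subgroup.mul_mem _ (hdM k) (Subgroup.inv_mem _ (hh k))
      have hact : ∀ k z, T.act (d k * (h k)⁻¹) z = T.act (d k) (T.act (h k)⁻¹ z) := fun k z =>
        T.act_mul _ (hdM k).1 _ (M.inv_mem (hh k).1) z
      refine hT.free _ (Subgroup.mul_mem _ (Subgroup.inv_mem _ (hmem j)) (hmem i)) x y hxy ?_ ?_
      · rw [T.act_mul _ (M.inv_mem (hmem j).1) _ (hmem i).1, hact i, h2, ← hact j]
        exact T.act_inv_act (hmem j).1 x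
      · rw [T.act_mul _ (M.inv_mem (hmem j).1) _ (hmem i).1, hact i, h3, ← hact j]
        exact T.act_inv_act (hmem j).1 y
    have h4 : h j = h i * ((d i)⁻¹ * d j) := by
      have h5 : d i * (h i)⁻¹ = d j * (h j)⁻¹ := (inv_mul_eq_one.1 hg).symm
      have h7 : h i * (d i)⁻¹ = h j * (d j)⁻¹ := by
        have h8 := congrArg (fun z => z⁻¹) h5
        simpa using h8
      rw [← mul_assoc, h7]
      group
    rw [h4, t8_conj_mul, Subgroup.conj_smul_eq_self_of_mem (D.mul_mem (D.inv_mem (hd i)) (hd j))]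
  have hP2 : MulAut.conj (P ^ i) • D = MulAut.conj (P ^ j) • D := by
    rw [hconj i, hconj j, hsame]
  clear hsame heq
  wlog hlt : i < j generalizing i j
  · exact this j i (Ne.symm hij) hP2.symm (by omega)
  refine fac_pure hc (t8_fac hc hM hD) (k := j - i) (by omega) ?_
  have h1 : P ^ j = P ^ i * P ^ (j - i) := by
    rw [← pow_add]
    congr 1
    omega
  rw [h1, t8_conj_mul] at hP2
  exact (smul_left_cancel _ hP2).symm

theorem mfactor_loc (hc : Ctx π) {M : Subgroup Γ} (hM : Loc π M) {D : Subgroup Γ}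
    (hD : IsMFactor π.ker M D) : Loc π (M ⊓ Subgroup.normalizer D) where
  ne := by
    rw [norm_inf hc hM hD]
    exact hD.ne
  fac := by
    rw [norm_inf hc hM hD]
    exact t8_fac hc hM hD

theorem mfactor_full (hc : Ctx π) {M : Subgroup Γ} (hM : Full π M) {D : Subgroup Γ}
    (hD : IsMFactor π.ker M D) :
    M ⊓ Subgroup.normalizer D = Subgroup.normalizer D ∧ Full π (M ⊓ Subgroup.normalizer D) := by
  have h1 : M ⊓ Subgroup.normalizer D = Subgroup.normalizer D := by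
    apply inf_eq_right.2
    intro n hn
    obtain ⟨m, hm, hmn⟩ := hM.surj (π n)
    obtain ⟨h, hh, hhD⟩ := hD.inv m hm
    have hk : n * m⁻¹ ∈ π.ker := by
      rw [MonoidHom.mem_ker, map_mul, map_inv, hmn, mul_inv_cancel]
    have h2 : MulAut.conj (n * m⁻¹ * h) • D = D := by
      rw [t8_conj_mul, ← hhD, ← t8_conj_mul, inv_mul_cancel_right]
      exact t8_norm.1 hn
    have h3 : n * m⁻¹ * h ∈ D := by
      refine fac_malnormal hc le_rfl (t8_fac hc hM.toLoc hD) (Subgroup.mul_mem _ hk hh.2) ?_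
      rw [h2, inf_idem]
      exact hD.ne
    have h4 : n = (n * m⁻¹ * h) * h⁻¹ * m := by group
    rw [h4]
    exact M.mul_mem (M.mul_mem (t8_le hD h3).1 (M.inv_mem hh.1)) hm
  refine ⟨h1, mfactor_loc hc hM.toLoc hD, ?_, ?_⟩
  · intro g
    obtain ⟨m, hm, hmg⟩ := hM.surj g
    obtain ⟨h, hh, hhD⟩ := hD.inv m hm
    refine ⟨h⁻¹ * m, ⟨M.mul_mem (M.inv_mem hh.1) hm, t8_norm.2 ?_⟩, ?_⟩
    · rw [t8_conj_mul, hhD, ← t8_conj_mul, inv_mul_cancel, t8_conj_one]
    · rw [map_mul, map_inv, (MonoidHom.mem_ker).1 hh.2, inv_one, one_mul, hmg]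
  · rw [norm_inf hc hM.toLoc hD, h1]

theorem mfactor_trans (hc : Ctx π) {M : Subgroup Γ} (hM : Loc π M) {D E : Subgroup Γ}
    (hD : IsMFactor π.ker M D) (hE : IsMFactor π.ker (M ⊓ Subgroup.normalizer D) E) :
    IsMFactor π.ker M E where
  ne := hE.ne
  fac := by
    have h1 := hE.fac
    rw [norm_inf hc hM hD] at h1
    exact fac_trans hc inf_le_right hD.fac h1
  inv := by
    intro m hm
    obtain ⟨h, hh, hhD⟩ := hD.inv m hm
    obtain ⟨k, hk, hkE⟩ := hE.inv (h⁻¹ * m) ⟨M.mul_mem (M.inv_mem hh.1) hm, t8_norm.2 (by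
      rw [t8_conj_mul, hhD, ← t8_conj_mul, inv_mul_cancel, t8_conj_one])⟩
    rw [norm_inf hc hM hD] at hk
    refine ⟨h * k, Subgroup.mul_mem _ hh (t8_le hD hk), ?_⟩
    rw [t8_conj_mul h k, ← hkE, ← t8_conj_mul, mul_inv_cancel_left]

theorem t8_core_inv {M : Subgroup Γ} {T : MTree M} {D : Subgroup Γ} (hDM : D ≤ M) {m : Γ}
    (hm : m ∈ M ⊓ Subgroup.normalizer D) {x : T.X} (hx : x ∈ T.core D) : T.act m x ∈ T.core D := by
  have h1 := T.core_conj hDM hm.1
  rw [t8_norm.1 hm.2] at h1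
  rw [h1]
  exact ⟨x, hx, rfl⟩

theorem t8_emb_splitting (hc : Ctx π) {M : Subgroup Γ} (hM : Loc π M) {T : MTree M}
    (hT : T.IsSplitting π.ker) {D : Subgroup Γ} (hD : IsMFactor π.ker M D) (hne : ¬ T.Ell (D : Set Γ))
    (T' : MTree (M ⊓ Subgroup.normalizer D)) (ι : T'.X → T.X) (he : MTree.IsEmb T' T ι)
    (hr : Set.range ι = T.core D) : T'.IsSplitting π.ker ∧ T'.Minimal π.ker := by
  classical
  have hni := hT.noInv hc
  have hDM : D ≤ M := fun d hd => (t8_le hD hd).1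
  have hfg := fac_fg hc (t8_fac hc hM hD)
  have hN := norm_inf hc hM hD
  have hadj : ∀ a b, T'.G.Adj a b ↔ T.G.Adj (ι a) (ι b) := by
    intro a b
    rw [← SimpleGraph.dist_eq_one_iff_adj, ← SimpleGraph.dist_eq_one_iff_adj, he.dist]
  have hDN : ∀ d ∈ D, d ∈ (M ⊓ Subgroup.normalizer D) ⊓ π.ker := by
    intro d hd
    rw [hN]
    exact hd
  have hmem : ∀ a, ι a ∈ T.core D := by
    intro a
    rw [← hr]
    exact ⟨a, rfl⟩
  refine ⟨⟨?_, ?_, ?_⟩, ?_, ?_⟩
  · intro h hh a b hab ha hb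
    refine hT.free h ⟨hh.1.1, hh.2⟩ (ι a) (ι b) ((hadj a b).1 hab) ?_ ?_
    · rw [← he.equi h hh.1, ha]
    · rw [← he.equi h hh.1, hb]
  · intro m hm a b hab
    obtain ⟨h, hh, ha, hb⟩ := hT.orb m hm.1 (ι a) (ι b) ((hadj a b).1 hab)
    have hfix : T.FixE (h⁻¹ * m) (ι a) (ι b) := by
      constructor
      · rw [T.act_mul _ (M.inv_mem hh.1) _ hm.1, ← ha, T.act_inv_act hh.1]
      · rw [T.act_mul _ (M.inv_mem hh.1) _ hm.1, ← hb, T.act_inv_act hh.1]
    have h1 := rlemma hc hM hT hD hne (hmem a) (hmem b) ((hadj a b).1 hab)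
      (M.mul_mem (M.inv_mem hh.1) hm.1) hfix
    have h2 : MulAut.conj h • D = D := by
      rw [t8_conj_mul, t8_norm.1 hm.2] at h1
      have h3 := t8_conj_inv h1
      rwa [inv_inv] at h3
    have h4 : h ∈ M ⊓ Subgroup.normalizer D := ⟨hh.1, t8_norm.2 h2⟩
    refine ⟨h, ⟨h4, hh.2⟩, ?_, ?_⟩
    · apply he.inj
      rw [he.equi h h4, he.equi m hm, ha]
    · apply he.inj
      rw [he.equi h h4, he.equi m hm, hb]
  · obtain ⟨S, hS⟩ := T.core_cofinite hni hDM hfg hne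
    have hinj : Function.Injective (fun e : T'.X × T'.X => (ι e.1, ι e.2)) := by
      rintro ⟨a, b⟩ ⟨a', b'⟩ h
      rw [Prod.mk.injEq] at h
      exact Prod.ext (he.inj h.1) (he.inj h.2)
    refine ⟨S.preimage (fun e : T'.X × T'.X => (ι e.1, ι e.2)) hinj.injOn, ?_⟩
    intro a b hab
    obtain ⟨d, hd, hdS⟩ := hS _ (hmem a) _ (hmem b) ((hadj a b).1 hab)
    refine ⟨d, hDN d hd, ?_⟩
    rw [Finset.mem_preimage]
    dsimp only
    rw [he.equi d (hDN d hd).1, he.equi d (hDN d hd).1]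
    exact hdS
  · intro a
    by_contra hcon
    push Not at hcon
    refine hne ⟨ι a, fun d hd => ?_⟩
    rw [← he.equi d (hDN d hd).1, hcon d (hDN d hd)]
  · rw [hN]
    rw [Set.eq_univ_iff_forall]
    intro a
    have hell : ¬ T'.Ell (D : Set Γ) := by
      rintro ⟨b, hb⟩
      refine hne ⟨ι b, fun d hd => ?_⟩
      rw [← he.equi d (hDN d hd).1, hb d hd]
    have ha := hmem a
    unfold MTree.core at ha ⊢
    rw [if_neg hne] at ha
    rw [if_neg hell]
    obtain ⟨d, hd, hhyp, hax⟩ := ha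
    refine ⟨d, hd, ?_, ?_⟩
    · intro b hb
      refine hhyp (ι b) ?_
      rw [← he.equi d (hDN d hd).1, hb]
    · intro b
      have h1 := hax (ι b)
      rw [← he.equi d (hDN d hd).1, ← he.equi d (hDN d hd).1, he.dist, he.dist] at h1
      exact h1

theorem core_splitting (hc : Ctx π) {M : Subgroup Γ} (hM : Loc π M) {T : MTree M}
    (hT : T.IsSplitting π.ker) {D : Subgroup Γ} (hD : IsMFactor π.ker M D) (hne : ¬ T.Ell (D : Set Γ)) :
    ∃ (T' : MTree (M ⊓ Subgroup.normalizer D)) (ι : T'.X → T.X), MTree.IsEmb T' T ι ∧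
      Set.range ι = T.core D ∧ T'.IsSplitting π.ker ∧ T'.Minimal π.ker := by
  have hni := hT.noInv hc
  have hDM : D ≤ M := fun d hd => (t8_le hD hd).1
  have hfg := fac_fg hc (t8_fac hc hM hD)
  have hcv := T.core_conv hni hDM
  have hcn := T.core_nonempty hni hDM hfg
  have hinv : ∀ m ∈ M ⊓ Subgroup.normalizer D, ∀ x ∈ T.core D, T.act m x ∈ T.core D :=
    fun m hm x hx => t8_core_inv hDM hm hx
  have hemb := T.sub_isEmb (T.core D) hcv hcn (M ⊓ Subgroup.normalizer D) inf_le_left hinv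
  exact ⟨_, _, hemb, Subtype.range_coe, t8_emb_splitting hc hM hT hD hne _ _ hemb Subtype.range_coe⟩

theorem t8_orb {M : Subgroup Γ} {T : MTree M} {F : Subgroup Γ} (hT : T.IsSplitting F) {m : Γ} (hm : m ∈ M)
    (x : T.X) : ∃ h ∈ M ⊓ F, T.act h x = T.act m x := by
  by_cases h : ∃ y, T.G.Adj x y
  · obtain ⟨y, hy⟩ := h
    obtain ⟨h, hh, h1, -⟩ := hT.orb m hm x y hy
    exact ⟨h, hh, h1⟩
  · refine ⟨1, Subgroup.one_mem _, ?_⟩
    by_contra hne
    apply h
    have hne' : x ≠ T.act m x := fun h' => hne (by rw [T.act_one]; exact h')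
    obtain ⟨y, hy, -⟩ := TG.exists_unique_next T.tree hne'
    exact ⟨y, hy.1⟩

/-- a non-trivial vertex group of an `M`-splitting is an `M`-factor, its normaliser in `M` is the stabiliser -/
theorem vertex_mfactor (hc : Ctx π) {M : Subgroup Γ} (_hM : Loc π M) {T : MTree M}
    (hT : T.IsSplitting π.ker) (x : T.X) (hx : T.stab x ⊓ π.ker ≠ ⊥) :
    IsMFactor π.ker M (T.stab x ⊓ π.ker) ∧
      M ⊓ Subgroup.normalizer (T.stab x ⊓ π.ker : Subgroup Γ) = T.stab x := by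
  have hconj : ∀ m ∈ M, MulAut.conj m • (T.stab x ⊓ π.ker) = T.stab (T.act m x) ⊓ π.ker := by
    intro m hm
    rw [Subgroup.smul_inf, t8_conj_ker, T.stab_act hm]
  refine ⟨⟨hx, Or.inr ⟨T.res (inf_le_left : M ⊓ π.ker ≤ M), hT.res inf_le_left ?_, x, ?_⟩, ?_⟩, ?_⟩
  · rw [inf_assoc, inf_idem]
  · rw [T.res_stab]
    ext g
    constructor
    · rintro ⟨⟨h1, -⟩, h2⟩
      exact ⟨h1, h2⟩
    · rintro ⟨h1, h2⟩
      exact ⟨⟨h1, h1.1, h2⟩, h2⟩
  · intro m hm
    obtain ⟨h, hh, hhx⟩ := t8_orb hT hm x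
    refine ⟨h, hh, ?_⟩
    rw [hconj m hm, hconj h hh.1, hhx]
  · apply le_antisymm
    · rintro m ⟨hm, hn⟩
      refine ⟨hm, ?_⟩
      have h1 := t8_norm.1 hn
      rw [hconj m hm] at h1
      obtain ⟨⟨b, hb⟩, hb1⟩ := (Subgroup.ne_bot_iff_exists_ne_one).1 hx
      have hb2 : b ≠ 1 := fun h' => hb1 (Subtype.ext h')
      have hb3 : b ∈ T.stab (T.act m x) ⊓ π.ker := by rw [h1]; exact hb
      exact hT.fixed_unique ⟨hb.1.1, hb.2⟩ hb2 hb3.1.2 hb.1.2
    · intro m hm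
      refine ⟨hm.1, t8_norm.2 ?_⟩
      rw [hconj m hm.1, hm.2]

end Pool.Agent.Lib.MP_6567fb_al
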