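import Pool.Agent.Lib.MP_6567fb_al.FDefs
import Pool.Agent.Lib.MP_6567fb_al.T2c
import Pool.Agent.Lib.MP_6567fb_al.T8
import Pool.Agent.Lib.MP_6567fb_al.T14b

/-!
# MP_6567fb_al, module F0

Small facts used everywhere.
-/

set_option autoImplicit false

open scoped Pointwise
open Filter

namespace Pool.Agent.Lib.MP_6567fb_al

open MTree
variable {Γ G : Type} [Group Γ] [Group G] {π : Γ →* G}

theorem mg_le (M : Subgroup Γ) (g : G) : Mg π M g ≤ M := inf_le_left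

theorem mg_inf (M : Subgroup Γ) (g : G) : Mg π M g ⊓ π.ker = M ⊓ π.ker := by
  ext x
  constructor
  · rintro ⟨⟨h1, _⟩, h2⟩
    exact ⟨h1, h2⟩
  · rintro ⟨h1, h2⟩
    refine ⟨⟨h1, ?_⟩, h2⟩
    have h3 : π x = 1 := h2
    change π x ∈ Subgroup.zpowers g
    rw [h3]
    exact Subgroup.one_mem _

theorem mem_mg {M : Subgroup Γ} {g : G} {Q : Γ} (hQ : Q ∈ M) (h : π Q = g) : Q ∈ Mg π M g := by
  refine ⟨hQ, ?_⟩
  change π Q ∈ Subgroup.zpowers g
  rw [h]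
  exact Subgroup.mem_zpowers g

/-- elements of `Mg` are `h Q^k` -/
theorem mem_mg_iff {M : Subgroup Γ} {g : G} {Q : Γ} (hQ : Q ∈ M) (h : π Q = g) (m : Γ) :
    m ∈ Mg π M g ↔ ∃ k : ℤ, ∃ v ∈ M ⊓ π.ker, m = v * Q ^ k := by
  constructor
  · rintro ⟨h1, h2⟩
    have h2' : π m ∈ Subgroup.zpowers g := h2
    obtain ⟨k, hk⟩ := Subgroup.mem_zpowers_iff.1 h2'
    refine ⟨k, m * (Q ^ k)⁻¹, ⟨M.mul_mem h1 (M.inv_mem (M.zpow_mem hQ k)), ?_⟩, by group⟩
    change π (m * (Q ^ k)⁻¹) = 1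
    rw [map_mul, map_inv, map_zpow, h, hk, mul_inv_cancel]
  · rintro ⟨k, v, ⟨hv1, hv2⟩, rfl⟩
    refine ⟨M.mul_mem hv1 (M.zpow_mem hQ k), ?_⟩
    change π (v * Q ^ k) ∈ Subgroup.zpowers g
    have h3 : π v = 1 := hv2
    rw [map_mul, map_zpow, h, h3, one_mul]
    exact Subgroup.zpow_mem _ (Subgroup.mem_zpowers g) k

theorem Loc.mg {M : Subgroup Γ} (hM : Loc π M) (g : G) : Loc π (Mg π M g) where
  ne := by rw [mg_inf]; exact hM.ne
  fac := by rw [mg_inf]; exact hM.fac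

theorem IsSplitting.mg {M : Subgroup Γ} {T : MTree M} (hT : T.IsSplitting π.ker) (g : G) :
    (T.res (mg_le (π := π) M g)).IsSplitting π.ker :=
  IsSplitting.res hT (mg_le (π := π) M g) (mg_inf M g)

/-- an invariant factor is an `Mg`-factor -/
theorem inv_mfactor {M : Subgroup Γ} {E : Subgroup Γ} (hE : IsFactor π.ker (M ⊓ π.ker) E)
    (hne : E ≠ ⊥) {p : Γ} (hp : p ∈ M) (hinv : MulAut.conj p • E = E) :
    IsMFactor π.ker (Mg π M (π p)) E where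
  ne := hne
  fac := by rw [mg_inf]; exact hE
  inv := by
    intro m hm
    obtain ⟨k, v, hv, rfl⟩ := (mem_mg_iff (π := π) hp rfl m).1 hm
    refine ⟨v, by rw [mg_inf]; exact hv, ?_⟩
    have h1 : p ^ k ∈ Subgroup.normalizer (E : Set Γ) :=
      Subgroup.zpow_mem _ (t8_norm.2 hinv) k
    rw [t8_conj_mul, t8_norm.1 h1]

/-- same for a section -/
theorem inv_mfactor_sec {M : Subgroup Γ} {E : Subgroup Γ} (hE : IsFactor π.ker (M ⊓ π.ker) E)
    (hne : E ≠ ⊥) {s : G →* Γ} (hs : SecIn π M s) (hinv : ∀ g, MulAut.conj (s g) • E = E) :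
    IsMFactor π.ker M E where
  ne := hne
  fac := hE
  inv := by
    intro m hm
    refine ⟨m * (s (π m))⁻¹, ⟨M.mul_mem hm (M.inv_mem (hs.mem _)), ?_⟩, ?_⟩
    · change π (m * (s (π m))⁻¹) = 1
      rw [map_mul, map_inv, hs.sec, mul_inv_cancel]
    · have h1 : m = m * (s (π m))⁻¹ * s (π m) := by group
      conv_lhs => rw [h1, t8_conj_mul, hinv]

theorem IsSupp.unique {F H : Subgroup Γ} {Ω : Set (Subgroup Γ)} {p : Γ} {D D' : Subgroup Γ}
    (h : IsSupp F H Ω p D) (h' : IsSupp F H Ω p D') : D = D' :=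
  le_antisymm (h.min D' h'.ofac h'.ne h'.inv) (h'.min D h.ofac h.ne h.inv)

theorem stab_full (hc : Ctx π) {M : Subgroup Γ} (hM : Full π M) {T : MTree M}
    (hT : T.IsSplitting π.ker) (hn : T.Nontriv π.ker) {x : T.X} (hx : T.stab x ⊓ π.ker ≠ ⊥) :
    Full π (T.stab x) ∧ rk (T.stab x ⊓ π.ker) < rk (M ⊓ π.ker) := by
  obtain ⟨h1, h2⟩ := vertex_mfactor hc hM.toLoc hT x hx
  have h3 := (mfactor_full hc hM h1).2
  rw [h2] at h3
  refine ⟨h3, rk_lt hc hM.fac (t8_fac hc hM.toLoc h1) ?_⟩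
  refine lt_of_le_of_ne (t8_le h1) ?_
  intro h4
  obtain ⟨h, hh, hne⟩ := hn x
  rw [← h4] at hh
  exact hne hh.1.2

/-- a non-trivial splitting: every vertex has a neighbour, so `stab x` maps onto `G` -/
theorem stab_surj (hc : Ctx π) {M : Subgroup Γ} (hM : ∀ g, ∃ m ∈ M, π m = g) {T : MTree M}
    (hT : T.IsSplitting π.ker) (hn : T.Nontriv π.ker) (x : T.X) :
    (∃ y, T.G.Adj x y) ∧ ∀ g, ∃ m ∈ T.stab x, π m = g := by
  obtain ⟨h, _, hne⟩ := hn x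
  obtain ⟨y, hy, _⟩ := TG.exists_next T.tree (x := x) (z := T.act h x) (Ne.symm hne)
  refine ⟨⟨y, hy⟩, fun g => ?_⟩
  obtain ⟨m, hm, hmg⟩ := hM g
  obtain ⟨p, ⟨hp, hpm, hpf⟩, _⟩ := IsSplitting.lift hT hy hm
  exact ⟨p, ⟨hp, hpf.1⟩, hpm.trans hmg⟩

theorem eSec_spec (hc : Ctx π) {M : Subgroup Γ} (hM : ∀ g, ∃ m ∈ M, π m = g) {T : MTree M}
    (hT : T.IsSplitting π.ker) {x y : T.X} (hxy : T.G.Adj x y) :
    SecIn π M (eSec π T x y) ∧ ∀ g, T.FixE (eSec π T x y g) x y := by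
  have h : ∃ s : G →* Γ, SecIn π M s ∧ ∀ g, T.FixE (s g) x y := by
    obtain ⟨s, ⟨hs1, hs2⟩, _⟩ := IsSplitting.lift_sec hT hxy hM
    exact ⟨s, ⟨hs1, fun g => (hs2 g).1⟩, fun g => (hs2 g).2⟩
  unfold eSec
  rw [dif_pos h]
  exact h.choose_spec

theorem eSec_unique (hc : Ctx π) {M : Subgroup Γ} (hM : ∀ g, ∃ m ∈ M, π m = g) {T : MTree M}
    (hT : T.IsSplitting π.ker) {x y : T.X} (hxy : T.G.Adj x y) {Q : Γ} (hQ : Q ∈ M)
    (hf : T.FixE Q x y) : eSec π T x y (π Q) = Q := by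
  obtain ⟨h1, h2⟩ := eSec_spec hc hM hT hxy
  exact IsSplitting.eq_of_agree hT (h1.mem _) hQ (h1.sec _) hxy
    ((h2 _).1.trans hf.1.symm) ((h2 _).2.trans hf.2.symm)

theorem eSec_act (hc : Ctx π) {M : Subgroup Γ} (hM : ∀ g, ∃ m ∈ M, π m = g) {T : MTree M}
    (hT : T.IsSplitting π.ker) {x y : T.X} (hxy : T.G.Adj x y) {h : Γ} (hh : h ∈ M ⊓ π.ker) (g : G) :
    eSec π T (T.act h x) (T.act h y) g = h * eSec π T x y g * h⁻¹ := by
  obtain ⟨h1, h2⟩ := eSec_spec hc hM hT hxy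
  have hhM : h ∈ M := hh.1
  have hhi : h⁻¹ ∈ M := M.inv_mem hhM
  have hQ : h * eSec π T x y g * h⁻¹ ∈ M := M.mul_mem (M.mul_mem hhM (h1.mem g)) hhi
  have hk : π h = 1 := hh.2
  have hπ : π (h * eSec π T x y g * h⁻¹) = g := by
    rw [map_mul, map_mul, map_inv, hk, h1.sec]
    simp
  have hf : T.FixE (h * eSec π T x y g * h⁻¹) (T.act h x) (T.act h y) := by
    constructor
    · rw [T.act_mul _ (M.mul_mem hhM (h1.mem g)) _ hhi, T.act_inv_act hhM,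
        T.act_mul _ hhM _ (h1.mem g), (h2 g).1]
    · rw [T.act_mul _ (M.mul_mem hhM (h1.mem g)) _ hhi, T.act_inv_act hhM,
        T.act_mul _ hhM _ (h1.mem g), (h2 g).2]
  have h3 := eSec_unique hc hM hT (T.act_adj h hhM x y hxy) hQ hf
  rw [hπ] at h3
  exact h3

theorem eSec_symm (hc : Ctx π) {M : Subgroup Γ} (hM : ∀ g, ∃ m ∈ M, π m = g) {T : MTree M}
    (hT : T.IsSplitting π.ker) {x y : T.X} (hxy : T.G.Adj x y) :
    eSec π T x y = eSec π T y x := by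
  ext g
  obtain ⟨h1, h2⟩ := eSec_spec hc hM hT hxy.symm
  have h3 := eSec_unique hc hM hT hxy (h1.mem g) ⟨(h2 g).2, (h2 g).1⟩
  rw [h1.sec g] at h3
  exact h3

/-- an element normalising a non-trivial subgroup of `H_x` (or commuting with it) fixes `x` -/
theorem fix_of_norm (hc : Ctx π) {M : Subgroup Γ} {T : MTree M} (hT : T.IsSplitting π.ker) {x : T.X}
    {V : Subgroup Γ} (hV : V ≤ T.stab x ⊓ π.ker) (hne : V ≠ ⊥) {Q : Γ} (hQ : Q ∈ M)
    (h : MulAut.conj Q • V = V) : T.act Q x = x := by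
  obtain ⟨v, hv, hv1⟩ := exists_ne_one_t14b hne
  have h1 : Q⁻¹ * v * Q ∈ V := by
    rw [← t8_mem_conj, h]
    exact hv
  have hvx := hV hv
  have hQx := hV h1
  have hvM : v ∈ M := hvx.1.1
  have h2 : T.act v (T.act Q x) = T.act Q x := by
    have h3 : T.act (Q * (Q⁻¹ * v * Q)) x = T.act Q x := by
      rw [T.act_mul _ hQ _ hQx.1.1, hQx.1.2]
    rw [← T.act_mul _ hvM _ hQ]
    have h4 : Q * (Q⁻¹ * v * Q) = v * Q := by group
    rw [h4] at h3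
    exact h3
  exact IsSplitting.fixed_unique hT ⟨hvM, hvx.2⟩ hv1 h2 hvx.1.2

theorem conj_smul_eq_of_comm {V : Subgroup Γ} {Q : Γ} (h : ∀ v ∈ V, Q * v = v * Q) :
    MulAut.conj Q • V = V := by
  ext x
  rw [t8_mem_conj]
  constructor
  · intro hx
    have h1 := h _ hx
    have h2 : x * Q = (Q⁻¹ * x * Q) * Q := by
      rw [← h1]; group
    have h3 : x = Q⁻¹ * x * Q := mul_right_cancel h2
    rw [h3]
    exact hx
  · intro hx
    have h1 := h _ hx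
    have h2 : Q⁻¹ * x * Q = x := by
      rw [mul_assoc, ← h1]; group
    rw [h2]
    exact hx

end Pool.Agent.Lib.MP_6567fb_al
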