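import Pool.Agent.Lib.MP_6567fb_al.FDefs

/-!
# MP_6567fb_al, module F1a

Pure group theory / filters.  w_isol_stay: at most one a is bad: g1^{3(a-a')} in Y.  w_isol_new: g2^{3b} in Y, b > 0.  w_mod3: a product of
cubes.
-/

set_option autoImplicit false

open scoped Pointwise
open Filter

namespace Pool.Agent.Lib.MP_6567fb_al

open MTree
variable {Γ G : Type} [Group Γ] [Group G] {π : Γ →* G}

theorem AA.and {p q : ℕ → ℕ → Prop} (hp : AA p) (hq : AA q) : AA (fun b a => p b a ∧ q b a) := by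
  unfold AA at *
  filter_upwards [hp, hq] with b h1 h2
  exact h1.and h2

theorem AA.mono {p q : ℕ → ℕ → Prop} (hp : AA p) (h : ∀ b a, p b a → q b a) : AA q := by
  unfold AA at *
  filter_upwards [hp] with b h1
  exact h1.mono (h b)

theorem AA.of_forall {p : ℕ → ℕ → Prop} (h : ∀ b a, p b a) : AA p :=
  Eventually.of_forall (fun b => Eventually.of_forall (h b))

theorem AA.exists {p : ℕ → ℕ → Prop} (hp : AA p) : ∃ b a, p b a := by
  unfold AA at hp
  obtain ⟨b, hb⟩ := Filter.Eventually.exists hp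
  obtain ⟨a, ha⟩ := Filter.Eventually.exists hb
  exact ⟨b, a, ha⟩

theorem AA.all_finite {ι : Type} {S : Set ι} (hS : S.Finite) {p : ι → ℕ → ℕ → Prop}
    (h : ∀ i ∈ S, AA (p i)) : AA (fun b a => ∀ i ∈ S, p i b a) := by
  unfold AA at *
  have h1 := (Filter.eventually_all_finite hS).2 h
  filter_upwards [h1] with b hb
  exact (Filter.eventually_all_finite hS).2 hb

theorem w_isol_stay {Y : Subgroup G} (hY : Isol Y) {g1 : G} (g2 : G) (h : g1 ∉ Y) :
    AA (fun b a => wd g1 g2 b a ∉ Y) := by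
  refine Eventually.of_forall (fun b => ?_)
  by_cases hex : ∃ a0, wd g1 g2 b a0 ∈ Y
  · obtain ⟨a0, ha0⟩ := hex
    filter_upwards [eventually_gt_atTop a0] with a ha hmem
    have h1 : wd g1 g2 b a * (wd g1 g2 b a0)⁻¹ = g1 ^ (3 * (a - a0)) := by
      unfold wd
      obtain ⟨k, rfl⟩ : ∃ k, a = k + a0 := ⟨a - a0, by omega⟩
      rw [show 3 * (k + a0) = 3 * k + 3 * a0 by ring, pow_add, show k + a0 - a0 = k by omega]
      group
    have h2 : g1 ^ (3 * (a - a0)) ∈ Y := h1 ▸ Y.mul_mem hmem (Y.inv_mem ha0)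
    exact h (hY g1 (3 * (a - a0)) (by omega) h2)
  · push Not at hex
    exact Eventually.of_forall hex

theorem w_isol_new {Y : Subgroup G} (hY : Isol Y) {g1 g2 : G} (h1 : g1 ∈ Y) (h2 : g2 ∉ Y) :
    AA (fun b a => wd g1 g2 b a ∉ Y) := by
  unfold AA
  filter_upwards [eventually_gt_atTop 0] with b hb
  refine Eventually.of_forall (fun a hmem => ?_)
  have h3 : g2 ^ (3 * b) ∈ Y := by
    have h4 : (g1 ^ (3 * a))⁻¹ * wd g1 g2 b a = g2 ^ (3 * b) := by
      unfold wd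
      group
    exact h4 ▸ Y.mul_mem (Y.inv_mem (Y.pow_mem h1 _)) hmem
  exact h2 (hY g2 (3 * b) (by omega) h3)

/-- `w` is killed by every homomorphism to a group of order 3 -/
theorem w_mod3 (g1 g2 : G) (b a : ℕ) (χ : G →* Multiplicative (ZMod 3)) :
    χ (wd g1 g2 b a) = 1 := by
  have h3 : ∀ x : Multiplicative (ZMod 3), x ^ 3 = 1 := by decide
  unfold wd
  rw [map_mul, map_pow, map_pow, pow_mul, pow_mul, h3, h3, one_pow, one_pow, one_mul]

theorem CJ.refl (H : Subgroup Γ) (x : Γ) : CJ H x x := ⟨1, H.one_mem, by group⟩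
theorem CJ.symm {H : Subgroup Γ} {x y : Γ} (h : CJ H x y) : CJ H y x := by
  obtain ⟨v, hv, rfl⟩ := h
  exact ⟨v⁻¹, H.inv_mem hv, by group⟩
theorem CJ.trans {H : Subgroup Γ} {x y z : Γ} (h : CJ H x y) (h' : CJ H y z) : CJ H x z := by
  obtain ⟨v, hv, rfl⟩ := h
  obtain ⟨w, hw, rfl⟩ := h'
  exact ⟨w * v, H.mul_mem hw hv, by group⟩
theorem CJS.symm {H : Subgroup Γ} {s s' : G →* Γ} (h : CJS H s s') : CJS H s' s := by
  obtain ⟨v, hv, h⟩ := h
  refine ⟨v⁻¹, H.inv_mem hv, fun g => ?_⟩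
  rw [← h g]
  group
theorem CJS.trans {H : Subgroup Γ} {s s' s'' : G →* Γ} (h : CJS H s s') (h' : CJS H s' s'') :
    CJS H s s'' := by
  obtain ⟨v, hv, h⟩ := h
  obtain ⟨w, hw, h'⟩ := h'
  refine ⟨w * v, H.mul_mem hw hv, fun g => ?_⟩
  rw [← h' g, ← h g]
  group
theorem CJS.cj {H : Subgroup Γ} {s s' : G →* Γ} (h : CJS H s s') (g : G) : CJ H (s g) (s' g) := by
  obtain ⟨v, hv, h⟩ := h
  exact ⟨v, hv, h g⟩

end Pool.Agent.Lib.MP_6567fb_al
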