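import Pool.Agent.Lib.MP_6567fb_al.F3d

/-!
# MP_6567fb_al, module F3e

F3.4, see the text.  ¬AA: for infinitely many b, for infinitely many a, CJ.  If for one of these large (b,a) the first alternative of per_alt holds: x commutes with P = s g1, x = q^n, and (s' g2)^(3b) = (q^n s g2 q^-n)^(3b),
roots.  Otherwise for all large ones: k ≠ 0, x = q^(-n) r (comm_q), r = ρ(w)^-k where ρ(g) := eSec at (L 0, L 1) (fixes L pointwise and commutes with q for g ∈ Stab[q] ∋ g1, g2; r and ρ(w)^-k are over the same element and fix (L 0,L 1)).  h1 := ρ(g2), R = ρ(g1),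
s g2 = y h1, (s g2)^(3b) = y_b h1^(3b), same for s'.  K_a := h1^(3b) R^(3a).  K_a^(-k) y_b K_a^k = q^n y'_b q^-n.  y_b ∈ <q>: y'_b = y_b, n = 0 works.  Otherwise gate (IsPer.gate, K_a fixes L pointwise and commutes with q): n does not depend on
a.  lemma_LA''_gen / lemma_LA''_const for the representation g ↦ ρ_c(ρ(g)) of closure {g1,g2} or of G (ρ is a section): y_b = q^n y'_b q^-n (then -n works), or k_a = k constant and h1^(-3bk) y_b h1^(3bk) = q^n y'_b q^-n, i.e. s' g2 = q^-n h1^-K s g2 h1^K q^n with K = 3bk.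
Two b's with different K: z = q^i h1^j (j ≠ 0) commutes with s g2 and with h1, so with y; z preserves L and yL, yL ≠ L: i = 0 (gate), h1 commutes with y (roots), so with s g2: s' g2 = q^-n s g2 q^n.
-/

set_option autoImplicit false

open scoped Pointwise
open Filter

namespace Pool.Agent.Lib.MP_6567fb_al

open MTree
variable {Γ G : Type} [Group Γ] [Group G] {π : Γ →* G}

namespace F3e

theorem root_int (hc : Ctx π) {x y : Γ} {k : ℤ} (hk : k ≠ 0) (h : x ^ k = y ^ k) : x = y := by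
  rcases Int.eq_nat_or_neg k with ⟨n, rfl | rfl⟩
  · rw [zpow_natCast, zpow_natCast] at h
    exact hc.roots x y n (by omega) h
  · rw [zpow_neg, zpow_neg, zpow_natCast, zpow_natCast, inv_inj] at h
    exact hc.roots x y n (by omega) h

theorem alg_core {q C A A' B V W Q : Γ} {n : ℤ} (hW : W = C * B) (hVW : V * W = W * V)
    (hVQ : V * Q = Q * V) (hqQ : q * Q = Q * q) (hCq : C * q = q * C) (hBq : B * q = q * B)
    (h : (q ^ n * V) * (Q * C * A) * (q ^ n * V)⁻¹ = Q * C * A') :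
    A' * B⁻¹ = (q ^ n * (C⁻¹ * V * C)) * (A * B⁻¹) * (q ^ n * (C⁻¹ * V * C))⁻¹ := by
  have hCn : C * q ^ n = q ^ n * C := (Commute.zpow_right (show Commute C q from hCq) n)
  have hBn : B * q ^ n = q ^ n * B := (Commute.zpow_right (show Commute B q from hBq) n)
  have hqn : q ^ n * Q = Q * q ^ n := (Commute.zpow_left (show Commute q Q from hqQ) n)
  have h1 : Q * (q ^ n * V * (C * A) * (q ^ n * V)⁻¹) = Q * (C * A') := by
    have e1 : Q * (q ^ n * V * (C * A) * (q ^ n * V)⁻¹) = (Q * q ^ n) * V * (C * A) * (q ^ n * V)⁻¹ := by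
      group
    have e2 : (q ^ n * V) * (Q * C * A) * (q ^ n * V)⁻¹ = q ^ n * (V * Q) * (C * A) * (q ^ n * V)⁻¹ := by
      group
    have e3 : q ^ n * (Q * V) * (C * A) * (q ^ n * V)⁻¹ = (q ^ n * Q) * V * (C * A) * (q ^ n * V)⁻¹ := by
      group
    rw [e1, ← hqn, ← e3, ← hVQ, ← e2, h, mul_assoc]
  have h2 : q ^ n * V * (C * A) * (q ^ n * V)⁻¹ = C * A' := mul_left_cancel h1
  have h3 : A' = C⁻¹ * (q ^ n * V * (C * A) * (q ^ n * V)⁻¹) := by
    rw [h2]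
    group
  have hB : B = C⁻¹ * W := by
    rw [hW]
    group
  have hCi : C⁻¹ * q ^ n = q ^ n * C⁻¹ := by
    rw [inv_mul_eq_iff_eq_mul, ← mul_assoc, hCn]
    group
  have hBi : (q ^ n)⁻¹ * B⁻¹ = B⁻¹ * (q ^ n)⁻¹ := by
    rw [← mul_inv_rev, ← mul_inv_rev, hBn]
  have hVWi : V⁻¹ * W⁻¹ = W⁻¹ * V⁻¹ := by
    rw [← mul_inv_rev, ← mul_inv_rev, hVW]
  have e4 : V⁻¹ * B⁻¹ = B⁻¹ * (C⁻¹ * V⁻¹ * C) := by
    have e5 : B⁻¹ = W⁻¹ * C := by
      rw [hB]
      group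
    rw [e5]
    calc V⁻¹ * (W⁻¹ * C) = (V⁻¹ * W⁻¹) * C := by group
      _ = (W⁻¹ * V⁻¹) * C := by rw [hVWi]
      _ = W⁻¹ * C * (C⁻¹ * V⁻¹ * C) := by group
  calc A' * B⁻¹ = C⁻¹ * (q ^ n * V * (C * A) * (q ^ n * V)⁻¹) * B⁻¹ := by rw [← h3]
    _ = (C⁻¹ * q ^ n) * V * C * A * V⁻¹ * ((q ^ n)⁻¹ * B⁻¹) := by group
    _ = (q ^ n * C⁻¹) * V * C * A * V⁻¹ * (B⁻¹ * (q ^ n)⁻¹) := by rw [hCi, hBi]
    _ = q ^ n * (C⁻¹ * V * C) * A * (V⁻¹ * B⁻¹) * (q ^ n)⁻¹ := by group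
    _ = q ^ n * (C⁻¹ * V * C) * A * (B⁻¹ * (C⁻¹ * V⁻¹ * C)) * (q ^ n)⁻¹ := by rw [e4]
    _ = (q ^ n * (C⁻¹ * V * C)) * (A * B⁻¹) * (q ^ n * (C⁻¹ * V * C))⁻¹ := by group

section
variable {M : Subgroup Γ} (T : MTree M)

/-- the elements of `M` fixing `L` pointwise and commuting with `q` -/
def Z (q : Γ) (L : ℤ → T.X) : Subgroup Γ where
  carrier := {r | r ∈ M ∧ (∀ i, T.act r (L i) = L i) ∧ r * q = q * r}
  one_mem' := ⟨M.one_mem, fun i => T.act_one _, by rw [one_mul, mul_one]⟩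
  mul_mem' := by
    rintro a b ⟨ha, ha', ha''⟩ ⟨hb, hb', hb''⟩
    refine ⟨M.mul_mem ha hb, fun i => by rw [T.act_mul a ha b hb, hb', ha'], ?_⟩
    rw [mul_assoc, hb'', ← mul_assoc, ha'', mul_assoc]
  inv_mem' := by
    rintro a ⟨ha, ha', ha''⟩
    refine ⟨M.inv_mem ha, fun i => ?_, ?_⟩
    · conv_lhs => rw [← ha' i]
      exact T.act_inv_act ha _
    · exact (Commute.inv_left (show Commute a q from ha'')).eq

/-- the gate of `y L` on `L` -/
def gs (L : ℤ → T.X) (y : Γ) : Set ℤ := {i | ∃ j, ∀ k, T.Btw (L k) (L i) (T.act y (L j))}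

theorem gs_conj {L : ℤ → T.X} {z y : Γ} (hz : z ∈ M) (hy : y ∈ M) {c : ℤ}
    (hc : ∀ i, T.act z (L i) = L (i + c)) (i : ℤ) : i ∈ gs T L (z * y * z⁻¹) ↔ i - c ∈ gs T L y := by
  have hzi : ∀ j, T.act z⁻¹ (L j) = L (j - c) := by
    intro j
    have h1 := hc (j - c)
    rw [sub_add_cancel] at h1
    rw [← h1]
    exact T.act_inv_act hz _
  have key : ∀ j k, T.Btw (L k) (L i) (T.act (z * y * z⁻¹) (L j)) ↔
      T.Btw (L (k - c)) (L (i - c)) (T.act y (L (j - c))) := by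
    intro j k
    rw [T.act_mul _ (M.mul_mem hz hy) _ (M.inv_mem hz), hzi, T.act_mul _ hz _ hy]
    have h1 := hc (k - c)
    have h2 := hc (i - c)
    rw [sub_add_cancel] at h1 h2
    rw [← h1, ← h2]
    exact T.btw_act hz _ _ _
  constructor
  · rintro ⟨j, hj⟩
    refine ⟨j - c, fun k => ?_⟩
    have := (key j (k + c)).1 (hj _)
    rwa [add_sub_cancel_right] at this
  · rintro ⟨j, hj⟩
    refine ⟨j + c, fun k => ?_⟩
    rw [key, add_sub_cancel_right]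
    exact hj _

theorem act_zpow_shift {L : ℤ → T.X} {q : Γ} (hq : q ∈ M) {t : ℤ} (h : ∀ i, T.act q (L i) = L (i + t))
    (n : ℤ) : ∀ i, T.act (q ^ n) (L i) = L (i + n * t) := by
  have hnat : ∀ n : ℕ, ∀ i, T.act (q ^ n) (L i) = L (i + n * t) := by
    intro n
    induction n with
    | zero =>
      intro i
      rw [pow_zero, T.act_one]
      simp
    | succ n ih =>
      intro i
      rw [pow_succ, T.act_mul _ (M.pow_mem hq n) _ hq, h, ih]
      congr 1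
      push_cast
      ring
  intro i
  rcases Int.eq_nat_or_neg n with ⟨m, rfl | rfl⟩
  · rw [zpow_natCast]
    exact hnat m i
  · rw [zpow_neg, zpow_natCast]
    have h1 := hnat m (i + -(m : ℤ) * t)
    have e : i + -(m : ℤ) * t + m * t = i := by ring
    rw [e] at h1
    rw [← h1]
    have := T.act_inv_act (M.pow_mem hq m) (L (i + -(m : ℤ) * t))
    rw [h1] at this ⊢
    exact this

end

section
variable {M : Subgroup Γ} {T : MTree M}

theorem mem_q (hc : Ctx π) (hT : T.IsSplitting π.ker) {P q R : Γ} {l t k0 : ℕ} {L : ℤ → T.X}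
    (hper : IsPer π T P q R l t k0 L) {y : Γ} (hy : y ∈ M ⊓ π.ker) (hyq : y * q * y⁻¹ = q) :
    y ∈ Subgroup.zpowers q := by
  obtain ⟨n, r, hr, hyr, hπ, hrL, _⟩ := IsPer.comm_q hc hT hper hy.1 hyq
  have h1 : r = 1 := by
    have hk : r ∈ π.ker := by
      rw [MonoidHom.mem_ker, hπ]
      exact hy.2
    refine hT.free r ⟨hr, hk⟩ (L 0) (L 1) ?_ (hrL 0) (hrL 1)
    · rw [← SimpleGraph.dist_eq_one_iff_adj, hper.axis.2.1]
      rfl
  rw [hyr, h1, mul_one]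
  exact Subgroup.zpow_mem_zpowers q n

/-- shifting by `z` fixes the gate only if the shift is zero -/
theorem gate_shift (hc : Ctx π) (hT : T.IsSplitting π.ker) {P q R : Γ} {l t k0 : ℕ} {L : ℤ → T.X}
    (hper : IsPer π T P q R l t k0 L) {y y' z z' : Γ} (hy : y ∈ M) (hyq : y * q * y⁻¹ ≠ q)
    (hz : z ∈ M) (hz' : z' ∈ M) {c c' : ℤ} (hc1 : ∀ i, T.act z (L i) = L (i + c))
    (hc2 : ∀ i, T.act z' (L i) = L (i + c'))
    (h : z * y * z⁻¹ = y') (h' : z' * y * z'⁻¹ = y') : c = c' := by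
  obtain ⟨i1, i2, h12, hg⟩ := IsPer.gate hc hT hper hy hyq
  have hg' : ∀ i, i ∈ gs T L y ↔ i1 ≤ i ∧ i ≤ i2 := hg
  have h1 : ∀ i, i - c ∈ gs T L y ↔ i - c' ∈ gs T L y := by
    intro i
    rw [← gs_conj T hz hy hc1, ← gs_conj T hz' hy hc2, h, h']
  have h2 := h1 (i1 + c)
  have h3 := h1 (i2 + c)
  rw [hg', hg'] at h2 h3
  have h4 := h2.1 ⟨by omega, by omega⟩
  have h5 := h3.1 ⟨by omega, by omega⟩
  have h6 := h1 (i1 + c')
  rw [hg', hg'] at h6
  have h7 := h6.2 ⟨by omega, by omega⟩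
  omega

/-- the second alternative for one pair `(b,a)` -/
def Alt (π : Γ →* G) (M : Subgroup Γ) (q : Γ) (s s' : G →* Γ) (w : G) (k : ℤ) (x : Γ) : Prop :=
  k ≠ 0 ∧ x ∈ M ∧ π x = w ^ (-k) ∧ x * q * x⁻¹ = q ∧ x * s w * x⁻¹ = s' w

/-- everything for one `b` -/
theorem per_b (hc : Ctx π) (hT : T.IsSplitting π.ker) {s s' : G →* Γ} (hs : SecIn π M s)
    (hs' : SecIn π M s') {g1 g2 : G} {q R : Γ} {l t k0 : ℕ} {L : ℤ → T.X}
    (hper : IsPer π T (s g1) q R l t k0 L) (heq : s' g1 = s g1) (ρ : G →* Γ) (hρ : IsSec π ρ)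
    (hρE : ∀ g, ρ g ∈ M ∧ T.FixE (ρ g) (L 0) (L 1)) (hρ1 : ρ g1 = R) (hρ2 : ρ g2 ∈ Z T q L)
    {b : ℕ} (hb : 0 < b)
    (hfr : {a : ℕ | ∃ (k : ℤ) (x : Γ), Alt π M q s s' (wd g1 g2 b a) k x}.Infinite) :
    (∃ n : ℤ, q ^ n * s g2 * (q ^ n)⁻¹ = s' g2) ∨
      ∃ n K : ℤ, 3 * (b : ℤ) ≤ |K| ∧
        (q ^ n * (ρ g2) ^ K) * s g2 * (q ^ n * (ρ g2) ^ K)⁻¹ = s' g2 := by
  classical
  set S : Set ℕ := {a : ℕ | ∃ (k : ℤ) (x : Γ), Alt π M q s s' (wd g1 g2 b a) k x} with hSdef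
  have hadj : T.G.Adj (L 0) (L 1) := by
    rw [← SimpleGraph.dist_eq_one_iff_adj, hper.axis.2.1]
    rfl
  have hRZ : R ∈ Z T q L := ⟨hper.R_mem, hper.R_act, hper.R_q⟩
  have hb3 : ((3 * b : ℕ) : ℤ) ≠ 0 := by
    push_cast
    omega
  set h1 := ρ g2 with hh1
  -- `B = h1 ^ (3b)`
  have hBZ : h1 ^ (3 * b) ∈ Z T q L := (Z T q L).pow_mem hρ2 _
  have hkerM : ∀ σ : G →* Γ, SecIn π M σ → (σ g2) ^ (3 * b) * (h1 ^ (3 * b))⁻¹ ∈ M ⊓ π.ker := by
    intro σ hσ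
    refine Subgroup.mem_inf.2 ⟨M.mul_mem (M.pow_mem (hσ.mem g2) _) (M.inv_mem (M.pow_mem hρ2.1 _)), ?_⟩
    rw [MonoidHom.mem_ker, map_mul, map_inv, map_pow, map_pow, hσ.sec g2, hh1, hρ g2, mul_inv_cancel]
  set y := (s g2) ^ (3 * b) * (h1 ^ (3 * b))⁻¹ with hy
  set y' := (s' g2) ^ (3 * b) * (h1 ^ (3 * b))⁻¹ with hy'
  have hyH := hkerM s hs
  have hyH' := hkerM s' hs'
  rw [← hy] at hyH
  rw [← hy'] at hyH'
  -- the relation for one `a`
  have hrel : ∀ a ∈ S, ∃ (n k : ℤ), k ≠ 0 ∧ ρ ((g2 ^ (3 * b) * g1 ^ (3 * a)) ^ (-k)) ∈ Z T q L ∧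
      y' = (q ^ n * ρ ((g2 ^ (3 * b) * g1 ^ (3 * a)) ^ (-k))) * y *
        (q ^ n * ρ ((g2 ^ (3 * b) * g1 ^ (3 * a)) ^ (-k)))⁻¹ := by
    rintro a ⟨k, x, hk, hxM, hπx, hxq, hxs⟩
    obtain ⟨n, r, hrM, hxr, hπr, hrL, hrq⟩ := IsPer.comm_q hc hT hper hxM hxq
    have hWe : ρ (wd g1 g2 b a) = R ^ (3 * a) * h1 ^ (3 * b) := by
      rw [wd, map_mul, map_pow, map_pow, hρ1]
    have hWZ : ρ (wd g1 g2 b a) ∈ Z T q L := by
      rw [hWe]
      exact (Z T q L).mul_mem ((Z T q L).pow_mem hRZ _) hBZ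
    have hr : r = ρ (wd g1 g2 b a) ^ (-k) := by
      rw [← map_zpow]
      refine hT.eq_of_agree hrM (hρE _).1 ?_ hadj ?_ ?_
      · rw [hπr, hπx, hρ]
      · rw [hrL, (hρE _).2.1]
      · rw [hrL, (hρE _).2.2]
    have hVZ : r ∈ Z T q L := ⟨hrM, hrL, hrq⟩
    have hsw : ∀ σ : G →* Γ, σ g1 = s g1 →
        σ (wd g1 g2 b a) = (q ^ k0) ^ (3 * a) * R ^ (3 * a) * (σ g2) ^ (3 * b) := by
      intro σ hσ
      rw [wd, map_mul, map_pow, map_pow, hσ, hper.eq]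
      congr 1
      refine Commute.mul_pow ?_ _
      exact Commute.pow_left (show Commute q R from hper.R_q.symm) k0
    have hcore := alg_core (q := q) (C := R ^ (3 * a)) (A := (s g2) ^ (3 * b)) (A' := (s' g2) ^ (3 * b))
      (B := h1 ^ (3 * b)) (V := r) (W := ρ (wd g1 g2 b a)) (Q := (q ^ k0) ^ (3 * a)) (n := n) hWe
      (by rw [hr]; exact ((Commute.refl _).zpow_left (-k)).eq)
      ((((show Commute r q from hrq).pow_right k0).pow_right (3 * a)).eq)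
      ((((Commute.refl q).pow_right k0).pow_right (3 * a)).eq)
      (((Z T q L).pow_mem hRZ (3 * a)).2.2) hBZ.2.2
      (by
        rw [← hxr, ← hsw s rfl, ← hsw s' heq]
        exact hxs)
    have hV : (R ^ (3 * a))⁻¹ * r * R ^ (3 * a) = ρ ((g2 ^ (3 * b) * g1 ^ (3 * a)) ^ (-k)) := by
      have e1 : g2 ^ (3 * b) * g1 ^ (3 * a) = (g1 ^ (3 * a))⁻¹ * wd g1 g2 b a * ((g1 ^ (3 * a))⁻¹)⁻¹ := by
        rw [wd]
        group
      rw [e1, conj_zpow, map_mul, map_mul, inv_inv, map_inv, map_pow, hρ1, hr, map_zpow]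
    rw [hV] at hcore
    refine ⟨n, k, hk, ?_, hcore⟩
    rw [← hV]
    exact (Z T q L).mul_mem ((Z T q L).mul_mem ((Z T q L).inv_mem ((Z T q L).pow_mem hRZ _)) hVZ)
      ((Z T q L).pow_mem hRZ _)
  -- from a relation between `y` and `y'`
  have hfin : ∀ n K : ℤ, y' = (q ^ n * h1 ^ K) * y * (q ^ n * h1 ^ K)⁻¹ →
      (q ^ n * h1 ^ K) * s g2 * (q ^ n * h1 ^ K)⁻¹ = s' g2 := by
    intro n K hyy
    have hcomm : Commute (q ^ n * h1 ^ K) (h1 ^ (3 * b)) := by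
      refine Commute.mul_left ?_ ?_
      · exact ((show Commute q h1 from hρ2.2.2.symm).zpow_left n).pow_right _
      · exact ((Commute.refl h1).zpow_left K).pow_right _
    have e1 : (s' g2) ^ (3 * b) = y' * h1 ^ (3 * b) := by
      rw [hy']
      group
    have e2 : (s g2) ^ (3 * b) = y * h1 ^ (3 * b) := by
      rw [hy]
      group
    refine hc.roots _ _ (3 * b) (by omega) ?_
    have e3 : (q ^ n * h1 ^ K)⁻¹ * h1 ^ (3 * b) = h1 ^ (3 * b) * (q ^ n * h1 ^ K)⁻¹ := hcomm.inv_left.eq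
    rw [conj_pow, e1, e2, hyy, mul_assoc _ (q ^ n * h1 ^ K)⁻¹ (h1 ^ (3 * b)), e3]
    simp only [mul_assoc]
  by_cases hyq : y * q * y⁻¹ = q
  · -- `y` is a power of `q`
    left
    obtain ⟨a, ha⟩ := hfr.nonempty
    obtain ⟨n, k, hk, hZ, hyy⟩ := hrel a ha
    have hcq : Commute y q := by
      show y * q = q * y
      rw [← mul_inv_eq_iff_eq_mul]
      exact hyq
    obtain ⟨m, hm⟩ := Subgroup.mem_zpowers_iff.1 (mem_q hc hT hper hyH hyq)
    have hcy : Commute (q ^ n * ρ ((g2 ^ (3 * b) * g1 ^ (3 * a)) ^ (-k))) y := by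
      rw [← hm]
      refine Commute.mul_left ?_ ?_
      · exact ((Commute.refl q).zpow_left n).zpow_right m
      · exact (show Commute _ q from hZ.2.2).zpow_right m
    have h2 : y' = y := by
      rw [hyy, hcy.eq, mul_inv_cancel_right]
    refine ⟨0, ?_⟩
    have h3 := hfin 0 0 (by rw [h2]; simp)
    simpa using h3
  · -- `n` does not depend on `a`
    choose! n k hk hZ hyy using hrel
    obtain ⟨a0, ha0⟩ := hfr.nonempty
    have hqM : q ∈ M := hper.q_mem.1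
    have hsh : ∀ a ∈ S, ∀ i, T.act (q ^ n a * ρ ((g2 ^ (3 * b) * g1 ^ (3 * a)) ^ (-(k a)))) (L i) =
        L (i + n a * t) := by
      intro a ha i
      rw [T.act_mul _ (M.zpow_mem hqM _) _ (hZ a ha).1, (hZ a ha).2.1,
        act_zpow_shift T hqM hper.q_act]
    have hn : ∀ a ∈ S, n a = n a0 := by
      intro a ha
      have h1 := gate_shift hc hT hper hyH.1 hyq (M.mul_mem (M.zpow_mem hqM _) (hZ a ha).1)
        (M.mul_mem (M.zpow_mem hqM _) (hZ a0 ha0).1) (hsh a ha) (hsh a0 ha0) (hyy a ha).symm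
        (hyy a0 ha0).symm
      have ht : (t : ℤ) ≠ 0 := by
        have := hper.tpos
        omega
      exact mul_right_cancel₀ ht h1
    -- `y'' = q^-n y' q^n`
    set y'' := (q ^ n a0)⁻¹ * y' * q ^ n a0 with hy''
    have hyK : ∀ a ∈ S, ρ ((g2 ^ (3 * b) * g1 ^ (3 * a)) ^ (-(k a))) * y *
        (ρ ((g2 ^ (3 * b) * g1 ^ (3 * a)) ^ (-(k a))))⁻¹ = y'' := by
      intro a ha
      rw [hy'', hyy a ha, hn a ha]
      group
    have hyF : y ∈ π.ker := hyH.2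
    have hyF'' : y'' ∈ π.ker := by
      rw [← hyK a0 ha0]
      exact (inferInstance : π.ker.Normal).conj_mem y hyF _
    obtain ⟨lin⟩ := hc.lin
    by_cases hall : ∀ c, lin.emb c y'' = lin.emb c y
    · left
      have h2 : y'' = y := lin.inj _ hyF'' _ hyF hall
      refine ⟨n a0, ?_⟩
      have h3 := hfin (n a0) 0 (by
        rw [zpow_zero, mul_one, ← h2, hy'']
        group)
      simpa using h3
    · right
      obtain ⟨c, hcne⟩ := not_forall.1 hall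
      have hUn : ∀ c, letI := lin.acg c; letI := lin.mod c
          ∀ g, IsNilpotent (((lin.ρ c).comp ρ) g - 1) := by
        intro c g
        obtain ⟨N, hN⟩ := lin.unip c (ρ g)
        exact ⟨N, hN⟩
      have hrelc : ∀ c, ∀ a ∈ S, ((lin.ρ c).comp ρ) ((g2 ^ (3 * b) * g1 ^ (3 * a)) ^ (-(k a))) (lin.emb c y) =
          lin.emb c y'' := by
        intro c a ha
        rw [← hyK a ha, lin.equiv c _ y hyF]
        rfl
      have hconst : ∀ a ∈ S, ∀ a' ∈ S, k a = k a' := by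
        let _ := lin.acg c
        let _ := lin.mod c
        let _ := lin.fin c
        rcases Pool.MP6567.Alg.lemma_LA''_gen ((lin.ρ c).comp ρ) (hUn c) g1 g2 (lin.emb c y) (lin.emb c y'')
          b S hfr k hk (hrelc c) with h2 | h2
        · exact absurd h2 hcne
        · exact h2
      have hLc : ∀ c, ((lin.ρ c).comp ρ) ((g2 ^ (3 * b)) ^ (-(k a0))) (lin.emb c y) = lin.emb c y'' := by
        intro c
        let _ := lin.acg c
        let _ := lin.mod c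
        let _ := lin.fin c
        refine Pool.MP6567.Alg.lemma_LA''_const ((lin.ρ c).comp ρ) (hUn c) g1 g2 (lin.emb c y)
          (lin.emb c y'') b S hfr (k a0) ?_
        intro a ha
        rw [hconst a0 ha0 a ha]
        exact hrelc c a ha
      have hK : y'' = ρ ((g2 ^ (3 * b)) ^ (-(k a0))) * y * (ρ ((g2 ^ (3 * b)) ^ (-(k a0))))⁻¹ := by
        refine lin.inj _ hyF'' _ ((inferInstance : π.ker.Normal).conj_mem y hyF _) fun c => ?_
        rw [← hLc c, lin.equiv c _ y hyF]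
        rfl
      have hρK : ρ ((g2 ^ (3 * b)) ^ (-(k a0))) = h1 ^ (-(3 * (b : ℤ) * k a0)) := by
        rw [map_zpow, map_pow, ← hh1, ← zpow_natCast, ← zpow_mul]
        congr 1
        push_cast
        ring
      refine ⟨n a0, -(3 * (b : ℤ) * k a0), ?_, hfin _ _ ?_⟩
      · rw [abs_neg, abs_mul, abs_of_nonneg (by positivity : (0 : ℤ) ≤ 3 * (b : ℤ))]
        have h2 : 1 ≤ |k a0| := Int.one_le_abs (hk a0 ha0)
        nlinarith
      · rw [← hρK]
        have e : y' = q ^ n a0 * y'' * (q ^ n a0)⁻¹ := by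
          rw [hy'']
          group
        rw [e, hK]
        group

end

end F3e

theorem per_powers (hc : Ctx π) {M : Subgroup Γ} (hM : Full π M) {T : MTree M}
    (hT : T.IsSplitting π.ker) {s s' : G →* Γ} (hs : SecIn π M s) (hs' : SecIn π M s') {g1 g2 : G}
    {q R : Γ} {l t k0 : ℕ} {L : ℤ → T.X} (hper : IsPer π T (s g1) q R l t k0 L)
    (heq : s' g1 = s g1)
    (h : ¬ AA (fun b a => ¬ CJ (M ⊓ π.ker) (s (wd g1 g2 b a)) (s' (wd g1 g2 b a)))) :
    ∃ n : ℤ, q ^ n * s g2 * (q ^ n)⁻¹ = s' g2 := by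
  classical
  by_contra hcon
  have hy' : T.Hyp (s' g1) := by
    rw [heq]
    exact T.hyp_of_axis (hs.mem g1) hper.axis
  have halt := per_alt hc hM hT hs hs' g2 hper hy'
  -- infinitely many `b`
  have hfr : ∃ᶠ b in atTop, ∃ᶠ a in atTop, CJ (M ⊓ π.ker) (s (wd g1 g2 b a)) (s' (wd g1 g2 b a)) := by
    intro hcon2
    apply h
    refine hcon2.mono fun b hb => ?_
    exact Filter.not_frequently.1 hb
  have hfr2 : ∃ᶠ b in atTop, 0 < b ∧ (∃ h2 ∈ M, π h2 = g2 ∧ h2 * q * h2⁻¹ = q) ∧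
      {a : ℕ | ∃ (k : ℤ) (x : Γ), F3e.Alt π M q s s' (wd g1 g2 b a) k x}.Infinite := by
    refine (hfr.and_eventually (Filter.Eventually.and halt (eventually_gt_atTop 0))).mono ?_
    rintro b ⟨hb1, hb2, hb3⟩
    have hfr3 : ∃ᶠ a in atTop, (∃ h2 ∈ M, π h2 = g2 ∧ h2 * q * h2⁻¹ = q) ∧
        ∃ (k : ℤ) (x : Γ), F3e.Alt π M q s s' (wd g1 g2 b a) k x := by
      refine (hb1.and_eventually hb2).mono ?_
      rintro a ⟨ha1, ha2⟩
      rcases ha2 ha1 with ⟨x, hx, hx1, hx2⟩ | ⟨hA, _, hB⟩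
      · exfalso
        apply hcon
        have hxc : x * s g1 = s g1 * x := by
          rw [← mul_inv_eq_iff_eq_mul, hx1, heq]
        obtain ⟨n, rfl⟩ := Subgroup.mem_zpowers_iff.1 (hper.cent x hx hxc)
        refine ⟨n, ?_⟩
        refine hc.roots _ _ (3 * b) (by omega) ?_
        rw [conj_pow]
        have e1 : s (wd g1 g2 b a) = (s g1) ^ (3 * a) * (s g2) ^ (3 * b) := by
          rw [wd, map_mul, map_pow, map_pow]
        have e2 : s' (wd g1 g2 b a) = (s g1) ^ (3 * a) * (s' g2) ^ (3 * b) := by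
          rw [wd, map_mul, map_pow, map_pow, heq]
        rw [e1, e2] at hx2
        have hcm : Commute (q ^ n) ((s g1) ^ (3 * a)) := (show Commute (q ^ n) (s g1) from hxc).pow_right _
        have e3 : q ^ n * ((s g1) ^ (3 * a) * (s g2) ^ (3 * b)) * (q ^ n)⁻¹ =
            (s g1) ^ (3 * a) * (q ^ n * (s g2) ^ (3 * b) * (q ^ n)⁻¹) := by
          rw [← mul_assoc, hcm.eq]
          simp only [mul_assoc]
        rw [e3] at hx2
        exact mul_left_cancel hx2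
      · exact ⟨hA, hB heq⟩
    refine ⟨hb3, ?_, ?_⟩
    · obtain ⟨a, ha⟩ := hfr3.exists
      exact ha.1
    · exact Nat.frequently_atTop_iff_infinite.1 (hfr3.mono fun a ha => ha.2)
  -- the section `ρ`
  have hadj : T.G.Adj (L 0) (L 1) := by
    rw [← SimpleGraph.dist_eq_one_iff_adj, hper.axis.2.1]
    rfl
  obtain ⟨ρ, ⟨hρ, hρE⟩, _⟩ := hT.lift_sec hadj hM.surj
  have hρ1 : ρ g1 = R := by
    refine hT.eq_of_agree (hρE g1).1 hper.R_mem ?_ hadj ?_ ?_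
    · rw [hρ, hper.R_pi, hs.sec]
    · rw [(hρE g1).2.1, hper.R_act]
    · rw [(hρE g1).2.2, hper.R_act]
  have hρ2 : ρ g2 ∈ F3e.Z T q L := by
    obtain ⟨b, _, ⟨h2, h2M, h2π, h2q⟩, _⟩ := hfr2.exists
    obtain ⟨n, r, hr, hyr, hπr, hrL, hrq⟩ := IsPer.comm_q hc hT hper h2M h2q
    have e : ρ g2 = r := by
      refine hT.eq_of_agree (hρE g2).1 hr ?_ hadj ?_ ?_
      · rw [hρ, hπr, h2π]
      · rw [(hρE g2).2.1, hrL]
      · rw [(hρE g2).2.2, hrL]
    rw [e]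
    exact ⟨hr, hrL, hrq⟩
  -- one `b`
  have hone : ∀ N : ℕ, ∃ n K : ℤ, 3 * (N : ℤ) ≤ |K| ∧
      (q ^ n * (ρ g2) ^ K) * s g2 * (q ^ n * (ρ g2) ^ K)⁻¹ = s' g2 := by
    intro N
    obtain ⟨b, ⟨hb0, _, hbS⟩, hbN⟩ := (hfr2.and_eventually (eventually_ge_atTop N)).exists
    rcases F3e.per_b hc hT hs hs' hper heq ρ hρ hρE hρ1 hρ2 hb0 hbS with h2 | ⟨n, K, hK, h2⟩
    · exact absurd h2 hcon
    · refine ⟨n, K, ?_, h2⟩
      have : (N : ℤ) ≤ b := by exact_mod_cast hbN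
      linarith
  obtain ⟨n, K, hK, hnK⟩ := hone 0
  obtain ⟨n', K', hK', hnK'⟩ := hone (K.natAbs + 1)
  have hKK : K' - K ≠ 0 := by
    intro h0
    have h1 : K' = K := by omega
    rw [h1, Int.abs_eq_natAbs] at hK'
    push_cast at hK'
    omega
  set h1 := ρ g2 with hh1
  have hqh : Commute q h1 := hρ2.2.2.symm
  set z := q ^ (n' - n) * h1 ^ (K' - K) with hz
  have hzs : Commute z (s g2) := by
    have e : z = (q ^ n * h1 ^ K)⁻¹ * (q ^ n' * h1 ^ K') := by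
      have e1 : (q ^ n * h1 ^ K)⁻¹ = h1 ^ (-K) * q ^ (-n) := by
        rw [mul_inv_rev, zpow_neg, zpow_neg]
      have e2 : h1 ^ (-K) * q ^ (-n) = q ^ (-n) * h1 ^ (-K) := ((hqh.symm.zpow_left (-K)).zpow_right (-n)).eq
      have e3 : h1 ^ (-K) * q ^ n' = q ^ n' * h1 ^ (-K) := ((hqh.symm.zpow_left (-K)).zpow_right n').eq
      rw [e1, e2, hz, mul_assoc, ← mul_assoc (h1 ^ (-K)), e3, mul_assoc, ← mul_assoc, ← zpow_add, ← zpow_add]
      congr 2
      · ring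
      · ring
    have e4 : (q ^ n * h1 ^ K) * s g2 * (q ^ n * h1 ^ K)⁻¹ = (q ^ n' * h1 ^ K') * s g2 * (q ^ n' * h1 ^ K')⁻¹ := by
      rw [hnK, hnK']
    show z * s g2 = s g2 * z
    rw [e]
    have e5 : s g2 = (q ^ n * h1 ^ K)⁻¹ * ((q ^ n' * h1 ^ K') * s g2 * (q ^ n' * h1 ^ K')⁻¹) * (q ^ n * h1 ^ K) := by
      rw [← e4]
      group
    calc (q ^ n * h1 ^ K)⁻¹ * (q ^ n' * h1 ^ K') * s g2
        = ((q ^ n * h1 ^ K)⁻¹ * ((q ^ n' * h1 ^ K') * s g2 * (q ^ n' * h1 ^ K')⁻¹) * (q ^ n * h1 ^ K)) *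
            ((q ^ n * h1 ^ K)⁻¹ * (q ^ n' * h1 ^ K')) := by group
      _ = s g2 * ((q ^ n * h1 ^ K)⁻¹ * (q ^ n' * h1 ^ K')) := by rw [← e5]
  have hzh : Commute z h1 := by
    rw [hz]
    exact (hqh.zpow_left _).mul_left ((Commute.refl h1).zpow_left _)
  set y := s g2 * h1⁻¹ with hy
  have hzy : Commute z y := hzs.mul_right hzh.inv_right
  have hyH : y ∈ M ⊓ π.ker := by
    refine Subgroup.mem_inf.2 ⟨M.mul_mem (hs.mem g2) (M.inv_mem hρ2.1), ?_⟩
    rw [MonoidHom.mem_ker, hy, map_mul, map_inv, hs.sec, hh1, hρ, mul_inv_cancel]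
  have hsy : s g2 = y * h1 := by
    rw [hy]
    group
  apply hcon
  by_cases hyq : y * q * y⁻¹ = q
  · obtain ⟨m, hm⟩ := Subgroup.mem_zpowers_iff.1 (F3e.mem_q hc hT hper hyH hyq)
    refine ⟨0, ?_⟩
    have hcm : Commute (q ^ n * h1 ^ K) (s g2) := by
      rw [hsy, ← hm]
      refine Commute.mul_left ?_ ?_
      · exact (((Commute.refl q).zpow_left n).zpow_right m).mul_right (hqh.zpow_left n)
      · exact ((hqh.symm.zpow_left K).zpow_right m).mul_right ((Commute.refl h1).zpow_left K)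
    rw [zpow_zero, one_mul, inv_one, mul_one, ← hnK, hcm.eq, mul_inv_cancel_right]
  · have hqM : q ∈ M := hper.q_mem.1
    have hzM : z ∈ M := M.mul_mem (M.zpow_mem hqM _) (M.zpow_mem hρ2.1 _)
    have hzL : ∀ i, T.act z (L i) = L (i + (n' - n) * t) := by
      intro i
      rw [hz, T.act_mul _ (M.zpow_mem hqM _) _ (M.zpow_mem hρ2.1 _),
        ((F3e.Z T q L).zpow_mem hρ2 _).2.1, F3e.act_zpow_shift T hqM hper.q_act]
    have h2 := F3e.gate_shift hc hT hper hyH.1 hyq hzM M.one_mem hzL (c' := 0)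
      (fun i => by rw [T.act_one, add_zero]) (y' := y) (by rw [hzy.eq, mul_inv_cancel_right])
      (by simp)
    have ht : (t : ℤ) ≠ 0 := by
      have := hper.tpos
      omega
    have h3 : n' - n = 0 := by
      rcases mul_eq_zero.1 h2 with h4 | h4
      · exact h4
      · exact absurd h4 ht
    have hz1 : z = h1 ^ (K' - K) := by
      rw [hz, h3, zpow_zero, one_mul]
    -- `h1` commutes with `y`
    have h4 : (y * h1 * y⁻¹) ^ (K' - K) = h1 ^ (K' - K) := by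
      rw [conj_zpow, ← hz1, ← hzy.eq, mul_inv_cancel_right]
    have h5 := F3e.root_int hc hKK h4
    have h6 : Commute h1 y := by
      show h1 * y = y * h1
      rw [mul_inv_eq_iff_eq_mul] at h5
      exact h5.symm
    have h7 : Commute (h1 ^ K) (s g2) := by
      rw [hsy]
      exact (h6.zpow_left K).mul_right ((Commute.refl h1).zpow_left K)
    refine ⟨n, ?_⟩
    rw [← hnK]
    calc q ^ n * s g2 * (q ^ n)⁻¹ = q ^ n * (s g2 * h1 ^ K) * (h1 ^ K)⁻¹ * (q ^ n)⁻¹ := by group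
      _ = q ^ n * (h1 ^ K * s g2) * (h1 ^ K)⁻¹ * (q ^ n)⁻¹ := by rw [h7.eq]
      _ = q ^ n * h1 ^ K * s g2 * (q ^ n * h1 ^ K)⁻¹ := by group

end Pool.Agent.Lib.MP_6567fb_al
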