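import Pool.Agent.Lib.MP_6567fb_al.F3c

/-!
# MP_6567fb_al, module F3f

F3.5.  C := {g : s g commutes with q} is a subgroup; g ∈ C: s' g = s g.  If everything is in C: n = 0.  For h ∉ C the n with q^n s h q^-n = s' h is unique (roots: q^(n-m) commutes with s h, so q does).  Let h, h' ∉ C, with n ≠ n'.  For
every b: h g1^b h' has some n''.  Relation: (A⁻¹ q A)^α (P^b B q B⁻¹ P^-b)^β = q^γ, A = s h, B = s h', α = n''-n, β = n'-n'', γ = n'-n ≠ 0.  α = 0 or β = 0: roots.  Otherwise for b large use the gates of A⁻¹L and BL (IsPer.gate with y = A⁻¹, B; P^b moves the gate of BL by bl):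
p = L i far from both: apply both sides to p: the path from p to (A⁻¹qA)^α p starts in the negative direction, the path from p to q^γ (P^b B q B⁻¹ P^-b)^(-β) p in the positive direction.  Then all h ∉ C have the same n; for h ∈ C: h h0 ∉ C.
-/

set_option autoImplicit false

open scoped Pointwise
open Filter

namespace Pool.Agent.Lib.MP_6567fb_al

open MTree
variable {Γ G : Type} [Group Γ] [Group G] {π : Γ →* G}

/-- non-zero integer powers of `q` have an axis with the same image -/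
theorem F3f_zpow_axis {M : Subgroup Γ} {T : MTree M} {P q R : Γ} {l t k0 : ℕ} {L : ℤ → T.X}
    (h : IsPer π T P q R l t k0 L) {α : ℤ} (hα : α ≠ 0) :
    ∃ (l' : ℕ) (L' : ℤ → T.X), T.IsAxis (q ^ α) l' L' ∧ ∀ i, ∃ j, L' i = L j := by
  have hqM : q ∈ M := (Subgroup.mem_inf.mp h.q_mem).1
  obtain ⟨n, hn | hn⟩ := Int.eq_nat_or_neg α
  · refine ⟨n * t, L, ?_, fun i => ⟨i, rfl⟩⟩
    rw [hn, zpow_natCast]
    exact T.axis_pow hqM h.q_axis (by omega)
  · refine ⟨n * t, fun i => L (-i), ?_, fun i => ⟨-i, rfl⟩⟩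
    rw [hn, zpow_neg, zpow_natCast]
    exact T.axis_inv (M.pow_mem hqM n) (T.axis_pow hqM h.q_axis (by omega))

/-- the gate moves points towards itself, from above -/
theorem F3f_gate_move {M : Subgroup Γ} {T : MTree M} {P q R : Γ} {l t k0 : ℕ} {L : ℤ → T.X}
    (h : IsPer π T P q R l t k0 L) {y : Γ} (hy : y ∈ M) {i1 i2 : ℤ}
    (hg : ∀ i, (∃ j, (∀ k, T.Btw (L k) (L i) (T.act y (L j)))) ↔ i1 ≤ i ∧ i ≤ i2) {α : ℤ}
    (hα : α ≠ 0) (i : ℤ) :
    (i2 ≤ i → T.Btw (L i) (L i2) (T.act (y * q ^ α * y⁻¹) (L i))) ∧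
      (i ≤ i1 → T.Btw (L i) (L i1) (T.act (y * q ^ α * y⁻¹) (L i))) := by
  have hLl : T.IsLine L := h.axis.2.1
  have hG := T.tree
  have hqM : q ∈ M := (Subgroup.mem_inf.mp h.q_mem).1
  obtain ⟨l', L', hax, hran⟩ := F3f_zpow_axis h hα
  have hax' := T.axis_conj (M.zpow_mem hqM α) hy hax
  obtain ⟨j, -, -, hj3, -⟩ := T.disp' (M.mul_mem (M.mul_mem hy (M.zpow_mem hqM α)) (M.inv_mem hy))
    hax' (L i)
  obtain ⟨j', hj'⟩ := hran j
  have hj3' : T.Btw (L i) (T.act y (L j')) (T.act (y * q ^ α * y⁻¹) (L i)) := by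
    rw [← hj']; exact hj3
  -- projection of y L j' to L
  obtain ⟨p, ⟨i', hi'⟩, hp⟩ := TG.proj_exists hG (TG.conv_range_line hG hLl) ⟨L 0, 0, rfl⟩
    (T.act y (L j'))
  have hne : ∀ k, T.Btw (L k) (L i') (T.act y (L j')) := by
    intro k
    rw [hi']
    exact TG.btw_symm hG (hp (L k) ⟨k, rfl⟩)
  obtain ⟨h1, h2⟩ := (hg i').mp ⟨j', hne⟩
  constructor
  · intro hi
    have b1 : T.Btw (L i) (L i2) (L i') := TG.btw_symm hG (TG.line_btw hLl h2 hi)
    have b2 := (TG.btw_trans' hG b1 (hne i)).1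
    exact (TG.btw_trans' hG b2 hj3').1
  · intro hi
    have b1 : T.Btw (L i) (L i1) (L i') := TG.line_btw hLl hi h1
    have b2 := (TG.btw_trans' hG b1 (hne i)).1
    exact (TG.btw_trans' hG b2 hj3').1

/-- a point cannot be both in the negative and in the positive direction -/
theorem F3f_two_sides {X : Type} {G' : SimpleGraph X} (hG : G'.IsTree) {L : ℤ → X}
    (hL : TG.IsLine G' L) {i a b : ℤ} {z : X} (ha : a < i) (hb : i < b)
    (h1 : TG.Btw G' (L i) (L a) z) (h2 : TG.Btw G' (L i) (L b) z) : False := by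
  have b1 : TG.Btw G' (L i) (L (i - 1)) (L a) :=
    TG.btw_symm hG (TG.line_btw hL (by omega) (by omega))
  have b2 : TG.Btw G' (L i) (L (i + 1)) (L b) := TG.line_btw hL (by omega) (by omega)
  have c1 := (TG.btw_trans' hG b1 h1).1
  have c2 := (TG.btw_trans' hG b2 h2).1
  have e := TG.btw_point_unique hG (k := 1) c1 (by rw [hL]; omega) c2 (by rw [hL]; omega)
  have := TG.line_inj hL e
  omega

/-- the main geometric step -/
theorem F3f_key (hc : Ctx π) {M : Subgroup Γ} {T : MTree M}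
    (hT : T.IsSplitting π.ker) {P q R : Γ} {l t k0 : ℕ} {L : ℤ → T.X}
    (h : IsPer π T P q R l t k0 L) {y y' : Γ} (hy : y ∈ M) (hy' : y' ∈ M)
    (hyq : y * q * y⁻¹ ≠ q) (hyq' : y' * q * y'⁻¹ ≠ q) (γ : ℤ) :
    ∃ b : ℕ, ∀ α β : ℤ, α ≠ 0 → β ≠ 0 →
      y * q ^ α * y⁻¹ * (P ^ b * (y' * q ^ β * y'⁻¹) * (P ^ b)⁻¹) ≠ q ^ γ := by
  have hLl : T.IsLine L := h.axis.2.1
  have hG := T.tree
  have hqM : q ∈ M := (Subgroup.mem_inf.mp h.q_mem).1
  have hPM : P ∈ M := by
    rw [h.eq]; exact M.mul_mem (M.pow_mem hqM _) h.R_mem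
  have hPact : ∀ i, T.act P (L i) = L (i + (l : ℤ)) := h.axis.2.2
  have hl : 0 < l := h.axis.1
  obtain ⟨i1, i2, -, hg⟩ := h.gate hc hT hy hyq
  obtain ⟨j1, j2, -, hg'⟩ := h.gate hc hT hy' hyq'
  obtain ⟨b, hb⟩ : ∃ b : ℕ, i2 + 1 < j1 + b ∧ i2 + 1 < j1 + b + γ * t := by
    refine ⟨(i2 - j1).natAbs + (γ * t).natAbs + 2, ?_, ?_⟩
    · omega
    · omega
  have hbl : (b : ℤ) ≤ b * l := by
    have h1 : (b : ℤ) * 1 ≤ b * l := mul_le_mul_of_nonneg_left (by omega) (by omega)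
    linarith
  refine ⟨b, fun α β hα hβ heq => ?_⟩
  -- p = L (i2 + 1)
  set i : ℤ := i2 + 1 with hi
  have hPb : P ^ b ∈ M := M.pow_mem hPM b
  have hz : y * q ^ α * y⁻¹ = q ^ γ * (P ^ b * (y' * q ^ (-β) * y'⁻¹) * (P ^ b)⁻¹) := by
    rw [← heq]
    simp only [zpow_neg]
    group
  have hm1 : y' * q ^ (-β) * y'⁻¹ ∈ M := M.mul_mem (M.mul_mem hy' (M.zpow_mem hqM _)) (M.inv_mem hy')
  -- negative direction
  have n1 := (F3f_gate_move h hy hg hα i).1 (by omega)
  -- positive direction, before moving by P^b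
  have n2 := (F3f_gate_move h hy' hg' (neg_ne_zero.mpr hβ) (i - b * l)).2 (by omega)
  -- apply P ^ b
  have n3 : T.Btw (L i) (L (j1 + b * l)) (T.act (P ^ b * (y' * q ^ (-β) * y'⁻¹) * (P ^ b)⁻¹) (L i)) := by
    have h1 := (T.btw_act hPb _ _ _).mpr n2
    rw [F3c_tr_pow hPM hPact, F3c_tr_pow hPM hPact, sub_add_cancel] at h1
    have h2 : T.act (P ^ b * (y' * q ^ (-β) * y'⁻¹) * (P ^ b)⁻¹) (L i) =
        T.act (P ^ b) (T.act (y' * q ^ (-β) * y'⁻¹) (L (i - b * l))) := by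
      rw [T.act_mul _ (M.mul_mem hPb hm1) _ (M.inv_mem hPb), T.act_mul _ hPb _ hm1,
        F3c_tr_inv hPb (F3c_tr_pow hPM hPact b)]
    rw [h2]
    exact h1
  -- apply q ^ γ
  have hqγ : q ^ γ ∈ M := M.zpow_mem hqM γ
  have n4 : T.Btw (L (i + γ * t)) (L (j1 + b * l + γ * t)) (T.act (y * q ^ α * y⁻¹) (L i)) := by
    have h1 := (T.btw_act hqγ _ _ _).mpr n3
    rw [F3c_tr_zpow hqM h.q_act, F3c_tr_zpow hqM h.q_act] at h1
    rw [hz, T.act_mul _ hqγ _ (M.mul_mem (M.mul_mem hPb hm1) (M.inv_mem hPb))]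
    exact h1
  -- conclude
  rcases le_or_gt (i + γ * t) i with hle | hgt
  · have n5 : T.Btw (L (i + γ * t)) (L i) (L (j1 + b * l + γ * t)) :=
      TG.line_btw hLl hle (by omega)
    have n6 := (TG.btw_trans' hG n5 n4).2
    exact F3f_two_sides hG hLl (i := i) (a := i2) (b := j1 + b * l + γ * t) (by omega) (by omega) n1 n6
  · have n5 : T.Btw (L i) (L (i + γ * t)) (L (j1 + b * l + γ * t)) :=
      TG.line_btw hLl (by omega) (by omega)
    have hne : L (i + γ * t) ≠ L (j1 + b * l + γ * t) := by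
      intro e
      have := TG.line_inj hLl e
      omega
    have n6 := (TG.btw_glue hG n5 n4 hne).2
    exact F3f_two_sides hG hLl (i := i) (a := i2) (b := j1 + b * l + γ * t) (by omega) (by omega) n1 n6

theorem merging (hc : Ctx π) {M : Subgroup Γ} {T : MTree M}
    (hT : T.IsSplitting π.ker) {s s' : G →* Γ} (hs : SecIn π M s) (hs' : SecIn π M s') {g1 : G}
    {q R : Γ} {l t k0 : ℕ} {L : ℤ → T.X} (hper : IsPer π T (s g1) q R l t k0 L)
    (heq : s' g1 = s g1) (h : ∀ g, ∃ n : ℤ, q ^ n * s g * (q ^ n)⁻¹ = s' g) :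
    ∃ n : ℤ, ∀ g, q ^ n * s g * (q ^ n)⁻¹ = s' g := by
  have _ := hs'
  -- q commutes with P
  have hqP : Commute q (s g1) := by
    rw [hper.eq]
    exact ((Commute.refl q).pow_right k0).mul_right hper.R_q.symm
  by_cases hall : ∀ g, s g * q * (s g)⁻¹ = q
  · refine ⟨0, fun g => ?_⟩
    obtain ⟨n, hn⟩ := h g
    have h1 : Commute (s g) q := mul_inv_eq_iff_eq_mul.mp (hall g)
    have h2 : q ^ n * s g = s g * q ^ n := ((h1.zpow_right n).eq).symm
    rw [zpow_zero, one_mul, inv_one, mul_one, ← hn, h2, mul_inv_cancel_right]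
  · push Not at hall
    obtain ⟨h0, hh0⟩ := hall
    obtain ⟨n, hn⟩ := h h0
    refine ⟨n, fun g => ?_⟩
    obtain ⟨n', hn'⟩ := h g
    by_cases hg : s g * q * (s g)⁻¹ = q
    · have h1 : Commute (s g) q := mul_inv_eq_iff_eq_mul.mp hg
      have h2 : q ^ n' * s g = s g * q ^ n' := ((h1.zpow_right n').eq).symm
      have h3 : q ^ n * s g = s g * q ^ n := ((h1.zpow_right n).eq).symm
      rw [← hn', h2, h3, mul_inv_cancel_right, mul_inv_cancel_right]
    · rcases eq_or_ne n' n with hnn | hnn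
      · rw [← hnn]; exact hn'
      exfalso
      -- notation
      generalize hA : s h0 = A at hh0 hn
      generalize hB : s g = B at hg hn'
      generalize hP : s g1 = P at hqP hper heq
      have hAM : A ∈ M := by rw [← hA]; exact hs.mem h0
      have hBM : B ∈ M := by rw [← hB]; exact hs.mem g
      have hAq : A⁻¹ * q * (A⁻¹)⁻¹ ≠ q := by
        intro h1
        apply hh0
        calc A * q * A⁻¹ = A * (A⁻¹ * q * (A⁻¹)⁻¹) * A⁻¹ := by rw [h1]
          _ = q := by group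
      obtain ⟨b, hb⟩ := F3f_key hc hT hper (M.inv_mem hAM) hBM hAq hg (n' - n)
      obtain ⟨n'', hn''⟩ := h (h0 * g1 ^ b * g)
      rw [map_mul, map_mul, map_pow, map_mul, map_mul, map_pow, hA, hB, hP, heq, ← hn, ← hn'] at hn''
      have hqb : Commute (q ^ n') (P ^ b) := (hqP.pow_right b).zpow_left n'
      have hrel : A⁻¹ * q ^ (n'' - n) * (A⁻¹)⁻¹ * (P ^ b * (B * q ^ (n' - n'') * B⁻¹) * (P ^ b)⁻¹) =
          q ^ (n' - n) := by
        have e1 : A⁻¹ * q ^ (n'' - n) * (A⁻¹)⁻¹ * (P ^ b * (B * q ^ (n' - n'') * B⁻¹) * (P ^ b)⁻¹) =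
            A⁻¹ * (q ^ n)⁻¹ * (q ^ n'' * (A * P ^ b * B) * (q ^ n'')⁻¹) * q ^ n' * B⁻¹ * (P ^ b)⁻¹ := by
          simp only [zpow_sub]
          group
        have e2 : A⁻¹ * (q ^ n)⁻¹ * (q ^ n * A * (q ^ n)⁻¹ * P ^ b * (q ^ n' * B * (q ^ n')⁻¹)) * q ^ n' *
            B⁻¹ * (P ^ b)⁻¹ = (q ^ n)⁻¹ * (P ^ b * q ^ n') * (P ^ b)⁻¹ := by
          group
        rw [e1, hn'', e2, ← hqb.eq, zpow_sub, (Commute.refl q).zpow_zpow n' n |>.inv_right.eq]
        group
      rcases eq_or_ne (n'' - n) 0 with hα | hα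
      · -- B commutes with q
        rw [hα, zpow_zero, mul_one, mul_inv_cancel, one_mul] at hrel
        have hβ : n' - n'' = n' - n := by omega
        rw [hβ] at hrel
        have hqc : Commute (q ^ (n' - n)) (P ^ b) := (hqP.pow_right b).zpow_left _
        apply hg
        apply F3c_zroots hc (k := n' - n) (by omega)
        rw [conj_zpow]
        calc B * q ^ (n' - n) * B⁻¹ =
            (P ^ b)⁻¹ * (P ^ b * (B * q ^ (n' - n) * B⁻¹) * (P ^ b)⁻¹) * P ^ b := by group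
          _ = (P ^ b)⁻¹ * (q ^ (n' - n) * P ^ b) := by rw [hrel]; group
          _ = q ^ (n' - n) := by rw [hqc.eq, inv_mul_cancel_left]
      · rcases eq_or_ne (n' - n'') 0 with hβ | hβ
        · rw [hβ, zpow_zero, mul_one, mul_inv_cancel, mul_one, mul_inv_cancel, mul_one] at hrel
          have hα' : n'' - n = n' - n := by omega
          rw [hα'] at hrel
          apply hAq
          apply F3c_zroots hc (k := n' - n) (by omega)
          rw [conj_zpow]
          exact hrel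
        · exact hb _ _ hα hβ hrel

end Pool.Agent.Lib.MP_6567fb_al
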