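import Pool.Agent.Lib.MP_6567fb_al.F3b
import Pool.Agent.Lib.MP_6567fb_al.F3e
import Pool.Agent.Lib.MP_6567fb_al.F3f

/-!
# MP_6567fb_al, module F3g

Theorem F3.  Case split: is there z ∈ H, z ≠ 1, commuting with s g1 (exists_per) or not (nonper).  stay: both alternatives give CJ (s g1) (s' g1).  new, non-periodic: v0 with v0 P v0⁻¹ = P' is unique; g2 with v0 s g2 v0⁻¹ ≠ s' g2 (¬CJS); the x of nonper is v0 and
(roots) v0 (s g2)^(3b) v0⁻¹ = (s' g2)^(3b), b > 0: contradiction.  new, periodic: conjugate s' so that s' g1 = s g1 (CJ, CJS invariant); suppose for every g2 not AA: per_powers, merging: CJS.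
-/

set_option autoImplicit false

open scoped Pointwise
open Filter

namespace Pool.Agent.Lib.MP_6567fb_al

open MTree
variable {Γ G : Type} [Group Γ] [Group G] {π : Γ →* G}

/-- a hyperbolic element of `M` has an axis -/
theorem F3g_axis (hc : Ctx π) {M : Subgroup Γ} {T : MTree M} (hT : T.IsSplitting π.ker) {P : Γ}
    (hP : P ∈ M) (hy : T.Hyp P) : ∃ (l : ℕ) (L : ℤ → T.X), T.IsAxis P l L := by
  rcases T.ell_or_axis (hT.noInv hc) hP with ⟨x, hx⟩ | h
  · exact absurd hx (hy x)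
  · exact h

theorem w_conj_stay (hc : Ctx π) {M : Subgroup Γ} (hM : Full π M) {T : MTree M}
    (hT : T.IsSplitting π.ker) {s s' : G →* Γ} (hs : SecIn π M s) (hs' : SecIn π M s') {g1 : G}
    (g2 : G) (hy : T.Hyp (s g1)) (hy' : T.Hyp (s' g1))
    (h : ¬ CJ (M ⊓ π.ker) (s g1) (s' g1)) :
    AA (fun b a => ¬ CJ (M ⊓ π.ker) (s (wd g1 g2 b a)) (s' (wd g1 g2 b a))) := by
  by_cases hz : ∃ z ∈ M ⊓ π.ker, z ≠ 1 ∧ z * s g1 = s g1 * z
  · obtain ⟨l, L, hL⟩ := F3g_axis hc hT (hs.mem g1) hy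
    obtain ⟨q, R, t, k0, hper⟩ := exists_per hc hT (hs.mem g1) hL hz
    refine (per_alt hc hM hT hs hs' g2 hper hy').mono ?_
    intro b a hba hcj
    rcases hba hcj with ⟨x, hx, hx1, -⟩ | ⟨-, ⟨u, hu, hu1⟩, -⟩
    · exact h ⟨x, hx, hx1⟩
    · exact h ⟨u, hu, hu1⟩
  · have hnp : ∀ z ∈ M ⊓ π.ker, z * s g1 = s g1 * z → z = 1 := by
      intro z hzm hzc
      by_contra hne
      exact hz ⟨z, hzm, hne, hzc⟩
    refine (nonper hc hM hT hs hs' g2 hy hy' hnp).mono ?_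
    intro b a hba hcj
    obtain ⟨x, hx, hx1, -⟩ := hba hcj
    exact h ⟨x, hx, hx1⟩

theorem w_conj_new (hc : Ctx π) {M : Subgroup Γ} (hM : Full π M) {T : MTree M}
    (hT : T.IsSplitting π.ker) {s s' : G →* Γ} (hs : SecIn π M s) (hs' : SecIn π M s') {g1 : G}
    (hy : T.Hyp (s g1)) (hy' : T.Hyp (s' g1)) (hcj : CJ (M ⊓ π.ker) (s g1) (s' g1))
    (h : ¬ CJS (M ⊓ π.ker) s s') :
    ∃ g2, AA (fun b a => ¬ CJ (M ⊓ π.ker) (s (wd g1 g2 b a)) (s' (wd g1 g2 b a))) := by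
  obtain ⟨v, hv, hv1⟩ := hcj
  by_cases hz : ∃ z ∈ M ⊓ π.ker, z ≠ 1 ∧ z * s g1 = s g1 * z
  · -- periodic case
    obtain ⟨l, L, hL⟩ := F3g_axis hc hT (hs.mem g1) hy
    obtain ⟨q, R, t, k0, hper⟩ := exists_per hc hT (hs.mem g1) hL hz
    have hvM : v ∈ M := (Subgroup.mem_inf.mp hv).1
    have hvK : π v = 1 := MonoidHom.mem_ker.mp (Subgroup.mem_inf.mp hv).2
    obtain ⟨s'', hs''⟩ : ∃ s'' : G →* Γ, ∀ g, s'' g = v⁻¹ * s' g * v := by
      refine ⟨(MulAut.conj v⁻¹).toMonoidHom.comp s', fun g => ?_⟩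
      change v⁻¹ * s' g * (v⁻¹)⁻¹ = _
      rw [inv_inv]
    have hsec'' : SecIn π M s'' :=
      { sec := fun g => by rw [hs'', map_mul, map_mul, map_inv, hvK, inv_one, one_mul, mul_one, hs'.sec g]
        mem := fun g => by rw [hs'']; exact M.mul_mem (M.mul_mem (M.inv_mem hvM) (hs'.mem g)) hvM }
    have heq : s'' g1 = s g1 := by
      rw [hs'', ← hv1]; group
    have hcc : ∀ g, s' g = v * s'' g * v⁻¹ := by
      intro g
      rw [hs'']; group
    by_contra hno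
    push Not at hno
    have hall : ∀ g, ∃ n : ℤ, q ^ n * s g * (q ^ n)⁻¹ = s'' g := by
      intro g
      apply per_powers hc hM hT hs hsec'' hper heq
      intro hAA
      apply hno g
      refine hAA.mono ?_
      intro b a hba hcj
      apply hba
      obtain ⟨x, hx, hx1⟩ := hcj
      refine ⟨v⁻¹ * x, mul_mem (inv_mem hv) hx, ?_⟩
      rw [hs'', ← hx1]; group
    obtain ⟨n, hn⟩ := merging hc hT hs hsec'' hper heq hall
    apply h
    refine ⟨v * q ^ n, mul_mem hv (zpow_mem hper.q_mem n), fun g => ?_⟩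
    rw [hcc, ← hn]; group
  · -- non-periodic case
    have hnp : ∀ z ∈ M ⊓ π.ker, z * s g1 = s g1 * z → z = 1 := by
      intro z hzm hzc
      by_contra hne
      exact hz ⟨z, hzm, hne, hzc⟩
    have hg2 : ∃ g2, v * s g2 * v⁻¹ ≠ s' g2 := by
      by_contra hno
      push Not at hno
      exact h ⟨v, hv, hno⟩
    obtain ⟨g2, hg2⟩ := hg2
    refine ⟨g2, ?_⟩
    have hb : AA (fun b _ => 0 < b) :=
      (eventually_gt_atTop 0).mono (fun b hb => Eventually.of_forall (fun _ => hb))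
    refine ((nonper hc hM hT hs hs' g2 hy hy' hnp).and hb).mono ?_
    rintro b a ⟨hba, hb0⟩ hcj
    obtain ⟨x, hx, hx1, hx2⟩ := hba hcj
    have hxv : v⁻¹ * x = 1 := by
      apply hnp _ (mul_mem (inv_mem hv) hx)
      have e1 : s g1 = v⁻¹ * (x * s g1 * x⁻¹) * v := by rw [hx1, ← hv1]; group
      calc v⁻¹ * x * s g1 = v⁻¹ * (x * s g1 * x⁻¹) * v * (v⁻¹ * x) := by group
        _ = s g1 * (v⁻¹ * x) := by rw [← e1]
    have hxv' : x = v := by
      have := inv_mul_eq_one.mp hxv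
      exact this.symm
    subst hxv'
    apply hg2
    apply hc.roots _ _ (3 * b) (by omega)
    rw [conj_pow]
    have e2 : s (wd g1 g2 b a) = s g1 ^ (3 * a) * s g2 ^ (3 * b) := by
      rw [wd, map_mul, map_pow, map_pow]
    have e3 : s' (wd g1 g2 b a) = s' g1 ^ (3 * a) * s' g2 ^ (3 * b) := by
      rw [wd, map_mul, map_pow, map_pow]
    rw [e2, e3, ← hx1, conj_pow] at hx2
    have e4 : x * (s g1 ^ (3 * a) * s g2 ^ (3 * b)) * x⁻¹ =
        x * s g1 ^ (3 * a) * x⁻¹ * (x * s g2 ^ (3 * b) * x⁻¹) := by group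
    rw [e4] at hx2
    exact mul_left_cancel hx2

end Pool.Agent.Lib.MP_6567fb_al
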