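import Pool.Agent.Lib.MP_6567fb_al.T3

/-!
# MP_6567fb_al, module T5

Serre: a finitely generated group of elliptic elements has a fixed vertex.
-/

set_option autoImplicit false

open scoped Pointwise

namespace Pool.Agent.Lib.MP_6567fb_al

open MTree
namespace MTree
variable {Γ : Type} [Group Γ] {M : Subgroup Γ} (T : MTree M)

theorem serre (hni : T.NoInv) (D : Subgroup Γ) (hD : D ≤ M) (hfg : D.FG)
    (h : ∀ d ∈ D, ∃ x, T.act d x = x) : T.Ell (D : Set Γ) := by
  obtain ⟨S, rfl⟩ := hfg
  have key : ∃ x, ∀ d ∈ S, T.act d x = x := by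
    rcases S.eq_empty_or_nonempty with hS | hS
    · subst hS
      obtain ⟨x, hx⟩ := h 1 (Subgroup.one_mem _)
      exact ⟨x, fun d hd => absurd hd (Finset.notMem_empty d)⟩
    · have hm : ∀ d ∈ S, d ∈ Subgroup.closure (S : Set Γ) := fun d hd => Subgroup.subset_closure hd
      obtain ⟨x, hx⟩ := TG.helly T.tree S (fun d => T.Fix d) hS
        (fun d hd => T.fix_conv (hD (hm d hd)))
        (fun d hd d' hd' => T.common_fix hni (hD (hm d hd)) (hD (hm d' hd')) (h d (hm d hd))
          (h d' (hm d' hd')) (h (d * d') (Subgroup.mul_mem _ (hm d hd) (hm d' hd'))))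
      refine ⟨x, fun d hd => ?_⟩
      have := Set.mem_iInter₂.1 hx d hd
      exact this
  obtain ⟨x, hx⟩ := key
  refine ⟨x, fun d hd => ?_⟩
  have hle : Subgroup.closure (S : Set Γ) ≤ T.stab x := by
    rw [Subgroup.closure_le]
    intro d hd
    exact ⟨hD (Subgroup.subset_closure hd), hx d hd⟩
  exact (hle hd).2

end MTree

end Pool.Agent.Lib.MP_6567fb_al
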