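import Pool.Agent.Lib.MP_6567fb_al.F2g
import Pool.Agent.Lib.MP_6567fb_al.F3g
import Pool.Agent.Lib.MP_6567fb_al.T5

/-!
# MP_6567fb_al, module F1b

Theorem F1: a generic ultrafilter exists.  Call a predicate `P` on `G` stable if `P g1` implies
`P (w(b,a))` for almost all `(b,a)`, for every `g2`.  The sets `A` such that every stable non-empty predicate
contains a stable non-empty predicate contained in `A` form a proper filter; all good sets belong to it.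
-/

set_option autoImplicit false

open scoped Pointwise
open Filter

namespace Pool.Agent.Lib.MP_6567fb_al

open MTree
variable {Γ G : Type} [Group Γ] [Group G] {π : Γ →* G}

namespace F1b

/-- stable predicate -/
def Stb (P : G → Prop) : Prop := ∀ g1, P g1 → ∀ g2, AA (fun b a => P (wd g1 g2 b a))

/-- `A` can be reached from every stable non-empty predicate -/
def Reach (A : Set G) : Prop :=
  ∀ P : G → Prop, Stb P → (∃ g, P g) →
    ∃ P' : G → Prop, Stb P' ∧ (∃ g, P' g) ∧ (∀ g, P' g → P g) ∧ ∀ g, P' g → g ∈ A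

/-- the filter of reachable sets -/
def genF (G : Type) [Group G] : Filter G where
  sets := {A | Reach A}
  univ_sets := fun P hP hne => ⟨P, hP, hne, fun _ h => h, fun _ _ => Set.mem_univ _⟩
  sets_of_superset := by
    intro A B hA hAB P hP hne
    obtain ⟨P', h1, h2, h3, h4⟩ := hA P hP hne
    exact ⟨P', h1, h2, h3, fun g hg => hAB (h4 g hg)⟩
  inter_sets := by
    intro A B hA hB P hP hne
    obtain ⟨P', h1, h2, h3, h4⟩ := hA P hP hne
    obtain ⟨P'', k1, k2, k3, k4⟩ := hB P' h1 h2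
    exact ⟨P'', k1, k2, fun g hg => h3 g (k3 g hg), fun g hg => ⟨h4 g (k3 g hg), k4 g hg⟩⟩

theorem mem_genF {A : Set G} : A ∈ genF G ↔ Reach A := Iff.rfl

theorem genF_neBot : (genF G).NeBot := by
  rw [Filter.neBot_iff]
  intro hbot
  have h : (∅ : Set G) ∈ genF G := by
    rw [hbot]
    exact Filter.mem_bot
  have h' := mem_genF.mp h
  obtain ⟨P', _, ⟨g, hg⟩, _, h4⟩ := h' (fun _ => True) (fun _ _ _ => AA.of_forall (fun _ _ => trivial))
    ⟨1, trivial⟩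
  exact (h4 g hg).elim

/-- reaching a set by one step -/
theorem reach_step {Q : G → Prop} (P : G → Prop) (hP : Stb P)
    (stay : ∀ g1, P g1 → Q g1 → ∀ g2, AA (fun b a => P (wd g1 g2 b a) → Q (wd g1 g2 b a))) :
    Stb (fun g => P g ∧ Q g) := by
  rintro g1 ⟨h1, h2⟩ g2
  exact ((hP g1 h1 g2).and (stay g1 h1 h2 g2)).mono (fun b a h => ⟨h.1, h.2 h.1⟩)

/-- a section whose image is not elliptic has a hyperbolic value -/
theorem exists_hyp (hc : Ctx π) {M : Subgroup Γ} {T : MTree M} (hni : T.NoInv)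
    {s : G →* Γ} (hs : SecIn π M s) (hne : ¬ T.Ell (Set.range s)) : ∃ g, T.Hyp (s g) := by
  by_contra hcon
  push Not at hcon
  apply hne
  have hfg : s.range.FG := by
    have hG : Group.FG G := hc.fgG
    exact (Group.fg_iff_subgroup_fg _).mp (Group.fg_range s)
  have h := T.serre hni s.range (by rintro _ ⟨g, rfl⟩; exact hs.mem g) hfg (by
    rintro _ ⟨g, rfl⟩
    have h2 := hcon g
    unfold MTree.Hyp at h2
    push Not at h2
    exact h2)
  rwa [MonoidHom.coe_range] at h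

theorem reach_hyp (hc : Ctx π) {M : Subgroup Γ} {T : MTree M} (hT : T.IsSplitting π.ker)
    (hni : T.NoInv) {s : G →* Γ} (hs : SecIn π M s) (hne : ¬ T.Ell (Set.range s))
    (P : G → Prop) (hP : Stb P) (hex : ∃ g, P g) :
    Stb (fun g => P g ∧ T.Hyp (s g)) ∧ ∃ g, P g ∧ T.Hyp (s g) := by
  constructor
  · exact reach_step P hP (fun g1 _ h2 g2 => (w_hyp_stay hc hT hs g2 h2).mono (fun _ _ h _ => h))
  · obtain ⟨g1, h1⟩ := hex
    by_cases h2 : T.Hyp (s g1)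
    · exact ⟨g1, h1, h2⟩
    · obtain ⟨g2, h3⟩ := exists_hyp hc hni hs hne
      obtain ⟨b, a, hba⟩ := ((hP g1 h1 g2).and (w_hyp_new hc hT hs h2 h3)).exists
      exact ⟨_, hba.1, hba.2⟩

theorem reach_sub {Y : Subgroup G} (hY : Isol Y) (hne : Y ≠ ⊤) (P : G → Prop) (hP : Stb P)
    (hex : ∃ g, P g) : Stb (fun g => P g ∧ g ∉ Y) ∧ ∃ g, P g ∧ g ∉ Y := by
  constructor
  · exact reach_step P hP (fun g1 _ h2 g2 => (w_isol_stay hY g2 h2).mono (fun _ _ h _ => h))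
  · obtain ⟨g1, h1⟩ := hex
    by_cases h2 : g1 ∈ Y
    · have h3 : ∃ g2, g2 ∉ Y := by
        by_contra hcon
        push Not at hcon
        exact hne (eq_top_iff.mpr (fun g _ => hcon g))
      obtain ⟨g2, h3⟩ := h3
      obtain ⟨b, a, hba⟩ := ((hP g1 h1 g2).and (w_isol_new hY h2 h3)).exists
      exact ⟨_, hba.1, hba.2⟩
    · exact ⟨g1, h1, h2⟩

/-- a non-empty bounded set of values has a maximum -/
theorem exists_max {A : Type} (R : A → ℕ → Prop) (N : ℕ) (hb : ∀ x n, R x n → n ≤ N)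
    (hne : ∃ x n, R x n) : ∃ x n, R x n ∧ ∀ y m, R y m → m ≤ n := by
  classical
  have h1 : ({n | ∃ x, R x n} : Set ℕ).Nonempty := by
    obtain ⟨x, n, h⟩ := hne
    exact ⟨n, x, h⟩
  have h2 : BddAbove ({n | ∃ x, R x n} : Set ℕ) := ⟨N, by rintro n ⟨x, h⟩; exact hb x n h⟩
  obtain ⟨x, hx⟩ := Nat.sSup_mem h1 h2
  exact ⟨x, _, hx, fun y m hm => le_csSup h2 ⟨y, hm⟩⟩

theorem conj_pow_eq {D : Subgroup Γ} {x : Γ} (h : MulAut.conj x • D = D) (n : ℕ) :
    MulAut.conj (x ^ n) • D = D := by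
  induction n with
  | zero => rw [pow_zero, map_one, one_smul]
  | succ n ih => rw [pow_succ, map_mul, mul_smul, h, ih]

theorem inv_of_wd (hc : Ctx π) {D : Subgroup Γ} (hD : IsFactor π.ker π.ker D) {s : G →* Γ} {g1 g2 : G}
    {b a : ℕ} (hb : 0 < b) (h1 : MulAut.conj (s g1) • D = D)
    (h2 : MulAut.conj (s (wd g1 g2 b a)) • D = D) : MulAut.conj (s g2) • D = D := by
  have h3 : MulAut.conj ((s g2) ^ (3 * b)) • D = D := by
    have h4 : s (wd g1 g2 b a) = (s g1) ^ (3 * a) * (s g2) ^ (3 * b) := by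
      unfold wd
      rw [map_mul, map_pow, map_pow]
    rw [h4, map_mul, mul_smul] at h2
    have h5 := conj_pow_eq h1 (3 * a)
    have h6 : MulAut.conj ((s g1) ^ (3 * a)) • (MulAut.conj ((s g2) ^ (3 * b)) • D) =
        MulAut.conj ((s g1) ^ (3 * a)) • D := by rw [h2, h5]
    exact smul_left_cancel _ h6
  exact fac_pure hc hD (by omega) h3

theorem reach_supp (hc : Ctx π) {M : Subgroup Γ} (hM : Full π M) {Ω : Set (Subgroup Γ)}
    (hΩ : IsProper π.ker M Ω) {T : MTree M} (hT : T.IsSplitting π.ker) (hr : T.Rel Ω)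
    {s : G →* Γ} (hs : SecIn π M s) (P : G → Prop)
    (hP : Stb (fun g => P g ∧ T.Hyp (s g))) (hex : ∃ g, P g ∧ T.Hyp (s g)) :
    Stb (fun g => (P g ∧ T.Hyp (s g)) ∧ ∃ D, IsSupp π.ker (M ⊓ π.ker) Ω (s g) D ∧
      ∀ g', MulAut.conj (s g') • D = D) ∧
    ∃ g, (P g ∧ T.Hyp (s g)) ∧ ∃ D, IsSupp π.ker (M ⊓ π.ker) Ω (s g) D ∧
      ∀ g', MulAut.conj (s g') • D = D := by
  constructor
  · apply reach_step _ hP
    rintro g1 ⟨_, hy⟩ ⟨D1, hD1, hinv⟩ g2
    refine (supp_mono hc hM hΩ hT hr hs g2 hy hD1).mono ?_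
    intro b a h hPw
    obtain ⟨D, hD⟩ := exists_supp hc hM hΩ hT hr (hs.mem (wd g1 g2 b a)) hPw.2
    have h1 : D1 ≤ D := h D hD
    have h2 : D ≤ D1 := hD.min D1 hD1.ofac hD1.ne (hinv _)
    have h3 : D = D1 := le_antisymm h2 h1
    exact ⟨D, hD, by rw [h3]; exact hinv⟩
  · have hfacH : IsFactor π.ker π.ker (M ⊓ π.ker) := hM.fac
    have hfac : ∀ D, IsOFactor π.ker (M ⊓ π.ker) Ω D → IsFactor π.ker π.ker D := fun D hD =>
      fac_trans hc le_rfl hfacH hD.fac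
    obtain ⟨g1, n, ⟨hg1, D1, hD1, hn⟩, hmax⟩ := exists_max
      (fun (g : G) (n : ℕ) => (P g ∧ T.Hyp (s g)) ∧ ∃ D, IsSupp π.ker (M ⊓ π.ker) Ω (s g) D ∧ n = rk D)
      (rk (M ⊓ π.ker))
      (by
        rintro g n ⟨_, D, hD, rfl⟩
        exact rk_le hc hfacH (hfac D hD.ofac) (fac_le hD.ofac.fac))
      (by
        obtain ⟨g, hg⟩ := hex
        obtain ⟨D, hD⟩ := exists_supp hc hM hΩ hT hr (hs.mem g) hg.2
        exact ⟨g, rk D, hg, D, hD, rfl⟩)
    refine ⟨g1, hg1, D1, hD1, ?_⟩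
    intro g2
    have hb : AA (fun b _ => 0 < b) :=
      (Filter.eventually_gt_atTop 0).mono (fun b hb => Filter.Eventually.of_forall (fun _ => hb))
    obtain ⟨b, a, ⟨h1, h2⟩, h3⟩ :=
      (((hP g1 hg1 g2).and (supp_mono hc hM hΩ hT hr hs g2 hg1.2 hD1)).and hb).exists
    obtain ⟨D, hD⟩ := exists_supp hc hM hΩ hT hr (hs.mem (wd g1 g2 b a)) h1.2
    have h4 : D1 ≤ D := h2 D hD
    have h5 : rk D ≤ rk D1 := by
      rw [← hn]
      exact hmax _ _ ⟨h1, D, hD, rfl⟩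
    have h6 : D = D1 := fac_eq_of_rk hc hfacH hD.ofac.fac hD1.ofac.fac h4 h5
    have h7 : MulAut.conj (s (wd g1 g2 b a)) • D1 = D1 := by
      have := hD.inv
      rwa [h6] at this
    exact inv_of_wd hc (hfac D1 hD1.ofac) h3 hD1.inv h7

theorem reach_conj (hc : Ctx π) {M : Subgroup Γ} (hM : Full π M) {T : MTree M}
    (hT : T.IsSplitting π.ker) {s s' : G →* Γ} (hs : SecIn π M s) (hs' : SecIn π M s')
    (h : ¬ CJS (M ⊓ π.ker) s s') (P : G → Prop)
    (hP : Stb (fun g => (P g ∧ T.Hyp (s g)) ∧ T.Hyp (s' g)))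
    (hex : ∃ g, (P g ∧ T.Hyp (s g)) ∧ T.Hyp (s' g)) :
    Stb (fun g => ((P g ∧ T.Hyp (s g)) ∧ T.Hyp (s' g)) ∧ ¬ CJ (M ⊓ π.ker) (s g) (s' g)) ∧
    ∃ g, ((P g ∧ T.Hyp (s g)) ∧ T.Hyp (s' g)) ∧ ¬ CJ (M ⊓ π.ker) (s g) (s' g) := by
  constructor
  · apply reach_step _ hP
    rintro g1 ⟨⟨_, hy⟩, hy'⟩ hcj g2
    exact (w_conj_stay hc hM hT hs hs' g2 hy hy' hcj).mono (fun _ _ h _ => h)
  · obtain ⟨g1, h1⟩ := hex
    by_cases h2 : CJ (M ⊓ π.ker) (s g1) (s' g1)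
    · obtain ⟨g2, h3⟩ := w_conj_new hc hM hT hs hs' h1.1.2 h1.2 h2 h
      obtain ⟨b, a, hba⟩ := ((hP g1 h1 g2).and h3).exists
      exact ⟨_, hba.1, hba.2⟩
    · exact ⟨g1, h1, h2⟩

end F1b

open F1b in
theorem exists_gen (hc : Ctx π) : ∃ U : Ultrafilter G, Gen π U := by
  have hnb : (genF G).NeBot := genF_neBot
  refine ⟨Ultrafilter.of (genF G), ?_⟩
  have hle : ((Ultrafilter.of (genF G) : Ultrafilter G) : Filter G) ≤ genF G := Ultrafilter.of_le _
  have key : ∀ A : Set G, Reach A → ∀ᶠ g in ((Ultrafilter.of (genF G) : Ultrafilter G) : Filter G), g ∈ A :=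
    fun A hA => hle (mem_genF.mpr hA)
  refine ⟨?_, ?_, ?_, ?_⟩
  · intro M T s hM hT hs hne
    apply key {g | T.Hyp (s g)}
    intro P hP hex
    obtain ⟨h1, h2⟩ := reach_hyp hc hT (hT.noInv hc) hs hne P hP hex
    exact ⟨_, h1, h2, fun _ h => h.1, fun _ h => h.2⟩
  · intro Y hY hne
    apply key {g | g ∉ Y}
    intro P hP hex
    obtain ⟨h1, h2⟩ := reach_sub hY hne P hP hex
    exact ⟨_, h1, h2, fun _ h => h.1, fun _ h => h.2⟩
  · intro M Ω T s hM hΩ hT hr hs hne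
    apply key {g | ∃ D, IsSupp π.ker (M ⊓ π.ker) Ω (s g) D ∧ ∀ g', MulAut.conj (s g') • D = D}
    intro P hP hex
    obtain ⟨h1, h2⟩ := reach_hyp hc hT (hT.noInv hc) hs hne P hP hex
    obtain ⟨h3, h4⟩ := reach_supp hc hM hΩ hT hr hs P h1 h2
    exact ⟨_, h3, h4, fun _ h => h.1.1, fun _ h => h.2⟩
  · intro M T s s' hM hT hs hs' hne hne' hcj
    apply key {g | ¬ CJ (M ⊓ π.ker) (s g) (s' g)}
    intro P hP hex
    obtain ⟨h1, h2⟩ := reach_hyp hc hT (hT.noInv hc) hs hne P hP hex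
    obtain ⟨h3, h4⟩ := reach_hyp hc hT (hT.noInv hc) hs' hne' _ h1 h2
    obtain ⟨h5, h6⟩ := reach_conj hc hM hT hs hs' hcj P h3 h4
    exact ⟨_, h5, h6, fun _ h => h.1.1.1, fun _ h => h.2⟩

end Pool.Agent.Lib.MP_6567fb_al
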