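import Pool.Agent.Lib.MP_6567fb_al.T2b
import Pool.Agent.Lib.MP_6567fb_al.T3

/-!
# MP_6567fb_al, module T4

The axis of P^a h.  Ends: L⁺ = rays (L i)_{i ≥ N}; hdiv says that h does not map the positive end of L to the
negative end, i.e. for no c, N does h (L i) = L (c - i) hold for all i ≥ N.  axis_mul: the geodesics h⁻¹ L⁻ and L⁺: the rays
(h⁻¹ L(-i))_i and (L i)_i have different ends, so for i0 large the path h⁻¹ L(-i0) ... L(i0) is a geodesic whose first and last
parts are on the two rays: there is a constant with dist(h⁻¹ L(-i), L j) = i + j + const for i,j ≥ i0 and L(i0) is between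
h⁻¹L(-i0) and L j, h⁻¹ L(-i0) between h⁻¹ L(-i) and L(i0).  W = P^a h maps h⁻¹ L(-i0) to P^a L(-i0) = L(a l - i0), which is beyond
L(i0) for a large: so [h⁻¹L(-i0), L(al - i0)] is a fundamental domain of the axis of W (coherent), its length is al - i0 - i0 +
dist(h⁻¹L(-i0), L(i0)).  Parametrise L' so that L' i = L i for i0 ≤ i ≤ al - i0.  axis_mul_bad: if Q^b and Q^b' both map the
positive end to the negative end then Q^(b-b') fixes ... h1 and h2 give Q^(b'-b) (L(c - i)) = L(c' - i) for large i (b < b'):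
Q^(b'-b) translates the end L⁻; if c = c' it fixes vertices, so Q fixes (Pure) all L(c-i), so Q^b L i = L(c-i) = Q^b L(c-i), L i = L(c-i)
false. If c ≠ c': Q^(b'-b) is hyperbolic with an axis containing the negative end of L; so Q is hyperbolic with the same axis (axis_pow,
axis_unique) and Q^b fixes its two ends; but Q^b maps the positive end of L to the negative end of L, which is an end of the axis: so
L⁺ = L⁻ as ends, false.
-/

set_option autoImplicit false

open scoped Pointwise

namespace Pool.Agent.Lib.MP_6567fb_al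

open MTree

namespace T4aux
open TG
variable {X : Type} {G : SimpleGraph X}

/-- two points at the same distance on the same interval are equal -/
theorem btw_unique (hG : G.IsTree) {a b p q : X} (hp : Btw G a p b) (hq : Btw G a q b)
    (h : G.dist a p = G.dist a q) : p = q := by
  have hk : G.dist a p ≤ G.dist a b := by
    have h1 : G.dist a p + G.dist p b = G.dist a b := hp
    omega
  obtain ⟨y, _, hy⟩ := btw_point hG hk
  rw [hy p ⟨hp, rfl⟩, hy q ⟨hq, h.symm⟩]

/-- either two lines have the same positive end, or the second one is finally not beyond the edges of the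
first one -/
theorem lines_end (hG : G.IsTree) {L R : ℤ → X} (hL : IsLine G L) (hR : IsLine G R) :
    (∃ (c k : ℤ), ∀ i ≥ k, L i = R (i + c)) ∨
      (∃ k : ℤ, ∀ i ≥ k, ∀ j ≥ k, ∀ m ≥ i, Btw G (R j) (L i) (L m)) := by
  by_cases hcase : ∃ k : ℤ, ∀ i ≥ k, ∀ j ≥ k, ¬ Beyond G (L i) (L (i + 1)) (R j)
  · right
    obtain ⟨k, hk⟩ := hcase
    refine ⟨k, fun i hi j hj m hm => ?_⟩
    have hadj : G.Adj (L i) (L (i + 1)) := by
      rw [← SimpleGraph.dist_eq_one_iff_adj, hL]; omega
    rcases eq_or_lt_of_le hm with rfl | hm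
    · unfold TG.Btw
      have : G.dist (L i) (L i) = 0 := SimpleGraph.dist_self
      omega
    · have hb : Beyond G (L i) (L (i + 1)) (L m) := by
        unfold TG.Beyond
        rw [hL, hL]; omega
      exact ((beyond_sep hG hadj).1 ⟨hk i hi j hj, hb⟩).1
  · left
    push Not at hcase
    obtain ⟨p, ⟨hp, hproj⟩, -⟩ := exists_unique_proj hG (conv_range_line hG hL) (Set.range_nonempty L) (R 0)
    obtain ⟨k0, rfl⟩ := hp
    set D := G.dist (R 0) (L k0) with hD
    have hd : ∀ i ≥ k0, (G.dist (R 0) (L i) : ℤ) = D + (i - k0) := by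
      intro i hi
      have h1 : G.dist (R 0) (L k0) + G.dist (L k0) (L i) = G.dist (R 0) (L i) := hproj _ ⟨i, rfl⟩
      rw [hL k0 i] at h1
      omega
    refine ⟨D - k0, k0, fun i hi => ?_⟩
    obtain ⟨i', hi', j, hj, hb⟩ := hcase (max i 0)
    have hii : i ≤ i' := le_trans (le_max_left _ _) hi'
    have hj0 : 0 ≤ j := le_trans (le_max_right _ _) hj
    have hadj : G.Adj (L i') (L (i' + 1)) := by
      rw [← SimpleGraph.dist_eq_one_iff_adj, hL]; omega
    have hn : ¬ Beyond G (L i') (L (i' + 1)) (R 0) := by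
      unfold TG.Beyond
      have h1 := hd i' (by omega)
      have h2 := hd (i' + 1) (by omega)
      rw [SimpleGraph.dist_comm (u := L (i' + 1)), SimpleGraph.dist_comm (u := L i')]
      omega
    have h1 : G.dist (R 0) (L i') + G.dist (L i') (R j) = G.dist (R 0) (R j) :=
      ((beyond_sep hG hadj).1 ⟨hn, hb⟩).1
    have h2 := hd i' (by omega)
    have h3 := hd i hi
    have h4 : G.dist (L i) (L i') = (i - i').natAbs := hL i i'
    have h5 : G.dist (L i) (R j) ≤ G.dist (L i) (L i') + G.dist (L i') (R j) := hG.connected.dist_triangle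
    have h6 : G.dist (R 0) (R j) ≤ G.dist (R 0) (L i) + G.dist (L i) (R j) := hG.connected.dist_triangle
    have h7 : G.dist (R 0) (R j) = (0 - j).natAbs := hR 0 j
    refine btw_unique hG (a := R 0) (b := R j) ?_ ?_ ?_
    · show G.dist (R 0) (L i) + G.dist (L i) (R j) = G.dist (R 0) (R j)
      omega
    · show G.dist (R 0) (R _) + G.dist (R _) (R j) = G.dist (R 0) (R j)
      rw [hR, hR, hR]
      omega
    · rw [hR 0]
      omega

end T4aux

namespace MTree
open T4aux
variable {Γ : Type} [Group Γ] {M : Subgroup Γ} (T : MTree M)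

theorem axis_mul {P h : Γ} (hP : P ∈ M) (hh : h ∈ M) {l : ℕ} {L : ℤ → T.X} (hL : T.IsAxis P l L)
    (hdiv : ∀ (c : ℤ) (N : ℕ), ∃ i : ℤ, (N : ℤ) ≤ i ∧ T.act h (L i) ≠ L (c - i)) :
    ∃ (i0 a0 : ℕ) (c0 : ℤ), ∀ a : ℕ, a0 ≤ a → ∃ (l' : ℕ) (L' : ℤ → T.X), T.IsAxis (P ^ a * h) l' L' ∧
      (l' : ℤ) = a * l + c0 ∧ ∀ i : ℤ, (i0 : ℤ) ≤ i → i ≤ a * l - i0 → L' i = L i := by
  have hl : 0 < l := hL.1
  have hline : T.IsLine L := hL.2.1
  have hh' : h⁻¹ ∈ M := M.inv_mem hh
  set R : ℤ → T.X := fun i => T.act h⁻¹ (L (-i)) with hRdef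
  have hR : T.IsLine R := by
    intro i j
    simp only [hRdef]
    rw [T.dist_act hh', hline]
    omega
  -- the two conditions
  obtain ⟨k1, hk1⟩ : ∃ k : ℤ, ∀ i ≥ k, ∀ j ≥ k, ∀ m ≥ i, TG.Btw T.G (R j) (L i) (L m) := by
    rcases lines_end T.tree hline hR with ⟨c, k, hc⟩ | h2
    · exfalso
      obtain ⟨i, hi, hne⟩ := hdiv (-c) k.toNat
      apply hne
      rw [hc i (by omega)]
      simp only [hRdef]
      rw [T.act_act_inv hh]
      congr 1; ring
    · exact h2
  obtain ⟨k2, hk2⟩ : ∃ k : ℤ, ∀ i ≥ k, ∀ j ≥ k, ∀ m ≥ i, TG.Btw T.G (L j) (R i) (R m) := by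
    rcases lines_end T.tree hR hline with ⟨c, k, hc⟩ | h2
    · exfalso
      obtain ⟨i, hi, hne⟩ := hdiv c (k + c).toNat
      apply hne
      have h1 := hc (i - c) (by omega)
      simp only [hRdef] at h1
      have h2 : i - c + c = i := by ring
      rw [h2] at h1
      rw [← h1, T.act_act_inv hh]
      congr 1; ring
    · exact h2
  set i0 : ℕ := (max k1 k2).toNat + 1 with hi0
  have hi1 : k1 + 1 ≤ (i0 : ℤ) := by
    have : k1 ≤ max k1 k2 := le_max_left _ _
    omega
  have hi2 : k2 + 1 ≤ (i0 : ℤ) := by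
    have : k2 ≤ max k1 k2 := le_max_right _ _
    omega
  set x : T.X := R i0 with hx
  set D := T.G.dist x (L i0) with hD
  have hD0 : 0 < D := by
    have h1 : T.G.dist x (L ((i0 : ℤ) - 1)) + T.G.dist (L ((i0 : ℤ) - 1)) (L i0) = T.G.dist x (L i0) :=
      hk1 ((i0 : ℤ) - 1) (by omega) i0 (by omega) i0 (by omega)
    rw [hline ((i0 : ℤ) - 1) i0] at h1
    omega
  refine ⟨i0, 2 * i0 + 1, (D : ℤ) - 2 * i0, fun a ha => ?_⟩
  have ha0 : 0 < a := by omega
  have hal : 2 * i0 + 1 ≤ a * l := le_trans ha (Nat.le_mul_of_pos_right a hl)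
  have hPa : P ^ a ∈ M := M.pow_mem hP a
  have hW : P ^ a * h ∈ M := M.mul_mem hPa hh
  have hax := T.axis_pow hP hL ha0
  have hactW : ∀ z, T.act (P ^ a * h) z = T.act (P ^ a) (T.act h z) := fun z => T.act_mul _ hPa _ hh z
  have hWx : T.act (P ^ a * h) x = L (a * l - i0) := by
    rw [hactW, hx]
    simp only [hRdef]
    rw [T.act_act_inv hh, hax.2.2]
    exact congrArg L (by push_cast; ring)
  have hb1 : T.Btw x (L i0) (L (a * l - i0)) := by
    refine hk1 i0 (by omega) i0 (by omega) (a * l - i0) ?_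
    have : ((2 * i0 + 1 : ℕ) : ℤ) ≤ ((a * l : ℕ) : ℤ) := by exact_mod_cast hal
    push_cast at this
    linarith
  have hb2 : T.Btw (L i0) (T.act (P ^ a * h) x) (T.act (P ^ a * h) (L i0)) := by
    have e1 : L i0 = T.act (P ^ a) (T.act h (R (a * l - i0))) := by
      simp only [hRdef]
      rw [T.act_act_inv hh, hax.2.2]
      congr 1
      push_cast
      ring
    rw [hactW, hactW, ]
    nth_rewrite 1 [e1]
    rw [T.btw_act hPa, T.btw_act hh]
    have h3 : TG.Btw T.G (L i0) (R i0) (R (a * l - i0)) := by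
      refine hk2 i0 (by omega) i0 (by omega) (a * l - i0) ?_
      have : ((2 * i0 + 1 : ℕ) : ℤ) ≤ ((a * l : ℕ) : ℤ) := by exact_mod_cast hal
      push_cast at this
      linarith
    exact TG.btw_symm T.tree h3
  have hne1 : L i0 ≠ L (a * l - i0) := by
    intro he
    have h1 := hline i0 (a * l - i0)
    rw [← he, SimpleGraph.dist_self] at h1
    have : ((2 * i0 + 1 : ℕ) : ℤ) ≤ ((a * l : ℕ) : ℤ) := by exact_mod_cast hal
    push_cast at this
    omega
  have hb3 : T.Btw x (T.act (P ^ a * h) x) (T.act (P ^ a * h) (L i0)) := by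
    refine (TG.btw_glue T.tree (y := L i0) ?_ hb2 ?_).2
    · rw [hWx]; exact hb1
    · rw [hWx]; exact hne1
  have hxne : x ≠ L i0 := by
    intro he
    rw [hD, he, SimpleGraph.dist_self] at hD0
    exact lt_irrefl _ hD0
  have hb4 : T.Btw (T.act (P ^ a * h) x) (T.act (P ^ a * h) (L i0))
      (T.act (P ^ a * h) (T.act (P ^ a * h) x)) := by
    rw [T.btw_act hW, hWx]
    exact hb1
  have hb5 : T.Btw x (T.act (P ^ a * h) x) (T.act (P ^ a * h) (T.act (P ^ a * h) x)) := by
    refine (TG.btw_glue T.tree hb3 hb4 ?_).1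
    intro he
    exact hxne (T.act_inj hW he)
  have hxW : T.act (P ^ a * h) x ≠ x := by
    rw [hWx]
    intro he
    have h1 : T.G.dist x (L i0) + T.G.dist (L i0) (L (a * l - i0)) = T.G.dist x (L (a * l - i0)) := hb1
    rw [he, SimpleGraph.dist_self] at h1
    omega
  obtain ⟨l', L', hax', hL0, hl'⟩ := T.coherent hW hxW hb5
  have hl'' : (l' : ℤ) = a * l + ((D : ℤ) - 2 * i0) := by
    have h1 : T.G.dist x (L i0) + T.G.dist (L i0) (L (a * l - i0)) = T.G.dist x (L (a * l - i0)) := hb1
    rw [hl', hWx, ← h1, hline i0 (a * l - i0)]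
    have : ((2 * i0 + 1 : ℕ) : ℤ) ≤ ((a * l : ℕ) : ℤ) := by exact_mod_cast hal
    push_cast at this
    rw [← hD]
    push_cast
    have h2 : |(i0 : ℤ) - (a * l - i0)| = a * l - 2 * i0 := by
      rw [abs_of_nonpos (by linarith)]; ring
    rw [h2]; ring
  refine ⟨l', fun i => L' (i + (D - i0)), ⟨hax'.1, ?_, ?_⟩, hl'', ?_⟩
  · intro i j
    rw [hax'.2.1]
    congr 1; ring
  · intro i
    rw [hax'.2.2]
    congr 1; ring
  · intro i hi hi'
    have h1 : T.G.dist x (L i0) + T.G.dist (L i0) (L i) = T.G.dist x (L i) :=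
      hk1 i0 (by omega) i0 (by omega) i hi
    have h2 : T.G.dist x (L i0) + T.G.dist (L i0) (L (a * l - i0)) = T.G.dist x (L (a * l - i0)) := hb1
    have h3 : T.G.dist (L i0) (L i) = ((i0 : ℤ) - i).natAbs := hline _ _
    have h4 : T.G.dist (L i) (L (a * l - i0)) = (i - (a * l - i0)).natAbs := hline _ _
    have h5 : T.G.dist (L i0) (L (a * l - i0)) = ((i0 : ℤ) - (a * l - i0)).natAbs := hline _ _
    have hLl : L' l' = L (a * l - i0) := by
      have := hax'.2.2 0
      rw [hL0, hWx, zero_add] at this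
      exact this.symm
    symm
    refine btw_unique T.tree (a := x) (b := L (a * l - i0)) ?_ ?_ ?_
    · show T.G.dist x (L i) + T.G.dist (L i) (L (a * l - i0)) = T.G.dist x (L (a * l - i0))
      rw [← h1, ← h2, h3, h4, h5]
      generalize (a : ℤ) * l = al at *
      omega
    · show T.G.dist x (L' (i + (D - i0))) + T.G.dist (L' (i + (D - i0))) (L (a * l - i0)) =
        T.G.dist x (L (a * l - i0))
      have h6 := hax'.2.1 0 (i + (D - i0))
      have h7 := hax'.2.1 (i + (D - i0)) l'
      have h8 := hax'.2.1 0 l'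
      rw [hL0] at h6 h8
      rw [hLl] at h7 h8
      rw [h6, h7, h8]
      generalize (a : ℤ) * l = al at *
      omega
    · have h6 := hax'.2.1 0 (i + (D - i0))
      rw [hL0] at h6
      rw [h6, ← h1, h3, ← hD]
      omega

/-- for powers `h = Q ^ b` at most one `b` is bad -/
theorem axis_mul_bad (hni : T.NoInv) (hp : T.Pure) {P Q : Γ} (hP : P ∈ M) (hQ : Q ∈ M) {l : ℕ}
    {L : ℤ → T.X} (hL : T.IsAxis P l L) {b b' : ℕ} (hb : 0 < b) (hb' : 0 < b')
    (h1 : ∃ (c : ℤ) (N : ℕ), ∀ i : ℤ, (N : ℤ) ≤ i → T.act (Q ^ b) (L i) = L (c - i))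
    (h2 : ∃ (c : ℤ) (N : ℕ), ∀ i : ℤ, (N : ℤ) ≤ i → T.act (Q ^ b') (L i) = L (c - i)) : b = b' := by
  -- symmetric reduction
  have key : ∀ b b' : ℕ, 0 < b → b < b' →
      (∃ (c : ℤ) (N : ℕ), ∀ i : ℤ, (N : ℤ) ≤ i → T.act (Q ^ b) (L i) = L (c - i)) →
      (∃ (c : ℤ) (N : ℕ), ∀ i : ℤ, (N : ℤ) ≤ i → T.act (Q ^ b') (L i) = L (c - i)) → False := by
    clear h1 h2 hb hb' b b'
    intro b b' hb hbb ⟨c, N, hc⟩ ⟨c', N', hc'⟩
    have hline : T.IsLine L := hL.2.1
    obtain ⟨d, hd, rfl⟩ : ∃ d, 0 < d ∧ b' = d + b := ⟨b' - b, by omega, by omega⟩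
    have hQb : Q ^ b ∈ M := M.pow_mem hQ b
    have hQd : Q ^ d ∈ M := M.pow_mem hQ d
    have htr : ∀ j : ℤ, j ≤ c - (N + N' : ℤ) → T.act (Q ^ d) (L j) = L (j + (c' - c)) := by
      intro j hj
      have hN : (N : ℤ) ≤ c - j := by omega
      have hN' : (N' : ℤ) ≤ c - j := by omega
      have e1 := hc (c - j) hN
      have e2 := hc' (c - j) hN'
      rw [pow_add, T.act_mul _ hQd _ hQb, e1] at e2
      have e3 : c - (c - j) = j := by ring
      rw [e3] at e2
      rw [e2]
      congr 1; ring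
    by_cases he : c' = c
    · -- fixed vertices
      subst he
      have hfix : ∀ j : ℤ, j ≤ c' - (N + N' : ℤ) → T.act Q (L j) = L j := by
        intro j hj
        have := htr j hj
        rw [sub_self, add_zero] at this
        exact hp Q hQ d hd _ this
      set i : ℤ := (N + N' : ℤ) + |c'| + 1 with hi
      have hci : c' - i ≤ c' - (N + N' : ℤ) := by
        have := abs_nonneg c'
        linarith
      have hNi : (N : ℤ) ≤ i := by
        have h3 := abs_nonneg c'
        have h4 : (N : ℤ) ≤ (N + N' : ℤ) := by omega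
        linarith
      have e1 := hc i hNi
      have e2 := T.fix_pow hQ (hfix (c' - i) hci) b
      rw [← e2] at e1
      have e3 := T.act_inj hQb e1
      have e4 := hline i (c' - i)
      rw [e3, SimpleGraph.dist_self] at e4
      have h5 := le_abs_self c'
      have h6 : (0 : ℤ) ≤ (N + N' : ℤ) := by positivity
      have h7 := abs_nonneg c'
      omega
    · -- translation
      have hax : ∀ j : ℤ, j ≤ c - (N + N' : ℤ) - |c' - c| → ∃ (l1 : ℕ) (L1 : ℤ → T.X),
          T.IsAxis (Q ^ d) l1 L1 ∧ L1 0 = L j := by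
        intro j hj
        have h3 := abs_nonneg (c' - c)
        have h4 := le_abs_self (c' - c)
        have e1 := htr j (by linarith)
        have e2 := htr (j + (c' - c)) (by linarith)
        have hne : T.act (Q ^ d) (L j) ≠ L j := by
          rw [e1]
          intro hne
          have e4 := hline (j + (c' - c)) j
          rw [hne, SimpleGraph.dist_self] at e4
          omega
        have hbt : T.Btw (L j) (T.act (Q ^ d) (L j)) (T.act (Q ^ d) (T.act (Q ^ d) (L j))) := by
          rw [e1, e2]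
          show T.G.dist (L j) (L (j + (c' - c))) + T.G.dist (L (j + (c' - c))) (L (j + (c' - c) + (c' - c))) =
            T.G.dist (L j) (L (j + (c' - c) + (c' - c)))
          rw [hline, hline, hline]
          omega
        obtain ⟨l1, L1, hA, hB, -⟩ := T.coherent hQd hne hbt
        exact ⟨l1, L1, hA, hB⟩
      rcases T.ell_or_axis hni hQ with ⟨y, hy⟩ | ⟨l2, L2, hL2⟩
      · obtain ⟨l1, L1, hA, -⟩ := hax (c - (N + N' : ℤ) - |c' - c|) le_rfl
        exact T.hyp_of_axis hQd hA y (T.fix_pow hQ hy d)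
      · have hL2d := T.axis_pow hQ hL2 hd
        have hL2b := T.axis_pow hQ hL2 hb
        have hmem : ∀ j : ℤ, j ≤ c - (N + N' : ℤ) - |c' - c| → ∃ k, L j = L2 k := by
          intro j hj
          obtain ⟨l1, L1, hA, hB⟩ := hax j hj
          obtain ⟨-, t, ht⟩ := T.axis_unique hQd hL2d hA
          exact ⟨0 + t, by rw [← hB, ht 0]⟩
        set i : ℤ := (N + N' : ℤ) + |c' - c| + |c| + b * l2 + 1 with hi
        have h3 := abs_nonneg (c' - c)
        have h4 := abs_nonneg c
        have h5 := le_abs_self c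
        have h6 : (0 : ℤ) ≤ b * l2 := by positivity
        have h7 : (N : ℤ) ≤ (N + N' : ℤ) := by omega
        have h8 : (0 : ℤ) ≤ N := by positivity
        obtain ⟨k, hk⟩ := hmem (c - i) (by linarith)
        have e1 := hc i (by linarith)
        have e2 : T.G.dist (T.act (Q ^ b) (L i)) (T.act (Q ^ b) (L (c - i))) = T.G.dist (L i) (L (c - i)) :=
          T.dist_act hQb _ _
        rw [e1, hk, hL2b.2.2, ← hk, hline i (c - i), hk, hL2b.2.1] at e2
        have h9 : ((b * l2 : ℕ) : ℤ) = b * l2 := by push_cast; ring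
        generalize (b : ℤ) * l2 = q at *
        omega
  rcases lt_trichotomy b b' with h | h | h
  · exact (key b b' hb h h1 h2).elim
  · exact h
  · exact (key b' b hb' h h2 h1).elim

end MTree

end Pool.Agent.Lib.MP_6567fb_al
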