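import Pool.Agent.Lib.MP_6567fb_al.F1a
import Pool.Agent.Lib.MP_6567fb_al.T4
import Pool.Agent.Lib.MP_6567fb_al.T2c

/-!
# MP_6567fb_al, module F1c

w_axis: axis_mul for P = s g1, h = (s g2)^(3b) with exponent 3a; by axis_mul_bad at most one b > 0 has h L+ = L-, i.e. violates hdiv.
w_hyp_stay: from w_axis (l', L') is an axis.  w_hyp_new: ell_hyp for m = s g1 (elliptic: ell_or_axis), n = (s g2)^(3b) (hyperbolic for b > 0: Pure): at most one exponent
a is bad.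
-/

set_option autoImplicit false

open scoped Pointwise
open Filter

namespace Pool.Agent.Lib.MP_6567fb_al

open MTree
variable {Γ G : Type} [Group Γ] [Group G] {π : Γ →* G}

theorem F1c_ev {p : ℕ → Prop} (h : ∀ b b', 0 < b → 0 < b' → ¬ p b → ¬ p b' → b = b') :
    ∀ᶠ b in atTop, 0 < b ∧ p b := by
  by_cases hb : ∃ b, 0 < b ∧ ¬ p b
  · obtain ⟨b0, hb0, hb0'⟩ := hb
    filter_upwards [eventually_gt_atTop b0] with b hb
    refine ⟨by omega, ?_⟩
    by_contra hp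
    have := h b b0 (by omega) hb0 hp hb0'
    omega
  · push Not at hb
    filter_upwards [eventually_gt_atTop 0] with b hb0
    exact ⟨hb0, hb b hb0⟩

theorem F1c_wd (s : G →* Γ) (g1 g2 : G) (b a : ℕ) :
    s (wd g1 g2 b a) = s g1 ^ (3 * a) * s g2 ^ (3 * b) := by
  unfold wd
  rw [map_mul, map_pow, map_pow]

/-- the L-part of the axis of `s w` -/
theorem w_axis (hc : Ctx π) {M : Subgroup Γ} {T : MTree M} (hT : T.IsSplitting π.ker)
    {s : G →* Γ} (hs : SecIn π M s) {g1 : G} (g2 : G) {l : ℕ} {L : ℤ → T.X}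
    (hL : T.IsAxis (s g1) l L) :
    ∀ᶠ b in atTop, ∃ (i0 : ℕ) (c0 : ℤ), ∀ᶠ a : ℕ in atTop, ∃ (l' : ℕ) (L' : ℤ → T.X),
      T.IsAxis (s (wd g1 g2 b a)) l' L' ∧ (l' : ℤ) = 3 * a * l + c0 ∧
      ∀ i : ℤ, (i0 : ℤ) ≤ i → i ≤ 3 * a * l - i0 → L' i = L i := by
  have hni := hT.noInv hc
  have hp := hT.pure hc
  have hgood : ∀ᶠ b in atTop, 0 < b ∧ ∀ (c : ℤ) (N : ℕ), ∃ i : ℤ, (N : ℤ) ≤ i ∧
      T.act (s g2 ^ (3 * b)) (L i) ≠ L (c - i) := by
    apply F1c_ev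
    intro b b' hb hb' h1 h2
    push Not at h1 h2
    have := T.axis_mul_bad hni hp (hs.mem g1) (hs.mem g2) hL (b := 3 * b) (b' := 3 * b')
      (by omega) (by omega) h1 h2
    omega
  filter_upwards [hgood] with b hb
  obtain ⟨i0, a0, c0, h⟩ := T.axis_mul (hs.mem g1) (M.pow_mem (hs.mem g2) (3 * b)) hL hb.2
  refine ⟨i0, c0, ?_⟩
  filter_upwards [eventually_ge_atTop a0] with a ha
  obtain ⟨l', L', h1, h2, h3⟩ := h (3 * a) (by omega)
  refine ⟨l', L', ?_, ?_, ?_⟩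
  · rw [F1c_wd]; exact h1
  · rw [h2]; push_cast; ring
  · intro i hi hi'
    refine h3 i hi ?_
    push_cast
    exact hi'

theorem w_hyp_stay (hc : Ctx π) {M : Subgroup Γ} {T : MTree M} (hT : T.IsSplitting π.ker)
    {s : G →* Γ} (hs : SecIn π M s) {g1 : G} (g2 : G) (h : T.Hyp (s g1)) :
    AA (fun b a => T.Hyp (s (wd g1 g2 b a))) := by
  rcases T.ell_or_axis (hT.noInv hc) (hs.mem g1) with ⟨x, hx⟩ | ⟨l, L, hL⟩
  · exact absurd hx (h x)
  · unfold AA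
    filter_upwards [w_axis hc hT hs g2 hL] with b ⟨i0, c0, hb⟩
    filter_upwards [hb] with a ⟨l', L', h1, _, _⟩
    exact T.hyp_of_axis (hs.mem _) h1

theorem w_hyp_new (hc : Ctx π) {M : Subgroup Γ} {T : MTree M} (hT : T.IsSplitting π.ker)
    {s : G →* Γ} (hs : SecIn π M s) {g1 g2 : G} (h1 : ¬ T.Hyp (s g1)) (h2 : T.Hyp (s g2)) :
    AA (fun b a => T.Hyp (s (wd g1 g2 b a))) := by
  have hni := hT.noInv hc
  have hp := hT.pure hc
  unfold Hyp at h1
  push Not at h1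
  unfold AA
  filter_upwards [eventually_gt_atTop 0] with b hb
  have hn : T.Hyp (s g2 ^ (3 * b)) := by
    intro x hx
    exact h2 x (hp _ (hs.mem g2) (3 * b) (by omega) x hx)
  have key : ∀ᶠ a in atTop, 0 < a ∧ T.Hyp (s (wd g1 g2 b a)) := by
    apply F1c_ev
    intro a a' ha ha' h3 h4
    rw [F1c_wd] at h3 h4
    have := T.ell_hyp hni hp (hs.mem g1) (M.pow_mem (hs.mem g2) (3 * b)) h1 hn
      (a := 3 * a) (b := 3 * a') (by omega) (by omega) h3 h4
    omega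
  exact key.mono (fun a ha => ha.2)

end Pool.Agent.Lib.MP_6567fb_al
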