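import Pool.Agent.Lib.MP_6567fb_al.T7d
import Pool.Agent.Lib.MP_6567fb_al.T6
import Pool.Agent.Lib.MP_6567fb_al.T12

/-!
# MP_6567fb_al, module T14a

Complexity of families: the maximum of ∑ (2 rk B - 1) over finite sets of pairwise non-conjugate members.
T14a_fibre: the members below (conjugates of) a member D of a larger family have sum < 2 rk D - 1, or it is D alone.
-/

set_option autoImplicit false

open scoped Pointwise

namespace Pool.Agent.Lib.MP_6567fb_al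

open MTree
open scoped Pointwise
variable {Γ G : Type} [Group Γ] [Group G] {π : Γ →* G}

theorem T14a_ne_one {B : Subgroup Γ} (h : B ≠ ⊥) : ∃ b ∈ B, b ≠ 1 := by
  by_contra hcon
  push Not at hcon
  apply h
  rw [Subgroup.eq_bot_iff_forall]
  exact hcon

theorem T14a_finset {X : Type} (S : Set X) (E : Finset (X × X)) :
    ∃ E' : Finset (S × S), ∀ q : S × S, ((q.1 : X), (q.2 : X)) ∈ E → q ∈ E' := by
  have hinj : Function.Injective (fun q : S × S => ((q.1 : X), (q.2 : X))) := by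
    intro p q hpq
    have h3 := Prod.mk.inj hpq
    exact Prod.ext (Subtype.ext h3.1) (Subtype.ext h3.2)
  have hfin : ((fun q : S × S => ((q.1 : X), (q.2 : X))) ⁻¹' (E : Set (X × X))).Finite :=
    E.finite_toSet.preimage hinj.injOn
  exact ⟨hfin.toFinset, fun q hq => by
    rw [Set.Finite.mem_toFinset]
    exact hq⟩

/-- the splitting of a subgroup induced by a splitting -/
theorem T14a_induced (hc : Ctx π) {H : Subgroup Γ} (hH : H ≤ π.ker) (T₂ : MTree H)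
    (h2 : T₂.IsSplitting π.ker) {S : Subgroup Γ} (hS : S ≤ H) (hfg : S.FG) :
    ∃ U : MTree S, U.IsSplitting π.ker ∧ (∀ u : U.X, ∃ y, U.stab u = S ⊓ T₂.stab y) ∧
      ∀ y, S ⊓ T₂.stab y ≠ ⊥ → ∃ u : U.X, U.stab u = S ⊓ T₂.stab y := by
  by_cases hell : T₂.Ell (S : Set Γ)
  · obtain ⟨y₀, hy₀⟩ := hell
    have hpt : ∀ u : (point S).X, (point S).stab u = S := by
      intro u
      apply le_antisymm
      · exact fun m hm => hm.1
      · exact fun m hm => ⟨hm, rfl⟩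
    have hSy : S ⊓ T₂.stab y₀ = S := inf_eq_left.2 fun m hm => ⟨hS hm, hy₀ m hm⟩
    refine ⟨point S, point_isSplitting _ _, ?_, ?_⟩
    · intro u
      exact ⟨y₀, by rw [hpt, hSy]⟩
    · intro y hne
      obtain ⟨b, ⟨hb1, hb2⟩, hb⟩ := T14a_ne_one hne
      have hyy : y = y₀ := h2.fixed_unique (h := b) ⟨hS hb1, hH (hS hb1)⟩ hb hb2.2 (hy₀ b hb1)
      exact ⟨Unit.unit, (hpt _).trans (by rw [hyy, hSy])⟩
  · have hni := h2.noInv hc
    have hinv : ∀ m ∈ S, ∀ x ∈ T₂.core S, T₂.act m x ∈ T₂.core S := by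
      intro m hm x hx
      have h1 := T₂.core_conj hS (hS hm)
      rw [Subgroup.conj_smul_eq_self_of_mem hm] at h1
      rw [h1]
      exact ⟨x, hx, rfl⟩
    have hconv := T₂.core_conv hni hS
    have hne := T₂.core_nonempty hni hS hfg
    refine ⟨T₂.sub (T₂.core S) hconv hne S hS hinv, ?_, ?_, ?_⟩
    · have hemb := T₂.sub_isEmb (T₂.core S) hconv hne S hS hinv
      refine ⟨?_, ?_, ?_⟩
      · rintro h ⟨hhS, hhF⟩ x y hxy hx hy
        apply h2.free h ⟨hS hhS, hhF⟩ x.1 y.1 hxy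
        · rw [← hemb.equi h hhS x, hx]
        · rw [← hemb.equi h hhS y, hy]
      · intro m hm x y _
        exact ⟨m, ⟨hm, hH (hS hm)⟩, rfl, rfl⟩
      · obtain ⟨E, hE⟩ := T₂.core_cofinite hni hS hfg hell
        obtain ⟨E', hE'⟩ := T14a_finset (T₂.core S) E
        refine ⟨E', ?_⟩
        intro x y hxy
        obtain ⟨d, hd, hdE⟩ := hE x.1 x.2 y.1 y.2 hxy
        refine ⟨d, ⟨hd, hH (hS hd)⟩, ?_⟩
        apply hE'
        have h3 := hemb.equi d hd x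
        have h4 := hemb.equi d hd y
        rw [← h3, ← h4] at hdE
        exact hdE
    · intro u
      exact ⟨u.1, (T₂.sub_stab (T₂.core S) hconv hne S hS hinv u).trans (inf_comm _ _)⟩
    · intro y hne'
      obtain ⟨b, ⟨hb1, hb2⟩, hb⟩ := T14a_ne_one hne'
      obtain ⟨w, hw, hbw⟩ := T₂.fix_proj (hS hb1) (S := T₂.core S) ⟨y, hb2.2⟩ hconv hne
        (hinv b hb1)
      have hyw : y = w := h2.fixed_unique (h := b) ⟨hS hb1, hH (hS hb1)⟩ hb hb2.2 hbw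
      subst hyw
      exact ⟨⟨y, hw⟩, (T₂.sub_stab (T₂.core S) hconv hne S hS hinv ⟨y, hw⟩).trans (inf_comm _ _)⟩

theorem T14a_stab {H : Subgroup Γ} (hH : H ≤ π.ker) (T : MTree H) (x : T.X) :
    T.stab x ⊓ π.ker = T.stab x := inf_eq_left.2 fun _ hm => hH hm.1

/-- the members of a family below a conjugate of `D` -/
theorem T14a_fibre (hc : Ctx π) {H : Subgroup Γ} (hH : H ≤ π.ker) (T : MTree H)
    (hT : T.IsSplitting π.ker) {D : Subgroup Γ} (hDH : D ≤ H) (hD : IsFactor π.ker π.ker D)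
    (hDne : D ≠ ⊥) (t : Finset (Subgroup Γ)) (ht : ∀ B ∈ t, B ∈ T.vgs π.ker)
    (ht' : ∀ B ∈ t, ∀ B' ∈ t, ∀ h ∈ H, MulAut.conj h • B = B' → B = B')
    (g : Subgroup Γ → Γ) (hg : ∀ B ∈ t, g B ∈ H ∧ B ≤ MulAut.conj (g B) • D) :
    ∑ B ∈ t, (2 * rk B - 1) < 2 * rk D - 1 ∨
      (∑ B ∈ t, (2 * rk B - 1) = 2 * rk D - 1 ∧ D ∈ T.vgs π.ker) := by
  classical
  obtain ⟨U, hU, hU1, hU2⟩ := T14a_induced hc hH T hT hDH (fac_fg hc hD)
  have hDk : D ≤ π.ker := hDH.trans hH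
  have hrk : 0 < rk D := rk_pos hc hD hDne
  -- the conjugates inside `D`
  have hB : ∀ B ∈ t, ∃ u : U.X, U.stab u = (MulAut.conj (g B))⁻¹ • B ∧
      (MulAut.conj (g B))⁻¹ • B ∈ T.vgs π.ker := by
    intro B hBt
    obtain ⟨hne, x, hx⟩ := ht B hBt
    rw [T14a_stab hH] at hx
    have h1 : T.stab (T.act (g B)⁻¹ x) = (MulAut.conj (g B))⁻¹ • B := by
      rw [T.stab_act (H.inv_mem (hg B hBt).1), hx, map_inv]
    have h2 : D ⊓ T.stab (T.act (g B)⁻¹ x) = (MulAut.conj (g B))⁻¹ • B := by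
      rw [h1, inf_eq_right, ← Subgroup.subset_pointwise_smul_iff]
      exact (hg B hBt).2
    have h3 : (MulAut.conj (g B))⁻¹ • B ≠ ⊥ := by
      intro h
      apply hne
      rw [inv_smul_eq_iff] at h
      rw [h, Subgroup.smul_bot]
    obtain ⟨u, hu⟩ := hU2 _ (by rw [h2]; exact h3)
    exact ⟨u, by rw [hu, h2], h3, _, by rw [T14a_stab hH, h1]⟩
  obtain ⟨u₁⟩ : Nonempty U.X := U.tree.1.nonempty
  have hB' : ∀ B : Subgroup Γ, ∃ u : U.X, B ∈ t → U.stab u = (MulAut.conj (g B))⁻¹ • B ∧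
      (MulAut.conj (g B))⁻¹ • B ∈ T.vgs π.ker := by
    intro B
    by_cases h : B ∈ t
    · obtain ⟨u, hu⟩ := hB B h
      exact ⟨u, fun _ => hu⟩
    · exact ⟨u₁, fun h' => absurd h' h⟩
  choose u hu using hB'
  have hu1 := fun B hBt => (hu B hBt).1
  have hu2 := fun B hBt => (hu B hBt).2
  have hrkB : ∀ B ∈ t, rk (U.stab (u B)) = rk B := by
    intro B hBt
    rw [hu1 B hBt, ← map_inv, rk_conj]
  -- conjugate members
  have hconj : ∀ B ∈ t, ∀ B' ∈ t, ∀ h ∈ H,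
      MulAut.conj h • ((MulAut.conj (g B))⁻¹ • B) = (MulAut.conj (g B'))⁻¹ • B' → B = B' := by
    intro B hBt B' hB't h hh h1
    refine ht' B hBt B' hB't (g B' * h * (g B)⁻¹)
      (H.mul_mem (H.mul_mem (hg B' hB't).1 hh) (H.inv_mem (hg B hBt).1)) ?_
    rw [map_mul, map_mul, map_inv, mul_smul, mul_smul, h1, smul_inv_smul]
  by_cases hn : U.Nontriv π.ker
  · left
    have hinj : Set.InjOn u (t : Set (Subgroup Γ)) := by
      intro B hBt B' hB't h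
      refine hconj B hBt B' hB't 1 H.one_mem ?_
      rw [map_one, one_smul, ← hu1 B hBt, ← hu1 B' hB't, h]
    have h1 := rk_sum hc hD U hU hn (t.image u) (by
        intro x hx
        obtain ⟨B, hBt, rfl⟩ := Finset.mem_image.1 hx
        rw [hu1 B hBt]
        exact (hu2 B hBt).1) (by
        intro x hx y hy h hh hxy
        obtain ⟨B, hBt, rfl⟩ := Finset.mem_image.1 hx
        obtain ⟨B', hB't, rfl⟩ := Finset.mem_image.1 hy
        have h2 := U.stab_act hh (u B)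
        rw [hxy, hu1 B hBt, hu1 B' hB't] at h2
        rw [hconj B hBt B' hB't h (hDH hh) h2.symm])
    rw [Finset.sum_image hinj] at h1
    have h2 : ((∑ B ∈ t, (2 * rk B - 1) : ℕ) : ℤ) =
        ∑ B ∈ t, (2 * (rk (U.stab (u B)) : ℤ) - 1) := by
      rw [Nat.cast_sum]
      refine Finset.sum_congr rfl fun B hBt => ?_
      have h3 : 0 < rk (U.stab (u B)) := by
        refine rk_pos hc ?_ ?_
        · exact fac_trans hc le_rfl hD (Or.inr ⟨U, hU, u B, T14a_stab hDk U _⟩)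
        · rw [hu1 B hBt]; exact (hu2 B hBt).1
      rw [hrkB B hBt] at h3 ⊢
      omega
    omega
  · unfold Nontriv at hn
    push Not at hn
    obtain ⟨u₀, hu₀⟩ := hn
    have hst : U.stab u₀ = D :=
      le_antisymm (fun m hm => hm.1) (fun m hm => ⟨hm, hu₀ m ⟨hm, hDk hm⟩⟩)
    rcases t.eq_empty_or_nonempty with rfl | ⟨B₀, hB₀⟩
    · left
      simp
      omega
    · have hall : ∀ B ∈ t, (MulAut.conj (g B))⁻¹ • B = D := by
        intro B hBt
        obtain ⟨b, hb, hb1⟩ := T14a_ne_one (hu2 B hBt).1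
        rw [← hu1 B hBt] at hb
        have h1 : u B = u₀ := hU.fixed_unique (h := b) ⟨hb.1, hDk hb.1⟩ hb1 hb.2 (hu₀ b ⟨hb.1, hDk hb.1⟩)
        rw [← hu1 B hBt, h1, hst]
      have hsing : t = {B₀} := by
        refine Finset.eq_singleton_iff_unique_mem.2 ⟨hB₀, fun B hBt => ?_⟩
        refine hconj B hBt B₀ hB₀ 1 H.one_mem ?_
        rw [map_one, one_smul, hall B hBt, hall B₀ hB₀]
      right
      constructor
      · rw [hsing, Finset.sum_singleton, ← hall B₀ hB₀, ← map_inv, rk_conj]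
      · rw [← hall B₀ hB₀]
        exact hu2 B₀ hB₀

/-- admissible finite sets of members -/
def T14aP (H : Subgroup Γ) (Ω : Set (Subgroup Γ)) (s : Finset (Subgroup Γ)) : Prop :=
  (∀ B ∈ s, B ∈ Ω) ∧ ∀ B ∈ s, ∀ B' ∈ s, ∀ h ∈ H, MulAut.conj h • B = B' → B = B'

/-- the complexity of a family -/
noncomputable def T14aC (H : Subgroup Γ) (Ω : Set (Subgroup Γ)) : ℕ :=
  sSup {n | ∃ s, T14aP H Ω s ∧ n = ∑ B ∈ s, (2 * rk B - 1)}

theorem T14a_vfac (hc : Ctx π) {H : Subgroup Γ} (hH : IsFactor π.ker π.ker H) (T : MTree H)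
    (hT : T.IsSplitting π.ker) {B : Subgroup Γ} (hB : B ∈ T.vgs π.ker) :
    B ≤ H ∧ IsFactor π.ker π.ker B := by
  obtain ⟨-, x, hx⟩ := hB
  have h := T14a_stab (fac_le hH) T x
  constructor
  · rw [← hx, h]; exact fun m hm => hm.1
  · exact fac_trans hc le_rfl hH (Or.inr ⟨T, hT, x, hx⟩)

theorem T14a_attained (hc : Ctx π) {H : Subgroup Γ} (hH : IsFactor π.ker π.ker H) (hne : H ≠ ⊥)
    (T : MTree H) (hT : T.IsSplitting π.ker) :
    T14aC H (T.vgs π.ker) ≤ 2 * rk H - 1 ∧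
      (∃ s, T14aP H (T.vgs π.ker) s ∧ T14aC H (T.vgs π.ker) = ∑ B ∈ s, (2 * rk B - 1)) ∧
      ∀ s, T14aP H (T.vgs π.ker) s → ∑ B ∈ s, (2 * rk B - 1) ≤ T14aC H (T.vgs π.ker) := by
  have hb : ∀ s, T14aP H (T.vgs π.ker) s → ∑ B ∈ s, (2 * rk B - 1) ≤ 2 * rk H - 1 := by
    intro s hs
    have h := T14a_fibre hc (fac_le hH) T hT le_rfl hH hne s hs.1 hs.2 (fun _ => 1) (by
      intro B hB
      refine ⟨H.one_mem, ?_⟩
      rw [map_one, one_smul]
      exact (T14a_vfac hc hH T hT (hs.1 B hB)).1)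
    rcases h with h | h
    · exact h.le
    · exact h.1.le
  have hbdd : BddAbove {n | ∃ s, T14aP H (T.vgs π.ker) s ∧ n = ∑ B ∈ s, (2 * rk B - 1)} := by
    refine ⟨2 * rk H - 1, ?_⟩
    rintro _ ⟨s, hs, rfl⟩
    exact hb s hs
  have hnon : {n | ∃ s, T14aP H (T.vgs π.ker) s ∧ n = ∑ B ∈ s, (2 * rk B - 1)}.Nonempty :=
    ⟨0, ∅, ⟨by simp, by simp⟩, by simp⟩
  have hmem := Nat.sSup_mem hnon hbdd
  obtain ⟨s, hs, hs'⟩ := hmem
  refine ⟨?_, ⟨s, hs, hs'⟩, fun t ht => le_csSup hbdd ⟨t, ht, rfl⟩⟩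
  unfold T14aC
  rw [hs']
  exact hb s hs

theorem T14a_strict (hc : Ctx π) {H : Subgroup Γ} (hH : IsFactor π.ker π.ker H) (hne : H ≠ ⊥)
    (T T' : MTree H) (hT : T.IsSplitting π.ker) (hT' : T'.IsSplitting π.ker)
    (hle : FamLe (T.vgs π.ker) (T'.vgs π.ker)) (hneq : T.vgs π.ker ≠ T'.vgs π.ker) :
    T14aC H (T.vgs π.ker) < T14aC H (T'.vgs π.ker) := by
  classical
  obtain ⟨-, ⟨s, hs, hs1⟩, -⟩ := T14a_attained hc hH hne T hT
  obtain ⟨-, ⟨s', hs', hs1'⟩, hs2'⟩ := T14a_attained hc hH hne T' hT'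
  -- `s'` is full
  have hinv : ∀ (T : MTree H), ∀ h ∈ H, ∀ B ∈ T.vgs π.ker, MulAut.conj h • B ∈ T.vgs π.ker := by
    intro T h hh B hB
    obtain ⟨hne, x, hx⟩ := hB
    rw [T14a_stab (fac_le hH)] at hx
    refine ⟨?_, T.act h x, ?_⟩
    · intro h0
      apply hne
      rw [smul_eq_iff_eq_inv_smul] at h0
      rw [h0, Subgroup.smul_bot]
    · rw [T14a_stab (fac_le hH), T.stab_act hh, hx]
  have hfull : ∀ B' ∈ T'.vgs π.ker, ∃ D ∈ s', ∃ h ∈ H, MulAut.conj h • D = B' := by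
    intro B' hB'
    by_contra hcon
    push Not at hcon
    have hnot : B' ∉ s' := fun h => hcon B' h 1 H.one_mem (by rw [map_one, one_smul])
    have h1 : T14aP H (T'.vgs π.ker) (insert B' s') := by
      constructor
      · intro B hB
        rcases Finset.mem_insert.1 hB with rfl | hB
        · exact hB'
        · exact hs'.1 B hB
      · intro B hB B'' hB'' h hh heq
        rcases Finset.mem_insert.1 hB with h5 | h5
        · rcases Finset.mem_insert.1 hB'' with h6 | h6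
          · rw [h5, h6]
          · exfalso
            refine hcon B'' h6 h⁻¹ (H.inv_mem hh) ?_
            rw [← heq, map_inv, inv_smul_smul, h5]
        · rcases Finset.mem_insert.1 hB'' with h6 | h6
          · exact absurd (heq.trans h6) (hcon B h5 h hh)
          · exact hs'.2 B h5 B'' h6 h hh heq
    have h2 := hs2' _ h1
    rw [Finset.sum_insert hnot, hs1'] at h2
    have h3 : 0 < rk B' := rk_pos hc (T14a_vfac hc hH T' hT' hB').2 hB'.1
    omega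
  -- the map to `s'`
  have hmap : ∀ B ∈ s, ∃ D ∈ s', ∃ h ∈ H, B ≤ MulAut.conj h • D := by
    intro B hB
    obtain ⟨B', hB', hBB'⟩ := hle B (hs.1 B hB)
    obtain ⟨D, hD, h, hh, hDB⟩ := hfull B' hB'
    exact ⟨D, hD, h, hh, by rw [hDB]; exact hBB'⟩
  have hmap' : ∀ B : Subgroup Γ, ∃ D : Subgroup Γ, ∃ h : Γ, B ∈ s → D ∈ s' ∧ h ∈ H ∧
      B ≤ MulAut.conj h • D := by
    intro B
    by_cases hB : B ∈ s
    · obtain ⟨D, hD, h, hh, hDB⟩ := hmap B hB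
      exact ⟨D, h, fun _ => ⟨hD, hh, hDB⟩⟩
    · exact ⟨⊥, 1, fun h => absurd h hB⟩
  choose f g hfg using hmap'
  have hsum : ∑ B ∈ s, (2 * rk B - 1) =
      ∑ D ∈ s', ∑ B ∈ s.filter (fun B => f B = D), (2 * rk B - 1) :=
    (Finset.sum_fiberwise_of_maps_to (fun B hB => (hfg B hB).1) _).symm
  have hfib : ∀ D ∈ s', ∑ B ∈ s.filter (fun B => f B = D), (2 * rk B - 1) < 2 * rk D - 1 ∨
      (∑ B ∈ s.filter (fun B => f B = D), (2 * rk B - 1) = 2 * rk D - 1 ∧ D ∈ T.vgs π.ker) := by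
    intro D hD
    have hDv := hs'.1 D hD
    obtain ⟨h1, h2⟩ := T14a_vfac hc hH T' hT' hDv
    refine T14a_fibre hc (fac_le hH) T hT h1 h2 hDv.1 _ (fun B hB =>
      hs.1 B (Finset.mem_filter.1 hB).1) (fun B hB B' hB' => hs.2 B (Finset.mem_filter.1 hB).1 B'
        (Finset.mem_filter.1 hB').1) g ?_
    intro B hB
    obtain ⟨hB1, hB2⟩ := Finset.mem_filter.1 hB
    obtain ⟨-, h3, h4⟩ := hfg B hB1
    rw [hB2] at h4
    exact ⟨h3, h4⟩
  by_contra hcon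
  rw [hs1, hs1', hsum] at hcon
  have hall : ∀ D ∈ s', D ∈ T.vgs π.ker := by
    intro D hD
    rcases hfib D hD with h | h
    · exfalso
      apply hcon
      refine Finset.sum_lt_sum (fun E hE => ?_) ⟨D, hD, h⟩
      rcases hfib E hE with h' | h'
      · exact h'.le
      · exact h'.1.le
    · exact h.2
  have hsub : T'.vgs π.ker ⊆ T.vgs π.ker := by
    intro B' hB'
    obtain ⟨D, hD, h, hh, rfl⟩ := hfull B' hB'
    exact hinv T h hh D (hall D hD)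
  refine hneq (Set.Subset.antisymm ?_ hsub)
  intro B hB
  obtain ⟨B', hB', hBB'⟩ := hle B hB
  have h1 := hsub hB'
  obtain ⟨hBne, x, hx⟩ := hB
  obtain ⟨-, x', hx'⟩ := h1
  rw [T14a_stab (fac_le hH)] at hx hx'
  obtain ⟨b, hb, hb1⟩ := T14a_ne_one hBne
  have hbx : b ∈ T.stab x := by rw [hx]; exact hb
  have hbx' : b ∈ T.stab x' := by rw [hx']; exact hBB' hb
  have hxx : x = x' := hT.fixed_unique (h := b) ⟨hbx.1, fac_le hH hbx.1⟩ hb1 hbx.2 hbx'.2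
  rw [← hx, hxx, hx']
  exact hB'

theorem fam_complexity (hc : Ctx π) {H : Subgroup Γ} (hH : IsFactor π.ker π.ker H) (hne : H ≠ ⊥) :
    ∃ (c : Set (Subgroup Γ) → ℕ) (N : ℕ), (∀ Ω, IsPeriph π.ker H Ω → c Ω ≤ N) ∧
      ∀ Ω Ω', IsPeriph π.ker H Ω → IsPeriph π.ker H Ω' → FamLe Ω Ω' → Ω ≠ Ω' → c Ω < c Ω' := by
  have hK : H ⊓ π.ker = H := inf_eq_left.2 (fac_le hH)
  have hH' : IsFactor π.ker π.ker (H ⊓ π.ker) := by rw [hK]; exact hH
  have hne' : H ⊓ π.ker ≠ ⊥ := by rw [hK]; exact hne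
  refine ⟨T14aC (H ⊓ π.ker), 2 * rk (H ⊓ π.ker) - 1, ?_, ?_⟩
  · intro Ω hΩ
    obtain ⟨T, hT, rfl⟩ := hΩ.tree
    exact (T14a_attained hc hH' hne' T hT).1
  · intro Ω Ω' hΩ hΩ' hle hneq
    obtain ⟨T, hT, rfl⟩ := hΩ.tree
    obtain ⟨T', hT', rfl⟩ := hΩ'.tree
    exact T14a_strict hc hH' hne' T T' hT hT' hle hneq

/-- a family for `M` is a family for `M ⊓ F` -/
theorem IsPeriph.restr {M : Subgroup Γ} {Ω : Set (Subgroup Γ)} (h : IsPeriph π.ker M Ω) :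
    IsPeriph π.ker (M ⊓ π.ker) Ω where
  inv := fun m hm B hB => h.inv m hm.1 B hB
  tree := by
    obtain ⟨T, hT, hv⟩ := h.tree
    have h1 : (M ⊓ π.ker) ⊓ π.ker ≤ M ⊓ π.ker := inf_le_left
    have h2 : ((M ⊓ π.ker) ⊓ π.ker) ⊓ π.ker = (M ⊓ π.ker) ⊓ π.ker := by
      rw [inf_assoc (M ⊓ π.ker), inf_idem]
    exact ⟨T.res h1, hT.res h1 h2, (T.res_vgs h1 h2).trans hv⟩

theorem periph_max (hc : Ctx π) {M : Subgroup Γ} (hM : Loc π M) (PP : Set (Set (Subgroup Γ)))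
    (hne : PP.Nonempty) (h : ∀ Ω ∈ PP, IsPeriph π.ker M Ω) :
    ∃ Ω ∈ PP, ∀ Ω' ∈ PP, FamLe Ω Ω' → Ω' = Ω := by
  classical
  obtain ⟨c, N, hN, hc'⟩ := fam_complexity hc hM.fac hM.ne
  have hex : ∃ n, ∃ Ω ∈ PP, N - c Ω = n := by
    obtain ⟨Ω, hΩ⟩ := hne
    exact ⟨_, Ω, hΩ, rfl⟩
  obtain ⟨Ω, hΩ, hn⟩ := Nat.find_spec hex
  refine ⟨Ω, hΩ, fun Ω' hΩ' hle => ?_⟩
  by_contra hneq
  have h1 := hc' Ω Ω' (h Ω hΩ).restr (h Ω' hΩ').restr hle (Ne.symm hneq)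
  have h2 := hN Ω' (h Ω' hΩ').restr
  have h3 := Nat.find_min' hex ⟨Ω', hΩ', rfl⟩
  omega

theorem periph_min (hc : Ctx π) {M : Subgroup Γ} (hM : Loc π M) (PP : Set (Set (Subgroup Γ)))
    (hne : PP.Nonempty) (h : ∀ Ω ∈ PP, IsPeriph π.ker M Ω) :
    ∃ Ω ∈ PP, ∀ Ω' ∈ PP, FamLe Ω' Ω → Ω' = Ω := by
  classical
  obtain ⟨c, N, hN, hc'⟩ := fam_complexity hc hM.fac hM.ne
  have hex : ∃ n, ∃ Ω ∈ PP, c Ω = n := by
    obtain ⟨Ω, hΩ⟩ := hne
    exact ⟨_, Ω, hΩ, rfl⟩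
  obtain ⟨Ω, hΩ, hn⟩ := Nat.find_spec hex
  refine ⟨Ω, hΩ, fun Ω' hΩ' hle => ?_⟩
  by_contra hneq
  have h1 := hc' Ω' Ω (h Ω' hΩ').restr (h Ω hΩ).restr hle hneq
  have h3 := Nat.find_min' hex ⟨Ω', hΩ', rfl⟩
  omega

end Pool.Agent.Lib.MP_6567fb_al
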