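import Pool.Agent.Lib.MP_6567fb_al.T14c
import Pool.Agent.Lib.MP_6567fb_al.T14b

/-!
# MP_6567fb_al, module T14e

Factors relative to a family.
-/

set_option autoImplicit false

open scoped Pointwise

namespace Pool.Agent.Lib.MP_6567fb_al

open MTree
open scoped Pointwise
variable {Γ G : Type} [Group Γ] [Group G] {π : Γ →* G}

theorem IsOFactor.fac {F H D : Subgroup Γ} {Ω : Set (Subgroup Γ)} (h : IsOFactor F H Ω D) :
    IsFactor F H D := by
  rcases h with h | ⟨T, hT, -, x, hx⟩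
  · exact Or.inl h
  · exact Or.inr ⟨T, hT, x, hx⟩

open Classical in
/-- the star: one vertex fixed by `H` and a free orbit of leaves -/
noncomputable def star_t14e (H : Subgroup Γ) : MTree H where
  X := Option H
  G := SimpleGraph.starGraph none
  tree := SimpleGraph.isTree_starGraph none
  act := fun m x => if h : m ∈ H then x.map (fun a => (⟨m, h⟩ : H) * a) else x
  act_one := by
    intro x
    rw [dif_pos H.one_mem]
    cases x with
    | none => rfl
    | some a =>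
      have : (⟨1, H.one_mem⟩ : H) = 1 := rfl
      simp [this]
  act_mul := by
    intro m hm m' hm' x
    rw [dif_pos (mul_mem hm hm'), dif_pos hm', dif_pos hm]
    cases x with
    | none => rfl
    | some a => exact congrArg some (mul_assoc (⟨m, hm⟩ : H) ⟨m', hm'⟩ a)
  act_adj := by
    intro m hm x y hxy
    rw [dif_pos hm, dif_pos hm]
    rw [SimpleGraph.starGraph_adj] at hxy ⊢
    obtain ⟨hne, h⟩ := hxy
    constructor
    · intro h'
      exact hne (Option.map_injective (mul_right_injective _) h')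
    · rcases h with rfl | rfl
      · exact Or.inl rfl
      · exact Or.inr rfl

theorem star_act_t14e {H : Subgroup Γ} {m : Γ} (hm : m ∈ H) (x : Option H) :
    (star_t14e H).act m x = x.map (fun a => (⟨m, hm⟩ : H) * a) := dif_pos hm

theorem star_free_t14e {H : Subgroup Γ} {m : Γ} (hm : m ∈ H) (a : H)
    (h : (star_t14e H).act m (some a : Option H) = (some a : Option H)) : m = 1 := by
  rw [star_act_t14e hm] at h
  have h1 : (⟨m, hm⟩ : H) * a = a := Option.some.inj h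
  have h2 : (⟨m, hm⟩ : H) = 1 := mul_eq_right.1 h1
  exact congrArg Subtype.val h2

theorem star_isSplitting_t14e {H : Subgroup Γ} (hH : H ≤ π.ker) :
    (star_t14e H).IsSplitting π.ker := by
  refine ⟨?_, ?_, ?_⟩
  · rintro h ⟨hh, -⟩ x y hxy hx hy
    have hxy' : (SimpleGraph.starGraph (none : Option H)).Adj x y := hxy
    rw [SimpleGraph.starGraph_adj] at hxy'
    obtain ⟨hne, h0⟩ := hxy'
    rcases h0 with h0 | h0
    · cases y with
      | none => exact absurd h0 hne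
      | some a => exact star_free_t14e hh a hy
    · cases x with
      | none => exact absurd h0.symm hne
      | some a => exact star_free_t14e hh a hx
  · intro m hm x y _
    exact ⟨m, ⟨hm, hH hm⟩, rfl, rfl⟩
  · have hfin : ({((none : Option H), (some 1 : Option H)), ((some 1 : Option H), (none : Option H))} :
        Set ((star_t14e H).X × (star_t14e H).X)).Finite := Set.toFinite _
    refine ⟨hfin.toFinset, ?_⟩
    intro x y hxy
    have hxy' : (SimpleGraph.starGraph (none : Option H)).Adj x y := hxy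
    rw [SimpleGraph.starGraph_adj] at hxy'
    obtain ⟨hne, h0⟩ := hxy'
    rcases h0 with h0 | h0
    · cases y with
      | none => exact absurd h0 hne
      | some a =>
        refine ⟨((a⁻¹ : H) : Γ), ⟨(a⁻¹).2, hH (a⁻¹).2⟩, ?_⟩
        rw [h0]
        have h1 : (star_t14e H).act ((a⁻¹ : H) : Γ) (none : Option H) = (none : Option H) := by
          rw [star_act_t14e (a⁻¹).2]; rfl
        have h2 : (star_t14e H).act ((a⁻¹ : H) : Γ) (some a : Option H) = (some 1 : Option H) := by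
          rw [star_act_t14e (a⁻¹).2]
          exact congrArg some (inv_mul_cancel a)
        rw [h1, h2, Set.Finite.mem_toFinset]
        exact Or.inl rfl
    · cases x with
      | none => exact absurd h0.symm hne
      | some a =>
        refine ⟨((a⁻¹ : H) : Γ), ⟨(a⁻¹).2, hH (a⁻¹).2⟩, ?_⟩
        rw [h0]
        have h1 : (star_t14e H).act ((a⁻¹ : H) : Γ) (none : Option H) = (none : Option H) := by
          rw [star_act_t14e (a⁻¹).2]; rfl
        have h2 : (star_t14e H).act ((a⁻¹ : H) : Γ) (some a : Option H) = (some 1 : Option H) := by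
          rw [star_act_t14e (a⁻¹).2]
          exact congrArg some (inv_mul_cancel a)
        rw [h1, h2, Set.Finite.mem_toFinset]
        exact Or.inr rfl

theorem ofac_bot_t14e {H : Subgroup Γ} (hH : H ≤ π.ker) {Ω : Set (Subgroup Γ)}
    (hΩ : ∀ B ∈ Ω, B ≤ H) : IsOFactor π.ker H Ω ⊥ := by
  refine Or.inr ⟨star_t14e H, star_isSplitting_t14e hH, ?_, (some 1 : Option H), ?_⟩
  · intro B hB
    refine ⟨(none : Option H), fun b hb => ?_⟩
    rw [star_act_t14e (hΩ B hB hb)]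
    rfl
  · rw [Subgroup.eq_bot_iff_forall]
    intro m hm
    exact star_free_t14e hm.1.1 1 hm.1.2

theorem ofac_inter (hc : Ctx π) {H : Subgroup Γ} (hH : IsFactor π.ker π.ker H) {Ω : Set (Subgroup Γ)}
    (hΩ : IsPeriph π.ker H Ω) {D E : Subgroup Γ} (hD : IsOFactor π.ker H Ω D)
    (hE : IsOFactor π.ker H Ω E) : IsOFactor π.ker H Ω (D ⊓ E) := by
  have hHF : H ≤ π.ker := fac_le hH
  have hΩH : ∀ B ∈ Ω, B ≤ H := fun B hB => (periph_le hΩ hB).trans inf_le_left
  rcases hD with rfl | ⟨T₁, h1, h1r, x₁, hx₁⟩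
  · rw [inf_eq_right.2 (fac_le hE.fac)]
    exact hE
  rcases hE with rfl | ⟨T₂, h2, h2r, x₂, hx₂⟩
  · have hDH : D ≤ E := by
      rw [← hx₁]
      exact fun k hk => hk.1.1
    rw [inf_eq_left.2 hDH]
    exact Or.inr ⟨T₁, h1, h1r, x₁, hx₁⟩
  have hD' : T₁.stab x₁ = D := by
    rw [← hx₁]
    exact (inf_eq_left.2 fun k hk => hHF hk.1).symm
  have hE' : T₂.stab x₂ = E := by
    rw [← hx₂]
    exact (inf_eq_left.2 fun k hk => hHF hk.1).symm
  by_cases hbot : D ⊓ E = ⊥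
  · rw [hbot]
    exact ofac_bot_t14e hHF hΩH
  obtain ⟨T, hT, hv⟩ := meet_exists hc hH T₁ T₂ h1 h2
  refine Or.inr ⟨T, hT, ?_, ?_⟩
  · intro B hB
    obtain ⟨x, hx⟩ := h1r B hB
    obtain ⟨y, hy⟩ := h2r B hB
    have hle : B ≤ T₁.stab x ⊓ T₂.stab y :=
      fun b hb => ⟨⟨hΩH B hB hb, hx b hb⟩, ⟨hΩH B hB hb, hy b hb⟩⟩
    have hmem : T₁.stab x ⊓ T₂.stab y ∈ T.vgs π.ker := by
      rw [hv]
      exact ⟨fun h => periph_ne hΩ hB (le_bot_iff.1 (h ▸ hle)), x, y, rfl⟩
    obtain ⟨-, z, hz⟩ := hmem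
    refine ⟨z, fun d hd => ?_⟩
    have hd' := hle hd
    rw [← hz] at hd'
    exact hd'.1.2
  · have hmem : D ⊓ E ∈ T.vgs π.ker := by
      rw [hv]
      exact ⟨hbot, x₁, x₂, by rw [hD', hE']⟩
    exact hmem.2

theorem smul_ne_t14e {D : Subgroup Γ} (m : Γ) {b : Γ} :
    b ∈ MulAut.conj m⁻¹ • D ↔ m * b * m⁻¹ ∈ D := by
  rw [Subgroup.mem_pointwise_smul_iff_inv_smul_mem, MulAut.smul_def, ← map_inv, inv_inv,
    MulAut.conj_apply]

/-- a factor of an `Ω`-factor relative to the restricted family is an `Ω`-factor -/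
theorem ofac_trans (hc : Ctx π) {H : Subgroup Γ} (hH : IsFactor π.ker π.ker H) {Ω : Set (Subgroup Γ)}
    (hΩ : IsPeriph π.ker H Ω) {D : Subgroup Γ} (hD : IsOFactor π.ker H Ω D) (T' : MTree D)
    (hT' : T'.IsSplitting π.ker) (hrel : ∀ B ∈ Ω, T'.Ell ((B ⊓ D : Subgroup Γ) : Set Γ)) (x : T'.X) :
    IsOFactor π.ker H Ω (T'.stab x ⊓ π.ker) := by
  have hHF : H ≤ π.ker := fac_le hH
  have hΩH : ∀ B ∈ Ω, B ≤ H := fun B hB => (periph_le hΩ hB).trans inf_le_left
  rcases hD with rfl | ⟨B₀, hB₀, hB₀r, x₀, hx₀⟩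
  · refine Or.inr ⟨T', hT', ?_, x, rfl⟩
    intro B hB
    have h1 := hrel B hB
    rwa [inf_eq_left.2 (hΩH B hB)] at h1
  have hD' : D = B₀.stab x₀ := by
    rw [← hx₀]
    exact inf_eq_left.2 fun k hk => hHF hk.1
  subst hD'
  classical
  have hfree : ∀ h ∈ H, ∀ x y, B₀.G.Adj x y → B₀.act h x = x → B₀.act h y = y → h = 1 :=
    fun h hh => hB₀.free h ⟨hh, hHF hh⟩
  have hU : ∀ v, ∃ U : MTree (B₀.stab v), U.IsSplitting π.ker ∧
      (∀ C : Subgroup Γ, C ≤ B₀.stab v → (v = x₀ → T'.Ell (C : Set Γ)) → U.Ell (C : Set Γ)) ∧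
      (v = x₀ → ∃ u : U.X, U.stab u = T'.stab x) := by
    intro v
    by_cases hv : v = x₀
    · subst hv
      exact ⟨T', hT', fun C _ h => h rfl, fun _ => ⟨x, rfl⟩⟩
    · exact ⟨point _, point_isSplitting _ _, fun C _ _ => ⟨Unit.unit, fun _ _ => rfl⟩,
        fun h => absurd h hv⟩
  choose U hU1 hU2 hU3 using hU
  choose att hatt using fun v => exists_att_t14c B₀ hfree v (U v)
  obtain ⟨R, hx₀R, hR⟩ := exists_reps B₀ x₀
  obtain ⟨T, pr, ι, hb, hι⟩ := blowup_exists B₀ R hR U att (fun v _ => hatt v)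
  have hstab : ∀ r ∈ R, ∀ u : (U r).X, T.stab (ι r u) = (U r).stab u := by
    intro r hr u
    obtain ⟨hemb, hran, -⟩ := hι r hr
    have hpr : pr (ι r u) = r := by
      have : ι r u ∈ pr ⁻¹' {r} := by
        rw [← hran]
        exact ⟨u, rfl⟩
      exact this
    have hle : T.stab (ι r u) ≤ B₀.stab r := by
      have := hb.stab_le (ι r u)
      rwa [hpr] at this
    ext m
    constructor
    · intro hm
      refine ⟨hle hm, hemb.inj ?_⟩
      rw [hemb.equi m (hle hm)]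
      exact hm.2
    · intro hm
      refine ⟨hm.1.1, ?_⟩
      rw [← hemb.equi m hm.1, hm.2]
  refine Or.inr ⟨T, ?_, ?_, ?_⟩
  · apply hb.isSplitting hB₀ R (fun v => (hR v).exists)
    intro v hv
    exact ⟨U v, ι v, (hι v hv).1, (hι v hv).2.1, hU1 v⟩
  · intro B hB
    obtain ⟨v, hv⟩ := hB₀r B hB
    obtain ⟨r, ⟨hr, m, hm, hmr⟩, -⟩ := hR v
    have hC : MulAut.conj m⁻¹ • B ≤ B₀.stab r := by
      intro b hb'
      rw [smul_ne_t14e] at hb'
      have hbH : b ∈ H := by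
        have h3 := mul_mem (mul_mem (inv_mem hm) (hΩH B hB hb')) hm
        have h4 : m⁻¹ * (m * b * m⁻¹) * m = b := by group
        rwa [h4] at h3
      refine ⟨hbH, ?_⟩
      have h5 := hv _ hb'
      rw [← hmr, B₀.act_mul _ (mul_mem hm hbH) _ (inv_mem hm), B₀.act_inv_act hm,
        B₀.act_mul m hm b hbH] at h5
      exact B₀.act_inj hm h5
    have hell := hU2 r (MulAut.conj m⁻¹ • B) hC (by
      rintro rfl
      have h6 := hrel _ (hΩ.inv m⁻¹ (inv_mem hm) B hB)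
      rwa [inf_eq_left.2 hC] at h6)
    obtain ⟨u, hu⟩ := hell
    refine ⟨T.act m (ι r u), ?_⟩
    intro b hb'
    have hbH := hΩH B hB hb'
    have h7 : m⁻¹ * b * m ∈ MulAut.conj m⁻¹ • B := by
      rw [smul_ne_t14e]
      have h8 : m * (m⁻¹ * b * m) * m⁻¹ = b := by group
      rwa [h8]
    have h9 : m⁻¹ * b * m ∈ T.stab (ι r u) := by
      rw [hstab r hr u]
      exact ⟨hC h7, hu _ h7⟩
    have h10 : b * m = m * (m⁻¹ * b * m) := by group
    rw [← T.act_mul b hbH m hm, h10, T.act_mul m hm _ h9.1, h9.2]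
  · obtain ⟨u, hu⟩ := hU3 x₀ rfl
    exact ⟨ι x₀ u, by rw [hstab x₀ hx₀R u, hu]⟩

/-- the twisted tree as a tree for the group `K` -/
theorem tw_same_t14e {H K : Subgroup Γ} (T : MTree H) (hT : T.IsSplitting π.ker) (γ : Γ)
    (hK : MulAut.conj γ • H = K) :
    ∃ T₃ : MTree K, T₃.IsSplitting π.ker ∧
      (∀ x : T.X, ∃ y : T₃.X, T₃.stab y = MulAut.conj γ • T.stab x) ∧
      ∀ B : Subgroup Γ, T.Ell ((MulAut.conj γ⁻¹ • B : Subgroup Γ) : Set Γ) → T₃.Ell (B : Set Γ) := by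
  subst hK
  refine ⟨T.tw γ, tw_isSplitting hT γ, fun x => ⟨x, tw_stab T γ x⟩, ?_⟩
  rintro B ⟨x, hx⟩
  refine ⟨x, ?_⟩
  intro b hb
  apply hx
  have h1 := Subgroup.smul_mem_pointwise_smul b (MulAut.conj γ⁻¹) B hb
  rw [MulAut.smul_def, MulAut.conj_apply, inv_inv] at h1
  exact h1

theorem ofac_conj (hc : Ctx π) {M : Subgroup Γ} {Ω : Set (Subgroup Γ)}
    (hΩ : ∀ m ∈ M, ∀ B ∈ Ω, MulAut.conj m • B ∈ Ω) {D : Subgroup Γ}
    (hD : IsOFactor π.ker (M ⊓ π.ker) Ω D) {m : Γ} (hm : m ∈ M) :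
    IsOFactor π.ker (M ⊓ π.ker) Ω (MulAut.conj m • D) := by
  have hK : MulAut.conj m • (M ⊓ π.ker) = M ⊓ π.ker := by
    rw [Subgroup.smul_inf, Subgroup.conj_smul_eq_self_of_mem hm,
      Subgroup.Normal.conj_smul_eq_self m π.ker]
  rcases hD with rfl | ⟨T, hT, hTr, x, hx⟩
  · exact Or.inl hK
  · obtain ⟨T₃, hT₃, hst, hell⟩ := tw_same_t14e T hT m hK
    obtain ⟨y, hy⟩ := hst x
    refine Or.inr ⟨T₃, hT₃, ?_, y, ?_⟩
    · intro B hB
      apply hell
      exact hTr _ (hΩ m⁻¹ (inv_mem hm) B hB)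
    · rw [hy, ← hx, Subgroup.smul_inf, Subgroup.Normal.conj_smul_eq_self m π.ker]

/-- the smallest `Ω`-factor containing a set -/
theorem ofac_smallest (hc : Ctx π) {H : Subgroup Γ} (hH : IsFactor π.ker π.ker H) {Ω : Set (Subgroup Γ)}
    (hΩ : IsPeriph π.ker H Ω) (S : Set Γ) (hS : S ⊆ H) :
    ∃ D, IsOFactor π.ker H Ω D ∧ S ⊆ D ∧ ∀ E, IsOFactor π.ker H Ω E → S ⊆ E → D ≤ E := by
  classical
  have hne : ∃ n : ℕ, ∃ D, IsOFactor π.ker H Ω D ∧ S ⊆ D ∧ rk D = n := ⟨_, H, Or.inl rfl, hS, rfl⟩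
  obtain ⟨D, hD, hSD, hrk⟩ := Nat.find_spec hne
  refine ⟨D, hD, hSD, ?_⟩
  intro E hE hSE
  have hDE := ofac_inter hc hH hΩ hD hE
  have hfD : IsFactor π.ker π.ker D := fac_trans hc le_rfl hH hD.fac
  have hfDE : IsFactor π.ker π.ker (D ⊓ E) := fac_trans hc le_rfl hH hDE.fac
  by_contra hcon
  have hlt : D ⊓ E < D := lt_of_le_of_ne inf_le_left fun h => hcon (inf_eq_left.1 h)
  have h1 := rk_lt hc hfD hfDE hlt
  have h2 := Nat.find_min' hne ⟨D ⊓ E, hDE, Set.subset_inter hSD hSE, rfl⟩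
  omega

theorem fac_eq_of_rk (hc : Ctx π) {H D E : Subgroup Γ} (hH : IsFactor π.ker π.ker H)
    (hD : IsFactor π.ker H D) (hE : IsFactor π.ker H E) (h : E ≤ D) (hr : rk D ≤ rk E) : D = E := by
  by_contra hcon
  have hlt : E < D := lt_of_le_of_ne h fun h' => hcon h'.symm
  have h1 := rk_lt hc (fac_trans hc le_rfl hH hD) (fac_trans hc le_rfl hH hE) hlt
  omega

end Pool.Agent.Lib.MP_6567fb_al
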