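import Pool.Agent.Lib.MP_6567fb_al.F0
import Pool.Agent.Lib.MP_6567fb_al.T8
import Pool.Agent.Lib.MP_6567fb_al.T14a
import Pool.Agent.Lib.MP_6567fb_al.T14e
import Pool.Agent.Lib.MP_6567fb_al.T6

/-!
# MP_6567fb_al, module F2a

inv_axis: E elliptic would give a unique vertex fixed by E (fixed_unique), which p fixes (fix_of_norm): contradiction with hL.  So core E is a non-empty convex set
invariant under p (core_conj): axis_subset.  P over π p fixing an edge of the axis: rlemma for the group Mg π M (π p) and the Mg-factor E (inv_mfactor); T restricted to Mg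
(IsSplitting.mg).  p P⁻¹ is in H and normalises E, so in E (fac_malnormal, E ≠ ⊥).
exists_supp: L the axis (ell_or_axis), P the lift of π p fixing the edge (L 0, L 1), y := p P⁻¹ ≠ 1 (it maps L 0 to L l); all p-invariant Ω-factors E ≠ ⊥
contain y (inv_axis).  Take one of minimal rank (H itself is one); for another one E' the intersection (ofac_inter) contains y, is p-invariant, has the same
rank, so D ≤ E' (fac_eq_of_rk).  Ω is a family for H: IsPeriph.restr.
supp_le_of_comm: E := smallest Ω-factor containing d (ofac_smallest); E ≤ D; conj P • E is the smallest one containing P d P⁻¹ = d (ofac_conj), so E is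
P-invariant; D1 ≤ E by minimality.
-/

set_option autoImplicit false

open scoped Pointwise
open Filter

namespace Pool.Agent.Lib.MP_6567fb_al

open MTree
variable {Γ G : Type} [Group Γ] [Group G] {π : Γ →* G}

theorem inv_axis (hc : Ctx π) {M : Subgroup Γ} (hM : Full π M) {T : MTree M}
    (hT : T.IsSplitting π.ker) {p : Γ} (hp : p ∈ M) {E : Subgroup Γ}
    (hE : IsFactor π.ker (M ⊓ π.ker) E) (hne : E ≠ ⊥) (hinv : MulAut.conj p • E = E) {l : ℕ}
    {L : ℤ → T.X} (hL : T.IsAxis p l L) :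
    ¬ T.Ell (E : Set Γ) ∧ (∀ i, L i ∈ T.core E) ∧ ∀ i, ∀ P ∈ M, π P = π p →
      T.FixE P (L i) (L (i + 1)) → MulAut.conj P • E = E ∧ p * P⁻¹ ∈ E := by
  have hni := hT.noInv hc
  have hEM : E ≤ M ⊓ π.ker := fac_le hE
  have hEF : IsFactor π.ker π.ker E := fac_trans hc le_rfl hM.fac hE
  have hell : ¬ T.Ell (E : Set Γ) := by
    rintro ⟨x, hx⟩
    have h1 : E ≤ T.stab x ⊓ π.ker := fun d hd => ⟨⟨(hEM hd).1, hx d hd⟩, (hEM hd).2⟩
    exact T.hyp_of_axis hp hL x (fix_of_norm hc hT h1 hne hp hinv)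
  have hsub : Set.range L ⊆ T.core E := by
    refine T.axis_subset hp hL (T.core_conv hni (hEM.trans inf_le_left))
      (T.core_nonempty hni (hEM.trans inf_le_left) (fac_fg hc hEF)) ?_
    intro x
    have h2 := T.core_conj (D := E) (hEM.trans inf_le_left) hp
    rw [hinv] at h2
    constructor
    · intro hx
      rw [h2] at hx
      obtain ⟨y, hy, hyx⟩ := hx
      have h3 : y = x := by
        have h4 := congrArg (T.act p⁻¹) hyx
        rw [T.act_inv_act hp, T.act_inv_act hp] at h4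
        exact h4
      exact h3 ▸ hy
    · intro hx
      rw [h2]
      exact ⟨x, hx, rfl⟩
  refine ⟨hell, fun i => hsub ⟨i, rfl⟩, ?_⟩
  intro i P hP hPp hf
  have hadj : T.G.Adj (L i) (L (i + 1)) := by
    apply SimpleGraph.dist_eq_one_iff_adj.1
    rw [hL.2.1 i (i + 1)]
    omega
  have h5 : MulAut.conj P • E = E := by
    refine rlemma hc (hM.toLoc.mg (π p)) (T := T.res (mg_le M (π p))) (IsSplitting.mg hT (π p))
      (inv_mfactor hE hne hp hinv) hell (hsub ⟨i, rfl⟩) (hsub ⟨i + 1, rfl⟩) hadj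
      (mem_mg hP hPp) hf
  refine ⟨h5, ?_⟩
  have h6 : p * P⁻¹ ∈ M ⊓ π.ker := by
    refine Subgroup.mem_inf.2 ⟨M.mul_mem hp (M.inv_mem hP), ?_⟩
    rw [MonoidHom.mem_ker, map_mul, map_inv, hPp, mul_inv_cancel]
  have h7 : MulAut.conj (p * P⁻¹) • E = E := by
    rw [map_mul, mul_smul, map_inv]
    have h8 : (MulAut.conj P)⁻¹ • E = E := by
      rw [inv_smul_eq_iff, h5]
    rw [h8, hinv]
  refine fac_malnormal hc inf_le_right hE h6 ?_
  rw [h7, inf_idem]
  exact hne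

theorem exists_supp (hc : Ctx π) {M : Subgroup Γ} (hM : Full π M) {Ω : Set (Subgroup Γ)}
    (hΩ : IsProper π.ker M Ω) {T : MTree M} (hT : T.IsSplitting π.ker) (hr : T.Rel Ω) {p : Γ}
    (hp : p ∈ M) (hy : T.Hyp p) : ∃ D, IsSupp π.ker (M ⊓ π.ker) Ω p D := by
  have hni := hT.noInv hc
  have hΩ' : IsPeriph π.ker (M ⊓ π.ker) Ω := ((proper_iff hc hM.toLoc).1 hΩ).1.restr
  obtain ⟨l, L, hL⟩ : ∃ (l : ℕ) (L : ℤ → T.X), T.IsAxis p l L := by
    rcases T.ell_or_axis hni hp with ⟨x, hx⟩ | h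
    · exact absurd hx (hy x)
    · exact h
  have hadj : T.G.Adj (L 0) (L (0 + 1)) := by
    apply SimpleGraph.dist_eq_one_iff_adj.1
    rw [hL.2.1 0 (0 + 1)]
    omega
  obtain ⟨P, ⟨hPM, hPp, hPf⟩, -⟩ := hT.lift hadj hp
  have hy1 : p * P⁻¹ ≠ 1 := by
    intro h
    have h1 : p = P := by
      rw [mul_inv_eq_one] at h
      exact h
    exact hy (L 0) (h1 ▸ hPf.1)
  let S : Set (Subgroup Γ) := {E | IsOFactor π.ker (M ⊓ π.ker) Ω E ∧ E ≠ ⊥ ∧ MulAut.conj p • E = E}
  have hSy : ∀ E ∈ S, p * P⁻¹ ∈ E := fun E hE =>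
    ((inv_axis hc hM hT hp hE.1.fac hE.2.1 hE.2.2 hL).2.2 0 P hPM hPp hPf).2
  have hSne : S.Nonempty := by
    refine ⟨M ⊓ π.ker, Or.inl rfl, hM.ne, ?_⟩
    ext x
    rw [Subgroup.mem_pointwise_smul_iff_inv_smul_mem, ← map_inv, MulAut.smul_def, MulAut.conj_apply,
      inv_inv]
    constructor
    · intro h
      obtain ⟨h1, h2⟩ := Subgroup.mem_inf.1 h
      refine Subgroup.mem_inf.2 ⟨?_, ?_⟩
      · have := M.mul_mem (M.mul_mem hp h1) (M.inv_mem hp)
        simpa [mul_assoc] using this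
      · rw [MonoidHom.mem_ker] at h2 ⊢
        rw [map_mul, map_mul, map_inv] at h2
        have h3 : (π p)⁻¹ * π x * π p = 1 := h2
        rw [mul_assoc, inv_mul_eq_one] at h3
        exact mul_eq_right.1 h3.symm
    · intro h
      obtain ⟨h1, h2⟩ := Subgroup.mem_inf.1 h
      refine Subgroup.mem_inf.2 ⟨M.mul_mem (M.mul_mem (M.inv_mem hp) h1) hp, ?_⟩
      rw [MonoidHom.mem_ker] at h2 ⊢
      rw [map_mul, map_mul, map_inv, h2, mul_one, inv_mul_cancel]
  obtain ⟨D, hDS, hDmin⟩ : ∃ D ∈ S, ∀ E ∈ S, rk D ≤ rk E := by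
    obtain ⟨n, ⟨D, hD, hDn⟩, hmin⟩ := WellFounded.has_min (wellFounded_lt (α := ℕ))
      (rk '' S) (hSne.image _)
    refine ⟨D, hD, fun E hE => ?_⟩
    have := hmin (rk E) ⟨E, hE, rfl⟩
    omega
  refine ⟨D, hDS.1, hDS.2.1, hDS.2.2, ?_⟩
  intro E hE hEne hEinv
  have hin : D ⊓ E ∈ S := by
    refine ⟨ofac_inter hc hM.fac hΩ' hDS.1 hE, ?_, ?_⟩
    · intro h
      apply hy1
      have h1 : p * P⁻¹ ∈ D ⊓ E := ⟨hSy D hDS, hSy E ⟨hE, hEne, hEinv⟩⟩
      rw [h] at h1
      exact Subgroup.mem_bot.1 h1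
    · rw [Subgroup.smul_inf, hDS.2.2, hEinv]
  have := fac_eq_of_rk hc hM.fac hDS.1.fac hin.1.fac inf_le_left (hDmin _ hin)
  rw [this]
  exact inf_le_right

/-- an element `d ≠ 1` of an `Ω`-factor `D` commuting with `P` forces `D(P) ≤ D` -/
theorem supp_le_of_comm (hc : Ctx π) {M : Subgroup Γ} (hM : Full π M) {Ω : Set (Subgroup Γ)}
    (hΩ : IsProper π.ker M Ω) {P d : Γ} {D D1 : Subgroup Γ}
    (hP : P ∈ M) (hD : IsOFactor π.ker (M ⊓ π.ker) Ω D) (hd : d ∈ D) (hd1 : d ≠ 1)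
    (hcomm : d * P = P * d) (h1 : IsSupp π.ker (M ⊓ π.ker) Ω P D1) : D1 ≤ D := by
  have hΩ' : IsPeriph π.ker (M ⊓ π.ker) Ω := ((proper_iff hc hM.toLoc).1 hΩ).1.restr
  obtain ⟨E, hE, hdE, hmin⟩ := ofac_smallest hc hM.fac hΩ' {d}
    (Set.singleton_subset_iff.2 (fac_le hD.fac hd))
  have hdE' : d ∈ E := Set.singleton_subset_iff.1 hdE
  have key : ∀ Q ∈ M, d * Q = Q * d → E ≤ MulAut.conj Q • E := by
    intro Q hQ hcQ
    refine hmin _ (ofac_conj hc hΩ.inv hE hQ) (Set.singleton_subset_iff.2 ?_)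
    have h2 : d = MulAut.conj Q • d := by
      rw [MulAut.smul_def, MulAut.conj_apply, ← hcQ, mul_inv_cancel_right]
    rw [h2]
    exact Subgroup.smul_mem_pointwise_smul _ _ _ hdE'
  have h3 := key P hP hcomm
  have h4 := key P⁻¹ (M.inv_mem hP) (by
    rw [eq_inv_mul_iff_mul_eq, ← mul_assoc, ← hcomm, mul_assoc, mul_inv_cancel, mul_one])
  have h5 : MulAut.conj P • E = E := by
    apply le_antisymm _ h3
    rw [map_inv] at h4
    have h6 := (Subgroup.pointwise_smul_le_pointwise_smul_iff (a := MulAut.conj P)).2 h4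
    rw [smul_inv_smul] at h6
    exact h6
  have hEne : E ≠ ⊥ := by
    intro h
    rw [h] at hdE'
    exact hd1 (Subgroup.mem_bot.1 hdE')
  exact (h1.min E hE hEne h5).trans (hmin D hD (Set.singleton_subset_iff.2 hd))

end Pool.Agent.Lib.MP_6567fb_al
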