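import Pool.Agent.Lib.MP_6567fb_al.T2b

/-!
# MP_6567fb_al, module T10c

Geometry of a blow up pr : T → B.  btw, dist_le: the image of a geodesic is a walk without backtracking after removing
repetitions: between two successive lifted edges over (u,v) and (v,w) with u = w the same oriented edge reversed would be used (lift is
unique), so the geodesic would pass the same edge twice.  beyond: S = {z : B.Beyond (pr x) (pr y) (pr z)} and its complement are
separated only by the edge (x,y).  ell, noInv, stab_le: equivariance.  hyp_iff: if all pr (L i) are equal = v then m v = v.  If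
pr (L i) ≠ pr (L (i+1)): m^n separates by `beyond`, the edges pr (L (i + k l)), pr (L(i + k l + 1)) are coherent, so m is hyperbolic.
isSplitting: see IsBlowup.lift: every edge of T is a lift of a base edge or is in a fibre; move the fibre to v in R; finitely many
(M ⊓ F)-orbits of vertices of B: each vertex is an end of an edge or B is a point.  base: images.
-/

set_option autoImplicit false

open scoped Pointwise

namespace Pool.Agent.Lib.MP_6567fb_al

open MTree
namespace MTree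
variable {Γ : Type} [Group Γ] {M : Subgroup Γ} {T B : MTree M} {pr : T.X → B.X}

/-- an edge which is not collapsed is mapped to an edge -/
theorem IsBlowup.t10_adj (hb : IsBlowup T B pr) {x y : T.X} (hxy : T.G.Adj x y) (hne : pr x ≠ pr y) :
    B.G.Adj (pr x) (pr y) := (hb.adj x y hxy).resolve_left hne

/-- uniqueness of lifts -/
theorem IsBlowup.t10_lift_unique (hb : IsBlowup T B pr) {x y x' y' : T.X} (hxy : T.G.Adj x y) (hxy' : T.G.Adj x' y')
    (h : B.G.Adj (pr x) (pr y)) (h1 : pr x' = pr x) (h2 : pr y' = pr y) : x' = x ∧ y' = y := by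
  have := (hb.lift _ _ h).unique (y₁ := (x', y')) (y₂ := (x, y)) ⟨hxy', h1, h2⟩ ⟨hxy, rfl, rfl⟩
  rwa [Prod.mk.injEq] at this

theorem IsBlowup.t10_beyond_aux (hb : IsBlowup T B pr) {x y : T.X} (hxy : T.G.Adj x y) (hne : pr x ≠ pr y) :
    ∀ n z, T.G.dist z y = n → T.Beyond x y z → B.Beyond (pr x) (pr y) (pr z) := by
  have hadj := hb.t10_adj hxy hne
  intro n
  induction n with
  | zero =>
    intro z hz _
    have : z = y := T.tree.connected.dist_eq_zero_iff.mp hz
    subst this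
    change B.G.dist (pr z) (pr z) < B.G.dist (pr x) (pr z)
    rw [SimpleGraph.dist_self, SimpleGraph.dist_eq_one_iff_adj.mpr hadj]
    exact one_pos
  | succ n ih =>
    intro z hz hbz
    have hzy : z ≠ y := by
      rintro rfl
      rw [SimpleGraph.dist_self] at hz
      omega
    obtain ⟨w, hzw, hw⟩ := (TG.exists_unique_next T.tree hzy).exists
    have hwy : T.G.dist w y = n := by omega
    have hbw : T.Beyond x y w := by
      change T.G.dist y w < T.G.dist x w
      change T.G.dist y z < T.G.dist x z at hbz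
      have h1 : T.G.dist x z ≤ T.G.dist x w + T.G.dist w z := T.tree.connected.dist_triangle
      have h2 : T.G.dist w z = 1 := SimpleGraph.dist_eq_one_iff_adj.mpr hzw.symm
      have h3 : T.G.dist y w = n := by rw [SimpleGraph.dist_comm]; exact hwy
      have h4 : T.G.dist y z = n + 1 := by rw [SimpleGraph.dist_comm]; exact hz
      have h5 := TG.adj_dist T.tree hxy z
      omega
    have h6 := ih w hwy hbw
    by_contra hcon
    have hne' : pr z ≠ pr w := by
      intro h
      rw [h] at hcon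
      exact hcon h6
    obtain ⟨e1, e2⟩ := TG.beyond_edge B.tree hadj (hb.t10_adj hzw hne') hcon h6
    obtain ⟨e3, e4⟩ := hb.t10_lift_unique hxy hzw hadj e1 e2
    subst e3
    change T.G.dist y z < T.G.dist z z at hbz
    rw [SimpleGraph.dist_self] at hbz
    omega

/-- an edge which is not collapsed separates upstairs as downstairs -/
theorem IsBlowup.beyond (hb : IsBlowup T B pr) {x y : T.X} (hxy : T.G.Adj x y) (hne : pr x ≠ pr y) (z : T.X) :
    T.Beyond x y z ↔ B.Beyond (pr x) (pr y) (pr z) := by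
  constructor
  · intro h
    exact hb.t10_beyond_aux hxy hne _ z rfl h
  · intro h
    by_contra hcon
    have h1 : T.Beyond y x z := by
      have := (TG.beyond_iff T.tree hxy.symm z)
      exact this.mpr hcon
    have h2 := hb.t10_beyond_aux hxy.symm (Ne.symm hne) _ z rfl h1
    exact (TG.beyond_iff B.tree (hb.t10_adj hxy hne).symm (pr z)).mp h2 h

/-- a vertex not between two others is separated from both by an edge -/
theorem t10_exists_sep {X : Type} {G : SimpleGraph X} (hG : G.IsTree) {u v w : X} (h : ¬ TG.Btw G u v w) :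
    ∃ n, G.Adj v n ∧ TG.Beyond G v n u ∧ TG.Beyond G v n w := by
  obtain ⟨m, h1, h2, h3⟩ := (TG.median hG u v w).exists
  have hmv : v ≠ m := by
    rintro rfl
    exact h h3
  obtain ⟨n, hn1, hn2⟩ := (TG.exists_unique_next hG hmv).exists
  refine ⟨n, hn1, ?_, ?_⟩
  · change G.dist n u < G.dist v u
    have e1 : G.dist u m + G.dist m v = G.dist u v := h1
    have e2 : G.dist n u ≤ G.dist n m + G.dist m u := hG.connected.dist_triangle
    have e3 : G.dist m u = G.dist u m := SimpleGraph.dist_comm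
    have e4 : G.dist m v = G.dist v m := SimpleGraph.dist_comm
    have e5 : G.dist v u = G.dist u v := SimpleGraph.dist_comm
    omega
  · change G.dist n w < G.dist v w
    have e1 : G.dist v m + G.dist m w = G.dist v w := h2
    have e2 : G.dist n w ≤ G.dist n m + G.dist m w := hG.connected.dist_triangle
    omega

theorem IsBlowup.btw (hb : IsBlowup T B pr) {x y z : T.X} (h : T.Btw x y z) :
    B.Btw (pr x) (pr y) (pr z) := by
  by_contra hcon
  obtain ⟨n, hn, h1, h2⟩ := t10_exists_sep B.tree hcon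
  obtain ⟨⟨a, b⟩, hab, ha, hb'⟩ := (hb.lift _ _ hn).exists
  change T.G.Adj a b at hab
  change pr a = pr y at ha
  change pr b = n at hb'
  have hne : pr a ≠ pr b := by
    rw [ha, hb']
    exact hn.ne
  have g1 : T.Beyond a b x := (hb.beyond hab hne x).mpr (by rw [ha, hb']; exact h1)
  have g2 : T.Beyond a b z := (hb.beyond hab hne z).mpr (by rw [ha, hb']; exact h2)
  have g3 : T.Beyond a b y := TG.conv_beyond T.tree hab x g1 z g2 y h
  have g4 := (hb.beyond hab hne y).mp g3
  rw [ha] at g4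
  change B.G.dist (pr b) (pr y) < B.G.dist (pr y) (pr y) at g4
  rw [SimpleGraph.dist_self] at g4
  omega

theorem IsBlowup.t10_dist_le_walk (hb : IsBlowup T B pr) {x y : T.X} (p : T.G.Walk x y) :
    B.G.dist (pr x) (pr y) ≤ p.length := by
  induction p with
  | nil => rw [SimpleGraph.dist_self]; exact Nat.zero_le _
  | @cons u v w h p ih =>
    have h1 : B.G.dist (pr u) (pr w) ≤ B.G.dist (pr u) (pr v) + B.G.dist (pr v) (pr w) :=
      B.tree.connected.dist_triangle
    have h2 : B.G.dist (pr u) (pr v) ≤ 1 := by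
      rcases hb.adj u v h with h3 | h3
      · rw [h3, SimpleGraph.dist_self]; exact Nat.zero_le _
      · exact (SimpleGraph.dist_eq_one_iff_adj.mpr h3).le
    rw [SimpleGraph.Walk.length_cons]
    omega

theorem IsBlowup.dist_le (hb : IsBlowup T B pr) (x y : T.X) : B.G.dist (pr x) (pr y) ≤ T.G.dist x y := by
  obtain ⟨p, hp⟩ := T.tree.connected.exists_walk_length_eq_dist x y
  rw [← hp]
  exact hb.t10_dist_le_walk p

theorem IsBlowup.ell (hb : IsBlowup T B pr) {D : Set Γ} (hD : D ⊆ M) (h : T.Ell D) : B.Ell D := by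
  obtain ⟨x, hx⟩ := h
  refine ⟨pr x, fun d hd => ?_⟩
  rw [← hb.equi d (hD hd), hx d hd]

theorem IsBlowup.noInv (hb : IsBlowup T B pr) (hni : T.NoInv) : B.NoInv := by
  rintro m hm u v huv ⟨h1, h2⟩
  obtain ⟨⟨a, b⟩, hab, ha, hb'⟩ := (hb.lift _ _ huv).exists
  change T.G.Adj a b at hab
  change pr a = u at ha
  change pr b = v at hb'
  subst ha
  subst hb'
  obtain ⟨e1, e2⟩ := hb.t10_lift_unique (x' := T.act m b) (y' := T.act m a) hab (T.act_adj m hm _ _ hab).symm huv
    (by rw [hb.equi m hm, h2]) (by rw [hb.equi m hm, h1])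
  exact hni m hm a b hab ⟨e2, e1⟩

theorem IsBlowup.stab_le (hb : IsBlowup T B pr) (x : T.X) : T.stab x ≤ B.stab (pr x) := by
  rintro m ⟨hm, hx⟩
  exact ⟨hm, by rw [← hb.equi m hm, hx]⟩

/-- hyperbolic downstairs iff the axis upstairs has an edge which is not collapsed -/
theorem IsBlowup.hyp_iff (hb : IsBlowup T B pr) {m : Γ} (hm : m ∈ M) {l : ℕ} {L : ℤ → T.X}
    (hL : T.IsAxis m l L) : B.Hyp m ↔ ∃ i, pr (L i) ≠ pr (L (i + 1)) := by
  constructor
  · intro h
    by_contra hcon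
    push Not at hcon
    have h1 : ∀ n : ℕ, pr (L n) = pr (L 0) := by
      intro n
      induction n with
      | zero => rfl
      | succ n ih =>
        rw [← ih, hcon n]
        push_cast
        rfl
    apply h (pr (L 0))
    rw [← hb.equi m hm, hL.2.2 0, zero_add]
    exact h1 l
  · rintro ⟨i, hi⟩ v hv
    have hsub := T.axis_subset hm hL (S := pr ⁻¹' {v}) (hb.conv v)
      (by obtain ⟨x, hx⟩ := hb.surj v; exact ⟨x, hx⟩)
      (by
        intro x
        change pr (T.act m x) = v ↔ pr x = v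
        rw [hb.equi m hm]
        constructor
        · intro h
          exact B.act_inj hm (h.trans hv.symm)
        · intro h
          rw [h, hv])
    apply hi
    have h1 : pr (L i) = v := hsub ⟨i, rfl⟩
    have h2 : pr (L (i + 1)) = v := hsub ⟨i + 1, rfl⟩
    rw [h1, h2]

/-- every vertex of a tree is the end of an edge or the tree is a point -/
theorem t10_exists_adj_or (B : MTree M) (v : B.X) : (∃ w, B.G.Adj v w) ∨ ∀ w, w = v := by
  by_cases h : ∀ w, w = v
  · exact Or.inr h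
  · push Not at h
    obtain ⟨w, hw⟩ := h
    obtain ⟨n, hn, _⟩ := (TG.exists_unique_next B.tree (Ne.symm hw)).exists
    exact Or.inl ⟨n, hn⟩

/-- `M ⊓ F` is transitive on the `M`-orbits of vertices -/
theorem IsSplitting.t10_orb_vertex {F : Subgroup Γ} (hB : B.IsSplitting F) {m : Γ} (hm : m ∈ M) (v : B.X) :
    ∃ h ∈ M ⊓ F, B.act h v = B.act m v := by
  rcases t10_exists_adj_or B v with ⟨w, hw⟩ | h
  · obtain ⟨h, hh, h1, _⟩ := hB.orb m hm v w hw
    exact ⟨h, hh, h1⟩
  · refine ⟨1, (M ⊓ F).one_mem, ?_⟩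
    rw [h (B.act m v), h (B.act 1 v)]

/-- finitely many orbits of vertices -/
theorem IsSplitting.t10_cocpt_vertex {F : Subgroup Γ} (hB : B.IsSplitting F) :
    ∃ S : Finset B.X, ∀ v, ∃ h ∈ M ⊓ F, B.act h v ∈ S := by
  classical
  obtain ⟨S, hS⟩ := hB.cocpt
  obtain ⟨v₀⟩ := B.tree.connected.nonempty
  refine ⟨insert v₀ (S.image Prod.fst), fun v => ?_⟩
  rcases t10_exists_adj_or B v with ⟨w, hw⟩ | h
  · obtain ⟨h, hh, h1⟩ := hS v w hw
    refine ⟨h, hh, Finset.mem_insert_of_mem (Finset.mem_image.mpr ⟨_, h1, rfl⟩)⟩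
  · refine ⟨1, (M ⊓ F).one_mem, ?_⟩
    rw [B.act_one, h v₀]
    exact Finset.mem_insert_self _ _

/-- the image of a tree is a set of vertices on which adjacency is induced -/
theorem IsEmb.t10_adj_iff {M' : Subgroup Γ} {U : MTree M'} {ι : U.X → T.X} (h : IsEmb U T ι) (a b : U.X) :
    T.G.Adj (ι a) (ι b) ↔ U.G.Adj a b := by
  rw [← SimpleGraph.dist_eq_one_iff_adj, ← SimpleGraph.dist_eq_one_iff_adj, h.dist]

theorem IsBlowup.isSplitting {F : Subgroup Γ} [F.Normal] (hb : IsBlowup T B pr) (hB : B.IsSplitting F)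
    (R : Set B.X) (hR : ∀ v, ∃ r ∈ R, ∃ m ∈ M, B.act m r = v)
    (h : ∀ v ∈ R, ∃ (U : MTree (B.stab v)) (ι : U.X → T.X), IsEmb U T ι ∧ Set.range ι = pr ⁻¹' {v} ∧
      U.IsSplitting F) : T.IsSplitting F := by
  classical
  have hnorm : ∀ h ∈ F, ∀ m : Γ, m⁻¹ * h * m ∈ F := fun h hh m => by
    have := Subgroup.Normal.conj_mem (inferInstance : F.Normal) h hh m⁻¹
    rwa [inv_inv] at this
  have hnorm' : ∀ h ∈ F, ∀ m : Γ, m * h * m⁻¹ ∈ F := fun h hh m =>
    Subgroup.Normal.conj_mem (inferInstance : F.Normal) h hh m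
  have hstabM : ∀ v, ∀ m ∈ B.stab v, m ∈ M := fun v m hm => hm.1
  refine ⟨?_, ?_, ?_⟩
  · -- free
    intro g hg x y hxy hx hy
    by_cases hne : pr x = pr y
    · obtain ⟨r, hr, m, hm, hmr⟩ := hR (pr x)
      obtain ⟨U, ι, hι, hran, hU⟩ := h r hr
      have hm' : m⁻¹ ∈ M := M.inv_mem hm
      have hprx : pr (T.act m⁻¹ x) = r := by
        rw [hb.equi _ hm', ← hmr, B.act_inv_act hm]
      have hpry : pr (T.act m⁻¹ y) = r := by
        rw [hb.equi _ hm', ← hne, ← hmr, B.act_inv_act hm]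
      obtain ⟨a, ha⟩ : T.act m⁻¹ x ∈ Set.range ι := by rw [hran]; exact hprx
      obtain ⟨b, hb'⟩ : T.act m⁻¹ y ∈ Set.range ι := by rw [hran]; exact hpry
      have hab : U.G.Adj a b := by
        rw [← hι.t10_adj_iff, ha, hb']
        exact T.act_adj _ hm' _ _ hxy
      have hgM : m⁻¹ * g * m ∈ M := M.mul_mem (M.mul_mem hm' hg.1) hm
      have hact : ∀ z, T.act g z = z → T.act (m⁻¹ * g * m) (T.act m⁻¹ z) = T.act m⁻¹ z := by
        intro z hz
        rw [T.act_mul _ (M.mul_mem hm' hg.1) _ hm, T.act_act_inv hm, T.act_mul _ hm' _ hg.1, hz]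
      have hgr : m⁻¹ * g * m ∈ B.stab r := by
        refine ⟨hgM, ?_⟩
        rw [← hprx, ← hb.equi _ hgM, hact x hx]
      have e : m⁻¹ * g * m = 1 := by
        refine hU.free _ ⟨hgr, hnorm g hg.2 m⟩ a b hab ?_ ?_
        · apply hι.inj
          rw [hι.equi _ hgr, ha, hact x hx]
        · apply hι.inj
          rw [hι.equi _ hgr, hb', hact y hy]
      have : g = m * (m⁻¹ * g * m) * m⁻¹ := by group
      rw [this, e, mul_one, mul_inv_cancel]
    · refine hB.free g hg _ _ (hb.t10_adj hxy hne) ?_ ?_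
      · rw [← hb.equi g hg.1, hx]
      · rw [← hb.equi g hg.1, hy]
  · -- orb
    intro m hm x y hxy
    by_cases hne : pr x = pr y
    · obtain ⟨h₀, hh₀, e₀⟩ := hB.t10_orb_vertex hm (pr x)
      have hh₀' : h₀⁻¹ ∈ M := M.inv_mem hh₀.1
      have hm1 : h₀⁻¹ * m ∈ M := M.mul_mem hh₀' hm
      obtain ⟨r, hr, n, hn, hnr⟩ := hR (pr x)
      obtain ⟨U, ι, hι, hran, hU⟩ := h r hr
      have hn' : n⁻¹ ∈ M := M.inv_mem hn
      have hprx : pr (T.act n⁻¹ x) = r := by
        rw [hb.equi _ hn', ← hnr, B.act_inv_act hn]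
      have hpry : pr (T.act n⁻¹ y) = r := by
        rw [hb.equi _ hn', ← hne, ← hnr, B.act_inv_act hn]
      obtain ⟨a, ha⟩ : T.act n⁻¹ x ∈ Set.range ι := by rw [hran]; exact hprx
      obtain ⟨b, hb'⟩ : T.act n⁻¹ y ∈ Set.range ι := by rw [hran]; exact hpry
      have hab : U.G.Adj a b := by
        rw [← hι.t10_adj_iff, ha, hb']
        exact T.act_adj _ hn' _ _ hxy
      have hkM : n⁻¹ * (h₀⁻¹ * m) * n ∈ M := M.mul_mem (M.mul_mem hn' hm1) hn
      have hk : n⁻¹ * (h₀⁻¹ * m) * n ∈ B.stab r := by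
        refine ⟨hkM, ?_⟩
        rw [B.act_mul _ (M.mul_mem hn' hm1) _ hn, hnr, B.act_mul _ hn' _ hm1, B.act_mul _ hh₀' _ hm, ← e₀,
          B.act_inv_act hh₀.1, ← hnr, B.act_inv_act hn]
      obtain ⟨h₁, hh₁, e1, e2⟩ := hU.orb _ hk a b hab
      have hh₁M : h₁ ∈ M := hh₁.1.1
      have hactk : ∀ z, T.act (n⁻¹ * (h₀⁻¹ * m) * n) (T.act n⁻¹ z) = T.act n⁻¹ (T.act h₀⁻¹ (T.act m z)) := by
        intro z
        rw [T.act_mul _ (M.mul_mem hn' hm1) _ hn, T.act_act_inv hn, T.act_mul _ hn' _ hm1,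
          T.act_mul _ hh₀' _ hm]
      have hact1 : ∀ z (c : U.X), ι c = T.act n⁻¹ z → U.act h₁ c = U.act (n⁻¹ * (h₀⁻¹ * m) * n) c →
          T.act (h₀ * (n * h₁ * n⁻¹)) z = T.act m z := by
        intro z c hc e
        have e' : T.act h₁ (T.act n⁻¹ z) = T.act n⁻¹ (T.act h₀⁻¹ (T.act m z)) := by
          rw [← hactk, ← hc, ← hι.equi _ hh₁.1, e, hι.equi _ hk]
        rw [T.act_mul _ hh₀.1 _ (M.mul_mem (M.mul_mem hn hh₁M) hn'), T.act_mul _ (M.mul_mem hn hh₁M) _ hn',
          T.act_mul _ hn _ hh₁M, e', T.act_act_inv hn, T.act_act_inv hh₀.1]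
      refine ⟨h₀ * (n * h₁ * n⁻¹), ⟨M.mul_mem hh₀.1 (M.mul_mem (M.mul_mem hn hh₁M) hn'),
        F.mul_mem hh₀.2 (hnorm' _ hh₁.2 n)⟩, hact1 x a ha e1, hact1 y b hb' e2⟩
    · have hadj := hb.t10_adj hxy hne
      obtain ⟨h₀, hh₀, e1, e2⟩ := hB.orb m hm _ _ hadj
      have hadj' : B.G.Adj (pr (T.act m x)) (pr (T.act m y)) := by
        rw [hb.equi m hm, hb.equi m hm]
        exact B.act_adj m hm _ _ hadj
      obtain ⟨g1, g2⟩ := hb.t10_lift_unique (T.act_adj m hm _ _ hxy) (T.act_adj h₀ hh₀.1 _ _ hxy) hadj'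
        (by rw [hb.equi h₀ hh₀.1, hb.equi m hm, e1]) (by rw [hb.equi h₀ hh₀.1, hb.equi m hm, e2])
      exact ⟨h₀, hh₀, g1, g2⟩
  · -- cocpt
    obtain ⟨SB, hSB⟩ := hB.cocpt
    obtain ⟨V, hV⟩ := hB.t10_cocpt_vertex
    -- lifts of the base edges
    have hlift : ∃ lf : B.X × B.X → T.X × T.X, ∀ u v, B.G.Adj u v → T.G.Adj (lf (u, v)).1 (lf (u, v)).2 ∧
        pr (lf (u, v)).1 = u ∧ pr (lf (u, v)).2 = v := by
      have : ∀ e : B.X × B.X, ∃ f : T.X × T.X, B.G.Adj e.1 e.2 → T.G.Adj f.1 f.2 ∧ pr f.1 = e.1 ∧ pr f.2 = e.2 := by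
        rintro ⟨u, v⟩
        by_cases huv : B.G.Adj u v
        · obtain ⟨f, hf⟩ := (hb.lift u v huv).exists
          exact ⟨f, fun _ => hf⟩
        · obtain ⟨x⟩ := T.tree.connected.nonempty
          exact ⟨(x, x), fun h => absurd h huv⟩
      choose lf hlf using this
      exact ⟨lf, fun u v huv => hlf (u, v) huv⟩
    obtain ⟨lf, hlf⟩ := hlift
    -- fibre edges
    have hfib : ∀ v : B.X, ∃ S : Finset (T.X × T.X), ∀ x y, T.G.Adj x y → pr x = v → pr y = v →
        ∃ h ∈ M ⊓ F, (T.act h x, T.act h y) ∈ S := by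
      intro v
      obtain ⟨r, hr, n, hn, hnr⟩ := hR v
      obtain ⟨U, ι, hι, hran, hU⟩ := h r hr
      obtain ⟨SU, hSU⟩ := hU.cocpt
      refine ⟨SU.image (fun e => (T.act n (ι e.1), T.act n (ι e.2))), ?_⟩
      intro x y hxy hx hy
      have hn' : n⁻¹ ∈ M := M.inv_mem hn
      have hprx : pr (T.act n⁻¹ x) = r := by
        rw [hb.equi _ hn', hx, ← hnr, B.act_inv_act hn]
      have hpry : pr (T.act n⁻¹ y) = r := by
        rw [hb.equi _ hn', hy, ← hnr, B.act_inv_act hn]
      obtain ⟨a, ha⟩ : T.act n⁻¹ x ∈ Set.range ι := by rw [hran]; exact hprx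
      obtain ⟨b, hb'⟩ : T.act n⁻¹ y ∈ Set.range ι := by rw [hran]; exact hpry
      have hab : U.G.Adj a b := by
        rw [← hι.t10_adj_iff, ha, hb']
        exact T.act_adj _ hn' _ _ hxy
      obtain ⟨h₁, hh₁, e1⟩ := hSU a b hab
      have hh₁M : h₁ ∈ M := hh₁.1.1
      have hact1 : ∀ z (c : U.X), ι c = T.act n⁻¹ z →
          T.act (n * h₁ * n⁻¹) z = T.act n (ι (U.act h₁ c)) := by
        intro z c hc
        rw [T.act_mul _ (M.mul_mem hn hh₁M) _ hn', T.act_mul _ hn _ hh₁M, ← hc, hι.equi _ hh₁.1]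
      refine ⟨n * h₁ * n⁻¹, ⟨M.mul_mem (M.mul_mem hn hh₁M) hn', hnorm' _ hh₁.2 n⟩, ?_⟩
      rw [Finset.mem_image]
      refine ⟨_, e1, ?_⟩
      rw [hact1 x a ha, hact1 y b hb']
    choose Sf hSf using hfib
    refine ⟨SB.image lf ∪ V.biUnion Sf, ?_⟩
    intro x y hxy
    by_cases hne : pr x = pr y
    · obtain ⟨h₀, hh₀, hv⟩ := hV (pr x)
      obtain ⟨h₁, hh₁, hs⟩ := hSf (B.act h₀ (pr x)) (T.act h₀ x) (T.act h₀ y) (T.act_adj _ hh₀.1 _ _ hxy)
        (by rw [hb.equi _ hh₀.1]) (by rw [hb.equi _ hh₀.1, hne])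
      refine ⟨h₁ * h₀, (M ⊓ F).mul_mem hh₁ hh₀, ?_⟩
      rw [Finset.mem_union, Finset.mem_biUnion]
      right
      refine ⟨_, hv, ?_⟩
      rw [T.act_mul _ hh₁.1 _ hh₀.1, T.act_mul _ hh₁.1 _ hh₀.1]
      exact hs
    · have hadj := hb.t10_adj hxy hne
      obtain ⟨h₀, hh₀, hs⟩ := hSB _ _ hadj
      refine ⟨h₀, hh₀, ?_⟩
      rw [Finset.mem_union, Finset.mem_image]
      left
      refine ⟨_, hs, ?_⟩
      have hadj' : B.G.Adj (B.act h₀ (pr x)) (B.act h₀ (pr y)) := B.act_adj _ hh₀.1 _ _ hadj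
      obtain ⟨g0, g1, g2⟩ := hlf _ _ hadj'
      have hadj'' : B.G.Adj (pr (T.act h₀ x)) (pr (T.act h₀ y)) := by
        rw [hb.equi _ hh₀.1, hb.equi _ hh₀.1]; exact hadj'
      obtain ⟨q1, q2⟩ := hb.t10_lift_unique (T.act_adj h₀ hh₀.1 _ _ hxy) g0 hadj''
        (by rw [g1, hb.equi _ hh₀.1]) (by rw [g2, hb.equi _ hh₀.1])
      exact Prod.ext q1 q2

theorem IsBlowup.base {F : Subgroup Γ} (hb : IsBlowup T B pr) (hT : T.IsSplitting F) :
    B.IsSplitting F := by
  classical
  refine ⟨?_, ?_, ?_⟩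
  · intro g hg u v huv hu hv
    obtain ⟨⟨a, b⟩, hab, ha, hb'⟩ := (hb.lift _ _ huv).exists
    change T.G.Adj a b at hab
    change pr a = u at ha
    change pr b = v at hb'
    subst ha
    subst hb'
    obtain ⟨e1, e2⟩ := hb.t10_lift_unique hab (T.act_adj g hg.1 _ _ hab) huv
      (by rw [hb.equi g hg.1, hu]) (by rw [hb.equi g hg.1, hv])
    exact hT.free g hg a b hab e1 e2
  · intro m hm u v huv
    obtain ⟨⟨a, b⟩, hab, ha, hb'⟩ := (hb.lift _ _ huv).exists
    change T.G.Adj a b at hab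
    change pr a = u at ha
    change pr b = v at hb'
    subst ha
    subst hb'
    obtain ⟨g, hg, e1, e2⟩ := hT.orb m hm a b hab
    refine ⟨g, hg, ?_, ?_⟩
    · rw [← hb.equi g hg.1, ← hb.equi m hm, e1]
    · rw [← hb.equi g hg.1, ← hb.equi m hm, e2]
  · obtain ⟨S, hS⟩ := hT.cocpt
    refine ⟨S.image (fun e => (pr e.1, pr e.2)), ?_⟩
    intro u v huv
    obtain ⟨⟨a, b⟩, hab, ha, hb'⟩ := (hb.lift _ _ huv).exists
    change T.G.Adj a b at hab
    change pr a = u at ha
    change pr b = v at hb'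
    subst ha
    subst hb'
    obtain ⟨g, hg, e⟩ := hS a b hab
    refine ⟨g, hg, ?_⟩
    rw [Finset.mem_image]
    refine ⟨_, e, ?_⟩
    change (pr (T.act g a), pr (T.act g b)) = _
    rw [hb.equi g hg.1, hb.equi g hg.1]

/-- two vertices have the same image iff no edge between them is kept -/
theorem IsBlowup.pr_eq_iff (hb : IsBlowup T B pr) (x y : T.X) :
    pr x = pr y ↔ ∀ a b, T.G.Adj a b → T.Btw x a y → T.Btw x b y → pr a = pr b := by
  constructor
  · intro h a b _ ha hb'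
    have h1 : pr a = pr x := hb.conv (pr x) x rfl y h.symm a ha
    have h2 : pr b = pr x := hb.conv (pr x) x rfl y h.symm b hb'
    rw [h1, h2]
  · have key : ∀ n x, T.G.dist x y = n → (∀ a b, T.G.Adj a b → T.Btw x a y → T.Btw x b y → pr a = pr b) →
        pr x = pr y := by
      intro n
      induction n with
      | zero =>
        intro x hx _
        rw [T.tree.connected.dist_eq_zero_iff.mp hx]
      | succ n ih =>
        intro x hx hall
        have hxy : x ≠ y := by
          rintro rfl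
          rw [SimpleGraph.dist_self] at hx
          omega
        obtain ⟨w, hxw, hw⟩ := (TG.exists_unique_next T.tree hxy).exists
        have hd : T.G.dist x w = 1 := SimpleGraph.dist_eq_one_iff_adj.mpr hxw
        have hbw : T.Btw x w y := by
          change T.G.dist x w + T.G.dist w y = T.G.dist x y
          omega
        have hbx : T.Btw x x y := by
          change T.G.dist x x + T.G.dist x y = T.G.dist x y
          rw [SimpleGraph.dist_self, zero_add]
        rw [hall x w hxw hbx hbw]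
        refine ih w (by omega) ?_
        intro a b hab ha hb'
        exact hall a b hab (TG.btw_trans T.tree hbw ha).2 (TG.btw_trans T.tree hbw hb').2
    exact key _ x rfl

end MTree

end Pool.Agent.Lib.MP_6567fb_al
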