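import Pool.Agent.Lib.MP_6567fb_al.T2b

/-!
# MP_6567fb_al, module T11

Collapse of the edges outside an invariant set of edges: the vertices of the collapsed tree are the
connected components of the graph of the collapsed edges.
-/

set_option autoImplicit false

open scoped Pointwise

namespace Pool.Agent.Lib.MP_6567fb_al

open MTree
namespace MTree
variable {Γ : Type} [Group Γ] {M : Subgroup Γ}

/-- the graph of the collapsed edges -/
def colGraph (T : MTree M) (K : T.X → T.X → Prop) (hs : ∀ x y, K x y → K y x) :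
    SimpleGraph T.X where
  Adj x y := T.G.Adj x y ∧ ¬ K x y
  symm := ⟨fun _ _ h => ⟨h.1.symm, fun h' => h.2 (hs _ _ h')⟩⟩
  loopless := ⟨fun x h => T.G.loopless.irrefl x h.1⟩

section
variable (T : MTree M) (K : T.X → T.X → Prop) (hs : ∀ x y, K x y → K y x)

theorem col_beyond {x y : T.X} (hxy : T.G.Adj x y) (hK : K x y) {a b : T.X}
    (h : (T.colGraph K hs).Reachable a b) : T.Beyond x y a ↔ T.Beyond x y b := by
  obtain ⟨p⟩ := h
  induction p with
  | nil => exact Iff.rfl
  | @cons u v w huv p ih =>
    refine Iff.trans ?_ ih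
    constructor
    · intro h1
      by_contra h2
      obtain ⟨h3, h4⟩ := TG.beyond_edge T.tree hxy huv.1.symm h2 h1
      exact huv.2 (by rw [h3, h4]; exact hs _ _ hK)
    · intro h1
      by_contra h2
      obtain ⟨h3, h4⟩ := TG.beyond_edge T.tree hxy huv.1 h2 h1
      exact huv.2 (by rw [h3, h4]; exact hK)

theorem col_kept {x y : T.X} (hxy : T.G.Adj x y) (hK : K x y) :
    ¬ (T.colGraph K hs).Reachable x y := by
  intro h
  have h1 := T.col_beyond K hs hxy hK h
  have h2 : T.Beyond x y y := by
    change T.G.dist y y < T.G.dist x y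
    rw [SimpleGraph.dist_self, SimpleGraph.dist_eq_one_iff_adj.2 hxy]
    exact Nat.one_pos
  have h3 := h1.2 h2
  change T.G.dist y x < T.G.dist x x at h3
  rw [SimpleGraph.dist_self] at h3
  exact absurd h3 (Nat.not_lt_zero _)

/-- the collapsed graph -/
def colQuot : SimpleGraph (T.colGraph K hs).ConnectedComponent where
  Adj c d := ∃ x y, T.G.Adj x y ∧ K x y ∧ (T.colGraph K hs).connectedComponentMk x = c ∧
    (T.colGraph K hs).connectedComponentMk y = d
  symm := ⟨fun _ _ ⟨x, y, h1, h2, h3, h4⟩ => ⟨y, x, h1.symm, hs _ _ h2, h4, h3⟩⟩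
  loopless := ⟨fun c ⟨x, y, h1, h2, h3, h4⟩ => T.col_kept K hs h1 h2
    (SimpleGraph.ConnectedComponent.eq.1 (h3.trans h4.symm))⟩

theorem col_mk_adj {x y : T.X} (hxy : T.G.Adj x y) :
    (T.colGraph K hs).connectedComponentMk x = (T.colGraph K hs).connectedComponentMk y ∨
    (T.colQuot K hs).Adj ((T.colGraph K hs).connectedComponentMk x)
      ((T.colGraph K hs).connectedComponentMk y) := by
  by_cases h : K x y
  · exact Or.inr ⟨x, y, hxy, h, rfl, rfl⟩
  · refine Or.inl (SimpleGraph.ConnectedComponent.eq.2 ?_)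
    exact SimpleGraph.Adj.reachable (G := T.colGraph K hs) ⟨hxy, h⟩

theorem col_reach {x y : T.X} (h : T.G.Reachable x y) :
    (T.colQuot K hs).Reachable ((T.colGraph K hs).connectedComponentMk x)
      ((T.colGraph K hs).connectedComponentMk y) := by
  obtain ⟨p⟩ := h
  induction p with
  | nil => exact SimpleGraph.Reachable.refl _
  | @cons u v w huv p ih =>
    rcases T.col_mk_adj K hs huv with h1 | h1
    · rw [h1]
      exact ih
    · exact h1.reachable.trans ih

theorem col_connected : (T.colQuot K hs).Connected := by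
  haveI : Nonempty T.X := T.tree.connected.nonempty
  haveI : Nonempty (T.colGraph K hs).ConnectedComponent :=
    ⟨(T.colGraph K hs).connectedComponentMk (Classical.arbitrary _)⟩
  refine ⟨fun c d => ?_⟩
  induction c using SimpleGraph.ConnectedComponent.ind with | h x => ?_
  induction d using SimpleGraph.ConnectedComponent.ind with | h y => ?_
  exact T.col_reach K hs (T.tree.connected.preconnected x y)

theorem col_tree : (T.colQuot K hs).IsTree := by
  apply TG.isTree_of_sep (T.col_connected K hs)
  rintro c d ⟨x, y, hxy, hK, rfl, rfl⟩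
  refine ⟨{e | ∃ z, (T.colGraph K hs).connectedComponentMk z = e ∧ ¬ T.Beyond x y z}, ?_, ?_, ?_⟩
  · refine ⟨x, rfl, ?_⟩
    intro h
    change T.G.dist y x < T.G.dist x x at h
    rw [SimpleGraph.dist_self] at h
    exact absurd h (Nat.not_lt_zero _)
  · rintro ⟨z, hz, h1⟩
    have h2 := T.col_beyond K hs hxy hK (SimpleGraph.ConnectedComponent.eq.1 hz)
    apply h1
    rw [h2]
    change T.G.dist y y < T.G.dist x y
    rw [SimpleGraph.dist_self, SimpleGraph.dist_eq_one_iff_adj.2 hxy]
    exact Nat.one_pos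
  · rintro e f ⟨u, v, huv, hK', rfl, rfl⟩ ⟨z, hz, h1⟩ h2
    have h3 : ¬ T.Beyond x y u := by
      rw [← T.col_beyond K hs hxy hK (SimpleGraph.ConnectedComponent.eq.1 hz)]
      exact h1
    have h4 : T.Beyond x y v := by
      by_contra h5
      exact h2 ⟨v, rfl, h5⟩
    obtain ⟨h5, h6⟩ := TG.beyond_edge T.tree hxy huv h3 h4
    rw [h5, h6]
    exact ⟨rfl, rfl⟩

theorem col_act (hi : ∀ m ∈ M, ∀ x y, K x y → K (T.act m x) (T.act m y)) {m : Γ} (hm : m ∈ M)
    {x y : T.X} (h : (T.colGraph K hs).Reachable x y) :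
    (T.colGraph K hs).Reachable (T.act m x) (T.act m y) := by
  obtain ⟨p⟩ := h
  induction p with
  | nil => exact SimpleGraph.Reachable.refl _
  | @cons u v w huv p ih =>
    refine SimpleGraph.Reachable.trans ?_ ih
    apply SimpleGraph.Adj.reachable
    refine ⟨T.act_adj m hm _ _ huv.1, fun h1 => huv.2 ?_⟩
    have h2 := hi m⁻¹ (M.inv_mem hm) _ _ h1
    have h3 : ∀ z, T.act m⁻¹ (T.act m z) = z := fun z => by
      rw [← T.act_mul _ (M.inv_mem hm) _ hm, inv_mul_cancel, T.act_one]
    rwa [h3, h3] at h2

/-- the collapsed tree -/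
noncomputable def colTree (hi : ∀ m ∈ M, ∀ x y, K x y → K (T.act m x) (T.act m y)) :
    MTree M where
  X := (T.colGraph K hs).ConnectedComponent
  G := T.colQuot K hs
  tree := T.col_tree K hs
  act := fun m c => (T.colGraph K hs).connectedComponentMk (T.act m (Quot.out c))
  act_one := fun c => by
    rw [T.act_one]
    exact Quot.out_eq c
  act_mul := fun m hm m' hm' c => by
    apply SimpleGraph.ConnectedComponent.eq.2
    rw [T.act_mul m hm m' hm']
    apply T.col_act K hs hi hm
    apply SimpleGraph.ConnectedComponent.eq.1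
    exact (Quot.out_eq _).symm
  act_adj := fun m hm c d h => by
    obtain ⟨x, y, h1, h2, h3, h4⟩ := h
    refine ⟨T.act m x, T.act m y, T.act_adj m hm _ _ h1, hi m hm _ _ h2, ?_, ?_⟩
    · apply SimpleGraph.ConnectedComponent.eq.2
      apply T.col_act K hs hi hm
      apply SimpleGraph.ConnectedComponent.eq.1
      rw [h3]
      exact (Quot.out_eq _).symm
    · apply SimpleGraph.ConnectedComponent.eq.2
      apply T.col_act K hs hi hm
      apply SimpleGraph.ConnectedComponent.eq.1
      rw [h4]
      exact (Quot.out_eq _).symm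

end

theorem collapse_exists (T : MTree M) (K : T.X → T.X → Prop) (hs : ∀ x y, K x y → K y x)
    (hi : ∀ m ∈ M, ∀ x y, K x y → K (T.act m x) (T.act m y)) :
    ∃ (B : MTree M) (pr : T.X → B.X), IsBlowup T B pr ∧ ∀ x y, T.G.Adj x y → (pr x ≠ pr y ↔ K x y) := by
  refine ⟨T.colTree K hs hi, fun x => (T.colGraph K hs).connectedComponentMk x,
    ⟨?_, ?_, ?_, ?_, ?_⟩, ?_⟩
  · intro c
    induction c using SimpleGraph.ConnectedComponent.ind with | h x => ?_
    exact ⟨x, rfl⟩
  · intro m hm x
    apply SimpleGraph.ConnectedComponent.eq.2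
    apply T.col_act K hs hi hm
    apply SimpleGraph.ConnectedComponent.eq.1
    exact (Quot.out_eq _).symm
  · intro x y hxy
    exact T.col_mk_adj K hs hxy
  · rintro u v ⟨x, y, hxy, hK, rfl, rfl⟩
    refine ⟨(x, y), ⟨hxy, rfl, rfl⟩, ?_⟩
    rintro ⟨x', y'⟩ ⟨h1, h2, h3⟩
    have h4 := T.col_beyond K hs hxy hK (SimpleGraph.ConnectedComponent.eq.1 h2)
    have h5 := T.col_beyond K hs hxy hK (SimpleGraph.ConnectedComponent.eq.1 h3)
    have h6 : ¬ T.Beyond x y x' := by
      rw [h4]
      intro h
      change T.G.dist y x < T.G.dist x x at h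
      rw [SimpleGraph.dist_self] at h
      exact absurd h (Nat.not_lt_zero _)
    have h7 : T.Beyond x y y' := by
      rw [h5]
      change T.G.dist y y < T.G.dist x y
      rw [SimpleGraph.dist_self, SimpleGraph.dist_eq_one_iff_adj.2 hxy]
      exact Nat.one_pos
    obtain ⟨h8, h9⟩ := TG.beyond_edge T.tree hxy h1 h6 h7
    exact Prod.ext h8 h9
  · intro v
    apply TG.conv_of_connected T.tree
    rintro ⟨a, ha⟩ ⟨b, hb⟩
    have h1 : (T.colGraph K hs).Reachable a b :=
      SimpleGraph.ConnectedComponent.eq.1 (Eq.trans ha (Eq.symm hb))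
    obtain ⟨p⟩ := h1
    induction p with
    | nil => exact SimpleGraph.Reachable.refl _
    | @cons u v' w huv p ih =>
      have hv : v' ∈ (fun x => (T.colGraph K hs).connectedComponentMk x) ⁻¹' {v} := by
        have h2 : (T.colGraph K hs).connectedComponentMk v' =
            (T.colGraph K hs).connectedComponentMk u :=
          SimpleGraph.ConnectedComponent.eq.2 (SimpleGraph.Adj.reachable huv.symm)
        exact Eq.trans h2 ha
      refine SimpleGraph.Reachable.trans ?_ (ih hv hb)
      apply SimpleGraph.Adj.reachable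
      exact huv.1
  · intro x y hxy
    constructor
    · intro h
      by_contra h1
      apply h
      apply SimpleGraph.ConnectedComponent.eq.2
      exact SimpleGraph.Adj.reachable (G := T.colGraph K hs) ⟨hxy, h1⟩
    · intro h h1
      exact T.col_kept K hs hxy h (SimpleGraph.ConnectedComponent.eq.1 h1)

end MTree

end Pool.Agent.Lib.MP_6567fb_al
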