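import Pool.Agent.Lib.MP_6567fb_al.T6
import Pool.Agent.Lib.MP_6567fb_al.T2c

/-!
# MP_6567fb_al, module T6b

axes_disjoint: m, n hyperbolic with disjoint axes, bridge [p,q] (p on the axis of m, q on the axis of n): the path
n⁻¹ q' ... standard: (m n) is coherent at n⁻¹ p: path n⁻¹p - n⁻¹q - q - p - m p ... its axis contains [p,q].
core_turn: if the core is one line: every hyperbolic element of D will do.  Otherwise every half space of the core contains an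
axis: d hyperbolic with axis A through the edge (an edge of the core lies on an axis: if x on A1, y on A2 and neither
contains the edge, use axes_disjoint or the union), A' another axis; A ∩ A' is bounded (otherwise the commutator of d, d' fixes an edge, is
1, and the axes are equal), so d^n A' is in the half space for n or -n large.  Take an axis of f1 in the half space beyond
(y,x) and one of f2 in the half space beyond (y,z): the axis of f1 f2 contains x, y, z (axes_disjoint); invert to get the direction.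
-/

set_option autoImplicit false

open scoped Pointwise

namespace Pool.Agent.Lib.MP_6567fb_al

open MTree
namespace MTree
variable {Γ : Type} [Group Γ] {M : Subgroup Γ} (T : MTree M)

theorem axes_disjoint {m n : Γ} (hm : m ∈ M) (hn : n ∈ M) {l l' : ℕ} {L L' : ℤ → T.X}
    (h : T.IsAxis m l L) (h' : T.IsAxis n l' L') {i j : ℤ}
    (hb : ∀ a b : ℤ, T.Btw (L a) (L i) (L' b) ∧ T.Btw (L i) (L' j) (L' b)) (hne : L i ≠ L' j) :
    ∃ (l'' : ℕ) (L'' : ℤ → T.X), T.IsAxis (m * n) l'' L'' ∧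
      ∀ y, T.Btw (L i) y (L' j) → y ∈ Set.range L'' := by
  have hni := M.inv_mem hn
  have hmn := M.mul_mem hm hn
  have hsymm : ∀ {a b c : T.X}, T.Btw a b c → T.Btw c b a := fun hh => TG.btw_symm T.tree hh
  -- the points of the chain
  have hnq : T.act n⁻¹ (L' j) = L' (j - l') := by
    have h1 := h'.2.2 (j - l')
    rw [sub_add_cancel] at h1
    rw [← h1, T.act_inv_act hn]
  have hnq2 : T.act n⁻¹ (L' (j + l')) = L' j := by
    rw [← h'.2.2 j, T.act_inv_act hn]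
  have hmp : T.act m (L i) = L (i + l) := h.2.2 i
  have hmp2 : T.act m (L (i - l)) = L i := by
    have h1 := h.2.2 (i - l)
    rwa [sub_add_cancel] at h1
  have hl := h.1
  have hl' := h'.1
  have hpq : 0 < T.G.dist (L i) (L' j) := T.tree.connected.pos_dist_of_ne hne
  -- consecutive triples
  have hABC : T.Btw (T.act n⁻¹ (L i)) (T.act n⁻¹ (L' j)) (L' j) := by
    have := (T.btw_act hni _ _ _).2 (hb i (j + l')).2
    rwa [hnq2] at this
  have hBCD : T.Btw (T.act n⁻¹ (L' j)) (L' j) (L i) := by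
    rw [hnq]
    exact hsymm (hb i (j - l')).2
  have hCDE : T.Btw (L' j) (L i) (T.act m (L i)) := by
    rw [hmp]
    exact hsymm (hb (i + l) j).1
  have hDEF : T.Btw (L i) (T.act m (L i)) (T.act m (L' j)) := by
    have := (T.btw_act hm _ _ _).2 (hb (i - l) j).1
    rwa [hmp2] at this
  have hBC : T.act n⁻¹ (L' j) ≠ L' j := by
    rw [hnq]
    intro h0
    have h1 := h'.2.1 (j - l') j
    rw [h0, SimpleGraph.dist_self] at h1
    omega
  have hDE : L i ≠ T.act m (L i) := by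
    rw [hmp]
    intro h0
    have h1 := h.2.1 i (i + l)
    rw [← h0, SimpleGraph.dist_self] at h1
    omega
  have hACD := (TG.btw_glue T.tree hABC hBCD hBC).2
  have hACE := (TG.btw_glue T.tree hACD hCDE hne.symm).1
  have hADE := (TG.btw_glue T.tree hACD hCDE hne.symm).2
  have hAEF := (TG.btw_glue T.tree hADE hDEF hDE).2
  have hBCE := (TG.btw_glue T.tree hBCD hCDE hne.symm).1
  have hABE := (TG.btw_glue T.tree hABC hBCE hBC).1
  -- translate by `m * n`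
  have hgA : T.act (m * n) (T.act n⁻¹ (L i)) = T.act m (L i) := by
    rw [T.act_mul _ hm _ hn, T.act_act_inv hn]
  have hgB : T.act (m * n) (T.act n⁻¹ (L' j)) = T.act m (L' j) := by
    rw [T.act_mul _ hm _ hn, T.act_act_inv hn]
  have hEFgE : T.Btw (T.act m (L i)) (T.act m (L' j)) (T.act (m * n) (T.act m (L i))) := by
    have := (T.btw_act hmn _ _ _).2 hABE
    rwa [hgA, hgB] at this
  have hEF : T.act m (L i) ≠ T.act m (L' j) := fun h0 => hne (T.act_inj hm h0)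
  have hco := (TG.btw_glue T.tree hAEF hEFgE hEF).1
  have hAE : T.act (m * n) (T.act n⁻¹ (L i)) ≠ T.act n⁻¹ (L i) := by
    rw [hgA]
    intro h0
    rw [h0] at hADE
    unfold TG.Btw at hADE
    rw [SimpleGraph.dist_self] at hADE
    have h2 : T.G.dist (T.act n⁻¹ (L i)) (L i) = 0 := by omega
    have h3 : T.act n⁻¹ (L i) = L i := T.tree.connected.dist_eq_zero_iff.1 h2
    rw [h3] at h0
    exact hDE h0.symm
  obtain ⟨l'', L'', hL'', hL0, hl''⟩ := T.coherent hmn hAE (by rw [hgA]; exact hco)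
  refine ⟨l'', L'', hL'', ?_⟩
  have hA : T.act n⁻¹ (L i) ∈ Set.range L'' := ⟨0, hL0⟩
  have hE : T.act m (L i) ∈ Set.range L'' := by
    refine ⟨0 + l'', ?_⟩
    rw [← hL''.2.2 0, hL0, hgA]
  have hconv : T.Conv (Set.range L'') := TG.conv_range_line T.tree hL''.2.1
  intro y hy
  exact hconv _ (hconv _ hA _ hE _ hADE) _ (hconv _ hA _ hE _ hACE) y hy

/-- three consecutive vertices of an axis, up to the direction -/
theorem T6b_dir {D : Subgroup Γ} (hD : D ≤ M) {d : Γ} (hd : d ∈ D) {l : ℕ} {L : ℤ → T.X}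
    (h : T.IsAxis d l L) {x y z : T.X} (hx : x ∈ Set.range L) (hy : y ∈ Set.range L)
    (hz : z ∈ Set.range L) (hxy : T.G.Adj x y) (hyz : T.G.Adj y z) (hxz : x ≠ z) :
    ∃ (d : Γ) (l : ℕ) (L : ℤ → T.X) (i : ℤ), d ∈ D ∧ T.IsAxis d l L ∧ L i = x ∧ L (i + 1) = y ∧
      L (i + 2) = z := by
  obtain ⟨a, rfl⟩ := hx
  obtain ⟨b, rfl⟩ := hy
  obtain ⟨c, rfl⟩ := hz
  rw [← SimpleGraph.dist_eq_one_iff_adj, h.2.1] at hxy hyz
  have hac : a ≠ c := fun h0 => hxz (by rw [h0])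
  rcases (by omega : (b = a + 1 ∧ c = a + 2) ∨ (b = a - 1 ∧ c = a - 2)) with ⟨h1, h2⟩ | ⟨h1, h2⟩
  · exact ⟨d, l, L, a, hd, h, rfl, by rw [h1], by rw [h2]⟩
  · refine ⟨d⁻¹, l, fun i => L (-i), -a, D.inv_mem hd, T.axis_inv (hD hd) h, ?_, ?_, ?_⟩
    · simp only [neg_neg]
    · show L (-(-a + 1)) = L b
      congr 1
      omega
    · show L (-(-a + 2)) = L c
      congr 1
      omega

theorem T6b_core_axis (hni : T.NoInv) {D : Subgroup Γ} (hD : D ≤ M) (hne : ¬ T.Ell (D : Set Γ))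
    {x : T.X} (hx : x ∈ T.core D) :
    ∃ (d : Γ) (l : ℕ) (L : ℤ → T.X), d ∈ D ∧ T.IsAxis d l L ∧ x ∈ Set.range L := by
  unfold MTree.core at hx
  rw [if_neg hne] at hx
  obtain ⟨d, hd, hhyp, hxd⟩ := hx
  rcases T.ell_or_axis hni (hD hd) with ⟨w, hw⟩ | ⟨l, L, hL⟩
  · exact (hhyp w hw).elim
  · exact ⟨d, l, L, hd, hL, by rw [← (T.axis_eq (hD hd) hL).1]; exact hxd⟩

/-- a convex set which meets a half space and does not contain the boundary vertex is in the half space -/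
theorem T6b_half {S : Set T.X} (hS : T.Conv S) {x y : T.X} (h : T.G.Adj x y) (hy : y ∉ S) {b : T.X}
    (hb : b ∈ S) (hb2 : T.Beyond y x b) {w : T.X} (hw : w ∈ S) : T.Beyond y x w := by
  by_contra h0
  have h1 : T.Beyond x y w := (TG.beyond_iff T.tree h w).2 h0
  have h2 : ¬ T.Beyond x y b := (TG.beyond_iff T.tree h.symm b).1 hb2
  have h3 := (TG.beyond_sep T.tree h (a := b) (b := w)).1 ⟨h2, h1⟩
  exact hy (hS b hb w hw y h3.2.1)

theorem T6b_beyond_self {x y : T.X} (h : T.G.Adj x y) : T.Beyond y x x := by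
  show T.G.dist x x < T.G.dist y x
  rw [SimpleGraph.dist_self, SimpleGraph.dist_eq_one_iff_adj.2 h.symm]
  exact one_pos

/-- an edge of the core lies on an axis -/
theorem T6b_edge (hni : T.NoInv) {D : Subgroup Γ} (hD : D ≤ M) (hne : ¬ T.Ell (D : Set Γ))
    {x y : T.X} (hx : x ∈ T.core D) (hy : y ∈ T.core D) (hxy : T.G.Adj x y) :
    ∃ (d : Γ) (l : ℕ) (L : ℤ → T.X), d ∈ D ∧ T.IsAxis d l L ∧ x ∈ Set.range L ∧ y ∈ Set.range L := by
  obtain ⟨d₁, l₁, L₁, hd₁, hL₁, hx₁⟩ := T6b_core_axis T hni hD hne hx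
  obtain ⟨d₂, l₂, L₂, hd₂, hL₂, hy₂⟩ := T6b_core_axis T hni hD hne hy
  by_cases h1 : y ∈ Set.range L₁
  · exact ⟨d₁, l₁, L₁, hd₁, hL₁, hx₁, h1⟩
  by_cases h2 : x ∈ Set.range L₂
  · exact ⟨d₂, l₂, L₂, hd₂, hL₂, h2, hy₂⟩
  have hc₁ : T.Conv (Set.range L₁) := TG.conv_range_line T.tree hL₁.2.1
  have hc₂ : T.Conv (Set.range L₂) := TG.conv_range_line T.tree hL₂.2.1
  have hA : ∀ a, ¬ T.Beyond x y (L₁ a) := fun a =>
    (TG.beyond_iff T.tree hxy.symm _).1
      (T6b_half T hc₁ hxy h1 hx₁ (T6b_beyond_self T hxy) (Set.mem_range_self a))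
  have hB : ∀ b, T.Beyond x y (L₂ b) := fun b =>
    T6b_half T hc₂ hxy.symm h2 hy₂ (T6b_beyond_self T hxy.symm) (Set.mem_range_self b)
  obtain ⟨i, hi⟩ := hx₁
  obtain ⟨j, hj⟩ := hy₂
  obtain ⟨l, L, hL, hr⟩ := T.axes_disjoint (hD hd₁) (hD hd₂) hL₁ hL₂ (i := i) (j := j) (by
    intro a b
    rw [hi, hj]
    refine ⟨((TG.beyond_sep T.tree hxy).1 ⟨hA a, hB b⟩).1, ?_⟩
    have h3 := (TG.beyond_sep T.tree hxy (a := x) (b := L₂ b)).1 ⟨by
      have := hA i
      rwa [hi] at this, hB b⟩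
    exact h3.2.1) (by rw [hi, hj]; exact hxy.ne)
  rw [hi, hj] at hr
  refine ⟨d₁ * d₂, l, L, D.mul_mem hd₁ hd₂, hL, hr x ?_, hr y ?_⟩
  · show T.G.dist x x + T.G.dist x y = T.G.dist x y
    rw [SimpleGraph.dist_self, zero_add]
  · show T.G.dist x y + T.G.dist y y = T.G.dist x y
    rw [SimpleGraph.dist_self, add_zero]

/-- a map from the naturals to the integers which preserves distances and fixes zero -/
theorem T6b_sign (f : ℕ → ℤ) (h0 : f 0 = 0) (h : ∀ i j : ℕ, (f i - f j).natAbs = ((i : ℤ) - j).natAbs) :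
    (∀ i, f i = i) ∨ ∀ i, f i = -i := by
  have h1 : ∀ i : ℕ, (f i).natAbs = i := by
    intro i
    have := h i 0
    rw [h0] at this
    simpa using this
  rcases (by have := h1 1; omega : f 1 = 1 ∨ f 1 = -1) with h2 | h2
  · left
    intro i
    have h3 := h1 i
    have h4 := h i 1
    rw [h2] at h4
    push_cast at h4
    omega
  · right
    intro i
    have h3 := h1 i
    have h4 := h i 1
    rw [h2] at h4
    push_cast at h4
    omega

/-- two axes sharing a ray are equal, if edge stabilisers are trivial -/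
theorem T6b_ray {D : Subgroup Γ} (hD : D ≤ M)
    (hfree : ∀ d ∈ D, ∀ x y, T.G.Adj x y → T.act d x = x → T.act d y = y → d = 1)
    {d₁ d₂ : Γ} (hd₁ : d₁ ∈ D) (hd₂ : d₂ ∈ D) {l₁ l₂ : ℕ} {L₁ L₂ : ℤ → T.X}
    (hL₁ : T.IsAxis d₁ l₁ L₁) (hL₂ : T.IsAxis d₂ l₂ L₂) (h0 : L₁ 0 = L₂ 0)
    (hr : ∀ i : ℕ, L₁ (-i) ∈ Set.range L₂) : Set.range L₁ = Set.range L₂ := by
  choose f hf using hr
  have hinj : ∀ a b : ℤ, L₂ a = L₂ b → a = b := by
    intro a b hab
    have := hL₂.2.1 a b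
    rw [hab, SimpleGraph.dist_self] at this
    omega
  have hf0 : f 0 = 0 := by
    apply hinj
    rw [hf 0, ← h0]
    simp
  have hsign := T6b_sign f hf0 (fun i j => by
    have h1 := hL₂.2.1 (f i) (f j)
    rw [hf, hf, hL₁.2.1] at h1
    rw [← h1]
    omega)
  -- reduce to the case of equal directions
  have key : ∀ (d₂ : Γ) (L₂ : ℤ → T.X), d₂ ∈ D → T.IsAxis d₂ l₂ L₂ → (∀ i : ℕ, L₁ (-i) = L₂ (-i)) →
      Set.range L₁ = Set.range L₂ := by
    intro d₂ L₂ hd₂ hL₂ hall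
    have hl₁ := hL₁.1
    have hl₂ := hL₂.1
    have hp1 := T.axis_pow (hD hd₁) hL₁ hl₂
    have hp2 := T.axis_pow (hD hd₂) hL₂ hl₁
    have hk1 : d₁ ^ l₂ ∈ D := D.pow_mem hd₁ _
    have hk2 : d₂ ^ l₁ ∈ D := D.pow_mem hd₂ _
    have hagree : ∀ i : ℕ, l₁ * l₂ ≤ i → T.act (d₁ ^ l₂) (L₁ (-i)) = T.act (d₂ ^ l₁) (L₁ (-i)) := by
      intro i hi
      rw [hp1.2.2, hall i, hp2.2.2]
      have h1 : (-(i : ℤ) + ((l₂ * l₁ : ℕ) : ℤ)) = -((i - l₁ * l₂ : ℕ) : ℤ) := by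
        push_cast [Nat.cast_sub hi]
        ring
      have h2 : (-(i : ℤ) + ((l₁ * l₂ : ℕ) : ℤ)) = -((i - l₁ * l₂ : ℕ) : ℤ) := by
        push_cast [Nat.cast_sub hi]
        ring
      rw [h1, h2]
      exact hall _
    have hone : (d₂ ^ l₁)⁻¹ * d₁ ^ l₂ = 1 := by
      refine hfree _ (D.mul_mem (D.inv_mem hk2) hk1) (L₁ (-((l₁ * l₂ : ℕ) : ℤ)))
        (L₁ (-((l₁ * l₂ + 1 : ℕ) : ℤ))) ?_ ?_ ?_
      · rw [← SimpleGraph.dist_eq_one_iff_adj, hL₁.2.1]
        push_cast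
        omega
      · rw [T.act_mul _ (M.inv_mem (hD hk2)) _ (hD hk1), hagree _ le_rfl, T.act_inv_act (hD hk2)]
      · rw [T.act_mul _ (M.inv_mem (hD hk2)) _ (hD hk1), hagree _ (by omega),
          T.act_inv_act (hD hk2)]
    have heq : d₁ ^ l₂ = d₂ ^ l₁ := (inv_mul_eq_one.1 hone).symm
    rw [heq] at hp1
    rw [← (T.axis_eq (hD hk2) hp1).1, ← (T.axis_eq (hD hk2) hp2).1]
  rcases hsign with hs | hs
  · -- opposite directions
    have h1 := key d₂⁻¹ (fun i => L₂ (-i)) (D.inv_mem hd₂) (T.axis_inv (hD hd₂) hL₂) (fun i => by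
      show L₁ (-i) = L₂ (- -(i : ℤ))
      rw [neg_neg, ← hf i, hs i])
    rw [h1]
    ext w
    constructor
    · rintro ⟨i, rfl⟩
      exact ⟨-i, rfl⟩
    · rintro ⟨i, rfl⟩
      exact ⟨-i, by simp only [neg_neg]⟩
  · exact key d₂ L₂ hd₂ hL₂ (fun i => by rw [← hf i, hs i])

/-- an axis in a half space -/
theorem T6b_push {D : Subgroup Γ} (hD : D ≤ M)
    (hfree : ∀ d ∈ D, ∀ x y, T.G.Adj x y → T.act d x = x → T.act d y = y → d = 1)
    {d₁ d₂ : Γ} (hd₁ : d₁ ∈ D) (hd₂ : d₂ ∈ D) {l₁ l₂ : ℕ} {L₁ L₂ : ℤ → T.X}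
    (hL₁ : T.IsAxis d₁ l₁ L₁) (hL₂ : T.IsAxis d₂ l₂ L₂) {x y : T.X} (hxy : T.G.Adj x y)
    (hx₁ : x ∈ Set.range L₁) (hy₁ : y ∈ Set.range L₁) (hy₂ : y ∈ Set.range L₂)
    (hne : Set.range L₁ ≠ Set.range L₂) :
    ∃ (f : Γ) (L : ℤ → T.X), f ∈ D ∧ T.IsAxis f l₂ L ∧ ∀ a, T.Beyond y x (L a) := by
  -- normalise the parametrisations: `L₁ 0 = y`, `L₁ 1 = x`, `L₂ 0 = y`
  obtain ⟨d, l, L, hd, hL, hL0, hL1, hrange⟩ : ∃ (d : Γ) (l : ℕ) (L : ℤ → T.X), d ∈ D ∧
      T.IsAxis d l L ∧ L 0 = y ∧ L 1 = x ∧ Set.range L = Set.range L₁ := by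
    obtain ⟨a, ha⟩ := hx₁
    obtain ⟨b, hb⟩ := hy₁
    have hab : (a - b).natAbs = 1 := by
      rw [← hL₁.2.1, ha, hb]
      exact SimpleGraph.dist_eq_one_iff_adj.2 hxy
    rcases (by omega : a = b + 1 ∨ a = b - 1) with h1 | h1
    · refine ⟨d₁, l₁, fun i => L₁ (i + b), hd₁, ⟨hL₁.1, ?_, ?_⟩, ?_, ?_, ?_⟩
      · intro i j
        show T.G.dist (L₁ (i + b)) (L₁ (j + b)) = _
        rw [hL₁.2.1]
        congr 1
        ring
      · intro i
        show T.act d₁ (L₁ (i + b)) = L₁ (i + l₁ + b)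
        rw [hL₁.2.2]
        congr 1
        ring
      · show L₁ (0 + b) = y
        rw [zero_add, hb]
      · show L₁ (1 + b) = x
        rw [add_comm, ← h1, ha]
      · ext w
        constructor
        · rintro ⟨i, rfl⟩
          exact ⟨i + b, rfl⟩
        · rintro ⟨i, rfl⟩
          exact ⟨i - b, by simp only [sub_add_cancel]⟩
    · have hinv := T.axis_inv (hD hd₁) hL₁
      refine ⟨d₁⁻¹, l₁, fun i => L₁ (-(i - b)), D.inv_mem hd₁, ⟨hL₁.1, ?_, ?_⟩, ?_, ?_, ?_⟩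
      · intro i j
        show T.G.dist (L₁ (-(i - b))) (L₁ (-(j - b))) = _
        rw [hL₁.2.1]
        omega
      · intro i
        show T.act d₁⁻¹ (L₁ (-(i - b))) = L₁ (-(i + l₁ - b))
        have := hinv.2.2 (i - b)
        rw [this]
        congr 1
        ring
      · show L₁ (-(0 - b)) = y
        rw [zero_sub, neg_neg, hb]
      · show L₁ (-(1 - b)) = x
        rw [← ha]
        congr 1
        omega
      · ext w
        constructor
        · rintro ⟨i, rfl⟩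
          exact ⟨-(i - b), rfl⟩
        · rintro ⟨i, rfl⟩
          exact ⟨-i + b, by simp⟩
  obtain ⟨L', hL', hL'0, hrange'⟩ : ∃ (L' : ℤ → T.X),
      T.IsAxis d₂ l₂ L' ∧ L' 0 = y ∧ Set.range L' = Set.range L₂ := by
    obtain ⟨b, hb⟩ := hy₂
    refine ⟨fun i => L₂ (i + b), ⟨hL₂.1, ?_, ?_⟩, ?_, ?_⟩
    · intro i j
      show T.G.dist (L₂ (i + b)) (L₂ (j + b)) = _
      rw [hL₂.2.1]
      congr 1
      ring
    · intro i
      show T.act d₂ (L₂ (i + b)) = L₂ (i + l₂ + b)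
      rw [hL₂.2.2]
      congr 1
      ring
    · show L₂ (0 + b) = y
      rw [zero_add, hb]
    · ext w
      constructor
      · rintro ⟨i, rfl⟩
        exact ⟨i + b, rfl⟩
      · rintro ⟨i, rfl⟩
        exact ⟨i - b, by simp only [sub_add_cancel]⟩
  have hne' : Set.range L ≠ Set.range L' := by rw [hrange, hrange']; exact hne
  have hl := hL.1
  -- some backwards translate of `y` is not on the second axis
  obtain ⟨k, hk⟩ : ∃ k : ℕ, L (-((k * l : ℕ) : ℤ)) ∉ Set.range L' := by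
    by_contra hcon
    push Not at hcon
    refine hne' (T6b_ray T hD hfree hd hd₂ hL hL' (by rw [hL0, hL'0]) (fun i => ?_))
    have hconv : T.Conv (Set.range L') := TG.conv_range_line T.tree hL'.2.1
    refine hconv _ (Set.mem_range_self 0) _ (hcon i) _ ?_
    rw [hL'0, ← hL0]
    show T.G.dist (L 0) (L (-(i : ℤ))) + T.G.dist (L (-(i : ℤ))) (L (-((i * l : ℕ) : ℤ)))
      = T.G.dist (L 0) (L (-((i * l : ℕ) : ℤ)))
    rw [hL.2.1, hL.2.1, hL.2.1]
    have h1 : i ≤ i * l := Nat.le_mul_of_pos_right i hl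
    push_cast
    have h2 : (i : ℤ) ≤ i * l := by exact_mod_cast h1
    generalize (i : ℤ) * l = t at h2
    omega
  -- `k` is positive
  have hk0 : 0 < k := by
    rcases Nat.eq_zero_or_pos k with h0 | h0
    · exfalso
      apply hk
      rw [h0]
      simp only [zero_mul, Nat.cast_zero, neg_zero]
      rw [hL0, ← hL'0]
      exact Set.mem_range_self 0
    · exact h0
  have hpow := T.axis_pow (hD hd) hL hk0
  have hdk : d ^ k ∈ D := D.pow_mem hd k
  have hconj := T.axis_conj (hD hd₂) (hD hdk) hL'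
  refine ⟨d ^ k * d₂ * (d ^ k)⁻¹, fun i => T.act (d ^ k) (L' i),
    D.mul_mem (D.mul_mem hdk hd₂) (D.inv_mem hdk), hconj, ?_⟩
  have hconv : T.Conv (Set.range fun i => T.act (d ^ k) (L' i)) :=
    TG.conv_range_line T.tree hconj.2.1
  have hy : y ∉ Set.range fun i => T.act (d ^ k) (L' i) := by
    rintro ⟨i, hi⟩
    apply hk
    refine ⟨i, ?_⟩
    have h1 : T.act (d ^ k) (L (-((k * l : ℕ) : ℤ))) = y := by
      rw [hpow.2.2, neg_add_cancel, hL0]
    exact T.act_inj (hD hdk) (hi.trans h1.symm)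
  have hb : T.Beyond y x (T.act (d ^ k) (L' 0)) := by
    rw [hL'0, ← hL0, hpow.2.2, zero_add, ← hL1]
    show T.G.dist (L 1) (L _) < T.G.dist (L 0) (L _)
    rw [hL.2.1, hL.2.1]
    have h1 : 1 ≤ k * l := Nat.mul_pos hk0 hl
    omega
  intro a
  exact T6b_half T hconv hxy hy (Set.mem_range_self 0) hb (Set.mem_range_self a)

/-- if edge stabilisers in `D` are trivial: two adjacent edges of the core lie on the axis of a hyperbolic element
of `D` -/
theorem core_turn (hni : T.NoInv) {D : Subgroup Γ} (hD : D ≤ M) (hne : ¬ T.Ell (D : Set Γ))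
    (hfree : ∀ d ∈ D, ∀ x y, T.G.Adj x y → T.act d x = x → T.act d y = y → d = 1)
    {x y z : T.X} (hx : x ∈ T.core D) (hy : y ∈ T.core D) (hz : z ∈ T.core D) (hxy : T.G.Adj x y)
    (hyz : T.G.Adj y z) (hxz : x ≠ z) :
    ∃ (d : Γ) (l : ℕ) (L : ℤ → T.X) (i : ℤ), d ∈ D ∧ T.IsAxis d l L ∧ L i = x ∧ L (i + 1) = y ∧
      L (i + 2) = z := by
  obtain ⟨d₁, l₁, L₁, hd₁, hL₁, hx₁, hy₁⟩ := T6b_edge T hni hD hne hx hy hxy
  obtain ⟨d₂, l₂, L₂, hd₂, hL₂, hy₂, hz₂⟩ := T6b_edge T hni hD hne hy hz hyz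
  by_cases heq : Set.range L₁ = Set.range L₂
  · exact T6b_dir T hD hd₁ hL₁ hx₁ hy₁ (heq ▸ hz₂) hxy hyz hxz
  obtain ⟨f₁, A, hf₁, hA, hA2⟩ := T6b_push T hD hfree hd₁ hd₂ hL₁ hL₂ hxy hx₁ hy₁ hy₂ heq
  obtain ⟨f₂, B, hf₂, hB, hB2⟩ :=
    T6b_push T hD hfree hd₂ hd₁ hL₂ hL₁ hyz.symm hz₂ hy₂ hy₁ (Ne.symm heq)
  have hdisj2 : ∀ w, T.Beyond y x w → T.Beyond y z w → False := by
    intro w h1 h2
    have hyw : y ≠ w := by
      rintro rfl
      have h3 : T.G.dist x y < T.G.dist y y := h1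
      rw [SimpleGraph.dist_self] at h3
      omega
    obtain ⟨u, -, hu⟩ := TG.exists_unique_next T.tree hyw
    have h1' : T.G.dist x w < T.G.dist y w := h1
    have h2' : T.G.dist z w < T.G.dist y w := h2
    have e1 := hu x ⟨hxy.symm, by
      rcases TG.adj_dist T.tree hxy w with h3 | h3 <;> omega⟩
    have e2 := hu z ⟨hyz, by
      rcases TG.adj_dist T.tree hyz w with h3 | h3 <;> omega⟩
    exact hxz (e1.trans e2.symm)
  have hcA : T.Conv (Set.range A) := TG.conv_range_line T.tree hA.2.1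
  have hcB : T.Conv (Set.range B) := TG.conv_range_line T.tree hB.2.1
  obtain ⟨b, ⟨⟨i, hi⟩, ⟨j, hj⟩, hb3⟩, -⟩ := TG.exists_unique_bridge T.tree hcA hcB
    ⟨_, Set.mem_range_self 0⟩ ⟨_, Set.mem_range_self 0⟩ (by
      rw [Set.disjoint_left]
      rintro w ⟨a, rfl⟩ ⟨c, hc⟩
      exact hdisj2 _ (hA2 a) (hc ▸ hB2 c))
  have hb1x : T.Beyond y x b.1 := hi ▸ hA2 i
  have hb2z : T.Beyond y z b.2 := hj ▸ hB2 j
  have hsep1 := (TG.beyond_sep T.tree hxy (a := b.1) (b := b.2)).1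
    ⟨(TG.beyond_iff T.tree hxy.symm _).1 hb1x, (TG.beyond_iff T.tree hxy _).2
      (fun h0 => hdisj2 _ h0 hb2z)⟩
  have hsep2 := (TG.beyond_sep T.tree hyz (a := b.1) (b := b.2)).1
    ⟨fun h0 => hdisj2 _ hb1x h0, hb2z⟩
  obtain ⟨l, L, hL, hr⟩ := T.axes_disjoint (hD hf₁) (hD hf₂) hA hB (i := i) (j := j) (by
    intro a c
    rw [hi, hj]
    obtain ⟨q1, q2, q3, q4⟩ := hb3 _ (Set.mem_range_self a) _ (Set.mem_range_self c)
    exact ⟨q1, q3⟩) (by
      rw [hi, hj]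
      intro h0
      exact hdisj2 _ hb1x (h0 ▸ hb2z))
  rw [hi, hj] at hr
  exact T6b_dir T hD (D.mul_mem hf₁ hf₂) hL (hr x hsep1.1) (hr y hsep1.2.1) (hr z hsep2.2.1)
    hxy hyz hxz

end MTree

end Pool.Agent.Lib.MP_6567fb_al
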