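import Pool.Agent.Lib.MP_6567fb_al.F2a
import Pool.Agent.Lib.MP_6567fb_al.T11
import Pool.Agent.Lib.MP_6567fb_al.T10c
import Pool.Agent.Lib.MP_6567fb_al.T6b
import Pool.Agent.Lib.MP_6567fb_al.T14a

/-!
# MP_6567fb_al, module F2b

(1) of F2.2.  D is an Mg-factor (g = π W), T' := core_splitting D for Mg (an (Mg ⊓ N(D))-splitting embedded with image core D, minimal).  Suppose the D-orbit of {x,y}
contains no edge of the axis.  K a b := {a,b} is in the D-orbit (unoriented) of the edge {x,y}; B := collapse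
(T11) of T' keeping K.  The axis of W is mapped to one vertex v of B, W v = v, D' := B.stab v ⊓ F ≤ D is an Ω-factor, D' ≠ ⊥, W-invariant, so D = D'.  But an element of D whose axis
contains the edge is hyperbolic on B.
-/

set_option autoImplicit false

open scoped Pointwise
open Filter

namespace Pool.Agent.Lib.MP_6567fb_al

open MTree
variable {Γ G : Type} [Group Γ] [Group G] {π : Γ →* G}

/-- a constant map on the integers -/
theorem const_of_step {A : Type} (f : ℤ → A) (h : ∀ i, f i = f (i + 1)) (i : ℤ) : f i = f 0 := by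
  induction i using Int.induction_on with
  | zero => rfl
  | succ k ih => rw [← h]; exact ih
  | pred k ih =>
    rw [h, sub_add_cancel]
    exact ih

/-- an edge of a minimal tree lies on the axis of some hyperbolic element -/
theorem edge_on_axis {N D : Subgroup Γ} (hDN : D ≤ N) {T : MTree N} (hni : T.NoInv)
    (hne : ¬ T.Ell (D : Set Γ))
    (hfree : ∀ d ∈ D, ∀ x y, T.G.Adj x y → T.act d x = x → T.act d y = y → d = 1)
    {x y : T.X} (hx : x ∈ T.core D) (hy : y ∈ T.core D) (hxy : T.G.Adj x y) :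
    ∃ (d : Γ) (l : ℕ) (L : ℤ → T.X) (i : ℤ), d ∈ D ∧ T.IsAxis d l L ∧ L i = x ∧ L (i + 1) = y := by
  have hx' : ∃ d ∈ D, T.Hyp d ∧ x ∈ T.Axis d := by
    unfold core at hx
    rw [if_neg hne] at hx
    exact hx
  obtain ⟨d, hd, hh, hxa⟩ := hx'
  rcases T.ell_or_axis hni (hDN hd) with ⟨z, hz⟩ | ⟨l, L, hL⟩
  · exact absurd hz (hh z)
  · rw [(T.axis_eq (hDN hd) hL).1] at hxa
    obtain ⟨i, rfl⟩ := hxa
    have hadj : T.G.Adj (L (i + 1)) (L i) := by
      rw [← SimpleGraph.dist_eq_one_iff_adj, hL.2.1 (i + 1) i]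
      simp
    by_cases hyi : y = L (i + 1)
    · exact ⟨d, l, L, i, hd, hL, rfl, hyi.symm⟩
    · have hmem : L (i + 1) ∈ T.core D := by
        unfold core
        rw [if_neg hne]
        refine ⟨d, hd, hh, ?_⟩
        rw [(T.axis_eq (hDN hd) hL).1]
        exact ⟨_, rfl⟩
      obtain ⟨d', l', L', j, hd', hL', h1, h2, h3⟩   := T.core_turn hni hDN hne hfree hmem hx hy hadj hxy
        (fun h => hyi h.symm)
      exact ⟨d', l', L', j + 1, hd', hL', h2, by rw [← h3]; congr 1; ring⟩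

theorem supp_meets (hc : Ctx π) {M : Subgroup Γ} (hM : Full π M) {Ω : Set (Subgroup Γ)}
    (hΩ : IsProper π.ker M Ω) {T : MTree M} (hT : T.IsSplitting π.ker) (hr : T.Rel Ω) {W : Γ}
    (hW : W ∈ M) {D : Subgroup Γ} (hD : IsSupp π.ker (M ⊓ π.ker) Ω W D) {l : ℕ} {L : ℤ → T.X}
    (hL : T.IsAxis W l L) {x y : T.X} (hx : x ∈ T.core D) (hy : y ∈ T.core D)
    (hxy : T.G.Adj x y) :
    ∃ i : ℤ, ∃ d ∈ D, (T.act d x = L i ∧ T.act d y = L (i + 1)) ∨
      (T.act d x = L (i + 1) ∧ T.act d y = L i) := by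
  classical
  by_contra hcon
  have hDf : IsFactor π.ker (M ⊓ π.ker) D := hD.ofac.fac
  have hinv := hD.inv
  obtain ⟨hnell, haxis, hlift⟩ := inv_axis hc hM hT hW hDf hD.ne hinv hL
  have hDM : IsMFactor π.ker (Mg π M (π W)) D := inv_mfactor hDf hD.ne hW hinv
  have hMg : Loc π (Mg π M (π W)) := Loc.mg hM.toLoc (π W)
  have hTg := IsSplitting.mg hT (π W)
  have hne' : ¬ (T.res (mg_le (π := π) M (π W))).Ell (D : Set Γ) := hnell
  obtain ⟨T', ι, hι, hrange, hT's, hT'min⟩ := core_splitting hc hMg hTg hDM hne'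
  have hND : (Mg π M (π W) ⊓ Subgroup.normalizer D) ⊓ π.ker = D := norm_inf hc hMg hDM
  have hDN : D ≤ Mg π M (π W) ⊓ Subgroup.normalizer D := by
    conv_lhs => rw [← hND]
    exact inf_le_left
  have hDker : D ≤ π.ker := by
    conv_lhs => rw [← hND]
    exact inf_le_right
  have hWg : W ∈ Mg π M (π W) := mem_mg hW rfl
  have hWN : W ∈ Mg π M (π W) ⊓ Subgroup.normalizer D := by
    refine ⟨hWg, ?_⟩
    change W ∈ Subgroup.normalizer (D : Set Γ)
    rw [Subgroup.mem_normalizer_iff]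
    intro h
    have h1 := Subgroup.smul_mem_pointwise_smul_iff (a := MulAut.conj W) (S := D) (x := h)
    rw [hinv] at h1
    exact h1.symm
  -- the vertices x, y upstairs
  have hcore : (T.res (mg_le (π := π) M (π W))).core D = T.core D := rfl
  rw [hcore] at hrange
  obtain ⟨x', rfl⟩ : x ∈ Set.range ι := by rw [hrange]; exact hx
  obtain ⟨y', rfl⟩ : y ∈ Set.range ι := by rw [hrange]; exact hy
  have hdist : ∀ a b, T'.G.dist a b = T.G.dist (ι a) (ι b) := fun a b => (hι.dist a b).symm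
  have hxy' : T'.G.Adj x' y' := by
    rw [← SimpleGraph.dist_eq_one_iff_adj, hdist]
    exact SimpleGraph.dist_eq_one_iff_adj.2 hxy
  have hact : ∀ m ∈ Mg π M (π W) ⊓ Subgroup.normalizer D, ∀ z, ι (T'.act m z) = T.act m (ι z) :=
    fun m hm z => hι.equi m hm z
  -- the axis upstairs
  have hLr : ∀ i, ∃ z, ι z = L i := by
    intro i
    have : L i ∈ Set.range ι := by rw [hrange]; exact haxis i
    exact this
  choose L' hL' using hLr
  have hadjL : ∀ i, T.G.Adj (L i) (L (i + 1)) := by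
    intro i
    rw [← SimpleGraph.dist_eq_one_iff_adj, hL.2.1 i (i + 1)]
    simp
  have hadjL' : ∀ i, T'.G.Adj (L' i) (L' (i + 1)) := by
    intro i
    rw [← SimpleGraph.dist_eq_one_iff_adj, hdist, hL', hL']
    exact SimpleGraph.dist_eq_one_iff_adj.2 (hadjL i)
  -- the orbit of the edge
  obtain ⟨K, hK⟩ : ∃ K : T'.X → T'.X → Prop, ∀ a b, K a b ↔ ∃ d ∈ D,
      (T'.act d x' = a ∧ T'.act d y' = b) ∨ (T'.act d x' = b ∧ T'.act d y' = a) :=
    ⟨_, fun a b => Iff.rfl⟩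
  have hKs : ∀ a b, K a b → K b a := by
    intro a b h
    rw [hK] at h ⊢
    obtain ⟨d, hd, h⟩ := h
    exact ⟨d, hd, h.symm⟩
  have hKi : ∀ m ∈ Mg π M (π W) ⊓ Subgroup.normalizer D, ∀ a b, K a b →
      K (T'.act m a) (T'.act m b) := by
    intro m hm a b h
    rw [hK] at h ⊢
    obtain ⟨d, hd, h⟩ := h
    obtain ⟨h', hh', e1, e2⟩ := hT's.orb (m * d) (mul_mem hm (hDN hd)) x' y' hxy'
    rw [hND] at hh'
    refine ⟨h', hh', ?_⟩
    rw [e1, e2, T'.act_mul m hm d (hDN hd), T'.act_mul m hm d (hDN hd)]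
    rcases h with ⟨h1, h2⟩ | ⟨h1, h2⟩
    · left; rw [h1, h2]; exact ⟨rfl, rfl⟩
    · right; rw [h1, h2]; exact ⟨rfl, rfl⟩
  obtain ⟨B, pr, hB, hpr⟩ := collapse_exists T' K hKs hKi
  -- the axis is collapsed
  have hLK : ∀ i, pr (L' i) = pr (L' (i + 1)) := by
    intro i
    by_contra hne
    have h1 := (hpr _ _ (hadjL' i)).1 hne
    rw [hK] at h1
    obtain ⟨d, hd, h⟩ := h1
    apply hcon
    refine ⟨i, d, hd, ?_⟩
    rw [← hact d (hDN hd), ← hact d (hDN hd)]
    rcases h with ⟨h1, h2⟩ | ⟨h1, h2⟩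
    · left; rw [h1, h2, hL', hL']; exact ⟨rfl, rfl⟩
    · right; rw [h1, h2, hL', hL']; exact ⟨rfl, rfl⟩
  have hconst : ∀ i, pr (L' i) = pr (L' 0) := const_of_step (fun i => pr (L' i)) hLK
  obtain ⟨v, hv⟩ : ∃ v, v = pr (L' 0) := ⟨_, rfl⟩
  have hWL : ∀ i, T'.act W (L' i) = L' (i + l) := by
    intro i
    apply hι.inj
    rw [hact W hWN, hL', hL', hL.2.2]
  have hWv : B.act W v = v := by
    rw [hv, ← hB.equi W hWN, hWL, hconst, hconst]
  -- the vertex group downstairs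
  have hBs : B.IsSplitting π.ker := hB.base hT's
  have hFD : D ⊓ π.ker = (Mg π M (π W) ⊓ Subgroup.normalizer D) ⊓ π.ker := by
    rw [hND]
    exact inf_eq_left.2 hDker
  have hBD : (B.res hDN).IsSplitting π.ker := hBs.res hDN hFD
  have hst : (B.res hDN).stab v ⊓ π.ker = B.stab v ⊓ π.ker := by
    ext m
    constructor
    · rintro ⟨⟨h1, h2⟩, h3⟩
      exact ⟨⟨hDN h1, h2⟩, h3⟩
    · rintro ⟨⟨h1, h2⟩, h3⟩
      refine ⟨⟨?_, h2⟩, h3⟩
      rw [← hND]
      exact ⟨h1, h3⟩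
  have hΩ' : IsPeriph π.ker (M ⊓ π.ker) Ω := by
    obtain ⟨TT, h1, -, h2⟩ := hΩ.tree
    exact IsPeriph.restr ⟨hΩ.inv, TT, h1, h2⟩
  have hrel : ∀ E ∈ Ω, (B.res hDN).Ell ((E ⊓ D : Subgroup Γ) : Set Γ) := by
    intro E hE
    obtain ⟨z, hz⟩ := hr E hE
    -- project z to the core
    have hconv : T.Conv (T.core D) := T.core_conv (hT.noInv hc) (le_trans (fac_le hDf) inf_le_left)
    have hnon : (T.core D).Nonempty := ⟨_, hx⟩
    obtain ⟨p, ⟨hp1, hp2⟩, hp3⟩ := TG.exists_unique_proj T.tree hconv hnon z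
    obtain ⟨p', rfl⟩ : p ∈ Set.range ι := by rw [hrange]; exact hp1
    refine ⟨pr p', ?_⟩
    rintro e ⟨he1, he2⟩
    have heM : e ∈ M := (fac_le hDf he2).1
    change B.act e (pr p') = pr p'
    rw [← hB.equi e (hDN he2)]
    congr 1
    apply hι.inj
    rw [hact e (hDN he2)]
    have hcinv : ∀ w, w ∈ T.core D → T.act e w ∈ T.core D := by
      intro w hw
      obtain ⟨w', rfl⟩ : w ∈ Set.range ι := by rw [hrange]; exact hw
      rw [← hact e (hDN he2), ← hrange]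
      exact ⟨_, rfl⟩
    have hcinv' : ∀ w, w ∈ T.core D → T.act e⁻¹ w ∈ T.core D := by
      intro w hw
      obtain ⟨w', rfl⟩ : w ∈ Set.range ι := by rw [hrange]; exact hw
      rw [← hact e⁻¹ (hDN (inv_mem he2)), ← hrange]
      exact ⟨_, rfl⟩
    apply hp3
    refine ⟨hcinv _ hp1, fun s hs => ?_⟩
    have h1 := hp2 (T.act e⁻¹ s) (hcinv' s hs)
    have h2 := (T.btw_act heM z (ι p') (T.act e⁻¹ s)).2 h1
    rw [T.act_act_inv heM, hz e he1] at h2
    exact h2
  have hof : IsOFactor π.ker (M ⊓ π.ker) Ω (B.stab v ⊓ π.ker) := by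
    rw [← hst]
    exact ofac_trans hc hM.fac hΩ' hD.ofac (B.res hDN) hBD hrel v
  -- it is not trivial
  have hbot : B.stab v ⊓ π.ker ≠ ⊥ := by
    intro h0
    obtain ⟨P, ⟨hPM, hPW, hPf⟩, -⟩ := hT.lift (hadjL 0) hW
    obtain ⟨-, hy1⟩ := hlift 0 P hPM hPW hPf
    have hyl : T.act (W * P⁻¹) (L 0) = L l := by
      rw [T.act_mul W hW P⁻¹ (inv_mem hPM)]
      have : T.act P⁻¹ (L 0) = L 0 := by
        conv_lhs => rw [← hPf.1]
        exact T.act_inv_act hPM _
      rw [this, hL.2.2, zero_add]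
    have hyv : B.act (W * P⁻¹) v = v := by
      rw [hv, ← hB.equi _ (hDN hy1)]
      have : T'.act (W * P⁻¹) (L' 0) = L' l := by
        apply hι.inj
        rw [hact _ (hDN hy1), hL', hL', hyl]
      rw [this, hconst]
    have hmem : W * P⁻¹ ∈ B.stab v ⊓ π.ker := ⟨⟨hDN hy1, hyv⟩, hDker hy1⟩
    rw [h0, Subgroup.mem_bot] at hmem
    rw [hmem, T.act_one] at hyl
    have h1 := hL.2.1 0 l
    rw [← hyl, SimpleGraph.dist_self] at h1
    have h2 := hL.1
    omega
  have hDinv : MulAut.conj W • (B.stab v ⊓ π.ker) = B.stab v ⊓ π.ker := by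
    rw [Subgroup.smul_inf]
    congr 1
    · rw [← B.stab_act hWN, hWv]
    · exact Subgroup.Normal.conj_smul_eq_self W π.ker
  have hle : D ≤ B.stab v ⊓ π.ker := hD.min _ hof hbot hDinv
  -- an element whose axis contains the edge
  have hmin := hT'min.2
  rw [hND] at hmin
  have hT'ne : ¬ T'.Ell (D : Set Γ) := by
    rintro ⟨z, hz⟩
    obtain ⟨h, hh, hh'⟩ := hT'min.1 z
    rw [hND] at hh
    exact hh' (hz h hh)
  obtain ⟨d, l₁, L₁, i, hd, hL₁, e1, e2⟩ := edge_on_axis hDN (hT's.noInv hc) hT'ne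
    (fun d hd a b hab ha hb => hT's.free d (by rw [hND]; exact hd) a b hab ha hb)
    (x := x') (y := y') (by rw [hmin]; trivial) (by rw [hmin]; trivial) hxy'
  have hhyp : B.Hyp d := by
    rw [hB.hyp_iff (hDN hd) hL₁]
    refine ⟨i, ?_⟩
    rw [e1, e2, hpr _ _ hxy', hK]
    exact ⟨1, one_mem _, Or.inl ⟨T'.act_one _, T'.act_one _⟩⟩
  exact hhyp v (hle hd).1.2

end Pool.Agent.Lib.MP_6567fb_al
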