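import Pool.Agent.Lib.MP_6567fb_al.T2a

/-!
# MP_6567fb_al, module T2b

Elliptic elements and axes.  coherent: the vertices of [x,mx] and its translates form a line (chain_geod /
line_of_local; L(i + kl) = m^k L(i), 0 ≤ i < l).  ell_or_axis: x with dist x (m x) minimal; if it is 0: fixed vertex; otherwise
coherent applies (if the directions at m x of x and m²x agree, the neighbour of x in the direction of m x has
smaller displacement, or (distance 1) m inverts an edge).  disp: i = projection of x to the axis.  comm_axis: n maps the axis to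
the axis of n m n⁻¹ = m (axis_unique, axis_conj).  axis_subset: project L 0 to S.  fix_proj: project a fixed
vertex to S; m fixes the projection (uniqueness).  ell_of_pow: otherwise m has an axis and m^k translates it.
-/

set_option autoImplicit false

open scoped Pointwise

namespace Pool.Agent.Lib.MP_6567fb_al

open MTree
namespace TG
variable {X : Type} {G : SimpleGraph X}

theorem dist_pos_of_ne (hG : G.IsTree) {x y : X} (h : x ≠ y) : 0 < G.dist x y :=
  (hG.connected.pos_dist_of_ne h)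

theorem eq_of_dist_zero (hG : G.IsTree) {x y : X} (h : G.dist x y = 0) : x = y := by
  by_contra hne
  have := dist_pos_of_ne hG hne
  omega

/-- two different neighbours of a vertex have distance two -/
theorem btw_of_adj_adj (hG : G.IsTree) {x y z : X} (h1 : G.Adj x y) (h2 : G.Adj x z) (h : y ≠ z) :
    Btw G y x z := by
  have hxz : G.dist x z = 1 := SimpleGraph.dist_eq_one_iff_adj.2 h2
  have hyx : G.dist y x = 1 := SimpleGraph.dist_eq_one_iff_adj.2 h1.symm
  have hyz := dist_pos_of_ne hG h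
  have := adj_dist hG h1 z
  unfold Btw
  omega

theorem line_inj {L : ℤ → X} (hL : IsLine G L) {i j : ℤ} (h : L i = L j) : i = j := by
  have := hL i j
  rw [h, SimpleGraph.dist_self] at this
  omega

theorem line_btw {L : ℤ → X} (hL : IsLine G L) {i j k : ℤ} (h1 : i ≤ j) (h2 : j ≤ k) :
    Btw G (L i) (L j) (L k) := by
  unfold Btw
  rw [hL, hL, hL]
  omega

end TG

namespace MTree
variable {Γ : Type} [Group Γ] {M : Subgroup Γ} (T : MTree M)

/-- coherence criterion -/
theorem coherent {m : Γ} (hm : m ∈ M) {x : T.X} (hx : T.act m x ≠ x)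
    (hb : T.Btw x (T.act m x) (T.act m (T.act m x))) :
    ∃ (l : ℕ) (L : ℤ → T.X), T.IsAxis m l L ∧ L 0 = x ∧ l = T.G.dist x (T.act m x) := by
  classical
  set l := T.G.dist x (T.act m x) with hl
  have hlpos : 0 < l := TG.dist_pos_of_ne T.tree hx.symm
  have hpt : ∀ k : ℕ, ∃ y, k ≤ l → (T.Btw x y (T.act m x) ∧ T.G.dist x y = k) := by
    intro k
    by_cases hk : k ≤ l
    · obtain ⟨y, hy, _⟩ := TG.btw_point T.tree (x := x) (z := T.act m x) (k := k) hk
      exact ⟨y, fun _ => hy⟩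
    · exact ⟨x, fun h => absurd h hk⟩
  choose p hp using hpt
  have p0 : p 0 = x := by
    have := (hp 0 (Nat.zero_le _)).2
    exact (TG.eq_of_dist_zero T.tree this).symm
  have pl : p l = T.act m x := by
    have h1 := (hp l le_rfl).1
    have h2 := (hp l le_rfl).2
    have h3 : T.G.dist x (p l) + T.G.dist (p l) (T.act m x) = T.G.dist x (T.act m x) := h1
    exact TG.eq_of_dist_zero T.tree (by omega)
  have padj : ∀ k, k < l → T.G.Adj (p k) (p (k + 1)) := by
    intro k hk
    have h1 := hp k hk.le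
    have h2 := hp (k + 1) hk
    have h3 := (TG.btw_linear T.tree h1.1 h2.1 (by rw [h1.2, h2.2]; omega)).1
    have h4 : T.G.dist x (p k) + T.G.dist (p k) (p (k + 1)) = T.G.dist x (p (k + 1)) := h3
    rw [← SimpleGraph.dist_eq_one_iff_adj]
    omega
  have hz : ∀ k : ℤ, m ^ k ∈ M := fun k => M.zpow_mem hm k
  set L : ℤ → T.X := fun j => T.act (m ^ (j / (l : ℤ))) (p (j % (l : ℤ)).toNat) with hL
  have hlz : (0 : ℤ) < l := by exact_mod_cast hlpos
  have hLq : ∀ (q : ℤ) (r : ℕ), r ≤ l → L (q * l + r) = T.act (m ^ q) (p r) := by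
    intro q r hr
    rcases Nat.lt_or_ge r l with h | h
    · have h1 : (q * l + r : ℤ) / l = q := by
        rw [add_comm, Int.add_mul_ediv_right _ _ hlz.ne', Int.ediv_eq_zero_of_lt (by omega) (by omega)]
        ring
      have h2 : (q * l + r : ℤ) % l = r := by
        rw [add_comm, Int.add_mul_emod_self_right, Int.emod_eq_of_lt (by omega) (by omega)]
      simp only [hL, h1, h2, Int.toNat_natCast]
    · have hrl : r = l := le_antisymm hr h
      rw [hrl]
      have h1 : (q * l + l : ℤ) / l = q + 1 := by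
        rw [show (q * l + l : ℤ) = (q + 1) * l by ring, Int.mul_ediv_cancel _ hlz.ne']
      have h2 : (q * l + l : ℤ) % l = 0 := by
        rw [show (q * l + l : ℤ) = (q + 1) * l by ring, Int.mul_emod_left]
      simp only [hL, h1, h2, Int.toNat_zero, p0]
      rw [zpow_add_one, T.act_mul _ (hz q) _ hm, pl]
  have hdec : ∀ i : ℤ, ∃ (q : ℤ) (r : ℕ), r < l ∧ i = q * l + r := by
    intro i
    refine ⟨i / l, (i % l).toNat, ?_, ?_⟩
    · have h1 := Int.emod_lt_of_pos i hlz
      have h2 := Int.emod_nonneg i hlz.ne'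
      omega
    · have h2 := Int.emod_nonneg i hlz.ne'
      have h3 := Int.mul_ediv_add_emod i l
      rw [Int.toNat_of_nonneg h2, mul_comm]
      exact h3.symm
  have hadj : ∀ i, T.G.Adj (L i) (L (i + 1)) := by
    intro i
    obtain ⟨q, r, hr, rfl⟩ := hdec i
    have e : (q * l + r + 1 : ℤ) = q * l + ((r + 1 : ℕ) : ℤ) := by push_cast; ring
    rw [e, hLq q r hr.le, hLq q (r + 1) hr]
    exact T.act_adj _ (hz q) _ _ (padj r hr)
  have hne : ∀ i, L i ≠ L (i + 2) := by
    intro i
    obtain ⟨q, r, hr, rfl⟩ := hdec i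
    rcases Nat.lt_or_ge (r + 1) l with h | h
    · have e : (q * l + r + 2 : ℤ) = q * l + ((r + 2 : ℕ) : ℤ) := by push_cast; ring
      rw [e, hLq q r hr.le, hLq q (r + 2) h]
      intro heq
      have h1 := T.act_inj (hz q) heq
      have h2 := (hp r hr.le).2
      have h3 := (hp (r + 2) h).2
      rw [h1] at h2
      omega
    · have hrl : r + 1 = l := le_antisymm hr h
      have e : (q * l + r + 2 : ℤ) = (q + 1) * l + ((1 : ℕ) : ℤ) := by
        have : (r : ℤ) = l - 1 := by omega
        rw [this]; push_cast; ring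
      rw [e, hLq q r hr.le, hLq (q + 1) 1 hlpos]
      intro heq
      rw [zpow_add_one, T.act_mul _ (hz q) _ hm] at heq
      have h1 := T.act_inj (hz q) heq
      have h2 := (hp r hr.le).2
      have h3 := hp 1 hlpos
      have h4 : T.G.dist x (p 1) + T.G.dist (p 1) (T.act m x) = T.G.dist x (T.act m x) := h3.1
      have h5 := T.dist_act hm (p 1) (T.act m x)
      have h6 : T.G.dist x (T.act m x) + T.G.dist (T.act m x) (T.act m (T.act m x)) =
        T.G.dist x (T.act m (T.act m x)) := hb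
      have h7 := T.dist_act hm x (T.act m x)
      have h8 := T.tree.connected.dist_triangle (u := x) (v := T.act m (p 1)) (w := T.act m (T.act m x))
      rw [← h1] at h8 h5
      omega
  have hline : T.IsLine L := TG.line_of_local T.tree L hadj hne
  refine ⟨l, L, ⟨hlpos, hline, ?_⟩, ?_, rfl⟩
  · intro i
    obtain ⟨q, r, hr, rfl⟩ := hdec i
    have e : (q * l + r + l : ℤ) = (q + 1) * l + (r : ℤ) := by ring
    rw [e, hLq q r hr.le, hLq (q + 1) r hr.le, ← T.act_mul _ hm _ (hz q), zpow_add_one,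
      (Commute.self_zpow m q).eq]
  · have := hLq 0 0 (Nat.zero_le _)
    simpa [p0, T.act_one] using this

theorem ell_or_axis (hni : T.NoInv) {m : Γ} (hm : m ∈ M) :
    (∃ x, T.act m x = x) ∨ ∃ (l : ℕ) (L : ℤ → T.X), T.IsAxis m l L := by
  classical
  have : Nonempty T.X := T.tree.connected.nonempty
  obtain ⟨x, hx⟩ : ∃ x, ∀ y, T.G.dist x (T.act m x) ≤ T.G.dist y (T.act m y) :=
    ⟨Function.argmin (fun x => T.G.dist x (T.act m x)),
      fun y => Function.argmin_le (fun x => T.G.dist x (T.act m x)) y⟩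
  by_cases h0 : T.act m x = x
  · exact Or.inl ⟨x, h0⟩
  right
  obtain ⟨y, ⟨hy1, hy2⟩, _⟩ := TG.exists_unique_next T.tree (Ne.symm h0)
  obtain ⟨z, ⟨hz1, hz2⟩, _⟩ := TG.exists_unique_next T.tree h0
  have hmy : T.G.Adj (T.act m x) (T.act m y) := T.act_adj m hm _ _ hy1
  have dxy : T.G.dist x y = 1 := SimpleGraph.dist_eq_one_iff_adj.2 hy1
  have dmz : T.G.dist z (T.act m x) = 1 := SimpleGraph.dist_eq_one_iff_adj.2 hz1.symm
  have hbxy : T.Btw x y (T.act m x) := by
    show T.G.dist x y + T.G.dist y (T.act m x) = T.G.dist x (T.act m x)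
    omega
  have hzx : T.G.dist x z + 1 = T.G.dist x (T.act m x) := by
    rw [SimpleGraph.dist_comm (u := x) (v := z), SimpleGraph.dist_comm (u := x)]; exact hz2
  have hbxz : T.Btw x z (T.act m x) := by
    show T.G.dist x z + T.G.dist z (T.act m x) = T.G.dist x (T.act m x)
    omega
  by_cases hzy : z = T.act m y
  · exfalso
    rcases Nat.lt_or_ge (T.G.dist x z) 1 with h | h
    · have hxz : x = z := TG.eq_of_dist_zero T.tree (by omega)
      have hymx : y = T.act m x := TG.eq_of_dist_zero T.tree (by omega)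
      apply hni m hm x y hy1
      exact ⟨hymx.symm, by rw [← hzy, ← hxz]⟩
    · have h1 := (TG.btw_linear T.tree hbxy hbxz (by omega)).1
      have h2 : T.G.dist x y + T.G.dist y z = T.G.dist x z := h1
      have h3 := hx y
      rw [← hzy] at h3
      omega
  · have h1 : T.Btw z (T.act m x) (T.act m y) := TG.btw_of_adj_adj T.tree hz1 hmy hzy
    have h2 : T.Btw x (T.act m x) (T.act m y) :=
      (TG.btw_glue T.tree hbxz h1 hz1.ne.symm).2
    have h3 : T.Btw (T.act m x) (T.act m y) (T.act m (T.act m x)) := (T.btw_act hm _ _ _).2 hbxy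
    have h4 : T.Btw x (T.act m x) (T.act m (T.act m x)) :=
      (TG.btw_glue T.tree h2 h3 hmy.ne).1
    obtain ⟨l, L, h, _⟩ := T.coherent hm h0 h4
    exact ⟨l, L, h⟩

/-- displacement, with the geodesic `[x, m x]` -/
theorem disp' {m : Γ} (hm : m ∈ M) {l : ℕ} {L : ℤ → T.X} (h : T.IsAxis m l L) (x : T.X) :
    ∃ i, (∀ j, T.Btw x (L i) (L j)) ∧ T.G.dist x (T.act m x) = l + 2 * T.G.dist x (L i) ∧
      T.Btw x (L i) (T.act m x) ∧ T.Btw x (L (i + l)) (T.act m x) := by
  obtain ⟨hl, hline, hact⟩ := h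
  obtain ⟨p, ⟨⟨i, rfl⟩, hp⟩, _⟩ := TG.exists_unique_proj T.tree (TG.conv_range_line T.tree hline)
    ⟨L 0, 0, rfl⟩ x
  have hp' : ∀ j, T.Btw x (L i) (L j) := fun j => hp (L j) ⟨j, rfl⟩
  have h1 : T.Btw x (L i) (L (i + l)) := hp' _
  have h2 : T.Btw (T.act m x) (L (i + l)) (L i) := by
    have := (T.btw_act hm _ _ _).2 (hp' (i - l))
    rw [hact, hact] at this
    simpa using this
  have h2' : T.Btw (L i) (L (i + l)) (T.act m x) := TG.btw_symm T.tree h2
  have hne : L i ≠ L (i + l) := by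
    intro he
    have := TG.line_inj hline he
    omega
  have h3 := TG.btw_glue T.tree h1 h2' hne
  refine ⟨i, hp', ?_, h3.1, h3.2⟩
  have e1 : T.G.dist x (L i) + T.G.dist (L i) (L (i + l)) = T.G.dist x (L (i + l)) := h1
  have e2 : T.G.dist x (L (i + l)) + T.G.dist (L (i + l)) (T.act m x) = T.G.dist x (T.act m x) := h3.2
  have e3 : T.G.dist (L (i + l)) (T.act m x) = T.G.dist (L i) x := by
    rw [← hact, T.dist_act hm]
  have e4 : T.G.dist (L i) (L (i + l)) = l := by rw [hline]; omega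
  rw [SimpleGraph.dist_comm (u := L i) (v := x)] at e3
  omega

/-- displacement -/
theorem disp {m : Γ} (hm : m ∈ M) {l : ℕ} {L : ℤ → T.X} (h : T.IsAxis m l L) (x : T.X) :
    ∃ i, (∀ j, T.Btw x (L i) (L j)) ∧ T.G.dist x (T.act m x) = l + 2 * T.G.dist x (L i) := by
  obtain ⟨i, h1, h2, _⟩ := T.disp' hm h x
  exact ⟨i, h1, h2⟩

theorem hyp_of_axis {m : Γ} (hm : m ∈ M) {l : ℕ} {L : ℤ → T.X} (h : T.IsAxis m l L) : T.Hyp m := by
  intro x hx
  obtain ⟨i, _, h2⟩ := T.disp hm h x
  rw [hx, SimpleGraph.dist_self] at h2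
  have := h.1
  omega

theorem disp_axis {m : Γ} {l : ℕ} {L : ℤ → T.X} (h : T.IsAxis m l L) (i : ℤ) :
    T.G.dist (L i) (T.act m (L i)) = l := by
  rw [h.2.2 i, h.2.1]
  omega

theorem axis_eq {m : Γ} (hm : m ∈ M) {l : ℕ} {L : ℤ → T.X} (h : T.IsAxis m l L) :
    T.Axis m = Set.range L ∧ T.tl m = l := by
  have hle : ∀ y, l ≤ T.G.dist y (T.act m y) := by
    intro y
    obtain ⟨i, _, h2⟩ := T.disp hm h y
    omega
  constructor
  · ext x
    constructor
    · intro hx
      have h1 : T.G.dist x (T.act m x) ≤ T.G.dist (L 0) (T.act m (L 0)) := hx (L 0)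
      rw [T.disp_axis h] at h1
      obtain ⟨i, _, h2⟩ := T.disp hm h x
      exact ⟨i, (TG.eq_of_dist_zero T.tree (by omega)).symm⟩
    · rintro ⟨i, rfl⟩ y
      rw [T.disp_axis h]
      exact hle y
  · apply le_antisymm
    · exact Nat.sInf_le ⟨L 0, T.disp_axis h 0⟩
    · have hne : {n | ∃ y, T.G.dist y (T.act m y) = n}.Nonempty := ⟨l, L 0, T.disp_axis h 0⟩
      obtain ⟨y, hy⟩ := Nat.sInf_mem hne
      unfold tl
      rw [← hy]
      exact hle y

theorem axis_unique {m : Γ} (hm : m ∈ M) {l l' : ℕ} {L L' : ℤ → T.X} (h : T.IsAxis m l L)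
    (h' : T.IsAxis m l' L') : l = l' ∧ ∃ c : ℤ, ∀ i, L' i = L (i + c) := by
  have e1 := T.axis_eq hm h
  have e2 := T.axis_eq hm h'
  have hl : l = l' := by rw [← e1.2, ← e2.2]
  refine ⟨hl, ?_⟩
  subst hl
  have hr : Set.range L' = Set.range L := by rw [← e1.1, ← e2.1]
  have hf : ∀ i, ∃ j, L j = L' i := by
    intro i
    have : L' i ∈ Set.range L := by rw [← hr]; exact ⟨i, rfl⟩
    exact this
  choose f hf using hf
  have hiso : ∀ i j, (f i - f j).natAbs = (i - j).natAbs := by
    intro i j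
    have h1 := h.2.1 (f i) (f j)
    have h2 := h'.2.1 i j
    rw [hf, hf] at h1
    rw [← h1, ← h2]
  have hfl : f l = f 0 + l := by
    have h1 := h'.2.2 0
    rw [← hf, h.2.2, zero_add, ← hf] at h1
    exact (TG.line_inj h.2.1 h1).symm
  refine ⟨f 0, fun i => ?_⟩
  have h1 := hiso i 0
  have h2 := hiso i l
  rw [hfl] at h2
  have hl0 : (0 : ℤ) < l := by exact_mod_cast h.1
  have h3 : f i = i + f 0 := by
    rw [Int.natAbs_eq_natAbs_iff] at h1 h2
    rcases h1 with h1 | h1 <;> rcases h2 with h2 | h2 <;> omega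
  rw [← h3, hf]

theorem axis_pow {m : Γ} (hm : m ∈ M) {l : ℕ} {L : ℤ → T.X} (h : T.IsAxis m l L) {k : ℕ} (hk : 0 < k) :
    T.IsAxis (m ^ k) (k * l) L := by
  refine ⟨Nat.mul_pos hk h.1, h.2.1, ?_⟩
  clear hk
  induction k with
  | zero => intro i; simp [T.act_one]
  | succ k ih =>
    intro i
    rw [pow_succ, T.act_mul _ (M.pow_mem hm k) _ hm, h.2.2, ih]
    congr 1
    push_cast
    ring

theorem axis_inv {m : Γ} (hm : m ∈ M) {l : ℕ} {L : ℤ → T.X} (h : T.IsAxis m l L) :
    T.IsAxis m⁻¹ l (fun i => L (-i)) := by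
  refine ⟨h.1, ?_, ?_⟩
  · intro i j
    show T.G.dist (L (-i)) (L (-j)) = _
    rw [h.2.1]
    omega
  · intro i
    show T.act m⁻¹ (L (-i)) = L (-(i + l))
    have h1 := h.2.2 (-(i + l))
    rw [show (-(i + l) + l : ℤ) = -i by ring] at h1
    rw [← h1, T.act_inv_act hm]

theorem axis_conj {m n : Γ} (hm : m ∈ M) (hn : n ∈ M) {l : ℕ} {L : ℤ → T.X} (h : T.IsAxis m l L) :
    T.IsAxis (n * m * n⁻¹) l (fun i => T.act n (L i)) := by
  refine ⟨h.1, ?_, ?_⟩
  · intro i j
    show T.G.dist (T.act n (L i)) (T.act n (L j)) = _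
    rw [T.dist_act hn, h.2.1]
  · intro i
    show T.act (n * m * n⁻¹) (T.act n (L i)) = T.act n (L (i + l))
    rw [T.act_mul _ (M.mul_mem hn hm) _ (M.inv_mem hn), T.act_inv_act hn, T.act_mul _ hn _ hm, h.2.2]

/-- an element commuting with a hyperbolic one translates its axis -/
theorem comm_axis {m n : Γ} (hm : m ∈ M) (hn : n ∈ M) {l : ℕ} {L : ℤ → T.X} (h : T.IsAxis m l L)
    (hc : n * m = m * n) : ∃ c : ℤ, ∀ i, T.act n (L i) = L (i + c) := by
  have h1 := T.axis_conj hm hn h
  rw [hc, mul_inv_cancel_right] at h1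
  exact (T.axis_unique hm h h1).2

/-- a non-empty convex set invariant under a hyperbolic element contains its axis -/
theorem axis_subset {m : Γ} (hm : m ∈ M) {l : ℕ} {L : ℤ → T.X} (h : T.IsAxis m l L) {S : Set T.X}
    (hS : T.Conv S) (hne : S.Nonempty) (hi : ∀ x, T.act m x ∈ S ↔ x ∈ S) : Set.range L ⊆ S := by
  obtain ⟨s, hs⟩ := hne
  obtain ⟨i, _, _, hb, _⟩ := T.disp' hm h s
  have hLi : L i ∈ S := hS s hs _ ((hi s).2 hs) _ hb
  have hup : ∀ k : ℕ, L (i + k * l) ∈ S := by
    intro k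
    induction k with
    | zero => simpa using hLi
    | succ k ih =>
      have h1 := (hi _).2 ih
      rw [h.2.2] at h1
      convert h1 using 2
      push_cast; ring
  have hdn : ∀ k : ℕ, L (i - k * l) ∈ S := by
    intro k
    induction k with
    | zero => simpa using hLi
    | succ k ih =>
      apply (hi _).1
      rw [h.2.2]
      convert ih using 2
      push_cast; ring
  rintro _ ⟨j, rfl⟩
  have hl0 : (1 : ℤ) ≤ l := by exact_mod_cast h.1
  set k : ℕ := (j - i).natAbs with hk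
  have hkl : (k : ℤ) ≤ k * l := by nlinarith [Int.natCast_nonneg k]
  refine hS _ (hdn k) _ (hup k) _ (TG.line_btw h.2.1 ?_ ?_)
  · omega
  · omega

/-- an elliptic element preserving a non-empty convex set fixes one of its vertices -/
theorem fix_proj {m : Γ} (hm : m ∈ M) (hne' : (T.Fix m).Nonempty) {S : Set T.X}
    (hS : T.Conv S) (hne : S.Nonempty) (hi : ∀ x ∈ S, T.act m x ∈ S) : (S ∩ T.Fix m).Nonempty := by
  obtain ⟨z, hz⟩ := hne'
  have hz' : T.act m z = z := hz
  obtain ⟨p, ⟨hp1, hp2⟩, _⟩ := TG.exists_unique_proj T.tree hS hne z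
  have h1 : T.G.dist z p + T.G.dist p (T.act m p) = T.G.dist z (T.act m p) := hp2 _ (hi p hp1)
  have h2 := T.dist_act hm z p
  rw [hz'] at h2
  refine ⟨p, hp1, ?_⟩
  exact (TG.eq_of_dist_zero T.tree (by omega)).symm

/-- elliptic powers -/
theorem ell_of_pow (hni : T.NoInv) {m : Γ} (hm : m ∈ M) {k : ℕ} (hk : 0 < k) {x : T.X}
    (hx : T.act (m ^ k) x = x) : ∃ y, T.act m y = y := by
  rcases T.ell_or_axis hni hm with h | ⟨l, L, h⟩
  · exact h
  · exact absurd hx (T.hyp_of_axis (M.pow_mem hm k) (T.axis_pow hm h hk) x)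

end MTree

end Pool.Agent.Lib.MP_6567fb_al
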