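import Pool.Agent.Lib.MP_6567fb_al.T1d
import Pool.Agent.Lib.MP_6567fb_al.T2b

/-!
# MP_6567fb_al, module T7b

Crossing numbers: c(x,y) = 1 if (x,y) is in the H-orbit of (a,b), -1 if (y,x) is, else 0 (well defined by NoInv,
antisymmetric, H-invariant); u = potential (T1d); u(h x) - u(x) does not depend on x (potential_unique) =: χ(h).
crossing_ab is the general form with values in an abelian group.
-/

set_option autoImplicit false

open scoped Pointwise

namespace Pool.Agent.Lib.MP_6567fb_al

open MTree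
variable {Γ : Type} [Group Γ]

theorem crossing_ab {H : Subgroup Γ} (T : MTree H) {A : Type} [AddCommGroup A] (c : T.X → T.X → A)
    (hc : ∀ x y, T.G.Adj x y → c y x = - c x y) (hi : ∀ h ∈ H, ∀ x y, c (T.act h x) (T.act h y) = c x y) :
    ∃ (u : T.X → A) (χ : H →* Multiplicative A), (∀ x y, T.G.Adj x y → u y - u x = c x y) ∧
      ∀ (h : H) (x : T.X), χ h = Multiplicative.ofAdd (u (T.act h x) - u x) := by
  obtain ⟨u, hu⟩ := TG.potential T.tree c hc
  have hconst : ∀ h ∈ H, ∀ x y, u (T.act h x) - u x = u (T.act h y) - u y := by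
    intro h hh x y
    refine TG.potential_unique T.tree (fun x => u (T.act h x) - u x) ?_ x y
    intro x y hxy
    have h1 := hu x y hxy
    have h2 := hu _ _ (T.act_adj h hh x y hxy)
    rw [hi h hh] at h2
    have h3 : u (T.act h y) - u (T.act h x) = u y - u x := by rw [h1, h2]
    show u (T.act h y) - u y = u (T.act h x) - u x
    rw [sub_eq_sub_iff_sub_eq_sub]
    exact h3
  obtain ⟨x₀⟩ := T.tree.1.nonempty
  refine ⟨u, { toFun := fun h => Multiplicative.ofAdd (u (T.act h x₀) - u x₀)
               map_one' := ?_, map_mul' := ?_ }, hu, ?_⟩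
  · rw [Subgroup.coe_one, T.act_one, sub_self]; rfl
  · intro h k
    rw [← ofAdd_add]
    congr 1
    rw [Subgroup.coe_mul, T.act_mul h h.2 k k.2, hconst h h.2 x₀ (T.act k x₀)]
    abel
  · intro h x
    show Multiplicative.ofAdd (u (T.act h x₀) - u x₀) = _
    rw [hconst h h.2 x₀ x]

/-- the vertices of a geodesic -/
theorem geod_points {X : Type} {G : SimpleGraph X} (hG : G.IsTree) (x z : X) :
    ∃ p : ℕ → X, p 0 = x ∧ p (G.dist x z) = z ∧ (∀ i ≤ G.dist x z, TG.Btw G x (p i) z ∧ G.dist x (p i) = i) ∧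
      ∀ i < G.dist x z, G.Adj (p i) (p (i + 1)) := by
  classical
  have h := fun k (hk : k ≤ G.dist x z) => TG.btw_point hG (x := x) (z := z) hk
  choose q hq hq' using h
  refine ⟨fun i => if hi : i ≤ G.dist x z then q i hi else z, ?_, ?_, ?_, ?_⟩
  · have h0 := (hq 0 (Nat.zero_le _)).2
    beta_reduce
    rw [dif_pos (Nat.zero_le _)]
    exact ((hG.1.dist_eq_zero_iff).1 h0).symm
  · beta_reduce
    rw [dif_pos le_rfl]
    have h0 := hq _ le_rfl
    have h1 : G.dist (q _ le_rfl) z = 0 := by
      have := h0.1; unfold TG.Btw at this; omega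
    exact (hG.1.dist_eq_zero_iff).1 h1
  · intro i hi
    beta_reduce
    rw [dif_pos hi]
    exact hq i hi
  · intro i hi
    beta_reduce
    rw [dif_pos hi.le, dif_pos (Nat.succ_le_of_lt hi)]
    have h1 := hq i hi.le
    have h2 := hq (i + 1) hi
    have h3 := (TG.btw_linear hG h1.1 h2.1 (by omega)).1
    unfold TG.Btw at h3
    exact SimpleGraph.dist_eq_one_iff_adj.1 (by omega)

/-- signed crossing number with the `H`-orbit of the oriented edge `(a,b)`: a homomorphism which takes the value
`±1` on `h` if the geodesic from `x` to `h x` contains exactly one edge of the orbit, and vanishes on vertex groups -/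
theorem crossing_hom {H : Subgroup Γ} (T : MTree H) (hni : T.NoInv) {a b : T.X} (hab : T.G.Adj a b) :
    ∃ χ : H →* Multiplicative ℤ, (∀ x, ∀ h : H, (h : Γ) ∈ T.stab x → χ h = 1) ∧
      ∀ (x : T.X) (h : H),
        (∃! e : T.X × T.X, T.G.Adj e.1 e.2 ∧ T.Btw x e.1 (T.act h x) ∧ T.Btw x e.2 (T.act h x) ∧
          T.G.dist x e.1 < T.G.dist x e.2 ∧
          ∃ k ∈ H, (T.act k a = e.1 ∧ T.act k b = e.2) ∨ (T.act k a = e.2 ∧ T.act k b = e.1)) →
        χ h = Multiplicative.ofAdd 1 ∨ χ h = Multiplicative.ofAdd (-1) := by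
  classical
  let P : T.X → T.X → Prop := fun x y => ∃ k ∈ H, T.act k a = x ∧ T.act k b = y
  have hPinv : ∀ h ∈ H, ∀ x y, P (T.act h x) (T.act h y) ↔ P x y := by
    intro h hh x y
    constructor
    · rintro ⟨k, hk, h1, h2⟩
      refine ⟨h⁻¹ * k, H.mul_mem (H.inv_mem hh) hk, ?_, ?_⟩
      · rw [T.act_mul _ (H.inv_mem hh) _ hk, h1, T.act_inv_act hh]
      · rw [T.act_mul _ (H.inv_mem hh) _ hk, h2, T.act_inv_act hh]
    · rintro ⟨k, hk, h1, h2⟩
      exact ⟨h * k, H.mul_mem hh hk, by rw [T.act_mul _ hh _ hk, h1], by rw [T.act_mul _ hh _ hk, h2]⟩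
  have hPanti : ∀ x y, P x y → ¬ P y x := by
    rintro x y ⟨k, hk, h1, h2⟩ ⟨k', hk', h1', h2'⟩
    refine hni (k⁻¹ * k') (H.mul_mem (H.inv_mem hk) hk') a b hab ⟨?_, ?_⟩
    · rw [T.act_mul _ (H.inv_mem hk) _ hk', h1', ← h2, T.act_inv_act hk]
    · rw [T.act_mul _ (H.inv_mem hk) _ hk', h2', ← h1, T.act_inv_act hk]
  let c : T.X → T.X → ℤ := fun x y => if P x y then 1 else if P y x then -1 else 0
  have hc : ∀ x y, T.G.Adj x y → c y x = - c x y := by
    intro x y _
    show (if P y x then (1 : ℤ) else if P x y then -1 else 0) = - (if P x y then 1 else if P y x then -1 else 0)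
    by_cases h1 : P x y
    · rw [if_neg (hPanti _ _ h1), if_pos h1, if_pos h1]
    · by_cases h2 : P y x
      · rw [if_pos h2, if_neg h1, if_pos h2]; ring
      · rw [if_neg h2, if_neg h1, if_neg h1, if_neg h2]; ring
  have hi : ∀ h ∈ H, ∀ x y, c (T.act h x) (T.act h y) = c x y := by
    intro h hh x y
    show (if P (T.act h x) (T.act h y) then (1 : ℤ) else if P (T.act h y) (T.act h x) then -1 else 0) =
      (if P x y then 1 else if P y x then -1 else 0)
    simp only [hPinv h hh]
  obtain ⟨u, χ, hu, hχ⟩ := crossing_ab T c hc hi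
  refine ⟨χ, ?_, ?_⟩
  · intro x h hx
    rw [hχ h x, hx.2, sub_self]; rfl
  · rintro x h ⟨e, ⟨he1, he2, he3, he4, k, hk, he5⟩, heu⟩
    obtain ⟨p, hp0, hpn, hpb, hpa⟩ := geod_points T.tree x (T.act h x)
    set n := T.G.dist x (T.act h x) with hn
    set j := T.G.dist x e.1 with hj
    have hadj1 : T.G.dist x e.2 = j + 1 := by
      rcases TG.adj_dist T.tree he1 x with h1 | h1
      · rw [SimpleGraph.dist_comm, SimpleGraph.dist_comm (u := e.2)] at h1; omega
      · rw [SimpleGraph.dist_comm, SimpleGraph.dist_comm (u := e.1)] at h1; omega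
    have hjn : j < n := by
      have := he3; unfold MTree.Btw TG.Btw at this; omega
    have hpj : p j = e.1 :=
      (TG.btw_point T.tree (x := x) (z := T.act h x) (k := j) hjn.le).unique (hpb j hjn.le) ⟨he2, rfl⟩
    have hpj1 : p (j + 1) = e.2 :=
      (TG.btw_point T.tree (x := x) (z := T.act h x) (k := j + 1) hjn).unique (hpb (j + 1) hjn)
        ⟨he3, hadj1⟩
    have hsum : u (T.act h x) - u x = ∑ i ∈ Finset.range n, c (p i) (p (i + 1)) := by
      rw [← hpn]
      conv_lhs => rw [← hp0, ← Finset.sum_range_sub (fun i => u (p i))]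
      refine Finset.sum_congr rfl fun i hi => ?_
      exact hu _ _ (hpa i (Finset.mem_range.1 hi))
    have hval : ∑ i ∈ Finset.range n, c (p i) (p (i + 1)) = c (p j) (p (j + 1)) := by
      refine Finset.sum_eq_single j ?_ ?_
      · intro i hi hij
        have hin := Finset.mem_range.1 hi
        by_contra hne
        have hor : P (p i) (p (i + 1)) ∨ P (p (i + 1)) (p i) := by
          by_contra hcon
          push Not at hcon
          apply hne
          show (if P (p i) (p (i + 1)) then (1 : ℤ) else if P (p (i + 1)) (p i) then -1 else 0) = 0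
          rw [if_neg hcon.1, if_neg hcon.2]
        have : (p i, p (i + 1)) = e := by
          refine heu _ ⟨hpa i hin, (hpb i hin.le).1, (hpb (i + 1) hin).1, ?_, ?_⟩
          · show T.G.dist x (p i) < T.G.dist x (p (i + 1))
            rw [(hpb i hin.le).2, (hpb (i + 1) hin).2]; omega
          · rcases hor with ⟨k, hk, h1⟩ | ⟨k, hk, h1⟩
            · exact ⟨k, hk, Or.inl h1⟩
            · exact ⟨k, hk, Or.inr h1⟩
        apply hij
        have h1 : p i = e.1 := by rw [← this]
        rw [hj, ← h1, (hpb i hin.le).2]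
      · intro hj'
        exact absurd (Finset.mem_range.2 hjn) hj'
    rw [hχ h x, hsum, hval, hpj, hpj1]
    rcases he5 with h5 | h5
    · left
      congr 1
      show (if P e.1 e.2 then (1 : ℤ) else if P e.2 e.1 then -1 else 0) = 1
      rw [if_pos ⟨k, hk, h5⟩]
    · right
      congr 1
      show (if P e.1 e.2 then (1 : ℤ) else if P e.2 e.1 then -1 else 0) = -1
      have h6 : P e.2 e.1 := ⟨k, hk, h5⟩
      rw [if_neg (hPanti _ _ h6), if_pos h6]

end Pool.Agent.Lib.MP_6567fb_al
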