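import Pool.Agent.Lib.MP_6567fb_al.T7a
import Pool.Agent.Lib.MP_6567fb_al.T2c
import Pool.Agent.Lib.MP_6567fb_al.T10b
import Pool.Agent.Lib.MP_6567fb_al.T10c
import Pool.Agent.Lib.MP_6567fb_al.T12
import Pool.Agent.Lib.MP_6567fb_al.T6

/-!
# MP_6567fb_al, module T7c

Factors: retractions, purity, malnormality, transitivity, intersections.
-/

set_option autoImplicit false

open scoped Pointwise

namespace Pool.Agent.Lib.MP_6567fb_al

open MTree
variable {Γ G : Type} [Group Γ] [Group G] {π : Γ →* G}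

/-! ### the linear argument -/

section lin
variable {V : Type} [AddCommGroup V] [Module ℚ V]

/-- binomial expansion of the powers of a unipotent map -/
theorem t7c_pow (U : V →ₗ[ℚ] V) {N : ℕ} (hN : (U - 1) ^ N = 0) (n : ℕ) :
    U ^ n = ∑ j ∈ Finset.range N, (n.choose j) • (U - 1) ^ j := by
  have h1 : U ^ n = ∑ j ∈ Finset.range (n + 1), (n.choose j) • (U - 1) ^ j := by
    have h := (Commute.one_right (U - 1)).add_pow n
    rw [sub_add_cancel] at h
    rw [h]
    refine Finset.sum_congr rfl fun j _ => ?_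
    rw [one_pow, mul_one, nsmul_eq_mul]
    exact (Nat.cast_commute _ _).symm.eq
  have hz : ∀ j, N ≤ j → (U - 1) ^ j = 0 := fun j hj => pow_eq_zero_of_le hj hN
  rw [h1]
  rcases le_total (n + 1) N with h | h
  · refine Finset.sum_subset (by simpa using h) ?_
    intro j _ hj
    rw [Finset.mem_range, not_lt] at hj
    rw [Nat.choose_eq_zero_of_lt (by omega), zero_smul]
  · symm
    refine Finset.sum_subset (by simpa using h) ?_
    intro j _ hj
    rw [Finset.mem_range, not_lt] at hj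
    rw [hz j hj, smul_zero]

/-- a rational valued function of binomial type with infinitely many zeros -/
theorem t7c_poly {N k : ℕ} (hk : 0 < k) (a : ℕ → ℚ)
    (h : ∀ n : ℕ, ∑ j ∈ Finset.range N, ((k * n).choose j : ℚ) * a j = 0) (n : ℕ) :
    ∑ j ∈ Finset.range N, (n.choose j : ℚ) * a j = 0 := by
  set p : Polynomial ℚ := ∑ j ∈ Finset.range N,
    Polynomial.C (a j / (j.factorial : ℚ)) * descPochhammer ℚ j with hp
  have hev : ∀ m : ℕ, p.eval (m : ℚ) = ∑ j ∈ Finset.range N, (m.choose j : ℚ) * a j := by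
    intro m
    rw [hp, Polynomial.eval_finsetSum]
    refine Finset.sum_congr rfl fun j _ => ?_
    rw [Polynomial.eval_mul, Polynomial.eval_C, descPochhammer_eval_eq_descFactorial,
      Nat.descFactorial_eq_factorial_mul_choose]
    have : (j.factorial : ℚ) ≠ 0 := by exact_mod_cast j.factorial_ne_zero
    push_cast
    field_simp
  have h0 : p = 0 := by
    refine Polynomial.eq_zero_of_infinite_isRoot p ?_
    refine Set.infinite_of_injective_forall_mem (f := fun n : ℕ => ((k * n : ℕ) : ℚ)) ?_ ?_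
    · intro a b hab
      have hab' : ((k * a : ℕ) : ℚ) = ((k * b : ℕ) : ℚ) := hab
      have : k * a = k * b := by exact_mod_cast hab'
      exact Nat.eq_of_mul_eq_mul_left hk this
    · intro m
      show Polynomial.IsRoot p _
      rw [Polynomial.IsRoot.def, hev]
      exact h m
  rw [← hev, h0, Polynomial.eval_zero]

theorem t7c_vanish [FiniteDimensional ℚ V] (U L : V →ₗ[ℚ] V) {N : ℕ} (hN : (U - 1) ^ N = 0)
    {k : ℕ} (hk : 0 < k) (w : V) (h : ∀ n : ℕ, L ((U ^ (k * n)) w) = 0) (n : ℕ) :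
    L ((U ^ n) w) = 0 := by
  have hex : ∀ m : ℕ, L ((U ^ m) w) =
      ∑ j ∈ Finset.range N, (m.choose j : ℚ) • L (((U - 1) ^ j) w) := by
    intro m
    rw [t7c_pow U hN m, LinearMap.sum_apply, map_sum]
    refine Finset.sum_congr rfl fun j _ => ?_
    rw [LinearMap.smul_apply, map_nsmul, Nat.cast_smul_eq_nsmul]
  let b := Module.finBasis ℚ V
  refine b.repr.injective ?_
  ext i
  rw [map_zero, Finsupp.zero_apply, hex, map_sum, Finsupp.finsetSum_apply]
  have hc := t7c_poly hk (N := N) (fun j => b.repr (L (((U - 1) ^ j) w)) i) (fun m => by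
    have h1 := congrArg (fun v => b.repr v i) (h m)
    simp only [map_zero, Finsupp.zero_apply] at h1
    rw [hex, map_sum, Finsupp.finsetSum_apply] at h1
    rw [← h1]
    refine Finset.sum_congr rfl fun j _ => ?_
    rw [map_smul, Finsupp.smul_apply, smul_eq_mul]) n
  rw [← hc]
  refine Finset.sum_congr rfl fun j _ => ?_
  rw [map_smul, Finsupp.smul_apply, smul_eq_mul]

end lin

theorem fac_le {H D : Subgroup Γ} (hD : IsFactor π.ker H D) : D ≤ H := by
  rcases hD with rfl | ⟨T, hT, x, rfl⟩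
  · exact le_rfl
  · exact fun m hm => hm.1.1

/-- vertex groups of subgroups of the kernel -/
theorem t7c_stab {H : Subgroup Γ} (hH : H ≤ π.ker) (T : MTree H) (x : T.X) :
    T.stab x ⊓ π.ker = T.stab x := inf_eq_left.2 fun _ hm => hH hm.1

theorem fac_retract (hc : Ctx π) {D : Subgroup Γ} (hD : IsFactor π.ker π.ker D) :
    ∃ r : π.ker →* π.ker, (∀ h, ((r h : π.ker) : Γ) ∈ D) ∧ ∀ h : π.ker, (h : Γ) ∈ D → r h = h := by
  rcases hD with rfl | ⟨T, hT, x, rfl⟩
  · exact ⟨MonoidHom.id _, fun h => h.2, fun h _ => rfl⟩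
  · obtain ⟨r, h1, h2, -⟩ := retract_vertex T (hT.noInv hc)
      (fun h hh x y hxy hx hy => hT.free h ⟨hh, hh⟩ x y hxy hx hy) x
    rw [t7c_stab le_rfl]
    exact ⟨r, h1, h2⟩

theorem t7c_ker_fg (hc : Ctx π) : Group.FG π.ker := by
  obtain ⟨n, ⟨b⟩⟩ := hc.free
  exact Group.fg_of_surjective (f := b.repr.symm.toMonoidHom) b.repr.symm.surjective

theorem fac_fg (hc : Ctx π) {D : Subgroup Γ} (hD : IsFactor π.ker π.ker D) : D.FG := by
  obtain ⟨r, h1, h2⟩ := fac_retract hc hD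
  have := t7c_ker_fg hc
  have hle := fac_le hD
  have h3 : (π.ker.subtype.comp r).range = D := by
    ext x
    constructor
    · rintro ⟨y, rfl⟩
      exact h1 y
    · intro hx
      exact ⟨⟨x, hle hx⟩, by
        rw [MonoidHom.comp_apply, h2 _ hx]
        rfl⟩
  rw [← h3]
  exact (Group.fg_iff_subgroup_fg _).1 (Group.fg_range _)

theorem Loc.fg (hc : Ctx π) {M : Subgroup Γ} (hM : Loc π M) : (M ⊓ π.ker).FG := fac_fg hc hM.fac

theorem t7c_mem_conj {D : Subgroup Γ} {P x : Γ} (h : MulAut.conj P • D = D) (hx : x ∈ D) :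
    P * x * P⁻¹ ∈ D := by
  rw [← h]
  exact Subgroup.smul_mem_pointwise_smul x (MulAut.conj P) D hx

/-- one inclusion of the purity -/
theorem t7c_pure (hc : Ctx π) {D : Subgroup Γ} (hD : IsFactor π.ker π.ker D) {P : Γ} {k : ℕ}
    (hk : 0 < k) (h : MulAut.conj (P ^ k) • D = D) {x : Γ} (hx : x ∈ D) : P * x * P⁻¹ ∈ D := by
  obtain ⟨r, h1, h2⟩ := fac_retract hc hD
  obtain ⟨Λ⟩ := hc.lin
  have hle := fac_le hD
  have hker : ∀ n : ℕ, P ^ n * x * (P ^ n)⁻¹ ∈ π.ker := fun n =>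
    (MonoidHom.normal_ker π).conj_mem x (hle hx) (P ^ n)
  -- powers of `P ^ k` preserve `D`
  have hpow : ∀ n : ℕ, P ^ (k * n) * x * (P ^ (k * n))⁻¹ ∈ D := by
    intro n
    induction n with
    | zero => simpa using hx
    | succ n ih =>
      have := t7c_mem_conj h ih
      have he : P ^ k * (P ^ (k * n) * x * (P ^ (k * n))⁻¹) * (P ^ k)⁻¹ =
          P ^ (k * (n + 1)) * x * (P ^ (k * (n + 1)))⁻¹ := by
        rw [Nat.mul_succ, Nat.add_comm, pow_add]
        group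
      rwa [he] at this
  have hemb : ∀ c n, Λ.emb c (P ^ n * x * (P ^ n)⁻¹) =
      ((Λ.ρ c P) ^ n) (Λ.emb c x) := by
    intro c n
    rw [Λ.equiv c (P ^ n) x (hle hx), map_pow]
  have hr : r ⟨P ^ 1 * x * (P ^ 1)⁻¹, hker 1⟩ = ⟨P ^ 1 * x * (P ^ 1)⁻¹, hker 1⟩ := by
    refine Subtype.ext (Λ.inj _ (r _).2 _ (hker 1) fun c => ?_)
    let := Λ.acg c
    let := Λ.mod c
    have := Λ.fin c
    obtain ⟨R, hR⟩ := Λ.endo c r
    obtain ⟨N, hN⟩ := Λ.unip c P
    have hv := t7c_vanish (Λ.ρ c P) (R - 1) hN hk (Λ.emb c x) (fun n => by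
      rw [← hemb, LinearMap.sub_apply, Module.End.one_apply, sub_eq_zero]
      have h3 := hR ⟨_, hker (k * n)⟩
      rw [h2 _ (hpow n)] at h3
      exact h3.symm) 1
    rw [← hemb, LinearMap.sub_apply, Module.End.one_apply, sub_eq_zero] at hv
    exact (hR ⟨_, hker 1⟩).trans hv
  have h5 := h1 ⟨P ^ 1 * x * (P ^ 1)⁻¹, hker 1⟩
  rw [hr] at h5
  simpa using h5

/-- (A.6) purity -/
theorem fac_pure (hc : Ctx π) {D : Subgroup Γ} (hD : IsFactor π.ker π.ker D) {P : Γ} {k : ℕ} (hk : 0 < k)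
    (h : MulAut.conj (P ^ k) • D = D) : MulAut.conj P • D = D := by
  have h' : MulAut.conj (P⁻¹ ^ k) • D = D := by
    rw [inv_pow, map_inv, inv_smul_eq_iff]
    exact h.symm
  apply le_antisymm
  · rintro _ ⟨x, hx, rfl⟩
    exact t7c_pure hc hD hk h hx
  · intro x hx
    rw [Subgroup.mem_pointwise_smul_iff_inv_smul_mem]
    have := t7c_pure hc hD hk h' hx
    rw [← map_inv]
    exact this

theorem fac_malnormal (hc : Ctx π) {H D : Subgroup Γ} (hH : H ≤ π.ker) (hD : IsFactor π.ker H D)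
    {h : Γ} (hh : h ∈ H) (hne : D ⊓ MulAut.conj h • D ≠ ⊥) : h ∈ D := by
  rcases hD with rfl | ⟨T, hT, x, rfl⟩
  · exact hh
  · rw [t7c_stab hH] at hne ⊢
    obtain ⟨⟨d, hd⟩, hd1⟩ := Subgroup.ne_bot_iff_exists_ne_one.1 hne
    replace hd1 : d ≠ 1 := fun h => hd1 (Subtype.ext h)
    rw [← T.stab_act hh] at hd
    exact ⟨hh, (hT.fixed_unique (h := d) ⟨hd.1.1, hH hd.1.1⟩ hd1 hd.1.2 hd.2.2).symm⟩

theorem fac_root (hc : Ctx π) {H D : Subgroup Γ} (hH : H ≤ π.ker) (hD : IsFactor π.ker H D)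
    {h : Γ} (hh : h ∈ H) {k : ℕ} (hk : 0 < k) (h1 : h ^ k ∈ D) : h ∈ D := by
  rcases hD with rfl | ⟨T, hT, x, rfl⟩
  · exact hh
  · rw [t7c_stab hH] at h1 ⊢
    obtain ⟨y, hy⟩ := T.ell_of_pow (hT.noInv hc) hh hk h1.2
    by_cases he : h ^ k = 1
    · have : h = 1 := hc.roots h 1 k hk (by rw [he, one_pow])
      rw [this]
      exact Subgroup.one_mem _
    · have hxy := hT.fixed_unique (h := h ^ k) ⟨h1.1, hH h1.1⟩ he h1.2 (T.fix_pow hh hy k)
      exact ⟨hh, by rw [hxy]; exact hy⟩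

theorem fac_centr (hc : Ctx π) {H D : Subgroup Γ} (hH : H ≤ π.ker) (hD : IsFactor π.ker H D)
    {h d : Γ} (hh : h ∈ H) (hd : d ∈ D) (h1 : d ≠ 1) (hcm : h * d = d * h) : h ∈ D := by
  rcases hD with rfl | ⟨T, hT, x, rfl⟩
  · exact hh
  · rw [t7c_stab hH] at hd ⊢
    refine ⟨hh, (hT.fixed_unique (h := d) ⟨hd.1, hH hd.1⟩ h1 hd.2 ?_).symm⟩
    rw [← T.act_mul d hd.1 h hh, ← hcm, T.act_mul h hh d hd.1, hd.2]

/-! ### the star: the trivial group is a factor -/

namespace MTree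

/-- the star with a free orbit of leaves: the graph -/
def t7cStarG (D : Subgroup Γ) : SimpleGraph (Option D) where
  Adj x y := (x = none ∧ y ≠ none) ∨ (x ≠ none ∧ y = none)
  symm := ⟨fun _ _ h => h.elim (fun h => Or.inr ⟨h.2, h.1⟩) fun h => Or.inl ⟨h.2, h.1⟩⟩
  loopless := ⟨fun _ h => h.elim (fun h => h.2 h.1) fun h => h.1 h.2⟩

theorem t7cStarG_tree (D : Subgroup Γ) : (t7cStarG D).IsTree := by
  refine TG.isTree_of_sep ?_ ?_
  · have : Nonempty (Option D) := ⟨none⟩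
    refine SimpleGraph.Connected.mk ?_
    have h : ∀ x : Option D, (t7cStarG D).Reachable none x := by
      intro x
      rcases eq_or_ne x none with rfl | hx
      · exact SimpleGraph.Reachable.refl _
      · exact SimpleGraph.Adj.reachable (Or.inl ⟨rfl, hx⟩)
    exact fun x y => (h x).symm.trans (h y)
  · rintro a b (⟨rfl, hb⟩ | ⟨ha, rfl⟩)
    · refine ⟨{x | x ≠ b}, hb.symm, fun h => h rfl, ?_⟩
      intro x y hxy _ hy
      have hyb : y = b := by
        by_contra hne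
        exact hy hne
      refine ⟨?_, hyb⟩
      rcases hxy with h | h
      · exact h.1
      · exact absurd (h.2.symm.trans hyb).symm hb
    · refine ⟨{x | x = a}, rfl, fun h => ha h.symm, ?_⟩
      rintro x y hxy rfl _
      refine ⟨rfl, ?_⟩
      rcases hxy with h | h
      · exact absurd h.1 ha
      · exact h.2

open Classical in
/-- the action on the star -/
noncomputable def t7cStarAct (D : Subgroup Γ) (m : Γ) (x : Option D) : Option D :=
  x.map fun d => if h : m ∈ D then ⟨m, h⟩ * d else d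

theorem t7cStarAct_none (D : Subgroup Γ) (m : Γ) : t7cStarAct D m none = none := rfl

theorem t7cStarAct_some (D : Subgroup Γ) {m : Γ} (hm : m ∈ D) (d : D) :
    t7cStarAct D m (some d) = some (⟨m, hm⟩ * d) := by
  unfold t7cStarAct
  simp only [Option.map_some, hm, dif_pos]

theorem t7cStarAct_free (D : Subgroup Γ) {m : Γ} (hm : m ∈ D) {d : D}
    (h : t7cStarAct D m (some d) = some d) : m = 1 := by
  rw [t7cStarAct_some D hm, Option.some.injEq] at h
  have h1 := congrArg (fun e : D => (e : Γ)) h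
  simpa using h1

theorem t7cStarAct_one (D : Subgroup Γ) (x : Option D) : t7cStarAct D 1 x = x := by
  rcases x with _ | d
  · rfl
  · rw [t7cStarAct_some D D.one_mem]
    congr 1
    exact Subtype.ext (one_mul _)

theorem t7cStarAct_mul (D : Subgroup Γ) (m : Γ) (hm : m ∈ D) (m' : Γ) (hm' : m' ∈ D)
    (x : Option D) : t7cStarAct D (m * m') x = t7cStarAct D m (t7cStarAct D m' x) := by
  rcases x with _ | d
  · rfl
  · rw [t7cStarAct_some D hm', t7cStarAct_some D hm, t7cStarAct_some D (D.mul_mem hm hm')]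
    congr 1
    exact Subtype.ext (mul_assoc _ _ _)

theorem t7cStarAct_ne (D : Subgroup Γ) (m : Γ) (x : Option D) : t7cStarAct D m x ≠ none ↔ x ≠ none := by
  cases x with
  | none => exact Iff.rfl
  | some d => simp [t7cStarAct]

theorem t7cStarAct_adj (D : Subgroup Γ) (m : Γ) (_ : m ∈ D) (x y : Option D)
    (h : (t7cStarG D).Adj x y) : (t7cStarG D).Adj (t7cStarAct D m x) (t7cStarAct D m y) := by
  rcases h with ⟨rfl, h⟩ | ⟨h, rfl⟩
  · exact Or.inl ⟨rfl, (t7cStarAct_ne D m y).2 h⟩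
  · exact Or.inr ⟨(t7cStarAct_ne D m x).2 h, rfl⟩

/-- the star with a free orbit of leaves -/
noncomputable def t7cStar (D : Subgroup Γ) : MTree D where
  X := Option D
  G := t7cStarG D
  tree := t7cStarG_tree D
  act := t7cStarAct D
  act_one := t7cStarAct_one D
  act_mul := t7cStarAct_mul D
  act_adj := t7cStarAct_adj D

theorem t7cStarAct_edge_free (D : Subgroup Γ) {m : Γ} (hm : m ∈ D) (x y : Option D)
    (h : (t7cStarG D).Adj x y) (hx : t7cStarAct D m x = x) (hy : t7cStarAct D m y = y) : m = 1 := by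
  rcases h with ⟨-, h⟩ | ⟨h, -⟩
  · obtain ⟨d, rfl⟩ := Option.ne_none_iff_exists'.1 h
    exact t7cStarAct_free D hm hy
  · obtain ⟨d, rfl⟩ := Option.ne_none_iff_exists'.1 h
    exact t7cStarAct_free D hm hx

theorem t7cStarAct_to_one (D : Subgroup Γ) (d : D) :
    t7cStarAct D (d : Γ)⁻¹ (some d) = some 1 := by
  rw [t7cStarAct_some D (D.inv_mem d.2)]
  congr 1
  exact Subtype.ext (inv_mul_cancel _)

theorem t7cStarAct_cocpt (D : Subgroup Γ) : ∃ S : Finset (Option D × Option D),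
    ∀ x y, (t7cStarG D).Adj x y → ∃ m ∈ D, (t7cStarAct D m x, t7cStarAct D m y) ∈ S := by
  classical
  refine ⟨{(none, some (1 : D)), (some (1 : D), none)}, ?_⟩
  rintro x y (⟨rfl, hy⟩ | ⟨hx, rfl⟩)
  · obtain ⟨d, rfl⟩ := Option.ne_none_iff_exists'.1 hy
    refine ⟨(d : Γ)⁻¹, D.inv_mem d.2, ?_⟩
    rw [t7cStarAct_none, t7cStarAct_to_one]
    simp
  · obtain ⟨d, rfl⟩ := Option.ne_none_iff_exists'.1 hx
    refine ⟨(d : Γ)⁻¹, D.inv_mem d.2, ?_⟩
    rw [t7cStarAct_none, t7cStarAct_to_one]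
    simp

end MTree

theorem t7c_star_isSplitting {D : Subgroup Γ} (hD : D ≤ π.ker) : (t7cStar D).IsSplitting π.ker where
  free := fun _ hh x y hxy hx hy => t7cStarAct_edge_free D hh.1 x y hxy hx hy
  orb := fun m hm _ _ _ => ⟨m, ⟨hm, hD hm⟩, rfl, rfl⟩
  cocpt := by
    obtain ⟨S, hS⟩ := t7cStarAct_cocpt D
    refine ⟨S, fun x y hxy => ?_⟩
    obtain ⟨m, hm, h⟩ := hS x y hxy
    exact ⟨m, ⟨hm, hD hm⟩, h⟩

/-- the trivial group is a factor -/
theorem t7c_fac_bot {D : Subgroup Γ} (hD : D ≤ π.ker) : IsFactor π.ker D ⊥ := by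
  have h : ∃ x : (t7cStar D).X, (t7cStar D).stab x ⊓ π.ker = ⊥ := by
    refine ⟨(some (1 : D) : Option D), ?_⟩
    rw [eq_bot_iff]
    intro m hm
    exact Subgroup.mem_bot.2 (t7cStarAct_free D hm.1.1 hm.1.2)
  exact Or.inr ⟨t7cStar D, t7c_star_isSplitting hD, h⟩

/-! ### transitivity -/

/-- blowing up one vertex -/
theorem t7c_blow {H : Subgroup Γ} (hH : H ≤ π.ker) (B : MTree H) (hB : B.IsSplitting π.ker)
    (x₀ : B.X) (U₀ : MTree (B.stab x₀)) (hU : U₀.IsSplitting π.ker) (y₀ : U₀.X) :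
    ∃ T : MTree H, T.IsSplitting π.ker ∧ ∃ x, T.stab x = U₀.stab y₀ := by
  classical
  obtain ⟨R, hxR, hR⟩ := exists_reps B x₀
  have hle : B.stab x₀ ≤ H := fun m hm => hm.1
  obtain ⟨R', hR'⟩ : ∃ R' : Set B.X, ∀ v : B.X, ∃! r : B.X, r ∈ R' ∧
      ∃ m ∈ B.stab x₀, B.act m r = v := by
    obtain ⟨R', -, h⟩ := exists_reps (B.res hle) x₀
    exact ⟨R', h⟩
  choose rep hrep using fun v => (hR' v).exists
  choose hrepR g hg hgr using hrep
  have hrep_act : ∀ m ∈ B.stab x₀, ∀ v, rep (B.act m v) = rep v := by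
    intro m hm v
    refine (hR' (B.act m v)).unique ⟨hrepR _, g _, hg _, hgr _⟩
      ⟨hrepR v, m * g v, Subgroup.mul_mem _ hm (hg v), ?_⟩
    rw [B.act_mul m hm.1 _ (hg v).1, hgr v]
  have hatt₀ : ∀ m ∈ B.stab x₀, ∀ w, B.G.Adj x₀ w →
      U₀.act (g (B.act m w)) y₀ = U₀.act m (U₀.act (g w) y₀) := by
    intro m hm w hw
    rw [← U₀.act_mul m hm _ (hg w)]
    congr 1
    have hmg := Subgroup.mul_mem _ hm (hg w)
    have he : (m * g w)⁻¹ * g (B.act m w) ∈ B.stab x₀ :=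
      Subgroup.mul_mem _ (Subgroup.inv_mem _ hmg) (hg _)
    have h1 : (m * g w)⁻¹ * g (B.act m w) = 1 := by
      refine hB.free _ ⟨he.1, hH he.1⟩ x₀ (rep w) ?_ he.2 ?_
      · rw [← B.adj_act_iff (hg w).1, (hg w).2, hgr w]
        exact hw
      · rw [B.act_mul _ (H.inv_mem hmg.1) _ (hg _).1]
        have h2 := hgr (B.act m w)
        rw [hrep_act m hm w] at h2
        rw [h2]
        have h3 : B.act (m * g w) (rep w) = B.act m w := by
          rw [B.act_mul m hm.1 _ (hg w).1, hgr w]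
        rw [← h3, B.act_inv_act hmg.1]
    exact (inv_mul_eq_one.1 h1).symm
  obtain ⟨S, hS⟩ : ∃ S : ∀ v, Σ U : MTree (B.stab v), (B.X → U.X),
      S = Function.update (fun v => ⟨point (B.stab v), fun _ => ()⟩) x₀
        ⟨U₀, fun w => U₀.act (g w) y₀⟩ := ⟨_, rfl⟩
  have hS0 : S x₀ = ⟨U₀, fun w => U₀.act (g w) y₀⟩ := by rw [hS, Function.update_self]
  have hS1 : ∀ v, v ≠ x₀ → S v = ⟨point (B.stab v), fun _ => ()⟩ := fun v hv => by
    rw [hS, Function.update_of_ne hv]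
  have hatt : ∀ v ∈ R, ∀ m ∈ B.stab v, ∀ w, B.G.Adj v w →
      (S v).2 (B.act m w) = (S v).1.act m ((S v).2 w) := by
    intro v _ m hm w hw
    rcases eq_or_ne v x₀ with rfl | hv
    · rw [hS0]
      exact hatt₀ m hm w hw
    · rw [hS1 v hv]
      rfl
  have hsp : ∀ v, (S v).1.IsSplitting π.ker := by
    intro v
    rcases eq_or_ne v x₀ with rfl | hv
    · rw [hS0]
      exact hU
    · rw [hS1 v hv]
      exact point_isSplitting _ _
  obtain ⟨T, pr, ι, hb, hι⟩ := blowup_exists B R hR (fun v => (S v).1) (fun v => (S v).2) hatt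
  have hT : T.IsSplitting π.ker := hb.isSplitting hB R (fun v => (hR v).exists)
    (fun v hv => ⟨(S v).1, ι v, (hι v hv).1, (hι v hv).2.1, hsp v⟩)
  obtain ⟨y', hy'⟩ : ∃ y' : (S x₀).1.X, (S x₀).1.stab y' = U₀.stab y₀ := by
    rw [hS0]
    exact ⟨y₀, rfl⟩
  obtain ⟨hemb, hrange, -⟩ := hι x₀ hxR
  have hpr : pr (ι x₀ y') = x₀ := by
    have : ι x₀ y' ∈ pr ⁻¹' {x₀} := by
      rw [← hrange]
      exact ⟨y', rfl⟩
    exact this
  refine ⟨T, hT, ι x₀ y', ?_⟩
  rw [← hy']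
  ext m
  constructor
  · rintro ⟨hm, hm'⟩
    have hmx : m ∈ B.stab x₀ := by
      refine ⟨hm, ?_⟩
      have := hb.equi m hm (ι x₀ y')
      rw [hm', hpr] at this
      exact this.symm
    refine ⟨hmx, hemb.inj ?_⟩
    rw [hemb.equi m hmx, hm']
  · rintro ⟨hm, hm'⟩
    refine ⟨hm.1, ?_⟩
    rw [← hemb.equi m hm, hm']

/-- a factor of a factor is a factor -/
theorem fac_trans (hc : Ctx π) {H D E : Subgroup Γ} (hH : H ≤ π.ker) (hD : IsFactor π.ker H D)
    (hE : IsFactor π.ker D E) : IsFactor π.ker H E := by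
  rcases hD with rfl | ⟨B, hB, x₀, hx₀⟩
  · exact hE
  rw [t7c_stab hH] at hx₀
  subst hx₀
  rcases hE with rfl | ⟨U, hU, y₀, hy₀⟩
  · exact Or.inr ⟨B, hB, x₀, t7c_stab hH B x₀⟩
  · obtain ⟨T, hT, x, hx⟩ := t7c_blow hH B hB x₀ U hU y₀
    exact Or.inr ⟨T, hT, x, by rw [hx, hy₀]⟩

/-! ### intersections -/

theorem t7c_emb_split {H D : Subgroup Γ} (hDk : D ≤ π.ker) (hDH : D ≤ H) {T : MTree H}
    (hT : T.IsSplitting π.ker) {U : MTree D} {ι : U.X → T.X} (hemb : IsEmb U T ι)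
    (S : Finset (T.X × T.X))
    (hS : ∀ x y : U.X, U.G.Adj x y → ∃ d ∈ D, (T.act d (ι x), T.act d (ι y)) ∈ S) :
    U.IsSplitting π.ker where
  free := by
    intro h hh x y hxy hx hy
    have hadj : T.G.Adj (ι x) (ι y) := by
      rw [← SimpleGraph.dist_eq_one_iff_adj, hemb.dist, SimpleGraph.dist_eq_one_iff_adj]
      exact hxy
    refine hT.free h ⟨hDH hh.1, hh.2⟩ (ι x) (ι y) hadj ?_ ?_
    · rw [← hemb.equi h hh.1, hx]
    · rw [← hemb.equi h hh.1, hy]
  orb := fun m hm _ _ _ => ⟨m, ⟨hm, hDk hm⟩, rfl, rfl⟩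
  cocpt := by
    classical
    have hinj : Function.Injective (Prod.map ι ι) := hemb.inj.prodMap hemb.inj
    refine ⟨S.preimage (Prod.map ι ι) hinj.injOn, fun x y hxy => ?_⟩
    obtain ⟨d, hd, h⟩ := hS x y hxy
    refine ⟨d, ⟨hd, hDk hd⟩, ?_⟩
    rw [Finset.mem_preimage, Prod.map_apply, hemb.equi d hd, hemb.equi d hd]
    exact h

theorem fac_inter (hc : Ctx π) {H D E : Subgroup Γ} (hH : IsFactor π.ker π.ker H)
    (hD : IsFactor π.ker H D) (hE : IsFactor π.ker H E) : IsFactor π.ker D (D ⊓ E) := by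
  have hHk : H ≤ π.ker := fac_le hH
  have hDH : D ≤ H := fac_le hD
  have hDk : D ≤ π.ker := hDH.trans hHk
  have hfg : D.FG := fac_fg hc (fac_trans hc le_rfl hH hD)
  rcases hE with rfl | ⟨T, hT, x, rfl⟩
  · exact Or.inl (inf_eq_left.2 hDH)
  rw [t7c_stab hHk]
  by_cases hbot : D ⊓ T.stab x = ⊥
  · rw [hbot]
    exact t7c_fac_bot hDk
  obtain ⟨⟨d, hd⟩, hd1⟩ := Subgroup.ne_bot_iff_exists_ne_one.1 hbot
  replace hd1 : d ≠ 1 := fun h => hd1 (Subtype.ext h)
  have hdx : T.act d x = x := hd.2.2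
  have hdH : d ∈ H := hd.2.1
  have hni := hT.noInv hc
  by_cases hell : T.Ell (D : Set Γ)
  · -- `D` fixes a vertex
    obtain ⟨z, hz⟩ := hell
    have hxz : x = z := hT.fixed_unique (h := d) ⟨hdH, hHk hdH⟩ hd1 hdx (hz d hd.1)
    subst hxz
    exact Or.inl (inf_eq_left.2 fun m hm => ⟨hDH hm, hz m hm⟩)
  · have hconv := T.core_conv hni hDH
    have hcne := T.core_nonempty hni hDH hfg
    have hinv : ∀ m ∈ D, ∀ y ∈ T.core D, T.act m y ∈ T.core D := by
      intro m hm y hy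
      have h1 := T.core_conj hDH (hDH hm)
      rw [Subgroup.conj_smul_eq_self_of_mem hm] at h1
      rw [h1]
      exact ⟨y, hy, rfl⟩
    have hxc : x ∈ T.core D := by
      obtain ⟨z, hz, hz'⟩ := T.fix_proj hdH ⟨x, hdx⟩ hconv hcne (fun y hy => hinv d hd.1 y hy)
      have : x = z := hT.fixed_unique (h := d) ⟨hdH, hHk hdH⟩ hd1 hdx hz'
      rw [this]
      exact hz
    have hsp : (T.sub (T.core D) hconv hcne D hDH hinv).IsSplitting π.ker := by
      obtain ⟨S, hS⟩ := T.core_cofinite hni hDH hfg hell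
      refine t7c_emb_split hDk hDH hT (T.sub_isEmb (T.core D) hconv hcne D hDH hinv) S ?_
      intro y z hyz
      exact hS _ (Subtype.prop (p := fun v => v ∈ T.core D) y) _
        (Subtype.prop (p := fun v => v ∈ T.core D) z) hyz
    have hst := T.sub_stab (T.core D) hconv hcne D hDH hinv ⟨x, hxc⟩
    have h : ∃ v, (T.sub (T.core D) hconv hcne D hDH hinv).stab v ⊓ π.ker = D ⊓ T.stab x := by
      exact ⟨_, (t7c_stab hDk _ _).trans (hst.trans (inf_comm _ _))⟩
    exact Or.inr ⟨_, hsp, h⟩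

theorem fac_conj (hc : Ctx π) {H D : Subgroup Γ} (hH : H ≤ π.ker) (hD : IsFactor π.ker H D) (γ : Γ) :
    IsFactor π.ker (MulAut.conj γ • H) (MulAut.conj γ • D) := by
  rcases hD with rfl | ⟨T, hT, x, rfl⟩
  · exact Or.inl rfl
  · refine Or.inr ⟨T.tw γ, tw_isSplitting hT γ, x, ?_⟩
    rw [t7c_stab hH, T.tw_stab, inf_eq_left]
    rintro _ ⟨m, hm, rfl⟩
    exact (MonoidHom.normal_ker π).conj_mem m (hH hm.1) γ

end Pool.Agent.Lib.MP_6567fb_al
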