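import Pool.Agent.Lib.MP_6567fb_al.F2b
import Pool.Agent.Lib.MP_6567fb_al.T7b
import Pool.Agent.Lib.MP_6567fb_al.T7c

/-!
# MP_6567fb_al, module F2c

(2) of F2.2.  By supp_meets there is a position i whose edge is in the D-orbit of {x,y}.  Suppose it is the only
position of [i,i+l).  crossing_hom for the D-tree core D and the edge (x,y): χ : D → Multiplicative ℤ with χ(y_0) = ±1,
y_0 := s w P⁻¹, P := lift fixing (L i, L (i+1)).  ψ := χ mod 3 composed with the retraction F → D (fac_retract): F → ℤ/3.  g ↦ ψ(s g (P_e g)⁻¹), P_e := the section fixing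
the edge, is a homomorphism G → ℤ/3 (Ctx.mod3), so it kills w (hw): contradiction.
-/

set_option autoImplicit false

open scoped Pointwise
open Filter

namespace Pool.Agent.Lib.MP_6567fb_al

open MTree
variable {Γ G : Type} [Group Γ] [Group G] {π : Γ →* G}

/-- the homomorphism `g ↦ ψ (s g (σ g)⁻¹)` -/
theorem exists_diff_hom (hc : Ctx π) (ψ : π.ker →* Multiplicative (ZMod 3)) {s σ : G →* Γ}
    (hs : IsSec π s) (hσ : IsSec π σ) :
    ∃ θ : G →* Multiplicative (ZMod 3), ∀ g, ∀ z : π.ker, (z : Γ) = s g * (σ g)⁻¹ → θ g = ψ z := by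
  have hmem : ∀ g, s g * (σ g)⁻¹ ∈ π.ker := by
    intro g
    rw [MonoidHom.mem_ker, map_mul, map_inv, hs, hσ, mul_inv_cancel]
  refine ⟨⟨⟨fun g => ψ ⟨s g * (σ g)⁻¹, hmem g⟩, ?_⟩, ?_⟩, ?_⟩
  · have : (⟨s 1 * (σ 1)⁻¹, hmem 1⟩ : π.ker) = 1 := by
      apply Subtype.ext
      simp
    rw [this, map_one]
  · intro g h
    have e1 : (⟨s (g * h) * (σ (g * h))⁻¹, hmem (g * h)⟩ : π.ker) =
        MulAut.conjNormal (s g) ⟨s h * (σ h)⁻¹, hmem h⟩ * ⟨s g * (σ g)⁻¹, hmem g⟩ := by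
      apply Subtype.ext
      rw [Subgroup.coe_mul, MulAut.conjNormal_apply]
      simp only [map_mul, mul_inv_rev]
      group
    change ψ ⟨s (g * h) * (σ (g * h))⁻¹, hmem (g * h)⟩ = ψ _ * ψ _
    rw [e1, map_mul, hc.mod3 ψ (s g), mul_comm]
  · intro g z hz
    change ψ _ = ψ z
    congr 1
    exact Subtype.ext hz.symm

theorem supp_twice (hc : Ctx π) {M : Subgroup Γ} (hM : Full π M) {Ω : Set (Subgroup Γ)}
    (hΩ : IsProper π.ker M Ω) {T : MTree M} (hT : T.IsSplitting π.ker) (hr : T.Rel Ω)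
    {s : G →* Γ} (hs : SecIn π M s) {w : G} (hw : ∀ χ : G →* Multiplicative (ZMod 3), χ w = 1)
    {D : Subgroup Γ} (hD : IsSupp π.ker (M ⊓ π.ker) Ω (s w) D) {l : ℕ} {L : ℤ → T.X}
    (hL : T.IsAxis (s w) l L) {x y : T.X} (hx : x ∈ T.core D) (hy : y ∈ T.core D)
    (hxy : T.G.Adj x y) :
    ∃ i j : ℤ, i < j ∧ j < i + l ∧ ∀ k ∈ ({i, j} : Set ℤ),
      ∃ d ∈ D, (T.act d x = L k ∧ T.act d y = L (k + 1)) ∨
        (T.act d x = L (k + 1) ∧ T.act d y = L k) := by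
  classical
  obtain ⟨i0, hi0⟩ := supp_meets hc hM hΩ hT hr (hs.mem w) hD hL hx hy hxy
  by_contra hcon
  have honly : ∀ j, i0 < j → j < i0 + l → ¬ ∃ d ∈ D, (T.act d x = L j ∧ T.act d y = L (j + 1)) ∨
        (T.act d x = L (j + 1) ∧ T.act d y = L j) := by
    intro j h1 h2 h3
    apply hcon
    refine ⟨i0, j, h1, h2, ?_⟩
    rintro k (rfl | rfl)
    · exact hi0
    · exact h3
  have hDf : IsFactor π.ker (M ⊓ π.ker) D := hD.ofac.fac
  obtain ⟨hnell, haxis, hlift⟩ := inv_axis hc hM hT (hs.mem w) hDf hD.ne hD.inv hL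
  have hDH : D ≤ M ⊓ π.ker := fac_le hDf
  have hDM : D ≤ M := le_trans hDH inf_le_left
  have hadjL : ∀ i, T.G.Adj (L i) (L (i + 1)) := by
    intro i
    rw [← SimpleGraph.dist_eq_one_iff_adj, hL.2.1 i (i + 1)]
    simp
  -- the section fixing the edge
  obtain ⟨σ, ⟨hσ, hσM⟩, -⟩ := hT.lift_sec (hadjL i0) hM.surj
  obtain ⟨-, hy0⟩ := hlift i0 (σ w) (hσM w).1 (by rw [hσ, hs.sec]) (hσM w).2
  set y0 := s w * (σ w)⁻¹ with hy0def
  have hy0act : ∀ z, T.act (σ w) z = z → T.act y0 z = T.act (s w) z := by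
    intro z hz
    rw [hy0def, T.act_mul _ (hs.mem w) _ (inv_mem (hσM w).1)]
    congr 1
    conv_lhs => rw [← hz]
    exact T.act_inv_act (hσM w).1 _
  -- the tree of D
  have hconv : T.Conv (T.core D) := T.core_conv (hT.noInv hc) hDM
  have hi : ∀ m ∈ D, ∀ z ∈ T.core D, T.act m z ∈ T.core D := by
    intro m hm z hz
    have h1 := T.core_conj hDM (hDM hm)
    have h2 : MulAut.conj m • D = D := Subgroup.conj_smul_eq_self_of_mem hm
    rw [h2] at h1
    rw [h1]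
    exact ⟨z, hz, rfl⟩
  obtain ⟨U, ι, hU, hιr⟩ : ∃ (U : MTree D) (ι : U.X → T.X), IsEmb U T ι ∧
      Set.range ι = T.core D :=
    ⟨T.sub (T.core D) hconv ⟨x, hx⟩ D hDM hi, Subtype.val, T.sub_isEmb _ _ _ _ _ _,
      Subtype.range_coe⟩
  have hUni : U.NoInv := by
    intro m hm a b hab h
    have h1 : T.G.Adj (ι a) (ι b) := by
      rw [← SimpleGraph.dist_eq_one_iff_adj, hU.dist]
      exact SimpleGraph.dist_eq_one_iff_adj.2 hab
    apply hT.noInv hc m (hDM hm) (ι a) (ι b) h1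
    rw [← hU.equi m hm, ← hU.equi m hm, h.1, h.2]
    exact ⟨rfl, rfl⟩
  obtain ⟨x', rfl⟩ : x ∈ Set.range ι := by rw [hιr]; exact hx
  obtain ⟨y', rfl⟩ : y ∈ Set.range ι := by rw [hιr]; exact hy
  have hxy' : U.G.Adj x' y' := by
    rw [← SimpleGraph.dist_eq_one_iff_adj, ← hU.dist]
    exact SimpleGraph.dist_eq_one_iff_adj.2 hxy
  have hLr : ∀ i, ∃ z, ι z = L i := by
    intro i
    have : L i ∈ Set.range ι := by rw [hιr]; exact haxis i
    exact this
  choose L' hL' using hLr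
  have hdL : ∀ i j, U.G.dist (L' i) (L' j) = (i - j).natAbs := by
    intro i j
    rw [← hU.dist, hL', hL', hL.2.1]
  obtain ⟨χ, -, hχ⟩ := crossing_hom U hUni hxy'
  have hy0L : U.act y0 (L' i0) = L' (i0 + l) := by
    apply hU.inj
    rw [hU.equi y0 hy0, hL', hL', hy0act _ (hσM w).2.1, hL.2.2]
  have hχy : χ ⟨y0, hy0⟩ = Multiplicative.ofAdd 1 ∨ χ ⟨y0, hy0⟩ = Multiplicative.ofAdd (-1) := by
    apply hχ (L' i0) ⟨y0, hy0⟩
    change ∃! e : U.X × U.X, U.G.Adj e.1 e.2 ∧ U.Btw (L' i0) e.1 (U.act y0 (L' i0)) ∧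
      U.Btw (L' i0) e.2 (U.act y0 (L' i0)) ∧ U.G.dist (L' i0) e.1 < U.G.dist (L' i0) e.2 ∧
      ∃ k ∈ D, (U.act k x' = e.1 ∧ U.act k y' = e.2) ∨ (U.act k x' = e.2 ∧ U.act k y' = e.1)
    rw [hy0L]
    have hl := hL.1
    have hbL : ∀ a : ℕ, a ≤ l → U.Btw (L' i0) (L' (i0 + a)) (L' (i0 + l)) := by
      intro a ha
      change U.G.dist _ _ + U.G.dist _ _ = U.G.dist _ _
      rw [hdL, hdL, hdL]
      omega
    refine ⟨(L' i0, L' (i0 + 1)), ⟨?_, ?_, ?_, ?_, ?_⟩, ?_⟩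
    · rw [← SimpleGraph.dist_eq_one_iff_adj, hdL]
      simp
    · have := hbL 0 (by omega)
      simpa using this
    · have := hbL 1 (by omega)
      simpa using this
    · change U.G.dist (L' i0) (L' i0) < U.G.dist (L' i0) (L' (i0 + 1))
      rw [hdL, hdL]
      simp
    · obtain ⟨d, hd, h⟩ := hi0
      refine ⟨d, hd, ?_⟩
      rw [← hU.equi d hd, ← hU.equi d hd, ← hL', ← hL'] at h
      rcases h with ⟨h1, h2⟩ | ⟨h1, h2⟩
      · exact Or.inl ⟨hU.inj h1, hU.inj h2⟩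
      · exact Or.inr ⟨hU.inj h1, hU.inj h2⟩
    · rintro ⟨e1, e2⟩ ⟨h1, h2, h3, h4, k, hk, h5⟩
      dsimp only at h1 h2 h3 h4 h5
      -- positions of e1, e2
      have pos : ∀ e, U.Btw (L' i0) e (L' (i0 + l)) → U.G.dist (L' i0) e ≤ l ∧
          e = L' (i0 + (U.G.dist (L' i0) e : ℕ)) := by
        intro e he
        have h6 : U.G.dist (L' i0) (L' (i0 + l)) = l := by
          rw [hdL]; omega
        have h7 : U.G.dist (L' i0) e ≤ U.G.dist (L' i0) (L' (i0 + l)) := by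
          have : U.G.dist (L' i0) e + U.G.dist e (L' (i0 + l)) =
            U.G.dist (L' i0) (L' (i0 + l)) := he
          omega
        rw [h6] at h7
        refine ⟨h7, ?_⟩
        obtain ⟨q, -, hq⟩ := TG.btw_point U.tree (x := L' i0) (z := L' (i0 + l))
          (k := U.G.dist (L' i0) e) (by rw [h6]; exact h7)
        have h8 := hq e ⟨he, rfl⟩
        have h9 := hq (L' (i0 + (U.G.dist (L' i0) e : ℕ))) ⟨hbL _ h7, by rw [hdL]; omega⟩
        exact h8.trans h9.symm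
      obtain ⟨p1, q1⟩ := pos e1 h2
      obtain ⟨p2, q2⟩ := pos e2 h3
      obtain ⟨a, ha⟩ : ∃ a, a = U.G.dist (L' i0) e1 := ⟨_, rfl⟩
      obtain ⟨b, hb⟩ : ∃ b, b = U.G.dist (L' i0) e2 := ⟨_, rfl⟩
      rw [← ha] at p1 q1 h4
      rw [← hb] at p2 q2 h4
      have hab : b = a + 1 := by
        have h6 := SimpleGraph.dist_eq_one_iff_adj.2 h1
        rw [q1, q2, hdL] at h6
        omega
      have ha0 : a = 0 := by
        by_contra hane
        apply honly (i0 + a) (by omega) (by omega)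
        refine ⟨k, hk, ?_⟩
        rw [← hU.equi k hk, ← hU.equi k hk]
        have hq2 : L' (i0 + b) = L' (i0 + a + 1) := by
          rw [hab]
          congr 1
          push_cast
          ring
        rw [q1, q2, hq2] at h5
        rcases h5 with ⟨h5, h6⟩ | ⟨h5, h6⟩
        · left; rw [h5, h6, hL', hL']; exact ⟨rfl, rfl⟩
        · right; rw [h5, h6, hL', hL']; exact ⟨rfl, rfl⟩
      rw [q1, q2, hab, ha0]
      simp
  -- the homomorphism to ℤ/3
  have hDF : IsFactor π.ker π.ker D := fac_trans hc le_rfl hM.fac hDf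
  obtain ⟨r, hr1, hr2⟩ := fac_retract hc hDF
  let r' : π.ker →* D := (D.subtype.comp (MonoidHom.id D) : D →* Γ) |> fun _ =>
    { toFun := fun h => ⟨(r h : Γ), hr1 h⟩
      map_one' := Subtype.ext (by simp)
      map_mul' := fun a b => Subtype.ext (by simp) }
  let m3 : Multiplicative ℤ →* Multiplicative (ZMod 3) :=
    AddMonoidHom.toMultiplicative (Int.castAddHom (ZMod 3))
  let ψ : π.ker →* Multiplicative (ZMod 3) := (m3.comp χ).comp r'
  obtain ⟨θ, hθ⟩ := exists_diff_hom hc ψ hs.sec hσ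
  have hy0k : y0 ∈ π.ker := (hDH hy0).2
  have h1 := hθ w ⟨y0, hy0k⟩ rfl
  rw [hw θ] at h1
  have h2 : r' ⟨y0, hy0k⟩ = ⟨y0, hy0⟩ := by
    apply Subtype.ext
    change ((r ⟨y0, hy0k⟩ : π.ker) : Γ) = y0
    rw [hr2 ⟨y0, hy0k⟩ hy0]
  have h3 : ψ ⟨y0, hy0k⟩ = m3 (χ ⟨y0, hy0⟩) := by
    change m3 (χ (r' ⟨y0, hy0k⟩)) = _
    rw [h2]
  rw [h3] at h1
  rcases hχy with h4 | h4
  · rw [h4] at h1
    have : (Multiplicative.ofAdd ((1 : ℤ) : ZMod 3)) = 1 := h1.symm
    rw [ofAdd_eq_one] at this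
    revert this
    decide
  · rw [h4] at h1
    have : (Multiplicative.ofAdd ((-1 : ℤ) : ZMod 3)) = 1 := h1.symm
    rw [ofAdd_eq_one] at this
    revert this
    decide

end Pool.Agent.Lib.MP_6567fb_al
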