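import Pool.Agent.Lib.MP_6567fb_al.T2c

/-!
# MP_6567fb_al, module F2d

End of (3) of F2.2.  Same direction: commute_of_shift.  Opposite direction: Z := d⁻¹ P d P fixes L i, L(i+1) for i1 ≤ i ≤ i1 + l; P_i := the lift of π P fixing (L i, L(i+1)); Z and P_i²
are in M over (π P)², both fix the edge: equal (eq_of_agree); so P_i² is constant for l + 1 consecutive i, by Ctx.roots P_i =: R is constant; P R P⁻¹ = the lift fixing (L(i+l), L(i+l+1)) = R.  z := P R⁻¹
∈ M ⊓ ker maps L i to L (i+l), commutes with P and R; R fixes all L i (move by powers of P), z L i = L(i+l) for all i.  d z d⁻¹ z fixes an edge and is in H: = 1.  So d z d⁻¹ = z⁻¹; then d² z d⁻² = z, so (roots: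
d² commutes with z, z = (d z d⁻¹)..., use x^k = y^k with x = d, y = z d z⁻¹: y² = z d² z⁻¹ = d²) d commutes with z: z = z⁻¹, z² = 1 = 1², z = 1: contradiction (z L i ≠ L i).
-/

set_option autoImplicit false

open scoped Pointwise
open Filter

namespace Pool.Agent.Lib.MP_6567fb_al

open MTree
variable {Γ G : Type} [Group Γ] [Group G] {π : Γ →* G}

/-- no element is conjugate to its inverse -/
theorem conj_inv_ne (hc : Ctx π) {z d : Γ} (hz : z ≠ 1) : d * z * d⁻¹ ≠ z⁻¹ := by
  intro h
  have h1 : d * z⁻¹ * d⁻¹ = z := by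
    have := congrArg (fun x => x⁻¹) h
    simp only [mul_inv_rev, inv_inv] at this
    rw [← mul_assoc] at this
    exact this
  -- `d ^ 2` commutes with `z`
  have h2 : d ^ 2 * z = z * d ^ 2 := by
    have e1 : d ^ 2 * z * (d ^ 2)⁻¹ = z := by
      calc d ^ 2 * z * (d ^ 2)⁻¹ = d * (d * z * d⁻¹) * d⁻¹ := by rw [pow_two]; group
        _ = z := by rw [h, h1]
    calc d ^ 2 * z = (d ^ 2 * z * (d ^ 2)⁻¹) * d ^ 2 := by group
      _ = z * d ^ 2 := by rw [e1]
  have h3 : z * d * z⁻¹ = d := by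
    apply hc.roots _ _ 2 (by norm_num)
    calc (z * d * z⁻¹) ^ 2 = z * d ^ 2 * z⁻¹ := by rw [pow_two, pow_two]; group
      _ = d ^ 2 * z * z⁻¹ := by rw [h2]
      _ = d ^ 2 := by group
  have h4 : d * z * d⁻¹ = z := by
    calc d * z * d⁻¹ = (z * d * z⁻¹) * z * d⁻¹ := by rw [h3]
      _ = z := by group
  rw [h4] at h
  apply hz
  apply hc.roots _ _ 2 (by norm_num)
  rw [one_pow, pow_two]
  nth_rewrite 1 [h]
  exact inv_mul_cancel z

theorem comm_of_seg (hc : Ctx π) {M : Subgroup Γ} {T : MTree M}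
    (hT : T.IsSplitting π.ker) {P d : Γ} (hP : P ∈ M) (hd : d ∈ M ⊓ π.ker) {l : ℕ} {L : ℤ → T.X}
    (hL : T.IsAxis P l L) {i1 c : ℤ}
    (h : (∀ i, i1 ≤ i → i ≤ i1 + 2 * l + 1 → T.act d (L i) = L (i + c)) ∨
      (∀ i, i1 ≤ i → i ≤ i1 + 2 * l + 1 → T.act d (L i) = L (c - i))) : d * P = P * d := by
  obtain ⟨hdM, hdk⟩ := Subgroup.mem_inf.1 hd
  have hdπ : π d = 1 := hdk
  rcases h with h | h
  · refine hT.commute_of_shift hP hdM hL (i := i1) (c := c) ?_ ?_
    · rw [map_mul, map_mul, hdπ, one_mul, mul_one]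
    · intro j hj1 hj2
      exact h j hj1 (by have := hL.1; omega)
  · exfalso
    have hl := hL.1
    have hadj : ∀ i, T.G.Adj (L i) (L (i + 1)) := fun i => by
      apply SimpleGraph.dist_eq_one_iff_adj.1
      rw [hL.2.1 i (i + 1)]
      omega
    have hdi : ∀ i, i1 ≤ i → i ≤ i1 + 2 * l + 1 → T.act d⁻¹ (L (c - i)) = L i := by
      intro i h1 h2
      rw [← h i h1 h2, T.act_inv_act hdM]
    have hPM' := M.inv_mem hP
    have hdM' := M.inv_mem hdM
    -- `Z` fixes a long segment
    have hZM : d⁻¹ * P * d * P ∈ M := M.mul_mem (M.mul_mem (M.mul_mem hdM' hP) hdM) hP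
    have hZ : ∀ i, i1 ≤ i → i ≤ i1 + l + 1 → T.act (d⁻¹ * P * d * P) (L i) = L i := by
      intro i h1 h2
      rw [T.act_mul _ (M.mul_mem (M.mul_mem hdM' hP) hdM) _ hP,
        T.act_mul _ (M.mul_mem hdM' hP) _ hdM, T.act_mul _ hdM' _ hP, hL.2.2,
        h (i + l) (by omega) (by omega), hL.2.2]
      have : c - (i + l) + l = c - i := by ring
      rw [this]
      exact hdi i h1 (by omega)
    -- lifts
    have hlift : ∀ i, ∃ p, p ∈ M ∧ π p = π P ∧ T.FixE p (L i) (L (i + 1)) := fun i =>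
      (hT.lift (hadj i) hP).exists
    choose p hpM hpπ hpf using hlift
    have hsq : ∀ i, i1 ≤ i → i ≤ i1 + l → (p i) ^ 2 = d⁻¹ * P * d * P := by
      intro i h1 h2
      refine hT.eq_of_agree (M.pow_mem (hpM i) 2) hZM ?_ (hadj i) ?_ ?_
      · rw [map_pow, map_mul, map_mul, map_mul, map_inv, hdπ, hpπ, pow_two, inv_one, one_mul,
          mul_one]
      · rw [T.fix_pow (hpM i) (hpf i).1, hZ i h1 (by omega)]
      · rw [T.fix_pow (hpM i) (hpf i).2, hZ (i + 1) (by omega) (by omega)]
    obtain ⟨R, hR⟩ : ∃ R, R = p i1 := ⟨_, rfl⟩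
    have hRM : R ∈ M := hR ▸ hpM i1
    have hRπ : π R = π P := by rw [hR]; exact hpπ i1
    have hconst : ∀ i, i1 ≤ i → i ≤ i1 + l → p i = R := by
      intro i h1 h2
      rw [hR]
      apply hc.roots _ _ 2 (by norm_num)
      rw [hsq i h1 h2, hsq i1 le_rfl (by omega)]
    have hRfix : ∀ i, i1 ≤ i → i ≤ i1 + l → T.act R (L i) = L i := by
      intro i h1 h2
      have := (hpf i).1
      rwa [hconst i h1 h2] at this
    -- `R` commutes with `P`
    have hRP : P * R * P⁻¹ = R := by
      have e1 : T.FixE R (L (i1 + l)) (L (i1 + l + 1)) := by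
        have := hpf (i1 + l)
        rwa [hconst (i1 + l) (by omega) le_rfl] at this
      have e2 : T.FixE R (L i1) (L (i1 + 1)) := by
        have := hpf i1
        rwa [hconst i1 le_rfl (by omega)] at this
      have hPRM : P * R * P⁻¹ ∈ M := M.mul_mem (M.mul_mem hP hRM) hPM'
      have e3 : ∀ i, T.act R (L i) = L i → T.act (P * R * P⁻¹) (L (i + l)) = L (i + l) := by
        intro i hi
        rw [← hL.2.2, T.act_mul _ (M.mul_mem hP hRM) _ hPM', T.act_inv_act hP,
          T.act_mul _ hP _ hRM, hi]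
      refine hT.eq_of_agree hPRM hRM ?_ (hadj (i1 + l)) ?_ ?_
      · rw [map_mul, map_mul, map_inv, hRπ, mul_inv_cancel_right]
      · rw [e3 i1 e2.1, e1.1]
      · have := e3 (i1 + 1) e2.2
        have e4 : i1 + 1 + (l : ℤ) = i1 + l + 1 := by ring
        rw [e4] at this
        rw [this, e1.2]
    have hRP' : P * R = R * P := by
      rw [mul_inv_eq_iff_eq_mul] at hRP
      exact hRP
    -- `R` fixes the whole axis
    have hstep : ∀ i, T.act R (L (i + l)) = L (i + l) ↔ T.act R (L i) = L i := by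
      intro i
      rw [← hL.2.2, ← T.act_mul _ hRM _ hP, ← hRP', T.act_mul _ hP _ hRM]
      constructor
      · intro h1
        exact T.act_inj hP h1
      · intro h1
        rw [h1]
    have hall : ∀ (k : ℤ) (i : ℤ), T.act R (L (i + k * l)) = L (i + k * l) ↔
        T.act R (L i) = L i := by
      intro k
      induction k using Int.induction_on with
      | zero => intro i; simp
      | succ n ih =>
        intro i
        rw [← ih i, ← hstep (i + n * l)]
        have : i + ((n : ℤ) + 1) * l = i + n * l + l := by ring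
        rw [this]
      | pred n ih =>
        intro i
        rw [← ih i, ← hstep (i + (-(n : ℤ) - 1) * l)]
        have : i + (-(n : ℤ) - 1) * l + l = i + -(n : ℤ) * l := by ring
        rw [this]
    have hRall : ∀ j, T.act R (L j) = L j := by
      intro j
      have hmod := Int.emod_nonneg (j - i1) (b := (l : ℤ)) (by omega)
      have hmod' := Int.emod_lt_of_pos (j - i1) (b := (l : ℤ)) (by omega)
      have hdiv := Int.mul_ediv_add_emod (j - i1) l
      have e5 : j = (i1 + (j - i1) % l) + ((j - i1) / l) * l := by linarith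
      rw [e5]
      refine (hall _ _).2 (hRfix _ (by omega) (by omega))
    -- the element `z`
    have hzM : P * R⁻¹ ∈ M := M.mul_mem hP (M.inv_mem hRM)
    have hzπ : π (P * R⁻¹) = 1 := by rw [map_mul, map_inv, hRπ, mul_inv_cancel]
    have hzL : ∀ j, T.act (P * R⁻¹) (L j) = L (j + l) := by
      intro j
      rw [T.act_mul _ hP _ (M.inv_mem hRM)]
      have : T.act R⁻¹ (L j) = L j := by
        nth_rewrite 1 [← hRall j]
        exact T.act_inv_act hRM _
      rw [this, hL.2.2]
    have hz1 : P * R⁻¹ ≠ 1 := by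
      intro h0
      have h1 := hzL i1
      rw [h0, T.act_one] at h1
      have h2 := hL.2.1 i1 (i1 + l)
      rw [← h1, SimpleGraph.dist_self] at h2
      omega
    apply conj_inv_ne hc (d := d⁻¹) hz1
    rw [inv_inv, ← mul_eq_one_iff_eq_inv]
    have hall' : ∀ i, i1 ≤ i → i ≤ i1 + l → T.act (d⁻¹ * (P * R⁻¹) * d * (P * R⁻¹)) (L i) = L i := by
      intro i h1 h2
      rw [T.act_mul _ (M.mul_mem (M.mul_mem hdM' hzM) hdM) _ hzM,
        T.act_mul _ (M.mul_mem hdM' hzM) _ hdM, T.act_mul _ hdM' _ hzM, hzL,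
        h (i + l) (by omega) (by omega), hzL]
      have : c - (i + l) + l = c - i := by ring
      rw [this]
      exact hdi i h1 (by omega)
    refine hT.free _ (Subgroup.mem_inf.2 ⟨M.mul_mem (M.mul_mem (M.mul_mem hdM' hzM) hdM) hzM, ?_⟩)
      _ _ (hadj i1) (hall' i1 le_rfl (by omega)) (hall' (i1 + 1) (by omega) (by omega))
    rw [MonoidHom.mem_ker, map_mul, map_mul, map_mul, hzπ, map_inv, hdπ, inv_one, mul_one,
      mul_one, mul_one]

end Pool.Agent.Lib.MP_6567fb_al
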