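import Pool.Agent.Lib.MP_6567fb_al.T17a
import Pool.Agent.Lib.MP_6567fb_al.T7b

/-!
# MP_6567fb_al, module T16a

Euler inequality.  Linear maps: the restriction Hom(D,ℚ) → ⊕_{v in sV} Hom(D_v,ℚ) is onto (hom_ext); its kernel
contains the crossing homomorphisms; the kernel of the map ℚ^sE → Hom(D,ℚ) consists of coboundaries.
-/

set_option autoImplicit false

open scoped Pointwise

namespace Pool.Agent.Lib.MP_6567fb_al

open MTree
variable {Γ G : Type} [Group Γ] [Group G] {π : Γ →* G}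

/-! ### representatives -/

theorem T16a_reps {α : Type} (r : α → α → Prop) (hr : Equivalence r) (p : α → Prop)
    (hp : ∀ a b, r a b → p a → p b) (S : Finset α) (h : ∀ a, p a → ∃ b ∈ S, r b a) :
    ∃ s : Finset α, (∀ a ∈ s, p a) ∧ (∀ a ∈ s, ∀ b ∈ s, r a b → a = b) ∧
      (∀ a, p a → ∃ b ∈ s, r b a) ∧
      ∀ s' : Finset α, (∀ a ∈ s', p a) → (∀ a ∈ s', ∀ b ∈ s', r a b → a = b) → s'.card ≤ s.card := by
  classical
  have hex : ∃ n, ∃ s : Finset α, (∀ a ∈ s, p a) ∧ (∀ a, p a → ∃ b ∈ s, r b a) ∧ s.card = n := by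
    refine ⟨_, S.filter p, fun a ha => (Finset.mem_filter.1 ha).2, fun a ha => ?_, rfl⟩
    obtain ⟨b, hb, hba⟩ := h a ha
    exact ⟨b, Finset.mem_filter.2 ⟨hb, hp a b (hr.symm hba) ha⟩, hba⟩
  obtain ⟨s, h1, h2, h3⟩ := Nat.find_spec hex
  have hinj : ∀ a ∈ s, ∀ b ∈ s, r a b → a = b := by
    intro a ha b hb hab
    by_contra hne
    refine Nat.find_min hex (m := (s.erase b).card) ?_ ⟨s.erase b, fun c hc =>
      h1 c (Finset.mem_of_mem_erase hc), fun c hc => ?_, rfl⟩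
    · rw [← h3]
      exact Finset.card_erase_lt_of_mem hb
    · obtain ⟨e, he, hec⟩ := h2 c hc
      by_cases heb : e = b
      · exact ⟨a, Finset.mem_erase.2 ⟨hne, ha⟩, hr.trans hab (heb ▸ hec)⟩
      · exact ⟨e, Finset.mem_erase.2 ⟨heb, he⟩, hec⟩
  refine ⟨s, h1, hinj, h2, fun s' hs' hs'' => ?_⟩
  choose f hf hf' using h2
  refine Finset.card_le_card_of_injOn (fun a => if h : p a then f a h else a) ?_ ?_
  · intro a ha
    rw [Finset.mem_coe] at ha ⊢
    simp only [hs' a ha, dite_true]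
    exact hf a (hs' a ha)
  · intro a ha b hb hab
    rw [Finset.mem_coe] at ha hb
    simp only [hs' a ha, hs' b hb, dite_true] at hab
    refine hs'' a ha b hb (hr.trans (hr.symm (hf' a (hs' a ha))) ?_)
    rw [hab]
    exact hf' b (hs' b hb)

theorem T16a_vrel {H : Subgroup Γ} (T : MTree H) :
    Equivalence (fun x y : T.X => ∃ d ∈ H, T.act d x = y) where
  refl x := ⟨1, H.one_mem, T.act_one x⟩
  symm := by
    rintro x y ⟨d, hd, rfl⟩
    exact ⟨d⁻¹, H.inv_mem hd, T.act_inv_act hd x⟩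
  trans := by
    rintro x y z ⟨d, hd, rfl⟩ ⟨e, he, rfl⟩
    exact ⟨e * d, H.mul_mem he hd, T.act_mul e he d hd x⟩

theorem T16a_erel {H : Subgroup Γ} (T : MTree H) :
    Equivalence (fun x y : T.X × T.X => ∃ d ∈ H, (T.act d x.1 = y.1 ∧ T.act d x.2 = y.2) ∨
      (T.act d x.1 = y.2 ∧ T.act d x.2 = y.1)) where
  refl x := ⟨1, H.one_mem, Or.inl ⟨T.act_one _, T.act_one _⟩⟩
  symm := by
    rintro x y ⟨d, hd, h⟩
    refine ⟨d⁻¹, H.inv_mem hd, ?_⟩
    rcases h with ⟨h1, h2⟩ | ⟨h1, h2⟩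
    · exact Or.inl ⟨by rw [← h1, T.act_inv_act hd], by rw [← h2, T.act_inv_act hd]⟩
    · exact Or.inr ⟨by rw [← h2, T.act_inv_act hd], by rw [← h1, T.act_inv_act hd]⟩
  trans := by
    rintro x y z ⟨d, hd, h⟩ ⟨e, he, h'⟩
    refine ⟨e * d, H.mul_mem he hd, ?_⟩
    rw [T.act_mul e he d hd, T.act_mul e he d hd]
    rcases h with ⟨h1, h2⟩ | ⟨h1, h2⟩ <;> rcases h' with ⟨h3, h4⟩ | ⟨h3, h4⟩ <;> rw [h1, h2, h3, h4]
    · exact Or.inl ⟨rfl, rfl⟩
    · exact Or.inr ⟨rfl, rfl⟩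
    · exact Or.inr ⟨rfl, rfl⟩
    · exact Or.inl ⟨rfl, rfl⟩

/-- representatives of the vertices -/
theorem T16a_vreps {H : Subgroup Γ} (T : MTree H)
    (hco : ∃ S : Finset (T.X × T.X), ∀ x y, T.G.Adj x y → ∃ h ∈ H, (T.act h x, T.act h y) ∈ S) :
    ∃ s : Finset T.X, (∀ v ∈ s, ∀ w ∈ s, ∀ d ∈ H, T.act d v = w → v = w) ∧
      ∀ x, ∃ v ∈ s, ∃ d ∈ H, T.act d v = x := by
  classical
  obtain ⟨S, hS⟩ := hco
  by_cases hex : ∃ x y : T.X, x ≠ y
  · obtain ⟨x0, y0, hxy⟩ := hex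
    obtain ⟨s, -, h2, h3, -⟩ := T16a_reps _ (T16a_vrel T) (fun _ => True) (fun _ _ _ h => h)
      (S.image Prod.fst) (by
        intro x _
        obtain ⟨y, hy⟩ : ∃ y, T.G.Adj x y := by
          by_cases h : x = x0
          · obtain ⟨y, hy, -⟩ := TG.exists_next T.tree (h ▸ hxy : x ≠ y0)
            exact ⟨y, hy⟩
          · obtain ⟨y, hy, -⟩ := TG.exists_next T.tree h
            exact ⟨y, hy⟩
        obtain ⟨h, hh, hm⟩ := hS x y hy
        exact ⟨T.act h x, Finset.mem_image_of_mem Prod.fst hm, h⁻¹, H.inv_mem hh, T.act_inv_act hh x⟩)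
    exact ⟨s, fun v hv w hw d hd h => h2 v hv w hw ⟨d, hd, h⟩, fun x => h3 x trivial⟩
  · push Not at hex
    obtain ⟨x0⟩ : Nonempty T.X := T.tree.1.nonempty
    exact ⟨{x0}, fun v _ w _ _ _ _ => hex v w, fun x => ⟨x0, Finset.mem_singleton_self _, 1,
      H.one_mem, hex _ _⟩⟩

/-- representatives of the (unoriented) edges -/
theorem T16a_ereps {H : Subgroup Γ} (T : MTree H)
    (hco : ∃ S : Finset (T.X × T.X), ∀ x y, T.G.Adj x y → ∃ h ∈ H, (T.act h x, T.act h y) ∈ S) :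
    ∃ s : Finset (T.X × T.X), (∀ e ∈ s, T.G.Adj e.1 e.2) ∧
      (∀ e ∈ s, ∀ e' ∈ s, ∀ d ∈ H, ((T.act d e.1 = e'.1 ∧ T.act d e.2 = e'.2) ∨
        (T.act d e.1 = e'.2 ∧ T.act d e.2 = e'.1)) → e = e') ∧
      (∀ x y, T.G.Adj x y → ∃ e ∈ s, ∃ d ∈ H, (T.act d e.1 = x ∧ T.act d e.2 = y) ∨
        (T.act d e.1 = y ∧ T.act d e.2 = x)) ∧
      ∀ s' : Finset (T.X × T.X), (∀ e ∈ s', T.G.Adj e.1 e.2) →
      (∀ e ∈ s', ∀ e' ∈ s', ∀ d ∈ H, ((T.act d e.1 = e'.1 ∧ T.act d e.2 = e'.2) ∨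
        (T.act d e.1 = e'.2 ∧ T.act d e.2 = e'.1)) → e = e') → s'.card ≤ s.card := by
  classical
  obtain ⟨S, hS⟩ := hco
  obtain ⟨s, h1, h2, h3, h4⟩ := T16a_reps _ (T16a_erel T) (fun e => T.G.Adj e.1 e.2) (by
      rintro x y ⟨d, hd, h⟩ hx
      rcases h with ⟨h1, h2⟩ | ⟨h1, h2⟩
      · rw [← h1, ← h2]; exact T.act_adj d hd _ _ hx
      · rw [← h1, ← h2]; exact (T.act_adj d hd _ _ hx).symm) S (by
        intro e he
        obtain ⟨h, hh, hm⟩ := hS e.1 e.2 he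
        exact ⟨_, hm, h⁻¹, H.inv_mem hh, Or.inl ⟨T.act_inv_act hh _, T.act_inv_act hh _⟩⟩)
  exact ⟨s, h1, fun e he e' he' d hd h => h2 e he e' he' ⟨d, hd, h⟩, fun x y hxy => h3 (x, y) hxy,
    fun s' h5 h6 => h4 s' h5 fun e he e' he' ⟨d, hd, h⟩ => h6 e he e' he' d hd h⟩

/-- homomorphisms of a finitely generated group to `ℚ` -/
theorem T16a_fd {D : Subgroup Γ} (h : D.FG) : Module.Finite ℚ (Additive D →+ ℚ) := by
  obtain ⟨S, hS⟩ := (Group.fg_iff_subgroup_fg D).2 h |>.out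
  let ev : (Additive D →+ ℚ) →ₗ[ℚ] (S → ℚ) :=
    { toFun := fun χ s => χ (Additive.ofMul (s : D))
      map_add' := fun _ _ => rfl
      map_smul' := fun _ _ => rfl }
  refine Module.Finite.of_injective ev fun χ ψ hχ => ?_
  have h1 : Set.EqOn (AddMonoidHom.toMultiplicativeRight χ) (AddMonoidHom.toMultiplicativeRight ψ)
      (Subgroup.closure (S : Set D)) := by
    apply MonoidHom.eqOn_closure
    intro s hs
    exact congrFun hχ ⟨s, hs⟩
  rw [hS] at h1
  ext d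
  exact h1 (Subgroup.mem_top d)

open Classical in
/-- the crossing function of the orbit of an edge -/
noncomputable def T16a_c {H : Subgroup Γ} (T : MTree H) (e : T.X × T.X) (x y : T.X) : ℚ :=
  if ∃ h ∈ H, T.act h e.1 = x ∧ T.act h e.2 = y then 1
  else if ∃ h ∈ H, T.act h e.1 = y ∧ T.act h e.2 = x then -1 else 0

theorem T16a_c_anti {H : Subgroup Γ} (T : MTree H) (hni : T.NoInv) (e : T.X × T.X) (x y : T.X)
    (hxy : T.G.Adj x y) : T16a_c T e y x = - T16a_c T e x y := by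
  unfold T16a_c
  by_cases h1 : ∃ h ∈ H, T.act h e.1 = x ∧ T.act h e.2 = y
  · by_cases h2 : ∃ h ∈ H, T.act h e.1 = y ∧ T.act h e.2 = x
    · exfalso
      obtain ⟨h, hh, ha, hb⟩ := h1
      obtain ⟨k, hk, ka, kb⟩ := h2
      refine hni (k * h⁻¹) (H.mul_mem hk (H.inv_mem hh)) x y hxy ⟨?_, ?_⟩
      · rw [T.act_mul k hk h⁻¹ (H.inv_mem hh), ← ha, T.act_inv_act hh, ka]
      · rw [T.act_mul k hk h⁻¹ (H.inv_mem hh), ← hb, T.act_inv_act hh, kb]
    · rw [if_neg h2, if_pos h1, if_pos h1]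
  · by_cases h2 : ∃ h ∈ H, T.act h e.1 = y ∧ T.act h e.2 = x
    · rw [if_pos h2, if_neg h1, if_pos h2, neg_neg]
    · rw [if_neg h2, if_neg h1, if_neg h1, if_neg h2, neg_zero]

theorem T16a_c_inv {H : Subgroup Γ} (T : MTree H) (e : T.X × T.X) (h : Γ) (hh : h ∈ H) (x y : T.X) :
    T16a_c T e (T.act h x) (T.act h y) = T16a_c T e x y := by
  have key : ∀ x y : T.X, (∃ k ∈ H, T.act k e.1 = T.act h x ∧ T.act k e.2 = T.act h y) ↔
      ∃ k ∈ H, T.act k e.1 = x ∧ T.act k e.2 = y := by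
    intro x y
    constructor
    · rintro ⟨k, hk, h1, h2⟩
      refine ⟨h⁻¹ * k, H.mul_mem (H.inv_mem hh) hk, ?_, ?_⟩
      · rw [T.act_mul h⁻¹ (H.inv_mem hh) k hk, h1, T.act_inv_act hh]
      · rw [T.act_mul h⁻¹ (H.inv_mem hh) k hk, h2, T.act_inv_act hh]
    · rintro ⟨k, hk, h1, h2⟩
      refine ⟨h * k, H.mul_mem hh hk, ?_, ?_⟩
      · rw [T.act_mul h hh k hk, h1]
      · rw [T.act_mul h hh k hk, h2]
  unfold T16a_c
  have e1 := propext (key x y)
  have e2 := propext (key y x)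
  by_cases h1 : ∃ k ∈ H, T.act k e.1 = x ∧ T.act k e.2 = y
  · rw [if_pos h1, if_pos ((key x y).2 h1)]
  · rw [if_neg h1, if_neg (fun h => h1 ((key x y).1 h))]
    by_cases h2 : ∃ k ∈ H, T.act k e.1 = y ∧ T.act k e.2 = x
    · rw [if_pos h2, if_pos ((key y x).2 h2)]
    · rw [if_neg h2, if_neg (fun h => h2 ((key y x).1 h))]


open Module in
/-- the crossing homomorphisms span a large space -/
theorem T16a_cross {H : Subgroup Γ} (T : MTree H) (hni : T.NoInv) (sV : Finset T.X)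
    (sE : Finset (T.X × T.X)) (rep : T.X → T.X) (d : T.X → Γ) (hrep : ∀ x, rep x ∈ sV)
    (hd : ∀ x, d x ∈ H) (hact : ∀ x, T.act (d x) (rep x) = x) (hE0 : ∀ e ∈ sE, T.G.Adj e.1 e.2)
    (hE : ∀ e ∈ sE, ∀ e' ∈ sE, ∀ d ∈ H, ((T.act d e.1 = e'.1 ∧ T.act d e.2 = e'.2) ∨
      (T.act d e.1 = e'.2 ∧ T.act d e.2 = e'.1)) → e = e') :
    ∃ X : (sE → ℚ) →ₗ[ℚ] (Additive H →+ ℚ),
      (∀ c x (s : H), (s : Γ) ∈ T.stab x → X c (Additive.ofMul s) = 0) ∧
      finrank ℚ (LinearMap.ker X) + 1 ≤ sV.card := by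
  classical
  choose u χ hu hχ using fun e : sE => crossing_ab T (fun x y => T16a_c T e.1 x y)
    (fun x y hxy => T16a_c_anti T hni e.1 x y hxy) (fun h hh x y => T16a_c_inv T e.1 h hh x y)
  let χ' : sE → (Additive H →+ ℚ) := fun e => (χ e).toAdditiveLeft
  have hχ' : ∀ e (h : H) x, χ' e (Additive.ofMul h) = u e (T.act h x) - u e x := fun e h x =>
    congrArg Multiplicative.toAdd (hχ e h x)
  let X : (sE → ℚ) →ₗ[ℚ] (Additive H →+ ℚ) := Fintype.linearCombination ℚ χ'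
  have hX : ∀ c (h : H) x, X c (Additive.ofMul h) =
      ∑ e, c e * u e (T.act h x) - ∑ e, c e * u e x := by
    intro c h x
    have : X c (Additive.ofMul h) = ∑ e, c e * χ' e (Additive.ofMul h) := by
      simp only [X, Fintype.linearCombination_apply]
      rw [AddMonoidHom.finsetSum_apply]
      rfl
    rw [this, ← Finset.sum_sub_distrib]
    refine Finset.sum_congr rfl fun e _ => ?_
    rw [hχ' e h x, mul_sub]
  refine ⟨X, ?_, ?_⟩
  · intro c x s hs
    rw [hX c s x, hs.2, sub_self]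
  · -- the coboundary
    let Coh : (sV → ℚ) →ₗ[ℚ] (sE → ℚ) :=
      { toFun := fun f e => f ⟨rep e.1.2, hrep _⟩ - f ⟨rep e.1.1, hrep _⟩
        map_add' := fun f g => by ext e; simp only [Pi.add_apply]; ring
        map_smul' := fun a f => by
          ext e; simp only [Pi.smul_apply, smul_eq_mul, RingHom.id_apply]; ring }
    have hker : LinearMap.ker X ≤ LinearMap.range Coh := by
      intro c hc
      rw [LinearMap.mem_ker] at hc
      have hinv : ∀ h ∈ H, ∀ x, ∑ e, c e * u e (T.act h x) = ∑ e, c e * u e x := by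
        intro h hh x
        have := hX c ⟨h, hh⟩ x
        rw [hc] at this
        exact (sub_eq_zero.1 this.symm)
      have hinv' : ∀ x, ∑ e, c e * u e (rep x) = ∑ e, c e * u e x := by
        intro x
        have := hinv (d x) (hd x) (rep x)
        rw [hact x] at this
        exact this.symm
      refine ⟨fun v => ∑ e, c e * u e v, ?_⟩
      funext e
      show ∑ e', c e' * u e' (rep e.1.2) - ∑ e', c e' * u e' (rep e.1.1) = c e
      rw [hinv', hinv', ← Finset.sum_sub_distrib]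
      rw [Finset.sum_eq_single e]
      · rw [← mul_sub, hu e e.1.1 e.1.2 (hE0 e.1 e.2)]
        have : T16a_c T e.1 e.1.1 e.1.2 = 1 := by
          unfold T16a_c
          rw [if_pos ⟨1, H.one_mem, T.act_one _, T.act_one _⟩]
        rw [this, mul_one]
      · intro e' _ hne
        rw [← mul_sub, hu e' e.1.1 e.1.2 (hE0 e.1 e.2)]
        have : T16a_c T e'.1 e.1.1 e.1.2 = 0 := by
          unfold T16a_c
          rw [if_neg, if_neg]
          · rintro ⟨h, hh, h1, h2⟩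
            exact hne (Subtype.ext (hE e'.1 e'.2 e.1 e.2 h hh (Or.inr ⟨h1, h2⟩)))
          · rintro ⟨h, hh, h1, h2⟩
            exact hne (Subtype.ext (hE e'.1 e'.2 e.1 e.2 h hh (Or.inl ⟨h1, h2⟩)))
        rw [this, mul_zero]
      · intro h; exact absurd (Finset.mem_univ _) h
    have h1 : finrank ℚ (LinearMap.ker X) ≤ finrank ℚ (LinearMap.range Coh) :=
      Submodule.finrank_mono hker
    have h2 := LinearMap.finrank_range_add_finrank_ker Coh
    have h3 : finrank ℚ (sV → ℚ) = sV.card := by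
      rw [Module.finrank_fintype_fun_eq_card, Fintype.card_coe]
    have h4 : 1 ≤ finrank ℚ (LinearMap.ker Coh) := by
      rw [Nat.one_le_iff_ne_zero]
      intro h0
      have hbot : LinearMap.ker Coh = ⊥ := Submodule.finrank_eq_zero.1 h0
      have hone : (fun _ => 1 : sV → ℚ) ∈ LinearMap.ker Coh := by
        rw [LinearMap.mem_ker]
        funext e
        show (1 : ℚ) - 1 = 0
        ring
      rw [hbot, Submodule.mem_bot] at hone
      obtain ⟨x⟩ : Nonempty T.X := T.tree.1.nonempty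
      have := congrFun hone ⟨rep x, hrep x⟩
      norm_num at this
    omega

/-- extension of homomorphisms given on representatives -/
theorem T16a_ext {H : Subgroup Γ} (T : MTree H) (hni : T.NoInv) (sV : Finset T.X)
    (hV : ∀ v ∈ sV, ∀ w ∈ sV, ∀ d ∈ H, T.act d v = w → v = w)
    (rep : T.X → T.X) (d : T.X → Γ) (hrep : ∀ x, rep x ∈ sV)
    (hd : ∀ x, d x ∈ H) (hact : ∀ x, T.act (d x) (rep x) = x) (Ψ : T.X → Γ → ℚ)
    (hadd : ∀ v ∈ sV, ∀ g ∈ T.stab v, ∀ g' ∈ T.stab v, Ψ v (g * g') = Ψ v g + Ψ v g')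
    (hed : ∀ x y, T.G.Adj x y → ∀ s, s ∈ T.stab x → s ∈ T.stab y →
      Ψ (rep x) ((d x)⁻¹ * s * d x) = Ψ (rep y) ((d y)⁻¹ * s * d y)) :
    ∃ χ : Additive H →+ ℚ, ∀ v ∈ sV, ∀ s : H, (s : Γ) ∈ T.stab v →
      χ (Additive.ofMul s) = Ψ v s := by
  -- conjugation invariance
  have hconj : ∀ v ∈ sV, ∀ g ∈ T.stab v, ∀ t ∈ T.stab v, Ψ v (g * t * g⁻¹) = Ψ v t := by
    intro v hv g hg t ht
    have h1 := hadd v hv (g * t * g⁻¹)
      ((T.stab v).mul_mem ((T.stab v).mul_mem hg ht) ((T.stab v).inv_mem hg)) g hg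
    rw [inv_mul_cancel_right, hadd v hv g hg t ht] at h1
    linarith
  have hinvd : ∀ x, T.act (d x)⁻¹ x = rep x := by
    intro x
    have := T.act_inv_act (hd x) (rep x)
    rwa [hact x] at this
  have hmem : ∀ x, ∀ s ∈ T.stab x, (d x)⁻¹ * s * d x ∈ T.stab (rep x) := by
    intro x s hs
    refine ⟨H.mul_mem (H.mul_mem (H.inv_mem (hd x)) hs.1) (hd x), ?_⟩
    rw [T.act_mul _ (H.mul_mem (H.inv_mem (hd x)) hs.1) _ (hd x), hact,
      T.act_mul _ (H.inv_mem (hd x)) _ hs.1, hs.2, hinvd]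
  obtain ⟨χ, hχ⟩ := hom_ext T (fun x s => Ψ (rep x) ((d x)⁻¹ * s * d x)) (by
      intro x s hs t ht
      have h1 := hadd (rep x) (hrep x) _ (hmem x s hs) _ (hmem x t ht)
      rw [← h1]
      congr 1
      group) (by
      intro h hh x s hs
      have hr : rep (T.act h x) = rep x := by
        symm
        refine hV _ (hrep x) _ (hrep _) ((d (T.act h x))⁻¹ * (h * d x))
          (H.mul_mem (H.inv_mem (hd _)) (H.mul_mem hh (hd x))) ?_
        rw [T.act_mul _ (H.inv_mem (hd _)) _ (H.mul_mem hh (hd x)), T.act_mul _ hh _ (hd x), hact,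
          hinvd]
      show Ψ (rep (T.act h x)) ((d (T.act h x))⁻¹ * (h * s * h⁻¹) * d (T.act h x)) =
        Ψ (rep x) ((d x)⁻¹ * s * d x)
      rw [hr]
      have hg : (d (T.act h x))⁻¹ * h * d x ∈ T.stab (rep x) := by
        refine ⟨H.mul_mem (H.mul_mem (H.inv_mem (hd _)) hh) (hd x), ?_⟩
        rw [mul_assoc, T.act_mul _ (H.inv_mem (hd _)) _ (H.mul_mem hh (hd x)),
          T.act_mul _ hh _ (hd x), hact, hinvd, hr]
      have h1 := hconj (rep x) (hrep x) _ hg _ (hmem x s hs)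
      rw [← h1]
      congr 1
      group) hed hni
  refine ⟨χ.toAdditiveLeft, fun v hv s hs => ?_⟩
  have h1 : χ.toAdditiveLeft (Additive.ofMul s) = Ψ (rep v) ((d v)⁻¹ * s * d v) :=
    congrArg Multiplicative.toAdd (hχ v s hs)
  have hr : rep v = v := hV _ (hrep v) _ hv (d v) (hd v) (hact v)
  have hdv : d v ∈ T.stab v := by
    refine ⟨hd v, ?_⟩
    have := hact v
    rwa [hr] at this
  rw [h1, hr]
  have h2 := hconj v hv (d v)⁻¹ ((T.stab v).inv_mem hdv) s hs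
  rw [inv_inv] at h2
  exact h2

theorem euler_le (hc : Ctx π) {D : Subgroup Γ} (hD : D ≤ π.ker) (hfg : D.FG) (T : MTree D)
    (hT : T.IsSplitting π.ker) (hni : T.NoInv) (sV : Finset T.X) (sE : Finset (T.X × T.X))
    (hV : ∀ v ∈ sV, ∀ w ∈ sV, ∀ d ∈ D, T.act d v = w → v = w)
    (hV' : ∀ x, ∃ v ∈ sV, ∃ d ∈ D, T.act d v = x) (hE0 : ∀ e ∈ sE, T.G.Adj e.1 e.2)
    (hE : ∀ e ∈ sE, ∀ e' ∈ sE, ∀ d ∈ D, ((T.act d e.1 = e'.1 ∧ T.act d e.2 = e'.2) ∨
      (T.act d e.1 = e'.2 ∧ T.act d e.2 = e'.1)) → e = e') :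
    ∑ v ∈ sV, rk (T.stab v) + sE.card + 1 ≤ rk D + sV.card := by
  classical
  have := T16a_fd hfg
  choose rep hrep d hd hact using hV'
  obtain ⟨X, hX, hXk⟩ := T16a_cross T hni sV sE rep d hrep hd hact hE0 hE
  -- restriction
  let res : ∀ v : sV, (Additive D →+ ℚ) →ₗ[ℚ] (Additive (T.stab v) →+ ℚ) := fun v =>
    { toFun := fun χ =>
        { toFun := fun g => χ (Additive.ofMul ⟨((Additive.toMul g : T.stab (v : T.X)) : Γ), (Additive.toMul g).2.1⟩)
          map_zero' := χ.map_zero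
          map_add' := fun a b => by rw [← χ.map_add]; rfl }
      map_add' := fun _ _ => rfl
      map_smul' := fun _ _ => rfl }
  have hres : ∀ (v : sV) χ (g : T.stab (v : T.X)), res v χ (Additive.ofMul g) =
      χ (Additive.ofMul ⟨(g : Γ), g.2.1⟩) := fun _ _ _ => rfl
  let R : (Additive D →+ ℚ) →ₗ[ℚ] (∀ v : sV, (Additive (T.stab v) →+ ℚ)) := LinearMap.pi res
  have hR : ∀ χ v, R χ v = res v χ := fun _ _ => rfl
  have hsurj : Function.Surjective R := by
    intro ψ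
    let Ψ : T.X → Γ → ℚ := fun v g =>
      if h : v ∈ sV ∧ g ∈ T.stab v then ψ ⟨v, h.1⟩ (Additive.ofMul ⟨g, h.2⟩) else 0
    have hΨ : ∀ v (hv : v ∈ sV) g (hg : g ∈ T.stab v), Ψ v g = ψ ⟨v, hv⟩ (Additive.ofMul ⟨g, hg⟩) :=
      fun v hv g hg => dif_pos ⟨hv, hg⟩
    have hΨ1 : ∀ v ∈ sV, Ψ v 1 = 0 := by
      intro v hv
      rw [hΨ v hv 1 (T.stab v).one_mem]
      exact (ψ ⟨v, hv⟩).map_zero
    obtain ⟨χ, hχ⟩ := T16a_ext T hni sV hV rep d hrep hd hact Ψ (by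
        intro v hv g hg g' hg'
        rw [hΨ v hv _ ((T.stab v).mul_mem hg hg'), hΨ v hv g hg, hΨ v hv g' hg', ← map_add]
        rfl) (by
        intro x y hxy s hs hs'
        have h1 : s = 1 := hT.free s ⟨hs.1, hD hs.1⟩ x y hxy hs.2 hs'.2
        rw [h1, mul_one, inv_mul_cancel, mul_one, inv_mul_cancel, hΨ1 _ (hrep _), hΨ1 _ (hrep _)])
    refine ⟨χ, ?_⟩
    funext v
    ext g
    rw [hR]
    have h1 := hχ v v.2 ⟨((Additive.toMul g : T.stab (v : T.X)) : Γ), (Additive.toMul g).2.1⟩ (Additive.toMul g).2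
    have h2 := hΨ v v.2 ((Additive.toMul g : T.stab (v : T.X)) : Γ) (Additive.toMul g).2
    exact h1.trans h2
  have hfin : Module.Finite ℚ (∀ v : sV, (Additive (T.stab v) →+ ℚ)) :=
    Module.Finite.of_surjective R hsurj
  have hfin' : ∀ v : sV, Module.Finite ℚ (Additive (T.stab v) →+ ℚ) := fun v =>
    Module.Finite.of_surjective (LinearMap.proj (R := ℚ)
      (φ := fun v : sV => (Additive (T.stab (v : T.X)) →+ ℚ)) v) (LinearMap.proj_surjective v)
  have h1 := LinearMap.finrank_range_add_finrank_ker R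
  rw [LinearMap.range_eq_top.2 hsurj, finrank_top, Module.finrank_pi_fintype] at h1
  have h2 := LinearMap.finrank_range_add_finrank_ker X
  rw [Module.finrank_fintype_fun_eq_card, Fintype.card_coe] at h2
  have h3 : LinearMap.range X ≤ LinearMap.ker R := by
    rintro _ ⟨c, rfl⟩
    rw [LinearMap.mem_ker]
    funext v
    ext g
    rw [hR]
    exact hX c v ⟨((Additive.toMul g : T.stab (v : T.X)) : Γ), (Additive.toMul g).2.1⟩ (Additive.toMul g).2
  have h4 := Submodule.finrank_mono h3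
  have h5 : ∑ v ∈ sV, rk (T.stab v) =
      ∑ v : sV, Module.finrank ℚ (Additive (T.stab (v : T.X)) →+ ℚ) :=
    (Finset.sum_coe_sort sV (fun v => rk (T.stab v))).symm
  have h6 : rk D = Module.finrank ℚ (Additive D →+ ℚ) := rfl
  omega

end Pool.Agent.Lib.MP_6567fb_al
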