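import Pool.Agent.Lib.MP_6567fb_al.T7c
import Pool.Agent.Lib.MP_6567fb_al.T16a
import Pool.Agent.Lib.MP_6567fb_al.T6

/-!
# MP_6567fb_al, module T7d

Ranks (rk D = dim Hom(D,Q)).
rk_sum: (1) restriction Hom(H,Q) to the sum of Hom(H_x,Q), x in s, is onto (retractions of T7a kill the other vertex
groups), so the sum of the ranks is at most rk H; (2) for s = {x} the kernel is not zero: if another orbit has a non-trivial
stabiliser use its retraction, otherwise take the crossing homomorphism of a path from p to g p of minimal length inside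
a geodesic from x to the nearest other vertex of its orbit.
-/

set_option autoImplicit false

open scoped Pointwise

namespace Pool.Agent.Lib.MP_6567fb_al

open MTree
open scoped Pointwise
variable {Γ G : Type} [Group Γ] [Group G] {π : Γ →* G}

/-! ### free bases of factors -/

theorem t7d_free (hc : Ctx π) {D : Subgroup Γ} (hD : D ≤ π.ker) : IsFreeGroup D := by
  obtain ⟨n, ⟨b⟩⟩ := hc.free
  have := b.isFreeGroup
  have : IsFreeGroup (D.subgroupOf π.ker) := inferInstance
  exact IsFreeGroup.ofMulEquiv (Subgroup.subgroupOfEquivOfLe hD)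

theorem t7d_finite {ι D : Type} [Group D] (b : FreeGroupBasis ι D) (hfg : Group.FG D) : Finite ι := by
  classical
  obtain ⟨S, hS, hfin⟩ := Group.fg_iff.1 hfg
  have : Finite S := hfin
  have h1 : Finite (D →* Multiplicative (ZMod 2)) := by
    refine Finite.of_injective (fun f => fun s : S => f s) ?_
    intro f g hfg
    refine MonoidHom.eq_of_eqOn_dense hS ?_
    intro s hs
    exact congrFun hfg ⟨s, hs⟩
  have h2 : Finite (ι → Multiplicative (ZMod 2)) := Finite.of_equiv _ b.lift.symm
  by_contra h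
  rw [not_finite_iff_infinite] at h
  have : Nontrivial (Multiplicative (ZMod 2)) := inferInstanceAs (Nontrivial (ZMod 2))
  have : Infinite (ι → Multiplicative (ZMod 2)) := Pi.infinite_of_left
  exact not_finite (ι → Multiplicative (ZMod 2))

theorem t7d_lift {ι D H : Type} [Group D] [Group H] (b : FreeGroupBasis ι D) (f : ι → H) (i : ι) :
    b.lift f (b i) = f i := by
  rw [FreeGroupBasis.lift_apply_apply, FreeGroupBasis.repr_apply_coe, FreeGroup.lift_apply_of]

/-- homomorphisms to `ℚ` are functions on a basis -/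
noncomputable def t7d_equiv {ι D : Type} [Group D] (b : FreeGroupBasis ι D) :
    (Additive D →+ ℚ) ≃ₗ[ℚ] (ι → ℚ) :=
  LinearEquiv.ofBijective
    { toFun := fun f i => f (Additive.ofMul (b i))
      map_add' := fun f g => rfl
      map_smul' := fun c f => rfl }
    (by
      constructor
      · intro f g hfg
        have h1 : AddMonoidHom.toMultiplicativeRight f = AddMonoidHom.toMultiplicativeRight g := by
          refine b.ext_hom _ _ ?_
          intro i
          exact congrFun hfg i
        exact AddMonoidHom.toMultiplicativeRight.injective h1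
      · intro f
        refine ⟨MonoidHom.toAdditiveLeft (b.lift (fun i => Multiplicative.ofAdd (f i))), ?_⟩
        funext i
        change Multiplicative.toAdd (b.lift (fun i => Multiplicative.ofAdd (f i)) (b i)) = f i
        rw [t7d_lift]
        rfl)

theorem t7d_rk {D : Subgroup Γ} {ι : Type} [Finite ι] (b : FreeGroupBasis ι D) : rk D = Nat.card ι := by
  have := Fintype.ofFinite ι
  unfold rk
  rw [(t7d_equiv b).finrank_eq, Module.finrank_fintype_fun_eq_card, Nat.card_eq_fintype_card]

/-- a finite basis of a factor -/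
theorem t7d_basis (hc : Ctx π) {D : Subgroup Γ} (hD : IsFactor π.ker π.ker D) :
    ∃ (ι : Type) (_ : Finite ι) (_ : FreeGroupBasis ι D), True := by
  have := t7d_free hc (fac_le hD)
  have hfg := fac_fg hc hD
  rw [← Group.fg_iff_subgroup_fg] at hfg
  exact ⟨_, t7d_finite (IsFreeGroup.basis D) hfg, IsFreeGroup.basis D, trivial⟩

theorem t7d_nonempty {ι : Type} {D : Subgroup Γ} (b : FreeGroupBasis ι D) (hne : D ≠ ⊥) : Nonempty ι := by
  by_contra h
  rw [not_nonempty_iff] at h
  apply hne
  rw [Subgroup.eq_bot_iff_forall]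
  intro x hx
  have : (⟨x, hx⟩ : D) = 1 := by
    apply b.repr.injective
    exact Subsingleton.elim _ _
  exact congrArg Subtype.val this

theorem rk_pos (hc : Ctx π) {D : Subgroup Γ} (hD : IsFactor π.ker π.ker D) (hne : D ≠ ⊥) : 0 < rk D := by
  obtain ⟨ι, hι, b, -⟩ := t7d_basis hc hD
  rw [t7d_rk b]
  have := t7d_nonempty b hne
  exact Nat.card_pos

theorem t7d_rk_equiv {D E : Subgroup Γ} (e : D ≃* E) : rk D = rk E := by
  unfold rk
  refine LinearEquiv.finrank_eq
    { toFun := fun f => f.comp (MulEquiv.toAdditive e.symm).toAddMonoidHom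
      map_add' := fun f g => rfl
      map_smul' := fun c f => rfl
      invFun := fun f => f.comp (MulEquiv.toAdditive e).toAddMonoidHom
      left_inv := ?_
      right_inv := ?_ }
  · intro f
    ext x
    simp
  · intro f
    ext x
    simp

theorem rk_conj (D : Subgroup Γ) (γ : Γ) : rk (MulAut.conj γ • D) = rk D :=
  (t7d_rk_equiv (Subgroup.equivSMul (MulAut.conj γ) D)).symm

/-- rank one = infinite cyclic -/
theorem rk_one (hc : Ctx π) {D : Subgroup Γ} (hD : IsFactor π.ker π.ker D) :
    rk D = 1 ↔ ∃ y, y ≠ 1 ∧ D = Subgroup.zpowers y := by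
  classical
  obtain ⟨ι, hι, b, -⟩ := t7d_basis hc hD
  rw [t7d_rk b]
  constructor
  · intro h1
    obtain ⟨i, hi⟩ := (Nat.card_eq_one_iff_exists).1 h1
    refine ⟨(b i : Γ), ?_, ?_⟩
    · intro h2
      have h3 : b i = 1 := Subtype.ext h2
      have h4 := congrArg b.repr h3
      rw [b.repr_apply_coe, map_one] at h4
      exact FreeGroup.of_ne_one i h4
    · apply le_antisymm
      · intro x hx
        have h5 : b.repr ⟨x, hx⟩ ∈ Subgroup.zpowers (FreeGroup.of i) := by
          have h6 : (⊤ : Subgroup (FreeGroup ι)) = Subgroup.zpowers (FreeGroup.of i) := by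
            rw [← FreeGroup.closure_range_of, Subgroup.zpowers_eq_closure]
            congr 1
            ext y
            constructor
            · rintro ⟨j, rfl⟩
              rw [hi j]
              rfl
            · rintro rfl
              exact ⟨i, rfl⟩
          rw [← h6]
          trivial
        obtain ⟨n, hn⟩ := Subgroup.mem_zpowers_iff.1 h5
        refine Subgroup.mem_zpowers_iff.2 ⟨n, ?_⟩
        have h7 : b i ^ n = ⟨x, hx⟩ := by
          apply b.repr.injective
          rw [map_zpow, b.repr_apply_coe, hn]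
        have h8 := congrArg Subtype.val h7
        simpa using h8
      · rw [Subgroup.zpowers_le]
        exact (b i).2
  · rintro ⟨y, hy, hDy⟩
    have hne : D ≠ ⊥ := by
      rw [hDy]
      intro h
      exact hy (Subgroup.zpowers_eq_bot.1 h)
    have := t7d_nonempty b hne
    have hsub : Subsingleton ι := by
      constructor
      intro i j
      by_contra hij
      have hcomm : b i * b j = b j * b i := by
        have h1 : ((b i : D) : Γ) ∈ Subgroup.zpowers y := hDy ▸ (b i).2
        have h2 : ((b j : D) : Γ) ∈ Subgroup.zpowers y := hDy ▸ (b j).2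
        obtain ⟨n, hn⟩ := Subgroup.mem_zpowers_iff.1 h1
        obtain ⟨m, hm⟩ := Subgroup.mem_zpowers_iff.1 h2
        apply Subtype.ext
        change ((b i : D) : Γ) * ((b j : D) : Γ) = ((b j : D) : Γ) * ((b i : D) : Γ)
        rw [← hn, ← hm, ← zpow_add, ← zpow_add, add_comm]
      have h3 := congrArg (b.lift (fun k => if k = i then Equiv.swap (0 : Fin 3) 1 else Equiv.swap 1 2)) hcomm
      rw [map_mul, map_mul, t7d_lift, t7d_lift, if_pos rfl, if_neg (Ne.symm hij)] at h3
      revert h3
      decide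
    rw [Nat.card_eq_one_iff_unique]
    exact ⟨hsub, inferInstance⟩

/-! ### restriction to vertex groups -/

section
variable {H : Subgroup Γ}

/-- restriction of homomorphisms to a vertex group -/
def t7d_res (T : MTree H) (x : T.X) : (Additive H →+ ℚ) →ₗ[ℚ] (Additive (T.stab x) →+ ℚ) where
  toFun := fun f => f.comp (MonoidHom.toAdditive (Subgroup.inclusion (fun _ h => h.1 : T.stab x ≤ H)))
  map_add' := fun _ _ => rfl
  map_smul' := fun _ _ => rfl

theorem t7d_res_apply (T : MTree H) (x : T.X) (f : Additive H →+ ℚ) (h : T.stab x) :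
    t7d_res T x f (Additive.ofMul h) = f (Additive.ofMul ⟨(h : Γ), h.2.1⟩) := rfl

/-- the retraction as a map to the vertex group -/
theorem t7d_retract (hc : Ctx π) (hH : H ≤ π.ker) (T : MTree H) (hT : T.IsSplitting π.ker) (x : T.X) :
    ∃ r : H →* T.stab x, (∀ h : T.stab x, r ⟨(h : Γ), h.2.1⟩ = h) ∧
      ∀ y, (∀ h ∈ H, T.act h x ≠ y) → ∀ h : T.stab y, r ⟨(h : Γ), h.2.1⟩ = 1 := by
  obtain ⟨r, h1, h2, h3⟩ := retract_vertex T (hT.noInv hc)
    (fun h hh a b hab ha hb => hT.free h ⟨hh, hH hh⟩ a b hab ha hb) x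
  refine ⟨MonoidHom.mk' (fun h => ⟨((r h : H) : Γ), h1 h⟩) ?_, ?_, ?_⟩
  · intro a b
    apply Subtype.ext
    change (((r (a * b) : H)) : Γ) = ((r a : H) : Γ) * ((r b : H) : Γ)
    rw [map_mul]
    rfl
  · intro h
    apply Subtype.ext
    change ((r ⟨(h : Γ), h.2.1⟩ : H) : Γ) = h
    rw [h2 ⟨(h : Γ), h.2.1⟩ h.2]
  · intro y hy h
    apply Subtype.ext
    change ((r ⟨(h : Γ), h.2.1⟩ : H) : Γ) = 1
    rw [h3 y hy ⟨(h : Γ), h.2.1⟩ h.2]
    rfl

theorem t7d_findim (hc : Ctx π) (hH : IsFactor π.ker π.ker H) : Module.Finite ℚ (Additive H →+ ℚ) := by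
  obtain ⟨ι, hι, b, -⟩ := t7d_basis hc hH
  exact Module.Finite.equiv (t7d_equiv b).symm

/-- (1) the sum of the ranks -/
theorem t7d_sum_le (hc : Ctx π) (hH : IsFactor π.ker π.ker H) (T : MTree H) (hT : T.IsSplitting π.ker)
    (s : Finset T.X) (hs' : ∀ x ∈ s, ∀ y ∈ s, ∀ h ∈ H, T.act h x = y → x = y) :
    ∑ x ∈ s, rk (T.stab x) ≤ rk H := by
  classical
  have hfin := t7d_findim hc hH
  choose r hr1 hr2 using fun x => t7d_retract hc (fac_le hH) T hT x
  let Φ : (Additive H →+ ℚ) →ₗ[ℚ] ((x : s) → (Additive (T.stab (x : T.X)) →+ ℚ)) :=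
    LinearMap.pi (fun x => t7d_res T (x : T.X))
  have hsurj : Function.Surjective Φ := by
    intro ψ
    refine ⟨∑ x : s, (ψ x).comp (MonoidHom.toAdditive (r (x : T.X))), ?_⟩
    funext y
    apply AddMonoidHom.ext
    intro h
    change (∑ x : s, (ψ x).comp (MonoidHom.toAdditive (r (x : T.X))))
      (Additive.ofMul ⟨((Additive.toMul h : T.stab (y : T.X)) : Γ), (Additive.toMul h).2.1⟩) = ψ y h
    rw [AddMonoidHom.finsetSum_apply, Finset.sum_eq_single y]
    · change ψ y (Additive.ofMul (r (y : T.X) ⟨((Additive.toMul h : T.stab (y : T.X)) : Γ),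
        (Additive.toMul h).2.1⟩)) = ψ y h
      rw [hr1]
      rfl
    · intro x _ hxy
      change ψ x (Additive.ofMul (r (x : T.X) ⟨((Additive.toMul h : T.stab (y : T.X)) : Γ),
        (Additive.toMul h).2.1⟩)) = 0
      rw [hr2 (x : T.X) (y : T.X) (fun g hg hgx => hxy (Subtype.ext (hs' x x.2 y y.2 g hg hgx)))]
      exact map_zero _
    · intro h0
      exact absurd (Finset.mem_univ y) h0
  have hfin2 : ∀ x : s, Module.Finite ℚ (Additive (T.stab (x : T.X)) →+ ℚ) := by
    intro x
    refine Module.Finite.of_surjective (t7d_res T (x : T.X)) ?_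
    intro f
    obtain ⟨g, hg⟩ := hsurj (Pi.single x f)
    refine ⟨g, ?_⟩
    have := congrFun hg x
    rw [Pi.single_eq_same] at this
    exact this
  have h1 : Module.finrank ℚ ((x : s) → (Additive (T.stab (x : T.X)) →+ ℚ)) ≤
      Module.finrank ℚ (Additive H →+ ℚ) := by
    rw [← LinearMap.finrank_range_add_finrank_ker Φ, LinearMap.range_eq_top.2 hsurj, finrank_top]
    omega
  rw [Module.finrank_pi_fintype] at h1
  unfold rk
  rw [← Finset.sum_coe_sort s (fun x => Module.finrank ℚ (Additive (T.stab x) →+ ℚ))]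
  exact h1

/-- a non-trivial homomorphism vanishing on a vertex group gives a strict inequality -/
theorem t7d_lt_of_hom (hc : Ctx π) (hH : IsFactor π.ker π.ker H) (T : MTree H) (hT : T.IsSplitting π.ker)
    (x : T.X) (f : H →* Multiplicative ℚ) (h0 : H) (hf : f h0 ≠ 1)
    (hx : ∀ h : T.stab x, f ⟨(h : Γ), h.2.1⟩ = 1) : rk (T.stab x) < rk H := by
  have hfin := t7d_findim hc hH
  obtain ⟨r, hr1, hr2⟩ := t7d_retract hc (fac_le hH) T hT x
  have hsurj : Function.Surjective (t7d_res T x) := by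
    intro ψ
    refine ⟨ψ.comp (MonoidHom.toAdditive r), ?_⟩
    apply AddMonoidHom.ext
    intro h
    change ψ (Additive.ofMul (r ⟨((Additive.toMul h : T.stab x) : Γ), (Additive.toMul h).2.1⟩)) = ψ h
    rw [hr1]
    rfl
  have hker : (LinearMap.ker (t7d_res T x)) ≠ ⊥ := by
    intro hbot
    have hmem : MonoidHom.toAdditiveLeft f ∈ LinearMap.ker (t7d_res T x) := by
      rw [LinearMap.mem_ker]
      apply AddMonoidHom.ext
      intro h
      exact congrArg Multiplicative.toAdd (hx (Additive.toMul h))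
    rw [hbot, Submodule.mem_bot] at hmem
    apply hf
    have := congrArg (fun g : Additive H →+ ℚ => g (Additive.ofMul h0)) hmem
    exact congrArg Multiplicative.ofAdd this
  have h1 := LinearMap.finrank_range_add_finrank_ker (t7d_res T x)
  rw [LinearMap.range_eq_top.2 hsurj, finrank_top] at h1
  have h2 : 0 < Module.finrank ℚ (LinearMap.ker (t7d_res T x)) := by
    rw [Module.finrank_pos_iff, Submodule.nontrivial_iff_ne_bot]
    exact hker
  unfold rk
  omega

end

/-- a vertex group is a factor of `F` -/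
theorem t7d_vfac (hc : Ctx π) {H : Subgroup Γ} (hH : IsFactor π.ker π.ker H) (T : MTree H)
    (hT : T.IsSplitting π.ker) (x : T.X) : IsFactor π.ker π.ker (T.stab x) := by
  refine fac_trans hc le_rfl hH (Or.inr ⟨T, hT, x, ?_⟩)
  exact inf_eq_left.2 (fun h hh => fac_le hH hh.1)

/-- (2) one vertex group has smaller rank -/
theorem t7d_strict (hc : Ctx π) {H : Subgroup Γ} (hH : IsFactor π.ker π.ker H) (T : MTree H)
    (hT : T.IsSplitting π.ker) (hn : T.Nontriv π.ker) (x : T.X) : rk (T.stab x) < rk H := by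
  classical
  have hni := hT.noInv hc
  by_cases hy : ∃ y, T.stab y ≠ ⊥ ∧ ∀ h ∈ H, T.act h x ≠ y
  · obtain ⟨y, hy1, hy2⟩ := hy
    obtain ⟨r, hr1, hr2⟩ := t7d_retract hc (fac_le hH) T hT y
    obtain ⟨ι, hι, b, -⟩ := t7d_basis hc (t7d_vfac hc hH T hT y)
    obtain ⟨i⟩ := t7d_nonempty b hy1
    refine t7d_lt_of_hom hc hH T hT x ((b.lift (fun _ => Multiplicative.ofAdd (1 : ℚ))).comp r)
      ⟨(b i : Γ), (b i).2.1⟩ ?_ ?_
    · rw [MonoidHom.comp_apply, hr1, t7d_lift]
      intro h
      exact one_ne_zero (congrArg Multiplicative.toAdd h)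
    · intro h
      rw [MonoidHom.comp_apply, hr2 x ?_ h, map_one]
      intro g hg hgy
      apply hy2 g⁻¹ (H.inv_mem hg)
      rw [← hgy]
      exact T.act_inv_act hg y
  · push Not at hy
    -- the nearest translate
    have hex : ∃ n : ℕ, ∃ h ∈ H, T.act h x ≠ x ∧ T.G.dist x (T.act h x) = n := by
      obtain ⟨h, hh, hhx⟩ := hn x
      exact ⟨_, h, hh.1, hhx, rfl⟩
    obtain ⟨h₁, hh₁, hne₁, hd₁⟩ := Nat.find_spec hex
    have hmin₁ : ∀ h ∈ H, T.act h x ≠ x → Nat.find hex ≤ T.G.dist x (T.act h x) := by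
      intro h hh hhx
      exact Nat.find_min' hex ⟨h, hh, hhx, rfl⟩
    generalize hN : Nat.find hex = N at *
    have hNpos : 0 < N := by
      rw [← hd₁]
      exact (T.tree.connected.pos_dist_of_ne (Ne.symm hne₁))
    -- the geodesic
    have hpt : ∀ k : ℕ, ∃ y, k ≤ N → T.Btw x y (T.act h₁ x) ∧ T.G.dist x y = k := by
      intro k
      by_cases hk : k ≤ N
      · obtain ⟨y, hy, -⟩ := TG.btw_point T.tree (x := x) (z := T.act h₁ x) (k := k) (by rw [hd₁]; exact hk)
        exact ⟨y, fun _ => hy⟩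
      · exact ⟨x, fun h => absurd h hk⟩
    choose p hp using hpt
    have hp0 : p 0 = x := by
      have := (hp 0 (Nat.zero_le _)).2
      exact ((T.tree.connected.dist_eq_zero_iff).1 this).symm
    have hpd : ∀ i j : ℕ, i ≤ j → j ≤ N → T.G.dist (p i) (p j) = j - i := by
      intro i j hij hj
      have h1 := hp i (hij.trans hj)
      have h2 := hp j hj
      have h3 := (TG.btw_linear T.tree h1.1 h2.1 (by rw [h1.2, h2.2]; exact hij)).1
      unfold TG.Btw at h3
      rw [h1.2, h2.2] at h3
      omega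
    have hpN : p N = T.act h₁ x := by
      have h1 := hp N le_rfl
      have h2 : T.G.dist x (p N) + T.G.dist (p N) (T.act h₁ x) = T.G.dist x (T.act h₁ x) := h1.1
      rw [h1.2, hd₁] at h2
      exact (T.tree.connected.dist_eq_zero_iff).1 (by omega)
    have hint : ∀ i, 0 < i → i < N → T.stab (p i) = ⊥ := by
      intro i hi0 hiN
      by_contra hne
      obtain ⟨h, hh, hhx⟩ := hy (p i) hne
      have h1 := (hp i hiN.le).2
      have h2 : T.act h x ≠ x := by
        rw [hhx]
        intro h3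
        rw [h3] at h1
        simp at h1
        omega
      have h4 := hmin₁ h hh h2
      rw [hhx, h1] at h4
      omega
    -- a shortest return
    have hex2 : ∃ k : ℕ, 0 < k ∧ ∃ i, i + k ≤ N ∧ ∃ g ∈ H, T.act g (p i) = p (i + k) :=
      ⟨N, hNpos, 0, by omega, h₁, hh₁, by rw [hp0, Nat.zero_add, hpN]⟩
    obtain ⟨hk0, i, hik, g, hg, hgp⟩ := Nat.find_spec hex2
    have hmin₂ : ∀ k, 0 < k → ∀ j, j + k ≤ N → ∀ g' ∈ H, T.act g' (p j) = p (j + k) → Nat.find hex2 ≤ k := by
      intro k hk j hj g' hg' hg''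
      exact Nat.find_min' hex2 ⟨hk, j, hj, g', hg', hg''⟩
    generalize hK : Nat.find hex2 = K at *
    have hadj : T.G.Adj (p i) (p (i + 1)) := by
      rw [← SimpleGraph.dist_eq_one_iff_adj, hpd i (i + 1) (by omega) (by omega)]
      omega
    obtain ⟨χ, hχ1, hχ2⟩ := crossing_hom T hni hadj
    have hbt : ∀ t, t ≤ K → T.Btw (p i) (p (i + t)) (p (i + K)) := by
      intro t ht
      change T.G.dist _ _ + T.G.dist _ _ = T.G.dist _ _
      rw [hpd i (i + t) (by omega) (by omega), hpd (i + t) (i + K) (by omega) (by omega),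
        hpd i (i + K) (by omega) (by omega)]
      omega
    have hpos : ∀ y, T.Btw (p i) y (p (i + K)) → T.G.dist (p i) y ≤ K ∧ y = p (i + T.G.dist (p i) y) := by
      intro y hy'
      have h1 : T.G.dist (p i) y + T.G.dist y (p (i + K)) = T.G.dist (p i) (p (i + K)) := hy'
      have h2 := hpd i (i + K) (by omega) (by omega)
      have h3 : T.G.dist (p i) y ≤ K := by omega
      refine ⟨h3, ?_⟩
      obtain ⟨z, -, hz⟩ := TG.btw_point T.tree (x := p i) (z := p (i + K)) (k := T.G.dist (p i) y) (by omega)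
      have e1 := hz y ⟨hy', rfl⟩
      have e2 := hz (p (i + T.G.dist (p i) y))
        ⟨hbt _ h3, by rw [hpd i _ (by omega) (by omega)]; omega⟩
      exact e1.trans e2.symm
    have hχg : χ ⟨g, hg⟩ = Multiplicative.ofAdd 1 ∨ χ ⟨g, hg⟩ = Multiplicative.ofAdd (-1) := by
      refine hχ2 (p i) ⟨g, hg⟩ ?_
      rw [hgp]
      refine ⟨(p i, p (i + 1)), ⟨hadj, ?_, hbt 1 (by omega), ?_, 1, H.one_mem, Or.inl ⟨T.act_one _, T.act_one _⟩⟩, ?_⟩
      · have := hbt 0 (by omega)
        rwa [Nat.add_zero] at this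
      · change T.G.dist (p i) (p i) < T.G.dist (p i) (p (i + 1))
        rw [hpd i (i + 1) (by omega) (by omega), SimpleGraph.dist_self]
        omega
      · rintro ⟨e1, e2⟩ ⟨he, hb1, hb2, hlt, k, hk, hor⟩
        dsimp only at he hb1 hb2 hlt hor
        obtain ⟨ht1, he1⟩ := hpos e1 hb1
        obtain ⟨ht2, he2⟩ := hpos e2 hb2
        have hd : T.G.dist (p i) e2 = T.G.dist (p i) e1 + 1 := by
          have := TG.adj_dist T.tree he (p i)
          rw [SimpleGraph.dist_comm (u := e1), SimpleGraph.dist_comm (u := e2)] at this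
          omega
        rw [hd] at he2 ht2
        generalize ht : T.G.dist (p i) e1 = t at *
        rcases hor with ⟨hk1, hk2⟩ | ⟨hk1, hk2⟩
        · by_cases ht0 : t = 0
          · subst ht0
            rw [he1, he2, Nat.add_zero]
          · exfalso
            have := hmin₂ t (by omega) i (by omega) k hk (by rw [hk1, ← he1])
            omega
        · exfalso
          have h1 := hmin₂ (t + 1) (by omega) i (by omega) k hk (by rw [hk1, he2])
          rcases Nat.lt_trichotomy t 1 with h2 | h2 | h2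
          · have ht0 : t = 0 := by omega
            subst ht0
            refine hni k hk (p i) (p (i + 1)) hadj ⟨?_, ?_⟩
            · rw [hk1, he2]
            · rw [hk2, he1, Nat.add_zero]
          · subst h2
            have h3 : k ∈ T.stab (p (i + 1)) := ⟨hk, by rw [hk2, he1]⟩
            rw [hint (i + 1) (by omega) (by omega), Subgroup.mem_bot] at h3
            rw [h3, T.act_one, he2] at hk1
            have h4 := hpd i (i + 2) (by omega) (by omega)
            rw [← hk1] at h4
            simp at h4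
          · have h3 := hmin₂ (t - 1) (by omega) (i + 1) (by omega) k hk
              (by rw [hk2, he1]; congr 1; omega)
            omega
    refine t7d_lt_of_hom hc hH T hT x ((AddMonoidHom.toMultiplicative (Int.castAddHom ℚ)).comp χ) ⟨g, hg⟩ ?_ ?_
    · intro h
      have h1 : ((Multiplicative.toAdd (χ ⟨g, hg⟩) : ℤ) : ℚ) = 0 := congrArg Multiplicative.toAdd h
      rcases hχg with h2 | h2
      · rw [h2] at h1
        norm_num at h1
      · rw [h2] at h1
        norm_num at h1
    · intro h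
      rw [MonoidHom.comp_apply, hχ1 x ⟨(h : Γ), h.2.1⟩ h.2, map_one]

theorem rk_lt (hc : Ctx π) {D E : Subgroup Γ} (hD : IsFactor π.ker π.ker D) (hE : IsFactor π.ker π.ker E)
    (h : E < D) : rk E < rk D := by
  by_cases hE0 : E = ⊥
  · have h1 : rk E = 0 := by
      unfold rk
      rw [hE0]
      have : Subsingleton (Additive (⊥ : Subgroup Γ) →+ ℚ) := by
        constructor
        intro f g
        apply AddMonoidHom.ext
        intro x
        have hx : x = 0 := Subsingleton.elim (α := (⊥ : Subgroup Γ)) _ _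
        rw [hx, map_zero, map_zero]
      exact Module.finrank_zero_of_subsingleton
    rw [h1]
    refine rk_pos hc hD ?_
    rintro rfl
    exact not_lt_bot h
  have hf := fac_inter hc (Or.inl rfl) hD hE
  rw [inf_eq_right.2 h.le] at hf
  rcases hf with hf | ⟨T, hT, x, hx⟩
  · exact absurd hf h.ne
  have hst : T.stab x = E := by
    rw [← hx]
    exact (inf_eq_left.2 (fun g hg => fac_le hD hg.1)).symm
  rw [← hst]
  refine t7d_strict hc hD T hT ?_ x
  intro z
  by_contra hz
  push Not at hz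
  obtain ⟨⟨e, heE⟩, he⟩ := (Subgroup.ne_bot_iff_exists_ne_one).1 hE0
  have he1 : e ≠ 1 := fun h' => he (Subtype.ext h')
  have hex : e ∈ T.stab x := by rw [hst]; exact heE
  have heD : e ∈ D ⊓ π.ker := ⟨hex.1, fac_le hD hex.1⟩
  have hzx : z = x := hT.fixed_unique heD he1 (hz e heD) hex.2
  have hle : D ≤ E := by
    intro d hd
    rw [← hst]
    exact ⟨hd, by rw [← hzx]; exact hz d ⟨hd, fac_le hD hd⟩⟩
  exact absurd (le_antisymm h.le hle) h.ne

theorem rk_le (hc : Ctx π) {D E : Subgroup Γ} (hD : IsFactor π.ker π.ker D) (hE : IsFactor π.ker π.ker E)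
    (h : E ≤ D) : rk E ≤ rk D := by
  rcases h.eq_or_lt with h1 | h1
  · rw [h1]
  · exact (rk_lt hc hD hE h1).le

/-- rank sum: vertices in different orbits with non-trivial stabilisers -/
theorem rk_sum (hc : Ctx π) {H : Subgroup Γ} (hH : IsFactor π.ker π.ker H) (T : MTree H)
    (hT : T.IsSplitting π.ker) (hn : T.Nontriv π.ker) (s : Finset T.X)
    (hs : ∀ x ∈ s, T.stab x ≠ ⊥) (hs' : ∀ x ∈ s, ∀ y ∈ s, ∀ h ∈ H, T.act h x = y → x = y) :
    ∑ x ∈ s, (2 * (rk (T.stab x) : ℤ) - 1) < 2 * rk H - 1 := by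
  have h1 := t7d_sum_le hc hH T hT s hs'
  have h2 : ∑ x ∈ s, (2 * (rk (T.stab x) : ℤ) - 1) = 2 * ((∑ x ∈ s, rk (T.stab x) : ℕ) : ℤ) - s.card := by
    rw [Finset.sum_sub_distrib, ← Finset.mul_sum]
    push_cast
    simp
  rw [h2]
  rcases Nat.lt_trichotomy s.card 1 with h3 | h3 | h3
  · have h4 : s = ∅ := by
      rw [← Finset.card_eq_zero]
      omega
    subst h4
    have hpos : 0 < rk H := by
      refine rk_pos hc hH ?_
      rintro rfl
      obtain ⟨x⟩ := T.tree.connected.nonempty
      obtain ⟨h, hh, hhx⟩ := hn x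
      rw [Subgroup.mem_bot.1 hh.1, T.act_one] at hhx
      exact hhx rfl
    simp
    omega
  · obtain ⟨x, rfl⟩ := Finset.card_eq_one.1 h3
    have h4 := t7d_strict hc hH T hT hn x
    simp
    omega
  · omega

/-- an `M`-invariant set of vertex groups: `M` fixes the conjugacy classes -/
theorem class_fixed (hc : Ctx π) {M : Subgroup Γ} (hM : Loc π M) (T : MTree (M ⊓ π.ker))
    (hT : T.IsSplitting π.ker) (hinv : ∀ m ∈ M, ∀ B ∈ T.vgs π.ker, MulAut.conj m • B ∈ T.vgs π.ker)
    {m : Γ} {B : Subgroup Γ} (hm : m ∈ M) (hB : B ∈ T.vgs π.ker) :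
    ∃ h ∈ M ⊓ π.ker, MulAut.conj m • B = MulAut.conj h • B := by
  obtain ⟨hne, y, hy⟩ := hinv m hm B hB
  obtain ⟨hBne, x, hx⟩ := hB
  have hst : ∀ z, T.stab z ⊓ π.ker = T.stab z := fun z => inf_eq_left.2 (fun g hg => hg.1.2)
  rw [hst] at hx hy
  by_cases hor : ∃ h ∈ M ⊓ π.ker, T.act h x = y
  · obtain ⟨h, hh, hhx⟩ := hor
    refine ⟨h, hh, ?_⟩
    rw [← hy, ← hhx, T.stab_act hh, hx]
  · exfalso
    push Not at hor
    obtain ⟨r, hr1, hr2⟩ := t7d_retract hc inf_le_right T hT x
    obtain ⟨q, hq1, hq2⟩ := fac_retract hc hM.fac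
    have hBne' : T.stab x ≠ ⊥ := by rw [hx]; exact hBne
    obtain ⟨ι, hι, b, -⟩ := t7d_basis hc (t7d_vfac hc hM.fac T hT x)
    obtain ⟨i⟩ := t7d_nonempty b hBne'
    let q' : π.ker →* (M ⊓ π.ker : Subgroup Γ) := MonoidHom.mk' (fun h => ⟨((q h : π.ker) : Γ), hq1 h⟩) (by
      intro a b
      apply Subtype.ext
      change (((q (a * b) : π.ker)) : Γ) = ((q a : π.ker) : Γ) * ((q b : π.ker) : Γ)
      rw [map_mul]
      rfl)
    let χ : π.ker →* Multiplicative (ZMod 3) :=
      (b.lift (fun _ => Multiplicative.ofAdd (1 : ZMod 3))).comp (r.comp q')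
    have hq' : ∀ h : π.ker, ∀ hh : (h : Γ) ∈ M ⊓ π.ker, q' h = ⟨(h : Γ), hh⟩ := by
      intro h hh
      apply Subtype.ext
      change ((q h : π.ker) : Γ) = h
      rw [hq2 h hh]
    let bi : π.ker := ⟨(b i : Γ), (b i).2.1.2⟩
    have h1 : χ bi = Multiplicative.ofAdd 1 := by
      change b.lift (fun _ => Multiplicative.ofAdd (1 : ZMod 3)) (r (q' bi)) = _
      rw [hq' bi (b i).2.1, hr1 (b i), t7d_lift]
    have h2 := hc.mod3 χ m bi
    have h3 : (m * (b i : Γ) * m⁻¹) ∈ T.stab y := by
      rw [hy, Subgroup.mem_smul_pointwise_iff_exists]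
      exact ⟨(b i : Γ), by rw [← hx]; exact (b i).2, rfl⟩
    have h4 : χ (MulAut.conjNormal m bi) = 1 := by
      change b.lift (fun _ => Multiplicative.ofAdd (1 : ZMod 3)) (r (q' (MulAut.conjNormal m bi))) = _
      have h5 : ((MulAut.conjNormal m bi : π.ker) : Γ) = m * (b i : Γ) * m⁻¹ := MulAut.conjNormal_apply _ _
      have h6 : ((MulAut.conjNormal m bi : π.ker) : Γ) ∈ M ⊓ π.ker := by
        rw [h5]
        exact h3.1
      rw [hq' _ h6]
      have h7 : (⟨((MulAut.conjNormal m bi : π.ker) : Γ), h6⟩ : (M ⊓ π.ker : Subgroup Γ)) =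
          ⟨m * (b i : Γ) * m⁻¹, h3.1⟩ := Subtype.ext h5
      rw [h7, hr2 y hor ⟨_, h3⟩, map_one]
    rw [h4, h1] at h2
    exact absurd h2 (by decide)

end Pool.Agent.Lib.MP_6567fb_al
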