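import Pool.Agent.Lib.MP_6567fb_al.F0
import Pool.Agent.Lib.MP_6567fb_al.T8
import Pool.Agent.Lib.MP_6567fb_al.T14e
import Pool.Agent.Lib.MP_6567fb_al.T6
import Pool.Agent.Lib.MP_6567fb_al.T7d

/-!
# MP_6567fb_al, module F2e

(4) of F2.2.  n := rk H.  N oriented orbits: pigeonhole on (n+1)-tuples: if m0 ≥ N^(n+1) + n there are m < m' = m + r ≤ m0 - n with f_{m'+j} ∈ D f_{m+j}, j = 0..n, where f_m := (L(i0+ml), L(i0+ml+1)) =
P^m f_0.  P_f := lift of π P fixing f_0, y0 := P^r P_f^-r ∈ H, y0 f_0 = f_r, y0 ≠ 1; the unique element of H mapping f_{m+j} to f_{m+j+r} is P^{m+j} y0 P^{-(m+j)}, so it is in D.  E_j := smallest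
Ω-factor containing P^{m+i} y0 P^{-(m+i)}, i ≤ j (ofac_smallest): E_0 ≤ ... ≤ E_n ≤ D, ranks in 1..n: E_j = E_{j+1} for some j < n (fac_eq_of_rk).  conj P • E_j ≤ E_{j+1} = E_j (ofac_conj,
minimality), equality by rk_conj: E_j is P-invariant, so D1 ≤ E_j ≤ D.
-/

set_option autoImplicit false

open scoped Pointwise
open Filter

namespace Pool.Agent.Lib.MP_6567fb_al

open MTree
variable {Γ G : Type} [Group Γ] [Group G] {π : Γ →* G}

theorem line_adj_f2e {M : Subgroup Γ} {T : MTree M} {L : ℤ → T.X} (hL : T.IsLine L) (i : ℤ) :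
    T.G.Adj (L i) (L (i + 1)) := by
  rw [← SimpleGraph.dist_eq_one_iff_adj, hL i (i + 1)]
  simp

theorem axis_pow_f2e {M : Subgroup Γ} {T : MTree M} {P : Γ} (hP : P ∈ M) {l : ℕ} {L : ℤ → T.X}
    (hL : T.IsAxis P l L) (k : ℕ) (i : ℤ) : T.act (P ^ k) (L i) = L (i + k * l) := by
  induction k generalizing i with
  | zero =>
    rw [pow_zero, T.act_one]
    simp
  | succ k ih =>
    rw [pow_succ, T.act_mul _ (M.pow_mem hP k) _ hP, hL.2.2, ih]
    congr 1
    push_cast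
    ring

theorem periph_restr_f2e {M : Subgroup Γ} {Ω : Set (Subgroup Γ)} (h : IsProper π.ker M Ω) :
    IsPeriph π.ker (M ⊓ π.ker) Ω where
  inv := fun m hm B hB => h.inv m hm.1 B hB
  tree := by
    obtain ⟨T, hT, _, hv⟩ := h.tree
    have h1 : (M ⊓ π.ker) ⊓ π.ker ≤ M ⊓ π.ker := inf_le_left
    have h2 : ((M ⊓ π.ker) ⊓ π.ker) ⊓ π.ker = (M ⊓ π.ker) ⊓ π.ker := by
      rw [inf_assoc, inf_idem]
    exact ⟨T.res h1, IsSplitting.res hT h1 h2, by rw [res_vgs T h1 h2, hv]⟩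

theorem supp_le_of_few (hc : Ctx π) {M : Subgroup Γ} (hM : Full π M) {Ω : Set (Subgroup Γ)}
    (hΩ : IsProper π.ker M Ω) {T : MTree M} (hT : T.IsSplitting π.ker) (hr : T.Rel Ω) {P : Γ}
    (hP : P ∈ M) {l : ℕ} {L : ℤ → T.X} (hL : T.IsAxis P l L) {D1 : Subgroup Γ}
    (h1 : IsSupp π.ker (M ⊓ π.ker) Ω P D1) (N : ℕ) :
    ∃ m0 : ℕ, ∀ D, IsOFactor π.ker (M ⊓ π.ker) Ω D → D ≠ ⊥ →
      (∃ S : Finset (T.X × T.X), S.card ≤ N ∧ ∀ x ∈ T.core D, ∀ y ∈ T.core D, T.G.Adj x y →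
        ∃ d ∈ D, (T.act d x, T.act d y) ∈ S) →
      ∀ i0 : ℤ, (∀ m : ℕ, m ≤ m0 → L (i0 + m * l) ∈ T.core D ∧ L (i0 + m * l + 1) ∈ T.core D) →
        D1 ≤ D := by
  classical
  have hHf : IsFactor π.ker π.ker (M ⊓ π.ker) := hM.fac
  have hHk : M ⊓ π.ker ≤ π.ker := inf_le_right
  have hΩH : IsPeriph π.ker (M ⊓ π.ker) Ω := periph_restr_f2e hΩ
  have hnorm : ∀ m ∈ M, ∀ h ∈ M ⊓ π.ker, m * h * m⁻¹ ∈ M ⊓ π.ker := by
    intro m hm h hh
    exact ⟨M.mul_mem (M.mul_mem hm hh.1) (M.inv_mem hm), (MonoidHom.normal_ker π).conj_mem h hh.2 m⟩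
  obtain ⟨n, hn⟩ : ∃ n, n = rk (M ⊓ π.ker) := ⟨_, rfl⟩
  refine ⟨N ^ (n + 1) + n, ?_⟩
  rintro D hD hDne ⟨S, hSN, hS⟩ i0 hcore
  have hadj : ∀ i : ℤ, T.G.Adj (L i) (L (i + 1)) := line_adj_f2e hL.2.1
  have hDH : D ≤ M ⊓ π.ker := fac_le hD.fac
  have hd : ∀ m : ℕ, m ≤ N ^ (n + 1) + n → ∃ d ∈ D,
      (T.act d (L (i0 + m * l)), T.act d (L (i0 + m * l + 1))) ∈ S :=
    fun m hm => hS _ (hcore m hm).1 _ (hcore m hm).2 (hadj _)
  choose! d hdD hdS using hd
  -- pigeonhole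
  let f : Fin (N ^ (n + 1) + 1) → Fin (n + 1) → S := fun k j =>
    ⟨_, hdS (k + j) (by have := k.2; have := j.2; omega)⟩
  have hcard : Fintype.card (Fin (n + 1) → S) < Fintype.card (Fin (N ^ (n + 1) + 1)) := by
    rw [Fintype.card_fun, Fintype.card_fin, Fintype.card_fin, Fintype.card_coe]
    exact Nat.lt_succ_of_le (Nat.pow_le_pow_left hSN _)
  obtain ⟨a, b, hab, hfab⟩ := Fintype.exists_ne_map_eq_of_card_lt f hcard
  have hmain : ∀ k k' : ℕ, k < k' → k' ≤ N ^ (n + 1) → (∀ j ≤ n,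
      (T.act (d (k + j)) (L (i0 + (k + j : ℕ) * l)), T.act (d (k + j)) (L (i0 + (k + j : ℕ) * l + 1))) =
      (T.act (d (k' + j)) (L (i0 + (k' + j : ℕ) * l)),
        T.act (d (k' + j)) (L (i0 + (k' + j : ℕ) * l + 1)))) → D1 ≤ D := by
    intro k k' hkk' hk' hcol
    obtain ⟨r, hr0, rfl⟩ : ∃ r, 0 < r ∧ k' = k + r := ⟨k' - k, by omega, by omega⟩
    have hax := axis_pow_f2e (T := T) hP hL
    obtain ⟨Pf, ⟨hPfM, hPfπ, hPff⟩, _⟩ := IsSplitting.lift hT (hadj i0) hP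
    have hrM : P ^ r ∈ M := M.pow_mem hP r
    have hfM : Pf ^ r ∈ M := M.pow_mem hPfM r
    have hy0 : P ^ r * (Pf ^ r)⁻¹ ∈ M ⊓ π.ker := by
      refine ⟨M.mul_mem hrM (M.inv_mem hfM), ?_⟩
      change π (P ^ r * (Pf ^ r)⁻¹) = 1
      rw [map_mul, map_inv, map_pow, map_pow, hPfπ, mul_inv_cancel]
    obtain ⟨y0, hy0def⟩ : ∃ y0, y0 = P ^ r * (Pf ^ r)⁻¹ := ⟨_, rfl⟩
    rw [← hy0def] at hy0
    have hyact : ∀ x, T.act Pf x = x → T.act y0 x = T.act (P ^ r) x := by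
      intro x hx
      have h2 : T.act (Pf ^ r)⁻¹ x = x := by
        have h3 := act_inv_act T hfM x
        rwa [fix_pow (T := T) hPfM hx r] at h3
      rw [hy0def, T.act_mul _ hrM _ (M.inv_mem hfM), h2]
    have hyne : y0 ≠ 1 := by
      intro h2
      have h3 := hyact _ hPff.1
      rw [h2, T.act_one, hax] at h3
      have h4 := TG.line_inj hL.2.1 h3
      have h5 : 0 < (r : ℤ) * l := by
        have := hL.1
        positivity
      omega
    -- conjugates
    let z : ℕ → Γ := fun j => P ^ (k + j) * y0 * (P ^ (k + j))⁻¹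
    have hzH : ∀ j, z j ∈ M ⊓ π.ker := fun j => hnorm _ (M.pow_mem hP _) _ hy0
    have hzact : ∀ j i, T.act Pf (L i) = L i →
        T.act (z j) (L (i + (k + j : ℕ) * l)) = L (i + (k + r + j : ℕ) * l) := by
      intro j i hi
      have hpM : P ^ (k + j) ∈ M := M.pow_mem hP _
      have h2 : L (i + (k + j : ℕ) * l) = T.act (P ^ (k + j)) (L i) := (hax _ _).symm
      show T.act (P ^ (k + j) * y0 * (P ^ (k + j))⁻¹) _ = _
      rw [h2, T.act_mul _ (M.mul_mem hpM hy0.1) _ (M.inv_mem hpM), act_inv_act T hpM,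
        T.act_mul _ hpM _ hy0.1, hyact _ hi, hax, hax]
      congr 1
      push_cast
      ring
    have hzD : ∀ j ≤ n, z j ∈ D := by
      intro j hj
      have h2 := hcol j hj
      rw [Prod.mk.injEq] at h2
      have hk1 : k + j ≤ N ^ (n + 1) + n := by omega
      have hk2 : k + r + j ≤ N ^ (n + 1) + n := by omega
      have hd1 := hdD _ hk1
      have hd2 := hdD _ hk2
      have he : (d (k + r + j))⁻¹ * d (k + j) ∈ D := D.mul_mem (D.inv_mem hd2) hd1
      have hd1M : d (k + j) ∈ M := (hDH hd1).1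
      have hd2M : d (k + r + j) ∈ M := (hDH hd2).1
      have h3 : ∀ x y, T.act (d (k + j)) x = T.act (d (k + r + j)) y →
          T.act ((d (k + r + j))⁻¹ * d (k + j)) x = y := by
        intro x y hxy
        rw [T.act_mul _ (M.inv_mem hd2M) _ hd1M, hxy, act_inv_act T hd2M]
      have h4 : z j = (d (k + r + j))⁻¹ * d (k + j) := by
        refine IsSplitting.eq_of_agree hT (hzH j).1 (hDH he).1 ?_ (hadj (i0 + (k + j : ℕ) * l)) ?_ ?_
        · have h5 : π (z j) = 1 := (hzH j).2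
          have h6 : π ((d (k + r + j))⁻¹ * d (k + j)) = 1 := (hDH he).2
          rw [h5, h6]
        · rw [h3 _ _ h2.1, hzact j i0 hPff.1]
        · rw [h3 _ _ h2.2]
          have h7 := hzact j (i0 + 1) hPff.2
          have h8 : i0 + 1 + ((k + j : ℕ) : ℤ) * l = i0 + ((k + j : ℕ) : ℤ) * l + 1 := by ring
          have h9 : i0 + 1 + ((k + r + j : ℕ) : ℤ) * l = i0 + ((k + r + j : ℕ) : ℤ) * l + 1 := by ring
          rw [h8, h9] at h7
          exact h7
      rw [h4]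
      exact he
    have hzne : z 0 ≠ 1 := by
      intro h2
      apply hyne
      have h3 : y0 = (P ^ (k + 0))⁻¹ * z 0 * P ^ (k + 0) := by
        show y0 = (P ^ (k + 0))⁻¹ * (P ^ (k + 0) * y0 * (P ^ (k + 0))⁻¹) * P ^ (k + 0)
        group
      rw [h3, h2]
      group
    have hzsucc : ∀ j, z (j + 1) = P * z j * P⁻¹ := by
      intro j
      show P ^ (k + (j + 1)) * y0 * (P ^ (k + (j + 1)))⁻¹ = P * (P ^ (k + j) * y0 * (P ^ (k + j))⁻¹) * P⁻¹
      rw [← add_assoc, pow_succ' P (k + j)]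
      group
    -- smallest factors
    have hsm := fun j : ℕ => ofac_smallest hc hHf hΩH {x | ∃ i ≤ j, x = z i} (by
      rintro x ⟨i, _, rfl⟩
      exact hzH i)
    choose E hE1 hE2 hE3 using hsm
    have hEz : ∀ j, ∀ i ≤ j, z i ∈ E j := fun j i hi => hE2 j ⟨i, hi, rfl⟩
    have hEmono : ∀ j, E j ≤ E (j + 1) := by
      intro j
      apply hE3 j _ (hE1 _)
      rintro x ⟨i, hi, rfl⟩
      exact hEz _ _ (by omega)
    have hED : ∀ j ≤ n, E j ≤ D := by
      intro j hj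
      apply hE3 j _ hD
      rintro x ⟨i, hi, rfl⟩
      exact hzD _ (by omega)
    have hEne : ∀ j, E j ≠ ⊥ := by
      intro j h2
      have h3 := hEz j 0 (Nat.zero_le _)
      rw [h2, Subgroup.mem_bot] at h3
      exact hzne h3
    have hEf : ∀ j, IsFactor π.ker π.ker (E j) := fun j => fac_trans hc le_rfl hHf (hE1 j).fac
    have hstep : ∃ j < n, rk (E (j + 1)) ≤ rk (E j) := by
      by_contra hcon
      push Not at hcon
      have h2 : ∀ j ≤ n, j + 1 ≤ rk (E j) := by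
        intro j
        induction j with
        | zero => intro _; exact rk_pos hc (hEf 0) (hEne 0)
        | succ j ih =>
          intro hj
          have h3 := ih (by omega)
          have h4 := hcon j (by omega)
          omega
      have h3 := h2 n le_rfl
      have h4 := rk_le hc hHf (hEf n) (fac_le (hE1 n).fac)
      omega
    obtain ⟨j, hjn, hjr⟩ := hstep
    have hEE : E (j + 1) = E j := fac_eq_of_rk hc hHf (hE1 _).fac (hE1 _).fac (hEmono j) hjr
    have hinvle : MulAut.conj P • E j ≤ E j := by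
      have h2 : IsOFactor π.ker (M ⊓ π.ker) Ω (MulAut.conj P⁻¹ • E (j + 1)) :=
        ofac_conj hc hΩ.inv (hE1 _) (M.inv_mem hP)
      have h3 : E j ≤ MulAut.conj P⁻¹ • E (j + 1) := by
        apply hE3 j _ h2
        rintro x ⟨i, hi, rfl⟩
        show z i ∈ MulAut.conj P⁻¹ • E (j + 1)
        rw [t8_mem_conj]
        have h4 := hEz (j + 1) (i + 1) (by omega)
        rw [hzsucc] at h4
        rwa [inv_inv]
      rw [hEE] at h3
      intro x hx
      rw [t8_mem_conj] at hx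
      have h4 := h3 hx
      rw [t8_mem_conj] at h4
      have h5 : P⁻¹⁻¹ * (P⁻¹ * x * P) * P⁻¹ = x := by group
      rwa [h5] at h4
    have hinv : MulAut.conj P • E j = E j := by
      refine (fac_eq_of_rk hc hHf (hE1 j).fac (ofac_conj hc hΩ.inv (hE1 j) hP).fac hinvle ?_).symm
      rw [rk_conj]
    exact (h1.min _ (hE1 j) (hEne j) hinv).trans (hED j hjn.le)
  rcases lt_or_gt_of_ne (fun h => hab (Fin.ext h) : (a : ℕ) ≠ b) with h | h
  · apply hmain a b h (by have := b.2; omega)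
    intro j hj
    have h2 := congrFun hfab ⟨j, by omega⟩
    exact congrArg Subtype.val h2
  · apply hmain b a h (by have := a.2; omega)
    intro j hj
    have h2 := congrFun hfab ⟨j, by omega⟩
    exact (congrArg Subtype.val h2).symm

end Pool.Agent.Lib.MP_6567fb_al
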