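import Pool.Agent.Lib.MP_6567fb_al.F2c
import Pool.Agent.Lib.MP_6567fb_al.F2d
import Pool.Agent.Lib.MP_6567fb_al.F1c

/-!
# MP_6567fb_al, module F2f

(3) of F2.2 (simplified: pieces of arcs of the fixed length B are enough, no disjointness needed).  b fixed, i0, c0 from w_axis; W := s w, axis L' of length l' = 3al + c0, L' = L on the L-part
[i0, 3al - i0]; enlarge i0 so that the gaps between consecutive translates of the L-part by W are non-empty; c1 := |c0| + 2 i0 bounds their length.  B := 3(2l+2) + 2c1 + 10.  q an arc with m ≥ B: use q 0..q B only.  supp_twice for (q 0, q 1): two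
positions i < j < i + l' and d1, d2 ∈ D; since inner vertices of the arc have exactly two neighbours in core D, the axis L' (which is in core D, injective) follows d1 q and d2 q: d1 (q k) = L'(i' ± k), d2 (q k) = L'(j' ± k),
0 ≤ k ≤ B.  The k with L'(i' ± k) in a gap form an interval of length ≤ c1 (B < l' - c1 for a large), the same for j'; so there is an interval K ⊂ [0,B] of 2l+2 vertices such that both segments are in
translates W^n1 (L-part), W^n2 (L-part).  W^n acts on d1 q as an element of D: W ∈ N(D), core_splitting (orb) for Mg: W f' = x f' with x ∈ D, x⁻¹W fixes the edge f', preserves core D, so fixes the whole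
piece of arc (two).  So there is d ∈ D mapping a segment of L of length 2l+1 to another one (shift or reflection); d ≠ 1 because the positions are different mod l'.  comm_of_seg.
-/

set_option autoImplicit false

open scoped Pointwise
open Filter

namespace Pool.Agent.Lib.MP_6567fb_al

open MTree
variable {Γ G : Type} [Group Γ] [Group G] {π : Γ →* G}

/-- the integers `[k, k + B]` or `[k - B, k]` meet at most one gap between the translates of `[i0, A]` -/
theorem f2f_cut (i0 A l' c1 B k ε : ℤ) (hl' : 0 < l') (hg : i0 + l' ≤ A + c1) (hB : i0 + B ≤ A)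
    (hε : ε = 1 ∨ ε = -1) :
    ∃ r n n' : ℤ, ∀ t, 0 ≤ t → t ≤ B →
      (t ≤ r → i0 + n * l' ≤ k + ε * t ∧ k + ε * t ≤ A + n * l') ∧
      (r + c1 ≤ t → i0 + n' * l' ≤ k + ε * t ∧ k + ε * t ≤ A + n' * l') := by
  rcases hε with rfl | rfl
  · obtain ⟨n, h1, h2⟩ : ∃ n : ℤ, n * l' ≤ k - i0 ∧ k - i0 < n * l' + l' := by
      refine ⟨(k - i0) / l', Int.ediv_mul_le _ (by omega), ?_⟩
      have h3 := Int.lt_ediv_add_one_mul_self (k - i0) hl'
      linarith
    refine ⟨A + n * l' - k, n, n + 1, fun t ht0 htB => ⟨fun ht => ?_, fun ht => ?_⟩⟩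
    · constructor <;> linarith
    · constructor <;> linarith
  · obtain ⟨n, h1, h2⟩ : ∃ n : ℤ, k ≤ A + n * l' ∧ A + n * l' - l' < k := by
      refine ⟨(k - A - 1) / l' + 1, ?_, ?_⟩
      · have h3 := Int.lt_ediv_add_one_mul_self (k - A - 1) hl'
        have h4 : k - A - 1 + 1 ≤ ((k - A - 1) / l' + 1) * l' := by omega
        linarith
      · have h3 := Int.ediv_mul_le (k - A - 1) (b := l') (by omega)
        linarith
    refine ⟨k - (i0 + n * l'), n, n - 1, fun t ht0 htB => ⟨fun ht => ?_, fun ht => ?_⟩⟩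
    · constructor <;> linarith
    · constructor <;> linarith

/-- a common window -/
theorem f2f_window (i0 A l' c1 B w k1 ε1 k2 ε2 : ℤ) (hl' : 0 < l') (hw : 0 ≤ w) (hc1 : 0 ≤ c1)
    (hg : i0 + l' ≤ A + c1) (hB : i0 + B ≤ A) (hBw : 3 * w + 2 * c1 + 2 ≤ B)
    (hε1 : ε1 = 1 ∨ ε1 = -1) (hε2 : ε2 = 1 ∨ ε2 = -1) :
    ∃ t0 n1 n2 : ℤ, 0 ≤ t0 ∧ t0 + w ≤ B ∧ ∀ t, t0 ≤ t → t ≤ t0 + w →
      (i0 + n1 * l' ≤ k1 + ε1 * t ∧ k1 + ε1 * t ≤ A + n1 * l') ∧
      (i0 + n2 * l' ≤ k2 + ε2 * t ∧ k2 + ε2 * t ≤ A + n2 * l') := by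
  obtain ⟨r1, n1, n1', h1⟩ := f2f_cut i0 A l' c1 B k1 ε1 hl' hg hB hε1
  obtain ⟨r2, n2, n2', h2⟩ := f2f_cut i0 A l' c1 B k2 ε2 hl' hg hB hε2
  have key : ∃ t0 : ℤ, 0 ≤ t0 ∧ t0 + w ≤ B ∧ (t0 + w ≤ r1 ∨ r1 + c1 ≤ t0) ∧
      (t0 + w ≤ r2 ∨ r2 + c1 ≤ t0) := by
    by_cases c0 : (0 + w ≤ r1 ∨ r1 + c1 ≤ 0) ∧ (0 + w ≤ r2 ∨ r2 + c1 ≤ 0)
    · exact ⟨0, le_rfl, by omega, c0.1, c0.2⟩
    by_cases c1' : ((w + c1 + 1) + w ≤ r1 ∨ r1 + c1 ≤ (w + c1 + 1)) ∧
        ((w + c1 + 1) + w ≤ r2 ∨ r2 + c1 ≤ (w + c1 + 1))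
    · exact ⟨w + c1 + 1, by omega, by omega, c1'.1, c1'.2⟩
    refine ⟨2 * (w + c1 + 1), by omega, by omega, ?_, ?_⟩ <;> omega
  obtain ⟨t0, ht0, htB, ha, hb⟩ := key
  rcases ha with ha | ha <;> rcases hb with hb | hb
  · exact ⟨t0, n1, n2, ht0, htB, fun t h3 h4 => ⟨(h1 t (by omega) (by omega)).1 (by omega),
      (h2 t (by omega) (by omega)).1 (by omega)⟩⟩
  · exact ⟨t0, n1, n2', ht0, htB, fun t h3 h4 => ⟨(h1 t (by omega) (by omega)).1 (by omega),
      (h2 t (by omega) (by omega)).2 (by omega)⟩⟩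
  · exact ⟨t0, n1', n2, ht0, htB, fun t h3 h4 => ⟨(h1 t (by omega) (by omega)).2 (by omega),
      (h2 t (by omega) (by omega)).1 (by omega)⟩⟩
  · exact ⟨t0, n1', n2', ht0, htB, fun t h3 h4 => ⟨(h1 t (by omega) (by omega)).2 (by omega),
      (h2 t (by omega) (by omega)).2 (by omega)⟩⟩

theorem f2f_zpow {M : Subgroup Γ} {T : MTree M} {m : Γ} (hm : m ∈ M) {l : ℕ} {L : ℤ → T.X}
    (hL : T.IsAxis m l L) (n i : ℤ) : T.act (m ^ n) (L i) = L (i + n * l) := by
  have h1 : ∀ (k : ℕ) (i : ℤ), T.act (m ^ k) (L i) = L (i + k * l) := by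
    intro k
    induction k with
    | zero => intro i; rw [pow_zero, T.act_one]; simp
    | succ k ih =>
      intro i
      rw [pow_succ', T.act_mul _ hm _ (M.pow_mem hm k), ih, hL.2.2]
      congr 1
      push_cast
      ring
  obtain ⟨k, rfl | rfl⟩ := n.eq_nat_or_neg
  · rw [zpow_natCast, h1]
  · have h2 : L i = T.act (m ^ k) (L (i + -(k : ℤ) * l)) := by
      rw [h1]
      congr 1
      ring
    rw [zpow_neg, zpow_natCast, h2, T.act_inv_act (M.pow_mem hm k)]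

/-- an element of `N(D)` follows an arc -/
theorem f2f_follow {M : Subgroup Γ} {T : MTree M} {D : Subgroup Γ} (hDM : D ≤ M) {m : ℕ}
    {q : ℕ → T.X} (hq : IsArc T D m q) {u : Γ}
    (hu : u ∈ M ⊓ Subgroup.normalizer (D : Set Γ)) {p : ℕ → T.X} {t0 : ℕ}
    (hp : ∀ t, t0 ≤ t → t ≤ m → p t ∈ T.core D)
    (hadj : ∀ t, t0 ≤ t → t + 1 ≤ m → T.G.Adj (p t) (p (t + 1)))
    (hne : ∀ t, t0 ≤ t → t + 2 ≤ m → p t ≠ p (t + 2)) (h0 : T.act u (q t0) = p t0)
    (h1 : t0 + 1 ≤ m → T.act u (q (t0 + 1)) = p (t0 + 1)) :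
    ∀ t, t0 ≤ t → t ≤ m → T.act u (q t) = p t := by
  have key : ∀ n : ℕ, (t0 + n ≤ m → T.act u (q (t0 + n)) = p (t0 + n)) ∧
      (t0 + n + 1 ≤ m → T.act u (q (t0 + n + 1)) = p (t0 + n + 1)) := by
    intro n
    induction n with
    | zero => exact ⟨fun _ => h0, h1⟩
    | succ n ih =>
      refine ⟨fun h => ih.2 (by omega), fun h => ?_⟩
      have e0 := ih.1 (by omega)
      have e1 := ih.2 (by omega)
      have hui : u⁻¹ ∈ M ⊓ Subgroup.normalizer (D : Set Γ) := Subgroup.inv_mem _ hu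
      have hcore : T.act u⁻¹ (p (t0 + n + 2)) ∈ T.core D :=
        t8_core_inv hDM hui (hp _ (by omega) (by omega))
      have hadj' : T.G.Adj (q (t0 + n + 1)) (T.act u⁻¹ (p (t0 + n + 2))) := by
        rw [← T.adj_act_iff hu.1, e1, T.act_act_inv hu.1]
        exact hadj _ (by omega) (by omega)
      rcases hq.two (t0 + n + 1) (by omega) (by omega) _ hcore hadj' with h2 | h2
      · exfalso
        rw [Nat.add_sub_cancel] at h2
        apply hne (t0 + n) (by omega) (by omega)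
        rw [← e0, ← h2, T.act_act_inv hu.1]
      · change T.act u (q (t0 + n + 1 + 1)) = p (t0 + n + 2)
        rw [← h2, T.act_act_inv hu.1]
  intro t ht htm
  obtain ⟨n, rfl⟩ := Nat.exists_eq_add_of_le ht
  exact (key n).1 htm

/-- elements of `Mg ⊓ N(D)` act on the edges of the core as elements of `D` -/
theorem f2f_orb (hc : Ctx π) {M : Subgroup Γ} (hM : Full π M) {T : MTree M}
    (hT : T.IsSplitting π.ker) {D : Subgroup Γ} (hDf : IsFactor π.ker (M ⊓ π.ker) D) (hne : D ≠ ⊥)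
    {W : Γ} (hW : W ∈ M) (hinv : MulAut.conj W • D = D) (hnell : ¬ T.Ell (D : Set Γ)) {u : Γ}
    (hu : u ∈ Mg π M (π W) ⊓ Subgroup.normalizer (D : Set Γ)) {x y : T.X} (hx : x ∈ T.core D)
    (hy : y ∈ T.core D) (hxy : T.G.Adj x y) :
    ∃ x1 ∈ D, T.act x1 x = T.act u x ∧ T.act x1 y = T.act u y := by
  have hDg := inv_mfactor hDf hne hW hinv
  have hMg : Loc π (Mg π M (π W)) := hM.toLoc.mg _
  obtain ⟨T', ι, hι, hran, hT', -⟩ := core_splitting hc hMg (IsSplitting.mg hT (π W)) hDg hnell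
  have hran' : Set.range ι = T.core D := hran
  rw [← hran'] at hx hy
  obtain ⟨z0, hz0⟩ := hx
  obtain ⟨z1, hz1⟩ := hy
  have hadj : T'.G.Adj z0 z1 := by
    rw [← SimpleGraph.dist_eq_one_iff_adj, ← hι.dist, hz0, hz1]
    exact SimpleGraph.dist_eq_one_iff_adj.2 hxy
  obtain ⟨h, hh, e1, e2⟩ := hT'.orb u hu z0 z1 hadj
  have hnorm := norm_inf hc hMg hDg
  refine ⟨h, by rw [← hnorm]; exact hh, ?_, ?_⟩
  · have h1 := congrArg ι e1
    rw [hι.equi h hh.1, hι.equi u hu, hz0] at h1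
    exact h1
  · have h1 := congrArg ι e2
    rw [hι.equi h hh.1, hι.equi u hu, hz1] at h1
    exact h1

theorem supp_long_arc (hc : Ctx π) {M : Subgroup Γ} (hM : Full π M) {Ω : Set (Subgroup Γ)}
    (hΩ : IsProper π.ker M Ω) {T : MTree M} (hT : T.IsSplitting π.ker) (hr : T.Rel Ω)
    {s : G →* Γ} (hs : SecIn π M s) {g1 : G} (g2 : G) {l : ℕ} {L : ℤ → T.X}
    (hL : T.IsAxis (s g1) l L) :
    ∀ᶠ b in atTop, ∃ B : ℕ, ∀ᶠ a in atTop, ∀ D, IsSupp π.ker (M ⊓ π.ker) Ω (s (wd g1 g2 b a)) D →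
      ∀ (m : ℕ) (q : ℕ → T.X), B ≤ m → IsArc T D m q → ∃ d ∈ D, d ≠ 1 ∧ d * s g1 = s g1 * d := by
  have hP : s g1 ∈ M := hs.mem g1
  have hl : 0 < l := hL.1
  filter_upwards [w_axis hc hT hs g2 hL] with b hb
  obtain ⟨i0, c0, hb⟩ := hb
  obtain ⟨c1, hc1⟩ : ∃ c1 : ℕ, c1 = c0.natAbs + 2 * i0 := ⟨_, rfl⟩
  refine ⟨3 * (2 * l + 2) + 2 * c1 + 10, ?_⟩
  filter_upwards [hb, eventually_ge_atTop (3 * (2 * l + 2) + 2 * c1 + 10 + 2 * i0)] with a hb' ha
  obtain ⟨l', L', hL', hl', hLL⟩ := hb'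
  intro D hD m q hm hq
  have hl'0 : 0 < l' := hL'.1
  have hal : (a : ℤ) ≤ 3 * a * l := by
    have h1 : (1 : ℤ) ≤ l := by exact_mod_cast hl
    nlinarith [Int.natCast_nonneg a]
  obtain ⟨W, hWdef⟩ : ∃ W, W = s (wd g1 g2 b a) := ⟨_, rfl⟩
  have hW : W ∈ M := by rw [hWdef]; exact hs.mem _
  rw [← hWdef] at hL' hD
  have hDf : IsFactor π.ker (M ⊓ π.ker) D := by
    rcases hD.ofac with h1 | ⟨T1, h1, -, h2⟩
    · exact Or.inl h1
    · exact Or.inr ⟨T1, h1, h2⟩
  have hDH : D ≤ M ⊓ π.ker := fac_le hDf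
  have hDM : D ≤ M := hDH.trans inf_le_left
  obtain ⟨hnell, hLcore, -⟩ := inv_axis hc hM hT hW hDf hD.ne hD.inv hL'
  have hinj : ∀ {i j : ℤ}, L' i = L' j → i = j := fun {i j} h => TG.line_inj hL'.2.1 h
  have hLadj : ∀ i : ℤ, ∀ ε : ℤ, (ε = 1 ∨ ε = -1) → T.G.Adj (L' i) (L' (i + ε)) := by
    intro i ε hε
    rw [← SimpleGraph.dist_eq_one_iff_adj, hL'.2.1]
    rcases hε with rfl | rfl
    · omega
    · omega
  have hqadj : ∀ t, t + 1 ≤ m → T.G.Adj (q t) (q (t + 1)) := by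
    intro t ht
    rw [← SimpleGraph.dist_eq_one_iff_adj, hq.iso t (t + 1) (by omega) ht]
    push_cast
    omega
  have hqne : ∀ t, t + 2 ≤ m → q t ≠ q (t + 2) := by
    intro t ht h
    have h1 := hq.iso t (t + 2) (by omega) ht
    rw [← h, SimpleGraph.dist_self] at h1
    push_cast at h1
    omega
  have hDN : ∀ d ∈ D, d ∈ M ⊓ Subgroup.normalizer (D : Set Γ) := fun d hd =>
    ⟨hDM hd, Subgroup.le_normalizer hd⟩
  -- positions of the arc on the axis
  have hsgn : ∀ k : ℤ, (∃ d ∈ D, (T.act d (q 0) = L' k ∧ T.act d (q 1) = L' (k + 1)) ∨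
        (T.act d (q 0) = L' (k + 1) ∧ T.act d (q 1) = L' k)) →
      ∃ d ∈ D, ∃ ε kk : ℤ, ((ε = 1 ∧ kk = k) ∨ (ε = -1 ∧ kk = k + 1)) ∧
        ∀ t : ℕ, t ≤ m → T.act d (q t) = L' (kk + ε * t) := by
    rintro k ⟨d, hd, h1 | h1⟩
    · refine ⟨d, hd, 1, k, Or.inl ⟨rfl, rfl⟩, fun t ht => ?_⟩
      refine f2f_follow hDM hq (hDN d hd) (p := fun t => L' (k + 1 * t)) (t0 := 0)
        (fun t _ _ => hLcore _) (fun t _ _ => ?_) (fun t _ _ h => ?_) ?_ (fun _ => ?_) t (Nat.zero_le _) ht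
      · have h2 := hLadj (k + 1 * t) 1 (Or.inl rfl)
        convert h2 using 2
        push_cast
        ring
      · have h2 := hinj h
        push_cast at h2
        omega
      · rw [h1.1]
        congr 1
        push_cast
        ring
      · rw [Nat.zero_add, h1.2]
        congr 1
    · refine ⟨d, hd, -1, k + 1, Or.inr ⟨rfl, rfl⟩, fun t ht => ?_⟩
      refine f2f_follow hDM hq (hDN d hd) (p := fun t => L' (k + 1 + -1 * t)) (t0 := 0)
        (fun t _ _ => hLcore _) (fun t _ _ => ?_) (fun t _ _ h => ?_) ?_ (fun _ => ?_) t (Nat.zero_le _) ht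
      · have h2 := hLadj (k + 1 + -1 * t) (-1) (Or.inr rfl)
        convert h2 using 2
        push_cast
        ring
      · have h2 := hinj h
        push_cast at h2
        omega
      · rw [h1.1]
        congr 1
        push_cast
        ring
      · rw [Nat.zero_add, h1.2]
        congr 1
        push_cast
        ring
  obtain ⟨i, j, hij, hji, hk⟩ := supp_twice hc hM hΩ hT hr hs (w_mod3 g1 g2 b a)
    (D := D) (by rw [← hWdef]; exact hD) (by rw [← hWdef]; exact hL')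
    (hq.mem 0 (by omega)) (hq.mem 1 (by omega)) (hqadj 0 (by omega))
  obtain ⟨d1, hd1, ε1, k1, hεk1, hd1q⟩ := hsgn i (hk i (by simp))
  obtain ⟨d2, hd2, ε2, k2, hεk2, hd2q⟩ := hsgn j (hk j (by simp))
  have hε1 : ε1 = 1 ∨ ε1 = -1 := by rcases hεk1 with h | h <;> simp [h.1]
  have hε2 : ε2 = 1 ∨ ε2 = -1 := by rcases hεk2 with h | h <;> simp [h.1]
  obtain ⟨t0, n1, n2, ht0, htB, hwin⟩ := f2f_window i0 (3 * a * l - i0) l' c1
    ((3 * (2 * l + 2) + 2 * c1 + 10 : ℕ) : ℤ) (2 * l + 2) k1 ε1 k2 ε2 (by exact_mod_cast hl'0)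
    (by positivity) (by positivity) (by omega) (by push_cast; omega) (by push_cast; omega) hε1 hε2
  obtain ⟨t0, rfl⟩ := Int.eq_ofNat_of_zero_le ht0
  push_cast at htB
  -- translates by powers of `W` are realised in `D`
  have hWN : W ∈ Mg π M (π W) ⊓ Subgroup.normalizer (D : Set Γ) :=
    ⟨mem_mg hW rfl, t8_norm.2 hD.inv⟩
  have hDgN : ∀ d ∈ D, d ∈ Mg π M (π W) ⊓ Subgroup.normalizer (D : Set Γ) := by
    intro d hd
    refine ⟨?_, Subgroup.le_normalizer hd⟩
    have h1 := hDH hd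
    rw [← mg_inf M (π W)] at h1
    exact h1.1
  have hrep : ∀ d ∈ D, ∀ n : ℤ, ∃ x1 ∈ D, ∀ t, t0 ≤ t → t ≤ m →
      T.act x1 (q t) = T.act (W ^ n * d) (q t) := by
    intro d hd n
    have hu : W ^ n * d ∈ Mg π M (π W) ⊓ Subgroup.normalizer (D : Set Γ) :=
      Subgroup.mul_mem _ (Subgroup.zpow_mem _ hWN n) (hDgN d hd)
    have hu' : W ^ n * d ∈ M ⊓ Subgroup.normalizer (D : Set Γ) := ⟨hu.1.1, hu.2⟩
    obtain ⟨x1, hx1, e0, e1⟩ := f2f_orb hc hM hT hDf hD.ne hW hD.inv hnell hu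
      (hq.mem t0 (by omega)) (hq.mem (t0 + 1) (by omega)) (hqadj t0 (by omega))
    refine ⟨x1, hx1, ?_⟩
    refine f2f_follow hDM hq (hDN x1 hx1) (p := fun t => T.act (W ^ n * d) (q t)) (t0 := t0)
      (fun t _ ht => t8_core_inv hDM hu' (hq.mem t ht)) (fun t _ ht => ?_) (fun t _ ht h => ?_) e0
      (fun _ => e1)
    · rw [T.adj_act_iff hu'.1]
      exact hqadj t ht
    · exact hqne t ht (T.act_inj hu'.1 h)
  obtain ⟨x1, hx1, hx1q⟩ := hrep d1 hd1 (-n1)
  obtain ⟨x2, hx2, hx2q⟩ := hrep d2 hd2 (-n2)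
  have hWn : ∀ n : ℤ, W ^ n ∈ M := fun n => M.zpow_mem hW n
  have e1 : ∀ t : ℕ, t0 ≤ t → t ≤ t0 + (2 * l + 2) →
      T.act x1 (q t) = L (k1 + ε1 * t - n1 * l') := by
    intro t h1 h2
    rw [hx1q t h1 (by omega), T.act_mul _ (hWn _) _ (hDM hd1), hd1q t (by omega), f2f_zpow hW hL']
    have h3 := (hwin t (by exact_mod_cast h1) (by exact_mod_cast h2)).1
    rw [← hLL (k1 + ε1 * t - n1 * l') (by linarith) (by linarith)]
    congr 1
    ring
  have e2 : ∀ t : ℕ, t0 ≤ t → t ≤ t0 + (2 * l + 2) →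
      T.act x2 (q t) = L (k2 + ε2 * t - n2 * l') := by
    intro t h1 h2
    rw [hx2q t h1 (by omega), T.act_mul _ (hWn _) _ (hDM hd2), hd2q t (by omega), f2f_zpow hW hL']
    have h3 := (hwin t (by exact_mod_cast h1) (by exact_mod_cast h2)).2
    rw [← hLL (k2 + ε2 * t - n2 * l') (by linarith) (by linarith)]
    congr 1
    ring
  have hdD : x2 * x1⁻¹ ∈ D := D.mul_mem hx2 (D.inv_mem hx1)
  have hdact : ∀ t : ℕ, t0 ≤ t → t ≤ t0 + (2 * l + 2) →
      T.act (x2 * x1⁻¹) (L (k1 + ε1 * t - n1 * l')) = L (k2 + ε2 * t - n2 * l') := by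
    intro t h1 h2
    rw [T.act_mul _ (hDM hx2) _ (M.inv_mem (hDM hx1)), ← e1 t h1 h2, T.act_inv_act (hDM hx1), e2 t h1 h2]
  refine ⟨x2 * x1⁻¹, hdD, ?_, ?_⟩
  · intro hone
    have h1 := hdact t0 le_rfl (by omega)
    have h2 := hdact (t0 + 1) (by omega) (by omega)
    rw [hone, T.act_one] at h1 h2
    have h3 := TG.line_inj hL.2.1 h1
    have h4 := TG.line_inj hL.2.1 h2
    push_cast at h4
    have h5 : ε1 = ε2 := by linarith
    rw [h5] at h3
    have h6 : k1 - k2 = (n1 - n2) * l' := by linarith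
    have h7 : k1 - k2 = i - j := by
      rcases hεk1 with ⟨ha1, ha2⟩ | ⟨ha1, ha2⟩ <;> rcases hεk2 with ⟨hb1, hb2⟩ | ⟨hb1, hb2⟩ <;> omega
    rw [h7] at h6
    have h8 : n1 - n2 < 0 := by
      by_contra h9
      push Not at h9
      have h10 : 0 ≤ (n1 - n2) * (l' : ℤ) := mul_nonneg h9 (by positivity)
      omega
    have h9 : (n1 - n2) * (l' : ℤ) ≤ -1 * l' := mul_le_mul_of_nonneg_right (by omega) (by positivity)
    omega
  · have hd : x2 * x1⁻¹ ∈ M ⊓ π.ker := hDH hdD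
    rcases hε1 with rfl | rfl
    · -- increasing
      refine comm_of_seg hc hT hP hd hL (i1 := k1 - n1 * l' + t0) (c := if ε2 = 1 then
        (k2 - n2 * l') - (k1 - n1 * l') else (k2 - n2 * l') + (k1 - n1 * l')) ?_
      rcases hε2 with rfl | rfl
      · left
        intro i h1 h2
        rw [if_pos rfl]
        obtain ⟨t, ht⟩ := Int.eq_ofNat_of_zero_le (a := i - (k1 - n1 * l')) (by linarith)
        have h3 := hdact t (by omega) (by omega)
        have h4 : k1 + 1 * (t : ℤ) - n1 * l' = i := by linarith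
        rw [h4] at h3
        rw [h3]
        congr 1
        linarith
      · right
        intro i h1 h2
        rw [if_neg (by decide)]
        obtain ⟨t, ht⟩ := Int.eq_ofNat_of_zero_le (a := i - (k1 - n1 * l')) (by linarith)
        have h3 := hdact t (by omega) (by omega)
        have h4 : k1 + 1 * (t : ℤ) - n1 * l' = i := by linarith
        rw [h4] at h3
        rw [h3]
        congr 1
        linarith
    · -- decreasing
      refine comm_of_seg hc hT hP hd hL (i1 := k1 - n1 * l' - t0 - (2 * l + 1)) (c := if ε2 = 1 then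
        (k2 - n2 * l') + (k1 - n1 * l') else (k2 - n2 * l') - (k1 - n1 * l')) ?_
      rcases hε2 with rfl | rfl
      · right
        intro i h1 h2
        rw [if_pos rfl]
        obtain ⟨t, ht⟩ := Int.eq_ofNat_of_zero_le (a := (k1 - n1 * l') - i) (by linarith)
        have h3 := hdact t (by omega) (by omega)
        have h4 : k1 + -1 * (t : ℤ) - n1 * l' = i := by linarith
        rw [h4] at h3
        rw [h3]
        congr 1
        linarith
      · left
        intro i h1 h2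
        rw [if_neg (by decide)]
        obtain ⟨t, ht⟩ := Int.eq_ofNat_of_zero_le (a := (k1 - n1 * l') - i) (by linarith)
        have h3 := hdact t (by omega) (by omega)
        have h4 : k1 + -1 * (t : ℤ) - n1 * l' = i := by linarith
        rw [h4] at h3
        rw [h3]
        congr 1
        linarith

end Pool.Agent.Lib.MP_6567fb_al
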