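import Pool.Agent.Lib.MP_6567fb_al.T16a
import Pool.Agent.Lib.MP_6567fb_al.T2c
import Pool.Agent.Lib.MP_6567fb_al.T7d

/-!
# MP_6567fb_al, module T16b

Natural arcs.  T16b_count: at most 6 rk D orbits of oriented edges start at special vertices (Euler inequality).  Every oriented edge is
reached from one of these by a non-special path with fewer than b steps, which is determined by its number of steps.
-/

set_option autoImplicit false

open scoped Pointwise

namespace Pool.Agent.Lib.MP_6567fb_al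

open MTree
variable {Γ G : Type} [Group Γ] [Group G] {π : Γ →* G}

theorem T16b_special {D : Subgroup Γ} (T : MTree D) {d : Γ} (hd : d ∈ D) (x : T.X) :
    T.Special (T.act d x) ↔ T.Special x := by
  have key : ∀ d ∈ D, ∀ x, ¬ T.Special x → ¬ T.Special (T.act d x) := by
    intro d hd x h
    unfold Special at h ⊢
    push Not at h ⊢
    obtain ⟨h1, y, z, hyz, hy, hz, hw⟩ := h
    refine ⟨by rw [T.stab_act hd, h1, Subgroup.smul_bot], T.act d y, T.act d z,
      fun h => hyz (T.act_inj hd h), T.act_adj d hd _ _ hy, T.act_adj d hd _ _ hz, ?_⟩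
    intro w hxw
    obtain ⟨w', rfl⟩ := T.act_surj hd w
    rw [T.adj_act_iff hd] at hxw
    rcases hw w' hxw with rfl | rfl
    · exact Or.inl rfl
    · exact Or.inr rfl
  constructor
  · intro h
    by_contra h'
    exact key d hd x h' h
  · intro h
    by_contra h'
    refine key d⁻¹ (D.inv_mem hd) _ h' ?_
    rw [T.act_inv_act hd]
    exact h

/-- `e` is reached from the oriented edge `o` by a non-special path with `k` steps -/
def T16bR {D : Subgroup Γ} (T : MTree D) (o : T.X × T.X) (k : ℕ) (e : T.X × T.X) : Prop :=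
  ∃ p : ℕ → T.X, p 0 = o.1 ∧ p 1 = o.2 ∧ (∀ i, i ≤ k → T.G.Adj (p i) (p (i + 1))) ∧
    (∀ i, i + 1 ≤ k → p i ≠ p (i + 2)) ∧ (∀ i, 1 ≤ i → i ≤ k → ¬ T.Special (p i)) ∧
    e = (p k, p (k + 1))

theorem T16bR_act {D : Subgroup Γ} (T : MTree D) {d : Γ} (hd : d ∈ D) {o e : T.X × T.X} {k : ℕ}
    (h : T16bR T o k e) :
    T16bR T (T.act d o.1, T.act d o.2) k (T.act d e.1, T.act d e.2) := by
  obtain ⟨p, h0, h1, h2, h3, h4, rfl⟩ := h
  refine ⟨fun i => T.act d (p i), by simp only [h0], by simp only [h1],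
    fun i hi => T.act_adj d hd _ _ (h2 i hi), fun i hi h => h3 i hi (T.act_inj hd h),
    fun i hi hi' h => h4 i hi hi' ((T16b_special T hd _).1 h), rfl⟩

theorem T16bR_unique {D : Subgroup Γ} (T : MTree D) {o e e' : T.X × T.X} {k : ℕ}
    (h : T16bR T o k e) (h' : T16bR T o k e') : e = e' := by
  obtain ⟨p, h0, h1, h2, h3, h4, rfl⟩ := h
  obtain ⟨q, g0, g1, g2, g3, g4, rfl⟩ := h'
  have key : ∀ i, i ≤ k → p i = q i ∧ p (i + 1) = q (i + 1) := by
    intro i
    induction i with
    | zero => exact fun _ => ⟨h0.trans g0.symm, h1.trans g1.symm⟩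
    | succ i ih =>
      intro hi
      obtain ⟨e1, e2⟩ := ih (by omega)
      refine ⟨e2, ?_⟩
      have hs := h4 (i + 1) (by omega) hi
      unfold Special at hs
      push Not at hs
      obtain ⟨-, y, z, hyz, hy, hz, hw⟩ := hs
      have a1 := h2 (i + 1) hi
      have a2 := g2 (i + 1) hi
      rw [← e2] at a2
      have a3 := (h2 i (by omega)).symm
      have n1 := h3 i (by omega)
      have n2 := g3 i (by omega)
      rw [← e1] at n2
      have b1 := hw _ a1
      have b2 := hw _ a2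
      have b3 := hw _ a3
      rcases b1 with b1 | b1 <;> rcases b2 with b2 | b2
      · exact b1.trans b2.symm
      · rcases b3 with b3 | b3
        · exact absurd (b3.trans b1.symm) n1
        · exact absurd (b3.trans b2.symm) n2
      · rcases b3 with b3 | b3
        · exact absurd (b3.trans b2.symm) n2
        · exact absurd (b3.trans b1.symm) n1
      · exact b1.trans b2.symm
  obtain ⟨e1, e2⟩ := key k le_rfl
  rw [e1, e2]

/-- in a minimal tree every vertex has two neighbours -/
theorem T16b_two (hc : Ctx π) {D : Subgroup Γ} (hD : D ≤ π.ker) (T : MTree D)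
    (hT : T.IsSplitting π.ker) (hmin : T.Minimal π.ker) (x : T.X) :
    ∃ y z, y ≠ z ∧ T.G.Adj x y ∧ T.G.Adj x z := by
  classical
  have hni := hT.noInv hc
  obtain ⟨hn, hcore⟩ := hmin
  rw [inf_eq_left.2 hD] at hcore
  have hell : ¬ T.Ell (D : Set Γ) := by
    rintro ⟨x, hx⟩
    obtain ⟨h, hh, h'⟩ := hn x
    exact h' (hx h hh.1)
  have hx : x ∈ T.core D := by rw [hcore]; exact Set.mem_univ x
  unfold MTree.core at hx
  rw [if_neg hell] at hx
  obtain ⟨d, hd, hhyp, hax⟩ := hx
  rcases T.ell_or_axis hni hd with ⟨y, hy⟩ | ⟨l, L, hL⟩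
  · exact absurd hy (hhyp y)
  · rw [(T.axis_eq hd hL).1] at hax
    obtain ⟨i, rfl⟩ := hax
    refine ⟨L (i - 1), L (i + 1), ?_, ?_, ?_⟩
    · intro h
      have h1 := hL.2.1 (i - 1) (i + 1)
      rw [h, SimpleGraph.dist_self] at h1
      omega
    · rw [← SimpleGraph.dist_eq_one_iff_adj, hL.2.1]
      omega
    · rw [← SimpleGraph.dist_eq_one_iff_adj, hL.2.1]
      omega

/-- few orbits of oriented edges start at special vertices -/
theorem T16b_count (hc : Ctx π) {D : Subgroup Γ} (hD : IsFactor π.ker π.ker D) (T : MTree D)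
    (hT : T.IsSplitting π.ker) (hmin : T.Minimal π.ker) :
    ∃ sO : Finset (T.X × T.X), sO.card ≤ 6 * rk D ∧
      ∀ x y, T.G.Adj x y → T.Special x → ∃ o ∈ sO, ∃ d ∈ D, T.act d o.1 = x ∧ T.act d o.2 = y := by
  classical
  have hni := hT.noInv hc
  have hDk : D ≤ π.ker := fac_le hD
  have hfg := fac_fg hc hD
  have hco : ∃ S : Finset (T.X × T.X), ∀ x y, T.G.Adj x y → ∃ h ∈ D, (T.act h x, T.act h y) ∈ S := by
    obtain ⟨S, hS⟩ := hT.cocpt
    refine ⟨S, fun x y hxy => ?_⟩
    obtain ⟨h, hh, h'⟩ := hS x y hxy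
    exact ⟨h, hh.1, h'⟩
  obtain ⟨sV, hV, hV'⟩ := T16a_vreps T hco
  obtain ⟨sE, hE0, hE, hEc, -⟩ := T16a_ereps T hco
  have heuler := euler_le hc hDk hfg T hT hni sV sE hV hV' hE0 hE
  choose rep hrep g hg hact using hV'
  obtain ⟨sO, hO0, hO, hOc, -⟩ : ∃ s : Finset (T.X × T.X), (∀ a ∈ s, T.G.Adj a.1 a.2) ∧
      (∀ a ∈ s, ∀ b ∈ s, (∃ d ∈ D, T.act d a.1 = b.1 ∧ T.act d a.2 = b.2) → a = b) ∧
      (∀ a : T.X × T.X, T.G.Adj a.1 a.2 → ∃ b ∈ s, ∃ d ∈ D, T.act d b.1 = a.1 ∧ T.act d b.2 = a.2) ∧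
      ∀ s' : Finset (T.X × T.X), (∀ a ∈ s', T.G.Adj a.1 a.2) →
        (∀ a ∈ s', ∀ b ∈ s', (∃ d ∈ D, T.act d a.1 = b.1 ∧ T.act d a.2 = b.2) → a = b) →
        s'.card ≤ s.card := by
    obtain ⟨S, hS⟩ := hco
    refine T16a_reps (fun a b : T.X × T.X => ∃ d ∈ D, T.act d a.1 = b.1 ∧ T.act d a.2 = b.2)
      ⟨fun x => ⟨1, D.one_mem, T.act_one _, T.act_one _⟩, ?_, ?_⟩ (fun e => T.G.Adj e.1 e.2) ?_ S ?_
    · rintro x y ⟨d, hd, h1, h2⟩
      exact ⟨d⁻¹, D.inv_mem hd, by rw [← h1, T.act_inv_act hd], by rw [← h2, T.act_inv_act hd]⟩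
    · rintro x y z ⟨d, hd, h1, h2⟩ ⟨e, he, h3, h4⟩
      refine ⟨e * d, D.mul_mem he hd, ?_, ?_⟩
      · rw [T.act_mul e he d hd, h1, h3]
      · rw [T.act_mul e he d hd, h2, h4]
    · rintro x y ⟨d, hd, h1, h2⟩ hx
      rw [← h1, ← h2]
      exact T.act_adj d hd _ _ hx
    · intro e he
      obtain ⟨h, hh, hm⟩ := hS e.1 e.2 he
      exact ⟨_, hm, h⁻¹, D.inv_mem hh, T.act_inv_act hh _, T.act_inv_act hh _⟩
  -- representatives
  have hrepeq : ∀ v ∈ sV, ∀ x, ∀ d ∈ D, T.act d x = v → rep x = v := by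
    intro v hv x d hd h
    refine hV _ (hrep x) v hv (d * g x) (D.mul_mem hd (hg x)) ?_
    rw [T.act_mul d hd _ (hg x), hact, h]
  have hval : ∀ v ∈ sV, T.stab v = ⊥ → ∀ N : Finset T.X, (∀ y ∈ N, T.G.Adj v y) →
      N.card ≤ (sO.filter (fun o => rep o.1 = v)).card := by
    intro v hv hst N hN
    have hex : ∀ y : T.X, ∃ (o : T.X × T.X) (d : Γ), y ∈ N → o ∈ sO ∧ d ∈ D ∧ T.act d o.1 = v ∧
        T.act d o.2 = y := by
      intro y
      by_cases hy : y ∈ N
      · obtain ⟨o, ho, d, hd, h1, h2⟩ := hOc (v, y) (hN y hy)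
        exact ⟨o, d, fun _ => ⟨ho, hd, h1, h2⟩⟩
      · exact ⟨(v, v), 1, fun h => absurd h hy⟩
    choose f d hf using hex
    refine Finset.card_le_card_of_injOn f ?_ ?_
    · intro y hy
      have hy' : y ∈ N := hy
      obtain ⟨h1, h2, h3, h4⟩ := hf y hy'
      exact Finset.mem_coe.2 (Finset.mem_filter.2 ⟨h1, hrepeq v hv _ _ h2 h3⟩)
    · intro y hy z hz hyz
      have hy' : y ∈ N := hy
      have hz' : z ∈ N := hz
      obtain ⟨h1, h2, h3, h4⟩ := hf y hy'
      obtain ⟨g1, g2, g3, g4⟩ := hf z hz'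
      rw [hyz] at h3 h4
      have hk : d z * (d y)⁻¹ ∈ T.stab v := by
        refine ⟨D.mul_mem g2 (D.inv_mem h2), ?_⟩
        rw [T.act_mul _ g2 _ (D.inv_mem h2)]
        have : T.act (d y)⁻¹ v = (f z).1 := by rw [← h3, T.act_inv_act h2]
        rw [this, g3]
      rw [hst, Subgroup.mem_bot, mul_inv_eq_one] at hk
      have h5 : T.act (d y) (f z).2 = T.act (d z) (f z).2 := by rw [hk]
      exact h4.symm.trans (h5.trans g4)
  have hcardO : sO.card = ∑ v ∈ sV, (sO.filter (fun o => rep o.1 = v)).card :=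
    Finset.card_eq_sum_card_fiberwise (fun o _ => hrep o.1)
  -- oriented and unoriented edges
  have h2E : sO.card ≤ 2 * sE.card := by
    have hex : ∀ o : T.X × T.X, ∃ (e : T.X × T.X) (d : Γ) (b : Bool), o ∈ sO → e ∈ sE ∧ d ∈ D ∧
        ((b = true ∧ T.act d e.1 = o.1 ∧ T.act d e.2 = o.2) ∨
         (b = false ∧ T.act d e.1 = o.2 ∧ T.act d e.2 = o.1)) := by
      intro o
      by_cases ho : o ∈ sO
      · obtain ⟨e, he, d, hd, h⟩ := hEc o.1 o.2 (hO0 o ho)
        rcases h with h | h
        · exact ⟨e, d, true, fun _ => ⟨he, hd, Or.inl ⟨rfl, h⟩⟩⟩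
        · exact ⟨e, d, false, fun _ => ⟨he, hd, Or.inr ⟨rfl, h⟩⟩⟩
      · exact ⟨o, 1, true, fun h => absurd h ho⟩
    choose f d b hf using hex
    have h1 : sO.card ≤ (sE ×ˢ (Finset.univ : Finset Bool)).card := by
      refine Finset.card_le_card_of_injOn (fun o => (f o, b o)) ?_ ?_
      · intro o ho
        have ho' : o ∈ sO := ho
        exact Finset.mem_coe.2 (Finset.mem_product.2 ⟨(hf o ho').1, Finset.mem_univ _⟩)
      · intro o ho o' ho' hoo
        have ho1 : o ∈ sO := ho
        have ho1' : o' ∈ sO := ho'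
        obtain ⟨h1, h2, h3⟩ := hf o ho1
        obtain ⟨g1, g2, g3⟩ := hf o' ho1'
        have e1 : f o = f o' := congrArg Prod.fst hoo
        have e2 : b o = b o' := congrArg Prod.snd hoo
        rw [e1, e2] at h3
        refine hO o ho1 o' ho1' ⟨d o' * (d o)⁻¹, D.mul_mem g2 (D.inv_mem h2), ?_⟩
        rw [T.act_mul _ g2 _ (D.inv_mem h2), T.act_mul _ g2 _ (D.inv_mem h2)]
        rcases h3 with ⟨h4, h5, h6⟩ | ⟨h4, h5, h6⟩ <;> rcases g3 with ⟨g4, g5, g6⟩ | ⟨g4, g5, g6⟩
        · rw [← h5, ← h6, T.act_inv_act h2, T.act_inv_act h2, g5, g6]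
          exact ⟨rfl, rfl⟩
        · rw [h4] at g4; exact absurd g4 (by simp)
        · rw [h4] at g4; exact absurd g4 (by simp)
        · rw [← h5, ← h6, T.act_inv_act h2, T.act_inv_act h2, g5, g6]
          exact ⟨rfl, rfl⟩
    rw [Finset.card_product, Finset.card_univ, Fintype.card_bool] at h1
    omega
  -- local inequality
  have hloc : ∀ v ∈ sV, (if T.Special v then (sO.filter (fun o => rep o.1 = v)).card else 0) + 6 ≤
      6 * rk (T.stab v) + 3 * (sO.filter (fun o => rep o.1 = v)).card := by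
    intro v hv
    by_cases hst : T.stab v = ⊥
    · have hge := hval v hv hst
      obtain ⟨y, z, hyz, hy, hz⟩ := T16b_two hc hDk T hT hmin v
      by_cases hs : T.Special v
      · rw [if_pos hs]
        have hw : ∃ w, T.G.Adj v w ∧ w ≠ y ∧ w ≠ z := by
          unfold Special at hs
          rcases hs with hs | hs
          · exact absurd hst hs
          · by_contra hcon
            push Not at hcon
            refine hs ⟨y, z, hyz, hy, hz, fun w hw => ?_⟩
            by_cases h : w = y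
            · exact Or.inl h
            · exact Or.inr (hcon w hw h)
        obtain ⟨w, hw, hwy, hwz⟩ := hw
        have h3 := hge {w, y, z} (by
          intro u hu
          simp only [Finset.mem_insert, Finset.mem_singleton] at hu
          rcases hu with rfl | rfl | rfl <;> assumption)
        rw [Finset.card_insert_of_notMem (by simp [hwy, hwz]), Finset.card_pair hyz] at h3
        omega
      · rw [if_neg hs]
        have h3 := hge {y, z} (by
          intro u hu
          simp only [Finset.mem_insert, Finset.mem_singleton] at hu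
          rcases hu with rfl | rfl <;> assumption)
        rw [Finset.card_pair hyz] at h3
        omega
    · have hs : T.Special v := Or.inl hst
      rw [if_pos hs]
      have h1 : 0 < rk (T.stab v) := by
        refine rk_pos hc (fac_trans hc le_rfl hD (Or.inr ⟨T, hT, v, ?_⟩)) hst
        exact inf_eq_left.2 fun m hm => hDk hm.1
      omega
  have hsum := Finset.sum_le_sum hloc
  rw [Finset.sum_add_distrib, Finset.sum_add_distrib, ← Finset.mul_sum, ← Finset.mul_sum,
    ← hcardO, Finset.sum_const, smul_eq_mul] at hsum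
  refine ⟨sO.filter (fun o => T.Special o.1), ?_, ?_⟩
  · have h1 : (sO.filter (fun o => T.Special o.1)).card =
        ∑ v ∈ sV, ((sO.filter (fun o => T.Special o.1)).filter (fun o => rep o.1 = v)).card :=
      Finset.card_eq_sum_card_fiberwise (fun o _ => hrep o.1)
    have h2 : ∀ v ∈ sV, ((sO.filter (fun o => T.Special o.1)).filter (fun o => rep o.1 = v)).card ≤
        (if T.Special v then (sO.filter (fun o => rep o.1 = v)).card else 0) := by
      intro v hv
      by_cases hs : T.Special v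
      · rw [if_pos hs]
        exact Finset.card_le_card (Finset.filter_subset_filter _ (Finset.filter_subset _ _))
      · rw [if_neg hs, Nat.le_zero, Finset.card_eq_zero, Finset.filter_eq_empty_iff]
        intro o ho h3
        have h4 := (Finset.mem_filter.1 ho).2
        rw [← hact o.1, h3, T16b_special T (hg _)] at h4
        exact hs h4
    have h3 := Finset.sum_le_sum h2
    omega
  · intro x y hxy hx
    obtain ⟨o, ho, d, hd, h1, h2⟩ := hOc (x, y) hxy
    refine ⟨o, Finset.mem_filter.2 ⟨ho, ?_⟩, d, hd, h1, h2⟩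
    have h3 : T.Special (T.act d o.1) := by rw [h1]; exact hx
    exact (T16b_special T hd _).1 h3

/-- if every geodesic of length `b` has a special interior vertex then there are at most `6 b rk D` orbits of
oriented edges -/
theorem arcs_bound (hc : Ctx π) {D : Subgroup Γ} (hD : IsFactor π.ker π.ker D) (T : MTree D)
    (hT : T.IsSplitting π.ker) (hmin : T.Minimal π.ker) (b : ℕ)
    (hb : ∀ p : ℕ → T.X, (∀ i j, i ≤ b → j ≤ b → T.G.dist (p i) (p j) = ((i : ℤ) - j).natAbs) →
      ∃ i, 0 < i ∧ i < b ∧ T.Special (p i)) :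
    ∃ S : Finset (T.X × T.X), S.card ≤ 6 * b * rk D ∧ ∀ x y, T.G.Adj x y →
      ∃ d ∈ D, (T.act d x, T.act d y) ∈ S := by
  classical
  obtain ⟨sO, hO, hOc⟩ := T16b_count hc hD T hT hmin
  let F : (T.X × T.X) × ℕ → T.X × T.X := fun q =>
    if h : ∃ e, T16bR T q.1 q.2 e then h.choose else q.1
  refine ⟨(sO ×ˢ Finset.range b).image F, ?_, ?_⟩
  · refine Finset.card_image_le.trans ?_
    rw [Finset.card_product, Finset.card_range]
    calc sO.card * b ≤ (6 * rk D) * b := Nat.mul_le_mul_right _ hO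
      _ = 6 * b * rk D := by ring
  · intro x y hxy
    -- go backwards
    have hnb : ∀ e : T.X × T.X, ∃ w, T.G.Adj e.1 w ∧ w ≠ e.2 := by
      intro e
      obtain ⟨u, v, huv, hu, hv⟩ := T16b_two hc (fac_le hD) T hT hmin e.1
      by_cases h : u = e.2
      · exact ⟨v, hv, fun h' => huv (h.trans h'.symm)⟩
      · exact ⟨u, hu, h⟩
    choose nx hnx1 hnx2 using hnb
    let Q : ℕ → T.X × T.X := fun n => Nat.rec (x, y) (fun _ e => (nx e, e.1)) n
    have hQ0 : Q 0 = (x, y) := rfl
    have hQs : ∀ n, Q (n + 1) = (nx (Q n), (Q n).1) := fun n => rfl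
    let q : ℕ → T.X := fun n => (Q n).2
    have hq0 : q 0 = y := rfl
    have hq1 : q 1 = x := rfl
    have hqs : ∀ n, q (n + 1) = (Q n).1 := fun n => rfl
    have hadj : ∀ n, T.G.Adj (q n) (q (n + 1)) := by
      intro n
      induction n with
      | zero => exact hxy.symm
      | succ n ih =>
        rw [hqs n, hqs (n + 1), hQs]
        exact hnx1 (Q n)
    have hne : ∀ n, q n ≠ q (n + 2) := by
      intro n
      rw [hqs (n + 1), hQs]
      exact (hnx2 (Q n)).symm
    have hray := TG.ray_of_local T.tree q hadj hne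
    have hex : ∃ i, 0 < i ∧ T.Special (q i) := by
      obtain ⟨i, h1, -, h2⟩ := hb q (fun i j _ _ => hray i j)
      exact ⟨i, h1, h2⟩
    obtain ⟨hi0, hi⟩ := Nat.find_spec hex
    have hmin' : ∀ j, 0 < j → j < Nat.find hex → ¬ T.Special (q j) := by
      intro j hj hj' h
      exact Nat.find_min hex hj' ⟨hj, h⟩
    have hib : Nat.find hex < b := by
      obtain ⟨i, h1, h2, h3⟩ := hb q (fun i j _ _ => hray i j)
      exact lt_of_le_of_lt (Nat.find_min' hex ⟨h1, h3⟩) h2
    generalize Nat.find hex = i at *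
    have hR : T16bR T (q i, q (i - 1)) (i - 1) (x, y) := by
      refine ⟨fun j => q (i - j), by simp, rfl, ?_, ?_, ?_, ?_⟩
      · intro j hj
        have h1 := (hadj (i - (j + 1))).symm
        have h2 : i - (j + 1) + 1 = i - j := by omega
        rwa [h2] at h1
      · intro j hj
        have h1 := (hne (i - (j + 2))).symm
        have h2 : i - (j + 2) + 2 = i - j := by omega
        rwa [h2] at h1
      · intro j hj hj'
        exact hmin' _ (by omega) (by omega)
      · have h1 : i - (i - 1) = 1 := by omega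
        have h2 : i - (i - 1 + 1) = 0 := by omega
        simp only [h1, h2, hq0, hq1]
    have ha : T.G.Adj (q i) (q (i - 1)) := by
      have h1 := (hadj (i - 1)).symm
      have h2 : i - 1 + 1 = i := by omega
      rwa [h2] at h1
    obtain ⟨o, ho, d, hd, h1, h2⟩ := hOc _ _ ha hi
    refine ⟨d⁻¹, D.inv_mem hd, Finset.mem_image.2 ⟨(o, i - 1), Finset.mem_product.2
      ⟨ho, Finset.mem_range.2 (by show i - 1 < b; omega)⟩, ?_⟩⟩
    have hR' := T16bR_act T (D.inv_mem hd) hR
    have h3 : (T.act d⁻¹ (q i), T.act d⁻¹ (q (i - 1))) = o := by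
      rw [← h1, ← h2, T.act_inv_act hd, T.act_inv_act hd]
    dsimp only at hR'
    rw [h3] at hR'
    have hFe : ∃ e, T16bR T o (i - 1) e := ⟨_, hR'⟩
    have hF : F (o, i - 1) = hFe.choose := dif_pos hFe
    rw [hF]
    exact T16bR_unique T hFe.choose_spec hR'

end Pool.Agent.Lib.MP_6567fb_al
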