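import Pool.Agent.Lib.MP_6567fb_al.F2e
import Pool.Agent.Lib.MP_6567fb_al.F2f
import Pool.Agent.Lib.MP_6567fb_al.T16b

/-!
# MP_6567fb_al, module F2g

Theorem F2.2.  b large, B from supp_long_arc.  D := support of s w.  If there is an arc (IsArc T D B q): d from supp_long_arc, supp_le_of_comm.  Otherwise arcs_bound (T16b) with b := B for the D-tree
core D (core_splitting for Mg π M (π W), restricted to D: T'.res; a geodesic of length B in it without special interior vertex is an IsArc): at most 6 B rk D ≤ 6 B rk H orbits of oriented edges; supp_le_of_few with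
N := 6 B rk H; the vertices L(i0' + m l), m ≤ m0 are on the axis of s w for a large (w_axis), so in core D (inv_axis).
-/

set_option autoImplicit false

open scoped Pointwise
open Filter

namespace Pool.Agent.Lib.MP_6567fb_al

open MTree
variable {Γ G : Type} [Group Γ] [Group G] {π : Γ →* G}

/-- no long arc: few orbits of edges in the core -/
theorem F2g_few (hc : Ctx π) {M : Subgroup Γ} (hM : Full π M) {T : MTree M}
    (hT : T.IsSplitting π.ker) {W : Γ} (hW : W ∈ M) {D : Subgroup Γ}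
    (hD : IsFactor π.ker (M ⊓ π.ker) D) (hne : D ≠ ⊥) (hinv : MulAut.conj W • D = D)
    (hell : ¬ T.Ell (D : Set Γ)) (B : ℕ) (hno : ∀ q : ℕ → T.X, ¬ IsArc T D B q) :
    ∃ S : Finset (T.X × T.X), S.card ≤ 6 * B * rk (M ⊓ π.ker) ∧
      ∀ x ∈ T.core D, ∀ y ∈ T.core D, T.G.Adj x y → ∃ d ∈ D, (T.act d x, T.act d y) ∈ S := by
  classical
  have hDF : IsFactor π.ker π.ker D := fac_trans hc le_rfl hM.fac hD
  have hDM : D ≤ M ⊓ π.ker := fac_le hD
  have hDM' : D ≤ M := fun d hd => (hDM hd).1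
  have hDk : D ≤ π.ker := fun d hd => (hDM hd).2
  set M1 : Subgroup Γ := Mg π M (π W) with hM1
  have hM1le : M1 ≤ M := mg_le M _
  have hL1 : Loc π M1 := hM.toLoc.mg _
  have hfac1 : IsMFactor π.ker M1 D := inv_mfactor hD hne hW hinv
  obtain ⟨T', ι, he, hr, hs', hm'⟩ :=
    core_splitting hc hL1 (T := T.res hM1le) (IsSplitting.mg hT (π W)) hfac1 hell
  have hinf : (M1 ⊓ Subgroup.normalizer D) ⊓ π.ker = D := norm_inf hc hL1 hfac1
  have hDN : D ≤ M1 ⊓ Subgroup.normalizer D := by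
    intro d hd
    rw [← hinf] at hd
    exact hd.1
  have hDeq : D ⊓ π.ker = (M1 ⊓ Subgroup.normalizer D) ⊓ π.ker := by
    rw [hinf, inf_eq_left.2 hDk]
  have hs'' : (T'.res hDN).IsSplitting π.ker := IsSplitting.res hs' hDN hDeq
  have hm'' : (T'.res hDN).Minimal π.ker := by
    refine ⟨?_, ?_⟩
    · intro x
      obtain ⟨h, hh, hx⟩ := hm'.1 x
      refine ⟨h, ?_, hx⟩
      rw [hDeq]
      exact hh
    · have h1 := hm'.2
      rw [← hDeq] at h1
      exact h1
  -- distances
  have hdist : ∀ x y, T.G.dist (ι x) (ι y) = T'.G.dist x y := he.dist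
  have hequi : ∀ d ∈ D, ∀ x, ι (T'.act d x) = T.act d (ι x) := fun d hd x => he.equi d (hDN hd) x
  have hadj : ∀ x y, T.G.Adj (ι x) (ι y) ↔ T'.G.Adj x y := by
    intro x y
    rw [← SimpleGraph.dist_eq_one_iff_adj, ← SimpleGraph.dist_eq_one_iff_adj, hdist]
  have hrange : ∀ y ∈ T.core D, ∃ w, ι w = y := by
    intro y hy
    have h1 : y ∈ (T.res hM1le).core D := hy
    rw [← hr] at h1
    exact h1
  have hcore : ∀ w, ι w ∈ T.core D := by
    intro w
    have h1 : ι w ∈ Set.range ι := ⟨w, rfl⟩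
    rw [hr] at h1
    exact h1
  have hb : ∀ p : ℕ → (T'.res hDN).X, (∀ i j, i ≤ B → j ≤ B →
      (T'.res hDN).G.dist (p i) (p j) = ((i : ℤ) - j).natAbs) →
      ∃ i, 0 < i ∧ i < B ∧ (T'.res hDN).Special (p i) := by
    intro p hp
    by_contra hcon
    push Not at hcon
    have hp' : ∀ i j, i ≤ B → j ≤ B → T'.G.dist (p i) (p j) = ((i : ℤ) - j).natAbs := hp
    refine hno (fun i => ι (p i)) ⟨?_, ?_, ?_, ?_⟩
    · intro i j hi hj
      rw [hdist, hp' i j hi hj]
    · intro i _
      exact hcore _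
    · intro i hi0 hi d hd hfix
      have h1 := hcon i hi0 hi
      unfold Special at h1
      push Not at h1
      have h2 : d ∈ (T'.res hDN).stab (p i) := by
        refine ⟨hd, ?_⟩
        apply he.inj
        show ι (T'.act d (p i)) = ι (p i)
        rw [hequi d hd]
        exact hfix
      rw [h1.1] at h2
      exact h2
    · intro i hi0 hi y hy hxy
      obtain ⟨w, rfl⟩ := hrange y hy
      have hw : T'.G.Adj (p i) w := (hadj _ _).1 hxy
      have h1 := hcon i hi0 hi
      unfold Special at h1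
      push Not at h1
      obtain ⟨-, a, b, hab, ha, hb', hall⟩ := h1
      have e1 : T'.G.Adj (p i) (p (i - 1)) := by
        rw [← SimpleGraph.dist_eq_one_iff_adj, hp' i (i - 1) (by omega) (by omega)]
        omega
      have e2 : T'.G.Adj (p i) (p (i + 1)) := by
        rw [← SimpleGraph.dist_eq_one_iff_adj, hp' i (i + 1) (by omega) (by omega)]
        omega
      have e3 : p (i - 1) ≠ p (i + 1) := by
        intro h
        have h2 := hp' (i - 1) (i + 1) (by omega) (by omega)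
        rw [h, SimpleGraph.dist_self] at h2
        omega
      have f1 := hall _ e1
      have f2 := hall _ e2
      have f3 := hall _ hw
      rcases f1 with f1 | f1 <;> rcases f2 with f2 | f2 <;> rcases f3 with f3 | f3
      · exact absurd (f1.trans f2.symm) e3
      · exact absurd (f1.trans f2.symm) e3
      · left; rw [f3, f1]
      · right; rw [f3, f2]
      · right; rw [f3, f2]
      · left; rw [f3, f1]
      · exact absurd (f1.trans f2.symm) e3
      · exact absurd (f1.trans f2.symm) e3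
  obtain ⟨S, hS1, hS2⟩ := arcs_bound hc hDF (T'.res hDN) hs'' hm'' B hb
  refine ⟨S.image (fun e => (ι e.1, ι e.2)), ?_, ?_⟩
  · refine Finset.card_image_le.trans (hS1.trans ?_)
    exact Nat.mul_le_mul_left _ (rk_le hc hM.fac hDF hDM)
  · intro x hx y hy hxy
    obtain ⟨x', rfl⟩ := hrange x hx
    obtain ⟨y', rfl⟩ := hrange y hy
    obtain ⟨d, hd, h1⟩ := hS2 x' y' ((hadj _ _).1 hxy)
    refine ⟨d, hd, ?_⟩
    rw [Finset.mem_image]
    refine ⟨_, h1, ?_⟩
    show (ι (T'.act d x'), ι (T'.act d y')) = _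
    rw [hequi d hd, hequi d hd]
    rfl

theorem supp_mono (hc : Ctx π) {M : Subgroup Γ} (hM : Full π M) {Ω : Set (Subgroup Γ)}
    (hΩ : IsProper π.ker M Ω) {T : MTree M} (hT : T.IsSplitting π.ker) (hr : T.Rel Ω)
    {s : G →* Γ} (hs : SecIn π M s) {g1 : G} (g2 : G) (hy : T.Hyp (s g1)) {D1 : Subgroup Γ}
    (h1 : IsSupp π.ker (M ⊓ π.ker) Ω (s g1) D1) :
    AA (fun b a => ∀ D, IsSupp π.ker (M ⊓ π.ker) Ω (s (wd g1 g2 b a)) D → D1 ≤ D) := by
  have hni := hT.noInv hc
  obtain ⟨l, L, hL⟩ : ∃ (l : ℕ) (L : ℤ → T.X), T.IsAxis (s g1) l L := by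
    rcases T.ell_or_axis hni (hs.mem g1) with ⟨x, hx⟩ | h
    · exact absurd hx (hy x)
    · exact h
  have hl : 0 < l := hL.1
  unfold AA
  filter_upwards [supp_long_arc hc hM hΩ hT hr hs g2 hL, w_axis hc hT hs g2 hL] with b
    ⟨B, hB⟩ ⟨i0, c0, hax⟩
  obtain ⟨m0, hm0⟩ := supp_le_of_few hc hM hΩ hT hr (hs.mem g1) hL h1 (6 * B * rk (M ⊓ π.ker))
  filter_upwards [hB, hax, eventually_ge_atTop (2 * i0 + m0 + 2)] with a ha ⟨l', L', hL', _, hLL⟩ haa
    D hD
  have hwM : s (wd g1 g2 b a) ∈ M := hs.mem _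
  by_cases harc : ∃ q : ℕ → T.X, IsArc T D B q
  · obtain ⟨q, hq⟩ := harc
    obtain ⟨d, hd, hd1, hdc⟩ := ha D hD B q le_rfl hq
    exact supp_le_of_comm hc hM hΩ (hs.mem g1) hD.ofac hd hd1 hdc h1
  · push Not at harc
    obtain ⟨hell, hcore, -⟩ := inv_axis hc hM hT hwM hD.ofac.fac hD.ne hD.inv hL'
    have hfew := F2g_few hc hM hT hwM hD.ofac.fac hD.ne hD.inv hell B harc
    refine hm0 D hD.ofac hD.ne hfew i0 ?_
    intro m hm
    have e1 : (l : ℤ) ≥ 1 := by exact_mod_cast hl
    have e2 : (m : ℤ) ≤ m0 := by exact_mod_cast hm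
    have e3 : (2 * i0 + m0 + 2 : ℤ) ≤ a := by exact_mod_cast haa
    have e4 : (0 : ℤ) ≤ m := by positivity
    have e5 : (0 : ℤ) ≤ i0 := by positivity
    have e6 : (m : ℤ) * l ≤ m0 * l := by nlinarith
    have e7 : (2 * i0 + m0 + 2 : ℤ) * l ≤ a * l := by nlinarith
    have e8 : (0 : ℤ) ≤ m * l := by positivity
    constructor
    · rw [← hLL (i0 + m * l) (by linarith) (by nlinarith)]
      exact hcore _
    · rw [← hLL (i0 + m * l + 1) (by linarith) (by nlinarith)]
      exact hcore _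

end Pool.Agent.Lib.MP_6567fb_al
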