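import Pool.Agent.Lib.MP_6567fb_al.F1c

/-!
# MP_6567fb_al, module F3a

F3.1.  conj_of_seg: x P and P' x are in M over the same element and agree on L i1, L (i1+1): eq_of_agree.  align: b large, w_axis for s and s' (i0, c0, i0', c0'); v from CJ maps the axis of s w to the axis of s' w
(axis_conj, axis_unique): periods equal: 3al + c0 = 3al' + c0', so l = l' for large a (if l ≠ l' there are only finitely many a) and c0 = c0' =: period p.  v (L_w i) = L'_w (i + δ0); choose k with |δ0 - k p| ≤ p/2,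
x := (s' w)^(-k) v, δ := δ0 - k p; then x (s w) x⁻¹ = s' w, π x = w^-k.  Overlap of the L-parts: i in [max(i0, i0' - δ), min(3al - i0, 3al - i0' - δ)].
-/

set_option autoImplicit false

open scoped Pointwise
open Filter

namespace Pool.Agent.Lib.MP_6567fb_al

open MTree
variable {Γ G : Type} [Group Γ] [Group G] {π : Γ →* G}

theorem F3a_npow {M : Subgroup Γ} {T : MTree M} {m : Γ} (hm : m ∈ M) {l : ℕ} {L : ℤ → T.X}
    (h : T.IsAxis m l L) (k : ℕ) (i : ℤ) : T.act (m ^ k) (L i) = L (i + k * l) := by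
  induction k with
  | zero => simp [T.act_one]
  | succ k ih =>
    rw [pow_succ', T.act_mul _ hm _ (M.pow_mem hm k), ih, h.2.2]
    congr 1
    push_cast
    ring

theorem F3a_zpow {M : Subgroup Γ} {T : MTree M} {m : Γ} (hm : m ∈ M) {l : ℕ} {L : ℤ → T.X}
    (h : T.IsAxis m l L) (k i : ℤ) : T.act (m ^ k) (L i) = L (i + k * l) := by
  rcases le_total 0 k with hk | hk
  · obtain ⟨n, rfl⟩ := Int.eq_ofNat_of_zero_le hk
    rw [zpow_natCast]
    exact F3a_npow hm h n i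
  · obtain ⟨n, hn⟩ := Int.eq_ofNat_of_zero_le (neg_nonneg.2 hk)
    have hk' : k = -(n : ℤ) := by omega
    subst hk'
    have h1 := F3a_npow hm h n (i + -(n : ℤ) * l)
    rw [show i + -(n : ℤ) * l + n * l = i by ring] at h1
    rw [zpow_neg, zpow_natCast, ← h1, T.act_inv_act (M.pow_mem hm n)]

theorem F3a_adj {M : Subgroup Γ} {T : MTree M} {L : ℤ → T.X} (h : T.IsLine L) (i : ℤ) :
    T.G.Adj (L i) (L (i + 1)) := by
  rw [← SimpleGraph.dist_eq_one_iff_adj, h]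
  omega

theorem conj_of_seg {M : Subgroup Γ} {T : MTree M}
    (hT : T.IsSplitting π.ker) {P P' x : Γ} (hP : P ∈ M) (hP' : P' ∈ M) (hPP : π P = π P')
    (hx : x ∈ M ⊓ π.ker) {l : ℕ} {L L' : ℤ → T.X} (hL : T.IsAxis P l L) (hL' : T.IsAxis P' l L')
    {i1 δ : ℤ} (h : ∀ i, i1 ≤ i → i ≤ i1 + l + 1 → T.act x (L i) = L' (i + δ)) :
    x * P * x⁻¹ = P' := by
  have hxM : x ∈ M := hx.1
  have hxk : π x = 1 := hx.2
  have key : x * P = P' * x := by
    refine hT.eq_of_agree (M.mul_mem hxM hP) (M.mul_mem hP' hxM) ?_ (F3a_adj hL.2.1 i1) ?_ ?_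
    · rw [map_mul, map_mul, hxk, hPP, one_mul, mul_one]
    · rw [T.act_mul _ hxM _ hP, T.act_mul _ hP' _ hxM, hL.2.2, h (i1 + l) (by omega) (by omega),
        h i1 (by omega) (by omega), hL'.2.2]
      congr 1; ring
    · rw [T.act_mul _ hxM _ hP, T.act_mul _ hP' _ hxM, hL.2.2, h (i1 + 1 + l) (by omega) (by omega),
        h (i1 + 1) (by omega) (by omega), hL'.2.2]
      congr 1; ring
  rw [key, mul_inv_cancel_right]

theorem align (hc : Ctx π) {M : Subgroup Γ} {T : MTree M} (hT : T.IsSplitting π.ker)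
    {s s' : G →* Γ} (hs : SecIn π M s) (hs' : SecIn π M s') {g1 : G} (g2 : G) {l l' : ℕ}
    {L L' : ℤ → T.X} (hL : T.IsAxis (s g1) l L) (hL' : T.IsAxis (s' g1) l' L') :
    ∀ᶠ b in atTop, ∃ c : ℕ, ∀ᶠ a : ℕ in atTop,
      CJ (M ⊓ π.ker) (s (wd g1 g2 b a)) (s' (wd g1 g2 b a)) →
      l = l' ∧ ∃ (k δ i1 i2 : ℤ) (x : Γ), x ∈ M ∧ π x = (wd g1 g2 b a) ^ (-k) ∧
        x * s (wd g1 g2 b a) * x⁻¹ = s' (wd g1 g2 b a) ∧ 2 * |δ| ≤ 3 * a * l + c ∧
        3 * a * l - c ≤ 2 * (i2 - i1) ∧ ∀ i, i1 ≤ i → i ≤ i2 → T.act x (L i) = L' (i + δ) := by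
  filter_upwards [w_axis hc hT hs g2 hL, w_axis hc hT hs' g2 hL'] with b ⟨i0, c0, hb⟩ ⟨i0', c0', hb'⟩
  refine ⟨c0.natAbs + 4 * (i0 + i0'), ?_⟩
  filter_upwards [hb, hb', eventually_gt_atTop (c0.natAbs + c0'.natAbs)] with a
    ⟨p, Lw, h1, h2, h3⟩ ⟨p', Lw', h1', h2', h3'⟩ ha
  rintro ⟨v, hv, hvw⟩
  set w := wd g1 g2 b a with hw
  have hvM : v ∈ M := hv.1
  have hvk : π v = 1 := hv.2
  have hax : T.IsAxis (s' w) p (fun i => T.act v (Lw i)) := hvw ▸ T.axis_conj (hs.mem w) hvM h1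
  obtain ⟨hpp, δ0, hδ0⟩ := T.axis_unique (hs'.mem w) h1' hax
  subst hpp
  -- the periods agree
  have hll : l = l' := by
    by_contra hne
    have e : (3 * a : ℤ) * (l - l') = c0' - c0 := by linarith
    have e1 : (1 : ℤ) ≤ |(l : ℤ) - l'| := by
      have : (l : ℤ) - l' ≠ 0 := by omega
      exact Int.one_le_abs this
    have e2 : |(3 * a : ℤ) * (l - l')| = (3 * a) * |(l : ℤ) - l'| := by
      rw [abs_mul, abs_of_nonneg (by positivity)]
    have e3 : (3 * a : ℤ) ≤ |c0' - c0| := by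
      rw [← e, e2]
      nlinarith
    have e4 : |c0' - c0| ≤ |c0'| + |c0| := abs_sub _ _
    rw [Int.abs_eq_natAbs c0', Int.abs_eq_natAbs c0] at e4
    omega
  refine ⟨hll, ?_⟩
  subst hll
  have hpos : (0 : ℤ) < p' := by exact_mod_cast h1.1
  set k : ℤ := (2 * δ0 + p') / (2 * p') with hk
  have hk1 : 2 * p' * k ≤ 2 * δ0 + p' := by
    have := Int.mul_ediv_self_le (x := 2 * δ0 + p') (k := 2 * (p' : ℤ)) (by omega)
    exact this
  have hk2 : 2 * δ0 + p' < 2 * p' * k + 2 * p' := by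
    have := Int.lt_mul_ediv_self_add (x := 2 * δ0 + p') (k := 2 * (p' : ℤ)) (by omega)
    exact this
  set δ : ℤ := δ0 - k * p' with hδ
  have hδabs : 2 * |δ| ≤ p' := by
    have : |2 * δ| ≤ p' := by
      rw [abs_le]
      constructor
      · rw [hδ]; linarith
      · rw [hδ]; linarith
    rwa [abs_mul, abs_of_pos (by norm_num : (0 : ℤ) < 2)] at this
  have hδ1 : δ ≤ |δ| := le_abs_self δ
  have hδ2 : -δ ≤ |δ| := neg_le_abs δ
  refine ⟨k, δ, max i0 (i0' - δ), min (3 * a * l - i0) (3 * a * l - i0' - δ), (s' w) ^ (-k) * v,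
    M.mul_mem (M.zpow_mem (hs'.mem w) _) hvM, ?_, ?_, ?_, ?_, ?_⟩
  · rw [map_mul, map_zpow, hs'.sec, hvk, mul_one]
  · calc (s' w) ^ (-k) * v * s w * ((s' w) ^ (-k) * v)⁻¹
        = (s' w) ^ (-k) * (v * s w * v⁻¹) * (s' w) ^ k := by group
      _ = s' w := by rw [hvw]; group
  · have e1 : ((c0.natAbs + 4 * (i0 + i0') : ℕ) : ℤ) = |c0| + 4 * (i0 + i0') := by
      push_cast
      ring
    rw [e1]
    have := le_abs_self c0
    have : (0 : ℤ) ≤ i0 := by positivity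
    have : (0 : ℤ) ≤ i0' := by positivity
    linarith
  · have e1 : ((c0.natAbs + 4 * (i0 + i0') : ℕ) : ℤ) = |c0| + 4 * (i0 + i0') := by
      push_cast
      ring
    rw [e1]
    have e2 := le_abs_self c0
    have e3 : (3 * a * l : ℤ) - c0 - 4 * ((i0 : ℤ) + i0') ≤
        2 * (min ((3 * a * l : ℤ) - i0) ((3 * a * l : ℤ) - i0' - δ) - max (i0 : ℤ) ((i0' : ℤ) - δ)) := by
      rcases min_choice ((3 * a * l : ℤ) - i0) ((3 * a * l : ℤ) - i0' - δ) with hmin | hmin <;>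
      rcases max_choice (i0 : ℤ) ((i0' : ℤ) - δ) with hmax | hmax <;>
      rw [hmin, hmax] <;> linarith
    linarith
  · intro i hi1 hi2
    have hi3 : (i0 : ℤ) ≤ i := le_trans (le_max_left _ _) hi1
    have hi4 : (i0' : ℤ) - δ ≤ i := le_trans (le_max_right _ _) hi1
    have hi5 : i ≤ 3 * a * l - i0 := le_trans hi2 (min_le_left _ _)
    have hi6 : i ≤ 3 * a * l - i0' - δ := le_trans hi2 (min_le_right _ _)
    rw [← h3 i hi3 hi5, T.act_mul _ (M.zpow_mem (hs'.mem w) _) _ hvM, hδ0,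
      F3a_zpow (hs'.mem w) h1', ← h3' (i + δ) (by linarith) (by linarith)]
    congr 1
    rw [hδ]
    ring

end Pool.Agent.Lib.MP_6567fb_al
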