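import Pool.Agent.Lib.MP_6567fb_al.F3a
import Pool.Agent.Lib.MP_6567fb_al.A.LemmaLA

/-!
# MP_6567fb_al, module F3b

F3.2, non-periodic case.  Edge types: e_i := (L i, L(i+1)); only i = 0 and its translates are used: f := e_0, b_m := P^m P_f(g1)^{-m} for e_{ml} = P^m e_0 = b_m f (b_m in H), P := s g1, P_f := section fixing e_0
(lift_sec, Full.surj).  y_0 := P P_f(g1)⁻¹ ∈ H; P P_f(g1) ≠ P_f(g1) P (otherwise y_0 commutes with P, hnp: y_0 = 1, but y_0 L 0 = L l).  u_0 := y_0; y_{ml} = P^m y_0 P^-m; b_m⁻¹ y_{ml} b_m = P_f(g1)^m y_0 P_f(g1)^-m.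
If k ≠ 0 in align: x e_{ml} = e'_{ml+δ}, ml + δ = (m + ρ) l + δ0, 0 ≤ δ0 < l: e'_{δ0} = b' f for a b' ∈ H (orb: x ∈ M) for those δ0 for which it is possible; x y_{ml} x⁻¹ = y'_{ml+δ} (unique element of H mapping
e'_{ml+δ} to e'_{ml+δ+l}).  Result in A_c: ρ(P_f(w^-k)) ρ(P_f g1)^m emb(y_0) = ρ(P_f g1)^{m+ρ} emb(u'_{δ0}), u'_{δ0} := b'⁻¹ P' P'_{e'}(g1)⁻¹ b', for the m with ml, ml + l in [i1,i2]: at least dim A_c consecutive m when a is large, so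
for all m ∈ ℤ (unip_agree).  c with emb_c(P_f(g1) y_0 P_f(g1)⁻¹) ≠ emb_c(y_0).  lemma_LA for the representation g ↦ ρ_c(P_f g) of G, for every one of the finitely many δ0, C := constant: k = 0.  Then
conj_of_seg.
-/

set_option autoImplicit false

open scoped Pointwise
open Filter

namespace Pool.Agent.Lib.MP_6567fb_al

open MTree
variable {Γ G : Type} [Group Γ] [Group G] {π : Γ →* G}

attribute [local instance] LinModel.acg LinModel.mod LinModel.fin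

theorem F3b_star {M : Subgroup Γ} {T : MTree M} (hT : T.IsSplitting π.ker)
    {s s' : G →* Γ} (hs : SecIn π M s) (hs' : SecIn π M s') {g1 : G} {l : ℕ}
    {L L' : ℤ → T.X} (hL : T.IsAxis (s g1) l L) (hL' : T.IsAxis (s' g1) l L')
    {r : G →* Γ} (hr : IsSec π r) (hrM : ∀ g, r g ∈ M ∧ T.FixE (r g) (L 0) (L 1))
    {b' x : Γ} {h : G} (hx : x ∈ M) (hxπ : π x = h) {δ0 : ℤ} (hb' : b' ∈ M ⊓ π.ker)
    (hb0 : T.act b' (L 0) = L' δ0) (hb1 : T.act b' (L 1) = L' (δ0 + 1)) {n m : ℤ}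
    (hm : T.act x (L (m * l)) = L' (n * l + δ0))
    (hm1 : T.act x (L (m * l + 1)) = L' (n * l + δ0 + 1)) :
    (s' g1) ^ (-n) * x * (s g1) ^ m = b' * r (g1 ^ (-n) * h * g1 ^ m) := by
  have hbM : b' ∈ M := hb'.1
  have hbπ : π b' = 1 := hb'.2
  have hPm : (s g1) ^ m ∈ M := M.zpow_mem (hs.mem g1) m
  have hPn : (s' g1) ^ (-n) ∈ M := M.zpow_mem (hs'.mem g1) (-n)
  refine hT.eq_of_agree (M.mul_mem (M.mul_mem hPn hx) hPm) (M.mul_mem hbM (hrM _).1) ?_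
    (F3a_adj hL.2.1 0) ?_ ?_
  · rw [map_mul, map_mul, map_mul, map_zpow, map_zpow, hs.sec, hs'.sec, hbπ, hxπ, hr, one_mul]
  · rw [T.act_mul _ (M.mul_mem hPn hx) _ hPm, T.act_mul _ hPn _ hx, T.act_mul _ hbM _ (hrM _).1,
      (hrM _).2.1, hb0, F3a_zpow (hs.mem g1) hL, zero_add, hm, F3a_zpow (hs'.mem g1) hL']
    congr 1; ring
  · have e : (0 : ℤ) + 1 = 1 := by norm_num
    rw [e, T.act_mul _ (M.mul_mem hPn hx) _ hPm, T.act_mul _ hPn _ hx,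
      T.act_mul _ hbM _ (hrM _).1,
      (hrM _).2.2, hb1, F3a_zpow (hs.mem g1) hL, add_comm 1 (m * l : ℤ), hm1,
      F3a_zpow (hs'.mem g1) hL']
    congr 1; ring

theorem F3b_grp {P P' b' x H R : Γ} {n m : ℤ}
    (h1 : P' ^ (-n) * x * P ^ m = b' * (R ^ (-n) * H * R ^ m))
    (h2 : P' ^ (-(n + 1)) * x * P ^ (m + 1) = b' * (R ^ (-(n + 1)) * H * R ^ (m + 1))) :
    R ^ n * (b'⁻¹ * P' * b' * R⁻¹) * (R ^ n)⁻¹ = (H * R ^ m) * (P * R⁻¹) * (H * R ^ m)⁻¹ := by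
  have h3 : P' ^ (-(n + 1)) * x * P ^ (m + 1) = P'⁻¹ * (P' ^ (-n) * x * P ^ m) * P := by
    group
  rw [h1, h2] at h3
  have e : b'⁻¹ * P' * b' = (R ^ (-n) * H * R ^ m) * P * (R ^ (-(n + 1)) * H * R ^ (m + 1))⁻¹ := by
    rw [eq_mul_inv_iff_mul_eq]
    have : b'⁻¹ * P' * b' * (R ^ (-(n + 1)) * H * R ^ (m + 1)) =
        b'⁻¹ * P' * (b' * (R ^ (-(n + 1)) * H * R ^ (m + 1))) := by group
    rw [this, h3]
    group
  rw [e]
  group

theorem nonper (hc : Ctx π) {M : Subgroup Γ} (hM : Full π M) {T : MTree M}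
    (hT : T.IsSplitting π.ker) {s s' : G →* Γ} (hs : SecIn π M s) (hs' : SecIn π M s') {g1 : G}
    (g2 : G) (hy : T.Hyp (s g1)) (hy' : T.Hyp (s' g1))
    (hnp : ∀ z ∈ M ⊓ π.ker, z * s g1 = s g1 * z → z = 1) :
    AA (fun b a => CJ (M ⊓ π.ker) (s (wd g1 g2 b a)) (s' (wd g1 g2 b a)) →
      ∃ x ∈ M ⊓ π.ker, x * s g1 * x⁻¹ = s' g1 ∧
        x * s (wd g1 g2 b a) * x⁻¹ = s' (wd g1 g2 b a)) := by
  classical
  have hni := hT.noInv hc
  obtain ⟨l, L, hL⟩ : ∃ (l : ℕ) (L : ℤ → T.X), T.IsAxis (s g1) l L := by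
    rcases T.ell_or_axis hni (hs.mem g1) with ⟨x, hx⟩ | h
    · exact absurd hx (hy x)
    · exact h
  obtain ⟨l', L', hL'⟩ : ∃ (l : ℕ) (L : ℤ → T.X), T.IsAxis (s' g1) l L := by
    rcases T.ell_or_axis hni (hs'.mem g1) with ⟨x, hx⟩ | h
    · exact absurd hx (hy' x)
    · exact h
  by_cases hll : l = l'
  swap
  · unfold AA
    filter_upwards [align hc hT hs hs' g2 hL hL'] with b ⟨c, hb⟩
    filter_upwards [hb] with a ha hCJ
    exact absurd (ha hCJ).1 hll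
  subst hll
  obtain ⟨r, ⟨hr, hrM⟩, -⟩ := hT.lift_sec (F3a_adj hL.2.1 0) hM.surj
  rw [zero_add] at hrM
  set P := s g1 with hP
  set P' := s' g1 with hP'
  set R := r g1 with hR
  have hPM : P ∈ M := hs.mem g1
  have hPM' : P' ∈ M := hs'.mem g1
  have hRM : R ∈ M := (hrM g1).1
  have hy0 : P * R⁻¹ ∈ M ⊓ π.ker := by
    refine ⟨M.mul_mem hPM (M.inv_mem hRM), ?_⟩
    show π (P * R⁻¹) = 1
    rw [map_mul, map_inv, hP, hR, hs.sec, hr, mul_inv_cancel]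
  have hlpos : 0 < l := hL.1
  obtain ⟨lm⟩ := hc.lin
  obtain ⟨c, hcne⟩ : ∃ c, lm.emb c (R * (P * R⁻¹) * R⁻¹) ≠ lm.emb c (P * R⁻¹) := by
    by_contra hcon
    push Not at hcon
    have hRy : R * (P * R⁻¹) * R⁻¹ ∈ π.ker := by
      have h1 : π (P * R⁻¹) = 1 := hy0.2
      show π (R * (P * R⁻¹) * R⁻¹) = 1
      rw [map_mul, map_mul, h1, mul_one, map_inv, mul_inv_cancel]
    have h1 := lm.inj _ hRy _ hy0.2 hcon
    -- `y0` commutes with `R`, so with `P`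
    have h2 : R * (P * R⁻¹) = (P * R⁻¹) * R := by
      conv_rhs => rw [← h1]
      group
    have h3 : (P * R⁻¹) * P = P * (P * R⁻¹) := by
      have e1 : (P * R⁻¹) * P = (P * R⁻¹) * ((P * R⁻¹) * R) := by group
      have e2 : P * (P * R⁻¹) = (P * R⁻¹) * (R * (P * R⁻¹)) := by group
      rw [e1, e2, h2]
    have h4 := hnp _ hy0 h3
    have h5 : T.act (P * R⁻¹) (L 0) = L l := by
      rw [T.act_mul _ hPM _ (M.inv_mem hRM)]
      have e1 : T.act R⁻¹ (L 0) = L 0 := by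
        conv_lhs => rw [← (hrM g1).2.1]
        exact T.act_inv_act hRM _
      rw [e1, hL.2.2, zero_add]
    rw [h4, T.act_one] at h5
    have := TG.line_inj hL.2.1 h5
    omega
  set ρ' : G →* Module.End ℚ (lm.A c) := (lm.ρ c).comp r with hρ'
  have hU : ∀ g, IsNilpotent (ρ' g - 1) := fun g => lm.unip c (r g)
  set u : lm.A c := lm.emb c (P * R⁻¹) with hu
  have hune : ρ' g1 u ≠ u := by
    have e := lm.equiv c R (P * R⁻¹) hy0.2
    rw [show ρ' g1 u = lm.ρ c R (lm.emb c (P * R⁻¹)) from rfl, ← e]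
    exact hcne
  -- the vectors `u'`
  have hu'ex : ∀ δ0 : ℕ, ∃ u' : lm.A c, ∀ b' ∈ M ⊓ π.ker, T.act b' (L 0) = L' δ0 →
      T.act b' (L 1) = L' (δ0 + 1) → lm.emb c (b'⁻¹ * P' * b' * R⁻¹) = u' := by
    intro δ0
    by_cases hex : ∃ b' ∈ M ⊓ π.ker, T.act b' (L 0) = L' δ0 ∧ T.act b' (L 1) = L' (δ0 + 1)
    · obtain ⟨b0, hb0, hb1, hb2⟩ := hex
      refine ⟨lm.emb c (b0⁻¹ * P' * b0 * R⁻¹), fun b' hb' h1 h2 => ?_⟩
      have hadj := F3a_adj hL.2.1 0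
      rw [zero_add] at hadj
      have hbb : b' = b0 := hT.eq_of_agree hb'.1 hb0.1
        ((show π b' = 1 from hb'.2).trans (show π b0 = 1 from hb0.2).symm) hadj
        (h1.trans hb1.symm) (h2.trans hb2.symm)
      rw [hbb]
    · refine ⟨0, fun b' hb' h1 h2 => absurd ⟨b', hb', h1, h2⟩ hex⟩
  choose u' hu' using hu'ex
  have hLA : ∀ δ0 ∈ Finset.range l, ∀ᶠ b in atTop, ∀ C : ℕ, ∀ᶠ a : ℕ in atTop,
      ∀ k ρ0 : ℤ, k ≠ 0 → 2 * |ρ0| ≤ 3 * (a : ℤ) + C →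
      ρ' ((wd g1 g2 b a) ^ (-k)) u = ρ' (g1 ^ ρ0) (u' δ0) →
      ρ' ((wd g1 g2 b a) ^ (-k) * g1) u = ρ' (g1 ^ (ρ0 + 1)) (u' δ0) → False := by
    intro δ0 _
    obtain ⟨b0, hb0⟩ := Pool.MP6567.Alg.lemma_LA ρ' hU g1 g2 u (u' δ0) hune
    filter_upwards [eventually_ge_atTop b0] with b hb C
    obtain ⟨a0, ha0⟩ := hb0 b hb C
    filter_upwards [eventually_ge_atTop a0] with a ha
    exact ha0 a ha
  rw [← Filter.eventually_all_finset] at hLA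
  set d := Module.finrank ℚ (lm.A c) with hd
  unfold AA
  filter_upwards [align hc hT hs hs' g2 hL hL', hLA] with b ⟨cc, hb⟩ hbLA
  have hbLA' : ∀ᶠ a : ℕ in atTop, ∀ δ0 ∈ Finset.range l,
      ∀ k ρ0 : ℤ, k ≠ 0 → 2 * |ρ0| ≤ 3 * (a : ℤ) + (cc + 2 : ℕ) →
      ρ' ((wd g1 g2 b a) ^ (-k)) u = ρ' (g1 ^ ρ0) (u' δ0) →
      ρ' ((wd g1 g2 b a) ^ (-k) * g1) u = ρ' (g1 ^ (ρ0 + 1)) (u' δ0) → False :=
    (Filter.eventually_all_finset _).2 (fun δ0 hδ0 => hbLA δ0 hδ0 (cc + 2))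
  filter_upwards [hb, hbLA', eventually_ge_atTop (cc + 2 * (d + 2) + 2)] with a ha haLA haB hCJ
  obtain ⟨-, k, δ, i1, i2, x, hxM, hxπ, hxw, hδ, hi, hseg⟩ := ha hCJ
  set w := wd g1 g2 b a with hw
  have hl1 : (1 : ℤ) ≤ l := by exact_mod_cast hlpos
  have hlen : ((d : ℤ) + 2) * l + 2 ≤ i2 - i1 := by
    have h1 : ((cc + 2 * (d + 2) + 2 : ℕ) : ℤ) ≤ a := by exact_mod_cast haB
    push_cast at h1
    have h2 : ((cc : ℤ) + 2 * (d + 2) + 2) * l ≤ a * l := by nlinarith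
    have h3 : (0 : ℤ) ≤ cc := by positivity
    have h4 : (0 : ℤ) ≤ d := by positivity
    nlinarith
  by_cases hk : k = 0
  · -- the good case
    have hxk : x ∈ M ⊓ π.ker := by
      refine ⟨hxM, ?_⟩
      show π x = 1
      rw [hxπ, hk, neg_zero, zpow_zero]
    refine ⟨x, hxk, ?_, hxw⟩
    refine conj_of_seg hT hPM hPM' ?_ hxk hL hL' (i1 := i1) (δ := δ) ?_
    · rw [hP, hP', hs.sec, hs'.sec]
    · intro i h1 h2
      refine hseg i h1 ?_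
      have h4 : (0 : ℤ) ≤ d := by positivity
      nlinarith
  · exfalso
    -- `δ = ρ0 l + δ0`
    obtain ⟨ρ0, δ0, hδ0, hδeq⟩ : ∃ (ρ0 : ℤ) (δ0 : ℕ), δ0 < l ∧ δ = ρ0 * l + δ0 := by
      refine ⟨δ / l, (δ % l).toNat, ?_, ?_⟩
      · have := Int.emod_lt_of_pos δ (by omega : (0 : ℤ) < l)
        omega
      · have h1 := Int.emod_nonneg δ (by omega : (l : ℤ) ≠ 0)
        rw [Int.toNat_of_nonneg h1]
        have := Int.mul_ediv_add_emod δ l
        linarith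
    -- the first multiple of `l`
    obtain ⟨n0, hn0, hn0'⟩ : ∃ n0 : ℤ, i1 ≤ n0 * l ∧ n0 * l < i1 + l := by
      refine ⟨(i1 + l - 1) / l, ?_, ?_⟩
      · have := Int.lt_ediv_add_one_mul_self (i1 + l - 1) (by omega : (0 : ℤ) < l)
        linarith
      · have := Int.ediv_mul_le (i1 + l - 1) (by omega : (l : ℤ) ≠ 0)
        linarith
    have hact : ∀ m : ℤ, n0 ≤ m → m ≤ n0 + d → T.act x (L (m * l)) = L' ((m + ρ0) * l + δ0) ∧
        T.act x (L (m * l + 1)) = L' ((m + ρ0) * l + δ0 + 1) := by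
      intro m h1 h2
      have h3 : n0 * l ≤ m * l := by nlinarith
      have h4 : m * l ≤ (n0 + d) * l := by nlinarith
      constructor
      · rw [hseg _ (by linarith) (by nlinarith), hδeq]
        congr 1; ring
      · rw [hseg _ (by linarith) (by nlinarith), hδeq]
        congr 1; ring
    obtain ⟨b', hb', hb0, hb1⟩ : ∃ b' ∈ M ⊓ π.ker, T.act b' (L 0) = L' δ0 ∧
        T.act b' (L 1) = L' (δ0 + 1) := by
      have hadj := F3a_adj hL.2.1 0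
      rw [zero_add] at hadj
      have hPm : P ^ n0 ∈ M := M.zpow_mem hPM n0
      have hPn : P' ^ (-(n0 + ρ0)) ∈ M := M.zpow_mem hPM' _
      obtain ⟨b', hb', h1, h2⟩ := hT.orb (P' ^ (-(n0 + ρ0)) * x * P ^ n0)
        (M.mul_mem (M.mul_mem hPn hxM) hPm) _ _ hadj
      obtain ⟨h3, h4⟩ := hact n0 le_rfl (by omega)
      refine ⟨b', hb', ?_, ?_⟩
      · rw [h1, T.act_mul _ (M.mul_mem hPn hxM) _ hPm, T.act_mul _ hPn _ hxM, F3a_zpow hPM hL,
          zero_add, h3, F3a_zpow hPM' hL']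
        congr 1; ring
      · rw [h2, T.act_mul _ (M.mul_mem hPn hxM) _ hPm, T.act_mul _ hPn _ hxM, F3a_zpow hPM hL,
          add_comm 1 (n0 * l : ℤ), h4, F3a_zpow hPM' hL']
        congr 1; ring
    have hb'M : b' ∈ M := hb'.1
    have hb'π : π b' = 1 := hb'.2
    have hstar : ∀ m : ℤ, n0 ≤ m → m ≤ n0 + d →
        P' ^ (-(m + ρ0)) * x * P ^ m = b' * (R ^ (-(m + ρ0)) * r (w ^ (-k)) * R ^ m) := by
      intro m h1 h2
      obtain ⟨h3, h4⟩ := hact m h1 h2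
      have := F3b_star hT hs hs' hL hL' hr hrM hxM hxπ hb' hb0 hb1 h3 h4
      rw [this, map_mul, map_mul, map_zpow, map_zpow r g1 m]
    set Uv : Γ := b'⁻¹ * P' * b' * R⁻¹ with hUv
    have hUvk : Uv ∈ π.ker := by
      show π Uv = 1
      rw [hUv, map_mul, map_mul, map_mul, map_inv, map_inv, hb'π, hP', hR, hs'.sec, hr]
      simp
    have hU' : lm.emb c Uv = u' δ0 := hu' δ0 b' hb' hb0 hb1
    have hrel : ∀ m : ℤ, n0 ≤ m → m < n0 + d →
        ρ' (w ^ (-k)) (ρ' (g1 ^ m) u) = ρ' (g1 ^ m) (ρ' (g1 ^ ρ0) (u' δ0)) := by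
      intro m h1 h2
      have e1 := hstar m h1 (by omega)
      have e2 := hstar (m + 1) (by omega) (by omega)
      rw [show m + 1 + ρ0 = m + ρ0 + 1 by ring] at e2
      have e3 := F3b_grp e1 e2
      have e4 := congrArg (lm.emb c) e3
      rw [lm.equiv c _ _ hUvk, lm.equiv c _ _ hy0.2, hU'] at e4
      have e5 : ρ' (w ^ (-k)) (ρ' (g1 ^ m) u) = lm.ρ c (r (w ^ (-k)) * R ^ m) u := by
        rw [map_mul, hR, ← map_zpow]; rfl
      have e6 : ρ' (g1 ^ m) (ρ' (g1 ^ ρ0) (u' δ0)) = lm.ρ c (R ^ (m + ρ0)) (u' δ0) := by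
        rw [zpow_add, map_mul, hR, ← map_zpow, ← map_zpow]; rfl
      rw [e5, e6]
      exact e4.symm
    have hall := Pool.MP6567.Alg.unip_agree ρ' hU (ρ' (w ^ (-k))) g1 g1 u (ρ' (g1 ^ ρ0) (u' δ0)) n0
      (fun i hi => hrel (n0 + i) (by omega) (by omega))
    have h0 := hall 0
    have h1 := hall 1
    rw [zpow_zero, map_one] at h0
    rw [zpow_one] at h1
    refine haLA δ0 (Finset.mem_range.2 hδ0) k ρ0 hk ?_ h0 ?_
    · -- the bound for `ρ0`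
      push_cast
      have e1 : |ρ0| * l ≤ |δ| + l := by
        have e2 : ρ0 * l = δ - δ0 := by linarith
        have e3 : |ρ0| * l = |δ - δ0| := by
          rw [← e2, abs_mul, abs_of_nonneg (by omega : (0 : ℤ) ≤ l)]
        rw [e3]
        have e4 : |δ - (δ0 : ℤ)| ≤ |δ| + |(δ0 : ℤ)| := abs_sub _ _
        have e5 : |(δ0 : ℤ)| = δ0 := abs_of_nonneg (by positivity)
        have e6 : (δ0 : ℤ) < l := by exact_mod_cast hδ0
        linarith
      have e7 : (2 * |ρ0|) * l ≤ (3 * a + (cc + 2)) * l := by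
        have h3 : (0 : ℤ) ≤ cc := by positivity
        nlinarith
      exact le_of_mul_le_mul_right e7 (by omega)
    · rw [map_mul, zpow_add, zpow_one, map_mul]
      have e1 : (ρ' (w ^ (-k)) * ρ' g1) u = ρ' (w ^ (-k)) (ρ' g1 u) := rfl
      rw [e1, h1]
      have e2 : ρ' (g1 ^ ρ0) * ρ' g1 = ρ' g1 * ρ' (g1 ^ ρ0) := by
        rw [← map_mul, ← map_mul, ← zpow_add_one, ← zpow_one_add, add_comm]
      rw [e2]
      rfl

end Pool.Agent.Lib.MP_6567fb_al
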