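import Pool.Agent.Lib.MP_6567fb_al.F1c
import Pool.Agent.Lib.MP_6567fb_al.F2d

/-!
# MP_6567fb_al, module F3c

F3.2, periodic case.  exists_per: z ∈ H commutes with P, so translates L by c ≠ 0 (comm_axis; c = 0 would give z = 1).  R := lift of π P fixing (L 0, L 1): P R⁻¹ ...: z^l P^{-c} fixes all L i and is over (π P)^-c:
so it is (lift fixing L i, L(i+1))^{-c} for every i, by roots all these lifts are one R, R commutes with z, P, fixes L pointwise.  The elements of H translating L form a group mapping injectively to ℤ (translation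
length), non-trivial: generator q with t > 0 minimal.  P R⁻¹ ∈ H translates by l: = q^k0, k0 t = l.  cent: an element of H commuting with P translates L (comm_axis).
comm_q: x L is the axis of x q x⁻¹ = q (q has axis L: IsAxis q t L), so x translates L by c; x^t q^-c fixes L pointwise (c as above), it is over (π x)^t; r := lift of π x fixing (L 0, L 1): r^t = x^t q^-c for every edge: r fixes
L pointwise, commutes with q (roots: q r q⁻¹ has the same t-th power); x r⁻¹ ∈ H translates L: = q^n (stab).  eq_of_q: both L, L' are axes of q (axis_unique): same range, t = t'; R, R' agree; k0 t = l = k0' t'.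
gate lemmas for y ∈ H with y ∉ <q>: the intersection of L and yL is finite.
-/

set_option autoImplicit false

open scoped Pointwise
open Filter

namespace Pool.Agent.Lib.MP_6567fb_al

open MTree
variable {Γ G : Type} [Group Γ] [Group G] {π : Γ →* G}

/-! ### translations of a line -/

theorem F3c_adj {X : Type} {G' : SimpleGraph X} {L : ℤ → X} (hL : TG.IsLine G' L) (i : ℤ) :
    G'.Adj (L i) (L (i + 1)) := by
  rw [← SimpleGraph.dist_eq_one_iff_adj, hL]
  have : i - (i + 1) = -1 := by ring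
  rw [this]; rfl

theorem F3c_tr_inv {M : Subgroup Γ} {T : MTree M} {L : ℤ → T.X} {z : Γ} (hz : z ∈ M) {c : ℤ}
    (h : ∀ i, T.act z (L i) = L (i + c)) (i : ℤ) : T.act z⁻¹ (L i) = L (i - c) := by
  have h1 := h (i - c)
  rw [sub_add_cancel] at h1
  rw [← h1, T.act_inv_act hz]

theorem F3c_tr_mul {M : Subgroup Γ} {T : MTree M} {L : ℤ → T.X} {z z' : Γ} (hz : z ∈ M)
    (hz' : z' ∈ M) {c c' : ℤ} (h : ∀ i, T.act z (L i) = L (i + c))
    (h' : ∀ i, T.act z' (L i) = L (i + c')) (i : ℤ) :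
    T.act (z * z') (L i) = L (i + (c + c')) := by
  rw [T.act_mul z hz z' hz', h', h]
  congr 1; ring

theorem F3c_tr_pow {M : Subgroup Γ} {T : MTree M} {L : ℤ → T.X} {z : Γ} (hz : z ∈ M) {c : ℤ}
    (h : ∀ i, T.act z (L i) = L (i + c)) (n : ℕ) (i : ℤ) :
    T.act (z ^ n) (L i) = L (i + n * c) := by
  induction n generalizing i with
  | zero => rw [pow_zero, T.act_one]; congr 1; push_cast; ring
  | succ n ih =>
    rw [pow_succ, T.act_mul _ (M.pow_mem hz n) _ hz, h, ih]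
    congr 1; push_cast; ring

theorem F3c_tr_zpow {M : Subgroup Γ} {T : MTree M} {L : ℤ → T.X} {z : Γ} (hz : z ∈ M) {c : ℤ}
    (h : ∀ i, T.act z (L i) = L (i + c)) (n : ℤ) (i : ℤ) :
    T.act (z ^ n) (L i) = L (i + n * c) := by
  obtain ⟨k, hk | hk⟩ := Int.eq_nat_or_neg n
  · rw [hk, zpow_natCast]
    exact F3c_tr_pow hz h k i
  · rw [hk, zpow_neg, zpow_natCast, F3c_tr_inv (M.pow_mem hz k) (F3c_tr_pow hz h k) i]
    congr 1; ring

/-- an element of `H` fixing the line pointwise is trivial -/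
theorem F3c_one {M : Subgroup Γ} {T : MTree M} (hT : T.IsSplitting π.ker) {L : ℤ → T.X}
    (hL : T.IsLine L) {z : Γ} (hz : z ∈ M ⊓ π.ker) {i : ℤ} (h0 : T.act z (L i) = L i)
    (h1 : T.act z (L (i + 1)) = L (i + 1)) : z = 1 :=
  hT.free z hz _ _ (F3c_adj hL i) h0 h1

/-- roots with integer exponents -/
theorem F3c_zroots (hc : Ctx π) {x y : Γ} {k : ℤ} (hk : k ≠ 0) (h : x ^ k = y ^ k) : x = y := by
  obtain ⟨n, hn | hn⟩ := Int.eq_nat_or_neg k
  · rw [hn, zpow_natCast, zpow_natCast] at h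
    exact hc.roots x y n (by omega) h
  · rw [hn, zpow_neg, zpow_neg, zpow_natCast, zpow_natCast, inv_inj] at h
    exact hc.roots x y n (by omega) h

/-- if an element over `g ^ k` (`k ≠ 0`) fixes the line pointwise then there is a lift of `g` fixing the line
pointwise -/
theorem F3c_lift_line (hc : Ctx π) {M : Subgroup Γ} {T : MTree M} (hT : T.IsSplitting π.ker)
    {L : ℤ → T.X} (hL : T.IsLine L) {m w : Γ} (hm : m ∈ M) (hw : w ∈ M) {k : ℤ} (hk : k ≠ 0)
    (hpi : π w = π m ^ k) (hfix : ∀ i, T.act w (L i) = L i) :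
    ∃ r ∈ M, π r = π m ∧ (∀ i, T.act r (L i) = L i) ∧ r ^ k = w := by
  have key : ∀ i : ℤ, ∃ r ∈ M, π r = π m ∧ T.act r (L i) = L i ∧ T.act r (L (i + 1)) = L (i + 1) ∧
      r ^ k = w := by
    intro i
    obtain ⟨p, ⟨hp1, hp2, hp3, hp4⟩, -⟩ := hT.lift (F3c_adj hL i) hm
    refine ⟨p, hp1, hp2, hp3, hp4, ?_⟩
    have hfp : ∀ x : T.X, T.act p x = x → T.act (p ^ k) x = x := by
      intro x hx
      have := F3c_tr_zpow (T := T) (L := fun _ => x) hp1 (c := 0) (fun _ => hx) k 0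
      exact this
    refine hT.eq_of_agree (M.zpow_mem hp1 k) hw ?_ (F3c_adj hL i) ?_ ?_
    · rw [map_zpow, hp2, hpi]
    · rw [hfp _ hp3, hfix]
    · rw [hfp _ hp4, hfix]
  obtain ⟨r, hr, hr1, hr2, hr3, hr4⟩ := key 0
  refine ⟨r, hr, hr1, ?_, hr4⟩
  intro i
  obtain ⟨r', hr', hr1', hr2', hr3', hr4'⟩ := key i
  have : r = r' := F3c_zroots hc hk (hr4.trans hr4'.symm)
  rw [this, hr2']

/-- an element translating the line commutes with an element fixing it pointwise, if it commutes modulo `ker π` -/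
theorem F3c_comm {M : Subgroup Γ} {T : MTree M} (hT : T.IsSplitting π.ker) {L : ℤ → T.X}
    (hL : T.IsLine L) {x r : Γ} (hx : x ∈ M) (hr : r ∈ M) (hfix : ∀ i, T.act r (L i) = L i) {c : ℤ}
    (h : ∀ i, T.act x (L i) = L (i + c)) (hpi : π (r * x) = π (x * r)) : r * x = x * r := by
  refine hT.eq_of_agree (M.mul_mem hr hx) (M.mul_mem hx hr) hpi (F3c_adj hL 0) ?_ ?_
  · rw [T.act_mul r hr x hx, T.act_mul x hx r hr, hfix, h, hfix]
  · rw [T.act_mul r hr x hx, T.act_mul x hx r hr, hfix, h, hfix]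

theorem exists_per (hc : Ctx π) {M : Subgroup Γ} {T : MTree M}
    (hT : T.IsSplitting π.ker) {P : Γ} (hP : P ∈ M) {l : ℕ} {L : ℤ → T.X} (hL : T.IsAxis P l L)
    (hz : ∃ z ∈ M ⊓ π.ker, z ≠ 1 ∧ z * P = P * z) : ∃ q R t k0, IsPer π T P q R l t k0 L := by
  obtain ⟨z, hzH, hz1, hzP⟩ := hz
  have hLl : T.IsLine L := hL.2.1
  have hl : 0 < l := hL.1
  have hPact : ∀ i, T.act P (L i) = L (i + (l : ℤ)) := hL.2.2
  have hzM : z ∈ M := (Subgroup.mem_inf.mp hzH).1
  have hzK : π z = 1 := MonoidHom.mem_ker.mp (Subgroup.mem_inf.mp hzH).2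
  obtain ⟨c, hcact⟩ := T.comm_axis hP hzM hL hzP
  have hc0 : c ≠ 0 := by
    rintro rfl
    apply hz1
    refine F3c_one hT hLl hzH (i := 0) ?_ ?_
    · simpa using hcact 0
    · simpa using hcact 1
  -- the element R
  obtain ⟨R, hRM, hRpi, hRact, -⟩ := F3c_lift_line hc hT hLl hP
    (w := z ^ (l : ℤ) * P ^ (-c)) (M.mul_mem (M.zpow_mem hzM _) (M.zpow_mem hP _)) (k := -c)
    (neg_ne_zero.mpr hc0) (by rw [map_mul, map_zpow, map_zpow, hzK, one_zpow, one_mul]) (by
      intro i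
      rw [F3c_tr_mul (M.zpow_mem hzM _) (M.zpow_mem hP _) (F3c_tr_zpow hzM hcact l)
        (F3c_tr_zpow hP hPact (-c))]
      congr 1; ring)
  have hRP : R * P = P * R := F3c_comm hT hLl hP hRM hRact hPact (by
    rw [map_mul, map_mul, hRpi])
  -- the generator
  have hex : ∃ n : ℕ, 0 < n ∧ ∃ y ∈ M ⊓ π.ker, ∀ i, T.act y (L i) = L (i + (n : ℤ)) := by
    obtain ⟨n, hn | hn⟩ := Int.eq_nat_or_neg c
    · exact ⟨n, by omega, z, hzH, by rw [← hn]; exact hcact⟩
    · refine ⟨n, by omega, z⁻¹, inv_mem hzH, fun i => ?_⟩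
      rw [F3c_tr_inv hzM hcact, hn, sub_neg_eq_add]
  classical
  obtain ⟨ht0, q, hqH, hqact⟩ := Nat.find_spec hex
  have hmin : ∀ m, m < Nat.find hex → ¬ (0 < m ∧ ∃ y ∈ M ⊓ π.ker, ∀ i, T.act y (L i) = L (i + (m : ℤ))) :=
    fun m hm => Nat.find_min hex hm
  generalize ht : Nat.find hex = t at ht0 hqact hmin
  have hqM : q ∈ M := (Subgroup.mem_inf.mp hqH).1
  have hqK : π q = 1 := MonoidHom.mem_ker.mp (Subgroup.mem_inf.mp hqH).2
  have hstab : ∀ y ∈ M ⊓ π.ker, ∀ d : ℤ, (∀ i, T.act y (L i) = L (i + d)) →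
      ∃ n : ℤ, y = q ^ n ∧ d = n * t := by
    intro y hy d hd
    have hyM : y ∈ M := (Subgroup.mem_inf.mp hy).1
    have ht' : (t : ℤ) ≠ 0 := by omega
    have hmod := Int.emod_add_mul_ediv d t
    have h0 := Int.emod_nonneg d ht'
    have h1 := Int.emod_lt_of_pos d (b := (t : ℤ)) (by omega)
    -- y * q ^ (-(d / t)) translates by d % t
    have hact : ∀ i, T.act (y * q ^ (-(d / (t : ℤ)))) (L i) = L (i + ((d % (t : ℤ)).toNat : ℤ)) := by
      intro i
      rw [F3c_tr_mul hyM (M.zpow_mem hqM _) hd (F3c_tr_zpow hqM hqact _)]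
      congr 1
      rw [Int.toNat_of_nonneg h0]
      linarith [hmod]
    have hz0 : (d % (t : ℤ)).toNat = 0 := by
      by_contra hne
      exact hmin (d % (t : ℤ)).toNat (by omega) ⟨by omega, _, mul_mem hy (zpow_mem hqH _), hact⟩
    have hd0 : d % (t : ℤ) = 0 := by omega
    refine ⟨d / t, ?_, ?_⟩
    · have h1' : y * q ^ (-(d / (t : ℤ))) = 1 := by
        refine F3c_one hT hLl (mul_mem hy (zpow_mem hqH _)) (i := 0) ?_ ?_
        · rw [hact, hz0]; congr 1
        · rw [hact, hz0]; congr 1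
      rw [zpow_neg] at h1'
      exact mul_inv_eq_one.mp h1'
    · linarith [hmod, mul_comm (t : ℤ) (d / t)]
  have hRK : π (P * R⁻¹) = 1 := by rw [map_mul, map_inv, hRpi, mul_inv_cancel]
  have hRinv : ∀ i, T.act R⁻¹ (L i) = L (i + 0) := by
    intro i
    rw [F3c_tr_inv hRM (c := 0) (fun i => by rw [hRact, add_zero]), sub_zero, add_zero]
  obtain ⟨k, hk1, hk2⟩ := hstab (P * R⁻¹)
    (Subgroup.mem_inf.mpr ⟨M.mul_mem hP (M.inv_mem hRM), MonoidHom.mem_ker.mpr hRK⟩) l (by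
      intro i
      rw [F3c_tr_mul hP (M.inv_mem hRM) hPact hRinv, add_zero])
  have hkpos : 0 < k := by
    by_contra hneg
    have h1 : k ≤ 0 := not_lt.mp hneg
    have h2 : k * (t : ℤ) ≤ 0 := mul_nonpos_of_nonpos_of_nonneg h1 (by omega)
    omega
  obtain ⟨k0, hk0⟩ : ∃ k0 : ℕ, k = k0 := ⟨k.toNat, by omega⟩
  refine ⟨q, R, t, k0, ?_⟩
  refine
    { axis := hL
      q_mem := hqH
      q_ne := ?_
      tpos := ht0
      q_act := hqact
      cent := ?_
      stab := ?_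
      R_mem := hRM
      R_pi := hRpi
      R_act := hRact
      R_q := ?_
      k0pos := by omega
      eq := ?_
      len := ?_ }
  · rintro rfl
    have h1 := hqact 0
    rw [T.act_one] at h1
    have h2 := TG.line_inj hLl h1
    omega
  · intro y hy hyP
    obtain ⟨d, hd⟩ := T.comm_axis hP (Subgroup.mem_inf.mp hy).1 hL hyP
    obtain ⟨n, hn, -⟩ := hstab y hy d hd
    exact Subgroup.mem_zpowers_iff.mpr ⟨n, hn.symm⟩
  · intro y hy d hd
    obtain ⟨n, hn, -⟩ := hstab y hy d hd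
    exact Subgroup.mem_zpowers_iff.mpr ⟨n, hn.symm⟩
  · exact F3c_comm hT hLl hqM hRM hRact hqact (by rw [map_mul, map_mul, hqK, one_mul, mul_one])
  · rw [hk0, zpow_natCast] at hk1
    rw [← hk1, inv_mul_cancel_right]
  · have : (l : ℤ) = (k0 * t : ℕ) := by rw [hk2, hk0]; push_cast; ring
    exact_mod_cast this

/-- `q` has the axis `L` -/
theorem IsPer.q_axis {M : Subgroup Γ} {T : MTree M} {P q R : Γ} {l t k0 : ℕ} {L : ℤ → T.X}
    (h : IsPer π T P q R l t k0 L) : T.IsAxis q t L :=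
  ⟨h.tpos, h.axis.2.1, h.q_act⟩

/-- elements of `M` commuting with `q` -/
theorem IsPer.comm_q (hc : Ctx π) {M : Subgroup Γ} {T : MTree M}
    (hT : T.IsSplitting π.ker) {P q R : Γ} {l t k0 : ℕ} {L : ℤ → T.X}
    (h : IsPer π T P q R l t k0 L) {x : Γ} (hx : x ∈ M) (hxq : x * q * x⁻¹ = q) :
    ∃ (n : ℤ) (r : Γ), r ∈ M ∧ x = q ^ n * r ∧ π r = π x ∧ (∀ i, T.act r (L i) = L i) ∧
      r * q = q * r := by
  have hLl : T.IsLine L := h.axis.2.1
  have hqM : q ∈ M := (Subgroup.mem_inf.mp h.q_mem).1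
  have hqK : π q = 1 := MonoidHom.mem_ker.mp (Subgroup.mem_inf.mp h.q_mem).2
  have hcom : x * q = q * x := mul_inv_eq_iff_eq_mul.mp hxq
  obtain ⟨c, hcact⟩ := T.comm_axis hqM hx h.q_axis hcom
  have ht0 : (t : ℤ) ≠ 0 := by have := h.tpos; omega
  obtain ⟨r, hrM, hrpi, hract, -⟩ := F3c_lift_line hc hT hLl hx
    (w := x ^ (t : ℤ) * q ^ (-c)) (M.mul_mem (M.zpow_mem hx _) (M.zpow_mem hqM _)) (k := t) ht0
    (by rw [map_mul, map_zpow, map_zpow, hqK, one_zpow, mul_one]) (by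
      intro i
      rw [F3c_tr_mul (M.zpow_mem hx _) (M.zpow_mem hqM _) (F3c_tr_zpow hx hcact t)
        (F3c_tr_zpow hqM h.q_act (-c))]
      congr 1; ring)
  have hrq : r * q = q * r := F3c_comm hT hLl hqM hrM hract h.q_act (by
    rw [map_mul, map_mul, hqK, one_mul, mul_one])
  have hrK : π (x * r⁻¹) = 1 := by rw [map_mul, map_inv, hrpi, mul_inv_cancel]
  have hrinv : ∀ i, T.act r⁻¹ (L i) = L (i + 0) := by
    intro i
    rw [F3c_tr_inv hrM (c := 0) (fun i => by rw [hract, add_zero]), sub_zero, add_zero]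
  obtain ⟨n, hn⟩ := Subgroup.mem_zpowers_iff.mp (h.stab (x * r⁻¹)
    (Subgroup.mem_inf.mpr ⟨M.mul_mem hx (M.inv_mem hrM), MonoidHom.mem_ker.mpr hrK⟩) c (by
      intro i
      rw [F3c_tr_mul hx (M.inv_mem hrM) hcact hrinv, add_zero]))
  refine ⟨n, r, hrM, ?_, hrpi, hract, hrq⟩
  rw [hn, inv_mul_cancel_right]

/-- two periodic elements over the same `g` with the same `q` and the same length are equal -/
theorem IsPer.eq_of_q (hc : Ctx π) {M : Subgroup Γ} {T : MTree M}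
    (hT : T.IsSplitting π.ker) {P P' q R R' : Γ} {l t t' k0 k0' : ℕ} {L L' : ℤ → T.X}
    (h : IsPer π T P q R l t k0 L) (h' : IsPer π T P' q R' l t' k0' L') (hpi : π P = π P') :
    P = P' ∧ R = R' ∧ k0 = k0' := by
  have _ := hc
  have hLl : T.IsLine L := h.axis.2.1
  have hqM : q ∈ M := (Subgroup.mem_inf.mp h.q_mem).1
  obtain ⟨htt, c, hcL⟩ := T.axis_unique hqM h.q_axis h'.q_axis
  have hR' : ∀ i, T.act R' (L i) = L i := by
    intro i
    have h1 := h'.R_act (i - c)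
    rw [hcL, sub_add_cancel] at h1
    exact h1
  have hRR : R = R' := by
    refine hT.eq_of_agree h.R_mem h'.R_mem ?_ (F3c_adj hLl 0) ?_ ?_
    · rw [h.R_pi, h'.R_pi, hpi]
    · rw [h.R_act, hR']
    · rw [h.R_act, hR']
  have hk : k0 = k0' := by
    have h1 := h.len
    have h2 := h'.len
    rw [← htt] at h2
    have h3 : k0 * t = k0' * t := h1.symm.trans h2
    exact Nat.eq_of_mul_eq_mul_right h.tpos h3
  refine ⟨?_, hRR, hk⟩
  rw [h.eq, h'.eq, hRR, hk]

theorem IsPer.conj (hc : Ctx π) {M : Subgroup Γ} {T : MTree M}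
    (hT : T.IsSplitting π.ker) {P q R : Γ} {l t k0 : ℕ} {L : ℤ → T.X}
    (h : IsPer π T P q R l t k0 L) {u : Γ} (hu : u ∈ M ⊓ π.ker) :
    IsPer π T (u * P * u⁻¹) (u * q * u⁻¹) (u * R * u⁻¹) l t k0 (fun i => T.act u (L i)) := by
  have _ := hc
  have _ := hT
  have huM : u ∈ M := (Subgroup.mem_inf.mp hu).1
  have huK : π u = 1 := MonoidHom.mem_ker.mp (Subgroup.mem_inf.mp hu).2
  have hqM : q ∈ M := (Subgroup.mem_inf.mp h.q_mem).1
  have hRM := h.R_mem
  have hPM : P ∈ M := by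
    rw [h.eq]; exact M.mul_mem (M.pow_mem hqM _) hRM
  have hcj : ∀ m ∈ M, ∀ i, T.act (u * m * u⁻¹) (T.act u (L i)) = T.act u (T.act m (L i)) := by
    intro m hm i
    rw [T.act_mul _ (M.mul_mem huM hm) _ (M.inv_mem huM), T.act_mul u huM m hm, T.act_inv_act huM]
  refine
    { axis := T.axis_conj hPM huM h.axis
      q_mem := mul_mem (mul_mem hu h.q_mem) (inv_mem hu)
      q_ne := ?_
      tpos := h.tpos
      q_act := ?_
      cent := ?_
      stab := ?_
      R_mem := M.mul_mem (M.mul_mem huM hRM) (M.inv_mem huM)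
      R_pi := ?_
      R_act := ?_
      R_q := ?_
      k0pos := h.k0pos
      eq := ?_
      len := h.len }
  · intro h1
    apply h.q_ne
    rw [mul_inv_eq_one] at h1
    exact mul_left_cancel (h1.trans (mul_one u).symm)
  · intro i
    rw [hcj q hqM, h.q_act]
  · intro z hz hzP
    have h1 : u⁻¹ * z * u ∈ Subgroup.zpowers q := by
      apply h.cent _ (mul_mem (mul_mem (inv_mem hu) hz) hu)
      have h2 : u⁻¹ * (z * (u * P * u⁻¹)) * u = u⁻¹ * ((u * P * u⁻¹) * z) * u := by rw [hzP]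
      have e1 : u⁻¹ * (z * (u * P * u⁻¹)) * u = u⁻¹ * z * u * P := by group
      have e2 : u⁻¹ * ((u * P * u⁻¹) * z) * u = P * (u⁻¹ * z * u) := by group
      rw [← e1, ← e2, h2]
    obtain ⟨n, hn⟩ := Subgroup.mem_zpowers_iff.mp h1
    refine Subgroup.mem_zpowers_iff.mpr ⟨n, ?_⟩
    rw [conj_zpow, hn]; group
  · intro z hz c hzc
    have hzM : z ∈ M := (Subgroup.mem_inf.mp hz).1
    have h1 : u⁻¹ * z * u ∈ Subgroup.zpowers q := by
      apply h.stab _ (mul_mem (mul_mem (inv_mem hu) hz) hu) c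
      intro i
      rw [T.act_mul _ (M.mul_mem (M.inv_mem huM) hzM) _ huM, T.act_mul _ (M.inv_mem huM) _ hzM, hzc i,
        T.act_inv_act huM]
    obtain ⟨n, hn⟩ := Subgroup.mem_zpowers_iff.mp h1
    refine Subgroup.mem_zpowers_iff.mpr ⟨n, ?_⟩
    rw [conj_zpow, hn]; group
  · rw [map_mul, map_mul, map_mul, map_mul, h.R_pi]
  · intro i
    rw [hcj R hRM, h.R_act]
  · have h1 := h.R_q
    calc u * R * u⁻¹ * (u * q * u⁻¹) = u * (R * q) * u⁻¹ := by group
      _ = u * (q * R) * u⁻¹ := by rw [h1]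
      _ = u * q * u⁻¹ * (u * R * u⁻¹) := by group
  · rw [conj_pow]
    calc u * P * u⁻¹ = u * (q ^ k0 * R) * u⁻¹ := by rw [← h.eq]
      _ = u * q ^ k0 * u⁻¹ * (u * R * u⁻¹) := by group

/-- if `L` and `y L` have an overlap of length `> t` then `y` commutes with `q` -/
theorem IsPer.overlap (hc : Ctx π) {M : Subgroup Γ} {T : MTree M}
    (hT : T.IsSplitting π.ker) {P q R : Γ} {l t k0 : ℕ} {L : ℤ → T.X}
    (h : IsPer π T P q R l t k0 L) {y : Γ} (hy : y ∈ M) {a b a' b' : ℤ}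
    (hab : a + t + 1 ≤ b) (ha : L a = T.act y (L a')) (hb : L b = T.act y (L b')) :
    y * q * y⁻¹ = q := by
  have hLl : T.IsLine L := h.axis.2.1
  have hqM : q ∈ M := (Subgroup.mem_inf.mp h.q_mem).1
  have hqK : π q = 1 := MonoidHom.mem_ker.mp (Subgroup.mem_inf.mp h.q_mem).2
  have hG := T.tree
  have hqinv : ∀ i, T.act q⁻¹ (L i) = L (i - t) := F3c_tr_inv hqM h.q_act
  have hcj : ∀ m ∈ M, ∀ i, T.act (y * m * y⁻¹) (T.act y (L i)) = T.act y (T.act m (L i)) := by
    intro m hm i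
    rw [T.act_mul _ (M.mul_mem hy hm) _ (M.inv_mem hy), T.act_mul y hy m hm, T.act_inv_act hy]
  have hLy : T.IsLine (fun i => T.act y (L i)) := by
    intro i j
    rw [T.dist_act hy, hLl]
  -- distances
  have hdist : (a - b).natAbs = (a' - b').natAbs := by
    have h1 := hLl a b
    rw [ha, hb, T.dist_act hy, hLl] at h1
    exact h1.symm
  have hconjK : π (y * q * y⁻¹) = 1 := by rw [map_mul, map_mul, map_inv, hqK, mul_one, mul_inv_cancel]
  have hconjK' : π (y * q⁻¹ * y⁻¹) = 1 := by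
    rw [map_mul, map_mul, map_inv, map_inv, hqK, inv_one, mul_one, mul_inv_cancel]
  have hqneg : q⁻¹ ∈ M := M.inv_mem hqM
  rcases le_total a' b' with hle | hle
  · -- same direction
    have hseg : ∀ k : ℤ, 0 ≤ k → k ≤ b - a → L (a + k) = T.act y (L (a' + k)) := by
      intro k hk0 hk1
      have b1 : TG.Btw T.G (L a) (L (a + k)) (L b) := TG.line_btw hLl (by omega) (by omega)
      have b2 : TG.Btw T.G (L a) (T.act y (L (a' + k))) (L b) := by
        rw [ha, hb]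
        exact TG.line_btw hLy (by omega) (by omega)
      refine TG.btw_point_unique hG b1 (k := k.natAbs) ?_ b2 ?_
      · rw [hLl]; omega
      · rw [ha, T.dist_act hy, hLl]; omega
    refine hT.eq_of_agree (M.mul_mem (M.mul_mem hy hqM) (M.inv_mem hy)) hqM ?_ (F3c_adj hLl a) ?_ ?_
    · rw [hconjK, hqK]
    · have e0 : L a = T.act y (L a') := ha
      rw [h.q_act, hseg t (by omega) (by omega)]
      conv_lhs => rw [e0]
      rw [hcj q hqM, h.q_act]
    · have e0 := hseg 1 (by omega) (by omega)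
      have e1 := hseg (1 + t) (by omega) (by omega)
      rw [h.q_act, add_assoc, e1]
      conv_lhs => rw [e0]
      rw [hcj q hqM, h.q_act, add_assoc]
  · -- opposite direction
    exfalso
    have hseg : ∀ k : ℤ, 0 ≤ k → k ≤ b - a → L (a + k) = T.act y (L (a' - k)) := by
      intro k hk0 hk1
      have b1 : TG.Btw T.G (L a) (L (a + k)) (L b) := TG.line_btw hLl (by omega) (by omega)
      have b2 : TG.Btw T.G (L a) (T.act y (L (a' - k))) (L b) := by
        rw [ha, hb]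
        exact TG.btw_symm hG (TG.line_btw hLy (by omega) (by omega))
      refine TG.btw_point_unique hG b1 (k := k.natAbs) ?_ b2 ?_
      · rw [hLl]; omega
      · rw [ha, T.dist_act hy, hLl]; omega
    have heq : y * q⁻¹ * y⁻¹ = q := by
      refine hT.eq_of_agree (M.mul_mem (M.mul_mem hy hqneg) (M.inv_mem hy)) hqM ?_ (F3c_adj hLl a) ?_ ?_
      · rw [hconjK', hqK]
      · have e0 : L a = T.act y (L a') := ha
        rw [h.q_act, hseg t (by omega) (by omega)]
        conv_lhs => rw [e0]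
        rw [hcj q⁻¹ hqneg, hqinv]
      · have e0 := hseg 1 (by omega) (by omega)
        have e1 := hseg (1 + t) (by omega) (by omega)
        rw [h.q_act, add_assoc, e1]
        conv_lhs => rw [e0]
        rw [hcj q⁻¹ hqneg, hqinv]
        congr 2; ring
    have h1 : y * q⁻¹ * y⁻¹ = (q⁻¹)⁻¹ := by rw [heq, inv_inv]
    exact conj_inv_ne hc (inv_ne_one.mpr h.q_ne) h1

/-- `gate`: for `y ∈ H` not a power of `q` the projection of `yL` to `L` is a bounded segment `L i, i1 ≤ i ≤ i2`, and `[L i, y (L j)]` passes it -/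
theorem IsPer.gate (hc : Ctx π) {M : Subgroup Γ} {T : MTree M}
    (hT : T.IsSplitting π.ker) {P q R : Γ} {l t k0 : ℕ} {L : ℤ → T.X}
    (h : IsPer π T P q R l t k0 L) {y : Γ} (hy : y ∈ M) (hyq : y * q * y⁻¹ ≠ q) :
    ∃ i1 i2 : ℤ, i1 ≤ i2 ∧ (∀ i, (∃ j, (∀ k, T.Btw (L k) (L i) (T.act y (L j)))) ↔ i1 ≤ i ∧ i ≤ i2) := by
  have hLl : T.IsLine L := h.axis.2.1
  have hG := T.tree
  have hLy : T.IsLine (fun i => T.act y (L i)) := by
    intro i j
    rw [T.dist_act hy, hLl]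
  -- if two indices are in the projection then both vertices are in y L
  have hboth : ∀ i i' : ℤ, i ≠ i' → (∃ j, (∀ k, T.Btw (L k) (L i) (T.act y (L j)))) →
      (∃ j, (∀ k, T.Btw (L k) (L i') (T.act y (L j)))) → ∃ j, L i = T.act y (L j) := by
    rintro i i' hne ⟨j, hj⟩ ⟨j', hj'⟩
    have h1 : T.Btw (T.act y (L j)) (L i) (L i') := TG.btw_symm hG (hj i')
    have h2 : T.Btw (L i) (L i') (T.act y (L j')) := hj' i
    have h3 := (TG.btw_glue hG h1 h2 (fun e => hne (TG.line_inj hLl e))).1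
    obtain ⟨m, hm⟩ := TG.conv_range_line hG hLy (T.act y (L j)) ⟨j, rfl⟩ (T.act y (L j')) ⟨j', rfl⟩ (L i) h3
    exact ⟨m, hm.symm⟩
  have hbd : ∀ i i' : ℤ, (∃ j, (∀ k, T.Btw (L k) (L i) (T.act y (L j)))) →
      (∃ j, (∀ k, T.Btw (L k) (L i') (T.act y (L j)))) → i' ≤ i + t := by
    intro i i' hi hi'
    by_contra hlt
    have hlt' : i + t < i' := not_le.mp hlt
    obtain ⟨j, hj⟩ := hboth i i' (by omega) hi hi'
    obtain ⟨j', hj'⟩ := hboth i' i (by omega) hi' hi
    exact hyq (h.overlap hc hT hy (a := i) (b := i') (by omega) hj hj')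
  -- non-empty
  obtain ⟨p, ⟨i0, hi0⟩, hp⟩ := TG.proj_exists hG (TG.conv_range_line hG hLl) ⟨L 0, 0, rfl⟩ (T.act y (L 0))
  have hne : ∃ j, (∀ k, T.Btw (L k) (L i0) (T.act y (L j))) := by
    refine ⟨0, fun k => ?_⟩
    rw [hi0]
    exact TG.btw_symm hG (hp (L k) ⟨k, rfl⟩)
  obtain ⟨i1, hi1, hmin⟩ := Int.exists_least_of_bdd
    (P := fun i => ∃ j, (∀ k, T.Btw (L k) (L i) (T.act y (L j))))
    ⟨i0 - t, fun z hz => by have := hbd z i0 hz hne; omega⟩ ⟨i0, hne⟩
  obtain ⟨i2, hi2, hmax⟩ := Int.exists_greatest_of_bdd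
    (P := fun i => ∃ j, (∀ k, T.Btw (L k) (L i) (T.act y (L j))))
    ⟨i0 + t, fun z hz => hbd i0 z hne hz⟩ ⟨i0, hne⟩
  refine ⟨i1, i2, hmin i2 hi2, fun i => ⟨fun hi => ⟨hmin i hi, hmax i hi⟩, ?_⟩⟩
  rintro ⟨h1, h2⟩
  rcases eq_or_ne i1 i2 with heq | hne12
  · have : i = i1 := by omega
    rw [this]; exact hi1
  · obtain ⟨j, hj⟩ := hboth i1 i2 hne12 hi1 hi2
    obtain ⟨j', hj'⟩ := hboth i2 i1 (Ne.symm hne12) hi2 hi1
    have h3 : T.Btw (L i1) (L i) (L i2) := TG.line_btw hLl h1 h2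
    obtain ⟨m, hm⟩ := TG.conv_range_line hG hLy (L i1) ⟨j, hj.symm⟩ (L i2) ⟨j', hj'.symm⟩ (L i) h3
    refine ⟨m, fun k => ?_⟩
    have hm' : T.act y (L m) = L i := hm
    rw [hm']
    exact TG.btw_right _ _

end Pool.Agent.Lib.MP_6567fb_al
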