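import Pool.Agent.Lib.MP_6567fb_al.F3a
import Pool.Agent.Lib.MP_6567fb_al.F3c
import Pool.Agent.Lib.MP_6567fb_al.A.LemmaLA
import Pool.Agent.Lib.MP_6567fb_al.T7c

/-!
# MP_6567fb_al, module F3d

F3.3.  align gives x.  k = 0: x ∈ H, conj_of_seg: first alternative.  k ≠ 0: x q x⁻¹ translates a long segment of L' by t (t ≤ i2 - i1 - l - 1), so commutes with P' (commute_of_shift; it is in H); exists_per for P':
q'; x q x⁻¹ = q'^j, and x⁻¹ q' x commutes with P (same argument), so in <q>: j = 1 (positive direction: x q x⁻¹ shifts L' positively): x q x⁻¹ = q', independent of (b,a).  ClModel: ρ_c(w^-k) cl_c(q) = cl_c(q'), ρ_c(g1) cl_c(q) = cl_c(q) (R commutes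
with q, π R = g1).  If for some c ρ_c(g2) cl_c(q) ≠ cl_c(q) or cl_c(q') ≠ cl_c(q): fix this c, lemma_LA' gives b0: k ≠ 0 is impossible for b ≥ b0.  Otherwise for h ∈ M over g2: h q h⁻¹ and q are conjugate in F (ClModel.inj), by f ∈ F; f h q h⁻¹ f⁻¹ = q
with q, hqh⁻¹ ∈ H: f ∈ H (fac_malnormal for the factor H of F): h2 := f h.  The same: u q u⁻¹ = q', u ∈ H; u P u⁻¹ and P' are periodic with the same q' and length l: equal (IsPer.conj, eq_of_q).  If s' g1 = s g1 then q' = q.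
-/

set_option autoImplicit false

open scoped Pointwise
open Filter

namespace Pool.Agent.Lib.MP_6567fb_al

open MTree
variable {Γ G : Type} [Group Γ] [Group G] {π : Γ →* G}

theorem F3d_zpow {M : Subgroup Γ} (T : MTree M) {q : Γ} (hq : q ∈ M) {t : ℕ} {L : ℤ → T.X}
    (h : ∀ i, T.act q (L i) = L (i + t)) (j i : ℤ) : T.act (q ^ j) (L i) = L (i + j * t) := by
  induction j using Int.induction_on generalizing i with
  | zero => simp [T.act_one]
  | succ n ih =>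
    rw [zpow_add_one, T.act_mul _ (M.zpow_mem hq _) _ hq, h, ih]
    congr 1
    ring
  | pred n ih =>
    have h1 : T.act q⁻¹ (L i) = L (i - t) := by
      have h2 := h (i - t)
      rw [sub_add_cancel] at h2
      rw [← h2, T.act_inv_act hq]
    rw [zpow_sub_one, T.act_mul _ (M.zpow_mem hq _) _ (M.inv_mem hq), h1, ih]
    congr 1
    ring

theorem F3d_shift {M : Subgroup Γ} {T : MTree M} (hT : T.IsSplitting π.ker) {P' x q : Γ}
    (hP' : P' ∈ M) (hx : x ∈ M) (hq : q ∈ M ⊓ π.ker) {l t : ℕ} {L L' : ℤ → T.X}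
    (hL' : T.IsAxis P' l L') (hqL : ∀ i, T.act q (L i) = L (i + t)) {δ i1 i2 : ℤ}
    (hseg : ∀ i, i1 ≤ i → i ≤ i2 → T.act x (L i) = L' (i + δ)) (hlong : i1 + t + l + 1 ≤ i2) :
    (x * q * x⁻¹) * P' = P' * (x * q * x⁻¹) ∧
      T.act (x * q * x⁻¹) (L' (i1 + δ)) = L' (i1 + δ + t) := by
  have hk : π (x * q * x⁻¹) = 1 := by
    have : π q = 1 := hq.2
    rw [map_mul, map_mul, this, map_inv, mul_one, mul_inv_cancel]
  have hM : x * q * x⁻¹ ∈ M := M.mul_mem (M.mul_mem hx hq.1) (M.inv_mem hx)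
  have hsh : ∀ j : ℤ, i1 + δ ≤ j → j ≤ i1 + δ + l + 1 →
      T.act (x * q * x⁻¹) (L' j) = L' (j + t) := by
    intro j hj1 hj2
    have e1 : L' j = T.act x (L (j - δ)) := by
      rw [hseg (j - δ) (by omega) (by omega)]
      congr 1
      ring
    rw [T.act_mul _ (M.mul_mem hx hq.1) _ (M.inv_mem hx), e1, T.act_inv_act hx,
      T.act_mul _ hx _ hq.1, hqL, hseg (j - δ + t) (by omega) (by omega)]
    congr 1
    ring
  refine ⟨hT.commute_of_shift hP' hM hL' ?_ hsh, hsh _ le_rfl (by omega)⟩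
  rw [map_mul π (x * q * x⁻¹) P', map_mul π P' (x * q * x⁻¹), hk, one_mul, mul_one]

theorem F3d_conj {M : Subgroup Γ} {T : MTree M} (hT : T.IsSplitting π.ker)
    {P P' q R q' R' x : Γ} (hP : P ∈ M) (hP' : P' ∈ M) {l t t' k0 k0' : ℕ} {L L' : ℤ → T.X}
    (h : IsPer π T P q R l t k0 L) (h' : IsPer π T P' q' R' l t' k0' L') (hx : x ∈ M)
    {δ i1 i2 : ℤ} (hseg : ∀ i, i1 ≤ i → i ≤ i2 → T.act x (L i) = L' (i + δ))
    (hlong : i1 + t + t' + l + 1 ≤ i2) : x * q * x⁻¹ = q' := by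
  have hmem : ∀ y ∈ M, ∀ z ∈ M ⊓ π.ker, y * z * y⁻¹ ∈ M ⊓ π.ker := by
    intro y hy z hz
    refine ⟨M.mul_mem (M.mul_mem hy hz.1) (M.inv_mem hy), ?_⟩
    exact (MonoidHom.normal_ker π).conj_mem z hz.2 y
  obtain ⟨hc1, hs1⟩ := F3d_shift hT hP' hx h.q_mem h'.axis h.q_act hseg (by omega)
  have hseg' : ∀ i, i1 + δ ≤ i → i ≤ i2 + δ → T.act x⁻¹ (L' i) = L (i + -δ) := by
    intro i h1 h2
    have e1 : L' i = T.act x (L (i + -δ)) := by
      rw [hseg (i + -δ) (by omega) (by omega)]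
      congr 1
      ring
    rw [e1, T.act_inv_act hx]
  obtain ⟨hc2, hs2⟩ := F3d_shift hT hP (M.inv_mem hx) h'.q_mem h.axis h'.q_act hseg' (by omega)
  obtain ⟨j, hj⟩ := Subgroup.mem_zpowers_iff.1 (h'.cent _ (hmem x hx q h.q_mem) hc1)
  obtain ⟨j', hj'⟩ := Subgroup.mem_zpowers_iff.1
    (h.cent _ (hmem x⁻¹ (M.inv_mem hx) q' h'.q_mem) hc2)
  have e1 : (j : ℤ) * t' = t := by
    rw [← hj, F3d_zpow T h'.q_mem.1 h'.q_act] at hs1
    have := TG.line_inj h'.axis.2.1 hs1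
    omega
  have e2 : (j' : ℤ) * t = t' := by
    rw [← hj', F3d_zpow T h.q_mem.1 h.q_act] at hs2
    have := TG.line_inj h.axis.2.1 hs2
    omega
  have ht : (0 : ℤ) < t := by exact_mod_cast h.tpos
  have ht' : (0 : ℤ) < t' := by exact_mod_cast h'.tpos
  have hj0 : 0 < j := by
    by_contra hneg
    have : j * (t' : ℤ) ≤ 0 := mul_nonpos_of_nonpos_of_nonneg (by omega) ht'.le
    omega
  have hj0' : 0 < j' := by
    by_contra hneg
    have : j' * (t : ℤ) ≤ 0 := mul_nonpos_of_nonpos_of_nonneg (by omega) ht.le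
    omega
  have e3 : j = 1 := by
    by_contra hne
    have h2 : 2 ≤ j := by omega
    have h3 : 2 * (t' : ℤ) ≤ j * t' := mul_le_mul_of_nonneg_right h2 ht'.le
    have h4 : 1 * (t : ℤ) ≤ j' * t := mul_le_mul_of_nonneg_right (by omega) ht.le
    omega
  rw [← hj, e3, zpow_one]

/-- classes in the linear models agree: conjugate by an element of `M ⊓ π.ker` -/
theorem F3d_cl (hc : Ctx π) {M : Subgroup Γ} (hM : Full π M) (Λ : ClModel π) {q q' : Γ}
    (hq : q ∈ M ⊓ π.ker) (hq1 : q ≠ 1) (hq' : q' ∈ M ⊓ π.ker)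
    (h : ∀ c, Λ.cl c q = Λ.cl c q') : ∃ u ∈ M ⊓ π.ker, u * q * u⁻¹ = q' := by
  obtain ⟨u, hu, hu'⟩ := Λ.inj q hq.2 q' hq'.2 h
  refine ⟨u, ?_, hu'⟩
  refine fac_malnormal hc le_rfl hM.fac hu ?_
  intro hbot
  have hmem : q' ∈ (M ⊓ π.ker) ⊓ MulAut.conj u • (M ⊓ π.ker) := by
    refine ⟨hq', ?_⟩
    rw [← hu']
    exact Subgroup.smul_mem_pointwise_smul q (MulAut.conj u) (M ⊓ π.ker) hq
  rw [hbot, Subgroup.mem_bot, ← hu'] at hmem
  apply hq1
  have h2 : q = u⁻¹ * (u * q * u⁻¹) * u := by group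
  rw [h2, hmem]
  group

theorem per_alt (hc : Ctx π) {M : Subgroup Γ} (hM : Full π M) {T : MTree M}
    (hT : T.IsSplitting π.ker) {s s' : G →* Γ} (hs : SecIn π M s) (hs' : SecIn π M s') {g1 : G}
    (g2 : G) {q R : Γ} {l t k0 : ℕ} {L : ℤ → T.X} (hper : IsPer π T (s g1) q R l t k0 L)
    (hy' : T.Hyp (s' g1)) :
    AA (fun b a => CJ (M ⊓ π.ker) (s (wd g1 g2 b a)) (s' (wd g1 g2 b a)) →
      (∃ x ∈ M ⊓ π.ker, x * s g1 * x⁻¹ = s' g1 ∧
        x * s (wd g1 g2 b a) * x⁻¹ = s' (wd g1 g2 b a)) ∨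
      ((∃ h2 ∈ M, π h2 = g2 ∧ h2 * q * h2⁻¹ = q) ∧ (∃ u ∈ M ⊓ π.ker, u * s g1 * u⁻¹ = s' g1) ∧
        (s' g1 = s g1 → ∃ (k : ℤ) (x : Γ), k ≠ 0 ∧ x ∈ M ∧ π x = (wd g1 g2 b a) ^ (-k) ∧
          x * q * x⁻¹ = q ∧ x * s (wd g1 g2 b a) * x⁻¹ = s' (wd g1 g2 b a)))) := by
  have hni := hT.noInv hc
  rcases T.ell_or_axis hni (hs'.mem g1) with ⟨x, hx⟩ | ⟨l', L', hL'⟩
  · exact absurd hx (hy' x)
  have hH : ∀ y ∈ M, ∀ z ∈ M ⊓ π.ker, y * z * y⁻¹ ∈ M ⊓ π.ker := by
    intro y hy z hz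
    refine ⟨M.mul_mem (M.mul_mem hy hz.1) (M.inv_mem hy), ?_⟩
    exact (MonoidHom.normal_ker π).conj_mem z hz.2 y
  have hal := align hc hT hs hs' g2 hper.axis hL'
  by_cases hz : ∃ z ∈ M ⊓ π.ker, z ≠ 1 ∧ z * s' g1 = s' g1 * z
  · obtain ⟨q', R', t', k0', hper'⟩ := exists_per hc hT (hs'.mem g1) hL' hz
    obtain ⟨Λ⟩ := hc.cls
    -- the linear algebra
    have hPq : s g1 * q * (s g1)⁻¹ = q := by
      have h1 : s g1 * q = q * s g1 := by
        rw [hper.eq, mul_assoc, hper.R_q, ← mul_assoc, ← mul_assoc, ← pow_succ, ← pow_succ']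
      rw [h1, mul_inv_cancel_right]
    have hfix : ∀ c, Λ.ρ c g1 (Λ.cl c q) = Λ.cl c q := by
      intro c
      have h1 := Λ.equiv c (s g1) q hper.q_mem.2
      rw [hPq, hs.sec] at h1
      exact h1.symm
    have hla : ∀ᶠ b in atTop, ∀ (a : ℕ) (k : ℤ), k ≠ 0 →
        (∀ c, Λ.ρ c ((wd g1 g2 b a) ^ (-k)) (Λ.cl c q) = Λ.cl c q') →
        (∀ c, Λ.ρ c g2 (Λ.cl c q) = Λ.cl c q ∧ Λ.cl c q' = Λ.cl c q) := by
      by_cases hall : ∀ c, Λ.ρ c g2 (Λ.cl c q) = Λ.cl c q ∧ Λ.cl c q' = Λ.cl c q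
      · exact Eventually.of_forall (fun b a k _ _ => hall)
      · push Not at hall
        obtain ⟨c, hc'⟩ := hall
        let _ := Λ.acg c
        let _ := Λ.mod c
        have _ := Λ.fin c
        obtain ⟨b0, hb0⟩ := Pool.MP6567.Alg.lemma_LA' (Λ.ρ c) (fun g => by
          obtain ⟨N, hN⟩ := Λ.unip c g
          exact ⟨N, hN⟩) g1 g2 (Λ.cl c q) (Λ.cl c q') (hfix c)
        filter_upwards [eventually_ge_atTop b0] with b hb a k hk hcl
        obtain ⟨h1, h2⟩ := hb0 b hb a k hk (hcl c)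
        exact absurd h2 (hc' h1)
    unfold AA
    filter_upwards [hal, hla] with b ⟨cst, hb1⟩ hb2
    filter_upwards [hb1, eventually_ge_atTop (cst + 2 * (t + t' + l + 1))] with a ha1 ha2 hCJ
    obtain ⟨hll, k, δ, i1, i2, x, hxM, hxpi, hxw, hδ, hlen, hseg⟩ := ha1 hCJ
    subst hll
    have hl0 : (1 : ℤ) ≤ l := by exact_mod_cast hper.axis.1
    have ha3 : (a : ℤ) ≤ 3 * a * l := by nlinarith [Int.natCast_nonneg a]
    have ha2' : ((cst + 2 * (t + t' + l + 1) : ℕ) : ℤ) ≤ a := by exact_mod_cast ha2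
    push_cast at ha2'
    have hlong : i1 + t + t' + l + 1 ≤ i2 := by omega
    by_cases hk : k = 0
    · left
      subst hk
      have hxH : x ∈ M ⊓ π.ker := ⟨hxM, by
        change π x = 1
        rw [hxpi, neg_zero, zpow_zero]⟩
      refine ⟨x, hxH, ?_, hxw⟩
      refine conj_of_seg hT (hs.mem g1) (hs'.mem g1) (by rw [hs.sec, hs'.sec]) hxH hper.axis hL'
        (i1 := i1) (δ := δ) (fun i h1 h2 => hseg i h1 (by omega))
    · right
      have hq' : x * q * x⁻¹ = q' :=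
        F3d_conj hT (hs.mem g1) (hs'.mem g1) hper hper' hxM hseg hlong
      have hcl : ∀ c, Λ.ρ c ((wd g1 g2 b a) ^ (-k)) (Λ.cl c q) = Λ.cl c q' := by
        intro c
        have h1 := Λ.equiv c x q hper.q_mem.2
        rw [hq', hxpi] at h1
        exact h1.symm
      have hall := hb2 a k hk hcl
      refine ⟨?_, ?_, ?_⟩
      · obtain ⟨h, hhM, hhg⟩ := hM.surj g2
        obtain ⟨f, hf, hf'⟩ := F3d_cl hc hM Λ (hH h hhM q hper.q_mem) (by
          intro h1
          apply hper.q_ne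
          have h2 : q = h⁻¹ * (h * q * h⁻¹) * h := by group
          rw [h2, h1]
          group) hper.q_mem (fun c => by
            rw [Λ.equiv c h q hper.q_mem.2, hhg, (hall c).1])
        refine ⟨f * h, M.mul_mem hf.1 hhM, ?_, ?_⟩
        · have h1 : π f = 1 := hf.2
          rw [map_mul, h1, one_mul, hhg]
        · have h1 : f * h * q * (f * h)⁻¹ = f * (h * q * h⁻¹) * f⁻¹ := by group
          rw [h1, hf']
      · obtain ⟨u, hu, hu'⟩ := F3d_cl hc hM Λ hper.q_mem hper.q_ne hper'.q_mem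
          (fun c => ((hall c).2).symm)
        refine ⟨u, hu, ?_⟩
        have h1 := IsPer.conj hc hT hper hu
        rw [hu'] at h1
        have h2 : π (u * s g1 * u⁻¹) = π (s' g1) := by
          have h3 : π u = 1 := hu.2
          rw [map_mul, map_mul, map_inv, h3, hs.sec, hs'.sec]
          simp
        exact (IsPer.eq_of_q hc hT h1 hper' h2).1
      · intro hss
        refine ⟨k, x, hk, hxM, hxpi, ?_, hxw⟩
        rw [hq']
        -- `q' = q` as both are the positive generators of the centraliser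
        have hper'' := hper'
        rw [hss] at hper''
        obtain ⟨_, c, hcL⟩ := T.axis_unique (hs.mem g1) hper.axis hper''.axis
        have h1 := F3d_conj hT (hs.mem g1) (hs.mem g1) hper hper'' (x := 1) M.one_mem
          (δ := -c) (i1 := 0) (i2 := t + t' + l + 1) (fun i _ _ => by
            rw [T.act_one, hcL]
            congr 1
            ring) (by omega)
        rw [← h1]
        group
  · -- no centraliser: `k ≠ 0` is impossible
    unfold AA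
    filter_upwards [hal] with b ⟨cst, hb1⟩
    filter_upwards [hb1, eventually_ge_atTop (cst + 2 * (t + l + 1))] with a ha1 ha2 hCJ
    obtain ⟨hll, k, δ, i1, i2, x, hxM, hxpi, hxw, hδ, hlen, hseg⟩ := ha1 hCJ
    subst hll
    have hl0 : (1 : ℤ) ≤ l := by exact_mod_cast hper.axis.1
    have ha3 : (a : ℤ) ≤ 3 * a * l := by nlinarith [Int.natCast_nonneg a]
    have ha2' : ((cst + 2 * (t + l + 1) : ℕ) : ℤ) ≤ a := by exact_mod_cast ha2
    push_cast at ha2'
    have hlong : i1 + t + l + 1 ≤ i2 := by omega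
    exfalso
    apply hz
    obtain ⟨h1, h2⟩ := F3d_shift hT (hs'.mem g1) hxM hper.q_mem hL' hper.q_act hseg hlong
    refine ⟨x * q * x⁻¹, hH x hxM q hper.q_mem, ?_, h1⟩
    intro h3
    rw [h3, T.act_one] at h2
    have h4 := TG.line_inj hL'.2.1 h2
    have := hper.tpos
    omega

end Pool.Agent.Lib.MP_6567fb_al
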