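import Pool.Agent.Lib.MP_6567fb_al.F0
import Pool.Agent.Lib.MP_6567fb_al.F1a

/-!
# MP_6567fb_al, module F4a

The conjugacy principle for `M ⊓ ker` trivial or cyclic: `M ⊓ ker` is central in `M`, conjugate means equal, and
the equaliser of two sections is an isolated subgroup.
-/

set_option autoImplicit false

open scoped Pointwise
open Filter

namespace Pool.Agent.Lib.MP_6567fb_al

open MTree
variable {Γ G : Type} [Group Γ] [Group G] {π : Γ →* G}

theorem conj_bot {M : Subgroup Γ} (hM : M ⊓ π.ker = ⊥) {s s' : G →* Γ} (hs : SecIn π M s)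
    (hs' : SecIn π M s') : s = s' := by
  ext g
  have h1 : s g * (s' g)⁻¹ ∈ M ⊓ π.ker := by
    refine ⟨M.mul_mem (hs.mem g) (M.inv_mem (hs'.mem g)), ?_⟩
    change π (s g * (s' g)⁻¹) = 1
    rw [map_mul, map_inv, hs.sec g, hs'.sec g, mul_inv_cancel]
  rw [hM, Subgroup.mem_bot] at h1
  exact mul_inv_eq_one.1 h1

/-- the equaliser of two sections is isolated -/
theorem eq_isol (hc : Ctx π) (s s' : G →* Γ) : Isol (MonoidHom.eqLocus s s') := by
  intro g k hk hg
  have h1 : s (g ^ k) = s' (g ^ k) := hg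
  rw [map_pow, map_pow] at h1
  exact hc.roots _ _ k hk h1

theorem central_of_cyclic (hc : Ctx π) {M : Subgroup Γ} (hM : Full π M)
    (hrk : rk (M ⊓ π.ker) = 1) : ∀ m ∈ M, ∀ h ∈ M ⊓ π.ker, m * h = h * m := by
  obtain ⟨y, hy1, hy⟩ := (rk_one hc hM.fac).1 hrk
  have hyH : y ∈ M ⊓ π.ker := by rw [hy]; exact Subgroup.mem_zpowers y
  have hnorm : ∀ m ∈ M, m * y * m⁻¹ ∈ Subgroup.zpowers y := by
    intro m hm
    rw [← hy]
    refine ⟨M.mul_mem (M.mul_mem hm hyH.1) (M.inv_mem hm), ?_⟩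
    exact Subgroup.Normal.conj_mem inferInstance y hyH.2 m
  have htf : ∀ k : ℤ, y ^ k = 1 → k = 0 := by
    intro k hk
    by_contra hk0
    have h1 : y ^ k.natAbs = 1 := by
      rcases Int.natAbs_eq k with h | h
      · rw [h, zpow_natCast] at hk
        exact hk
      · rw [h, zpow_neg, zpow_natCast, inv_eq_one] at hk
        exact hk
    exact hy1 (hc.roots y 1 k.natAbs (Int.natAbs_pos.2 hk0) (by rw [h1, one_pow]))
  have hcomm : ∀ m ∈ M, m * y = y * m := by
    intro m hm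
    obtain ⟨i, hi⟩ := Subgroup.mem_zpowers_iff.1 (hnorm m hm)
    obtain ⟨j, hj⟩ := Subgroup.mem_zpowers_iff.1 (hnorm m⁻¹ (M.inv_mem hm))
    rw [inv_inv] at hj
    have h1 : y ^ (i * j) = y := by
      have e1 : m * y ^ j * m⁻¹ = (m * y * m⁻¹) ^ j := by rw [conj_zpow]
      have e2 : m * y ^ j * m⁻¹ = y := by
        rw [hj]; group
      rw [zpow_mul, hi, ← e1, e2]
    have h2 : i * j = 1 := by
      have h3 : y ^ (i * j - 1) = 1 := by rw [zpow_sub, h1, zpow_one, mul_inv_cancel]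
      have := htf _ h3
      omega
    rcases Int.eq_one_or_neg_one_of_mul_eq_one h2 with h3 | h3
    · rw [h3, zpow_one] at hi
      have : m * y = (m * y * m⁻¹) * m := by group
      rw [this, ← hi]
    · exfalso
      rw [h3, zpow_neg, zpow_one] at hi
      have h4 : (m * y) ^ 2 = m ^ 2 := by
        have e1 : (m * y) ^ 2 = (m * y * m⁻¹) * (m * (m * y * m⁻¹) * m⁻¹) * m ^ 2 := by
          rw [sq, sq]; group
        have e2 : m * y⁻¹ * m⁻¹ = (m * y * m⁻¹)⁻¹ := by group
        rw [e1, ← hi, e2, ← hi]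
        group
      have h5 := hc.roots _ _ 2 (by norm_num) h4
      exact hy1 (mul_eq_left.1 h5)
  intro m hm h hh
  rw [hy] at hh
  obtain ⟨k, rfl⟩ := Subgroup.mem_zpowers_iff.1 hh
  exact (Commute.zpow_right (hcomm m hm) k).eq

theorem conj_cyclic (hc : Ctx π) {U : Ultrafilter G} (hU : Gen π U) {M : Subgroup Γ}
    (hM : Full π M) (hrk : rk (M ⊓ π.ker) = 1) {s s' : G →* Γ} (hs : SecIn π M s)
    (hs' : SecIn π M s') (h : ∀ᶠ g in (U : Filter G), CJ (M ⊓ π.ker) (s g) (s' g)) :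
    CJS (M ⊓ π.ker) s s' := by
  have hcen := central_of_cyclic hc hM hrk
  have htop : MonoidHom.eqLocus s s' = ⊤ := by
    by_contra hne
    obtain ⟨g, hg1, v, hv, hg2⟩ := ((hU.sub _ (eq_isol hc s s') hne).and h).exists
    apply hg1
    change s g = s' g
    rw [← hg2, ← hcen _ (hs.mem g) v hv]
    group
  have heq : ∀ g, s g = s' g := by
    intro g
    have : g ∈ MonoidHom.eqLocus s s' := by rw [htop]; exact Subgroup.mem_top g
    exact this
  exact ⟨1, Subgroup.one_mem _, fun g => by rw [heq g]; group⟩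

end Pool.Agent.Lib.MP_6567fb_al
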