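import Pool.Agent.Lib.MP_6567fb_al.F0
import Pool.Agent.Lib.MP_6567fb_al.F1a
import Pool.Agent.Lib.MP_6567fb_al.F4a
import Pool.Agent.Lib.MP_6567fb_al.T14b

/-!
# MP_6567fb_al, module F4b

Theorem F4 (conjugacy principle): two sections with values in `M`, conjugate under `M ⊓ ker` at almost every
`g`, are conjugate under `M ⊓ ker`.  Induction on the rank of `M ⊓ ker`.
-/

set_option autoImplicit false

open scoped Pointwise
open Filter

namespace Pool.Agent.Lib.MP_6567fb_al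

open MTree
variable {Γ G : Type} [Group Γ] [Group G] {π : Γ →* G}

/-- the centraliser of an elliptic section acts with finitely many orbits on the fixed vertices -/
theorem f4b_cofinite {M : Subgroup Γ} {T : MTree M} (hT : T.IsSplitting π.ker) {s : G →* Γ}
    (hs : SecIn π M s) {x₀ : T.X} (hx₀ : ∀ g, T.act (s g) x₀ = x₀) :
    ∃ R : Finset T.X, (∀ r ∈ R, ∀ g, T.act (s g) r = r) ∧
      ∀ x, (∀ g, T.act (s g) x = x) →
        ∃ c ∈ M ⊓ π.ker, (∀ g, c * s g = s g * c) ∧ T.act c x ∈ R := by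
  classical
  obtain ⟨S, hS⟩ := hT.cocpt
  let Q : T.X × T.X → T.X → Prop := fun p x =>
    (∀ g, T.act (s g) x = x) ∧ ∃ y, (∀ g, T.act (s g) y = y) ∧ T.G.Adj x y ∧
      ∃ h ∈ M ⊓ π.ker, (T.act h x, T.act h y) = p
  let f : T.X × T.X → T.X := fun p => if hp : ∃ x, Q p x then hp.choose else x₀
  have hf : ∀ p, (∃ x, Q p x) → Q p (f p) := by
    intro p hp
    simp only [f, dif_pos hp]
    exact hp.choose_spec
  refine ⟨insert x₀ (S.image f), ?_, ?_⟩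
  · intro r hr
    rcases Finset.mem_insert.1 hr with rfl | hr
    · exact hx₀
    · obtain ⟨p, -, rfl⟩ := Finset.mem_image.1 hr
      by_cases hp : ∃ x, Q p x
      · exact (hf p hp).1
      · simp only [f, dif_neg hp]
        exact hx₀
  · intro x hx
    by_cases hxx : x = x₀
    · refine ⟨1, Subgroup.one_mem _, fun g => by group, ?_⟩
      rw [T.act_one, hxx]
      exact Finset.mem_insert_self _ _
    obtain ⟨y, hxy, hy⟩ := TG.exists_next T.tree hxx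
    have hyf : ∀ g, T.act (s g) y = y := fun g =>
      T.fix_conv (hs.mem g) x (hx g) x₀ (hx₀ g) y (TG.btw_next hxy hy)
    obtain ⟨h, hh, hp⟩ := hS x y hxy
    obtain ⟨hx1, y', hy1, hadj, h', hh', hp'⟩ :=
      hf (T.act h x, T.act h y) ⟨x, hx, y, hyf, hxy, h, hh, rfl⟩
    have hp1 := (Prod.mk.inj hp').1
    have hp2 := (Prod.mk.inj hp').2
    have hhM : h ∈ M := hh.1
    have hhM' : h' ∈ M := hh'.1
    have hcM : h'⁻¹ * h ∈ M ⊓ π.ker := Subgroup.mul_mem _ (Subgroup.inv_mem _ hh') hh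
    have e1 : T.act (h'⁻¹ * h) x = f (T.act h x, T.act h y) := by
      refine (T.act_mul _ (M.inv_mem hhM') _ hhM x).trans ?_
      exact (congrArg (T.act h'⁻¹) hp1.symm).trans (T.act_inv_act hhM' _)
    have e2 : T.act (h'⁻¹ * h) y = y' := by
      refine (T.act_mul _ (M.inv_mem hhM') _ hhM y).trans ?_
      exact (congrArg (T.act h'⁻¹) hp2.symm).trans (T.act_inv_act hhM' _)
    refine ⟨h'⁻¹ * h, hcM, fun g => ?_, ?_⟩
    · have hk : π (h'⁻¹ * h) = 1 := hcM.2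
      refine IsSplitting.eq_of_agree hT (M.mul_mem hcM.1 (hs.mem g)) (M.mul_mem (hs.mem g) hcM.1)
        (by rw [map_mul, map_mul π (s g), hk, one_mul, mul_one]) hxy ?_ ?_
      · rw [T.act_mul _ hcM.1 _ (hs.mem g), hx g, T.act_mul _ (hs.mem g) _ hcM.1, e1, hx1 g]
      · rw [T.act_mul _ hcM.1 _ (hs.mem g), hyf g, T.act_mul _ (hs.mem g) _ hcM.1, e2, hy1 g]
    · rw [e1]
      exact Finset.mem_insert_of_mem (Finset.mem_image_of_mem f hp)

theorem f4b_push {M : Subgroup Γ} {T : MTree M} {v s x : Γ} (hv : v ∈ M) (hs : s ∈ M) {z : T.X}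
    (h : v * s * v⁻¹ = x) (hz : T.act s z = z) : T.act x (T.act v z) = T.act v z := by
  subst h
  rw [← T.act_mul _ (M.mul_mem (M.mul_mem hv hs) (M.inv_mem hv)) _ hv]
  have h1 : v * s * v⁻¹ * v = v * s := by group
  rw [h1, T.act_mul _ hv _ hs, hz]

theorem conj_principle (hc : Ctx π) (hK : TheoremK π) {U : Ultrafilter G} (hU : Gen π U)
    {M : Subgroup Γ} (hM : Full π M) {s s' : G →* Γ} (hs : SecIn π M s) (hs' : SecIn π M s')
    (h : ∀ᶠ g in (U : Filter G), CJ (M ⊓ π.ker) (s g) (s' g)) : CJS (M ⊓ π.ker) s s' := by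
  induction' hn : rk (M ⊓ π.ker) using Nat.strong_induction_on with n ih generalizing M s s'
  by_cases h1 : n = 1
  · exact conj_cyclic hc hU hM (hn.trans h1) hs hs' h
  obtain ⟨T, hT, hnt, -⟩ := hK M ∅ hM (periph_empty hc hM.toLoc) (Or.inl (by rw [hn]; exact h1))
  -- a section conjugate at almost every g to a non-elliptic one is not elliptic
  have key : ∀ t t' : G →* Γ, SecIn π M t → SecIn π M t' →
      (∀ᶠ g in (U : Filter G), CJ (M ⊓ π.ker) (t g) (t' g)) → ¬ T.Ell (Set.range t) →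
      ¬ T.Ell (Set.range t') := by
    intro t t' ht ht' htt hne hell
    obtain ⟨x, hx⟩ := hell
    obtain ⟨g, hg1, v, hv, hg2⟩ := ((hU.hyp M T t hM hT ht hne).and htt).exists
    apply hg1 (T.act v⁻¹ x)
    have h2 : v⁻¹ * t' g * v⁻¹⁻¹ = t g := by rw [← hg2]; group
    exact f4b_push (M.inv_mem hv.1) (ht'.mem g) h2 (hx _ ⟨g, rfl⟩)
  by_cases hell : T.Ell (Set.range s) ∧ T.Ell (Set.range s')
  swap
  · have h2 : ¬ T.Ell (Set.range s) := by
      intro he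
      apply hell
      refine ⟨he, ?_⟩
      by_contra hne
      exact key s' s hs' hs (h.mono fun g hg => hg.symm) hne he
    have h3 := key s s' hs hs' h h2
    by_contra hcon
    obtain ⟨g, hg1, hg2⟩ := ((hU.conj M T s s' hM hT hs hs' h2 h3 hcon).and h).exists
    exact hg1 hg2
  obtain ⟨⟨x₀, hx₀'⟩, x', hx''⟩ := hell
  have hx₀ : ∀ g, T.act (s g) x₀ = x₀ := fun g => hx₀' _ ⟨g, rfl⟩
  have hx' : ∀ g, T.act (s' g) x' = x' := fun g => hx'' _ ⟨g, rfl⟩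
  -- the principle in vertex groups
  have loc : ∀ (x : T.X) (t t' : G →* Γ), SecIn π (T.stab x) t → SecIn π (T.stab x) t' →
      (∀ᶠ g in (U : Filter G), CJ (T.stab x ⊓ π.ker) (t g) (t' g)) →
      CJS (T.stab x ⊓ π.ker) t t' := by
    intro x t t' ht ht' htt
    by_cases hx : T.stab x ⊓ π.ker = ⊥
    · have h2 := conj_bot hx ht ht'
      subst h2
      exact ⟨1, Subgroup.one_mem _, fun g => by group⟩
    · obtain ⟨hf, hrk⟩ := stab_full hc hM hT hnt hx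
      exact ih _ (hn ▸ hrk) hf ht ht' htt rfl
  obtain ⟨R, hR1, hR2⟩ := f4b_cofinite hT hs hx₀
  have hmin : ∀ᶠ g in (U : Filter G), ∃ r ∈ (R : Set T.X), ∃ v ∈ M ⊓ π.ker, v * s' g * v⁻¹ = s g ∧
      ∀ v' ∈ M ⊓ π.ker, v' * s' g * v'⁻¹ = s g → ∀ w, (∀ g', T.act (s g') w = w) →
        T.G.dist r (T.act v x') ≤ T.G.dist w (T.act v' x') := by
    filter_upwards [h] with g hg
    obtain ⟨v, hv, hvg⟩ := hg.symm
    have hex : ∃ n : ℕ, ∃ v ∈ M ⊓ π.ker, v * s' g * v⁻¹ = s g ∧ ∃ w, (∀ g', T.act (s g') w = w) ∧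
        T.G.dist w (T.act v x') = n := ⟨_, v, hv, hvg, x₀, hx₀, rfl⟩
    classical
    obtain ⟨v, hv, hvg, w, hw, hd⟩ := Nat.find_spec hex
    obtain ⟨c, hc1, hc2, hc3⟩ := hR2 w hw
    refine ⟨T.act c w, hc3, c * v, Subgroup.mul_mem _ hc1 hv, ?_, ?_⟩
    · have e1 : c * v * s' g * (c * v)⁻¹ = c * (v * s' g * v⁻¹) * c⁻¹ := by group
      rw [e1, hvg, hc2]
      group
    · intro v' hv' hvg' w' hw'
      rw [T.act_mul _ hc1.1 _ hv.1, T.dist_act hc1.1, hd]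
      exact Nat.find_min' hex ⟨v', hv', hvg', w', hw', rfl⟩
  obtain ⟨r, hr, hmin'⟩ := (Ultrafilter.eventually_exists_mem_iff R.finite_toSet).1 hmin
  have hrf : ∀ g, T.act (s g) r = r := hR1 r hr
  have hsurj := hM.surj
  by_cases hz : ∀ᶠ g in (U : Filter G), ∃ v ∈ M ⊓ π.ker, v * s' g * v⁻¹ = s g ∧ T.act v x' = r
  · -- final step
    obtain ⟨g₀, v₀, hv₀, -, hv₀r⟩ := hz.exists
    let t : G →* Γ := (MulAut.conj v₀⁻¹).toMonoidHom.comp s
    have ht : ∀ g, t g = v₀⁻¹ * s g * v₀⁻¹⁻¹ := fun g => rfl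
    have hkv : π v₀ = 1 := hv₀.2
    have hvi : v₀⁻¹ ∈ M := M.inv_mem hv₀.1
    have htfix : ∀ g, T.act (t g) x' = x' := by
      intro g
      have e1 : T.act v₀⁻¹ r = x' := by rw [← hv₀r, T.act_inv_act hv₀.1]
      have e2 := f4b_push hvi (hs.mem g) (ht g).symm (hrf g)
      rw [e1] at e2
      exact e2
    have htS : SecIn π (T.stab x') t := by
      refine ⟨fun g => ?_, fun g => ⟨?_, htfix g⟩⟩
      · have hsg : π (s g) = g := hs.sec g
        rw [ht]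
        simp only [map_mul, map_inv, hkv, hsg]
        group
      · rw [ht]
        exact M.mul_mem (M.mul_mem hvi (hs.mem g)) (M.inv_mem hvi)
    have hs'S : SecIn π (T.stab x') s' := ⟨hs'.sec, fun g => ⟨hs'.mem g, hx' g⟩⟩
    have h2 : CJS (T.stab x' ⊓ π.ker) s' t := by
      refine loc x' s' t hs'S htS ?_
      filter_upwards [hz] with g hg
      obtain ⟨v, hv, hvg, hvr⟩ := hg
      refine ⟨v₀⁻¹ * v, ⟨⟨M.mul_mem hvi hv.1, ?_⟩, ?_⟩, ?_⟩
      · rw [T.act_mul _ hvi _ hv.1, hvr, ← hv₀r, T.act_inv_act hv₀.1]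
      · exact Subgroup.mul_mem _ (Subgroup.inv_mem _ hv₀.2) hv.2
      · rw [ht, ← hvg]
        group
    obtain ⟨w, hw, hw2⟩ := h2
    refine CJS.symm ⟨v₀ * w, Subgroup.mul_mem _ hv₀ ⟨hw.1.1, hw.2⟩, fun g => ?_⟩
    have e1 : v₀ * w * s' g * (v₀ * w)⁻¹ = v₀ * (w * s' g * w⁻¹) * v₀⁻¹ := by group
    rw [e1, hw2 g, ht]
    group
  · exfalso
    obtain ⟨S, hS⟩ := hT.cocpt
    have h2 : ∀ᶠ g in (U : Filter G), ∃ q ∈ (S : Set (T.X × T.X)), ∃ n, T.G.Adj r n ∧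
        T.act (s g) n = n ∧ (∃ h ∈ M ⊓ π.ker, (T.act h r, T.act h n) = q) ∧
        ∃ v ∈ M ⊓ π.ker, v * s' g * v⁻¹ = s g ∧ T.G.dist n (T.act v x') < T.G.dist r (T.act v x') ∧
      ∀ v' ∈ M ⊓ π.ker, v' * s' g * v'⁻¹ = s g → ∀ w, (∀ g', T.act (s g') w = w) →
        T.G.dist r (T.act v x') ≤ T.G.dist w (T.act v' x') := by
      have hz' := Ultrafilter.eventually_not.2 hz
      filter_upwards [hz', hmin'] with g hg1 hg2
      obtain ⟨v, hv, hvg, hvm⟩ := hg2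
      have hne : r ≠ T.act v x' := fun he => hg1 ⟨v, hv, hvg, he.symm⟩
      obtain ⟨n, hn1, hn2⟩ := TG.exists_next T.tree hne
      obtain ⟨k, hk, hk2⟩ := hS r n hn1
      refine ⟨_, hk2, n, hn1, ?_, ⟨k, hk, rfl⟩, v, hv, hvg, by omega, hvm⟩
      exact T.fix_conv (hs.mem g) r (hrf g) (T.act v x') (f4b_push hv.1 (hs'.mem g) hvg (hx' g)) n
        (TG.btw_next hn1 hn2)
    obtain ⟨q, -, h3⟩ := (Ultrafilter.eventually_exists_mem_iff S.finite_toSet).1 h2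
    obtain ⟨g₀, n₀, hadj, hfix₀, ⟨k₀, hk₀, hq₀⟩, v, hv, hvg, hlt, hvm⟩ := h3.exists
    obtain ⟨hP1, hP2⟩ := eSec_spec hc hM.surj hT hadj
    have hPS : SecIn π (T.stab r) (eSec π T r n₀) :=
      ⟨hP1.sec, fun g => ⟨hP1.mem g, (hP2 g).1⟩⟩
    have hsS : SecIn π (T.stab r) s := ⟨hs.sec, fun g => ⟨hs.mem g, hrf g⟩⟩
    have h4 : CJS (T.stab r ⊓ π.ker) (eSec π T r n₀) s := by
      refine loc r _ _ hPS hsS ?_
      filter_upwards [h3] with g hg
      obtain ⟨n, hn1, hn2, ⟨k, hk, hq⟩, -⟩ := hg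
      have hq' := hq.trans hq₀.symm
      have e1 := (Prod.mk.inj hq').1
      have e2 := (Prod.mk.inj hq').2
      have hu : k⁻¹ * k₀ ∈ M ⊓ π.ker := Subgroup.mul_mem _ (Subgroup.inv_mem _ hk) hk₀
      have f1 : T.act (k⁻¹ * k₀) r = r := by
        rw [T.act_mul _ (M.inv_mem hk.1) _ hk₀.1, ← e1, T.act_inv_act hk.1]
      have f2 : T.act (k⁻¹ * k₀) n₀ = n := by
        rw [T.act_mul _ (M.inv_mem hk.1) _ hk₀.1, ← e2, T.act_inv_act hk.1]
      refine ⟨k⁻¹ * k₀, ⟨⟨hu.1, f1⟩, hu.2⟩, ?_⟩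
      have hku : π (k⁻¹ * k₀) = 1 := hu.2
      have g1 := f4b_push hu.1 (hP1.mem g) rfl (hP2 g).1
      have g2 := f4b_push hu.1 (hP1.mem g) rfl (hP2 g).2
      rw [f1] at g1
      rw [f2] at g2
      refine IsSplitting.eq_of_agree hT
        (M.mul_mem (M.mul_mem hu.1 (hP1.mem g)) (M.inv_mem hu.1)) (hs.mem g)
        (by rw [map_mul, map_mul, map_inv, hku, hP1.sec g, hs.sec g]; group) hn1
        (g1.trans (hrf g).symm) (g2.trans hn2.symm)
    obtain ⟨u, hu, hu2⟩ := h4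
    have huM : u ∈ M := hu.1.1
    have hPs : eSec π T r n₀ g₀ = s g₀ :=
      IsSplitting.eq_of_agree hT (hP1.mem g₀) (hs.mem g₀) ((hP1.sec g₀).trans (hs.sec g₀).symm) hadj
        ((hP2 g₀).1.trans (hrf g₀).symm) ((hP2 g₀).2.trans hfix₀.symm)
    have h5 : u * s g₀ * u⁻¹ = s g₀ := by
      have := hu2 g₀
      rwa [hPs] at this
    have h6 := hvm (u * v) (Subgroup.mul_mem _ ⟨huM, hu.2⟩ hv) (by
      have e1 : u * v * s' g₀ * (u * v)⁻¹ = u * (v * s' g₀ * v⁻¹) * u⁻¹ := by group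
      rw [e1, hvg, h5]) (T.act u n₀)
      (fun g => f4b_push huM (hP1.mem g) (hu2 g) (hP2 g).2)
    rw [T.act_mul _ huM _ hv.1, T.dist_act huM] at h6
    omega

end Pool.Agent.Lib.MP_6567fb_al
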