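import Pool.Agent.Lib.MP_6567fb_al.T10b
import Pool.Agent.Lib.MP_6567fb_al.T10c
import Pool.Agent.Lib.MP_6567fb_al.T7d
import Pool.Agent.Lib.MP_6567fb_al.T6

/-!
# MP_6567fb_al, module T14c

The meet of two splittings.
-/

set_option autoImplicit false

open scoped Pointwise

namespace Pool.Agent.Lib.MP_6567fb_al

open MTree
open scoped Pointwise
variable {Γ G : Type} [Group Γ] [Group G] {π : Γ →* G}

theorem exists_ne_one_t14c {B : Subgroup Γ} (h : B ≠ ⊥) : ∃ b ∈ B, b ≠ 1 := by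
  by_contra hcon
  push Not at hcon
  apply h
  rw [Subgroup.eq_bot_iff_forall]
  exact hcon

/-- an equivariant choice of attaching vertices -/
theorem exists_att_t14c {H : Subgroup Γ} (B : MTree H)
    (hfree : ∀ h ∈ H, ∀ x y, B.G.Adj x y → B.act h x = x → B.act h y = y → h = 1) (v : B.X)
    (U : MTree (B.stab v)) :
    ∃ a : B.X → U.X, ∀ m ∈ B.stab v, ∀ w, B.G.Adj v w → a (B.act m w) = U.act m (a w) := by
  classical
  obtain ⟨u₀⟩ : Nonempty U.X := U.tree.1.nonempty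
  let s : Setoid B.X :=
    { r := fun w w' => ∃ m ∈ B.stab v, B.act m w = w'
      iseqv :=
        { refl := fun w => ⟨1, one_mem _, B.act_one w⟩
          symm := by
            rintro w w' ⟨m, hm, rfl⟩
            exact ⟨m⁻¹, inv_mem hm, B.act_inv_act hm.1 w⟩
          trans := by
            rintro w w' w'' ⟨m, hm, rfl⟩ ⟨n, hn, rfl⟩
            exact ⟨n * m, mul_mem hn hm, B.act_mul n hn.1 m hm.1 w⟩ } }
  have hrep : ∀ w : B.X, ∃ m ∈ B.stab v, B.act m (Quotient.mk s w).out = w := by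
    intro w
    exact Quotient.exact (Quotient.out_eq (Quotient.mk s w))
  choose g hg hgw using hrep
  refine ⟨fun w => U.act (g w) u₀, ?_⟩
  intro m hm w hw
  have hq : Quotient.mk s (B.act m w) = Quotient.mk s w :=
    (Quotient.sound (s := s) ⟨m, hm, rfl⟩).symm
  have h1 : B.act (g (B.act m w)) (Quotient.mk s w).out = B.act m w := by
    have := hgw (B.act m w)
    rwa [hq] at this
  have h2 : B.act (m * g w) (Quotient.mk s w).out = B.act m w := by
    rw [B.act_mul m hm.1 (g w) (hg w).1, hgw]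
  have h3 : g (B.act m w) = m * g w := by
    have hk : (m * g w)⁻¹ * g (B.act m w) ∈ B.stab v :=
      mul_mem (inv_mem (mul_mem hm (hg w))) (hg _)
    have h4 : B.G.Adj v (Quotient.mk s w).out := by
      have h5 := B.act_adj (g w)⁻¹ (inv_mem (hg w).1) v w hw
      have h6 : B.act (g w)⁻¹ v = v := (inv_mem (hg w)).2
      have h7 : B.act (g w)⁻¹ w = (Quotient.mk s w).out := by
        have h8 := congrArg (B.act (g w)⁻¹) (hgw w)
        rw [B.act_inv_act (hg w).1] at h8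
        exact h8.symm
      rwa [h6, h7] at h5
    have h5 := hfree _ hk.1 v _ h4 hk.2 (by
      rw [B.act_mul _ (inv_mem (mul_mem hm (hg w)).1) _ (hg _).1, h1, ← h2]
      exact B.act_inv_act (mul_mem hm (hg w)).1 _)
    exact (inv_mul_eq_one.1 h5).symm
  change U.act (g (B.act m w)) u₀ = U.act m (U.act (g w) u₀)
  rw [h3, U.act_mul m hm (g w) (hg w)]

theorem exists_finset_t14c {X : Type} (S : Set X) (E : Finset (X × X)) :
    ∃ E' : Finset (S × S), ∀ q : S × S, ((q.1 : X), (q.2 : X)) ∈ E → q ∈ E' := by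
  have hinj : Function.Injective (fun q : S × S => ((q.1 : X), (q.2 : X))) := by
    intro p q hpq
    have h3 := Prod.mk.inj hpq
    exact Prod.ext (Subtype.ext h3.1) (Subtype.ext h3.2)
  have hfin : ((fun q : S × S => ((q.1 : X), (q.2 : X))) ⁻¹' (E : Set (X × X))).Finite :=
    E.finite_toSet.preimage hinj.injOn
  exact ⟨hfin.toFinset, fun q hq => by
    rw [Set.Finite.mem_toFinset]
    exact hq⟩

/-- the tree which replaces a vertex -/
theorem fibre_tree_t14c (hc : Ctx π) {H : Subgroup Γ} (hH : H ≤ π.ker) (T₂ : MTree H)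
    (h2 : T₂.IsSplitting π.ker) {S : Subgroup Γ} (hS : S ≤ H) (hfg : S.FG) :
    ∃ U : MTree S, U.IsSplitting π.ker ∧ (∀ u : U.X, ∃ y, U.stab u = S ⊓ T₂.stab y) ∧
      ∀ y, S ⊓ T₂.stab y ≠ ⊥ → ∃ u : U.X, U.stab u = S ⊓ T₂.stab y := by
  by_cases hell : T₂.Ell (S : Set Γ)
  · obtain ⟨y₀, hy₀⟩ := hell
    have hpt : ∀ u : (point S).X, (point S).stab u = S := by
      intro u
      apply le_antisymm
      · exact fun m hm => hm.1
      · exact fun m hm => ⟨hm, rfl⟩
    have hSy : S ⊓ T₂.stab y₀ = S := inf_eq_left.2 fun m hm => ⟨hS hm, hy₀ m hm⟩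
    refine ⟨point S, point_isSplitting _ _, ?_, ?_⟩
    · intro u
      exact ⟨y₀, by rw [hpt, hSy]⟩
    · intro y hne
      obtain ⟨b, ⟨hb1, hb2⟩, hb⟩ := exists_ne_one_t14c hne
      have hyy : y = y₀ := h2.fixed_unique (h := b) ⟨hS hb1, hH (hS hb1)⟩ hb hb2.2 (hy₀ b hb1)
      exact ⟨Unit.unit, by rw [hpt, hyy, hSy]⟩
  · have hni := h2.noInv hc
    have hinv : ∀ m ∈ S, ∀ x ∈ T₂.core S, T₂.act m x ∈ T₂.core S := by
      intro m hm x hx
      have h1 := T₂.core_conj hS (hS hm)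
      rw [Subgroup.conj_smul_eq_self_of_mem hm] at h1
      rw [h1]
      exact ⟨x, hx, rfl⟩
    have hconv := T₂.core_conv hni hS
    have hne := T₂.core_nonempty hni hS hfg
    refine ⟨T₂.sub (T₂.core S) hconv hne S hS hinv, ?_, ?_, ?_⟩
    · have hemb := T₂.sub_isEmb (T₂.core S) hconv hne S hS hinv
      refine ⟨?_, ?_, ?_⟩
      · rintro h ⟨hhS, hhF⟩ x y hxy hx hy
        apply h2.free h ⟨hS hhS, hhF⟩ x.1 y.1 hxy
        · rw [← hemb.equi h hhS x, hx]
        · rw [← hemb.equi h hhS y, hy]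
      · intro m hm x y _
        exact ⟨m, ⟨hm, hH (hS hm)⟩, rfl, rfl⟩
      · obtain ⟨E, hE⟩ := T₂.core_cofinite hni hS hfg hell
        obtain ⟨E', hE'⟩ := exists_finset_t14c (T₂.core S) E
        refine ⟨E', ?_⟩
        intro x y hxy
        obtain ⟨d, hd, hdE⟩ := hE x.1 x.2 y.1 y.2 hxy
        refine ⟨d, ⟨hd, hH (hS hd)⟩, ?_⟩
        apply hE'
        have h3 := hemb.equi d hd x
        have h4 := hemb.equi d hd y
        rw [← h3, ← h4] at hdE
        exact hdE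
    · intro u
      refine ⟨u.1, ?_⟩
      rw [sub_stab, inf_comm]
    · intro y hne'
      obtain ⟨b, ⟨hb1, hb2⟩, hb⟩ := exists_ne_one_t14c hne'
      obtain ⟨w, hw, hbw⟩ := T₂.fix_proj (hS hb1) (S := T₂.core S) ⟨y, hb2.2⟩ hconv hne
        (hinv b hb1)
      have hyw : y = w := h2.fixed_unique (h := b) ⟨hS hb1, hH (hS hb1)⟩ hb hb2.2 hbw
      subst hyw
      refine ⟨⟨y, hw⟩, ?_⟩
      rw [sub_stab, inf_comm]

theorem meet_exists (hc : Ctx π) {H : Subgroup Γ} (hH : IsFactor π.ker π.ker H) (T₁ T₂ : MTree H)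
    (h1 : T₁.IsSplitting π.ker) (h2 : T₂.IsSplitting π.ker) :
    ∃ T : MTree H, T.IsSplitting π.ker ∧
      T.vgs π.ker = {E | E ≠ ⊥ ∧ ∃ x y, E = T₁.stab x ⊓ T₂.stab y} := by
  have hHF : H ≤ π.ker := fac_le hH
  have hstabH : ∀ v, T₁.stab v ≤ H := fun v m hm => hm.1
  have hfg : ∀ v, (T₁.stab v).FG := by
    intro v
    apply fac_fg hc
    apply fac_trans hc le_rfl hH
    exact Or.inr ⟨T₁, h1, v, inf_eq_left.2 ((hstabH v).trans hHF)⟩
  have hfree : ∀ h ∈ H, ∀ x y, T₁.G.Adj x y → T₁.act h x = x → T₁.act h y = y → h = 1 :=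
    fun h hh => h1.free h ⟨hh, hHF hh⟩
  choose U hU hU1 hU2 using fun v => fibre_tree_t14c hc hHF T₂ h2 (hstabH v) (hfg v)
  choose att hatt using fun v => exists_att_t14c T₁ hfree v (U v)
  obtain ⟨v₀⟩ : Nonempty T₁.X := T₁.tree.1.nonempty
  obtain ⟨R, -, hR⟩ := exists_reps T₁ v₀
  obtain ⟨T, pr, ι, hb, hι⟩ := blowup_exists T₁ R hR U att (fun v _ => hatt v)
  have hstab : ∀ r ∈ R, ∀ u : (U r).X, T.stab (ι r u) = (U r).stab u := by
    intro r hr u
    obtain ⟨hemb, hran, -⟩ := hι r hr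
    have hpr : pr (ι r u) = r := by
      have : ι r u ∈ pr ⁻¹' {r} := by
        rw [← hran]
        exact ⟨u, rfl⟩
      exact this
    have hle : T.stab (ι r u) ≤ T₁.stab r := by
      have := hb.stab_le (ι r u)
      rwa [hpr] at this
    ext m
    constructor
    · intro hm
      refine ⟨hle hm, hemb.inj ?_⟩
      rw [hemb.equi m (hle hm)]
      exact hm.2
    · intro hm
      refine ⟨hstabH r hm.1, ?_⟩
      rw [← hemb.equi m hm.1, hm.2]
  refine ⟨T, ?_, ?_⟩
  · apply hb.isSplitting h1 R (fun v => (hR v).exists)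
    intro v hv
    exact ⟨U v, ι v, (hι v hv).1, (hι v hv).2.1, hU v⟩
  · ext E
    constructor
    · rintro ⟨hE, x, rfl⟩
      refine ⟨hE, ?_⟩
      obtain ⟨r, ⟨hr, m, hm, hmr⟩, -⟩ := hR (pr x)
      have hx' : T.act m⁻¹ x ∈ Set.range (ι r) := by
        rw [(hι r hr).2.1, Set.mem_preimage, Set.mem_singleton_iff, hb.equi m⁻¹ (inv_mem hm), ← hmr]
        exact T₁.act_inv_act hm r
      obtain ⟨u, hu⟩ := hx'
      obtain ⟨y, hy⟩ := hU1 r u
      have hx : x = T.act m (ι r u) := by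
        rw [hu]
        exact (T.act_act_inv hm x).symm
      refine ⟨T₁.act m r, T₂.act m y, ?_⟩
      rw [T₁.stab_act hm, T₂.stab_act hm, ← Subgroup.smul_inf, ← hy, ← hstab r hr u,
        ← T.stab_act hm, ← hx]
      exact inf_eq_left.2 fun k hk => hHF hk.1
    · rintro ⟨hE, x, y, rfl⟩
      refine ⟨hE, ?_⟩
      obtain ⟨r, ⟨hr, m, hm, hmr⟩, -⟩ := hR x
      have hy : y = T₂.act m (T₂.act m⁻¹ y) := (T₂.act_act_inv hm y).symm
      have hE' : T₁.stab x ⊓ T₂.stab y =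
          MulAut.conj m • (T₁.stab r ⊓ T₂.stab (T₂.act m⁻¹ y)) := by
        rw [Subgroup.smul_inf, ← T₁.stab_act hm, ← T₂.stab_act hm, hmr, ← hy]
      have hne : T₁.stab r ⊓ T₂.stab (T₂.act m⁻¹ y) ≠ ⊥ := by
        intro hbot
        rw [hE', hbot, Subgroup.smul_bot] at hE
        exact hE rfl
      obtain ⟨u, hu⟩ := hU2 r _ hne
      refine ⟨T.act m (ι r u), ?_⟩
      rw [T.stab_act hm, hstab r hr u, hu, ← hE']
      exact inf_eq_left.2 fun k hk => hHF hk.1.1

end Pool.Agent.Lib.MP_6567fb_al
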