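import Pool.Agent.Lib.MP_6567fb_al.T14a
import Pool.Agent.Lib.MP_6567fb_al.T14b
import Pool.Agent.Lib.MP_6567fb_al.T14c

/-!
# MP_6567fb_al, module T14d

The smallest proper family containing an invariant set of subgroups which is elliptic in some non-trivial
splitting.
-/

set_option autoImplicit false

open scoped Pointwise

namespace Pool.Agent.Lib.MP_6567fb_al

open MTree
open scoped Pointwise
variable {Γ G : Type} [Group Γ] [Group G] {π : Γ →* G}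

/-- the twisted tree as a tree for the group `K` -/
theorem tw_same_t14d {H K : Subgroup Γ} (T : MTree H) (hT : T.IsSplitting π.ker) (γ : Γ)
    (hK : MulAut.conj γ • H = K) :
    ∃ T₃ : MTree K, T₃.IsSplitting π.ker ∧
      (T₃.vgs π.ker = {B | ∃ D ∈ T.vgs π.ker, B = MulAut.conj γ • D}) ∧
      (∀ x : T.X, ∃ y : T₃.X, T₃.stab y = MulAut.conj γ • T.stab x) ∧
      ∀ B : Subgroup Γ, T.Ell ((MulAut.conj γ⁻¹ • B : Subgroup Γ) : Set Γ) → T₃.Ell (B : Set Γ) := by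
  subst hK
  refine ⟨T.tw γ, tw_isSplitting hT γ, tw_vgs T γ, fun x => ⟨x, tw_stab T γ x⟩, ?_⟩
  rintro B ⟨x, hx⟩
  refine ⟨x, ?_⟩
  intro b hb
  apply hx
  have h1 := Subgroup.smul_mem_pointwise_smul b (MulAut.conj γ⁻¹) B hb
  rw [MulAut.smul_def, MulAut.conj_apply, inv_inv] at h1
  exact h1

theorem conj_smul_inf_ker_t14d {M : Subgroup Γ} {m : Γ} (hm : m ∈ M) :
    MulAut.conj m • (M ⊓ π.ker) = M ⊓ π.ker := by
  rw [Subgroup.smul_inf, Subgroup.conj_smul_eq_self_of_mem hm,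
    Subgroup.Normal.conj_smul_eq_self m π.ker]

theorem gen_family (hc : Ctx π) {M : Subgroup Γ} (hM : Loc π M) (XX : Set (Subgroup Γ))
    (hinv : ∀ m ∈ M, ∀ D ∈ XX, MulAut.conj m • D ∈ XX) (hX : ∀ D ∈ XX, D ≤ M ⊓ π.ker)
    (T₁ : MTree (M ⊓ π.ker))
    (h1 : T₁.IsSplitting π.ker) (h1n : T₁.Nontriv π.ker) (h1r : T₁.Rel XX) :
    ∃ Ω, IsProper π.ker M Ω ∧ (∀ D ∈ XX, D ≠ ⊥ → ∃ B ∈ Ω, D ≤ B) ∧
      ∀ T : MTree (M ⊓ π.ker), T.IsSplitting π.ker → T.Rel XX → T.Rel Ω := by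
  have hHH : (M ⊓ π.ker) ⊓ π.ker = M ⊓ π.ker := by rw [inf_assoc, inf_idem]
  -- non-trivial vertex groups
  have hvg : ∀ (T : MTree (M ⊓ π.ker)) (x : T.X), T.stab x ⊓ π.ker = T.stab x := by
    intro T x
    exact inf_eq_left.2 fun k hk => hk.1.2
  obtain ⟨Ω, ⟨T₂, hT₂, hT₂r, rfl⟩, hmin⟩ := periph_min hc hM.ker_t14b
    {Ω | ∃ T : MTree (M ⊓ π.ker), T.IsSplitting π.ker ∧ T.Rel XX ∧ T.vgs π.ker = Ω}
    ⟨_, T₁, h1, h1r, rfl⟩ (by
      rintro Ω ⟨T, hT, -, rfl⟩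
      exact periph_of_splitting hT)
  have hkey : ∀ T : MTree (M ⊓ π.ker), T.IsSplitting π.ker → T.Rel XX → T.Rel (T₂.vgs π.ker) := by
    intro T hT hTr
    obtain ⟨T', hT', hv'⟩ := meet_exists hc hM.fac T₂ T hT₂ hT
    have hrel : T'.Rel XX := by
      intro D hD
      by_cases hbot : D = ⊥
      · obtain ⟨z⟩ : Nonempty T'.X := T'.tree.1.nonempty
        refine ⟨z, ?_⟩
        intro d hd
        rw [hbot] at hd
        have : d = 1 := hd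
        rw [this]
        exact T'.act_one z
      · obtain ⟨x, hx⟩ := hT₂r D hD
        obtain ⟨y, hy⟩ := hTr D hD
        have hle : D ≤ T₂.stab x ⊓ T.stab y :=
          fun d hd => ⟨⟨hX D hD hd, hx d hd⟩, ⟨hX D hD hd, hy d hd⟩⟩
        have hmem : T₂.stab x ⊓ T.stab y ∈ T'.vgs π.ker := by
          rw [hv']
          exact ⟨fun h => hbot (le_bot_iff.1 (h ▸ hle)), x, y, rfl⟩
        obtain ⟨-, z, hz⟩ := hmem
        refine ⟨z, fun d hd => ?_⟩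
        have hd' := hle hd
        rw [← hz] at hd'
        exact hd'.1.2
    have heq := hmin (T'.vgs π.ker) ⟨T', hT', hrel, rfl⟩ (by
      intro E hE
      rw [hv'] at hE
      obtain ⟨hEne, x, y, rfl⟩ := hE
      refine ⟨T₂.stab x, ⟨?_, x, hvg T₂ x⟩, inf_le_left⟩
      intro hbot
      rw [hbot, bot_inf_eq] at hEne
      exact hEne rfl)
    intro B hB
    rw [← heq, hv'] at hB
    obtain ⟨-, x, y, rfl⟩ := hB
    exact ⟨y, fun b hb => hb.2.2⟩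
  have hcov : ∀ D : Subgroup Γ, D ≤ M ⊓ π.ker → D ≠ ⊥ → T₂.Ell (D : Set Γ) →
      ∃ B ∈ T₂.vgs π.ker, D ≤ B := by
    rintro D hDM hD ⟨x, hx⟩
    have hle : D ≤ T₂.stab x := fun d hd => ⟨hDM hd, hx d hd⟩
    exact ⟨T₂.stab x, ⟨fun h => hD (le_bot_iff.1 (h ▸ hle)), x, hvg T₂ x⟩, hle⟩
  have hper : IsPeriph π.ker (M ⊓ π.ker) (T₂.vgs π.ker) := periph_of_splitting hT₂
  have hstar : ∀ m ∈ M, ∀ B ∈ T₂.vgs π.ker, ∃ B'' ∈ T₂.vgs π.ker, B ≤ MulAut.conj m • B'' := by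
    intro m hm B hB
    obtain ⟨T₃, hT₃, hv₃, -, hell₃⟩ :=
      tw_same_t14d T₂ hT₂ m (conj_smul_inf_ker_t14d (π := π) hm)
    have hr : T₃.Rel XX := by
      intro D hD
      apply hell₃
      exact hT₂r _ (hinv m⁻¹ (inv_mem hm) D hD)
    obtain ⟨y, hy⟩ := hkey T₃ hT₃ hr B hB
    have hBM : B ≤ M ⊓ π.ker := by
      have := periph_le hper hB
      rwa [hHH] at this
    have hle : B ≤ T₃.stab y := fun b hb => ⟨hBM hb, hy b hb⟩
    have hmem : T₃.stab y ∈ T₃.vgs π.ker :=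
      ⟨fun h => hB.1 (le_bot_iff.1 (h ▸ hle)), y, hvg T₃ y⟩
    rw [hv₃] at hmem
    obtain ⟨B'', hB'', hy''⟩ := hmem
    exact ⟨B'', hB'', hy'' ▸ hle⟩
  have hMinv : ∀ m ∈ M, ∀ B ∈ T₂.vgs π.ker, MulAut.conj m • B ∈ T₂.vgs π.ker := by
    intro m hm B hB
    obtain ⟨B₁, hB₁, hle₁⟩ := hstar m⁻¹ (inv_mem hm) B hB
    have h2 : MulAut.conj m • B ≤ B₁ := by
      have h3 := Subgroup.pointwise_smul_le_pointwise_smul_iff (a := MulAut.conj m) |>.2 hle₁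
      rwa [map_inv, smul_inv_smul] at h3
    obtain ⟨B₂, hB₂, hle₂⟩ := hstar m hm B₁ hB₁
    have h4 : B ≤ B₂ := Subgroup.pointwise_smul_le_pointwise_smul_iff.1 (h2.trans hle₂)
    have h5 : B = B₂ := by
      apply periph_disj hper hB hB₂
      rw [inf_eq_left.2 h4]
      exact hB.1
    have h6 : MulAut.conj m • B = B₁ := le_antisymm h2 (h5 ▸ hle₂)
    rw [h6]
    exact hB₁
  refine ⟨T₂.vgs π.ker, ?_, ?_, hkey⟩
  · rw [proper_iff hc hM]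
    refine ⟨⟨hMinv, T₂, hT₂, rfl⟩, ?_⟩
    intro hH
    obtain ⟨y, hy⟩ := hkey T₁ h1 h1r _ hH
    obtain ⟨h, hh, hne⟩ := h1n y
    exact hne (hy h hh.1)
  · intro D hD hne
    exact hcov D (hX D hD) hne (hT₂r D hD)

/-- enlarging a proper family: `Ω` and an invariant set of subgroups, elliptic together in a non-trivial splitting,
some of which is not inside a member of `Ω` -/
theorem enlarge_family (hc : Ctx π) {M : Subgroup Γ} (hM : Loc π M) {Ω : Set (Subgroup Γ)}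
    (hΩ : IsPeriph π.ker M Ω) (XX : Set (Subgroup Γ)) (hinv : ∀ m ∈ M, ∀ D ∈ XX, MulAut.conj m • D ∈ XX)
    (hX : ∀ D ∈ XX, D ≤ M ⊓ π.ker) (T₁ : MTree (M ⊓ π.ker)) (h1 : T₁.IsSplitting π.ker)
    (h1n : T₁.Nontriv π.ker) (h1r : T₁.Rel Ω)
    (h1x : T₁.Rel XX) (hnew : ∃ D ∈ XX, ∀ B ∈ Ω, ¬ D ≤ B) (hnew' : ∀ D ∈ XX, D ≠ ⊥) :
    ∃ Ω', IsProper π.ker M Ω' ∧ FamLe Ω Ω' ∧ Ω' ≠ Ω ∧ (∀ D ∈ XX, ∃ B ∈ Ω', D ≤ B) ∧
      ∀ T : MTree (M ⊓ π.ker), T.IsSplitting π.ker → T.Rel Ω → T.Rel XX → T.Rel Ω' := by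
  obtain ⟨Ω', hΩ', hcov, hrel⟩ := gen_family hc hM (Ω ∪ XX) (by
      rintro m hm D (hD | hD)
      · exact Or.inl (hΩ.inv m hm D hD)
      · exact Or.inr (hinv m hm D hD)) (by
      rintro D (hD | hD)
      · exact periph_le hΩ hD
      · exact hX D hD) T₁ h1 h1n (by
      rintro D (hD | hD)
      · exact h1r D hD
      · exact h1x D hD)
  refine ⟨Ω', hΩ', ?_, ?_, ?_, ?_⟩
  · intro B hB
    exact hcov B (Or.inl hB) (periph_ne hΩ hB)
  · rintro rfl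
    obtain ⟨D, hD, hDn⟩ := hnew
    obtain ⟨B, hB, hle⟩ := hcov D (Or.inr hD) (hnew' D hD)
    exact hDn B hB hle
  · intro D hD
    exact hcov D (Or.inr hD) (hnew' D hD)
  · intro T hT hTΩ hTX
    apply hrel T hT
    rintro D (hD | hD)
    · exact hTΩ D hD
    · exact hTX D hD

end Pool.Agent.Lib.MP_6567fb_al
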