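import Pool.Agent.Lib.MP_6567fb_al.F0
import Pool.Agent.Lib.MP_6567fb_al.F1a
import Pool.Agent.Lib.MP_6567fb_al.T14d
import Pool.Agent.Lib.MP_6567fb_al.T14b
import Pool.Agent.Lib.MP_6567fb_al.T14e

/-!
# MP_6567fb_al, module F5

Claim M.  Ω maximal (periph_max) among the proper families for M such that for a.a. g there is a non-trivial Mg-splitting T(g) rel Ω with all s g (s ∈ Sg) elliptic (Ω = ∅ is one: periph_empty, Rel ∅ is vacuous).  T_0 := TheoremK M Ω (rk ≥ 2).  Suppose s ∈ Sg is not elliptic on T_0.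
Gen.supp and Gen.hyp: for a.a. g, D(g) is s(G)-invariant; for two such g, g': D(g) ≤ D(g') and conversely (IsSupp.min): D(g) = D.  s g fixes a vertex x of T(g) with H_x ≠ ⊥: otherwise all lifts of g at x agree with s g, so s g fixes all neighbours, all of T(g), so commutes with H (lift of
h e is h P_e h⁻¹), H preserves the axis of s g in T_0 (comm_axis) with trivial edge stabilisers: H cyclic (rk_one), contradiction to rk ≥ 2.  H_x (T(g)) is an s g-invariant Ω-factor, so D ≤ H_x.  XX := all m • D, m ∈ M (= H-conjugates); enlarge_family with T_1 = T(g) restricted to M ⊓ F: D is not inside a member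
B of Ω: T_0 rel Ω: B, so D would be elliptic on T_0, D ≠ ⊥ s g-invariant: s g elliptic (fix_of_norm).  The new family contradicts maximality.
-/

set_option autoImplicit false

open scoped Pointwise
open Filter

namespace Pool.Agent.Lib.MP_6567fb_al

open MTree
variable {Γ G : Type} [Group Γ] [Group G] {π : Γ →* G}

/-- a lift commuting with `H` is elliptic on every splitting if `rk H ≥ 2` -/
theorem ell_of_central (hc : Ctx π) {M : Subgroup Γ} (hM : Loc π M) (hrk : 2 ≤ rk (M ⊓ π.ker))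
    {T : MTree M} (hT : T.IsSplitting π.ker) {Q : Γ} (hQ : Q ∈ M)
    (hcomm : ∀ h ∈ M ⊓ π.ker, Q * h = h * Q) : ∃ x, T.act Q x = x := by
  classical
  have hni : T.NoInv := hT.noInv hc
  rcases ell_or_axis T hni hQ with h | ⟨l, L, hL⟩
  · exact h
  exfalso
  have hadj : T.G.Adj (L 0) (L 1) := by
    rw [← SimpleGraph.dist_eq_one_iff_adj, hL.2.1 0 1]
    simp
  have hax : ∀ h : (M ⊓ π.ker : Subgroup Γ), ∃ c : ℤ, ∀ i, T.act (h : Γ) (L i) = L (i + c) := by
    intro h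
    exact comm_axis T hQ h.2.1 hL (hcomm h h.2).symm
  choose c hcx using hax
  have hinj : ∀ i j, L i = L j → i = j := fun i j h => TG.line_inj hL.2.1 h
  let f : (M ⊓ π.ker : Subgroup Γ) →* Multiplicative ℤ :=
    { toFun := fun h => Multiplicative.ofAdd (c h)
      map_one' := by
        have h1 := hcx 1 0
        rw [Subgroup.coe_one, T.act_one] at h1
        have h2 := hinj _ _ h1
        have h3 : c 1 = 0 := by omega
        rw [h3]
        rfl
      map_mul' := by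
        intro a b
        have h1 := hcx (a * b) 0
        rw [Subgroup.coe_mul, T.act_mul _ a.2.1 _ b.2.1, hcx b, hcx a] at h1
        have h2 := hinj _ _ h1
        have h3 : c (a * b) = c a + c b := by omega
        rw [h3]
        rfl }
  have hf : Function.Injective f := by
    rw [injective_iff_map_eq_one]
    intro a ha
    have h1 : c a = 0 := ha
    have h2 := hcx a 0
    have h3 := hcx a 1
    rw [h1, add_zero] at h2 h3
    exact Subtype.ext (hT.free a a.2 _ _ hadj h2 h3)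
  have hcyc : IsCyclic (M ⊓ π.ker : Subgroup Γ) := isCyclic_of_injective f hf
  obtain ⟨y, hy⟩ := hcyc.exists_generator
  have hH : M ⊓ π.ker = Subgroup.zpowers (y : Γ) := by
    apply le_antisymm
    · intro x hx
      obtain ⟨k, hk⟩ := Subgroup.mem_zpowers_iff.1 (hy ⟨x, hx⟩)
      rw [Subgroup.mem_zpowers_iff]
      exact ⟨k, congrArg Subtype.val hk⟩
    · rw [Subgroup.zpowers_le]
      exact y.2
  have hy1 : (y : Γ) ≠ 1 := by
    intro h1
    apply hM.ne
    rw [hH, h1, Subgroup.zpowers_one_eq_bot]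
  have := (rk_one hc hM.fac).2 ⟨y, hy1, hH⟩
  omega

/-- the support is a vertex group of `T(g)` or below one -/
theorem supp_ell_f5 (hc : Ctx π) {M : Subgroup Γ} (hM : Full π M) (hrk : 2 ≤ rk (M ⊓ π.ker))
    {Ω : Set (Subgroup Γ)} {T0 : MTree M} (hT0 : T0.IsSplitting π.ker) {s : G →* Γ}
    (hs : SecIn π M s) {g : G} (hhyp : T0.Hyp (s g)) {D : Subgroup Γ}
    (hD : IsSupp π.ker (M ⊓ π.ker) Ω (s g) D) {T : MTree (Mg π M g)} (hT : T.IsSplitting π.ker)
    (hn : T.Nontriv π.ker) (hr : T.Rel Ω) (hell : ∃ x, T.act (s g) x = x) :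
    ∃ x, D ≤ T.stab x ⊓ π.ker := by
  have hQ : s g ∈ Mg π M g := mem_mg (hs.mem g) (hs.sec g)
  have hle : M ⊓ π.ker ≤ Mg π M g := (mg_inf (π := π) M g).symm.le.trans inf_le_left
  have hF : (M ⊓ π.ker) ⊓ π.ker = Mg π M g ⊓ π.ker := by rw [mg_inf, inf_assoc, inf_idem]
  by_cases hx : ∃ x, T.act (s g) x = x ∧ T.stab x ⊓ π.ker ≠ ⊥
  · obtain ⟨x, hx, hne⟩ := hx
    refine ⟨x, hD.min _ (Or.inr ⟨T.res hle, IsSplitting.res hT hle hF, hr, x, ?_⟩) hne ?_⟩
    · rw [res_stab, inf_assoc, inf_assoc, inf_idem]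
      apply le_antisymm
      · exact inf_le_inf_left _ inf_le_right
      · refine le_inf inf_le_left (le_inf ?_ inf_le_right)
        intro y hy
        have h1 : y ∈ Mg π M g ⊓ π.ker := ⟨hy.1.1, hy.2⟩
        rw [mg_inf] at h1
        exact h1.1
    · rw [← conj_smul_inf, ← stab_act T hQ, hx]
  · exfalso
    push Not at hx
    obtain ⟨x0, hx0⟩ := hell
    have hstep : ∀ x y, T.G.Adj x y → T.act (s g) x = x → T.act (s g) y = y := by
      intro x y hxy hxQ
      obtain ⟨p, ⟨hp, hpπ, hpf⟩, _⟩ := IsSplitting.lift hT hxy hQ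
      have h1 : T.act (s g)⁻¹ x = x := by
        have h2 := act_inv_act T hQ x
        rwa [hxQ] at h2
      have h2 : p * (s g)⁻¹ ∈ T.stab x ⊓ π.ker := by
        refine ⟨⟨(Mg π M g).mul_mem hp ((Mg π M g).inv_mem hQ), ?_⟩, ?_⟩
        · rw [T.act_mul _ hp _ ((Mg π M g).inv_mem hQ), h1, hpf.1]
        · change π (p * (s g)⁻¹) = 1
          rw [map_mul, map_inv, hpπ, mul_inv_cancel]
      rw [hx x hxQ, Subgroup.mem_bot, mul_inv_eq_one] at h2
      rw [← h2]
      exact hpf.2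
    have hall : ∀ y, T.act (s g) y = y := fun y =>
      TG.adj_ind T.tree.connected.preconnected hstep x0 y hx0
    obtain ⟨u1, _, hu1⟩ := hn x0
    obtain ⟨y0, hxy, _⟩ := TG.exists_next T.tree (x := x0) (z := T.act u1 x0) (Ne.symm hu1)
    have hcomm : ∀ u ∈ M ⊓ π.ker, s g * u = u * s g := by
      intro u hu
      have huM : u ∈ Mg π M g := hle hu
      have huk : π u = 1 := hu.2
      have h1 : u * s g * u⁻¹ ∈ Mg π M g :=
        (Mg π M g).mul_mem ((Mg π M g).mul_mem huM hQ) ((Mg π M g).inv_mem huM)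
      have h2 : ∀ y, T.act (u * s g * u⁻¹) y = y := by
        intro y
        rw [T.act_mul _ ((Mg π M g).mul_mem huM hQ) _ ((Mg π M g).inv_mem huM),
          T.act_mul _ huM _ hQ, hall, act_act_inv T huM]
      have h3 : u * s g * u⁻¹ = s g := by
        refine IsSplitting.eq_of_agree hT h1 hQ ?_ hxy ?_ ?_
        · rw [map_mul, map_mul, map_inv, huk]
          simp
        · rw [h2, hall]
        · rw [h2, hall]
      have h4 : s g * u = (u * s g * u⁻¹) * u := by rw [h3]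
      rw [h4, inv_mul_cancel_right]
    obtain ⟨x, hx⟩ := ell_of_central hc hM.toLoc hrk hT0 (hs.mem g) hcomm
    exact hhyp x hx

theorem claimM (hc : Ctx π) (hK : TheoremK π) {U : Ultrafilter G} (hU : Gen π U)
    {M : Subgroup Γ} (hM : Full π M) (hrk : 2 ≤ rk (M ⊓ π.ker)) {Sg : Set (G →* Γ)}
    (hfin : Sg.Finite) (hSg : ∀ s ∈ Sg, SecIn π M s)
    (h : ∀ᶠ g in (U : Filter G), ∃ T : MTree (Mg π M g), T.IsSplitting π.ker ∧ T.Nontriv π.ker ∧
      ∀ s ∈ Sg, ∃ x, T.act (s g) x = x) :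
    ∃ T : MTree M, T.IsSplitting π.ker ∧ T.Nontriv π.ker ∧ ∀ s ∈ Sg, T.Ell (Set.range s) := by
  classical
  have hloc : Loc π M := hM.toLoc
  obtain ⟨Ω, ⟨hΩ, hΩT⟩, hmax⟩ := periph_max hc hloc
    {Ω | IsProper π.ker M Ω ∧ ∀ᶠ g in (U : Filter G), ∃ T : MTree (Mg π M g), T.IsSplitting π.ker ∧
      T.Nontriv π.ker ∧ T.Rel Ω ∧ ∀ s ∈ Sg, ∃ x, T.act (s g) x = x}
    ⟨∅, periph_empty hc hloc, h.mono fun g hg => by
      obtain ⟨T, h1, h2, h3⟩ := hg
      exact ⟨T, h1, h2, fun B hB => absurd hB (Set.notMem_empty B), h3⟩⟩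
    (fun Ω hΩ => ((proper_iff hc hloc).1 hΩ.1).1)
  obtain ⟨T0, hT0, hn0, hr0⟩ := hK M Ω hM hΩ (Or.inl (by omega))
  refine ⟨T0, hT0, hn0, ?_⟩
  by_contra hcon
  push Not at hcon
  obtain ⟨s, hsS, hns⟩ := hcon
  have hs := hSg s hsS
  have hsupp := hU.supp M Ω T0 s hM hΩ hT0 hr0 hs hns
  have hhyp := hU.hyp M T0 s hM hT0 hs hns
  obtain ⟨g0, D, hD0, hDinv⟩ := hsupp.exists
  have hsupp' : ∀ᶠ g in (U : Filter G), IsSupp π.ker (M ⊓ π.ker) Ω (s g) D := by
    refine hsupp.mono ?_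
    rintro g ⟨D', hD', hinv'⟩
    have h1 : D' = D := le_antisymm (hD'.min D hD0.ofac hD0.ne (hDinv g))
      (hD0.min D' hD'.ofac hD'.ne (hinv' g0))
    rwa [h1] at hD'
  have hDH : D ≤ M ⊓ π.ker := fac_le (IsOFactor.fac hD0.ofac)
  have hle : ∀ g, M ⊓ π.ker ≤ Mg π M g := fun g => (mg_inf (π := π) M g).symm.le.trans inf_le_left
  have hF : ∀ g, (M ⊓ π.ker) ⊓ π.ker = Mg π M g ⊓ π.ker := fun g => by
    rw [mg_inf, inf_assoc, inf_idem]
  -- the conjugates of `D`
  obtain ⟨XX, hXX⟩ : ∃ XX : Set (Subgroup Γ), XX = {E | ∃ m ∈ M, E = MulAut.conj m • D} := ⟨_, rfl⟩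
  have hXr : ∀ g, ∀ T : MTree (Mg π M g), (∃ x, D ≤ T.stab x ⊓ π.ker) → (T.res (hle g)).Rel XX := by
    rintro g T ⟨x, hx⟩ E hE
    rw [hXX] at hE
    obtain ⟨m, hm, rfl⟩ := hE
    obtain ⟨u, hu⟩ : ∃ u, u = m * (s (π m))⁻¹ := ⟨_, rfl⟩
    have huH : u ∈ M ⊓ π.ker := by
      rw [hu]
      refine ⟨M.mul_mem hm (M.inv_mem (hs.mem _)), ?_⟩
      change π (m * (s (π m))⁻¹) = 1
      rw [map_mul, map_inv, hs.sec, mul_inv_cancel]
    have h1 : MulAut.conj m • D = MulAut.conj u • D := by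
      have h2 : m = u * s (π m) := by rw [hu, inv_mul_cancel_right]
      calc MulAut.conj m • D = MulAut.conj (u * s (π m)) • D := by rw [← h2]
        _ = MulAut.conj u • D := by rw [t8_conj_mul, hDinv]
    rw [h1]
    refine ⟨T.act u x, ?_⟩
    intro d hd
    have hd' : d ∈ MulAut.conj u • D := hd
    rw [t8_mem_conj] at hd'
    have hst := (hx hd').1
    have huM := hle g huH
    have h3 : d = u * (u⁻¹ * d * u) * u⁻¹ := by group
    show T.act d (T.act u x) = T.act u x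
    rw [h3, T.act_mul _ ((Mg π M g).mul_mem huM hst.1) _ ((Mg π M g).inv_mem huM),
      act_inv_act T huM, T.act_mul _ huM _ hst.1, hst.2]
  have hgood : ∀ᶠ g in (U : Filter G), ∃ T : MTree (Mg π M g), T.IsSplitting π.ker ∧
      T.Nontriv π.ker ∧ T.Rel Ω ∧ (∀ s ∈ Sg, ∃ x, T.act (s g) x = x) ∧
      (T.res (hle g)).Rel XX := by
    filter_upwards [hΩT, hsupp', hhyp] with g h1 h2 h3
    obtain ⟨T, q1, q2, q3, q4⟩ := h1
    exact ⟨T, q1, q2, q3, q4, hXr g T (supp_ell_f5 hc hM hrk hT0 hs h3 h2 q1 q2 q3 (q4 s hsS))⟩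
  obtain ⟨g1, T1, q1, q2, q3, q4, q5⟩ := hgood.exists
  obtain ⟨g2, h2, h3⟩ := (hsupp'.and hhyp).exists
  have hres : ∀ g, ∀ T : MTree (Mg π M g), T.Nontriv π.ker → (T.res (hle g)).Nontriv π.ker := by
    intro g T hn x
    obtain ⟨u, hu, hux⟩ := hn x
    rw [← hF g] at hu
    exact ⟨u, hu, hux⟩
  obtain ⟨Ω', e1, e2, e3, _, e5⟩ := enlarge_family hc hloc ((proper_iff hc hloc).1 hΩ).1 XX
    (by
      rintro m hm E hE
      rw [hXX] at hE ⊢
      obtain ⟨m', hm', rfl⟩ := hE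
      exact ⟨m * m', M.mul_mem hm hm', by rw [t8_conj_mul]⟩)
    (by
      intro E hE
      rw [hXX] at hE
      obtain ⟨m, hm, rfl⟩ := hE
      intro y hy
      rw [t8_mem_conj] at hy
      have h4 := hDH hy
      have h5 : y = m * (m⁻¹ * y * m) * m⁻¹ := by group
      rw [h5]
      exact ⟨M.mul_mem (M.mul_mem hm h4.1) (M.inv_mem hm), (MonoidHom.normal_ker π).conj_mem _ h4.2 m⟩)
    (T1.res (hle g1)) (IsSplitting.res q1 (hle g1) (hF g1)) (hres g1 T1 q2) q3 q5
    (by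
      refine ⟨D, ?_, ?_⟩
      · rw [hXX]
        exact ⟨1, M.one_mem, (t8_conj_one D).symm⟩
      · intro B hB hDB
        obtain ⟨x, hx⟩ := hr0 B hB
        have h4 : D ≤ T0.stab x ⊓ π.ker := fun d hd => ⟨⟨(hDH hd).1, hx d (hDB hd)⟩, (hDH hd).2⟩
        exact h3 x (fix_of_norm hc hT0 h4 hD0.ne (hs.mem g2) (hDinv g2)))
    (by
      intro E hE
      rw [hXX] at hE
      obtain ⟨m, hm, rfl⟩ := hE
      exact smul_ne_bot_t14b hD0.ne m)
  apply e3
  apply hmax Ω' ⟨e1, ?_⟩ e2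
  refine hgood.mono ?_
  rintro g ⟨T, p1, p2, p3, p4, p5⟩
  exact ⟨T, p1, p2, e5 (T.res (hle g)) (IsSplitting.res p1 (hle g) (hF g)) p3 p5, p4⟩

end Pool.Agent.Lib.MP_6567fb_al
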