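import Pool.Agent.Lib.MP_6567fb_al.F0
import Pool.Agent.Lib.MP_6567fb_al.F1a

/-!
# MP_6567fb_al, module F6a

Generalities on towers.
-/

set_option autoImplicit false

open scoped Pointwise
open Filter

namespace Pool.Agent.Lib.MP_6567fb_al

open MTree
variable {Γ G : Type} [Group Γ] [Group G] {π : Γ →* G}

variable {I : Type}

theorem ker_le_mg_f6a {M : Subgroup Γ} {g : G} {v : Γ} (hv : v ∈ M ⊓ π.ker) : v ∈ Mg π M g := by
  rw [← mg_inf M g] at hv
  exact hv.1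

theorem IsTower.mono_le {M : Subgroup Γ} {g : G} {s : I → Γ} {inn : I → ℕ∞}
    {U : ℕ → Set (Subgroup Γ)} (h : IsTower π M g s inn U) {j j' : ℕ} (hj : j ≤ j') :
    FamLe (U j) (U j') := by
  induction j', hj using Nat.le_induction with
  | base => exact fun B hB => ⟨B, hB, le_rfl⟩
  | succ n _ ih =>
    intro B hB
    obtain ⟨B', hB', hle⟩ := ih B hB
    obtain ⟨B'', hB'', hle'⟩ := h.mono n B' hB'
    exact ⟨B'', hB'', hle.trans hle'⟩

/-- members of one family are equal or meet trivially -/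
theorem IsTower.disj (_hc : Ctx π) {M : Subgroup Γ} (_hM : Full π M) {g : G} {s : I → Γ}
    {inn : I → ℕ∞} {U : ℕ → Set (Subgroup Γ)} (h : IsTower π M g s inn U) {j : ℕ}
    {B B' : Subgroup Γ} (hB : B ∈ U j) (hB' : B' ∈ U j) (hne : B ⊓ B' ≠ ⊥) : B = B' :=
  periph_disj (h.periph j) hB hB' hne

theorem IsTower.top_mem (hc : Ctx π) {M : Subgroup Γ} (hM : Full π M) {g : G} {s : I → Γ}
    {inn : I → ℕ∞} {U : ℕ → Set (Subgroup Γ)} (h : IsTower π M g s inn U) {t : ℕ}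
    (ht : M ⊓ π.ker ∈ U t) : U t = {M ⊓ π.ker} := by
  apply Set.eq_singleton_iff_unique_mem.2
  refine ⟨ht, fun B hB => ?_⟩
  have h1 := periph_le (h.periph t) hB
  rw [mg_inf] at h1
  refine h.disj hc hM hB ht ?_
  rw [inf_eq_left.2 h1]
  exact periph_ne (h.periph t) hB

theorem IsTower.inv_up (hc : Ctx π) {M : Subgroup Γ} (hM : Full π M) {g : G} {s : I → Γ}
    {inn : I → ℕ∞} {U : ℕ → Set (Subgroup Γ)} (h : IsTower π M g s inn U) {j j' : ℕ} (hj : j ≤ j')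
    {B : Subgroup Γ} (hB : B ∈ U j) {Q : Γ} (hQ : Q ∈ M) (hQg : π Q = g)
    (hinv : MulAut.conj Q • B = B) :
    ∃ B' ∈ U j', B ≤ B' ∧ MulAut.conj Q • B' = B' := by
  obtain ⟨B', hB', hle⟩ := h.mono_le hj B hB
  refine ⟨B', hB', hle, ?_⟩
  refine h.disj hc hM ((h.periph j').inv Q (mem_mg hQ hQg) B' hB') hB' ?_
  intro h0
  have h1 : B ≤ MulAut.conj Q • B' ⊓ B' := by
    refine le_inf ?_ hle
    rw [← hinv]
    exact Subgroup.pointwise_smul_le_pointwise_smul_iff.2 hle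
  rw [h0] at h1
  exact periph_ne (h.periph j) hB (le_bot_iff.1 h1)

theorem Avail.mono (hc : Ctx π) {M : Subgroup Γ} (hM : Full π M) {g : G} {s : I → Γ}
    {inn : I → ℕ∞} {U : ℕ → Set (Subgroup Γ)} (h : IsTower π M g s inn U) {j j' : ℕ} (hj : j ≤ j')
    {Q : Γ} (hQ : Avail π M g s inn U j Q) : Avail π M g s inn U j' Q := by
  obtain ⟨h1, h2, h3 | h3⟩ := hQ
  · obtain ⟨i, hi, hc'⟩ := h3
    exact ⟨h1, h2, Or.inl ⟨i, hi.trans (by exact_mod_cast hj), hc'⟩⟩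
  · obtain ⟨B, hB, hinv⟩ := h3
    obtain ⟨B', hB', _, hinv'⟩ := h.inv_up hc hM hj hB h1 h2 hinv
    exact ⟨h1, h2, Or.inr ⟨B', hB', hinv'⟩⟩

theorem conj_inv_f6a {B : Subgroup Γ} {Q v : Γ} (hinv : MulAut.conj Q • B = B) :
    MulAut.conj (v * Q * v⁻¹) • MulAut.conj v • B = MulAut.conj v • B := by
  rw [← t8_conj_mul]
  have h1 : v * Q * v⁻¹ * v = v * Q := by group
  rw [h1, t8_conj_mul, hinv]

theorem Avail.conj {M : Subgroup Γ} (_hM : Full π M) {g : G} {s : I → Γ}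
    {inn : I → ℕ∞} {U : ℕ → Set (Subgroup Γ)} (h : IsTower π M g s inn U) {j : ℕ}
    {Q v : Γ} (hQ : Avail π M g s inn U j Q) (hv : v ∈ M ⊓ π.ker) :
    Avail π M g s inn U j (v * Q * v⁻¹) := by
  obtain ⟨h1, h2, h3⟩ := hQ
  have hk : π v = 1 := hv.2
  refine ⟨M.mul_mem (M.mul_mem hv.1 h1) (M.inv_mem hv.1), ?_, ?_⟩
  · rw [map_mul, map_mul, map_inv, hk, h2]; simp
  · rcases h3 with ⟨i, hi, w, hw, hwQ⟩ | ⟨B, hB, hinv⟩
    · refine Or.inl ⟨i, hi, v * w, mul_mem hv hw, ?_⟩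
      rw [← hwQ]; group
    · exact Or.inr ⟨MulAut.conj v • B, (h.periph j).inv v (ker_le_mg_f6a hv) B hB, conj_inv_f6a hinv⟩

theorem Src_mono (hc : Ctx π) {M : Subgroup Γ} (hM : Full π M) {T : MTree M} {g : G} {s : I → Γ}
    {inn : I → ℕ∞} {U : ℕ → Set (Subgroup Γ)} (h : IsTower π M g s inn U) (x : I → T.X) {j j' : ℕ}
    (hj : j ≤ j') {Q : Γ} (hQ : Q ∈ M) (hQg : π Q = g) :
    Src π T s inn U x j Q ⊆ Src π T s inn U x j' Q := by
  rintro z ⟨hz, h1 | h1⟩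
  · obtain ⟨B, hB, hinv, hne⟩ := h1
    obtain ⟨B', hB', hle, hinv'⟩ := h.inv_up hc hM hj hB hQ hQg hinv
    refine ⟨hz, Or.inl ⟨B', hB', hinv', fun h0 => hne ?_⟩⟩
    exact le_bot_iff.1 (h0 ▸ inf_le_inf_right _ hle)
  · obtain ⟨i, hi, hv⟩ := h1
    exact ⟨hz, Or.inr ⟨i, hi.trans (by exact_mod_cast hj), hv⟩⟩

theorem Src_act {M : Subgroup Γ} (_hM : Full π M) {T : MTree M} {g : G} {s : I → Γ}
    {inn : I → ℕ∞} {U : ℕ → Set (Subgroup Γ)} (h : IsTower π M g s inn U) (x : I → T.X) {j : ℕ}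
    {Q v : Γ} (hQ : Q ∈ M) (hv : v ∈ M ⊓ π.ker) {z : T.X} (hz : z ∈ Src π T s inn U x j Q) :
    T.act v z ∈ Src π T s inn U x j (v * Q * v⁻¹) := by
  obtain ⟨hz1, h1⟩ := hz
  have hvM : v ∈ M := hv.1
  refine ⟨?_, ?_⟩
  · rw [T.act_mul _ (M.mul_mem hvM hQ) _ (M.inv_mem hvM), T.act_inv_act hvM, T.act_mul _ hvM _ hQ, hz1]
  · rcases h1 with ⟨B, hB, hinv, hne⟩ | ⟨i, hi, w, hw, hwQ, hwz⟩
    · refine Or.inl ⟨MulAut.conj v • B, (h.periph j).inv v (ker_le_mg_f6a hv) B hB,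
        conj_inv_f6a hinv, ?_⟩
      rw [T.stab_act hvM, ← Subgroup.smul_inf]
      exact smul_ne_bot_t14b hne v
    · refine Or.inr ⟨i, hi, v * w, mul_mem hv hw, ?_, ?_⟩
      · rw [← hwQ]; group
      · rw [T.act_mul _ hvM _ hw.1, hwz]

/-- the first non-empty family needs an input -/
theorem IsTower.input (_hc : Ctx π) {M : Subgroup Γ} (_hM : Full π M) {g : G} {s : I → Γ}
    {inn : I → ℕ∞} {U : ℕ → Set (Subgroup Γ)} (h : IsTower π M g s inn U) {t : ℕ} {B : Subgroup Γ}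
    (hB : B ∈ U t) : ∃ i, inn i < t := by
  classical
  have hex : ∃ t, (U t).Nonempty := ⟨t, B, hB⟩
  have h1 := Nat.find_spec hex
  have h2 : Nat.find hex ≤ t := Nat.find_min' hex ⟨B, hB⟩
  have h3 : Nat.find hex ≠ 0 := by
    intro h0
    rw [h0, h.zero] at h1
    exact Set.not_nonempty_empty h1
  obtain ⟨j, hj⟩ := Nat.exists_eq_succ_of_ne_zero h3
  have h4 : ¬ (U j).Nonempty := Nat.find_min hex (by omega)
  rw [hj] at h1
  obtain ⟨V, hV⟩ := h1
  obtain ⟨Q, ⟨_, _, h5⟩, _⟩ := h.start j V hV (fun B' hB' => (h4 ⟨B', hB'⟩).elim)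
  rcases h5 with ⟨i, hi, _⟩ | ⟨B', hB', _⟩
  · refine ⟨i, lt_of_le_of_lt hi ?_⟩
    have : j < t := by omega
    exact_mod_cast this
  · exact (h4 ⟨B', hB'⟩).elim

theorem TSat.mono {M : Subgroup Γ} {s : I → Γ} {inn inn' : I → ℕ∞} {U : ℕ → Set (Subgroup Γ)}
    (h : ∀ i, inn i ≤ inn' i) {J : Set I} {j : Option I} (hs : TSat π M s inn U J j) :
    TSat π M s inn' U J j := by
  cases j with
  | some j =>
    rcases hs with h1 | ⟨t, ht, hB⟩
    · exact Or.inl h1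
    · exact Or.inr ⟨t, fun i hi => ht i (lt_of_le_of_lt (h i) hi), hB⟩
  | none =>
    obtain ⟨t, ht, hB⟩ := hs
    exact ⟨t, fun i hi => ht i (lt_of_le_of_lt (h i) hi), hB⟩

open Classical in
/-- F6.4 -/
theorem IsTower.reset (_hc : Ctx π) {M : Subgroup Γ} (_hM : Full π M) {g : G} {s : I → Γ}
    {inn : I → ℕ∞} {U : ℕ → Set (Subgroup Γ)} (h : IsTower π M g s inn U) :
    IsTower π M g s (fun i => if (∃ t, ∃ B ∈ U t, B ≠ M ⊓ π.ker ∧ MulAut.conj (s i) • B = B) ∨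
      (∀ v ∈ M ⊓ π.ker, s i * v = v * s i) then inn i else ⊤) U where
  sM := h.sM
  periph := h.periph
  zero := h.zero
  top := h.top
  mono := h.mono
  step := h.step
  start := by
    intro j V hV hn
    obtain ⟨Q, ⟨hQ1, hQ2, hQ3⟩, hcomm⟩ := h.start j V hV hn
    refine ⟨Q, ⟨hQ1, hQ2, ?_⟩, hcomm⟩
    rcases hQ3 with ⟨i, hi, v, hv, hvQ⟩ | hB
    · refine Or.inl ⟨i, ?_, v, hv, hvQ⟩
      have hC : (∃ t, ∃ B ∈ U t, B ≠ M ⊓ π.ker ∧ MulAut.conj (s i) • B = B) ∨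
          (∀ v ∈ M ⊓ π.ker, s i * v = v * s i) := by
        by_cases hVH : V = M ⊓ π.ker
        · right
          subst hVH
          have h1 : s i = Q := by
            have h2 := hcomm v hv
            have h3 : s i = v⁻¹ * Q * v := by rw [← hvQ]; group
            rw [h3, mul_assoc, h2]; group
          rw [h1]
          exact hcomm
        · left
          have hv' : v⁻¹ ∈ M ⊓ π.ker := inv_mem hv
          refine ⟨j + 1, MulAut.conj v⁻¹ • V, (h.periph _).inv _ (ker_le_mg_f6a hv') V hV, ?_, ?_⟩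
          · intro h0
            apply hVH
            have h1 : V = MulAut.conj v • (M ⊓ π.ker) := by
              rw [← h0, ← t8_conj_mul, mul_inv_cancel, t8_conj_one]
            rw [h1]
            ext w
            rw [t8_mem_conj]
            constructor
            · intro hw
              have h2 := mul_mem (mul_mem hv hw) hv'
              have h3 : v * (v⁻¹ * w * v) * v⁻¹ = w := by group
              rwa [h3] at h2
            · intro hw
              exact mul_mem (mul_mem hv' hw) hv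
          · have h1 : s i = v⁻¹ * Q * v⁻¹⁻¹ := by rw [← hvQ]; group
            rw [h1]
            exact conj_inv_f6a (conj_smul_eq_of_comm hcomm)
      simp only [if_pos hC]
      exact hi
    · exact Or.inr hB

end Pool.Agent.Lib.MP_6567fb_al
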