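import Pool.Agent.Lib.MP_6567fb_al.T6
import Pool.Agent.Lib.MP_6567fb_al.T2c

/-!
# MP_6567fb_al, module T9

core_inter_finite: core D and core E have finitely many D- resp. E-orbits of vertices (if D is elliptic: one vertex).  If the
intersection were infinite: infinitely many vertices (edges: the intersection is convex; it is infinite, so it has infinitely many
edges) e with e = d_e f_i = c_e f'_j, (d_e in D, c_e in E), i, j fixed, f_i = k f'_j for one k: for two such edges d_e⁻¹ ... we get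
d_e f_i = c_e k' f_i, with trivial edge stabilisers d_e = c_e k'; so d_e d_{e'}⁻¹ = c_e c_{e'}⁻¹ in D ⊓ E = 1: e = e'.
two_inv: Q preserves core D and core E (core_conj).  If the intersection is empty, Q fixes the bridge (uniqueness), so its end
points.  If not: the intersection is finite, convex, Q-invariant: Q has a power which fixes all its vertices, by Pure Q fixes them.
-/

set_option autoImplicit false

open scoped Pointwise

namespace Pool.Agent.Lib.MP_6567fb_al

open MTree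
open scoped Pointwise
variable {Γ G : Type} [Group Γ] [Group G] {π : Γ →* G}

theorem T9_core_ell {M : Subgroup Γ} {T : MTree M} {D : Subgroup Γ} (h : T.Ell (D : Set Γ)) :
    T.core D = {x | ∀ d ∈ D, T.act d x = x} := by
  unfold MTree.core
  exact if_pos h

theorem T9_ell_finite {M : Subgroup Γ} {T : MTree M} (hT : T.IsSplitting π.ker)
    {D : Subgroup Γ} (hD : D ≤ M ⊓ π.ker) (hDn : D ≠ ⊥) (h : T.Ell (D : Set Γ)) :
    (T.core D).Finite := by
  rw [T9_core_ell h]
  obtain ⟨⟨d, hd⟩, hd1⟩ := Subgroup.ne_bot_iff_exists_ne_one.1 hDn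
  refine Set.Subsingleton.finite ?_
  intro x hx y hy
  refine hT.fixed_unique (hD hd) ?_ (hx d hd) (hy d hd)
  intro h0
  exact hd1 (Subtype.ext h0)

theorem core_inter_finite (hc : Ctx π) {M : Subgroup Γ} {T : MTree M} (hT : T.IsSplitting π.ker)
    {D E : Subgroup Γ} (hD : D ≤ M ⊓ π.ker) (hE : E ≤ M ⊓ π.ker) (hDfg : D.FG) (hEfg : E.FG) (hDn : D ≠ ⊥)
    (hEn : E ≠ ⊥) (h : D ⊓ E = ⊥) : (T.core D ∩ T.core E).Finite := by
  classical
  by_cases hDe : T.Ell (D : Set Γ)
  · exact (T9_ell_finite hT hD hDn hDe).subset Set.inter_subset_left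
  by_cases hEe : T.Ell (E : Set Γ)
  · exact (T9_ell_finite hT hE hEn hEe).subset Set.inter_subset_right
  have hni := hT.noInv hc
  have hDM : D ≤ M := hD.trans inf_le_left
  have hEM : E ≤ M := hE.trans inf_le_left
  obtain ⟨SD, hSD⟩ := T.core_cofinite hni hDM hDfg hDe
  obtain ⟨SE, hSE⟩ := T.core_cofinite hni hEM hEfg hEe
  have hconv : T.Conv (T.core D ∩ T.core E) :=
    TG.conv_inter _ _ (T.core_conv hni hDM) (T.core_conv hni hEM)
  rcases Set.eq_empty_or_nonempty (T.core D ∩ T.core E) with h0 | ⟨x0, hx0⟩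
  · rw [h0]
    exact Set.finite_empty
  -- the next vertex towards `x0`
  have hnext : ∀ x, x ∈ T.core D ∩ T.core E → x ≠ x0 →
      ∃ y, y ∈ T.core D ∩ T.core E ∧ T.G.Adj x y := by
    intro x hx hne
    obtain ⟨y, ⟨hy1, hy2⟩, -⟩ := TG.exists_unique_next T.tree hne
    have hd : T.G.dist x y = 1 := SimpleGraph.dist_eq_one_iff_adj.2 hy1
    refine ⟨y, hconv x hx x0 hx0 y ?_, hy1⟩
    show T.G.dist x y + T.G.dist y x0 = T.G.dist x x0
    omega
  have hex : ∀ x, ∃ (y : T.X) (d e : Γ), x ∈ T.core D ∩ T.core E → x ≠ x0 →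
      T.G.Adj x y ∧ d ∈ D ∧ e ∈ E ∧ (T.act d x, T.act d y) ∈ SD ∧ (T.act e x, T.act e y) ∈ SE := by
    intro x
    by_cases hx : x ∈ T.core D ∩ T.core E ∧ x ≠ x0
    · obtain ⟨y, hy, hxy⟩ := hnext x hx.1 hx.2
      obtain ⟨d, hd, hd2⟩ := hSD x hx.1.1 y hy.1 hxy
      obtain ⟨e, he, he2⟩ := hSE x hx.1.2 y hy.2 hxy
      exact ⟨y, d, e, fun _ _ => ⟨hxy, hd, he, hd2, he2⟩⟩
    · exact ⟨x, 1, 1, fun h1 h2 => (hx ⟨h1, h2⟩).elim⟩
  choose y d e hyde using hex
  have hfin : ((T.core D ∩ T.core E) \ {x0}).Finite := by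
    refine Set.Finite.of_injOn (f := fun x => (((T.act (d x) x, T.act (d x) (y x)),
      (T.act (e x) x, T.act (e x) (y x))) : (T.X × T.X) × (T.X × T.X)))
      (t := ((SD ×ˢ SE : Finset _) : Set ((T.X × T.X) × (T.X × T.X)))) ?_ ?_ (Finset.finite_toSet _)
    · intro x hx
      obtain ⟨-, -, -, h4, h5⟩ := hyde x hx.1 hx.2
      simp only [Finset.coe_product, Set.mem_prod, Finset.mem_coe]
      exact ⟨h4, h5⟩
    · intro x hx x' hx' hxx
      obtain ⟨h1, h2, h3, -, -⟩ := hyde x hx.1 hx.2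
      obtain ⟨h1', h2', h3', -, -⟩ := hyde x' hx'.1 hx'.2
      simp only [Prod.mk.injEq] at hxx
      obtain ⟨⟨ha, hb⟩, hc', hd'⟩ := hxx
      have hdM := hDM h2
      have hdM' := hDM h2'
      have heM := hEM h3
      have heM' := hEM h3'
      -- `e x * (d x)⁻¹` and `e x' * (d x')⁻¹` agree on an edge
      have hadj : T.G.Adj (T.act (d x) x) (T.act (d x) (y x)) := T.act_adj _ hdM _ _ h1
      have hkey : e x * (d x)⁻¹ = e x' * (d x')⁻¹ := by
        refine hT.eq_of_agree (M.mul_mem heM (M.inv_mem hdM)) (M.mul_mem heM' (M.inv_mem hdM')) ?_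
          hadj ?_ ?_
        · have q1 : π (d x) = 1 := (hD h2).2
          have q2 : π (e x) = 1 := (hE h3).2
          have q3 : π (d x') = 1 := (hD h2').2
          have q4 : π (e x') = 1 := (hE h3').2
          rw [map_mul, map_mul, map_inv, map_inv, q1, q2, q3, q4]
        · rw [T.act_mul _ heM _ (M.inv_mem hdM), T.act_inv_act hdM, ha,
            T.act_mul _ heM' _ (M.inv_mem hdM'), T.act_inv_act hdM', hc']
        · rw [T.act_mul _ heM _ (M.inv_mem hdM), T.act_inv_act hdM, hb,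
            T.act_mul _ heM' _ (M.inv_mem hdM'), T.act_inv_act hdM', hd']
      have hkey2 : (e x')⁻¹ * e x = (d x')⁻¹ * d x := by
        have : (e x')⁻¹ * (e x * (d x)⁻¹) * d x = (e x')⁻¹ * (e x' * (d x')⁻¹) * d x := by rw [hkey]
        simpa [mul_assoc] using this
      have hmem : (d x')⁻¹ * d x ∈ D ⊓ E :=
        ⟨D.mul_mem (D.inv_mem h2') h2, hkey2 ▸ E.mul_mem (E.inv_mem h3') h3⟩
      rw [h, Subgroup.mem_bot] at hmem
      have hdd : d x = d x' := (inv_mul_eq_one.1 hmem).symm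
      rw [hdd] at ha
      exact T.act_inj hdM' ha
  have := hfin.union (Set.finite_singleton x0)
  refine this.subset ?_
  intro x hx
  by_cases hxx : x = x0
  · exact Or.inr hxx
  · exact Or.inl ⟨hx, hxx⟩

theorem T9_inv {M : Subgroup Γ} {T : MTree M} {D : Subgroup Γ} (hD : D ≤ M) {Q : Γ} (hQ : Q ∈ M)
    (h1 : MulAut.conj Q • D = D) {x : T.X} (hx : x ∈ T.core D) : T.act Q x ∈ T.core D := by
  have h2 := T.core_conj hD hQ
  rw [h1] at h2
  rw [h2]
  exact ⟨x, hx, rfl⟩

theorem two_inv (hc : Ctx π) {M : Subgroup Γ} {T : MTree M} (hT : T.IsSplitting π.ker)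
    {D E : Subgroup Γ} (hD : D ≤ M ⊓ π.ker) (hE : E ≤ M ⊓ π.ker) (hDfg : D.FG) (hEfg : E.FG) (hDn : D ≠ ⊥)
    (hEn : E ≠ ⊥) (h : D ⊓ E = ⊥) {Q : Γ} (hQ : Q ∈ M) (h1 : MulAut.conj Q • D = D)
    (h2 : MulAut.conj Q • E = E) :
    (T.core D ∩ T.Fix Q).Nonempty ∧ (T.core E ∩ T.Fix Q).Nonempty ∧ T.core D ∩ T.core E ⊆ T.Fix Q := by
  have hni := hT.noInv hc
  have hDM : D ≤ M := hD.trans inf_le_left
  have hEM : E ≤ M := hE.trans inf_le_left
  rcases Set.eq_empty_or_nonempty (T.core D ∩ T.core E) with h0 | hne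
  · obtain ⟨b, ⟨hb1, hb2, hb3⟩, huniq⟩ := TG.exists_unique_bridge T.tree (T.core_conv hni hDM)
      (T.core_conv hni hEM) (T.core_nonempty hni hDM hDfg) (T.core_nonempty hni hEM hEfg)
      (Set.disjoint_iff_inter_eq_empty.2 h0)
    have hinvD : ∀ s ∈ T.core D, ∃ s' ∈ T.core D, T.act Q s' = s := by
      intro s hs
      have h3 := T.core_conj hDM hQ
      rw [h1] at h3
      rw [h3] at hs
      obtain ⟨s', hs', hs2⟩ := hs
      exact ⟨s', hs', hs2⟩
    have hinvE : ∀ s ∈ T.core E, ∃ s' ∈ T.core E, T.act Q s' = s := by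
      intro s hs
      have h3 := T.core_conj hEM hQ
      rw [h2] at h3
      rw [h3] at hs
      obtain ⟨s', hs', hs2⟩ := hs
      exact ⟨s', hs', hs2⟩
    have hb' := huniq (T.act Q b.1, T.act Q b.2) ⟨T9_inv hDM hQ h1 hb1, T9_inv hEM hQ h2 hb2, by
      intro s hs s' hs'
      obtain ⟨t, ht, rfl⟩ := hinvD s hs
      obtain ⟨t', ht', rfl⟩ := hinvE s' hs'
      obtain ⟨q1, q2, q3, q4⟩ := hb3 t ht t' ht'
      exact ⟨(T.btw_act hQ _ _ _).2 q1, (T.btw_act hQ _ _ _).2 q2, (T.btw_act hQ _ _ _).2 q3,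
        (T.btw_act hQ _ _ _).2 q4⟩⟩
    refine ⟨⟨b.1, hb1, congrArg Prod.fst hb'⟩, ⟨b.2, hb2, congrArg Prod.snd hb'⟩, ?_⟩
    rw [h0]
    exact Set.empty_subset _
  · have hfin := core_inter_finite hc hT hD hE hDfg hEfg hDn hEn h
    have hsub : T.core D ∩ T.core E ⊆ T.Fix Q := by
      intro x hx
      have hpow : ∀ k : ℕ, T.act (Q ^ k) x ∈ T.core D ∩ T.core E := by
        intro k
        induction k with
        | zero => rw [pow_zero, T.act_one]; exact hx
        | succ k ih =>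
          rw [pow_succ', T.act_mul _ hQ _ (M.pow_mem hQ k)]
          exact ⟨T9_inv hDM hQ h1 ih.1, T9_inv hEM hQ h2 ih.2⟩
      obtain ⟨i, j, hij, hij2⟩ : ∃ i j : ℕ, i < j ∧ T.act (Q ^ i) x = T.act (Q ^ j) x := by
        have hni' : ¬ Function.Injective (fun k : ℕ => (⟨T.act (Q ^ k) x, hpow k⟩ :
            (T.core D ∩ T.core E : Set T.X))) := by
          intro hinj
          have := hfin.to_subtype
          exact not_injective_infinite_finite _ hinj
        rw [Function.not_injective_iff] at hni'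
        obtain ⟨a, b, hab, hne'⟩ := hni'
        have hab' := congrArg Subtype.val hab
        rcases lt_or_gt_of_ne hne' with hlt | hlt
        · exact ⟨a, b, hlt, hab'⟩
        · exact ⟨b, a, hlt, hab'.symm⟩
      refine hT.pure hc Q hQ (j - i) (by omega) x ?_
      have hj : Q ^ j = Q ^ i * Q ^ (j - i) := by
        rw [← pow_add]
        congr 1
        omega
      rw [hj, T.act_mul _ (M.pow_mem hQ i) _ (M.pow_mem hQ _)] at hij2
      exact (T.act_inj (M.pow_mem hQ i) hij2).symm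
    obtain ⟨x, hx⟩ := hne
    exact ⟨⟨x, hx.1, hsub hx⟩, ⟨x, hx.2, hsub hx⟩, hsub⟩

end Pool.Agent.Lib.MP_6567fb_al
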