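import Pool.Agent.Lib.MP_6567fb_al.F6a
import Pool.Agent.Lib.MP_6567fb_al.T9

/-!
# MP_6567fb_al, module F6c

Lemma S, induction on j.  Q avail at j by an input: z := v (x i).  Q preserves B ∈ U j (j > 0): core B ∩ Fix Q ≠ ∅ (fix_proj; core B for B ≤ H f.g., non-empty, convex; or B elliptic: Q fixes its vertex z, B ⊓ stab z = B).  If some z ∈ core B ∩ Fix Q has B ⊓ stab z ≠ ⊥: done.  Otherwise B is not
elliptic and Q fixes every edge of core B at its fixed vertices (the lift P_e of g fixing e preserves B (rlemma for Mg, B is an Mg-factor: periph_mfactor), P_e Q⁻¹ ∈ N_H(B) = B fixes z: = 1), so core B ⊆ Fix Q, Q commutes with B (lift of u e is u P_e u⁻¹).  If B contains B1 ∈ U (j-1): Q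
preserves it: induction.  Otherwise start: Q' available at j - 1 commuting with B.  Q' = Q: induction.  Otherwise z0 := Q' Q⁻¹ ∈ H commutes with B ≠ ⊥, z0 ∈ B (fac_centr), so B is abelian: B = <y>, Q' = z0 Q moves core B without fixed vertex... Q' is not elliptic on T: z0 ∈ B, z0 ≠ 1 acts as a hyperbolic element with
axis core B on which Q is trivial (so IsAxis Q' l L).  So Q' is not CJ to an input with in-time < ⊤ (those are elliptic, hx), so it preserves B1 ∈ U (j-1); B1 ⊓ B = ⊥ (otherwise B1 ≤ V ∈ U j meets B, V = B, B1 ≤ B); two_inv (T9): Q' elliptic: contradiction.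
-/

set_option autoImplicit false

open scoped Pointwise
open Filter

namespace Pool.Agent.Lib.MP_6567fb_al

open MTree
variable {Γ G : Type} [Group Γ] [Group G] {π : Γ →* G}

variable {I : Type}

/-- the analysis of one invariant member -/
theorem lemmaS_key (hc : Ctx π) {M : Subgroup Γ} (hM : Full π M) {T : MTree M}
    (hT : T.IsSplitting π.ker) {g : G} {s : I → Γ} {inn : I → ℕ∞} {U : ℕ → Set (Subgroup Γ)}
    (h : IsTower π M g s inn U) {x : I → T.X} (hx : ∀ i, inn i < ⊤ → T.act (s i) (x i) = x i)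
    {j : ℕ} {Q : Γ} (hQ : Q ∈ M) (hQg : π Q = g) (hfix : ∃ z, T.act Q z = z) {B : Subgroup Γ}
    (hB : B ∈ U (j + 1)) (hinv : MulAut.conj Q • B = B) :
    (∃ z, T.act Q z = z ∧ B ⊓ T.stab z ≠ ⊥) ∨ Avail π M g s inn U j Q := by
  classical
  by_cases hex : ∃ z, T.act Q z = z ∧ B ⊓ T.stab z ≠ ⊥
  · exact Or.inl hex
  right
  push Not at hex
  have hni : T.NoInv := hT.noInv hc
  have hlocg : Loc π (Mg π M g) := Loc.mg hM.toLoc g
  have hMgk : Mg π M g ⊓ π.ker = M ⊓ π.ker := mg_inf M g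
  have hBF : IsMFactor π.ker (Mg π M g) B := periph_mfactor hc hlocg (h.periph (j + 1)) hB
  have hBne : B ≠ ⊥ := hBF.ne
  have hBfac : IsFactor π.ker (M ⊓ π.ker) B := by rw [← hMgk]; exact hBF.fac
  have hBH : B ≤ M ⊓ π.ker := fac_le hBfac
  have hBM : B ≤ M := fun y hy => (hBH hy).1
  have hHk : M ⊓ π.ker ≤ π.ker := inf_le_right
  have hBfac' : IsFactor π.ker π.ker B := fac_trans hc le_rfl hM.fac hBfac
  have hBfg : B.FG := fac_fg hc hBfac'
  obtain ⟨u0, hu0, hu01⟩ := exists_ne_one_t14b hBne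
  -- the core
  have hcc : T.Conv (T.core B) := core_conv T hni hBM
  have hcne : (T.core B).Nonempty := core_nonempty T hni hBM hBfg
  obtain ⟨zf, hzf⟩ := hfix
  obtain ⟨z0, hz0, hz0f⟩ := fix_proj T hQ ⟨zf, hzf⟩ hcc hcne (fun y hy => T9_inv hBM hQ hinv hy)
  have hz0f' : T.act Q z0 = z0 := hz0f
  have hstab : ∀ z, T.act Q z = z → ∀ u ∈ B, T.act u z = z → u = 1 := by
    intro z hz u hu huz
    have h1 := hex z hz
    have h2 : u ∈ B ⊓ T.stab z := ⟨hu, hBM hu, huz⟩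
    rw [h1, Subgroup.mem_bot] at h2
    exact h2
  have hnell : ¬ T.Ell (B : Set Γ) := by
    intro he
    rw [mem_core_iff_ell T he] at hz0
    exact hu01 (hstab z0 hz0f' u0 hu0 (hz0 u0 hu0))
  -- edges at fixed vertices
  have hedge : ∀ z ∈ T.core B, T.act Q z = z → ∀ w ∈ T.core B, T.G.Adj z w → T.act Q w = w := by
    intro z hz hzQ w hw hzw
    obtain ⟨P, ⟨hPM, hPπ, hPf⟩, _⟩ := IsSplitting.lift hT hzw hQ
    have hPg : π P = g := hPπ.trans hQg
    have hPinv : MulAut.conj P • B = B :=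
      rlemma hc hlocg (IsSplitting.mg hT g) hBF hnell (x := z) (y := w) hz hw hzw
        (mem_mg hPM hPg) hPf
    have h1 : P * Q⁻¹ ∈ M ⊓ π.ker := by
      refine ⟨M.mul_mem hPM (M.inv_mem hQ), ?_⟩
      change π (P * Q⁻¹) = 1
      rw [map_mul, map_inv, hPπ, mul_inv_cancel]
    have h2 : MulAut.conj (P * Q⁻¹) • B = B := by
      rw [t8_conj_mul, t8_conj_inv hinv, hPinv]
    have h3 : P * Q⁻¹ ∈ B := by
      apply fac_malnormal hc hHk hBfac h1
      rw [h2, inf_idem]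
      exact hBne
    have h4 : T.act Q⁻¹ z = z := by
      have h5 := act_inv_act T hQ z
      rwa [hzQ] at h5
    have h5 : T.act (P * Q⁻¹) z = z := by
      rw [T.act_mul _ hPM _ (M.inv_mem hQ), h4, hPf.1]
    have h6 := hstab z hzQ _ h3 h5
    have h7 : P = Q := by rwa [mul_inv_eq_one] at h6
    rw [← h7]
    exact hPf.2
  have hcore : ∀ w ∈ T.core B, T.act Q w = w := by
    have h1 : ∀ (n : ℕ) (w : T.X), w ∈ T.core B → ∀ z ∈ T.core B, T.act Q z = z →
        T.G.dist z w = n → T.act Q w = w := by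
      intro n w hw
      induction n with
      | zero =>
        intro z hz hzQ hd
        rw [← TG.dist_zero T.tree hd]
        exact hzQ
      | succ n ih =>
        intro z hz hzQ hd
        have hne : z ≠ w := by
          rintro rfl
          rw [SimpleGraph.dist_self] at hd
          omega
        obtain ⟨z', hadj, hz'⟩ := TG.exists_next T.tree hne
        have hz'c : z' ∈ T.core B := hcc z hz w hw z' (TG.btw_next hadj hz')
        exact ih z' hz'c (hedge z hz hzQ z' hz'c hadj) (by omega)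
    intro w hw
    exact h1 _ w hw z0 hz0 hz0f' rfl
  have hcoreinv : ∀ u ∈ B, ∀ y ∈ T.core B, T.act u y ∈ T.core B := by
    intro u hu y hy
    exact T9_inv hBM (hBM hu) (t8_norm.1 (Subgroup.le_normalizer hu)) hy
  -- an edge of the core
  obtain ⟨w0, hadj0, hw0⟩ : ∃ w, T.G.Adj z0 w ∧ w ∈ T.core B := by
    have hne : z0 ≠ T.act u0 z0 := by
      intro h1
      exact hu01 (hstab z0 hz0f' u0 hu0 h1.symm)
    obtain ⟨w, hadj, hw⟩ := TG.exists_next T.tree hne
    exact ⟨w, hadj, hcc z0 hz0 _ (hcoreinv u0 hu0 z0 hz0) w (TG.btw_next hadj hw)⟩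
  have hcomm : ∀ u ∈ B, Q * u = u * Q := by
    intro u hu
    have huM := hBM hu
    have huk : π u = 1 := (hBH hu).2
    have h1 : u * Q * u⁻¹ ∈ M := M.mul_mem (M.mul_mem huM hQ) (M.inv_mem huM)
    have h2 : ∀ y, T.act Q y = y → T.act (u * Q * u⁻¹) (T.act u y) = T.act u y := by
      intro y hy
      rw [T.act_mul _ (M.mul_mem huM hQ) _ (M.inv_mem huM), act_inv_act T huM, T.act_mul _ huM _ hQ, hy]
    have h3 : u * Q * u⁻¹ = Q := by
      refine IsSplitting.eq_of_agree hT h1 hQ ?_ (T.act_adj _ huM _ _ hadj0) ?_ ?_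
      · rw [map_mul, map_mul, map_inv, huk]
        simp
      · rw [h2 _ hz0f', hcore _ (hcoreinv u hu z0 hz0)]
      · rw [h2 _ (hcore _ hw0), hcore _ (hcoreinv u hu w0 hw0)]
    have h4 : Q * u = (u * Q * u⁻¹) * u := by rw [h3]
    rw [h4, inv_mul_cancel_right]
  -- the lower members
  by_cases hlow : ∃ B1 ∈ U j, B1 ≤ B
  · obtain ⟨B1, hB1, hle⟩ := hlow
    exact ⟨hQ, hQg, Or.inr ⟨B1, hB1, conj_smul_eq_of_comm fun v hv => hcomm v (hle hv)⟩⟩
  push Not at hlow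
  obtain ⟨Q', hQ', hQ'c⟩ := h.start j B hB hlow
  by_cases hQQ : Q' = Q
  · rw [← hQQ]
    exact hQ'
  exfalso
  obtain ⟨hQ'M, hQ'g, hQ'a⟩ := hQ'
  obtain ⟨zz, hzz⟩ : ∃ zz, zz = Q' * Q⁻¹ := ⟨_, rfl⟩
  have hzH : zz ∈ M ⊓ π.ker := by
    rw [hzz]
    refine ⟨M.mul_mem hQ'M (M.inv_mem hQ), ?_⟩
    change π (Q' * Q⁻¹) = 1
    rw [map_mul, map_inv, hQ'g, hQg, mul_inv_cancel]
  have hz1 : zz ≠ 1 := by
    rw [hzz]
    intro h1
    exact hQQ (by rwa [mul_inv_eq_one] at h1)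
  have hzc : ∀ u ∈ B, zz * u = u * zz := by
    intro u hu
    have h1 : Q⁻¹ * u = u * Q⁻¹ := by
      have h2 := hcomm u hu
      have h3 : Q⁻¹ * u = Q⁻¹ * (u * Q) * Q⁻¹ := by group
      rw [h3, ← h2]
      group
    rw [hzz, mul_assoc, h1, ← mul_assoc, hQ'c u hu, mul_assoc]
  have hzB : zz ∈ B := fac_centr hc hHk hBfac hzH hu0 hu01 (hzc u0 hu0)
  have hzhyp : ∀ v, T.act zz v ≠ v := by
    intro v hv
    apply hnell
    refine ⟨v, fun u hu => ?_⟩
    have huM := hBM hu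
    have h1 : T.act zz (T.act u v) = T.act u v := by
      rw [← T.act_mul _ hzH.1 _ huM, hzc u hu, T.act_mul _ huM _ hzH.1, hv]
    exact IsSplitting.fixed_unique hT hzH hz1 h1 hv
  obtain ⟨l, L, hL⟩ := axis_of_hyp T hni hzH.1 (fun v => hzhyp v)
  have hLc : ∀ i, L i ∈ T.core B := by
    intro i
    rw [mem_core_iff T hnell]
    refine ⟨zz, hzB, fun v => hzhyp v, ?_⟩
    rw [(axis_eq T hzH.1 hL).1]
    exact ⟨i, rfl⟩
  have hQ'ax : T.IsAxis Q' l L := by
    refine ⟨hL.1, hL.2.1, fun i => ?_⟩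
    have h1 : Q' = zz * Q := by rw [hzz, inv_mul_cancel_right]
    rw [h1, T.act_mul _ hzH.1 _ hQ, hcore _ (hLc i), hL.2.2]
  have hQ'hyp : T.Hyp Q' := hyp_of_axis T hQ'M hQ'ax
  rcases hQ'a with ⟨i, hi, v, hv, hvQ⟩ | ⟨B1, hB1, hB1inv⟩
  · have hfx := hx i (lt_of_le_of_lt hi (ENat.natCast_lt_top j))
    have hsM := (h.sM i).1
    apply hQ'hyp (T.act v (x i))
    rw [← hvQ, T.act_mul _ (M.mul_mem hv.1 hsM) _ (M.inv_mem hv.1), act_inv_act T hv.1,
      T.act_mul _ hv.1 _ hsM, hfx]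
  · have hB1F : IsMFactor π.ker (Mg π M g) B1 := periph_mfactor hc hlocg (h.periph j) hB1
    have hB1fac : IsFactor π.ker (M ⊓ π.ker) B1 := by rw [← hMgk]; exact hB1F.fac
    have hint : B ⊓ B1 = ⊥ := by
      by_contra hne
      obtain ⟨V, hV, hle⟩ := h.mono j B1 hB1
      have h1 : V = B := by
        refine IsTower.disj hc hM h hV hB ?_
        intro h2
        apply hne
        rw [eq_bot_iff, ← h2]
        exact le_inf (inf_le_right.trans hle) inf_le_left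
      rw [h1] at hle
      exact hlow B1 hB1 hle
    have h2 := two_inv hc hT hBH (fac_le hB1fac) hBfg (fac_fg hc (fac_trans hc le_rfl hM.fac hB1fac))
      hBne hB1F.ne hint hQ'M (conj_smul_eq_of_comm hQ'c) hB1inv
    obtain ⟨v, _, hv⟩ := h2.1
    exact hQ'hyp v hv

theorem lemmaS (hc : Ctx π) {M : Subgroup Γ} (hM : Full π M) {T : MTree M}
    (hT : T.IsSplitting π.ker) {g : G} {s : I → Γ} {inn : I → ℕ∞} {U : ℕ → Set (Subgroup Γ)}
    (h : IsTower π M g s inn U) {x : I → T.X} (hx : ∀ i, inn i < ⊤ → T.act (s i) (x i) = x i)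
    {j : ℕ} {Q : Γ} (hQ : Avail π M g s inn U j Q) (hfix : ∃ z, T.act Q z = z) :
    (Src π T s inn U x j Q).Nonempty := by
  have hinput : ∀ j : ℕ, (∃ i, inn i ≤ j ∧ CJ (M ⊓ π.ker) (s i) Q) → (Src π T s inn U x j Q).Nonempty := by
    rintro j ⟨i, hi, v, hv, hvQ⟩
    have hfx := hx i (lt_of_le_of_lt hi (ENat.natCast_lt_top j))
    have hsM := (h.sM i).1
    refine ⟨T.act v (x i), ?_, Or.inr ⟨i, hi, v, hv, hvQ, rfl⟩⟩
    rw [← hvQ, T.act_mul _ (M.mul_mem hv.1 hsM) _ (M.inv_mem hv.1), act_inv_act T hv.1,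
      T.act_mul _ hv.1 _ hsM, hfx]
  induction j with
  | zero =>
    obtain ⟨_, _, h1 | ⟨B, hB, _⟩⟩ := hQ
    · exact hinput 0 h1
    · rw [h.zero] at hB
      exact absurd hB (Set.notMem_empty B)
  | succ j ih =>
    obtain ⟨hQM, hQg, h1 | ⟨B, hB, hinv⟩⟩ := hQ
    · exact hinput (j + 1) h1
    · rcases lemmaS_key hc hM hT h hx hQM hQg hfix hB hinv with ⟨z, hz, hne⟩ | h2
      · exact ⟨z, hz, Or.inl ⟨B, hB, hinv, hne⟩⟩
      · exact (ih h2).mono (Src_mono hc hM h x (Nat.le_succ j) hQM hQg)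

theorem lemmaS' (hc : Ctx π) {M : Subgroup Γ} (hM : Full π M) {T : MTree M}
    (hT : T.IsSplitting π.ker) {g : G} {s : I → Γ} {inn : I → ℕ∞} {U : ℕ → Set (Subgroup Γ)}
    (h : IsTower π M g s inn U) {x : I → T.X} (hx : ∀ i, inn i < ⊤ → T.act (s i) (x i) = x i)
    {j : ℕ} {Q : Γ} (hQ : Q ∈ M) (hQg : π Q = g) (hfix : ∃ z, T.act Q z = z) {B : Subgroup Γ}
    (hB : B ∈ U (j + 1)) (hinv : MulAut.conj Q • B = B) :
    (Src π T s inn U x j Q).Nonempty ∨
      ∃ z, T.act Q z = z ∧ ∃ B' ∈ U (j + 1), MulAut.conj Q • B' = B' ∧ B' ⊓ T.stab z ≠ ⊥ := by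
  rcases lemmaS_key hc hM hT h hx hQ hQg hfix hB hinv with ⟨z, hz, hne⟩ | h2
  · exact Or.inr ⟨z, hz, B, hB, hinv, hne⟩
  · exact Or.inl (lemmaS hc hM hT h hx h2 hfix)

end Pool.Agent.Lib.MP_6567fb_al
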