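import Pool.Agent.Lib.MP_6567fb_al.F6c

/-!
# MP_6567fb_al, module F6d

F6.3, availability.  Q available for M at time j, fixes x: lemmaS: z ∈ Src j Q.  z = x: Q preserves B ∈ U j with B ⊓ stab x ≠ ⊥: C := B ⊓ stab x (Q fixes x); or Q = v s_i v⁻¹, x = v (xi i): ell i (inn i < ⊤), xi i = x by R_inj, v ∈ H_x, τ = inr i.  z ≠ x: first edge (x,y) of [x,z] is fixed by Q; y = h y',
y' ∈ E x, h ∈ H_x; eSec x y g = Q (eSec_unique), eSec x y' = h⁻¹ eSec x y h (eSec_act), τ = inl y'; h⁻¹ z ∈ Src j (eSec x y' g) (Src_act), beyond (x,y'): linn ≤ j.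
-/

set_option autoImplicit false

open scoped Pointwise
open Filter

namespace Pool.Agent.Lib.MP_6567fb_al

open MTree
variable {Γ G : Type} [Group Γ] [Group G] {π : Γ →* G}

variable {I : Type}

theorem loc_avail (hc : Ctx π) {M : Subgroup Γ} {T : MTree M} {s : I → (G →* Γ)}
    {ell : I → Prop} {xi : I → T.X} {R : Set T.X} {E : T.X → Finset T.X}
    (St : Step π T s ell xi R E) {g : G} {inn : I → ℕ∞} {U : ℕ → Set (Subgroup Γ)}
    (h : IsTower π M g (fun i => s i g) inn U) (hin : ∀ i, inn i < ⊤ → ell i) {x : T.X}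
    (hxR : x ∈ R) {j : ℕ} {Q : Γ}
    (hQ : Avail π M g (fun i => s i g) inn U j Q) (hQx : T.act Q x = x) :
    (∃ C ∈ lfam T U x j, MulAut.conj Q • C = C) ∨ ∃ τ : LI ell xi x (E x),
      linn π T g s inn U ell xi x (E x) τ ≤ j ∧
        CJ (T.stab x ⊓ π.ker) (lsec π T s ell xi x (E x) τ g) Q := by
  have hG := T.tree
  have hQM : Q ∈ M := hQ.1
  have hQg : π Q = g := hQ.2.1
  have hx : ∀ i, inn i < ⊤ → T.act (s i g) (xi i) = xi i := fun i hi => St.ell_fix i (hin i hi) g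
  obtain ⟨z, hz⟩ := lemmaS hc St.full St.split h hx hQ ⟨x, hQx⟩
  by_cases hzx : z = x
  · subst hzx
    rcases hz.2 with ⟨B, hB, hQB, hne⟩ | ⟨i, hi, v, hv, hvQ, hvx⟩
    · left
      refine ⟨B ⊓ T.stab z, ⟨hne, B, hB, rfl⟩, ?_⟩
      rw [Subgroup.smul_inf, hQB, ← T.stab_act hQM z, hQx]
    · right
      have hlt : inn i < ⊤ := lt_of_le_of_lt hi (WithTop.coe_lt_top j)
      have hell := hin i hlt
      have hxi : xi i = z := St.R_inj _ (St.xi_mem i hell) _ hxR v hv hvx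
      have hvz : T.act v z = z := by
        conv_lhs => rw [← hxi]
        exact hvx
      refine ⟨Sum.inr ⟨i, hell, hxi⟩, hi, v, ⟨⟨hv.1, hvz⟩, hv.2⟩, hvQ⟩
  · right
    obtain ⟨y, hxy, hyd⟩ := TG.exists_next hG (Ne.symm hzx)
    have hbtw : T.Btw x y z := TG.btw_next hxy hyd
    have hQy : T.act Q y = y := T.fix_conv hQM x hQx z hz.1 y hbtw
    obtain ⟨y', hy', k, hk, hky⟩ := (St.reps x hxR).rep y hxy
    have hkM : k ∈ M := hk.1.1
    have hkH : k ∈ M ⊓ π.ker := ⟨hkM, hk.2⟩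
    have hkx : T.act k x = x := hk.1.2
    have hxy' : T.G.Adj x y' := (St.reps x hxR).adj y' hy'
    have e1 : eSec π T x y g = Q := by
      rw [← hQg]
      exact eSec_unique hc St.full.surj St.split hxy hQM ⟨hQx, hQy⟩
    have e2 : k * eSec π T x y' g * k⁻¹ = Q := by
      rw [← eSec_act hc St.full.surj St.split hxy' hkH g, hkx, hky, e1]
    refine ⟨Sum.inl ⟨y', hy'⟩, ?_, k, hk, e2⟩
    have hmem : j ∈ {j : ℕ | ∃ z ∈ Src π T (fun i => s i g) inn U xi j (eSec π T x y' g),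
        T.Beyond x y' z} := by
      refine ⟨T.act k⁻¹ z, ?_, ?_⟩
      · have e3 := Src_act (π := π) St.full h xi (j := j) hQM ((M ⊓ π.ker).inv_mem hkH) hz
        have e4 : k⁻¹ * Q * k⁻¹⁻¹ = eSec π T x y' g := by
          rw [← e2]; group
        rw [e4] at e3
        exact e3
      · have e5 : T.Beyond x y z := (TG.beyond_iff_btw hG hxy z).2 hbtw
        have e6 := (T.beyond_act (M.inv_mem hkM) x y z).2 e5
        have e7 : T.act k⁻¹ x = x := by
          conv_lhs => rw [← hkx]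
          exact T.act_inv_act hkM x
        have e8 : T.act k⁻¹ y = y' := by
          rw [← hky]
          exact T.act_inv_act hkM y'
        rw [e7, e8] at e6
        exact e6
    exact iInf₂_le (f := fun (j : ℕ) (_ : j ∈ {j : ℕ | ∃ z ∈ Src π T (fun i => s i g) inn U xi j
      (eSec π T x y' g), T.Beyond x y' z}) => (j : ℕ∞)) j hmem

/-- in-times attained -/
theorem linn_le_iff {M : Subgroup Γ} {T : MTree M} {s : I → (G →* Γ)}
    {ell : I → Prop} {xi : I → T.X} {E : T.X → Finset T.X} {g : G} {inn : I → ℕ∞}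
    {U : ℕ → Set (Subgroup Γ)} (hc : Ctx π) (hM : Full π M) (hT : T.IsSplitting π.ker)
    (h : IsTower π M g (fun i => s i g) inn U) {x : T.X} (y : {y // y ∈ E x})
    (hxy : T.G.Adj x y) (j : ℕ) :
    linn π T g s inn U ell xi x (E x) (Sum.inl y) ≤ j ↔
      ∃ z ∈ Src π T (fun i => s i g) inn U xi j (eSec π T x y g), T.Beyond x y z := by
  constructor
  · intro hle
    by_contra hcon
    have hlt : ∀ t : ℕ, t ∈ {j : ℕ | ∃ z ∈ Src π T (fun i => s i g) inn U xi j (eSec π T x y g),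
        T.Beyond x y z} → ((j + 1 : ℕ) : ℕ∞) ≤ (t : ℕ∞) := by
      rintro t ⟨z, hz, hb⟩
      rw [Nat.cast_le]
      by_contra ht
      push Not at ht
      have hspec := eSec_spec hc hM.surj hT hxy
      exact hcon ⟨z, Src_mono hc hM h xi (show t ≤ j by omega) (hspec.1.mem g) (hspec.1.sec g) hz,
        hb⟩
    have h1 : ((j + 1 : ℕ) : ℕ∞) ≤ linn π T g s inn U ell xi x (E x) (Sum.inl y) :=
      le_iInf₂ hlt
    have h2 := h1.trans hle
    rw [Nat.cast_le] at h2
    omega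
  · intro hex
    exact iInf₂_le (f := fun (j : ℕ) (_ : j ∈ {j : ℕ | ∃ z ∈ Src π T (fun i => s i g) inn U xi j
      (eSec π T x y g), T.Beyond x y z}) => (j : ℕ∞)) j hex

end Pool.Agent.Lib.MP_6567fb_al
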