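import Pool.Agent.Lib.MP_6567fb_al.F6d
import Pool.Agent.Lib.MP_6567fb_al.T8
import Pool.Agent.Lib.MP_6567fb_al.T8b
import Pool.Agent.Lib.MP_6567fb_al.T10b
import Pool.Agent.Lib.MP_6567fb_al.T14b

/-!
# MP_6567fb_al, module F6e

F6.3: the restricted data are a tower for stab x (H_x ≠ ⊥).  periph: resFam of U j for the Mg-factor H_x (vertex_mfactor, periph_res; Mg ⊓ N(H_x) = Mg π (stab x) g); lfam = resFam.  zero, top, mono: easy (V ⊓ stab x).  step: V'' = V ⊓ stab x ≠ ⊥, V ∈ U (j+1), TT the tree of V (a splitting of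
Mg ⊓ N(V)).  V'' is an (Mg ⊓ N(V))-factor: a factor of V (fac_inter); class: V elliptic on T: V = V''; otherwise x ∈ core V (V'' fixes only x; fix_proj), core_splitting: m x = v x for m ∈ Mg ⊓ N(V) (orb at an edge of core V at x).  N(V) ⊓ N(V'') ⊓ Mg = Mg π (stab x) g ⊓ N(V''): malnormality / fix_of_norm.
If V'' is elliptic on TT: it is inside B ∈ U j, B ≤ V, B ⊓ stab x = V'': point tree (T10b point).  Otherwise core_splitting of TT for V''.  Its non-trivial vertex groups are the B ⊓ stab x ≠ ⊥, B ∈ U j, B ≤ V, and these are the C ∈ lfam j with C ≤ V''.  start: no C below V'': then V'' acts freely on core V''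
(in TT), all lifts of g at its edges are one Q, which commutes with V'' so fixes x (fix_of_norm).  If TT has a non-trivial vertex group: the path from core V'' to this vertex: the first vertex with non-trivial group is fixed by Q, so Q preserves its group B ∈ U j: available for M, then loc_avail (Avail for
stab x).  If not, start of V gives an available Q' commuting with V, so with V'': fixes x, loc_avail.
-/

set_option autoImplicit false

open scoped Pointwise
open Filter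

namespace Pool.Agent.Lib.MP_6567fb_al

open MTree
variable {Γ G : Type} [Group Γ] [Group G] {π : Γ →* G}

variable {I : Type}

/-- the core of an `M`-factor (or one point) : a splitting of `M ⊓ N(D)` with the restricted vertex groups -/
theorem f6e_core_tree (hc : Ctx π) {M : Subgroup Γ} (hM : Loc π M) {D : Subgroup Γ}
    (hD : IsMFactor π.ker M D) (T : MTree M) (hT : T.IsSplitting π.ker) :
    ∃ T' : MTree (M ⊓ Subgroup.normalizer (D : Set Γ)), T'.IsSplitting π.ker ∧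
      T'.vgs π.ker = resFam (T.vgs π.ker) D := by
  have hDM : D ≤ M ⊓ π.ker := t8_le hD
  have hnorm := norm_inf hc hM hD
  by_cases hell : T.Ell (D : Set Γ)
  · obtain ⟨v, hv⟩ := hell
    refine ⟨point _, point_isSplitting _ _, ?_⟩
    have hDv : D ≤ T.stab v ⊓ π.ker := fun d hd => ⟨⟨(hDM hd).1, hv d hd⟩, (hDM hd).2⟩
    have hpt : ∀ x : (point (M ⊓ Subgroup.normalizer (D : Set Γ))).X,
        (point (M ⊓ Subgroup.normalizer (D : Set Γ))).stab x ⊓ π.ker = D := by
      intro x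
      have h1 : (point (M ⊓ Subgroup.normalizer (D : Set Γ))).stab x =
          M ⊓ Subgroup.normalizer (D : Set Γ) := by
        ext m
        exact ⟨fun h => h.1, fun h => ⟨h, rfl⟩⟩
      rw [h1, hnorm]
    ext E
    constructor
    · rintro ⟨hE, x, hx⟩
      rw [hpt] at hx
      subst hx
      refine ⟨hE, T.stab v ⊓ π.ker, ⟨?_, v, rfl⟩, ?_⟩
      · intro hbot
        rw [hbot] at hDv
        exact hE (le_bot_iff.1 hDv)
      · exact (inf_eq_right.2 hDv).symm
    · rintro ⟨hE, B, ⟨hB, y, rfl⟩, rfl⟩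
      refine ⟨hE, Unit.unit, ?_⟩
      obtain ⟨b, ⟨hb1, hb2⟩, hb⟩ := exists_ne_one_t14b hE
      have hyv : y = v := hT.fixed_unique (h := b) ⟨hb1.1.1, hb1.2⟩ hb hb1.1.2 (hv b hb2)
      rw [hpt, hyv, inf_eq_right.2 hDv]
  · obtain ⟨T', ι, hι, hran, hT', -⟩ := core_splitting hc hM hT hD hell
    refine ⟨T', hT', ?_⟩
    have hstab : ∀ x : T'.X, T'.stab x ⊓ π.ker = (T.stab (ι x) ⊓ π.ker) ⊓ D := by
      intro x
      ext m
      constructor
      · rintro ⟨⟨h1, h2⟩, h3⟩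
        have hmD : m ∈ D := by
          rw [← hnorm]
          exact ⟨h1, h3⟩
        refine ⟨⟨⟨h1.1, ?_⟩, h3⟩, hmD⟩
        rw [← hι.equi m h1, h2]
      · rintro ⟨⟨⟨h1, h2⟩, h3⟩, h4⟩
        have h5 : m ∈ M ⊓ Subgroup.normalizer (D : Set Γ) := by
          rw [← hnorm] at h4
          exact h4.1
        refine ⟨⟨h5, hι.inj ?_⟩, h3⟩
        rw [hι.equi m h5]
        exact h2
    ext E
    constructor
    · rintro ⟨hE, x, rfl⟩
      rw [hstab] at hE ⊢
      refine ⟨hE, T.stab (ι x) ⊓ π.ker, ⟨?_, ι x, rfl⟩, rfl⟩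
      intro hbot
      rw [hbot, bot_inf_eq] at hE
      exact hE rfl
    · rintro ⟨hE, B, ⟨hB, y, rfl⟩, rfl⟩
      obtain ⟨b, ⟨hb1, hb2⟩, hb⟩ := exists_ne_one_t14b hE
      have hni := hT.noInv hc
      have hDM' : D ≤ M := hDM.trans inf_le_left
      have hDfg : D.FG := fac_fg hc (t8_fac hc hM hD)
      have hne := T.core_nonempty hni hDM' hDfg
      have hfix := T.fix_proj (hDM' hb2) (S := T.core D) ⟨y, hb1.1.2⟩ (T.core_conv hni hDM') hne (by
        intro x hx
        have h1 := T.core_conj hDM' (hDM' hb2)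
        rw [Subgroup.conj_smul_eq_self_of_mem hb2] at h1
        rw [h1]
        exact ⟨x, hx, rfl⟩)
      obtain ⟨w, hw, hbw⟩ := hfix
      have hyw : y = w := hT.fixed_unique (h := b) ⟨hb1.1.1, hb1.2⟩ hb hb1.1.2 hbw
      rw [← hran] at hw
      obtain ⟨x, hx⟩ := hw
      refine ⟨hE, x, ?_⟩
      rw [hstab, hx, hyw]

/-- in a non-trivial splitting with trivial vertex groups all lifts are one element, which is central over
`N ⊓ F` -/
theorem f6e_central {N : Subgroup Γ} {T : MTree N} (hT : T.IsSplitting π.ker)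
    (hn : T.Nontriv π.ker) (hfree : ∀ x, T.stab x ⊓ π.ker = ⊥) {m : Γ} (hm : m ∈ N) :
    ∃ Q ∈ N, π Q = π m ∧ (∀ x, T.act Q x = x) ∧ ∀ v ∈ N ⊓ π.ker, Q * v = v * Q := by
  have hG := T.tree
  obtain ⟨x0⟩ : Nonempty T.X := hG.connected.nonempty
  obtain ⟨h, hh, hne⟩ := hn x0
  obtain ⟨y, hy, _⟩ := TG.exists_next hG (Ne.symm hne)
  obtain ⟨Q, ⟨hQ, hQm, hQf⟩, _⟩ := IsSplitting.lift hT hy hm
  have hstep : ∀ x x', T.G.Adj x x' → T.act Q x = x → T.act Q x' = x' := by
    intro x x' hxx' hx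
    obtain ⟨P, ⟨hP, hPm, hPf⟩, _⟩ := IsSplitting.lift hT hxx' hm
    have h1 : P⁻¹ * Q ∈ T.stab x ⊓ π.ker := by
      refine ⟨⟨N.mul_mem (N.inv_mem hP) hQ, ?_⟩, ?_⟩
      · rw [T.act_mul _ (N.inv_mem hP) _ hQ, hx]
        have h3 := T.act_inv_act hP x
        rwa [hPf.1] at h3
      · change π (P⁻¹ * Q) = 1
        rw [map_mul, map_inv, hPm, hQm, inv_mul_cancel]
    rw [hfree x, Subgroup.mem_bot] at h1
    have h2 : P = Q := inv_mul_eq_one.1 h1
    rw [← h2]
    exact hPf.2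
  have hwalk : ∀ a b, T.G.Walk a b → T.act Q a = a → T.act Q b = b := by
    intro a b w
    induction w with
    | nil => exact id
    | cons h _ ih => exact fun ha => ih (hstep _ _ h ha)
  have hall : ∀ x, T.act Q x = x := by
    intro x
    obtain ⟨w⟩ := hG.connected.preconnected x0 x
    exact hwalk x0 x w hQf.1
  refine ⟨Q, hQ, hQm, hall, ?_⟩
  intro v hv
  have hvN : v ∈ N := hv.1
  have hvk : π v = 1 := hv.2
  have h1 : Q * v * Q⁻¹ * v⁻¹ ∈ T.stab x0 ⊓ π.ker := by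
    refine ⟨⟨N.mul_mem (N.mul_mem (N.mul_mem hQ hvN) (N.inv_mem hQ)) (N.inv_mem hvN), ?_⟩, ?_⟩
    · rw [T.act_mul _ (N.mul_mem (N.mul_mem hQ hvN) (N.inv_mem hQ)) _ (N.inv_mem hvN),
        T.act_mul _ (N.mul_mem hQ hvN) _ (N.inv_mem hQ), T.act_mul _ hQ _ hvN, hall]
      have h3 := T.act_inv_act hQ (T.act v⁻¹ x0)
      rw [hall] at h3
      rw [h3, T.act_act_inv hvN]
    · change π (Q * v * Q⁻¹ * v⁻¹) = 1
      simp [map_mul, map_inv, hvk]
  rw [hfree x0, Subgroup.mem_bot] at h1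
  have h2 : Q * v * Q⁻¹ = v := mul_inv_eq_one.1 h1
  exact mul_inv_eq_iff_eq_mul.1 h2

/-- lifts in the normaliser of an `M`-factor -/
theorem f6e_lift {M D : Subgroup Γ} (hD : IsMFactor π.ker M D) {m : Γ} (hm : m ∈ M) :
    ∃ m' ∈ M ⊓ Subgroup.normalizer (D : Set Γ), π m' = π m := by
  obtain ⟨h, hh, e⟩ := hD.inv m hm
  have hhM : h ∈ M := hh.1
  have hhk : π h = 1 := hh.2
  refine ⟨h⁻¹ * m, ⟨M.mul_mem (M.inv_mem hhM) hm, ?_⟩, ?_⟩
  · refine t8_norm.2 ?_
    rw [t8_conj_mul, e, ← t8_conj_mul, inv_mul_cancel, t8_conj_one]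
  · rw [map_mul, map_inv, hhk, inv_one, one_mul]

theorem loc_tower (hc : Ctx π) {M : Subgroup Γ} {T : MTree M} {s : I → (G →* Γ)}
    {ell : I → Prop} {xi : I → T.X} {R : Set T.X} {E : T.X → Finset T.X}
    (St : Step π T s ell xi R E) {g : G} {inn : I → ℕ∞} {U : ℕ → Set (Subgroup Γ)}
    (h : IsTower π M g (fun i => s i g) inn U) (hin : ∀ i, inn i < ⊤ → ell i) {x : T.X}
    (hxR : x ∈ R) (hx : T.stab x ⊓ π.ker ≠ ⊥) :
    IsTower π (T.stab x) g (fun τ => lsec π T s ell xi x (E x) τ g)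
      (linn π T g s inn U ell xi x (E x)) (lfam T U x) := by
  have hM := St.full
  have hT := St.split
  have hG := T.tree
  have hSM : T.stab x ≤ M := stab_le_t14b T x
  obtain ⟨hxf, hxn⟩ := vertex_mfactor hc hM.toLoc hT x hx
  have hMg : Loc π (Mg π M g) := hM.toLoc.mg g
  have hxg : IsMFactor π.ker (Mg π M g) (T.stab x ⊓ π.ker) := by
    refine ⟨hx, ?_, ?_⟩
    · rw [mg_inf]
      exact hxf.fac
    · intro m hm
      obtain ⟨k, hk, e⟩ := hxf.inv m hm.1
      exact ⟨k, by rw [mg_inf]; exact hk, e⟩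
  have hSg : Mg π M g ⊓ Subgroup.normalizer ((T.stab x ⊓ π.ker : Subgroup Γ) : Set Γ) =
      Mg π (T.stab x) g := by
    unfold Mg
    rw [inf_right_comm, hxn]
  have hBk : ∀ j, ∀ B ∈ U j, B ≤ M ⊓ π.ker := by
    intro j B hB b hb
    have h1 := periph_le (h.periph j) hB hb
    rwa [mg_inf] at h1
  have hres : ∀ j, lfam T U x j = resFam (U j) (T.stab x ⊓ π.ker) := by
    intro j
    ext C
    constructor
    · rintro ⟨hC, B, hB, rfl⟩
      refine ⟨hC, B, hB, ?_⟩
      ext b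
      exact ⟨fun h1 => ⟨h1.1, h1.2, (hBk j B hB h1.1).2⟩, fun h1 => ⟨h1.1, h1.2.1⟩⟩
    · rintro ⟨hC, B, hB, rfl⟩
      refine ⟨hC, B, hB, ?_⟩
      ext b
      exact ⟨fun h1 => ⟨h1.1, h1.2, (hBk j B hB h1.1).2⟩, fun h1 => ⟨h1.1, h1.2.1⟩⟩
  have hper : ∀ j, IsPeriph π.ker (Mg π (T.stab x) g) (lfam T U x j) := by
    intro j
    rw [hres, ← hSg]
    exact periph_res hc hMg (h.periph j) hxg
  -- availability goes down
  have hav : ∀ j Q, Avail π M g (fun i => s i g) inn U j Q → T.act Q x = x →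
      Avail π (T.stab x) g (fun τ => lsec π T s ell xi x (E x) τ g)
        (linn π T g s inn U ell xi x (E x)) (lfam T U x) j Q := by
    intro j Q hQ hQx
    refine ⟨⟨hQ.1, hQx⟩, hQ.2.1, ?_⟩
    rcases loc_avail hc St h hin hxR hQ hQx with h1 | h1
    · exact Or.inr h1
    · exact Or.inl h1
  -- the data of a member of the local family
  have key : ∀ j, ∀ V ∈ U j, V ⊓ T.stab x ≠ ⊥ →
      Loc π (Mg π M g ⊓ Subgroup.normalizer (V : Set Γ)) ∧
      IsMFactor π.ker (Mg π M g ⊓ Subgroup.normalizer (V : Set Γ)) (V ⊓ T.stab x) ∧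
      (Mg π M g ⊓ Subgroup.normalizer (V : Set Γ)) ⊓
        Subgroup.normalizer ((V ⊓ T.stab x : Subgroup Γ) : Set Γ) =
      Mg π (T.stab x) g ⊓ Subgroup.normalizer ((V ⊓ T.stab x : Subgroup Γ) : Set Γ) := by
    intro j V hV hne
    have hVf := periph_mfactor hc hMg (h.periph j) hV
    have e1 : V ⊓ (T.stab x ⊓ π.ker) = V ⊓ T.stab x := by
      ext b
      exact ⟨fun h1 => ⟨h1.1, h1.2.1⟩, fun h1 => ⟨h1.1, h1.2, (hBk j V hV h1.1).2⟩⟩
    refine ⟨mfactor_loc hc hMg hVf, ?_, ?_⟩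
    · rw [← e1]
      refine mfactor_inter hc hMg hVf hxg ?_
      rw [e1]
      exact hne
    · apply le_antisymm
      · rintro m ⟨⟨hm1, hm2⟩, hm3⟩
        refine ⟨⟨⟨hm1.1, ?_⟩, hm1.2⟩, hm3⟩
        refine fix_of_norm hc hT (V := V ⊓ T.stab x) ?_ hne hm1.1 (t8_norm.1 hm3)
        intro b hb
        exact ⟨hb.2, (hBk j V hV hb.1).2⟩
      · rintro m ⟨hm1, hm3⟩
        have hmM : m ∈ Mg π M g := ⟨hm1.1.1, hm1.2⟩
        refine ⟨⟨hmM, ?_⟩, hm3⟩
        refine t8_norm.2 ?_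
        refine periph_disj (h.periph j) ((h.periph j).inv m hmM V hV) hV ?_
        intro hbot
        apply hne
        rw [eq_bot_iff, ← hbot]
        refine le_inf ?_ inf_le_left
        rw [← t8_norm.1 hm3]
        exact Subgroup.pointwise_smul_le_pointwise_smul_iff.2 inf_le_left
  refine ⟨?_, hper, ?_, ?_, ?_, ?_, ?_⟩
  · -- sM
    rintro (y | i)
    · obtain ⟨h1, h2⟩ := eSec_spec hc hM.surj hT ((St.reps x hxR).adj y y.2)
      exact ⟨⟨h1.mem g, (h2 g).1⟩, h1.sec g⟩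
    · refine ⟨⟨(St.sec i).mem g, ?_⟩, (St.sec i).sec g⟩
      have h1 := St.ell_fix i i.2.1 g
      rw [i.2.2] at h1
      exact h1
  · -- zero
    ext C
    constructor
    · rintro ⟨-, B, hB, -⟩
      rw [h.zero] at hB
      exact hB
    · intro hC
      exact absurd hC (Set.notMem_empty _)
  · -- top
    obtain ⟨n, hn⟩ := h.top
    refine ⟨n, fun j hj => ?_⟩
    have e1 : M ⊓ π.ker ⊓ T.stab x = T.stab x ⊓ π.ker := by
      ext b
      exact ⟨fun h1 => ⟨h1.2, h1.1.2⟩, fun h1 => ⟨⟨h1.1.1, h1.2⟩, h1.1⟩⟩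
    ext C
    constructor
    · rintro ⟨-, B, hB, rfl⟩
      rw [hn j hj, Set.mem_singleton_iff] at hB
      rw [hB, e1]
      rfl
    · intro hC
      rw [Set.mem_singleton_iff] at hC
      rw [hC]
      refine ⟨hx, M ⊓ π.ker, ?_, e1⟩
      rw [hn j hj]
      rfl
  · -- mono
    rintro j C ⟨hC, B, hB, rfl⟩
    obtain ⟨B', hB', hle⟩ := h.mono j B hB
    refine ⟨B' ⊓ T.stab x, ⟨?_, B', hB', rfl⟩, inf_le_inf_right _ hle⟩
    intro hbot
    apply hC
    rw [eq_bot_iff, ← hbot]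
    exact inf_le_inf_right _ hle
  · -- step
    rintro j C ⟨hC, V, hV, rfl⟩
    obtain ⟨hl, hf, hN⟩ := key (j + 1) V hV hC
    obtain ⟨TV, hTV, hvg⟩ := h.step j V hV
    have h1 := f6e_core_tree hc hl hf TV hTV
    rw [hN] at h1
    obtain ⟨T', hT', hvg'⟩ := h1
    refine ⟨T', hT', ?_⟩
    rw [hvg', hvg]
    ext K
    constructor
    · rintro ⟨hK, B, ⟨hB, hBV⟩, rfl⟩
      refine ⟨⟨hK, B, hB, ?_⟩, inf_le_right⟩
      ext b
      exact ⟨fun h1 => ⟨h1.1, hBV h1.1, h1.2⟩, fun h1 => ⟨h1.1, h1.2.2⟩⟩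
    · rintro ⟨⟨hK, B, hB, rfl⟩, hle⟩
      obtain ⟨B', hB', hBB'⟩ := h.mono j B hB
      have e1 : B' = V := by
        refine periph_disj (h.periph (j + 1)) hB' hV ?_
        intro hbot
        apply hK
        rw [eq_bot_iff, ← hbot]
        exact le_inf (inf_le_left.trans hBB') (hle.trans inf_le_left)
      rw [e1] at hBB'
      refine ⟨hK, B, ⟨hB, hBB'⟩, ?_⟩
      ext b
      exact ⟨fun h1 => ⟨h1.1, hBB' h1.1, h1.2⟩, fun h1 => ⟨h1.1, h1.2.2⟩⟩
  · -- start
    rintro j C ⟨hC, V, hV, rfl⟩ hno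
    obtain ⟨hl, hf, hN⟩ := key (j + 1) V hV hC
    obtain ⟨TV, hTV, hvg⟩ := h.step j V hV
    have hVM : V ⊓ T.stab x ≤ T.stab x ⊓ π.ker := fun b hb => ⟨hb.2, (hBk _ V hV hb.1).2⟩
    by_cases hB0 : ∃ B ∈ U j, B ≤ V
    · obtain ⟨B0, hB0, hB0V⟩ := hB0
      -- `C` acts freely on `TV`
      have hfree : ∀ z : TV.X, ∀ d ∈ V ⊓ T.stab x, TV.act d z = z → d = 1 := by
        intro z d hd hdz
        by_contra hd1
        have hdN : d ∈ (Mg π M g ⊓ Subgroup.normalizer (V : Set Γ)) ⊓ π.ker := t8_le hf hd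
        have hdz' : d ∈ TV.stab z ⊓ π.ker := ⟨⟨hdN.1, hdz⟩, hdN.2⟩
        have hmem : TV.stab z ⊓ π.ker ∈ TV.vgs π.ker := by
          refine ⟨?_, z, rfl⟩
          intro hbot
          rw [hbot, Subgroup.mem_bot] at hdz'
          exact hd1 hdz'
        rw [hvg] at hmem
        refine hno ((TV.stab z ⊓ π.ker) ⊓ T.stab x) ⟨?_, _, hmem.1, rfl⟩ ?_
        · intro hbot
          have h1 : d ∈ (TV.stab z ⊓ π.ker) ⊓ T.stab x := ⟨hdz', hd.2⟩
          rw [hbot, Subgroup.mem_bot] at h1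
          exact hd1 h1
        · exact inf_le_inf_right _ hmem.2
      have hnell : ¬ TV.Ell ((V ⊓ T.stab x : Subgroup Γ) : Set Γ) := by
        rintro ⟨z, hz⟩
        obtain ⟨d, hd, hd1⟩ := exists_ne_one_t14b hC
        exact hd1 (hfree z d hd (hz d hd))
      obtain ⟨T', ι, hι, hran, hT', hmin⟩ := core_splitting hc hl hTV hf hnell
      have hnorm := norm_inf hc hl hf
      have hfree' : ∀ z, T'.stab z ⊓ π.ker = ⊥ := by
        intro z
        rw [eq_bot_iff]
        rintro d ⟨⟨hd1, hd2⟩, hd3⟩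
        rw [Subgroup.mem_bot]
        have hdC : d ∈ V ⊓ T.stab x := by
          rw [← hnorm]
          exact ⟨hd1, hd3⟩
        refine hfree (ι z) d hdC ?_
        rw [← hι.equi d hd1, hd2]
      obtain ⟨m0, hm0, hm0g⟩ := hM.surj g
      obtain ⟨m1, hm1, hm1g⟩ := f6e_lift (π := π) (periph_mfactor hc hMg (h.periph (j + 1)) hV)
        (mem_mg hm0 hm0g)
      obtain ⟨m2, hm2, hm2g⟩ := f6e_lift (π := π) hf hm1
      obtain ⟨Q, hQ, hQm, hQfix, hQc⟩ := f6e_central hT' hmin.1 hfree' hm2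
      have hQg : π Q = g := by rw [hQm, hm2g, hm1g, hm0g]
      have hQM : Q ∈ M := hQ.1.1.1
      have hcomm : ∀ v ∈ V ⊓ T.stab x, Q * v = v * Q := by
        intro v hv
        apply hQc
        rw [hnorm]
        exact hv
      refine ⟨Q, hav j Q ?_ ?_, hcomm⟩
      · -- a fixed vertex with non-trivial group
        obtain ⟨z1, hz1⟩ : ∃ z1, TV.stab z1 ⊓ π.ker ≠ ⊥ := by
          have h1 : B0 ∈ TV.vgs π.ker := by
            rw [hvg]
            exact ⟨hB0, hB0V⟩
          obtain ⟨h2, z1, rfl⟩ := h1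
          exact ⟨z1, h2⟩
        have hQN : Q ∈ Mg π M g ⊓ Subgroup.normalizer (V : Set Γ) := hQ.1
        obtain ⟨z0'⟩ : Nonempty T'.X := T'.tree.connected.nonempty
        have hz0 : TV.act Q (ι z0') = ι z0' := by
          rw [← hι.equi Q hQ, hQfix]
        obtain ⟨p, hpQ, hpb⟩ := TG.proj_exists TV.tree (TV.fix_conv hQN) ⟨ι z0', hz0⟩ z1
        have hp : TV.stab p ⊓ π.ker ≠ ⊥ := by
          by_cases hpz : p = z1
          · rw [hpz]
            exact hz1
          · obtain ⟨y, hpy, hyd⟩ := TG.exists_next TV.tree hpz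
            obtain ⟨P, ⟨hP, hPm, hPf⟩, _⟩ := IsSplitting.lift hTV hpy hQN
            intro hbot
            have h1 : P⁻¹ * Q ∈ TV.stab p ⊓ π.ker := by
              refine ⟨⟨Subgroup.mul_mem _ (Subgroup.inv_mem _ hP) hQN, ?_⟩, ?_⟩
              · have h2 : TV.act Q p = p := hpQ
                rw [TV.act_mul _ (Subgroup.inv_mem _ hP) _ hQN, h2]
                have h3 := TV.act_inv_act hP p
                rwa [hPf.1] at h3
              · change π (P⁻¹ * Q) = 1
                rw [map_mul, map_inv, hPm, inv_mul_cancel]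
            rw [hbot, Subgroup.mem_bot] at h1
            have h2 : P = Q := inv_mul_eq_one.1 h1
            have h3 : y ∈ TV.Fix Q := by
              change TV.act Q y = y
              rw [← h2]
              exact hPf.2
            have h4 : TV.G.dist z1 p + TV.G.dist p y = TV.G.dist z1 y := hpb y h3
            have h5 : TV.G.dist p y = 1 := TG.dist_eq_one hpy
            rw [SimpleGraph.dist_comm (u := z1) (v := p), SimpleGraph.dist_comm (u := z1) (v := y)] at h4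
            omega
        have hmem : TV.stab p ⊓ π.ker ∈ TV.vgs π.ker := ⟨hp, p, rfl⟩
        rw [hvg] at hmem
        refine ⟨hQM, hQg, Or.inr ⟨_, hmem.1, ?_⟩⟩
        have h2 : TV.act Q p = p := hpQ
        rw [Subgroup.smul_inf, ← TV.stab_act hQN p, h2, t8_conj_ker]
      · exact fix_of_norm hc hT hVM hC hQM (conj_smul_eq_of_comm hcomm)
    · push Not at hB0
      obtain ⟨Q, hQ, hQc⟩ := h.start j V hV hB0
      have hcomm : ∀ v ∈ V ⊓ T.stab x, Q * v = v * Q := fun v hv => hQc v hv.1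
      refine ⟨Q, hav j Q hQ ?_, hcomm⟩
      exact fix_of_norm hc hT hVM hC hQ.1 (conj_smul_eq_of_comm hcomm)

end Pool.Agent.Lib.MP_6567fb_al
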