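import Pool.Agent.Lib.MP_6567fb_al.FDefs

/-!
# MP_6567fb_al, module F7b

Calculus of the relation `Gadget.Conn`.
-/

set_option autoImplicit false

open scoped Pointwise
open Filter

namespace Pool.Agent.Lib.MP_6567fb_al

open MTree
variable {Γ G : Type} [Group Γ] [Group G] {π : Γ →* G}

variable {I : Type}

theorem Gadget.Conn.mono {M : Subgroup Γ} {s : I → (G →* Γ)} (Y : Gadget π M s) {J J' : Set I}
    (h : J ⊆ J') {a b : Y.X.X} (hab : Y.Conn J a b) : Y.Conn J' a b := by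
  induction hab with
  | refl a => exact Gadget.Conn.refl _
  | symm h ih => exact ih.symm
  | trans h h' ih ih' => exact ih.trans ih'
  | edge hab ha hb hi hk hact iha ihb ihact =>
    exact Gadget.Conn.edge hab iha ihb (h hi) hk ihact

theorem Gadget.tau_sig_mem' {M : Subgroup Γ} {s : I → (G →* Γ)} (Y : Gadget π M s) {a b : Y.X.X}
    (hab : Y.X.G.Adj a b) (q : Y.X.X) (g : G) : Y.tau a b g * (Y.sig q g)⁻¹ ∈ M ⊓ π.ker := by
  refine ⟨M.mul_mem ((Y.tau_sec a b hab).mem g) (M.inv_mem ((Y.sig_sec q).mem g)), ?_⟩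
  change _ ∈ π.ker
  rw [MonoidHom.mem_ker, map_mul, map_inv, (Y.tau_sec a b hab).sec g, (Y.sig_sec q).sec g,
    mul_inv_cancel]

theorem Gadget.sig_sig_mem {M : Subgroup Γ} {s : I → (G →* Γ)} (Y : Gadget π M s) (q q' : Y.X.X)
    (g : G) : Y.sig q g * (Y.sig q' g)⁻¹ ∈ M ⊓ π.ker := by
  refine ⟨M.mul_mem ((Y.sig_sec q).mem g) (M.inv_mem ((Y.sig_sec q').mem g)), ?_⟩
  change _ ∈ π.ker
  rw [MonoidHom.mem_ker, map_mul, map_inv, (Y.sig_sec q).sec g, (Y.sig_sec q').sec g,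
    mul_inv_cancel]

theorem Gadget.conn_act_aux {M : Subgroup Γ} {s : I → (G →* Γ)} (Y : Gadget π M s)
    {h z : Γ} (hh : h ∈ M ⊓ π.ker) (hz : z ∈ M ⊓ π.ker) (a : Y.X.X) :
    Y.X.act (h * z * h⁻¹) (Y.X.act h a) = Y.X.act h (Y.X.act z a) := by
  have e := Y.X.act_mul _ ((M ⊓ π.ker).mul_mem ((M ⊓ π.ker).mul_mem hh hz)
    ((M ⊓ π.ker).inv_mem hh)) _ hh a
  rw [← e, ← Y.X.act_mul _ hh _ hz]
  congr 1
  group

theorem Gadget.Conn.act {M : Subgroup Γ} {s : I → (G →* Γ)} (Y : Gadget π M s) {J : Set I}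
    {h : Γ} (hh : h ∈ M ⊓ π.ker) {a b : Y.X.X} (hab : Y.Conn J a b) :
    Y.Conn J (Y.X.act h a) (Y.X.act h b) := by
  induction hab with
  | refl a => exact Gadget.Conn.refl _
  | symm h ih => exact ih.symm
  | trans h h' ih ih' => exact ih.trans ih'
  | @edge a b hab ha hb i hi k hk hact iha ihb ihact =>
    refine Gadget.Conn.edge (Y.X.act_adj _ hh _ _ hab) (fun g => ?_) (fun g => ?_) hi
      ((M ⊓ π.ker).mul_mem hh hk) ?_
    · have := iha g
      rw [← Y.conn_act_aux hh (Y.tau_sig_mem' hab a g)] at this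
      rw [Y.tau_eq h hh a b hab, Y.sig_eq h hh]
      convert this using 2
      group
    · have := ihb g
      rw [← Y.conn_act_aux hh (Y.tau_sig_mem' hab b g)] at this
      rw [Y.tau_eq h hh a b hab, Y.sig_eq h hh]
      convert this using 2
      group
    · rw [Y.X.act_mul _ hh _ hk]
      exact ihact

theorem Gadget.Conn.stab_mul {M : Subgroup Γ} {s : I → (G →* Γ)} (Y : Gadget π M s) {J : Set I}
    {h k : Γ} (hh : h ∈ M ⊓ π.ker) (hk : k ∈ M ⊓ π.ker) {a : Y.X.X} (h1 : Y.Conn J a (Y.X.act h a))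
    (h2 : Y.Conn J a (Y.X.act k a)) : Y.Conn J a (Y.X.act (h * k) a) := by
  rw [Y.X.act_mul _ hh _ hk]
  exact h1.trans (Gadget.Conn.act Y hh h2)

theorem Gadget.Conn.stab_inv {M : Subgroup Γ} {s : I → (G →* Γ)} (Y : Gadget π M s) {J : Set I}
    {h : Γ} (hh : h ∈ M ⊓ π.ker) {a : Y.X.X} (h1 : Y.Conn J a (Y.X.act h a)) :
    Y.Conn J a (Y.X.act h⁻¹ a) := by
  have hi := (M ⊓ π.ker).inv_mem hh
  have h2 := Gadget.Conn.act Y hi h1
  rw [← Y.X.act_mul _ hi _ hh, inv_mul_cancel, Y.X.act_one] at h2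
  exact h2.symm

theorem Gadget.Conn.stab_conn {M : Subgroup Γ} {s : I → (G →* Γ)} (Y : Gadget π M s) {J : Set I}
    {h : Γ} (hh : h ∈ M ⊓ π.ker) {a b : Y.X.X} (hab : Y.Conn J a b) (h1 : Y.Conn J a (Y.X.act h a)) :
    Y.Conn J b (Y.X.act h b) :=
  hab.symm.trans (h1.trans (Gadget.Conn.act Y hh hab))

/-- `H_C sigma_q(G)` depends only on the component -/
theorem Gadget.Conn.sig {M : Subgroup Γ} {s : I → (G →* Γ)} (Y : Gadget π M s) {J : Set I}
    {a b : Y.X.X} (hab : Y.Conn J a b) (g : G) :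
    Y.Conn J a (Y.X.act (Y.sig a g * (Y.sig b g)⁻¹) a) := by
  induction hab with
  | refl a =>
    rw [mul_inv_cancel, Y.X.act_one]
    exact Gadget.Conn.refl _
  | @symm a b h ih =>
    have h1 := Gadget.Conn.stab_inv Y (Y.sig_sig_mem a b g) ih
    rw [mul_inv_rev, inv_inv] at h1
    exact Gadget.Conn.stab_conn Y (Y.sig_sig_mem b a g) h h1
  | @trans a b c h h' ih ih' =>
    have h1 := Gadget.Conn.stab_conn Y (Y.sig_sig_mem b c g) h.symm ih'
    have h2 := Gadget.Conn.stab_mul Y (Y.sig_sig_mem a b g) (Y.sig_sig_mem b c g) ih h1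
    convert h2 using 2
    group
  | @edge a b hab ha hb i hi k hk hact iha ihb ihact =>
    have hc : Y.Conn J a b := Gadget.Conn.edge hab ha hb hi hk hact
    have h1 := Gadget.Conn.stab_inv Y (Y.tau_sig_mem' hab a g) (ha g)
    have h2 := Gadget.Conn.stab_conn Y (Y.tau_sig_mem' hab b g) hc.symm (hb g)
    have h3 := Gadget.Conn.stab_mul Y ((M ⊓ π.ker).inv_mem (Y.tau_sig_mem' hab a g))
      (Y.tau_sig_mem' hab b g) h1 h2
    convert h3 using 2
    group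

/-- `sigma_a(g)` normalises the stabiliser of the component of `a` -/
theorem Gadget.Conn.norm {M : Subgroup Γ} {s : I → (G →* Γ)} (Y : Gadget π M s) {J : Set I}
    {a : Y.X.X} {h : Γ} (hh : h ∈ M ⊓ π.ker) (hab : Y.Conn J a (Y.X.act h a)) (g : G) :
    Y.Conn J a (Y.X.act (Y.sig a g * h * (Y.sig a g)⁻¹) a) := by
  have h1 := Gadget.Conn.sig Y hab g
  have hm := Y.sig_sig_mem a (Y.X.act h a) g
  have h2 := Gadget.Conn.stab_mul Y hm hh h1 hab
  rw [Y.sig_eq h hh] at h2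
  convert h2 using 2
  group

theorem Gadget.Act.mono {M : Subgroup Γ} {s : I → (G →* Γ)} (Y : Gadget π M s) {J J' : Set I}
    (h : J ⊆ J') {a : Y.X.X} (ha : Y.Act J a) : Y.Act J' a := by
  obtain ⟨i, hi, k, hk, hc⟩ := ha
  exact ⟨i, h hi, k, hk, Gadget.Conn.mono Y h hc⟩

theorem Gadget.Act.act {M : Subgroup Γ} {s : I → (G →* Γ)} (Y : Gadget π M s) {J : Set I}
    {h : Γ} (hh : h ∈ M ⊓ π.ker) {a : Y.X.X} (ha : Y.Act J a) : Y.Act J (Y.X.act h a) := by
  obtain ⟨i, hi, k, hk, hc⟩ := ha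
  refine ⟨i, hi, h * k, (M ⊓ π.ker).mul_mem hh hk, ?_⟩
  rw [Y.X.act_mul _ hh _ hk]
  exact Gadget.Conn.act Y hh hc

theorem Gadget.Act.conn {M : Subgroup Γ} {s : I → (G →* Γ)} (Y : Gadget π M s) {J : Set I}
    {a b : Y.X.X} (ha : Y.Act J a) (hab : Y.Conn J a b) : Y.Act J b := by
  obtain ⟨i, hi, k, hk, hc⟩ := ha
  exact ⟨i, hi, k, hk, hab.symm.trans hc⟩

/-- an edge with the same section at both ends, one end active -/
theorem Gadget.Conn.of_eq {M : Subgroup Γ} {s : I → (G →* Γ)} (Y : Gadget π M s) {J : Set I}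
    {a b : Y.X.X} (hab : Y.X.G.Adj a b) (h1 : Y.sig a = Y.tau a b) (h2 : Y.sig b = Y.tau a b)
    (ha : Y.Act J a ∨ Y.Act J b) : Y.Conn J a b := by
  rcases ha with ⟨i, hi, k, hk, hc⟩ | ⟨i, hi, k, hk, hc⟩
  · refine Gadget.Conn.edge hab (fun g => ?_) (fun g => ?_) hi hk hc
    · rw [h1, mul_inv_cancel, Y.X.act_one]
      exact Gadget.Conn.refl _
    · rw [h2, mul_inv_cancel, Y.X.act_one]
      exact Gadget.Conn.refl _
  · refine (Gadget.Conn.edge hab.symm (fun g => ?_) (fun g => ?_) hi hk hc).symm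
    · rw [← Y.tau_symm a b hab, h2, mul_inv_cancel, Y.X.act_one]
      exact Gadget.Conn.refl _
    · rw [← Y.tau_symm a b hab, h1, mul_inv_cancel, Y.X.act_one]
      exact Gadget.Conn.refl _

end Pool.Agent.Lib.MP_6567fb_al
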