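import Pool.Agent.Lib.MP_6567fb_al.F4a
import Pool.Agent.Lib.MP_6567fb_al.F6a
import Pool.Agent.Lib.MP_6567fb_al.F7b

/-!
# MP_6567fb_al, module F7a

Small rank.  gadget_bot: one vertex, sig = s0 (all sections in M are equal: conj_bot).  gadget_cyclic: H = <y> central in M (central_of_cyclic).  Distinct sections t_r among the s i (finite set range s).  X: vertices ℤ × range s (or: for r = t_1 the line, the others leaves): choose i_1 with
the smallest in-time (constant for a.a. g), t_1 = s i_1; vertices (k, t), y acts by (k,t) ↦ (k+1,t); edges (k,t_1)-(k+1,t_1) with section t_1 and (k,t_1)-(k,t), t ≠ t_1, with section t; sig (k,t) = t; p i = (0, s i).  Sat: bare: s i g = s j g for a.a. g gives s i = s j (eq_isol, Gen.sub): p i = p j.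
Otherwise a member of U t preserved or H ∈ U t: U t ≠ ∅, so (IsTower.input) some in-time < t, so inn i_1 < t, i_1 ∈ J: then all edges can be built: line edges first (τ σ⁻¹ = 1), then Conn (k,t1) (k',t1) for all k, k', so the leaf edges: τ σ⁻¹ = t g (t_1 g)⁻¹ ∈ H = <y>.
-/

set_option autoImplicit false

open scoped Pointwise
open Filter

namespace Pool.Agent.Lib.MP_6567fb_al

open MTree
variable {Γ G : Type} [Group Γ] [Group G] {π : Γ →* G}

variable {I : Type}

/-- one vertex -/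
theorem gadget_bot {M : Subgroup Γ} (hM : M ⊓ π.ker = ⊥) [Finite I]
    {s : I → (G →* Γ)} (hs : ∀ i, SecIn π M (s i)) (hsec : ∃ s0, SecIn π M s0) :
    ∃ Y : Gadget π M s, ∀ J : Set I, J.Nonempty → ∀ j, Y.Sat J j := by
  obtain ⟨s0, hs0⟩ := hsec
  have h1 : ∀ h ∈ M ⊓ π.ker, h = 1 := by
    intro h hh
    rw [hM] at hh
    exact hh
  let Y : Gadget π M s :=
    { X :=
        { X := Unit
          G := ⊥
          tree := by
            rw [SimpleGraph.isTree_iff]
            refine ⟨⟨fun x y => by rw [Subsingleton.elim x y]⟩, ?_⟩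
            exact SimpleGraph.isAcyclic_bot
          act := fun _ x => x
          act_one := fun _ => rfl
          act_mul := fun _ _ _ _ _ => rfl
          act_adj := fun _ _ _ _ h => h }
      free := fun h hh _ _ => h1 h hh
      cocptV := ⟨{()}, fun x => ⟨1, Subgroup.one_mem _, by simp⟩⟩
      cocptE := ⟨{((), ())}, fun x y _ => ⟨1, Subgroup.one_mem _, by simp⟩⟩
      sig := fun _ => s0
      sig_sec := fun _ => hs0
      sig_eq := fun h hh _ g => by rw [h1 h hh]; simp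
      tau := fun _ _ => s0
      tau_sec := fun _ _ _ => hs0
      tau_symm := fun _ _ _ => rfl
      tau_eq := fun h hh _ _ _ g => by rw [h1 h hh]; simp
      p := fun _ => ()
      p_sig := fun i => conj_bot hM hs0 (hs i) }
  refine ⟨Y, ?_⟩
  rintro J ⟨i, hi⟩ j
  cases j with
  | none =>
    refine ⟨⟨i, hi⟩, fun a b hab => ?_⟩
    exact hab.elim
  | some j => exact ⟨i, hi, 1, Subgroup.one_mem _, Gadget.Conn.refl _⟩

open Classical in
/-- a line with leaves -/
def F7a_gr {S : Type} (t1 : S) : SimpleGraph (ℤ × S) where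
  Adj a b := (a.2 = t1 ∧ b.2 = t1 ∧ (b.1 = a.1 + 1 ∨ a.1 = b.1 + 1)) ∨
    (a.1 = b.1 ∧ ((a.2 = t1 ∧ b.2 ≠ t1) ∨ (a.2 ≠ t1 ∧ b.2 = t1)))
  symm := ⟨fun a b h => by
    rcases h with ⟨h1, h2, h3⟩ | ⟨h1, h2⟩
    · exact Or.inl ⟨h2, h1, h3.symm⟩
    · exact Or.inr ⟨h1.symm, h2.symm.imp (fun h => ⟨h.2, h.1⟩) (fun h => ⟨h.2, h.1⟩)⟩⟩
  loopless := ⟨fun a h => by
    rcases h with ⟨h1, h2, h3⟩ | ⟨h1, h2⟩
    · rcases h3 with h3 | h3 <;> omega
    · rcases h2 with h2 | h2
      · exact h2.2 h2.1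
      · exact h2.1 h2.2⟩

theorem F7a_tree {S : Type} (t1 : S) : (F7a_gr t1).IsTree := by
  classical
  have hc : (F7a_gr t1).Connected := by
    have key : ∀ i : ℤ, (F7a_gr t1).Reachable (0, t1) (i, t1) := by
      intro i
      induction i using Int.induction_on with
      | zero => exact SimpleGraph.Reachable.refl _
      | succ n ih =>
        refine ih.trans (SimpleGraph.Adj.reachable ?_)
        exact Or.inl ⟨rfl, rfl, Or.inl rfl⟩
      | pred n ih =>
        refine ih.trans (SimpleGraph.Adj.reachable ?_)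
        exact Or.inl ⟨rfl, rfl, Or.inr (show -(n : ℤ) = -(n : ℤ) - 1 + 1 by ring)⟩
    have key2 : ∀ x : ℤ × S, (F7a_gr t1).Reachable (0, t1) x := by
      rintro ⟨i, t⟩
      by_cases ht : t = t1
      · rw [ht]; exact key i
      · refine (key i).trans (SimpleGraph.Adj.reachable ?_)
        exact Or.inr ⟨rfl, Or.inl ⟨rfl, ht⟩⟩
    have : Nonempty (ℤ × S) := ⟨(0, t1)⟩
    exact ⟨fun i j => (key2 i).symm.trans (key2 j)⟩
  refine TG.isTree_of_sep hc ?_
  rintro ⟨i, t⟩ ⟨j, u⟩ hab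
  rcases hab with ⟨h1, h2, h3⟩ | ⟨h1, h2⟩
  · have h1' : t = t1 := h1
    have h2' : u = t1 := h2
    have h3' : j = i + 1 ∨ i = j + 1 := h3
    subst h1'
    subst h2'
    rcases h3' with h3' | h3'
    · refine ⟨{x | x.1 ≤ i}, le_refl i, ?_, ?_⟩
      · intro (h4 : j ≤ i); omega
      · rintro ⟨x, x'⟩ ⟨y, y'⟩ hxy (h4 : x ≤ i) h5
        have h5' : ¬ y ≤ i := h5
        rcases hxy with ⟨e1, e2, e3⟩ | ⟨e1, e2⟩
        · have e1' : x' = u := e1
          have e2' : y' = u := e2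
          have e3' : y = x + 1 ∨ x = y + 1 := e3
          subst e1'
          subst e2'
          have e4 : x = i := by omega
          have e5 : y = j := by omega
          rw [e4, e5]
          exact ⟨rfl, rfl⟩
        · have e1' : x = y := e1
          omega
    · refine ⟨{x | i ≤ x.1}, le_refl i, ?_, ?_⟩
      · intro (h4 : i ≤ j); omega
      · rintro ⟨x, x'⟩ ⟨y, y'⟩ hxy (h4 : i ≤ x) h5
        have h5' : ¬ i ≤ y := h5
        rcases hxy with ⟨e1, e2, e3⟩ | ⟨e1, e2⟩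
        · have e1' : x' = u := e1
          have e2' : y' = u := e2
          have e3' : y = x + 1 ∨ x = y + 1 := e3
          subst e1'
          subst e2'
          have e4 : x = i := by omega
          have e5 : y = j := by omega
          rw [e4, e5]
          exact ⟨rfl, rfl⟩
        · have e1' : x = y := e1
          omega
  · have h1' : i = j := h1
    subst h1'
    rcases h2 with ⟨h2, h3⟩ | ⟨h2, h3⟩
    · have h2' : t = t1 := h2
      have h3' : u ≠ t1 := h3
      subst h2'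
      refine ⟨{x | x ≠ (i, u)}, ?_, ?_, ?_⟩
      · intro (h : (i, t) = (i, u))
        exact h3' (Prod.mk.inj h).2.symm
      · intro h
        exact h rfl
      · rintro ⟨x, x'⟩ ⟨y, y'⟩ hxy _ h5
        have h5' : (y, y') = (i, u) := by
          by_contra h
          exact h5 h
        have h6 := (Prod.mk.inj h5').1
        have h7 := (Prod.mk.inj h5').2
        subst h6
        subst h7
        rcases hxy with ⟨e1, e2, e3⟩ | ⟨e1, e2⟩
        · exact absurd e2 h3'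
        · have e1' : x = y := e1
          subst e1'
          rcases e2 with ⟨e2, _⟩ | ⟨_, e2⟩
          · have e2' : x' = t := e2
            rw [e2']
            exact ⟨rfl, rfl⟩
          · exact absurd e2 h3'
    · have h2' : t ≠ t1 := h2
      have h3' : u = t1 := h3
      subst h3'
      refine ⟨{x | x = (i, t)}, rfl, ?_, ?_⟩
      · intro (h : (i, u) = (i, t))
        exact h2' (Prod.mk.inj h).2.symm
      · rintro ⟨x, x'⟩ ⟨y, y'⟩ hxy (h4 : (x, x') = (i, t)) _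
        have h6 := (Prod.mk.inj h4).1
        have h7 := (Prod.mk.inj h4).2
        subst h6
        subst h7
        rcases hxy with ⟨e1, e2, e3⟩ | ⟨e1, e2⟩
        · exact absurd e1 h2'
        · have e1' : x = y := e1
          subst e1'
          rcases e2 with ⟨e2, _⟩ | ⟨_, e2⟩
          · exact absurd e2 h2'
          · have e2' : y' = u := e2
            rw [e2']
            exact ⟨rfl, rfl⟩

/-- the tree of the gadget of rank one -/
def F7a_T {S : Type} (t1 : S) (H : Subgroup Γ) (φ : Γ → ℤ) (h1 : φ 1 = 0)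
    (h : ∀ m ∈ H, ∀ m' ∈ H, φ (m * m') = φ m + φ m') : MTree H where
  X := ℤ × S
  G := F7a_gr t1
  tree := F7a_tree t1
  act := fun m x => (x.1 + φ m, x.2)
  act_one := fun x => by rw [h1, add_zero]
  act_mul := fun m hm m' hm' x => by
    rw [h m hm m' hm']
    refine Prod.ext ?_ rfl
    show x.1 + (φ m + φ m') = x.1 + φ m' + φ m
    ring
  act_adj := fun m _ x y hxy => by
    rcases hxy with ⟨e1, e2, e3⟩ | ⟨e1, e2⟩
    · refine Or.inl ⟨e1, e2, ?_⟩
      rcases e3 with e3 | e3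
      · left
        show y.1 + φ m = x.1 + φ m + 1
        rw [e3]; ring
      · right
        show x.1 + φ m = y.1 + φ m + 1
        rw [e3]; ring
    · refine Or.inr ⟨?_, e2⟩
      show x.1 + φ m = y.1 + φ m
      rw [e1]

open Classical in
/-- the gadget of rank one -/
noncomputable def F7a_Y {M : Subgroup Γ} [Finite I] {s : I → (G →* Γ)} (hs : ∀ i, SecIn π M (s i))
    (i1 : I) {y : Γ} (hy : M ⊓ π.ker = Subgroup.zpowers y)
    (hcen : ∀ m ∈ M, ∀ h ∈ M ⊓ π.ker, m * h = h * m) (φ : Γ → ℤ) (h1 : φ 1 = 0)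
    (h : ∀ m ∈ M ⊓ π.ker, ∀ m' ∈ M ⊓ π.ker, φ (m * m') = φ m + φ m')
    (hφ : ∀ h ∈ M ⊓ π.ker, h = y ^ (φ h)) (hφy : ∀ k : ℤ, φ (y ^ k) = k) : Gadget π M s where
  X := F7a_T (⟨s i1, i1, rfl⟩ : {t // t ∈ Set.range s}) (M ⊓ π.ker) φ h1 h
  free := fun h hh x hx => by
    have h2 : x.1 + φ h = x.1 := congrArg Prod.fst hx
    have h3 : φ h = 0 := by omega
    rw [hφ h hh, h3, zpow_zero]
  cocptV := by
    have hfin : (Set.univ : Set {t // t ∈ Set.range s}).Finite := by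
      have : Finite {t // t ∈ Set.range s} := Set.finite_range s
      exact Set.finite_univ
    refine ⟨({0} ×ˢ hfin.toFinset : Finset (ℤ × {t // t ∈ Set.range s})), ?_⟩
    rintro ⟨k, t⟩
    refine ⟨y ^ (-k), by rw [hy]; exact Subgroup.zpow_mem_zpowers y _, ?_⟩
    have e : ((k + φ (y ^ (-k)), t) : ℤ × {t // t ∈ Set.range s}) ∈
        ({0} ×ˢ hfin.toFinset : Finset (ℤ × {t // t ∈ Set.range s})) := by
      rw [hφy, Finset.mem_product]
      constructor
      · simp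
      · simp
    exact e
  cocptE := by
    have hfin : (Set.univ : Set {t // t ∈ Set.range s}).Finite := by
      have : Finite {t // t ∈ Set.range s} := Set.finite_range s
      exact Set.finite_univ
    refine ⟨((Finset.Icc (-1) 1 ×ˢ hfin.toFinset) ×ˢ (Finset.Icc (-1) 1 ×ˢ hfin.toFinset) :
      Finset ((ℤ × {t // t ∈ Set.range s}) × (ℤ × {t // t ∈ Set.range s}))), ?_⟩
    rintro ⟨k, t⟩ ⟨k', t'⟩ hadj
    refine ⟨y ^ (-k), by rw [hy]; exact Subgroup.zpow_mem_zpowers y _, ?_⟩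
    have hk : k' = k ∨ k' = k + 1 ∨ k = k' + 1 := by
      rcases hadj with ⟨_, _, e⟩ | ⟨e, _⟩
      · exact Or.inr e
      · exact Or.inl e.symm
    have e : (((k + φ (y ^ (-k)), t), (k' + φ (y ^ (-k)), t')) :
        (ℤ × {t // t ∈ Set.range s}) × (ℤ × {t // t ∈ Set.range s})) ∈
        ((Finset.Icc (-1) 1 ×ˢ hfin.toFinset) ×ˢ (Finset.Icc (-1) 1 ×ˢ hfin.toFinset) :
        Finset ((ℤ × {t // t ∈ Set.range s}) × (ℤ × {t // t ∈ Set.range s}))) := by
      rw [hφy, Finset.mem_product, Finset.mem_product, Finset.mem_product]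
      refine ⟨⟨?_, ?_⟩, ⟨?_, ?_⟩⟩
      · show k + -k ∈ Finset.Icc (-1) 1
        rw [Finset.mem_Icc]; omega
      · simp
      · show k' + -k ∈ Finset.Icc (-1) 1
        rw [Finset.mem_Icc]; omega
      · simp
    exact e
  sig := fun x => x.2.1
  sig_sec := fun x => by
    obtain ⟨i, hi⟩ := x.2.2
    rw [← hi]
    exact hs i
  sig_eq := fun h hh x g => by
    obtain ⟨i, hi⟩ := x.2.2
    show x.2.1 g = h * x.2.1 g * h⁻¹
    rw [← hi, ← hcen _ ((hs i).mem g) h hh, mul_inv_cancel_right]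
  tau := fun a b => if a.2 = ⟨s i1, i1, rfl⟩ then b.2.1 else a.2.1
  tau_sec := fun a b _ => by
    obtain ⟨i, hi⟩ := a.2.2
    obtain ⟨j, hj⟩ := b.2.2
    by_cases h : a.2 = ⟨s i1, i1, rfl⟩
    · rw [if_pos h, ← hj]
      exact hs j
    · rw [if_neg h, ← hi]
      exact hs i
  tau_symm := fun a b hab => by
    rcases hab with ⟨e1, e2, e3⟩ | ⟨e1, ⟨e2, e3⟩ | ⟨e2, e3⟩⟩
    · rw [if_pos e1, if_pos e2, e1, e2]
    · rw [if_pos e2, if_neg e3]
    · rw [if_neg e2, if_pos e3]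
  tau_eq := fun h hh a b _ g => by
    obtain ⟨i, hi⟩ := a.2.2
    obtain ⟨j, hj⟩ := b.2.2
    show (if a.2 = ⟨s i1, i1, rfl⟩ then b.2.1 else a.2.1) g =
      h * (if a.2 = ⟨s i1, i1, rfl⟩ then b.2.1 else a.2.1) g * h⁻¹
    by_cases h' : a.2 = ⟨s i1, i1, rfl⟩
    · rw [if_pos h', ← hj, ← hcen _ ((hs j).mem g) h hh, mul_inv_cancel_right]
    · rw [if_neg h', ← hi, ← hcen _ ((hs i).mem g) h hh, mul_inv_cancel_right]
  p := fun i => (0, ⟨s i, i, rfl⟩)
  p_sig := fun _ => rfl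

theorem gadget_cyclic (hc : Ctx π) {U : Ultrafilter G} (hU : Gen π U) {M : Subgroup Γ}
    (hM : Full π M) (hrk : rk (M ⊓ π.ker) = 1) [Finite I]
    {s : I → (G →* Γ)} (hs : ∀ i, SecIn π M (s i)) {RR : Set (Set I × Option I)}
    (h : ∀ᶠ g in (U : Filter G), ∃ inn UU, IsTower π M g (fun i => s i g) inn UU ∧
      ∀ R ∈ RR, TSat π M (fun i => s i g) inn UU R.1 R.2) :
    ∃ Y : Gadget π M s, ∀ R ∈ RR, Y.Sat R.1 R.2 := by
  classical
  have hcen := central_of_cyclic hc hM hrk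
  obtain ⟨y, hy1, hy⟩ := (rk_one hc hM.fac).1 hrk
  have htf : ∀ k : ℤ, y ^ k = 1 → k = 0 := by
    intro k hk
    by_contra hk0
    have h1 : y ^ k.natAbs = 1 := by
      rcases Int.natAbs_eq k with h | h
      · rw [h, zpow_natCast] at hk
        exact hk
      · rw [h, zpow_neg, zpow_natCast, inv_eq_one] at hk
        exact hk
    exact hy1 (hc.roots y 1 k.natAbs (by omega) (by rw [h1, one_pow]))
  have hinj : ∀ k k' : ℤ, y ^ k = y ^ k' → k = k' := by
    intro k k' hk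
    have := htf (k - k') (by rw [zpow_sub, hk, mul_inv_cancel])
    omega
  have hφex : ∀ m, ∃ k : ℤ, m ∈ M ⊓ π.ker → m = y ^ k := by
    intro m
    by_cases hm : m ∈ M ⊓ π.ker
    · rw [hy] at hm
      obtain ⟨k, hk⟩ := Subgroup.mem_zpowers_iff.1 hm
      exact ⟨k, fun _ => hk.symm⟩
    · exact ⟨0, fun h => absurd h hm⟩
  choose φ hφ using hφex
  have hφadd : ∀ m ∈ M ⊓ π.ker, ∀ m' ∈ M ⊓ π.ker, φ (m * m') = φ m + φ m' := by
    intro m hm m' hm'
    apply hinj
    rw [zpow_add, ← hφ m hm, ← hφ m' hm', ← hφ _ ((M ⊓ π.ker).mul_mem hm hm')]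
  have hφ1 : φ 1 = 0 := by
    have := hφadd 1 (Subgroup.one_mem _) 1 (Subgroup.one_mem _)
    rw [mul_one] at this
    omega
  have hyk : ∀ k : ℤ, y ^ k ∈ M ⊓ π.ker := fun k => by
    rw [hy]
    exact Subgroup.zpow_mem_zpowers y k
  have hφy : ∀ k : ℤ, φ (y ^ k) = k := fun k => (hinj _ _ (hφ _ (hyk k))).symm
  -- the input with the smallest in-time
  have hne : Nonempty I := by
    obtain ⟨g, inn, UU, hT, -⟩ := h.exists
    obtain ⟨N, hN⟩ := hT.top
    have h1 : M ⊓ π.ker ∈ UU N := by rw [hN N le_rfl]; rfl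
    obtain ⟨i, -⟩ := hT.input hc hM h1
    exact ⟨i⟩
  have h2 : ∀ᶠ g in (U : Filter G), ∃ i1 : I, ∃ inn UU, IsTower π M g (fun i => s i g) inn UU ∧
      (∀ R ∈ RR, TSat π M (fun i => s i g) inn UU R.1 R.2) ∧ ∀ i, inn i1 ≤ inn i := by
    filter_upwards [h] with g ⟨inn, UU, hT, hR⟩
    obtain ⟨i1, hi1⟩ := Finite.exists_min inn
    exact ⟨i1, inn, UU, hT, hR, hi1⟩
  obtain ⟨i1, hi1⟩ := Ultrafilter.eventually_exists_iff.1 h2
  let Y := F7a_Y hs i1 hy hcen φ hφ1 hφadd hφ hφy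
  refine ⟨Y, ?_⟩
  -- everything is connected if `i1 ∈ J`
  have hact1 : ∀ J : Set I, i1 ∈ J → ∀ k : ℤ, Y.Act J (k, ⟨s i1, i1, rfl⟩) := by
    intro J hJ k
    refine ⟨i1, hJ, y ^ k, hyk k, ?_⟩
    have e : Y.X.act (y ^ k) (Y.p i1) = (k, ⟨s i1, i1, rfl⟩) := by
      show ((0 + φ (y ^ k), ⟨s i1, i1, rfl⟩) : ℤ × {t // t ∈ Set.range s}) = _
      rw [hφy, zero_add]
    rw [e]
    exact Gadget.Conn.refl _
  have hline : ∀ J : Set I, i1 ∈ J → ∀ k : ℤ,
      Y.Conn J (0, ⟨s i1, i1, rfl⟩) (k, ⟨s i1, i1, rfl⟩) := by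
    intro J hJ k
    have hstep : ∀ k : ℤ, Y.Conn J (k, ⟨s i1, i1, rfl⟩) (k + 1, ⟨s i1, i1, rfl⟩) := by
      intro k
      have hadj : Y.X.G.Adj (k, ⟨s i1, i1, rfl⟩) (k + 1, ⟨s i1, i1, rfl⟩) :=
        Or.inl ⟨rfl, rfl, Or.inl rfl⟩
      refine Gadget.Conn.of_eq Y hadj ?_ ?_ (Or.inl (hact1 J hJ k))
      · exact (if_pos rfl).symm
      · exact (if_pos rfl).symm
    induction k using Int.induction_on with
    | zero => exact Gadget.Conn.refl _
    | succ n ih => exact ih.trans (hstep n)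
    | pred n ih =>
      have := hstep (-(n : ℤ) - 1)
      rw [sub_add_cancel] at this
      exact ih.trans this.symm
  have hline' : ∀ J : Set I, i1 ∈ J → ∀ k k' : ℤ,
      Y.Conn J (k, ⟨s i1, i1, rfl⟩) (k', ⟨s i1, i1, rfl⟩) :=
    fun J hJ k k' => (hline J hJ k).symm.trans (hline J hJ k')
  have hleaf : ∀ J : Set I, i1 ∈ J → ∀ (k : ℤ) (t : {t // t ∈ Set.range s}),
      Y.Conn J (k, ⟨s i1, i1, rfl⟩) (k, t) := by
    intro J hJ k t
    by_cases ht : t = ⟨s i1, i1, rfl⟩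
    · rw [ht]
      exact Gadget.Conn.refl _
    · have hadj : Y.X.G.Adj (k, ⟨s i1, i1, rfl⟩) (k, t) := Or.inr ⟨rfl, Or.inl ⟨rfl, ht⟩⟩
      obtain ⟨i, hi, m, hm, hconn⟩ := hact1 J hJ k
      refine Gadget.Conn.edge hadj (fun g => ?_) (fun g => ?_) hi hm hconn
      · exact hline' J hJ k _
      · have e1 : Y.tau (k, ⟨s i1, i1, rfl⟩) (k, t) = Y.sig (k, t) := if_pos rfl
        rw [e1, mul_inv_cancel, Y.X.act_one]
        exact Gadget.Conn.refl _
  have hall : ∀ J : Set I, i1 ∈ J → ∀ a b : ℤ × {t // t ∈ Set.range s}, Y.Conn J a b := by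
    rintro J hJ ⟨k, t⟩ ⟨k', t'⟩
    exact (hleaf J hJ k t).symm.trans ((hline' J hJ k k').trans (hleaf J hJ k' t'))
  have hsat : ∀ J : Set I, i1 ∈ J → ∀ j, Y.Sat J j := by
    intro J hJ j
    cases j with
    | none => exact ⟨⟨i1, hJ⟩, fun a b _ => hall J hJ a b⟩
    | some j => exact ⟨i1, hJ, 1, Subgroup.one_mem _, hall J hJ _ _⟩
  rintro ⟨J, j⟩ hR
  by_cases hJ : i1 ∈ J
  · exact hsat J hJ j
  -- `i1 ∉ J` : no member can be preserved
  have hno : ∀ (g : G) (inn : I → ℕ∞) (UU : ℕ → Set (Subgroup Γ)),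
      IsTower π M g (fun i => s i g) inn UU → (∀ i, inn i1 ≤ inn i) →
      ∀ t : ℕ, (∀ i, inn i < t → i ∈ J) → ∀ B, B ∉ UU t := by
    intro g inn UU hT hmin t ht B hB
    obtain ⟨i, hi⟩ := hT.input hc hM hB
    exact hJ (ht i1 (lt_of_le_of_lt (hmin i) hi))
  cases j with
  | none =>
    obtain ⟨g, inn, UU, hT, hR', hmin⟩ := hi1.exists
    obtain ⟨t, ht, hB⟩ := hR' _ hR
    exact (hno g inn UU hT hmin t ht _ hB).elim
  | some j =>
    have h3 : ∀ᶠ g in (U : Filter G), ∃ i : I, i ∈ J ∧ s i g = s j g := by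
      filter_upwards [hi1] with g ⟨inn, UU, hT, hR', hmin⟩
      rcases hR' _ hR with ⟨i, hi, v, hv, hvs⟩ | ⟨t, ht, B, hB, -⟩
      · refine ⟨i, hi, ?_⟩
        have hvs' : v * s i g * v⁻¹ = s j g := hvs
        rw [← hvs', ← hcen _ ((hs i).mem g) v hv, mul_inv_cancel_right]
      · exact (hno g inn UU hT hmin t ht B hB).elim
    obtain ⟨i, hi⟩ := Ultrafilter.eventually_exists_iff.1 h3
    have hiJ : i ∈ J := by
      obtain ⟨g, hg⟩ := hi.exists
      exact hg.1
    have htop : MonoidHom.eqLocus (s i) (s j) = ⊤ := by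
      by_contra hne'
      obtain ⟨g, hg1, hg2⟩ := ((hU.sub _ (eq_isol hc (s i) (s j)) hne').and hi).exists
      exact hg1 hg2.2
    have hsij : s i = s j := by
      ext g
      have : g ∈ MonoidHom.eqLocus (s i) (s j) := by rw [htop]; exact Subgroup.mem_top g
      exact this
    refine ⟨i, hiJ, 1, Subgroup.one_mem _, ?_⟩
    have e : Y.X.act 1 (Y.p i) = Y.p j := by
      rw [Y.X.act_one]
      show ((0, ⟨s i, i, rfl⟩) : ℤ × {t // t ∈ Set.range s}) = (0, ⟨s j, j, rfl⟩)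
      congr 1
      exact Subtype.ext hsij
    rw [e]
    exact Gadget.Conn.refl _

end Pool.Agent.Lib.MP_6567fb_al
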