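import Pool.Agent.Lib.MP_6567fb_al.T2b

/-!
# MP_6567fb_al, module T10a

Gluing.  graph_tree: connected: move in the fibres (trees) and along the lifts of base edges (induction on the distance in B of
the projections).  Every edge separates (isTree_of_sep): a base edge (v,w): S = preimage of the half space of v in B; a fibre edge (a,b) over
v: S = {y over v on the side of a in the fibre} ∪ {y over u ≠ v : the attaching vertex att v w, w = first vertex on the path from v to u,
is on the side of a}.  dist_fib: the path in the fibre is a path of the glued graph.  isBlowup.conv: the fibre is connected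
(conv_of_connected) .
-/

set_option autoImplicit false

open scoped Pointwise

namespace Pool.Agent.Lib.MP_6567fb_al

open MTree
namespace MTree
variable {Γ : Type} [Group Γ] {M : Subgroup Γ}
namespace Glue
variable {B : MTree M} (D : Glue B)

theorem induce_eq (v : B.X) : D.graph.induce (D.pr ⁻¹' {v}) = D.GY.induce (D.pr ⁻¹' {v}) := by
  ext x y
  constructor
  · intro h
    rcases h with h | h
    · exact h
    · exfalso
      have h1 := h.1
      have hx : D.pr x = v := x.2
      have hy : D.pr y = v := y.2
      change B.G.Adj (D.pr x) (D.pr y) at h1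
      rw [hx, hy] at h1
      exact B.G.loopless.irrefl _ h1
  · intro h
    exact Or.inl h

theorem reach_fib {v : B.X} {x y : D.Y} (hx : D.pr x = v) (hy : D.pr y = v) : D.graph.Reachable x y := by
  have h := (D.tree v).connected.preconnected ⟨x, hx⟩ ⟨y, hy⟩
  rw [← D.induce_eq v] at h
  exact h.map (SimpleGraph.Embedding.induce (D.pr ⁻¹' {v})).toHom

theorem adj_att {v w : B.X} (h : B.G.Adj v w) : D.graph.Adj (D.att v w) (D.att w v) := by
  refine Or.inr ?_
  rw [D.pr_att v w h, D.pr_att w v h.symm]
  exact ⟨h, rfl, rfl⟩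

theorem reach {v w : B.X} (p : B.G.Walk v w) : ∀ x y : D.Y, D.pr x = v → D.pr y = w → D.graph.Reachable x y := by
  induction p with
  | nil => intro x y hx hy; exact D.reach_fib hx hy
  | @cons u v w h p ih =>
    intro x y hx hy
    have h1 : D.graph.Reachable x (D.att u v) := D.reach_fib hx (D.pr_att u v h)
    have h2 : D.graph.Reachable (D.att u v) (D.att v u) := (D.adj_att h).reachable
    exact (h1.trans h2).trans (ih _ y (D.pr_att v u h.symm) hy)

theorem graph_connected : D.graph.Connected := by
  obtain ⟨v⟩ := B.tree.connected.nonempty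
  obtain ⟨y⟩ := (D.tree v).connected.nonempty
  have : Nonempty D.Y := ⟨y.1⟩
  refine ⟨?_⟩
  intro x y
  obtain ⟨p⟩ := B.tree.connected.preconnected (D.pr x) (D.pr y)
  exact D.reach p x y rfl rfl

/-- the next vertex is the same for adjacent targets -/
theorem next_eq {X : Type} {G : SimpleGraph X} (hG : G.IsTree) {v u u' n n' : X} (hu : v ≠ u) (hu' : v ≠ u')
    (h : G.Adj u u') (hn : G.Adj v n ∧ G.dist n u + 1 = G.dist v u)
    (hn' : G.Adj v n' ∧ G.dist n' u' + 1 = G.dist v u') : n = n' := by
  have key : ∀ (u u' n n' : X), v ≠ u → v ≠ u' → G.Adj u u' → (G.Adj v n ∧ G.dist n u + 1 = G.dist v u) →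
      (G.Adj v n' ∧ G.dist n' u' + 1 = G.dist v u') → G.dist u' v = G.dist u v + 1 → n = n' := by
    intro u u' n n' hu hu' h hn hn' hd
    have h1 : G.dist n u' ≤ G.dist n u + G.dist u u' := hG.connected.dist_triangle
    have h2 : G.dist u u' = 1 := SimpleGraph.dist_eq_one_iff_adj.mpr h
    have h3 : G.dist v u' ≤ G.dist v n + G.dist n u' := hG.connected.dist_triangle
    have h4 : G.dist v n = 1 := SimpleGraph.dist_eq_one_iff_adj.mpr hn.1
    have h5 : G.dist v u' = G.dist v u + 1 := by
      rw [SimpleGraph.dist_comm, hd, SimpleGraph.dist_comm]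
    have h6 : G.dist n u' + 1 = G.dist v u' := by
      have := hn.2
      omega
    exact (TG.exists_unique_next hG hu').unique ⟨hn.1, h6⟩ hn'
  rcases TG.adj_dist hG h v with h1 | h1
  · exact (key u' u n' n hu' hu h.symm hn' hn h1).symm
  · exact key u u' n n' hu hu' h hn hn' h1

theorem graph_tree : D.graph.IsTree := by
  classical
  refine TG.isTree_of_sep D.graph_connected ?_
  intro a b hab
  rcases hab with hab | hab
  · -- fibre edge
    set v := D.pr a with hv
    have hbv : D.pr b = v := (D.fib a b hab).symm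
    let U := D.GY.induce (D.pr ⁻¹' {v})
    have hU : U.IsTree := D.tree v
    let a' : (D.pr ⁻¹' {v} : Set D.Y) := ⟨a, rfl⟩
    let b' : (D.pr ⁻¹' {v} : Set D.Y) := ⟨b, hbv⟩
    have hab' : U.Adj b' a' := hab.symm
    have hex : ∀ u, v ≠ u → ∃ n, B.G.Adj v n ∧ B.G.dist n u + 1 = B.G.dist v u := fun u hu =>
      (TG.exists_unique_next B.tree hu).exists
    choose! nx hnx using hex
    let φ : D.Y → (D.pr ⁻¹' {v} : Set D.Y) := fun y =>
      if h : D.pr y = v then ⟨y, h⟩ else ⟨D.att v (nx (D.pr y)), D.pr_att _ _ (hnx _ (Ne.symm h)).1⟩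
    have φ1 : ∀ y (h : D.pr y = v), φ y = ⟨y, h⟩ := fun y h => dif_pos h
    have φ2 : ∀ y (h : D.pr y ≠ v), φ y = ⟨D.att v (nx (D.pr y)), D.pr_att _ _ (hnx _ (Ne.symm h)).1⟩ :=
      fun y h => dif_neg h
    refine ⟨{y | TG.Beyond U b' a' (φ y)}, ?_, ?_, ?_⟩
    · change TG.Beyond U b' a' (φ a)
      rw [φ1 a rfl]
      change U.dist a' a' < U.dist b' a'
      rw [SimpleGraph.dist_self, SimpleGraph.dist_eq_one_iff_adj.mpr hab']
      exact one_pos
    · change ¬ TG.Beyond U b' a' (φ b)
      rw [φ1 b hbv]
      change ¬ U.dist a' b' < U.dist b' b'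
      rw [SimpleGraph.dist_self]
      exact Nat.not_lt_zero _
    · intro x y hxy hx hy
      have hne : φ x ≠ φ y := by
        intro h
        apply hy
        change TG.Beyond U b' a' (φ y)
        rw [← h]
        exact hx
      change TG.Beyond U b' a' (φ x) at hx
      change ¬ TG.Beyond U b' a' (φ y) at hy
      rcases hxy with hxy | ⟨h1, h2, h3⟩
      · have hp := D.fib x y hxy
        by_cases hxv : D.pr x = v
        · have hyv : D.pr y = v := by rw [← hp]; exact hxv
          rw [φ1 x hxv] at hx
          rw [φ1 y hyv] at hy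
          have hadj : U.Adj ⟨y, hyv⟩ ⟨x, hxv⟩ := hxy.symm
          obtain ⟨e1, e2⟩ := TG.beyond_edge hU hab' hadj hy hx
          refine ⟨?_, ?_⟩
          · exact congrArg Subtype.val e2
          · exact congrArg Subtype.val e1
        · exfalso
          have hyv : D.pr y ≠ v := by rw [← hp]; exact hxv
          apply hne
          rw [φ2 x hxv, φ2 y hyv]
          apply Subtype.ext
          change D.att v (nx (D.pr x)) = D.att v (nx (D.pr y))
          rw [hp]
      · exfalso
        apply hne
        by_cases hxv : D.pr x = v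
        · have hyv : D.pr y ≠ v := by
            intro h
            rw [hxv, h] at h1
            exact B.G.loopless.irrefl _ h1
          rw [φ1 x hxv, φ2 y hyv]
          apply Subtype.ext
          change x = D.att v (nx (D.pr y))
          have hadj : B.G.Adj v (D.pr y) := by rw [← hxv]; exact h1
          have : nx (D.pr y) = D.pr y := by
            refine (TG.exists_unique_next B.tree (Ne.symm hyv)).unique (hnx _ (Ne.symm hyv)) ⟨hadj, ?_⟩
            rw [SimpleGraph.dist_self, SimpleGraph.dist_eq_one_iff_adj.mpr hadj]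
          rw [this, ← hxv]
          exact h2
        · by_cases hyv : D.pr y = v
          · rw [φ1 y hyv, φ2 x hxv]
            apply Subtype.ext
            change D.att v (nx (D.pr x)) = y
            have hadj : B.G.Adj v (D.pr x) := by rw [← hyv]; exact h1.symm
            have : nx (D.pr x) = D.pr x := by
              refine (TG.exists_unique_next B.tree (Ne.symm hxv)).unique (hnx _ (Ne.symm hxv)) ⟨hadj, ?_⟩
              rw [SimpleGraph.dist_self, SimpleGraph.dist_eq_one_iff_adj.mpr hadj]
            rw [this, ← hyv]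
            exact h3.symm
          · rw [φ2 y hyv, φ2 x hxv]
            apply Subtype.ext
            change D.att v (nx (D.pr x)) = D.att v (nx (D.pr y))
            rw [next_eq B.tree (Ne.symm hxv) (Ne.symm hyv) h1 (hnx _ (Ne.symm hxv)) (hnx _ (Ne.symm hyv))]
  · -- base edge
    obtain ⟨h1, h2, h3⟩ := hab
    refine ⟨{z | TG.Beyond B.G (D.pr b) (D.pr a) (D.pr z)}, ?_, ?_, ?_⟩
    · change B.G.dist (D.pr a) (D.pr a) < B.G.dist (D.pr b) (D.pr a)
      rw [SimpleGraph.dist_self, SimpleGraph.dist_eq_one_iff_adj.mpr h1.symm]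
      exact one_pos
    · change ¬ B.G.dist (D.pr a) (D.pr b) < B.G.dist (D.pr b) (D.pr b)
      rw [SimpleGraph.dist_self]
      exact Nat.not_lt_zero _
    · intro x y hxy hx hy
      change TG.Beyond B.G (D.pr b) (D.pr a) (D.pr x) at hx
      change ¬ TG.Beyond B.G (D.pr b) (D.pr a) (D.pr y) at hy
      rcases hxy with hxy | ⟨g1, g2, g3⟩
      · exfalso
        apply hy
        rw [← D.fib x y hxy]
        exact hx
      · obtain ⟨e1, e2⟩ := TG.beyond_edge B.tree h1.symm g1.symm hy hx
        rw [e1, e2] at g2 g3
        exact ⟨g2.trans h2.symm, g3.trans h3.symm⟩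

theorem conv_fib (v : B.X) : TG.Conv D.graph (D.pr ⁻¹' {v}) := by
  refine TG.conv_of_connected D.graph_tree ?_
  rw [D.induce_eq v]
  exact (D.tree v).connected.preconnected

/-- the glued tree -/
def toTree : MTree M where
  X := D.Y
  G := D.graph
  tree := D.graph_tree
  act := D.act
  act_one := D.act_one
  act_mul := D.act_mul
  act_adj := by
    intro m hm x y h
    rcases h with h | ⟨h1, h2, h3⟩
    · exact Or.inl (D.act_adj m hm x y h)
    · refine Or.inr ?_
      rw [D.equi m hm x, D.equi m hm y]
      refine ⟨B.act_adj m hm _ _ h1, ?_, ?_⟩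
      · rw [← D.act_att m hm _ _ h1, ← h2]
      · rw [← D.act_att m hm _ _ h1.symm, ← h3]

theorem isBlowup : IsBlowup D.toTree B D.pr where
  surj := by
    intro v
    obtain ⟨y⟩ := (D.tree v).connected.nonempty
    exact ⟨y.1, y.2⟩
  equi := D.equi
  adj := by
    intro x y h
    rcases h with h | h
    · exact Or.inl (D.fib x y h)
    · exact Or.inr h.1
  lift := by
    intro u v huv
    refine ⟨(D.att u v, D.att v u), ⟨D.adj_att huv, D.pr_att u v huv, D.pr_att v u huv.symm⟩, ?_⟩
    rintro ⟨x, y⟩ ⟨h1, h2, h3⟩
    change D.pr x = u at h2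
    change D.pr y = v at h3
    rcases h1 with h1 | ⟨h4, h5, h6⟩
    · exfalso
      have := D.fib x y h1
      rw [h2, h3] at this
      rw [this] at huv
      exact B.G.loopless.irrefl _ huv
    · change x = D.att (D.pr x) (D.pr y) at h5
      change y = D.att (D.pr y) (D.pr x) at h6
      rw [h2, h3] at h5 h6
      rw [Prod.mk.injEq]
      exact ⟨h5, h6⟩
  conv := D.conv_fib

/-- distances in the fibres do not change -/
theorem dist_fib (v : B.X) (x y : D.pr ⁻¹' {v}) :
    D.graph.dist (x : D.Y) y = (D.GY.induce (D.pr ⁻¹' {v})).dist x y := by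
  have h := TG.induce_conv D.graph_tree (D.conv_fib v) ⟨x.1, x.2⟩
  rw [← h.2 x y, D.induce_eq v]

end Glue
end MTree

end Pool.Agent.Lib.MP_6567fb_al
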