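import Pool.Agent.Lib.MP_6567fb_al.F0
import Pool.Agent.Lib.MP_6567fb_al.F7b
import Pool.Agent.Lib.MP_6567fb_al.T10a
import Pool.Agent.Lib.MP_6567fb_al.T10c

/-!
# MP_6567fb_al, module F7c

Gluing of gadgets. For `x` in `T.X` let `r x ∈ R` be the representative and `k x ∈ H = M ⊓ F` with `k x (r x) = x`, `k x = 1`
for `x ∈ R`. The vertices over `x` are the vertices of the local tree `U (r x)`, transported by `k x`
(`glD`); then free orbits of leaves are added (`leafD`).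
-/

set_option autoImplicit false

open scoped Pointwise
open Filter

namespace Pool.Agent.Lib.MP_6567fb_al

open MTree

namespace F7c

/-! ### adding leaves -/
section leaves
variable {Γ : Type} [Group Γ] {H : Subgroup Γ} (T : MTree H) {L : Type} (actL : Γ → L → L) (β : L → T.X)

/-- the edges between a leaf and its base vertex -/
def leafG : SimpleGraph (T.X ⊕ L) where
  Adj
    | Sum.inl v, Sum.inr l => β l = v
    | Sum.inr l, Sum.inl v => β l = v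
    | _, _ => False
  symm := ⟨fun a b h => by cases a <;> cases b <;> exact h⟩
  loopless := ⟨fun a h => by cases a <;> exact h⟩

theorem leaf_star (v : T.X) : ((leafG T β).induce ((Sum.elim id β) ⁻¹' {v})).IsTree := by
  have hc : ((leafG T β).induce ((Sum.elim id β) ⁻¹' {v})).Connected := by
    have h0 : Nonempty ((Sum.elim id β : T.X ⊕ L → T.X) ⁻¹' {v}) := ⟨⟨Sum.inl v, rfl⟩⟩
    refine ⟨?_⟩
    have key : ∀ x : ((Sum.elim id β : T.X ⊕ L → T.X) ⁻¹' {v} : Set (T.X ⊕ L)),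
        ((leafG T β).induce ((Sum.elim id β) ⁻¹' {v})).Reachable x ⟨Sum.inl v, rfl⟩ := by
      rintro ⟨x, hx⟩
      rcases x with x | l
      · have hx' : x = v := hx
        subst hx'
        exact SimpleGraph.Reachable.refl _
      · have hl : β l = v := hx
        refine SimpleGraph.Adj.reachable ?_
        exact hl
    intro x y
    exact (key x).trans (key y).symm
  refine TG.isTree_of_sep hc ?_
  have key : ∀ (a b : ((Sum.elim id β : T.X ⊕ L → T.X) ⁻¹' {v} : Set (T.X ⊕ L))),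
      ((leafG T β).induce ((Sum.elim id β) ⁻¹' {v})).Adj a b → (∃ l, a.1 = Sum.inr l ∧ b.1 = Sum.inl v) ∨
        ∃ l, a.1 = Sum.inl v ∧ b.1 = Sum.inr l := by
    rintro ⟨a, ha⟩ ⟨b, hb⟩ hab
    rcases a with a | a <;> rcases b with b | b
    · exact absurd hab id
    · exact Or.inr ⟨b, congrArg Sum.inl (ha : a = v), rfl⟩
    · exact Or.inl ⟨a, rfl, congrArg Sum.inl (hb : b = v)⟩
    · exact absurd hab id
  intro a b hab
  rcases key a b hab with ⟨l, h1, h2⟩ | ⟨l, h1, h2⟩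
  · refine ⟨{a}, rfl, ?_, ?_⟩
    · intro h
      have h3 : b = a := h
      rw [h3, h1] at h2
      exact Sum.inr_ne_inl h2
    · intro x y hxy hx _
      have hx' : x = a := hx
      refine ⟨hx', ?_⟩
      rcases key x y hxy with ⟨l', h3, h4⟩ | ⟨l', h3, h4⟩
      · exact Subtype.ext (h4.trans h2.symm)
      · rw [hx', h1] at h3
        exact absurd h3 Sum.inr_ne_inl
  · refine ⟨{x | x ≠ b}, ?_, fun h => h rfl, ?_⟩
    · intro h
      rw [h, h2] at h1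
      exact absurd h1 Sum.inr_ne_inl
    · intro x y hxy _ hy
      have hy' : y = b := not_not.1 hy
      refine ⟨?_, hy'⟩
      rcases key x y hxy with ⟨l', h3, h4⟩ | ⟨l', h3, h4⟩
      · rw [hy', h2] at h4
        exact absurd h4 Sum.inr_ne_inl
      · exact Subtype.ext (h3.trans h1.symm)

variable (act_one : ∀ l, actL 1 l = l)
  (act_mul : ∀ m ∈ H, ∀ m' ∈ H, ∀ l, actL (m * m') l = actL m (actL m' l))
  (hβ : ∀ m ∈ H, ∀ l, β (actL m l) = T.act m (β l))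

/-- adding leaves as a gluing -/
def leafD : Glue T where
  Y := T.X ⊕ L
  GY := leafG T β
  act := fun m => Sum.map (T.act m) (actL m)
  pr := Sum.elim id β
  att := fun v _ => Sum.inl v
  act_one := by
    rintro (x | l)
    · exact congrArg Sum.inl (T.act_one x)
    · exact congrArg Sum.inr (act_one l)
  act_mul := by
    rintro m hm m' hm' (x | l)
    · exact congrArg Sum.inl (T.act_mul m hm m' hm' x)
    · exact congrArg Sum.inr (act_mul m hm m' hm' l)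
  act_adj := by
    rintro m hm (x | l) (x' | l') h
    · exact absurd h id
    · have h' : β l' = x := h
      change β (actL m l') = T.act m x
      rw [hβ m hm, h']
    · have h' : β l = x' := h
      change β (actL m l) = T.act m x'
      rw [hβ m hm, h']
    · exact absurd h id
  equi := by
    rintro m hm (x | l)
    · rfl
    · exact hβ m hm l
  fib := by
    rintro (x | l) (x' | l') h
    · exact absurd h id
    · have h' : β l' = x := h
      exact h'.symm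
    · exact h
    · exact absurd h id
  tree := leaf_star T β
  pr_att := fun v w _ => rfl
  act_att := fun m _ v w _ => rfl

end leaves

/-! ### gluing the local trees -/
section glue
variable {Γ : Type} [Group Γ] {M F : Subgroup Γ} (T : MTree M) {R : Set T.X}

variable (F) in
/-- representatives -/
structure Dat (R : Set T.X) where
  r : T.X → {x // x ∈ R}
  k : T.X → Γ
  hk : ∀ v, k v ∈ M ⊓ F
  hkr : ∀ v, T.act (k v) (r v).1 = v
  hr : ∀ m ∈ M ⊓ F, ∀ v, r (T.act m v) = r v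
  hR : ∀ x : {x // x ∈ R}, r x.1 = x
  hk1 : ∀ x : {x // x ∈ R}, k x.1 = 1

theorem dat_exists (R_rep : ∀ x, ∃ x' ∈ R, ∃ h ∈ M ⊓ F, T.act h x' = x)
    (R_inj : ∀ x ∈ R, ∀ x' ∈ R, ∀ h ∈ M ⊓ F, T.act h x = x' → x = x') : Nonempty (Dat F T R) := by
  classical
  have h1 : ∀ v, ∃ x : {x // x ∈ R}, ∃ h ∈ M ⊓ F, T.act h x.1 = v ∧ (v ∈ R → x.1 = v ∧ h = 1) := by
    intro v
    by_cases hv : v ∈ R
    · exact ⟨⟨v, hv⟩, 1, (M ⊓ F).one_mem, T.act_one v, fun _ => ⟨rfl, rfl⟩⟩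
    · obtain ⟨x, hx, h, hh, e⟩ := R_rep v
      exact ⟨⟨x, hx⟩, h, hh, e, fun h => absurd h hv⟩
  choose r k hk hkr h1 using h1
  refine ⟨⟨r, k, hk, hkr, ?_, fun x => Subtype.ext (h1 x.1 x.2).1, fun x => (h1 x.1 x.2).2⟩⟩
  intro m hm v
  apply Subtype.ext
  refine R_inj _ (r (T.act m v)).2 _ (r v).2 ((k v)⁻¹ * m⁻¹ * k (T.act m v)) ?_ ?_
  · exact (M ⊓ F).mul_mem ((M ⊓ F).mul_mem ((M ⊓ F).inv_mem (hk v)) ((M ⊓ F).inv_mem hm)) (hk _)
  · have e1 : (k v)⁻¹ ∈ M := M.inv_mem (hk v).1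
    have e2 : m⁻¹ ∈ M := M.inv_mem hm.1
    rw [T.act_mul _ (M.mul_mem e1 e2) _ (hk _).1, hkr, T.act_mul _ e1 _ e2, T.act_inv_act hm.1]
    nth_rewrite 2 [← hkr v]
    rw [T.act_inv_act (hk v).1]

variable {T} (A : Dat F T R) (U : ∀ x : {x // x ∈ R}, MTree (T.stab x.1 ⊓ F))

theorem Dat.coc {m : Γ} (hm : m ∈ M ⊓ F) (v : T.X) :
    (A.k (T.act m v))⁻¹ * m * A.k v ∈ T.stab (A.r v).1 ⊓ F := by
  have h1 : (A.k (T.act m v))⁻¹ ∈ M ⊓ F := (M ⊓ F).inv_mem (A.hk _)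
  have h2 := (M ⊓ F).mul_mem ((M ⊓ F).mul_mem h1 hm) (A.hk v)
  refine ⟨⟨h2.1, ?_⟩, h2.2⟩
  rw [T.act_mul _ (M.mul_mem h1.1 hm.1) _ (A.hk v).1, A.hkr v, T.act_mul _ h1.1 _ hm.1]
  have h3 := A.hkr (T.act m v)
  rw [A.hr m hm v] at h3
  nth_rewrite 2 [← h3]
  exact T.act_inv_act (A.hk _).1 _

/-- graph on the disjoint union of the vertex trees -/
def SG : SimpleGraph (Σ s, (U s).X) where
  Adj p q := ∃ s, ∃ u u' : (U s).X, p = ⟨s, u⟩ ∧ q = ⟨s, u'⟩ ∧ (U s).G.Adj u u'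
  symm := ⟨by
    rintro p q ⟨s, u, u', h1, h2, h3⟩
    exact ⟨s, u', u, h2, h1, h3.symm⟩⟩
  loopless := ⟨by
    rintro p ⟨s, u, u', h1, h2, h3⟩
    rw [h1] at h2
    have : u = u' := eq_of_heq (Sigma.mk.inj h2).2
    rw [this] at h3
    exact (U s).G.loopless.irrefl _ h3⟩

theorem SG_adj (s : {x // x ∈ R}) (u u' : (U s).X) : (SG U).Adj ⟨s, u⟩ ⟨s, u'⟩ ↔ (U s).G.Adj u u' := by
  constructor
  · rintro ⟨t, a, b, h1, h2, h3⟩
    obtain ⟨rfl, h1⟩ := Sigma.mk.inj h1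
    have h1 := eq_of_heq h1
    have h2 := eq_of_heq (Sigma.mk.inj h2).2
    rw [h1, h2]
    exact h3
  · intro h
    exact ⟨s, u, u', rfl, rfl, h⟩

variable (att : ∀ x : {x // x ∈ R}, T.X → (U x).X)
  (hatt : ∀ x : {x // x ∈ R}, ∀ m ∈ T.stab x.1 ⊓ F, ∀ w, T.G.Adj x.1 w →
      att x (T.act m w) = (U x).act m (att x w))

/-- the vertices over all vertices of `T` -/
abbrev GY : Type := {p : T.X × (Σ s, (U s).X) // p.2.1 = A.r p.1}

/-- the fibre graph -/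
def GYG : SimpleGraph (GY A U) where
  Adj := fun p q => p.1.1 = q.1.1 ∧ (SG U).Adj p.1.2 q.1.2
  symm := ⟨fun p q h => ⟨h.1.symm, h.2.symm⟩⟩
  loopless := ⟨fun p h => (SG U).loopless.irrefl _ h.2⟩

open Classical in
/-- the action -/
noncomputable def GYact (m : Γ) (y : GY A U) : GY A U :=
  if hm : m ∈ M ⊓ F then
      ⟨(T.act m y.1.1, ⟨y.1.2.1, (U y.1.2.1).act ((A.k (T.act m y.1.1))⁻¹ * m * A.k y.1.1) y.1.2.2⟩),
        y.2.trans (A.hr m hm _).symm⟩ else y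

theorem GYact_mk {m : Γ} (hm : m ∈ M ⊓ F) (v : T.X) (s : {x // x ∈ R}) (u : (U s).X) (h : s = A.r v) :
    GYact A U m ⟨(v, ⟨s, u⟩), h⟩
      = ⟨(T.act m v, ⟨s, (U s).act ((A.k (T.act m v))⁻¹ * m * A.k v) u⟩), h.trans (A.hr m hm _).symm⟩ :=
  dif_pos hm

/-- the attaching vertex over `v` of the edge `(v,w)` -/
def gatt (v w : T.X) : GY A U := ⟨(v, ⟨A.r v, att (A.r v) (T.act (A.k v)⁻¹ w)⟩), rfl⟩

include hatt in
theorem gl_att {m : Γ} (hm : m ∈ M ⊓ F) (v w : T.X) (hvw : T.G.Adj v w) :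
    GYact A U m (gatt A U att v w) = gatt A U att (T.act m v) (T.act m w) := by
  refine (GYact_mk A U hm v (A.r v) _ rfl).trans ?_
  apply Subtype.ext
  change (T.act m v, (⟨A.r v, (U (A.r v)).act ((A.k (T.act m v))⁻¹ * m * A.k v)
      (att (A.r v) (T.act (A.k v)⁻¹ w))⟩ : Σ s, (U s).X))
      = (T.act m v, ⟨A.r (T.act m v), att (A.r (T.act m v)) (T.act (A.k (T.act m v))⁻¹ (T.act m w))⟩)
  have h0 : (A.k v)⁻¹ ∈ M := M.inv_mem (A.hk v).1
  have h0' : (A.k (T.act m v))⁻¹ ∈ M := M.inv_mem (A.hk _).1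
  have h1 : T.G.Adj (A.r v).1 (T.act (A.k v)⁻¹ w) := by
    have := T.act_adj _ h0 _ _ hvw
    have h2 : T.act (A.k v)⁻¹ v = (A.r v).1 := by
      nth_rewrite 2 [← A.hkr v]
      exact T.act_inv_act (A.hk v).1 _
    rw [h2] at this
    exact this
  have h2 := hatt (A.r v) _ (A.coc hm v) _ h1
  have h3 : T.act ((A.k (T.act m v))⁻¹ * m * A.k v) (T.act (A.k v)⁻¹ w)
      = T.act (A.k (T.act m v))⁻¹ (T.act m w) := by
    rw [T.act_mul _ (M.mul_mem h0' hm.1) _ (A.hk v).1, T.act_act_inv (A.hk v).1, T.act_mul _ h0' _ hm.1]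
  rw [h3] at h2
  rw [← h2, A.hr m hm v]

/-- the gluing -/
noncomputable def glD : Glue (T.res (inf_le_left : M ⊓ F ≤ M)) where
  Y := GY A U
  GY := GYG A U
  act := GYact A U
  pr := fun y => y.1.1
  att := gatt A U att
  act_one := by
    rintro ⟨⟨v, ⟨s, u⟩⟩, h⟩
    rw [GYact_mk A U (M ⊓ F).one_mem]
    apply Subtype.ext
    change (T.act 1 v, (⟨s, (U s).act ((A.k (T.act 1 v))⁻¹ * 1 * A.k v) u⟩ : Σ s, (U s).X)) = (v, ⟨s, u⟩)
    rw [T.act_one, mul_one, inv_mul_cancel, (U s).act_one]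
  act_mul := by
    rintro m hm m' hm' ⟨⟨v, ⟨s, u⟩⟩, h⟩
    change s = A.r v at h
    rw [GYact_mk A U ((M ⊓ F).mul_mem hm hm'), GYact_mk A U hm', GYact_mk A U hm]
    apply Subtype.ext
    change (T.act (m * m') v, (⟨s, (U s).act ((A.k (T.act (m * m') v))⁻¹ * (m * m') * A.k v) u⟩ : Σ s, (U s).X)) =
      (T.act m (T.act m' v), ⟨s, (U s).act ((A.k (T.act m (T.act m' v)))⁻¹ * m * A.k (T.act m' v))
        ((U s).act ((A.k (T.act m' v))⁻¹ * m' * A.k v) u)⟩)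
    have e1 : (A.k (T.act m (T.act m' v)))⁻¹ * m * A.k (T.act m' v) ∈ T.stab s.1 ⊓ F := by
      have := A.coc hm (T.act m' v)
      rw [A.hr m' hm' v, ← h] at this
      exact this
    have e2 : (A.k (T.act m' v))⁻¹ * m' * A.k v ∈ T.stab s.1 ⊓ F := by
      rw [h]
      exact A.coc hm' v
    rw [← (U s).act_mul _ e1 _ e2, T.act_mul m hm.1 m' hm'.1 v]
    have e3 : (A.k (T.act m (T.act m' v)))⁻¹ * (m * m') * A.k v =
      (A.k (T.act m (T.act m' v)))⁻¹ * m * A.k (T.act m' v) * ((A.k (T.act m' v))⁻¹ * m' * A.k v) := by group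
    rw [e3]
  act_adj := by
    rintro m hm ⟨⟨v, ⟨s, u⟩⟩, h⟩ ⟨⟨v', ⟨s', u'⟩⟩, h'⟩ ⟨h1, h2⟩
    change s = A.r v at h
    change s' = A.r v' at h'
    change v = v' at h1
    subst h1
    obtain rfl : s = s' := h.trans h'.symm
    rw [GYact_mk A U hm, GYact_mk A U hm]
    refine ⟨rfl, ?_⟩
    change (SG U).Adj ⟨s, _⟩ ⟨s, _⟩
    rw [SG_adj]
    have h3 : (U s).G.Adj u u' := (SG_adj U s u u').mp h2
    refine (U s).act_adj _ ?_ _ _ h3
    have h4 := A.coc hm v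
    rw [← h] at h4
    exact h4
  equi := by
    rintro m hm ⟨⟨v, ⟨s, u⟩⟩, h⟩
    rw [GYact_mk A U hm]
    rfl
  fib := fun x y h => h.1
  tree := by
    intro v
    let e : (U (A.r v)).G ≃g SimpleGraph.induce ((fun y : GY A U => y.1.1) ⁻¹' {v}) (GYG A U) :=
      { toEquiv := Equiv.ofBijective (fun u => ⟨⟨(v, ⟨A.r v, u⟩), rfl⟩, rfl⟩) (by
          constructor
          · intro a b hab
            have h1 := congrArg (fun z => z.1.1.2) hab
            exact eq_of_heq (Sigma.mk.inj h1).2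
          · rintro ⟨⟨⟨v', ⟨s, u⟩⟩, h⟩, hv⟩
            change v' = v at hv
            subst hv
            change s = A.r v' at h
            subst h
            exact ⟨u, rfl⟩)
        map_rel_iff' := by
          intro a b
          constructor
          · intro h
            exact (SG_adj U (A.r v) a b).mp h.2
          · intro h
            exact ⟨rfl, (SG_adj U (A.r v) a b).mpr h⟩ }
    exact (SimpleGraph.Iso.isTree_iff e).mp (U (A.r v)).tree
  pr_att := fun v w _ => rfl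
  act_att := by
    exact fun m hm v w hvw => gl_att A U att hatt hm v w hvw

end glue


/-! ### the gadget -/
section gadget
variable {Γ G : Type} [Group Γ] [Group G] {π : Γ →* G}

/-- conjugate of a section -/
def cj (h : Γ) (s : G →* Γ) : G →* Γ := (MulAut.conj h).toMonoidHom.comp s

theorem cj_apply (h : Γ) (s : G →* Γ) (g : G) : cj h s g = h * s g * h⁻¹ := rfl

theorem cj_one (s : G →* Γ) : cj 1 s = s := by
  refine MonoidHom.ext fun g => ?_
  rw [cj_apply, one_mul, inv_one, mul_one]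

theorem SecIn.cj {M : Subgroup Γ} {s : G →* Γ} (hs : SecIn π M s) {h : Γ} (hh : h ∈ M ⊓ π.ker) :
    SecIn π M (cj h s) := by
  refine ⟨fun g => ?_, fun g => ?_⟩
  · rw [cj_apply, map_mul, map_mul, map_inv, (MonoidHom.mem_ker.1 hh.2), hs.sec g, one_mul, inv_one, mul_one]
  · rw [cj_apply]
    exact M.mul_mem (M.mul_mem hh.1 (hs.mem g)) (M.inv_mem hh.1)

variable {I : Type} {M : Subgroup Γ} {T : MTree M} {s : I → (G →* Γ)}
    {ell : I → Prop} {xi : I → T.X} {R : Set T.X} {E : T.X → Finset T.X}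

/-- an element of `H_x` moving a representative edge to a representative edge is trivial -/
theorem rep_unique (St : Step π T s ell xi R E) (x : {x // x ∈ R}) {m : Γ}
    (hm : m ∈ T.stab x.1 ⊓ π.ker) {y y' : T.X} (hy : y ∈ E x.1) (hy' : y' ∈ E x.1)
    (h : T.act m y = y') : y = y' ∧ m = 1 := by
  have h1 : y = y' := (St.reps x.1 x.2).inj y hy y' hy' m hm h
  refine ⟨h1, ?_⟩
  rw [← h1] at h
  exact St.split.free m ⟨hm.1.1, hm.2⟩ x.1 y ((St.reps x.1 x.2).adj y hy) hm.1.2 h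

theorem att_exists (St : Step π T s ell xi R E)
    (Yx : ∀ x : {x // x ∈ R}, Gadget π (T.stab x.1) (lsec π T s ell xi x.1 (E x.1))) :
    ∃ att : ∀ x : {x // x ∈ R}, T.X → (Yx x).X.X, ∀ (x : {x // x ∈ R}) (y : {y // y ∈ E x.1}),
      ∀ u ∈ T.stab x.1 ⊓ π.ker, att x (T.act u y.1) = (Yx x).X.act u ((Yx x).p (Sum.inl y)) := by
  classical
  have h1 : ∀ (x : {x // x ∈ R}) (w : T.X), ∃ q : (Yx x).X.X, ∀ (y : {y // y ∈ E x.1}),
      ∀ u ∈ T.stab x.1 ⊓ π.ker, T.act u y.1 = w → q = (Yx x).X.act u ((Yx x).p (Sum.inl y)) := by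
    intro x w
    by_cases h : ∃ (y : {y // y ∈ E x.1}), ∃ u ∈ T.stab x.1 ⊓ π.ker, T.act u y.1 = w
    · obtain ⟨y, u, hu, e⟩ := h
      refine ⟨(Yx x).X.act u ((Yx x).p (Sum.inl y)), fun y' u' hu' e' => ?_⟩
      have h2 : T.act (u'⁻¹ * u) y.1 = y'.1 := by
        rw [T.act_mul _ (M.inv_mem hu'.1.1) _ hu.1.1, e, ← e', T.act_inv_act hu'.1.1]
      have h3 := rep_unique St x
        ((T.stab x.1 ⊓ π.ker).mul_mem ((T.stab x.1 ⊓ π.ker).inv_mem hu') hu) y.2 y'.2 h2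
      have h4 : y = y' := Subtype.ext h3.1
      have h5 : u' = u := inv_mul_eq_one.1 h3.2
      rw [h4, h5]
    · obtain ⟨q⟩ := (Yx x).X.tree.connected.nonempty
      exact ⟨q, fun y u hu e => absurd ⟨y, u, hu, e⟩ h⟩
  choose att hatt using h1
  exact ⟨att, fun x y u hu => hatt x _ y u hu rfl⟩

section
variable (St : Step π T s ell xi R E)
    (Yx : ∀ x : {x // x ∈ R}, Gadget π (T.stab x.1) (lsec π T s ell xi x.1 (E x.1)))
    (att : ∀ x : {x // x ∈ R}, T.X → (Yx x).X.X)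
    (hatt : ∀ (x : {x // x ∈ R}) (y : {y // y ∈ E x.1}),
      ∀ u ∈ T.stab x.1 ⊓ π.ker, att x (T.act u y.1) = (Yx x).X.act u ((Yx x).p (Sum.inl y)))

include St hatt in
theorem att_equi (x : {x // x ∈ R}) (m : Γ) (hm : m ∈ T.stab x.1 ⊓ π.ker) (w : T.X)
    (hw : T.G.Adj x.1 w) : att x (T.act m w) = (Yx x).X.act m (att x w) := by
  obtain ⟨y, hy, u, hu, rfl⟩ := (St.reps x.1 x.2).rep w hw
  rw [hatt x ⟨y, hy⟩ u hu, ← T.act_mul _ hm.1.1 _ hu.1.1, hatt x ⟨y, hy⟩ (m * u)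
    ((T.stab x.1 ⊓ π.ker).mul_mem hm hu), (Yx x).X.act_mul _ hm _ hu]

include hatt in
theorem att_rep (x : {x // x ∈ R}) (y : {y // y ∈ E x.1}) : att x y.1 = (Yx x).p (Sum.inl y) := by
  have := hatt x y 1 (Subgroup.one_mem _)
  rwa [T.act_one, (Yx x).X.act_one] at this

/-- an element of `M ⊓ F` conjugated by representatives -/
theorem k_one (A : Dat π.ker T R) (x : {x // x ∈ R}) {m : Γ} (hm : m ∈ T.stab x.1) :
    (A.k (T.act m x.1))⁻¹ * m * A.k x.1 = m := by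
  rw [hm.2, A.hk1, inv_one, one_mul, mul_one]

variable (A : Dat π.ker T R)

/-- the vertices of the glued tree without leaves -/
abbrev V0 : Type := GY A (fun x => (Yx x).X)

/-- inclusion of the local trees -/
def io (x : {x // x ∈ R}) (q : (Yx x).X.X) : V0 Yx A := ⟨(x.1, ⟨x, q⟩), (A.hR x).symm⟩

/-- action of `M ⊓ ker` -/
noncomputable abbrev va (m : Γ) (y : V0 Yx A) : V0 Yx A := GYact A (fun x => (Yx x).X) m y

/-- attaching vertices -/
abbrev ga (v w : T.X) : V0 Yx A := gatt A (fun x => (Yx x).X) att v w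

theorem va_io (x : {x // x ∈ R}) {m : Γ} (hm : m ∈ T.stab x.1 ⊓ π.ker) (q : (Yx x).X.X) :
    va Yx A m (io Yx A x q) = io Yx A x ((Yx x).X.act m q) := by
  refine (GYact_mk A (fun x => (Yx x).X) (show m ∈ M ⊓ π.ker from ⟨hm.1.1, hm.2⟩) x.1 x q (A.hR x).symm).trans ?_
  apply Subtype.ext
  rw [k_one A x hm.1]
  change (T.act m x.1, (⟨x, _⟩ : Σ s : {x // x ∈ R}, (Yx s).X.X)) = (x.1, ⟨x, _⟩)
  rw [hm.1.2]

/-- every vertex is the translate of a vertex of a local tree -/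
theorem va_k (v : T.X) (x : {x // x ∈ R}) (q : (Yx x).X.X) (h : x = A.r v) :
    va Yx A (A.k v) (io Yx A x q) = ⟨(v, ⟨x, q⟩), h⟩ := by
  subst h
  refine (GYact_mk A (fun x => (Yx x).X) (A.hk v) (A.r v).1 (A.r v) q (A.hR (A.r v)).symm).trans ?_
  apply Subtype.ext
  change (T.act (A.k v) (A.r v).1, (⟨A.r v, (Yx (A.r v)).X.act ((A.k (T.act (A.k v) (A.r v).1))⁻¹ * A.k v
    * A.k (A.r v).1) q⟩ : Σ s : {x // x ∈ R}, (Yx s).X.X)) = (v, ⟨A.r v, q⟩)
  rw [A.hkr, A.hk1, mul_one, inv_mul_cancel, (Yx (A.r v)).X.act_one]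

/-- attaching vertex at a representative -/
theorem ga_rep (x : {x // x ∈ R}) (w : T.X) : ga Yx att A x.1 w = io Yx A x (att x w) := by
  apply Subtype.ext
  change (x.1, (⟨A.r x.1, att (A.r x.1) (T.act (A.k x.1)⁻¹ w)⟩ : Σ s : {x // x ∈ R}, (Yx s).X.X))
    = (x.1, ⟨x, att x w⟩)
  rw [A.hk1, inv_one, T.act_one, A.hR]

include hatt in
theorem ga_rep' (x : {x // x ∈ R}) (y : {y // y ∈ E x.1}) :
    ga Yx att A x.1 y.1 = io Yx A x ((Yx x).p (Sum.inl y)) := by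
  rw [ga_rep, att_rep Yx att hatt]

include St hatt in
theorem va_ga {m : Γ} (hm : m ∈ M ⊓ π.ker) {v w : T.X} (h : T.G.Adj v w) :
    va Yx A m (ga Yx att A v w) = ga Yx att A (T.act m v) (T.act m w) :=
  gl_att A (fun x => (Yx x).X) att (att_equi St Yx att hatt) hm v w h

/-- the glued tree without leaves -/
noncomputable def T1 : MTree (M ⊓ π.ker) :=
  (glD A (fun x => (Yx x).X) att (att_equi St Yx att hatt)).toTree

theorem T1_adj (y y' : V0 Yx A) : (T1 St Yx att hatt A).G.Adj y y' ↔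
    (y.1.1 = y'.1.1 ∧ (SG (fun x => (Yx x).X)).Adj y.1.2 y'.1.2) ∨
      (T.G.Adj y.1.1 y'.1.1 ∧ y = ga Yx att A y.1.1 y'.1.1 ∧ y' = ga Yx att A y'.1.1 y.1.1) := Iff.rfl

theorem T1_act (m : Γ) (y : V0 Yx A) : (T1 St Yx att hatt A).act m y = va Yx A m y := rfl

/-- sections at the vertices -/
noncomputable def sigV (y : V0 Yx A) : G →* Γ := cj (A.k y.1.1) ((Yx y.1.2.1).sig y.1.2.2)

theorem sigV_act {m : Γ} (hm : m ∈ M ⊓ π.ker) (y : V0 Yx A) : sigV Yx A (va Yx A m y) = cj m (sigV Yx A y) := by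
  obtain ⟨⟨v, ⟨x, q⟩⟩, h⟩ := y
  change x = A.r v at h
  rw [show va Yx A m ⟨(v, ⟨x, q⟩), h⟩ = _ from GYact_mk A (fun x => (Yx x).X) hm v x q h]
  refine MonoidHom.ext fun g => ?_
  change A.k (T.act m v) * (Yx x).sig ((Yx x).X.act ((A.k (T.act m v))⁻¹ * m * A.k v) q) g * (A.k (T.act m v))⁻¹
    = m * (A.k v * (Yx x).sig q g * (A.k v)⁻¹) * m⁻¹
  have h1 := A.coc hm v
  rw [← h] at h1
  rw [(Yx x).sig_eq _ h1]
  group

theorem sigV_io (x : {x // x ∈ R}) (q : (Yx x).X.X) : sigV Yx A (io Yx A x q) = (Yx x).sig q := by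
  change cj (A.k x.1) ((Yx x).sig q) = _
  rw [A.hk1, cj_one]

theorem sigV_sec (y : V0 Yx A) : SecIn π M (sigV Yx A y) :=
  SecIn.cj ⟨((Yx y.1.2.1).sig_sec y.1.2.2).sec, fun g => (((Yx y.1.2.1).sig_sec y.1.2.2).mem g).1⟩ (A.hk _)

open Classical in
/-- sections at the fibre edges -/
noncomputable def tauS (p q : Σ x : {x // x ∈ R}, (Yx x).X.X) : G →* Γ :=
  if h : p.1 = q.1 then (Yx q.1).tau (h ▸ p.2) q.2 else 1

theorem tauS_mk (x : {x // x ∈ R}) (a b : (Yx x).X.X) : tauS Yx ⟨x, a⟩ ⟨x, b⟩ = (Yx x).tau a b := dif_pos rfl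

open Classical in
/-- sections at the edges -/
noncomputable def tauV (y y' : V0 Yx A) : G →* Γ :=
  if y.1.1 = y'.1.1 then cj (A.k y.1.1) (tauS Yx y.1.2 y'.1.2) else eSec π T y.1.1 y'.1.1

theorem tauV_fib (v : T.X) (x : {x // x ∈ R}) (a b : (Yx x).X.X) (h : x = A.r v) :
    tauV Yx A ⟨(v, ⟨x, a⟩), h⟩ ⟨(v, ⟨x, b⟩), h⟩ = cj (A.k v) ((Yx x).tau a b) := by
  unfold tauV
  rw [if_pos rfl, tauS_mk]

theorem tauV_edge {v w : T.X} (h : T.G.Adj v w) :
    tauV Yx A (ga Yx att A v w) (ga Yx att A w v) = eSec π T v w := by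
  unfold tauV
  exact if_neg h.ne

/-- two kinds of edges -/
theorem T1_cases {y y' : V0 Yx A} (h : (T1 St Yx att hatt A).G.Adj y y') :
    (∃ (v : T.X) (x : {x // x ∈ R}) (a b : (Yx x).X.X) (h : x = A.r v), (Yx x).X.G.Adj a b ∧
      y = ⟨(v, ⟨x, a⟩), h⟩ ∧ y' = ⟨(v, ⟨x, b⟩), h⟩) ∨
    ∃ v w, T.G.Adj v w ∧ y = ga Yx att A v w ∧ y' = ga Yx att A w v := by
  rw [T1_adj] at h
  rcases h with ⟨h1, x, a, b, h2, h3, h4⟩ | ⟨h1, h2, h3⟩
  · left
    obtain ⟨⟨v, p⟩, h⟩ := y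
    obtain ⟨⟨v', p'⟩, h'⟩ := y'
    change v = v' at h1
    change p = _ at h2
    change p' = _ at h3
    subst h1 h2 h3
    exact ⟨v, x, a, b, h, h4, rfl, rfl⟩
  · exact Or.inr ⟨_, _, h1, h2, h3⟩

theorem T1_adj_fib (v : T.X) (x : {x // x ∈ R}) {a b : (Yx x).X.X} (h : x = A.r v) (hab : (Yx x).X.G.Adj a b) :
    (T1 St Yx att hatt A).G.Adj (⟨(v, ⟨x, a⟩), h⟩ : V0 Yx A) (⟨(v, ⟨x, b⟩), h⟩ : V0 Yx A) := by
  rw [T1_adj]
  exact Or.inl ⟨rfl, (SG_adj (fun x => (Yx x).X) x a b).2 hab⟩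

theorem T1_adj_edge {v w : T.X} (h : T.G.Adj v w) :
    (T1 St Yx att hatt A).G.Adj (ga Yx att A v w) (ga Yx att A w v) := by
  rw [T1_adj]
  exact Or.inr ⟨h, rfl, rfl⟩

theorem tauV_symm {y y' : V0 Yx A} (hc : Ctx π) (h : (T1 St Yx att hatt A).G.Adj y y') :
    tauV Yx A y y' = tauV Yx A y' y := by
  rcases T1_cases St Yx att hatt A h with ⟨v, x, a, b, h', hab, rfl, rfl⟩ | ⟨v, w, h', rfl, rfl⟩
  · rw [tauV_fib, tauV_fib, (Yx x).tau_symm a b hab]
  · rw [tauV_edge _ _ _ h', tauV_edge _ _ _ h'.symm, eSec_symm hc St.full.surj St.split h']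

theorem tauV_sec {y y' : V0 Yx A} (hc : Ctx π) (h : (T1 St Yx att hatt A).G.Adj y y') :
    SecIn π M (tauV Yx A y y') := by
  rcases T1_cases St Yx att hatt A h with ⟨v, x, a, b, h', hab, rfl, rfl⟩ | ⟨v, w, h', rfl, rfl⟩
  · rw [tauV_fib]
    have h1 := (Yx x).tau_sec a b hab
    exact SecIn.cj ⟨h1.sec, fun g => (h1.mem g).1⟩ (A.hk _)
  · rw [tauV_edge _ _ _ h']
    exact (eSec_spec hc St.full.surj St.split h').1

theorem tauV_act {y y' : V0 Yx A} (hc : Ctx π) (h : (T1 St Yx att hatt A).G.Adj y y') {m : Γ}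
    (hm : m ∈ M ⊓ π.ker) : tauV Yx A (va Yx A m y) (va Yx A m y') = cj m (tauV Yx A y y') := by
  rcases T1_cases St Yx att hatt A h with ⟨v, x, a, b, h', hab, rfl, rfl⟩ | ⟨v, w, h', rfl, rfl⟩
  · rw [show va Yx A m ⟨(v, ⟨x, a⟩), h'⟩ = _ from GYact_mk A (fun x => (Yx x).X) hm v x a h',
      show va Yx A m ⟨(v, ⟨x, b⟩), h'⟩ = _ from GYact_mk A (fun x => (Yx x).X) hm v x b h']
    have h1 := A.coc hm v
    rw [← h'] at h1
    rw [tauV_fib Yx A v x a b h']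
    refine (tauV_fib Yx A (T.act m v) x _ _ _).trans ?_
    refine MonoidHom.ext fun g => ?_
    rw [cj_apply, cj_apply, cj_apply, (Yx x).tau_eq _ h1 _ _ hab]
    group
  · rw [va_ga St Yx att hatt A hm h', va_ga St Yx att hatt A hm h'.symm, tauV_edge _ _ _ h',
      tauV_edge _ _ _ (T.act_adj _ hm.1 _ _ h')]
    exact MonoidHom.ext fun g => eSec_act hc St.full.surj St.split h' hm g

theorem tauV_io (x : {x // x ∈ R}) (a b : (Yx x).X.X) :
    tauV Yx A (io Yx A x a) (io Yx A x b) = (Yx x).tau a b := by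
  refine (tauV_fib Yx A x.1 x a b (A.hR x).symm).trans ?_
  rw [A.hk1, cj_one]

include St in
/-- every oriented edge is a translate of one at a representative -/
theorem edge_rep {v w : T.X} (h : T.G.Adj v w) : ∃ (x : {x // x ∈ R}) (y : {y // y ∈ E x.1}),
    ∃ m ∈ M ⊓ π.ker, T.act m x.1 = v ∧ T.act m y.1 = w := by
  obtain ⟨x, hx, m, hm, rfl⟩ := St.R_rep v
  have hm' : m⁻¹ ∈ M := M.inv_mem hm.1
  have h1 : T.G.Adj x (T.act m⁻¹ w) := by
    have := T.act_adj _ hm' _ _ h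
    rwa [T.act_inv_act hm.1] at this
  obtain ⟨y, hy, u, hu, e⟩ := (St.reps x hx).rep _ h1
  refine ⟨⟨x, hx⟩, ⟨y, hy⟩, m * u, (M ⊓ π.ker).mul_mem hm ⟨hu.1.1, hu.2⟩, ?_, ?_⟩
  · rw [T.act_mul _ hm.1 _ hu.1.1, hu.1.2]
  · rw [T.act_mul _ hm.1 _ hu.1.1]
    change T.act m (T.act u y) = w
    rw [e, T.act_act_inv hm.1]

theorem va_free {m : Γ} (hm : m ∈ M ⊓ π.ker) (y : V0 Yx A) (h : va Yx A m y = y) : m = 1 := by
  obtain ⟨⟨v, ⟨x, q⟩⟩, h'⟩ := y
  rw [show va Yx A m ⟨(v, ⟨x, q⟩), h'⟩ = _ from GYact_mk A (fun x => (Yx x).X) hm v x q h'] at h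
  have h1 := A.coc hm v
  rw [← h'] at h1
  have h2 := congrArg Subtype.val h
  have h3 : T.act m v = v := congrArg Prod.fst h2
  have h4 := congrArg Prod.snd h2
  have h5 : (Yx x).X.act ((A.k (T.act m v))⁻¹ * m * A.k v) q = q := eq_of_heq (Sigma.mk.inj h4).2
  have h6 := (Yx x).free _ h1 q h5
  rw [h3] at h6
  have h7 : m = A.k v * ((A.k v)⁻¹ * m * A.k v) * (A.k v)⁻¹ := by group
  rw [h7, h6]
  group

/-! leaves -/
variable (x0 : {x // x ∈ R}) (q0 : (Yx x0).X.X)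

/-- leaves -/
abbrev LL (M : Subgroup Γ) (π : Γ →* G) (ell : I → Prop) : Type := {i : I // ¬ ell i} × ↥(M ⊓ π.ker)

open Classical in
/-- action on the leaves -/
noncomputable def la (m : Γ) (l : LL M π ell) : LL M π ell :=
  if hm : m ∈ M ⊓ π.ker then (l.1, ⟨m, hm⟩ * l.2) else l

theorem la_mk {m : Γ} (hm : m ∈ M ⊓ π.ker) (l : LL M π ell) : la m l = (l.1, ⟨m, hm⟩ * l.2) := dif_pos hm

/-- base of a leaf -/
noncomputable def lb (l : LL M π ell) : V0 Yx A := va Yx A l.2 (io Yx A x0 q0)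

include St hatt in
theorem lb_act (m : Γ) (hm : m ∈ M ⊓ π.ker) (l : LL M π ell) :
    lb Yx A x0 q0 (la m l) = va Yx A m (lb Yx A x0 q0 l) := by
  rw [la_mk hm]
  exact (T1 St Yx att hatt A).act_mul m hm _ l.2.2 _

/-- the leaf gluing -/
noncomputable def D2 : Glue (T1 St Yx att hatt A) :=
  leafD (T1 St Yx att hatt A) (la (M := M) (π := π) (ell := ell)) (lb Yx A x0 q0)
    (by
      intro l
      rw [la_mk (M ⊓ π.ker).one_mem]
      refine Prod.ext rfl ?_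
      exact one_mul _)
    (by
      intro m hm m' hm' l
      rw [la_mk ((M ⊓ π.ker).mul_mem hm hm'), la_mk hm', la_mk hm]
      refine Prod.ext rfl ?_
      exact mul_assoc (⟨m, hm⟩ : ↥(M ⊓ π.ker)) ⟨m', hm'⟩ l.2)
    (fun m hm l => lb_act St Yx att hatt A x0 q0 m hm l)

/-- the glued tree -/
noncomputable def T2 : MTree (M ⊓ π.ker) := (D2 St Yx att hatt A x0 q0).toTree

/-- vertices of the glued tree -/
abbrev V2 : Type := V0 Yx A ⊕ LL M π ell

theorem T2_act (m : Γ) (y : V2 Yx A) :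
    (T2 St Yx att hatt A x0 q0).act m y = Sum.map (va Yx A m) (la m) y := rfl

theorem T2_adj_ll (y y' : V0 Yx A) : (T2 St Yx att hatt A x0 q0).G.Adj (Sum.inl y : V2 Yx A) (Sum.inl y') ↔
    (T1 St Yx att hatt A).G.Adj y y' := by
  constructor
  · rintro (h | h)
    · exact absurd h id
    · exact h.1
  · intro h
    exact Or.inr ⟨h, rfl, rfl⟩

theorem T2_adj_lr (y : V0 Yx A) (l : LL M π ell) :
    (T2 St Yx att hatt A x0 q0).G.Adj (Sum.inl y : V2 Yx A) (Sum.inr l) ↔ lb Yx A x0 q0 l = y := by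
  constructor
  · rintro (h | h)
    · exact h
    · exact absurd h.2.2 Sum.inr_ne_inl
  · intro h
    exact Or.inl h

theorem T2_adj_rl (y : V0 Yx A) (l : LL M π ell) :
    (T2 St Yx att hatt A x0 q0).G.Adj (Sum.inr l : V2 Yx A) (Sum.inl y) ↔ lb Yx A x0 q0 l = y := by
  exact (SimpleGraph.adj_comm _ _ _).trans (T2_adj_lr St Yx att hatt A x0 q0 y l)

theorem T2_adj_rr (l l' : LL M π ell) :
    ¬ (T2 St Yx att hatt A x0 q0).G.Adj (Sum.inr l : V2 Yx A) (Sum.inr l') := by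
  rintro (h | h)
  · exact absurd h id
  · exact absurd h.2.1 Sum.inr_ne_inl

/-- sections at the vertices -/
noncomputable def sig2 : V2 Yx A → (G →* Γ) := Sum.elim (sigV Yx A) (fun l => cj (l.2 : Γ) (s l.1))

/-- sections at the edges -/
noncomputable def tau2 : V2 Yx A → V2 Yx A → (G →* Γ)
  | Sum.inl y, Sum.inl y' => tauV Yx A y y'
  | Sum.inl _, Sum.inr l => cj (l.2 : Γ) (s l.1)
  | Sum.inr l, Sum.inl _ => cj (l.2 : Γ) (s l.1)
  | Sum.inr _, Sum.inr _ => 1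

open Classical in
/-- marked vertices -/
noncomputable def p2 (hxi : ∀ i, ell i → xi i ∈ R) (i : I) : V2 Yx A :=
  if h : ell i then Sum.inl (io Yx A ⟨xi i, hxi i h⟩ ((Yx ⟨xi i, hxi i h⟩).p (Sum.inr ⟨i, h, rfl⟩)))
  else Sum.inr (⟨i, h⟩, 1)

theorem cj_cj (h h' : Γ) (s : G →* Γ) : cj h (cj h' s) = cj (h * h') s := by
  refine MonoidHom.ext fun g => ?_
  rw [cj_apply, cj_apply, cj_apply]
  group

/-- the four kinds of edges -/
theorem T2_cases {y y' : V2 Yx A} (h : (T2 St Yx att hatt A x0 q0).G.Adj y y') :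
    (∃ a b, (T1 St Yx att hatt A).G.Adj a b ∧ y = Sum.inl a ∧ y' = Sum.inl b) ∨
    (∃ l, y = Sum.inl (lb Yx A x0 q0 l) ∧ y' = Sum.inr l) ∨
    (∃ l, y = Sum.inr l ∧ y' = Sum.inl (lb Yx A x0 q0 l)) := by
  rcases y with y | l <;> rcases y' with y' | l'
  · exact Or.inl ⟨y, y', (T2_adj_ll St Yx att hatt A x0 q0 y y').1 h, rfl, rfl⟩
  · exact Or.inr (Or.inl ⟨l', by rw [(T2_adj_lr St Yx att hatt A x0 q0 y l').1 h], rfl⟩)
  · exact Or.inr (Or.inr ⟨l, rfl, by rw [(T2_adj_rl St Yx att hatt A x0 q0 y' l).1 h]⟩)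
  · exact absurd h (T2_adj_rr St Yx att hatt A x0 q0 l l')

theorem lb_smul (l : LL M π ell) : Sum.inr l = Sum.map (va Yx A l.2) (la (l.2 : Γ))
    (Sum.inr (l.1, 1) : V2 Yx A) := by
  change Sum.inr l = Sum.inr (la (l.2 : Γ) (l.1, 1))
  rw [la_mk l.2.2]
  congr 1
  refine Prod.ext rfl ?_
  exact (mul_one l.2).symm

include St hatt in
theorem va_mul {m m' : Γ} (hm : m ∈ M ⊓ π.ker) (hm' : m' ∈ M ⊓ π.ker) (y : V0 Yx A) :
    va Yx A (m * m') y = va Yx A m (va Yx A m' y) := (T1 St Yx att hatt A).act_mul m hm m' hm' y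

theorem va_one (y : V0 Yx A) : va Yx A 1 y = y := by
  obtain ⟨⟨v, ⟨x, q⟩⟩, h⟩ := y
  refine (GYact_mk A (fun x => (Yx x).X) (M ⊓ π.ker).one_mem v x q h).trans ?_
  apply Subtype.ext
  change (T.act 1 v, (⟨x, (Yx x).X.act ((A.k (T.act 1 v))⁻¹ * 1 * A.k v) q⟩ : Σ s : {x // x ∈ R}, (Yx s).X.X))
    = (v, ⟨x, q⟩)
  rw [T.act_one, mul_one, inv_mul_cancel, (Yx x).X.act_one]

include St hatt in
theorem va_inv_k (v : T.X) (x : {x // x ∈ R}) (q : (Yx x).X.X) (h : x = A.r v) {m : Γ} (hm : m ∈ M ⊓ π.ker) :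
    va Yx A (m * (A.k v)⁻¹) ⟨(v, ⟨x, q⟩), h⟩ = va Yx A m (io Yx A x q) := by
  rw [← va_k Yx A v x q h, va_mul St Yx att hatt A hm ((M ⊓ π.ker).inv_mem (A.hk v)),
    ← va_mul St Yx att hatt A ((M ⊓ π.ker).inv_mem (A.hk v)) (A.hk v), inv_mul_cancel, va_one]

include St hatt in
/-- finitely many orbits of vertices -/
theorem cocV [Finite I] (hR : R.Finite) : ∃ S : Set (V2 Yx A), S.Finite ∧ ∀ y : V2 Yx A, ∃ h ∈ M ⊓ π.ker,
    Sum.map (va Yx A h) (la h) y ∈ S := by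
  classical
  have hRf : Finite {x // x ∈ R} := hR
  choose S hS using fun x : {x // x ∈ R} => (Yx x).cocptV
  refine ⟨(⋃ x, (fun q => (Sum.inl (io Yx A x q) : V2 Yx A)) '' (S x)) ∪
    Set.range (fun i : {i : I // ¬ ell i} => (Sum.inr (i, 1) : V2 Yx A)), ?_, ?_⟩
  · refine Set.Finite.union (Set.finite_iUnion fun x => (S x).finite_toSet.image _) (Set.finite_range _)
  · rintro (⟨⟨v, ⟨x, q⟩⟩, h⟩ | ⟨i, u⟩)
    · obtain ⟨m, hm, hmS⟩ := hS x q
      have hm' : m ∈ M ⊓ π.ker := ⟨hm.1.1, hm.2⟩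
      have hk' : (A.k v)⁻¹ ∈ M ⊓ π.ker := (M ⊓ π.ker).inv_mem (A.hk v)
      refine ⟨m * (A.k v)⁻¹, (M ⊓ π.ker).mul_mem hm' hk', Or.inl (Set.mem_iUnion.2 ⟨x, (Yx x).X.act m q, hmS, ?_⟩)⟩
      change Sum.inl _ = Sum.inl (va Yx A (m * (A.k v)⁻¹) ⟨(v, ⟨x, q⟩), h⟩)
      rw [va_inv_k St Yx att hatt A v x q h hm', va_io Yx A x hm]
    · refine ⟨(u : Γ)⁻¹, (M ⊓ π.ker).inv_mem u.2, Or.inr ⟨i, ?_⟩⟩
      change Sum.inr _ = Sum.inr (la ((u : Γ)⁻¹) (i, u))
      rw [la_mk ((M ⊓ π.ker).inv_mem u.2)]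
      congr 1
      refine Prod.ext rfl ?_
      exact (inv_mul_cancel u).symm

include St hatt in
/-- finitely many orbits of edges -/
theorem cocE [Finite I] (hR : R.Finite) : ∃ S : Set (V2 Yx A × V2 Yx A), S.Finite ∧
    ∀ y y' : V2 Yx A, (T2 St Yx att hatt A x0 q0).G.Adj y y' → ∃ h ∈ M ⊓ π.ker,
    (Sum.map (va Yx A h) (la h) y, Sum.map (va Yx A h) (la h) y') ∈ S := by
  classical
  have hRf : Finite {x // x ∈ R} := hR
  choose S hS using fun x : {x // x ∈ R} => (Yx x).cocptE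
  obtain ⟨ST, hST⟩ := St.split.cocpt
  let f1 : ∀ x : {x // x ∈ R}, (Yx x).X.X × (Yx x).X.X → V2 Yx A × V2 Yx A := fun x p =>
    (Sum.inl (io Yx A x p.1), Sum.inl (io Yx A x p.2))
  let f2 : T.X × T.X → V2 Yx A × V2 Yx A := fun p =>
    (Sum.inl (ga Yx att A p.1 p.2), Sum.inl (ga Yx att A p.2 p.1))
  let f3 : {i : I // ¬ ell i} → V2 Yx A × V2 Yx A := fun i => (Sum.inl (io Yx A x0 q0), Sum.inr (i, 1))
  let f4 : {i : I // ¬ ell i} → V2 Yx A × V2 Yx A := fun i => (Sum.inr (i, 1), Sum.inl (io Yx A x0 q0))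
  have hlb : ∀ l : LL M π ell, va Yx A ((l.2 : Γ)⁻¹) (lb Yx A x0 q0 l) = io Yx A x0 q0 := by
    intro l
    unfold lb
    rw [← va_mul St Yx att hatt A ((M ⊓ π.ker).inv_mem l.2.2) l.2.2, inv_mul_cancel, va_one]
  have hla : ∀ l : LL M π ell, la ((l.2 : Γ)⁻¹) l = (l.1, 1) := by
    intro l
    rw [la_mk ((M ⊓ π.ker).inv_mem l.2.2)]
    refine Prod.ext rfl ?_
    exact inv_mul_cancel l.2
  refine ⟨((⋃ x, f1 x '' (S x)) ∪ f2 '' ST) ∪ (Set.range f3 ∪ Set.range f4), ?_, ?_⟩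
  · exact ((Set.finite_iUnion fun x => (S x).finite_toSet.image _).union (ST.finite_toSet.image _)).union
      ((Set.finite_range _).union (Set.finite_range _))
  · intro y y' h
    rcases T2_cases St Yx att hatt A x0 q0 h with ⟨a, b, hab, rfl, rfl⟩ | ⟨l, rfl, rfl⟩ | ⟨l, rfl, rfl⟩
    · rcases T1_cases St Yx att hatt A hab with ⟨v, x, a, b, h', hab', rfl, rfl⟩ | ⟨v, w, h', rfl, rfl⟩
      · obtain ⟨m, hm, hmS⟩ := hS x a b hab'
        have hm' : m ∈ M ⊓ π.ker := ⟨hm.1.1, hm.2⟩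
        have hk' : (A.k v)⁻¹ ∈ M ⊓ π.ker := (M ⊓ π.ker).inv_mem (A.hk v)
        refine ⟨m * (A.k v)⁻¹, (M ⊓ π.ker).mul_mem hm' hk', Or.inl (Or.inl (Set.mem_iUnion.2 ⟨x, _, hmS, ?_⟩))⟩
        change (Sum.inl _, Sum.inl _) = ((Sum.inl (va Yx A (m * (A.k v)⁻¹) ⟨(v, ⟨x, a⟩), h'⟩) : V2 Yx A),
          (Sum.inl (va Yx A (m * (A.k v)⁻¹) ⟨(v, ⟨x, b⟩), h'⟩) : V2 Yx A))
        rw [va_inv_k St Yx att hatt A v x a h' hm', va_inv_k St Yx att hatt A v x b h' hm', va_io Yx A x hm,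
          va_io Yx A x hm]
      · obtain ⟨m, hm, hmS⟩ := hST v w h'
        refine ⟨m, hm, Or.inl (Or.inr ⟨_, hmS, ?_⟩)⟩
        change (Sum.inl _, Sum.inl _) = ((Sum.inl (va Yx A m (ga Yx att A v w)) : V2 Yx A),
          (Sum.inl (va Yx A m (ga Yx att A w v)) : V2 Yx A))
        rw [va_ga St Yx att hatt A hm h', va_ga St Yx att hatt A hm h'.symm]
    · refine ⟨(l.2 : Γ)⁻¹, (M ⊓ π.ker).inv_mem l.2.2, Or.inr (Or.inl ⟨l.1, ?_⟩)⟩
      change (Sum.inl _, Sum.inr _) = ((Sum.inl (va Yx A ((l.2 : Γ)⁻¹) (lb Yx A x0 q0 l)) : V2 Yx A),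
        (Sum.inr (la ((l.2 : Γ)⁻¹) l) : V2 Yx A))
      rw [hlb, hla]
    · refine ⟨(l.2 : Γ)⁻¹, (M ⊓ π.ker).inv_mem l.2.2, Or.inr (Or.inr ⟨l.1, ?_⟩)⟩
      change (Sum.inr _, Sum.inl _) = ((Sum.inr (la ((l.2 : Γ)⁻¹) l) : V2 Yx A),
        (Sum.inl (va Yx A ((l.2 : Γ)⁻¹) (lb Yx A x0 q0 l)) : V2 Yx A))
      rw [hlb, hla]

/-- the glued gadget -/
noncomputable def glG [Finite I] (hc : Ctx π) : Gadget π M s where
  X := T2 St Yx att hatt A x0 q0
  free := by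
    rintro h hh (y | l) e
    · exact va_free Yx A hh y (Sum.inl_injective e)
    · have e' : la h l = l := Sum.inr_injective e
      rw [la_mk hh] at e'
      have e2 : (⟨h, hh⟩ : ↥(M ⊓ π.ker)) * l.2 = l.2 := congrArg Prod.snd e'
      have e3 := mul_eq_right.1 e2
      exact congrArg Subtype.val e3
  cocptV := by
    obtain ⟨S, hS, h⟩ := cocV St Yx att hatt A St.R_fin
    exact ⟨hS.toFinset, fun x => by
      obtain ⟨m, hm, h1⟩ := h x
      exact ⟨m, hm, hS.mem_toFinset.2 h1⟩⟩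
  cocptE := by
    obtain ⟨S, hS, h⟩ := cocE St Yx att hatt A x0 q0 St.R_fin
    exact ⟨hS.toFinset, fun x y hxy => by
      obtain ⟨m, hm, h1⟩ := h x y hxy
      exact ⟨m, hm, hS.mem_toFinset.2 h1⟩⟩
  sig := sig2 Yx A
  sig_sec := by
    rintro (y | l)
    · exact sigV_sec Yx A y
    · exact SecIn.cj (St.sec l.1) l.2.2
  sig_eq := by
    rintro h hh (y | l) g
    · exact DFunLike.congr_fun (sigV_act Yx A hh y) g
    · change sig2 Yx A (Sum.inr (la h l)) g = _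
      rw [la_mk hh]
      exact DFunLike.congr_fun (cj_cj h (l.2 : Γ) (s l.1)).symm g
  tau := tau2 Yx A
  tau_sec := by
    intro a b hab
    rcases T2_cases St Yx att hatt A x0 q0 hab with ⟨a, b, hab', rfl, rfl⟩ | ⟨l, rfl, rfl⟩ | ⟨l, rfl, rfl⟩
    · exact tauV_sec St Yx att hatt A hc hab'
    · exact SecIn.cj (St.sec l.1) l.2.2
    · exact SecIn.cj (St.sec l.1) l.2.2
  tau_symm := by
    intro a b hab
    rcases T2_cases St Yx att hatt A x0 q0 hab with ⟨a, b, hab', rfl, rfl⟩ | ⟨l, rfl, rfl⟩ | ⟨l, rfl, rfl⟩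
    · exact tauV_symm St Yx att hatt A hc hab'
    · rfl
    · rfl
  tau_eq := by
    intro h hh a b hab g
    rcases T2_cases St Yx att hatt A x0 q0 hab with ⟨a, b, hab', rfl, rfl⟩ | ⟨l, rfl, rfl⟩ | ⟨l, rfl, rfl⟩
    · exact DFunLike.congr_fun (tauV_act St Yx att hatt A hc hab' hh) g
    · change tau2 Yx A (Sum.inl _) (Sum.inr (la h l)) g = _
      rw [la_mk hh]
      exact DFunLike.congr_fun (cj_cj h (l.2 : Γ) (s l.1)).symm g
    · change tau2 Yx A (Sum.inr (la h l)) (Sum.inl _) g = _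
      rw [la_mk hh]
      exact DFunLike.congr_fun (cj_cj h (l.2 : Γ) (s l.1)).symm g
  p := p2 Yx A St.xi_mem
  p_sig := by
    intro i
    unfold p2
    split_ifs with h
    · change sigV Yx A (io Yx A _ _) = s i
      rw [sigV_io, (Yx _).p_sig]
      rfl
    · change cj ((1 : ↥(M ⊓ π.ker)) : Γ) (s i) = s i
      exact cj_one (s i)

include St hatt in
/-- the translate of an edge at a representative -/
theorem cover_edge {v w : T.X} (h : T.G.Adj v w) :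
    ∃ (x x' : {x // x ∈ R}) (y : {y // y ∈ E x.1}) (y' : {y // y ∈ E x'.1}), ∃ k ∈ M ⊓ π.ker,
      ∃ m ∈ M ⊓ π.ker, T.act k x'.1 = y.1 ∧ T.act k y'.1 = x.1 ∧
        ga Yx att A v w = va Yx A m (io Yx A x ((Yx x).p (Sum.inl y))) ∧
        ga Yx att A w v = va Yx A m (va Yx A k (io Yx A x' ((Yx x').p (Sum.inl y')))) := by
  obtain ⟨x, y, m, hm, h1, h2⟩ := edge_rep St h
  have hxy := (St.reps x.1 x.2).adj y.1 y.2
  obtain ⟨x', y', k, hk, h3, h4⟩ := edge_rep St hxy.symm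
  have hxy' := (St.reps x'.1 x'.2).adj y'.1 y'.2
  refine ⟨x, x', y, y', k, hk, m, hm, h3, h4, ?_, ?_⟩
  · rw [← ga_rep' Yx att hatt A, va_ga St Yx att hatt A hm hxy, h1, h2]
  · rw [← ga_rep' Yx att hatt A, va_ga St Yx att hatt A hk hxy', h3, h4,
      va_ga St Yx att hatt A hm hxy.symm, h1, h2]

/-- the properties of the glued gadget -/
noncomputable def glGlued [Finite I] (hc : Ctx π) : Glued π Yx (glG St Yx att hatt A x0 q0 hc) where
  ι := fun x q => Sum.inl (io Yx A x q)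
  ι_act := by
    intro x h hh q
    exact (congrArg Sum.inl (va_io Yx A x hh q)).symm
  ι_adj := by
    intro x a b hab
    refine (T2_adj_ll St Yx att hatt A x0 q0 _ _).2 ?_
    exact T1_adj_fib St Yx att hatt A x.1 x (A.hR x).symm hab
  ι_sig := fun x q => sigV_io Yx A x q
  ι_tau := fun x a b _ => tauV_io Yx A x a b
  ι_p := by
    rintro ⟨x, hx⟩ i ⟨h1, h2⟩
    change xi i = x at h2
    subst h2
    exact dif_pos h1
  edge := by
    intro x x' y y' k hk h1 h2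
    have hxy := (St.reps x.1 x.2).adj y.1 y.2
    have hxy' := (St.reps x'.1 x'.2).adj y'.1 y'.2
    have e1 : io Yx A x ((Yx x).p (Sum.inl y)) = ga Yx att A x.1 y.1 := (ga_rep' Yx att hatt A x y).symm
    have e2 : va Yx A k (io Yx A x' ((Yx x').p (Sum.inl y'))) = ga Yx att A y.1 x.1 := by
      rw [← ga_rep' Yx att hatt A, va_ga St Yx att hatt A hk hxy', h1, h2]
    constructor
    · refine (T2_adj_ll St Yx att hatt A x0 q0 _ _).2 ?_
      have := T1_adj_edge St Yx att hatt A hxy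
      rw [← e1, ← e2] at this
      exact this
    · have := tauV_edge Yx att A hxy
      rw [← e1, ← e2] at this
      exact this
  cover := by
    intro a b hab
    rcases T2_cases St Yx att hatt A x0 q0 hab with ⟨a, b, hab', rfl, rfl⟩ | ⟨l, rfl, rfl⟩ | ⟨l, rfl, rfl⟩
    · rcases T1_cases St Yx att hatt A hab' with ⟨v, x, a, b, h', hab'', rfl, rfl⟩ | ⟨v, w, h', rfl, rfl⟩
      · left
        refine ⟨x, a, b, hab'', A.k v, A.hk v, ?_, ?_⟩
        · exact congrArg Sum.inl (va_k Yx A v x a h').symm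
        · exact congrArg Sum.inl (va_k Yx A v x b h').symm
      · right; left
        obtain ⟨x, x', y, y', k, hk, m, hm, h1, h2, h3, h4⟩ := cover_edge St Yx att hatt A h'
        exact ⟨x, x', y, y', k, hk, m, hm, h1, h2, congrArg Sum.inl h3, congrArg Sum.inl h4⟩
    · right; right
      refine ⟨l.1.1, l.1.2, l.2, l.2.2, Or.inr ?_, fun g => rfl⟩
      change Sum.inr l = Sum.map (va Yx A l.2) (la (l.2 : Γ)) (p2 Yx A St.xi_mem l.1.1)
      unfold p2
      rw [dif_neg l.1.2]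
      exact lb_smul Yx A l
    · right; right
      refine ⟨l.1.1, l.1.2, l.2, l.2.2, Or.inl ?_, fun g => rfl⟩
      change Sum.inr l = Sum.map (va Yx A l.2) (la (l.2 : Γ)) (p2 Yx A St.xi_mem l.1.1)
      unfold p2
      rw [dif_neg l.1.2]
      exact lb_smul Yx A l
  leaf := by
    intro i hi
    have hp : (glG St Yx att hatt A x0 q0 hc).p i = (Sum.inr (⟨i, hi⟩, 1) : V2 Yx A) := dif_neg hi
    have hb : lb Yx A x0 q0 (⟨i, hi⟩, 1) = io Yx A x0 q0 := va_one Yx A _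
    refine ⟨Sum.inl (io Yx A x0 q0), ?_, ?_, x0, q0, 1, (M ⊓ π.ker).one_mem, ?_⟩
    · rw [hp]
      exact (T2_adj_rl St Yx att hatt A x0 q0 _ _).2 hb
    · intro b' hb'
      rw [hp] at hb'
      rcases b' with b' | b'
      · have := (T2_adj_rl St Yx att hatt A x0 q0 _ _).1 hb'
        rw [← this, hb]
      · exact absurd hb' (T2_adj_rr St Yx att hatt A x0 q0 _ _)
    · exact (congrArg Sum.inl (va_one Yx A (io Yx A x0 q0))).symm
  vert := by
    rintro (⟨⟨v, ⟨x, q⟩⟩, h⟩ | l)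
    · left
      exact ⟨x, q, A.k v, A.hk v, congrArg Sum.inl (va_k Yx A v x q h).symm⟩
    · right
      refine ⟨l.1.1, l.1.2, l.2, l.2.2, ?_⟩
      change Sum.inr l = Sum.map (va Yx A l.2) (la (l.2 : Γ)) (p2 Yx A St.xi_mem l.1.1)
      unfold p2
      rw [dif_neg l.1.2]
      exact lb_smul Yx A l

end
end gadget

end F7c

variable {Γ G : Type} [Group Γ] [Group G] {π : Γ →* G}

variable {I : Type}

theorem glue_exists (hc : Ctx π) {M : Subgroup Γ} {T : MTree M} {s : I → (G →* Γ)} [Finite I]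
    {ell : I → Prop} {xi : I → T.X} {R : Set T.X} {E : T.X → Finset T.X}
    (St : Step π T s ell xi R E)
    (Yx : ∀ x : {x // x ∈ R}, Gadget π (T.stab x.1) (lsec π T s ell xi x.1 (E x.1))) :
    ∃ Y : Gadget π M s, Nonempty (Glued π Yx Y) := by
  obtain ⟨A⟩ := F7c.dat_exists T St.R_rep St.R_inj
  obtain ⟨att, hatt⟩ := F7c.att_exists St Yx
  obtain ⟨v⟩ := T.tree.connected.nonempty
  obtain ⟨q0⟩ := (Yx (A.r v)).X.tree.connected.nonempty
  exact ⟨F7c.glG St Yx att hatt A (A.r v) q0 hc, ⟨F7c.glGlued St Yx att hatt A (A.r v) q0 hc⟩⟩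

end Pool.Agent.Lib.MP_6567fb_al
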