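import Pool.Agent.Lib.MP_6567fb_al.F6e
import Pool.Agent.Lib.MP_6567fb_al.F7b

/-!
# MP_6567fb_al, module F7d

Claims (a), (b) of Theorem D.
-/

set_option autoImplicit false

open scoped Pointwise
open Filter

namespace Pool.Agent.Lib.MP_6567fb_al

open MTree
variable {Γ G : Type} [Group Γ] [Group G] {π : Γ →* G}

variable {I : Type}

theorem Gadget.tau_sig_mem {M : Subgroup Γ} {s : I → (G →* Γ)} (Y : Gadget π M s) {a b : Y.X.X}
    (hab : Y.X.G.Adj a b) (q : Y.X.X) (g : G) : Y.tau a b g * (Y.sig q g)⁻¹ ∈ M ⊓ π.ker := by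
  refine ⟨M.mul_mem ((Y.tau_sec a b hab).mem g) (M.inv_mem ((Y.sig_sec q).mem g)), ?_⟩
  change _ ∈ π.ker
  rw [MonoidHom.mem_ker, map_mul, map_inv, (Y.tau_sec a b hab).sec g, (Y.sig_sec q).sec g,
    mul_inv_cancel]

theorem conn_local {M : Subgroup Γ} {T : MTree M} {s : I → (G →* Γ)}
    {ell : I → Prop} {xi : I → T.X} {R : Set T.X} {E : T.X → Finset T.X}
    {Yx : ∀ x : {x // x ∈ R}, Gadget π (T.stab x.1) (lsec π T s ell xi x.1 (E x.1))}
    {Y : Gadget π M s} (Gl : Glued π Yx Y) {J : Set I} (x : {x // x ∈ R})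
    {Jx : Set (LI ell xi x.1 (E x.1))} (hJ : ∀ τ ∈ Jx, Y.Act J (Gl.ι x ((Yx x).p τ)))
    {a b : (Yx x).X.X} (hab : (Yx x).Conn Jx a b) : Y.Conn J (Gl.ι x a) (Gl.ι x b) := by
  have hle : T.stab x.1 ⊓ π.ker ≤ M ⊓ π.ker := fun h hh => ⟨hh.1.1, hh.2⟩
  induction hab with
  | refl a => exact Gadget.Conn.refl _
  | symm h ih => exact ih.symm
  | trans h h' ih ih' => exact ih.trans ih'
  | @edge a b hab ha hb i hi k hk hact iha ihb ihact =>
    have hadj := Gl.ι_adj x a b hab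
    have hA : Y.Act J (Gl.ι x a) := by
      rw [Gl.ι_act x k hk] at ihact
      exact Gadget.Act.conn Y (Gadget.Act.act Y (hle hk) (hJ i hi)) ihact.symm
    obtain ⟨i', hi', k', hk', hc⟩ := hA
    refine Gadget.Conn.edge hadj (fun g => ?_) (fun g => ?_) hi' hk' hc
    · have := iha g
      rw [Gl.ι_act x _ ((Yx x).tau_sig_mem hab a g)] at this
      rw [Gl.ι_sig, Gl.ι_tau x a b hab]
      exact this
    · have := ihb g
      rw [Gl.ι_act x _ ((Yx x).tau_sig_mem hab b g)] at this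
      rw [Gl.ι_sig, Gl.ι_tau x a b hab]
      exact this

section
variable {M : Subgroup Γ} {T : MTree M} {s : I → (G →* Γ)}
    {ell : I → Prop} {xi : I → T.X} {R : Set T.X} {E : T.X → Finset T.X}

/-- the oriented edge `(u,w)` is `k (x,y)` with `x ∈ R`, `y ∈ E x` -/
structure ERep (π : Γ →* G) {M : Subgroup Γ} {T : MTree M} {R : Set T.X} {E : T.X → Finset T.X}
    (u w : T.X) (x : {x // x ∈ R}) (y : {y // y ∈ E x.1}) (k : Γ) : Prop where
  mem : k ∈ M ⊓ π.ker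
  fst : T.act k x.1 = u
  snd : T.act k y.1 = w

theorem exists_erep (St : Step π T s ell xi R E) {u w : T.X} (h : T.G.Adj u w) :
    ∃ (x : {x // x ∈ R}) (y : {y // y ∈ E x.1}) (k : Γ), ERep π u w x y k := by
  obtain ⟨x, hx, h1, hh1, hu⟩ := St.R_rep u
  have hadj : T.G.Adj x (T.act h1⁻¹ w) := by
    rw [← T.adj_act_iff hh1.1, T.act_act_inv hh1.1, hu]
    exact h
  obtain ⟨y, hy, h2, hh2, hw⟩ := (St.reps x hx).rep _ hadj
  refine ⟨⟨x, hx⟩, ⟨y, hy⟩, h1 * h2, ⟨⟨M.mul_mem hh1.1 hh2.1.1, π.ker.mul_mem hh1.2 hh2.2⟩, ?_, ?_⟩⟩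
  · show T.act (h1 * h2) x = u
    rw [T.act_mul _ hh1.1 _ hh2.1.1, hh2.1.2, hu]
  · show T.act (h1 * h2) y = w
    rw [T.act_mul _ hh1.1 _ hh2.1.1, hw, T.act_act_inv hh1.1]

theorem ERep.adj (St : Step π T s ell xi R E) {u w : T.X} {x : {x // x ∈ R}}
    {y : {y // y ∈ E x.1}} {k : Γ} (h : ERep π u w x y k) : T.G.Adj u w := by
  rw [← h.fst, ← h.snd, T.adj_act_iff h.mem.1]
  exact (St.reps x.1 x.2).adj y.1 y.2

variable {Yx : ∀ x : {x // x ∈ R}, Gadget π (T.stab x.1) (lsec π T s ell xi x.1 (E x.1))}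
    {Y : Gadget π M s}

/-- the attaching vertex of the oriented edge `(u,w)` is active -/
def ActE (Gl : Glued π Yx Y) (J : Set I) (u w : T.X) : Prop :=
  ∃ (x : {x // x ∈ R}) (y : {y // y ∈ E x.1}) (k : Γ), ERep π u w x y k ∧
    Y.Act J (Gl.ι x ((Yx x).p (Sum.inl y)))

theorem ActE.act (St : Step π T s ell xi R E) {Gl : Glued π Yx Y} {J : Set I} {u w : T.X}
    (h : ActE Gl J u w) {x : {x // x ∈ R}} {y : {y // y ∈ E x.1}} {k : Γ}
    (hr : ERep π u w x y k) : Y.Act J (Gl.ι x ((Yx x).p (Sum.inl y))) := by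
  obtain ⟨x', y', k', hr', hA⟩ := h
  have hk : k'⁻¹ * k ∈ M ⊓ π.ker := (M ⊓ π.ker).mul_mem ((M ⊓ π.ker).inv_mem hr'.mem) hr.mem
  have e1 : T.act (k'⁻¹ * k) x.1 = x'.1 := by
    rw [T.act_mul _ (M.inv_mem hr'.mem.1) _ hr.mem.1, hr.fst, ← hr'.fst, T.act_inv_act hr'.mem.1]
  have e2 : T.act (k'⁻¹ * k) y.1 = y'.1 := by
    rw [T.act_mul _ (M.inv_mem hr'.mem.1) _ hr.mem.1, hr.snd, ← hr'.snd, T.act_inv_act hr'.mem.1]
  have hx : x = x' := Subtype.ext (St.R_inj _ x.2 _ x'.2 _ hk e1)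
  subst hx
  have hy : y = y' := Subtype.ext
    ((St.reps x.1 x.2).inj _ y.2 _ y'.2 _ ⟨⟨hk.1, e1⟩, hk.2⟩ e2)
  subst hy
  exact hA

theorem eSec_erep (hc : Ctx π) (St : Step π T s ell xi R E) {u w : T.X} {x : {x // x ∈ R}}
    {y : {y // y ∈ E x.1}} {k : Γ} (hr : ERep π u w x y k) {g : G} {Q : Γ} (hQ : Q ∈ M)
    (hQg : π Q = g) (hu : T.act Q u = u) (hw : T.act Q w = w) :
    k * eSec π T x.1 y.1 g * k⁻¹ = Q := by
  have hadj := (St.reps x.1 x.2).adj y.1 y.2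
  rw [← eSec_act hc St.full.surj St.split hadj hr.mem, hr.fst, hr.snd, ← hQg]
  exact eSec_unique hc St.full.surj St.split (hr.adj St) hQ ⟨hu, hw⟩

theorem ActE.symm (hc : Ctx π) (St : Step π T s ell xi R E) {Gl : Glued π Yx Y} {J : Set I}
    {u w : T.X} (h : ActE Gl J u w) : ActE Gl J w u := by
  obtain ⟨x, y, k, hr, hA⟩ := h
  obtain ⟨x', y', k', hr'⟩ := exists_erep (R := R) (E := E) St (hr.adj St).symm
  refine ⟨x', y', k', hr', ?_⟩
  have hκ : k⁻¹ * k' ∈ M ⊓ π.ker := (M ⊓ π.ker).mul_mem ((M ⊓ π.ker).inv_mem hr.mem) hr'.mem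
  have e1 : T.act (k⁻¹ * k') x'.1 = y.1 := by
    rw [T.act_mul _ (M.inv_mem hr.mem.1) _ hr'.mem.1, hr'.fst, ← hr.snd, T.act_inv_act hr.mem.1]
  have e2 : T.act (k⁻¹ * k') y'.1 = x.1 := by
    rw [T.act_mul _ (M.inv_mem hr.mem.1) _ hr'.mem.1, hr'.snd, ← hr.fst, T.act_inv_act hr.mem.1]
  obtain ⟨hadj, htau⟩ := Gl.edge x x' y y' _ hκ e1 e2
  have hxy := (St.reps x.1 x.2).adj y.1 y.2
  have hxy' := (St.reps x'.1 x'.2).adj y'.1 y'.2
  have hconn : Y.Conn J (Gl.ι x ((Yx x).p (Sum.inl y)))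
      (Y.X.act (k⁻¹ * k') (Gl.ι x' ((Yx x').p (Sum.inl y')))) := by
    refine Gadget.Conn.of_eq Y hadj ?_ ?_ (Or.inl hA)
    · rw [Gl.ι_sig, (Yx x).p_sig, htau]
      rfl
    · rw [htau]
      ext g
      rw [Y.sig_eq _ hκ, Gl.ι_sig, (Yx x').p_sig]
      show (k⁻¹ * k') * eSec π T x'.1 y'.1 g * (k⁻¹ * k')⁻¹ = _
      rw [← eSec_act hc St.full.surj St.split hxy' hκ, e1, e2,
        eSec_symm hc St.full.surj St.split hxy.symm]
  have h2 := Gadget.Act.conn Y hA hconn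
  have h3 := Gadget.Act.act Y ((M ⊓ π.ker).inv_mem hκ) h2
  rwa [Y.X.act_inv_act hκ] at h3

/-- local hypotheses for the gadgets at the vertices -/
structure LocSat (St : Step π T s ell xi R E) (Gl : Glued π Yx Y) (g : G) (inn : I → ℕ∞)
    (UU : ℕ → Set (Subgroup Γ)) : Prop where
  sat : ∀ x : {x // x ∈ R}, T.stab x.1 ⊓ π.ker ≠ ⊥ → ∀ Jx j,
      TSat π (T.stab x.1) (fun τ => lsec π T s ell xi x.1 (E x.1) τ g)
        (linn π T g s inn UU ell xi x.1 (E x.1)) (lfam T UU x.1) Jx j → (Yx x).Sat Jx j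
  bot : ∀ x : {x // x ∈ R}, T.stab x.1 ⊓ π.ker = ⊥ → ∀ Jx : Set (LI ell xi x.1 (E x.1)),
      Jx.Nonempty → ∀ j, (Yx x).Sat Jx j

theorem act_of_local {Gl : Glued π Yx Y} {J : Set I} (x : {x // x ∈ R})
    {Jx : Set (LI ell xi x.1 (E x.1))} (hJ : ∀ τ ∈ Jx, Y.Act J (Gl.ι x ((Yx x).p τ)))
    {a : (Yx x).X.X} (h : (Yx x).Act Jx a) : Y.Act J (Gl.ι x a) := by
  obtain ⟨i, hi, k, hk, hc⟩ := h
  have h1 := conn_local Gl x hJ hc
  rw [Gl.ι_act x k hk] at h1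
  exact Gadget.Act.conn Y (Gadget.Act.act Y ⟨hk.1.1, hk.2⟩ (hJ i hi)) h1.symm

theorem bare_local {St : Step π T s ell xi R E} {Gl : Glued π Yx Y} {g : G} {inn : I → ℕ∞}
    {UU : ℕ → Set (Subgroup Γ)} (hL : LocSat St Gl g inn UU) {J : Set I} (x : {x // x ∈ R})
    {τ τ' : LI ell xi x.1 (E x.1)}
    (hcj : CJ (T.stab x.1 ⊓ π.ker) (lsec π T s ell xi x.1 (E x.1) τ g)
      (lsec π T s ell xi x.1 (E x.1) τ' g))
    (hA : Y.Act J (Gl.ι x ((Yx x).p τ))) : Y.Act J (Gl.ι x ((Yx x).p τ')) := by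
  have hsat : (Yx x).Sat {τ} (some τ') := by
    by_cases h : T.stab x.1 ⊓ π.ker = ⊥
    · exact hL.bot x h _ (Set.singleton_nonempty τ) _
    · exact hL.sat x h _ _ (Or.inl ⟨τ, rfl, hcj⟩)
  exact act_of_local x (Jx := {τ}) (fun τ'' h => by rw [Set.mem_singleton_iff.1 h]; exact hA) hsat

theorem act_turn (hc : Ctx π) {St : Step π T s ell xi R E} {Gl : Glued π Yx Y} {g : G}
    {inn : I → ℕ∞} {UU : ℕ → Set (Subgroup Γ)} (hL : LocSat St Gl g inn UU) {J : Set I}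
    {Q : Γ} (hQ : Q ∈ M) (hQg : π Q = g) {u w w' : T.X} (hw' : T.G.Adj u w')
    (hu : T.act Q u = u) (hQw : T.act Q w = w) (hQw' : T.act Q w' = w')
    (h : ActE Gl J u w) : ActE Gl J u w' := by
  obtain ⟨x, y, k, hr, hA⟩ := h
  obtain ⟨x', y', k', hr'⟩ := exists_erep (R := R) (E := E) St hw'
  have hκ : k'⁻¹ * k ∈ M ⊓ π.ker := (M ⊓ π.ker).mul_mem ((M ⊓ π.ker).inv_mem hr'.mem) hr.mem
  have e1 : T.act (k'⁻¹ * k) x.1 = x'.1 := by
    rw [T.act_mul _ (M.inv_mem hr'.mem.1) _ hr.mem.1, hr.fst, ← hr'.fst, T.act_inv_act hr'.mem.1]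
  have hx : x = x' := Subtype.ext (St.R_inj _ x.2 _ x'.2 _ hκ e1)
  subst hx
  refine ⟨x, y', k', hr', bare_local hL x (τ := Sum.inl y) ⟨k'⁻¹ * k, ⟨⟨hκ.1, e1⟩, hκ.2⟩, ?_⟩ hA⟩
  show (k'⁻¹ * k) * eSec π T x.1 y.1 g * (k'⁻¹ * k)⁻¹ = eSec π T x.1 y'.1 g
  have h1 := eSec_erep hc St hr hQ hQg hu hQw
  have h2 := eSec_erep hc St hr' hQ hQg hu hQw'
  rw [← h1] at h2
  rw [mul_inv_rev, inv_inv]
  calc k'⁻¹ * k * eSec π T x.1 y.1 g * (k⁻¹ * k') = k'⁻¹ * (k * eSec π T x.1 y.1 g * k⁻¹) * k' := by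
        group
    _ = k'⁻¹ * (k' * eSec π T x.1 y'.1 g * k'⁻¹) * k' := by rw [h2]
    _ = _ := by group

theorem act_chain (hc : Ctx π) {St : Step π T s ell xi R E} {Gl : Glued π Yx Y} {g : G}
    {inn : I → ℕ∞} {UU : ℕ → Set (Subgroup Γ)} (hL : LocSat St Gl g inn UU) {J : Set I}
    {Q : Γ} (hQ : Q ∈ M) (hQg : π Q = g) {z w' : T.X} (hz : T.act Q z = z) (n : ℕ) :
    ∀ u, T.G.dist u z = n + 1 → T.act Q u = u → T.G.Adj z w' → T.G.dist w' u + 1 = T.G.dist z u →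
      ActE Gl J z w' → ∀ w, T.G.Adj u w → T.G.dist w z + 1 = T.G.dist u z → ActE Gl J u w := by
  have hconn := T.tree.1
  induction n with
  | zero =>
    intro u hd hu hzw hw' h w huw hw
    have e1 : w = z := by
      have : T.G.dist w z = 0 := by omega
      exact hconn.dist_eq_zero_iff.1 this
    have e2 : w' = u := by
      have : T.G.dist w' u = 0 := by
        rw [T.G.dist_comm (u := z)] at hw'
        omega
      exact hconn.dist_eq_zero_iff.1 this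
    subst e1 e2
    exact h.symm hc St
  | succ n ih =>
    intro u hd hu hzw hw' h w huw hw
    have hdw : T.G.dist w z = n + 1 := by omega
    have huw1 : T.G.dist u w = 1 := SimpleGraph.dist_eq_one_iff_adj.2 huw
    have hQw : T.act Q w = w := by
      have hb : T.Btw u w z := by
        show T.G.dist u w + T.G.dist w z = T.G.dist u z
        omega
      exact T.fix_conv hQ u hu z hz w hb
    -- the next vertex of `[w,z]`
    have hwz : w ≠ z := by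
      rintro rfl
      rw [SimpleGraph.dist_self] at hdw
      omega
    obtain ⟨w2, ⟨hw2, hdw2⟩, -⟩ := TG.exists_unique_next T.tree hwz
    have hQw2 : T.act Q w2 = w2 := by
      have h1 : T.G.dist w w2 = 1 := SimpleGraph.dist_eq_one_iff_adj.2 hw2
      have hb : T.Btw w w2 z := by
        show T.G.dist w w2 + T.G.dist w2 z = T.G.dist w z
        omega
      exact T.fix_conv hQ w hQw z hz w2 hb
    have hw'w : T.G.dist w' w + 1 = T.G.dist z w := by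
      obtain ⟨w'', ⟨hzw'', hdw''⟩, -⟩ := TG.exists_unique_next T.tree hwz.symm
      have hne : z ≠ u := by
        rintro rfl
        rw [SimpleGraph.dist_self] at hd
        omega
      obtain ⟨w3, -, huniq⟩ := TG.exists_unique_next T.tree hne
      have e1 : w' = w3 := huniq w' ⟨hzw, hw'⟩
      have e2 : w'' = w3 := by
        refine huniq w'' ⟨hzw'', ?_⟩
        have t1 : T.G.dist w'' u ≤ T.G.dist w'' w + T.G.dist w u := hconn.dist_triangle
        have t2 : T.G.dist z u ≤ T.G.dist z w'' + T.G.dist w'' u := hconn.dist_triangle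
        have t3 : T.G.dist z w'' = 1 := SimpleGraph.dist_eq_one_iff_adj.2 hzw''
        rw [T.G.dist_comm (u := w) (v := u)] at t1
        rw [T.G.dist_comm (u := z) (v := w)] at hdw''
        rw [T.G.dist_comm (u := z) (v := u)] at t2 ⊢
        omega
      rw [e1, ← e2]
      exact hdw''
    have h1 := ih w hdw hQw hzw hw'w h w2 hw2 hdw2
    have h2 := act_turn hc hL hQ hQg huw.symm hQw hQw2 hu h1
    exact h2.symm hc St

/-- claim (a) at time `j` -/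
def ClaimA (Gl : Glued π Yx Y) (g : G) (UU : ℕ → Set (Subgroup Γ)) (J : Set I) (j : ℕ) : Prop :=
  ∀ (x : {x // x ∈ R}) (τ : LI ell xi x.1 (E x.1)), T.stab x.1 ⊓ π.ker ≠ ⊥ →
    (∃ C ∈ lfam T UU x.1 j, MulAut.conj (lsec π T s ell xi x.1 (E x.1) τ g) • C = C) →
      Y.Act J (Gl.ι x ((Yx x).p τ))

theorem IsTower.le_ker {M : Subgroup Γ} {g : G} {s : I → Γ}
    {inn : I → ℕ∞} {U : ℕ → Set (Subgroup Γ)} (h : IsTower π M g s inn U) {j : ℕ}
    {B : Subgroup Γ} (hB : B ∈ U j) : B ≤ π.ker ∧ B ≠ ⊥ := by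
  obtain ⟨T0, -, hv⟩ := (h.periph j).tree
  rw [← hv] at hB
  obtain ⟨hne, x, hx⟩ := hB
  exact ⟨hx ▸ inf_le_right, hne⟩

theorem conj_stab_inf {Q : Γ} (hQ : Q ∈ M) (B : Subgroup Γ) (z : T.X) :
    MulAut.conj Q • (B ⊓ T.stab z) = (MulAut.conj Q • B) ⊓ T.stab (T.act Q z) := by
  rw [Subgroup.smul_inf, ← T.stab_act hQ]

/-- a source of the first kind -/
theorem act_source1 (hc : Ctx π) {St : Step π T s ell xi R E} {Gl : Glued π Yx Y} {g : G}
    {inn : I → ℕ∞} {UU : ℕ → Set (Subgroup Γ)} (ht : IsTower π M g (fun i => s i g) inn UU)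
    {J : Set I} {j : ℕ} (hA : ClaimA Gl g UU J j)
    {Q : Γ} (hQ : Q ∈ M) (hQg : π Q = g) {z w' : T.X} (hzw : T.G.Adj z w') (hz : T.act Q z = z)
    (hw : T.act Q w' = w') {B : Subgroup Γ} (hB : B ∈ UU j) (hinv : MulAut.conj Q • B = B)
    (hne : B ⊓ T.stab z ≠ ⊥) : ActE Gl J z w' := by
  obtain ⟨x, y, k, hr⟩ := exists_erep (R := R) (E := E) St hzw
  refine ⟨x, y, k, hr, ?_⟩
  have hk' : k⁻¹ ∈ M := M.inv_mem hr.mem.1
  have hkz : T.act k⁻¹ z = x.1 := by rw [← hr.fst, T.act_inv_act hr.mem.1]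
  have hC : MulAut.conj k⁻¹ • (B ⊓ T.stab z) = (MulAut.conj k⁻¹ • B) ⊓ T.stab x.1 := by
    rw [conj_stab_inf hk', hkz]
  have hCne : (MulAut.conj k⁻¹ • B) ⊓ T.stab x.1 ≠ ⊥ := by
    rw [← hC]
    intro h
    apply hne
    have := congrArg (fun S => (MulAut.conj k⁻¹)⁻¹ • S) h
    simpa using this
  have hB' : MulAut.conj k⁻¹ • B ∈ UU j := by
    refine (ht.periph j).inv _ ?_ _ hB
    have := (M ⊓ π.ker).inv_mem hr.mem
    rw [← mg_inf (π := π) M g] at this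
    exact this.1
  have hle := (ht.le_ker hB').1
  apply hA x (Sum.inl y)
  · intro h
    apply hCne
    rw [eq_bot_iff, ← h]
    exact fun a ha => ⟨ha.2, hle ha.1⟩
  · refine ⟨(MulAut.conj k⁻¹ • B) ⊓ T.stab x.1, ⟨hCne, _, hB', rfl⟩, ?_⟩
    show MulAut.conj (eSec π T x.1 y.1 g) • _ = _
    have he := eSec_erep hc St hr hQ hQg hz hw
    have he' : eSec π T x.1 y.1 g = k⁻¹ * Q * k := by rw [← he]; group
    have hQx : T.act (eSec π T x.1 y.1 g) x.1 = x.1 :=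
      ((eSec_spec hc St.full.surj St.split ((St.reps x.1 x.2).adj y.1 y.2)).2 g).1
    have hQM : eSec π T x.1 y.1 g ∈ M :=
      (eSec_spec hc St.full.surj St.split ((St.reps x.1 x.2).adj y.1 y.2)).1.mem g
    rw [conj_stab_inf hQM, hQx]
    congr 1
    rw [he', ← mul_smul, ← map_mul]
    rw [show k⁻¹ * Q * k * k⁻¹ = k⁻¹ * Q by group, map_mul, mul_smul, hinv]

/-- a source of the second kind -/
theorem act_source2 (hc : Ctx π) {St : Step π T s ell xi R E} {Gl : Glued π Yx Y} {g : G}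
    {inn : I → ℕ∞} {UU : ℕ → Set (Subgroup Γ)} (hL : LocSat St Gl g inn UU)
    {J : Set I} {i : I} (hi : i ∈ J) (hell : ell i)
    {Q : Γ} (hQ : Q ∈ M) (hQg : π Q = g) {z w' : T.X} (hzw : T.G.Adj z w') (hz : T.act Q z = z)
    (hw : T.act Q w' = w') {v : Γ} (hv : v ∈ M ⊓ π.ker) (hvQ : v * s i g * v⁻¹ = Q)
    (hvz : T.act v (xi i) = z) : ActE Gl J z w' := by
  obtain ⟨x, y, k, hr⟩ := exists_erep (R := R) (E := E) St hzw
  refine ⟨x, y, k, hr, ?_⟩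
  have hκ : k⁻¹ * v ∈ M ⊓ π.ker := (M ⊓ π.ker).mul_mem ((M ⊓ π.ker).inv_mem hr.mem) hv
  have e1 : T.act (k⁻¹ * v) (xi i) = x.1 := by
    rw [T.act_mul _ (M.inv_mem hr.mem.1) _ hv.1, hvz, ← hr.fst, T.act_inv_act hr.mem.1]
  have hx : xi i = x.1 := St.R_inj _ (St.xi_mem i hell) _ x.2 _ hκ e1
  rw [hx] at e1
  have hAi : Y.Act J (Gl.ι x ((Yx x).p (Sum.inr ⟨i, hell, hx⟩))) := by
    rw [← Gl.ι_p x i ⟨hell, hx⟩]
    exact ⟨i, hi, 1, one_mem _, by rw [Y.X.act_one]; exact Gadget.Conn.refl _⟩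
  refine bare_local hL x (τ := Sum.inr ⟨i, hell, hx⟩) ⟨k⁻¹ * v, ⟨⟨hκ.1, e1⟩, hκ.2⟩, ?_⟩ hAi
  show (k⁻¹ * v) * s i g * (k⁻¹ * v)⁻¹ = eSec π T x.1 y.1 g
  have he := eSec_erep hc St hr hQ hQg hz hw
  rw [mul_inv_rev, inv_inv]
  calc k⁻¹ * v * s i g * (v⁻¹ * k) = k⁻¹ * (v * s i g * v⁻¹) * k := by group
    _ = k⁻¹ * (k * eSec π T x.1 y.1 g * k⁻¹) * k := by rw [hvQ, he]
    _ = _ := by group

/-- from a source `z` to an edge `(u,w)` in direction of `z` -/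
theorem act_of_src (hc : Ctx π) {St : Step π T s ell xi R E} {Gl : Glued π Yx Y} {g : G}
    {inn : I → ℕ∞} {UU : ℕ → Set (Subgroup Γ)} (ht : IsTower π M g (fun i => s i g) inn UU)
    (hL : LocSat St Gl g inn UU) {J : Set I} {j : ℕ} (hA : ClaimA Gl g UU J j)
    (hJ : ∀ i, inn i ≤ j → i ∈ J ∧ ell i) {Q : Γ} (hQ : Q ∈ M) (hQg : π Q = g) {z u w : T.X}
    (hz : z ∈ Src π T (fun i => s i g) inn UU xi j Q) (hu : T.act Q u = u) (huw : T.G.Adj u w)
    (hw : T.G.dist w z + 1 = T.G.dist u z) : ActE Gl J u w := by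
  have hne : z ≠ u := by
    rintro rfl
    rw [SimpleGraph.dist_self] at hw
    omega
  obtain ⟨w', ⟨hzw, hdw⟩, -⟩ := TG.exists_unique_next T.tree hne
  have hQw' : T.act Q w' = w' := by
    have h1 : T.G.dist z w' = 1 := SimpleGraph.dist_eq_one_iff_adj.2 hzw
    have hb : T.Btw z w' u := by
      show T.G.dist z w' + T.G.dist w' u = T.G.dist z u
      omega
    exact T.fix_conv hQ z hz.1 u hu w' hb
  have hAz : ActE Gl J z w' := by
    rcases hz.2 with ⟨B, hB, hinv, hne⟩ | ⟨i, hi, v, hv, hvQ, hvz⟩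
    · exact act_source1 (St := St) hc ht hA hQ hQg hzw hz.1 hQw' hB hinv hne
    · exact act_source2 hc hL (hJ i hi).1 (hJ i hi).2 hQ hQg hzw hz.1 hQw' hv hvQ hvz
  refine act_chain hc hL hQ hQg hz.1 (T.G.dist w z) u (by omega) hu hzw ?_ hAz w huw (by omega)
  rw [hdw]

end

theorem claims (hc : Ctx π) {M : Subgroup Γ} {T : MTree M} {s : I → (G →* Γ)}
    {ell : I → Prop} {xi : I → T.X} {R : Set T.X} {E : T.X → Finset T.X}
    (St : Step π T s ell xi R E)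
    {Yx : ∀ x : {x // x ∈ R}, Gadget π (T.stab x.1) (lsec π T s ell xi x.1 (E x.1))}
    {Y : Gadget π M s} (Gl : Glued π Yx Y) {g : G} {inn : I → ℕ∞} {UU : ℕ → Set (Subgroup Γ)}
    (ht : IsTower π M g (fun i => s i g) inn UU) (hin : ∀ i, inn i < ⊤ → ell i)
    (hsat : ∀ x : {x // x ∈ R}, T.stab x.1 ⊓ π.ker ≠ ⊥ → ∀ Jx j,
      TSat π (T.stab x.1) (fun τ => lsec π T s ell xi x.1 (E x.1) τ g)
        (linn π T g s inn UU ell xi x.1 (E x.1)) (lfam T UU x.1) Jx j → (Yx x).Sat Jx j)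
    (hbot : ∀ x : {x // x ∈ R}, T.stab x.1 ⊓ π.ker = ⊥ → ∀ Jx : Set (LI ell xi x.1 (E x.1)),
      Jx.Nonempty → ∀ j, (Yx x).Sat Jx j)
    {J : Set I} {t : ℕ} (hJ : ∀ i, inn i < t → i ∈ J) :
    ∀ t' ≤ t, ∀ (x : {x // x ∈ R}) (τ : LI ell xi x.1 (E x.1)),
      (linn π T g s inn UU ell xi x.1 (E x.1) τ < t' ∨ (T.stab x.1 ⊓ π.ker ≠ ⊥ ∧
        ∃ C ∈ lfam T UU x.1 t', MulAut.conj (lsec π T s ell xi x.1 (E x.1) τ g) • C = C)) →
      Y.Act J (Gl.ι x ((Yx x).p τ)) := by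
  have hL : LocSat St Gl g inn UU := ⟨hsat, hbot⟩
  intro t'
  induction t' using Nat.strong_induction_on with
  | _ t' ih =>
    intro ht' 
    -- claim (b)
    have hb : ∀ (x : {x // x ∈ R}) (τ : LI ell xi x.1 (E x.1)),
        linn π T g s inn UU ell xi x.1 (E x.1) τ < t' → Y.Act J (Gl.ι x ((Yx x).p τ)) := by
      intro x τ hτ
      match τ, hτ with
      | Sum.inr ⟨i, hi⟩, hτ =>
        rw [← Gl.ι_p x i hi]
        have hi' : i ∈ J := hJ i (lt_of_lt_of_le hτ (by exact_mod_cast ht'))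
        exact ⟨i, hi', 1, one_mem _, by rw [Y.X.act_one]; exact Gadget.Conn.refl _⟩
      | Sum.inl y, hτ =>
        obtain ⟨j, hj⟩ := ENat.ne_top_iff_exists.1 (ne_top_of_lt hτ)
        rw [← hj] at hτ
        have hjt : j < t' := by exact_mod_cast hτ
        have hxy := (St.reps x.1 x.2).adj y.1 y.2
        obtain ⟨z, hz, hbey⟩ := (linn_le_iff hc St.full St.split ht y hxy j).1 (le_of_eq hj.symm)
        obtain ⟨hsec, hfix⟩ := eSec_spec hc St.full.surj St.split hxy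
        have hA : ClaimA Gl g UU J j := fun x τ hne hC =>
          ih j hjt (le_trans hjt.le ht') x τ (Or.inr ⟨hne, hC⟩)
        have hd : T.G.dist y.1 z + 1 = T.G.dist x.1 z := by
          have h1 : T.G.dist y.1 z < T.G.dist x.1 z := hbey
          rcases TG.adj_dist T.tree hxy z with h | h <;> omega
        have hE := act_of_src hc ht hL hA (fun i hi => ⟨hJ i (lt_of_le_of_lt hi
          (by exact_mod_cast lt_of_lt_of_le hjt ht')), hin i (lt_of_le_of_lt hi (ENat.natCast_lt_top j))⟩)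
          (hsec.mem g) (hsec.sec g) hz (hfix g).1 hxy hd
        exact hE.act St (k := 1) ⟨one_mem _, T.act_one _, T.act_one _⟩
    intro x τ hτ
    rcases hτ with hτ | ⟨hne, hC⟩
    · exact hb x τ hτ
    · have hsat' : (Yx x).Sat {τ' | linn π T g s inn UU ell xi x.1 (E x.1) τ' < t'} (some τ) :=
        hsat x hne _ _ (Or.inr ⟨t', fun τ' h => h, hC⟩)
      exact act_of_local x (fun τ' h => hb x τ' h) hsat'

end Pool.Agent.Lib.MP_6567fb_al
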