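import Pool.Agent.Lib.MP_6567fb_al.F7d

/-!
# MP_6567fb_al, module F7e

The glued gadget satisfies what the tower satisfies.
-/

set_option autoImplicit false

open scoped Pointwise
open Filter

namespace Pool.Agent.Lib.MP_6567fb_al

open MTree
variable {Γ G : Type} [Group Γ] [Group G] {π : Γ →* G}

variable {I : Type}

section
variable {M : Subgroup Γ} {T : MTree M} {s : I → (G →* Γ)}
    {ell : I → Prop} {xi : I → T.X} {R : Set T.X} {E : T.X → Finset T.X}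

/-- sources for the final step -/
def GSrc (π : Γ →* G) {M : Subgroup Γ} {T : MTree M} (s : I → (G →* Γ)) (ell : I → Prop)
    (xi : I → T.X) (g : G) (UU : ℕ → Set (Subgroup Γ)) (J : Set I) (t : ℕ) (Q : Γ) (z : T.X) : Prop :=
  T.act Q z = z ∧ ((∃ j ≤ t, ∃ B ∈ UU j, MulAut.conj Q • B = B ∧ B ⊓ T.stab z ≠ ⊥) ∨
    ∃ i ∈ J, ell i ∧ ∃ v ∈ M ⊓ π.ker, v * s i g * v⁻¹ = Q ∧ T.act v (xi i) = z)

theorem gsrc_exists (hc : Ctx π) (St : Step π T s ell xi R E) {g : G}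
    {inn : I → ℕ∞} {UU : ℕ → Set (Subgroup Γ)} (ht : IsTower π M g (fun i => s i g) inn UU)
    (hin : ∀ i, inn i < ⊤ → ell i) {J : Set I} {t : ℕ} (hJ : ∀ i, inn i < t → i ∈ J)
    {Q : Γ} (hQ : Q ∈ M) (hQg : π Q = g) (hfix : ∃ z, T.act Q z = z) {B : Subgroup Γ}
    (hB : B ∈ UU t) (hinv : MulAut.conj Q • B = B) : ∃ z, GSrc π s ell xi g UU J t Q z := by
  cases t with
  | zero =>
    rw [ht.zero] at hB
    exact absurd hB (Set.notMem_empty _)
  | succ t' =>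
    have hx : ∀ i, inn i < ⊤ → T.act (s i g) (xi i) = xi i := fun i hi => St.ell_fix i (hin i hi) g
    rcases lemmaS' hc St.full St.split ht hx hQ hQg hfix hB hinv with
      ⟨z, hz⟩ | ⟨z, hz, B', hB', hinv', hne⟩
    · refine ⟨z, hz.1, ?_⟩
      rcases hz.2 with ⟨B1, hB1, h1, h2⟩ | ⟨i, hi, v, hv, h1, h2⟩
      · exact Or.inl ⟨t', Nat.le_succ _, B1, hB1, h1, h2⟩
      · have hi1 : inn i < ((t' + 1 : ℕ) : ℕ∞) :=
          lt_of_le_of_lt hi (by exact_mod_cast Nat.lt_succ_self t')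
        exact Or.inr ⟨i, hJ i hi1, hin i (lt_of_lt_of_le hi1 le_top), v, hv, h1, h2⟩
    · exact ⟨z, hz, Or.inl ⟨t' + 1, le_rfl, B', hB', hinv', hne⟩⟩

variable {Yx : ∀ x : {x // x ∈ R}, Gadget π (T.stab x.1) (lsec π T s ell xi x.1 (E x.1))}
    {Y : Gadget π M s}

theorem act_of_gsrc (hc : Ctx π) {St : Step π T s ell xi R E} {Gl : Glued π Yx Y} {g : G}
    {inn : I → ℕ∞} {UU : ℕ → Set (Subgroup Γ)} (ht : IsTower π M g (fun i => s i g) inn UU)
    (hL : LocSat St Gl g inn UU) {J : Set I} {t : ℕ} (hA : ∀ j ≤ t, ClaimA Gl g UU J j)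
    {Q : Γ} (hQ : Q ∈ M) (hQg : π Q = g) {z u w : T.X}
    (hz : GSrc π s ell xi g UU J t Q z) (hu : T.act Q u = u) (huw : T.G.Adj u w)
    (hw : T.G.dist w z + 1 = T.G.dist u z) : ActE Gl J u w := by
  have hne : z ≠ u := by
    rintro rfl
    rw [SimpleGraph.dist_self] at hw
    omega
  obtain ⟨w', ⟨hzw, hdw⟩, -⟩ := TG.exists_unique_next T.tree hne
  have hQw' : T.act Q w' = w' := by
    have h1 : T.G.dist z w' = 1 := SimpleGraph.dist_eq_one_iff_adj.2 hzw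
    have hb : T.Btw z w' u := by
      show T.G.dist z w' + T.G.dist w' u = T.G.dist z u
      omega
    exact T.fix_conv hQ z hz.1 u hu w' hb
  have hAz : ActE Gl J z w' := by
    rcases hz.2 with ⟨j, hj, B, hB, hinv, hne⟩ | ⟨i, hi, hell, v, hv, hvQ, hvz⟩
    · exact act_source1 (St := St) hc ht (hA j hj) hQ hQg hzw hz.1 hQw' hB hinv hne
    · exact act_source2 hc hL hi hell hQ hQg hzw hz.1 hQw' hv hvQ hvz
  exact act_chain hc hL hQ hQg hz.1 (T.G.dist w z) u (by omega) hu hzw (by rw [hdw]) hAz w huw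
    (by omega)

theorem act_p (Y : Gadget π M s) {J : Set I} {i : I} (hi : i ∈ J) : Y.Act J (Y.p i) :=
  ⟨i, hi, 1, one_mem _, by rw [Y.X.act_one]; exact Gadget.Conn.refl _⟩

theorem act_ell (hc : Ctx π) {St : Step π T s ell xi R E} {Gl : Glued π Yx Y} {g : G}
    {inn : I → ℕ∞} {UU : ℕ → Set (Subgroup Γ)} (ht : IsTower π M g (fun i => s i g) inn UU)
    (hL : LocSat St Gl g inn UU) {J : Set I} {t : ℕ} (hA : ∀ j ≤ t, ClaimA Gl g UU J j)
    (hne : ∀ i i', CJ (M ⊓ π.ker) (s i g) (s i' g) → i = i') {j : I} (hj : ell j) {z : T.X}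
    (hz : GSrc π s ell xi g UU J t (s j g) z) : Y.Act J (Y.p j) := by
  have hQ := (St.sec j).mem g
  have hQg := (St.sec j).sec g
  have hfix := St.ell_fix j hj g
  let x : {x // x ∈ R} := ⟨xi j, St.xi_mem j hj⟩
  rw [Gl.ι_p x j ⟨hj, rfl⟩]
  rcases eq_or_ne z (xi j) with hzx | hzx
  · rcases hz.2 with ⟨k, hk, B, hB, hinv, hne'⟩ | ⟨i, hi, hell, v, hv, hvQ, hvz⟩
    · rw [hzx] at hne'
      refine hA k hk x (Sum.inr ⟨j, hj, rfl⟩) ?_ ⟨B ⊓ T.stab (xi j), ⟨hne', B, hB, rfl⟩, ?_⟩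
      · intro h
        apply hne'
        rw [eq_bot_iff, ← h]
        exact fun a ha => ⟨ha.2, (ht.le_ker hB).1 ha.1⟩
      · show MulAut.conj (s j g) • _ = _
        rw [conj_stab_inf hQ, hinv, hfix]
    · have : i = j := hne i j ⟨v, hv, hvQ⟩
      subst this
      rw [← Gl.ι_p x i ⟨hj, rfl⟩]
      exact act_p Y hi
  · obtain ⟨w, ⟨hxw, hdw⟩, -⟩ := TG.exists_unique_next T.tree hzx.symm
    have hw' : T.act (s j g) w = w := by
      have h1 : T.G.dist (xi j) w = 1 := SimpleGraph.dist_eq_one_iff_adj.2 hxw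
      have hb : T.Btw (xi j) w z := by
        show T.G.dist (xi j) w + T.G.dist w z = T.G.dist (xi j) z
        omega
      exact T.fix_conv hQ _ hfix z hz.1 w hb
    have hE := act_of_gsrc hc ht hL hA hQ hQg hz hfix hxw hdw
    obtain ⟨x', y, k, hr, hAct⟩ := hE
    have hx : x' = x := Subtype.ext (St.R_inj _ x'.2 _ x.2 _ hr.mem hr.fst)
    subst hx
    refine bare_local hL x (τ := Sum.inl y) ⟨k, ⟨⟨hr.mem.1, hr.fst⟩, hr.mem.2⟩, ?_⟩ hAct
    exact eSec_erep hc St hr hQ hQg hfix hw'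

/-- the edge of `T` is built -/
theorem edge_conn (hc : Ctx π) (St : Step π T s ell xi R E) (Gl : Glued π Yx Y) {J : Set I}
    {x x' : {x // x ∈ R}} {y : {y // y ∈ E x.1}} {y' : {y // y ∈ E x'.1}} {k : Γ}
    (hk : k ∈ M ⊓ π.ker) (e1 : T.act k x'.1 = y.1) (e2 : T.act k y'.1 = x.1)
    (hA : Y.Act J (Gl.ι x ((Yx x).p (Sum.inl y)))) :
    Y.Conn J (Gl.ι x ((Yx x).p (Sum.inl y))) (Y.X.act k (Gl.ι x' ((Yx x').p (Sum.inl y')))) := by
  obtain ⟨hadj, htau⟩ := Gl.edge x x' y y' _ hk e1 e2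
  have hxy := (St.reps x.1 x.2).adj y.1 y.2
  have hxy' := (St.reps x'.1 x'.2).adj y'.1 y'.2
  refine Gadget.Conn.of_eq Y hadj ?_ ?_ (Or.inl hA)
  · rw [Gl.ι_sig, (Yx x).p_sig, htau]
    rfl
  · rw [htau]
    ext g
    rw [Y.sig_eq _ hk, Gl.ι_sig, (Yx x').p_sig]
    show k * eSec π T x'.1 y'.1 g * k⁻¹ = _
    rw [← eSec_act hc St.full.surj St.split hxy' hk, e1, e2,
      eSec_symm hc St.full.surj St.split hxy.symm]

theorem conn_of_all {M : Subgroup Γ} {s : I → (G →* Γ)} (Y : Gadget π M s) {J : Set I}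
    (h : ∀ a b, Y.X.G.Adj a b → Y.Conn J a b) (a b : Y.X.X) : Y.Conn J a b := by
  obtain ⟨w⟩ := Y.X.tree.1 a b
  induction w with
  | nil => exact Gadget.Conn.refl _
  | cons hadj w ih => exact (h _ _ hadj).trans ih

/-- all edges are built if `H` is in the family at time `t` -/
theorem all_conn (hc : Ctx π) (St : Step π T s ell xi R E) (Gl : Glued π Yx Y) {g : G}
    {inn : I → ℕ∞} {UU : ℕ → Set (Subgroup Γ)} (ht : IsTower π M g (fun i => s i g) inn UU)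
    (hL : LocSat St Gl g inn UU) (hin : ∀ i, inn i < ⊤ → ell i) {J : Set I} {t : ℕ}
    (hJ : ∀ i, inn i < t → i ∈ J) (hH : M ⊓ π.ker ∈ UU t) :
    J.Nonempty ∧ ∀ a b, Y.X.G.Adj a b → Y.Conn J a b := by
  have hcl := claims hc St Gl ht hin hL.sat hL.bot hJ
  have hA : ∀ j ≤ t, ClaimA Gl g UU J j := fun j hj x τ hne hC => hcl j hj x τ (Or.inr ⟨hne, hC⟩)
  -- all attaching vertices are active
  have hAct : ∀ u w, T.G.Adj u w → ActE Gl J u w := by
    intro u w huw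
    obtain ⟨hsec, hfix⟩ := eSec_spec hc St.full.surj St.split huw
    have hinv : MulAut.conj (eSec π T u w g) • (M ⊓ π.ker) = M ⊓ π.ker := by
      rw [Subgroup.smul_inf, Subgroup.Normal.conj_smul_eq_self _ π.ker,
        Subgroup.conj_smul_eq_self_of_mem (hsec.mem g)]
    obtain ⟨z, hz⟩ := gsrc_exists (ell := ell) (xi := xi) hc St ht hin hJ (hsec.mem g) (hsec.sec g)
      ⟨u, (hfix g).1⟩ hH hinv
    rcases TG.adj_dist T.tree huw z with h | h
    · exact act_of_gsrc hc ht hL hA (hsec.mem g) (hsec.sec g) hz (hfix g).1 huw h.symm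
    · exact (act_of_gsrc hc ht hL hA (hsec.mem g) (hsec.sec g) hz (hfix g).2 huw.symm h.symm).symm
        hc St
  have hAy : ∀ (x : {x // x ∈ R}) (y : {y // y ∈ E x.1}),
      Y.Act J (Gl.ι x ((Yx x).p (Sum.inl y))) := fun x y =>
    (hAct x.1 y.1 ((St.reps x.1 x.2).adj y.1 y.2)).act St (k := 1)
      ⟨one_mem _, T.act_one _, T.act_one _⟩
  have hyex : ∀ x : {x // x ∈ R}, Nonempty {y // y ∈ E x.1} := by
    intro x
    obtain ⟨w, hw⟩ := (stab_surj hc St.full.surj St.split St.nontriv x.1).1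
    obtain ⟨y, hy, -⟩ := (St.reps x.1 x.2).rep w hw
    exact ⟨⟨y, hy⟩⟩
  -- local edges
  have hloc : ∀ (x : {x // x ∈ R}) (a b : (Yx x).X.X), (Yx x).X.G.Adj a b →
      Y.Conn J (Gl.ι x a) (Gl.ι x b) := by
    intro x a b hab
    by_cases hx : T.stab x.1 ⊓ π.ker = ⊥
    · obtain ⟨y⟩ := hyex x
      have h1 := (hL.bot x hx {Sum.inl y} (Set.singleton_nonempty _) none).2 a b hab
      exact conn_local Gl x (fun τ hτ => by rw [Set.mem_singleton_iff.1 hτ]; exact hAy x y) h1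
    · have hmem : T.stab x.1 ⊓ π.ker ∈ lfam T UU x.1 t := by
        refine ⟨hx, M ⊓ π.ker, hH, ?_⟩
        ext h
        constructor
        · rintro ⟨h1, h2⟩
          exact ⟨h2, h1.2⟩
        · rintro ⟨h1, h2⟩
          exact ⟨⟨h1.1, h2⟩, h1⟩
      have h1 := (hL.sat x hx {τ' | linn π T g s inn UU ell xi x.1 (E x.1) τ' < t} none
        ⟨t, fun τ h => h, hmem⟩).2 a b hab
      exact conn_local Gl x (fun τ hτ => hcl t le_rfl x τ (Or.inl hτ)) h1
  have hlocall : ∀ (x : {x // x ∈ R}) (a b : (Yx x).X.X), Y.Conn J (Gl.ι x a) (Gl.ι x b) := by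
    intro x a b
    obtain ⟨w⟩ := (Yx x).X.tree.1 a b
    induction w with
    | nil => exact Gadget.Conn.refl _
    | cons hadj w ih => exact (hloc _ _ _ hadj).trans ih
  have hActι : ∀ (x : {x // x ∈ R}) (a : (Yx x).X.X), Y.Act J (Gl.ι x a) := by
    intro x a
    obtain ⟨y⟩ := hyex x
    exact Gadget.Act.conn Y (hAy x y) (hlocall x _ _)
  let NL : Y.X.X → Prop := fun q =>
    ∃ (x : {x // x ∈ R}) (q' : (Yx x).X.X), ∃ h ∈ M ⊓ π.ker, q = Y.X.act h (Gl.ι x q')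
  have hNLact : ∀ q, NL q → Y.Act J q := by
    rintro q ⟨x, q', h, hh, rfl⟩
    exact Gadget.Act.act Y hh (hActι x q')
  have hNLmul : ∀ q, NL q → ∀ h ∈ M ⊓ π.ker, NL (Y.X.act h q) := by
    rintro q ⟨x, q', h, hh, rfl⟩ k hk
    exact ⟨x, q', k * h, (M ⊓ π.ker).mul_mem hk hh, (Y.X.act_mul _ hk _ hh _).symm⟩
  -- every `NL` vertex has a neighbour to which it is connected
  have hNLnb : ∀ q, NL q → ∃ q1, Y.X.G.Adj q q1 ∧ Y.Conn J q q1 := by
    rintro q ⟨x, q', h, hh, rfl⟩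
    suffices hs : ∃ q1, Y.X.G.Adj (Gl.ι x q') q1 ∧ Y.Conn J (Gl.ι x q') q1 by
      obtain ⟨q1, h1, h2⟩ := hs
      exact ⟨Y.X.act h q1, Y.X.act_adj _ hh _ _ h1, Gadget.Conn.act Y hh h2⟩
    obtain ⟨y⟩ := hyex x
    by_cases hq : q' = (Yx x).p (Sum.inl y)
    · subst hq
      have hxy := (St.reps x.1 x.2).adj y.1 y.2
      obtain ⟨x', y', k, hr⟩ := exists_erep (R := R) (E := E) St hxy.symm
      exact ⟨_, (Gl.edge x x' y y' k hr.mem hr.fst hr.snd).1,
        edge_conn hc St Gl hr.mem hr.fst hr.snd (hAy x y)⟩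
    · obtain ⟨w⟩ := (Yx x).X.tree.1 q' ((Yx x).p (Sum.inl y))
      cases w with
      | nil => exact absurd rfl hq
      | cons hadj w => exact ⟨_, Gl.ι_adj x _ _ hadj, hloc _ _ _ hadj⟩
  -- leaves have one neighbour
  have hleaf : ∀ i, ¬ ell i → ∀ h ∈ M ⊓ π.ker, ∃ b, NL b ∧
      ∀ b', Y.X.G.Adj (Y.X.act h (Y.p i)) b' → b' = b := by
    intro i hi h hh
    obtain ⟨b, -, hb1, x, q, k, hk, hbq⟩ := Gl.leaf i hi
    refine ⟨Y.X.act h b, hNLmul _ ⟨x, q, k, hk, hbq⟩ h hh, fun b' hb' => ?_⟩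
    have h1 : Y.X.G.Adj (Y.p i) (Y.X.act h⁻¹ b') := by
      rw [← Y.X.adj_act_iff hh, Y.X.act_act_inv hh]
      exact hb'
    have h2 := hb1 _ h1
    rw [← h2, Y.X.act_act_inv hh]
  -- edges between `NL` vertices
  have hNLedge : ∀ a b, Y.X.G.Adj a b → NL a → NL b → Y.Conn J a b := by
    intro a b hab ha hb
    rcases Gl.cover a b hab with ⟨x, a', b', h1, h, hh, rfl, rfl⟩ |
      ⟨x, x', y, y', k, hk, h, hh, e1, e2, rfl, rfl⟩ | ⟨i, hi, h, hh, h1, -⟩
    · exact Gadget.Conn.act Y hh (hloc _ _ _ h1)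
    · exact Gadget.Conn.act Y hh (edge_conn hc St Gl hk e1 e2 (hAy x y))
    · obtain ⟨c, -, hc1⟩ := hleaf i hi h hh
      rcases h1 with rfl | rfl
      · obtain ⟨q1, h2, h3⟩ := hNLnb _ ha
        rw [hc1 _ hab, ← hc1 _ h2]
        exact h3
      · obtain ⟨q1, h2, h3⟩ := hNLnb _ hb
        rw [hc1 _ hab.symm, ← hc1 _ h2]
        exact h3.symm
  -- `NL` vertices are connected
  have hNLconn : ∀ n a b, Y.X.G.dist a b = n → NL a → NL b → Y.Conn J a b := by
    intro n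
    induction n with
    | zero =>
      intro a b hd _ _
      rw [Y.X.tree.1.dist_eq_zero_iff] at hd
      rw [hd]
      exact Gadget.Conn.refl _
    | succ n ih =>
      intro a b hd ha hb
      have hab : a ≠ b := by
        rintro rfl
        rw [SimpleGraph.dist_self] at hd
        omega
      obtain ⟨c, ⟨hac, hdc⟩, -⟩ := TG.exists_unique_next Y.X.tree hab
      have hcNL : NL c := by
        rcases Gl.vert c with h | ⟨i, hi, h, hh, hcp⟩
        · exact h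
        · rcases eq_or_ne c b with hcb | hcb
          · rw [hcb]
            exact hb
          · exfalso
            obtain ⟨c', ⟨hcc, hdc'⟩, -⟩ := TG.exists_unique_next Y.X.tree hcb
            obtain ⟨b0, -, hb0⟩ := hleaf i hi h hh
            rw [← hcp] at hb0
            have e1 := hb0 _ hac.symm
            have e2 := hb0 _ hcc
            rw [e2, ← e1] at hdc'
            omega
      exact (hNLedge a c hac ha hcNL).trans (ih c b (by omega) hcNL hb)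
  -- leaf edges
  have hleafedge : ∀ a b, Y.X.G.Adj a b → ∀ i, ¬ ell i → ∀ h ∈ M ⊓ π.ker,
      b = Y.X.act h (Y.p i) → (∀ g, Y.tau a b g = h * s i g * h⁻¹) → Y.Conn J a b := by
    intro a b hab i hi h hh hb htau
    obtain ⟨c, hcNL, hc1⟩ := hleaf i hi h hh
    have ha : NL a := by
      rw [← hb] at hc1
      rw [hc1 a hab.symm]
      exact hcNL
    obtain ⟨j, hj, k, hk, hcon⟩ := hNLact a ha
    refine Gadget.Conn.edge hab (fun g => ?_) (fun g => ?_) hj hk hcon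
    · exact hNLconn _ _ _ rfl ha (hNLmul _ ha _ (Y.tau_sig_mem hab a g))
    · have e : Y.sig b g = h * s i g * h⁻¹ := by rw [hb, Y.sig_eq h hh, Y.p_sig]
      rw [htau g, e, mul_inv_cancel, Y.X.act_one]
      exact Gadget.Conn.refl _
  refine ⟨?_, ?_⟩
  · obtain ⟨u⟩ := T.tree.1.nonempty
    obtain ⟨x, hx, -⟩ := St.R_rep u
    obtain ⟨y⟩ := hyex ⟨x, hx⟩
    obtain ⟨i, hi, -⟩ := hAy ⟨x, hx⟩ y
    exact ⟨i, hi⟩
  · intro a b hab
    rcases Gl.cover a b hab with ⟨x, a', b', h1, h, hh, rfl, rfl⟩ |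
      ⟨x, x', y, y', k, hk, h, hh, e1, e2, rfl, rfl⟩ | ⟨i, hi, h, hh, h1, htau⟩
    · exact Gadget.Conn.act Y hh (hloc _ _ _ h1)
    · exact Gadget.Conn.act Y hh (edge_conn hc St Gl hk e1 e2 (hAy x y))
    · rcases h1 with h1 | h1
      · refine (hleafedge b a hab.symm i hi h hh h1 (fun g => ?_)).symm
        rw [← Y.tau_symm a b hab]
        exact htau g
      · exact hleafedge a b hab i hi h hh h1 htau

end

theorem glued_sat (hc : Ctx π) {M : Subgroup Γ} {T : MTree M} {s : I → (G →* Γ)}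
    {ell : I → Prop} {xi : I → T.X} {R : Set T.X} {E : T.X → Finset T.X}
    (St : Step π T s ell xi R E)
    {Yx : ∀ x : {x // x ∈ R}, Gadget π (T.stab x.1) (lsec π T s ell xi x.1 (E x.1))}
    {Y : Gadget π M s} (Gl : Glued π Yx Y) {g : G} {inn : I → ℕ∞} {UU : ℕ → Set (Subgroup Γ)}
    (ht : IsTower π M g (fun i => s i g) inn UU) (hin : ∀ i, inn i < ⊤ → ell i)
    (hell : ∀ i t, ∀ B ∈ UU t, B ≠ M ⊓ π.ker → MulAut.conj (s i g) • B = B → ell i)
    (hne : ∀ i i', CJ (M ⊓ π.ker) (s i g) (s i' g) → i = i')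
    (hsat : ∀ x : {x // x ∈ R}, T.stab x.1 ⊓ π.ker ≠ ⊥ → ∀ Jx j,
      TSat π (T.stab x.1) (fun τ => lsec π T s ell xi x.1 (E x.1) τ g)
        (linn π T g s inn UU ell xi x.1 (E x.1)) (lfam T UU x.1) Jx j → (Yx x).Sat Jx j)
    (hbot : ∀ x : {x // x ∈ R}, T.stab x.1 ⊓ π.ker = ⊥ → ∀ Jx : Set (LI ell xi x.1 (E x.1)),
      Jx.Nonempty → ∀ j, (Yx x).Sat Jx j)
    {J : Set I} {j : Option I} (hs : TSat π M (fun i => s i g) inn UU J j) : Y.Sat J j := by
  have hL : LocSat St Gl g inn UU := ⟨hsat, hbot⟩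
  cases j with
  | none =>
    obtain ⟨t, hJ, hH⟩ := hs
    exact all_conn hc St Gl ht hL hin hJ hH
  | some j =>
    show Y.Act J (Y.p j)
    rcases hs with ⟨i, hi, hcj⟩ | ⟨t, hJ, B, hB, hinv⟩
    · have := hne i j hcj
      subst this
      exact act_p Y hi
    · by_cases hBH : B = M ⊓ π.ker
      · rw [hBH] at hB
        obtain ⟨⟨i, hi⟩, hall⟩ := all_conn hc St Gl ht hL hin hJ hB
        exact Gadget.Act.conn Y (act_p Y hi) (conn_of_all Y hall _ _)
      · have hj := hell j t B hB hBH hinv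
        have hcl := claims hc St Gl ht hin hL.sat hL.bot hJ
        have hA : ∀ j ≤ t, ClaimA Gl g UU J j := fun j hj x τ hne hC =>
          hcl j hj x τ (Or.inr ⟨hne, hC⟩)
        obtain ⟨z, hz⟩ := gsrc_exists (ell := ell) (xi := xi) hc St ht hin hJ ((St.sec j).mem g)
          ((St.sec j).sec g) ⟨xi j, St.ell_fix j hj g⟩ hB hinv
        exact act_ell hc ht hL hA hne hj hz

end Pool.Agent.Lib.MP_6567fb_al
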