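import Pool.Agent.Lib.MP_6567fb_al.F6a
import Pool.Agent.Lib.MP_6567fb_al.F7b

/-!
# MP_6567fb_al, module F7g

Change of the index set.
-/

set_option autoImplicit false

open scoped Pointwise
open Filter

namespace Pool.Agent.Lib.MP_6567fb_al

open MTree
variable {Γ G : Type} [Group Γ] [Group G] {π : Γ →* G}

variable {I I' : Type}

/-- the gadget with other marked vertices -/
def Gadget.trans {M : Subgroup Γ} {s : I → (G →* Γ)} {s' : I' → (G →* Γ)} (r : I → I')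
    (v : I → Γ) (hv : ∀ i, v i ∈ M ⊓ π.ker) (hs : ∀ i g, s i g = v i * s' (r i) g * (v i)⁻¹)
    (Y' : Gadget π M s') : Gadget π M s where
  X := Y'.X
  free := Y'.free
  cocptV := Y'.cocptV
  cocptE := Y'.cocptE
  sig := Y'.sig
  sig_sec := Y'.sig_sec
  sig_eq := Y'.sig_eq
  tau := Y'.tau
  tau_sec := Y'.tau_sec
  tau_symm := Y'.tau_symm
  tau_eq := Y'.tau_eq
  p := fun i => Y'.X.act (v i) (Y'.p (r i))
  p_sig := fun i => by
    ext g
    rw [Y'.sig_eq _ (hv i), Y'.p_sig, hs]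

theorem gadget_transfer {M : Subgroup Γ} {s : I → (G →* Γ)} {s' : I' → (G →* Γ)} (r : I → I')
    (v : I → Γ) (hv : ∀ i, v i ∈ M ⊓ π.ker) (hs : ∀ i g, s i g = v i * s' (r i) g * (v i)⁻¹)
    (Y' : Gadget π M s') :
    ∃ Y : Gadget π M s, ∀ (J : Set I) (j : Option I), Y'.Sat (r '' J) (j.map r) → Y.Sat J j := by
  let Y := Gadget.trans r v hv hs Y'
  have key : ∀ (J : Set I) (a b : Y'.X.X), Y'.Conn (r '' J) a b → Y.Conn J a b := by
    intro J a b hab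
    induction hab with
    | refl a => exact Gadget.Conn.refl (Y := Y) _
    | symm h ih => exact Gadget.Conn.symm (Y := Y) ih
    | trans h h' ih ih' => exact Gadget.Conn.trans (Y := Y) ih ih'
    | @edge a b hab ha hb i' hi' k hk hact iha ihb ihact =>
      obtain ⟨i, hi, rfl⟩ := hi'
      refine Gadget.Conn.edge (Y := Y) hab iha ihb hi (k := k * (v i)⁻¹)
        ((M ⊓ π.ker).mul_mem hk ((M ⊓ π.ker).inv_mem (hv i))) ?_
      have e : Y.X.act (k * (v i)⁻¹) (Y.p i) = Y'.X.act k (Y'.p (r i)) := by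
        show Y'.X.act (k * (v i)⁻¹) (Y'.X.act (v i) (Y'.p (r i))) = _
        rw [Y'.X.act_mul _ hk _ ((M ⊓ π.ker).inv_mem (hv i)), Y'.X.act_inv_act (hv i)]
      rw [e]
      exact ihact
  have hAct : ∀ (J : Set I) (q : Y'.X.X), Y'.Act (r '' J) q → Y.Act J q := by
    rintro J q ⟨i', ⟨i, hi, rfl⟩, k, hk, hc⟩
    refine ⟨i, hi, k * (v i)⁻¹, (M ⊓ π.ker).mul_mem hk ((M ⊓ π.ker).inv_mem (hv i)), ?_⟩
    have e : Y.X.act (k * (v i)⁻¹) (Y.p i) = Y'.X.act k (Y'.p (r i)) := by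
      show Y'.X.act (k * (v i)⁻¹) (Y'.X.act (v i) (Y'.p (r i))) = _
      rw [Y'.X.act_mul _ hk _ ((M ⊓ π.ker).inv_mem (hv i)), Y'.X.act_inv_act (hv i)]
    rw [e]
    exact key J _ _ hc
  refine ⟨Y, fun J j hj => ?_⟩
  cases j with
  | none =>
    refine ⟨Set.image_nonempty.1 hj.1, fun a b hab => key J a b (hj.2 a b hab)⟩
  | some j =>
    have h1 : Y.Act J (Y'.p (r j)) := hAct J _ hj
    exact Gadget.Act.act Y (hv j) h1

theorem tower_transfer {M : Subgroup Γ} {g : G} {s : I → Γ} {s' : I' → Γ} (r : I → I')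
    (hr : Function.Surjective r) (v : I → Γ) (hv : ∀ i, v i ∈ M ⊓ π.ker)
    (hs : ∀ i, s i = v i * s' (r i) * (v i)⁻¹) {inn : I → ℕ∞} {U : ℕ → Set (Subgroup Γ)}
    (h : IsTower π M g s inn U) :
    IsTower π M g s' (fun i' => ⨅ i ∈ {i | r i = i'}, inn i) U ∧
      ∀ (J : Set I) (j : Option I), TSat π M s inn U J j →
        TSat π M s' (fun i' => ⨅ i ∈ {i | r i = i'}, inn i) U (r '' J) (j.map r) := by
  have hs' : ∀ i, s' (r i) = (v i)⁻¹ * s i * v i := fun i => by rw [hs i]; group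
  have hmg : ∀ i, v i ∈ Mg π M g := fun i => by
    have := hv i
    rw [← mg_inf (π := π) M g] at this
    exact this.1
  have hinv : ∀ (t : ℕ) (i : I), (∃ B ∈ U t, MulAut.conj (s i) • B = B) →
      ∃ B ∈ U t, MulAut.conj (s' (r i)) • B = B := by
    rintro t i ⟨B, hB, hinv⟩
    refine ⟨MulAut.conj (v i)⁻¹ • B, (h.periph t).inv _ ((Mg π M g).inv_mem (hmg i)) _ hB, ?_⟩
    rw [hs' i, ← mul_smul, ← map_mul, show (v i)⁻¹ * s i * v i * (v i)⁻¹ = (v i)⁻¹ * s i by group,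
      map_mul, mul_smul, hinv]
  refine ⟨⟨fun i' => ?_, h.periph, h.zero, h.top, h.mono, h.step, ?_⟩, ?_⟩
  · obtain ⟨i, rfl⟩ := hr i'
    rw [hs' i]
    refine ⟨M.mul_mem (M.mul_mem (M.inv_mem (hv i).1) (h.sM i).1) (hv i).1, ?_⟩
    have hk : π (v i) = 1 := (hv i).2
    rw [map_mul, map_mul, map_inv, hk, (h.sM i).2]
    group
  · intro j V hV hno
    obtain ⟨Q, hQ, hcomm⟩ := h.start j V hV hno
    refine ⟨Q, ⟨hQ.1, hQ.2.1, ?_⟩, hcomm⟩
    rcases hQ.2.2 with ⟨i, hi, w, hw, hwQ⟩ | hB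
    · have hle : (fun i' => ⨅ i ∈ {i | r i = i'}, inn i) (r i) ≤ inn i :=
        iInf₂_le (f := fun i' (_ : i' ∈ {i'' | r i'' = r i}) => inn i') i rfl
      refine Or.inl ⟨r i, le_trans hle hi, w * v i, (M ⊓ π.ker).mul_mem hw (hv i), ?_⟩
      rw [← hwQ, hs i]
      group
    · exact Or.inr hB
  · intro J j hj
    have hlt : ∀ t : ℕ, (∀ i, inn i < t → i ∈ J) →
        ∀ i', (⨅ i ∈ {i | r i = i'}, inn i) < t → i' ∈ r '' J := by
      intro t ht i' hi'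
      simp only [iInf_lt_iff] at hi'
      obtain ⟨i, hi, hlt⟩ := hi'
      exact ⟨i, ht i hlt, hi⟩
    cases j with
    | none =>
      obtain ⟨t, ht, hH⟩ := hj
      exact ⟨t, hlt t ht, hH⟩
    | some j =>
      rcases hj with ⟨i, hi, w, hw, hwQ⟩ | ⟨t, ht, hB⟩
      · refine Or.inl ⟨r i, ⟨i, hi, rfl⟩, (v j)⁻¹ * w * v i,
          (M ⊓ π.ker).mul_mem ((M ⊓ π.ker).mul_mem ((M ⊓ π.ker).inv_mem (hv j)) hw) (hv i), ?_⟩
        have e1 := hs' i
        have e2 := hs' j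
        rw [e1, e2, ← hwQ]
        group
      · exact Or.inr ⟨t, hlt t ht, hinv t j hB⟩

end Pool.Agent.Lib.MP_6567fb_al
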