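import Pool.Agent.Lib.MP_6567fb_al.F7a
import Pool.Agent.Lib.MP_6567fb_al.F7c
import Pool.Agent.Lib.MP_6567fb_al.F7e
import Pool.Agent.Lib.MP_6567fb_al.F7g
import Pool.Agent.Lib.MP_6567fb_al.F4b
import Pool.Agent.Lib.MP_6567fb_al.F5
import Pool.Agent.Lib.MP_6567fb_al.T10c

/-!
# MP_6567fb_al, module F7f

Theorem D, strong induction on the rank.
-/

set_option autoImplicit false

open scoped Pointwise
open Filter

namespace Pool.Agent.Lib.MP_6567fb_al

open MTree
variable {Γ G : Type} [Group Γ] [Group G] {π : Γ →* G}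

/-- the relation: same orbit under a subgroup -/
def f7f_setoid {M : Subgroup Γ} (T : MTree M) (K : Subgroup Γ) (hK : K ≤ M) : Setoid T.X where
  r x y := ∃ h ∈ K, T.act h x = y
  iseqv :=
    { refl := fun x => ⟨1, K.one_mem, T.act_one x⟩
      symm := by
        rintro x y ⟨h, hh, rfl⟩
        exact ⟨h⁻¹, K.inv_mem hh, T.act_inv_act (hK hh) x⟩
      trans := by
        rintro x y z ⟨h, hh, rfl⟩ ⟨k, hk, rfl⟩
        exact ⟨k * h, K.mul_mem hk hh, T.act_mul k (hK hk) h (hK hh) x⟩ }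

theorem f7f_reps {X : Type} (r : Setoid X) (A : Set X) (hA : ∀ a b, r a b → a ∈ A → b ∈ A)
    (S : Finset X) (hS : ∀ a ∈ A, ∃ b ∈ S, r a b) :
    ∃ R : Finset X, (∀ x ∈ R, x ∈ A) ∧ (∀ a ∈ A, ∃ b ∈ R, r b a) ∧
      ∀ a ∈ R, ∀ b ∈ R, r a b → a = b := by
  classical
  have hf : ∀ a, r (Quotient.out (Quotient.mk r a)) a := fun a => Quotient.mk_out a
  refine ⟨(S.filter (· ∈ A)).image (fun a => Quotient.out (Quotient.mk r a)), ?_, ?_, ?_⟩
  · intro x hx
    obtain ⟨a, ha, rfl⟩ := Finset.mem_image.1 hx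
    exact hA _ _ (r.symm (hf a)) (Finset.mem_filter.1 ha).2
  · intro a ha
    obtain ⟨b, hb, hab⟩ := hS a ha
    refine ⟨_, Finset.mem_image.2 ⟨b, Finset.mem_filter.2 ⟨hb, hA _ _ hab ha⟩, rfl⟩, ?_⟩
    exact r.trans (hf b) (r.symm hab)
  · intro a ha b hb hab
    obtain ⟨a', _, rfl⟩ := Finset.mem_image.1 ha
    obtain ⟨b', _, rfl⟩ := Finset.mem_image.1 hb
    have h1 : r a' b' := r.trans (r.symm (hf a')) (r.trans hab (hf b'))
    have h2 : Quotient.mk r a' = Quotient.mk r b' := Quotient.sound h1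
    change Quotient.out (Quotient.mk r a') = Quotient.out (Quotient.mk r b')
    rw [h2]

theorem f7f_vertex {M : Subgroup Γ} {T : MTree M} (hT : T.IsSplitting π.ker) :
    ∃ R : Finset T.X, (∀ x, ∃ x' ∈ R, ∃ h ∈ M ⊓ π.ker, T.act h x' = x) ∧
      ∀ x ∈ R, ∀ x' ∈ R, ∀ h ∈ M ⊓ π.ker, T.act h x = x' → x = x' := by
  obtain ⟨S, hS⟩ := IsSplitting.t10_cocpt_vertex hT
  obtain ⟨R, _, h2, h3⟩ := f7f_reps (f7f_setoid T (M ⊓ π.ker) inf_le_left) Set.univ
    (fun _ _ _ _ => Set.mem_univ _) S (fun a _ => by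
      obtain ⟨h, hh, hs⟩ := hS a
      exact ⟨_, hs, h, hh, rfl⟩)
  exact ⟨R, fun x => h2 x (Set.mem_univ x), fun x hx x' hx' h hh hxx' => h3 x hx x' hx' ⟨h, hh, hxx'⟩⟩

theorem f7f_edge {M : Subgroup Γ} {T : MTree M} (hT : T.IsSplitting π.ker) (x : T.X) :
    ∃ E : Finset T.X, IsReps π T x E := by
  classical
  obtain ⟨S, hS⟩ := hT.cocpt
  have hle : T.stab x ⊓ π.ker ≤ M := fun h hh => hh.1.1
  obtain ⟨R, h1, h2, h3⟩ := f7f_reps (f7f_setoid T (T.stab x ⊓ π.ker) hle) {y | T.G.Adj x y}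
    (by
      rintro a b ⟨h, hh, rfl⟩ ha
      have h4 := T.act_adj h hh.1.1 x a ha
      rw [hh.1.2] at h4
      exact h4)
    (S.image (fun e => if h : ∃ k ∈ M ⊓ π.ker, T.act k e.1 = x then T.act h.choose e.2 else x))
    (by
      intro a ha
      obtain ⟨k, hk, hkS⟩ := hS x a ha
      have h5 : ∃ k' ∈ M ⊓ π.ker, T.act k' (T.act k x, T.act k a).1 = x :=
        ⟨k⁻¹, inv_mem hk, T.act_inv_act hk.1 x⟩
      refine ⟨_, Finset.mem_image.2 ⟨_, hkS, rfl⟩, h5.choose * k, ?_, ?_⟩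
      · obtain ⟨h6, h7⟩ := h5.choose_spec
        refine ⟨⟨M.mul_mem h6.1 hk.1, ?_⟩, mul_mem h6.2 hk.2⟩
        rw [T.act_mul _ h6.1 _ hk.1]
        exact h7
      · rw [dif_pos h5, T.act_mul _ h5.choose_spec.1.1 _ hk.1])
  refine ⟨R, ⟨h1, ?_, ?_⟩⟩
  · intro y hy
    obtain ⟨b, hb, h, hh, hby⟩ := h2 y hy
    exact ⟨b, hb, h, hh, hby⟩
  · intro y hy y' hy' h hh hyy'
    exact h3 y hy y' hy' ⟨h, hh, hyy'⟩

/-- the statement of Theorem D for `M` -/
def ThmDFor (π : Γ →* G) (U : Ultrafilter G) (M : Subgroup Γ) : Prop :=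
  ∀ (I : Type) [Finite I] (s : I → (G →* Γ)), (∀ i, SecIn π M (s i)) →
    ∀ RR : Set (Set I × Option I),
    (∀ᶠ g in (U : Filter G), ∃ inn UU, IsTower π M g (fun i => s i g) inn UU ∧
      ∀ R ∈ RR, TSat π M (fun i => s i g) inn UU R.1 R.2) →
    ∃ Y : Gadget π M s, ∀ R ∈ RR, Y.Sat R.1 R.2

theorem f7f_lsec (hc : Ctx π) {I : Type} {M : Subgroup Γ} {T : MTree M} {s : I → (G →* Γ)}
    {ell : I → Prop} {xi : I → T.X} {R : Set T.X} {E : T.X → Finset T.X}
    (St : Step π T s ell xi R E) (x : T.X) (hx : x ∈ R) (τ : LI ell xi x (E x)) :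
    SecIn π (T.stab x) (lsec π T s ell xi x (E x) τ) := by
  rcases τ with ⟨y, hy⟩ | ⟨i, hi, hix⟩
  · obtain ⟨h1, h2⟩ := eSec_spec hc St.full.surj St.split ((St.reps x hx).adj y hy)
    exact ⟨h1.sec, fun g => ⟨h1.mem g, (h2 g).1⟩⟩
  · refine ⟨(St.sec i).sec, fun g => ⟨(St.sec i).mem g, ?_⟩⟩
    have h3 := St.ell_fix i hi g
    rw [hix] at h3
    exact h3

theorem f7f_core (hc : Ctx π) {U : Ultrafilter G} {I : Type} [Finite I] {M : Subgroup Γ}
    {T : MTree M} {s : I → (G →* Γ)}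
    {ell : I → Prop} {xi : I → T.X} {R : Set T.X} {E : T.X → Finset T.X}
    (St : Step π T s ell xi R E)
    (IH : ∀ x, T.stab x ⊓ π.ker ≠ ⊥ → ThmDFor π U (T.stab x))
    {RR : Set (Set I × Option I)} (inn : G → I → ℕ∞) (UU : G → ℕ → Set (Subgroup Γ))
    (hev : ∀ᶠ g in (U : Filter G), IsTower π M g (fun i => s i g) (inn g) (UU g) ∧
      (∀ i, inn g i < ⊤ → ell i) ∧
      (∀ i t, ∀ B ∈ UU g t, B ≠ M ⊓ π.ker → MulAut.conj (s i g) • B = B → ell i) ∧
      (∀ i i', CJ (M ⊓ π.ker) (s i g) (s i' g) → i = i') ∧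
      ∀ R ∈ RR, TSat π M (fun i => s i g) (inn g) (UU g) R.1 R.2) :
    ∃ Y : Gadget π M s, ∀ R ∈ RR, Y.Sat R.1 R.2 := by
  classical
  have hxx : ∀ x : {x // x ∈ R}, ∃ Yx : Gadget π (T.stab x.1) (lsec π T s ell xi x.1 (E x.1)),
      (T.stab x.1 ⊓ π.ker ≠ ⊥ → ∀ (Jx : Set (LI ell xi x.1 (E x.1))) j,
        (∀ᶠ g in (U : Filter G), TSat π (T.stab x.1) (fun τ => lsec π T s ell xi x.1 (E x.1) τ g)
          (linn π T g s (inn g) (UU g) ell xi x.1 (E x.1)) (lfam T (UU g) x.1) Jx j) →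
            Yx.Sat Jx j) ∧
      (T.stab x.1 ⊓ π.ker = ⊥ → ∀ Jx : Set (LI ell xi x.1 (E x.1)), Jx.Nonempty →
        ∀ j, Yx.Sat Jx j) := by
    rintro ⟨x, hx⟩
    by_cases hb : T.stab x ⊓ π.ker = ⊥
    · obtain ⟨⟨y, hy⟩, _⟩ := stab_surj hc St.full.surj St.split St.nontriv x
      obtain ⟨h1, h2⟩ := eSec_spec hc St.full.surj St.split hy
      obtain ⟨Y, hY⟩ := gadget_bot hb (s := lsec π T s ell xi x (E x))
        (fun τ => f7f_lsec hc St x hx τ) ⟨eSec π T x y, h1.sec, fun g => ⟨h1.mem g, (h2 g).1⟩⟩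
      exact ⟨Y, fun h => (h hb).elim, fun _ => hY⟩
    · obtain ⟨Y, hY⟩ := IH x hb (LI ell xi x (E x)) (lsec π T s ell xi x (E x))
        (fun τ => f7f_lsec hc St x hx τ)
        {P | ∀ᶠ g in (U : Filter G), TSat π (T.stab x) (fun τ => lsec π T s ell xi x (E x) τ g)
          (linn π T g s (inn g) (UU g) ell xi x (E x)) (lfam T (UU g) x) P.1 P.2}
        (by
          have h1 : ∀ᶠ g in (U : Filter G), ∀ P : Set (LI ell xi x (E x)) × Option (LI ell xi x (E x)),
              (∀ᶠ g in (U : Filter G), TSat π (T.stab x)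
                (fun τ => lsec π T s ell xi x (E x) τ g)
                (linn π T g s (inn g) (UU g) ell xi x (E x)) (lfam T (UU g) x) P.1 P.2) →
              TSat π (T.stab x) (fun τ => lsec π T s ell xi x (E x) τ g)
                (linn π T g s (inn g) (UU g) ell xi x (E x)) (lfam T (UU g) x) P.1 P.2 := by
            rw [Filter.eventually_all]
            intro P
            by_cases hP : ∀ᶠ g in (U : Filter G), TSat π (T.stab x)
                (fun τ => lsec π T s ell xi x (E x) τ g)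
                (linn π T g s (inn g) (UU g) ell xi x (E x)) (lfam T (UU g) x) P.1 P.2
            · exact hP.mono (fun g hg _ => hg)
            · exact Filter.Eventually.of_forall (fun g hg => (hP hg).elim)
          filter_upwards [hev, h1] with g hg hg1
          refine ⟨linn π T g s (inn g) (UU g) ell xi x (E x), lfam T (UU g) x,
            loc_tower hc St hg.1 hg.2.1 hx hb, ?_⟩
          intro P hP
          exact hg1 P hP)
      exact ⟨Y, fun _ Jx j hj => hY (Jx, j) hj, fun h => (hb h).elim⟩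
  choose Yx hYx1 hYx2 using hxx
  obtain ⟨Y, ⟨Gl⟩⟩ := glue_exists hc St Yx
  refine ⟨Y, ?_⟩
  have : Finite {x // x ∈ R} := St.R_fin.to_subtype
  -- the requirements which hold at `g` are satisfied
  have h2 : ∀ᶠ g in (U : Filter G), ∀ (x : {x // x ∈ R}) (Jx : Set (LI ell xi x.1 (E x.1)))
      (j : Option (LI ell xi x.1 (E x.1))), T.stab x.1 ⊓ π.ker ≠ ⊥ →
      TSat π (T.stab x.1) (fun τ => lsec π T s ell xi x.1 (E x.1) τ g)
        (linn π T g s (inn g) (UU g) ell xi x.1 (E x.1)) (lfam T (UU g) x.1) Jx j →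
      (Yx x).Sat Jx j := by
    rw [Filter.eventually_all]
    intro x
    rw [Filter.eventually_all]
    intro Jx
    rw [Filter.eventually_all]
    intro j
    by_cases hP : ∀ᶠ g in (U : Filter G), TSat π (T.stab x.1)
        (fun τ => lsec π T s ell xi x.1 (E x.1) τ g)
        (linn π T g s (inn g) (UU g) ell xi x.1 (E x.1)) (lfam T (UU g) x.1) Jx j
    · exact Filter.Eventually.of_forall (fun g hb _ => hYx1 x hb Jx j hP)
    · rw [← Ultrafilter.eventually_not] at hP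
      exact hP.mono (fun g hg _ hg' => (hg hg').elim)
  obtain ⟨g, ⟨hg1, hg2, hg3, hg4, hg5⟩, hg6⟩ := (hev.and h2).exists
  intro P hP
  exact glued_sat hc St Gl hg1 hg2 hg3 hg4 (fun x hx Jx j h => hg6 x Jx j hx h) hYx2 (hg5 P hP)

theorem f7f_norm {M : Subgroup Γ} (hM : Full π M) {m : Γ} (hm : m ∈ M) :
    MulAut.conj m • (M ⊓ π.ker) = M ⊓ π.ker :=
  t8_norm.1 (le_of_eq hM.max hm)

/-- the tree of the last step of a tower -/
theorem f7f_tree (hc : Ctx π) {I : Type} {M : Subgroup Γ} (hM : Full π M) {g : G} {s : I → Γ}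
    {inn : I → ℕ∞} {UU : ℕ → Set (Subgroup Γ)} (ht : IsTower π M g s inn UU) :
    ∃ TT : MTree (Mg π M g), TT.IsSplitting π.ker ∧ TT.Nontriv π.ker ∧
      ∀ i, (∃ t, ∃ B ∈ UU t, B ≠ M ⊓ π.ker ∧ MulAut.conj (s i) • B = B) →
        ∃ x, TT.act (s i) x = x := by
  classical
  obtain ⟨N, hN⟩ := ht.top
  have hex : ∃ t, M ⊓ π.ker ∈ UU t := ⟨N, by rw [hN N le_rfl]; rfl⟩
  have h1 := Nat.find_spec hex
  have h3 : Nat.find hex ≠ 0 := by
    intro h0
    rw [h0, ht.zero] at h1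
    exact h1
  obtain ⟨j, hj⟩ := Nat.exists_eq_succ_of_ne_zero h3
  have h4 : M ⊓ π.ker ∉ UU j := Nat.find_min hex (by omega)
  rw [hj] at h1
  have h5 := ht.step j _ h1
  have e : Mg π M g ⊓ Subgroup.normalizer ((M ⊓ π.ker : Subgroup Γ) : Set Γ) = Mg π M g := by
    rw [inf_eq_left]
    exact (mg_le M g).trans (le_of_eq hM.max)
  rw [e] at h5
  obtain ⟨TT, hTT, hv⟩ := h5
  refine ⟨TT, hTT, ?_, ?_⟩
  · intro x
    by_contra hcon
    push Not at hcon
    apply h4
    have h6 : M ⊓ π.ker ∈ TT.vgs π.ker := by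
      refine ⟨hM.ne, x, ?_⟩
      rw [← mg_inf M g]
      apply le_antisymm
      · exact fun m hm => ⟨hm.1.1, hm.2⟩
      · exact fun m hm => ⟨⟨hm.1, hcon m hm⟩, hm.2⟩
    rw [hv] at h6
    exact h6.1
  · rintro i ⟨t, B, hB, hBH, hinv⟩
    have htj : t ≤ j := by
      by_contra hcon
      have h6 : j + 1 ≤ t := by omega
      obtain ⟨B', hB', hle⟩ := ht.mono_le h6 _ h1
      have h7 := periph_le (ht.periph t) hB'
      rw [mg_inf] at h7
      have h8 : B' = M ⊓ π.ker := le_antisymm h7 hle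
      rw [h8] at hB'
      have h9 := ht.top_mem hc hM hB'
      rw [h9] at hB
      exact hBH hB
    obtain ⟨B', hB', _, hinv'⟩ := ht.inv_up hc hM htj hB (ht.sM i).1 (ht.sM i).2 hinv
    have h10 := periph_le (ht.periph j) hB'
    rw [mg_inf] at h10
    have h11 : B' ∈ TT.vgs π.ker := by
      rw [hv]
      exact ⟨hB', h10⟩
    obtain ⟨hne, x, hx⟩ := h11
    exact ⟨x, fix_of_norm hc hTT (le_of_eq hx.symm) hne (mem_mg (ht.sM i).1 (ht.sM i).2) hinv'⟩

theorem f7f_step (hc : Ctx π) (hK : TheoremK π) {U : Ultrafilter G} (hU : Gen π U)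
    {M : Subgroup Γ} (hM : Full π M) (hrk : 2 ≤ rk (M ⊓ π.ker))
    (IH : ∀ M', Full π M' → rk (M' ⊓ π.ker) < rk (M ⊓ π.ker) → ThmDFor π U M')
    {I : Type} [Finite I] {s : I → (G →* Γ)} (hs : ∀ i, SecIn π M (s i))
    (hinj : ∀ i i', CJS (M ⊓ π.ker) (s i) (s i') → i = i') {RR : Set (Set I × Option I)}
    (h : ∀ᶠ g in (U : Filter G), ∃ inn UU, IsTower π M g (fun i => s i g) inn UU ∧
      ∀ R ∈ RR, TSat π M (fun i => s i g) inn UU R.1 R.2) :
    ∃ Y : Gadget π M s, ∀ R ∈ RR, Y.Sat R.1 R.2 := by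
  classical
  have h1 : ∀ g, ∃ (inn : I → ℕ∞) (UU : ℕ → Set (Subgroup Γ)),
      (∃ inn UU, IsTower π M g (fun i => s i g) inn UU ∧
        ∀ R ∈ RR, TSat π M (fun i => s i g) inn UU R.1 R.2) →
      IsTower π M g (fun i => s i g) inn UU ∧
        ∀ R ∈ RR, TSat π M (fun i => s i g) inn UU R.1 R.2 := by
    intro g
    by_cases hg : ∃ inn UU, IsTower π M g (fun i => s i g) inn UU ∧
        ∀ R ∈ RR, TSat π M (fun i => s i g) inn UU R.1 R.2
    · obtain ⟨inn, UU, hIU⟩ := hg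
      exact ⟨inn, UU, fun _ => hIU⟩
    · exact ⟨fun _ => 0, fun _ => ∅, fun h => (hg h).elim⟩
  choose inn UU hIU using h1
  have hT : ∀ᶠ g in (U : Filter G), IsTower π M g (fun i => s i g) (inn g) (UU g) ∧
      ∀ R ∈ RR, TSat π M (fun i => s i g) (inn g) (UU g) R.1 R.2 :=
    h.mono (fun g hg => hIU g hg)
  set Sgi : Set I := {i | ∀ᶠ g in (U : Filter G),
    ∃ t, ∃ B ∈ UU g t, B ≠ M ⊓ π.ker ∧ MulAut.conj (s i g) • B = B} with hSgi
  have hQ : ∀ᶠ g in (U : Filter G), ∀ i,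
      (∃ t, ∃ B ∈ UU g t, B ≠ M ⊓ π.ker ∧ MulAut.conj (s i g) • B = B) ↔ i ∈ Sgi := by
    rw [Filter.eventually_all]
    intro i
    by_cases hi : i ∈ Sgi
    · have hi' : ∀ᶠ g in (U : Filter G),
        ∃ t, ∃ B ∈ UU g t, B ≠ M ⊓ π.ker ∧ MulAut.conj (s i g) • B = B := hi
      exact hi'.mono (fun g hg => ⟨fun _ => hi, fun _ => hg⟩)
    · have hi' : ¬ ∀ᶠ g in (U : Filter G),
        ∃ t, ∃ B ∈ UU g t, B ≠ M ⊓ π.ker ∧ MulAut.conj (s i g) • B = B := hi
      rw [← Ultrafilter.eventually_not] at hi'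
      exact hi'.mono (fun g hg => ⟨fun h => (hg h).elim, fun h => (hi h).elim⟩)
  obtain ⟨T, hTs, hTn, hTe⟩ := claimM hc hK hU hM hrk (Sg := s '' Sgi)
    ((Set.toFinite Sgi).image s) (by rintro _ ⟨i, _, rfl⟩; exact hs i) (by
      filter_upwards [hT, hQ] with g hg hg'
      obtain ⟨TT, h2, h3, h4⟩ := f7f_tree hc hM hg.1
      refine ⟨TT, h2, h3, ?_⟩
      rintro _ ⟨i, hi, rfl⟩
      exact h4 i ((hg' i).2 hi))
  -- almost all g: a central section is elliptic
  have hcen : ∀ᶠ g in (U : Filter G), ∀ i, (∀ v ∈ M ⊓ π.ker, s i g * v = v * s i g) →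
      T.Ell (Set.range (s i)) := by
    rw [Filter.eventually_all]
    intro i
    by_cases hi : T.Ell (Set.range (s i))
    · exact Filter.Eventually.of_forall (fun _ _ => hi)
    · refine (hU.hyp M T (s i) hM hTs (hs i) hi).mono (fun g hg hcomm => ?_)
      obtain ⟨x, hx⟩ := ell_of_central hc hM.toLoc hrk hTs ((hs i).mem g) hcomm
      exact (hg x hx).elim
  have hne : ∀ᶠ g in (U : Filter G), ∀ i i', CJ (M ⊓ π.ker) (s i g) (s i' g) → i = i' := by
    rw [Filter.eventually_all]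
    intro i
    rw [Filter.eventually_all]
    intro i'
    by_cases hi : i = i'
    · exact Filter.Eventually.of_forall (fun _ _ => hi)
    · have h5 : ¬ ∀ᶠ g in (U : Filter G), CJ (M ⊓ π.ker) (s i g) (s i' g) := fun h6 =>
        hi (hinj i i' (conj_principle hc hK hU hM (hs i) (hs i') h6))
      rw [← Ultrafilter.eventually_not] at h5
      exact h5.mono (fun g hg hg' => (hg hg').elim)
  obtain ⟨R, hR1, hR2⟩ := f7f_vertex hTs
  obtain ⟨x₀⟩ := T.tree.1.nonempty
  have h6 : ∀ i, ∃ (v : Γ) (y : T.X), v ∈ M ⊓ π.ker ∧ (T.Ell (Set.range (s i)) → y ∈ R ∧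
      ∀ g, T.act (s i g) (T.act v y) = T.act v y) := by
    intro i
    by_cases hi : T.Ell (Set.range (s i))
    · obtain ⟨x, hx⟩ := hi
      obtain ⟨y, hy, v, hv, hvy⟩ := hR1 x
      refine ⟨v, y, hv, fun _ => ⟨hy, fun g => ?_⟩⟩
      rw [hvy]
      exact hx _ ⟨g, rfl⟩
    · exact ⟨1, x₀, one_mem _, fun h => (hi h).elim⟩
  choose v xi hv hxi using h6
  choose E hE using fun x => f7f_edge hTs x
  let s' : I → (G →* Γ) := fun i => (MulAut.conj (v i)⁻¹).toMonoidHom.comp (s i)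
  have hs'1 : ∀ i g, s' i g = (v i)⁻¹ * s i g * v i := by
    intro i g
    change MulAut.conj (v i)⁻¹ (s i g) = _
    rw [MulAut.conj_apply, inv_inv]
  have hs'2 : ∀ i g, s i g = v i * s' i g * (v i)⁻¹ := by
    intro i g
    rw [hs'1]; group
  have hs'3 : ∀ i, SecIn π M (s' i) := by
    intro i
    refine ⟨fun g => ?_, fun g => ?_⟩
    · have hk : π (v i) = 1 := (hv i).2
      rw [hs'1, map_mul, map_mul, map_inv, hk, (hs i).sec]
      simp
    · rw [hs'1]
      exact M.mul_mem (M.mul_mem (M.inv_mem (hv i).1) ((hs i).mem g)) (hv i).1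
  have St : Step π T s' (fun i => T.Ell (Set.range (s i))) xi (R : Set T.X) E := by
    refine ⟨hM, hTs, hTn, hs'3, ?_, ?_, R.finite_toSet, ?_, ?_, fun x _ => hE x⟩
    · intro i hi g
      have h7 := (hxi i hi).2 g
      have h8 : s' i g = (v i)⁻¹ * (s i g * v i) := by rw [hs'1]; group
      rw [h8, T.act_mul _ (M.inv_mem (hv i).1) _ (M.mul_mem ((hs i).mem g) (hv i).1),
        T.act_mul _ ((hs i).mem g) _ (hv i).1, h7, T.act_inv_act (hv i).1]
    · intro i hi
      exact (hxi i hi).1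
    · intro x
      obtain ⟨x', hx', h, hh, hxx'⟩ := hR1 x
      exact ⟨x', hx', h, hh, hxx'⟩
    · intro x hx x' hx' h hh hxx'
      exact hR2 x hx x' hx' h hh hxx'
  -- in-times after the reset
  let inn1 : G → I → ℕ∞ := fun g i =>
    if (∃ t, ∃ B ∈ UU g t, B ≠ M ⊓ π.ker ∧ MulAut.conj (s i g) • B = B) ∨
      (∀ v ∈ M ⊓ π.ker, s i g * v = v * s i g) then inn g i else ⊤
  let inn2 : G → I → ℕ∞ := fun g i' => ⨅ i ∈ {i | id i = i'}, inn1 g i
  have hinn2 : ∀ g i, inn2 g i = inn1 g i := by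
    intro g i
    change (⨅ j ∈ {j | id j = i}, inn1 g j) = inn1 g i
    simp
  obtain ⟨Y', hY'⟩ := f7f_core hc St (U := U) (RR := RR)
    (fun x hx => IH _ (stab_full hc hM hTs hTn hx).1 (stab_full hc hM hTs hTn hx).2) inn2 UU (by
      filter_upwards [hT, hQ, hcen, hne] with g hg1 hg2 hg3 hg4
      have ht1 : IsTower π M g (fun i => s i g) (inn1 g) (UU g) := IsTower.reset hc hM hg1.1
      have ht2 := tower_transfer (π := π) (s := fun i => s i g) (s' := fun i => s' i g) id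
        Function.surjective_id v hv (fun i => hs'2 i g) ht1
      refine ⟨ht2.1, ?_, ?_, ?_, ?_⟩
      · intro i hi
        rw [hinn2] at hi
        by_cases hC : (∃ t, ∃ B ∈ UU g t, B ≠ M ⊓ π.ker ∧ MulAut.conj (s i g) • B = B) ∨
          (∀ v ∈ M ⊓ π.ker, s i g * v = v * s i g)
        · rcases hC with hC | hC
          · exact hTe _ ⟨i, (hg2 i).1 hC, rfl⟩
          · exact hg3 i hC
        · have h7 : inn1 g i = ⊤ := if_neg hC
          rw [h7] at hi
          exact (lt_irrefl _ hi).elim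
      · intro i t B hB hBH hinv
        refine hTe _ ⟨i, (hg2 i).1 ⟨t, MulAut.conj (v i) • B,
          (hg1.1.periph t).inv _ (ker_le_mg_f6a (hv i)) B hB, ?_, ?_⟩, rfl⟩
        · intro h0
          apply hBH
          have h7 := t8_conj_inv h0
          rw [f7f_norm hM (M.inv_mem (hv i).1)] at h7
          exact h7.symm
        · rw [hs'2]
          exact conj_inv_f6a hinv
      · rintro i i' ⟨w, hw, hwe⟩
        refine hg4 i i' ⟨v i' * w * (v i)⁻¹, mul_mem (mul_mem (hv i') hw) (inv_mem (hv i)), ?_⟩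
        change w * s' i g * w⁻¹ = s' i' g at hwe
        rw [hs'2 i' g, ← hwe, hs'2 i g]
        group
      · intro P hP
        have h8 := TSat.mono (inn := inn g) (inn' := inn1 g) (fun i => by
          change inn g i ≤ if _ then _ else _
          split_ifs
          · exact le_rfl
          · exact le_top) (hg1.2 P hP)
        have h9 := ht2.2 P.1 P.2 h8
        rw [Set.image_id, Option.map_id] at h9
        exact h9)
  obtain ⟨Y, hY⟩ := gadget_transfer id v hv hs'2 Y'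
  refine ⟨Y, fun P hP => hY P.1 P.2 ?_⟩
  rw [Set.image_id, Option.map_id]
  exact hY' P hP

theorem f7f_all (hc : Ctx π) (hK : TheoremK π) {U : Ultrafilter G} (hU : Gen π U) :
    ∀ n : ℕ, ∀ M : Subgroup Γ, Full π M → rk (M ⊓ π.ker) = n → ThmDFor π U M := by
  intro n
  induction n using Nat.strong_induction_on with
  | _ n ih =>
    intro M hM hn I _ s hs RR h
    classical
    by_cases h1 : rk (M ⊓ π.ker) = 1
    · exact gadget_cyclic hc hU hM h1 hs h
    · have h0 := rk_pos hc hM.fac hM.ne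
      have h2 : 2 ≤ rk (M ⊓ π.ker) := by omega
      -- reduction to pairwise non-conjugate sections
      let r : Setoid I :=
        { r := fun i i' => CJS (M ⊓ π.ker) (s i) (s i')
          iseqv := ⟨fun i => ⟨1, one_mem _, fun g => by simp⟩, fun h => CJS.symm h,
            fun h h' => CJS.trans h h'⟩ }
      have hr : ∀ i, r (Quotient.out (Quotient.mk r i)) i := fun i => Quotient.mk_out i
      choose v hv hvs using hr
      have hvs' : ∀ i g, s i g = v i * s (Quotient.out (Quotient.mk r i)) g * (v i)⁻¹ :=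
        fun i g => (hvs i g).symm
      obtain ⟨Y', hY'⟩ := f7f_step hc hK hU hM h2
        (fun M' hM' hlt => ih (rk (M' ⊓ π.ker)) (hn ▸ hlt) M' hM' rfl)
        (I := Quotient r) (s := fun q => s (Quotient.out q)) (fun q => hs _)
        (by
          intro q q' hqq'
          have h3 : Quotient.mk r (Quotient.out q) = Quotient.mk r (Quotient.out q') :=
            Quotient.sound hqq'
          rwa [Quotient.out_eq, Quotient.out_eq] at h3)
        (RR := (fun P : Set I × Option I => (Quotient.mk r '' P.1, P.2.map (Quotient.mk r))) '' RR)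
        (by
          filter_upwards [h] with g hg
          obtain ⟨inn, UU, ht, hsat⟩ := hg
          have ht2 := tower_transfer (π := π) (s := fun i => s i g)
            (s' := fun q => s (Quotient.out q) g) (Quotient.mk r)
            (fun q => ⟨Quotient.out q, Quotient.out_eq q⟩) v hv (fun i => hvs' i g) ht
          refine ⟨_, UU, ht2.1, ?_⟩
          rintro _ ⟨P, hP, rfl⟩
          exact ht2.2 P.1 P.2 (hsat P hP))
      obtain ⟨Y, hY⟩ := gadget_transfer (Quotient.mk r) v hv hvs' Y'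
      exact ⟨Y, fun P hP => hY P.1 P.2 (hY' _ ⟨P, hP, rfl⟩)⟩

variable {I : Type}

theorem thmD (hc : Ctx π) (hK : TheoremK π) {U : Ultrafilter G} (hU : Gen π U) {M : Subgroup Γ}
    (hM : Full π M) [Finite I] {s : I → (G →* Γ)} (hs : ∀ i, SecIn π M (s i))
    {RR : Set (Set I × Option I)}
    (h : ∀ᶠ g in (U : Filter G), ∃ inn UU, IsTower π M g (fun i => s i g) inn UU ∧
      ∀ R ∈ RR, TSat π M (fun i => s i g) inn UU R.1 R.2) :
    ∃ Y : Gadget π M s, ∀ R ∈ RR, Y.Sat R.1 R.2 :=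
  f7f_all hc hK hU _ M hM rfl I s hs RR h

end Pool.Agent.Lib.MP_6567fb_al
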