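import Pool.Agent.Lib.MP_6567fb_al.FDefs
import Pool.Agent.Lib.MP_6567fb_al.T7b

/-!
# MP_6567fb_al, module F8a

Finite version of Conn and the order of construction.  p := Y.p ().  A stage: E ≤ Y.X.G invariant under F, b : Fin n → Γ, such that (S1) for h ∈ F: E.Reachable p (h p) ↔ h ∈ closure (range b); (S2) an edge of E is reachable from some h p; (S3) E.Reachable p q ⇒ ∀ g, sig q g (s0 g)⁻¹ ∈ closure (range b); (S4) s0 g b_i (s0 g)⁻¹ =
w b_i v with w, v ∈ closure {b_j, j < i}; (S5) there are χ_i : F → ℤ (crossing_ab, crossing number with one orbit of edges) with χ_i(b_j) = 0 for j < i and χ_i(b_i) = ±1.  Step: (a,c) an edge of X not in E with tau sig_a⁻¹ ∈ stabiliser of the E-component of a, the same at c, and a reachable to k p; translate: k = 1.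
(A) c not reachable to any h p: its component is {c} (S2), tau = sig_c; E' := E ⊔ orbit; closure unchanged (c is a leaf of E').  (B) c = k q', q' reachable from p (k ∉ closure (range b) because X is a tree): b_n := k; S4: tau g = u s0 g = k u' s0 g k⁻¹.  Maximal stage (finitely many orbits of edges, cocptE): Conn ⇒ E.Reachable by
induction, so E is connected, closure (range b) = F.
-/

set_option autoImplicit false

open scoped Pointwise
open Filter

namespace Pool.Agent.Lib.MP_6567fb_al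

open MTree
variable {Γ G : Type} [Group Γ] [Group G] {π : Γ →* G}

/-- a stage of the construction -/
structure Stage8 {s0 : G →* Γ} (Y : Gadget π (⊤ : Subgroup Γ) (fun _ : Unit => s0)) (E : SimpleGraph Y.X.X)
    (n : ℕ) (b : Fin n → Γ) : Prop where
  le : ∀ x y, E.Adj x y → Y.X.G.Adj x y
  inv : ∀ h ∈ π.ker, ∀ x y, E.Adj x y → E.Adj (Y.X.act h x) (Y.X.act h y)
  bF : ∀ i, b i ∈ π.ker
  S1 : ∀ h ∈ π.ker, E.Reachable (Y.p ()) (Y.X.act h (Y.p ())) → h ∈ Subgroup.closure (Set.range b)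
  S1' : ∀ h ∈ Subgroup.closure (Set.range b), E.Reachable (Y.p ()) (Y.X.act h (Y.p ()))
  S2 : ∀ x y, E.Adj x y → ∃ k ∈ π.ker, E.Reachable x (Y.X.act k (Y.p ()))
  S3 : ∀ q, E.Reachable (Y.p ()) q → ∀ g, Y.sig q g * (s0 g)⁻¹ ∈ Subgroup.closure (Set.range b)
  S4 : ∀ g i, ∃ w ∈ Subgroup.closure (b '' {j | j < i}), ∃ v ∈ Subgroup.closure (b '' {j | j < i}),
    s0 g * b i * (s0 g)⁻¹ = w * b i * v
  S5 : ∃ χ : Fin n → (π.ker →* Multiplicative ℤ), ∀ i, ∀ h : π.ker,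
        (∀ j < i, (h : Γ) = b j → χ i h = 1) ∧
        ((h : Γ) = b i → χ i h = Multiplicative.ofAdd 1 ∨ χ i h = Multiplicative.ofAdd (-1))

section
variable {s0 : G →* Γ} (Y : Gadget π (⊤ : Subgroup Γ) (fun _ : Unit => s0))

theorem mem_top8 {h : Γ} (hh : h ∈ π.ker) : h ∈ (⊤ : Subgroup Γ) ⊓ π.ker := ⟨Subgroup.mem_top h, hh⟩

theorem reach_act8 {E : SimpleGraph Y.X.X}
    (inv : ∀ h ∈ π.ker, ∀ x y, E.Adj x y → E.Adj (Y.X.act h x) (Y.X.act h y)) {h : Γ} (hh : h ∈ π.ker)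
    {x y : Y.X.X} (hxy : E.Reachable x y) : E.Reachable (Y.X.act h x) (Y.X.act h y) := by
  let f : E →g E := ⟨Y.X.act h, fun {a b} hab => inv h hh a b hab⟩
  exact hxy.map f

theorem act_mul8 {h k : Γ} (hh : h ∈ π.ker) (hk : k ∈ π.ker) (x : Y.X.X) :
    Y.X.act (h * k) x = Y.X.act h (Y.X.act k x) := Y.X.act_mul h (mem_top8 hh) k (mem_top8 hk) x

theorem inv_act8 {h : Γ} (hh : h ∈ π.ker) (x : Y.X.X) : Y.X.act h⁻¹ (Y.X.act h x) = x :=
  Y.X.act_inv_act (mem_top8 hh) x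

theorem act_inv8 {h : Γ} (hh : h ∈ π.ker) (x : Y.X.X) : Y.X.act h (Y.X.act h⁻¹ x) = x :=
  Y.X.act_act_inv (mem_top8 hh) x

theorem act_inj8 {h : Γ} (hh : h ∈ π.ker) {x y : Y.X.X} (e : Y.X.act h x = Y.X.act h y) : x = y :=
  Y.X.act_inj (mem_top8 hh) e

/-- `h x = k x` implies `h = k` -/
theorem free8 {h k : Γ} (hh : h ∈ π.ker) (hk : k ∈ π.ker) {x : Y.X.X} (e : Y.X.act h x = Y.X.act k x) :
    h = k := by
  have h1 : Y.X.act (k⁻¹ * h) x = x := by
    rw [act_mul8 Y (π.ker.inv_mem hk) hh, e, inv_act8 Y hk]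
  have h2 := Y.free (k⁻¹ * h) (mem_top8 (π.ker.mul_mem (π.ker.inv_mem hk) hh)) x h1
  exact (eq_of_inv_mul_eq_one h2).symm ▸ rfl

/-- moving a stabiliser element of a component along the component -/
theorem comp8 {E : SimpleGraph Y.X.X}
    (inv : ∀ h ∈ π.ker, ∀ x y, E.Adj x y → E.Adj (Y.X.act h x) (Y.X.act h y)) {h : Γ} (hh : h ∈ π.ker)
    {x y : Y.X.X} (hxy : E.Reachable x y) (hx : E.Reachable x (Y.X.act h x)) :
    E.Reachable y (Y.X.act h y) :=
  (hxy.symm.trans hx).trans (reach_act8 Y inv hh hxy)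

end

section
variable {s0 : G →* Γ} {Y : Gadget π (⊤ : Subgroup Γ) (fun _ : Unit => s0)} {E : SimpleGraph Y.X.X}
  {n : ℕ} {b : Fin n → Γ}

theorem Stage8.cl_le (hS : Stage8 Y E n b) : Subgroup.closure (Set.range b) ≤ π.ker := by
  rw [Subgroup.closure_le]
  rintro _ ⟨i, rfl⟩
  exact hS.bF i

theorem Stage8.norm (hS : Stage8 Y E n b) (g : G) {κ : Γ} (hκ : κ ∈ Subgroup.closure (Set.range b)) :
    s0 g * κ * (s0 g)⁻¹ ∈ Subgroup.closure (Set.range b) := by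
  induction hκ using Subgroup.closure_induction with
  | mem x hx =>
    obtain ⟨i, rfl⟩ := hx
    obtain ⟨w, hw, v, hv, e⟩ := hS.S4 g i
    rw [e]
    have hle : Subgroup.closure (b '' {j | j < i}) ≤ Subgroup.closure (Set.range b) :=
      Subgroup.closure_mono (Set.image_subset_range _ _)
    exact Subgroup.mul_mem _ (Subgroup.mul_mem _ (hle hw) (Subgroup.subset_closure ⟨i, rfl⟩)) (hle hv)
  | one => simp
  | mul x y _ _ hx hy =>
    have : s0 g * (x * y) * (s0 g)⁻¹ = (s0 g * x * (s0 g)⁻¹) * (s0 g * y * (s0 g)⁻¹) := by group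
    rw [this]; exact Subgroup.mul_mem _ hx hy
  | inv x _ hx =>
    have : s0 g * x⁻¹ * (s0 g)⁻¹ = (s0 g * x * (s0 g)⁻¹)⁻¹ := by group
    rw [this]; exact Subgroup.inv_mem _ hx

theorem Stage8.init (Y : Gadget π (⊤ : Subgroup Γ) (fun _ : Unit => s0)) :
    Stage8 Y ⊥ 0 Fin.elim0 where
  le := fun x y h => h.elim
  inv := fun h _ x y h => h.elim
  bF := fun i => i.elim0
  S1 := by
    intro h hh hr
    rw [SimpleGraph.reachable_bot] at hr
    have := free8 Y (x := Y.p ()) hh π.ker.one_mem (by rw [Y.X.act_one]; exact hr.symm)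
    rw [this]; exact Subgroup.one_mem _
  S1' := by
    intro h hh
    have : h = 1 := by
      rw [Set.range_eq_empty, Subgroup.closure_empty, Subgroup.mem_bot] at hh
      exact hh
    rw [this, Y.X.act_one]
  S2 := fun x y h => h.elim
  S3 := by
    intro q hq g
    rw [SimpleGraph.reachable_bot] at hq
    subst hq
    rw [Y.p_sig ()]
    simp
  S4 := fun g i => i.elim0
  S5 := ⟨fun i => i.elim0, fun i => i.elim0⟩

/-- the extended graph -/
def ext8 (Y : Gadget π (⊤ : Subgroup Γ) (fun _ : Unit => s0)) (E : SimpleGraph Y.X.X) (a c : Y.X.X) :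
    SimpleGraph Y.X.X :=
  E ⊔ SimpleGraph.fromRel (fun x y => ∃ h ∈ π.ker, x = Y.X.act h a ∧ y = Y.X.act h c)

theorem ext8_adj {a c : Y.X.X} (hac : Y.X.G.Adj a c) (x y : Y.X.X) :
    (ext8 Y E a c).Adj x y ↔ E.Adj x y ∨
      ∃ h ∈ π.ker, (x = Y.X.act h a ∧ y = Y.X.act h c) ∨ (x = Y.X.act h c ∧ y = Y.X.act h a) := by
  unfold ext8
  rw [SimpleGraph.sup_adj, SimpleGraph.fromRel_adj]
  constructor
  · rintro (h | ⟨-, ⟨h, hh, h1, h2⟩ | ⟨h, hh, h1, h2⟩⟩)
    · exact Or.inl h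
    · exact Or.inr ⟨h, hh, Or.inl ⟨h1, h2⟩⟩
    · exact Or.inr ⟨h, hh, Or.inr ⟨h2, h1⟩⟩
  · rintro (h | ⟨h, hh, ⟨h1, h2⟩ | ⟨h1, h2⟩⟩)
    · exact Or.inl h
    · refine Or.inr ⟨?_, Or.inl ⟨h, hh, h1, h2⟩⟩
      rw [h1, h2]
      exact fun e => hac.ne (act_inj8 Y hh e)
    · refine Or.inr ⟨?_, Or.inr ⟨h, hh, h2, h1⟩⟩
      rw [h1, h2]
      exact fun e => hac.ne (act_inj8 Y hh e).symm

theorem le_ext8 (a c : Y.X.X) : E ≤ ext8 Y E a c := le_sup_left

theorem ext8_le (hS : Stage8 Y E n b) {a c : Y.X.X} (hac : Y.X.G.Adj a c) (x y : Y.X.X)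
    (h : (ext8 Y E a c).Adj x y) : Y.X.G.Adj x y := by
  rw [ext8_adj hac] at h
  rcases h with h | ⟨h, hh, ⟨rfl, rfl⟩ | ⟨rfl, rfl⟩⟩
  · exact hS.le x y h
  · exact Y.X.act_adj h (mem_top8 hh) _ _ hac
  · exact Y.X.act_adj h (mem_top8 hh) _ _ hac.symm

theorem ext8_inv (hS : Stage8 Y E n b) {a c : Y.X.X} (hac : Y.X.G.Adj a c) (k : Γ) (hk : k ∈ π.ker)
    (x y : Y.X.X) (h : (ext8 Y E a c).Adj x y) :
    (ext8 Y E a c).Adj (Y.X.act k x) (Y.X.act k y) := by
  rw [ext8_adj hac] at h ⊢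
  rcases h with h | ⟨h, hh, ⟨rfl, rfl⟩ | ⟨rfl, rfl⟩⟩
  · exact Or.inl (hS.inv k hk x y h)
  · exact Or.inr ⟨k * h, π.ker.mul_mem hk hh, Or.inl ⟨(act_mul8 Y hk hh a).symm, (act_mul8 Y hk hh c).symm⟩⟩
  · exact Or.inr ⟨k * h, π.ker.mul_mem hk hh, Or.inr ⟨(act_mul8 Y hk hh c).symm, (act_mul8 Y hk hh a).symm⟩⟩

theorem ext8_new {a c : Y.X.X} (hac : Y.X.G.Adj a c) (h : Γ) (hh : h ∈ π.ker) :
    (ext8 Y E a c).Adj (Y.X.act h a) (Y.X.act h c) :=
  (ext8_adj hac _ _).2 (Or.inr ⟨h, hh, Or.inl ⟨rfl, rfl⟩⟩)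

/-- an edge of the tree which is not in `E` joins different components of `E` -/
theorem Stage8.not_reach (hS : Stage8 Y E n b) {a c : Y.X.X} (hac : Y.X.G.Adj a c) (hE : ¬ E.Adj a c) :
    ¬ E.Reachable a c := by
  intro hr
  have hbr : Y.X.G.IsBridge s(a, c) :=
    SimpleGraph.isAcyclic_iff_forall_adj_isBridge.1 Y.X.tree.isAcyclic hac
  rw [SimpleGraph.isBridge_iff] at hbr
  refine hbr (hr.mono ?_)
  intro x y hxy
  rw [SimpleGraph.deleteEdges_adj]
  refine ⟨hS.le x y hxy, ?_⟩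
  intro hm
  rw [Set.mem_singleton_iff, Sym2.eq_iff] at hm
  rcases hm with ⟨rfl, rfl⟩ | ⟨rfl, rfl⟩
  · exact hE hxy
  · exact hE hxy.symm

/-- `E.Reachable` closed sets -/
theorem closed8 {E' : SimpleGraph Y.X.X} {R : Y.X.X → Prop} (hR : ∀ x y, R x → E'.Adj x y → R y) {x y : Y.X.X}
    (hx : R x) (h : E'.Reachable x y) : R y := by
  obtain ⟨w⟩ := h
  induction w with
  | nil => exact hx
  | cons hxy _ ih => exact ih (hR _ _ hx hxy)

/-- the value of `tau` at the active end -/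
theorem Stage8.tau_mem (hS : Stage8 Y E n b) {a c : Y.X.X} (hac : Y.X.G.Adj a c)
    (ha : ∀ g, E.Reachable a (Y.X.act (Y.tau a c g * (Y.sig a g)⁻¹) a))
    (hp : E.Reachable a (Y.p ())) (g : G) :
    Y.tau a c g * (s0 g)⁻¹ ∈ Subgroup.closure (Set.range b) := by
  have h1 : Y.tau a c g * (Y.sig a g)⁻¹ ∈ π.ker := by
    rw [MonoidHom.mem_ker, map_mul, map_inv, (Y.tau_sec a c hac).sec g, (Y.sig_sec a).sec g, mul_inv_cancel]
  have h2 := hS.S1 _ h1 (comp8 Y hS.inv h1 hp (ha g))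
  have h3 := hS.S3 a hp.symm g
  have : Y.tau a c g * (s0 g)⁻¹ = (Y.tau a c g * (Y.sig a g)⁻¹) * (Y.sig a g * (s0 g)⁻¹) := by group
  rw [this]
  exact Subgroup.mul_mem _ h2 h3

/-- case (A): `c` is in no active component -/
theorem Stage8.stepA (hS : Stage8 Y E n b) {a c : Y.X.X} (hac : Y.X.G.Adj a c)
    (ha : ∀ g, E.Reachable a (Y.X.act (Y.tau a c g * (Y.sig a g)⁻¹) a))
    (hcc : ∀ g, E.Reachable c (Y.X.act (Y.tau a c g * (Y.sig c g)⁻¹) c))
    (hp : E.Reachable a (Y.p ()))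
    (hno : ¬ ∃ k ∈ π.ker, E.Reachable c (Y.X.act k (Y.p ()))) :
    Stage8 Y (ext8 Y E a c) n b := by
  have hcl := hS.cl_le
  have hsingle : ∀ d, ¬ E.Adj c d := fun d hd => hno (hS.S2 c d hd)
  have hsingle2 : ∀ d, E.Reachable c d → d = c := by
    intro d hd
    refine closed8 (R := fun x => x = c) ?_ rfl hd
    rintro x y rfl hxy
    exact absurd hxy (hsingle y)
  -- translates of `c` are not reachable from translates of `p`
  have hno2 : ∀ h ∈ π.ker, ∀ k ∈ π.ker, ¬ E.Reachable (Y.X.act h (Y.p ())) (Y.X.act k c) := by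
    intro h hh k hk hr
    apply hno
    refine ⟨k⁻¹ * h, π.ker.mul_mem (π.ker.inv_mem hk) hh, ?_⟩
    have h1 := reach_act8 Y hS.inv (π.ker.inv_mem hk) hr
    rw [inv_act8 Y hk] at h1
    rw [act_mul8 Y (π.ker.inv_mem hk) hh]
    exact h1.symm
  have hnadj : ∀ h ∈ π.ker, ∀ d, ¬ E.Adj (Y.X.act h c) d := by
    intro h hh d hd
    have h1 := hS.inv _ (π.ker.inv_mem hh) _ _ hd
    rw [inv_act8 Y hh] at h1
    exact hsingle _ h1
  have hsig : ∀ g, Y.tau a c g = Y.sig c g := by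
    intro g
    have h1 : Y.tau a c g * (Y.sig c g)⁻¹ ∈ π.ker := by
      rw [MonoidHom.mem_ker, map_mul, map_inv, (Y.tau_sec a c hac).sec g, (Y.sig_sec c).sec g, mul_inv_cancel]
    have h2 := hsingle2 _ (hcc g)
    have h3 := free8 Y (x := c) h1 π.ker.one_mem (by rw [Y.X.act_one]; exact h2)
    exact mul_inv_eq_one.1 h3
  -- the closed set
  let R : Y.X.X → Prop := fun q => E.Reachable (Y.p ()) q ∨
    ∃ κ ∈ Subgroup.closure (Set.range b), q = Y.X.act κ c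
  have hR : ∀ x y, R x → (ext8 Y E a c).Adj x y → R y := by
    intro x y hx hxy
    rw [ext8_adj hac] at hxy
    rcases hx with hx | ⟨κ, hκ, rfl⟩
    · rcases hxy with hxy | ⟨h, hh, ⟨rfl, rfl⟩ | ⟨rfl, rfl⟩⟩
      · exact Or.inl (hx.trans hxy.reachable)
      · refine Or.inr ⟨h, hS.S1 h hh (hx.trans (reach_act8 Y hS.inv hh hp)), rfl⟩
      · exact absurd (by rw [Y.X.act_one]; exact hx) (hno2 1 π.ker.one_mem h hh)
    · rcases hxy with hxy | ⟨h, hh, ⟨h1, rfl⟩ | ⟨h1, rfl⟩⟩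
      · exact absurd hxy (hnadj κ (hcl hκ) y)
      · exfalso
        refine hno2 h hh κ (hcl hκ) ?_
        rw [h1]
        exact reach_act8 Y hS.inv hh hp.symm
      · have : κ = h := free8 Y (hcl hκ) hh h1
        subst this
        exact Or.inl ((hS.S1' κ hκ).trans (reach_act8 Y hS.inv hh hp.symm))
  have hRp : R (Y.p ()) := Or.inl (SimpleGraph.Reachable.refl _)
  refine ⟨ext8_le hS hac, ext8_inv hS hac, hS.bF, ?_, ?_, ?_, ?_, hS.S4, hS.S5⟩
  · intro h hh hr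
    rcases closed8 hR hRp hr with h1 | ⟨κ, hκ, h1⟩
    · exact hS.S1 h hh h1
    · exfalso
      refine hno2 h hh κ (hcl hκ) ?_
      rw [h1]
  · intro h hh
    exact (hS.S1' h hh).mono (le_ext8 a c)
  · intro x y hxy
    have hxy' := hxy
    rw [ext8_adj hac] at hxy
    rcases hxy with hxy | ⟨h, hh, ⟨rfl, rfl⟩ | ⟨rfl, rfl⟩⟩
    · obtain ⟨k, hk, h1⟩ := hS.S2 x y hxy
      exact ⟨k, hk, h1.mono (le_ext8 a c)⟩
    · exact ⟨h, hh, (reach_act8 Y hS.inv hh hp).mono (le_ext8 a c)⟩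
    · exact ⟨h, hh, hxy'.reachable.trans ((reach_act8 Y hS.inv hh hp).mono (le_ext8 a c))⟩
  · intro q hq g
    rcases closed8 hR hRp hq with h1 | ⟨κ, hκ, rfl⟩
    · exact hS.S3 q h1 g
    · rw [Y.sig_eq κ (mem_top8 (hcl hκ)) c g, ← hsig g]
      have h2 := hS.tau_mem hac ha hp g
      have h3 := hS.norm g (Subgroup.inv_mem _ hκ)
      have : κ * Y.tau a c g * κ⁻¹ * (s0 g)⁻¹ =
          κ * (Y.tau a c g * (s0 g)⁻¹) * (s0 g * κ⁻¹ * (s0 g)⁻¹) := by group
      rw [this]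
      exact Subgroup.mul_mem _ (Subgroup.mul_mem _ hκ h2) h3

theorem range_snoc8 (b : Fin n → Γ) (k : Γ) :
    Set.range (Fin.snoc (α := fun _ => Γ) b k : Fin (n + 1) → Γ) = insert k (Set.range b) := by
  ext x
  constructor
  · rintro ⟨i, rfl⟩
    induction i using Fin.lastCases with
    | last => rw [Fin.snoc_last]; exact Set.mem_insert _ _
    | cast i => rw [Fin.snoc_castSucc]; exact Set.mem_insert_of_mem _ ⟨i, rfl⟩
  · rintro (rfl | ⟨i, rfl⟩)
    · exact ⟨Fin.last n, by rw [Fin.snoc_last]⟩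
    · exact ⟨i.castSucc, by rw [Fin.snoc_castSucc]⟩

theorem image_castSucc8 (b : Fin n → Γ) (k : Γ) (i : Fin n) :
    (Fin.snoc (α := fun _ => Γ) b k : Fin (n + 1) → Γ) '' {j | j < i.castSucc} = b '' {j | j < i} := by
  ext x
  constructor
  · rintro ⟨j, hj, rfl⟩
    induction j using Fin.lastCases with
    | last => exact absurd (lt_trans hj (Fin.castSucc_lt_last i)) (lt_irrefl _)
    | cast j => exact ⟨j, Fin.castSucc_lt_castSucc_iff.1 hj, by rw [Fin.snoc_castSucc]⟩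
  · rintro ⟨j, hj, rfl⟩
    exact ⟨j.castSucc, Fin.castSucc_lt_castSucc_iff.2 hj, by rw [Fin.snoc_castSucc]⟩

theorem image_last8 (b : Fin n → Γ) (k : Γ) :
    (Fin.snoc (α := fun _ => Γ) b k : Fin (n + 1) → Γ) '' {j | j < Fin.last n} = Set.range b := by
  ext x
  constructor
  · rintro ⟨j, hj, rfl⟩
    induction j using Fin.lastCases with
    | last => exact absurd (show Fin.last n < Fin.last n from hj) (lt_irrefl _)
    | cast j => exact ⟨j, by rw [Fin.snoc_castSucc]⟩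
  · rintro ⟨j, rfl⟩
    exact ⟨j.castSucc, Fin.castSucc_lt_last j, by rw [Fin.snoc_castSucc]⟩

/-- crossing number with the new orbit of edges -/
theorem Stage8.cross (hc : Ctx π) (hS : Stage8 Y E n b) {a c : Y.X.X} (hac : Y.X.G.Adj a c)
    (hE : ¬ E.Adj a c) (hp : E.Reachable a (Y.p ())) {k : Γ} (hk : k ∈ π.ker)
    (hr : E.Reachable c (Y.X.act k (Y.p ()))) :
    ∃ χ : π.ker →* Multiplicative ℤ, (∀ h : π.ker, (h : Γ) ∈ Subgroup.closure (Set.range b) → χ h = 1) ∧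
      ∀ h : π.ker, (h : Γ) = k → χ h = Multiplicative.ofAdd 1 := by
  classical
  let P : Y.X.X → Y.X.X → Prop := fun x y => ∃ h ∈ π.ker, Y.X.act h a = x ∧ Y.X.act h c = y
  have hPinv : ∀ h ∈ π.ker, ∀ x y, P (Y.X.act h x) (Y.X.act h y) ↔ P x y := by
    intro h hh x y
    constructor
    · rintro ⟨l, hl, h1, h2⟩
      refine ⟨h⁻¹ * l, π.ker.mul_mem (π.ker.inv_mem hh) hl, ?_, ?_⟩
      · rw [act_mul8 Y (π.ker.inv_mem hh) hl, h1, inv_act8 Y hh]
      · rw [act_mul8 Y (π.ker.inv_mem hh) hl, h2, inv_act8 Y hh]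
    · rintro ⟨l, hl, h1, h2⟩
      exact ⟨h * l, π.ker.mul_mem hh hl, by rw [act_mul8 Y hh hl, h1], by rw [act_mul8 Y hh hl, h2]⟩
  have hPanti : ∀ x y, P x y → ¬ P y x := by
    rintro x y ⟨l, hl, h1, h2⟩ ⟨m, hm, h3, h4⟩
    have hmem := π.ker.mul_mem (π.ker.inv_mem hl) hm
    have e1 : Y.X.act (l⁻¹ * m) a = c := by
      rw [act_mul8 Y (π.ker.inv_mem hl) hm, h3, ← h2, inv_act8 Y hl]
    have e2 : Y.X.act (l⁻¹ * m) c = a := by
      rw [act_mul8 Y (π.ker.inv_mem hl) hm, h4, ← h1, inv_act8 Y hl]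
    have e3 : (l⁻¹ * m) * (l⁻¹ * m) = 1 :=
      free8 Y (x := a) (π.ker.mul_mem hmem hmem) π.ker.one_mem
        (by rw [act_mul8 Y hmem hmem, e1, e2, Y.X.act_one])
    have e4 : l⁻¹ * m = 1 := hc.roots _ _ 2 (by norm_num) (by rw [pow_two, e3, one_pow])
    rw [e4, Y.X.act_one] at e1
    exact hac.ne e1
  have hPE : ∀ x y, E.Adj x y → ¬ P x y := by
    rintro x y hxy ⟨l, hl, rfl, rfl⟩
    have h1 := hS.inv _ (π.ker.inv_mem hl) _ _ hxy
    rw [inv_act8 Y hl, inv_act8 Y hl] at h1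
    exact hE h1
  let cc : Y.X.X → Y.X.X → ℤ := fun x y => if P x y then 1 else if P y x then -1 else 0
  have hcc : ∀ x y, Y.X.G.Adj x y → cc y x = - cc x y := by
    intro x y _
    show (if P y x then (1 : ℤ) else if P x y then -1 else 0) = - (if P x y then 1 else if P y x then -1 else 0)
    by_cases h1 : P x y
    · rw [if_neg (hPanti _ _ h1), if_pos h1, if_pos h1]
    · by_cases h2 : P y x
      · rw [if_pos h2, if_neg h1, if_pos h2]; ring
      · rw [if_neg h2, if_neg h1, if_neg h1, if_neg h2]; ring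
  have hi : ∀ h ∈ (⊤ : Subgroup Γ) ⊓ π.ker, ∀ x y, cc (Y.X.act h x) (Y.X.act h y) = cc x y := by
    intro h hh x y
    show (if P (Y.X.act h x) (Y.X.act h y) then (1 : ℤ) else if P (Y.X.act h y) (Y.X.act h x) then -1 else 0) =
      (if P x y then 1 else if P y x then -1 else 0)
    simp only [hPinv h hh.2]
  obtain ⟨u, χ, hu, hχ⟩ := crossing_ab Y.X cc hcc hi
  have huE : ∀ x y, E.Reachable x y → u y = u x := by
    intro x y hxy
    refine closed8 (R := fun z => u z = u x) ?_ rfl hxy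
    intro z w hz hzw
    have h1 := hu z w (hS.le z w hzw)
    have h2 : cc z w = 0 := by
      show (if P z w then (1 : ℤ) else if P w z then -1 else 0) = 0
      rw [if_neg (hPE _ _ hzw), if_neg (hPE _ _ hzw.symm)]
    rw [h2] at h1
    show u w = u x
    rw [← hz]; linarith
  let ι : π.ker →* ((⊤ : Subgroup Γ) ⊓ π.ker : Subgroup Γ) :=
    Subgroup.inclusion (fun h hh => mem_top8 hh)
  refine ⟨χ.comp ι, ?_, ?_⟩
  · intro h hh
    show χ (ι h) = 1
    rw [hχ (ι h) (Y.p ())]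
    have h1 := huE _ _ (hS.S1' _ hh)
    show Multiplicative.ofAdd (u (Y.X.act (h : Γ) (Y.p ())) - u (Y.p ())) = 1
    rw [h1, sub_self]; rfl
  · intro h hh
    show χ (ι h) = _
    rw [hχ (ι h) (Y.p ())]
    show Multiplicative.ofAdd (u (Y.X.act (h : Γ) (Y.p ())) - u (Y.p ())) = _
    rw [hh]
    have h1 := huE _ _ hp
    have h2 := huE _ _ hr
    have h3 := hu a c hac
    have h4 : cc a c = 1 := by
      show (if P a c then (1 : ℤ) else if P c a then -1 else 0) = 1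
      rw [if_pos ⟨1, π.ker.one_mem, Y.X.act_one a, Y.X.act_one c⟩]
    rw [h4] at h3
    rw [h1, h2]
    congr 1

/-- case (B): `c` is in an active component -/
theorem Stage8.stepB (hc : Ctx π) (hS : Stage8 Y E n b) {a c : Y.X.X} (hac : Y.X.G.Adj a c)
    (hE : ¬ E.Adj a c)
    (ha : ∀ g, E.Reachable a (Y.X.act (Y.tau a c g * (Y.sig a g)⁻¹) a))
    (hcc : ∀ g, E.Reachable c (Y.X.act (Y.tau a c g * (Y.sig c g)⁻¹) c))
    (hp : E.Reachable a (Y.p ())) {k : Γ} (hk : k ∈ π.ker)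
    (hr : E.Reachable c (Y.X.act k (Y.p ()))) :
    Stage8 Y (ext8 Y E a c) (n + 1) (Fin.snoc (α := fun _ => Γ) b k) := by
  have hcl := hS.cl_le
  have hki := π.ker.inv_mem hk
  have hKle : Subgroup.closure (Set.range b) ≤
      Subgroup.closure (Set.range (Fin.snoc (α := fun _ => Γ) b k : Fin (n + 1) → Γ)) := by
    rw [range_snoc8]
    exact Subgroup.closure_mono (Set.subset_insert _ _)
  have hkK : k ∈ Subgroup.closure (Set.range (Fin.snoc (α := fun _ => Γ) b k : Fin (n + 1) → Γ)) := by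
    rw [range_snoc8]
    exact Subgroup.subset_closure (Set.mem_insert _ _)
  have hKF : Subgroup.closure (Set.range (Fin.snoc (α := fun _ => Γ) b k : Fin (n + 1) → Γ)) ≤ π.ker := by
    rw [range_snoc8, Subgroup.closure_le]
    rintro x (rfl | ⟨i, rfl⟩)
    · exact hk
    · exact hS.bF i
  -- the relation for the new generator
  have hS4 : ∀ g, ∃ w ∈ Subgroup.closure (Set.range b), ∃ v ∈ Subgroup.closure (Set.range b),
      s0 g * k * (s0 g)⁻¹ = w * k * v := by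
    intro g
    have h1 := hS.tau_mem hac ha hp g
    have hu3 : Y.tau a c g * (Y.sig c g)⁻¹ ∈ π.ker := by
      rw [MonoidHom.mem_ker, map_mul, map_inv, (Y.tau_sec a c hac).sec g, (Y.sig_sec c).sec g, mul_inv_cancel]
    -- transport to `k⁻¹ c`
    have hq : E.Reachable (Y.p ()) (Y.X.act k⁻¹ c) := by
      have := reach_act8 Y hS.inv hki hr.symm
      rwa [inv_act8 Y hk] at this
    have h3 := hS.S3 _ hq g
    rw [Y.sig_eq k⁻¹ (mem_top8 hki) c g, inv_inv] at h3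
    have h4 : k⁻¹ * (Y.tau a c g * (Y.sig c g)⁻¹) * k ∈ Subgroup.closure (Set.range b) := by
      refine hS.S1 _ (π.ker.mul_mem (π.ker.mul_mem hki hu3) hk) ?_
      have h5 := comp8 Y hS.inv hu3 hr (hcc g)
      have h6 := reach_act8 Y hS.inv hki h5
      rw [inv_act8 Y hk] at h6
      rw [act_mul8 Y (π.ker.mul_mem hki hu3) hk, act_mul8 Y hki hu3]
      exact h6
    refine ⟨(Y.tau a c g * (s0 g)⁻¹)⁻¹, Subgroup.inv_mem _ h1,
      (k⁻¹ * (Y.tau a c g * (Y.sig c g)⁻¹) * k) * (k⁻¹ * Y.sig c g * k * (s0 g)⁻¹),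
      Subgroup.mul_mem _ h4 h3, ?_⟩
    group
  have hS4' : ∀ (g : G) (i : Fin (n + 1)),
      ∃ w ∈ Subgroup.closure ((Fin.snoc (α := fun _ => Γ) b k : Fin (n + 1) → Γ) '' {j | j < i}),
      ∃ v ∈ Subgroup.closure ((Fin.snoc (α := fun _ => Γ) b k : Fin (n + 1) → Γ) '' {j | j < i}),
      s0 g * (Fin.snoc (α := fun _ => Γ) b k : Fin (n + 1) → Γ) i * (s0 g)⁻¹ =
        w * (Fin.snoc (α := fun _ => Γ) b k : Fin (n + 1) → Γ) i * v := by
    intro g i
    induction i using Fin.lastCases with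
    | last => rw [image_last8, Fin.snoc_last]; exact hS4 g
    | cast i => rw [image_castSucc8, Fin.snoc_castSucc]; exact hS.S4 g i
  have hnorm : ∀ (g : G) {κ : Γ},
      κ ∈ Subgroup.closure (Set.range (Fin.snoc (α := fun _ => Γ) b k : Fin (n + 1) → Γ)) →
      s0 g * κ * (s0 g)⁻¹ ∈ Subgroup.closure (Set.range (Fin.snoc (α := fun _ => Γ) b k : Fin (n + 1) → Γ)) := by
    intro g κ hκ
    induction hκ using Subgroup.closure_induction with
    | mem x hx =>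
      rw [range_snoc8] at hx
      rcases hx with rfl | ⟨i, rfl⟩
      · obtain ⟨w, hw, v, hv, e⟩ := hS4 g
        rw [e]
        exact Subgroup.mul_mem _ (Subgroup.mul_mem _ (hKle hw) hkK) (hKle hv)
      · exact hKle (hS.norm g (Subgroup.subset_closure ⟨i, rfl⟩))
    | one => simp
    | mul x y _ _ hx hy =>
      have : s0 g * (x * y) * (s0 g)⁻¹ = (s0 g * x * (s0 g)⁻¹) * (s0 g * y * (s0 g)⁻¹) := by group
      rw [this]; exact Subgroup.mul_mem _ hx hy
    | inv x _ hx =>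
      have : s0 g * x⁻¹ * (s0 g)⁻¹ = (s0 g * x * (s0 g)⁻¹)⁻¹ := by group
      rw [this]; exact Subgroup.inv_mem _ hx
  -- the closed set
  let R : Y.X.X → Prop := fun q =>
    ∃ κ ∈ Subgroup.closure (Set.range (Fin.snoc (α := fun _ => Γ) b k : Fin (n + 1) → Γ)),
      E.Reachable (Y.X.act κ (Y.p ())) q
  have key : ∀ κ ∈ π.ker, ∀ h ∈ π.ker, E.Reachable (Y.X.act κ (Y.p ())) (Y.X.act h (Y.p ())) →
      κ⁻¹ * h ∈ Subgroup.closure (Set.range b) := by
    intro κ hκ h hh hr'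
    have h1 := reach_act8 Y hS.inv (π.ker.inv_mem hκ) hr'
    rw [inv_act8 Y hκ, ← act_mul8 Y (π.ker.inv_mem hκ) hh] at h1
    exact hS.S1 _ (π.ker.mul_mem (π.ker.inv_mem hκ) hh) h1
  have hR : ∀ x y, R x → (ext8 Y E a c).Adj x y → R y := by
    intro x y hx hxy
    rw [ext8_adj hac] at hxy
    obtain ⟨κ, hκ, hx⟩ := hx
    rcases hxy with hxy | ⟨h, hh, ⟨rfl, rfl⟩ | ⟨rfl, rfl⟩⟩
    · exact ⟨κ, hκ, hx.trans hxy.reachable⟩
    · have h1 := key κ (hKF hκ) h hh (hx.trans (reach_act8 Y hS.inv hh hp))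
      have h2 : h ∈ Subgroup.closure (Set.range (Fin.snoc (α := fun _ => Γ) b k : Fin (n + 1) → Γ)) := by
        have : h = κ * (κ⁻¹ * h) := by group
        rw [this]; exact Subgroup.mul_mem _ hκ (hKle h1)
      refine ⟨h * k, Subgroup.mul_mem _ h2 hkK, ?_⟩
      rw [act_mul8 Y hh hk]
      exact reach_act8 Y hS.inv hh hr.symm
    · have h1 := key κ (hKF hκ) (h * k) (π.ker.mul_mem hh hk) (by
        rw [act_mul8 Y hh hk]; exact hx.trans (reach_act8 Y hS.inv hh hr))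
      have h2 : h ∈ Subgroup.closure (Set.range (Fin.snoc (α := fun _ => Γ) b k : Fin (n + 1) → Γ)) := by
        have : h = κ * (κ⁻¹ * (h * k)) * k⁻¹ := by group
        rw [this]; exact Subgroup.mul_mem _ (Subgroup.mul_mem _ hκ (hKle h1)) (Subgroup.inv_mem _ hkK)
      exact ⟨h, h2, reach_act8 Y hS.inv hh hp.symm⟩
  have hRp : R (Y.p ()) := ⟨1, Subgroup.one_mem _, by rw [Y.X.act_one]⟩
  have hinv := ext8_inv hS hac
  refine ⟨ext8_le hS hac, hinv, ?_, ?_, ?_, ?_, ?_, hS4', ?_⟩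
  · intro i
    exact hKF (Subgroup.subset_closure ⟨i, rfl⟩)
  · intro h hh hr'
    obtain ⟨κ, hκ, h1⟩ := closed8 hR hRp hr'
    have h2 := key κ (hKF hκ) h hh h1
    have : h = κ * (κ⁻¹ * h) := by group
    rw [this]; exact Subgroup.mul_mem _ hκ (hKle h2)
  · intro h hh
    have hF := hKF hh
    -- induction over the closure
    have hgen : ∀ x ∈ Subgroup.closure (Set.range (Fin.snoc (α := fun _ => Γ) b k : Fin (n + 1) → Γ)),
        (ext8 Y E a c).Reachable (Y.p ()) (Y.X.act x (Y.p ())) := by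
      intro x hx
      induction hx using Subgroup.closure_induction with
      | mem x hx =>
        rw [range_snoc8] at hx
        rcases hx with rfl | ⟨i, rfl⟩
        · refine (hp.symm.mono (le_ext8 a c)).trans (SimpleGraph.Reachable.trans ?_ (hr.mono (le_ext8 a c)))
          have := ext8_new (E := E) hac 1 π.ker.one_mem
          rw [Y.X.act_one, Y.X.act_one] at this
          exact this.reachable
        · exact (hS.S1' _ (Subgroup.subset_closure ⟨i, rfl⟩)).mono (le_ext8 a c)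
      | one => rw [Y.X.act_one]
      | mul x y hx' hy' hx hy =>
        rw [act_mul8 Y (hKF hx') (hKF hy')]
        exact hx.trans (reach_act8 Y hinv (hKF hx') hy)
      | inv x hx' hx =>
        have h1 := reach_act8 Y hinv (π.ker.inv_mem (hKF hx')) hx
        rw [inv_act8 Y (hKF hx')] at h1
        exact h1.symm
    exact hgen h hh
  · intro x y hxy
    have hxy' := hxy
    rw [ext8_adj hac] at hxy
    rcases hxy with hxy | ⟨h, hh, ⟨rfl, rfl⟩ | ⟨rfl, rfl⟩⟩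
    · obtain ⟨l, hl, h1⟩ := hS.S2 x y hxy
      exact ⟨l, hl, h1.mono (le_ext8 a c)⟩
    · exact ⟨h, hh, (reach_act8 Y hS.inv hh hp).mono (le_ext8 a c)⟩
    · exact ⟨h, hh, hxy'.reachable.trans ((reach_act8 Y hS.inv hh hp).mono (le_ext8 a c))⟩
  · intro q hq g
    obtain ⟨κ, hκ, h1⟩ := closed8 hR hRp hq
    have hκF := hKF hκ
    have h2 := reach_act8 Y hS.inv (π.ker.inv_mem hκF) h1
    rw [inv_act8 Y hκF] at h2
    have h3 := hS.S3 _ h2 g
    rw [Y.sig_eq κ⁻¹ (mem_top8 (π.ker.inv_mem hκF)) q g, inv_inv] at h3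
    have h4 := hnorm g (Subgroup.inv_mem _ hκ)
    have : Y.sig q g * (s0 g)⁻¹ = κ * (κ⁻¹ * Y.sig q g * κ * (s0 g)⁻¹) * (s0 g * κ⁻¹ * (s0 g)⁻¹) := by group
    rw [this]
    exact Subgroup.mul_mem _ (Subgroup.mul_mem _ hκ (hKle h3)) h4
  · obtain ⟨χ, hχ⟩ := hS.S5
    obtain ⟨χ', hχ1, hχ2⟩ := hS.cross hc hac hE hp hk hr
    refine ⟨Fin.snoc (α := fun _ => (π.ker →* Multiplicative ℤ)) χ χ', ?_⟩
    intro i h
    induction i using Fin.lastCases with
    | last =>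
      rw [Fin.snoc_last, Fin.snoc_last]
      refine ⟨?_, fun e => Or.inl (hχ2 h e)⟩
      intro j hj e
      apply hχ1
      rw [e]
      exact Subgroup.subset_closure (by rw [← image_last8 b k]; exact ⟨j, hj, rfl⟩)
    | cast i =>
      rw [Fin.snoc_castSucc, Fin.snoc_castSucc]
      refine ⟨?_, (hχ i h).2⟩
      intro j hj e
      induction j using Fin.lastCases with
      | last => exact absurd (lt_trans hj (Fin.castSucc_lt_last i)) (lt_irrefl _)
      | cast j =>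
        rw [Fin.snoc_castSucc] at e
        exact (hχ i h).1 j (Fin.castSucc_lt_castSucc_iff.1 hj) e

/-- one step, normalised -/
theorem Stage8.step0 (hc : Ctx π) (hS : Stage8 Y E n b) {a c : Y.X.X} (hac : Y.X.G.Adj a c)
    (hE : ¬ E.Adj a c)
    (ha : ∀ g, E.Reachable a (Y.X.act (Y.tau a c g * (Y.sig a g)⁻¹) a))
    (hcc : ∀ g, E.Reachable c (Y.X.act (Y.tau a c g * (Y.sig c g)⁻¹) c))
    (hp : E.Reachable a (Y.p ())) :
    ∃ (n' : ℕ) (b' : Fin n' → Γ), Stage8 Y (ext8 Y E a c) n' b' := by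
  by_cases h : ∃ k ∈ π.ker, E.Reachable c (Y.X.act k (Y.p ()))
  · obtain ⟨k, hk, hr⟩ := h
    exact ⟨_, _, hS.stepB hc hac hE ha hcc hp hk hr⟩
  · exact ⟨_, _, hS.stepA hac ha hcc hp h⟩

/-- one step -/
theorem Stage8.step (hc : Ctx π) (hS : Stage8 Y E n b) {a c : Y.X.X} (hac : Y.X.G.Adj a c)
    (hE : ¬ E.Adj a c)
    (ha : ∀ g, E.Reachable a (Y.X.act (Y.tau a c g * (Y.sig a g)⁻¹) a))
    (hcc : ∀ g, E.Reachable c (Y.X.act (Y.tau a c g * (Y.sig c g)⁻¹) c))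
    {k : Γ} (hk : k ∈ π.ker) (hp : E.Reachable a (Y.X.act k (Y.p ()))) :
    ∃ (E' : SimpleGraph Y.X.X) (n' : ℕ) (b' : Fin n' → Γ), Stage8 Y E' n' b' ∧ E ≤ E' ∧ E'.Adj a c := by
  have hki := π.ker.inv_mem hk
  have hac' := Y.X.act_adj k⁻¹ (mem_top8 hki) _ _ hac
  have hE' : ¬ E.Adj (Y.X.act k⁻¹ a) (Y.X.act k⁻¹ c) := by
    intro h
    have := hS.inv k hk _ _ h
    rw [act_inv8 Y hk, act_inv8 Y hk] at this
    exact hE this
  have tr : ∀ (x : Y.X.X) (g : G),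
      Y.tau a c g * (Y.sig x g)⁻¹ ∈ π.ker → E.Reachable x (Y.X.act (Y.tau a c g * (Y.sig x g)⁻¹) x) →
      E.Reachable (Y.X.act k⁻¹ x) (Y.X.act (Y.tau (Y.X.act k⁻¹ a) (Y.X.act k⁻¹ c) g *
        (Y.sig (Y.X.act k⁻¹ x) g)⁻¹) (Y.X.act k⁻¹ x)) := by
    intro x g hmem hx
    rw [Y.tau_eq k⁻¹ (mem_top8 hki) a c hac g, Y.sig_eq k⁻¹ (mem_top8 hki) x g]
    have e : k⁻¹ * Y.tau a c g * k⁻¹⁻¹ * (k⁻¹ * Y.sig x g * k⁻¹⁻¹)⁻¹ =
        k⁻¹ * (Y.tau a c g * (Y.sig x g)⁻¹) * k := by group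
    have h1 := reach_act8 Y hS.inv hki hx
    rw [e, ← act_mul8 Y (π.ker.mul_mem (π.ker.mul_mem hki hmem) hk) hki]
    have e2 : k⁻¹ * (Y.tau a c g * (Y.sig x g)⁻¹) * k * k⁻¹ = k⁻¹ * (Y.tau a c g * (Y.sig x g)⁻¹) := by group
    rw [e2, act_mul8 Y hki hmem]
    exact h1
  have hm : ∀ (x : Y.X.X) (g : G), Y.tau a c g * (Y.sig x g)⁻¹ ∈ π.ker := by
    intro x g
    rw [MonoidHom.mem_ker, map_mul, map_inv, (Y.tau_sec a c hac).sec g, (Y.sig_sec x).sec g, mul_inv_cancel]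
  have hp' : E.Reachable (Y.X.act k⁻¹ a) (Y.p ()) := by
    have := reach_act8 Y hS.inv hki hp
    rwa [inv_act8 Y hk] at this
  obtain ⟨n', b', h'⟩ := hS.step0 hc hac' hE' (fun g => tr a g (hm a g) (ha g))
    (fun g => tr c g (hm c g) (hcc g)) hp'
  refine ⟨_, n', b', h', le_ext8 _ _, ?_⟩
  have := ext8_new (E := E) hac' k hk
  rwa [act_inv8 Y hk, act_inv8 Y hk] at this

open Classical in
theorem Stage8.finish (hc : Ctx π) (S : Finset (Y.X.X × Y.X.X))
    (hSc : ∀ x y, Y.X.G.Adj x y → ∃ h ∈ (⊤ : Subgroup Γ) ⊓ π.ker, (Y.X.act h x, Y.X.act h y) ∈ S)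
    (hsat : ∀ a b, Y.X.G.Adj a b → Y.Conn Set.univ a b) (d : ℕ) :
    ∀ (E : SimpleGraph Y.X.X) (n : ℕ) (b : Fin n → Γ), Stage8 Y E n b →
      S.card - (S.filter (fun e => E.Adj e.1 e.2)).card = d →
      ∃ (E' : SimpleGraph Y.X.X) (n' : ℕ) (b' : Fin n' → Γ), Stage8 Y E' n' b' ∧
        ∀ x y, Y.X.G.Adj x y → E'.Reachable x y := by
  induction d using Nat.strong_induction_on with
  | _ d ih =>
    intro E n b hS hd
    by_cases hstep : ∃ a c, Y.X.G.Adj a c ∧ ¬ E.Adj a c ∧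
        (∀ g, E.Reachable a (Y.X.act (Y.tau a c g * (Y.sig a g)⁻¹) a)) ∧
        (∀ g, E.Reachable c (Y.X.act (Y.tau a c g * (Y.sig c g)⁻¹) c)) ∧
        ∃ k ∈ π.ker, E.Reachable a (Y.X.act k (Y.p ()))
    · obtain ⟨a, c, hac, hE, ha, hcc, k, hk, hp⟩ := hstep
      obtain ⟨E', n', b', hS', hle, hnew⟩ := hS.step hc hac hE ha hcc hk hp
      obtain ⟨h, hh, hmem⟩ := hSc a c hac
      have hlt : (S.filter (fun e => E.Adj e.1 e.2)).card < (S.filter (fun e => E'.Adj e.1 e.2)).card := by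
        apply Finset.card_lt_card
        rw [Finset.ssubset_iff_of_subset]
        · refine ⟨(Y.X.act h a, Y.X.act h c), ?_, ?_⟩
          · rw [Finset.mem_filter]
            exact ⟨hmem, hS'.inv h hh.2 _ _ hnew⟩
          · rw [Finset.mem_filter]
            rintro ⟨-, hadj⟩
            apply hE
            have := hS.inv _ (π.ker.inv_mem hh.2) _ _ hadj
            rwa [inv_act8 Y hh.2, inv_act8 Y hh.2] at this
        · intro e he
          rw [Finset.mem_filter] at he ⊢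
          exact ⟨he.1, hle he.2⟩
      have hle2 : (S.filter (fun e => E'.Adj e.1 e.2)).card ≤ S.card := Finset.card_filter_le _ _
      exact ih (S.card - (S.filter (fun e => E'.Adj e.1 e.2)).card) (by omega) E' n' b' hS' rfl
    · refine ⟨E, n, b, hS, ?_⟩
      have hconn : ∀ a c, Y.Conn Set.univ a c → E.Reachable a c := by
        intro a c h
        induction h with
        | refl a => exact SimpleGraph.Reachable.refl _
        | symm _ ih => exact ih.symm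
        | trans _ _ ih1 ih2 => exact ih1.trans ih2
        | @edge a c hac _ _ i _ k hk _ ih1 ih2 ih3 =>
          by_contra hne
          refine hstep ⟨a, c, hac, fun h => hne h.reachable, ih1, ih2, k, hk.2, ih3⟩
      exact fun x y hxy => hconn x y (hsat x y hxy)

theorem stage_exists (hc : Ctx π) {s0 : G →* Γ} (hs0 : IsSec π s0)
    (Y : Gadget π (⊤ : Subgroup Γ) (fun _ : Unit => s0)) (h : Y.Sat Set.univ none) :
    ∃ (n : ℕ) (b : Fin n → Γ), (∀ i, b i ∈ π.ker) ∧ Subgroup.closure (Set.range b) = π.ker ∧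
      (∀ g, ∀ i, ∃ w ∈ Subgroup.closure (b '' {j | j < i}), ∃ v ∈ Subgroup.closure (b '' {j | j < i}),
        s0 g * b i * (s0 g)⁻¹ = w * b i * v) ∧
      ∃ χ : Fin n → (π.ker →* Multiplicative ℤ), ∀ i, ∀ h : π.ker,
        (∀ j < i, (h : Γ) = b j → χ i h = 1) ∧
        ((h : Γ) = b i → χ i h = Multiplicative.ofAdd 1 ∨ χ i h = Multiplicative.ofAdd (-1)) := by
  obtain ⟨S, hSc⟩ := Y.cocptE
  obtain ⟨E, n, b, hS, hE⟩ := Stage8.finish hc S hSc h.2 _ ⊥ 0 Fin.elim0 (Stage8.init Y) rfl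
  refine ⟨n, b, hS.bF, le_antisymm hS.cl_le ?_, hS.S4, hS.S5⟩
  intro k hk
  refine hS.S1 k hk ?_
  obtain ⟨w⟩ := Y.X.tree.connected (Y.p ()) (Y.X.act k (Y.p ()))
  refine closed8 (R := fun q => E.Reachable (Y.p ()) q) (E' := Y.X.G) ?_ (SimpleGraph.Reachable.refl _) ⟨w⟩
  intro x y hx hxy
  exact hx.trans (hE x y hxy)

end

end Pool.Agent.Lib.MP_6567fb_al
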