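import Pool.Agent.Lib.MP_6567fb_al.F8a
import Pool.Agent.Lib.MP_6567fb_al.T7d

/-!
# MP_6567fb_al, module F8b

The generators form a basis (Hopf property by the linear model); the flag.
-/

set_option autoImplicit false

open scoped Pointwise
open Filter

namespace Pool.Agent.Lib.MP_6567fb_al

open MTree
variable {Γ G : Type} [Group Γ] [Group G] {π : Γ →* G}

/-- a surjective endomorphism of the free group is injective -/
theorem f8b_hopf (hc : Ctx π) (φ : π.ker →* π.ker) (hφ : Function.Surjective φ) :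
    Function.Injective φ := by
  obtain ⟨L⟩ := hc.lin
  intro x y hxy
  apply Subtype.ext
  refine L.inj _ x.2 _ y.2 (fun c => ?_)
  let _ := L.acg c
  let _ := L.mod c
  have := L.fin c
  obtain ⟨R, hR⟩ := L.endo c φ
  let W : Submodule ℚ (L.A c) := Submodule.span ℚ (Set.range (fun z : π.ker => L.emb c (z : Γ)))
  have hmap : W.map R = W := by
    rw [Submodule.map_span]
    apply congrArg
    ext v
    constructor
    · rintro ⟨_, ⟨z, rfl⟩, rfl⟩
      exact ⟨φ z, hR z⟩
    · rintro ⟨z, rfl⟩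
      obtain ⟨z', rfl⟩ := hφ z
      exact ⟨_, ⟨z', rfl⟩, (hR z').symm⟩
  have hmem : ∀ w ∈ W, R w ∈ W := by
    intro w hw
    rw [← hmap]
    exact Submodule.mem_map_of_mem hw
  let R' : W →ₗ[ℚ] W := R.restrict hmem
  have hsurj : Function.Surjective R' := by
    rintro ⟨w, hw⟩
    rw [← hmap] at hw
    obtain ⟨w', hw', rfl⟩ := hw
    exact ⟨⟨w', hw'⟩, rfl⟩
  have hinj : Function.Injective R' := LinearMap.injective_iff_surjective.2 hsurj
  have hx : L.emb c (x : Γ) ∈ W := Submodule.subset_span ⟨x, rfl⟩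
  have hy : L.emb c (y : Γ) ∈ W := Submodule.subset_span ⟨y, rfl⟩
  have h1 : R' ⟨_, hx⟩ = R' ⟨_, hy⟩ := by
    apply Subtype.ext
    change R (L.emb c (x : Γ)) = R (L.emb c (y : Γ))
    rw [← hR, ← hR, hxy]
  exact congrArg Subtype.val (hinj h1)

theorem f8b_le {n N : ℕ} (bN : FreeGroupBasis (Fin N) π.ker) (b : Fin n → π.ker)
    (χ : Fin n → (π.ker →* Multiplicative ℤ)) (h0 : ∀ i j, j < i → χ i (b j) = 1)
    (h1 : ∀ i, χ i (b i) = Multiplicative.ofAdd 1 ∨ χ i (b i) = Multiplicative.ofAdd (-1)) :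
    n ≤ N := by
  have hfin : Module.Finite ℚ (Additive π.ker →+ ℚ) :=
    Module.Finite.equiv (t7d_equiv bN).symm
  have hrk : Module.finrank ℚ (Additive π.ker →+ ℚ) = N := by
    rw [LinearEquiv.finrank_eq (t7d_equiv bN)]
    simp
  let f : Fin n → (Additive π.ker →+ ℚ) := fun i =>
    (Int.castAddHom ℚ).comp (MonoidHom.toAdditiveLeft (χ i))
  have hf : ∀ i (x : π.ker), f i (Additive.ofMul x) = ((Multiplicative.toAdd (χ i x) : ℤ) : ℚ) :=
    fun i x => rfl
  have hli : LinearIndependent ℚ f := by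
    rw [Fintype.linearIndependent_iff]
    intro c hsum
    by_contra hcon
    push Not at hcon
    classical
    obtain ⟨i0, hi0⟩ := hcon
    -- least index with non-zero coefficient
    obtain ⟨j, hj, hmin⟩ := (Finset.univ.filter (fun i => c i ≠ 0)).exists_minimal
      ⟨i0, Finset.mem_filter.2 ⟨Finset.mem_univ _, hi0⟩⟩
    have hcj : c j ≠ 0 := (Finset.mem_filter.1 hj).2
    have h2 : (∑ i, c i • f i) (Additive.ofMul (b j)) = 0 := by rw [hsum]; rfl
    have h3 : (∑ i, c i • f i) (Additive.ofMul (b j)) = ∑ i, c i * f i (Additive.ofMul (b j)) := by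
      rw [AddMonoidHom.finsetSum_apply]
      rfl
    rw [h3, Finset.sum_eq_single j] at h2
    · rw [hf] at h2
      rcases h1 j with h4 | h4 <;> rw [h4] at h2 <;> simp at h2 <;> exact hcj h2
    · intro i _ hij
      rcases lt_or_gt_of_ne hij with h4 | h4
      · have h5 : c i = 0 := by
          by_contra h6
          have h7 := hmin (Finset.mem_filter.2 ⟨Finset.mem_univ i, h6⟩) h4.le
          exact absurd (lt_of_lt_of_le h4 h7) (lt_irrefl _)
        rw [h5, zero_mul]
      · rw [hf, h0 i j h4]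
        simp
    · intro h4
      exact (h4 (Finset.mem_univ _)).elim
  have h2 := hli.fintype_card_le_finrank
  rw [hrk, Fintype.card_fin] at h2
  exact h2

theorem basis_of_gen (hc : Ctx π) {n : ℕ} (b : Fin n → π.ker)
    (hgen : Subgroup.closure (Set.range b) = ⊤)
    (χ : Fin n → (π.ker →* Multiplicative ℤ)) (h0 : ∀ i j, j < i → χ i (b j) = 1)
    (h1 : ∀ i, χ i (b i) = Multiplicative.ofAdd 1 ∨ χ i (b i) = Multiplicative.ofAdd (-1)) :
    ∃ B : FreeGroupBasis (Fin n) π.ker, ∀ i, B i = b i := by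
  obtain ⟨N, ⟨bN⟩⟩ := hc.free
  have hn := f8b_le bN b χ h0 h1
  let ψ : FreeGroup (Fin n) →* π.ker := FreeGroup.lift b
  have hψ : Function.Surjective ψ := by
    rw [← MonoidHom.range_eq_top, ← hgen]
    exact FreeGroup.range_lift_eq_closure
  let σ : FreeGroup (Fin N) →* FreeGroup (Fin n) :=
    FreeGroup.lift (fun i => if h : (i : ℕ) < n then FreeGroup.of ⟨i, h⟩ else 1)
  have hσ : Function.Surjective σ := by
    rw [← MonoidHom.range_eq_top, eq_top_iff, ← FreeGroup.closure_range_of, Subgroup.closure_le]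
    rintro _ ⟨i, rfl⟩
    refine ⟨FreeGroup.of ⟨i, lt_of_lt_of_le i.2 hn⟩, ?_⟩
    simp [σ]
  have hinj := f8b_hopf hc ((ψ.comp σ).comp bN.repr.toMonoidHom)
    ((hψ.comp hσ).comp bN.repr.surjective)
  have hψi : Function.Injective ψ := by
    intro x y hxy
    obtain ⟨x', rfl⟩ := hσ x
    obtain ⟨y', rfl⟩ := hσ y
    obtain ⟨x'', rfl⟩ := bN.repr.surjective x'
    obtain ⟨y'', rfl⟩ := bN.repr.surjective y'
    have h2 : x'' = y'' := hinj hxy
    rw [h2]
  let e : FreeGroup (Fin n) ≃* π.ker := MulEquiv.ofBijective ψ ⟨hψi, hψ⟩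
  refine ⟨FreeGroupBasis.ofRepr e.symm, fun i => ?_⟩
  change e (FreeGroup.of i) = b i
  change FreeGroup.lift b (FreeGroup.of i) = b i
  simp

theorem flag_of_gadget (hc : Ctx π) {s0 : G →* Γ} (hs0 : IsSec π s0)
    (Y : Gadget π (⊤ : Subgroup Γ) (fun _ : Unit => s0)) (h : Y.Sat Set.univ none) :
    CommonFlag π s0 := by
  obtain ⟨n, b, hb, hgen, hflag, χ, hχ⟩ := stage_exists hc hs0 Y h
  have hgen' : Subgroup.closure (Set.range (fun i => (⟨b i, hb i⟩ : π.ker))) = ⊤ := by
    apply Subgroup.map_injective π.ker.subtype_injective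
    rw [MonoidHom.map_closure, ← MonoidHom.range_eq_map, Subgroup.range_subtype,
      ← Set.range_comp]
    exact hgen
  obtain ⟨B, hB⟩ := basis_of_gen hc (fun i => (⟨b i, hb i⟩ : π.ker)) hgen' χ
    (fun i j hij => (hχ i ⟨b j, hb j⟩).1 j hij rfl) (fun i => (hχ i ⟨b i, hb i⟩).2 rfl)
  have hB' : (fun j => (B j : Γ)) = b := by
    funext j
    rw [hB]
  refine ⟨n, B, fun g i => ?_⟩
  rw [hB']
  have h2 := hflag g i
  have h3 : (B i : Γ) = b i := congrFun hB' i
  rw [h3]
  exact h2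

end Pool.Agent.Lib.MP_6567fb_al
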