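import Pool.Agent.Lib.MP_6567fb_al.F8b
import Pool.Agent.Lib.MP_6567fb_al.F7f
import Pool.Agent.Lib.MP_6567fb_al.F6b
import Pool.Agent.Lib.MP_6567fb_al.F1b

/-!
# MP_6567fb_al, module F8c

End of part F: F = ⊥ (empty basis).  Otherwise Full π ⊤; exists_gen; thmD with I = Unit, RR = {(univ, none)}: towers from tower_of_flag (TSat none: t from IsTower.top); flag_of_gadget.
-/

set_option autoImplicit false

open scoped Pointwise
open Filter

namespace Pool.Agent.Lib.MP_6567fb_al

open MTree
variable {Γ G : Type} [Group Γ] [Group G] {π : Γ →* G}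

theorem common_flag (hc : Ctx π) (hK : TheoremK π) {s0 : G →* Γ} (hs0 : IsSec π s0)
    (hbs : BSTrees π s0) (h : ∀ g, HonestFlag π (s0 g)) : CommonFlag π s0 := by
  by_cases hF : π.ker = ⊥
  · obtain ⟨n, ⟨b⟩⟩ := hc.free
    refine ⟨n, b, fun g i => ⟨1, Subgroup.one_mem _, 1, Subgroup.one_mem _, ?_⟩⟩
    have hb : (b i : Γ) = 1 := Subgroup.mem_bot.mp (hF.le (b i).2)
    rw [hb]; group
  · have hinf : (⊤ : Subgroup Γ) ⊓ π.ker = π.ker := top_inf_eq _
    have hfull : Full π (⊤ : Subgroup Γ) :=
      { ne := by rw [hinf]; exact hF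
        fac := by rw [hinf]; exact Or.inl rfl
        surj := fun g => by
          obtain ⟨m, hm⟩ := hc.surj g
          exact ⟨m, Subgroup.mem_top m, hm⟩
        max := by
          rw [hinf]
          exact (Subgroup.normalizer_eq_top (H := π.ker)).symm }
    obtain ⟨U, hU⟩ := exists_gen hc
    have hsec : ∀ _ : Unit, SecIn π (⊤ : Subgroup Γ) s0 := fun _ =>
      { sec := hs0
        mem := fun g => Subgroup.mem_top _ }
    obtain ⟨Y, hY⟩ := thmD hc hK hU hfull (I := Unit) (s := fun _ => s0) hsec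
      (RR := {(Set.univ, none)}) (Eventually.of_forall (fun g => by
        obtain ⟨UU, hUU⟩ := tower_of_flag hc hF hs0 hbs g (h g)
        refine ⟨fun _ => 0, UU, hUU, ?_⟩
        rintro R hR
        rw [Set.mem_singleton_iff] at hR
        subst hR
        obtain ⟨N, hN⟩ := hUU.top
        refine ⟨N, fun i _ => Set.mem_univ i, ?_⟩
        rw [hN N le_rfl]
        exact Set.mem_singleton _))
    exact flag_of_gadget hc hs0 Y (hY (Set.univ, none) (Set.mem_singleton _))

end Pool.Agent.Lib.MP_6567fb_al
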