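import Pool.Agent.Lib.MP_6567fb_al.Defs5
import Pool.Agent.Lib.MP_6567fb_al.T8b
import Pool.Agent.Lib.MP_6567fb_al.T14b
import Pool.Agent.Lib.MP_6567fb_al.T14d

/-!
# MP_6567fb_al, module K00a

Basic facts on groups `M` over a cyclic group, `H := M ⊓ ker π`.
exists_dec, eq_sup: m over g^i: x = m P^-i.  exists_exp: if g = 1 take i = 0; otherwise g has infinite order (tf: P over g, P^k in ker implies P in ker,
so g = 1): i m is the unique integer with π m = g^(i m).  stab: v is an end point of an edge (non-trivial splitting), its lift P is in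
S.stab v; A = S.stab v ⊓ ker is a factor of H (restrict S to H: T12 res) so of π.ker (fac_trans).  rk_stab_lt: A ≠ H since S is non-trivial;
rk_lt.  norm: D an M-factor: Loc by mfactor_loc; P over g: P D P⁻¹ = h D h⁻¹, so h⁻¹ P in N(D).  Full.cyc: clear.
IsProper.mg, .periph, .restr: transport of the tree (Mg ⊓ ker = M ⊓ ker).
exists_lift_fix: IsMFactor.inv of periph_mfactor for a lift.  lift_diff: periph_self_norm.
-/

set_option autoImplicit false

open scoped Pointwise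

namespace Pool.Agent.Lib.MP_6567fb_al

open MTree

variable {Γ G : Type} [Group Γ] [Group G] {π : Γ →* G}

theorem Cyc.exists_dec {M : Subgroup Γ} {g : G} (hM : Cyc π M g) {P : Γ} (hP : P ∈ M) (hPg : π P = g)
    {m : Γ} (hm : m ∈ M) : ∃ (x : Γ) (i : ℤ), x ∈ M ⊓ π.ker ∧ m = x * P ^ i := by
  obtain ⟨i, hi⟩ := hM.cyc m hm
  have hi' : g ^ i = π m := hi
  refine ⟨m * (P ^ i)⁻¹, i, ⟨M.mul_mem hm (M.inv_mem (M.zpow_mem hP i)), ?_⟩, by group⟩
  change π (m * (P ^ i)⁻¹) = 1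
  rw [map_mul, map_inv, map_zpow, hPg, hi', mul_inv_cancel]

theorem Cyc.eq_sup {M : Subgroup Γ} {g : G} (hM : Cyc π M g) {P : Γ} (hP : P ∈ M) (hPg : π P = g) :
    M = (M ⊓ π.ker) ⊔ Subgroup.zpowers P := by
  apply le_antisymm
  · intro m hm
    obtain ⟨x, i, hx, rfl⟩ := hM.exists_dec hP hPg hm
    exact Subgroup.mul_mem _ (Subgroup.mem_sup_left hx)
      (Subgroup.mem_sup_right (Subgroup.zpow_mem_zpowers P i))
  · exact sup_le inf_le_left ((Subgroup.zpowers_le).mpr hP)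

/-- elements over `g` stay over `g` when conjugated by elements of `M` -/
theorem Cyc.conj_over {M : Subgroup Γ} {g : G} (hM : Cyc π M g) {m Q : Γ} (hm : m ∈ M) (hQ : π Q = g) :
    π (m * Q * m⁻¹) = g := by
  obtain ⟨i, hi⟩ := hM.cyc m hm
  have hi' : g ^ i = π m := hi
  rw [map_mul, map_mul, map_inv, hQ, ← hi']
  group

/-- an element with a non-trivial power in the kernel is in the kernel -/
theorem zpow_ker (hc : Ctx π) {P : Γ} {k : ℤ} (hk : k ≠ 0) (h : π (P ^ k) = 1) : π P = 1 := by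
  have h1 : P ^ k.natAbs ∈ π.ker := by
    change π (P ^ k.natAbs) = 1
    rcases Int.natAbs_eq k with h2 | h2
    · rw [h2, zpow_natCast] at h
      exact h
    · rw [h2, zpow_neg, zpow_natCast, map_inv, inv_eq_one] at h
      exact h
  exact hc.tf P k.natAbs (Int.natAbs_pos.mpr hk) h1

/-- the exponent of `π m` as a power of `g` -/
theorem Cyc.exists_exp (hc : Ctx π) {M : Subgroup Γ} {g : G} (hM : Cyc π M g) :
    ∃ i : Γ → ℤ, (∀ m ∈ M, π m = g ^ i m) ∧ (∀ m ∈ M, ∀ m' ∈ M, i (m * m') = i m + i m') ∧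
      (∀ m ∈ M ⊓ π.ker, i m = 0) ∧ (g ≠ 1 → ∀ P ∈ M, π P = g → i P = 1) := by
  classical
  by_cases hg : g = 1
  · refine ⟨fun _ => 0, ?_, fun _ _ _ _ => rfl, fun _ _ => rfl, fun h => absurd hg h⟩
    intro m hm
    obtain ⟨i, hi⟩ := hM.cyc m hm
    have hi' : g ^ i = π m := hi
    rw [← hi', hg, one_zpow, one_zpow]
  · obtain ⟨P, hP, hPg⟩ := hM.surj
    have hinj : ∀ k : ℤ, g ^ k = 1 → k = 0 := by
      intro k hk
      by_contra hne
      apply hg
      rw [← hPg]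
      exact zpow_ker hc hne (by rw [map_zpow, hPg]; exact hk)
    have hinj2 : ∀ j k : ℤ, g ^ j = g ^ k → j = k := by
      intro j k hjk
      have h1 := hinj (j - k) (by rw [zpow_sub, hjk, mul_inv_cancel])
      omega
    have hex : ∀ m : Γ, ∃ i : ℤ, m ∈ M → π m = g ^ i := by
      intro m
      by_cases hm : m ∈ M
      · obtain ⟨i, hi⟩ := hM.cyc m hm
        exact ⟨i, fun _ => hi.symm⟩
      · exact ⟨0, fun h => absurd h hm⟩
    choose i hi using hex
    refine ⟨i, hi, ?_, ?_, ?_⟩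
    · intro m hm m' hm'
      apply hinj2
      rw [← hi _ (M.mul_mem hm hm'), map_mul, hi m hm, hi m' hm', zpow_add]
    · intro m hm
      apply hinj
      rw [← hi m hm.1]
      exact hm.2
    · intro _ Q hQ hQg
      apply hinj2
      rw [← hi Q hQ, hQg, zpow_one]

theorem exists_adj {M : Subgroup Γ} {S : MTree M} (hSn : S.Nontriv π.ker) (v : S.X) :
    ∃ w, S.G.Adj v w := by
  obtain ⟨h, _, hne⟩ := hSn v
  obtain ⟨w, hw, _⟩ := TG.exists_unique_next S.tree (Ne.symm hne)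
  exact ⟨w, hw.1⟩

/-- vertex groups are factors of `ker π` -/
theorem fac_stab (hc : Ctx π) {M : Subgroup Γ} (hM : Loc π M) {S : MTree M}
    (hS : S.IsSplitting π.ker) (v : S.X) : IsFactor π.ker π.ker (S.stab v ⊓ π.ker) := by
  refine fac_trans hc le_rfl hM.fac (Or.inr ⟨S.res inf_le_left, ?_, v, ?_⟩)
  · exact hS.res inf_le_left (by rw [inf_assoc, inf_idem])
  · rw [res_stab]
    ext z
    constructor
    · rintro ⟨⟨h1, _⟩, h2⟩
      exact ⟨h1, h2⟩
    · rintro ⟨h1, h2⟩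
      exact ⟨⟨h1, h1.1, h2⟩, h2⟩

theorem Cyc.stab (hc : Ctx π) {M : Subgroup Γ} {g : G} (hM : Cyc π M g) {S : MTree M}
    (hS : S.IsSplitting π.ker) (hSn : S.Nontriv π.ker) {v : S.X} (hv : S.stab v ⊓ π.ker ≠ ⊥) :
    Cyc π (S.stab v) g where
  ne := hv
  fac := fac_stab hc hM.toLoc hS v
  surj := by
    obtain ⟨w, hw⟩ := exists_adj hSn v
    obtain ⟨P, hP, hPg⟩ := hM.surj
    obtain ⟨Q, ⟨hQ, hQP, hQv, _⟩, _⟩ := hS.lift hw hP
    exact ⟨Q, ⟨hQ, hQv⟩, hQP.trans hPg⟩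
  cyc := fun m hm => hM.cyc m hm.1

theorem rk_stab_lt (hc : Ctx π) {M : Subgroup Γ} (hM : Loc π M) {S : MTree M}
    (hS : S.IsSplitting π.ker) (hSn : S.Nontriv π.ker) (v : S.X) :
    rk (S.stab v ⊓ π.ker) < rk (M ⊓ π.ker) := by
  apply rk_lt hc hM.fac (fac_stab hc hM hS v)
  refine lt_of_le_of_ne (fun z hz => ⟨hz.1.1, hz.2⟩) ?_
  intro heq
  obtain ⟨h, hh, hne⟩ := hSn v
  rw [← heq] at hh
  exact hne hh.1.2

/-- an `M`-factor is preserved by a lift of `g` -/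
theorem Cyc.exists_lift_norm {M : Subgroup Γ} {g : G} (hM : Cyc π M g) {D : Subgroup Γ}
    (hD : IsMFactor π.ker M D) : ∃ P ∈ M, π P = g ∧ MulAut.conj P • D = D := by
  obtain ⟨P, hP, hPg⟩ := hM.surj
  obtain ⟨h, hh, hPh⟩ := hD.inv P hP
  refine ⟨h⁻¹ * P, M.mul_mem (M.inv_mem hh.1) hP, ?_, ?_⟩
  · have h1 : π h = 1 := hh.2
    rw [map_mul, map_inv, h1, inv_one, one_mul, hPg]
  · rw [map_mul, mul_smul, hPh, ← mul_smul, ← map_mul, inv_mul_cancel, map_one, one_smul]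

theorem Cyc.norm (hc : Ctx π) {M : Subgroup Γ} {g : G} (hM : Cyc π M g) {D : Subgroup Γ}
    (hD : IsMFactor π.ker M D) : Cyc π (M ⊓ Subgroup.normalizer D) g where
  toLoc := mfactor_loc hc hM.toLoc hD
  surj := by
    obtain ⟨P, hP, hPg, hPD⟩ := hM.exists_lift_norm hD
    exact ⟨P, ⟨hP, t8_norm.2 hPD⟩, hPg⟩
  cyc := fun m hm => hM.cyc m hm.1

theorem Full.cyc {M : Subgroup Γ} (hM : Full π M) (g : G) :
    Cyc π (Mg π M g) g ∧ Mg π M g ⊓ π.ker = M ⊓ π.ker := by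
  have h0 : Mg π M g ⊓ π.ker = M ⊓ π.ker := by
    ext x
    constructor
    · rintro ⟨⟨h1, _⟩, h3⟩
      exact ⟨h1, h3⟩
    · rintro ⟨h1, h3⟩
      refine ⟨⟨h1, ?_⟩, h3⟩
      have h3' : π x = 1 := h3
      change π x ∈ Subgroup.zpowers g
      rw [h3']
      exact Subgroup.one_mem _
  refine ⟨⟨⟨by rw [h0]; exact hM.ne, by rw [h0]; exact hM.fac⟩, ?_, fun m hm => hm.2⟩, h0⟩
  obtain ⟨m, hm, hg⟩ := hM.surj g
  refine ⟨m, ⟨hm, ?_⟩, hg⟩
  change π m ∈ Subgroup.zpowers g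
  rw [hg]
  exact Subgroup.mem_zpowers g

theorem IsProper.mg {M : Subgroup Γ} {Ω : Set (Subgroup Γ)} (h : IsProper π.ker M Ω) (g : G) :
    IsProper π.ker (Mg π M g) Ω where
  inv := fun m hm B hB => h.inv m hm.1 B hB
  tree := by
    have h0 : Mg π M g ⊓ π.ker = M ⊓ π.ker := by
      ext x
      constructor
      · rintro ⟨⟨h1, _⟩, h3⟩
        exact ⟨h1, h3⟩
      · rintro ⟨h1, h3⟩
        refine ⟨⟨h1, ?_⟩, h3⟩
        have h3' : π x = 1 := h3
        change π x ∈ Subgroup.zpowers g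
        rw [h3']
        exact Subgroup.one_mem _
    rw [h0]
    exact h.tree

theorem IsProper.periph {M : Subgroup Γ} {Ω : Set (Subgroup Γ)} (h : IsProper π.ker M Ω) :
    IsPeriph π.ker M Ω where
  inv := h.inv
  tree := by
    obtain ⟨T, hT, _, hv⟩ := h.tree
    exact ⟨T, hT, hv⟩

theorem IsProper.restr {M : Subgroup Γ} {Ω : Set (Subgroup Γ)} (h : IsProper π.ker M Ω) :
    IsProper π.ker (M ⊓ π.ker) Ω where
  inv := fun m hm B hB => h.inv m hm.1 B hB
  tree := by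
    have h0 : M ⊓ π.ker ⊓ π.ker = M ⊓ π.ker := by rw [inf_assoc, inf_idem]
    rw [h0]
    exact h.tree

/-- every member is preserved by a lift -/
theorem exists_lift_fix (hc : Ctx π) {M : Subgroup Γ} {g : G} (hM : Cyc π M g) {Ω : Set (Subgroup Γ)}
    (hΩ : IsPeriph π.ker M Ω) {B : Subgroup Γ} (hB : B ∈ Ω) :
    ∃ P ∈ M, π P = g ∧ MulAut.conj P • B = B :=
  hM.exists_lift_norm (periph_mfactor hc hM.toLoc hΩ hB)

/-- two lifts preserving the same member differ by an element of it -/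
theorem lift_diff {M : Subgroup Γ} {Ω : Set (Subgroup Γ)}
    (hΩ : IsPeriph π.ker M Ω) {B : Subgroup Γ} (hB : B ∈ Ω) {P Q : Γ} (hP : P ∈ M) (hQ : Q ∈ M)
    (hPQ : π P = π Q) (h1 : MulAut.conj P • B = B) (h2 : MulAut.conj Q • B = B) :
    Q * P⁻¹ ∈ B := by
  refine periph_self_norm hΩ hB ⟨M.mul_mem hQ (M.inv_mem hP), ?_⟩ ?_
  · change π (Q * P⁻¹) = 1
    rw [map_mul, map_inv, hPQ, mul_inv_cancel]
  · have h3 : MulAut.conj P⁻¹ • B = B := by
      have h4 : MulAut.conj P⁻¹ • (MulAut.conj P • B) = MulAut.conj P⁻¹ • B := by rw [h1]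
      rw [← mul_smul, ← map_mul, inv_mul_cancel, map_one, one_smul] at h4
      exact h4.symm
    rw [map_mul, mul_smul, h3, h2, inf_idem]
    exact periph_ne hΩ hB

end Pool.Agent.Lib.MP_6567fb_al
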