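import Pool.Agent.Lib.MP_6567fb_al.Defs5
import Pool.Agent.Lib.MP_6567fb_al.T6
import Pool.Agent.Lib.MP_6567fb_al.T12
import Pool.Agent.Lib.MP_6567fb_al.T2c
import Pool.Agent.Lib.MP_6567fb_al.T7c

/-!
# MP_6567fb_al, module K00b

min_core: T' := T.sub (core (M ⊓ ker)) (the core is M-invariant by core_conj, non-empty by core_nonempty, Loc.fg; sub' of T2c).
vgs: a non-trivial vertex group B of T fixes only the vertex x; the projection p of x to the core (exists_unique_proj) is fixed by all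
b ∈ B, so x = p is in the core.  Ell: same projection argument for any set D ⊆ M.
Minimal: core_min in T for the image of the core of T'.
-/

set_option autoImplicit false

open scoped Pointwise

namespace Pool.Agent.Lib.MP_6567fb_al

open MTree

variable {Γ G : Type} [Group Γ] [Group G] {π : Γ →* G}

/-- `M ⊓ F` is normalised by `M` -/
theorem k00b_conj_inf {M : Subgroup Γ} {m : Γ} (hm : m ∈ M) :
    MulAut.conj m • (M ⊓ π.ker : Subgroup Γ) = M ⊓ π.ker := by
  have key : ∀ n ∈ M, MulAut.conj n • (M ⊓ π.ker : Subgroup Γ) ≤ M ⊓ π.ker := by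
    intro n hn x hx
    rw [Subgroup.mem_pointwise_smul_iff_inv_smul_mem] at hx
    have h1 : (MulAut.conj n)⁻¹ • x = n⁻¹ * x * n := by
      rw [← map_inv]; simp [MulAut.smul_def]
    rw [h1] at hx
    obtain ⟨h2, h3⟩ := hx
    have e : x = n * (n⁻¹ * x * n) * n⁻¹ := by group
    refine ⟨?_, ?_⟩
    · rw [e]; exact M.mul_mem (M.mul_mem hn h2) (M.inv_mem hn)
    · rw [e]
      change π _ = 1
      have h4 : π (n⁻¹ * x * n) = 1 := h3
      rw [map_mul, map_mul, h4, mul_one, ← map_mul, mul_inv_cancel, map_one]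
  refine le_antisymm (key m hm) ?_
  have h5 := key m⁻¹ (M.inv_mem hm)
  intro x hx
  rw [Subgroup.mem_pointwise_smul_iff_inv_smul_mem]
  have h6 : (MulAut.conj m)⁻¹ • x ∈ MulAut.conj m⁻¹ • (M ⊓ π.ker : Subgroup Γ) := by
    rw [map_inv]
    exact Subgroup.smul_mem_pointwise_smul _ _ _ hx
  exact h5 h6

/-- an element fixing `x` fixes the projection of `x` to an invariant convex set -/
theorem k00b_proj_fixed {M : Subgroup Γ} {T : MTree M} {S : Set T.X} {x p : T.X}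
    (hS : T.Conv S) (hne : S.Nonempty)
    (hi : ∀ m ∈ M, ∀ x ∈ S, T.act m x ∈ S) (hp : p ∈ S) (hp' : ∀ s ∈ S, TG.Btw T.G x p s)
    {b : Γ} (hb : b ∈ M) (hx : T.act b x = x) : T.act b p = p := by
  obtain ⟨q, -, hq⟩ := TG.exists_unique_proj T.tree hS hne x
  have h1 : T.act b p = q := by
    apply hq
    refine ⟨hi b hb p hp, ?_⟩
    intro s hs
    have h2 := (T.btw_act hb x p (T.act b⁻¹ s)).2 (hp' _ (hi _ (M.inv_mem hb) s hs))
    rw [hx, T.act_act_inv hb] at h2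
    exact h2
  have h3 : p = q := hq p ⟨hp, hp'⟩
  rw [h1, h3]

/-- passing to the minimal subtree -/
theorem min_core (hc : Ctx π) {M : Subgroup Γ} (hM : Loc π M) {T : MTree M} (hT : T.IsSplitting π.ker)
    (hTn : T.Nontriv π.ker) :
    ∃ (T' : MTree M) (ι : T'.X → T.X), MTree.IsEmb T' T ι ∧ T'.IsSplitting π.ker ∧ T'.Minimal π.ker ∧
      T'.vgs π.ker = T.vgs π.ker ∧ ∀ D : Set Γ, D ⊆ M → T.Ell D → T'.Ell D := by
  have hni : T.NoInv := hT.noInv hc
  have hHM : M ⊓ π.ker ≤ M := inf_le_left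
  have hfg : (M ⊓ π.ker : Subgroup Γ).FG := Loc.fg hc hM
  have hS : T.Conv (T.core (M ⊓ π.ker)) := T.core_conv hni hHM
  have hne : (T.core (M ⊓ π.ker)).Nonempty := T.core_nonempty hni hHM hfg
  have hi : ∀ m ∈ M, ∀ x ∈ T.core (M ⊓ π.ker), T.act m x ∈ T.core (M ⊓ π.ker) := by
    intro m hm x hx
    have h1 := T.core_conj hHM hm
    rw [k00b_conj_inf hm] at h1
    rw [h1]
    exact ⟨x, hx, rfl⟩
  have hEll : ¬ T.Ell ((M ⊓ π.ker : Subgroup Γ) : Set Γ) := by
    rintro ⟨x, hx⟩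
    obtain ⟨h, hh, hh'⟩ := hTn x
    exact hh' (hx h hh)
  have hemb := T.sub_isEmb (T.core (M ⊓ π.ker)) hS hne M le_rfl hi
  have hsp : (T.sub (T.core (M ⊓ π.ker)) hS hne M le_rfl hi).IsSplitting π.ker :=
    hT.sub' hS hne le_rfl hi rfl
  have hstab := T.sub_stab (T.core (M ⊓ π.ker)) hS hne M le_rfl hi
  have hsle : ∀ x : T.X, T.stab x ⊓ M ⊓ π.ker = T.stab x ⊓ π.ker := by
    intro x
    have : T.stab x ≤ M := fun m hm => hm.1
    rw [inf_eq_left.2 this]
  refine ⟨_, _, hemb, hsp, ⟨?_, ?_⟩, ?_, ?_⟩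
  · intro x
    obtain ⟨h, hh, hh'⟩ := hTn x.1
    refine ⟨h, hh, fun he => hh' ?_⟩
    have h1 := hemb.equi h hh.1 x
    rw [he] at h1
    exact h1.symm
  · have hni' := hsp.noInv hc
    have hC' := MTree.core_conv _ hni' hHM
    have hCne := MTree.core_nonempty _ hni' hHM hfg
    rw [Set.eq_univ_iff_forall]
    intro x
    have hsub : T.core (M ⊓ π.ker) ⊆ Subtype.val ''
        (MTree.core (T.sub (T.core (M ⊓ π.ker)) hS hne M le_rfl hi) (M ⊓ π.ker)) := by
      refine T.core_min hni hHM hEll ?_ ?_ ?_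
      · rintro _ ⟨a, ha, rfl⟩ _ ⟨b, hb, rfl⟩ y hy
        have hyS : y ∈ T.core (M ⊓ π.ker) := hS _ a.2 _ b.2 y hy
        refine ⟨⟨y, hyS⟩, ?_, rfl⟩
        refine hC' a ha b hb ⟨y, hyS⟩ ?_
        have d1 := hemb.dist a ⟨y, hyS⟩
        have d2 := hemb.dist ⟨y, hyS⟩ b
        have d3 := hemb.dist a b
        change _ + _ = _
        rw [← d1, ← d2, ← d3]
        exact hy
      · obtain ⟨c, hcc⟩ := hCne
        exact ⟨_, c, hcc, rfl⟩
      · rintro d hd _ ⟨a, ha, rfl⟩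
        have h1 := MTree.core_conj (T.sub (T.core (M ⊓ π.ker)) hS hne M le_rfl hi) hHM (hHM hd)
        rw [k00b_conj_inf (hHM hd)] at h1
        refine ⟨(T.sub (T.core (M ⊓ π.ker)) hS hne M le_rfl hi).act d a, ?_, ?_⟩
        · rw [h1]
          exact ⟨a, ha, rfl⟩
        · exact hemb.equi d (hHM hd) a
    obtain ⟨y, hy, hyx⟩ := hsub x.2
    have : y = x := Subtype.ext hyx
    rw [← this]
    exact hy
  · ext B
    constructor
    · rintro ⟨hB, x, hx⟩
      refine ⟨hB, x.1, ?_⟩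
      have h1 := hstab x
      have h2 := hsle x.1
      rw [h1] at hx
      exact h2.symm.trans hx
    · rintro ⟨hB, x, hx⟩
      obtain ⟨p, ⟨hp, hp'⟩, -⟩ := TG.exists_unique_proj T.tree hS hne x
      obtain ⟨b, hb, hb1⟩ := (Subgroup.ne_bot_iff_exists_ne_one.1 hB).imp fun b hb => by
        exact (⟨b.2, fun h => hb (Subtype.ext h)⟩ : (b : Γ) ∈ B ∧ (b : Γ) ≠ 1)
      have hbx : (b : Γ) ∈ T.stab x ⊓ π.ker := by rw [hx]; exact hb
      have hbp := k00b_proj_fixed hS hne hi hp hp' hbx.1.1 hbx.1.2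
      have hxp : x = p := hT.fixed_unique ⟨hbx.1.1, hbx.2⟩ hb1 hbx.1.2 hbp
      refine ⟨hB, ⟨p, hp⟩, ?_⟩
      have h1 := hstab ⟨p, hp⟩
      rw [h1, hsle, ← hx, hxp]
  · rintro D hD ⟨x, hx⟩
    obtain ⟨p, ⟨hp, hp'⟩, -⟩ := TG.exists_unique_proj T.tree hS hne x
    refine ⟨⟨p, hp⟩, ?_⟩
    intro d hd
    have h1 := k00b_proj_fixed hS hne hi hp hp' (hD hd) (hx d hd)
    have h2 := hemb.equi d (hD hd) ⟨p, hp⟩
    apply hemb.inj
    rw [h2]
    exact h1

end Pool.Agent.Lib.MP_6567fb_al
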