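import Pool.Agent.Lib.MP_6567fb_al.Defs4
import Pool.Agent.Lib.MP_6567fb_al.T2c

/-!
# MP_6567fb_al, module K22

K7.1, relation between a ray of the cut tree T and the ray of S.  Suppose no good turn (L k')(L(k'+1))(L(k'+2)) for k' ≥ k₀.  For j let far_j := {z : T.Beyond (Λ j)(Λ (j+1)) (κ z)}.
F i v is in far_j for large i.  The edge (Λ j, Λ(j+1)) is κ(x v), ℓ(x) or reversed (C.edge), x = x_j in M, u_j := x v, Q_j := x P x⁻¹; by C.beyond, C_j := {z : z ≠ u_j, Q_j fixes the neighbour of u_j in the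
direction of z} is far_j or its complement.  (a) D_k := {z : S.Beyond (L k)(L(k+1)) z}; for k large u_j is not in D_k, D_k is in one direction at u_j, so D_k is inside C_j or disjoint
from it; F i v is in D_k for large i; so D_k ⊆ far_j for large k.  (b) z₀ := L (k₀ + 1) is not in far_j for large j (κ z₀ is not beyond all edges of the ray Λ).  So for large j and k large
(depending on j) exactly one of z₀, L k is in C_j: so u_j is on the geodesic from z₀ to L k, u_j = L i with k₀ + 1 ≤ i < k (k large, so not the last one).  If i > k₀ + 1: exactly one of L(i-1), L(i+1) is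
fixed by Q_j: a good turn (GoodTurn needs x in M ⊓ π.ker: replace x = x' P^i.. by the element of π.ker with the same u_j, Q_j), contradiction.  If i = k₀ + 1 (u_j = z₀): Q_j fixes L(k₀+2), so Q_j is the lift of this
edge: the edge (Λ j, Λ(j+1)) of T is determined up to orientation (C.eq_iff), which happens for at most one j.
-/

set_option autoImplicit false

open scoped Pointwise

namespace Pool.Agent.Lib.MP_6567fb_al

open MTree

namespace K22

open TG

section geom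
variable {X : Type} {G : SimpleGraph X}

theorem ray_escape (hG : G.IsTree) {L : ℕ → X} (hL : IsRay G L) (z : X) :
    ∃ k₀, ∀ k ≥ k₀, ¬ Beyond G (L k) (L (k + 1)) z := by
  refine ⟨G.dist (L 0) z, fun k hk hb => ?_⟩
  have hadj : G.Adj (L k) (L (k + 1)) := by
    rw [← SimpleGraph.dist_eq_one_iff_adj, hL k (k + 1)]
    push_cast
    have : ((k : ℤ) - (k + 1)) = -1 := by ring
    rw [this]; rfl
  have h1 : Btw G (L k) (L (k + 1)) z := (beyond_iff_btw hG hadj z).1 hb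
  have h0 : Btw G (L 0) (L k) (L (k + 1)) := by
    unfold TG.Btw
    rw [hL 0 k, hL k (k + 1), hL 0 (k + 1)]
    push_cast
    omega
  have h2 := (btw_glue hG h0 h1 hadj.ne).2
  unfold TG.Btw at h2
  rw [hL 0 (k + 1)] at h2
  push_cast at h2
  omega

theorem dir_of_btw (hG : G.IsTree) {u b z w : X} (h : Btw G u b z) (hub : u ≠ b)
    (hw : G.Adj u w) : Beyond G u w z ↔ Beyond G u w b := by
  have h1 : G.dist u w = 1 := SimpleGraph.dist_eq_one_iff_adj.2 hw
  constructor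
  · intro hb
    have h2 : Btw G u w z := (beyond_iff_btw hG hw z).1 hb
    have h3 : G.dist u w ≤ G.dist u b := by
      rw [h1]
      exact Nat.one_le_iff_ne_zero.2 fun h0 => hub ((hG.connected.dist_eq_zero_iff).1 h0)
    exact (beyond_iff_btw hG hw b).2 (btw_linear hG h2 h h3).1
  · intro hb
    have h2 : G.dist w b < G.dist u b := hb
    have h3 : G.dist w z ≤ G.dist w b + G.dist b z := hG.connected.dist_triangle
    have h4 : G.dist u b + G.dist b z = G.dist u z := h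
    change G.dist w z < G.dist u z
    omega

theorem dir_of_beyond (hG : G.IsTree) {a b u z w : X} (hab : G.Adj a b)
    (hu : ¬ Beyond G a b u) (hz : Beyond G a b z) (hw : G.Adj u w) :
    Beyond G u w z ↔ Beyond G u w b := by
  have h1 : Btw G a b z := (beyond_iff_btw hG hab z).1 hz
  have h2 : Beyond G b a u := by
    by_contra hcon
    exact hu ((beyond_iff hG hab u).2 hcon)
  have h3 : Btw G b a u := (beyond_iff_btw hG hab.symm u).1 h2
  have h4 := btw_glue hG (btw_symm hG h3) h1 hab.ne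
  refine dir_of_btw hG h4.2 ?_ hw
  rintro rfl
  exact hu ((beyond_iff_btw hG hab u).2 (by unfold TG.Btw; simp))

theorem dir_of_not_btw (hG : G.IsTree) {u a b w : X} (h : ¬ Btw G a u b) (hw : G.Adj u w) :
    Beyond G u w a ↔ Beyond G u w b := by
  obtain ⟨m, ⟨h1, h2, h3⟩, _⟩ := median hG u a b
  have hne : u ≠ m := by
    rintro rfl
    exact h h2
  rw [dir_of_btw hG h1 hne hw, dir_of_btw hG h3 hne hw]

theorem dir_unique (hG : G.IsTree) {u z w w' : X} (hw : G.Adj u w) (hw' : G.Adj u w')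
    (h : Beyond G u w z) (h' : Beyond G u w' z) : w = w' := by
  have key : ∀ y, G.Adj u y → Beyond G u y z → G.dist y z + 1 = G.dist u z := by
    intro y hy hb
    have h1 : G.dist u z ≤ G.dist u y + G.dist y z := hG.connected.dist_triangle
    have h2 : G.dist u y = 1 := SimpleGraph.dist_eq_one_iff_adj.2 hy
    have h3 : G.dist y z < G.dist u z := hb
    omega
  have hne : u ≠ z := by
    rintro rfl
    have h3 : G.dist w u < G.dist u u := h
    simp at h3
  exact (exists_unique_next hG hne).unique ⟨hw, key w hw h⟩ ⟨hw', key w' hw' h'⟩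

theorem ray_adj {L : ℕ → X} (hL : IsRay G L) (k : ℕ) : G.Adj (L k) (L (k + 1)) := by
  rw [← SimpleGraph.dist_eq_one_iff_adj, hL k (k + 1)]
  push_cast
  have : ((k : ℤ) - (k + 1)) = -1 := by ring
  rw [this]; rfl

theorem ray_between (hG : G.IsTree) {L : ℕ → X} (hL : IsRay G L) {a b : ℕ} (hab : a ≤ b) {u : X}
    (h : Btw G (L a) u (L b)) : ∃ i, a ≤ i ∧ i ≤ b ∧ u = L i := by
  have hd : G.dist (L a) u ≤ G.dist (L a) (L b) := by
    unfold TG.Btw at h; omega
  have hd' := hd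
  rw [hL a b] at hd'
  refine ⟨a + G.dist (L a) u, by omega, by omega, ?_⟩
  refine (btw_point hG hd).unique ⟨h, rfl⟩ ⟨?_, ?_⟩
  · unfold TG.Btw
    rw [hL, hL, hL]
    push_cast
    omega
  · rw [hL]
    push_cast
    omega

theorem ray_beyond_right {L : ℕ → X} (hL : IsRay G L) {i n : ℕ} (h : i < n) :
    Beyond G (L i) (L (i + 1)) (L n) := by
  change G.dist _ _ < G.dist _ _
  rw [hL, hL]
  push_cast
  omega

theorem ray_beyond_left {L : ℕ → X} (hL : IsRay G L) {i n : ℕ} (h : n ≤ i) :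
    Beyond G (L (i + 1)) (L i) (L n) := by
  change G.dist _ _ < G.dist _ _
  rw [hL, hL]
  push_cast
  omega

end geom

end K22

open K22

variable {Γ G : Type} [Group Γ] [Group G] {π : Γ →* G}

/-- one edge of the ray of the cut tree -/
theorem K22.cut_edge (hc : Ctx π) {M : Subgroup Γ} {g : G} (hM : Cyc π M g) {S : MTree M}
    (hS : S.IsSplitting π.ker) {v : S.X} {P : Γ} (hP : P ∈ M) (hPg : π P = g) (hPv : S.act P v = v)
    (C : CutTree S v P) (F : ℕ → Γ) (hF : ∀ i, F i ∈ M ⊓ π.ker) {L : ℕ → S.X} (hL : S.IsRay L)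
    (hFL : ∀ k, ∃ i₀, ∀ i ≥ i₀, S.Beyond (L k) (L (k + 1)) (S.act (F i) v)) {Λ : ℕ → C.T.X}
    (hΛ : C.T.IsRay Λ)
    (hFΛ : ∀ k, ∃ i₀, ∀ i ≥ i₀, C.T.Beyond (Λ k) (Λ (k + 1)) (C.T.act (F i) (C.κ v))) (k₀ : ℕ)
    (hno : ∀ k' ≥ k₀, ¬ GoodTurn π S v P (L k') (L (k' + 1)) (L (k' + 2))) (j : ℕ)
    (hj : ¬ C.T.Beyond (Λ j) (Λ (j + 1)) (C.κ (L (k₀ + 1)))) :
    ∃ x ∈ M, ((Λ j = C.κ (S.act x v) ∧ Λ (j + 1) = C.ℓ x) ∨
      (Λ (j + 1) = C.κ (S.act x v) ∧ Λ j = C.ℓ x)) ∧ S.act x v = L (k₀ + 1) ∧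
      π (x * P * x⁻¹) = g ∧ S.act (x * P * x⁻¹) (L (k₀ + 1)) = L (k₀ + 1) ∧
      S.act (x * P * x⁻¹) (L (k₀ + 2)) = L (k₀ + 2) := by
  have hadj := K22.ray_adj hΛ j
  obtain ⟨x, hx, hxe⟩ := C.edge _ _ hadj
  set u := S.act x v with hu
  set Q := x * P * x⁻¹ with hQ
  have hQM : Q ∈ M := M.mul_mem (M.mul_mem hx hP) (M.inv_mem hx)
  -- the set `C_j`
  have hxadj : C.T.G.Adj (C.κ u) (C.ℓ x) := C.adj x hx
  have hfar : (∀ z, C.T.Beyond (Λ j) (Λ (j + 1)) (C.κ z) ↔
      ∃ w', S.G.Adj u w' ∧ S.Beyond u w' z ∧ S.act Q w' = w') ∨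
      (∀ z, C.T.Beyond (Λ j) (Λ (j + 1)) (C.κ z) ↔
      ¬ ∃ w', S.G.Adj u w' ∧ S.Beyond u w' z ∧ S.act Q w' = w') := by
    rcases hxe with ⟨h1, h2⟩ | ⟨h1, h2⟩
    · left
      intro z
      rw [h1, h2]
      exact C.beyond x hx z
    · right
      intro z
      rw [h1, h2, ← C.beyond x hx z]
      exact TG.beyond_iff C.T.tree hxadj.symm _
  -- `D_k ⊆ far_j` for some large `k`
  obtain ⟨k₁, hk₁⟩ := K22.ray_escape S.tree hL u
  set k := max k₁ (k₀ + 2) with hk
  have huk : ¬ S.Beyond (L k) (L (k + 1)) u := hk₁ k (le_max_left _ _)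
  have hLadj := K22.ray_adj hL k
  have hone : ∀ z, S.Beyond (L k) (L (k + 1)) z →
      ((∃ w', S.G.Adj u w' ∧ S.Beyond u w' z ∧ S.act Q w' = w') ↔
        (∃ w', S.G.Adj u w' ∧ S.Beyond u w' (L (k + 1)) ∧ S.act Q w' = w')) := by
    intro z hz
    refine exists_congr fun w' => and_congr_right fun hw' => and_congr_left fun _ => ?_
    exact K22.dir_of_beyond S.tree hLadj huk hz hw'
  have hLk : S.Beyond (L k) (L (k + 1)) (L (k + 1)) := K22.ray_beyond_right hL (Nat.lt_succ_self k)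
  have hfarL : C.T.Beyond (Λ j) (Λ (j + 1)) (C.κ (L (k + 1))) := by
    obtain ⟨i₁, hi₁⟩ := hFL k
    obtain ⟨i₂, hi₂⟩ := hFΛ j
    have h1 := hi₁ (max i₁ i₂) (le_max_left _ _)
    have h2 := hi₂ (max i₁ i₂) (le_max_right _ _)
    rw [← C.κ_equi _ (hF _).1] at h2
    rcases hfar with h | h
    · rw [h] at h2 ⊢
      exact (hone _ h1).1 h2
    · rw [h] at h2 ⊢
      exact fun hcon => h2 ((hone _ h1).2 hcon)
  -- exactly one of `z₀`, `L (k+1)` is in `C_j`
  have hex : ¬ ((∃ w', S.G.Adj u w' ∧ S.Beyond u w' (L (k₀ + 1)) ∧ S.act Q w' = w') ↔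
      (∃ w', S.G.Adj u w' ∧ S.Beyond u w' (L (k + 1)) ∧ S.act Q w' = w')) := by
    rcases hfar with h | h
    · rw [← h, ← h]
      exact fun hcon => hj (hcon.2 hfarL)
    · intro hcon
      rw [h] at hj hfarL
      exact hj fun h0 => hfarL (hcon.1 h0)
  have hbtw : S.Btw (L (k₀ + 1)) u (L (k + 1)) := by
    by_contra hcon
    refine hex (exists_congr fun w' => and_congr_right fun hw' => and_congr_left fun _ => ?_)
    exact K22.dir_of_not_btw S.tree hcon hw'
  have hk2 : k₀ + 2 ≤ k := le_max_right _ _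
  obtain ⟨i, hi1, hi2, hui⟩ := K22.ray_between S.tree hL (by omega : k₀ + 1 ≤ k + 1) hbtw
  have hik : i < k + 1 := by
    refine lt_of_le_of_ne hi2 ?_
    rintro rfl
    exact huk (hui ▸ hLk)
  -- direction of `L (k+1)`
  have hdirR : (∃ w', S.G.Adj u w' ∧ S.Beyond u w' (L (k + 1)) ∧ S.act Q w' = w') ↔
      S.act Q (L (i + 1)) = L (i + 1) := by
    have hb : S.Beyond u (L (i + 1)) (L (k + 1)) := by
      rw [hui]; exact K22.ray_beyond_right hL hik
    have ha : S.G.Adj u (L (i + 1)) := by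
      rw [hui]; exact K22.ray_adj hL i
    constructor
    · rintro ⟨w', h1, h2, h3⟩
      rw [← K22.dir_unique S.tree h1 ha h2 hb]; exact h3
    · intro h
      exact ⟨_, ha, hb, h⟩
  -- `π x` is a power of `g`
  obtain ⟨n, hn⟩ := Subgroup.mem_zpowers_iff.1 (hM.cyc x hx)
  have hpiQ : π Q = g := by
    rw [hQ, map_mul, map_mul, map_inv, hPg, ← hn]
    group
  rcases Nat.lt_or_ge (k₀ + 1) i with hlt | hge
  · exfalso
    -- a good turn
    obtain ⟨i', rfl⟩ : ∃ i', i = i' + 1 := ⟨i - 1, by omega⟩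
    have hdirL : (∃ w', S.G.Adj u w' ∧ S.Beyond u w' (L (k₀ + 1)) ∧ S.act Q w' = w') ↔
        S.act Q (L i') = L i' := by
      have hb : S.Beyond u (L i') (L (k₀ + 1)) := by
        rw [hui]; exact K22.ray_beyond_left hL (by omega)
      have ha : S.G.Adj u (L i') := by
        rw [hui]; exact (K22.ray_adj hL i').symm
      constructor
      · rintro ⟨w', h1, h2, h3⟩
        rw [← K22.dir_unique S.tree h1 ha h2 hb]; exact h3
      · intro h
        exact ⟨_, ha, hb, h⟩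
    rw [hdirL, hdirR] at hex
    refine hno i' (by omega) ⟨x * P ^ (-n), ⟨?_, ?_⟩, ?_, ?_⟩
    · exact M.mul_mem hx (M.zpow_mem hP _)
    · change π (x * P ^ (-n)) = 1
      rw [map_mul, map_zpow, hPg, ← hn]
      group
    · rw [← hui, hu, S.act_mul x hx _ (M.zpow_mem hP _)]
      congr 1
      have : P ^ (-n) ∈ S.stab v := (S.stab v).zpow_mem ⟨hP, hPv⟩ _
      exact this.2.symm
    · have hconj : x * P ^ (-n) * P * (x * P ^ (-n))⁻¹ = Q := by
        rw [hQ]; group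
      rw [hconj]
      by_cases h1 : S.act Q (L i') = L i'
      · left
        exact ⟨h1, fun h2 => hex ⟨fun _ => h2, fun _ => h1⟩⟩
      · right
        by_cases h2 : S.act Q (L (i' + 2)) = L (i' + 2)
        · exact ⟨h2, h1⟩
        · exact absurd ⟨fun h => absurd h h1, fun h => absurd h h2⟩ hex
  · have hi : i = k₀ + 1 := by omega
    subst hi
    have hnot : ¬ ∃ w', S.G.Adj u w' ∧ S.Beyond u w' (L (k₀ + 1)) ∧ S.act Q w' = w' := by
      rintro ⟨w', _, h2, _⟩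
      rw [← hui] at h2
      have : S.G.dist w' u < S.G.dist u u := h2
      simp at this
    have hyes : S.act Q (L (k₀ + 1 + 1)) = L (k₀ + 1 + 1) := by
      by_contra hcon
      exact hex ⟨fun h => absurd h hnot, fun h => absurd (hdirR.1 h) hcon⟩
    refine ⟨x, hx, hxe, hui, hpiQ, ?_, hyes⟩
    rw [← hui, hu, ← S.act_mul _ hQM x hx, hQ]
    have : x * P * x⁻¹ * x = x * P := by group
    rw [this, S.act_mul x hx P hP, hPv]

theorem cut_rays (hc : Ctx π) {M : Subgroup Γ} {g : G} (hM : Cyc π M g) {S : MTree M}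
    (hS : S.IsSplitting π.ker) {v : S.X} {P : Γ} (hP : P ∈ M) (hPg : π P = g) (hPv : S.act P v = v)
    (C : CutTree S v P) (F : ℕ → Γ) (hF : ∀ i, F i ∈ M ⊓ π.ker) {L : ℕ → S.X} (hL : S.IsRay L)
    (hFL : ∀ k, ∃ i₀, ∀ i ≥ i₀, S.Beyond (L k) (L (k + 1)) (S.act (F i) v)) {Λ : ℕ → C.T.X}
    (hΛ : C.T.IsRay Λ)
    (hFΛ : ∀ k, ∃ i₀, ∀ i ≥ i₀, C.T.Beyond (Λ k) (Λ (k + 1)) (C.T.act (F i) (C.κ v))) :
    ∀ k, ∃ k' ≥ k, GoodTurn π S v P (L k') (L (k' + 1)) (L (k' + 2)) := by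
  intro k₀
  by_contra hcon
  have hno : ∀ k' ≥ k₀, ¬ GoodTurn π S v P (L k') (L (k' + 1)) (L (k' + 2)) := by
    intro k' hk' hg
    exact hcon ⟨k', hk', hg⟩
  obtain ⟨j, hj⟩ := K22.ray_escape C.T.tree hΛ (C.κ (L (k₀ + 1)))
  obtain ⟨x, hx, hxe, hxv, hxg, hx1, hx2⟩ :=
    K22.cut_edge hc hM hS hP hPg hPv C F hF hL hFL hΛ hFΛ k₀ hno j (hj j le_rfl)
  obtain ⟨x', hx', hxe', hxv', hxg', hx1', hx2'⟩ :=
    K22.cut_edge hc hM hS hP hPg hPv C F hF hL hFL hΛ hFΛ k₀ hno (j + 1) (hj (j + 1) (Nat.le_succ j))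
  have hQM : x * P * x⁻¹ ∈ M := M.mul_mem (M.mul_mem hx hP) (M.inv_mem hx)
  have hQM' : x' * P * x'⁻¹ ∈ M := M.mul_mem (M.mul_mem hx' hP) (M.inv_mem hx')
  have hadj : S.G.Adj (L (k₀ + 1)) (L (k₀ + 2)) := K22.ray_adj hL (k₀ + 1)
  have heq : x * P * x⁻¹ = x' * P * x'⁻¹ := by
    refine hS.eq_of_agree hQM hQM' (by rw [hxg, hxg']) hadj ?_ ?_
    · rw [hx1, hx1']
    · rw [hx2, hx2']
  obtain ⟨e1, e2⟩ := (C.eq_iff x hx x' hx').2 ⟨by rw [hxv, hxv'], heq⟩
  have hne : Λ j ≠ Λ (j + 2) := by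
    intro h
    have h1 := hΛ j (j + 2)
    rw [h, SimpleGraph.dist_self] at h1
    push_cast at h1
    omega
  have hne1 : Λ j ≠ Λ (j + 1) := (K22.ray_adj hΛ j).ne
  have hne2 : Λ (j + 1) ≠ Λ (j + 2) := (K22.ray_adj hΛ (j + 1)).ne
  have hxe'' : (Λ (j + 1) = C.κ (S.act x v) ∧ Λ (j + 2) = C.ℓ x) ∨
      (Λ (j + 2) = C.κ (S.act x v) ∧ Λ (j + 1) = C.ℓ x) := by
    rw [e1, e2]; exact hxe'
  rcases hxe with ⟨a1, a2⟩ | ⟨a1, a2⟩ <;> rcases hxe'' with ⟨b1, b2⟩ | ⟨b1, b2⟩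
  · exact hne1 (a1.trans b1.symm)
  · exact hne (a1.trans b1.symm)
  · exact hne (a2.trans b2.symm)
  · exact hne1 (a2.trans b2.symm)

end Pool.Agent.Lib.MP_6567fb_al
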