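import Pool.Agent.Lib.MP_6567fb_al.K00a
import Pool.Agent.Lib.MP_6567fb_al.K22

/-!
# MP_6567fb_al, module K01

`B(g)` is a forest.
no_reduced_cycle: b_i(N) := P_i^N P_{i-1}^-N (1 <= i <= k) is in M ⊓ ker and preserves B_i, so it is in B_i (lift_diff for the powers); for N >= 1 it is ≠ 1 and different N give
different elements (Ctx.roots: b_i(N) = b_i(N') gives P_i^(N'-N) = P_{i-1}^(N'-N), so P_i = P_{i-1}).  b_k(N) b_{k-1}(N) .. b_1(N) = P_k^N P_0^-N = 1.  T_0 : splitting of M ⊓ ker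
with vgs = Ω, v_i := the vertex with stabiliser B_i (unique, fixed_unique), v_i ≠ v_{i+1}, v_k = v_0.  Sequence p_j := b_k b_{k-1} .. b_{k-j+1} v_{k-j}, p_0 = v_k = v_0 (b_k fixes v_k), p_k = v_0.
b_{i} fixes v_i, so at the interior point p_{k-i} = (b_k .. b_{i+1}) v_i the neighbours in the sequence are (b_k .. b_{i+1}) (b_i v_{i-1}) and (b_k .. b_{i+2}) v_{i+1} = (b_k .. b_{i+1}) v_{i+1}.
Btw fails only if b_i(N) maps the first edge of [v_i, v_{i-1}] to the first edge of [v_i, v_{i+1}]; trivial edge stabilisers: at most one N for each i.  Choose N good for all 1 <= i < k: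
chain_geod (T1b) gives dist (p_0) (p_k) > 0, contradiction.
bg_acyclic: a cycle of the bipartite graph BG, rotated so that it starts at a member, gives such sequences (extend periodically; the walk alternates; consecutive members and consecutive
lifts are different since a cycle has no repeated vertices, length >= 4; use getVert).
-/

set_option autoImplicit false

open scoped Pointwise

namespace Pool.Agent.Lib.MP_6567fb_al

open MTree

variable {Γ G : Type} [Group Γ] [Group G] {π : Γ →* G}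

namespace K01

theorem conj_smul_pow {B : Subgroup Γ} {P : Γ} (h : MulAut.conj P • B = B) (N : ℕ) :
    MulAut.conj (P ^ N) • B = B := by
  rw [map_pow]
  induction N with
  | zero => simp
  | succ n ih => rw [pow_succ, mul_smul, h, ih]

/-- the common direction -/
theorem dir_eq {X : Type} {G : SimpleGraph X} (hG : G.IsTree) {u a b w w' : X}
    (h : ¬ TG.Btw G a u b) (hw : G.Adj u w) (hwa : TG.Beyond G u w a) (hw' : G.Adj u w')
    (hwb : TG.Beyond G u w' b) : w = w' :=
  K22.dir_unique hG hw hw' ((K22.dir_of_not_btw hG h hw).1 hwa) hwb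

theorem exists_dir {X : Type} {G : SimpleGraph X} (hG : G.IsTree) {u a : X} (h : u ≠ a) :
    ∃ w, G.Adj u w ∧ TG.Beyond G u w a := by
  obtain ⟨w, ⟨h1, h2⟩, -⟩ := TG.exists_unique_next hG h
  exact ⟨w, h1, by change G.dist w a < G.dist u a; omega⟩

end K01

theorem no_reduced_cycle (hc : Ctx π) {M : Subgroup Γ} (hM : Loc π M) {g : G} {Ω : Set (Subgroup Γ)}
    (hΩ : IsPeriph π.ker M Ω) (k : ℕ) (hk : 1 ≤ k) (B : ℕ → Subgroup Γ) (P : ℕ → Γ)
    (hB : ∀ i, B i ∈ Ω) (hP : ∀ i, P i ∈ M ∧ π (P i) = g) (h1 : ∀ i, MulAut.conj (P i) • B i = B i)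
    (h2 : ∀ i, MulAut.conj (P i) • B (i + 1) = B (i + 1)) (hBne : ∀ i, B i ≠ B (i + 1))
    (hPne : ∀ i, P i ≠ P (i + 1)) (hper : B k = B 0) (hper' : P k = P 0) : False := by
  classical
  obtain ⟨T, hT, hvg⟩ := hΩ.tree
  have hB' : ∀ i, B i ≠ ⊥ ∧ ∃ x, T.stab x ⊓ π.ker = B i := by
    intro i
    have := hB i
    rw [← hvg] at this
    exact this
  have huniq : ∀ x y, T.stab x ⊓ π.ker ≠ ⊥ → T.stab x ⊓ π.ker = T.stab y ⊓ π.ker → x = y := by
    intro x y hne he
    obtain ⟨h, hh⟩ := Subgroup.ne_bot_iff_exists_ne_one.1 hne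
    have hx : (h : Γ) ∈ T.stab x ⊓ π.ker := h.2
    have hy : (h : Γ) ∈ T.stab y ⊓ π.ker := he ▸ h.2
    exact hT.fixed_unique (h := (h : Γ)) ⟨hx.1.1, hx.2⟩ (fun h0 => hh (Subtype.ext h0)) hx.1.2 hy.1.2
  choose v hv using fun i => (hB' i).2
  have hvne : ∀ i, v i ≠ v (i + 1) := by
    intro i he
    apply hBne i
    rw [← hv i, ← hv (i + 1), he]
  have hvper : v k = v 0 := by
    refine huniq _ _ ?_ ?_
    · rw [hv]; exact (hB' k).1
    · rw [hv, hv, hper]
  -- the elements `b i N`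
  set b : ℕ → ℕ → Γ := fun i N => P (i + 1) ^ N * (P i ^ N)⁻¹ with hb
  have hbB : ∀ i N, b i N ∈ B (i + 1) := by
    intro i N
    refine lift_diff hΩ (hB (i + 1)) (M.pow_mem (hP i).1 N) (M.pow_mem (hP (i + 1)).1 N) ?_
      (K01.conj_smul_pow (h2 i) N) (K01.conj_smul_pow (h1 (i + 1)) N)
    rw [map_pow, map_pow, (hP i).2, (hP (i + 1)).2]
  have hbS : ∀ i N, b i N ∈ T.stab (v (i + 1)) ⊓ π.ker := by
    intro i N
    rw [hv]; exact hbB i N
  have hbM : ∀ i N, b i N ∈ M ⊓ π.ker := fun i N => (hbS i N).1.1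
  have hbfix : ∀ i N, T.act (b i N) (v (i + 1)) = v (i + 1) := fun i N => (hbS i N).1.2
  have hbinj : ∀ i N N', N < N' → b i N ≠ b i N' := by
    intro i N N' hlt he
    obtain ⟨d, rfl⟩ := Nat.exists_eq_add_of_lt hlt
    apply hPne i
    refine (hc.roots _ _ (d + 1) (Nat.succ_pos d) ?_).symm
    have h3 : P (i + 1) ^ N * (P i ^ N)⁻¹ =
        P (i + 1) ^ (N + d + 1) * (P i ^ (N + d + 1))⁻¹ := he
    have h4 : P (i + 1) ^ (N + d + 1) = P (i + 1) ^ N * P (i + 1) ^ (d + 1) := by
      rw [← pow_add]; congr 1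
    have h5 : P i ^ (N + d + 1) = P i ^ N * P i ^ (d + 1) := by
      rw [← pow_add]; congr 1
    rw [h4, h5, mul_inv_rev, mul_assoc, mul_left_cancel_iff, ← mul_assoc] at h3
    rw [eq_comm, mul_eq_right, mul_inv_eq_one] at h3
    exact h3
  -- at most one bad `N` for each `i`
  have hbad : ∀ i, {N | ¬ T.Btw (T.act (b i N) (v i)) (v (i + 1)) (v (i + 2))}.Subsingleton := by
    intro i N hN N' hN'
    by_contra hne
    obtain ⟨y, hy, hyb⟩ := K01.exists_dir T.tree (hvne i).symm
    obtain ⟨z, hz, hzb⟩ := K01.exists_dir T.tree (hvne (i + 1))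
    have key : ∀ N, ¬ T.Btw (T.act (b i N) (v i)) (v (i + 1)) (v (i + 2)) → T.act (b i N) y = z := by
      intro N hN
      have ha : T.G.Adj (v (i + 1)) (T.act (b i N) y) := by
        have := T.act_adj _ (hbM i N) _ _ hy
        rwa [hbfix] at this
      have hb' : T.Beyond (v (i + 1)) (T.act (b i N) y) (T.act (b i N) (v i)) := by
        have := (beyond_act (T := T) (hbM i N) (v (i + 1)) y (v i)).2 hyb
        rwa [hbfix] at this
      exact K01.dir_eq T.tree hN ha hb' hz hzb
    have hNN' : b i N = b i N' := by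
      refine hT.eq_of_agree (hbM i N) (hbM i N') ?_ hy ?_ ?_
      · rw [(hbM i N).2, (hbM i N').2]
      · rw [hbfix, hbfix]
      · rw [key N hN, key N' hN']
    rcases lt_or_gt_of_ne hne with h | h
    · exact hbinj i N N' h hNN'
    · exact hbinj i N' N h hNN'.symm
  obtain ⟨N, hN⟩ : ∃ N, ∀ i < k, T.Btw (T.act (b i N) (v i)) (v (i + 1)) (v (i + 2)) := by
    have hfin : (⋃ i ∈ Finset.range k,
        {N | ¬ T.Btw (T.act (b i N) (v i)) (v (i + 1)) (v (i + 2))}).Finite :=
      Set.Finite.biUnion (Finset.finite_toSet _) fun i _ => (hbad i).finite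
    obtain ⟨N, hN⟩ := hfin.exists_notMem
    refine ⟨N, fun i hi => ?_⟩
    by_contra hcon
    exact hN (Set.mem_biUnion (Finset.mem_coe.2 (Finset.mem_range.2 hi)) hcon)
  -- the closed path
  set h : ℕ → Γ := fun i => P 0 ^ N * (P i ^ N)⁻¹ with hh
  have hstep : ∀ i, h i = h (i + 1) * b i N := by
    intro i
    rw [hh, hb]; group
  have hhM : ∀ i, h i ∈ M ⊓ π.ker := by
    intro i
    refine ⟨M.mul_mem (M.pow_mem (hP 0).1 N) (M.inv_mem (M.pow_mem (hP i).1 N)), ?_⟩
    change π (P 0 ^ N * (P i ^ N)⁻¹) = 1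
    rw [map_mul, map_inv, map_pow, map_pow, (hP 0).2, (hP i).2, mul_inv_cancel]
  have hnext : ∀ i, T.act (h (i + 1)) (v (i + 1)) = T.act (h i) (v (i + 1)) := by
    intro i
    rw [hstep i, T.act_mul _ (hhM (i + 1)) _ (hbM i N), hbfix]
  have hgeod := TG.chain_geod T.tree (fun i => T.act (h i) (v i)) k
    (fun i _ => by
      change T.act (h i) (v i) ≠ T.act (h (i + 1)) (v (i + 1))
      rw [hnext i]
      exact fun he => hvne i (act_inj (T := T) (hhM i) he))
    (fun i hi => by
      change T.Btw (T.act (h i) (v i)) (T.act (h (i + 1)) (v (i + 1))) (T.act (h (i + 2)) (v (i + 2)))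
      rw [hnext (i + 1), hstep i, T.act_mul _ (hhM (i + 1)) _ (hbM i N), btw_act (T := T) (hhM (i + 1))]
      exact hN i (by omega))
  have h0 : T.act (h 0) (v 0) = T.act (h k) (v k) := by
    have e0 : h 0 = 1 := by rw [hh]; exact mul_inv_cancel _
    have ek : h k = 1 := by
      change P 0 ^ N * (P k ^ N)⁻¹ = 1
      rw [hper']; exact mul_inv_cancel _
    rw [e0, ek, hvper]
  change T.G.dist (T.act (h 0) (v 0)) (T.act (h k) (v k)) = _ at hgeod
  rw [h0, SimpleGraph.dist_self] at hgeod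
  have hz := (Finset.sum_eq_zero_iff.1 hgeod.symm) 0 (Finset.mem_range.2 (by omega))
  change T.G.dist (T.act (h 0) (v 0)) (T.act (h (0 + 1)) (v (0 + 1))) = 0 at hz
  rw [hnext 0, dist_act (T := T) (hhM 0), T.tree.connected.dist_eq_zero_iff] at hz
  exact hvne 0 hz

theorem bg_acyclic (hc : Ctx π) {M : Subgroup Γ} {g : G} (hM : Cyc π M g) {Ω : Set (Subgroup Γ)}
    (hΩ : IsPeriph π.ker M Ω) : (BG π M g Ω).IsAcyclic := by
  classical
  intro z₀ c hcyc
  have h3 := hcyc.three_le_length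
  set n := c.length with hn
  set x : ℕ → (Ω ⊕ {P : Γ // P ∈ M ∧ π P = g}) := fun i => c.getVert (i % n) with hx
  have hadj : ∀ i, (BG π M g Ω).Adj (x i) (x (i + 1)) := by
    intro i
    have hlt : i % n < n := Nat.mod_lt _ (by omega)
    have h1 := c.adj_getVert_succ hlt
    rcases Nat.lt_or_ge (i % n + 1) n with h | h
    · have h2 : (i + 1) % n = i % n + 1 := by
        rw [Nat.add_mod, Nat.mod_eq_of_lt (by omega : 1 < n), Nat.mod_eq_of_lt h]
      change (BG π M g Ω).Adj (c.getVert (i % n)) (c.getVert ((i + 1) % n))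
      rw [h2]; exact h1
    · have h2 : i % n + 1 = n := by omega
      have h2' : (i + 1) % n = 0 := by
        rw [Nat.add_mod, Nat.mod_eq_of_lt (by omega : 1 < n), h2, Nat.mod_self]
      change (BG π M g Ω).Adj (c.getVert (i % n)) (c.getVert ((i + 1) % n))
      rw [h2', SimpleGraph.Walk.getVert_zero]
      rw [h2, hn, SimpleGraph.Walk.getVert_length] at h1
      exact h1
  have hne2 : ∀ i, x i ≠ x (i + 2) := by
    intro i he
    have hlt : i % n < n := Nat.mod_lt _ (by omega)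
    have hlt' : (i + 2) % n < n := Nat.mod_lt _ (by omega)
    have h4 : i % n = (i + 2) % n := hcyc.getVert_injOn' (by
      change i % n ≤ n - 1; omega) (by change (i + 2) % n ≤ n - 1; omega) he
    have h5 : (i + 2) % n = (i % n + 2) % n := by
      rw [Nat.add_mod, Nat.mod_eq_of_lt (by omega : 2 < n)]
    rcases Nat.lt_or_ge (i % n + 2) n with h | h
    · rw [Nat.mod_eq_of_lt h] at h5; omega
    · have h6 : (i % n + 2) % n = i % n + 2 - n := by
        rw [Nat.mod_eq_sub_mod h]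
        exact Nat.mod_eq_of_lt (by omega)
      omega
  have hper : ∀ i, x (i + n) = x i := by
    intro i
    change c.getVert ((i + n) % n) = c.getVert (i % n)
    rw [Nat.add_mod_right]
  -- opposite types
  have hlr : ∀ i, (∃ B, x i = Sum.inl B) → ∃ P, x (i + 1) = Sum.inr P := by
    rintro i ⟨B, hB⟩
    have := hadj i
    rw [hB] at this
    rcases hy : x (i + 1) with B' | P
    · rw [hy] at this; exact this.elim
    · exact ⟨P, rfl⟩
  have hrl : ∀ i, (∃ P, x i = Sum.inr P) → ∃ B, x (i + 1) = Sum.inl B := by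
    rintro i ⟨P, hP⟩
    have := hadj i
    rw [hP] at this
    rcases hy : x (i + 1) with B' | P'
    · exact ⟨B', rfl⟩
    · rw [hy] at this; exact this.elim
  obtain ⟨s, hs⟩ : ∃ s, ∃ B, x s = Sum.inl B := by
    rcases hy : x 0 with B | P
    · exact ⟨0, B, hy⟩
    · exact ⟨1, hrl 0 ⟨P, hy⟩⟩
  have hl : ∀ i, ∃ B, x (s + 2 * i) = Sum.inl B := by
    intro i
    induction i with
    | zero => exact hs
    | succ i ih => exact hrl _ (hlr _ ih)
  choose B hB using hl
  choose P hP using fun i => hlr _ ⟨B i, hB i⟩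
  have hB2 : ∀ i, x (s + 2 * i + 1 + 1) = Sum.inl (B (i + 1)) := fun i => hB (i + 1)
  refine no_reduced_cycle hc hM.toLoc hΩ n (by omega) (fun i => (B i : Subgroup Γ))
    (fun i => (P i : Γ)) (fun i => (B i).2) (fun i => (P i).2) ?_ ?_ ?_ ?_ ?_ ?_
  · intro i
    have := hadj (s + 2 * i)
    rw [hB, hP] at this
    exact this
  · intro i
    have := hadj (s + 2 * i + 1)
    rw [hB2, hP] at this
    exact this
  · intro i he
    apply hne2 (s + 2 * i)
    rw [hB, hB2, Subtype.ext he]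
  · intro i he
    apply hne2 (s + 2 * i + 1)
    have : x (s + 2 * i + 1 + 2) = Sum.inr (P (i + 1)) := hP (i + 1)
    rw [hP, this, Subtype.ext he]
  · have h6 : x (s + 2 * n) = x (s + 2 * 0) := by
      rw [two_mul, ← add_assoc, hper, hper]; rfl
    exact congrArg Subtype.val (Sum.inl.inj ((hB n).symm.trans (h6.trans (hB 0))))
  · have h6 : x (s + 2 * n + 1) = x (s + 2 * 0 + 1) := by
      have : s + 2 * n + 1 = s + 1 + n + n := by ring
      rw [this, hper, hper]
    exact congrArg Subtype.val (Sum.inr.inj ((hP n).symm.trans (h6.trans (hP 0))))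

end Pool.Agent.Lib.MP_6567fb_al
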