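import Pool.Agent.Lib.MP_6567fb_al.K00a
import Pool.Agent.Lib.MP_6567fb_al.K00b
import Pool.Agent.Lib.MP_6567fb_al.T14a
import Pool.Agent.Lib.MP_6567fb_al.T14b

/-!
# MP_6567fb_al, module K02

Ctx.split for E := M ⊓ ker, P ∈ M over g: a non-trivial splitting of E ⊔ zpowers P = M (Cyc.eq_sup).
Among the families vgs of non-trivial M-splittings take a minimal one (periph_min with PP := {Ω | ∃ S, splitting, Nontriv, vgs = Ω};
periph_of_splitting), then min_core.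
-/

set_option autoImplicit false

open scoped Pointwise

namespace Pool.Agent.Lib.MP_6567fb_al

open MTree

variable {Γ G : Type} [Group Γ] [Group G] {π : Γ →* G}

theorem exists_min_splitting (hc : Ctx π) {M : Subgroup Γ} {g : G} (hM : Cyc π M g) :
    ∃ S : MTree M, S.IsSplitting π.ker ∧ S.Minimal π.ker ∧
      ∀ S' : MTree M, S'.IsSplitting π.ker → S'.Nontriv π.ker →
        FamLe (S'.vgs π.ker) (S.vgs π.ker) → S'.vgs π.ker = S.vgs π.ker := by
  obtain ⟨P, hP, hPg⟩ := hM.surj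
  have hsplit := hc.split P (M ⊓ π.ker) hM.ne hM.fac (k00b_conj_inf hP)
  rw [← hM.eq_sup hP hPg] at hsplit
  obtain ⟨T₀, hT₀, hT₀n⟩ := hsplit
  obtain ⟨Ω, ⟨S, hS, hSn, rfl⟩, hmin⟩ := periph_min hc hM.toLoc
    {Ω | ∃ S : MTree M, S.IsSplitting π.ker ∧ S.Nontriv π.ker ∧ S.vgs π.ker = Ω}
    ⟨_, T₀, hT₀, hT₀n, rfl⟩ (by
      rintro _ ⟨S, hS, -, rfl⟩
      exact periph_of_splitting hS)
  obtain ⟨S', ι, -, hS', hS'min, hv, -⟩ := min_core hc hM.toLoc hS hSn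
  refine ⟨S', hS', hS'min, ?_⟩
  intro S'' h1 h2 h3
  rw [hv] at h3 ⊢
  exact hmin _ ⟨S'', h1, h2, rfl⟩ h3

end Pool.Agent.Lib.MP_6567fb_al
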