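import Pool.Agent.Lib.MP_6567fb_al.K00a
import Pool.Agent.Lib.MP_6567fb_al.T10b
import Pool.Agent.Lib.MP_6567fb_al.T10c

/-!
# MP_6567fb_al, module K03

Property (M).  Suppose every lift Q of g fixing an edge (v,w') has a fixed vertex in U.  A := S.stab v ⊓ ker acts freely on the neighbours of v
(an a ∈ A fixing w' fixes the edge).  Choose for every A-orbit of neighbours of v a representative w' and a vertex u' of U fixed by the lift
Q_{w'} of g in S.stab v fixing w', and put att (a w') := a u' (a ∈ A unique).  Equivariance under m ∈ S.stab v: every such m is x Q_{w'}^i with x ∈ A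
(Cyc.exists_dec for S.stab v).  blowup_exists (T10b) with v in the set R of representatives (exists_reps), U at v, one point trees elsewhere: S', pr, ι.
S' is a splitting (IsBlowup.isSplitting), Nontriv (IsBlowup.ell).  FamLe (S'.vgs) (S.vgs): stab_le.  By hmin the families are equal, so A is a
vertex group of S': A fixes a vertex x' of S', pr x' is fixed by A ≠ ⊥, so pr x' = v, x' = ι u, A fixes u: contradiction to U.Nontriv (A = S.stab v ⊓ ker).
-/

set_option autoImplicit false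

open scoped Pointwise

namespace Pool.Agent.Lib.MP_6567fb_al

open MTree

namespace MTree

/-- a tree at the vertex `v` only: blow up of the orbit of `v` -/
theorem k03_blow {Γ : Type} [Group Γ] {M : Subgroup Γ} (B : MTree M) (v : B.X) (U : MTree (B.stab v))
    (att : B.X → U.X)
    (hatt : ∀ m ∈ B.stab v, ∀ w, B.G.Adj v w → att (B.act m w) = U.act m (att w)) :
    ∃ (T : MTree M) (pr : T.X → B.X), IsBlowup T B pr ∧
      (∃ ι : U.X → T.X, IsEmb U T ι ∧ Set.range ι = pr ⁻¹' {v} ∧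
        ∀ w, B.G.Adj v w → ∃ z, pr z = w ∧ T.G.Adj (ι (att w)) z) ∧
      ∀ (F : Subgroup Γ) [F.Normal], B.IsSplitting F → U.IsSplitting F → T.IsSplitting F := by
  classical
  obtain ⟨R, hvR, hR⟩ := exists_reps B v
  set fam : ∀ s : B.X, Σ W : MTree (B.stab s), (B.X → W.X) :=
    Function.update (fun s => ⟨point (B.stab s), fun _ => ()⟩) v ⟨U, att⟩ with hfam
  have hv : fam v = ⟨U, att⟩ := Function.update_self _ _ _
  have hne : ∀ s, s ≠ v → fam s = ⟨point (B.stab s), fun _ => ()⟩ := fun s hs =>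
    Function.update_of_ne hs _ _
  clear_value fam
  obtain ⟨T, pr, ι, hb, hι⟩ := blowup_exists B R hR (fun s => (fam s).1) (fun s => (fam s).2) (by
    intro s _ m hm w hw
    by_cases hs : s = v
    · subst hs
      show (fam s).2 (B.act m w) = (fam s).1.act m ((fam s).2 w)
      rw [hv]
      exact hatt m hm w hw
    · show (fam s).2 (B.act m w) = (fam s).1.act m ((fam s).2 w)
      rw [hne s hs]
      rfl)
  refine ⟨T, pr, hb, ?_, ?_⟩
  · have h1 : ∀ (W : Σ W : MTree (B.stab v), (B.X → W.X)), W = ⟨U, att⟩ →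
        (∃ ι : W.1.X → T.X, IsEmb W.1 T ι ∧ Set.range ι = pr ⁻¹' {v} ∧
          ∀ w, B.G.Adj v w → ∃ z, pr z = w ∧ T.G.Adj (ι (W.2 w)) z) →
        ∃ ι : U.X → T.X, IsEmb U T ι ∧ Set.range ι = pr ⁻¹' {v} ∧
          ∀ w, B.G.Adj v w → ∃ z, pr z = w ∧ T.G.Adj (ι (att w)) z := by
      rintro _ rfl h
      exact h
    exact h1 (fam v) hv ⟨ι v, hι v hvR⟩
  · intro F _ hB hU
    refine hb.isSplitting hB R (fun s => (hR s).exists) (fun s hs => ?_)
    refine ⟨(fam s).1, ι s, (hι s hs).1, (hι s hs).2.1, ?_⟩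
    by_cases hsv : s = v
    · subst hsv
      rw [hv]
      exact hU
    · rw [hne s hsv]
      exact point_isSplitting _ _

end MTree

variable {Γ G : Type} [Group Γ] [Group G] {π : Γ →* G}

theorem kM (hc : Ctx π) {M : Subgroup Γ} {g : G} (hM : Cyc π M g) {S : MTree M}
    (hS : S.IsSplitting π.ker) (hSn : S.Nontriv π.ker)
    (hmin : ∀ S' : MTree M, S'.IsSplitting π.ker → S'.Nontriv π.ker →
      FamLe (S'.vgs π.ker) (S.vgs π.ker) → S'.vgs π.ker = S.vgs π.ker)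
    (v : S.X) (hv : S.stab v ⊓ π.ker ≠ ⊥) (U : MTree (S.stab v)) (hU : U.IsSplitting π.ker)
    (hUn : U.Nontriv π.ker) :
    ∃ w' Q, S.G.Adj v w' ∧ Q ∈ M ∧ π Q = g ∧ S.FixE Q v w' ∧ U.Hyp Q := by
  classical
  by_contra hcon
  push Not at hcon
  have hell : ∀ w' Q, S.G.Adj v w' → Q ∈ M → π Q = g → S.FixE Q v w' → ∃ u, U.act Q u = u := by
    intro w' Q h1 h2 h3 h4
    have h5 := hcon w' Q h1 h2 h3 h4
    unfold MTree.Hyp at h5
    push Not at h5
    exact h5
  -- the orbits of A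
  set A : Subgroup Γ := S.stab v ⊓ π.ker with hA
  have hAM : ∀ a ∈ A, a ∈ M := fun a ha => ha.1.1
  let st : Setoid S.X :=
    { r := fun w w' => ∃ a ∈ A, S.act a w = w'
      iseqv := by
        refine ⟨fun w => ⟨1, A.one_mem, S.act_one w⟩, ?_, ?_⟩
        · rintro w _ ⟨a, ha, rfl⟩
          exact ⟨a⁻¹, A.inv_mem ha, S.act_inv_act (hAM a ha) w⟩
        · rintro w _ _ ⟨a, ha, rfl⟩ ⟨b, hb, rfl⟩
          exact ⟨b * a, A.mul_mem hb ha, S.act_mul _ (hAM b hb) _ (hAM a ha) w⟩ }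
  let ρ : S.X → S.X := fun w => Quotient.out (Quotient.mk st w)
  have hρ1 : ∀ w, ∃ a ∈ A, S.act a (ρ w) = w := fun w => Quotient.mk_out w
  have hρ2 : ∀ w, ∀ a ∈ A, ρ (S.act a w) = ρ w := by
    intro w a ha
    have h1 : Quotient.mk st w = Quotient.mk st (S.act a w) := Quotient.sound ⟨a, ha, rfl⟩
    show Quotient.out (Quotient.mk st (S.act a w)) = Quotient.out (Quotient.mk st w)
    rw [h1]
  choose a haA hact using hρ1
  have hadj : ∀ w, S.G.Adj v w → S.G.Adj v (ρ w) := by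
    intro w hw
    have h1 := S.act_adj _ (hAM _ (A.inv_mem (haA w))) _ _ hw
    have h2 : S.act (a w)⁻¹ v = v := (A.inv_mem (haA w)).1.2
    have h3 : S.act (a w)⁻¹ w = ρ w := by
      have h4 := S.act_inv_act (hAM _ (haA w)) (ρ w)
      rw [hact w] at h4
      exact h4
    rw [h2, h3] at h1
    exact h1
  -- lifts of g at the representatives
  have hlift : ∀ r, ∃ (Q : Γ) (u : U.X), S.G.Adj v r → (Q ∈ S.stab v ∧ π Q = g ∧ S.act Q r = r ∧ U.act Q u = u) := by
    intro r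
    by_cases hr : S.G.Adj v r
    · obtain ⟨P, hP, hPg⟩ := hM.surj
      obtain ⟨Q, ⟨hQM, hQπ, hQv, hQr⟩, -⟩ := hS.lift hr hP
      obtain ⟨u, hu⟩ := hell r Q hr hQM (hQπ.trans hPg) ⟨hQv, hQr⟩
      exact ⟨Q, u, fun _ => ⟨⟨hQM, hQv⟩, hQπ.trans hPg, hQr, hu⟩⟩
    · obtain ⟨u⟩ : Nonempty U.X := U.tree.connected.nonempty
      exact ⟨1, u, fun h => absurd h hr⟩
  choose Q u hQu using hlift
  have hcyc : Cyc π (S.stab v) g := hM.stab hc hS hSn hv
  obtain ⟨T, pr, hb, ⟨ι, hι1, hι2, -⟩, hspl⟩ := k03_blow S v U (fun w => U.act (a w) (u (ρ w))) (by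
    intro m hm w hw
    obtain ⟨hQv, hQg, hQr, hQu'⟩ := hQu (ρ w) (hadj w hw)
    have haS : a w ∈ S.stab v := (haA w).1
    obtain ⟨x, i, hx, hxi⟩ := hcyc.exists_dec hQv hQg ((S.stab v).mul_mem hm haS)
    have hQi : Q (ρ w) ^ i ∈ S.stab v := (S.stab v).zpow_mem hQv i
    have hfixS : S.act (Q (ρ w) ^ i) (ρ w) = ρ w :=
      ((S.stab (ρ w)).zpow_mem (show Q (ρ w) ∈ S.stab (ρ w) from ⟨hQv.1, hQr⟩) i).2
    have hfixU : U.act (Q (ρ w) ^ i) (u (ρ w)) = u (ρ w) :=
      ((U.stab (u (ρ w))).zpow_mem (show Q (ρ w) ∈ U.stab (u (ρ w)) from ⟨hQv, hQu'⟩) i).2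
    have hmw : S.act m w = S.act x (ρ w) := by
      conv_lhs => rw [← hact w]
      rw [← S.act_mul _ hm.1 _ haS.1, hxi, S.act_mul _ hx.1.1 _ hQi.1, hfixS]
    have hρm : ρ (S.act m w) = ρ w := by
      rw [hmw, hρ2 _ x hx]
      have := hρ2 (ρ w) (a w) (haA w)
      rw [hact] at this
      exact this.symm
    have hax : a (S.act m w) = x := by
      have h1 : S.act (a (S.act m w)) (ρ w) = S.act x (ρ w) := by
        rw [← hmw]
        have := hact (S.act m w)
        rw [hρm] at this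
        exact this
      refine hS.eq_of_agree (hAM _ (haA _)) hx.1.1 ?_ (hadj w hw) ?_ h1
      · rw [show π (a (S.act m w)) = 1 from (haA _).2, show π x = 1 from hx.2]
      · rw [show S.act (a (S.act m w)) v = v from (haA _).1.2, show S.act x v = v from hx.1.2]
    show U.act (a (S.act m w)) (u (ρ (S.act m w))) = U.act m (U.act (a w) (u (ρ w)))
    rw [hρm, hax, ← U.act_mul _ hm _ haS, hxi, U.act_mul _ hx.1 _ hQi, hfixU])
  have hT : T.IsSplitting π.ker := hspl π.ker hS hU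
  have hTn : T.Nontriv π.ker := by
    by_contra hn
    unfold MTree.Nontriv at hn
    push Not at hn
    obtain ⟨x, hx⟩ := hn
    obtain ⟨y, hy⟩ := hb.ell (D := ((M ⊓ π.ker : Subgroup Γ) : Set Γ)) (fun z hz => hz.1) ⟨x, hx⟩
    obtain ⟨h, hh, hne⟩ := hSn y
    exact hne (hy h hh)
  have hle : FamLe (T.vgs π.ker) (S.vgs π.ker) := by
    rintro B ⟨hB, x, rfl⟩
    have h1 : T.stab x ⊓ π.ker ≤ S.stab (pr x) ⊓ π.ker := inf_le_inf_right _ (hb.stab_le x)
    refine ⟨S.stab (pr x) ⊓ π.ker, ⟨fun h0 => hB ?_, pr x, rfl⟩, h1⟩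
    rw [h0] at h1
    exact le_bot_iff.1 h1
  have heq := hmin T hT hTn hle
  have hAm : S.stab v ⊓ π.ker ∈ S.vgs π.ker := ⟨hv, v, rfl⟩
  rw [← heq] at hAm
  obtain ⟨-, x', hx'⟩ := hAm
  obtain ⟨b, hb1, hb2⟩ : ∃ b ∈ S.stab v ⊓ π.ker, b ≠ 1 := by
    by_contra h
    push Not at h
    exact hv ((Subgroup.eq_bot_iff_forall _).2 h)
  have hprx : pr x' = v := by
    have h1 : b ∈ T.stab x' ⊓ π.ker := by rw [hx']; exact hb1
    have h2 := hb.stab_le x' h1.1
    exact hS.fixed_unique ⟨hb1.1.1, hb1.2⟩ hb2 h2.2 hb1.1.2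
  obtain ⟨u', hu'⟩ : x' ∈ Set.range ι := by rw [hι2]; exact hprx
  obtain ⟨h, hh, hne⟩ := hUn u'
  apply hne
  apply hι1.inj
  rw [hι1.equi h hh.1, hu']
  have h1 : h ∈ T.stab x' ⊓ π.ker := by rw [hx']; exact hh
  exact h1.1.2

end Pool.Agent.Lib.MP_6567fb_al
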