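import Pool.Agent.Lib.MP_6567fb_al.K00a

/-!
# MP_6567fb_al, module K04

All members are in one component of `B(g)`, if every vertex group of S is inside a member.  For two adjacent edges e, e' at v with lifts P, P' (of g):
S.stab v ⊓ ker = ⊥: P' P⁻¹ = 1.  Otherwise it is inside some B_v ∈ Ω; P, P' normalise S.stab v ⊓ ker, so P B_v P⁻¹ meets B_v non-trivially, so it is B_v
(periph_disj; P B_v P⁻¹ ∈ Ω).  So for edges e, e' of S (connectedness) either the lifts are equal or both are vertices inr P, inr P' in the same component.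
Every B ∈ Ω is adjacent to the lift of an edge: if B is not elliptic, core B contains an edge (axis of a hyperbolic element), rlemma.  If B fixes v: B ≤
S.stab v ⊓ ker ≤ B', so B = B' = S.stab v ⊓ ker and every lift fixing an edge at v normalises it.
-/

set_option autoImplicit false

open scoped Pointwise

namespace Pool.Agent.Lib.MP_6567fb_al

open MTree

variable {Γ G : Type} [Group Γ] [Group G] {π : Γ →* G}

theorem K04.conj_inf_ker {K : Subgroup Γ} {P : Γ} (hP : P ∈ K) :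
    MulAut.conj P • (K ⊓ π.ker : Subgroup Γ) = K ⊓ π.ker := by
  ext x
  rw [Subgroup.mem_pointwise_smul_iff_inv_smul_mem, ← map_inv, MulAut.smul_def, MulAut.conj_apply,
    inv_inv, Subgroup.mem_inf, Subgroup.mem_inf, MonoidHom.mem_ker, MonoidHom.mem_ker]
  constructor
  · rintro ⟨h1, h2⟩
    refine ⟨?_, ?_⟩
    · have := K.mul_mem (K.mul_mem hP h1) (K.inv_mem hP)
      have e : P * (P⁻¹ * x * P) * P⁻¹ = x := by group
      rwa [e] at this
    · rw [map_mul, map_mul, map_inv] at h2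
      have e : π x = π P * ((π P)⁻¹ * π x * π P) * (π P)⁻¹ := by group
      rw [e, h2, mul_one, mul_inv_cancel]
  · rintro ⟨h1, h2⟩
    refine ⟨K.mul_mem (K.mul_mem (K.inv_mem hP) h1) hP, ?_⟩
    rw [map_mul, map_mul, map_inv, h2, mul_one, inv_mul_cancel]

/-- two lifts fixing adjacent edges are in the same component -/
theorem K04.adj_edges {M : Subgroup Γ} {g : G} {Ω : Set (Subgroup Γ)}
    (hΩ : IsPeriph π.ker M Ω) {S : MTree M}
    (h0 : FamLe (S.vgs π.ker) Ω) {y : S.X} {P P' : Γ} (hP : P ∈ M ∧ π P = g) (hP' : P' ∈ M ∧ π P' = g)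
    (h1 : S.act P y = y) (h2 : S.act P' y = y) :
    (BG π M g Ω).Reachable (Sum.inr ⟨P, hP⟩) (Sum.inr ⟨P', hP'⟩) := by
  have hs : P ∈ S.stab y := ⟨hP.1, h1⟩
  have hs' : P' ∈ S.stab y := ⟨hP'.1, h2⟩
  by_cases hA : S.stab y ⊓ π.ker = ⊥
  · have : P' * P⁻¹ ∈ S.stab y ⊓ π.ker := by
      refine ⟨(S.stab y).mul_mem hs' ((S.stab y).inv_mem hs), ?_⟩
      change π (P' * P⁻¹) = 1
      rw [map_mul, map_inv, hP.2, hP'.2, mul_inv_cancel]
    rw [hA, Subgroup.mem_bot, mul_inv_eq_one] at this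
    subst this
    exact SimpleGraph.Reachable.refl _
  · obtain ⟨B, hB, hle⟩ := h0 (S.stab y ⊓ π.ker) ⟨hA, y, rfl⟩
    have key : ∀ Q, Q ∈ M → Q ∈ S.stab y → MulAut.conj Q • B = B := by
      intro Q hQ hQs
      refine periph_disj hΩ (hΩ.inv Q hQ B hB) hB fun hbot => hA ?_
      rw [eq_bot_iff, ← hbot]
      refine le_inf ?_ hle
      have : MulAut.conj Q • (S.stab y ⊓ π.ker : Subgroup Γ) ≤ MulAut.conj Q • B :=
        Subgroup.pointwise_smul_le_pointwise_smul_iff.2 hle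
      rwa [K04.conj_inf_ker hQs] at this
    have a1 : (BG π M g Ω).Adj (Sum.inr ⟨P, hP⟩) (Sum.inl ⟨B, hB⟩) := key P hP.1 hs
    have a2 : (BG π M g Ω).Adj (Sum.inl ⟨B, hB⟩) (Sum.inr ⟨P', hP'⟩) := key P' hP'.1 hs'
    exact a1.reachable.trans a2.reachable

/-- every member is preserved by the lift of an edge -/
theorem K04.exists_edge (hc : Ctx π) {M : Subgroup Γ} {g : G} (hM : Cyc π M g) {Ω : Set (Subgroup Γ)}
    (hΩ : IsPeriph π.ker M Ω) {S : MTree M} (hS : S.IsSplitting π.ker) (hSn : S.Nontriv π.ker)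
    (h0 : FamLe (S.vgs π.ker) Ω) (B : Ω) :
    ∃ (x y : S.X) (P : Γ) (hP : P ∈ M ∧ π P = g), S.G.Adj x y ∧ S.FixE P x y ∧
      (BG π M g Ω).Adj (Sum.inl B) (Sum.inr ⟨P, hP⟩) := by
  obtain ⟨P0, hP0, hP0g⟩ := hM.surj
  obtain ⟨B, hB⟩ := B
  have hMf : IsMFactor π.ker M B := periph_mfactor hc hM.toLoc hΩ hB
  have hBle : B ≤ M ⊓ π.ker := periph_le hΩ hB
  have hni := hS.noInv hc
  by_cases hE : S.Ell (B : Set Γ)
  · obtain ⟨v, hv⟩ := hE
    obtain ⟨w, hw⟩ := exists_adj hSn v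
    obtain ⟨P, ⟨hPM, hPg, hPe⟩, _⟩ := hS.lift hw hP0
    rw [hP0g] at hPg
    refine ⟨v, w, P, ⟨hPM, hPg⟩, hw, hPe, ?_⟩
    have hle : B ≤ S.stab v ⊓ π.ker := fun b hb => ⟨⟨(hBle hb).1, hv b hb⟩, (hBle hb).2⟩
    have hne : S.stab v ⊓ π.ker ≠ ⊥ := fun h => hMf.ne (by rw [eq_bot_iff, ← h]; exact hle)
    obtain ⟨B', hB', hle'⟩ := h0 _ ⟨hne, v, rfl⟩
    have hBB : B = B' := periph_disj hΩ hB hB' (by
      rw [inf_eq_left.2 (hle.trans hle')]; exact hMf.ne)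
    have hBv : B = S.stab v ⊓ π.ker := le_antisymm hle (by rw [hBB]; exact hle')
    change MulAut.conj P • B = B
    rw [hBv]
    exact K04.conj_inf_ker ⟨hPM, hPe.1⟩
  · obtain ⟨x, hx⟩ := S.core_nonempty hni (hBle.trans inf_le_left)
      (fac_fg hc (fac_trans hc le_rfl hM.fac hMf.fac))
    have hx2 := hx
    unfold MTree.core at hx2
    rw [if_neg hE] at hx2
    obtain ⟨d, hd, hhyp, _⟩ := hx2
    have hdM : d ∈ M := (hBle hd).1
    rcases S.ell_or_axis hni hdM with ⟨z, hz⟩ | ⟨l, L, hL⟩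
    · exact absurd hz (hhyp z)
    have hmem : ∀ i, L i ∈ S.core B := by
      intro i
      unfold MTree.core
      rw [if_neg hE]
      refine ⟨d, hd, hhyp, ?_⟩
      rw [(S.axis_eq hdM hL).1]
      exact ⟨i, rfl⟩
    have hadj : S.G.Adj (L 0) (L 1) := by
      rw [← SimpleGraph.dist_eq_one_iff_adj, hL.2.1 0 1]; rfl
    obtain ⟨P, ⟨hPM, hPg, hPe⟩, _⟩ := hS.lift hadj hP0
    rw [hP0g] at hPg
    exact ⟨L 0, L 1, P, ⟨hPM, hPg⟩, hadj, hPe,
      rlemma hc hM.toLoc hS hMf hE (hmem 0) (hmem 1) hadj hPM hPe⟩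

theorem case0_conn (hc : Ctx π) {M : Subgroup Γ} {g : G} (hM : Cyc π M g) {Ω : Set (Subgroup Γ)}
    (hΩ : IsPeriph π.ker M Ω) {S : MTree M} (hS : S.IsSplitting π.ker) (hSn : S.Nontriv π.ker)
    (h0 : FamLe (S.vgs π.ker) Ω) (B B' : Ω) :
    (BG π M g Ω).Reachable (Sum.inl B) (Sum.inl B') := by
  obtain ⟨P0, hP0, hP0g⟩ := hM.surj
  obtain ⟨x, y, P, hP, hxy, hPe, hadj⟩ := K04.exists_edge hc hM hΩ hS hSn h0 B
  obtain ⟨x', y', P', hP', hxy', hPe', hadj'⟩ := K04.exists_edge hc hM hΩ hS hSn h0 B'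
  have key : ∀ v : S.X, S.G.Reachable x v → ∀ Q (hQ : Q ∈ M ∧ π Q = g), S.act Q v = v →
      (BG π M g Ω).Reachable (Sum.inr ⟨P, hP⟩) (Sum.inr ⟨Q, hQ⟩) := by
    rintro v ⟨w⟩
    have : ∀ {a b : S.X} (w : S.G.Walk a b), ∀ R (hR : R ∈ M ∧ π R = g), S.act R a = a →
        ∀ Q (hQ : Q ∈ M ∧ π Q = g), S.act Q b = b →
        (BG π M g Ω).Reachable (Sum.inr ⟨R, hR⟩) (Sum.inr ⟨Q, hQ⟩) := by
      intro a b w
      induction w with
      | nil =>
        intro R hR hRa Q hQ hQb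
        exact K04.adj_edges hΩ h0 hR hQ hRa hQb
      | cons h _ ih =>
        intro R hR hRa Q hQ hQb
        obtain ⟨E, ⟨hEM, hEg, hEe⟩, _⟩ := hS.lift h hP0
        rw [hP0g] at hEg
        exact (K04.adj_edges hΩ h0 hR ⟨hEM, hEg⟩ hRa hEe.1).trans (ih E ⟨hEM, hEg⟩ hEe.2 Q hQ hQb)
    exact this w P hP hPe.1
  have hr := key x' (S.tree.1.preconnected x x') P' hP' hPe'.1
  exact hadj.reachable.trans (hr.trans hadj'.symm.reachable)

end Pool.Agent.Lib.MP_6567fb_al
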