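import Pool.Agent.Lib.MP_6567fb_al.K05a
import Pool.Agent.Lib.MP_6567fb_al.T10a
import Pool.Agent.Lib.MP_6567fb_al.T10c
import Pool.Agent.Lib.MP_6567fb_al.T11

/-!
# MP_6567fb_al, module K05b

The tree of hulls: gluing of the hulls of the members preserved by the lifts along `B(g)`, collapse of the base edges.
-/

set_option autoImplicit false

open scoped Pointwise

namespace Pool.Agent.Lib.MP_6567fb_al

open MTree

variable {Γ G : Type} [Group Γ] [Group G] {π : Γ →* G}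

namespace Hull

/-- carrying a function along a blow up: if `φ` is constant on the collapsed edges it is constant on the fibres -/
theorem const_fib {M : Subgroup Γ} {T B : MTree M} {q : T.X → B.X} (hb : IsBlowup T B q) {α : Type}
    (φ : T.X → α) (h : ∀ x y, T.G.Adj x y → q x = q y → φ x = φ y) :
    ∀ (n : ℕ) (x y : T.X), T.G.dist x y = n → q x = q y → φ x = φ y := by
  intro n
  induction n with
  | zero =>
    intro x y hd _
    rw [TG.dist_zero T.tree hd]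
  | succ n ih =>
    intro x y hd hq
    have hne : x ≠ y := by
      rintro rfl
      simp at hd
    obtain ⟨z, hz, hzd⟩ := TG.exists_next T.tree hne
    have hbt : T.Btw x z y := TG.btw_next hz hzd
    have hqz : q z = q x := hb.conv (q x) x rfl y hq.symm z hbt
    rw [h x z hz hqz.symm]
    exact ih z y (by omega) (hqz.trans hq)

theorem stab_ker {H : Subgroup Γ} (T : MTree (H ⊓ π.ker)) (x : T.X) : T.stab x ⊓ π.ker = T.stab x :=
  inf_eq_left.2 fun _ hm => hm.1.2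

theorem conj_zpow_fix {P : Γ} {B : Subgroup Γ} (h : MulAut.conj P • B = B) (k : ℤ) :
    MulAut.conj (P ^ k) • B = B := by
  have hP : MulAut.conj P ∈ MulAction.stabilizer (MulAut Γ) B := h
  have := Subgroup.zpow_mem _ hP k
  rw [map_zpow]
  exact this

section
variable {M : Subgroup Γ} {g : G} {Ω : Set (Subgroup Γ)} (T₀ : MTree (M ⊓ π.ker)) (i : Γ → ℤ)

theorem mem_ker (hi : ∀ m ∈ M, π m = g ^ i m) {m P : Γ} (hm : m ∈ M) (hP : P ∈ M) (hPg : π P = g) :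
    m * P ^ (-(i m)) ∈ M ⊓ π.ker := by
  refine ⟨M.mul_mem hm (M.zpow_mem hP _), ?_⟩
  show π _ = 1
  rw [map_mul, map_zpow, hPg, hi m hm, ← zpow_add, add_neg_cancel, zpow_zero]

theorem conj_conj {m P : Γ} {B : Subgroup Γ} (h : MulAut.conj P • B = B) :
    MulAut.conj (m * P * m⁻¹) • (MulAut.conj m • B) = MulAut.conj m • B := by
  rw [smul_smul, ← map_mul, inv_mul_cancel_right, map_mul, mul_smul, h]

theorem conj_corr {m P : Γ} {B : Subgroup Γ} (h : MulAut.conj P • B = B) (k : ℤ) :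
    MulAut.conj (m * P ^ k) • B = MulAut.conj m • B := by
  rw [map_mul, mul_smul, conj_zpow_fix h]

theorem presV_act (hinv : ∀ m ∈ M, ∀ B ∈ Ω, MulAut.conj m • B ∈ Ω)
    (hi : ∀ m ∈ M, π m = g ^ i m) {m P : Γ} (hm : m ∈ M) (hP : P ∈ M) (hPg : π P = g) {x : T₀.X}
    (hx : x ∈ presV T₀ Ω P) : T₀.act (m * P ^ (-(i m))) x ∈ presV T₀ Ω (m * P * m⁻¹) := by
  have hk := mem_ker i hi hm hP hPg
  refine ⟨?_, ?_⟩
  · rw [T₀.stab_act hk, conj_corr hx.2]
    exact hinv m hm _ hx.1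
  · rw [T₀.stab_act hk, conj_corr hx.2, conj_conj hx.2]

theorem hull_act (hinv : ∀ m ∈ M, ∀ B ∈ Ω, MulAut.conj m • B ∈ Ω)
    (hi : ∀ m ∈ M, π m = g ^ i m) {m P : Γ} (hm : m ∈ M) (hP : P ∈ M) (hPg : π P = g) {x : T₀.X}
    (hx : x ∈ T₀.hull (presV T₀ Ω P)) :
    T₀.act (m * P ^ (-(i m))) x ∈ T₀.hull (presV T₀ Ω (m * P * m⁻¹)) := by
  have hk := mem_ker i hi hm hP hPg
  obtain ⟨a, ha, b, hb, hab⟩ := hx
  exact ⟨_, presV_act T₀ i hinv hi hm hP hPg ha, _, presV_act T₀ i hinv hi hm hP hPg hb,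
    (T₀.btw_act hk _ _ _).2 hab⟩

/-- points of the hulls -/
abbrev HH (g : G) (Ω : Set (Subgroup Γ)) : Type :=
  {z : Γ × T₀.X // z.1 ∈ M ∧ π z.1 = g ∧ z.2 ∈ T₀.hull (presV T₀ Ω z.1)}

open Classical in
/-- the action on the points of the hulls and the members -/
noncomputable def gact (hinv : ∀ m ∈ M, ∀ B ∈ Ω, MulAut.conj m • B ∈ Ω)
    (hM : Cyc π M g) (hi : ∀ m ∈ M, π m = g ^ i m) (m : Γ) : Ω ⊕ HH T₀ g Ω → Ω ⊕ HH T₀ g Ω :=
  fun y => if hm : m ∈ M then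
    match y with
    | Sum.inl B => Sum.inl ⟨MulAut.conj m • (B : Subgroup Γ), hinv m hm _ B.2⟩
    | Sum.inr z => Sum.inr ⟨(m * z.1.1 * m⁻¹, T₀.act (m * z.1.1 ^ (-(i m))) z.1.2),
        ⟨M.mul_mem (M.mul_mem hm z.2.1) (M.inv_mem hm), hM.conj_over hm z.2.2.1,
          hull_act T₀ i hinv hi hm z.2.1 z.2.2.1 z.2.2.2⟩⟩
    else y

/-- fibre graph -/
def fgraph : SimpleGraph (Ω ⊕ HH T₀ g Ω) where
  Adj x y := ∃ z z' : HH T₀ g Ω, x = Sum.inr z ∧ y = Sum.inr z' ∧ z.1.1 = z'.1.1 ∧ T₀.G.Adj z.1.2 z'.1.2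
  symm := ⟨fun x y ⟨z, z', h1, h2, h3, h4⟩ => ⟨z', z, h2, h1, h3.symm, h4.symm⟩⟩
  loopless := ⟨fun x ⟨z, z', h1, h2, _, h4⟩ => by
    have : z = z' := Sum.inr_injective (h1.symm.trans h2)
    rw [this] at h4
    exact T₀.G.loopless.irrefl _ h4⟩

theorem gact_inl (hinv : ∀ m ∈ M, ∀ B ∈ Ω, MulAut.conj m • B ∈ Ω)
    (hM : Cyc π M g) (hi : ∀ m ∈ M, π m = g ^ i m) {m : Γ} (hm : m ∈ M) (B : Ω) :
    gact T₀ i hinv hM hi m (Sum.inl B) = Sum.inl ⟨MulAut.conj m • (B : Subgroup Γ), hinv m hm _ B.2⟩ := by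
  simp only [gact, dif_pos hm]

theorem gact_inr (hinv : ∀ m ∈ M, ∀ B ∈ Ω, MulAut.conj m • B ∈ Ω)
    (hM : Cyc π M g) (hi : ∀ m ∈ M, π m = g ^ i m) {m : Γ} (hm : m ∈ M) (z : HH T₀ g Ω) :
    gact T₀ i hinv hM hi m (Sum.inr z) = Sum.inr ⟨(m * z.1.1 * m⁻¹, T₀.act (m * z.1.1 ^ (-(i m))) z.1.2),
        ⟨M.mul_mem (M.mul_mem hm z.2.1) (M.inv_mem hm), hM.conj_over hm z.2.2.1,
          hull_act T₀ i hinv hi hm z.2.1 z.2.2.1 z.2.2.2⟩⟩ := by
  simp only [gact, dif_pos hm]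

theorem gact_not (hinv : ∀ m ∈ M, ∀ B ∈ Ω, MulAut.conj m • B ∈ Ω)
    (hM : Cyc π M g) (hi : ∀ m ∈ M, π m = g ^ i m) {m : Γ} (hm : m ∉ M) (y : Ω ⊕ HH T₀ g Ω) :
    gact T₀ i hinv hM hi m y = y := by
  simp only [gact, dif_neg hm]

theorem gact_one (hinv : ∀ m ∈ M, ∀ B ∈ Ω, MulAut.conj m • B ∈ Ω)
    (hM : Cyc π M g) (hi : ∀ m ∈ M, π m = g ^ i m) (hi0 : ∀ m ∈ M ⊓ π.ker, i m = 0)
    (y : Ω ⊕ HH T₀ g Ω) : gact T₀ i hinv hM hi 1 y = y := by
  rcases y with B | ⟨⟨P, p⟩, hz⟩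
  · rw [gact_inl T₀ i hinv hM hi M.one_mem]
    congr 1
    apply Subtype.ext
    show MulAut.conj (1 : Γ) • (B : Subgroup Γ) = B
    rw [map_one, one_smul]
  · rw [gact_inr T₀ i hinv hM hi M.one_mem]
    congr 1
    apply Subtype.ext
    show ((1 : Γ) * P * 1⁻¹, T₀.act (1 * P ^ (-(i 1))) p) = (P, p)
    rw [hi0 1 (one_mem _)]
    simp [T₀.act_one]

theorem gact_mul (hinv : ∀ m ∈ M, ∀ B ∈ Ω, MulAut.conj m • B ∈ Ω)
    (hM : Cyc π M g) (hi : ∀ m ∈ M, π m = g ^ i m)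
    (hi' : ∀ m ∈ M, ∀ m' ∈ M, i (m * m') = i m + i m') {m m' : Γ} (hm : m ∈ M) (hm' : m' ∈ M)
    (y : Ω ⊕ HH T₀ g Ω) :
    gact T₀ i hinv hM hi (m * m') y = gact T₀ i hinv hM hi m (gact T₀ i hinv hM hi m' y) := by
  rcases y with B | ⟨⟨P, p⟩, hz⟩
  · rw [gact_inl T₀ i hinv hM hi (M.mul_mem hm hm'), gact_inl T₀ i hinv hM hi hm',
      gact_inl T₀ i hinv hM hi hm]
    congr 1
    apply Subtype.ext
    show MulAut.conj (m * m') • (B : Subgroup Γ) = MulAut.conj m • (MulAut.conj m' • (B : Subgroup Γ))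
    rw [map_mul, mul_smul]
  · rw [gact_inr T₀ i hinv hM hi (M.mul_mem hm hm'), gact_inr T₀ i hinv hM hi hm',
      gact_inr T₀ i hinv hM hi hm]
    congr 1
    apply Subtype.ext
    show (m * m' * P * (m * m')⁻¹, T₀.act (m * m' * P ^ (-(i (m * m')))) p) =
      (m * (m' * P * m'⁻¹) * m⁻¹, T₀.act (m * (m' * P * m'⁻¹) ^ (-(i m))) (T₀.act (m' * P ^ (-(i m'))) p))
    have h1 := mem_ker i hi hm (M.mul_mem (M.mul_mem hm' hz.1) (M.inv_mem hm')) (hM.conj_over hm' hz.2.1)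
    have h2 := mem_ker i hi hm' hz.1 hz.2.1
    rw [← T₀.act_mul _ h1 _ h2]
    congr 1
    · group
    · congr 1
      rw [hi' m hm m' hm']
      have h3 : (m' * P * m'⁻¹) ^ (-(i m)) = m' * P ^ (-(i m)) * m'⁻¹ := by
        rw [← MulAut.conj_apply, ← map_zpow, MulAut.conj_apply]
      rw [h3]
      have h4 : P ^ (-(i m + i m')) = P ^ (-(i m)) * P ^ (-(i m')) := by
        rw [← zpow_add]; congr 1; ring
      rw [h4]
      group

theorem gact_adj (hinv : ∀ m ∈ M, ∀ B ∈ Ω, MulAut.conj m • B ∈ Ω)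
    (hM : Cyc π M g) (hi : ∀ m ∈ M, π m = g ^ i m) {m : Γ} (hm : m ∈ M)
    (x y : Ω ⊕ HH T₀ g Ω) (h : (fgraph T₀).Adj x y) :
    (fgraph T₀).Adj (gact T₀ i hinv hM hi m x) (gact T₀ i hinv hM hi m y) := by
  obtain ⟨⟨⟨P, p⟩, hz⟩, ⟨⟨P', p'⟩, hz'⟩, rfl, rfl, h3, h4⟩ := h
  have h3' : P = P' := h3
  subst h3'
  rw [gact_inr T₀ i hinv hM hi hm, gact_inr T₀ i hinv hM hi hm]
  refine ⟨_, _, rfl, rfl, rfl, ?_⟩
  exact T₀.act_adj _ (mem_ker i hi hm hz.1 hz.2.1) _ _ h4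

end

end Hull

theorem hullTree_exists (hc : Ctx π) {M : Subgroup Γ} {g : G} (hM : Cyc π M g) {Ω : Set (Subgroup Γ)}
    (hΩ : IsPeriph π.ker M Ω) (hne : Ω.Nonempty)
    (hconn : ∀ B B' : Ω, (BG π M g Ω).Reachable (Sum.inl B) (Sum.inl B'))
    (T₀ : MTree (M ⊓ π.ker)) (h0 : T₀.IsSplitting π.ker) (hv : T₀.vgs π.ker = Ω)
    (i : Γ → ℤ) (hi : ∀ m ∈ M, π m = g ^ i m) (hi' : ∀ m ∈ M, ∀ m' ∈ M, i (m * m') = i m + i m')
    (hi0 : ∀ m ∈ M ⊓ π.ker, i m = 0) :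
    Nonempty (HullTree π M g Ω T₀ i) := by
  classical
  obtain ⟨Bt, β, lam, hβi, hli, hcov, hβl, hadj, hactβ, hactl⟩ := bg_tree hc hM hΩ hne hconn
  have hinv := hΩ.inv
  -- the vertex of a member
  have hvB : ∀ B : Ω, ∃ x : T₀.X, T₀.stab x = B := by
    intro B
    have hB : (B : Subgroup Γ) ∈ T₀.vgs π.ker := by rw [hv]; exact B.2
    obtain ⟨_, x, hx⟩ := hB
    exact ⟨x, by rw [← hx, Hull.stab_ker]⟩
  have hΩne : ∀ B ∈ Ω, B ≠ ⊥ := fun B hB => by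
    rw [← hv] at hB
    exact hB.1
  have huniq : ∀ x y : T₀.X, T₀.stab x ∈ Ω → T₀.stab x = T₀.stab y → x = y := by
    intro x y hx hxy
    obtain ⟨⟨h, hh⟩, h1⟩ := Subgroup.ne_bot_iff_exists_ne_one.1 (hΩne _ hx)
    have h1' : h ≠ 1 := fun h' => h1 (Subtype.ext h')
    have hh2 : h ∈ T₀.stab y := hxy ▸ hh
    exact h0.fixed_unique ⟨hh.1, hh.1.2⟩ h1' hh.2 hh2.2
  choose vB hvB using hvB
  have hvBu : ∀ (x : T₀.X) (B : Ω), T₀.stab x = B → x = vB B := fun x B h =>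
    huniq x (vB B) (by rw [h]; exact B.2) (by rw [h, hvB])
  have hpres : ∀ (B : Ω) (P : Γ), MulAut.conj P • (B : Subgroup Γ) = B → vB B ∈ presV T₀ Ω P := by
    intro B P h
    refine ⟨by rw [hvB]; exact B.2, by rw [hvB]; exact h⟩
  have hsub : ∀ P : Γ, presV T₀ Ω P ⊆ T₀.hull (presV T₀ Ω P) := fun P x hx =>
    ⟨x, hx, x, hx, TG.btw_left x x⟩
  have hex : ∀ z : Hull.HH T₀ g Ω, ∃ B ∈ Ω, MulAut.conj z.1.1 • B = B := by
    intro z
    obtain ⟨a, ha, _⟩ := z.2.2.2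
    exact ⟨_, ha.1, ha.2⟩
  -- the projection
  let pr : Ω ⊕ Hull.HH T₀ g Ω → Bt.X := fun y => match y with
    | Sum.inl B => β B
    | Sum.inr z => lam ⟨z.1.1, z.2.1, z.2.2.1, hex z⟩
  have hatt : ∀ v w : Bt.X, ∃ y : Ω ⊕ Hull.HH T₀ g Ω, (∀ B, v = β B → y = Sum.inl B) ∧
      ∀ (B : Ω) (P : {P : Γ // P ∈ M ∧ π P = g ∧ ∃ B ∈ Ω, MulAut.conj P • B = B})
        (h : MulAut.conj (P : Γ) • (B : Subgroup Γ) = B), v = lam P → w = β B →
        y = Sum.inr ⟨((P : Γ), vB B), P.2.1, P.2.2.1, hsub _ (hpres B P h)⟩ := by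
    intro v w
    rcases hcov v with ⟨B, rfl⟩ | ⟨P, rfl⟩
    · exact ⟨Sum.inl B, fun B' h => by rw [hβi h], fun B' P _ h => absurd h (hβl B P)⟩
    · by_cases h : ∃ B : Ω, w = β B ∧ MulAut.conj (P : Γ) • (B : Subgroup Γ) = B
      · obtain ⟨B, hw, hB⟩ := h
        refine ⟨Sum.inr ⟨((P : Γ), vB B), P.2.1, P.2.2.1, hsub _ (hpres B P hB)⟩,
          fun B' h => absurd h.symm (hβl B' P), ?_⟩
        intro B' P' hB' h1 h2
        obtain rfl := hli h1
        obtain rfl := hβi (hw.symm.trans h2)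
        rfl
      · obtain ⟨B₀, hB₀⟩ := hne
        refine ⟨Sum.inl ⟨B₀, hB₀⟩, fun B' h => absurd h.symm (hβl B' P), ?_⟩
        intro B' P' hB' h1 h2
        obtain rfl := hli h1
        exact absurd ⟨B', h2, hB'⟩ h
  choose att hatt1 hatt2 using hatt
  -- equivariance of vB
  have hvact : ∀ m (hm : m ∈ M) (P : Γ) (hP : P ∈ M) (hPg : π P = g) (B : Ω)
      (hB : MulAut.conj P • (B : Subgroup Γ) = B),
      T₀.act (m * P ^ (-(i m))) (vB B) = vB ⟨MulAut.conj m • (B : Subgroup Γ), hinv m hm _ B.2⟩ := by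
    intro m hm P hP hPg B hB
    apply hvBu
    rw [T₀.stab_act (Hull.mem_ker i hi hm hP hPg), hvB, Hull.conj_corr hB]
  let D : Glue Bt :=
    { Y := Ω ⊕ Hull.HH T₀ g Ω
      GY := Hull.fgraph T₀
      act := Hull.gact T₀ i hinv hM hi
      pr := pr
      att := att
      act_one := Hull.gact_one T₀ i hinv hM hi hi0
      act_mul := fun m hm m' hm' y => Hull.gact_mul T₀ i hinv hM hi hi' hm hm' y
      act_adj := fun m hm x y h => Hull.gact_adj T₀ i hinv hM hi hm x y h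
      equi := by
        intro m hm y
        rcases y with B | z
        · rw [Hull.gact_inl T₀ i hinv hM hi hm]
          exact (hactβ m hm _ _ rfl).symm
        · rw [Hull.gact_inr T₀ i hinv hM hi hm]
          exact (hactl m hm _ _ rfl).symm
      fib := by
        rintro x y ⟨⟨⟨P, p⟩, hz⟩, ⟨⟨P', p'⟩, hz'⟩, rfl, rfl, h3, h4⟩
        have h3' : P = P' := h3
        subst h3'
        rfl
      tree := by
        intro v
        rcases hcov v with ⟨B, rfl⟩ | ⟨P, rfl⟩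
        · have hs : ∀ y : Ω ⊕ Hull.HH T₀ g Ω, pr y = β B → y = Sum.inl B := by
            rintro (B' | z) h
            · rw [hβi h]
            · exact absurd h.symm (hβl B _)
          have : Nonempty (pr ⁻¹' {β B}) := ⟨⟨Sum.inl B, rfl⟩⟩
          have : Subsingleton (pr ⁻¹' {β B}) := ⟨fun a b => Subtype.ext ((hs _ a.2).trans (hs _ b.2).symm)⟩
          exact SimpleGraph.IsTree.of_subsingleton
        · have hne2 : (T₀.hull (presV T₀ Ω (P : Γ))).Nonempty := by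
            obtain ⟨B, hB, hPB⟩ := P.2.2.2
            exact ⟨_, hsub _ (hpres ⟨B, hB⟩ P hPB)⟩
          have ht := (TG.induce_conv T₀.tree (TG.conv_hull T₀.tree (presV T₀ Ω (P : Γ))) hne2).1
          let e : (T₀.G.induce (T₀.hull (presV T₀ Ω (P : Γ)))) ≃g
              ((Hull.fgraph T₀).induce (pr ⁻¹' {lam P})) :=
            { toFun := fun x => ⟨Sum.inr ⟨((P : Γ), (x : T₀.X)), P.2.1, P.2.2.1, x.2⟩, by
                show lam _ = lam P
                rfl⟩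
              invFun := fun y => ⟨(match y with
                | ⟨Sum.inl B, hy⟩ => (hβl B P hy).elim
                | ⟨Sum.inr z, hy⟩ => z.1.2), by
                  rcases y with ⟨B | z, hy⟩
                  · exact (hβl B P hy).elim
                  · have h1 : z.1.1 = P := congrArg Subtype.val (hli hy)
                    show z.1.2 ∈ T₀.hull (presV T₀ Ω (P : Γ))
                    rw [← h1]
                    exact z.2.2.2⟩
              left_inv := fun x => rfl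
              right_inv := by
                rintro ⟨B | z, hy⟩
                · exact (hβl B P hy).elim
                · have h1 : z.1.1 = P := congrArg Subtype.val (hli hy)
                  apply Subtype.ext
                  show Sum.inr _ = Sum.inr z
                  congr 1
                  apply Subtype.ext
                  exact Prod.ext h1.symm rfl
              map_rel_iff' := by
                intro a b
                constructor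
                · rintro ⟨z, z', h1, h2, h3, h4⟩
                  have e1 := Sum.inr_injective h1
                  have e2 := Sum.inr_injective h2
                  rw [← e1, ← e2] at h4
                  exact h4
                · intro h
                  exact ⟨_, _, rfl, rfl, rfl, h⟩ }
          exact e.isTree_iff.1 ht
      pr_att := by
        intro v w hvw
        obtain ⟨B, P, hPB, ⟨rfl, rfl⟩ | ⟨rfl, rfl⟩⟩ := (hadj v w).1 hvw
        · rw [hatt1 _ _ B rfl]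
        · rw [hatt2 _ _ B P hPB rfl rfl]
      act_att := by
        intro m hm v w hvw
        obtain ⟨B, P, hPB, ⟨rfl, rfl⟩ | ⟨rfl, rfl⟩⟩ := (hadj v w).1 hvw
        · rw [hatt1 _ _ B rfl, Hull.gact_inl T₀ i hinv hM hi hm,
            hatt1 _ _ ⟨MulAut.conj m • (B : Subgroup Γ), hinv m hm _ B.2⟩ (hactβ m hm _ _ rfl)]
        · have hP' : m * (P : Γ) * m⁻¹ ∈ M ∧ π (m * (P : Γ) * m⁻¹) = g ∧
              ∃ B ∈ Ω, MulAut.conj (m * (P : Γ) * m⁻¹) • B = B :=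
            ⟨M.mul_mem (M.mul_mem hm P.2.1) (M.inv_mem hm), hM.conj_over hm P.2.2.1,
              ⟨_, hinv m hm _ B.2, Hull.conj_conj hPB⟩⟩
          rw [hatt2 _ _ B P hPB rfl rfl, Hull.gact_inr T₀ i hinv hM hi hm,
            hatt2 _ _ ⟨MulAut.conj m • (B : Subgroup Γ), hinv m hm _ B.2⟩ ⟨_, hP'⟩ (Hull.conj_conj hPB)
              (hactl m hm _ _ rfl) (hactβ m hm _ _ rfl)]
          congr 1
          apply Subtype.ext
          exact Prod.ext rfl (hvact m hm P P.2.1 P.2.2.1 B hPB) }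
  obtain ⟨T, q, hq, hqK⟩ := collapse_exists D.toTree (fun x y => (Hull.fgraph T₀ (g := g) (Ω := Ω)).Adj x y)
    (fun x y h => h.symm) (fun m hm x y h => Hull.gact_adj T₀ i hinv hM hi hm x y h)
  have hblow := D.isBlowup
  -- base edges
  have hbase : ∀ (B : Ω) (P : Γ) (hP : P ∈ M) (hPg : π P = g) (hB : MulAut.conj P • (B : Subgroup Γ) = B),
      q (Sum.inl B) = q (Sum.inr ⟨(P, vB B), hP, hPg, hsub _ (hpres B P hB)⟩) := by
    intro B P hP hPg hB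
    have hPP : P ∈ M ∧ π P = g ∧ ∃ B ∈ Ω, MulAut.conj P • B = B := ⟨hP, hPg, _, B.2, hB⟩
    have hA : D.toTree.G.Adj (Sum.inl B) (Sum.inr ⟨(P, vB B), hP, hPg, hsub _ (hpres B P hB)⟩) := by
      refine Or.inr ⟨?_, ?_, ?_⟩
      · exact (hadj _ _).2 ⟨B, ⟨P, hPP⟩, hB, Or.inl ⟨rfl, rfl⟩⟩
      · exact (hatt1 _ _ B rfl).symm
      · exact (hatt2 _ _ B ⟨P, hPP⟩ hB rfl rfl).symm
    by_contra hcon
    obtain ⟨z, _, h1, _⟩ := (hqK _ _ hA).1 hcon
    exact absurd h1 (by simp)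
  -- the form of base edges
  have hform : ∀ (z : Hull.HH T₀ g Ω) (y : Ω ⊕ Hull.HH T₀ g Ω), D.toTree.G.Adj (Sum.inr z) y →
      q (Sum.inr z) = q y → ∃ (B : Ω), y = Sum.inl B ∧ z.1.2 = vB B ∧
        MulAut.conj z.1.1 • (B : Subgroup Γ) = B := by
    intro z y hA hqe
    have hnK : ¬ (Hull.fgraph T₀).Adj (Sum.inr z) y := fun h => ((hqK _ _ hA).2 h) hqe
    rcases hA with h | ⟨h1, h2, h3⟩
    · exact absurd h hnK
    · obtain ⟨B, P, hPB, ⟨hx, hy⟩ | ⟨hy, hx⟩⟩ := (hadj _ _).1 h1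
      · exact absurd hx.symm (hβl B _)
      · have e2 := hatt2 _ _ B P hPB hx hy
        have e1 := hatt1 _ (pr (Sum.inr z)) B hy
        have e3 : Sum.inr z = (Sum.inr ⟨((P : Γ), vB B), P.2.1, P.2.2.1, hsub _ (hpres B P hPB)⟩ :
            Ω ⊕ Hull.HH T₀ g Ω) := h2.trans e2
        have e4 := Sum.inr_injective e3
        refine ⟨B, h3.trans e1, ?_, ?_⟩
        · rw [e4]
        · rw [e4]
          exact hPB
  let φ : Ω ⊕ Hull.HH T₀ g Ω → T₀.X := fun y => match y with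
    | Sum.inl B => vB B
    | Sum.inr z => z.1.2
  have hφ : ∀ x y : Ω ⊕ Hull.HH T₀ g Ω, D.toTree.G.Adj x y → q x = q y → φ x = φ y := by
    intro x y hA hqe
    rcases x with B | z
    · rcases y with B' | z'
      · exfalso
        rcases hA with ⟨z, _, h1, _⟩ | ⟨h1, _, _⟩
        · exact absurd h1 (by simp)
        · obtain ⟨B₁, P₁, _, ⟨_, hy⟩ | ⟨_, hy⟩⟩ := (hadj _ _).1 h1
          · exact absurd hy (hβl _ _)
          · exact absurd hy (hβl _ _)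
      · obtain ⟨B₁, h1, h2, _⟩ := hform z' _ hA.symm hqe.symm
        have := Sum.inl_injective h1
        subst this
        exact h2.symm
    · obtain ⟨B₁, h1, h2, _⟩ := hform z y hA hqe
      rw [h1]
      exact h2
  have hvert : ∀ (z z' : Hull.HH T₀ g Ω), q (Sum.inr z) = q (Sum.inr z') → z = z' ∨
      (z.1.2 = z'.1.2 ∧ z.1.2 ∈ presV T₀ Ω z.1.1 ∧ z'.1.2 ∈ presV T₀ Ω z'.1.1) := by
    intro z z' hqe
    have h1 : z.1.2 = z'.1.2 := Hull.const_fib hq φ hφ _ _ _ rfl hqe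
    by_cases hzz : z = z'
    · exact Or.inl hzz
    · right
      have key : ∀ (a b : Hull.HH T₀ g Ω), a ≠ b → q (Sum.inr a) = q (Sum.inr b) →
          a.1.2 ∈ presV T₀ Ω a.1.1 := by
        intro a b hab hqab
        have hne' : (Sum.inr a : D.toTree.X) ≠ Sum.inr b := fun h => hab (Sum.inr_injective h)
        obtain ⟨y, hy, hyd⟩ := TG.exists_next D.toTree.tree hne'
        have hqy : q y = q (Sum.inr a) :=
          hq.conv (q (Sum.inr a)) (Sum.inr a) rfl (Sum.inr b) hqab.symm y (TG.btw_next hy hyd)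
        obtain ⟨B, _, h2, h3⟩ := hform a y hy hqy.symm
        rw [h2]
        exact hpres B _ h3
      exact ⟨h1, key z z' hzz hqe, key z' z (Ne.symm hzz) hqe.symm⟩
  have hvert' : ∀ (z z' : Hull.HH T₀ g Ω), z.1.2 = z'.1.2 → z.1.2 ∈ presV T₀ Ω z.1.1 →
      z'.1.2 ∈ presV T₀ Ω z'.1.1 → q (Sum.inr z) = q (Sum.inr z') := by
    rintro ⟨⟨P, p⟩, hz⟩ ⟨⟨P', p'⟩, hz'⟩ h1 h2 h3
    have h1' : p = p' := h1
    subst h1'
    obtain ⟨hB, hPB⟩ : T₀.stab p ∈ Ω ∧ MulAut.conj P • T₀.stab p = T₀.stab p := h2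
    obtain ⟨_, hPB'⟩ : T₀.stab p ∈ Ω ∧ MulAut.conj P' • T₀.stab p = T₀.stab p := h3
    have hp : p = vB ⟨T₀.stab p, hB⟩ := hvBu p ⟨_, hB⟩ rfl
    have e1 := hbase ⟨T₀.stab p, hB⟩ P hz.1 hz.2.1 hPB
    have e2 := hbase ⟨T₀.stab p, hB⟩ P' hz'.1 hz'.2.1 hPB'
    have e3 := e1.symm.trans e2
    simp only [← hp] at e3
    exact e3
  obtain ⟨B₀, hB₀⟩ := id hne
  let ι : Γ → T₀.X → T.X := fun P p =>
    if h : P ∈ M ∧ π P = g ∧ p ∈ T₀.hull (presV T₀ Ω P) then q (Sum.inr ⟨(P, p), h⟩)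
    else q (Sum.inl ⟨B₀, hB₀⟩)
  have hι : ∀ P (hP : P ∈ M) (hPg : π P = g) p (hp : p ∈ T₀.hull (presV T₀ Ω P)),
      ι P p = q (Sum.inr ⟨(P, p), hP, hPg, hp⟩) := by
    intro P hP hPg p hp
    exact dif_pos ⟨hP, hPg, hp⟩
  have hadjι : ∀ P (hP : P ∈ M) (hPg : π P = g) p (hp : p ∈ T₀.hull (presV T₀ Ω P)) p'
      (hp' : p' ∈ T₀.hull (presV T₀ Ω P)), T₀.G.Adj p p' → T.G.Adj (ι P p) (ι P p') := by
    intro P hP hPg p hp p' hp' h
    have hA : D.toTree.G.Adj (Sum.inr ⟨(P, p), hP, hPg, hp⟩) (Sum.inr ⟨(P, p'), hP, hPg, hp'⟩) :=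
      Or.inl ⟨_, _, rfl, rfl, rfl, h⟩
    have hne' := (hqK _ _ hA).2 ⟨_, _, rfl, rfl, rfl, h⟩
    rw [hι P hP hPg p hp, hι P hP hPg p' hp']
    exact (hq.adj _ _ hA).resolve_left hne'
  have hvertι : ∀ P ∈ M, π P = g → ∀ P' ∈ M, π P' = g → ∀ p ∈ T₀.hull (presV T₀ Ω P),
      ∀ p' ∈ T₀.hull (presV T₀ Ω P'), ι P p = ι P' p' ↔
      (P = P' ∧ p = p') ∨ (p = p' ∧ p ∈ presV T₀ Ω P ∧ p' ∈ presV T₀ Ω P') := by
    intro P hP hPg P' hP' hPg' p hp p' hp'
    rw [hι P hP hPg p hp, hι P' hP' hPg' p' hp']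
    constructor
    · intro h
      rcases hvert _ _ h with h1 | h1
      · left
        have h2 := congrArg Subtype.val h1
        exact ⟨congrArg Prod.fst h2, congrArg Prod.snd h2⟩
      · exact Or.inr h1
    · rintro (⟨rfl, rfl⟩ | ⟨h1, h2, h3⟩)
      · rfl
      · exact hvert' _ _ h1 h2 h3
  refine ⟨{ T := T, ι := ι, dist := ?_, equi := ?_, surj := ?_, edge := ?_, vert := hvertι }⟩
  · intro P hP hPg p hp p' hp'
    have hc1 := TG.conv_hull T₀.tree (presV T₀ Ω P)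
    obtain ⟨ht, hd⟩ := TG.induce_conv T₀.tree hc1 ⟨p, hp⟩
    have := TG.local_inj T.tree ht (fun x : T₀.hull (presV T₀ Ω P) => ι P x)
      (fun a b hab => hadjι P hP hPg a a.2 b b.2 hab) (fun a b c _ _ hbc h => by
        rcases (hvertι P hP hPg P hP hPg b b.2 c c.2).1 h with h1 | h1
        · exact hbc (Subtype.ext h1.2)
        · exact hbc (Subtype.ext h1.1)) ⟨p, hp⟩ ⟨p', hp'⟩
    rw [hd] at this
    exact this
  · intro m hm P hP hPg p hp
    have hp2 := Hull.hull_act T₀ i hinv hi hm hP hPg hp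
    rw [hι P hP hPg p hp, hι _ (M.mul_mem (M.mul_mem hm hP) (M.inv_mem hm)) (hM.conj_over hm hPg) _ hp2]
    have e1 := hq.equi m hm (Sum.inr ⟨(P, p), hP, hPg, hp⟩)
    have e2 : q (D.toTree.act m (Sum.inr ⟨(P, p), hP, hPg, hp⟩)) =
        q (Sum.inr ⟨(m * P * m⁻¹, T₀.act (m * P ^ (-(i m))) p),
          M.mul_mem (M.mul_mem hm hP) (M.inv_mem hm), hM.conj_over hm hPg, hp2⟩) :=
      congrArg q (Hull.gact_inr T₀ i hinv hM hi hm ⟨(P, p), hP, hPg, hp⟩)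
    exact e1.symm.trans e2
  · intro x
    obtain ⟨y, rfl⟩ := hq.surj x
    rcases y with B | ⟨⟨P, p⟩, hP, hPg, hp⟩
    · obtain ⟨P, hP, hPg, hPB⟩ := exists_lift_fix hc hM hΩ B.2
      refine ⟨P, hP, hPg, vB B, hsub _ (hpres B P hPB), ?_⟩
      rw [hι P hP hPg _ (hsub _ (hpres B P hPB))]
      exact hbase B P hP hPg hPB
    · exact ⟨P, hP, hPg, p, hp, (hι P hP hPg p hp).symm⟩
  · intro x y hxy
    obtain ⟨⟨a, b⟩, ⟨hab, ha, hb⟩, _⟩ := hq.lift x y hxy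
    have hne' : q a ≠ q b := by
      rw [ha, hb]
      exact hxy.ne
    obtain ⟨⟨⟨P, p⟩, hz⟩, ⟨⟨P', p'⟩, hz'⟩, h1, h2, h3, h4⟩ := (hqK _ _ hab).1 hne'
    have h3' : P = P' := h3
    subst h3'
    refine ⟨P, hz.1, hz.2.1, p, hz.2.2, p', hz'.2.2, h4, ?_, ?_⟩
    · rw [hι P hz.1 hz.2.1 p hz.2.2, ← ha]
      exact congrArg q h1
    · rw [hι P hz.1 hz.2.1 p' hz'.2.2, ← hb]
      exact congrArg q h2

end Pool.Agent.Lib.MP_6567fb_al
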