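import Pool.Agent.Lib.MP_6567fb_al.K04
import Pool.Agent.Lib.MP_6567fb_al.K05b
import Pool.Agent.Lib.MP_6567fb_al.T6
import Pool.Agent.Lib.MP_6567fb_al.T12

/-!
# MP_6567fb_al, module K05

glue_hulls: T := HullTree (T₀ from IsProper.tree, i from Cyc.exists_exp).  An edge e of T comes from exactly one (P,p,q): if also from (P',p',q') with P ≠ P' then p = p', q = q' are in presV for
both, P' P⁻¹ ∈ stab p ⊓ stab q = ⊥ (lift_diff, h0.free).  (s1): x ∈ M ⊓ ker fixes ι P p and ι P q: i x = 0, vert: x p = p and x q = q (in all cases), x = 1.  (s2): P^j P^(-i (P^j)) is 1 if g ≠ 1 and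
in ker and preserving all members preserved by P if g = 1, so it fixes the hull pointwise; so P acts trivially on ι P '' hull; every m ∈ M is x P^j (exists_dec), m e = x e.
vgs: the stabiliser in M ⊓ ker of ι P p, p ∈ presV P, is stab p.  p ∉ presV P: x P x⁻¹ = P and x p = p; if x ≠ 1, B := T₀.stab p ∈ Ω (vgs), x ∈ B, x = P x P⁻¹ ∈ P B P⁻¹ ⊓ B, so P preserves
B (periph_disj): contradiction.  hull: every ι P p is on the geodesic between ι P v, ι P v' for v, v' ∈ presV P (dist).  (s3): H := M ⊓ ker is not elliptic on T (H ∉ Ω by proper_iff, vgs = Ω, H ≠ ⊥);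
every vertex with stabiliser in Ω is in core H (projection argument), core_conv, so core H = univ; core_cofinite.
bounded_of_case0: Ω = ∅: S itself (vgs S = ∅ by FamLe).  Otherwise case0_conn and glue_hulls.
-/

set_option autoImplicit false

open scoped Pointwise

namespace Pool.Agent.Lib.MP_6567fb_al

open MTree

variable {Γ G : Type} [Group Γ] [Group G] {π : Γ →* G}

section K05
variable {M : Subgroup Γ} {g : G} {Ω : Set (Subgroup Γ)} {T₀ : MTree (M ⊓ π.ker)}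

/-- elements of the kernel transport the members preserved by `P` -/
theorem K05_presV (hΩ : IsPeriph π.ker M Ω) {h : Γ} (hh : h ∈ M ⊓ π.ker) {P : Γ}
    {p : T₀.X} (hp : p ∈ presV T₀ Ω P) : T₀.act h p ∈ presV T₀ Ω (h * P * h⁻¹) := by
  obtain ⟨h1, h2⟩ := hp
  refine ⟨?_, ?_⟩
  · rw [T₀.stab_act hh]
    exact hΩ.inv h hh.1 _ h1
  · rw [T₀.stab_act hh, smul_smul, ← map_mul]
    have h3 : h * P * h⁻¹ * h = h * P := by group
    rw [h3, map_mul, mul_smul, h2]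

theorem K05_hull (hΩ : IsPeriph π.ker M Ω) {h : Γ} (hh : h ∈ M ⊓ π.ker) {P : Γ}
    {p : T₀.X} (hp : p ∈ T₀.hull (presV T₀ Ω P)) :
    T₀.act h p ∈ T₀.hull (presV T₀ Ω (h * P * h⁻¹)) := by
  obtain ⟨x, hx, z, hz, hb⟩ := hp
  exact ⟨_, K05_presV hΩ hh hx, _, K05_presV hΩ hh hz, (T₀.btw_act hh x p z).2 hb⟩

/-- a power of `P` in the kernel fixes the hull of the members preserved by `P` -/
theorem K05_pow (hΩ : IsPeriph π.ker M Ω) {P : Γ} {n : ℤ} (hn : P ^ n ∈ M ⊓ π.ker)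
    {p : T₀.X} (hp : p ∈ T₀.hull (presV T₀ Ω P)) : T₀.act (P ^ n) p = p := by
  have key : ∀ x ∈ presV T₀ Ω P, T₀.act (P ^ n) x = x := by
    rintro x ⟨h1, h2⟩
    have h3 : P ∈ Subgroup.normalizer (T₀.stab x : Set Γ) := t8_norm.2 h2
    have h4 : P ^ n ∈ Subgroup.normalizer (T₀.stab x : Set Γ) := Subgroup.zpow_mem _ h3 n
    have h5 : MulAut.conj (P ^ n) • T₀.stab x = T₀.stab x := t8_norm.1 h4
    have h6 := periph_self_norm hΩ h1 hn (by rw [h5, inf_idem]; exact periph_ne hΩ h1)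
    exact h6.2
  obtain ⟨x, hx, z, hz, hb⟩ := hp
  exact T₀.fix_conv hn x (key x hx) z (key z hz) p hb

variable {i : Γ → ℤ} (HT : HullTree π M g Ω T₀ i)

theorem K05_act (hi0 : ∀ m ∈ M ⊓ π.ker, i m = 0) {h : Γ} (hh : h ∈ M ⊓ π.ker) {P : Γ} (hP : P ∈ M)
    (hPg : π P = g) {p : T₀.X} (hp : p ∈ T₀.hull (presV T₀ Ω P)) :
    HT.T.act h (HT.ι P p) = HT.ι (h * P * h⁻¹) (T₀.act h p) := by
  have h1 := HT.equi h hh.1 P hP hPg p hp
  rw [hi0 h hh, neg_zero, zpow_zero, mul_one] at h1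
  exact h1

theorem K05_fix (hM : Cyc π M g) (hΩ : IsPeriph π.ker M Ω) (hi0 : ∀ m ∈ M ⊓ π.ker, i m = 0)
    {h : Γ} (hh : h ∈ M ⊓ π.ker) {P : Γ} (hP : P ∈ M)
    (hPg : π P = g) {p : T₀.X} (hp : p ∈ T₀.hull (presV T₀ Ω P)) :
    HT.T.act h (HT.ι P p) = HT.ι P p ↔
      T₀.act h p = p ∧ (h * P * h⁻¹ = P ∨ p ∈ presV T₀ Ω P) := by
  rw [K05_act HT hi0 hh hP hPg hp, HT.vert _ (M.mul_mem (M.mul_mem hh.1 hP) (M.inv_mem hh.1))
    (hM.conj_over hh.1 hPg) P hP hPg _ (K05_hull hΩ hh hp) _ hp]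
  constructor
  · rintro (⟨h1, h2⟩ | ⟨h1, h2, h3⟩)
    · exact ⟨h2, Or.inl h1⟩
    · exact ⟨h1, Or.inr h3⟩
  · rintro ⟨h1, h2 | h2⟩
    · exact Or.inl ⟨h2, h1⟩
    · exact Or.inr ⟨h1, K05_presV hΩ hh h2, h2⟩

theorem K05_trivP (hM : Cyc π M g) (hΩ : IsPeriph π.ker M Ω)
    (hi : ∀ m ∈ M, π m = g ^ i m) {P : Γ} (hP : P ∈ M)
    (hPg : π P = g) {p : T₀.X} (hp : p ∈ T₀.hull (presV T₀ Ω P)) (j : ℤ) :
    HT.T.act (P ^ j) (HT.ι P p) = HT.ι P p := by
  have hPj : P ^ j ∈ M := M.zpow_mem hP j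
  rw [HT.equi (P ^ j) hPj P hP hPg p hp]
  have h1 : P ^ j * P * (P ^ j)⁻¹ = P := by
    rw [(Commute.zpow_self P j).eq, mul_inv_cancel_right]
  rw [h1, ← zpow_add]
  congr 1
  refine K05_pow hΩ ⟨M.zpow_mem hP _, ?_⟩ hp
  change π (P ^ (j + -i (P ^ j))) = 1
  rw [zpow_add, map_mul, hi _ hPj, map_zpow, hPg, ← zpow_add]
  simp

end K05

theorem glue_hulls (hc : Ctx π) {M : Subgroup Γ} {g : G} (hM : Cyc π M g) {Ω : Set (Subgroup Γ)}
    (hΩ : IsProper π.ker M Ω) (hne : Ω.Nonempty)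
    (hconn : ∀ B B' : Ω, (BG π M g Ω).Reachable (Sum.inl B) (Sum.inl B')) : IsBdd π M Ω := by
  have hΩp := hΩ.periph
  obtain ⟨T₀, h0, hn0, hv⟩ := hΩ.tree
  have hHk : ∀ h ∈ M ⊓ π.ker, h ∈ (M ⊓ π.ker) ⊓ π.ker := fun h hh => ⟨hh, hh.2⟩
  have hst : ∀ x, T₀.stab x ⊓ π.ker = T₀.stab x := fun x => inf_eq_left.2 fun _ hm => hm.1.2
  obtain ⟨i, hi, hi', hi0, _⟩ := hM.exists_exp hc
  obtain ⟨HT⟩ := hullTree_exists hc hM hΩp hne hconn T₀ h0 hv i hi hi' hi0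
  have hvΩ : ∀ x, T₀.stab x ≠ ⊥ → T₀.stab x ∈ Ω := by
    intro x hx
    rw [← hv]
    exact ⟨hx, x, hst x⟩
  -- (s1)
  have hfree : ∀ h ∈ M ⊓ π.ker, ∀ x y, HT.T.G.Adj x y → HT.T.act h x = x → HT.T.act h y = y →
      h = 1 := by
    intro h hh x y hxy hx hy
    obtain ⟨P, hP, hPg, p, hp, q, hq, hpq, rfl, rfl⟩ := HT.edge x y hxy
    have h1 := ((K05_fix HT hM hΩp hi0 hh hP hPg hp).1 hx).1
    have h2 := ((K05_fix HT hM hΩp hi0 hh hP hPg hq).1 hy).1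
    exact h0.free h (hHk h hh) p q hpq h1 h2
  -- (s2)
  have horb : ∀ m ∈ M, ∀ x y, HT.T.G.Adj x y → ∃ h ∈ M ⊓ π.ker,
      HT.T.act h x = HT.T.act m x ∧ HT.T.act h y = HT.T.act m y := by
    intro m hm x y hxy
    obtain ⟨P, hP, hPg, p, hp, q, hq, hpq, rfl, rfl⟩ := HT.edge x y hxy
    obtain ⟨h, j, hh, rfl⟩ := hM.exists_dec hP hPg hm
    refine ⟨h, hh, ?_, ?_⟩
    · rw [HT.T.act_mul h hh.1 _ (M.zpow_mem hP j), K05_trivP HT hM hΩp hi hP hPg hp]
    · rw [HT.T.act_mul h hh.1 _ (M.zpow_mem hP j), K05_trivP HT hM hΩp hi hP hPg hq]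
  have hni : HT.T.NoInv := by
    rintro m hm x y hxy ⟨h1, h2⟩
    obtain ⟨h, hh, h3, h4⟩ := horb m hm x y hxy
    rw [h1] at h3
    rw [h2] at h4
    have h5 : h * h = 1 := by
      refine hfree _ (Subgroup.mul_mem _ hh hh) x y hxy ?_ ?_
      · rw [HT.T.act_mul h hh.1 h hh.1, h3, h4]
      · rw [HT.T.act_mul h hh.1 h hh.1, h4, h3]
    have h6 : h = 1 := hc.roots h 1 2 (by norm_num) (by rw [pow_two, h5, one_pow])
    rw [h6, HT.T.act_one] at h3
    exact hxy.ne h3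
  -- vertex groups
  have hstab : ∀ P ∈ M, π P = g → ∀ p ∈ presV T₀ Ω P,
      HT.T.stab (HT.ι P p) ⊓ π.ker = T₀.stab p := by
    intro P hP hPg p hp
    have hph : p ∈ T₀.hull (presV T₀ Ω P) := ⟨p, hp, p, hp, TG.btw_left _ _⟩
    ext h
    constructor
    · rintro ⟨⟨h1, h2⟩, h3⟩
      exact ⟨⟨h1, h3⟩, ((K05_fix HT hM hΩp hi0 ⟨h1, h3⟩ hP hPg hph).1 h2).1⟩
    · rintro ⟨h1, h2⟩
      exact ⟨⟨h1.1, (K05_fix HT hM hΩp hi0 h1 hP hPg hph).2 ⟨h2, Or.inr hp⟩⟩, h1.2⟩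
  have hvgs : HT.T.vgs π.ker = Ω := by
    ext B
    constructor
    · rintro ⟨hB, x, hx⟩
      obtain ⟨P, hP, hPg, p, hp, rfl⟩ := HT.surj x
      by_cases hpp : p ∈ presV T₀ Ω P
      · rw [hstab P hP hPg p hpp] at hx
        rw [← hx]
        exact hpp.1
      · exfalso
        rw [← hx] at hB
        obtain ⟨h, ⟨⟨h1, h2⟩, h3⟩, hne1⟩ := exists_ne_one_t14b hB
        obtain ⟨h4, h5 | h5⟩ := (K05_fix HT hM hΩp hi0 ⟨h1, h3⟩ hP hPg hp).1 h2
        · apply hpp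
          have h6 : h ∈ T₀.stab p := ⟨⟨h1, h3⟩, h4⟩
          have h7 : T₀.stab p ∈ Ω := hvΩ p (fun hbot => by
            rw [hbot] at h6
            exact hne1 h6)
          refine ⟨h7, periph_disj hΩp (hΩp.inv P hP _ h7) h7 ?_⟩
          intro hbot
          apply hne1
          have h8 : h ∈ MulAut.conj P • T₀.stab p ⊓ T₀.stab p := by
            refine ⟨?_, h6⟩
            have h9 : P * h * P⁻¹ = h := by
              have : h * P = P * h := by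
                calc h * P = h * P * h⁻¹ * h := by group
                  _ = P * h := by rw [h5]
              rw [← this, mul_inv_cancel_right]
            rw [← h9]
            exact Subgroup.smul_mem_pointwise_smul h (MulAut.conj P) _ h6
          rw [hbot] at h8
          exact h8
        · exact hpp h5
    · intro hB
      have hB' := hB
      rw [← hv] at hB'
      obtain ⟨hBne, p, hp⟩ := hB'
      rw [hst] at hp
      obtain ⟨P, hP, hPg, hPB⟩ := exists_lift_fix hc hM hΩp hB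
      have hpp : p ∈ presV T₀ Ω P := by
        refine ⟨by rw [hp]; exact hB, by rw [hp]; exact hPB⟩
      exact ⟨hBne, HT.ι P p, by rw [hstab P hP hPg p hpp, hp]⟩
  have hhull : HT.T.hull {x | HT.T.stab x ⊓ π.ker ∈ Ω} = Set.univ := by
    rw [Set.eq_univ_iff_forall]
    intro x
    obtain ⟨P, hP, hPg, p, hp, rfl⟩ := HT.surj x
    have hp' := hp
    obtain ⟨v, hv1, v', hv2, hb⟩ := hp'
    have hvh : v ∈ T₀.hull (presV T₀ Ω P) := ⟨v, hv1, v, hv1, TG.btw_left _ _⟩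
    have hvh' : v' ∈ T₀.hull (presV T₀ Ω P) := ⟨v', hv2, v', hv2, TG.btw_left _ _⟩
    refine ⟨HT.ι P v, ?_, HT.ι P v', ?_, ?_⟩
    · change HT.T.stab (HT.ι P v) ⊓ π.ker ∈ Ω
      rw [hstab P hP hPg v hv1]
      exact hv1.1
    · change HT.T.stab (HT.ι P v') ⊓ π.ker ∈ Ω
      rw [hstab P hP hPg v' hv2]
      exact hv2.1
    · change HT.T.G.dist _ _ + HT.T.G.dist _ _ = HT.T.G.dist _ _
      rw [HT.dist P hP hPg v hvh p hp, HT.dist P hP hPg p hp v' hvh',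
        HT.dist P hP hPg v hvh v' hvh']
      exact hb
  -- (s3)
  have hnell : ¬ HT.T.Ell ((M ⊓ π.ker : Subgroup Γ) : Set Γ) := by
    rintro ⟨x, hx⟩
    have h1 : HT.T.stab x ⊓ π.ker = M ⊓ π.ker := by
      apply le_antisymm
      · exact fun m hm => ⟨hm.1.1, hm.2⟩
      · exact fun m hm => ⟨⟨hm.1, hx m hm⟩, hm.2⟩
    have h2 : M ⊓ π.ker ∈ HT.T.vgs π.ker := ⟨hM.ne, x, h1⟩
    rw [hvgs] at h2
    exact ((proper_iff hc hM.toLoc).1 hΩ).2 h2
  have hfg : (M ⊓ π.ker).FG := Loc.fg hc hM.toLoc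
  have hcore : HT.T.core (M ⊓ π.ker) = Set.univ := by
    have hconv := HT.T.core_conv hni (D := M ⊓ π.ker) inf_le_left
    have hsub : {x | HT.T.stab x ⊓ π.ker ∈ Ω} ⊆ HT.T.core (M ⊓ π.ker) := by
      intro x hx
      obtain ⟨b, hb, hb1⟩ := exists_ne_one_t14b (periph_ne hΩp hx)
      have hbH : b ∈ M ⊓ π.ker := ⟨hb.1.1, hb.2⟩
      obtain ⟨y, hy1, hy2⟩ := HT.T.fix_proj hbH.1 ⟨x, hb.1.2⟩ hconv
        (HT.T.core_nonempty hni inf_le_left hfg) (fun z hz => by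
          have h1 := HT.T.core_conj (D := M ⊓ π.ker) inf_le_left hbH.1
          have h2 : MulAut.conj b • (M ⊓ π.ker) = M ⊓ π.ker :=
            t8_norm.1 (Subgroup.le_normalizer hbH)
          rw [h2] at h1
          rw [h1]
          exact ⟨z, hz, rfl⟩)
      have hxy : x = y := by
        by_contra hne1
        obtain ⟨w, ⟨hw1, hw2⟩, -⟩ := TG.exists_unique_next HT.T.tree hne1
        have hd : HT.T.G.dist x w = 1 := SimpleGraph.dist_eq_one_iff_adj.2 hw1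
        have hw : HT.T.act b w = w := by
          refine HT.T.fix_conv hbH.1 x hb.1.2 y hy2 w ?_
          change HT.T.G.dist x w + HT.T.G.dist w y = HT.T.G.dist x y
          omega
        exact hb1 (hfree b hbH x w hw1 hb.1.2 hw)
      rw [hxy]
      exact hy1
    rw [Set.eq_univ_iff_forall] at hhull ⊢
    intro x
    obtain ⟨y, hy, z, hz, hb⟩ := hhull x
    exact hconv y (hsub hy) z (hsub hz) x hb
  obtain ⟨S, hS⟩ := HT.T.core_cofinite hni (D := M ⊓ π.ker) inf_le_left hfg hnell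
  refine ⟨HT.T, ⟨hfree, horb, S, fun x y hxy => ?_⟩, hvgs, fun _ => hhull⟩
  exact hS x (by rw [hcore]; trivial) y (by rw [hcore]; trivial) hxy

theorem bounded_of_case0 (hc : Ctx π) {M : Subgroup Γ} {g : G} (hM : Cyc π M g) {Ω : Set (Subgroup Γ)}
    (hΩ : IsProper π.ker M Ω) {S : MTree M} (hS : S.IsSplitting π.ker) (hSn : S.Nontriv π.ker)
    (h0 : FamLe (S.vgs π.ker) Ω) : IsBdd π M Ω := by
  rcases Ω.eq_empty_or_nonempty with hΩe | hne
  · refine ⟨S, hS, ?_, fun h => ?_⟩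
    · rw [hΩe]
      rw [hΩe] at h0
      rw [Set.eq_empty_iff_forall_notMem]
      intro B hB
      obtain ⟨B', hB', _⟩ := h0 B hB
      exact hB'
    · rw [hΩe] at h
      exact absurd h Set.not_nonempty_empty
  · exact glue_hulls hc hM hΩ hne (fun B B' => case0_conn hc hM hΩ.periph hS hSn h0 B B')

end Pool.Agent.Lib.MP_6567fb_al
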