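import Pool.Agent.Lib.MP_6567fb_al.K01

/-!
# MP_6567fb_al, module K05a

The base tree: the vertices of `B(g)` which have a neighbour (all members of Ω: exists_lift_fix; the lifts preserving a member), with the action by
conjugation.  T.X := {z // ∃ z', (BG π M g Ω).Adj z z'}; tree: connected (every lift is adjacent to a member), acyclic (bg_acyclic, comap/induce).
The action: for m ∈ M conjugation (conj_over), otherwise the identity.
-/

set_option autoImplicit false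

open scoped Pointwise

namespace Pool.Agent.Lib.MP_6567fb_al

open MTree

variable {Γ G : Type} [Group Γ] [Group G] {π : Γ →* G}

namespace K05a

theorem conj_smul_conj {B : Subgroup Γ} {m P : Γ} (h : MulAut.conj P • B = B) :
    MulAut.conj (m * P * m⁻¹) • (MulAut.conj m • B) = MulAut.conj m • B := by
  rw [← mul_smul, ← map_mul, inv_mul_cancel_right, map_mul, mul_smul, h]

variable (π) in
/-- conjugation on the vertices of `B(g)` -/
noncomputable def cact (M : Subgroup Γ) (g : G) {Ω : Set (Subgroup Γ)} (hM : Cyc π M g)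
    (hinv : ∀ m ∈ M, ∀ B ∈ Ω, MulAut.conj m • B ∈ Ω) (m : Γ) (z : Ω ⊕ {P : Γ // P ∈ M ∧ π P = g}) :
    Ω ⊕ {P : Γ // P ∈ M ∧ π P = g} :=
  open Classical in
  if h : m ∈ M then
    (match z with
    | Sum.inl B => Sum.inl ⟨MulAut.conj m • (B : Subgroup Γ), hinv m h B B.2⟩
    | Sum.inr P => Sum.inr ⟨m * P * m⁻¹, M.mul_mem (M.mul_mem h P.2.1) (M.inv_mem h),
        hM.conj_over h P.2.2⟩)
  else z

variable {M : Subgroup Γ} {g : G} {Ω : Set (Subgroup Γ)} (hM : Cyc π M g)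
  (hinv : ∀ m ∈ M, ∀ B ∈ Ω, MulAut.conj m • B ∈ Ω)

theorem cact_inl {m : Γ} (hm : m ∈ M) (B : Ω) : cact π M g hM hinv m (Sum.inl B) =
    Sum.inl ⟨MulAut.conj m • (B : Subgroup Γ), hinv m hm B B.2⟩ := by
  unfold cact; rw [dif_pos hm]

theorem cact_inr {m : Γ} (hm : m ∈ M) (P : {P : Γ // P ∈ M ∧ π P = g}) :
    cact π M g hM hinv m (Sum.inr P) = Sum.inr ⟨m * P * m⁻¹,
      M.mul_mem (M.mul_mem hm P.2.1) (M.inv_mem hm), hM.conj_over hm P.2.2⟩ := by
  unfold cact; rw [dif_pos hm]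

theorem cact_not {m : Γ} (hm : m ∉ M) (z : Ω ⊕ {P : Γ // P ∈ M ∧ π P = g}) :
    cact π M g hM hinv m z = z := by
  unfold cact; rw [dif_neg hm]

theorem cact_adj (m : Γ) (z z' : Ω ⊕ {P : Γ // P ∈ M ∧ π P = g}) (h : (BG π M g Ω).Adj z z') :
    (BG π M g Ω).Adj (cact π M g hM hinv m z) (cact π M g hM hinv m z') := by
  by_cases hm : m ∈ M
  · rcases z with B | P <;> rcases z' with B' | P'
    · exact h.elim
    · rw [cact_inl hM hinv hm, cact_inr hM hinv hm]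
      exact conj_smul_conj h
    · rw [cact_inl hM hinv hm, cact_inr hM hinv hm]
      exact conj_smul_conj h
    · exact h.elim
  · rw [cact_not hM hinv hm, cact_not hM hinv hm]; exact h

theorem cact_one (z : Ω ⊕ {P : Γ // P ∈ M ∧ π P = g}) : cact π M g hM hinv 1 z = z := by
  rcases z with B | P
  · rw [cact_inl hM hinv M.one_mem]
    congr 1
    refine Subtype.ext ?_
    change MulAut.conj (1 : Γ) • (B : Subgroup Γ) = B
    rw [map_one, one_smul]
  · rw [cact_inr hM hinv M.one_mem]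
    congr 1
    exact Subtype.ext (by simp)

theorem cact_mul {m m' : Γ} (hm : m ∈ M) (hm' : m' ∈ M) (z : Ω ⊕ {P : Γ // P ∈ M ∧ π P = g}) :
    cact π M g hM hinv (m * m') z = cact π M g hM hinv m (cact π M g hM hinv m' z) := by
  rcases z with B | P
  · rw [cact_inl hM hinv (M.mul_mem hm hm'), cact_inl hM hinv hm', cact_inl hM hinv hm]
    congr 1
    refine Subtype.ext ?_
    change MulAut.conj (m * m') • (B : Subgroup Γ) = MulAut.conj m • MulAut.conj m' • (B : Subgroup Γ)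
    rw [map_mul, mul_smul]
  · rw [cact_inr hM hinv (M.mul_mem hm hm'), cact_inr hM hinv hm', cact_inr hM hinv hm]
    congr 1
    exact Subtype.ext (by simp only []; group)

theorem reach_lift {X : Type} {K : SimpleGraph X} {a b : X} (p : K.Walk a b)
    (ha : ∃ z, K.Adj a z) (hb : ∃ z, K.Adj b z) :
    (K.induce {z | ∃ z', K.Adj z z'}).Reachable ⟨a, ha⟩ ⟨b, hb⟩ := by
  induction p with
  | nil => exact SimpleGraph.Reachable.refl _
  | cons h p ih =>
    refine SimpleGraph.Reachable.trans (SimpleGraph.Adj.reachable ?_) (ih ⟨_, h.symm⟩ hb)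
    exact h

end K05a

theorem bg_tree (hc : Ctx π) {M : Subgroup Γ} {g : G} (hM : Cyc π M g) {Ω : Set (Subgroup Γ)}
    (hΩ : IsPeriph π.ker M Ω) (hne : Ω.Nonempty)
    (hconn : ∀ B B' : Ω, (BG π M g Ω).Reachable (Sum.inl B) (Sum.inl B')) :
    ∃ (T : MTree M) (β : Ω → T.X)
      (lam : {P : Γ // P ∈ M ∧ π P = g ∧ ∃ B ∈ Ω, MulAut.conj P • B = B} → T.X),
      Function.Injective β ∧ Function.Injective lam ∧ (∀ x, (∃ B, x = β B) ∨ (∃ P, x = lam P)) ∧
      (∀ B P, β B ≠ lam P) ∧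
      (∀ x y, T.G.Adj x y ↔ ∃ (B : Ω) (P : {P : Γ // P ∈ M ∧ π P = g ∧ ∃ B ∈ Ω, MulAut.conj P • B = B}),
        MulAut.conj (P : Γ) • (B : Subgroup Γ) = B ∧
          ((x = β B ∧ y = lam P) ∨ (y = β B ∧ x = lam P))) ∧
      (∀ m ∈ M, ∀ B B' : Ω, MulAut.conj m • (B : Subgroup Γ) = B' → T.act m (β B) = β B') ∧
      (∀ m ∈ M, ∀ P P' : {P : Γ // P ∈ M ∧ π P = g ∧ ∃ B ∈ Ω, MulAut.conj P • B = B},
        m * (P : Γ) * m⁻¹ = P' → T.act m (lam P) = lam P') := by
  classical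
  have hβ : ∀ B : Ω, ∃ z', (BG π M g Ω).Adj (Sum.inl B) z' := by
    intro B
    obtain ⟨P, hP, hPg, hPB⟩ := exists_lift_fix hc hM hΩ B.2
    exact ⟨Sum.inr ⟨P, hP, hPg⟩, hPB⟩
  have hconn' : ((BG π M g Ω).induce {z | ∃ z', (BG π M g Ω).Adj z z'}).Connected := by
    obtain ⟨B₀, hB₀⟩ := hne
    rw [SimpleGraph.connected_iff_exists_forall_reachable]
    refine ⟨⟨Sum.inl ⟨B₀, hB₀⟩, hβ ⟨B₀, hB₀⟩⟩, ?_⟩
    rintro ⟨z, hz⟩
    rcases z with B | P
    · obtain ⟨p⟩ := hconn ⟨B₀, hB₀⟩ B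
      exact K05a.reach_lift p _ _
    · obtain ⟨z', hz'⟩ := id hz
      rcases z' with B' | P'
      · obtain ⟨p⟩ := hconn ⟨B₀, hB₀⟩ B'
        refine (K05a.reach_lift p _ (hβ B')).trans (SimpleGraph.Adj.reachable ?_)
        exact hz'.symm
      · exact hz'.elim
  have hacyc : ((BG π M g Ω).induce {z | ∃ z', (BG π M g Ω).Adj z z'}).IsAcyclic :=
    (bg_acyclic hc hM hΩ).induce _
  let T : MTree M :=
    { X := {z | ∃ z', (BG π M g Ω).Adj z z'}
      G := (BG π M g Ω).induce {z | ∃ z', (BG π M g Ω).Adj z z'}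
      tree := ⟨hconn', hacyc⟩
      act := fun m z => ⟨K05a.cact π M g hM hΩ.inv m z.1, by
        obtain ⟨z', hz'⟩ := z.2
        exact ⟨_, K05a.cact_adj hM hΩ.inv m _ _ hz'⟩⟩
      act_one := fun z => Subtype.ext (K05a.cact_one hM hΩ.inv z.1)
      act_mul := fun m hm m' hm' z => Subtype.ext (K05a.cact_mul hM hΩ.inv hm hm' z.1)
      act_adj := fun m _ z z' h => K05a.cact_adj hM hΩ.inv m _ _ h }
  refine ⟨T, fun B => ⟨Sum.inl B, hβ B⟩, fun P => ⟨Sum.inr ⟨P.1, P.2.1, P.2.2.1⟩, by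
    obtain ⟨B, hB, hPB⟩ := P.2.2.2
    exact ⟨Sum.inl ⟨B, hB⟩, hPB⟩⟩, ?_, ?_, ?_, ?_, ?_, ?_, ?_⟩
  · intro B B' h
    exact Sum.inl.inj (congrArg Subtype.val h)
  · intro P P' h
    have h1 := Sum.inr.inj (congrArg Subtype.val h)
    have h2 : (P : Γ) = P' :=
      congrArg (fun z : {P : Γ // P ∈ M ∧ π P = g} => (z : Γ)) h1
    exact Subtype.ext h2
  · rintro ⟨z, hz⟩
    rcases z with B | P
    · exact Or.inl ⟨B, rfl⟩
    · right
      obtain ⟨z', hz'⟩ := id hz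
      rcases z' with B' | P'
      · exact ⟨⟨P.1, P.2.1, P.2.2, B', B'.2, hz'⟩, rfl⟩
      · exact hz'.elim
  · intro B P h
    exact Sum.inl_ne_inr (congrArg Subtype.val h)
  · rintro ⟨z, hz⟩ ⟨z', hz'⟩
    constructor
    · intro h
      have h' : (BG π M g Ω).Adj z z' := h
      rcases z with B | P <;> rcases z' with B' | P'
      · exact h'.elim
      · exact ⟨B, ⟨P'.1, P'.2.1, P'.2.2, B, B.2, h'⟩, h', Or.inl ⟨rfl, rfl⟩⟩
      · exact ⟨B', ⟨P.1, P.2.1, P.2.2, B', B'.2, h'⟩, h', Or.inr ⟨rfl, rfl⟩⟩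
      · exact h'.elim
    · rintro ⟨B, P, hBP, ⟨h1, h2⟩ | ⟨h1, h2⟩⟩
      · rw [h1, h2]; exact hBP
      · rw [h1, h2]; exact hBP
  · intro m hm B B' h
    refine Subtype.ext ?_
    change K05a.cact π M g hM hΩ.inv m (Sum.inl B) = Sum.inl B'
    rw [K05a.cact_inl hM hΩ.inv hm]
    congr 1
    exact Subtype.ext h
  · intro m hm P P' h
    refine Subtype.ext ?_
    change K05a.cact π M g hM hΩ.inv m (Sum.inr _) = Sum.inr _
    rw [K05a.cact_inr hM hΩ.inv hm]
    congr 1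
    exact Subtype.ext h

end Pool.Agent.Lib.MP_6567fb_al
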