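import Pool.Agent.Lib.MP_6567fb_al.K02
import Pool.Agent.Lib.MP_6567fb_al.K03
import Pool.Agent.Lib.MP_6567fb_al.K05

/-!
# MP_6567fb_al, module K06

exists_min_splitting; by bounded_of_case0 there is v with A := S.stab v ⊓ ker ≠ ⊥ not inside a member.  A is an M-factor with M ⊓ N(A) = S.stab v
(vertex_mfactor), proper_res: resFam Ω A is proper for S.stab v.  Cyc.stab, rk_stab_lt, ih: a non-trivial splitting of S.stab v rel resFam; min_core
(keeps Rel, by its last clause): U.  hM := kM.  kM for U' := U: edge (v,w) and lift P hyperbolic on U; P ∈ S.stab v; ell_or_axis (T2b, noInv): axis L.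
-/

set_option autoImplicit false

open scoped Pointwise

namespace Pool.Agent.Lib.MP_6567fb_al

open MTree

variable {Γ G : Type} [Group Γ] [Group G] {π : Γ →* G}

theorem kdata_of_unbounded (hc : Ctx π) {M : Subgroup Γ} {g : G} (hM : Cyc π M g)
    (ih : ∀ M' : Subgroup Γ, Cyc π M' g → rk (M' ⊓ π.ker) < rk (M ⊓ π.ker) → ∀ Ω' : Set (Subgroup Γ),
      IsProper π.ker M' Ω' → ∃ T : MTree M', T.IsSplitting π.ker ∧ T.Nontriv π.ker ∧ T.Rel Ω')
    {Ω : Set (Subgroup Γ)} (hΩ : IsProper π.ker M Ω) (hb : ¬ IsBdd π M Ω) :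
    Nonempty (KData π M g Ω) := by
  obtain ⟨S, hS, hSmin, hmin⟩ := exists_min_splitting hc hM
  have hSn : S.Nontriv π.ker := hSmin.1
  have h0 : ¬ FamLe (S.vgs π.ker) Ω := fun h0 => hb (bounded_of_case0 hc hM hΩ hS hSn h0)
  unfold FamLe at h0
  push Not at h0
  obtain ⟨A, ⟨hAne, v, hvA⟩, hA⟩ := h0
  have hv : S.stab v ⊓ π.ker ≠ ⊥ := hvA ▸ hAne
  obtain ⟨hAM, hnorm⟩ := vertex_mfactor hc hM.toLoc hS v hv
  have hprop : IsProper π.ker (S.stab v) (resFam Ω (S.stab v ⊓ π.ker)) := by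
    have h1 := proper_res hc hM.toLoc hΩ.periph hAM (by
      intro B hB
      rw [hvA]
      exact hA B hB)
    rw [hnorm] at h1
    exact h1
  have hCv : Cyc π (S.stab v) g := hM.stab hc hS hSn hv
  obtain ⟨T₀, hT₀, hT₀n, hT₀r⟩ := ih (S.stab v) hCv (rk_stab_lt hc hM.toLoc hS hSn v) _ hprop
  obtain ⟨U, ι, -, hU, hUmin, -, hUell⟩ := min_core hc hCv.toLoc hT₀ hT₀n
  have hUrel : U.Rel (resFam Ω (S.stab v ⊓ π.ker)) := by
    intro B hB
    refine hUell (B : Set Γ) ?_ (hT₀r B hB)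
    intro b hb'
    obtain ⟨-, B', -, rfl⟩ := hB
    exact hb'.2.1
  have hkM := kM hc hM hS hSn hmin v hv
  obtain ⟨w, P, hw, hP, hPg, hPe, hPhyp⟩ := hkM U hU hUmin.1
  have hPv : P ∈ S.stab v := ⟨hP, hPe.1⟩
  rcases U.ell_or_axis (hU.noInv hc) hPv with ⟨x, hx⟩ | ⟨l, L, hL⟩
  · exact absurd hx (hPhyp x)
  · exact ⟨{ S := S, hS := hS, hSmin := hSmin, v := v, hv := hv, hM := hkM, U := U, hU := hU,
             hUmin := hUmin, hUrel := hUrel, w := w, hw := hw, P := P, hP := hP, hPg := hPg,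
             hPe := hPe, l := l, L := L, hL := hL }⟩

end Pool.Agent.Lib.MP_6567fb_al
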