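import Pool.Agent.Lib.MP_6567fb_al.K00a

/-!
# MP_6567fb_al, module K07

K4.2: the centraliser of `P` in `A` is trivial (case 1) or infinite cyclic (case 2).
-/

set_option autoImplicit false

open scoped Pointwise

namespace Pool.Agent.Lib.MP_6567fb_al

open MTree

variable {Γ G : Type} [Group Γ] [Group G] {π : Γ →* G}

/-- no torsion -/
theorem k07_tf (hc : Ctx π) {y : Γ} (hy : y ≠ 1) {k : ℤ} (hk : y ^ k = 1) : k = 0 := by
  by_contra hk0
  have h1 : y ^ k.natAbs = 1 := by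
    rcases Int.natAbs_eq k with h | h
    · rw [h, zpow_natCast] at hk
      exact hk
    · rw [h, zpow_neg, zpow_natCast, inv_eq_one] at hk
      exact hk
  exact hy (hc.roots y 1 k.natAbs (Int.natAbs_pos.2 hk0) (by rw [h1, one_pow]))

/-- unique roots for integer exponents -/
theorem k07_roots (hc : Ctx π) {x y : Γ} {k : ℤ} (hk : k ≠ 0) (h : x ^ k = y ^ k) : x = y := by
  refine hc.roots x y k.natAbs (Int.natAbs_pos.2 hk) ?_
  rcases Int.natAbs_eq k with h1 | h1
  · rw [h1, zpow_natCast, zpow_natCast] at h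
    exact h
  · rw [h1, zpow_neg, zpow_neg, zpow_natCast, zpow_natCast, inv_inj] at h
    exact h

/-- powers of a translation -/
theorem k07_shift {M : Subgroup Γ} {T : MTree M} {L : ℤ → T.X} {y : Γ} (hy : y ∈ M) {t : ℤ}
    (h : ∀ i, T.act y (L i) = L (i + t)) (n : ℤ) (i : ℤ) : T.act (y ^ n) (L i) = L (i + n * t) := by
  have hinv : ∀ i, T.act y⁻¹ (L i) = L (i - t) := by
    intro i
    have h1 := h (i - t)
    rw [sub_add_cancel] at h1
    rw [← h1, T.act_inv_act hy]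
  induction n using Int.induction_on generalizing i with
  | zero => simp [T.act_one]
  | succ n ih =>
    rw [zpow_add, zpow_one, T.act_mul _ (M.zpow_mem hy _) _ hy, h, ih]
    congr 1
    ring
  | pred n ih =>
    rw [zpow_sub, zpow_one, T.act_mul _ (M.zpow_mem hy _) _ (M.inv_mem hy), hinv, ih]
    congr 1
    ring

theorem k07_adj {X : Type} {G : SimpleGraph X} (hG : G.IsTree) {L : ℤ → X} (hL : TG.IsLine G L) (i : ℤ) :
    G.Adj (L i) (L (i + 1)) := by
  rw [← SimpleGraph.dist_eq_one_iff_adj, hL]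
  simp

/-- an element translating a line by `c ≠ 0` has no fixed vertex -/
theorem k07_nofix {M : Subgroup Γ} {T : MTree M} {L : ℤ → T.X} (hL : T.IsLine L) {y : Γ} (hy : y ∈ M)
    {c : ℤ} (hc : c ≠ 0) (h : ∀ i, T.act y (L i) = L (i + c)) (x : T.X) : T.act y x ≠ x := by
  rcases lt_or_gt_of_ne hc with h1 | h1
  · have hax : T.IsAxis y⁻¹ (-c).toNat L := by
      refine ⟨by omega, hL, fun i => ?_⟩
      have h2 := k07_shift hy h (-1) i
      rw [zpow_neg_one] at h2
      rw [h2]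
      congr 1
      omega
    intro hx
    apply T.hyp_of_axis (M.inv_mem hy) hax x
    conv_lhs => rw [← hx]
    exact T.act_inv_act hy x
  · have hax : T.IsAxis y c.toNat L := by
      refine ⟨by omega, hL, fun i => ?_⟩
      rw [h i]
      congr 1
      omega
    exact T.hyp_of_axis hy hax x

theorem KData.P_mem {M : Subgroup Γ} {g : G} {Ω : Set (Subgroup Γ)} (D : KData π M g Ω) :
    D.P ∈ D.S.stab D.v := ⟨D.hP, D.hPe.1⟩

theorem KData.case_split (hc : Ctx π) {M : Subgroup Γ} {g : G} (hM : Cyc π M g) {Ω : Set (Subgroup Γ)}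
    (hΩ : IsProper π.ker M Ω) (D : KData π M g Ω) : D.Case1 ∨ ∃ y R k, D.Case2 y R k := by
  have hPN : D.P ∈ D.S.stab D.v := D.P_mem
  obtain ⟨hl0, hline, hact⟩ := id D.hL
  have hadj : ∀ i, D.U.G.Adj (D.L i) (D.L (i + 1)) := k07_adj D.U.tree hline
  -- elements agreeing on two consecutive points of the line
  have hagree : ∀ a ∈ D.S.stab D.v, ∀ b ∈ D.S.stab D.v, π a = π b → ∀ c i : ℤ,
      (∀ j, D.U.act a (D.L j) = D.L (j + c)) → (∀ j, D.U.act b (D.L j) = D.L (j + c)) → a = b := by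
    intro a ha b hb hab c i h1 h2
    exact IsSplitting.eq_of_agree D.hU ha hb hab (hadj i) ((h1 i).trans (h2 i).symm)
      ((h1 _).trans (h2 _).symm)
  let Z : AddSubgroup ℤ :=
    { carrier := {c | ∃ a ∈ D.A, a * D.P = D.P * a ∧ ∀ i, D.U.act a (D.L i) = D.L (i + c)}
      zero_mem' := ⟨1, Subgroup.one_mem _, by group, fun i => by rw [D.U.act_one, add_zero]⟩
      add_mem' := by
        rintro c c' ⟨a, ha, h1, h2⟩ ⟨a', ha', h1', h2'⟩
        refine ⟨a' * a, Subgroup.mul_mem _ ha' ha, ?_, fun i => ?_⟩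
        · rw [mul_assoc, h1, ← mul_assoc, h1', mul_assoc]
        · rw [D.U.act_mul _ ha'.1 _ ha.1, h2, h2', add_assoc]
      neg_mem' := by
        rintro c ⟨a, ha, h1, h2⟩
        refine ⟨a⁻¹, Subgroup.inv_mem _ ha, ?_, fun i => ?_⟩
        · have : a⁻¹ * (a * D.P) * a⁻¹ = a⁻¹ * (D.P * a) * a⁻¹ := by rw [h1]
          have e1 : a⁻¹ * (a * D.P) * a⁻¹ = D.P * a⁻¹ := by group
          have e2 : a⁻¹ * (D.P * a) * a⁻¹ = a⁻¹ * D.P := by group
          rw [e1, e2] at this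
          exact this.symm
        · have h3 := k07_shift ha.1 h2 (-1) i
          rw [zpow_neg_one] at h3
          rw [h3]
          congr 1
          ring }
  have hZ : ∀ c, c ∈ Z ↔ ∃ a ∈ D.A, a * D.P = D.P * a ∧ ∀ i, D.U.act a (D.L i) = D.L (i + c) :=
    fun c => Iff.rfl
  have hcomm : ∀ a ∈ D.A, a * D.P = D.P * a → ∃ c : ℤ, ∀ i, D.U.act a (D.L i) = D.L (i + c) :=
    fun a ha h => D.U.comm_axis hPN ha.1 D.hL h
  obtain ⟨t, ht⟩ := Int.subgroup_cyclic Z
  by_cases ht0 : t = 0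
  · left
    intro a ha hca
    obtain ⟨c, hca2⟩ := hcomm a ha hca
    have hcZ : c ∈ Z := (hZ c).2 ⟨a, ha, hca, hca2⟩
    rw [ht, AddSubgroup.mem_closure_singleton] at hcZ
    obtain ⟨n, hn⟩ := hcZ
    rw [ht0, smul_zero] at hn
    have ha1 : π a = π 1 := by rw [map_one]; exact ha.2
    exact hagree a ha.1 1 (Subgroup.one_mem _) ha1 0 0 (by rw [hn]; exact hca2)
      (fun j => by rw [D.U.act_one, add_zero])
  right
  obtain ⟨y, hyA, hyP, hyt⟩ := (hZ t).1 (by rw [ht]; exact AddSubgroup.subset_closure rfl)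
  have hyN : y ∈ D.S.stab D.v := hyA.1
  have hyk : π y = 1 := hyA.2
  have hy1 : y ≠ 1 := by
    intro h
    have h1 := hyt 0
    rw [h, D.U.act_one] at h1
    have := TG.line_inj hline h1
    omega
  have hcentr : ∀ a ∈ D.A, a * D.P = D.P * a → a ∈ Subgroup.zpowers y := by
    intro a ha hca
    obtain ⟨c, hca2⟩ := hcomm a ha hca
    have hcZ : c ∈ Z := (hZ c).2 ⟨a, ha, hca, hca2⟩
    rw [ht, AddSubgroup.mem_closure_singleton] at hcZ
    obtain ⟨n, hn⟩ := hcZ
    rw [Subgroup.mem_zpowers_iff]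
    refine ⟨n, ?_⟩
    have ha2 : π (y ^ n) = π a := by rw [map_zpow, hyk, one_zpow]; exact (ha.2 : π a = 1).symm
    refine hagree _ (Subgroup.zpow_mem _ hyN n) a ha.1 ha2 c 0 (fun j => ?_) hca2
    rw [k07_shift hyN hyt n j, ← hn, smul_eq_mul]
  -- the element R
  obtain ⟨a, b, ha, hab⟩ : ∃ (a : ℕ) (b : ℤ), 0 < a ∧ b * t + a * D.l = 0 := by
    rcases lt_or_gt_of_ne ht0 with h1 | h1
    · refine ⟨(-t).toNat, D.l, by omega, ?_⟩
      have : ((-t).toNat : ℤ) = -t := by omega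
      rw [this]; ring
    · refine ⟨t.toNat, -D.l, by omega, ?_⟩
      have : (t.toNat : ℤ) = t := by omega
      rw [this]; ring
  have hWN : y ^ b * D.P ^ a ∈ D.S.stab D.v :=
    Subgroup.mul_mem _ (Subgroup.zpow_mem _ hyN b) (Subgroup.pow_mem _ hPN a)
  have hWfix : ∀ i, D.U.act (y ^ b * D.P ^ a) (D.L i) = D.L i := by
    intro i
    rw [D.U.act_mul _ (Subgroup.zpow_mem _ hyN b) _ (Subgroup.pow_mem _ hPN a)]
    have h1 := k07_shift hPN hact (a : ℤ) i
    rw [zpow_natCast] at h1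
    rw [h1, k07_shift hyN hyt b]
    congr 1
    linarith
  have hWπ : π (y ^ b * D.P ^ a) = g ^ a := by
    rw [map_mul, map_zpow, map_pow, hyk, one_zpow, one_mul, D.hPg]
  have hlift : ∀ i, ∃ p, p ∈ D.S.stab D.v ∧ π p = g ∧ D.U.FixE p (D.L i) (D.L (i + 1)) := by
    intro i
    obtain ⟨p, ⟨hp1, hp2, hp3⟩, -⟩ := IsSplitting.lift D.hU (hadj i) hPN
    exact ⟨p, hp1, hp2.trans D.hPg, hp3⟩
  have hpow : ∀ i p, p ∈ D.S.stab D.v → π p = g → D.U.FixE p (D.L i) (D.L (i + 1)) →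
      p ^ a = y ^ b * D.P ^ a := by
    intro i p hp1 hp2 hp3
    refine IsSplitting.eq_of_agree D.hU (Subgroup.pow_mem _ hp1 a) hWN (by rw [map_pow, hp2, hWπ])
      (hadj i) ?_ ?_
    · rw [D.U.fix_pow hp1 hp3.1, hWfix]
    · rw [D.U.fix_pow hp1 hp3.2, hWfix]
  obtain ⟨R, hRN, hRg, hR0⟩ := hlift 0
  have hRfix : ∀ i, D.U.act R (D.L i) = D.L i := by
    intro i
    obtain ⟨p, hp1, hp2, hp3⟩ := hlift i
    have h1 : p = R := hc.roots p R a ha ((hpow i p hp1 hp2 hp3).trans (hpow 0 R hRN hRg hR0).symm)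
    rw [← h1]
    exact hp3.1
  -- elements translating the line commute with R
  have hRcomm : ∀ z ∈ D.S.stab D.v, ∀ c : ℤ, (∀ i, D.U.act z (D.L i) = D.L (i + c)) →
      π (z * R) = π (R * z) → R * z = z * R := by
    intro z hz c hzc hπ
    refine hagree _ (Subgroup.mul_mem _ hRN hz) _ (Subgroup.mul_mem _ hz hRN) hπ.symm c 0 ?_ ?_
    · intro j
      rw [D.U.act_mul _ hRN _ hz, hzc, hRfix]
    · intro j
      rw [D.U.act_mul _ hz _ hRN, hRfix, hzc]
  have hRy : R * y = y * R := hRcomm y hyN t hyt (by rw [map_mul, map_mul, hyk, one_mul, mul_one])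
  have hRP : R * D.P = D.P * R := hRcomm D.P hPN D.l hact (by rw [map_mul, map_mul, hRg, D.hPg])
  have hPRA : D.P * R⁻¹ ∈ D.A := by
    refine ⟨Subgroup.mul_mem _ hPN (Subgroup.inv_mem _ hRN), ?_⟩
    change π (D.P * R⁻¹) = 1
    rw [map_mul, map_inv, D.hPg, hRg, mul_inv_cancel]
  have hPRc : D.P * R⁻¹ * D.P = D.P * (D.P * R⁻¹) := by
    have e1 : R⁻¹ * D.P = D.P * R⁻¹ := by
      have : R⁻¹ * (R * D.P) * R⁻¹ = R⁻¹ * (D.P * R) * R⁻¹ := by rw [hRP]
      have e2 : R⁻¹ * (R * D.P) * R⁻¹ = D.P * R⁻¹ := by group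
      have e3 : R⁻¹ * (D.P * R) * R⁻¹ = R⁻¹ * D.P := by group
      rw [e2, e3] at this
      exact this.symm
    rw [mul_assoc, e1]
  obtain ⟨k, hk⟩ := Subgroup.mem_zpowers_iff.1 (hcentr _ hPRA hPRc)
  have hPeq : D.P = y ^ k * R := by rw [hk]; group
  refine ⟨y, R, k, ?_⟩
  refine
    { yA := hyA
      y1 := hy1
      comm := hyP
      centr := hcentr
      prim := ?_
      notB := ?_
      RM := hRN
      Rg := hRg
      Rfix := hRfix
      k0 := ?_
      eq := hPeq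
      Rcomm := hRy }
  · intro z hz m hzm
    have hm0 : m ≠ 0 := by
      rintro rfl
      exact hy1 (by rw [← hzm, zpow_zero])
    have hzA : z ∈ D.A := by
      have hfac := fac_stab hc hM.toLoc D.hS D.v
      refine fac_root hc le_rfl hfac hz (Int.natAbs_pos.2 hm0) ?_
      have hzmA : z ^ m ∈ D.A := by rw [hzm]; exact hyA
      rcases Int.natAbs_eq m with h | h
      · rw [h, zpow_natCast] at hzmA
        exact hzmA
      · rw [h, zpow_neg, zpow_natCast] at hzmA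
        have := Subgroup.inv_mem _ hzmA
        rwa [inv_inv] at this
    have hzP : z * D.P = D.P * z := by
      have h1 : D.P * z * D.P⁻¹ = z := by
        refine k07_roots hc hm0 ?_
        rw [conj_zpow, hzm, ← hyP]
        group
      have h2 : D.P * z * D.P⁻¹ * D.P = z * D.P := by rw [h1]
      rw [← h2]
      group
    obtain ⟨j, hj⟩ := Subgroup.mem_zpowers_iff.1 (hcentr z hzA hzP)
    have h1 : y ^ (j * m - 1) = 1 := by
      rw [zpow_sub, zpow_mul, hj, hzm, zpow_one, mul_inv_cancel]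
    have h2 := k07_tf hc hy1 h1
    have h3 : m * j = 1 := by rw [mul_comm]; omega
    exact Int.eq_one_or_neg_one_of_mul_eq_one h3
  · intro B hB m hm hmB
    have hym : y ^ m ∈ B ⊓ (D.S.stab D.v ⊓ π.ker) := ⟨hmB, Subgroup.zpow_mem _ hyA m⟩
    have hne : B ⊓ (D.S.stab D.v ⊓ π.ker) ≠ ⊥ := by
      intro h
      rw [h, Subgroup.mem_bot] at hym
      exact hm (k07_tf hc hy1 hym)
    obtain ⟨x, hx⟩ := D.hUrel _ ⟨hne, B, hB, rfl⟩
    exact k07_nofix hline (Subgroup.zpow_mem _ hyN m) (mul_ne_zero hm ht0)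
      (fun i => k07_shift hyN hyt m i) x (hx _ hym)
  · rintro rfl
    rw [zpow_zero, one_mul] at hPeq
    apply D.U.hyp_of_axis hPN D.hL (D.L 0)
    rw [hPeq]
    exact hRfix 0

end Pool.Agent.Lib.MP_6567fb_al
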