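import Pool.Agent.Lib.MP_6567fb_al.K00a

/-!
# MP_6567fb_al, module K08

K4.3.  Suppose P fixes all neighbours of v.  For a ∈ A, a P a⁻¹ is a lift of g fixing (v, a w), and so is P, so a commutes with P (eq_of_agree): A centralises P.
A acts freely on the axis L by translations (comm_axis), so A is infinite cyclic, A = zpowers y.  S.stab v = A zpowers P, commuting (exists_dec), A ⊓ zpowers P = 1 (P is not in ker:
otherwise P fixes an edge of S and P = 1, not hyperbolic; zpow_ker).  Let U' be the line (vertices ℤ, adjacency |i-j| = 1) with y^i P^j acting by translation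
by i: a splitting of S.stab v, Nontriv.  D.hM U': some lift Q fixing an edge (v,w') is hyperbolic on U'.  But Q = P (both fix the edge (v,w')), which acts trivially: contradiction.
(The line as an MTree: possibly simpler: U' := the Cayley tree T0 cayley_exists of A with S.stab v acting through a homomorphism S.stab v → A, y^i P^j ↦ y^i.)
-/

set_option autoImplicit false

open scoped Pointwise

namespace Pool.Agent.Lib.MP_6567fb_al

open MTree

variable {Γ G : Type} [Group Γ] [Group G] {π : Γ →* G}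

/-- the line as a graph -/
def K08_lineG : SimpleGraph ℤ where
  Adj i j := j = i + 1 ∨ i = j + 1
  symm := ⟨fun _ _ h => h.symm⟩
  loopless := ⟨fun i h => by rcases h with h | h <;> omega⟩

theorem K08_lineG_tree : K08_lineG.IsTree := by
  have hc : K08_lineG.Connected := by
    have key : ∀ i : ℤ, K08_lineG.Reachable 0 i := by
      intro i
      induction i using Int.induction_on with
      | zero => exact SimpleGraph.Reachable.refl _
      | succ n ih =>
        refine ih.trans (SimpleGraph.Adj.reachable ?_)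
        exact Or.inl rfl
      | pred n ih =>
        refine ih.trans (SimpleGraph.Adj.reachable ?_)
        exact Or.inr (by ring)
    have : Nonempty ℤ := ⟨0⟩
    exact ⟨fun i j => (key i).symm.trans (key j)⟩
  refine TG.isTree_of_sep hc ?_
  intro a b hab
  rcases hab with h | h
  · refine ⟨{x | x ≤ a}, le_refl a, ?_, ?_⟩
    · intro (h1 : b ≤ a); omega
    · rintro x y (h1 | h1) (h2 : x ≤ a) h3
      · have h4 : ¬ y ≤ a := h3
        constructor <;> omega
      · have h4 : ¬ y ≤ a := h3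
        omega
  · refine ⟨{x | a ≤ x}, le_refl a, ?_, ?_⟩
    · intro (h1 : a ≤ b); omega
    · rintro x y (h1 | h1) (h2 : a ≤ x) h3
      · have h4 : ¬ a ≤ y := h3
        omega
      · have h4 : ¬ a ≤ y := h3
        constructor <;> omega

/-- the line with action by translations -/
def K08_lineT (N : Subgroup Γ) (φ : Γ → ℤ) (h1 : φ 1 = 0)
    (h : ∀ m ∈ N, ∀ m' ∈ N, φ (m * m') = φ m + φ m') : MTree N where
  X := ℤ
  G := K08_lineG
  tree := K08_lineG_tree
  act := fun m i => i + φ m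
  act_one := fun x => by rw [h1, add_zero]
  act_mul := fun m hm m' hm' x => by rw [h m hm m' hm']; ring
  act_adj := fun m _ x y hxy => by
    rcases hxy with hxy | hxy
    · exact Or.inl (by rw [hxy]; ring)
    · exact Or.inr (by rw [hxy]; ring)

theorem K08_zpow {N : Subgroup Γ} {φ : Γ → ℤ} (h1 : φ 1 = 0)
    (h : ∀ m ∈ N, ∀ m' ∈ N, φ (m * m') = φ m + φ m') {a : Γ} (ha : a ∈ N) (k : ℤ) :
    φ (a ^ k) = k * φ a := by
  induction k using Int.induction_on with
  | zero => simp [h1]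
  | succ n ih =>
    rw [zpow_add_one, h _ (N.zpow_mem ha _) _ ha, ih]
    ring
  | pred n ih =>
    have h2 := h (a ^ (-(n : ℤ) - 1)) (N.zpow_mem ha _) a ha
    rw [← zpow_add_one, sub_add_cancel, ih] at h2
    linarith

theorem KData.k43 (hc : Ctx π) {M : Subgroup Γ} {g : G} (hM : Cyc π M g) {Ω : Set (Subgroup Γ)}
    (hΩ : IsProper π.ker M Ω) (D : KData π M g Ω) :
    ∃ w1, D.S.G.Adj D.v w1 ∧ D.S.act D.P w1 ≠ w1 := by
  classical
  by_contra hcon
  push Not at hcon
  have hPM : D.P ∈ M := D.hP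
  have hPs : D.P ∈ D.S.stab D.v := ⟨hPM, D.hPe.1⟩
  have hPhyp : D.U.Hyp D.P := D.U.hyp_of_axis hPs D.hL
  have hN : Cyc π (D.S.stab D.v) g := hM.stab hc D.hS D.hSmin.1 D.hv
  -- `A` centralises `P`
  have hAP : ∀ a ∈ D.S.stab D.v ⊓ π.ker, a * D.P = D.P * a := by
    intro a ha
    have haM : a ∈ M := ha.1.1
    have hav : D.S.act a D.v = D.v := ha.1.2
    have haπ : π a = 1 := ha.2
    have hadj : D.S.G.Adj D.v (D.S.act a D.w) := by
      have := D.S.act_adj a haM _ _ D.hw
      rwa [hav] at this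
    refine D.hS.eq_of_agree (M.mul_mem haM hPM) (M.mul_mem hPM haM) ?_ D.hw ?_ ?_
    · rw [map_mul, map_mul, haπ, one_mul, mul_one]
    · rw [D.S.act_mul _ haM _ hPM, D.S.act_mul _ hPM _ haM, D.hPe.1, hav, D.hPe.1]
    · rw [D.S.act_mul _ haM _ hPM, D.S.act_mul _ hPM _ haM, D.hPe.2, hcon _ hadj]
  have hNP : ∀ m ∈ D.S.stab D.v, m * D.P = D.P * m := by
    intro m hm
    obtain ⟨x, i, hx, rfl⟩ := hN.exists_dec hPs D.hPg hm
    have h1 := hAP x hx
    calc x * D.P ^ i * D.P = (x * D.P) * D.P ^ i := by group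
      _ = D.P * (x * D.P ^ i) := by rw [h1]; group
  have hcex : ∀ m, ∃ c : ℤ, m ∈ D.S.stab D.v → ∀ i, D.U.act m (D.L i) = D.L (i + c) := by
    intro m
    by_cases hm : m ∈ D.S.stab D.v
    · obtain ⟨c, hcm⟩ := D.U.comm_axis hPs hm D.hL (hNP m hm)
      exact ⟨c, fun _ => hcm⟩
    · exact ⟨0, fun h => absurd h hm⟩
  choose c hcm using hcex
  have hline : D.U.IsLine D.L := D.hL.2.1
  have hcadd : ∀ m ∈ D.S.stab D.v, ∀ m' ∈ D.S.stab D.v, c (m * m') = c m + c m' := by
    intro m hm m' hm'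
    have h1 := hcm (m * m') ((D.S.stab D.v).mul_mem hm hm') 0
    rw [D.U.act_mul _ hm _ hm', hcm m' hm', hcm m hm] at h1
    have := TG.line_inj hline h1
    linarith
  have hcP : c D.P = D.l := by
    have h1 := hcm D.P hPs 0
    rw [D.hL.2.2] at h1
    have := TG.line_inj hline h1
    linarith
  obtain ⟨e, he1, he2, he3, he4⟩ := hN.exists_exp hc
  have hg : g ≠ 1 := by
    rintro rfl
    have h1 : D.P = 1 := D.hS.free _ ⟨hPM, D.hPg⟩ _ _ D.hw D.hPe.1 D.hPe.2
    exact hPhyp (D.L 0) (by rw [h1, D.U.act_one])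
  have heP : e D.P = 1 := he4 hg _ hPs D.hPg
  set φ : Γ → ℤ := fun m => c m - D.l * e m with hφ
  have hφadd : ∀ m ∈ D.S.stab D.v, ∀ m' ∈ D.S.stab D.v, φ (m * m') = φ m + φ m' := by
    intro m hm m' hm'
    simp only [hφ]
    rw [hcadd m hm m' hm', he2 m hm m' hm']
    ring
  have hφ1 : φ 1 = 0 := by
    have := hφadd 1 (Subgroup.one_mem _) 1 (Subgroup.one_mem _)
    rw [mul_one] at this
    linarith
  have hφP : φ D.P = 0 := by
    simp only [hφ]
    rw [hcP, heP]
    ring
  have hφinj : ∀ h ∈ D.S.stab D.v ⊓ π.ker, φ h = 0 → h = 1 := by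
    intro h hh h0
    have h1 : c h = 0 := by
      simp only [hφ] at h0
      rw [he3 h hh] at h0
      linarith
    have h2 := hcm h hh.1 0
    have h3 := hcm h hh.1 (0 + 1)
    rw [h1, add_zero] at h2 h3
    have hadj : D.U.G.Adj (D.L 0) (D.L (0 + 1)) := by
      rw [← SimpleGraph.dist_eq_one_iff_adj, hline]
      omega
    exact D.hU.free h hh _ _ hadj h2 h3
  obtain ⟨a, ha, ha1⟩ : ∃ a ∈ D.S.stab D.v ⊓ π.ker, a ≠ 1 := by
    by_contra hno
    push Not at hno
    exact D.hv ((Subgroup.eq_bot_iff_forall _).2 hno)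
  have hφa : φ a ≠ 0 := fun h => ha1 (hφinj a ha h)
  let U' : MTree (D.S.stab D.v) := K08_lineT (D.S.stab D.v) φ hφ1 hφadd
  have hU' : U'.IsSplitting π.ker := by
    refine ⟨?_, ?_, ?_⟩
    · intro h hh (x : ℤ) (y : ℤ) _ (hx' : x + φ h = x) _
      exact hφinj h hh (by linarith)
    · intro m hm (x : ℤ) (y : ℤ) _
      obtain ⟨z, i, hz, rfl⟩ := hN.exists_dec hPs D.hPg hm
      have h1 : φ (z * D.P ^ i) = φ z := by
        rw [hφadd _ hz.1 _ ((D.S.stab D.v).zpow_mem hPs i), K08_zpow hφ1 hφadd hPs, hφP, mul_zero,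
          add_zero]
      refine ⟨z, hz, ?_, ?_⟩
      · show x + φ z = x + φ (z * D.P ^ i)
        rw [h1]
      · show y + φ z = y + φ (z * D.P ^ i)
        rw [h1]
    · refine ⟨(Finset.Icc (-(|φ a| + 1)) (|φ a| + 1) ×ˢ Finset.Icc (-(|φ a| + 1)) (|φ a| + 1) :
        Finset (ℤ × ℤ)), ?_⟩
      intro (x : ℤ) (y : ℤ) hxy
      have hxy' : y = x + 1 ∨ x = y + 1 := hxy
      refine ⟨a ^ (-((x : ℤ) / φ a)), (D.S.stab D.v ⊓ π.ker).zpow_mem ha _, ?_⟩
      have h1 : φ (a ^ (-((x : ℤ) / φ a))) = -((x : ℤ) / φ a) * φ a := K08_zpow hφ1 hφadd ha.1 _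
      have h2 : (x : ℤ) + φ (a ^ (-((x : ℤ) / φ a))) = (x : ℤ) % φ a := by
        rw [h1]
        have := Int.ediv_mul_add_emod (x : ℤ) (φ a)
        linarith
      have h3 := Int.emod_nonneg (x : ℤ) hφa
      have h4 := Int.emod_lt_abs (x : ℤ) hφa
      have h5 : (y : ℤ) + φ (a ^ (-((x : ℤ) / φ a))) = (x : ℤ) % φ a + (y - x) := by
        rw [← h2]; ring
      suffices h6 : (((x : ℤ) + φ (a ^ (-((x : ℤ) / φ a))), (y : ℤ) + φ (a ^ (-((x : ℤ) / φ a)))) : ℤ × ℤ) ∈
          (Finset.Icc (-(|φ a| + 1)) (|φ a| + 1) ×ˢ Finset.Icc (-(|φ a| + 1)) (|φ a| + 1) :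
          Finset (ℤ × ℤ)) from h6
      rw [h2, h5, Finset.mem_product]
      constructor
      · rw [Finset.mem_Icc]
        constructor
        · show -(|φ a| + 1) ≤ (x : ℤ) % φ a
          linarith
        · show (x : ℤ) % φ a ≤ |φ a| + 1
          linarith
      · rw [Finset.mem_Icc]
        constructor
        · show -(|φ a| + 1) ≤ (x : ℤ) % φ a + (y - x)
          have := abs_nonneg (φ a)
          rcases hxy' with h | h <;> linarith
        · show (x : ℤ) % φ a + (y - x) ≤ |φ a| + 1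
          rcases hxy' with h | h <;> linarith
  have hN' : U'.Nontriv π.ker := by
    intro (x : ℤ)
    refine ⟨a, ha, ?_⟩
    intro (h : x + φ a = x)
    exact hφa (by linarith)
  obtain ⟨w', Q, hw', hQM, hQg, hQf, hQh⟩ := D.hM U' hU' hN'
  have hQP : Q = D.P :=
    D.hS.eq_of_agree hQM hPM (hQg.trans D.hPg.symm) hw' (by rw [hQf.1, D.hPe.1])
      (by rw [hQf.2, hcon w' hw'])
  rw [hQP] at hQh
  refine hQh (0 : ℤ) ?_
  show (0 : ℤ) + φ D.P = 0
  rw [hφP, add_zero]

end Pool.Agent.Lib.MP_6567fb_al
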