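import Pool.Agent.Lib.MP_6567fb_al.K00a

/-!
# MP_6567fb_al, module K09

Q P⁻¹ ∈ B (lift_diff) and fixes v, so it is in B ⊓ A.  If Q ≠ P then B ⊓ A ∈ resFam Ω A, it fixes a vertex u of U (hUrel), unique (fixed_unique for U, which is
a splitting of S.stab v).  P normalises B ⊓ A (P B P⁻¹ = B, P A P⁻¹ = A since P ∈ S.stab v), so P u = u: contradiction to hyp_of_axis.
-/

set_option autoImplicit false

open scoped Pointwise

namespace Pool.Agent.Lib.MP_6567fb_al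

open MTree

variable {Γ G : Type} [Group Γ] [Group G] {π : Γ →* G}

theorem KData.same_lift (hc : Ctx π) {M : Subgroup Γ} {g : G} (hM : Cyc π M g) {Ω : Set (Subgroup Γ)}
    (hΩ : IsProper π.ker M Ω) (D : KData π M g Ω) {Q : Γ} (hQ : Q ∈ D.S.stab D.v) (hQg : π Q = g)
    {B : Subgroup Γ} (hB : B ∈ Ω) (hPB : MulAut.conj D.P • B = B) (hQB : MulAut.conj Q • B = B) :
    Q = D.P := by
  by_contra hne
  have hPM := D.hP
  have hQM : Q ∈ M := hQ.1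
  have hPs : D.P ∈ D.S.stab D.v := ⟨hPM, D.hPe.1⟩
  have hz1 : Q * D.P⁻¹ ∈ B := lift_diff hΩ.periph hB hPM hQM (D.hPg.trans hQg.symm) hPB hQB
  have hz2 : Q * D.P⁻¹ ∈ D.S.stab D.v := (D.S.stab D.v).mul_mem hQ ((D.S.stab D.v).inv_mem hPs)
  have hz3 : Q * D.P⁻¹ ∈ π.ker := by
    show π (Q * D.P⁻¹) = 1
    rw [map_mul, map_inv, hQg, D.hPg, mul_inv_cancel]
  have hz0 : Q * D.P⁻¹ ≠ 1 := fun h => hne (mul_inv_eq_one.1 h)
  have hE : B ⊓ (D.S.stab D.v ⊓ π.ker) ∈ resFam Ω (D.S.stab D.v ⊓ π.ker) := by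
    refine ⟨?_, B, hB, rfl⟩
    intro h
    apply hz0
    have : Q * D.P⁻¹ ∈ B ⊓ (D.S.stab D.v ⊓ π.ker) := ⟨hz1, hz2, hz3⟩
    rw [h] at this
    exact this
  obtain ⟨u, hu⟩ := D.hUrel _ hE
  have hzu : D.U.act (Q * D.P⁻¹) u = u := hu _ ⟨hz1, hz2, hz3⟩
  -- the conjugate
  have hw1 : D.P⁻¹ * (Q * D.P⁻¹) * D.P ∈ B := by
    have h1 : D.P⁻¹ * (Q * D.P⁻¹) * D.P ∈ (MulAut.conj D.P)⁻¹ • B := by
      rw [Subgroup.mem_inv_pointwise_smul_iff, MulAut.smul_def, MulAut.conj_apply]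
      have : D.P * (D.P⁻¹ * (Q * D.P⁻¹) * D.P) * D.P⁻¹ = Q * D.P⁻¹ := by group
      rw [this]
      exact hz1
    have h2 : (MulAut.conj D.P)⁻¹ • B = B := by
      conv_lhs => rw [← hPB]
      rw [inv_smul_smul]
    rwa [h2] at h1
  have hw2 : D.P⁻¹ * (Q * D.P⁻¹) * D.P ∈ D.S.stab D.v :=
    (D.S.stab D.v).mul_mem ((D.S.stab D.v).mul_mem ((D.S.stab D.v).inv_mem hPs) hz2) hPs
  have hw3 : D.P⁻¹ * (Q * D.P⁻¹) * D.P ∈ π.ker := by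
    have h3 : π (Q * D.P⁻¹) = 1 := hz3
    show π (D.P⁻¹ * (Q * D.P⁻¹) * D.P) = 1
    rw [map_mul, map_mul, h3, mul_one, map_inv, inv_mul_cancel]
  have hwu : D.U.act (D.P⁻¹ * (Q * D.P⁻¹) * D.P) u = u := hu _ ⟨hw1, hw2, hw3⟩
  have hzPu : D.U.act (Q * D.P⁻¹) (D.U.act D.P u) = D.U.act D.P u := by
    rw [← D.U.act_mul _ hz2 _ hPs]
    have e : Q * D.P⁻¹ * D.P = D.P * (D.P⁻¹ * (Q * D.P⁻¹) * D.P) := by group
    rw [e, D.U.act_mul _ hPs _ hw2, hwu]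
  have := D.hU.fixed_unique ⟨hz2, hz3⟩ hz0 hzPu hzu
  exact D.U.hyp_of_axis hPs D.hL u this

end Pool.Agent.Lib.MP_6567fb_al
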