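import Pool.Agent.Lib.MP_6567fb_al.Defs5
import Pool.Agent.Lib.MP_6567fb_al.T10b
import Pool.Agent.Lib.MP_6567fb_al.T10c

/-!
# MP_6567fb_al, module K10s

Star blow up (used in K10 and K13).  The vertex trees are the stars on `Option {c : C // v = p}` (a point for `v ≠ p`).
-/

set_option autoImplicit false

open scoped Pointwise

namespace Pool.Agent.Lib.MP_6567fb_al

open MTree
variable {Γ G : Type} [Group Γ] [Group G] {π : Γ →* G}

namespace K10s

/-- the star with centre `none` -/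
def starG (D : Type) : SimpleGraph (Option D) where
  Adj a b := (a = none ∧ b ≠ none) ∨ (a ≠ none ∧ b = none)
  symm := ⟨fun _ _ h => h.elim (fun h => Or.inr ⟨h.2, h.1⟩) (fun h => Or.inl ⟨h.2, h.1⟩)⟩
  loopless := ⟨fun _ h => h.elim (fun h => h.2 h.1) (fun h => h.1 h.2)⟩

theorem starG_adj {D : Type} {a b : Option D} :
    (starG D).Adj a b ↔ (a = none ∧ b ≠ none) ∨ (a ≠ none ∧ b = none) := Iff.rfl

theorem starG_conn (D : Type) : (starG D).Connected := by
  have h : ∀ a : Option D, (starG D).Reachable none a := by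
    intro a
    cases a with
    | none => exact SimpleGraph.Reachable.refl _
    | some c => exact SimpleGraph.Adj.reachable (Or.inl ⟨rfl, by simp⟩)
  have hne : Nonempty (Option D) := ⟨none⟩
  exact SimpleGraph.Connected.mk (fun a b => (h a).symm.trans (h b))

theorem starG_tree (D : Type) : (starG D).IsTree := by
  apply TG.isTree_of_sep (starG_conn D)
  rintro a b (⟨ha, hb⟩ | ⟨ha, hb⟩)
  · refine ⟨{x | x ≠ b}, fun h => hb (h ▸ ha), fun h => h rfl, ?_⟩
    intro x y hxy hx hy
    have hy' : y = b := by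
      by_contra h
      exact hy h
    refine ⟨?_, hy'⟩
    rw [ha]
    rcases hxy with ⟨h1, _⟩ | ⟨_, h2⟩
    · exact h1
    · exact absurd (hy' ▸ h2) hb
  · refine ⟨{x | x = a}, rfl, fun h => ha (h.symm.trans hb), ?_⟩
    intro x y hxy hx hy
    refine ⟨hx, ?_⟩
    rw [hb]
    rcases hxy with ⟨h1, _⟩ | ⟨_, h2⟩
    · exact absurd (hx.symm.trans h1) ha
    · exact h2

theorem map_ne_none {D : Type} (f : D → D) {a : Option D} (h : a ≠ none) : Option.map f a ≠ none := by
  cases a with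
  | none => exact absurd rfl h
  | some c => simp

/-- the vertex trees -/
def starU {M : Subgroup Γ} (B : MTree M) (p : B.X) (C : Type) (ac : Γ → C → C)
    (h1 : ∀ c, ac 1 c = c)
    (hmul : ∀ s ∈ B.stab p, ∀ s' ∈ B.stab p, ∀ c, ac (s * s') c = ac s (ac s' c)) (v : B.X) :
    MTree (B.stab v) where
  X := Option {_c : C // v = p}
  G := starG {_c : C // v = p}
  tree := starG_tree _
  act := fun m => Option.map (fun c => ⟨ac m c.1, c.2⟩)
  act_one := by
    intro x
    cases x with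
    | none => rfl
    | some c =>
      obtain ⟨c, h⟩ := c
      simp [h1]
  act_mul := by
    intro m hm m' hm' x
    cases x with
    | none => rfl
    | some c =>
      obtain ⟨c, h⟩ := c
      subst h
      simp [hmul m hm m' hm' c]
  act_adj := by
    rintro m _ x y (⟨h2, h3⟩ | ⟨h2, h3⟩)
    · exact Or.inl ⟨by rw [h2]; rfl, map_ne_none _ h3⟩
    · exact Or.inr ⟨map_ne_none _ h2, by rw [h3]; rfl⟩

open Classical in
/-- the attaching maps -/
noncomputable def starAtt {M : Subgroup Γ} (B : MTree M) (p : B.X) (C : Type)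
    (col : B.X → Option C) (v w : B.X) : Option {_c : C // v = p} :=
  (col w).bind (fun c => if h : v = p then some ⟨c, h⟩ else none)

theorem starAtt_self {M : Subgroup Γ} (B : MTree M) (p : B.X) (C : Type)
    (col : B.X → Option C) (w : B.X) :
    starAtt B p C col p w = (col w).map (fun c => ⟨c, rfl⟩) := by
  unfold starAtt
  cases col w with
  | none => rfl
  | some c => simp

theorem starAtt_act {M : Subgroup Γ} (B : MTree M) (p : B.X) (C : Type) (ac : Γ → C → C)
    (col : B.X → Option C) (v w : B.X) (m : Γ)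
    (hcol : v = p → col (B.act m w) = (col w).map (ac m)) :
    starAtt B p C col v (B.act m w) =
      Option.map (fun c => ⟨ac m c.1, c.2⟩) (starAtt B p C col v w) := by
  by_cases h : v = p
  · subst h
    rw [starAtt_self, starAtt_self, hcol rfl]
    cases col w with
    | none => rfl
    | some c => rfl
  · unfold starAtt
    cases col (B.act m w) <;> cases col w <;> simp [h]

/-- the data produced by `blowup_exists` -/
structure Data {M : Subgroup Γ} (B : MTree M) (p : B.X) (C : Type) (ac : Γ → C → C)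
    (col : B.X → Option C) (T : MTree M) (pr : T.X → B.X) (R : Set B.X) where
  ι : ∀ v : B.X, Option {_c : C // v = p} → T.X
  blow : IsBlowup T B pr
  pR : p ∈ R
  rep : ∀ v, ∃ r ∈ R, ∃ m ∈ M, B.act m r = v
  uniq : ∀ r ∈ R, ∀ r' ∈ R, ∀ m ∈ M, B.act m r = r' → r = r'
  inj : ∀ v ∈ R, Function.Injective (ι v)
  adj : ∀ v ∈ R, ∀ u u', T.G.Adj (ι v u) (ι v u') ↔ (starG {_c : C // v = p}).Adj u u'
  equi : ∀ v ∈ R, ∀ m ∈ B.stab v, ∀ u, ι v (Option.map (fun c => ⟨ac m c.1, c.2⟩) u) = T.act m (ι v u)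
  range : ∀ v ∈ R, Set.range (ι v) = pr ⁻¹' {v}
  att : ∀ w, B.G.Adj p w → ∃ z, pr z = w ∧ T.G.Adj (ι p ((col w).map (fun c => ⟨c, rfl⟩))) z

theorem exists_data {M : Subgroup Γ} (B : MTree M) (p : B.X) (C : Type) (ac : Γ → C → C)
    (col : B.X → Option C) (h1 : ∀ c, ac 1 c = c)
    (hmul : ∀ s ∈ B.stab p, ∀ s' ∈ B.stab p, ∀ c, ac (s * s') c = ac s (ac s' c))
    (hcol : ∀ s ∈ B.stab p, ∀ w, B.G.Adj p w → col (B.act s w) = (col w).map (ac s)) :
    ∃ (T : MTree M) (pr : T.X → B.X) (R : Set B.X), Nonempty (Data B p C ac col T pr R) := by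
  obtain ⟨R, hpR, hR⟩ := B.exists_reps p
  obtain ⟨T, pr, ι, hb, hι⟩ := B.blowup_exists R hR (starU B p C ac h1 hmul)
    (starAtt B p C col) (by
      intro v _ m hm w hw
      exact starAtt_act B p C ac col v w m (fun h => by subst h; exact hcol m hm w hw))
  refine ⟨T, pr, R, ⟨⟨ι, hb, hpR, ?_, ?_, ?_, ?_, ?_, ?_, ?_⟩⟩⟩
  · intro v
    obtain ⟨r, ⟨hr, m, hm, h⟩, _⟩ := hR v
    exact ⟨r, hr, m, hm, h⟩
  · intro r hr r' hr' m hm h
    obtain ⟨r'', _, hun⟩ := hR r'
    rw [hun r ⟨hr, m, hm, h⟩, hun r' ⟨hr', 1, M.one_mem, B.act_one r'⟩]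
  · intro v hv
    exact (hι v hv).1.inj
  · intro v hv u u'
    have hd := (hι v hv).1.dist u u'
    rw [← SimpleGraph.dist_eq_one_iff_adj, ← SimpleGraph.dist_eq_one_iff_adj]
    rw [hd]
    rfl
  · intro v hv m hm u
    exact (hι v hv).1.equi m hm u
  · intro v hv
    exact (hι v hv).2.1
  · intro w hw
    obtain ⟨z, hz, hz'⟩ := (hι p hpR).2.2 w hw
    refine ⟨z, hz, ?_⟩
    rw [starAtt_self] at hz'
    exact hz'

end K10s

open K10s in
theorem star_exists {M : Subgroup Γ} (B : MTree M) (p : B.X) (C : Type) (ac : Γ → C → C)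
    (col : B.X → Option C) (h1 : ∀ c, ac 1 c = c)
    (hmul : ∀ s ∈ B.stab p, ∀ s' ∈ B.stab p, ∀ c, ac (s * s') c = ac s (ac s' c))
    (hcol : ∀ s ∈ B.stab p, ∀ w, B.G.Adj p w → col (B.act s w) = (col w).map (ac s)) :
    Nonempty (StarTree B p C ac col) := by
  obtain ⟨T, pr, R, ⟨D⟩⟩ := exists_data B p C ac col h1 hmul hcol
  -- centre of the fibre
  have hex : ∀ z, ∃ t, ∀ r ∈ R, ∀ n ∈ M, B.act n r = z → t = T.act n (D.ι r none) := by
    intro z
    obtain ⟨r, hr, m, hm, hz⟩ := D.rep z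
    refine ⟨T.act m (D.ι r none), ?_⟩
    intro r' hr' n hn hz'
    have h2 : B.act (n⁻¹ * m) r = r' := by
      rw [B.act_mul _ (M.inv_mem hn) _ hm, hz, ← hz']
      exact B.act_inv_act hn r'
    have h3 : r = r' := D.uniq r hr r' hr' _ (M.mul_mem (M.inv_mem hn) hm) h2
    subst h3
    have h4 := D.equi r hr (n⁻¹ * m) ⟨M.mul_mem (M.inv_mem hn) hm, h2⟩ none
    rw [T.act_mul _ (M.inv_mem hn) _ hm] at h4
    have h5 : T.act n (D.ι r none) = T.act n (T.act n⁻¹ (T.act m (D.ι r none))) := by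
      rw [← h4]; rfl
    rw [h5, T.act_act_inv hn]
  choose ctr hctr using hex
  have hctr' : ∀ r ∈ R, ∀ n ∈ M, ctr (B.act n r) = T.act n (D.ι r none) :=
    fun r hr n hn => hctr _ r hr n hn rfl
  have hprι : ∀ v ∈ R, ∀ u, pr (D.ι v u) = v := by
    intro v hv u
    have h2 : D.ι v u ∈ pr ⁻¹' {v} := by
      rw [← D.range v hv]
      exact ⟨u, rfl⟩
    exact h2
  have hprc : ∀ z, pr (ctr z) = z := by
    intro z
    obtain ⟨r, hr, m, hm, hz⟩ := D.rep z
    rw [← hz, hctr' r hr m hm, D.blow.equi m hm, hprι r hr]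
  have hprl : ∀ x ∈ M, ∀ u, pr (T.act x (D.ι p u)) = B.act x p := by
    intro x hx u
    rw [D.blow.equi x hx, hprι p D.pR]
  have hctrp : ∀ x ∈ M, ctr (B.act x p) = T.act x (D.ι p none) := fun x hx => hctr' p D.pR x hx
  -- every vertex
  have hvert : ∀ t, ∃ r ∈ R, ∃ m ∈ M, ∃ u, B.act m r = pr t ∧ t = T.act m (D.ι r u) := by
    intro t
    obtain ⟨r, hr, m, hm, hz⟩ := D.rep (pr t)
    have h2 : T.act m⁻¹ t ∈ Set.range (D.ι r) := by
      rw [D.range r hr]
      change pr (T.act m⁻¹ t) = r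
      rw [D.blow.equi _ (M.inv_mem hm), ← hz, B.act_inv_act hm]
    obtain ⟨u, hu⟩ := h2
    exact ⟨r, hr, m, hm, u, hz, by rw [hu, T.act_act_inv hm]⟩
  refine ⟨{
    T := T
    pr := pr
    blow := D.blow
    ctr := ctr
    leaf := fun x c => T.act x (D.ι p (some ⟨c, rfl⟩))
    pr_ctr := hprc
    pr_leaf := fun x hx c => hprl x hx _
    ctr_equi := ?_
    leaf_equi := fun m hm x hx c => (T.act_mul m hm x hx _).symm
    leaf_stab := ?_
    leaf_inj := ?_
    ctr_ne_leaf := ?_
    vert := ?_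
    adj_leaf := ?_
    adj_fib := ?_
    end_leaf := ?_ }⟩
  · intro m hm z
    obtain ⟨r, hr, n, hn, hz⟩ := D.rep z
    rw [← hz, hctr' r hr n hn, ← B.act_mul m hm n hn, hctr' r hr _ (M.mul_mem hm hn),
      T.act_mul m hm n hn]
  · intro x hx s hs c
    rw [T.act_mul x hx s hs.1, ← D.equi p D.pR s hs]
    rfl
  · intro x hx c c' h
    have h2 := D.inj p D.pR (T.act_inj hx h)
    have h3 := Option.some.inj h2
    exact congrArg Subtype.val h3
  · intro z x hx c h
    have h2 : z = B.act x p := by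
      rw [← hprc z, h]
      exact hprl x hx _
    rw [h2, hctrp x hx] at h
    have h3 := D.inj p D.pR (T.act_inj hx h)
    exact absurd h3.symm (Option.some_ne_none _)
  · intro t
    obtain ⟨r, hr, m, hm, u, hz, ht⟩ := hvert t
    cases u with
    | none => exact Or.inl ⟨B.act m r, by rw [hctr' r hr m hm]; exact ht⟩
    | some c =>
      obtain ⟨c, h⟩ := c
      subst h
      exact Or.inr ⟨m, hm, c, ht⟩
  · intro x hx c
    rw [hctrp x hx, T.adj_act_iff hx, D.adj p D.pR]
    exact Or.inl ⟨rfl, by simp⟩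
  · intro a b hab hpr
    obtain ⟨r, hr, m, hm, u, hz, ha⟩ := hvert a
    obtain ⟨u', hb⟩ : ∃ u', b = T.act m (D.ι r u') := by
      have h2 : T.act m⁻¹ b ∈ Set.range (D.ι r) := by
        rw [D.range r hr]
        change pr (T.act m⁻¹ b) = r
        rw [D.blow.equi _ (M.inv_mem hm), ← hpr, ← hz, B.act_inv_act hm]
      obtain ⟨u', hu'⟩ := h2
      exact ⟨u', by rw [hu', T.act_act_inv hm]⟩
    rw [ha, hb, T.adj_act_iff hm, D.adj r hr] at hab
    rcases hab with ⟨h2, h3⟩ | ⟨h2, h3⟩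
    · cases u' with
      | none => exact absurd rfl h3
      | some c =>
        obtain ⟨c, h⟩ := c
        subst h
        refine ⟨m, hm, c, Or.inl ⟨?_, hb⟩⟩
        rw [hctrp m hm, ha, h2]
    · cases u with
      | none => exact absurd rfl h2
      | some c =>
        obtain ⟨c, h⟩ := c
        subst h
        refine ⟨m, hm, c, Or.inr ⟨?_, ha⟩⟩
        rw [hctrp m hm, hb, h3]
  · intro a b hab hne x hx hpa c
    have hx' := M.inv_mem hx
    have h2 : T.G.Adj (T.act x⁻¹ a) (T.act x⁻¹ b) := T.act_adj _ hx' _ _ hab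
    have h3 : pr (T.act x⁻¹ a) = p := by
      rw [D.blow.equi _ hx', hpa, B.act_inv_act hx]
    have h4 : pr (T.act x⁻¹ b) = B.act x⁻¹ (pr b) := D.blow.equi _ hx' _
    have h5 : B.G.Adj p (B.act x⁻¹ (pr b)) := by
      rcases D.blow.adj _ _ h2 with h | h
      · exfalso
        apply hne
        rw [D.blow.equi _ hx', D.blow.equi _ hx'] at h
        exact B.act_inj hx' h
      · rw [h3, h4] at h
        exact h
    obtain ⟨z, hz, hz'⟩ := D.att _ h5
    have h6 : T.act x⁻¹ a = D.ι p ((col (B.act x⁻¹ (pr b))).map (fun c => ⟨c, rfl⟩)) := by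
      obtain ⟨e, _, hun⟩ := D.blow.lift _ _ h5
      have e1 := hun (T.act x⁻¹ a, T.act x⁻¹ b) ⟨h2, h3, h4⟩
      have e2 := hun (D.ι p ((col (B.act x⁻¹ (pr b))).map (fun c => ⟨c, rfl⟩)), z)
        ⟨hz', hprι p D.pR _, hz⟩
      exact congrArg Prod.fst (e1.trans e2.symm)
    constructor
    · intro h
      have h7 : T.act x⁻¹ a = D.ι p (some ⟨c, rfl⟩) := by
        rw [h, T.act_inv_act hx]
      rw [h6] at h7
      have h8 := D.inj p D.pR h7
      cases hc : col (B.act x⁻¹ (pr b)) with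
      | none =>
        rw [hc] at h8
        exact absurd h8.symm (Option.some_ne_none _)
      | some c' =>
        rw [hc] at h8
        have h9 := Option.some.inj h8
        have h10 : c' = c := congrArg Subtype.val h9
        rw [h10]
    · intro h
      rw [h] at h6
      have h7 : T.act x (T.act x⁻¹ a) = T.act x (D.ι p (some ⟨c, rfl⟩)) := by
        rw [h6]; rfl
      rwa [T.act_act_inv hx] at h7

end Pool.Agent.Lib.MP_6567fb_al
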