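import Pool.Agent.Lib.MP_6567fb_al.K00a
import Pool.Agent.Lib.MP_6567fb_al.K10s
import Pool.Agent.Lib.MP_6567fb_al.T11

/-!
# MP_6567fb_al, module K10

Cut tree.  C := {Q // ∃ m ∈ S.stab v, Q = m P m⁻¹}, ac m Q := m Q m⁻¹ (if m ∈ S.stab v), col w := some Q if some Q ∈ C fixes w (for a neighbour w of v it is the lift of g fixing (v,w): unique), none otherwise.
star_exists.  Collapse (T11) all edges x, y of the star tree with pr x ≠ pr y (K := fibre edges): T, q.  κ z := q (ctr z), ℓ x := q (leaf x P).  Every leaf is leaf x Q = leaf (x m) P with Q = m P m⁻¹.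
edge: adj_fib and IsBlowup.lift of q.  eq_iff, orient: uniqueness of the lift of an edge (IsBlowup.lift for q), leaf_inj, ctr_ne_leaf: (ctr (x v), leaf x P) = (ctr (x' v), leaf x' P) iff x v = x' v and, x' = x s, s P s⁻¹ = P.
beyond: IsBlowup.beyond for q: T.Beyond (κ (x v)) (ℓ x) (κ z) iff StarTree.T.Beyond (ctr (x v)) (leaf x P) (ctr z) iff (for z ≠ x v) the edge over (x v, w'), w' the first vertex on [x v, z], starts at the leaf
leaf x P iff col (x⁻¹ w') = some P iff x P x⁻¹ fixes w'.  (For z ≠ x v the geodesic from ctr (x v) to ctr z leaves the fibre over x v through the edge over (x v, w'); IsBlowup.beyond for pr.)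
-/

set_option autoImplicit false

open scoped Pointwise

namespace Pool.Agent.Lib.MP_6567fb_al

open MTree

variable {Γ G : Type} [Group Γ] [Group G] {π : Γ →* G}

/-- a point beyond an edge sees the points before the edge through its first vertex -/
theorem K10_cross {X : Type} {G : SimpleGraph X} (hG : G.IsTree) {a b p z : X} (hab : G.Adj a b)
    (hp : ¬ TG.Beyond G a b p) (hz : TG.Beyond G a b z) :
    G.dist p z = G.dist p a + G.dist a z := by
  have h1 : TG.Btw G b a p := (TG.not_beyond_iff_btw hG hab p).1 hp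
  have h2 : TG.Btw G a b z := (TG.beyond_iff_btw hG hab z).1 hz
  have h3 := (TG.btw_glue hG (TG.btw_symm hG h1) h2 hab.ne).1
  exact h3.symm

/-- the set of conjugates of `P` under the stabiliser -/
abbrev K10C {M : Subgroup Γ} (S : MTree M) (v : S.X) (P : Γ) : Type :=
  {Q : Γ // ∃ m ∈ S.stab v, Q = m * P * m⁻¹}

open Classical in
/-- conjugation action on the leaves -/
noncomputable def K10ac {M : Subgroup Γ} (S : MTree M) (v : S.X) (P : Γ) (m : Γ) (Q : K10C S v P) :
    K10C S v P :=
  if h : m ∈ S.stab v then ⟨m * Q.1 * m⁻¹, by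
    obtain ⟨n, hn, hQ⟩ := Q.2
    exact ⟨m * n, (S.stab v).mul_mem h hn, by rw [hQ]; group⟩⟩ else Q

open Classical in
/-- colour of an edge at `v` -/
noncomputable def K10col {M : Subgroup Γ} (S : MTree M) (v : S.X) (P : Γ) (w : S.X) :
    Option (K10C S v P) :=
  if h : ∃ Q : K10C S v P, S.act Q.1 w = w then some h.choose else none

theorem K10_ac_val {M : Subgroup Γ} (S : MTree M) (v : S.X) (P : Γ) {m : Γ} (hm : m ∈ S.stab v)
    (Q : K10C S v P) : (K10ac S v P m Q).1 = m * Q.1 * m⁻¹ := by
  unfold K10ac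
  rw [dif_pos hm]

section
variable {M : Subgroup Γ} {g : G} (hM : Cyc π M g) {S : MTree M}
    (hS : S.IsSplitting π.ker) {v : S.X} {P : Γ} (hP : P ∈ M) (hPg : π P = g) (hPv : S.act P v = v)
include hM hS hP hPg hPv

theorem K10_C (Q : K10C S v P) : Q.1 ∈ M ∧ π Q.1 = g ∧ S.act Q.1 v = v := by
  obtain ⟨m, hm, hQ⟩ := Q.2
  have h1 : Q.1 ∈ S.stab v := by
    rw [hQ]
    exact (S.stab v).mul_mem ((S.stab v).mul_mem hm ⟨hP, hPv⟩) ((S.stab v).inv_mem hm)
  refine ⟨h1.1, ?_, h1.2⟩
  rw [hQ]
  exact hM.conj_over hm.1 hPg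

theorem K10_col_iff {w : S.X} (hw : S.G.Adj v w) (c : K10C S v P) :
    K10col S v P w = some c ↔ S.act c.1 w = w := by
  unfold K10col
  constructor
  · intro h
    split_ifs at h with h1
    have h2 := h1.choose_spec
    rw [Option.some.inj h] at h2
    exact h2
  · intro h
    have h1 : ∃ Q : K10C S v P, S.act Q.1 w = w := ⟨c, h⟩
    rw [dif_pos h1]
    have h2 := h1.choose_spec
    obtain ⟨a1, a2, a3⟩ := K10_C hM hS hP hPg hPv h1.choose
    obtain ⟨b1, b2, b3⟩ := K10_C hM hS hP hPg hPv c
    congr 1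
    apply Subtype.ext
    exact hS.eq_of_agree a1 b1 (a2.trans b2.symm) hw (a3.trans b3.symm) (h2.trans h.symm)

theorem K10_col_act {s : Γ} (hs : s ∈ S.stab v) {w : S.X} (hw : S.G.Adj v w) :
    K10col S v P (S.act s w) = (K10col S v P w).map (K10ac S v P s) := by
  have hsw : S.G.Adj v (S.act s w) := by
    have := S.act_adj s hs.1 v w hw
    rwa [hs.2] at this
  have key : ∀ c, K10col S v P (S.act s w) = some c ↔
      (K10col S v P w).map (K10ac S v P s) = some c := by
    intro c
    rw [K10_col_iff hM hS hP hPg hPv hsw, Option.map_eq_some_iff]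
    constructor
    · intro h
      have hc := K10_C hM hS hP hPg hPv c
      refine ⟨K10ac S v P s⁻¹ c, ?_, ?_⟩
      · rw [K10_col_iff hM hS hP hPg hPv hw, K10_ac_val S v P ((S.stab v).inv_mem hs),
          S.act_mul _ (M.mul_mem (M.inv_mem hs.1) hc.1) _ (M.inv_mem (M.inv_mem hs.1)), inv_inv,
          S.act_mul _ (M.inv_mem hs.1) _ hc.1, h, S.act_inv_act hs.1]
      · apply Subtype.ext
        rw [K10_ac_val S v P hs, K10_ac_val S v P ((S.stab v).inv_mem hs)]
        group
    · rintro ⟨d, hd, rfl⟩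
      rw [K10_col_iff hM hS hP hPg hPv hw] at hd
      have hdC := K10_C hM hS hP hPg hPv d
      rw [K10_ac_val S v P hs, S.act_mul _ (M.mul_mem hs.1 hdC.1) _ (M.inv_mem hs.1),
        S.act_inv_act hs.1, S.act_mul _ hs.1 _ hdC.1, hd]
  cases h1 : (K10col S v P w).map (K10ac S v P s) with
  | none =>
    cases h2 : K10col S v P (S.act s w) with
    | none => rfl
    | some c =>
      have := (key c).1 h2
      rw [h1] at this
      cases this
  | some c => exact (key c).2 h1

end

theorem cutTree_exists (hc : Ctx π) {M : Subgroup Γ} {g : G} (hM : Cyc π M g) {S : MTree M}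
    (hS : S.IsSplitting π.ker) (v : S.X) {P : Γ} (hP : P ∈ M) (hPg : π P = g) (hPv : S.act P v = v) :
    Nonempty (CutTree S v P) := by
  have hPs : P ∈ S.stab v := ⟨hP, hPv⟩
  obtain ⟨St⟩ := star_exists S v (K10C S v P) (K10ac S v P) (K10col S v P)
    (fun c => Subtype.ext (by rw [K10_ac_val S v P (S.stab v).one_mem]; group))
    (fun s hs s' hs' c => Subtype.ext (by
      rw [K10_ac_val S v P ((S.stab v).mul_mem hs hs'), K10_ac_val S v P hs, K10_ac_val S v P hs']
      group))
    (fun s hs w hw => K10_col_act hM hS hP hPg hPv hs hw)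
  obtain ⟨T, q, hq, hqK⟩ := collapse_exists St.T (fun x y => St.pr x = St.pr y)
    (fun x y h => h.symm) (fun m hm x y h => by rw [St.blow.equi m hm, St.blow.equi m hm, h])
  let c0 : K10C S v P := ⟨P, 1, (S.stab v).one_mem, by group⟩
  have hedge : ∀ x ∈ M, St.T.G.Adj (St.ctr (S.act x v)) (St.leaf x c0) ∧
      q (St.ctr (S.act x v)) ≠ q (St.leaf x c0) := by
    intro x hx
    have h1 := St.adj_leaf x hx c0
    exact ⟨h1, (hqK _ _ h1).2 (by rw [St.pr_ctr, St.pr_leaf x hx])⟩
  have hadj : ∀ x ∈ M, T.G.Adj (q (St.ctr (S.act x v))) (q (St.leaf x c0)) := fun x hx =>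
    hq.t10_adj (hedge x hx).1 (hedge x hx).2
  -- every leaf is `leaf (x * m) c0`
  have hleaf : ∀ x ∈ M, ∀ c : K10C S v P, ∃ m ∈ S.stab v, c.1 = m * P * m⁻¹ ∧
      St.leaf x c = St.leaf (x * m) c0 := by
    intro x hx c
    obtain ⟨m, hm, hc⟩ := c.2
    refine ⟨m, hm, hc, ?_⟩
    rw [St.leaf_stab x hx m hm c0]
    congr 1
    apply Subtype.ext
    rw [K10_ac_val S v P hm, hc]
  refine ⟨{ T := T, κ := fun z => q (St.ctr z), ℓ := fun x => q (St.leaf x c0),
            κ_equi := ?_, ℓ_equi := ?_, adj := hadj, edge := ?_, eq_iff := ?_, orient := ?_,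
            beyond := ?_, vert := ?_ }⟩
  · intro m hm z
    show q (St.ctr (S.act m z)) = T.act m (q (St.ctr z))
    rw [← hq.equi m hm, St.ctr_equi m hm]
  · intro m hm x hx
    show T.act m (q (St.leaf x c0)) = q (St.leaf (m * x) c0)
    rw [← hq.equi m hm, St.leaf_equi m hm x hx]
  · intro a b hab
    obtain ⟨⟨a', b'⟩, hab', ha', hb'⟩ := (hq.lift a b hab).exists
    change St.T.G.Adj a' b' at hab'
    change q a' = a at ha'
    change q b' = b at hb'
    have hpr : St.pr a' = St.pr b' := (hqK a' b' hab').1 (by rw [ha', hb']; exact hab.ne)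
    obtain ⟨x, hx, c, h⟩ := St.adj_fib a' b' hab' hpr
    obtain ⟨m, hm, hc, hl⟩ := hleaf x hx c
    refine ⟨x * m, M.mul_mem hx hm.1, ?_⟩
    have hv : S.act (x * m) v = S.act x v := by rw [S.act_mul x hx m hm.1, hm.2]
    show (a = q (St.ctr (S.act (x * m) v)) ∧ b = q (St.leaf (x * m) c0)) ∨
      (b = q (St.ctr (S.act (x * m) v)) ∧ a = q (St.leaf (x * m) c0))
    rw [hv, ← hl, ← ha', ← hb']
    rcases h with ⟨h1, h2⟩ | ⟨h1, h2⟩
    · left; rw [h1, h2]; exact ⟨rfl, rfl⟩
    · right; rw [h1, h2]; exact ⟨rfl, rfl⟩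
  · intro x hx x' hx'
    show (q (St.ctr (S.act x v)) = q (St.ctr (S.act x' v)) ∧ q (St.leaf x c0) = q (St.leaf x' c0)) ↔ _
    have hs : S.act x v = S.act x' v → x⁻¹ * x' ∈ S.stab v := by
      intro h
      refine ⟨M.mul_mem (M.inv_mem hx) hx', ?_⟩
      rw [S.act_mul _ (M.inv_mem hx) _ hx', ← h, S.act_inv_act hx]
    have hlx : S.act x v = S.act x' v →
        St.leaf x' c0 = St.leaf x (K10ac S v P (x⁻¹ * x') c0) := by
      intro h
      rw [← St.leaf_stab x hx _ (hs h)]
      congr 1
      group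
    constructor
    · rintro ⟨h1, h2⟩
      obtain ⟨e1, e2⟩ := hq.t10_lift_unique (hedge x hx).1 (hedge x' hx').1 (hadj x hx) h1.symm
        h2.symm
      have e3 : S.act x v = S.act x' v := by
        have := congrArg St.pr e1
        rw [St.pr_ctr, St.pr_ctr] at this
        exact this.symm
      refine ⟨e3, ?_⟩
      rw [hlx e3] at e2
      have e4 := St.leaf_inj x hx _ _ e2
      have e5 := congrArg Subtype.val e4
      rw [K10_ac_val S v P (hs e3)] at e5
      change x⁻¹ * x' * P * (x⁻¹ * x')⁻¹ = P at e5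
      calc x * P * x⁻¹ = x * (x⁻¹ * x' * P * (x⁻¹ * x')⁻¹) * x⁻¹ := by rw [e5]
        _ = x' * P * x'⁻¹ := by group
    · rintro ⟨h1, h2⟩
      refine ⟨by rw [h1], ?_⟩
      rw [hlx h1]
      congr 2
      apply Subtype.ext
      rw [K10_ac_val S v P (hs h1)]
      change P = x⁻¹ * x' * P * (x⁻¹ * x')⁻¹
      calc P = x⁻¹ * (x * P * x⁻¹) * x := by group
        _ = x⁻¹ * (x' * P * x'⁻¹) * x := by rw [h2]
        _ = _ := by group
  · rintro x hx x' hx' ⟨h1, h2⟩
    change q (St.ctr (S.act x v)) = q (St.leaf x' c0) at h1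
    change q (St.leaf x c0) = q (St.ctr (S.act x' v)) at h2
    obtain ⟨e1, _⟩ := hq.t10_lift_unique (hedge x hx).1 (hedge x' hx').1.symm (hadj x hx) h1.symm
      h2.symm
    exact St.ctr_ne_leaf _ x' hx' c0 e1.symm
  · intro x hx z
    show T.Beyond (q (St.ctr (S.act x v))) (q (St.leaf x c0)) (q (St.ctr z)) ↔ _
    rw [← hq.beyond (hedge x hx).1 (hedge x hx).2]
    by_cases hz : S.act x v = z
    · rw [← hz]
      constructor
      · intro h
        exact absurd h (TG.not_beyond_self_left _ _)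
      · rintro ⟨w', _, h, _⟩
        exact absurd h (TG.not_beyond_self_left _ _)
    · obtain ⟨w', ⟨hw1, hw2⟩, huniq⟩ := TG.exists_unique_next S.tree hz
      have hwB : S.Beyond (S.act x v) w' z := by
        change S.G.dist w' z < S.G.dist (S.act x v) z
        omega
      have hR : (∃ w', S.G.Adj (S.act x v) w' ∧ S.Beyond (S.act x v) w' z ∧
          S.act (x * P * x⁻¹) w' = w') ↔ S.act (x * P * x⁻¹) w' = w' := by
        constructor
        · rintro ⟨w'', h1, h2, h3⟩
          have h4 : w'' = w' := by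
            apply huniq
            refine ⟨h1, ?_⟩
            change S.G.dist w'' z < S.G.dist (S.act x v) z at h2
            rcases TG.adj_dist S.tree h1 z with h5 | h5 <;> omega
          rw [← h4]
          exact h3
        · intro h
          exact ⟨w', hw1, hwB, h⟩
      rw [hR]
      obtain ⟨⟨a, b⟩, hab, ha, hb⟩ := (St.blow.lift _ _ hw1).exists
      change St.T.G.Adj a b at hab
      change St.pr a = S.act x v at ha
      change St.pr b = w' at hb
      have hne : St.pr a ≠ St.pr b := by rw [ha, hb]; exact hw1.ne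
      have hzB : St.T.Beyond a b (St.ctr z) := by
        rw [St.blow.beyond hab hne, ha, hb, St.pr_ctr]
        exact hwB
      have hnB : ∀ p, St.pr p = S.act x v → ¬ St.T.Beyond a b p := by
        intro p hp h
        rw [St.blow.beyond hab hne, ha, hb, hp] at h
        exact TG.not_beyond_self_left _ _ h
      have d1 := K10_cross St.T.tree hab (hnB (St.ctr (S.act x v)) (St.pr_ctr _)) hzB
      have d2 := K10_cross St.T.tree hab (hnB (St.leaf x c0) (St.pr_leaf x hx _)) hzB
      have hB : St.T.Beyond (St.ctr (S.act x v)) (St.leaf x c0) (St.ctr z) ↔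
          a = St.leaf x c0 := by
        change St.T.G.dist (St.leaf x c0) (St.ctr z) < St.T.G.dist (St.ctr (S.act x v)) (St.ctr z) ↔ _
        rw [d1, d2]
        constructor
        · intro h
          have h' : St.T.G.dist (St.leaf x c0) a < St.T.G.dist (St.ctr (S.act x v)) a := by omega
          rcases St.vert a with ⟨z', hz'⟩ | ⟨y, hy, c, hc'⟩
          · exfalso
            have : z' = S.act x v := by rw [← ha, hz', St.pr_ctr]
            rw [hz', this, SimpleGraph.dist_self] at h'
            omega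
          · have h1 : S.act y v = S.act x v := by rw [← ha, hc', St.pr_leaf y hy]
            have hadj1 := St.adj_leaf y hy c
            rw [h1, ← hc'] at hadj1
            rw [SimpleGraph.dist_eq_one_iff_adj.2 hadj1] at h'
            exact (TG.dist_zero St.T.tree (by omega)).symm
        · intro h
          have h1 : St.T.G.dist (St.leaf x c0) a = 0 := by rw [h, SimpleGraph.dist_self]
          have h2 : St.T.G.dist (St.ctr (S.act x v)) a = 1 := by
            rw [h]
            exact SimpleGraph.dist_eq_one_iff_adj.2 (hedge x hx).1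
          omega
      rw [hB, St.end_leaf a b hab hne x hx ha c0, hb]
      have hwa : S.G.Adj v (S.act x⁻¹ w') := by
        have := S.act_adj x⁻¹ (M.inv_mem hx) _ _ hw1
        rwa [S.act_inv_act hx] at this
      rw [K10_col_iff hM hS hP hPg hPv hwa]
      change S.act P (S.act x⁻¹ w') = S.act x⁻¹ w' ↔ _
      rw [S.act_mul _ (M.mul_mem hx hP) _ (M.inv_mem hx), S.act_mul _ hx _ hP]
      constructor
      · intro h
        rw [h, S.act_act_inv hx]
      · intro h
        have h2 := congrArg (S.act x⁻¹) h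
        rwa [S.act_inv_act hx] at h2
  · intro t
    obtain ⟨t', rfl⟩ := hq.surj t
    rcases St.vert t' with ⟨z, rfl⟩ | ⟨x, hx, c, rfl⟩
    · exact Or.inl ⟨z, rfl⟩
    · obtain ⟨m, hm, _, hl⟩ := hleaf x hx c
      refine Or.inr ⟨x * m, M.mul_mem hx hm.1, ?_⟩
      show q (St.leaf x c) = q (St.leaf (x * m) c0)
      rw [hl]

end Pool.Agent.Lib.MP_6567fb_al
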