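import Pool.Agent.Lib.MP_6567fb_al.K00a

/-!
# MP_6567fb_al, module K11a

Facts on a CutTree C.  noInv: an inverted edge is (κ (x v), ℓ x) up to order, m maps it to (κ (m x v), ℓ (m x)): orient with x, m x.  one_orbit: x = h P^i (exists_dec), P^i v = v
and κ (h P^i v) = κ (h v), ℓ (h P^i) = ℓ h by eq_iff.  orb: for the edge (κ (x v), ℓ x) and m ∈ M: p := x P x⁻¹ is over g and fixes it, m = (m p^(-j)) p^j with m p^(-j) ∈ ker.
edge_stab: eq_iff with x' = h x.  ell_of: κ.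
-/

set_option autoImplicit false

open scoped Pointwise

namespace Pool.Agent.Lib.MP_6567fb_al

open MTree

variable {Γ G : Type} [Group Γ] [Group G] {π : Γ →* G}

variable {M : Subgroup Γ} {S : MTree M} {v : S.X} {P : Γ}

theorem CutTree.noInv (C : CutTree S v P) : C.T.NoInv := by
  rintro m hm a b hab ⟨h1, h2⟩
  obtain ⟨x, hx, ⟨rfl, rfl⟩ | ⟨rfl, rfl⟩⟩ := C.edge a b hab
  · rw [← C.κ_equi m hm, ← S.act_mul m hm x hx] at h1
    rw [C.ℓ_equi m hm x hx] at h2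
    exact C.orient (m * x) (M.mul_mem hm hx) x hx ⟨h1, h2⟩
  · rw [← C.κ_equi m hm, ← S.act_mul m hm x hx] at h2
    rw [C.ℓ_equi m hm x hx] at h1
    exact C.orient (m * x) (M.mul_mem hm hx) x hx ⟨h2, h1⟩

theorem K11a_stab_zpow {a : S.X} {p : Γ} (hp : p ∈ M) (hpv : S.act p a = a) (i : ℤ) :
    S.act (p ^ i) a = a :=
  ((S.stab a).zpow_mem (show p ∈ S.stab a from ⟨hp, hpv⟩) i).2

theorem CutTree.one_orbit (C : CutTree S v P) {g : G} (hM : Cyc π M g) (hP : P ∈ M) (hPg : π P = g)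
    (hPv : S.act P v = v) (a b : C.T.X) (hab : C.T.G.Adj a b) :
    ∃ h ∈ M ⊓ π.ker, (a = C.T.act h (C.κ v) ∧ b = C.T.act h (C.ℓ 1)) ∨
      (b = C.T.act h (C.κ v) ∧ a = C.T.act h (C.ℓ 1)) := by
  obtain ⟨x, hx, hxab⟩ := C.edge a b hab
  obtain ⟨h, i, hh, rfl⟩ := hM.exists_dec hP hPg hx
  have hhM : h ∈ M := hh.1
  have hPi : P ^ i ∈ M := M.zpow_mem hP i
  have h1 : S.act (h * P ^ i) v = S.act h v := by
    rw [S.act_mul h hhM _ hPi, K11a_stab_zpow hP hPv]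
  have h2 := (C.eq_iff (h * P ^ i) hx h hhM).2 ⟨h1, by group⟩
  have h3 : C.T.act h (C.κ v) = C.κ (S.act h v) := (C.κ_equi h hhM v).symm
  have h4 : C.T.act h (C.ℓ 1) = C.ℓ h := by
    rw [C.ℓ_equi h hhM 1 M.one_mem, mul_one]
  refine ⟨h, hh, ?_⟩
  rw [h3, h4, ← h2.1, ← h2.2]
  exact hxab

theorem CutTree.orb (C : CutTree S v P) {g : G} (hM : Cyc π M g) (hP : P ∈ M) (hPg : π P = g)
    (hPv : S.act P v = v) : ∀ m ∈ M, ∀ a b, C.T.G.Adj a b →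
    ∃ h ∈ M ⊓ π.ker, C.T.act h a = C.T.act m a ∧ C.T.act h b = C.T.act m b := by
  intro m hm a b hab
  obtain ⟨x, hx, hxab⟩ := C.edge a b hab
  have hp : x * P * x⁻¹ ∈ M := M.mul_mem (M.mul_mem hx hP) (M.inv_mem hx)
  obtain ⟨h, i, hh, rfl⟩ := hM.exists_dec hp (hM.conj_over hx hPg) hm
  have hhM : h ∈ M := hh.1
  have hpi : (x * P * x⁻¹) ^ i ∈ M := M.zpow_mem hp i
  have hPi : P ^ i ∈ M := M.zpow_mem hP i
  have e0 : (x * P * x⁻¹) ^ i * x = x * P ^ i := by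
    rw [conj_zpow]
    group
  have e1 : S.act (x * P ^ i) v = S.act x v := by
    rw [S.act_mul x hx _ hPi, K11a_stab_zpow hP hPv]
  have h2 := (C.eq_iff (x * P ^ i) (M.mul_mem hx hPi) x hx).2 ⟨e1, by group⟩
  have h3 : C.T.act ((x * P * x⁻¹) ^ i) (C.κ (S.act x v)) = C.κ (S.act x v) := by
    rw [← C.κ_equi _ hpi, ← S.act_mul _ hpi _ hx, e0, h2.1]
  have h4 : C.T.act ((x * P * x⁻¹) ^ i) (C.ℓ x) = C.ℓ x := by
    rw [C.ℓ_equi _ hpi _ hx, e0, h2.2]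
  refine ⟨h, hh, ?_, ?_⟩
  · rw [C.T.act_mul h hhM _ hpi]
    rcases hxab with ⟨rfl, rfl⟩ | ⟨rfl, rfl⟩
    · rw [h3]
    · rw [h4]
  · rw [C.T.act_mul h hhM _ hpi]
    rcases hxab with ⟨rfl, rfl⟩ | ⟨rfl, rfl⟩
    · rw [h4]
    · rw [h3]

theorem CutTree.edge_stab (C : CutTree S v P) {x h : Γ} (hx : x ∈ M) (hh : h ∈ M) :
    (C.T.act h (C.κ (S.act x v)) = C.κ (S.act x v) ∧ C.T.act h (C.ℓ x) = C.ℓ x) ↔
      ∃ a ∈ S.stab v, a * P = P * a ∧ h = x * a * x⁻¹ := by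
  rw [← C.κ_equi h hh, ← S.act_mul h hh x hx, C.ℓ_equi h hh x hx,
    C.eq_iff (h * x) (M.mul_mem hh hx) x hx]
  constructor
  · rintro ⟨h1, h2⟩
    refine ⟨x⁻¹ * h * x, ⟨M.mul_mem (M.mul_mem (M.inv_mem hx) hh) hx, ?_⟩, ?_, by group⟩
    · rw [mul_assoc, S.act_mul _ (M.inv_mem hx) _ (M.mul_mem hh hx), h1, S.act_inv_act hx]
    · have h3 : x⁻¹ * (h * x * P * (h * x)⁻¹) * x = P := by rw [h2]; group
      calc x⁻¹ * h * x * P = (x⁻¹ * (h * x * P * (h * x)⁻¹) * x) * (x⁻¹ * h * x) := by group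
        _ = P * (x⁻¹ * h * x) := by rw [h3]
  · rintro ⟨a, ⟨haM, hav⟩, haP, rfl⟩
    refine ⟨?_, ?_⟩
    · rw [inv_mul_cancel_right, S.act_mul x hx a haM, hav]
    · rw [inv_mul_cancel_right]
      calc x * a * P * (x * a)⁻¹ = x * (a * P) * a⁻¹ * x⁻¹ := by group
        _ = x * P * x⁻¹ := by rw [haP]; group

theorem CutTree.ell_of (C : CutTree S v P) {D : Set Γ} (hD : D ⊆ M) (h : S.Ell D) : C.T.Ell D := by
  obtain ⟨z, hz⟩ := h
  exact ⟨C.κ z, fun d hd => by rw [← C.κ_equi d (hD hd), hz d hd]⟩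

end Pool.Agent.Lib.MP_6567fb_al
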