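import Pool.Agent.Lib.MP_6567fb_al.K11a
import Pool.Agent.Lib.MP_6567fb_al.K22

/-!
# MP_6567fb_al, module K11b

good_of_hyp: f is not elliptic on S (ell_of), so ell_or_axis gives an axis L of f in S.  z := L 0; for n large κ z and κ (f^n z) are at distance ≥ 5 (f hyperbolic on T, which has no inversions:
axis_pow, disp), so there are at least 5 edges of T separating them; each is (κ (x v), ℓ x) up to orientation and on a geodesic at most two edges contain the vertex κ (x v), so some of them has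
x v ≠ z, f^n z.  By `beyond` exactly one of z, f^n z is behind an edge at x v fixed by x P x⁻¹; so x v is on [z, f^n z] (else the first edges from x v to z and to f^n z are equal), x v = L j with 0 < j < n l, and exactly
one of L (j-1), L (j+1) is fixed by x P x⁻¹; replace x by h ∈ M ⊓ ker with x = h P^i (exists_dec): GoodTurn.
hyp_of_good: GoodTurn at L j = x v: the edge E = (κ (x v), ℓ x) separates κ (L (j-s)) from κ (L (j+s)) for all s ≥ 1.  If f were elliptic on T, dist (κ (L i)) (κ (L (i+nl))) = dist (κ (L i)) (f^n κ (L i)) would be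
bounded, but it is at least the number of the translates f^k E, which are distinct edges (at the vertices L (j + k l); f^k E = (κ (f^k x v), ℓ (f^k x)), eq_iff).
-/

set_option autoImplicit false

open scoped Pointwise

namespace Pool.Agent.Lib.MP_6567fb_al

open MTree

namespace K11b

open TG

section geom
variable {X : Type} {G : SimpleGraph X}

theorem line_between (hG : G.IsTree) {L : ℤ → X} (hL : IsLine G L) {a b : ℤ} (hab : a ≤ b) {u : X}
    (h : Btw G (L a) u (L b)) : ∃ i, a ≤ i ∧ i ≤ b ∧ u = L i := by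
  have hd : G.dist (L a) u ≤ G.dist (L a) (L b) := by
    unfold TG.Btw at h; omega
  have hd' := hd
  rw [hL a b] at hd'
  refine ⟨a + G.dist (L a) u, by omega, by omega, ?_⟩
  refine (btw_point hG hd).unique ⟨h, rfl⟩ ⟨?_, ?_⟩
  · unfold TG.Btw
    rw [hL, hL, hL]
    omega
  · rw [hL]
    omega

theorem line_adj {L : ℤ → X} (hL : IsLine G L) (i : ℤ) : G.Adj (L i) (L (i + 1)) := by
  rw [← SimpleGraph.dist_eq_one_iff_adj, hL]
  have : i - (i + 1) = -1 := by ring
  rw [this]; rfl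

theorem line_beyond_right {L : ℤ → X} (hL : IsLine G L) {i n : ℤ} (h : i < n) :
    Beyond G (L i) (L (i + 1)) (L n) := by
  change G.dist _ _ < G.dist _ _
  rw [hL, hL]
  omega

theorem line_beyond_left {L : ℤ → X} (hL : IsLine G L) {i n : ℤ} (h : n < i) :
    Beyond G (L i) (L (i - 1)) (L n) := by
  change G.dist _ _ < G.dist _ _
  rw [hL, hL]
  omega

/-- nested half trees -/
theorem strict_dist (hG : G.IsTree) {p q p' q' : X} (hpq : G.Adj p q) (hpq' : G.Adj p' q')
    (hne : ¬ (p' = p ∧ q' = q)) (hsub : ∀ z, Beyond G p' q' z → Beyond G p q z) :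
    (∀ t, Beyond G p' q' t → G.dist q' t < G.dist q t) ∧
      (∀ t, ¬ Beyond G p q t → G.dist t p < G.dist t p') := by
  have hself : ∀ {a b : X}, G.Adj a b → Beyond G a b b := by
    intro a b h
    change G.dist b b < G.dist a b
    rw [SimpleGraph.dist_self, SimpleGraph.dist_eq_one_iff_adj.2 h]
    exact Nat.one_pos
  have hself' : ∀ {a b : X}, ¬ Beyond G a b a := by
    intro a b h
    have h' : G.dist b a < G.dist a a := h
    simp at h'
  have hq' : Beyond G p q q' := hsub _ (hself hpq')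
  have hp' : Beyond G p q p' := by
    by_contra hcon
    exact hne (beyond_edge hG hpq hpq' hcon hq')
  have hp : ¬ Beyond G p' q' p := fun h => hself' (hsub _ h)
  have hq : ¬ Beyond G p' q' q := by
    intro h
    have := beyond_edge hG hpq' hpq hp h
    exact hne ⟨this.1.symm, this.2.symm⟩
  constructor
  · intro t ht
    have h := ((beyond_sep hG hpq').1 ⟨hq, ht⟩).2.1
    have hne' : q ≠ q' := by
      rintro rfl
      exact hq (hself hpq')
    have hpos : 0 < G.dist q q' := hG.connected.pos_dist_of_ne hne'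
    have h' : G.dist q q' + G.dist q' t = G.dist q t := h
    omega
  · intro t ht
    have h := ((beyond_sep hG hpq).1 ⟨ht, hp'⟩).1
    have hne' : p ≠ p' := by
      rintro rfl
      exact hself' hp'
    have hpos : 0 < G.dist p p' := hG.connected.pos_dist_of_ne hne'
    have h' : G.dist t p + G.dist p p' = G.dist t p' := h
    omega

theorem nested (hG : G.IsTree) {p q p' q' : X} (hpq : G.Adj p q) (hpq' : G.Adj p' q')
    (hne : ¬ (p' = p ∧ q' = q)) (hne' : ¬ (p' = q ∧ q' = p)) {z₁ z₂ : X}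
    (h1 : Beyond G p q z₁) (h1' : Beyond G p' q' z₁) (h2 : ¬ Beyond G p q z₂)
    (h2' : ¬ Beyond G p' q' z₂) :
    (∀ z, Beyond G p' q' z → Beyond G p q z) ∨ (∀ z, Beyond G p q z → Beyond G p' q' z) := by
  by_cases hp : Beyond G p q p'
  · left
    intro z hz
    by_contra hcon
    -- `z₂`, `z` are not beyond `(p,q)`, separated by `(p',q')`
    have hsep := ((beyond_sep hG hpq').1 ⟨h2', hz⟩).1
    have hconv := conv_beyond hG hpq.symm
    have hmem : p' ∈ {z | Beyond G q p z} := by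
      refine hconv z₂ ?_ z ?_ p' hsep
      · exact (beyond_iff hG hpq.symm _).2 h2
      · exact (beyond_iff hG hpq.symm _).2 hcon
    exact (beyond_iff hG hpq.symm _).1 hmem hp
  · right
    intro z hz
    by_contra hcon
    have hsep := ((beyond_sep hG hpq').1 ⟨hcon, h1'⟩).1
    have hconv := conv_beyond hG hpq
    exact hp (hconv z hz z₁ h1 p' hsep)

end geom

end K11b

variable {Γ G : Type} [Group Γ] [Group G] {π : Γ →* G}

variable {M : Subgroup Γ} {S : MTree M} {v : S.X} {P : Γ}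

theorem K11b.good_of_split {g : G} (hM : Cyc π M g) (hP : P ∈ M) (hPg : π P = g)
    (hPv : S.act P v = v) {x : Γ} (hx : x ∈ M) {a b c : S.X} (hb : b = S.act x v)
    (h : ¬ (S.act (x * P * x⁻¹) a = a ↔ S.act (x * P * x⁻¹) c = c)) : GoodTurn π S v P a b c := by
  obtain ⟨n, hn⟩ := Subgroup.mem_zpowers_iff.1 (hM.cyc x hx)
  refine ⟨x * P ^ (-n), ⟨M.mul_mem hx (M.zpow_mem hP _), ?_⟩, ?_, ?_⟩
  · change π (x * P ^ (-n)) = 1
    rw [map_mul, map_zpow, hPg, ← hn]
    group
  · rw [hb, S.act_mul x hx _ (M.zpow_mem hP _)]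
    congr 1
    have : P ^ (-n) ∈ S.stab v := (S.stab v).zpow_mem ⟨hP, hPv⟩ _
    exact this.2.symm
  · have hconj : x * P ^ (-n) * P * (x * P ^ (-n))⁻¹ = x * P * x⁻¹ := by group
    rw [hconj]
    by_cases h1 : S.act (x * P * x⁻¹) a = a
    · left
      exact ⟨h1, fun h2 => h ⟨fun _ => h2, fun _ => h1⟩⟩
    · right
      refine ⟨?_, h1⟩
      by_contra h2
      exact h ⟨fun h3 => absurd h3 h1, fun h3 => absurd h3 h2⟩

/-- the set behind the fixed edges at `u`, seen from a point of which the first vertex is known -/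
theorem K11b.behind_iff {u w z : S.X} {Q : Γ} (hw : S.G.Adj u w) (hz : S.Beyond u w z) :
    (∃ w', S.G.Adj u w' ∧ S.Beyond u w' z ∧ S.act Q w' = w') ↔ S.act Q w = w := by
  constructor
  · rintro ⟨w', h1, h2, h3⟩
    rw [← K22.dir_unique S.tree h1 hw h2 hz]; exact h3
  · intro h
    exact ⟨w, hw, hz, h⟩

theorem CutTree.good_of_hyp (C : CutTree S v P) (hc : Ctx π) {g : G} (hM : Cyc π M g)
    (hS : S.IsSplitting π.ker) (hP : P ∈ M) (hPg : π P = g) (hPv : S.act P v = v) {f : Γ} (hf : f ∈ M)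
    (h : C.T.Hyp f) :
    ∃ (l : ℕ) (L : ℤ → S.X), S.IsAxis f l L ∧ ∃ j, GoodTurn π S v P (L (j - 1)) (L j) (L (j + 1)) := by
  rcases ell_or_axis (T := S) (hS.noInv hc) hf with ⟨x, hx⟩ | ⟨l, L, hL⟩
  · exfalso
    obtain ⟨t, ht⟩ := C.ell_of (D := {f}) (by simpa using hf) ⟨x, by simpa using hx⟩
    exact h t (ht f rfl)
  refine ⟨l, L, hL, ?_⟩
  have hl0 : 0 < l := hL.1
  have hLl : TG.IsLine S.G L := hL.2.1
  -- the translation length on `T`
  have hd3 : 3 ≤ C.T.G.dist (C.κ (L 0)) (C.κ (L (3 * l))) := by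
    rcases ell_or_axis (T := C.T) C.noInv hf with ⟨x, hx⟩ | ⟨l', L', hL'⟩
    · exact absurd hx (h x)
    · have h3 := axis_pow (T := C.T) hf hL' (k := 3) (by norm_num)
      obtain ⟨i, -, hi⟩ := disp (T := C.T) (M.pow_mem hf 3) h3 (C.κ (L 0))
      have h4 : C.T.act (f ^ 3) (C.κ (L 0)) = C.κ (L (3 * l)) := by
        rw [← C.κ_equi _ (M.pow_mem hf 3)]
        have h5 := (axis_pow (T := S) hf hL (k := 3) (by norm_num)).2.2 0
        rw [h5]
        congr 2
        push_cast
        ring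
      rw [h4] at hi
      have h6 : 0 < l' := hL'.1
      omega
  -- the second edge of the geodesic
  have hne0 : C.κ (L 0) ≠ C.κ (L (3 * l)) := by
    intro h0
    rw [h0, SimpleGraph.dist_self] at hd3
    omega
  obtain ⟨t₁, ⟨h01, hd1⟩, -⟩ := TG.exists_unique_next C.T.tree hne0
  have hne1 : t₁ ≠ C.κ (L (3 * l)) := by
    intro h0
    rw [h0, SimpleGraph.dist_self] at hd1
    omega
  obtain ⟨t₂, ⟨h12, hd2⟩, -⟩ := TG.exists_unique_next C.T.tree hne1
  have hne2 : t₂ ≠ C.κ (L (3 * l)) := by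
    intro h0
    rw [h0, SimpleGraph.dist_self] at hd2
    omega
  have hne20 : t₂ ≠ C.κ (L 0) := by
    intro h0
    rw [h0] at hd2
    omega
  have hB : C.T.Beyond t₁ t₂ (C.κ (L (3 * l))) := by
    change C.T.G.dist _ _ < C.T.G.dist _ _
    omega
  have hA : ¬ C.T.Beyond t₁ t₂ (C.κ (L 0)) := by
    intro h0
    have h0' : C.T.G.dist t₂ (C.κ (L 0)) < C.T.G.dist t₁ (C.κ (L 0)) := h0
    rw [SimpleGraph.dist_eq_one_iff_adj.2 h01.symm] at h0'
    have h1 : C.T.G.dist t₂ (C.κ (L 0)) = 0 := by omega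
    exact hne20 ((C.T.tree.connected.dist_eq_zero_iff).1 h1)
  obtain ⟨x, hx, hxe⟩ := C.edge _ _ h12
  have hxadj : C.T.G.Adj (C.κ (S.act x v)) (C.ℓ x) := C.adj x hx
  set u := S.act x v with hu
  set Q := x * P * x⁻¹ with hQ
  have hex : ¬ ((∃ w', S.G.Adj u w' ∧ S.Beyond u w' (L 0) ∧ S.act Q w' = w') ↔
      (∃ w', S.G.Adj u w' ∧ S.Beyond u w' (L (3 * l)) ∧ S.act Q w' = w')) := by
    rw [← C.beyond x hx, ← C.beyond x hx]
    rcases hxe with ⟨e1, e2⟩ | ⟨e1, e2⟩
    · rw [e1, e2] at hB hA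
      exact fun hcon => hA (hcon.2 hB)
    · rw [e1, e2] at hB hA
      intro hcon
      exact ((TG.beyond_iff C.T.tree hxadj.symm _).1 hB)
        (hcon.1 (by
          by_contra h0
          exact hA ((TG.beyond_iff C.T.tree hxadj.symm _).2 h0)))
  have hu0 : u ≠ L 0 := by
    intro h0
    rcases hxe with ⟨e1, e2⟩ | ⟨e1, e2⟩
    · rw [h0] at e1
      rw [e1] at h01
      exact h01.ne rfl
    · rw [h0] at e1
      exact hne20 e1
  have hu3 : u ≠ L (3 * l) := by
    intro h0
    rcases hxe with ⟨e1, e2⟩ | ⟨e1, e2⟩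
    · rw [h0] at e1
      exact hne1 e1
    · rw [h0] at e1
      exact hne2 e1
  have hbtw : S.Btw (L 0) u (L (3 * l)) := by
    by_contra hcon
    refine hex (exists_congr fun w' => and_congr_right fun hw' => and_congr_left fun _ => ?_)
    exact K22.dir_of_not_btw S.tree hcon hw'
  obtain ⟨j, hj1, hj2, huj⟩ := K11b.line_between S.tree hLl (by omega : (0 : ℤ) ≤ 3 * l) hbtw
  have hj1' : 0 < j := lt_of_le_of_ne hj1 (by rintro rfl; exact hu0 huj)
  have hj2' : j < 3 * l := lt_of_le_of_ne hj2 (by rintro rfl; exact hu3 huj)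
  refine ⟨j, K11b.good_of_split hM hP hPg hPv hx (huj.symm.trans hu) ?_⟩
  intro hcon
  apply hex
  have ha : S.G.Adj (L j) (L (j - 1)) := by
    have := (K11b.line_adj hLl (j - 1)).symm
    rwa [sub_add_cancel] at this
  rw [huj, K11b.behind_iff ha (K11b.line_beyond_left hLl hj1'),
    K11b.behind_iff (K11b.line_adj hLl j) (K11b.line_beyond_right hLl hj2')]
  exact hcon

theorem CutTree.hyp_of_good (C : CutTree S v P) (hc : Ctx π) {g : G} (hM : Cyc π M g)
    (hS : S.IsSplitting π.ker) (hP : P ∈ M) (hPg : π P = g) (hPv : S.act P v = v) {f : Γ} (hf : f ∈ M)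
    {l : ℕ} {L : ℤ → S.X} (hL : S.IsAxis f l L) {j : ℤ}
    (hg : GoodTurn π S v P (L (j - 1)) (L j) (L (j + 1))) : C.T.Hyp f := by
  obtain ⟨x, hx, hxj, hQ⟩ := hg
  have hxM : x ∈ M := hx.1
  have hl0 : 0 < l := hL.1
  have hLl : TG.IsLine S.G L := hL.2.1
  have hxadj : C.T.G.Adj (C.κ (S.act x v)) (C.ℓ x) := C.adj x hxM
  have hfx : f * x ∈ M := M.mul_mem hf hxM
  have hfk : C.T.act f (C.κ (S.act x v)) = C.κ (S.act (f * x) v) := by
    rw [← C.κ_equi f hf, ← S.act_mul f hf x hxM]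
  have hfl : C.T.act f (C.ℓ x) = C.ℓ (f * x) := C.ℓ_equi f hf x hxM
  have hne1 : S.act x v ≠ S.act (f * x) v := by
    intro h0
    rw [S.act_mul f hf x hxM, ← hxj, hL.2.2] at h0
    have h1 := hLl j (j + l)
    rw [← h0, SimpleGraph.dist_self] at h1
    omega
  have ha : S.G.Adj (L j) (L (j - 1)) := by
    have := (K11b.line_adj hLl (j - 1)).symm
    rwa [sub_add_cancel] at this
  -- the two sides
  have hR : ∀ i, j < i → (C.T.Beyond (C.κ (S.act x v)) (C.ℓ x) (C.κ (L i)) ↔
      S.act (x * P * x⁻¹) (L (j + 1)) = L (j + 1)) := by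
    intro i hi
    rw [C.beyond x hxM, ← hxj, K11b.behind_iff (K11b.line_adj hLl j) (K11b.line_beyond_right hLl hi)]
  have hLft : ∀ i, i < j → (C.T.Beyond (C.κ (S.act x v)) (C.ℓ x) (C.κ (L i)) ↔
      S.act (x * P * x⁻¹) (L (j - 1)) = L (j - 1)) := by
    intro i hi
    rw [C.beyond x hxM, ← hxj, K11b.behind_iff ha (K11b.line_beyond_left hLl hi)]
  obtain ⟨p, q, hpq, hR', hL', hd1, hd2⟩ : ∃ p q, C.T.G.Adj p q ∧
      (∀ i, j < i → C.T.Beyond p q (C.κ (L i))) ∧ (∀ i, i < j → ¬ C.T.Beyond p q (C.κ (L i))) ∧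
      ¬ (C.T.act f p = p ∧ C.T.act f q = q) ∧ ¬ (C.T.act f p = q ∧ C.T.act f q = p) := by
    rcases hQ with ⟨h1, h2⟩ | ⟨h1, h2⟩
    · -- `L (j-1)` is fixed
      refine ⟨C.ℓ x, C.κ (S.act x v), hxadj.symm, fun i hi => ?_, fun i hi => ?_, ?_, ?_⟩
      · exact (TG.beyond_iff C.T.tree hxadj.symm _).2 (fun h0 => h2 ((hR i hi).1 h0))
      · exact fun h0 => (TG.beyond_iff C.T.tree hxadj.symm _).1 h0 ((hLft i hi).2 h1)
      · rintro ⟨e1, e2⟩
        rw [hfk] at e2
        rw [hfl] at e1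
        exact hne1 ((C.eq_iff x hxM (f * x) hfx).1 ⟨e2.symm, e1.symm⟩).1
      · rintro ⟨e1, e2⟩
        rw [hfk] at e2
        rw [hfl] at e1
        exact C.orient x hxM (f * x) hfx ⟨e1.symm, e2.symm⟩
    · refine ⟨C.κ (S.act x v), C.ℓ x, hxadj, fun i hi => (hR i hi).2 h1,
        fun i hi h0 => h2 ((hLft i hi).1 h0), ?_, ?_⟩
      · rintro ⟨e1, e2⟩
        rw [hfk] at e1
        rw [hfl] at e2
        exact hne1 ((C.eq_iff x hxM (f * x) hfx).1 ⟨e1.symm, e2.symm⟩).1
      · rintro ⟨e1, e2⟩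
        rw [hfk] at e1
        rw [hfl] at e2
        exact C.orient x hxM (f * x) hfx ⟨e2.symm, e1.symm⟩
  have hpq' : C.T.G.Adj (C.T.act f p) (C.T.act f q) := C.T.act_adj f hf _ _ hpq
  have hshift : ∀ i, C.T.Beyond (C.T.act f p) (C.T.act f q) (C.κ (L (i + l))) ↔
      C.T.Beyond p q (C.κ (L i)) := by
    intro i
    rw [← hL.2.2 i, C.κ_equi f hf, beyond_act (T := C.T) hf]
  have hn := K11b.nested C.T.tree hpq hpq' hd1 hd2 (z₁ := C.κ (L (j + 1 + l)))
    (z₂ := C.κ (L (j - 1 - l + l))) (hR' _ (by omega)) ((hshift _).2 (hR' _ (by omega)))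
    (hL' _ (by omega)) (fun h0 => hL' _ (by omega) ((hshift _).1 h0))
  intro t ht
  have hside : C.T.Beyond (C.T.act f p) (C.T.act f q) t ↔ C.T.Beyond p q t := by
    conv_lhs => rw [← ht]
    exact beyond_act (T := C.T) hf p q t
  have hdp : C.T.G.dist t (C.T.act f p) = C.T.G.dist t p := by
    conv_lhs => rw [← ht]
    exact dist_act (T := C.T) hf t p
  have hdq : C.T.G.dist (C.T.act f q) t = C.T.G.dist q t := by
    conv_lhs => rw [← ht]
    exact dist_act (T := C.T) hf q t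
  rcases hn with hn | hn
  · have hs := K11b.strict_dist C.T.tree hpq hpq' hd1 hn
    by_cases h0 : C.T.Beyond p q t
    · have := hs.1 t (hside.2 h0)
      omega
    · have := hs.2 t h0
      omega
  · have hs := K11b.strict_dist C.T.tree hpq' hpq (fun h0 => hd1 ⟨h0.1.symm, h0.2.symm⟩) hn
    by_cases h0 : C.T.Beyond p q t
    · have := hs.1 t h0
      omega
    · have := hs.2 t (fun h1 => h0 (hside.1 h1))
      omega

end Pool.Agent.Lib.MP_6567fb_al
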