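import Pool.Agent.Lib.MP_6567fb_al.K07
import Pool.Agent.Lib.MP_6567fb_al.K08
import Pool.Agent.Lib.MP_6567fb_al.K09
import Pool.Agent.Lib.MP_6567fb_al.K11b
import Pool.Agent.Lib.MP_6567fb_al.T5
import Pool.Agent.Lib.MP_6567fb_al.T6b

/-!
# MP_6567fb_al, module K12

C : CutTree D.S D.v D.P.  cut_rel: B ∈ Ω.  If B is elliptic on S: ell_of.  Otherwise suppose b ∈ B is hyperbolic on C.T: good_of_hyp gives the axis L of b in S with a good turn at L j = x v; L ⊆ core B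
(definition of core), so the lifts of g fixing (L (j-1), L j) and (L j, L (j+1)) preserve B (rlemma, periph_mfactor); after translation by x⁻¹ one of them is P, both preserve x⁻¹ B x ∈ Ω and fix
v, so they are equal (same_lift): contradiction to the good turn.  So all elements of B are elliptic; serre (noInv, B f.g. by fac_fg) gives Ell.
cut_nontriv: S is minimal: v and its neighbours are in core H = univ; k43 gives w1 with P w1 ≠ w1, P w = w; core_turn (w, v, w1): an axis of h ∈ H through w, v, w1: GoodTurn (x = 1);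
hyp_of_good: h is hyperbolic on C.T.  cut_splitting: orb, edge_stab and Case1; (s3) one_orbit.  cut_edge_stab: edge_stab, one_orbit and centr/comm.
-/

set_option autoImplicit false

open scoped Pointwise

namespace Pool.Agent.Lib.MP_6567fb_al

open MTree

variable {Γ G : Type} [Group Γ] [Group G] {π : Γ →* G}

theorem K12.conj_smul_smul (a b : Γ) (B : Subgroup Γ) :
    MulAut.conj a • MulAut.conj b • B = MulAut.conj (a * b) • B := by
  rw [map_mul, mul_smul]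

theorem KData.cut_rel (hc : Ctx π) {M : Subgroup Γ} {g : G} (hM : Cyc π M g) {Ω : Set (Subgroup Γ)}
    (hΩ : IsProper π.ker M Ω) (D : KData π M g Ω) (C : CutTree D.S D.v D.P) : C.T.Rel Ω := by
  intro B hB
  have hp := hΩ.periph
  have hMf : IsMFactor π.ker M B := periph_mfactor hc hM.toLoc hp hB
  have hBle : B ≤ M ⊓ π.ker := periph_le hp hB
  have hBM : B ≤ M := hBle.trans inf_le_left
  by_cases hE : D.S.Ell (B : Set Γ)
  · exact C.ell_of hBM hE
  refine C.T.serre C.noInv B hBM (fac_fg hc (fac_trans hc le_rfl hM.fac hMf.fac)) fun b hb => ?_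
  by_contra hcon
  push Not at hcon
  obtain ⟨l, L, hL, j, x, hx, hLj, hturn⟩ := C.good_of_hyp hc hM D.hS D.hP D.hPg D.hPe.1 (hBM hb) hcon
  have hbM := hBM hb
  have hmem : ∀ i, L i ∈ D.S.core B := by
    intro i
    unfold MTree.core
    rw [if_neg hE]
    refine ⟨b, hb, D.S.hyp_of_axis hbM hL, ?_⟩
    rw [(D.S.axis_eq hbM hL).1]
    exact ⟨i, rfl⟩
  have hadj : ∀ i : ℤ, D.S.G.Adj (L i) (L (i + 1)) := by
    intro i
    rw [← SimpleGraph.dist_eq_one_iff_adj, hL.2.1 i (i + 1)]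
    have : i - (i + 1) = -1 := by ring
    rw [this]; rfl
  have hxM : x ∈ M := hx.1
  have hxi : x⁻¹ ∈ M := M.inv_mem hxM
  set P' := x * D.P * x⁻¹ with hP'
  have hP'M : P' ∈ M := M.mul_mem (M.mul_mem hxM D.hP) hxi
  have hP'g : π P' = g := hM.conj_over hxM D.hPg
  have hP'j : D.S.act P' (L j) = L j := by
    rw [hLj, ← D.S.act_mul _ hP'M _ hxM]
    have : P' * x = x * D.P := by rw [hP']; group
    rw [this, D.S.act_mul _ hxM _ D.hP, D.hPe.1]
  -- for the two edges at `L j`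
  have key : ∀ u w : D.S.X, D.S.G.Adj (L j) u → D.S.G.Adj (L j) w → u ∈ D.S.core B → w ∈ D.S.core B →
      D.S.act P' u = u → D.S.act P' w = w := by
    intro u w hu hw huc hwc hPu
    have h1 : MulAut.conj P' • B = B :=
      rlemma hc hM.toLoc D.hS hMf hE (hmem j) huc hu hP'M ⟨hP'j, hPu⟩
    obtain ⟨Q, ⟨hQM, hQg, hQe⟩, _⟩ := D.hS.lift hw hP'M
    rw [hP'g] at hQg
    have h2 : MulAut.conj Q • B = B :=
      rlemma hc hM.toLoc D.hS hMf hE (hmem j) hwc hw hQM hQe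
    have hB' : MulAut.conj x⁻¹ • B ∈ Ω := hp.inv _ hxi B hB
    have e1 : MulAut.conj D.P • MulAut.conj x⁻¹ • B = MulAut.conj x⁻¹ • B := by
      rw [K12.conj_smul_smul]
      have : D.P * x⁻¹ = x⁻¹ * P' := by rw [hP']; group
      rw [this, ← K12.conj_smul_smul, h1]
    have hQ' : x⁻¹ * Q * x ∈ D.S.stab D.v := by
      refine ⟨M.mul_mem (M.mul_mem hxi hQM) hxM, ?_⟩
      rw [D.S.act_mul _ (M.mul_mem hxi hQM) _ hxM, ← hLj, D.S.act_mul _ hxi _ hQM, hQe.1, hLj,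
        D.S.act_inv_act hxM]
    have hQ'g : π (x⁻¹ * Q * x) = g := by
      have := hM.conj_over hxi hQg
      rwa [inv_inv] at this
    have e2 : MulAut.conj (x⁻¹ * Q * x) • MulAut.conj x⁻¹ • B = MulAut.conj x⁻¹ • B := by
      rw [K12.conj_smul_smul]
      have : x⁻¹ * Q * x * x⁻¹ = x⁻¹ * Q := by group
      rw [this, ← K12.conj_smul_smul, h2]
    have h3 := D.same_lift hc hM hΩ hQ' hQ'g hB' e1 e2
    have h4 : Q = P' := by rw [hP', ← h3]; group
    rw [← h4]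
    exact hQe.2
  have a1 : D.S.G.Adj (L j) (L (j - 1)) := by
    have := (hadj (j - 1)).symm
    rwa [sub_add_cancel] at this
  rcases hturn with ⟨t1, t2⟩ | ⟨t1, t2⟩
  · exact t2 (key _ _ a1 (hadj j) (hmem _) (hmem _) t1)
  · exact t2 (key _ _ (hadj j) a1 (hmem _) (hmem _) t1)

theorem KData.cut_nontriv (hc : Ctx π) {M : Subgroup Γ} {g : G} (hM : Cyc π M g) {Ω : Set (Subgroup Γ)}
    (hΩ : IsProper π.ker M Ω) (D : KData π M g Ω) (C : CutTree D.S D.v D.P) :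
    ∃ h ∈ M ⊓ π.ker, C.T.Hyp h := by
  obtain ⟨w1, hw1, hPw1⟩ := D.k43 hc hM hΩ
  have hmem : ∀ x, x ∈ D.S.core (M ⊓ π.ker) := fun x => by rw [D.hSmin.2]; trivial
  have hne : ¬ D.S.Ell ((M ⊓ π.ker : Subgroup Γ) : Set Γ) := by
    rintro ⟨x, hx⟩
    obtain ⟨h, hh, hne⟩ := D.hSmin.1 x
    exact hne (hx h hh)
  have hww : D.w ≠ w1 := by
    rintro h
    exact hPw1 (by rw [← h]; exact D.hPe.2)
  obtain ⟨d, l, L, i, hd, hL, h0, h1, h2⟩ := D.S.core_turn (D.hS.noInv hc) (D := M ⊓ π.ker) inf_le_left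
    hne D.hS.free (hmem D.w) (hmem D.v) (hmem w1) D.hw.symm hw1 hww
  refine ⟨d, hd, C.hyp_of_good hc hM D.hS D.hP D.hPg D.hPe.1 hd.1 hL (j := i + 1) ?_⟩
  refine ⟨1, (M ⊓ π.ker).one_mem, ?_, Or.inl ?_⟩
  · rw [h1, D.S.act_one]
  · have e1 : i + 1 - 1 = i := by ring
    have e2 : i + 1 + 1 = i + 2 := by ring
    have e3 : (1 : Γ) * D.P * 1⁻¹ = D.P := by group
    rw [e1, e2, e3, h0, h2]
    exact ⟨D.hPe.2, hPw1⟩

theorem K12.edge_elt {M : Subgroup Γ} {g : G} {Ω : Set (Subgroup Γ)}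
    (D : KData π M g Ω) (C : CutTree D.S D.v D.P) {x h : Γ} (hx : x ∈ M) (hh : h ∈ M ⊓ π.ker)
    (h1 : C.T.act h (C.κ (D.S.act x D.v)) = C.κ (D.S.act x D.v)) (h2 : C.T.act h (C.ℓ x) = C.ℓ x) :
    ∃ a ∈ D.A, a * D.P = D.P * a ∧ h = x * a * x⁻¹ := by
  obtain ⟨a, ha, hcm, he⟩ := (C.edge_stab hx hh.1).1 ⟨h1, h2⟩
  refine ⟨a, ⟨ha, ?_⟩, hcm, he⟩
  have h3 : π h = 1 := hh.2
  rw [he, map_mul, map_mul, map_inv] at h3
  have h4 : π a = (π x)⁻¹ * (π x * π a * (π x)⁻¹) * π x := by group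
  change π a = 1
  rw [h4, h3]; group

theorem KData.cut_splitting (hc : Ctx π) {M : Subgroup Γ} {g : G} (hM : Cyc π M g) {Ω : Set (Subgroup Γ)}
    (hΩ : IsProper π.ker M Ω) (D : KData π M g Ω) (C : CutTree D.S D.v D.P) (h1 : D.Case1) :
    C.T.IsSplitting π.ker := by
  classical
  refine ⟨?_, C.orb hM D.hP D.hPg D.hPe.1, ?_⟩
  · intro h hh a b hab ha hb
    obtain ⟨x, hx, ⟨rfl, rfl⟩ | ⟨rfl, rfl⟩⟩ := C.edge a b hab
    · obtain ⟨a, haA, hcm, he⟩ := K12.edge_elt D C hx hh ha hb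
      rw [he, h1 a haA hcm]; group
    · obtain ⟨a, haA, hcm, he⟩ := K12.edge_elt D C hx hh hb ha
      rw [he, h1 a haA hcm]; group
  · refine ⟨{(C.κ D.v, C.ℓ 1), (C.ℓ 1, C.κ D.v)}, fun a b hab => ?_⟩
    obtain ⟨h, hh, ⟨rfl, rfl⟩ | ⟨rfl, rfl⟩⟩ := C.one_orbit hM D.hP D.hPg D.hPe.1 a b hab
    · refine ⟨h⁻¹, (M ⊓ π.ker).inv_mem hh, ?_⟩
      rw [C.T.act_inv_act hh.1, C.T.act_inv_act hh.1]
      simp
    · refine ⟨h⁻¹, (M ⊓ π.ker).inv_mem hh, ?_⟩
      rw [C.T.act_inv_act hh.1, C.T.act_inv_act hh.1]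
      simp

theorem KData.cut_edge_stab (hc : Ctx π) {M : Subgroup Γ} {g : G} (hM : Cyc π M g) {Ω : Set (Subgroup Γ)}
    (hΩ : IsProper π.ker M Ω) (D : KData π M g Ω) (C : CutTree D.S D.v D.P) {y R : Γ} {k : ℤ}
    (h2 : D.Case2 y R k) (a b : C.T.X) (hab : C.T.G.Adj a b) :
    ∃ h ∈ M ⊓ π.ker, ∀ x ∈ M ⊓ π.ker, (C.T.act x a = a ∧ C.T.act x b = b) ↔
      x ∈ MulAut.conj h • Subgroup.zpowers y := by
  have h1M : (1 : Γ) ∈ M := M.one_mem
  have hv1 : D.S.act 1 D.v = D.v := D.S.act_one D.v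
  -- stabiliser of the base edge
  have base : ∀ x ∈ M ⊓ π.ker, (C.T.act x (C.κ D.v) = C.κ D.v ∧ C.T.act x (C.ℓ 1) = C.ℓ 1) ↔
      x ∈ Subgroup.zpowers y := by
    intro x hx
    constructor
    · rintro ⟨e1, e2⟩
      obtain ⟨a, haA, hcm, he⟩ := K12.edge_elt D C h1M hx (by rw [hv1]; exact e1) e2
      have : x = a := by rw [he]; group
      rw [this]
      exact h2.centr a haA hcm
    · intro hxy
      obtain ⟨n, rfl⟩ := Subgroup.mem_zpowers_iff.1 hxy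
      have h3 : y ^ n ∈ D.S.stab D.v := (D.S.stab D.v).zpow_mem h2.yA.1 n
      have h4 : y ^ n * D.P = D.P * y ^ n := (Commute.zpow_left h2.comm n)
      have := (C.edge_stab (x := 1) h1M hx.1).2 ⟨y ^ n, h3, h4, by group⟩
      rwa [hv1] at this
  have tr : ∀ h ∈ M ⊓ π.ker, ∀ x ∈ M ⊓ π.ker,
      (C.T.act x (C.T.act h (C.κ D.v)) = C.T.act h (C.κ D.v) ∧
        C.T.act x (C.T.act h (C.ℓ 1)) = C.T.act h (C.ℓ 1)) ↔
      x ∈ MulAut.conj h • Subgroup.zpowers y := by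
    intro h hh x hx
    have hxh : h⁻¹ * x * h ∈ M ⊓ π.ker := by
      refine ⟨M.mul_mem (M.mul_mem (M.inv_mem hh.1) hx.1) hh.1, ?_⟩
      have e1 : π h = 1 := hh.2
      have e2 : π x = 1 := hx.2
      change π (h⁻¹ * x * h) = 1
      rw [map_mul, map_mul, map_inv, e1, e2]; group
    have tt : ∀ t, C.T.act x (C.T.act h t) = C.T.act h t ↔ C.T.act (h⁻¹ * x * h) t = t := by
      intro t
      have e : C.T.act (h⁻¹ * x * h) t = C.T.act h⁻¹ (C.T.act x (C.T.act h t)) := by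
        rw [C.T.act_mul _ (M.mul_mem (M.inv_mem hh.1) hx.1) _ hh.1,
          C.T.act_mul _ (M.inv_mem hh.1) _ hx.1]
      rw [e]
      constructor
      · intro h5
        rw [h5, C.T.act_inv_act hh.1]
      · intro h5
        have := congrArg (C.T.act h) h5
        rwa [C.T.act_act_inv hh.1] at this
    rw [tt, tt, base _ hxh, Subgroup.mem_pointwise_smul_iff_inv_smul_mem, ← map_inv, MulAut.smul_def,
      MulAut.conj_apply, inv_inv]
  obtain ⟨h, hh, ⟨rfl, rfl⟩ | ⟨rfl, rfl⟩⟩ := C.one_orbit hM D.hP D.hPg D.hPe.1 a b hab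
  · exact ⟨h, hh, tr h hh⟩
  · exact ⟨h, hh, fun x hx => by rw [and_comm]; exact tr h hh x hx⟩

end Pool.Agent.Lib.MP_6567fb_al
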