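import Pool.Agent.Lib.MP_6567fb_al.T1c

/-!
# MP_6567fb_al, module T1d

Potentials and ends.
-/

set_option autoImplicit false

open scoped Pointwise

namespace Pool.Agent.Lib.MP_6567fb_al

open MTree
namespace TG
variable {X : Type} {G : SimpleGraph X}

/-- every antisymmetric function on the edges of a tree is the difference of a function on the vertices -/
theorem potential (hG : G.IsTree) {A : Type} [AddCommGroup A] (c : X → X → A)
    (hc : ∀ x y, G.Adj x y → c y x = - c x y) :
    ∃ u : X → A, ∀ x y, G.Adj x y → u y - u x = c x y := by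
  classical
  obtain ⟨x₀⟩ := hG.connected.nonempty
  have hpr : ∀ x, ∃ y, x ≠ x₀ → G.Adj x y ∧ G.dist y x₀ + 1 = G.dist x x₀ := by
    intro x
    by_cases hx : x = x₀
    · exact ⟨x, fun h => absurd hx h⟩
    · obtain ⟨y, hy⟩ := exists_next hG hx
      exact ⟨y, fun _ => hy⟩
  choose pr hpr using hpr
  set f : ℕ → X → A := fun n => Nat.rec (fun _ => 0) (fun _ g x => g (pr x) + c (pr x) x) n with hf
  have hf1 : ∀ n x, f (n + 1) x = f n (pr x) + c (pr x) x := fun n x => rfl
  have key : ∀ x y, G.Adj x y → G.dist x x₀ + 1 = G.dist y x₀ →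
      f (G.dist y x₀) y - f (G.dist x x₀) x = c x y := by
    intro x y hxy hd
    have hy : y ≠ x₀ := by
      rintro rfl
      rw [SimpleGraph.dist_self] at hd
      omega
    obtain ⟨h1, h2⟩ := hpr y hy
    have h3 : pr y = x := next_unique hG h1 h2 hxy.symm hd
    rw [← hd, hf1, h3]
    abel
  refine ⟨fun x => f (G.dist x x₀) x, fun x y hxy => ?_⟩
  rcases adj_dist hG hxy x₀ with h | h
  · have h1 := key y x hxy.symm h.symm
    rw [hc y x hxy.symm, ← h1]
    abel
  · exact key x y hxy h.symm

/-- the potential is unique up to a constant -/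
theorem potential_unique (hG : G.IsTree) {A : Type} [AddCommGroup A] (u : X → A)
    (hu : ∀ x y, G.Adj x y → u y = u x) (x y : X) : u x = u y := by
  obtain ⟨p⟩ := hG.connected.preconnected x y
  induction p with
  | nil => rfl
  | cons h _ ih => rw [← hu _ _ h, ih]

/-- a locally finite tree: a sequence of vertices which is finally on one side of every edge and leaves every
finite set converges to an end -/
theorem ray_of_seq (hG : G.IsTree) (hf : ∀ x, {y | G.Adj x y}.Finite) (a : ℕ → X)
    (hinf : ∀ x, {n | a n = x}.Finite)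
    (hs : ∀ x y, G.Adj x y → ∃ n, (∀ m ≥ n, Beyond G x y (a m)) ∨ (∀ m ≥ n, ¬ Beyond G x y (a m))) (x₀ : X) :
    ∃ L : ℕ → X, IsRay G L ∧ L 0 = x₀ ∧ ∀ i, ∃ n, ∀ m ≥ n, Beyond G (L i) (L (i + 1)) (a m) := by
  classical
  have hnx : ∀ x, ∃ y, G.Adj x y ∧ ∃ n, ∀ m ≥ n, Beyond G x y (a m) := by
    intro x
    by_contra hcon
    push Not at hcon
    have h1 : ∀ y, ∃ n, G.Adj x y → ∀ m ≥ n, ¬ Beyond G x y (a m) := by
      intro y
      by_cases hxy : G.Adj x y
      · obtain ⟨n, h | h⟩ := hs x y hxy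
        · obtain ⟨m, hm, hm'⟩ := hcon y hxy n
          exact absurd (h m hm) hm'
        · exact ⟨n, fun _ => h⟩
      · exact ⟨0, fun h => absurd h hxy⟩
    choose N hN using h1
    obtain ⟨B, hB⟩ := (hinf x).bddAbove
    obtain ⟨B', hB'⟩ := ((hf x).image N).bddAbove
    set m := max (B + 1) B' with hm
    have hne : x ≠ a m := by
      intro h
      have := hB (show m ∈ {n | a n = x} from h.symm)
      have h2 : B + 1 ≤ m := le_max_left _ _
      omega
    obtain ⟨y, hy, hyz⟩ := exists_next hG hne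
    have h2 : N y ≤ m := (hB' ⟨y, hy, rfl⟩).trans (le_max_right _ _)
    apply hN y hy m h2
    unfold Beyond
    omega
  choose nx hadj hbey using hnx
  set L : ℕ → X := fun n => nx^[n] x₀ with hL
  have hL1 : ∀ i, L (i + 1) = nx (L i) := fun i => Function.iterate_succ_apply' nx i x₀
  refine ⟨L, ray_of_local hG L (fun i => ?_) (fun i h => ?_), rfl, fun i => ?_⟩
  · rw [hL1]
    exact hadj _
  · have e1 : L (i + 2) = nx (nx (L i)) := by rw [hL1 (i + 1), hL1 i]
    obtain ⟨n, hn⟩ := hbey (L i)
    obtain ⟨n', hn'⟩ := hbey (nx (L i))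
    rw [← e1, ← h] at hn'
    exact ((beyond_iff hG (hadj (L i)) _).1 (hn (max n n') (le_max_left _ _)))
      (hn' (max n n') (le_max_right _ _))
  · obtain ⟨n, hn⟩ := hbey (L i)
    exact ⟨n, fun m hm => by rw [hL1]; exact hn m hm⟩

end TG

end Pool.Agent.Lib.MP_6567fb_al
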