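import Pool.Agent.Lib.MP_6567fb_al.K10s
import Pool.Agent.Lib.MP_6567fb_al.T7c
import Pool.Agent.Lib.MP_6567fb_al.T1d
import Pool.Agent.Lib.MP_6567fb_al.T2a

/-!
# MP_6567fb_al, module K13

fold_step: w1 ≠ w2 neighbours of p, z the common first vertex of [f p, f w1] and [f p, f w2], no non-trivial element of H fixes p and z.
Star blow up of p: C := {z' // ∃ a ∈ T.stab p, Y.act a z = z'} (T.stab p acts freely on it by hfree), ac a z' := a z'; col w := some z' if z' ∈ C is the first vertex of [f p, f w] (w with f w ≠ f p), otherwise none.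
star_exists: St.  D'.T := St.T.  It is a splitting: edges over edges of T: hT.free; leaf edges (ctr (x p), leaf x c): stabiliser trivial by freeness (leaf_stab, leaf_inj); orb with m itself (M = H); finitely many orbits: one lift
for each base edge, one orbit of leaf edges.  Rel Ω: ctr.  f' (ctr y) := f y, f' (leaf x c) := Y.act x c (well defined by leaf_stab, leaf_inj, pr_leaf); equivariant.
R' := the pairs of end points of the lifts of the edges in R (e ∈ R which are edges), and (ctr p, leaf 1 z).  Length: for (u,w) ∈ R an edge, each coloured end is moved by one step towards the other end: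
new length = d - number of coloured ends (if both ends are coloured then d ≥ 2: u = x p, w = x' p, first vertex of [f u, f w] is in the orbit of z by x.., if d = 1 an element of H maps (f u, f w) to (f w, f u):
it inverts an edge of Y).  (p,w1) and (p,w2) are in two different H-orbits of oriented edges (h (p,w1) = (p,w2) implies h p = p, h z = z, h = 1), each represented in R by an edge or its reverse: at least
2 coloured ends in R.  len' ≤ len + 1 - 2 (elements of R which are not edges can be dropped).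
-/

set_option autoImplicit false

open scoped Pointwise

namespace Pool.Agent.Lib.MP_6567fb_al

open MTree

variable {Γ G : Type} [Group Γ] [Group G] {π : Γ →* G}

/-! ### moving two points of a tree towards each other -/

theorem TG.k13_move {X : Type} {G : SimpleGraph X} (hG : G.IsTree) {A B A' B' : X}
    (hA : A' = A ∨ (G.Adj A A' ∧ TG.Btw G A A' B)) (hB : B' = B ∨ (G.Adj B B' ∧ TG.Btw G B B' A))
    (hne : ¬ (A' = B ∧ B' = A ∧ G.Adj A B)) :
    G.dist A' B' + G.dist A A' + G.dist B B' = G.dist A B := by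
  rcases hA with rfl | ⟨h1, h2⟩ <;> rcases hB with rfl | ⟨h3, h4⟩
  · simp
  · unfold TG.Btw at h4
    rw [G.dist_comm (u := A') (v := B'), G.dist_comm (u := A') (v := B), SimpleGraph.dist_self]
    omega
  · unfold TG.Btw at h2
    rw [SimpleGraph.dist_self]
    omega
  · have e1 : G.dist A A' = 1 := TG.dist_eq_one h1
    have e2 : G.dist B B' = 1 := TG.dist_eq_one h3
    have h2' := TG.btw_symm hG h2
    by_cases h : A' = B
    · subst h
      exfalso
      refine hne ⟨rfl, ?_, h1⟩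
      unfold TG.Btw at h4
      apply TG.dist_zero hG
      rw [G.dist_comm (u := A') (v := A)] at h4
      omega
    · obtain ⟨n, hn, hnd⟩ := TG.exists_next hG (Ne.symm h)
      have h5 := TG.next_of_btw hG h2' hn hnd
      have h6 : n = B' := by
        refine TG.next_unique hG hn h5 h3 ?_
        unfold TG.Btw at h4
        omega
      subst h6
      unfold TG.Btw at h2
      rw [G.dist_comm (u := n) (v := A')] at hnd
      rw [G.dist_comm (u := B) (v := A')] at hnd
      omega

section k13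
open Classical

/-- the tree with the trivial action outside `H` -/
noncomputable def k13mod {H : Subgroup Γ} (T : MTree H) : MTree H where
  X := T.X
  G := T.G
  tree := T.tree
  act m x := if m ∈ H then T.act m x else x
  act_one x := by rw [if_pos H.one_mem, T.act_one]
  act_mul m hm m' hm' x := by rw [if_pos (H.mul_mem hm hm'), if_pos hm, if_pos hm', T.act_mul m hm m' hm']
  act_adj m hm x y h := by rw [if_pos hm, if_pos hm]; exact T.act_adj m hm x y h

theorem k13mod_act {H : Subgroup Γ} (T : MTree H) {m : Γ} (hm : m ∈ H) (x : T.X) :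
    (k13mod T).act m x = T.act m x := if_pos hm

variable {H : Subgroup Γ} (B : MTree H) (p : B.X) (Y : MTree H) (z : Y.X)

/-- the orbit of `z` under the stabiliser of `p` -/
abbrev k13C : Type := {z' : Y.X // ∃ a ∈ B.stab p, Y.act a z = z'}

/-- its action -/
noncomputable def k13ac (a : Γ) (c : k13C B p Y z) : k13C B p Y z :=
  if h : a ∈ B.stab p then ⟨Y.act a c.1, by
    obtain ⟨b, hb, hb'⟩ := c.2
    exact ⟨a * b, (B.stab p).mul_mem h hb, by rw [Y.act_mul a h.1 b hb.1, hb']⟩⟩
  else c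

theorem k13ac_val {a : Γ} (h : a ∈ B.stab p) (c : k13C B p Y z) :
    (k13ac B p Y z a c).1 = Y.act a c.1 := by
  unfold k13ac
  rw [dif_pos h]

/-- the colour of a neighbour of `p` -/
noncomputable def k13col (f : B.X → Y.X) (w : B.X) : Option (k13C B p Y z) :=
  if h : ∃ c : k13C B p Y z, Y.Btw (f p) c.1 (f w) then some h.choose else none

variable {B p Y z}

theorem k13_adj {f : B.X → Y.X} (equi : ∀ h ∈ H, ∀ x, f (B.act h x) = Y.act h (f x))
    (hz : Y.G.Adj (f p) z) (c : k13C B p Y z) : Y.G.Adj (f p) c.1 := by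
  obtain ⟨a, ha, ha'⟩ := c.2
  have h1 := Y.act_adj a ha.1 _ _ hz
  rw [← equi a ha.1, ha.2, ha'] at h1
  exact h1

theorem k13_dist_next {f : B.X → Y.X} (equi : ∀ h ∈ H, ∀ x, f (B.act h x) = Y.act h (f x))
    (hz : Y.G.Adj (f p) z) {c : k13C B p Y z} {y : Y.X} (h : Y.Btw (f p) c.1 y) :
    Y.G.dist c.1 y + 1 = Y.G.dist (f p) y := by
  have h1 := TG.dist_eq_one (k13_adj equi hz c)
  have h2 : Y.G.dist (f p) c.1 + Y.G.dist c.1 y = Y.G.dist (f p) y := h
  omega

theorem k13col_iff {f : B.X → Y.X} (equi : ∀ h ∈ H, ∀ x, f (B.act h x) = Y.act h (f x))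
    (hz : Y.G.Adj (f p) z) (w : B.X) (c : k13C B p Y z) :
    k13col B p Y z f w = some c ↔ Y.Btw (f p) c.1 (f w) := by
  constructor
  · intro h
    unfold k13col at h
    split_ifs at h with h'
    have h2 := h'.choose_spec
    rw [Option.some.injEq] at h
    rwa [h] at h2
  · intro h
    unfold k13col
    have h' : ∃ c : k13C B p Y z, Y.Btw (f p) c.1 (f w) := ⟨c, h⟩
    rw [dif_pos h', Option.some.injEq]
    apply Subtype.ext
    exact TG.next_unique Y.tree (k13_adj equi hz _) (k13_dist_next equi hz h'.choose_spec)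
      (k13_adj equi hz _) (k13_dist_next equi hz h)

theorem k13_hcol {f : B.X → Y.X} (equi : ∀ h ∈ H, ∀ x, f (B.act h x) = Y.act h (f x))
    (hz : Y.G.Adj (f p) z) {s : Γ} (hs : s ∈ B.stab p) (w : B.X) :
    k13col B p Y z f (B.act s w) = (k13col B p Y z f w).map (k13ac B p Y z s) := by
  have key : ∀ (a : Γ), a ∈ B.stab p → ∀ (w : B.X) (c : k13C B p Y z),
      k13col B p Y z f w = some c → k13col B p Y z f (B.act a w) = some (k13ac B p Y z a c) := by
    intro a ha w c hc
    rw [k13col_iff equi hz] at hc ⊢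
    rw [k13ac_val B p Y z ha, equi a ha.1]
    have h1 := (Y.btw_act ha.1 (f p) c.1 (f w)).2 hc
    rw [← equi a ha.1, ha.2] at h1
    exact h1
  cases h : k13col B p Y z f w with
  | some c => rw [key s hs w c h]; rfl
  | none =>
    cases h' : k13col B p Y z f (B.act s w) with
    | none => rfl
    | some c =>
      have h2 := key s⁻¹ ((B.stab p).inv_mem hs) _ _ h'
      rw [B.act_inv_act hs.1, h] at h2
      exact absurd h2 (by simp)

theorem k13_star {f : B.X → Y.X} (equi : ∀ h ∈ H, ∀ x, f (B.act h x) = Y.act h (f x))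
    (hz : Y.G.Adj (f p) z) :
    Nonempty (StarTree B p (k13C B p Y z) (k13ac B p Y z) (k13col B p Y z f)) := by
  apply star_exists
  · intro c
    apply Subtype.ext
    rw [k13ac_val B p Y z (B.stab p).one_mem, Y.act_one]
  · intro s hs s' hs' c
    apply Subtype.ext
    rw [k13ac_val B p Y z ((B.stab p).mul_mem hs hs'), k13ac_val B p Y z hs, k13ac_val B p Y z hs',
      Y.act_mul s hs.1 s' hs'.1]
  · intro s hs w _
    exact k13_hcol equi hz hs w

variable {f : B.X → Y.X} (St : StarTree B p (k13C B p Y z) (k13ac B p Y z) (k13col B p Y z f))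

/-- the new map -/
noncomputable def k13f (t : St.T.X) : Y.X :=
  if h : ∃ e : Γ × k13C B p Y z, e.1 ∈ H ∧ t = St.leaf e.1 e.2 then Y.act h.choose.1 h.choose.2.1
  else f (St.pr t)

/-- equality of leaves -/
theorem k13_leaf_eq {x x' : Γ} (hx : x ∈ H) (hx' : x' ∈ H) {c c' : k13C B p Y z}
    (h : St.leaf x c = St.leaf x' c') : x⁻¹ * x' ∈ B.stab p ∧ k13ac B p Y z (x⁻¹ * x') c' = c := by
  have h1 : B.act x p = B.act x' p := by rw [← St.pr_leaf x hx c, ← St.pr_leaf x' hx' c', h]
  have hs : x⁻¹ * x' ∈ B.stab p := by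
    refine ⟨H.mul_mem (H.inv_mem hx) hx', ?_⟩
    rw [B.act_mul _ (H.inv_mem hx) _ hx', ← h1, B.act_inv_act hx]
  refine ⟨hs, ?_⟩
  have h2 := St.leaf_stab x hx _ hs c'
  rw [mul_inv_cancel_left] at h2
  exact St.leaf_inj x hx _ _ (by rw [← h2, ← h])

theorem k13f_leaf {x : Γ} (hx : x ∈ H) (c : k13C B p Y z) : k13f St (St.leaf x c) = Y.act x c.1 := by
  have h : ∃ e : Γ × k13C B p Y z, e.1 ∈ H ∧ St.leaf x c = St.leaf e.1 e.2 := ⟨(x, c), hx, rfl⟩
  unfold k13f
  rw [dif_pos h]
  obtain ⟨h1, h2⟩ := h.choose_spec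
  obtain ⟨h3, h4⟩ := k13_leaf_eq St hx h1 h2
  have h5 : c.1 = Y.act (x⁻¹ * h.choose.1) h.choose.2.1 := by
    rw [← k13ac_val B p Y z h3, h4]
  rw [h5, ← Y.act_mul x hx _ h3.1, mul_inv_cancel_left]

theorem k13f_ctr (y : B.X) : k13f St (St.ctr y) = f y := by
  unfold k13f
  rw [dif_neg, St.pr_ctr]
  rintro ⟨e, he, he'⟩
  exact St.ctr_ne_leaf y e.1 he e.2 he'

theorem k13f_equi (equi : ∀ h ∈ H, ∀ x, f (B.act h x) = Y.act h (f x)) {h : Γ} (hh : h ∈ H)
    (t : St.T.X) : k13f St (St.T.act h t) = Y.act h (k13f St t) := by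
  rcases St.vert t with ⟨y, rfl⟩ | ⟨x, hx, c, rfl⟩
  · rw [St.ctr_equi h hh, k13f_ctr, k13f_ctr, equi h hh]
  · rw [St.leaf_equi h hh x hx, k13f_leaf St (H.mul_mem hh hx), k13f_leaf St hx, Y.act_mul h hh x hx]

/-- every element of the orbit is the base element moved by the stabiliser -/
theorem k13_base (c : k13C B p Y z) : ∃ b ∈ B.stab p,
    k13ac B p Y z b ⟨z, 1, (B.stab p).one_mem, Y.act_one z⟩ = c := by
  obtain ⟨b, hb, hb'⟩ := c.2
  exact ⟨b, hb, Subtype.ext (by rw [k13ac_val B p Y z hb]; exact hb')⟩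

/-- the end at `pr a` of a kept edge -/
theorem k13_end (equi : ∀ h ∈ H, ∀ x, f (B.act h x) = Y.act h (f x)) (hz : Y.G.Adj (f p) z)
    {a b : St.T.X} (hab : St.T.G.Adj a b) (hne : St.pr a ≠ St.pr b) :
    k13f St a = f (St.pr a) ∨ ∃ x ∈ H, St.pr a = B.act x p ∧ k13f St a = Y.act x z ∧
      Y.G.Adj (f (St.pr a)) (k13f St a) ∧ Y.Btw (f (St.pr a)) (k13f St a) (f (St.pr b)) := by
  rcases St.vert a with ⟨y, rfl⟩ | ⟨x, hx, c, rfl⟩
  · left
    rw [k13f_ctr, St.pr_ctr]
  · right
    obtain ⟨s, hs, rfl⟩ := k13_base c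
    have hp := St.pr_leaf x hx (k13ac B p Y z s ⟨z, 1, (B.stab p).one_mem, Y.act_one z⟩)
    have hcol := (St.end_leaf _ _ hab hne x hx hp _).1 rfl
    rw [k13col_iff equi hz] at hcol
    rw [k13f_leaf St hx, hp, equi x hx]
    refine ⟨x * s, H.mul_mem hx hs.1, ?_, ?_, ?_, ?_⟩
    · rw [B.act_mul x hx s hs.1, hs.2]
    · rw [k13ac_val B p Y z hs, Y.act_mul x hx s hs.1]
    · exact Y.act_adj x hx _ _ (k13_adj equi hz _)
    · have h1 := (Y.btw_act hx _ _ _).2 hcol
      rw [← equi x hx (B.act x⁻¹ (St.pr b)), B.act_act_inv hx] at h1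
      exact h1

/-- the length of the new edge -/
theorem k13_cost (hY : Y.NoInv) (equi : ∀ h ∈ H, ∀ x, f (B.act h x) = Y.act h (f x))
    (hz : Y.G.Adj (f p) z) {a b : St.T.X} (hab : St.T.G.Adj a b) (hne : St.pr a ≠ St.pr b) :
    Y.G.dist (k13f St a) (k13f St b) + Y.G.dist (f (St.pr a)) (k13f St a)
      + Y.G.dist (f (St.pr b)) (k13f St b) = Y.G.dist (f (St.pr a)) (f (St.pr b)) := by
  have ha := k13_end St equi hz hab hne
  have hb := k13_end St equi hz hab.symm hne.symm
  apply TG.k13_move Y.tree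
  · rcases ha with h | ⟨x, hx, h1, h2, h3, h4⟩
    · exact Or.inl h
    · exact Or.inr ⟨h3, h4⟩
  · rcases hb with h | ⟨x, hx, h1, h2, h3, h4⟩
    · exact Or.inl h
    · exact Or.inr ⟨h3, h4⟩
  · rintro ⟨e1, e2, hadj⟩
    rcases ha with h | ⟨x, hx, h1, h2, h3, h4⟩
    · rw [h] at e1
      rw [e1] at hadj
      exact hadj.ne rfl
    · rcases hb with h | ⟨x', hx', h1', h2', h3', h4'⟩
      · rw [h] at e2
        rw [e2] at hadj
        exact hadj.ne rfl
      · rw [h1, h1'] at hadj
        have i1 : Y.act x z = f (B.act x' p) := by rw [← h2, ← h1']; exact e1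
        have i2 : Y.act x' z = f (B.act x p) := by rw [← h2', ← h1]; exact e2
        refine hY (x' * x⁻¹) (H.mul_mem hx' (H.inv_mem hx)) _ _ hadj ⟨?_, ?_⟩
        · rw [Y.act_mul x' hx' x⁻¹ (H.inv_mem hx), equi x hx, Y.act_inv_act hx, equi x' hx']
        · rw [Y.act_mul x' hx' x⁻¹ (H.inv_mem hx), ← i1, Y.act_inv_act hx, i2]

/-- the coloured end over a translate of `(p,w)` -/
theorem k13_colend (equi : ∀ h ∈ H, ∀ x, f (B.act h x) = Y.act h (f x)) (hz : Y.G.Adj (f p) z)
    {w : B.X} (hw : Y.Btw (f p) z (f w)) {h : Γ} (hh : h ∈ H) {a b : St.T.X} (hab : St.T.G.Adj a b)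
    (hne : St.pr a ≠ St.pr b) (ha : St.pr a = B.act h p) (hb : St.pr b = B.act h w) :
    Y.G.dist (f (St.pr a)) (k13f St a) = 1 := by
  set c₀ : k13C B p Y z := ⟨z, 1, (B.stab p).one_mem, Y.act_one z⟩ with hc₀
  have h1 : a = St.leaf h c₀ := by
    rw [St.end_leaf a b hab hne h hh ha c₀, k13col_iff equi hz, hb, B.act_inv_act hh]
    exact hw
  rw [ha, h1, k13f_leaf St hh, equi h hh, Y.dist_act hh]
  exact TG.dist_eq_one hz

/-- the new tree is a splitting -/
theorem k13_split {F : Subgroup Γ} (hHF : H ≤ F) (hB : B.IsSplitting F)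
    (hfree : ∀ h ∈ H, B.act h p = p → Y.act h z = z → h = 1)
    (R' : Finset (St.T.X × St.T.X))
    (hR' : ∀ x y, St.T.G.Adj x y → ∃ h ∈ H, (St.T.act h x, St.T.act h y) ∈ R' ∨
      (St.T.act h y, St.T.act h x) ∈ R') : (k13mod St.T).IsSplitting F := by
  refine ⟨?_, ?_, ?_⟩
  · intro h hh (x : St.T.X) (y : St.T.X) hxy hx hy
    replace hx : St.T.act h x = x := (k13mod_act St.T hh.1 x).symm.trans hx
    replace hy : St.T.act h y = y := (k13mod_act St.T hh.1 y).symm.trans hy
    have hxy' : St.T.G.Adj x y := hxy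
    by_cases hne : St.pr x = St.pr y
    · have key : ∀ a ∈ H, ∀ c, St.T.act h (St.leaf a c) = St.leaf a c → h = 1 := by
        intro a ha c hc
        rw [St.leaf_equi h hh.1 a ha] at hc
        obtain ⟨i1, i2⟩ := k13_leaf_eq St ha (H.mul_mem hh.1 ha) hc.symm
        obtain ⟨s, hs, rfl⟩ := k13_base c
        have i3 := congrArg Subtype.val i2
        rw [k13ac_val B p Y z i1, k13ac_val B p Y z hs] at i3
        have i4 : s⁻¹ * (a⁻¹ * (h * a)) * s ∈ B.stab p :=
          (B.stab p).mul_mem ((B.stab p).mul_mem ((B.stab p).inv_mem hs) i1) hs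
        have i5 := hfree _ i4.1 i4.2 (by
          rw [Y.act_mul _ (H.mul_mem (H.inv_mem hs.1) i1.1) s hs.1, Y.act_mul _ (H.inv_mem hs.1) _ i1.1]
          have i3' : Y.act (a⁻¹ * (h * a)) (Y.act s z) = Y.act s z := i3
          rw [i3', Y.act_inv_act hs.1])
        have i6 : a⁻¹ * (h * a) = 1 := by
          have : a⁻¹ * (h * a) = s * (s⁻¹ * (a⁻¹ * (h * a)) * s) * s⁻¹ := by group
          rw [this, i5]
          group
        have : h = a * (a⁻¹ * (h * a)) * a⁻¹ := by group
        rw [this, i6]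
        group
      obtain ⟨a, ha, c, h' | h'⟩ := St.adj_fib x y hxy' hne
      · rw [h'.2] at hy
        exact key a ha c hy
      · rw [h'.2] at hx
        exact key a ha c hx
    · refine hB.free h hh (St.pr x) (St.pr y) (St.blow.t10_adj hxy' hne) ?_ ?_
      · rw [← St.blow.equi h hh.1, hx]
      · rw [← St.blow.equi h hh.1, hy]
  · intro m hm x y _
    exact ⟨m, ⟨hm, hHF hm⟩, rfl, rfl⟩
  · refine ⟨R' ∪ R'.image Prod.swap, ?_⟩
    intro (x : St.T.X) (y : St.T.X) hxy
    obtain ⟨h, hh, h1 | h1⟩ := hR' x y hxy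
    · refine ⟨h, ⟨hh, hHF hh⟩, ?_⟩
      have e : ((k13mod St.T).act h x, (k13mod St.T).act h y) = (St.T.act h x, St.T.act h y) :=
        Prod.ext (k13mod_act St.T hh x) (k13mod_act St.T hh y)
      exact e ▸ Finset.mem_union_left _ h1
    · refine ⟨h, ⟨hh, hHF hh⟩, ?_⟩
      have e : ((k13mod St.T).act h x, (k13mod St.T).act h y) = (St.T.act h x, St.T.act h y) :=
        Prod.ext (k13mod_act St.T hh x) (k13mod_act St.T hh y)
      exact e ▸ Finset.mem_union_right _ (Finset.mem_image.2 ⟨_, h1, rfl⟩)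

/-- the new tree is rel the family -/
theorem k13_rel {Ω : Set (Subgroup Γ)} (hrel : B.Rel Ω) : (k13mod St.T).Rel Ω := by
  intro E hE
  obtain ⟨x, hx⟩ := hrel E hE
  refine ⟨St.ctr x, ?_⟩
  intro d hd
  by_cases hdH : d ∈ H
  · refine (k13mod_act St.T hdH (St.ctr x)).trans ?_
    rw [St.ctr_equi d hdH, hx d hd]
  · exact if_neg hdH

end k13

theorem fold_step {H : Subgroup Γ} (hH : IsFactor π.ker π.ker H) {Ω : Set (Subgroup Γ)}
    {Y : MTree H} (hY : Y.NoInv) (D : FoldPair π.ker H Ω Y) {p w1 w2 : D.T.X} {z : Y.X}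
    (h1 : D.T.G.Adj p w1) (h2 : D.T.G.Adj p w2) (hne : w1 ≠ w2) (hz : Y.G.Adj (D.f p) z)
    (hz1 : Y.Btw (D.f p) z (D.f w1)) (hz2 : Y.Btw (D.f p) z (D.f w2))
    (hfree : ∀ h ∈ H, D.T.act h p = p → Y.act h z = z → h = 1) :
    ∃ D' : FoldPair π.ker H Ω Y, D'.len < D.len := by
  classical
  have hHF : H ≤ π.ker := fac_le hH
  obtain ⟨St⟩ := k13_star (B := D.T) (p := p) (Y := Y) (z := z) (f := D.f) D.equi hz
  set c₀ : k13C D.T p Y z := ⟨z, 1, (D.T.stab p).one_mem, Y.act_one z⟩ with hc₀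
  -- lifts of edges
  have hlift : ∀ e : D.T.X × D.T.X, ∃ e' : St.T.X × St.T.X, D.T.G.Adj e.1 e.2 →
      St.T.G.Adj e'.1 e'.2 ∧ St.pr e'.1 = e.1 ∧ St.pr e'.2 = e.2 := by
    intro e
    by_cases h : D.T.G.Adj e.1 e.2
    · obtain ⟨e', he', _⟩ := St.blow.lift e.1 e.2 h
      exact ⟨e', fun _ => he'⟩
    · obtain ⟨x⟩ := St.T.tree.connected.nonempty
      exact ⟨(x, x), fun h' => absurd h' h⟩
  choose lf hlf using hlift
  set R₀ : Finset (D.T.X × D.T.X) := D.R.filter (fun e => D.T.G.Adj e.1 e.2) with hR₀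
  set R' : Finset (St.T.X × St.T.X) := insert (St.ctr p, St.leaf 1 c₀) (R₀.image lf) with hR'
  have hRR' : ∀ x y, St.T.G.Adj x y → ∃ h ∈ H, (St.T.act h x, St.T.act h y) ∈ R' ∨
      (St.T.act h y, St.T.act h x) ∈ R' := by
    intro x y hxy
    by_cases hxy' : St.pr x = St.pr y
    · obtain ⟨a, ha, c, h'⟩ := St.adj_fib x y hxy hxy'
      obtain ⟨s, hs, hc⟩ := k13_base c
      have hab : (a * s)⁻¹ ∈ H := H.inv_mem (H.mul_mem ha hs.1)
      have e1 : St.T.act (a * s)⁻¹ (St.ctr (D.T.act a p)) = St.ctr p := by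
        rw [St.ctr_equi _ hab]
        congr 1
        have : D.T.act a p = D.T.act (a * s) p := by rw [D.T.act_mul a ha s hs.1, hs.2]
        rw [this, D.T.act_inv_act (H.mul_mem ha hs.1)]
      have e2 : St.T.act (a * s)⁻¹ (St.leaf a c) = St.leaf 1 c₀ := by
        rw [← hc, ← St.leaf_stab a ha s hs, St.leaf_equi _ hab _ (H.mul_mem ha hs.1), inv_mul_cancel]
      refine ⟨(a * s)⁻¹, hab, ?_⟩
      rcases h' with ⟨hx, hy⟩ | ⟨hy, hx⟩
      · left
        rw [hx, hy, e1, e2]
        exact Finset.mem_insert_self _ _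
      · right
        rw [hx, hy, e1, e2]
        exact Finset.mem_insert_self _ _
    · have hadj := St.blow.t10_adj hxy hxy'
      obtain ⟨h, hh, hm⟩ := D.hR _ _ hadj
      refine ⟨h, hh, ?_⟩
      have key : ∀ a b, St.T.G.Adj a b → D.T.G.Adj (St.pr a) (St.pr b) →
          (D.T.act h (St.pr a), D.T.act h (St.pr b)) ∈ D.R →
          (St.T.act h a, St.T.act h b) ∈ R' := by
        intro a b hab habp hmem
        have habp' := D.T.act_adj h hh _ _ habp
        have hin : (D.T.act h (St.pr a), D.T.act h (St.pr b)) ∈ R₀ :=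
          Finset.mem_filter.2 ⟨hmem, habp'⟩
        obtain ⟨l1, l2, l3⟩ := hlf (D.T.act h (St.pr a), D.T.act h (St.pr b)) habp'
        have hadj' := St.T.act_adj h hh _ _ hab
        have l4 : St.pr (St.T.act h a) = D.T.act h (St.pr a) := St.blow.equi h hh a
        have l5 : St.pr (St.T.act h b) = D.T.act h (St.pr b) := St.blow.equi h hh b
        obtain ⟨m1, m2⟩ := St.blow.t10_lift_unique hadj' l1 (by rw [l4, l5]; exact habp')
          (by rw [l2, l4]) (by rw [l3, l5])
        refine Finset.mem_insert_of_mem (Finset.mem_image.2 ⟨_, hin, ?_⟩)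
        rw [← m1, ← m2]
      rcases hm with hm | hm
      · exact Or.inl (key x y hxy hadj hm)
      · exact Or.inr (key y x hxy.symm hadj.symm hm)
  refine ⟨⟨k13mod St.T, k13_split St hHF D.hT hfree R' hRR', k13_rel St D.hrel, k13f St, ?_, R', ?_⟩, ?_⟩
  · intro h hh (x : St.T.X)
    exact (congrArg (k13f St) (k13mod_act St.T hh x)).trans (k13f_equi St D.equi hh x)
  · intro (x : St.T.X) (y : St.T.X) hxy
    obtain ⟨h, hh, hm⟩ := hRR' x y hxy
    refine ⟨h, hh, ?_⟩
    have e1 : (k13mod St.T).act h x = St.T.act h x := k13mod_act St.T hh x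
    have e2 : (k13mod St.T).act h y = St.T.act h y := k13mod_act St.T hh y
    rcases hm with hm | hm
    · left
      exact (Prod.ext e1 e2 : ((k13mod St.T).act h x, (k13mod St.T).act h y) = (St.T.act h x, St.T.act h y)) ▸ hm
    · right
      exact (Prod.ext e2 e1 : ((k13mod St.T).act h y, (k13mod St.T).act h x) = (St.T.act h y, St.T.act h x)) ▸ hm
  · -- the length
    change ∑ e ∈ R', Y.G.dist (k13f St e.1) (k13f St e.2) < ∑ e ∈ D.R, Y.G.dist (D.f e.1) (D.f e.2)
    set cost : D.T.X × D.T.X → ℕ := fun e => Y.G.dist (k13f St (lf e).1) (k13f St (lf e).2) with hcost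
    set i1 : D.T.X × D.T.X → ℕ := fun e => Y.G.dist (D.f e.1) (k13f St (lf e).1) with hi1
    set i2 : D.T.X × D.T.X → ℕ := fun e => Y.G.dist (D.f e.2) (k13f St (lf e).2) with hi2
    have hfil : ∀ e ∈ R₀, D.T.G.Adj e.1 e.2 := fun e he => (Finset.mem_filter.1 he).2
    have hsum : ∀ e ∈ R₀, cost e + i1 e + i2 e = Y.G.dist (D.f e.1) (D.f e.2) := by
      intro e he
      obtain ⟨l1, l2, l3⟩ := hlf e (hfil e he)
      have hne' : St.pr (lf e).1 ≠ St.pr (lf e).2 := by
        rw [l2, l3]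
        exact (hfil e he).ne
      have h := k13_cost St hY D.equi hz l1 hne'
      rw [l2, l3] at h
      exact h
    have hR'le : ∑ e ∈ R', Y.G.dist (k13f St e.1) (k13f St e.2) ≤ 1 + ∑ e ∈ R₀, cost e := by
      have hle : ∑ e ∈ R₀.image lf, Y.G.dist (k13f St e.1) (k13f St e.2) ≤ ∑ e ∈ R₀, cost e :=
        Finset.sum_image_le_of_nonneg (fun _ _ => Nat.zero_le _)
      have hone : Y.G.dist (k13f St (St.ctr p)) (k13f St (St.leaf 1 c₀)) = 1 := by
        rw [k13f_ctr, k13f_leaf St H.one_mem, Y.act_one]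
        exact TG.dist_eq_one hz
      by_cases hin : (St.ctr p, St.leaf 1 c₀) ∈ R₀.image lf
      · rw [hR', Finset.insert_eq_of_mem hin]
        omega
      · rw [hR', Finset.sum_insert hin]
        have : Y.G.dist (k13f St (St.ctr p)) (k13f St (St.leaf 1 c₀)) = 1 := hone
        dsimp only
        omega
    have hRle : ∑ e ∈ R₀, Y.G.dist (D.f e.1) (D.f e.2) ≤ ∑ e ∈ D.R, Y.G.dist (D.f e.1) (D.f e.2) :=
      Finset.sum_le_sum_of_subset (Finset.filter_subset _ _)
    have hR₀ : ∑ e ∈ R₀, Y.G.dist (D.f e.1) (D.f e.2) = ∑ e ∈ R₀, cost e + ∑ e ∈ R₀, (i1 e + i2 e) := by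
      rw [← Finset.sum_add_distrib]
      refine Finset.sum_congr rfl fun e he => ?_
      rw [← hsum e he, add_assoc]
    have htwo : 2 ≤ ∑ e ∈ R₀, (i1 e + i2 e) := by
      -- the end over a translate of `(p,w)` in the first position
      have k1 : ∀ w, Y.Btw (D.f p) z (D.f w) → ∀ h ∈ H, ∀ e ∈ R₀, e.1 = D.T.act h p → e.2 = D.T.act h w →
          i1 e = 1 := by
        intro w hw h hh e he he1 he2
        obtain ⟨l1, l2, l3⟩ := hlf e (hfil e he)
        have hne' : St.pr (lf e).1 ≠ St.pr (lf e).2 := by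
          rw [l2, l3]
          exact (hfil e he).ne
        have := k13_colend St D.equi hz hw hh l1 hne' (by rw [l2, he1]) (by rw [l3, he2])
        rw [l2] at this
        exact this
      have k2 : ∀ w, Y.Btw (D.f p) z (D.f w) → ∀ h ∈ H, ∀ e ∈ R₀, e.2 = D.T.act h p → e.1 = D.T.act h w →
          i2 e = 1 := by
        intro w hw h hh e he he1 he2
        obtain ⟨l1, l2, l3⟩ := hlf e (hfil e he)
        have hne' : St.pr (lf e).2 ≠ St.pr (lf e).1 := by
          rw [l2, l3]
          exact (hfil e he).symm.ne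
        have := k13_colend St D.equi hz hw hh l1.symm hne' (by rw [l3, he1]) (by rw [l2, he2])
        rw [l3] at this
        exact this
      -- two translates with the same image
      have k3 : ∀ g ∈ H, D.T.act g p = p → D.T.act g w1 = w2 → False := by
        intro g hg hgp hgw
        have hgz : Y.act g z = z := by
          have b1 := (Y.btw_act hg _ _ _).2 hz1
          rw [← D.equi g hg, ← D.equi g hg, hgp, hgw] at b1
          have a1 := Y.act_adj g hg _ _ hz
          rw [← D.equi g hg, hgp] at a1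
          have d1 := TG.dist_eq_one a1
          have d2 := TG.dist_eq_one hz
          refine TG.next_unique Y.tree a1 (z := D.f w2) ?_ hz ?_
          · have : Y.G.dist (D.f p) (Y.act g z) + Y.G.dist (Y.act g z) (D.f w2) = Y.G.dist (D.f p) (D.f w2) := b1
            omega
          · have : Y.G.dist (D.f p) z + Y.G.dist z (D.f w2) = Y.G.dist (D.f p) (D.f w2) := hz2
            omega
        have := hfree g hg hgp hgz
        rw [this, D.T.act_one] at hgw
        exact hne hgw
      have k4 : ∀ h ∈ H, ∀ h' ∈ H, D.T.act h p = D.T.act h' p → D.T.act h w1 = D.T.act h' w2 → False := by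
        intro h hh h' hh' e1 e2
        refine k3 (h'⁻¹ * h) (H.mul_mem (H.inv_mem hh') hh) ?_ ?_
        · rw [D.T.act_mul _ (H.inv_mem hh') _ hh, e1, D.T.act_inv_act hh']
        · rw [D.T.act_mul _ (H.inv_mem hh') _ hh, e2, D.T.act_inv_act hh']
      obtain ⟨h, hh, hm⟩ := D.hR p w1 h1
      obtain ⟨h', hh', hm'⟩ := D.hR p w2 h2
      have aux1 : ∀ e₁ ∈ R₀, ∀ e₂ ∈ R₀, 1 ≤ i1 e₁ + i2 e₁ → 1 ≤ i1 e₂ + i2 e₂ →
          (e₁ = e₂ → 2 ≤ i1 e₁ + i2 e₁) → 2 ≤ ∑ e ∈ R₀, (i1 e + i2 e) := by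
        intro e₁ he₁ e₂ he₂ c1 c2 c3
        by_cases he : e₁ = e₂
        · exact (c3 he).trans (Finset.single_le_sum (f := fun e => i1 e + i2 e)
            (fun _ _ => Nat.zero_le _) he₁)
        · have : ∑ e ∈ ({e₁, e₂} : Finset _), (i1 e + i2 e) ≤ ∑ e ∈ R₀, (i1 e + i2 e) :=
            Finset.sum_le_sum_of_subset (by
              intro x hx
              rcases Finset.mem_insert.1 hx with rfl | hx
              · exact he₁
              · rw [Finset.mem_singleton.1 hx]; exact he₂)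
          rw [Finset.sum_pair he] at this
          omega
      have a1 := D.T.act_adj h hh _ _ h1
      have a2 := D.T.act_adj h' hh' _ _ h2
      rcases hm with hm | hm <;> rcases hm' with hm' | hm'
      · have m1 : (D.T.act h p, D.T.act h w1) ∈ R₀ := Finset.mem_filter.2 ⟨hm, a1⟩
        have m2 : (D.T.act h' p, D.T.act h' w2) ∈ R₀ := Finset.mem_filter.2 ⟨hm', a2⟩
        have q1 := k1 w1 hz1 h hh _ m1 rfl rfl
        have q2 := k1 w2 hz2 h' hh' _ m2 rfl rfl
        refine aux1 _ m1 _ m2 (by omega) (by omega) ?_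
        intro he
        exact (k4 h hh h' hh' (congrArg Prod.fst he) (congrArg Prod.snd he)).elim
      · have m1 : (D.T.act h p, D.T.act h w1) ∈ R₀ := Finset.mem_filter.2 ⟨hm, a1⟩
        have m2 : (D.T.act h' w2, D.T.act h' p) ∈ R₀ := Finset.mem_filter.2 ⟨hm', a2.symm⟩
        have q1 := k1 w1 hz1 h hh _ m1 rfl rfl
        have q2 := k2 w2 hz2 h' hh' _ m2 rfl rfl
        refine aux1 _ m1 _ m2 (by omega) (by omega) ?_
        intro he
        rw [← he] at q2
        omega
      · have m1 : (D.T.act h w1, D.T.act h p) ∈ R₀ := Finset.mem_filter.2 ⟨hm, a1.symm⟩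
        have m2 : (D.T.act h' p, D.T.act h' w2) ∈ R₀ := Finset.mem_filter.2 ⟨hm', a2⟩
        have q1 := k2 w1 hz1 h hh _ m1 rfl rfl
        have q2 := k1 w2 hz2 h' hh' _ m2 rfl rfl
        refine aux1 _ m1 _ m2 (by omega) (by omega) ?_
        intro he
        rw [← he] at q2
        omega
      · have m1 : (D.T.act h w1, D.T.act h p) ∈ R₀ := Finset.mem_filter.2 ⟨hm, a1.symm⟩
        have m2 : (D.T.act h' w2, D.T.act h' p) ∈ R₀ := Finset.mem_filter.2 ⟨hm', a2.symm⟩
        have q1 := k2 w1 hz1 h hh _ m1 rfl rfl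
        have q2 := k2 w2 hz2 h' hh' _ m2 rfl rfl
        refine aux1 _ m1 _ m2 (by omega) (by omega) ?_
        intro he
        exact (k4 h hh h' hh' (congrArg Prod.snd he) (congrArg Prod.fst he)).elim
    omega

end Pool.Agent.Lib.MP_6567fb_al
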