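import Pool.Agent.Lib.MP_6567fb_al.Defs5
import Pool.Agent.Lib.MP_6567fb_al.T7c
import Pool.Agent.Lib.MP_6567fb_al.T11
import Pool.Agent.Lib.MP_6567fb_al.T10c

/-!
# MP_6567fb_al, module K13a

foldPair_exists: choose representatives of the H-orbits of vertices of T; a representative x with T.stab x ≠ ⊥ is mapped to a vertex fixed by it (hvg), with T.stab x = ⊥ anywhere; extend equivariantly.
H ≤ ker (fac_le), so H ⊓ ker = H.  R: from cocpt.
collapse_zero: collapse the edges with f a = f b (T11: K x y := f x ≠ f y), f factors through pr (pr_eq_iff: along the geodesic all edges have length 0); pr is surjective; the collapsed tree is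
a splitting (IsBlowup.base), rel Ω (IsBlowup.ell); R' := image of R under pr (Finset.image / map of pairs): the sum over the image is ≤ (Finset.sum_image_le or choose preimages).
-/

set_option autoImplicit false

open scoped Pointwise

namespace Pool.Agent.Lib.MP_6567fb_al

open MTree

variable {Γ G : Type} [Group Γ] [Group G] {π : Γ →* G}

theorem foldPair_exists {H : Subgroup Γ} (hH : IsFactor π.ker π.ker H) {Ω : Set (Subgroup Γ)} {Y : MTree H}
    (T : MTree H) (hT : T.IsSplitting π.ker) (hrel : T.Rel Ω) (hvg : Y.Rel (T.vgs π.ker)) :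
    Nonempty (FoldPair π.ker H Ω Y) := by
  classical
  have hHk : H ≤ π.ker := fac_le hH
  -- orbits
  let s : Setoid T.X := {
    r := fun x y => ∃ h ∈ H, T.act h x = y
    iseqv := ⟨fun x => ⟨1, H.one_mem, T.act_one x⟩,
      fun {x y} ⟨h, hh, e⟩ => ⟨h⁻¹, H.inv_mem hh, by rw [← e, T.act_inv_act hh]⟩,
      fun {x y z} ⟨h, hh, e⟩ ⟨h', hh', e'⟩ => ⟨h' * h, H.mul_mem hh' hh, by
        rw [T.act_mul _ hh' _ hh, e, e']⟩⟩ }
  let rep : T.X → T.X := fun x => Quotient.out (Quotient.mk s x)
  have hrep : ∀ x, ∃ h ∈ H, T.act h (rep x) = x := fun x => Quotient.mk_out (s := s) x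
  have hrepeq : ∀ h ∈ H, ∀ x, rep (T.act h x) = rep x := by
    intro h hh x
    change Quotient.out (Quotient.mk s _) = Quotient.out (Quotient.mk s _)
    congr 1
    apply Quotient.sound
    exact ⟨h⁻¹, H.inv_mem hh, T.act_inv_act hh x⟩
  choose g hgH hg using hrep
  have hf0 : ∀ z : T.X, ∃ y : Y.X, ∀ h ∈ T.stab z, Y.act h y = y := by
    intro z
    by_cases hz : T.stab z = ⊥
    · obtain ⟨y⟩ := Y.tree.connected.nonempty
      refine ⟨y, fun h hh => ?_⟩
      rw [hz, Subgroup.mem_bot] at hh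
      rw [hh, Y.act_one]
    · have h1 : T.stab z ⊓ π.ker = T.stab z := inf_eq_left.2 fun x hx => hHk hx.1
      obtain ⟨y, hy⟩ := hvg (T.stab z) ⟨hz, z, h1⟩
      exact ⟨y, fun h hh => hy h hh⟩
  choose f0 hf0 using hf0
  obtain ⟨S, hS⟩ := hT.cocpt
  refine ⟨⟨T, hT, hrel, fun x => Y.act (g x) (f0 (rep x)), ?_, S, ?_⟩⟩
  · intro h hh x
    rw [hrepeq h hh x]
    have h1 : (g (T.act h x))⁻¹ * (h * g x) ∈ T.stab (rep x) := by
      refine ⟨H.mul_mem (H.inv_mem (hgH _)) (H.mul_mem hh (hgH x)), ?_⟩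
      rw [T.act_mul _ (H.inv_mem (hgH _)) _ (H.mul_mem hh (hgH x)), T.act_mul _ hh _ (hgH x), hg x]
      have h2 := hg (T.act h x)
      rw [hrepeq h hh x] at h2
      nth_rewrite 2 [← h2]
      exact T.act_inv_act (hgH _) _
    have h3 := hf0 (rep x) _ h1
    rw [Y.act_mul _ (H.inv_mem (hgH _)) _ (H.mul_mem hh (hgH x)), Y.act_mul _ hh _ (hgH x)] at h3
    nth_rewrite 1 [← h3]
    exact Y.act_act_inv (hgH _) _
  · intro x y hxy
    obtain ⟨h, hh, e⟩ := hS x y hxy
    exact ⟨h, hh.1, Or.inl e⟩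

open Classical in
/-- the action made trivial outside `H` -/
noncomputable def cutAct {H : Subgroup Γ} (B : MTree H) : MTree H where
  X := B.X
  G := B.G
  tree := B.tree
  act := fun m x => if m ∈ H then B.act m x else x
  act_one := fun x => by rw [if_pos H.one_mem, B.act_one]
  act_mul := fun m hm m' hm' x => by
    rw [if_pos (H.mul_mem hm hm'), if_pos hm, if_pos hm', B.act_mul _ hm _ hm']
  act_adj := fun m hm x y h => by
    rw [if_pos hm, if_pos hm]
    exact B.act_adj m hm x y h

theorem cutAct_act {H : Subgroup Γ} (B : MTree H) {m : Γ} (hm : m ∈ H) (x : B.X) :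
    (cutAct B).act m x = B.act m x := if_pos hm

theorem cutAct_act' {H : Subgroup Γ} (B : MTree H) {m : Γ} (hm : m ∉ H) (x : B.X) :
    (cutAct B).act m x = x := if_neg hm

theorem collapse_zero {H : Subgroup Γ} (hH : IsFactor π.ker π.ker H) {Ω : Set (Subgroup Γ)}
    {Y : MTree H} (D : FoldPair π.ker H Ω Y) :
    ∃ D' : FoldPair π.ker H Ω Y, D'.len ≤ D.len ∧ ∀ x y, D'.T.G.Adj x y → D'.f x ≠ D'.f y := by
  classical
  obtain ⟨B, pr, hb, hK⟩ := MTree.collapse_exists D.T (fun x y => D.f x ≠ D.f y)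
    (fun x y h => h.symm) (fun m hm x y h h' => h (by
      rw [D.equi m hm, D.equi m hm] at h'
      exact Y.act_inj hm h'))
  -- `f` factors through `pr`
  have key : ∀ n x y, D.T.G.dist x y = n → pr x = pr y → D.f x = D.f y := by
    intro n
    induction n with
    | zero =>
      intro x y hx _
      rw [D.T.tree.connected.dist_eq_zero_iff.mp hx]
    | succ n ih =>
      intro x y hx hpr
      have hxy : x ≠ y := by
        rintro rfl
        rw [SimpleGraph.dist_self] at hx
        omega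
      obtain ⟨w, hxw, hw⟩ := (TG.exists_unique_next D.T.tree hxy).exists
      have hd : D.T.G.dist x w = 1 := SimpleGraph.dist_eq_one_iff_adj.mpr hxw
      have hbw : D.T.Btw x w y := by
        change D.T.G.dist x w + D.T.G.dist w y = D.T.G.dist x y
        omega
      have h1 : pr w = pr x := hb.conv (pr x) x rfl y hpr.symm w hbw
      have h2 : D.f x = D.f w := by
        by_contra h3
        exact ((hK x w hxw).2 h3) h1.symm
      rw [h2]
      exact ih w y (by omega) (h1.trans hpr)
  choose lf hlf using hb.surj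
  have hf' : ∀ x, D.f (lf (pr x)) = D.f x := fun x => key _ _ _ rfl (hlf _)
  have hBs : (cutAct B).IsSplitting π.ker := by
    have hBs := hb.base D.hT
    refine ⟨?_, ?_, ?_⟩
    · intro h hh x y hxy hx hy
      exact hBs.free h hh x y hxy ((cutAct_act B hh.1 x).symm.trans hx)
        ((cutAct_act B hh.1 y).symm.trans hy)
    · intro m hm x y hxy
      obtain ⟨h, hh, e1, e2⟩ := hBs.orb m hm x y hxy
      exact ⟨h, hh, (cutAct_act B hh.1 x).trans (e1.trans (cutAct_act B hm x).symm),
        (cutAct_act B hh.1 y).trans (e2.trans (cutAct_act B hm y).symm)⟩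
    · obtain ⟨S, hS⟩ := hBs.cocpt
      refine ⟨S, fun x y hxy => ?_⟩
      obtain ⟨h, hh, e⟩ := hS x y hxy
      refine ⟨h, hh, ?_⟩
      have e1 : (cutAct B).act h x = B.act h x := cutAct_act B hh.1 x
      have e2 : (cutAct B).act h y = B.act h y := cutAct_act B hh.1 y
      rw [e1, e2]
      exact e
  have hBrel : (cutAct B).Rel Ω := by
    intro E hE
    obtain ⟨x, hx⟩ := D.hrel E hE
    refine ⟨pr x, fun d hd => ?_⟩
    by_cases hdH : d ∈ H
    · refine (cutAct_act B hdH (pr x)).trans ?_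
      rw [← hb.equi d hdH, hx d hd]
    · exact cutAct_act' B hdH _
  refine ⟨⟨cutAct B, hBs, hBrel, fun b => D.f (lf b), ?_,
    D.R.image (fun e => (pr e.1, pr e.2)), ?_⟩, ?_, ?_⟩
  · intro h hh b
    have e1 : (cutAct B).act h b = B.act h b := cutAct_act B hh b
    rw [e1, ← D.equi h hh]
    nth_rewrite 1 [← hlf b]
    rw [← hb.equi h hh]
    exact hf' _
  · intro u v huv
    obtain ⟨⟨a, b⟩, hab, ha, hb'⟩ := (hb.lift u v huv).exists
    change D.T.G.Adj a b at hab
    change pr a = u at ha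
    change pr b = v at hb'
    subst ha
    subst hb'
    obtain ⟨h, hh, e⟩ := D.hR a b hab
    refine ⟨h, hh, ?_⟩
    have e1 : (cutAct B).act h (pr a) = pr (D.T.act h a) := by
      rw [hb.equi h hh]
      exact cutAct_act B hh _
    have e2 : (cutAct B).act h (pr b) = pr (D.T.act h b) := by
      rw [hb.equi h hh]
      exact cutAct_act B hh _
    rw [e1, e2]
    rcases e with e | e
    · exact Or.inl (Finset.mem_image.2 ⟨_, e, rfl⟩)
    · exact Or.inr (Finset.mem_image.2 ⟨_, e, rfl⟩)
  · change ∑ e ∈ D.R.image (fun e => (pr e.1, pr e.2)), Y.G.dist (D.f (lf e.1)) (D.f (lf e.2)) ≤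
      ∑ e ∈ D.R, Y.G.dist (D.f e.1) (D.f e.2)
    refine (Finset.sum_image_le_of_nonneg (fun _ _ => Nat.zero_le _)).trans ?_
    refine Finset.sum_le_sum fun e he => ?_
    simp only [hf']
    exact le_rfl
  · intro u v huv
    obtain ⟨⟨a, b⟩, hab, ha, hb'⟩ := (hb.lift u v huv).exists
    change D.T.G.Adj a b at hab
    change pr a = u at ha
    change pr b = v at hb'
    subst ha
    subst hb'
    change D.f (lf (pr a)) ≠ D.f (lf (pr b))
    rw [hf', hf']
    exact (hK a b hab).1 huv.ne

end Pool.Agent.Lib.MP_6567fb_al
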