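import Pool.Agent.Lib.MP_6567fb_al.K13
import Pool.Agent.Lib.MP_6567fb_al.K13a
import Pool.Agent.Lib.MP_6567fb_al.T2c

/-!
# MP_6567fb_al, module K14

folding: T₀ (the H-tree of the family Ω; H ⊓ ker = H, transport) gives a FoldPair (foldPair_exists).  Take a FoldPair of minimal length, without edges of length 0 (collapse_zero).  D.T is non-trivial: a
vertex fixed by H would be mapped to a vertex of Y fixed by H.
(a) If there are p, w1 ≠ w2, z as in fold_step: by minimality some h ≠ 1 in H fixes p and z, so it fixes the edge (f p, z) of Y, h ∈ conj k • zpowers y, y' := k y k⁻¹ commutes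
with h, so y' fixes p (the only vertex fixed by h, fixed_unique); so y fixes k⁻¹ p: done with D.T.
(b) Otherwise for all p and neighbours w1 ≠ w2 of p: Btw (f w1) (f p) (f w2).  Take an edge (a,b) of D.T and the first vertex z of [f a, f b]; y' ≠ 1 generates the stabiliser of (f a, z) (conj k • zpowers y, y ≠ 1).
(y' a, y' b) is an edge of T, ≠ (a,b) by hT.free, f (y' a) = f a.  If y' a ≠ a: chain_geod along the T-geodesic from a to y' a gives dist (f a) (f (y' a)) > 0: contradiction.  If y' a = a then y' b ≠ b are two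
neighbours of a with the same first vertex z: contradiction to Btw.
-/

set_option autoImplicit false

open scoped Pointwise

namespace Pool.Agent.Lib.MP_6567fb_al

open MTree

variable {Γ G : Type} [Group Γ] [Group G] {π : Γ →* G}

/-- two geodesics issuing from `p` either have a common first vertex or form a geodesic -/
theorem K14.btw_or_first {X : Type} {T : SimpleGraph X} (hT : T.IsTree) {a p b : X}
    (h : ¬ TG.Btw T a p b) : ∃ z, T.Adj p z ∧ TG.Btw T p z a ∧ TG.Btw T p z b := by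
  obtain ⟨m, ⟨h1, h2, h3⟩, _⟩ := TG.median hT a p b
  -- h1 : Btw a m p, h2 : Btw p m b, h3 : Btw a m b
  have hm : p ≠ m := by
    rintro rfl
    exact h h3
  obtain ⟨z, ⟨hz1, hz2⟩, _⟩ := TG.exists_unique_next hT hm
  have hb : TG.Btw T p z m := by
    unfold TG.Btw
    rw [SimpleGraph.dist_eq_one_iff_adj.2 hz1]; omega
  have h1' := TG.btw_symm hT h1
  refine ⟨z, hz1, ?_, ?_⟩
  · unfold TG.Btw at *
    have t1 := hT.1.dist_triangle (u := p) (v := z) (w := a)
    have t2 := hT.1.dist_triangle (u := z) (v := m) (w := a)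
    omega
  · unfold TG.Btw at *
    have t1 := hT.1.dist_triangle (u := p) (v := z) (w := b)
    have t2 := hT.1.dist_triangle (u := z) (v := m) (w := b)
    omega

theorem folding (hc : Ctx π) {H : Subgroup Γ} (hH : IsFactor π.ker π.ker H)
    {Ω : Set (Subgroup Γ)} (hΩ : IsProper π.ker H Ω) {y : Γ} (hy : y ∈ H) (hy1 : y ≠ 1) (Y : MTree H)
    (hYni : Y.NoInv) (hYfix : ∀ x, ∃ h ∈ H, Y.act h x ≠ x) (hYrel : Y.Rel Ω)
    (hYst : ∀ a b, Y.G.Adj a b → ∃ h ∈ H, ∀ x ∈ H, (Y.act x a = a ∧ Y.act x b = b) ↔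
      x ∈ MulAut.conj h • Subgroup.zpowers y) :
    ∃ T : MTree H, T.IsSplitting π.ker ∧ T.Nontriv π.ker ∧ T.Rel Ω ∧ ∃ x, T.act y x = x := by
  have hHk : H ≤ π.ker := fac_le hH
  have hHH : H ≤ H ⊓ π.ker := le_inf le_rfl hHk
  -- a fold pair
  obtain ⟨T1, hT1, _, hT1v⟩ := hΩ.tree
  have hF : H ⊓ π.ker = (H ⊓ π.ker) ⊓ π.ker := by
    rw [inf_assoc, inf_idem]
  have hT0 := hT1.res hHH hF
  have hv0 := MTree.res_vgs T1 hHH hF
  have hrel0 : (T1.res hHH).Rel Ω := by
    intro B hB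
    rw [← hT1v, ← hv0] at hB
    obtain ⟨_, x, rfl⟩ := hB
    exact ⟨x, fun d hd => hd.1.2⟩
  have hvg0 : Y.Rel ((T1.res hHH).vgs π.ker) := by
    rw [hv0, hT1v]; exact hYrel
  obtain ⟨D0⟩ := foldPair_exists hH (T1.res hHH) hT0 hrel0 hvg0
  -- minimal length
  obtain ⟨D1, hD1⟩ : ∃ D : FoldPair π.ker H Ω Y, ∀ D' : FoldPair π.ker H Ω Y, D.len ≤ D'.len := by
    classical
    have hex : ∃ n, ∃ D : FoldPair π.ker H Ω Y, D.len = n := ⟨_, D0, rfl⟩
    obtain ⟨D, hD⟩ := Nat.find_spec hex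
    exact ⟨D, fun D' => by rw [hD]; exact Nat.find_min' hex ⟨D', rfl⟩⟩
  obtain ⟨D, hDle, hnz⟩ := collapse_zero hH D1
  have hmin : ∀ D' : FoldPair π.ker H Ω Y, D.len ≤ D'.len := fun D' => hDle.trans (hD1 D')
  have hnt : D.T.Nontriv π.ker := by
    intro x
    by_contra hcon
    push Not at hcon
    obtain ⟨h, hh, hne⟩ := hYfix (D.f x)
    exact hne (by rw [← D.equi h hh, hcon h (hHH hh)])
  -- the conjugates of `y`
  have hconj : ∀ a b, Y.G.Adj a b → ∃ k ∈ H, k * y * k⁻¹ ∈ H ∧ k * y * k⁻¹ ≠ 1 ∧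
      Y.act (k * y * k⁻¹) a = a ∧ Y.act (k * y * k⁻¹) b = b ∧
      ∀ x ∈ H, Y.act x a = a → Y.act x b = b → x * (k * y * k⁻¹) = (k * y * k⁻¹) * x := by
    intro a b hab
    obtain ⟨k, hk, hst⟩ := hYst a b hab
    have hmem : k * y * k⁻¹ ∈ MulAut.conj k • Subgroup.zpowers y :=
      Subgroup.smul_mem_pointwise_smul y (MulAut.conj k) _ (Subgroup.mem_zpowers y)
    have hyH : k * y * k⁻¹ ∈ H := H.mul_mem (H.mul_mem hk hy) (H.inv_mem hk)
    obtain ⟨e1, e2⟩ := (hst _ hyH).2 hmem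
    refine ⟨k, hk, hyH, ?_, e1, e2, ?_⟩
    · intro h
      apply hy1
      have : y = k⁻¹ * (k * y * k⁻¹) * k := by group
      rw [this, h]; group
    · intro x hx hxa hxb
      have := (hst x hx).1 ⟨hxa, hxb⟩
      rw [Subgroup.mem_pointwise_smul_iff_inv_smul_mem, ← map_inv, MulAut.smul_def,
        MulAut.conj_apply, inv_inv] at this
      obtain ⟨n, hn⟩ := Subgroup.mem_zpowers_iff.1 this
      have hx2 : x = k * y ^ n * k⁻¹ := by rw [hn]; group
      rw [hx2]
      have e : y ^ n * y = y * y ^ n := by rw [← zpow_add_one, ← zpow_one_add, add_comm]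
      calc k * y ^ n * k⁻¹ * (k * y * k⁻¹) = k * (y ^ n * y) * k⁻¹ := by group
        _ = k * (y * y ^ n) * k⁻¹ := by rw [e]
        _ = k * y * k⁻¹ * (k * y ^ n * k⁻¹) := by group
  by_cases hA : ∃ p w1 w2 z, D.T.G.Adj p w1 ∧ D.T.G.Adj p w2 ∧ w1 ≠ w2 ∧ Y.G.Adj (D.f p) z ∧
      Y.Btw (D.f p) z (D.f w1) ∧ Y.Btw (D.f p) z (D.f w2)
  · -- case (a)
    obtain ⟨p, w1, w2, z, h1, h2, hne, hz, hz1, hz2⟩ := hA
    have hex : ∃ h ∈ H, D.T.act h p = p ∧ Y.act h z = z ∧ h ≠ 1 := by
      by_contra hcon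
      push Not at hcon
      obtain ⟨D', hD'⟩ := fold_step hH hYni D h1 h2 hne hz hz1 hz2 hcon
      exact absurd (hmin D') (by omega)
    obtain ⟨h, hh, hp, hhz, hh1⟩ := hex
    have hfp : Y.act h (D.f p) = D.f p := by rw [← D.equi h hh, hp]
    obtain ⟨k, hk, hyH, _, _, _, hcom⟩ := hconj _ _ hz
    have hcm := hcom h hh hfp hhz
    refine ⟨D.T, D.hT, hnt, D.hrel, D.T.act k⁻¹ p, ?_⟩
    have hfix : D.T.act (k * y * k⁻¹) p = p := by
      refine (D.hT.fixed_unique (h := h) (hHH hh) hh1 hp ?_).symm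
      rw [← D.T.act_mul h hh _ hyH, hcm, D.T.act_mul _ hyH h hh, hp]
    rw [← D.T.act_mul y hy _ (H.inv_mem hk)]
    have e : y * k⁻¹ = k⁻¹ * (k * y * k⁻¹) := by group
    rw [e, D.T.act_mul _ (H.inv_mem hk) _ hyH, hfix]
  · -- case (b): impossible
    exfalso
    push Not at hA
    have hbtw : ∀ p w1 w2, D.T.G.Adj p w1 → D.T.G.Adj p w2 → w1 ≠ w2 →
        Y.Btw (D.f w1) (D.f p) (D.f w2) := by
      intro p w1 w2 h1 h2 hne
      by_contra hcon
      obtain ⟨z, hz, hz1, hz2⟩ := K14.btw_or_first Y.tree hcon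
      exact hA p w1 w2 z h1 h2 hne hz hz1 hz2
    obtain ⟨v0⟩ := D.T.tree.1.nonempty
    obtain ⟨h0, _, hh0⟩ := hnt v0
    obtain ⟨b, ⟨hab, _⟩, _⟩ := TG.exists_unique_next D.T.tree (Ne.symm hh0)
    obtain ⟨z, ⟨hz1, hz2⟩, _⟩ := TG.exists_unique_next Y.tree (hnz v0 b hab)
    have hzb : Y.Btw (D.f v0) z (D.f b) := by
      unfold MTree.Btw TG.Btw
      rw [SimpleGraph.dist_eq_one_iff_adj.2 hz1]; omega
    obtain ⟨k, hk, hyH, hyne, hya, hyz, _⟩ := hconj _ _ hz1
    set y' := k * y * k⁻¹ with hy'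
    by_cases hya' : D.T.act y' v0 = v0
    · have hyb : b ≠ D.T.act y' b := by
        intro h
        exact hyne (D.hT.free y' (hHH hyH) v0 b hab hya' h.symm)
      have hadj2 : D.T.G.Adj v0 (D.T.act y' b) := by
        have := D.T.act_adj y' hyH v0 b hab
        rwa [hya'] at this
      refine hA v0 b (D.T.act y' b) z hab hadj2 hyb hz1 hzb ?_
      rw [D.equi y' hyH]
      have := (Y.btw_act hyH (D.f v0) z (D.f b)).2 hzb
      rwa [hya, hyz] at this
    · obtain ⟨w, hw⟩ := D.T.tree.1.preconnected v0 (D.T.act y' v0) |>.exists_walk_length_eq_dist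
      have hwp : w.IsPath := w.isPath_of_length_eq_dist hw
      have hpos : 0 < w.length := by
        rw [hw]
        exact D.T.tree.1.pos_dist_of_ne (fun h => hya' h.symm)
      have hinj := hwp.getVert_injOn
      have hch := TG.chain_geod Y.tree (fun i => D.f (w.getVert i)) w.length
        (fun i hi => hnz _ _ (w.adj_getVert_succ hi)) (by
          intro i hi
          refine hbtw _ _ _ (w.adj_getVert_succ (i := i) (by omega)).symm
            (w.adj_getVert_succ (i := i + 1) (by omega)) ?_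
          intro h
          have := hinj (show i ≤ w.length by omega) (show i + 1 + 1 ≤ w.length by omega) h
          omega)
      simp only [SimpleGraph.Walk.getVert_zero, SimpleGraph.Walk.getVert_length] at hch
      rw [D.equi y' hyH, hya, SimpleGraph.dist_self] at hch
      have h1 : 0 < ∑ i ∈ Finset.range w.length,
          Y.G.dist (D.f (w.getVert i)) (D.f (w.getVert (i + 1))) := by
        refine Finset.sum_pos (fun i hi => ?_) ⟨0, by simpa using hpos⟩
        exact Y.tree.1.pos_dist_of_ne (hnz _ _ (w.adj_getVert_succ (Finset.mem_range.1 hi)))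
      omega

end Pool.Agent.Lib.MP_6567fb_al
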