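import Pool.Agent.Lib.MP_6567fb_al.K14
import Pool.Agent.Lib.MP_6567fb_al.T14a
import Pool.Agent.Lib.MP_6567fb_al.T14c
import Pool.Agent.Lib.MP_6567fb_al.K00a
import Pool.Agent.Lib.MP_6567fb_al.T10b
import Pool.Agent.Lib.MP_6567fb_al.T10c
import Pool.Agent.Lib.MP_6567fb_al.T6

/-!
# MP_6567fb_al, module K14b

cyclic_refine: gen_family for XX (M := H) gives a proper family Ω of H.  If y is in a member of Ω: the tree of Ω.  Otherwise no non-trivial power of a conjugate of y is in a member (fac_root), so every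
B ∈ Ω acts on Y with trivial edge stabilisers.  If B is not elliptic on Y: blow up the tree T₀ of Ω at the vertex of B by the core of B in Y (Y.sub of the core, a non-trivial B-splitting by
core_cofinite; attaching vertices arbitrary since B acts freely on the edges at its vertex): an H-splitting T', rel XX: X ∈ XX, X ≠ ⊥ is inside a member B' = stab of a vertex x of T₀; if x is not in the orbit of the blown up vertex X
fixes the point over x; if x is, translate: X ≤ B is elliptic on Y, so on the core of B (projection).  So T'.Rel Ω by the last clause of gen_family: B fixes a vertex of T', it is in the fibre over the vertex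
of B: B is elliptic on its core: contradiction.  So Y.Rel Ω: folding.
-/

set_option autoImplicit false

open scoped Pointwise

namespace Pool.Agent.Lib.MP_6567fb_al

open MTree

variable {Γ G : Type} [Group Γ] [Group G] {π : Γ →* G}

/-- an element fixing no edge has at most one fixed vertex -/
theorem uniq_k14b {M : Subgroup Γ} (T : MTree M) {h : Γ} (hh : h ∈ M)
    (hf : ∀ x y, T.G.Adj x y → T.act h x = x → T.act h y = y → False) {x y : T.X}
    (hx : T.act h x = x) (hy : T.act h y = y) : x = y := by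
  by_contra hne
  obtain ⟨w, ⟨hw1, hw2⟩, -⟩ := TG.exists_unique_next T.tree hne
  have hd : T.G.dist x w = 1 := SimpleGraph.dist_eq_one_iff_adj.2 hw1
  have hw : T.act h w = w := by
    have hb : T.Btw x w y := by
      show T.G.dist x w + T.G.dist w y = T.G.dist x y
      omega
    exact T.fix_conv hh x hx y hy w hb
  exact hf x w hw1 hx hw

/-- the tree which replaces a vertex -/
theorem fibre_tree_k14b (hc : Ctx π) {H : Subgroup Γ} (hH : H ≤ π.ker) (T₂ : MTree H)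
    (hni : T₂.NoInv) {S : Subgroup Γ} (hS : S ≤ H) (hfg : S.FG)
    (hfr : ∀ h ∈ S, ∀ x y, T₂.G.Adj x y → T₂.act h x = x → T₂.act h y = y → h = 1) :
    ∃ U : MTree S, U.IsSplitting π.ker ∧ (∀ u : U.X, ∃ y, U.stab u = S ⊓ T₂.stab y) ∧
      ∀ y, S ⊓ T₂.stab y ≠ ⊥ → ∃ u : U.X, U.stab u = S ⊓ T₂.stab y := by
  have huniq : ∀ b ∈ S, b ≠ 1 → ∀ x y, T₂.act b x = x → T₂.act b y = y → x = y := by
    intro b hb hb1 x y hx hy
    exact uniq_k14b T₂ (hS hb) (fun x y hxy h1 h2 => hb1 (hfr b hb x y hxy h1 h2)) hx hy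
  by_cases hell : T₂.Ell (S : Set Γ)
  · obtain ⟨y₀, hy₀⟩ := hell
    have hpt : ∀ u : (point S).X, (point S).stab u = S := by
      intro u
      apply le_antisymm
      · exact fun m hm => hm.1
      · exact fun m hm => ⟨hm, rfl⟩
    have hSy : S ⊓ T₂.stab y₀ = S := inf_eq_left.2 fun m hm => ⟨hS hm, hy₀ m hm⟩
    refine ⟨point S, point_isSplitting _ _, ?_, ?_⟩
    · intro u
      exact ⟨y₀, by rw [hpt, hSy]⟩
    · intro y hne
      obtain ⟨b, ⟨hb1, hb2⟩, hb⟩ := exists_ne_one_t14c hne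
      have hyy : y = y₀ := huniq b hb1 hb _ _ hb2.2 (hy₀ b hb1)
      exact ⟨Unit.unit, by rw [hpt, hyy, hSy]⟩
  · have hinv : ∀ m ∈ S, ∀ x ∈ T₂.core S, T₂.act m x ∈ T₂.core S := by
      intro m hm x hx
      have h1 := T₂.core_conj hS (hS hm)
      rw [Subgroup.conj_smul_eq_self_of_mem hm] at h1
      rw [h1]
      exact ⟨x, hx, rfl⟩
    have hconv := T₂.core_conv hni hS
    have hne := T₂.core_nonempty hni hS hfg
    refine ⟨T₂.sub (T₂.core S) hconv hne S hS hinv, ?_, ?_, ?_⟩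
    · have hemb := T₂.sub_isEmb (T₂.core S) hconv hne S hS hinv
      refine ⟨?_, ?_, ?_⟩
      · rintro h ⟨hhS, hhF⟩ x y hxy hx hy
        apply hfr h hhS x.1 y.1 hxy
        · rw [← hemb.equi h hhS x, hx]
        · rw [← hemb.equi h hhS y, hy]
      · intro m hm x y _
        exact ⟨m, ⟨hm, hH (hS hm)⟩, rfl, rfl⟩
      · obtain ⟨E, hE⟩ := T₂.core_cofinite hni hS hfg hell
        obtain ⟨E', hE'⟩ := exists_finset_t14c (T₂.core S) E
        refine ⟨E', ?_⟩
        intro x y hxy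
        obtain ⟨d, hd, hdE⟩ := hE x.1 x.2 y.1 y.2 hxy
        refine ⟨d, ⟨hd, hH (hS hd)⟩, ?_⟩
        apply hE'
        have h3 := hemb.equi d hd x
        have h4 := hemb.equi d hd y
        rw [← h3, ← h4] at hdE
        exact hdE
    · intro u
      refine ⟨u.1, ?_⟩
      rw [sub_stab, inf_comm]
    · intro y hne'
      obtain ⟨b, ⟨hb1, hb2⟩, hb⟩ := exists_ne_one_t14c hne'
      obtain ⟨w, hw, hbw⟩ := T₂.fix_proj (hS hb1) (S := T₂.core S) ⟨y, hb2.2⟩ hconv hne
        (hinv b hb1)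
      have hyw : y = w := huniq b hb1 hb _ _ hb2.2 hbw
      subst hyw
      refine ⟨⟨y, hw⟩, ?_⟩
      rw [sub_stab, inf_comm]

/-- meet of a splitting and a tree on which the vertex groups act with trivial edge stabilisers -/
theorem meet_free (hc : Ctx π) {H : Subgroup Γ} (hH : IsFactor π.ker π.ker H) (T₁ T₂ : MTree H)
    (h1 : T₁.IsSplitting π.ker) (hni : T₂.NoInv)
    (hfr : ∀ x a b, T₂.G.Adj a b → ∀ h ∈ T₁.stab x, T₂.act h a = a → T₂.act h b = b → h = 1) :
    ∃ T : MTree H, T.IsSplitting π.ker ∧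
      T.vgs π.ker = {E | E ≠ ⊥ ∧ ∃ x y, E = T₁.stab x ⊓ T₂.stab y} := by
  have hHF : H ≤ π.ker := fac_le hH
  have hstabH : ∀ v, T₁.stab v ≤ H := fun v m hm => hm.1
  have hfg : ∀ v, (T₁.stab v).FG := by
    intro v
    apply fac_fg hc
    apply fac_trans hc le_rfl hH
    exact Or.inr ⟨T₁, h1, v, inf_eq_left.2 ((hstabH v).trans hHF)⟩
  have hfree : ∀ h ∈ H, ∀ x y, T₁.G.Adj x y → T₁.act h x = x → T₁.act h y = y → h = 1 :=
    fun h hh => h1.free h ⟨hh, hHF hh⟩
  choose U hU hU1 hU2 using fun v => fibre_tree_k14b hc hHF T₂ hni (hstabH v) (hfg v)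
    (fun h hh x y hxy hx hy => hfr v x y hxy h hh hx hy)
  choose att hatt using fun v => exists_att_t14c T₁ hfree v (U v)
  obtain ⟨v₀⟩ : Nonempty T₁.X := T₁.tree.1.nonempty
  obtain ⟨R, -, hR⟩ := exists_reps T₁ v₀
  obtain ⟨T, pr, ι, hb, hι⟩ := blowup_exists T₁ R hR U att (fun v _ => hatt v)
  have hstab : ∀ r ∈ R, ∀ u : (U r).X, T.stab (ι r u) = (U r).stab u := by
    intro r hr u
    obtain ⟨hemb, hran, -⟩ := hι r hr
    have hpr : pr (ι r u) = r := by
      have : ι r u ∈ pr ⁻¹' {r} := by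
        rw [← hran]
        exact ⟨u, rfl⟩
      exact this
    have hle : T.stab (ι r u) ≤ T₁.stab r := by
      have := hb.stab_le (ι r u)
      rwa [hpr] at this
    ext m
    constructor
    · intro hm
      refine ⟨hle hm, hemb.inj ?_⟩
      rw [hemb.equi m (hle hm)]
      exact hm.2
    · intro hm
      refine ⟨hstabH r hm.1, ?_⟩
      rw [← hemb.equi m hm.1, hm.2]
  refine ⟨T, ?_, ?_⟩
  · apply hb.isSplitting h1 R (fun v => (hR v).exists)
    intro v hv
    exact ⟨U v, ι v, (hι v hv).1, (hι v hv).2.1, hU v⟩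
  · ext E
    constructor
    · rintro ⟨hE, x, rfl⟩
      refine ⟨hE, ?_⟩
      obtain ⟨r, ⟨hr, m, hm, hmr⟩, -⟩ := hR (pr x)
      have hx' : T.act m⁻¹ x ∈ Set.range (ι r) := by
        rw [(hι r hr).2.1, Set.mem_preimage, Set.mem_singleton_iff, hb.equi m⁻¹ (inv_mem hm), ← hmr]
        exact T₁.act_inv_act hm r
      obtain ⟨u, hu⟩ := hx'
      obtain ⟨y, hy⟩ := hU1 r u
      have hx : x = T.act m (ι r u) := by
        rw [hu]
        exact (T.act_act_inv hm x).symm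
      refine ⟨T₁.act m r, T₂.act m y, ?_⟩
      rw [T₁.stab_act hm, T₂.stab_act hm, ← Subgroup.smul_inf, ← hy, ← hstab r hr u,
        ← T.stab_act hm, ← hx]
      exact inf_eq_left.2 fun k hk => hHF hk.1
    · rintro ⟨hE, x, y, rfl⟩
      refine ⟨hE, ?_⟩
      obtain ⟨r, ⟨hr, m, hm, hmr⟩, -⟩ := hR x
      have hy : y = T₂.act m (T₂.act m⁻¹ y) := (T₂.act_act_inv hm y).symm
      have hE' : T₁.stab x ⊓ T₂.stab y =
          MulAut.conj m • (T₁.stab r ⊓ T₂.stab (T₂.act m⁻¹ y)) := by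
        rw [Subgroup.smul_inf, ← T₁.stab_act hm, ← T₂.stab_act hm, hmr, ← hy]
      have hne : T₁.stab r ⊓ T₂.stab (T₂.act m⁻¹ y) ≠ ⊥ := by
        intro hbot
        rw [hE', hbot, Subgroup.smul_bot] at hE
        exact hE rfl
      obtain ⟨u, hu⟩ := hU2 r _ hne
      refine ⟨T.act m (ι r u), ?_⟩
      rw [T.stab_act hm, hstab r hr u, hu, ← hE']
      exact inf_eq_left.2 fun k hk => hHF hk.1.1

theorem transport_k14b {F K K' : Subgroup Γ} (e : K = K') (T : MTree K) (hT : T.IsSplitting F)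
    (hn : T.Nontriv F) :
    ∃ T' : MTree K', T'.IsSplitting F ∧ T'.Nontriv F ∧ T'.vgs F = T.vgs F := by
  subst e
  exact ⟨T, hT, hn, rfl⟩

/-- `folding` for any set of subgroups which is elliptic in a non-trivial splitting and in `Y` -/
theorem cyclic_refine (hc : Ctx π) {H : Subgroup Γ} (hH : IsFactor π.ker π.ker H) (hHne : H ≠ ⊥)
    (XX : Set (Subgroup Γ)) (hinv : ∀ h ∈ H, ∀ D ∈ XX, MulAut.conj h • D ∈ XX) (hX : ∀ D ∈ XX, D ≤ H)
    (T₁ : MTree H) (h1 : T₁.IsSplitting π.ker) (h1n : T₁.Nontriv π.ker) (h1r : T₁.Rel XX)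
    {y : Γ} (hy : y ∈ H) (hy1 : y ≠ 1) (Y : MTree H)
    (hYni : Y.NoInv) (hYfix : ∀ x, ∃ h ∈ H, Y.act h x ≠ x) (hYrel : Y.Rel XX)
    (hYst : ∀ a b, Y.G.Adj a b → ∃ h ∈ H, ∀ x ∈ H, (Y.act x a = a ∧ Y.act x b = b) ↔
      x ∈ MulAut.conj h • Subgroup.zpowers y) :
    ∃ T : MTree H, T.IsSplitting π.ker ∧ T.Nontriv π.ker ∧ T.Rel XX ∧ ∃ x, T.act y x = x := by
  classical
  have hHF : H ≤ π.ker := fac_le hH
  have hHH : H ⊓ π.ker = H := inf_eq_left.2 hHF
  have hloc : Loc π H := ⟨by rwa [hHH], by rwa [hHH]⟩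
  -- families and trees
  have hfam : ∀ T : MTree H, T.IsSplitting π.ker → T.Nontriv π.ker → IsProper π.ker H (T.vgs π.ker) := by
    intro T hT hn
    obtain ⟨T', hT', hn', hv'⟩ := transport_k14b hHH.symm T hT hn
    refine ⟨?_, T', hT', hn', hv'⟩
    exact (periph_of_splitting hT).inv
  have hrel_of : ∀ (T T' : MTree H), T.Rel XX → T'.Rel (T.vgs π.ker) → T'.Rel XX := by
    intro T T' hT hT' D hD
    by_cases hb : D = ⊥
    · subst hb
      obtain ⟨x⟩ := T'.tree.connected.nonempty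
      refine ⟨x, fun d hd => ?_⟩
      have hd' : d = 1 := by simpa using hd
      rw [hd', T'.act_one]
    · obtain ⟨x, hx⟩ := hT D hD
      have hle : D ≤ T.stab x ⊓ π.ker := fun d hd => ⟨⟨hX D hD hd, hx d hd⟩, hHF (hX D hD hd)⟩
      obtain ⟨z, hz⟩ := hT' (T.stab x ⊓ π.ker) ⟨fun h0 => hb (le_bot_iff.mp (h0 ▸ hle)), x, rfl⟩
      exact ⟨z, fun d hd => hz d (hle hd)⟩
  -- a minimal relative family
  let PP : Set (Set (Subgroup Γ)) := {Ω | ∃ T : MTree H, T.IsSplitting π.ker ∧ T.Nontriv π.ker ∧ T.Rel XX ∧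
    T.vgs π.ker = Ω}
  obtain ⟨Ω, ⟨T₀, h0, h0n, h0r, h0v⟩, hmin⟩ := periph_min hc hloc PP ⟨_, T₁, h1, h1n, h1r, rfl⟩ (by
    rintro Ω ⟨T, hT, hn, -, rfl⟩
    exact (hfam T hT hn).periph)
  by_cases hell : ∃ x, T₀.act y x = x
  · exact ⟨T₀, h0, h0n, h0r, hell⟩
  -- the vertex groups act freely on the edges of `Y`
  have hfr : ∀ x a b, Y.G.Adj a b → ∀ h ∈ T₀.stab x, Y.act h a = a → Y.act h b = b → h = 1 := by
    intro x a b hab h hh ha hb
    by_contra hne
    obtain ⟨k, hk, hiff⟩ := hYst a b hab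
    have hmem := (hiff h hh.1).1 ⟨ha, hb⟩
    rw [Subgroup.mem_pointwise_smul_iff_inv_smul_mem, ← map_inv, MulAut.smul_def, MulAut.conj_apply,
      inv_inv] at hmem
    obtain ⟨n, hn⟩ := Subgroup.mem_zpowers_iff.mp hmem
    have hn0 : n ≠ 0 := by
      rintro rfl
      rw [zpow_zero] at hn
      apply hne
      have : h = k * (k⁻¹ * h * k) * k⁻¹ := by group
      rw [this, ← hn]
      group
    -- `y ^ n` fixes `k⁻¹ x`
    have hfix : T₀.act (y ^ n) (T₀.act k⁻¹ x) = T₀.act k⁻¹ x := by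
      rw [hn, ← T₀.act_mul _ (H.mul_mem (H.mul_mem (H.inv_mem hk) hh.1) hk) _ (H.inv_mem hk)]
      have e : k⁻¹ * h * k * k⁻¹ = k⁻¹ * h := by group
      rw [e, T₀.act_mul _ (H.inv_mem hk) _ hh.1, hh.2]
    have hfix' : T₀.act (y ^ n.natAbs) (T₀.act k⁻¹ x) = T₀.act k⁻¹ x := by
      rcases Int.natAbs_eq n with h | h
      · rw [h] at hfix
        rw [zpow_natCast] at hfix
        exact hfix
      · rw [h, zpow_neg, zpow_natCast] at hfix
        have := congrArg (T₀.act (y ^ n.natAbs)) hfix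
        rw [T₀.act_act_inv (H.pow_mem hy _)] at this
        exact this.symm
    exact hell (T₀.ell_of_pow (h0.noInv hc) hy (Int.natAbs_pos.mpr hn0) hfix')
  obtain ⟨T, hT, hTv⟩ := meet_free hc hH T₀ Y h0 hYni hfr
  -- the meet is non-trivial and relative
  have hTr : T.Rel XX := by
    intro D hD
    by_cases hb : D = ⊥
    · subst hb
      obtain ⟨x⟩ := T.tree.connected.nonempty
      refine ⟨x, fun d hd => ?_⟩
      have hd' : d = 1 := by simpa using hd
      rw [hd', T.act_one]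
    · obtain ⟨x, hx⟩ := h0r D hD
      obtain ⟨z, hz⟩ := hYrel D hD
      have hle : D ≤ T₀.stab x ⊓ Y.stab z := fun d hd =>
        ⟨⟨hX D hD hd, hx d hd⟩, hX D hD hd, hz d hd⟩
      have hmem : T₀.stab x ⊓ Y.stab z ∈ T.vgs π.ker := by
        rw [hTv]
        exact ⟨fun h0 => hb (le_bot_iff.mp (h0 ▸ hle)), x, z, rfl⟩
      obtain ⟨-, t, ht⟩ := hmem
      exact ⟨t, fun d hd => by
        have h3 : d ∈ T.stab t ⊓ π.ker := by rw [ht]; exact hle hd
        exact h3.1.2⟩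
  have hTn : T.Nontriv π.ker := by
    intro t
    by_contra hcon
    push Not at hcon
    have h3 : T.stab t ⊓ π.ker = H := by
      apply le_antisymm
      · exact fun m hm => hm.1.1
      · exact fun m hm => ⟨⟨hm, hcon m ⟨hm, hHF hm⟩⟩, hHF hm⟩
    have h4 : H ∈ T.vgs π.ker := ⟨hHne, t, h3⟩
    rw [hTv] at h4
    obtain ⟨-, x, z, hxz⟩ := h4
    obtain ⟨h, hh, hne⟩ := h0n x
    apply hne
    have : h ∈ T₀.stab x ⊓ Y.stab z := hxz ▸ hh.1
    exact this.1.2
  have hfle : FamLe (T.vgs π.ker) Ω := by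
    intro B hB
    rw [hTv] at hB
    obtain ⟨hB0, x, z, rfl⟩ := hB
    refine ⟨T₀.stab x ⊓ π.ker, ?_, fun d hd => ⟨hd.1, hHF hd.1.1⟩⟩
    rw [← h0v]
    refine ⟨fun h3 => hB0 ?_, x, rfl⟩
    rw [eq_bot_iff]
    intro d hd
    have : d ∈ T₀.stab x ⊓ π.ker := ⟨hd.1, hHF hd.1.1⟩
    rw [h3] at this
    exact this
  have heq := hmin _ ⟨T, hT, hTn, hTr, rfl⟩ hfle
  -- so `Y` is relative to `Ω`
  have hYΩ : Y.Rel Ω := by
    intro B hB
    rw [← heq, hTv] at hB
    obtain ⟨-, x, z, rfl⟩ := hB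
    exact ⟨z, fun d hd => hd.2.2⟩
  have hΩp : IsProper π.ker H Ω := by
    rw [← h0v]
    exact hfam T₀ h0 h0n
  obtain ⟨T', hT', hn', hr', hy'⟩ := folding hc hH hΩp hy hy1 Y hYni hYfix hYΩ hYst
  exact ⟨T', hT', hn', hrel_of T₀ T' h0r (by rw [h0v]; exact hr'), hy'⟩

end Pool.Agent.Lib.MP_6567fb_al
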