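import Pool.Agent.Lib.MP_6567fb_al.K06
import Pool.Agent.Lib.MP_6567fb_al.K10
import Pool.Agent.Lib.MP_6567fb_al.K12
import Pool.Agent.Lib.MP_6567fb_al.K14

/-!
# MP_6567fb_al, module K15

thmR: strong induction on rk (M ⊓ ker) (for all M, g), inside: suppose the claim fails for some proper family; take one, Ω, maximal for FamLe among the proper families for which it fails (periph_max with
PP := the set of proper Ω for which it fails).  IsBdd: T_g works (Rel: members are vertex groups; Nontriv since M ⊓ ker ∉ Ω by proper_iff and M ⊓ ker ≠ ⊥: a fixed vertex would make it a vertex group).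
Otherwise kdata_of_unbounded (ih), C : CutTree (cutTree_exists).  Case1: C.T: cut_splitting, cut_rel, cut_nontriv.  Case2: Y := C.T restricted to H = M ⊓ ker (MTree.res), folding gives T₁;
enlarge_family with XX := {conj m • zpowers y | m ∈ M} (conj m • zpowers y = conj x • zpowers y with x ∈ H since m = x P^i and P commutes with y; so elliptic on T₁; not inside a member by notB): a larger proper
family Ω' with FamLe Ω Ω'; for it the claim holds, rel Ω' implies rel Ω.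
-/

set_option autoImplicit false

open scoped Pointwise

namespace Pool.Agent.Lib.MP_6567fb_al

open MTree

variable {Γ G : Type} [Group Γ] [Group G] {π : Γ →* G}

/-- the bounded case -/
theorem k15_bdd (hc : Ctx π) {M : Subgroup Γ} {g : G} (hM : Cyc π M g) {Ω : Set (Subgroup Γ)}
    (hΩ : IsProper π.ker M Ω) (hb : IsBdd π M Ω) :
    ∃ T : MTree M, T.IsSplitting π.ker ∧ T.Nontriv π.ker ∧ T.Rel Ω := by
  obtain ⟨T, hT, hvg, -⟩ := hb
  refine ⟨T, hT, ?_, ?_⟩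
  · intro x
    by_contra hcon
    push Not at hcon
    have h1 : T.stab x ⊓ π.ker = M ⊓ π.ker := by
      apply le_antisymm
      · exact fun z hz => ⟨hz.1.1, hz.2⟩
      · exact fun z hz => ⟨⟨hz.1, hcon z hz⟩, hz.2⟩
    have h2 : (M ⊓ π.ker) ∈ T.vgs π.ker := ⟨hM.ne, x, h1⟩
    rw [hvg] at h2
    exact ((proper_iff hc hM.toLoc).1 hΩ).2 h2
  · intro B hB
    rw [← hvg] at hB
    obtain ⟨-, x, rfl⟩ := hB
    exact ⟨x, fun d hd => hd.1.2⟩

theorem k15_conj_mem {D : Subgroup Γ} {m g : Γ} : g ∈ MulAut.conj m • D ↔ m⁻¹ * g * m ∈ D := by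
  rw [Subgroup.mem_pointwise_smul_iff_inv_smul_mem, MulAut.smul_def, ← map_inv, MulAut.conj_apply, inv_inv]

/-- the second case: a larger family -/
theorem k15_case2 (hc : Ctx π) {M : Subgroup Γ} {g : G} (hM : Cyc π M g) {Ω : Set (Subgroup Γ)}
    (hΩ : IsProper π.ker M Ω) (D : KData π M g Ω) (C : CutTree D.S D.v D.P) {y R : Γ} {k : ℤ}
    (h2 : D.Case2 y R k) : ∃ Ω', IsProper π.ker M Ω' ∧ FamLe Ω Ω' ∧ Ω' ≠ Ω := by
  have hyH : y ∈ M ⊓ π.ker := ⟨h2.yA.1.1, h2.yA.2⟩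
  obtain ⟨h₀, hh₀, hhyp⟩ := D.cut_nontriv hc hM hΩ C
  obtain ⟨T₁, hT₁, hT₁n, hT₁r, x₀, hx₀⟩ := folding hc hM.fac hΩ.restr hyH h2.y1
    (C.T.res (inf_le_left : M ⊓ π.ker ≤ M)) (fun m hm x y h => C.noInv m hm.1 x y h)
    (fun x => ⟨h₀, hh₀, hhyp x⟩) (fun B hB => D.cut_rel hc hM hΩ C B hB)
    (fun a b hab => D.cut_edge_stab hc hM hΩ C h2 a b hab)
  have hT₁' : T₁.IsSplitting π.ker := hT₁
  obtain ⟨Ω', hΩ', hle, hne, -, -⟩ := enlarge_family hc hM.toLoc hΩ.periph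
    {E : Subgroup Γ | ∃ m ∈ M, E = MulAut.conj m • Subgroup.zpowers y}
    (by
      rintro m hm E ⟨m', hm', rfl⟩
      exact ⟨m * m', M.mul_mem hm hm', by rw [map_mul, mul_smul]⟩)
    (by
      rintro E ⟨m, hm, rfl⟩
      have h3 := k00b_conj_inf (π := π) hm
      have h4 : Subgroup.zpowers y ≤ M ⊓ π.ker := by
        rw [Subgroup.zpowers_le]
        exact hyH
      calc MulAut.conj m • Subgroup.zpowers y ≤ MulAut.conj m • (M ⊓ π.ker : Subgroup Γ) :=
            Subgroup.pointwise_smul_le_pointwise_smul_iff.2 h4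
        _ = M ⊓ π.ker := h3)
    T₁ hT₁ hT₁n hT₁r
    (by
      rintro E ⟨m, hm, rfl⟩
      obtain ⟨x, i, hx, rfl⟩ := hM.exists_dec D.hP D.hPg hm
      refine ⟨T₁.act x x₀, ?_⟩
      intro d hd
      have hd' : d ∈ MulAut.conj (x * D.P ^ i) • Subgroup.zpowers y := hd
      rw [k15_conj_mem, Subgroup.mem_zpowers_iff] at hd'
      obtain ⟨j, hj⟩ := hd'
      have hcomm : Commute (y ^ j) (D.P ^ i) := by
        have h5 : Commute y D.P := h2.comm
        exact (h5.zpow_left j).zpow_right i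
      have hdx : d = x * y ^ j * x⁻¹ := by
        have h6 : d = x * (D.P ^ i * y ^ j * (D.P ^ i)⁻¹) * x⁻¹ := by
          rw [hj]
          group
        rw [h6, ← hcomm.eq, mul_inv_cancel_right]
      have hyj : y ^ j ∈ M ⊓ π.ker := Subgroup.zpow_mem _ hyH j
      have hys : y ∈ T₁.stab x₀ := ⟨hyH, hx₀⟩
      have hyjs : T₁.act (y ^ j) x₀ = x₀ := ((T₁.stab x₀).zpow_mem hys j).2
      have hxi : x⁻¹ ∈ M ⊓ π.ker := Subgroup.inv_mem _ hx
      rw [hdx, T₁.act_mul _ (Subgroup.mul_mem _ hx hyj) _ hxi, ← T₁.act_mul _ hxi _ hx, inv_mul_cancel,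
        T₁.act_one, T₁.act_mul _ hx _ hyj, hyjs])
    ⟨Subgroup.zpowers y, ⟨1, M.one_mem, by rw [map_one, one_smul]⟩, fun B hB hle => by
      have h3 := h2.notB B hB 1 one_ne_zero
      rw [zpow_one] at h3
      exact h3 (hle (Subgroup.mem_zpowers y))⟩
    (by
      rintro E ⟨m, hm, rfl⟩ hbot
      have h3 : Subgroup.zpowers y = ⊥ := by
        rw [smul_eq_iff_eq_inv_smul, Subgroup.smul_bot] at hbot
        exact hbot
      rw [Subgroup.zpowers_eq_bot] at h3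
      exact h2.y1 h3)
  exact ⟨Ω', hΩ', hle, hne⟩

theorem thmR (hc : Ctx π) {M : Subgroup Γ} {g : G} (hM : Cyc π M g) {Ω : Set (Subgroup Γ)}
    (hΩ : IsProper π.ker M Ω) :
    ∃ T : MTree M, T.IsSplitting π.ker ∧ T.Nontriv π.ker ∧ T.Rel Ω := by
  obtain ⟨n, hn⟩ : ∃ n, n = rk (M ⊓ π.ker) := ⟨_, rfl⟩
  induction n using Nat.strong_induction_on generalizing M Ω with
  | _ n ihn =>
    have ih : ∀ M' : Subgroup Γ, Cyc π M' g → rk (M' ⊓ π.ker) < rk (M ⊓ π.ker) →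
        ∀ Ω' : Set (Subgroup Γ), IsProper π.ker M' Ω' →
        ∃ T : MTree M', T.IsSplitting π.ker ∧ T.Nontriv π.ker ∧ T.Rel Ω' := by
      intro M' hM' hlt Ω' hΩ'
      exact ihn (rk (M' ⊓ π.ker)) (hn ▸ hlt) hM' hΩ' rfl
    by_contra hcon
    obtain ⟨Ω₁, ⟨hΩ₁, hfail⟩, hmax⟩ := periph_max hc hM.toLoc
      {Ω' : Set (Subgroup Γ) | IsProper π.ker M Ω' ∧
        ¬ ∃ T : MTree M, T.IsSplitting π.ker ∧ T.Nontriv π.ker ∧ T.Rel Ω'}
      ⟨Ω, hΩ, hcon⟩ (fun Ω' h => h.1.periph)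
    apply hfail
    by_cases hb : IsBdd π M Ω₁
    · exact k15_bdd hc hM hΩ₁ hb
    obtain ⟨D⟩ := kdata_of_unbounded hc hM ih hΩ₁ hb
    obtain ⟨C⟩ := cutTree_exists hc hM D.hS D.v D.hP D.hPg D.hPe.1
    rcases D.case_split hc hM hΩ₁ with h1 | ⟨y, R, k, h2⟩
    · obtain ⟨h, hh, hyp⟩ := D.cut_nontriv hc hM hΩ₁ C
      exact ⟨C.T, D.cut_splitting hc hM hΩ₁ C h1, fun x => ⟨h, hh, hyp x⟩, D.cut_rel hc hM hΩ₁ C⟩
    · obtain ⟨Ω', hΩ', hle, hne⟩ := k15_case2 hc hM hΩ₁ D C h2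
      by_contra hcon2
      by_cases hex : ∃ T : MTree M, T.IsSplitting π.ker ∧ T.Nontriv π.ker ∧ T.Rel Ω'
      · obtain ⟨T, hT, hTn, hTr⟩ := hex
        apply hcon2
        refine ⟨T, hT, hTn, ?_⟩
        intro B hB
        obtain ⟨B', hB', hBB'⟩ := hle B hB
        obtain ⟨x, hx⟩ := hTr B' hB'
        exact ⟨x, fun d hd => hx d (hBB' hd)⟩
      · exact hne (hmax Ω' ⟨hΩ', hex⟩ hle)

end Pool.Agent.Lib.MP_6567fb_al
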