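import Pool.Agent.Lib.MP_6567fb_al.T15a

/-!
# MP_6567fb_al, module T15b

nested: K = finite connected subset of the Cayley graph of A containing 1 and the boundary of H.  For n large z n K is disjoint from the
boundary of N, hence contained in N, and z n H is disjoint from the boundary of N; a path from f in H to K, stopped at its first vertex in
K, stays in H, so its translate by z n does not cross the boundary of N.  one_end: the half spaces H_k of the ray are z_k H_e with e in a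
finite set of edges and z_k pairwise different; apply nested to N or to its complement and to a subsequence.
-/

set_option autoImplicit false

open scoped Pointwise

namespace Pool.Agent.Lib.MP_6567fb_al

open MTree
variable {Γ : Type} [Group Γ]

namespace T15aux

/-- the boundary with respect to finitely many elements -/
theorem bd_fin {A : Subgroup Γ} (S : Finset Γ) (hS : ∀ s ∈ S, s ∈ A) {N : Set Γ} (hN : FinBd A N) :
    {f | f ∈ A ∧ ∃ s, (s ∈ S ∨ s⁻¹ ∈ S) ∧ ¬ (f ∈ N ↔ f * s ∈ N)}.Finite := by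
  have h1 : (⋃ s ∈ S, ({f | f ∈ A ∧ ¬ (f ∈ N ↔ f * s ∈ N)} ∪
      {f | f ∈ A ∧ ¬ (f ∈ N ↔ f * s⁻¹ ∈ N)})).Finite := by
    refine Set.Finite.biUnion S.finite_toSet (fun s hs => ?_)
    exact (hN s (hS s hs)).union (hN s⁻¹ (A.inv_mem (hS s hs)))
  refine h1.subset ?_
  rintro f ⟨hf, s, hs | hs, hne⟩
  · simp only [Set.mem_iUnion]
    exact ⟨s, hs, Or.inl ⟨hf, hne⟩⟩
  · simp only [Set.mem_iUnion]
    refine ⟨s⁻¹, hs, Or.inr ⟨hf, ?_⟩⟩
    rw [inv_inv]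
    exact hne

/-- finite connected subset of the Cayley graph containing a given element -/
theorem conn_one {A : Subgroup Γ} (S : Finset Γ) (hS : Subgroup.closure (S : Set Γ) = A) {k : Γ} (hk : k ∈ A) :
    ∃ K : Set Γ, K.Finite ∧ (∀ f ∈ K, f ∈ A) ∧ 1 ∈ K ∧ k ∈ K ∧
      ∀ N : Set Γ, (∀ f ∈ K, ∀ s, (s ∈ S ∨ s⁻¹ ∈ S) → (f ∈ N ↔ f * s ∈ N)) → ∀ f ∈ K, (f ∈ N ↔ 1 ∈ N) := by
  have hSA : ∀ s ∈ S, s ∈ A := fun s hs => hS ▸ Subgroup.subset_closure hs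
  rw [← hS] at hk
  induction hk using Subgroup.closure_induction_right with
  | one =>
    refine ⟨{1}, Set.finite_singleton _, ?_, rfl, rfl, ?_⟩
    · rintro f rfl; exact A.one_mem
    · rintro N - f rfl; exact Iff.rfl
  | mul_right x hx y hy ih =>
    obtain ⟨K, h1, h2, h3, h4, h5⟩ := ih
    refine ⟨insert (x * y) K, h1.insert _, ?_, Or.inr h3, Or.inl rfl, ?_⟩
    · rintro f (rfl | hf)
      · exact A.mul_mem (h2 x h4) (hSA y hy)
      · exact h2 f hf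
    · intro N hN
      have h6 := h5 N (fun f hf => hN f (Or.inr hf))
      rintro f (rfl | hf)
      · rw [← h6 x h4]
        exact (hN x (Or.inr h4) y (Or.inl hy)).symm
      · exact h6 f hf
  | mul_inv_cancel x hx y hy ih =>
    obtain ⟨K, h1, h2, h3, h4, h5⟩ := ih
    refine ⟨insert (x * y⁻¹) K, h1.insert _, ?_, Or.inr h3, Or.inl rfl, ?_⟩
    · rintro f (rfl | hf)
      · exact A.mul_mem (h2 x h4) (A.inv_mem (hSA y hy))
      · exact h2 f hf
    · intro N hN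
      have h6 := h5 N (fun f hf => hN f (Or.inr hf))
      rintro f (rfl | hf)
      · rw [← h6 x h4]
        exact (hN x (Or.inr h4) y⁻¹ (Or.inr (by rw [inv_inv]; exact hy))).symm
      · exact h6 f hf

/-- finite connected subset of the Cayley graph containing a given finite set -/
theorem conn_fin {A : Subgroup Γ} (S : Finset Γ) (hS : Subgroup.closure (S : Set Γ) = A) {K₀ : Set Γ}
    (hK : K₀.Finite) (hKA : ∀ f ∈ K₀, f ∈ A) :
    ∃ K : Set Γ, K.Finite ∧ (∀ f ∈ K, f ∈ A) ∧ 1 ∈ K ∧ K₀ ⊆ K ∧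
      ∀ N : Set Γ, (∀ f ∈ K, ∀ s, (s ∈ S ∨ s⁻¹ ∈ S) → (f ∈ N ↔ f * s ∈ N)) → ∀ f ∈ K, (f ∈ N ↔ 1 ∈ N) := by
  induction K₀, hK using Set.Finite.induction_on with
  | empty =>
    obtain ⟨K, h1, h2, h3, -, h5⟩ := conn_one S hS A.one_mem
    exact ⟨K, h1, h2, h3, Set.empty_subset _, h5⟩
  | @insert a s ha hs ih =>
    obtain ⟨K, h1, h2, h3, h4, h5⟩ := ih (fun f hf => hKA f (Or.inr hf))
    obtain ⟨K', h1', h2', h3', h4', h5'⟩ := conn_one S hS (hKA a (Or.inl rfl))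
    refine ⟨K ∪ K', h1.union h1', ?_, Or.inl h3, ?_, ?_⟩
    · rintro f (hf | hf)
      · exact h2 f hf
      · exact h2' f hf
    · rintro f (rfl | hf)
      · exact Or.inr h4'
      · exact Or.inl (h4 hf)
    · intro N hN f hf
      rcases hf with hf | hf
      · exact h5 N (fun f hf => hN f (Or.inl hf)) f hf
      · exact h5' N (fun f hf => hN f (Or.inr hf)) f hf

/-- a path from `f ∈ H` to `K ∋ 1`, stopped at its first vertex in `K` -/
theorem hit {A : Subgroup Γ} (S : Finset Γ) (hS : Subgroup.closure (S : Set Γ) = A) {K H N : Set Γ} (hK : 1 ∈ K)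
    (h1 : ∀ f ∈ A, f ∉ K → ∀ s, (s ∈ S ∨ s⁻¹ ∈ S) → (f ∈ H ↔ f * s ∈ H))
    (h2 : ∀ f ∈ A, f ∈ H → ∀ s, (s ∈ S ∨ s⁻¹ ∈ S) → (f ∈ N ↔ f * s ∈ N)) {f : Γ} (hf : f ∈ A) (hfH : f ∈ H) :
    ∃ κ ∈ K, (f ∈ N ↔ κ ∈ N) := by
  have hSA : ∀ s, (s ∈ S ∨ s⁻¹ ∈ S) → s ∈ A := by
    rintro s (hs | hs)
    · exact hS ▸ Subgroup.subset_closure hs
    · have : s⁻¹ ∈ A := hS ▸ Subgroup.subset_closure hs
      exact A.inv_mem_iff.1 this
  have hfi : f⁻¹ ∈ Subgroup.closure (S : Set Γ) := by rw [hS]; exact A.inv_mem hf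
  have step : ∀ s, (s ∈ S ∨ s⁻¹ ∈ S) → ∀ y : Γ,
      (∀ g ∈ A, g ∈ H → g * y = 1 → ∃ κ ∈ K, (g ∈ N ↔ κ ∈ N)) →
      (∀ g ∈ A, g ∈ H → g * (s * y) = 1 → ∃ κ ∈ K, (g ∈ N ↔ κ ∈ N)) := by
    intro s hs y ih g hg hgH hp
    by_cases hgK : g ∈ K
    · exact ⟨g, hgK, Iff.rfl⟩
    · have e1 := (h1 g hg hgK s hs).1 hgH
      have e2 := h2 g hg hgH s hs
      obtain ⟨κ, hκ, hκ'⟩ := ih (g * s) (A.mul_mem hg (hSA s hs)) e1 (by rw [mul_assoc]; exact hp)
      exact ⟨κ, hκ, e2.trans hκ'⟩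
  have key : ∀ w ∈ Subgroup.closure (S : Set Γ), ∀ g ∈ A, g ∈ H → g * w = 1 →
      ∃ κ ∈ K, (g ∈ N ↔ κ ∈ N) := by
    intro w hw
    induction hw using Subgroup.closure_induction_left with
    | one =>
      intro g _ _ hp
      have : g = 1 := by simpa using hp
      exact ⟨1, hK, by rw [this]⟩
    | mul_left x hx y hy ih => exact step x (Or.inl hx) y ih
    | inv_mul_cancel x hx y hy ih => exact step x⁻¹ (Or.inr (by rw [inv_inv]; exact hx)) y ih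
  exact key _ hfi f hf hfH (mul_inv_cancel f)

end T15aux

open T15aux

/-- a sequence of translates of a set with finite boundary -/
theorem nested {A : Subgroup Γ} (hfg : A.FG) {N H : Set Γ} (hN : FinBd A N) (hH : FinBd A H)
    (z : ℕ → Γ) (hz : ∀ n, z n ∈ A) (hinj : Function.Injective z) (hzN : ∀ n, z n ∈ N)
    (hfin : ∀ c ∈ A, {n | (z n)⁻¹ * c ∈ H}.Finite) :
    ∃ n₀, ∀ n ≥ n₀, ∀ f ∈ A, f ∈ H → z n * f ∈ N := by
  obtain ⟨S, hS⟩ := hfg
  have hSA : ∀ s ∈ S, s ∈ A := fun s hs => hS ▸ Subgroup.subset_closure hs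
  have hW := bd_fin S hSA hN
  have hB := bd_fin S hSA hH
  set W := {f | f ∈ A ∧ ∃ s, (s ∈ S ∨ s⁻¹ ∈ S) ∧ ¬ (f ∈ N ↔ f * s ∈ N)} with hWdef
  set B := {f | f ∈ A ∧ ∃ s, (s ∈ S ∨ s⁻¹ ∈ S) ∧ ¬ (f ∈ H ↔ f * s ∈ H)} with hBdef
  obtain ⟨K, hK1, hK2, hK3, hK4, hK5⟩ := conn_fin S hS hB (fun f hf => hf.1)
  -- bad indices
  have hbad1 : {n | ∃ κ ∈ K, z n * κ ∈ W}.Finite := by
    have h1 : ((fun p : Γ × Γ => p.1 * p.2⁻¹) '' (W ×ˢ K)).Finite := (hW.prod hK1).image _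
    refine Set.Finite.of_finite_image (f := z) (h1.subset ?_) hinj.injOn
    rintro _ ⟨n, ⟨κ, hκ, hw⟩, rfl⟩
    exact ⟨(z n * κ, κ), ⟨hw, hκ⟩, by simp⟩
  have hbad2 : {n | ∃ c ∈ W, (z n)⁻¹ * c ∈ H}.Finite := by
    have h1 : (⋃ c ∈ W, {n | (z n)⁻¹ * c ∈ H}).Finite :=
      Set.Finite.biUnion hW (fun c hc => hfin c hc.1)
    refine h1.subset ?_
    rintro n ⟨c, hc, hcH⟩
    simp only [Set.mem_iUnion]
    exact ⟨c, hc, hcH⟩
  obtain ⟨n₀, hn₀⟩ := (hbad1.union hbad2).bddAbove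
  refine ⟨n₀ + 1, fun n hn f hf hfH => ?_⟩
  have hnb : n ∉ {n | ∃ κ ∈ K, z n * κ ∈ W} ∪ {n | ∃ c ∈ W, (z n)⁻¹ * c ∈ H} := by
    intro h
    have := hn₀ h
    omega
  have hnb1 : ∀ κ ∈ K, z n * κ ∉ W := fun κ hκ h => hnb (Or.inl ⟨κ, hκ, h⟩)
  have hnb2 : ∀ c ∈ W, (z n)⁻¹ * c ∉ H := fun c hc h => hnb (Or.inr ⟨c, hc, h⟩)
  set N' : Set Γ := {g | z n * g ∈ N} with hN'
  have hKN : ∀ κ ∈ K, (κ ∈ N' ↔ 1 ∈ N') := by
    refine hK5 N' (fun κ hκ s hs => ?_)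
    by_contra hne
    refine hnb1 κ hκ ⟨A.mul_mem (hz n) (hK2 κ hκ), s, hs, ?_⟩
    rw [mul_assoc]
    exact hne
  obtain ⟨κ, hκ, hκ'⟩ := hit (N := N') S hS hK3 (H := H) (fun g hg hgK s hs => by
    by_contra hne
    exact hgK (hK4 ⟨hg, s, hs, hne⟩)) (fun g hg hgH s hs => by
    by_contra hne
    refine hnb2 (z n * g) ⟨A.mul_mem (hz n) hg, s, hs, ?_⟩ (by simpa using hgH)
    rw [mul_assoc]
    exact hne) hf hfH
  have h1 : (1 : Γ) ∈ N' := by
    show z n * 1 ∈ N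
    rw [mul_one]
    exact hzN n
  exact hκ'.2 ((hKN κ hκ).2 h1)

/-- one end lemma -/
theorem one_end {A : Subgroup Γ} (hfg : A.FG) (U : MTree A)
    (hfree : ∀ h ∈ A, ∀ x y, U.G.Adj x y → U.act h x = x → U.act h y = y → h = 1)
    (hco : ∃ S : Finset (U.X × U.X), ∀ x y, U.G.Adj x y → ∃ h ∈ A, (U.act h x, U.act h y) ∈ S)
    {L : ℕ → U.X} (hL : U.IsRay L) (u₀ : U.X) {N : Set Γ} (hN : FinBd A N) :
    ∃ k, (∀ f ∈ A, U.Beyond (L k) (L (k + 1)) (U.act f u₀) → f ∈ N) ∨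
      (∀ f ∈ A, U.Beyond (L k) (L (k + 1)) (U.act f u₀) → f ∉ N) := by
  classical
  by_contra hcon
  push Not at hcon
  obtain ⟨S, hS⟩ := hco
  have hadj : ∀ k, U.G.Adj (L k) (L (k + 1)) := by
    intro k
    rw [← SimpleGraph.dist_eq_one_iff_adj, hL]
    push_cast
    omega
  have hLinj : Function.Injective L := by
    intro i j hij
    have h1 := hL i j
    rw [hij, SimpleGraph.dist_self] at h1
    omega
  choose h hhA hhS using fun k => hS _ _ (hadj k)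
  -- pigeonhole
  obtain ⟨⟨e, b⟩, hinf⟩ := Finite.exists_infinite_fiber
    (fun k : ℕ => ((⟨(U.act (h k) (L k), U.act (h k) (L (k + 1))), hhS k⟩ : S), decide ((h k)⁻¹ ∈ N)))
  set F : Set ℕ := (fun k : ℕ => ((⟨(U.act (h k) (L k), U.act (h k) (L (k + 1))), hhS k⟩ : S),
    decide ((h k)⁻¹ ∈ N))) ⁻¹' {(e, b)} with hF
  have j : ℕ ↪ F := Infinite.natEmbedding F
  have hj1 : ∀ n, U.act (h (j n)) (L (j n)) = e.1.1 ∧ U.act (h (j n)) (L (j n + 1)) = e.1.2 := by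
    intro n
    have h1 : (_, _) = (e, b) := (j n).2
    have h2 := congrArg Prod.fst h1
    have h3 := congrArg Subtype.val h2
    exact ⟨congrArg Prod.fst h3, congrArg Prod.snd h3⟩
  have hj2 : ∀ n, decide ((h (j n))⁻¹ ∈ N) = b := by
    intro n
    have h1 : (_, _) = (e, b) := (j n).2
    exact congrArg Prod.snd h1
  set H : Set Γ := {f | U.Beyond e.1.1 e.1.2 (U.act f u₀)} with hH
  have hHb : FinBd A H := by
    refine bd_finite U hfree u₀ ?_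
    rw [← (hj1 0).1, ← (hj1 0).2]
    exact U.act_adj _ (hhA _) _ _ (hadj _)
  set z : ℕ → Γ := fun n => (h (j n))⁻¹ with hz
  have hzA : ∀ n, z n ∈ A := fun n => A.inv_mem (hhA _)
  have hzinj : Function.Injective z := by
    intro n m hnm
    have h1 : h (j n) = h (j m) := inv_injective hnm
    have h2 := (hj1 n).1
    rw [h1, ← (hj1 m).1] at h2
    have h3 := hLinj (U.act_inj (hhA _) h2)
    exact j.injective (Subtype.ext h3)
  have hmem : ∀ n, ∀ f ∈ A, (h (j n) * f ∈ H ↔ U.Beyond (L (j n)) (L (j n + 1)) (U.act f u₀)) := by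
    intro n f hf
    show U.Beyond e.1.1 e.1.2 (U.act (h (j n) * f) u₀) ↔ _
    rw [← (hj1 n).1, ← (hj1 n).2, U.act_mul _ (hhA _) _ hf, U.beyond_act (hhA _)]
  have hfin : ∀ c ∈ A, {n | (z n)⁻¹ * c ∈ H}.Finite := by
    intro c hc
    have h1 : ∀ n ∈ {n | (z n)⁻¹ * c ∈ H}, (j n : ℕ) ≤ U.G.dist (L 0) (U.act c u₀) := by
      intro n hn
      have h2 : U.Beyond (L (j n)) (L (j n + 1)) (U.act c u₀) := by
        rw [← hmem n c hc]
        simpa [hz] using hn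
      have h3 : ¬ U.Beyond (L (j n)) (L (j n + 1)) (L 0) := by
        unfold MTree.Beyond TG.Beyond
        rw [hL, hL]
        push_cast
        omega
      have h4 : U.G.dist (L 0) (L (j n)) + U.G.dist (L (j n)) (U.act c u₀) = U.G.dist (L 0) (U.act c u₀) :=
        ((TG.beyond_sep U.tree (hadj (j n))).1 ⟨h3, h2⟩).1
      have h5 := hL 0 (j n)
      push_cast at h5
      omega
    refine Set.Finite.of_finite_image (f := fun n => (j n : ℕ))
      ((Set.finite_Iic (U.G.dist (L 0) (U.act c u₀))).subset ?_) ?_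
    · rintro _ ⟨n, hn, rfl⟩
      exact h1 n hn
    · intro n _ m _ hnm
      exact j.injective (Subtype.ext hnm)
  cases b with
  | true =>
    have hzN : ∀ n, z n ∈ N := fun n => of_decide_eq_true (hj2 n)
    obtain ⟨n₀, hn₀⟩ := nested hfg hN hHb z hzA hzinj hzN hfin
    obtain ⟨⟨f, hf, hfB, hfN⟩, -⟩ := hcon (j n₀)
    have h1 := hn₀ n₀ le_rfl (h (j n₀) * f) (A.mul_mem (hhA _) hf) ((hmem n₀ f hf).2 hfB)
    simp only [hz, inv_mul_cancel_left] at h1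
    exact hfN h1
  | false =>
    have hzN : ∀ n, z n ∈ Nᶜ := fun n => of_decide_eq_false (hj2 n)
    obtain ⟨n₀, hn₀⟩ := nested hfg hN.compl hHb z hzA hzinj hzN hfin
    obtain ⟨-, f, hf, hfB, hfN⟩ := hcon (j n₀)
    have h1 := hn₀ n₀ le_rfl (h (j n₀) * f) (A.mul_mem (hhA _) hf) ((hmem n₀ f hf).2 hfB)
    simp only [hz, inv_mul_cancel_left] at h1
    exact h1 hfN

end Pool.Agent.Lib.MP_6567fb_al
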