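import Pool.Agent.Lib.MP_6567fb_al.Defs4
import Pool.Agent.Lib.MP_6567fb_al.T2c
import Pool.Agent.Lib.MP_6567fb_al.T15b

/-!
# MP_6567fb_al, module K16a

D : KData, A acts on U with trivial edge stabilisers, L = axis of P in U (translation l > 0), Q another lift of g in S.stab v.  Claim:
P^n Q^-n u₀ is finally beyond every edge (L k, L(k+1)), or Q commutes with P.
-/

set_option autoImplicit false

open scoped Pointwise

namespace Pool.Agent.Lib.MP_6567fb_al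

open MTree
variable {Γ G : Type} [Group Γ] [Group G] {π : Γ →* G}

namespace MTree
variable {M : Subgroup Γ} {T : MTree M}

/-- index of the projection to a line -/
theorem idx_exists {L : ℤ → T.X} (hL : T.IsLine L) (x : T.X) : ∃ i, ∀ j, T.Btw x (L i) (L j) := by
  obtain ⟨p, ⟨⟨i, rfl⟩, hp⟩, _⟩ := TG.exists_unique_proj T.tree (TG.conv_range_line T.tree hL)
    ⟨L 0, 0, rfl⟩ x
  exact ⟨i, fun j => hp (L j) ⟨j, rfl⟩⟩

theorem beyond_of_idx {L : ℤ → T.X} (hL : T.IsLine L) {x : T.X} {i k : ℤ} (hi : ∀ j, T.Btw x (L i) (L j))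
    (hk : k + 1 ≤ i) : T.Beyond (L k) (L (k + 1)) x := by
  have h1 : T.G.dist x (L i) + T.G.dist (L i) (L k) = T.G.dist x (L k) := hi k
  have h2 : T.G.dist x (L i) + T.G.dist (L i) (L (k + 1)) = T.G.dist x (L (k + 1)) := hi (k + 1)
  rw [hL] at h1 h2
  show T.G.dist (L (k + 1)) x < T.G.dist (L k) x
  rw [SimpleGraph.dist_comm (u := L (k + 1)), SimpleGraph.dist_comm (u := L k)]
  omega

theorem idx_lip {L : ℤ → T.X} (hL : T.IsLine L) {x y : T.X} {i i' : ℤ} (hi : ∀ j, T.Btw x (L i) (L j))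
    (hi' : ∀ j, T.Btw y (L i') (L j)) : i - T.G.dist x y ≤ i' := by
  have h1 : T.G.dist x (L i) + T.G.dist (L i) (L i') = T.G.dist x (L i') := hi i'
  have h2 : T.G.dist y (L i') + T.G.dist (L i') (L i) = T.G.dist y (L i) := hi' i
  rw [hL] at h1 h2
  have t1 := TG.dist_tri T.tree x y (L i')
  have t2 := TG.dist_tri T.tree y x (L i)
  rw [SimpleGraph.dist_comm (u := y) (v := x)] at t2
  omega

/-- if the projections are different the geodesic runs through the line -/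
theorem idx_dist {L : ℤ → T.X} (hL : T.IsLine L) {x y : T.X} {i i' : ℤ} (hi : ∀ j, T.Btw x (L i) (L j))
    (hi' : ∀ j, T.Btw y (L i') (L j)) (h : i' < i) :
    (T.G.dist x y : ℤ) = T.G.dist x (L i) + (i - i') + T.G.dist y (L i') := by
  have hne : L i ≠ L i' := by
    intro he
    have := TG.line_inj hL he
    omega
  have h1 := TG.btw_glue T.tree (hi i') (TG.btw_symm T.tree (hi' i)) hne
  have e1 : T.G.dist x (L i) + T.G.dist (L i) (L i') = T.G.dist x (L i') := hi i'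
  have e2 : T.G.dist x (L i') + T.G.dist (L i') y = T.G.dist x y := h1.2
  rw [hL] at e1
  rw [SimpleGraph.dist_comm (u := L i') (v := y)] at e2
  omega

theorem idx_act {m : Γ} (hm : m ∈ M) {l : ℕ} {L : ℤ → T.X} (hL : T.IsAxis m l L) {x : T.X} {i : ℤ}
    (hi : ∀ j, T.Btw x (L i) (L j)) (n : ℕ) : ∀ j, T.Btw (T.act (m ^ n) x) (L (i + n * l)) (L j) := by
  have hact : ∀ i, T.act (m ^ n) (L i) = L (i + n * l) := by
    rcases Nat.eq_zero_or_pos n with rfl | hn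
    · intro i
      simp [T.act_one]
    · intro i
      have := (T.axis_pow hm hL hn).2.2 i
      rw [this, Nat.cast_mul]
  intro j
  have h := (T.btw_act (M.pow_mem hm n) _ _ _).2 (hi (j - n * l))
  rw [hact, hact] at h
  simpa using h

/-- the negative ends of two lines agree if the projections are not bounded below -/
theorem neg_end {L L' : ℤ → T.X} (hL : T.IsLine L) (hL' : T.IsLine L')
    (h : ∀ b : ℤ, ∃ (m : ℕ) (i : ℤ), (∀ j, T.Btw (L' (-m)) (L i) (L j)) ∧ i < b) :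
    ∃ c i₀ : ℤ, ∀ i ≤ i₀, L i = L' (i + c) := by
  obtain ⟨i₀, hi₀⟩ := idx_exists hL (L' 0)
  refine ⟨-(T.G.dist (L' 0) (L i₀)) - i₀, i₀, fun i hi => ?_⟩
  obtain ⟨m, φ, hφ, hlt⟩ := h i
  have e1 := idx_dist hL hi₀ hφ (by omega)
  have e2 : T.G.dist (L' 0) (L' (-m)) = m := by rw [hL']; omega
  have e3 : T.G.dist (L' 0) (L i₀) + T.G.dist (L i₀) (L i) = T.G.dist (L' 0) (L i) := hi₀ i
  have e4 : T.G.dist (L' (-m)) (L φ) + T.G.dist (L φ) (L i) = T.G.dist (L' (-m)) (L i) := hφ i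
  rw [hL] at e3 e4
  have e5 : T.G.dist (L' 0) (L' (i + (-(T.G.dist (L' 0) (L i₀)) - i₀))) = T.G.dist (L' 0) (L i) := by
    rw [hL']
    omega
  refine TG.btw_point_unique T.tree (x := L' 0) (z := L' (-m)) (k := T.G.dist (L' 0) (L i)) ?_ rfl ?_ e5
  · show T.G.dist (L' 0) (L i) + T.G.dist (L i) (L' (-m)) = T.G.dist (L' 0) (L' (-m))
    rw [SimpleGraph.dist_comm (u := L i)]
    omega
  · show T.G.dist (L' 0) _ + T.G.dist _ (L' (-m)) = T.G.dist (L' 0) (L' (-m))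
    rw [e5, hL', hL']
    omega

/-- attracted or commuting, abstract version -/
theorem attr_or_comm_aux (hc : Ctx π) (hT : T.IsSplitting π.ker) {P Q : Γ} (hP : P ∈ M) (hQ : Q ∈ M)
    (hπ : π Q = π P) {l : ℕ} {L : ℤ → T.X} (hL : T.IsAxis P l L) (u₀ : T.X) :
    (∀ k : ℤ, ∃ n₀ : ℕ, ∀ n ≥ n₀, T.Beyond (L k) (L (k + 1)) (T.act (P ^ n * (Q ^ n)⁻¹) u₀)) ∨
      Q * P = P * Q := by
  have hline : T.IsLine L := hL.2.1
  have hA : (∃ b : ℤ, ∀ (n : ℕ) (i : ℤ), (∀ j, T.Btw (T.act (Q ^ n)⁻¹ u₀) (L i) (L j)) → b ≤ i) →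
      ∀ k : ℤ, ∃ n₀ : ℕ, ∀ n ≥ n₀, T.Beyond (L k) (L (k + 1)) (T.act (P ^ n * (Q ^ n)⁻¹) u₀) := by
    rintro ⟨b, hb⟩ k
    refine ⟨(k + 1 - b).toNat, fun n hn => ?_⟩
    obtain ⟨i, hi⟩ := idx_exists hline (T.act (Q ^ n)⁻¹ u₀)
    have h1 := hb n i hi
    have h2 := idx_act hP hL hi n
    rw [T.act_mul _ (M.pow_mem hP n) _ (M.inv_mem (M.pow_mem hQ n))]
    refine beyond_of_idx hline h2 ?_
    have h3 : (n : ℤ) ≤ n * l := by
      have : n * 1 ≤ n * l := Nat.mul_le_mul_left n hL.1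
      exact_mod_cast (by simpa using this)
    have h4 : k + 1 - b ≤ n := Int.toNat_le.1 hn
    linarith
  rcases T.ell_or_axis (hT.noInv hc) hQ with ⟨x, hx⟩ | ⟨l', L', hL'⟩
  · left
    refine hA ?_
    obtain ⟨ix, hix⟩ := idx_exists hline x
    refine ⟨ix - T.G.dist u₀ x, fun n i hi => ?_⟩
    have hQn : Q ^ n ∈ M := M.pow_mem hQ n
    have h1 : T.act (Q ^ n)⁻¹ x = x := by
      have h2 := T.fix_pow hQ hx n
      have h3 := T.act_inv_act hQn x
      rwa [h2] at h3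
    have h4 := T.dist_act (M.inv_mem hQn) u₀ x
    rw [h1] at h4
    have h5 := idx_lip hline hix hi
    rw [SimpleGraph.dist_comm (u := x), h4] at h5
    exact h5
  · by_cases hb : ∃ b : ℤ, ∀ (m : ℕ) (i : ℤ), (∀ j, T.Btw (L' (-m)) (L i) (L j)) → b ≤ i
    · left
      refine hA ?_
      obtain ⟨b, hb⟩ := hb
      refine ⟨b - T.G.dist u₀ (L' 0), fun n i hi => ?_⟩
      have hQn : Q ^ n ∈ M := M.pow_mem hQ n
      have h1 : T.act (Q ^ n)⁻¹ (L' 0) = L' (-((n * l' : ℕ) : ℤ)) := by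
        rcases Nat.eq_zero_or_pos n with rfl | hn
        · simp [T.act_one]
        · have h2 := (T.axis_pow hQ hL' hn).2.2 (-((n * l' : ℕ) : ℤ))
          rw [neg_add_cancel] at h2
          rw [← h2, T.act_inv_act hQn]
      have h4 := T.dist_act (M.inv_mem hQn) u₀ (L' 0)
      rw [h1] at h4
      obtain ⟨i', hi'⟩ := idx_exists hline (L' (-((n * l' : ℕ) : ℤ)))
      have h5 := idx_lip hline hi' hi
      have h6 := hb _ i' hi'
      rw [SimpleGraph.dist_comm, h4] at h5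
      omega
    · right
      push Not at hb
      obtain ⟨c, i₀, hci⟩ := neg_end hline hL'.2.1 hb
      refine hT.commute_of_shift hP hQ hL (i := i₀ - l' - l - 1) (c := l') ?_ ?_
      · rw [map_mul, map_mul, hπ]
      · intro j hj1 hj2
        rw [hci j (by omega), hL'.2.2, hci (j + l') (by omega)]
        congr 1
        ring

end MTree

theorem attr_or_comm (hc : Ctx π) {M : Subgroup Γ} {g : G} (hM : Cyc π M g) {Om : Set (Subgroup Γ)}
    (D : KData π M g Om) {Q : Γ} (hQ : Q ∈ D.S.stab D.v) (hQg : π Q = g) (u₀ : D.U.X) :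
    (∀ k : ℤ, ∃ n₀ : ℕ, ∀ n ≥ n₀, D.U.Beyond (D.L k) (D.L (k + 1)) (D.U.act (D.P ^ n * (Q ^ n)⁻¹) u₀)) ∨
      Q * D.P = D.P * Q :=
  MTree.attr_or_comm_aux hc D.hU ⟨D.hP, D.hPe.1⟩ hQ (hQg.trans D.hPg.symm) D.hL u₀

end Pool.Agent.Lib.MP_6567fb_al
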