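import Pool.Agent.Lib.MP_6567fb_al.K16a
import Pool.Agent.Lib.MP_6567fb_al.K00a

/-!
# MP_6567fb_al, module K16b

attraction1: case 1.  Q ≠ P: if Q commutes with P then Q P⁻¹ is in A and commutes with P, so is 1: contradiction; so both sequences are
attracted (K16a).  For N with FinBd A N the one end lemma (T15b one_end for the group A acting on U.res, ray k ↦ L k, base point u₀ = L 0)
gives k such that {f in A : f u₀ beyond (L k, L(k+1))} is inside N or disjoint from N; both sequences are finally in this set.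
attraction2: case 2, P = y^k R.  If Q commutes with P: Q P⁻¹ in A commutes with P, = y^j, j ≠ 0; P^n Q^-n = y^(-jn).  For FinBd A N: y^m in N iff
y^(m+1) in N for all but finitely many m (y has infinite order), so the claim with y or y⁻¹ according to the sign of j.  Otherwise z_n is attracted by
the positive end of L; y translates L (comm_axis) by c ≠ 0 (y ≠ 1, trivial edge stabilisers), so y^m u₀ or y^-m u₀ is attracted by the positive end too.
-/

set_option autoImplicit false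

open scoped Pointwise

namespace Pool.Agent.Lib.MP_6567fb_al

open MTree
variable {Γ G : Type} [Group Γ] [Group G] {π : Γ →* G}

namespace MTree
variable {M : Subgroup Γ} {T : MTree M}

theorem attr_of_axis {m : Γ} (hm : m ∈ M) {l : ℕ} {L : ℤ → T.X} (hL : T.IsAxis m l L) (x : T.X) (k : ℤ) :
    ∃ n₀ : ℕ, ∀ n ≥ n₀, T.Beyond (L k) (L (k + 1)) (T.act (m ^ n) x) := by
  obtain ⟨i, hi⟩ := idx_exists hL.2.1 x
  refine ⟨(k + 1 - i).toNat, fun n hn => beyond_of_idx hL.2.1 (idx_act hm hL hi n) ?_⟩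
  have h3 : (n : ℤ) ≤ n * l := by
    have : n * 1 ≤ n * l := Nat.mul_le_mul_left n hL.1
    exact_mod_cast (by simpa using this)
  have h4 : k + 1 - i ≤ n := Int.toNat_le.1 hn
  linarith

end MTree

/-- two attracted sequences have the same end -/
theorem sameEnd_of_attr (hc : Ctx π) {M : Subgroup Γ} {g : G} (hM : Cyc π M g) {Om : Set (Subgroup Γ)}
    (D : KData π M g Om) (u₀ : D.U.X) {z a : ℕ → Γ} (hz : ∀ n, z n ∈ D.A) (ha : ∀ n, a n ∈ D.A)
    (h1 : ∀ k : ℤ, ∃ n₀ : ℕ, ∀ n ≥ n₀, D.U.Beyond (D.L k) (D.L (k + 1)) (D.U.act (z n) u₀))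
    (h2 : ∀ k : ℤ, ∃ n₀ : ℕ, ∀ n ≥ n₀, D.U.Beyond (D.L k) (D.L (k + 1)) (D.U.act (a n) u₀)) :
    SameEnd D.A z a := by
  intro N hN
  have hle : D.A ≤ D.S.stab D.v := inf_le_left
  have hfg : D.A.FG := fac_fg hc (fac_stab hc hM.toLoc D.hS D.v)
  have hray : (D.U.res hle).IsRay (fun n : ℕ => D.L n) := by
    intro i j
    exact D.hL.2.1 i j
  obtain ⟨k, hk⟩ := one_end hfg (D.U.res hle) D.hU.free D.hU.cocpt hray u₀ hN
  obtain ⟨n₁, hn₁⟩ := h1 k
  obtain ⟨n₂, hn₂⟩ := h2 k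
  refine ⟨max n₁ n₂, fun n hn m hm => ?_⟩
  have e1 : (D.U.res hle).Beyond (D.L (k : ℕ)) (D.L ((k + 1 : ℕ) : ℤ)) ((D.U.res hle).act (z n) u₀) := by
    rw [Nat.cast_succ]
    exact hn₁ n (le_trans (le_max_left _ _) hn)
  have e2 : (D.U.res hle).Beyond (D.L (k : ℕ)) (D.L ((k + 1 : ℕ) : ℤ)) ((D.U.res hle).act (a m) u₀) := by
    rw [Nat.cast_succ]
    exact hn₂ m (le_trans (le_max_right _ _) hm)
  rcases hk with hk | hk
  · exact iff_of_true (hk _ (hz n) e1) (hk _ (ha m) e2)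
  · exact iff_of_false (hk _ (hz n) e1) (hk _ (ha m) e2)

theorem KData.z_mem {M : Subgroup Γ} {g : G} {Om : Set (Subgroup Γ)} (D : KData π M g Om) {Q : Γ}
    (hQ : Q ∈ D.S.stab D.v) (hQg : π Q = g) (n : ℕ) : D.P ^ n * (Q ^ n)⁻¹ ∈ D.A := by
  have hP : D.P ∈ D.S.stab D.v := ⟨D.hP, D.hPe.1⟩
  refine ⟨Subgroup.mul_mem _ (Subgroup.pow_mem _ hP n) (Subgroup.inv_mem _ (Subgroup.pow_mem _ hQ n)), ?_⟩
  show π (D.P ^ n * (Q ^ n)⁻¹) = 1
  rw [map_mul, map_inv, map_pow, map_pow, hQg, D.hPg, mul_inv_cancel]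

theorem KData.diff_mem {M : Subgroup Γ} {g : G} {Om : Set (Subgroup Γ)} (D : KData π M g Om) {Q : Γ}
    (hQ : Q ∈ D.S.stab D.v) (hQg : π Q = g) (hcomm : Q * D.P = D.P * Q) :
    Q * D.P⁻¹ ∈ D.A ∧ Q * D.P⁻¹ * D.P = D.P * (Q * D.P⁻¹) := by
  have hP : D.P ∈ D.S.stab D.v := ⟨D.hP, D.hPe.1⟩
  refine ⟨⟨Subgroup.mul_mem _ hQ (Subgroup.inv_mem _ hP), ?_⟩, ?_⟩
  · show π (Q * D.P⁻¹) = 1
    rw [map_mul, map_inv, hQg, D.hPg, mul_inv_cancel]
  · rw [← mul_assoc, ← hcomm]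
    group

theorem attraction1 (hc : Ctx π) {M : Subgroup Γ} {g : G} (hM : Cyc π M g) {Om : Set (Subgroup Γ)}
    (D : KData π M g Om) (h1 : D.Case1) {Q Q' : Γ} (hQ : Q ∈ D.S.stab D.v) (hQg : π Q = g)
    (hQ' : Q' ∈ D.S.stab D.v) (hQg' : π Q' = g) (hne : Q ≠ D.P) (hne' : Q' ≠ D.P) :
    SameEnd D.A (fun n => D.P ^ n * (Q ^ n)⁻¹) (fun n => D.P ^ n * (Q' ^ n)⁻¹) := by
  have key : ∀ R : Γ, R ∈ D.S.stab D.v → π R = g → R ≠ D.P →
      ∀ k : ℤ, ∃ n₀ : ℕ, ∀ n ≥ n₀,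
        D.U.Beyond (D.L k) (D.L (k + 1)) (D.U.act (D.P ^ n * (R ^ n)⁻¹) (D.L 0)) := by
    intro R hR hRg hRne
    rcases attr_or_comm hc hM D hR hRg (D.L 0) with h | h
    · exact h
    · exfalso
      obtain ⟨h2, h3⟩ := D.diff_mem hR hRg h
      have h4 := h1 _ h2 h3
      exact hRne (by rw [mul_inv_eq_one] at h4; exact h4)
  exact sameEnd_of_attr hc hM D (D.L 0) (D.z_mem hQ hQg) (D.z_mem hQ' hQg') (key Q hQ hQg hne)
    (key Q' hQ' hQg' hne')

/-- powers of an element of infinite order are finally inside or outside -/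
theorem pow_fin {A : Subgroup Γ} {N : Set Γ} (hN : FinBd A N) {w : Γ} (hw : w ∈ A)
    (hinj : Function.Injective (fun n : ℕ => w ^ n)) : ∃ n₀ : ℕ, ∀ n ≥ n₀, (w ^ n ∈ N ↔ w ^ n₀ ∈ N) := by
  have h1 : {n : ℕ | ¬ (w ^ n ∈ N ↔ w ^ (n + 1) ∈ N)}.Finite := by
    refine Set.Finite.of_finite_image ((hN w hw).subset ?_) (hinj.injOn)
    rintro _ ⟨n, hn, rfl⟩
    refine ⟨A.pow_mem hw n, ?_⟩
    rwa [← pow_succ]
  obtain ⟨n₀, hn₀⟩ := h1.bddAbove
  refine ⟨n₀ + 1, fun n hn => ?_⟩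
  induction n, hn using Nat.le_induction with
  | base => exact Iff.rfl
  | succ n hn ih =>
    rw [← ih]
    by_contra hcon
    have : n ∈ {n : ℕ | ¬ (w ^ n ∈ N ↔ w ^ (n + 1) ∈ N)} := fun h => hcon h.symm
    have := hn₀ this
    omega

theorem sameEnd_pow {A : Subgroup Γ} {w : Γ} (hw : w ∈ A)
    (hinj : Function.Injective (fun n : ℕ => w ^ n)) {c : ℕ} (hc0 : 0 < c) {z : ℕ → Γ}
    (hz : ∀ n, z n = w ^ (c * n)) : SameEnd A z (fun n => w ^ n) := by
  intro N hN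
  obtain ⟨n₀, hn₀⟩ := pow_fin hN hw hinj
  refine ⟨n₀, fun n hn m hm => ?_⟩
  have h1 : n ≤ c * n := Nat.le_mul_of_pos_left n hc0
  rw [hz, hn₀ _ (le_trans hn h1)]
  exact (hn₀ m hm).symm

theorem attraction2 (hc : Ctx π) {M : Subgroup Γ} {g : G} (hM : Cyc π M g) {Om : Set (Subgroup Γ)}
    (D : KData π M g Om) {y R : Γ} {k : ℤ} (h2 : D.Case2 y R k) {Q : Γ} (hQ : Q ∈ D.S.stab D.v)
    (hQg : π Q = g) (hne : Q ≠ D.P) :
    SameEnd D.A (fun n => D.P ^ n * (Q ^ n)⁻¹) (fun n => y ^ n) ∨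
      SameEnd D.A (fun n => D.P ^ n * (Q ^ n)⁻¹) (fun n => (y⁻¹) ^ n) := by
  have hyA : y ∈ D.S.stab D.v := h2.yA.1
  have hP : D.P ∈ D.S.stab D.v := ⟨D.hP, D.hPe.1⟩
  have hinj : ∀ w : Γ, w ≠ 1 → Function.Injective (fun n : ℕ => w ^ n) := by
    intro w hw
    rw [injective_pow_iff_not_isOfFinOrder, isOfFinOrder_iff_pow_eq_one]
    rintro ⟨n, hn, h⟩
    exact hw (hc.roots w 1 n hn (by rw [h, one_pow]))
  rcases attr_or_comm hc hM D hQ hQg (D.L 0) with h | h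
  · -- attracted
    obtain ⟨c, hcL⟩ := D.U.comm_axis hP hyA D.hL h2.comm
    have hadj : D.U.G.Adj (D.L 0) (D.L 1) := by
      rw [← SimpleGraph.dist_eq_one_iff_adj, D.hL.2.1]
      omega
    have hc0 : c ≠ 0 := by
      rintro rfl
      exact h2.y1 (D.hU.free y h2.yA _ _ hadj (by rw [hcL, add_zero]) (by rw [hcL, add_zero]))
    rcases lt_or_gt_of_ne hc0 with hc1 | hc1
    · right
      have hax : D.U.IsAxis y⁻¹ (-c).toNat D.L := by
        refine ⟨by omega, D.hL.2.1, fun i => ?_⟩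
        have h3 := hcL (i + ((-c).toNat : ℤ))
        have h4 : i + ((-c).toNat : ℤ) + c = i := by omega
        rw [h4] at h3
        rw [← h3, D.U.act_inv_act hyA]
      exact sameEnd_of_attr hc hM D (D.L 0) (D.z_mem hQ hQg)
        (fun n => Subgroup.pow_mem _ (Subgroup.inv_mem _ h2.yA) n) h
        (attr_of_axis (Subgroup.inv_mem _ hyA) hax (D.L 0))
    · left
      have hax : D.U.IsAxis y c.toNat D.L := by
        refine ⟨by omega, D.hL.2.1, fun i => ?_⟩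
        rw [hcL]
        congr 1
        omega
      exact sameEnd_of_attr hc hM D (D.L 0) (D.z_mem hQ hQg)
        (fun n => Subgroup.pow_mem _ h2.yA n) h (attr_of_axis hyA hax (D.L 0))
  · -- commuting
    obtain ⟨h3, h4⟩ := D.diff_mem hQ hQg h
    obtain ⟨j, hj⟩ := h2.centr _ h3 h4
    have hj' : y ^ j = Q * D.P⁻¹ := hj
    have hQ' : Q = y ^ j * D.P := by rw [hj', inv_mul_cancel_right]
    have hj0 : j ≠ 0 := by
      rintro rfl
      apply hne
      rw [hQ', zpow_zero, one_mul]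
    have hcom : Commute y D.P := h2.comm
    have hz : ∀ n : ℕ, D.P ^ n * (Q ^ n)⁻¹ = y ^ (-j * n) := by
      intro n
      rw [hQ', (hcom.zpow_left j).mul_pow, mul_inv_rev, mul_inv_cancel_left, ← zpow_natCast, ← zpow_mul,
        ← zpow_neg, neg_mul]
    rcases lt_or_gt_of_ne hj0 with hj1 | hj1
    · left
      refine sameEnd_pow h2.yA (hinj y h2.y1) (c := (-j).toNat) (by omega) (fun n => ?_)
      show D.P ^ n * (Q ^ n)⁻¹ = _
      rw [hz, ← zpow_natCast]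
      congr 1
      rw [Nat.cast_mul, Int.toNat_of_nonneg (by omega)]
    · right
      refine sameEnd_pow (Subgroup.inv_mem _ h2.yA) (hinj y⁻¹ (inv_ne_one.2 h2.y1)) (c := j.toNat)
        (by omega) (fun n => ?_)
      show D.P ^ n * (Q ^ n)⁻¹ = _
      rw [hz, inv_pow, ← zpow_natCast, ← zpow_neg]
      congr 1
      rw [Nat.cast_mul, Int.toNat_of_nonneg (by omega)]
      ring

end Pool.Agent.Lib.MP_6567fb_al
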