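import Pool.Agent.Lib.MP_6567fb_al.Defs4
import Pool.Agent.Lib.MP_6567fb_al.T2b

/-!
# MP_6567fb_al, module K17

Turn counting.  The set in `cnt` is a subset of the vertices of [p,q] (finite: btw_point).  cnt_triangle: m = median of p,q,r: a vertex b of [p,r],
b ≠ m, has both its neighbours on [p,r] also on [p,q] or also on [q,r].
-/

set_option autoImplicit false

open scoped Pointwise

namespace Pool.Agent.Lib.MP_6567fb_al

open MTree
variable {Γ : Type} [Group Γ]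

namespace TG

variable {X : Type} {G : SimpleGraph X}

theorem seg_finite (hG : G.IsTree) (x z : X) : {y | Btw G x y z}.Finite := by
  apply Set.Finite.of_finite_image (f := fun y => G.dist x y)
  · apply (Set.finite_Iic (G.dist x z)).subset
    rintro n ⟨y, hy, rfl⟩
    have hy' : G.dist x y + G.dist y z = G.dist x z := hy
    simp only [Set.mem_Iic]
    omega
  · intro y hy y' hy' h
    exact btw_point_unique hG hy rfl hy' h.symm

/-- the next vertex towards a point is the next vertex towards every point between -/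
theorem btw_next_of_btw (hG : G.IsTree) {b c m r : X} (hbc : G.Adj b c) (hc : Btw G b c r)
    (hm : Btw G b m r) (hne : b ≠ m) : Btw G b c m := by
  have h1 : G.dist b c = 1 := dist_eq_one hbc
  have h2 : 0 < G.dist b m := dist_pos_of_ne hG hne
  exact (btw_linear hG hc hm (by omega)).1

end TG

namespace MTree
variable {M : Subgroup Γ} (S : MTree M) (TT : S.X → S.X → S.X → Prop)

theorem cnt_finite (p q : S.X) :
    {b | ∃ a c, S.G.Adj a b ∧ S.G.Adj b c ∧ a ≠ c ∧ S.Btw p a b ∧ S.Btw b c q ∧ S.Btw p b q ∧ TT a b c}.Finite := by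
  apply (TG.seg_finite S.tree p q).subset
  rintro b ⟨a, c, -, -, -, -, -, h, -⟩
  exact h

theorem cnt_symm (hs : ∀ a b c, TT a b c → TT c b a) (p q : S.X) : S.cnt TT p q = S.cnt TT q p := by
  have key : ∀ p q : S.X,
      {b | ∃ a c, S.G.Adj a b ∧ S.G.Adj b c ∧ a ≠ c ∧ S.Btw p a b ∧ S.Btw b c q ∧ S.Btw p b q ∧ TT a b c} ⊆
      {b | ∃ a c, S.G.Adj a b ∧ S.G.Adj b c ∧ a ≠ c ∧ S.Btw q a b ∧ S.Btw b c p ∧ S.Btw q b p ∧ TT a b c} := by
    rintro p q b ⟨a, c, h1, h2, h3, h4, h5, h6, h7⟩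
    exact ⟨c, a, h2.symm, h1.symm, h3.symm, TG.btw_symm S.tree h5, TG.btw_symm S.tree h4,
      TG.btw_symm S.tree h6, hs _ _ _ h7⟩
  unfold cnt
  rw [Set.Subset.antisymm (key p q) (key q p)]

theorem cnt_act {m : Γ} (hm : m ∈ M) (hi : ∀ a b c, TT (S.act m a) (S.act m b) (S.act m c) ↔ TT a b c)
    (p q : S.X) : S.cnt TT (S.act m p) (S.act m q) = S.cnt TT p q := by
  suffices key : {b | ∃ a c, S.G.Adj a b ∧ S.G.Adj b c ∧ a ≠ c ∧ S.Btw (S.act m p) a b ∧
      S.Btw b c (S.act m q) ∧ S.Btw (S.act m p) b (S.act m q) ∧ TT a b c} =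
      S.act m '' {b | ∃ a c, S.G.Adj a b ∧ S.G.Adj b c ∧ a ≠ c ∧ S.Btw p a b ∧ S.Btw b c q ∧
        S.Btw p b q ∧ TT a b c} by
    unfold cnt
    rw [key, Set.ncard_image_of_injective _ (S.act_inj hm)]
  ext b
  constructor
  · rintro ⟨a, c, h1, h2, h3, h4, h5, h6, h7⟩
    obtain ⟨a, rfl⟩ := S.act_surj hm a
    obtain ⟨b, rfl⟩ := S.act_surj hm b
    obtain ⟨c, rfl⟩ := S.act_surj hm c
    refine ⟨b, ⟨a, c, (S.adj_act_iff hm _ _).1 h1, (S.adj_act_iff hm _ _).1 h2, fun h => h3 (by rw [h]),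
      (S.btw_act hm _ _ _).1 h4, (S.btw_act hm _ _ _).1 h5, (S.btw_act hm _ _ _).1 h6,
      (hi _ _ _).1 h7⟩, rfl⟩
  · rintro ⟨b, ⟨a, c, h1, h2, h3, h4, h5, h6, h7⟩, rfl⟩
    exact ⟨S.act m a, S.act m c, (S.adj_act_iff hm _ _).2 h1, (S.adj_act_iff hm _ _).2 h2,
      fun h => h3 (S.act_inj hm h), (S.btw_act hm _ _ _).2 h4, (S.btw_act hm _ _ _).2 h5,
      (S.btw_act hm _ _ _).2 h6, (hi _ _ _).2 h7⟩

theorem cnt_triangle (p q r : S.X) : S.cnt TT p r ≤ S.cnt TT p q + S.cnt TT q r + 1 := by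
  have hG := S.tree
  obtain ⟨m, hm1, hm2, hm3⟩ := TG.median_exists hG p q r
  unfold cnt
  set A := {b | ∃ a c, S.G.Adj a b ∧ S.G.Adj b c ∧ a ≠ c ∧ S.Btw p a b ∧ S.Btw b c q ∧ S.Btw p b q ∧ TT a b c}
    with hA
  set B := {b | ∃ a c, S.G.Adj a b ∧ S.G.Adj b c ∧ a ≠ c ∧ S.Btw q a b ∧ S.Btw b c r ∧ S.Btw q b r ∧ TT a b c}
    with hB
  have hAf : A.Finite := S.cnt_finite TT p q
  have hBf : B.Finite := S.cnt_finite TT q r
  have hsub : {b | ∃ a c, S.G.Adj a b ∧ S.G.Adj b c ∧ a ≠ c ∧ S.Btw p a b ∧ S.Btw b c r ∧ S.Btw p b r ∧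
      TT a b c} ⊆ (A ∪ B) ∪ {m} := by
    rintro b ⟨a, c, h1, h2, h3, h4, h5, h6, h7⟩
    by_cases hbm : b = m
    · exact Or.inr hbm
    · left
      rcases le_total (S.G.dist p b) (S.G.dist p m) with hle | hle
      · left
        obtain ⟨e1, e2⟩ := TG.btw_linear hG h6 hm3 hle
        -- `e1 : Btw p b m`, `e2 : Btw b m r`
        obtain ⟨e3, e4⟩ := TG.btw_trans' hG e1 hm1
        have e5 : TG.Btw S.G b c m := TG.btw_next_of_btw hG h2 h5 e2 hbm
        exact ⟨a, c, h1, h2, h3, h4, (TG.btw_trans' hG e5 e4).1, e3, h7⟩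
      · right
        obtain ⟨e1, e2⟩ := TG.btw_linear hG hm3 h6 hle
        -- `e1 : Btw p m b`, `e2 : Btw m b r`
        have e3 : TG.Btw S.G q b r := (TG.btw_trans hG hm2 e2).2
        have e4 : TG.Btw S.G q m b := (TG.btw_trans hG hm2 e2).1
        have e5 : TG.Btw S.G b a m := TG.btw_next_of_btw hG h1.symm (TG.btw_symm hG h4)
          (TG.btw_symm hG e1) hbm
        have e6 : TG.Btw S.G m a b := TG.btw_symm hG e5
        exact ⟨a, c, h1, h2, h3, (TG.btw_trans hG e4 e6).2, h5, e3, h7⟩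
  calc _ ≤ ((A ∪ B) ∪ {m}).ncard := Set.ncard_le_ncard hsub
        ((hAf.union hBf).union (Set.finite_singleton m))
    _ ≤ (A ∪ B).ncard + ({m} : Set S.X).ncard := Set.ncard_union_le _ _
    _ ≤ A.ncard + B.ncard + 1 := by
        rw [Set.ncard_singleton]
        exact Nat.add_le_add_right (Set.ncard_union_le _ _) 1

/-- lower bound: an axis of `f` passing a turn in `TT` -/
theorem cnt_axis {F : Subgroup Γ} {f : Γ} (hf : f ∈ M) {l : ℕ} {L : ℤ → S.X} (hL : S.IsAxis f l L)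
    (hi : ∀ a b c, TT (S.act f a) (S.act f b) (S.act f c) ↔ TT a b c) {i : ℤ}
    (hT : TT (L i) (L (i + 1)) (L (i + 2))) (v : S.X) : ∃ k : ℕ, 1 ≤ S.cnt TT v (S.act (f ^ k) v) := by
  have hG := S.tree
  refine ⟨3, ?_⟩
  have hl : (0 : ℤ) < l := by exact_mod_cast hL.1
  have hLine := hL.2.1
  have hL3 := S.axis_pow hf hL (k := 3) (by norm_num)
  obtain ⟨j, hj, -, hj1, hj2⟩ := S.disp' (M.pow_mem hf 3) hL3 v
  -- translated turns
  have hstep : ∀ s : ℤ, TT (L (s + l)) (L (s + l + 1)) (L (s + l + 2)) ↔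
      TT (L s) (L (s + 1)) (L (s + 2)) := by
    intro s
    have e := hi (L s) (L (s + 1)) (L (s + 2))
    rw [hL.2.2, hL.2.2, hL.2.2] at e
    have e1 : s + 1 + (l : ℤ) = s + l + 1 := by ring
    have e2 : s + 2 + (l : ℤ) = s + l + 2 := by ring
    rw [e1, e2] at e
    exact e
  have hall : ∀ t : ℤ, TT (L (i + l * t)) (L (i + l * t + 1)) (L (i + l * t + 2)) := by
    intro t
    induction t using Int.induction_on with
    | zero => simpa using hT
    | succ t ih =>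
      have := (hstep (i + l * t)).2 ih
      have e : i + (l : ℤ) * (t + 1) = i + l * t + l := by ring
      rw [e]
      exact this
    | pred t ih =>
      have e : i + (l : ℤ) * (-(t : ℤ)) = i + l * (-(t : ℤ) - 1) + l := by ring
      rw [e] at ih
      exact (hstep _).1 ih
  -- choose a translate after the projection
  obtain ⟨t, ht1, ht2⟩ : ∃ t : ℤ, j ≤ i + l * t ∧ i + l * t < j + l := by
    refine ⟨-((i - j) / l), ?_, ?_⟩
    · have := Int.mul_ediv_add_emod (i - j) l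
      have h2 := Int.emod_nonneg (i - j) hl.ne'
      nlinarith
    · have := Int.mul_ediv_add_emod (i - j) l
      have h2 := Int.emod_lt_of_pos (i - j) hl
      nlinarith
  have hTT := hall t
  generalize i + (l : ℤ) * t = s at ht1 ht2 hTT
  have hend : s + 2 ≤ j + ((3 * l : ℕ) : ℤ) := by push_cast; linarith
  have hadj : ∀ n : ℤ, S.G.Adj (L n) (L (n + 1)) := by
    intro n
    rw [← SimpleGraph.dist_eq_one_iff_adj, hLine]
    simp
  have b1 : TG.Btw S.G (L j) (L s) (L (s + 1)) := TG.line_btw hLine ht1 (by linarith)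
  have b2 : TG.Btw S.G v (L s) (L (s + 1)) := (TG.btw_trans hG (hj _) b1).2
  have b3 : TG.Btw S.G (L j) (L (s + 1)) (L (j + ((3 * l : ℕ) : ℤ))) :=
    TG.line_btw hLine (by linarith) (by linarith)
  have b4 : TG.Btw S.G v (L (s + 1)) (L (j + ((3 * l : ℕ) : ℤ))) := (TG.btw_trans hG (hj _) b3).2
  obtain ⟨b5, b6⟩ := TG.btw_trans' hG b4 hj2
  have b7 : TG.Btw S.G (L (s + 1)) (L (s + 1 + 1)) (L (j + ((3 * l : ℕ) : ℤ))) :=
    TG.line_btw hLine (by linarith) (by linarith)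
  have b8 := (TG.btw_trans' hG b7 b6).1
  have hmem : L (s + 1) ∈ {b | ∃ a c, S.G.Adj a b ∧ S.G.Adj b c ∧ a ≠ c ∧ S.Btw v a b ∧
      S.Btw b c (S.act (f ^ 3) v) ∧ S.Btw v b (S.act (f ^ 3) v) ∧ TT a b c} := by
    refine ⟨L s, L (s + 1 + 1), hadj s, hadj (s + 1), fun h => ?_, b2, b8, b5, ?_⟩
    · have := TG.line_inj hLine h
      omega
    · have e : s + 1 + 1 = s + 2 := by ring
      rw [e]
      exact hTT
  unfold cnt
  exact (Set.ncard_pos (S.cnt_finite TT _ _)).2 ⟨_, hmem⟩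

end MTree

end Pool.Agent.Lib.MP_6567fb_al
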