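import Pool.Agent.Lib.MP_6567fb_al.K17
import Pool.Agent.Lib.MP_6567fb_al.T2c

/-!
# MP_6567fb_al, module K18

The doubling inequality (K6.2).  H = M ⊓ π.ker.  For an oriented edge (x,y) of S put N(x,y) := {f in H : S.Beyond x y ((h f h⁻¹) v)}; for w adjacent to v
put H_w := {f in H : S.Beyond v w (f v)}.  z = z_e := P^n Q^-n in A for e in W (Q = the lift fixing (v, e.2)).  The
hypotheses h1, h1', h2 say: for the four edges eps of the segment of the ray r (bb e): N(eps) ∩ H_{e.1} = ∅, 1 ∉ N(eps), z ∈ N(eps), z H_{e.2} ⊆ N(eps).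

For a turn of the source path at `x v`, given by `e`, the two turns of the target path are the translates by
`φ x = h P^n x P^-n h⁻¹` of the turns of the ray `r (bb e)` at `α + 1`, `β + 1`.  If the turn at `x v` comes before the turn at
`x' v` then every edge of the first segment comes strictly before every edge of the second one on the target path: there is a
vertex which is on the forward side of the first edge but not of the second one.
-/

set_option autoImplicit false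

open scoped Pointwise

namespace Pool.Agent.Lib.MP_6567fb_al

open MTree
variable {Γ G : Type} [Group Γ] [Group G] {π : Γ →* G}

namespace TG

variable {X : Type} {Gr : SimpleGraph X}

/-- Two edges of the geodesic `[p,q]`, oriented towards `q`: if there is a point beyond the first one
which is not beyond the second one then the first one comes first. -/
theorem edge_order (hG : Gr.IsTree) {p q a b a' b' w : X} (hab : Gr.Adj a b) (hab' : Gr.Adj a' b')
    (h1 : ¬ Beyond Gr a b p) (h2 : Beyond Gr a b q) (h1' : ¬ Beyond Gr a' b' p)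
    (h2' : Beyond Gr a' b' q) (hw : Beyond Gr a b w) (hw' : ¬ Beyond Gr a' b' w) :
    Gr.dist p a < Gr.dist p a' := by
  by_contra hcon
  push Not at hcon
  obtain ⟨e1, e2, e3⟩ := (beyond_sep hG hab).1 ⟨h1, h2⟩
  obtain ⟨e1', e2', e3'⟩ := (beyond_sep hG hab').1 ⟨h1', h2'⟩
  have hbq : Btw Gr a b q := (beyond_iff_btw hG hab q).1 h2
  have hbq' : Btw Gr a' b' q := (beyond_iff_btw hG hab' q).1 h2'
  by_cases haa : a = a'
  · subst haa
    have d1 : Gr.dist b q + 1 = Gr.dist a q := by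
      have := dist_eq_one hab
      have h : Gr.dist a b + Gr.dist b q = Gr.dist a q := hbq
      omega
    have d1' : Gr.dist b' q + 1 = Gr.dist a q := by
      have := dist_eq_one hab'
      have h : Gr.dist a b' + Gr.dist b' q = Gr.dist a q := hbq'
      omega
    have hbb : b = b' := next_unique hG hab d1 hab' d1'
    subst hbb
    exact hw' hw
  · obtain ⟨f1, f2⟩ := btw_linear hG e1' e1 hcon
    -- `f1 : Btw p a' a`, `f2 : Btw a' a q`
    have f3 : Btw Gr a' b' a := btw_next_of_btw hG hab' hbq' f2 (Ne.symm haa)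
    have f4 : Btw Gr b a p := (not_beyond_iff_btw hG hab p).1 h1
    have f5 : Btw Gr a' a b := (btw_trans' hG f1 (btw_symm hG f4)).2
    have f6 : ¬ Beyond Gr a b a' := (not_beyond_iff_btw hG hab a').2 (btw_symm hG f5)
    exact hw' (beyond_nested hG hab' hab ((beyond_iff_btw hG hab' a).2 f3) f6 w hw)

end TG

theorem TurnIn.symm {F : Subgroup Γ} {M : Subgroup Γ} {S : MTree M} {W : Finset (S.X × S.X)}
    {v a b c : S.X} (h : TurnIn F S W v a b c) : TurnIn F S W v c b a := by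
  obtain ⟨x, hx, e, he, hb, h1⟩ := h
  refine ⟨x, hx, e, he, hb, ?_⟩
  rcases h1 with ⟨h1, h2⟩ | ⟨h1, h2⟩
  · exact Or.inr ⟨h2, h1⟩
  · exact Or.inl ⟨h2, h1⟩

theorem TurnIn.act {F : Subgroup Γ} {M : Subgroup Γ} {S : MTree M} {W : Finset (S.X × S.X)}
    {v a b c : S.X} {y : Γ} (hy : y ∈ M ⊓ F) (h : TurnIn F S W v a b c) :
    TurnIn F S W v (S.act y a) (S.act y b) (S.act y c) := by
  obtain ⟨x, hx, e, he, hb, h1⟩ := h
  refine ⟨y * x, (M ⊓ F).mul_mem hy hx, e, he, ?_, ?_⟩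
  · rw [S.act_mul y hy.1 x hx.1, hb]
  · rw [S.act_mul y hy.1 x hx.1, S.act_mul y hy.1 x hx.1]
    rcases h1 with ⟨h1, h2⟩ | ⟨h1, h2⟩
    · exact Or.inl ⟨by rw [h1], by rw [h2]⟩
    · exact Or.inr ⟨by rw [h1], by rw [h2]⟩

theorem TurnIn.act_iff {F : Subgroup Γ} {M : Subgroup Γ} {S : MTree M} {W : Finset (S.X × S.X)}
    {v a b c : S.X} {y : Γ} (hy : y ∈ M ⊓ F) :
    TurnIn F S W v (S.act y a) (S.act y b) (S.act y c) ↔ TurnIn F S W v a b c := by
  refine ⟨fun h => ?_, fun h => h.act hy⟩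
  have := h.act ((M ⊓ F).inv_mem hy)
  rwa [S.act_inv_act hy.1, S.act_inv_act hy.1, S.act_inv_act hy.1] at this

theorem doubling (hc : Ctx π) {M : Subgroup Γ} {g : G} (hM : Cyc π M g) {S : MTree M}
    (hS : S.IsSplitting π.ker) {v : S.X} {P : Γ} (hP : P ∈ M) (hPg : π P = g) (hPv : S.act P v = v) {h : Γ}
    (hh : MulAut.conj h • (M ⊓ π.ker) = M ⊓ π.ker) (W : Finset (S.X × S.X))
    (hW : ∀ e ∈ W, S.G.Adj v e.1 ∧ S.G.Adj v e.2 ∧ S.act P e.1 = e.1 ∧ S.act P e.2 ≠ e.2)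
    (r : Bool → ℕ → S.X) (hr : ∀ b, S.IsRay (r b)) (α β : Bool → ℕ) (hαβ : ∀ b, α b < β b)
    (hTα : ∀ b, TurnIn π.ker S W v (r b (α b)) (r b (α b + 1)) (r b (α b + 2)))
    (hTβ : ∀ b, TurnIn π.ker S W v (r b (β b)) (r b (β b + 1)) (r b (β b + 2)))
    (bb : S.X × S.X → Bool) (n : ℕ)
    (h1 : ∀ e ∈ W, ∀ j, α (bb e) ≤ j → j ≤ β (bb e) + 1 → ∀ f ∈ M ⊓ π.ker, S.Beyond v e.1 (S.act f v) →
      ¬ S.Beyond (r (bb e) j) (r (bb e) (j + 1)) (S.act (h * f * h⁻¹) v))
    (h1' : ∀ b j, α b ≤ j → j ≤ β b + 1 → ¬ S.Beyond (r b j) (r b (j + 1)) v)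
    (h2 : ∀ e ∈ W, ∀ j, α (bb e) ≤ j → j ≤ β (bb e) + 1 → ∀ Q ∈ M, π Q = g → S.FixE Q v e.2 →
      S.Beyond (r (bb e) j) (r (bb e) (j + 1)) (S.act (h * (P ^ n * (Q ^ n)⁻¹) * h⁻¹) v) ∧
      ∀ f ∈ M ⊓ π.ker, S.Beyond v e.2 (S.act f v) →
        S.Beyond (r (bb e) j) (r (bb e) (j + 1)) (S.act (h * (P ^ n * (Q ^ n)⁻¹ * f) * h⁻¹) v)) :
    ∀ f ∈ M ⊓ π.ker, ∀ f' ∈ M ⊓ π.ker,
      2 * S.cnt (TurnIn π.ker S W v) (S.act f v) (S.act f' v) ≤
        S.cnt (TurnIn π.ker S W v) (S.act (h * P ^ n * f * (h * P ^ n)⁻¹) v)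
          (S.act (h * P ^ n * f' * (h * P ^ n)⁻¹) v) := by
  classical
  have hG := S.tree
  obtain ⟨φ, hφ⟩ : ∃ φ : Γ → Γ, φ = fun x => h * P ^ n * x * (h * P ^ n)⁻¹ := ⟨_, rfl⟩
  have hφmul : ∀ x y, φ (x * y) = φ x * φ y := fun x y => by rw [hφ]; group
  have hφinv : ∀ x, φ x⁻¹ = (φ x)⁻¹ := fun x => by rw [hφ]; group
  have hPn : P ^ n ∈ M := M.pow_mem hP n
  have hPnv : S.act (P ^ n) v = v := S.fix_pow hP hPv n
  have hPnv' : S.act (P ^ n)⁻¹ v = v := by
    conv_lhs => rw [← hPnv]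
    exact S.act_inv_act hPn v
  have hconjH : ∀ x ∈ M ⊓ π.ker, h * x * h⁻¹ ∈ M ⊓ π.ker := by
    intro x hx
    have := Subgroup.smul_mem_pointwise_smul x (MulAut.conj h) (M ⊓ π.ker) hx
    rw [hh] at this
    simpa using this
  have hPconj : ∀ x ∈ M ⊓ π.ker, P ^ n * x * (P ^ n)⁻¹ ∈ M ⊓ π.ker := by
    intro x hx
    refine ⟨M.mul_mem (M.mul_mem hPn hx.1) (M.inv_mem hPn), ?_⟩
    exact (inferInstance : π.ker.Normal).conj_mem x hx.2 (P ^ n)
  have hφeq : ∀ x, φ x = h * (P ^ n * x * (P ^ n)⁻¹) * h⁻¹ := fun x => by rw [hφ]; group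
  have hφH : ∀ x ∈ M ⊓ π.ker, φ x ∈ M ⊓ π.ker := fun x hx => by
    rw [hφeq]
    exact hconjH _ (hPconj x hx)
  have hφM : ∀ x ∈ M ⊓ π.ker, φ x ∈ M := fun x hx => (hφH x hx).1
  -- translation
  have htr : ∀ a ∈ M, ∀ y ∈ M, ∀ p q : S.X,
      S.Beyond (S.act a p) (S.act a q) (S.act y v) ↔ S.Beyond p q (S.act (a⁻¹ * y) v) := by
    intro a ha y hy p q
    rw [← S.beyond_act (M.inv_mem ha), S.act_inv_act ha, S.act_inv_act ha,
      S.act_mul a⁻¹ (M.inv_mem ha) y hy]
  -- the side of `e.1`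
  have lemA : ∀ x ∈ M ⊓ π.ker, ∀ y ∈ M ⊓ π.ker, ∀ e ∈ W,
      S.Beyond (S.act x v) (S.act x e.1) (S.act y v) → ∀ j, α (bb e) ≤ j → j ≤ β (bb e) + 1 →
      ¬ S.Beyond (S.act (φ x) (r (bb e) j)) (S.act (φ x) (r (bb e) (j + 1))) (S.act (φ y) v) := by
    intro x hx y hy e he hb j hj1 hj2
    rw [htr _ (hφM x hx) _ (hφM y hy), ← hφinv, ← hφmul]
    rw [htr _ hx.1 _ hy.1] at hb
    have hxy : x⁻¹ * y ∈ M ⊓ π.ker := (M ⊓ π.ker).mul_mem ((M ⊓ π.ker).inv_mem hx) hy
    generalize x⁻¹ * y = f1 at hb hxy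
    rw [hφeq]
    refine h1 e he j hj1 hj2 _ (hPconj f1 hxy) ?_
    have e1 : S.act (P ^ n * f1 * (P ^ n)⁻¹) v = S.act (P ^ n) (S.act f1 v) := by
      rw [S.act_mul _ (M.mul_mem hPn hxy.1) _ (M.inv_mem hPn), hPnv',
        S.act_mul _ hPn _ hxy.1]
    rw [e1]
    have e2 := (S.beyond_act hPn v e.1 (S.act f1 v)).2 hb
    rw [hPnv, S.fix_pow hP (hW e he).2.2.1 n] at e2
    exact e2
  -- the lifts
  have hlift : ∀ e ∈ W, ∃ Q ∈ M, π Q = g ∧ S.FixE Q v e.2 := by
    intro e he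
    obtain ⟨Q, ⟨hQ, hQg, hQe⟩, -⟩ := hS.lift (hW e he).2.1 hP
    exact ⟨Q, hQ, hQg.trans hPg, hQe⟩
  have hQker : ∀ Q ∈ M, π Q = g → ∀ Q' ∈ M, π Q' = g → ∀ f1 ∈ M ⊓ π.ker,
      Q ^ n * f1 * (Q' ^ n)⁻¹ ∈ M ⊓ π.ker := by
    intro Q hQ hQg Q' hQ' hQg' f1 hf1
    refine ⟨M.mul_mem (M.mul_mem (M.pow_mem hQ n) hf1.1) (M.inv_mem (M.pow_mem hQ' n)), ?_⟩
    have hk : π f1 = 1 := hf1.2
    show π (Q ^ n * f1 * (Q' ^ n)⁻¹) = 1
    rw [ map_mul, map_mul, map_inv, map_pow, map_pow, hk, hQg, hQg']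
    simp
  -- the side of `e.2`
  have lemB' : ∀ e ∈ W, ∀ f1 ∈ M ⊓ π.ker, S.Beyond v e.2 (S.act f1 v) → ∀ Q' ∈ M, π Q' = g →
      S.act Q' v = v → ∀ j, α (bb e) ≤ j → j ≤ β (bb e) + 1 →
      S.Beyond (r (bb e) j) (r (bb e) (j + 1)) (S.act (h * (P ^ n * f1 * (Q' ^ n)⁻¹) * h⁻¹) v) := by
    intro e he f1 hf1 hb Q' hQ' hQg' hQv' j hj1 hj2
    obtain ⟨Q, hQ, hQg, hQe⟩ := hlift e he
    have e1 : P ^ n * f1 * (Q' ^ n)⁻¹ = P ^ n * (Q ^ n)⁻¹ * (Q ^ n * f1 * (Q' ^ n)⁻¹) := by group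
    rw [e1]
    refine (h2 e he j hj1 hj2 Q hQ hQg hQe).2 _ (hQker Q hQ hQg Q' hQ' hQg' f1 hf1) ?_
    have hQn' := M.pow_mem hQ' n
    have hv' : S.act (Q' ^ n)⁻¹ v = v := by
      conv_lhs => rw [← S.fix_pow hQ' hQv' n]
      exact S.act_inv_act hQn' v
    have e2 : S.act (Q ^ n * f1 * (Q' ^ n)⁻¹) v = S.act (Q ^ n) (S.act f1 v) := by
      rw [S.act_mul _ (M.mul_mem (M.pow_mem hQ n) hf1.1) _ (M.inv_mem hQn'), hv',
        S.act_mul _ (M.pow_mem hQ n) _ hf1.1]
    rw [e2]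
    have e3 := (S.beyond_act (M.pow_mem hQ n) v e.2 (S.act f1 v)).2 hb
    rw [S.fix_pow hQ hQe.1 n, S.fix_pow hQ hQe.2 n] at e3
    exact e3
  have lemB : ∀ x ∈ M ⊓ π.ker, ∀ y ∈ M ⊓ π.ker, ∀ e ∈ W,
      S.Beyond (S.act x v) (S.act x e.2) (S.act y v) → ∀ j, α (bb e) ≤ j → j ≤ β (bb e) + 1 →
      S.Beyond (S.act (φ x) (r (bb e) j)) (S.act (φ x) (r (bb e) (j + 1))) (S.act (φ y) v) := by
    intro x hx y hy e he hb j hj1 hj2
    rw [htr _ (hφM x hx) _ (hφM y hy), ← hφinv, ← hφmul]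
    rw [htr _ hx.1 _ hy.1] at hb
    have hxy : x⁻¹ * y ∈ M ⊓ π.ker := (M ⊓ π.ker).mul_mem ((M ⊓ π.ker).inv_mem hx) hy
    generalize x⁻¹ * y = f1 at hb hxy
    rw [hφeq]
    exact lemB' e he f1 hxy hb P hP hPg hPv j hj1 hj2
  -- the base point
  have lemC : ∀ x ∈ M ⊓ π.ker, ∀ b j, α b ≤ j → j ≤ β b + 1 →
      ¬ S.Beyond (S.act (φ x) (r b j)) (S.act (φ x) (r b (j + 1))) (S.act (φ x) v) := by
    intro x hx b j hj1 hj2
    rw [htr _ (hφM x hx) _ (hφM x hx), inv_mul_cancel, S.act_one]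
    exact h1' b j hj1 hj2
  -- the third witness
  have lemD : ∀ x ∈ M ⊓ π.ker, ∀ e ∈ W, ∃ w : S.X,
      (∀ j, α (bb e) ≤ j → j ≤ β (bb e) + 1 →
        S.Beyond (S.act (φ x) (r (bb e) j)) (S.act (φ x) (r (bb e) (j + 1))) w) ∧
      (∀ x' ∈ M ⊓ π.ker, ∀ e' ∈ W, S.Beyond (S.act x' v) (S.act x' e'.2) (S.act x v) →
        ∀ j, α (bb e') ≤ j → j ≤ β (bb e') + 1 →
        S.Beyond (S.act (φ x') (r (bb e') j)) (S.act (φ x') (r (bb e') (j + 1))) w) := by
    intro x hx e he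
    obtain ⟨Q, hQ, hQg, hQe⟩ := hlift e he
    have hz : P ^ n * (Q ^ n)⁻¹ ∈ M ⊓ π.ker := by
      have := hQker P hP hPg Q hQ hQg 1 (M ⊓ π.ker).one_mem
      rwa [mul_one] at this
    have hz' := hconjH _ hz
    have hwM : φ x * (h * (P ^ n * (Q ^ n)⁻¹) * h⁻¹) ∈ M := M.mul_mem (hφM x hx) hz'.1
    refine ⟨S.act (φ x * (h * (P ^ n * (Q ^ n)⁻¹) * h⁻¹)) v, ?_, ?_⟩
    · intro j hj1 hj2
      rw [htr _ (hφM x hx) _ hwM, inv_mul_cancel_left]
      exact (h2 e he j hj1 hj2 Q hQ hQg hQe).1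
    · intro x' hx' e' he' hb j hj1 hj2
      rw [htr _ (hφM x' hx') _ hwM]
      rw [htr _ hx'.1 _ hx.1] at hb
      have hxx : x'⁻¹ * x ∈ M ⊓ π.ker := (M ⊓ π.ker).mul_mem ((M ⊓ π.ker).inv_mem hx') hx
      have e1 : (φ x')⁻¹ * (φ x * (h * (P ^ n * (Q ^ n)⁻¹) * h⁻¹)) =
          h * (P ^ n * (x'⁻¹ * x) * (Q ^ n)⁻¹) * h⁻¹ := by
        rw [hφ]; group
      rw [e1]
      exact lemB' e' he' _ hxx hb Q hQ hQg hQe.1 j hj1 hj2
  -- the two paths
  intro f hf f' hf'
  have hTact : ∀ x ∈ M ⊓ π.ker, ∀ a b c, TurnIn π.ker S W v a b c →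
      TurnIn π.ker S W v (S.act (φ x) a) (S.act (φ x) b) (S.act (φ x) c) :=
    fun x hx a b c ht => ht.act (hφH x hx)
  have hrad : ∀ b j, S.G.Adj (r b j) (r b (j + 1)) := by
    intro b j
    rw [← SimpleGraph.dist_eq_one_iff_adj, hr b]
    simp
  have hrne : ∀ b j j', r b j = r b j' → j = j' := by
    intro b j j' hjj
    have h3 := hr b j j'
    rw [hjj, SimpleGraph.dist_self] at h3
    omega
  set p := S.act (φ f) v with hp
  set q := S.act (φ f') v with hq
  -- the source turns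
  have hsrc : ∀ b ∈ {b | ∃ a c, S.G.Adj a b ∧ S.G.Adj b c ∧ a ≠ c ∧ S.Btw (S.act f v) a b ∧
      S.Btw b c (S.act f' v) ∧ S.Btw (S.act f v) b (S.act f' v) ∧ TurnIn π.ker S W v a b c},
      ∃ (x : Γ) (e : S.X × S.X) (d : Bool), x ∈ M ⊓ π.ker ∧ e ∈ W ∧ b = S.act x v ∧
        S.Btw (S.act f v) b (S.act f' v) ∧
        S.Beyond (S.act x v) (S.act x (if d then e.1 else e.2)) (S.act f v) ∧
        S.Beyond (S.act x v) (S.act x (if d then e.2 else e.1)) (S.act f' v) := by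
    rintro b ⟨a, c, a1, a2, a3, a4, a5, a6, x, hx, e, he, hb, hac⟩
    have c1 : S.Beyond b a (S.act f v) :=
      (TG.beyond_iff_btw hG a1.symm _).2 (TG.btw_symm hG a4)
    have c2 : S.Beyond b c (S.act f' v) := (TG.beyond_iff_btw hG a2 _).2 a5
    rcases hac with ⟨ha, hc'⟩ | ⟨ha, hc'⟩
    · refine ⟨x, e, true, hx, he, hb, a6, ?_, ?_⟩
      · rw [← hb]
        simp only [if_true]
        rw [← ha]
        exact c1
      · rw [← hb]
        simp only [if_true]
        rw [← hc']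
        exact c2
    · refine ⟨x, e, false, hx, he, hb, a6, ?_, ?_⟩
      · rw [← hb]
        simp only [Bool.false_eq_true, if_false]
        rw [← ha]
        exact c1
      · rw [← hb]
        simp only [Bool.false_eq_true, if_false]
        rw [← hc']
        exact c2
  choose! X E Dd hX hE hbX hbtw hBf hBf' using hsrc
  set AA := {b | ∃ a c, S.G.Adj a b ∧ S.G.Adj b c ∧ a ≠ c ∧ S.Btw (S.act f v) a b ∧
      S.Btw b c (S.act f' v) ∧ S.Btw (S.act f v) b (S.act f' v) ∧ TurnIn π.ker S W v a b c} with hAA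
  -- sides of the four edges
  have hside : ∀ b ∈ AA, ∀ y ∈ M ⊓ π.ker, ∀ j, α (bb (E b)) ≤ j → j ≤ β (bb (E b)) + 1 →
      (S.Beyond (S.act (X b) v) (S.act (X b) (if Dd b then (E b).1 else (E b).2)) (S.act y v) →
        (S.Beyond (S.act (φ (X b)) (r (bb (E b)) j)) (S.act (φ (X b)) (r (bb (E b)) (j + 1)))
          (S.act (φ y) v) ↔ Dd b = false)) ∧
      (S.Beyond (S.act (X b) v) (S.act (X b) (if Dd b then (E b).2 else (E b).1)) (S.act y v) →
        (S.Beyond (S.act (φ (X b)) (r (bb (E b)) j)) (S.act (φ (X b)) (r (bb (E b)) (j + 1)))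
          (S.act (φ y) v) ↔ Dd b = true)) := by
    intro b hb y hy j hj1 hj2
    cases hd : Dd b with
    | true =>
      simp only [if_true]
      refine ⟨fun hs => ?_, fun hs => ?_⟩
      · have := lemA _ (hX b hb) y hy _ (hE b hb) hs j hj1 hj2
        simp [this]
      · have := lemB _ (hX b hb) y hy _ (hE b hb) hs j hj1 hj2
        simp [this]
    | false =>
      simp only [Bool.false_eq_true, if_false]
      refine ⟨fun hs => ?_, fun hs => ?_⟩
      · have := lemB _ (hX b hb) y hy _ (hE b hb) hs j hj1 hj2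
        simp [this]
      · have := lemA _ (hX b hb) y hy _ (hE b hb) hs j hj1 hj2
        simp [this]
  -- index of the turn
  obtain ⟨ix, hix⟩ : ∃ ix : S.X → Bool → ℕ,
      ix = fun b s => if s then β (bb (E b)) else α (bb (E b)) := ⟨_, rfl⟩
  have hix1 : ∀ b s, α (bb (E b)) ≤ ix b s := by
    intro b s
    rw [hix]
    cases s
    · exact le_rfl
    · exact (hαβ _).le
  have hix2 : ∀ b s, ix b s ≤ β (bb (E b)) := by
    intro b s
    rw [hix]
    cases s
    · exact (hαβ _).le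
    · exact le_rfl
  have hixT : ∀ b s, TurnIn π.ker S W v (r (bb (E b)) (ix b s)) (r (bb (E b)) (ix b s + 1))
      (r (bb (E b)) (ix b s + 2)) := by
    intro b s
    rw [hix]
    cases s
    · exact hTα _
    · exact hTβ _
  obtain ⟨ctr, hctr⟩ : ∃ ctr : S.X → Bool → S.X,
      ctr = fun b s => S.act (φ (X b)) (r (bb (E b)) (ix b s + 1)) := ⟨_, rfl⟩
  -- the next vertex of the target path
  obtain ⟨nx, hnx⟩ : ∃ nx : S.X → Bool → S.X,
      nx = fun b s => S.act (φ (X b))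
        (r (bb (E b)) (if Dd b then ix b s + 2 else ix b s)) := ⟨_, rfl⟩
  have hadjc : ∀ b ∈ AA, ∀ s, S.G.Adj (ctr b s) (nx b s) := by
    intro b hb s
    rw [hctr, hnx]
    refine (S.adj_act_iff (hφM _ (hX b hb)) _ _).2 ?_
    cases hd : Dd b with
    | true => simp only [if_true]; exact hrad _ _
    | false => simp only [Bool.false_eq_true, if_false]; exact (hrad _ _).symm
  -- forward side in terms of the edges of the ray
  have hfwd : ∀ b ∈ AA, ∀ s w, S.Beyond (ctr b s) (nx b s) w ↔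
      (if Dd b then S.Beyond (S.act (φ (X b)) (r (bb (E b)) (ix b s + 1)))
        (S.act (φ (X b)) (r (bb (E b)) (ix b s + 1 + 1))) w
      else ¬ S.Beyond (S.act (φ (X b)) (r (bb (E b)) (ix b s)))
        (S.act (φ (X b)) (r (bb (E b)) (ix b s + 1))) w) := by
    intro b hb s w
    have ha := hadjc b hb s
    simp only [hctr, hnx] at ha ⊢
    cases hd : Dd b with
    | true => simp
    | false =>
      simp only [hd, Bool.false_eq_true, if_false] at ha ⊢
      exact TG.beyond_iff hG ha w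
  have hord : ∀ b ∈ AA, ∀ b' ∈ AA, S.G.dist (S.act f v) b < S.G.dist (S.act f v) b' →
      ∀ s s', S.G.dist p (ctr b s) < S.G.dist p (ctr b' s') := by
    intro b hb b' hb' hlt s s'
    -- positions on the source path
    have hne : b ≠ b' := fun hc' => by rw [hc'] at hlt; exact lt_irrefl _ hlt
    obtain ⟨g1, g2⟩ := TG.btw_linear hG (hbtw b hb) (hbtw b' hb') hlt.le
    -- `g1 : Btw (f v) b b'`, `g2 : Btw b b' (f' v)`
    have hadjW : ∀ b ∈ AA, ∀ d : Bool, S.G.Adj (S.act (X b) v)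
        (S.act (X b) (if d then (E b).1 else (E b).2)) := by
      intro b hb d
      refine (S.adj_act_iff (hX b hb).1 _ _).2 ?_
      cases d
      · exact (hW _ (hE b hb)).2.1
      · exact (hW _ (hE b hb)).1
    have hadjW' : ∀ b ∈ AA, ∀ d : Bool, S.G.Adj (S.act (X b) v)
        (S.act (X b) (if d then (E b).2 else (E b).1)) := by
      intro b hb d
      refine (S.adj_act_iff (hX b hb).1 _ _).2 ?_
      cases d
      · exact (hW _ (hE b hb)).1
      · exact (hW _ (hE b hb)).2.1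
    have k1 : S.Beyond (S.act (X b) v) (S.act (X b) (if Dd b then (E b).2 else (E b).1))
        (S.act (X b') v) := by
      rw [← hbX b' hb']
      have e1 := (TG.beyond_iff_btw hG (hadjW' b hb (Dd b)) _).1 (hBf' b hb)
      refine (TG.beyond_iff_btw hG (hadjW' b hb (Dd b)) _).2 ?_
      refine TG.btw_next_of_btw hG (hadjW' b hb (Dd b)) e1 ?_ ?_
      · rw [← hbX b hb]; exact g2
      · rw [← hbX b hb]; exact hne
    have k2 : S.Beyond (S.act (X b') v) (S.act (X b') (if Dd b' then (E b').1 else (E b').2))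
        (S.act (X b) v) := by
      rw [← hbX b hb]
      have e1 := (TG.beyond_iff_btw hG (hadjW b' hb' (Dd b')) _).1 (hBf b' hb')
      refine (TG.beyond_iff_btw hG (hadjW b' hb' (Dd b')) _).2 ?_
      refine TG.btw_next_of_btw hG (hadjW b' hb' (Dd b')) e1 ?_ ?_
      · rw [← hbX b' hb']; exact TG.btw_symm hG g1
      · rw [← hbX b' hb']; exact Ne.symm hne
    have i1 := hix1 b s
    have i2 := hix2 b s
    have i1' := hix1 b' s'
    have i2' := hix2 b' s'
    -- the ends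
    have hpq : ∀ b ∈ AA, ∀ s, ¬ S.Beyond (ctr b s) (nx b s) p ∧ S.Beyond (ctr b s) (nx b s) q := by
      intro b hb s
      have i1 := hix1 b s
      have i2 := hix2 b s
      rw [hfwd b hb, hfwd b hb]
      have u1 := (hside b hb f hf (ix b s + 1) (by omega) (by omega)).1 (hBf b hb)
      have u2 := (hside b hb f hf (ix b s) (by omega) (by omega)).1 (hBf b hb)
      have u3 := (hside b hb f' hf' (ix b s + 1) (by omega) (by omega)).2 (hBf' b hb)
      have u4 := (hside b hb f' hf' (ix b s) (by omega) (by omega)).2 (hBf' b hb)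
      cases hd : Dd b with
      | true =>
        rw [hd] at u1 u3
        simp only [if_true]
        exact ⟨fun hc' => by simpa using u1.1 hc', u3.2 rfl⟩
      | false =>
        rw [hd] at u2 u4
        simp only [Bool.false_eq_true, if_false]
        exact ⟨fun hc' => hc' (u2.2 rfl), fun hc' => by simpa using u4.1 hc'⟩
    have key : ∃ w, S.Beyond (ctr b s) (nx b s) w ∧ ¬ S.Beyond (ctr b' s') (nx b' s') w := by
      cases hd : Dd b with
      | true =>
        cases hd' : Dd b' with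
        | true =>
          refine ⟨S.act (φ (X b')) v, ?_, ?_⟩
          · rw [hfwd b hb, hd, if_pos rfl]
            have u := (hside b hb _ (hX b' hb') (ix b s + 1) (by omega) (by omega)).2 k1
            exact u.2 hd
          · rw [hfwd b' hb', hd', if_pos rfl]
            exact lemC _ (hX b' hb') _ _ (by omega) (by omega)
        | false =>
          obtain ⟨w, w1, w2⟩ := lemD _ (hX b hb) _ (hE b hb)
          refine ⟨w, ?_, ?_⟩
          · rw [hfwd b hb, hd, if_pos rfl]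
            exact w1 _ (by omega) (by omega)
          · rw [hfwd b' hb', hd']
            simp only [Bool.false_eq_true, if_false, not_not]
            rw [hd'] at k2
            simp only [Bool.false_eq_true, if_false] at k2
            exact w2 _ (hX b' hb') _ (hE b' hb') k2 _ (by omega) (by omega)
      | false =>
        cases hd' : Dd b' with
        | true =>
          refine ⟨S.act (φ (X b')) v, ?_, ?_⟩
          · rw [hfwd b hb, hd]
            simp only [Bool.false_eq_true, if_false]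
            have u := (hside b hb _ (hX b' hb') (ix b s) (by omega) (by omega)).2 k1
            intro hc'
            have := u.1 hc'
            rw [hd] at this
            simp at this
          · rw [hfwd b' hb', hd', if_pos rfl]
            exact lemC _ (hX b' hb') _ _ (by omega) (by omega)
        | false =>
          refine ⟨S.act (φ (X b)) v, ?_, ?_⟩
          · rw [hfwd b hb, hd]
            simp only [Bool.false_eq_true, if_false]
            exact lemC _ (hX b hb) _ _ (by omega) (by omega)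
          · rw [hfwd b' hb', hd']
            simp only [Bool.false_eq_true, if_false, not_not]
            have u := (hside b' hb' _ (hX b hb) (ix b' s') (by omega) (by omega)).1 k2
            exact u.2 hd'
    obtain ⟨w, w1, w2⟩ := key
    exact TG.edge_order hG (hadjc b hb s) (hadjc b' hb' s') (hpq b hb s).1 (hpq b hb s).2
      (hpq b' hb' s').1 (hpq b' hb' s').2 w1 w2
  -- the target turns
  have hmem : ∀ b ∈ AA, ∀ s, ctr b s ∈ {b | ∃ a c, S.G.Adj a b ∧ S.G.Adj b c ∧ a ≠ c ∧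
      S.Btw p a b ∧ S.Btw b c q ∧ S.Btw p b q ∧ TurnIn π.ker S W v a b c} := by
    intro b hb s
    have i1 := hix1 b s
    have i2 := hix2 b s
    have hM' := hφM _ (hX b hb)
    have a0 : S.G.Adj (S.act (φ (X b)) (r (bb (E b)) (ix b s)))
        (S.act (φ (X b)) (r (bb (E b)) (ix b s + 1))) := (S.adj_act_iff hM' _ _).2 (hrad _ _)
    have a1 : S.G.Adj (S.act (φ (X b)) (r (bb (E b)) (ix b s + 1)))
        (S.act (φ (X b)) (r (bb (E b)) (ix b s + 1 + 1))) :=
      (S.adj_act_iff hM' _ _).2 (hrad _ _)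
    have hne : S.act (φ (X b)) (r (bb (E b)) (ix b s)) ≠
        S.act (φ (X b)) (r (bb (E b)) (ix b s + 1 + 1)) := fun hc' => by
      have := hrne _ _ _ (S.act_inj hM' hc')
      omega
    have hT := hTact _ (hX b hb) _ _ _ (hixT b s)
    have u1 := (hside b hb f hf (ix b s + 1) (by omega) (by omega)).1 (hBf b hb)
    have u2 := (hside b hb f hf (ix b s) (by omega) (by omega)).1 (hBf b hb)
    have u3 := (hside b hb f' hf' (ix b s + 1) (by omega) (by omega)).2 (hBf' b hb)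
    have u4 := (hside b hb f' hf' (ix b s) (by omega) (by omega)).2 (hBf' b hb)
    rw [← hp] at u1 u2
    rw [← hq] at u3 u4
    rw [hctr]
    simp only []
    cases hd : Dd b with
    | true =>
      rw [hd] at u1 u2 u3 u4
      simp only [Bool.true_eq_false, iff_false, iff_true] at u1 u2 u3 u4
      refine ⟨_, _, a0, a1, hne, ?_, ?_, ?_, hT⟩
      · exact TG.btw_symm hG ((TG.not_beyond_iff_btw hG a0 _).1 u2)
      · exact (TG.beyond_iff_btw hG a1 _).1 u3
      · exact ((TG.beyond_sep hG a0).1 ⟨u2, u4⟩).2.1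
    | false =>
      rw [hd] at u1 u2 u3 u4
      simp only [Bool.false_eq_true, iff_false, iff_true] at u1 u2 u3 u4
      refine ⟨_, _, a1.symm, a0.symm, hne.symm, ?_, ?_, ?_, hT.symm⟩
      · exact TG.btw_symm hG ((TG.beyond_iff_btw hG a1 _).1 u1)
      · exact (TG.not_beyond_iff_btw hG a0 _).1 u4
      · exact TG.btw_symm hG ((TG.beyond_sep hG a0).1 ⟨u4, u2⟩).2.1
  -- counting
  have hAfin : AA.Finite := S.cnt_finite _ _ _
  have hBfin := S.cnt_finite (TurnIn π.ker S W v) p q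
  have hinj : Set.InjOn (fun t : S.X × Bool => ctr t.1 t.2) (AA ×ˢ (Set.univ : Set Bool)) := by
    rintro ⟨b, s⟩ ⟨hb, -⟩ ⟨b', s'⟩ ⟨hb', -⟩ heq
    simp only at hb hb' heq
    by_cases hbb : b = b'
    · subst hbb
      rw [hctr] at heq
      have h3 := hrne _ _ _ (S.act_inj (hφM _ (hX b hb)) heq)
      have h4 : ix b s = ix b s' := by omega
      rw [hix] at h4
      have h5 := hαβ (bb (E b))
      cases s <;> cases s' <;> simp at h4 ⊢ <;> omega
    · exfalso
      rcases lt_trichotomy (S.G.dist (S.act f v) b) (S.G.dist (S.act f v) b') with hlt | heq' | hlt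
      · have := hord b hb b' hb' hlt s s'
        rw [heq] at this
        exact lt_irrefl _ this
      · exact hbb (TG.btw_point_unique hG (hbtw b hb) rfl (hbtw b' hb') heq'.symm)
      · have := hord b' hb' b hb hlt s' s
        rw [heq] at this
        exact lt_irrefl _ this
  have hcard := Set.ncard_le_ncard_of_injOn (fun t : S.X × Bool => ctr t.1 t.2)
    (s := AA ×ˢ (Set.univ : Set Bool)) (fun t ht => hmem t.1 ht.1 t.2) hinj hBfin
  have hprod : (AA ×ˢ (Set.univ : Set Bool)).ncard = 2 * AA.ncard := by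
    rw [Set.ncard_prod, Set.ncard_univ, Nat.card_eq_fintype_card, Fintype.card_bool, mul_comm]
  rw [hprod] at hcard
  have e1 : h * P ^ n * f * (h * P ^ n)⁻¹ = φ f := by rw [hφ]
  have e2 : h * P ^ n * f' * (h * P ^ n)⁻¹ = φ f' := by rw [hφ]
  rw [e1, e2]
  exact hcard

end Pool.Agent.Lib.MP_6567fb_al
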