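import Pool.Agent.Lib.MP_6567fb_al.K18
import Pool.Agent.Lib.MP_6567fb_al.T15b
import Pool.Agent.Lib.MP_6567fb_al.T6b
import Pool.Agent.Lib.MP_6567fb_al.T7c

/-!
# MP_6567fb_al, module K19

Growth lemma (K6.2).  H = M ⊓ π.ker f.g.  N(x,y) := {f in H : S.Beyond x y ((h f h⁻¹) v)} has finite boundary in H (bd_finite for the tree S with the
action f * p = (h f h⁻¹) p; hh), H_w := {f : S.Beyond v w (f v)} too.  E₀ := finite set of representatives of the C_A(P)-orbits of the neighbours w of v with P w = w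
(finitely many H-orbits of edges; a w, w both fixed by P implies a in C_A(P)), A = S.stab v ⊓ π.ker.
(1) For each b: one_end for H acting on S by *, ray r b, base point v, and the sets H_w, w in E₀: for k large N(r b k, r b (k+1)) is inside H_w or disjoint from it; it
contains a b m for large m (hin), a b m in A, A ∩ H_w = ∅: disjoint.  Also 1 ∉ N(r b k, r b (k+1)) for k large (v is not beyond all edges of a ray).
(2) choose α b < β b beyond this k with good turns (hgood) at r b (α b + 1), r b (β b + 1).  A good turn (GoodTurn) is x (w, v, w1) or its reverse with P w = w, P w1 ≠ w1, and after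
multiplying x by an element of C_A(P): w in E₀.  W := the (at most four) pairs (w, w1).  For e in W: e.2 has a lift Q ≠ P, bb e := b with SameEnd A (P^n Q^-n) (a b) (hatt).
(3) for e in W and the edges eps = (r b j, r b (j+1)), b = bb e, α ≤ j ≤ β + 1: N(eps) has finite boundary in A, contains a b m for large m, so it contains z_n = P^n Q^-n for large n; `nested` (T15b)
for the group H, N(eps), H_{e.2}, the sequence z_(n + n₁): z is injective (P^n Q^-n = P^m Q^-m gives P^(n-m) = Q^(n-m), roots), and c in z_n H_{e.2} means c v is beyond the edge z_n (v, e.2):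
these edges are different for different n, so this happens for at most one n.  So for one large n all hypotheses of `doubling` hold.
(4) TT := TurnIn π.ker S W v is H-invariant and symmetric; core_turn and cnt_axis give f in H with cnt v (f v) ≥ 1.  N x := cnt v (ρ(x) v) for x in π.ker, ρ : F → H the retraction (fac_retract),
N(x y) ≤ N x + N y + 1 (cnt_triangle, cnt_act), N((h P^n)^k f (h P^n)^-k) ≥ 2^k by doubling: contradiction to Ctx.growth.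
-/

set_option autoImplicit false

open scoped Pointwise

namespace Pool.Agent.Lib.MP_6567fb_al

open MTree
variable {Γ G : Type} [Group Γ] [Group G] {π : Γ →* G}

namespace TG
variable {X : Type} {Gr : SimpleGraph X}

theorem ray_adj' {r : ℕ → X} (hr : IsRay Gr r) (k : ℕ) : Gr.Adj (r k) (r (k + 1)) := by
  rw [← SimpleGraph.dist_eq_one_iff_adj, hr]
  push_cast
  omega

theorem ray_beyond_step (hG : Gr.IsTree) {r : ℕ → X} (hr : IsRay Gr r) (k : ℕ) {z : X}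
    (h : Beyond Gr (r (k + 1)) (r (k + 1 + 1)) z) : Beyond Gr (r k) (r (k + 1)) z := by
  by_contra hcon
  have h1 := ray_adj' hr k
  have h2 := ray_adj' hr (k + 1)
  unfold Beyond at h hcon
  have h3 : r k = r (k + 1 + 1) := by
    refine next_unique hG h1.symm (z := z) ?_ h2 ?_
    · rcases adj_dist hG h1 z with h | h <;> omega
    · rcases adj_dist hG h2 z with h | h <;> omega
  have h4 := hr k (k + 1 + 1)
  rw [← h3, SimpleGraph.dist_self] at h4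
  omega

theorem ray_beyond_mono (hG : Gr.IsTree) {r : ℕ → X} (hr : IsRay Gr r) {k k' : ℕ} (hk : k ≤ k') {z : X}
    (h : Beyond Gr (r k') (r (k' + 1)) z) : Beyond Gr (r k) (r (k + 1)) z := by
  induction k', hk using Nat.le_induction with
  | base => exact h
  | succ n _ ih => exact ih (ray_beyond_step hG hr n h)

theorem ray_not_beyond (hG : Gr.IsTree) {r : ℕ → X} (hr : IsRay Gr r) (z : X) :
    ∃ k, ∀ k' ≥ k, ¬ Beyond Gr (r k') (r (k' + 1)) z := by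
  refine ⟨Gr.dist (r 0) z, fun k' hk' h => ?_⟩
  have key : ∀ j ≤ k' + 1, Gr.dist (r j) z + j ≤ Gr.dist (r 0) z := by
    intro j hj
    induction j with
    | zero => simp
    | succ j ih =>
      have h1 := ih (by omega)
      have h2 : Beyond Gr (r j) (r (j + 1)) z := ray_beyond_mono hG hr (by omega) h
      unfold Beyond at h2
      omega
  have := key (k' + 1) le_rfl
  omega

end TG

section
variable {M : Subgroup Γ} (S : MTree M)

/-- the tree `S` with the action of `M ⊓ π.ker` twisted by `h` -/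
def twTree (π : Γ →* G) (h : Γ) (hh : ∀ f ∈ M ⊓ π.ker, h * f * h⁻¹ ∈ M ⊓ π.ker) : MTree (M ⊓ π.ker) where
  X := S.X
  G := S.G
  tree := S.tree
  act := fun f x => S.act (h * f * h⁻¹) x
  act_one := fun x => by
    show S.act (h * 1 * h⁻¹) x = x
    rw [mul_one, mul_inv_cancel]
    exact S.act_one x
  act_mul := fun m hm m' hm' x => by
    show S.act (h * (m * m') * h⁻¹) x = _
    have e : h * (m * m') * h⁻¹ = (h * m * h⁻¹) * (h * m' * h⁻¹) := by group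
    rw [e]
    exact S.act_mul _ (hh m hm).1 _ (hh m' hm').1 x
  act_adj := fun m hm x y hxy => S.act_adj _ (hh m hm).1 x y hxy

end

section
variable {M : Subgroup Γ} {S : MTree M} {h : Γ}

theorem hh_mem (hh : MulAut.conj h • (M ⊓ π.ker) = M ⊓ π.ker) {f : Γ} (hf : f ∈ M ⊓ π.ker) :
    h * f * h⁻¹ ∈ M ⊓ π.ker := by
  have h1 : MulAut.conj h • f ∈ MulAut.conj h • (M ⊓ π.ker) := Subgroup.smul_mem_pointwise_smul _ _ _ hf
  rw [hh] at h1
  simpa [MulAut.smul_def, MulAut.conj_apply] using h1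

theorem hh_mem' (hh : MulAut.conj h • (M ⊓ π.ker) = M ⊓ π.ker) {f : Γ} (hf : f ∈ M ⊓ π.ker) :
    h⁻¹ * f * h ∈ M ⊓ π.ker := by
  rw [← hh, Subgroup.mem_pointwise_smul_iff_inv_smul_mem, ← map_inv, MulAut.smul_def,
    MulAut.conj_apply, inv_inv] at hf
  exact hf

theorem tw_free (hS : S.IsSplitting π.ker) (hh : MulAut.conj h • (M ⊓ π.ker) = M ⊓ π.ker) :
    ∀ f ∈ M ⊓ π.ker, ∀ x y, (twTree S π h fun _ hf => hh_mem hh hf).G.Adj x y →
      (twTree S π h fun _ hf => hh_mem hh hf).act f x = x →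
      (twTree S π h fun _ hf => hh_mem hh hf).act f y = y → f = 1 := by
  intro f hf x y hxy hx hy
  have h1 := hS.free _ (hh_mem hh hf) x y hxy hx hy
  have h2 : f = h⁻¹ * (h * f * h⁻¹) * h := by group
  rw [h2, h1]
  group

theorem tw_cocpt (hS : S.IsSplitting π.ker) (hh : MulAut.conj h • (M ⊓ π.ker) = M ⊓ π.ker) :
    ∃ E : Finset (S.X × S.X), ∀ x y, (twTree S π h fun _ hf => hh_mem hh hf).G.Adj x y →
      ∃ f ∈ M ⊓ π.ker, ((twTree S π h fun _ hf => hh_mem hh hf).act f x,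
        (twTree S π h fun _ hf => hh_mem hh hf).act f y) ∈ E := by
  obtain ⟨E, hE⟩ := hS.cocpt
  refine ⟨E, fun x y hxy => ?_⟩
  obtain ⟨f, hf, hfE⟩ := hE x y hxy
  refine ⟨h⁻¹ * f * h, hh_mem' hh hf, ?_⟩
  show (S.act (h * (h⁻¹ * f * h) * h⁻¹) x, S.act (h * (h⁻¹ * f * h) * h⁻¹) y) ∈ E
  have e : h * (h⁻¹ * f * h) * h⁻¹ = f := by group
  rw [e]
  exact hfE

theorem finBd_tw (hS : S.IsSplitting π.ker) (hh : MulAut.conj h • (M ⊓ π.ker) = M ⊓ π.ker) (v : S.X)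
    {x y : S.X} (hxy : S.G.Adj x y) :
    FinBd (M ⊓ π.ker) {f | S.Beyond x y (S.act (h * f * h⁻¹) v)} :=
  bd_finite (twTree S π h fun _ hf => hh_mem hh hf) (tw_free hS hh) v hxy

theorem finBd_H (hS : S.IsSplitting π.ker) (v : S.X) {x y : S.X} (hxy : S.G.Adj x y) :
    FinBd (M ⊓ π.ker) {f | S.Beyond x y (S.act f v)} :=
  bd_finite (S.res inf_le_left) (fun f hf x y hxy hx hy => hS.free f hf x y hxy hx hy) v hxy

/-- step (1): far out on the ray the half spaces are disjoint from `H_w` -/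
theorem far_disjoint (hfg : (M ⊓ π.ker).FG) (hS : S.IsSplitting π.ker) {v : S.X}
    (hh : MulAut.conj h • (M ⊓ π.ker) = M ⊓ π.ker)
    {a : ℕ → Γ} (haA : ∀ m, a m ∈ S.stab v ⊓ π.ker) {r : ℕ → S.X} (hr : S.IsRay r)
    (hin : ∀ k, ∃ m₀, ∀ m ≥ m₀, S.Beyond (r k) (r (k + 1)) (S.act (h * a m * h⁻¹) v))
    {w : S.X} (hw : S.G.Adj v w) :
    ∃ k, ∀ k' ≥ k, ∀ f ∈ M ⊓ π.ker, S.Beyond v w (S.act f v) →
      ¬ S.Beyond (r k') (r (k' + 1)) (S.act (h * f * h⁻¹) v) := by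
  obtain ⟨k, hk⟩ := one_end hfg (twTree S π h fun _ hf => hh_mem hh hf) (tw_free hS hh) (tw_cocpt hS hh)
    (L := r) hr v (finBd_H hS v hw)
  refine ⟨k, fun k' hk' f hf hfw hfN => ?_⟩
  have hfN' : S.Beyond (r k) (r (k + 1)) (S.act (h * f * h⁻¹) v) :=
    TG.ray_beyond_mono S.tree hr hk' hfN
  rcases hk with hk | hk
  · obtain ⟨m₀, hm₀⟩ := hin k
    have h1 := hk (a m₀) ⟨(haA m₀).1.1, (haA m₀).2⟩ (hm₀ m₀ le_rfl)
    have h2 : S.Beyond v w (S.act (a m₀) v) := h1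
    rw [(haA m₀).1.2] at h2
    exact TG.not_beyond_self_left _ _ h2
  · exact hk f hf hfN' hfw

/-- finitely many representatives of the fixed edges at `v` -/
theorem fixed_reps (hS : S.IsSplitting π.ker) {v : S.X} {P : Γ} (hP : P ∈ M) (hPv : S.act P v = v) :
    ∃ E₀ : Finset S.X, (∀ w ∈ E₀, S.G.Adj v w ∧ S.act P w = w) ∧
      ∀ w, S.G.Adj v w → S.act P w = w → ∃ a ∈ S.stab v ⊓ π.ker, a * P = P * a ∧ S.act a w ∈ E₀ := by
  classical
  obtain ⟨E, hE⟩ := hS.cocpt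
  let Q : S.X × S.X → Prop := fun s => ∃ w, S.G.Adj v w ∧ S.act P w = w ∧
    ∃ f ∈ M ⊓ π.ker, S.act f v = s.1 ∧ S.act f w = s.2
  let c : S.X × S.X → S.X := fun s => if hs : Q s then hs.choose else v
  have hc : ∀ s, Q s → S.G.Adj v (c s) ∧ S.act P (c s) = c s ∧
      ∃ f ∈ M ⊓ π.ker, S.act f v = s.1 ∧ S.act f (c s) = s.2 := by
    intro s hs
    have : c s = hs.choose := dif_pos hs
    rw [this]
    exact hs.choose_spec
  refine ⟨(E.filter Q).image c, ?_, ?_⟩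
  · intro w hw
    obtain ⟨s, hs, rfl⟩ := Finset.mem_image.1 hw
    have := hc s (Finset.mem_filter.1 hs).2
    exact ⟨this.1, this.2.1⟩
  · intro w hw hPw
    obtain ⟨f, hf, hfE⟩ := hE v w hw
    have hQ : Q (S.act f v, S.act f w) := ⟨w, hw, hPw, f, hf, rfl, rfl⟩
    obtain ⟨h1, h2, f', hf', h3, h4⟩ := hc _ hQ
    simp only at h3 h4
    have ha : f'⁻¹ * f ∈ M ⊓ π.ker := (M ⊓ π.ker).mul_mem ((M ⊓ π.ker).inv_mem hf') hf
    have hav : S.act (f'⁻¹ * f) v = v := by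
      rw [S.act_mul _ (M.inv_mem hf'.1) _ hf.1, ← h3, S.act_inv_act hf'.1]
    have haw : S.act (f'⁻¹ * f) w = c (S.act f v, S.act f w) := by
      have h5 := S.act_inv_act hf'.1 (c (S.act f v, S.act f w))
      rw [h4] at h5
      rw [S.act_mul _ (M.inv_mem hf'.1) _ hf.1, h5]
    refine ⟨f'⁻¹ * f, ⟨⟨ha.1, hav⟩, ha.2⟩, ?_, ?_⟩
    · refine hS.eq_of_agree (M.mul_mem ha.1 hP) (M.mul_mem hP ha.1) ?_ hw ?_ ?_
      · rw [map_mul π (f'⁻¹ * f) P, map_mul π P (f'⁻¹ * f), MonoidHom.mem_ker.1 ha.2, one_mul, mul_one]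
      · rw [S.act_mul _ ha.1 _ hP, S.act_mul _ hP _ ha.1, hPv, hav, hPv]
      · rw [S.act_mul _ ha.1 _ hP, S.act_mul _ hP _ ha.1, hPw, haw, h2]
    · rw [haw]
      exact Finset.mem_image.2 ⟨_, Finset.mem_filter.2 ⟨hfE, hQ⟩, rfl⟩

/-- normal form of a good turn -/
theorem goodTurn_nf {v : S.X} {P : Γ} (hP : P ∈ M) {E₀ : Finset S.X}
    (hE : ∀ w, S.G.Adj v w → S.act P w = w → ∃ a ∈ S.stab v ⊓ π.ker, a * P = P * a ∧ S.act a w ∈ E₀)
    {a b c : S.X} (hab : S.G.Adj a b) (hbc : S.G.Adj b c) (hg : GoodTurn π S v P a b c) :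
    ∃ e : S.X × S.X, e.1 ∈ E₀ ∧ S.G.Adj v e.1 ∧ S.G.Adj v e.2 ∧ S.act P e.1 = e.1 ∧ S.act P e.2 ≠ e.2 ∧
      ∃ x ∈ M ⊓ π.ker, b = S.act x v ∧
        ((a = S.act x e.1 ∧ c = S.act x e.2) ∨ (a = S.act x e.2 ∧ c = S.act x e.1)) := by
  -- the one sided statement
  have key : ∀ a c : S.X, S.G.Adj b a → S.G.Adj b c → ∀ x ∈ M ⊓ π.ker, b = S.act x v →
      S.act (x * P * x⁻¹) a = a → S.act (x * P * x⁻¹) c ≠ c →
      ∃ e : S.X × S.X, e.1 ∈ E₀ ∧ S.G.Adj v e.1 ∧ S.G.Adj v e.2 ∧ S.act P e.1 = e.1 ∧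
        S.act P e.2 ≠ e.2 ∧ ∃ x ∈ M ⊓ π.ker, b = S.act x v ∧ a = S.act x e.1 ∧ c = S.act x e.2 := by
    intro a c hba hbc x hx hb ha hc
    have conj_act : ∀ (x : Γ) (_ : x ∈ M) (z : S.X), S.act (x * P * x⁻¹) (S.act x z) = S.act x (S.act P z) := by
      intro x hx z
      rw [S.act_mul _ (M.mul_mem hx hP) _ (M.inv_mem hx), S.act_inv_act hx, S.act_mul _ hx _ hP]
    -- w
    obtain ⟨w, rfl⟩ := S.act_surj hx.1 a
    obtain ⟨w1, rfl⟩ := S.act_surj hx.1 c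
    subst hb
    have hvw := (S.adj_act_iff hx.1 _ _).1 hba
    have hvw1 := (S.adj_act_iff hx.1 _ _).1 hbc
    rw [conj_act x hx.1] at ha hc
    have hPw : S.act P w = w := S.act_inj hx.1 ha
    have hPw1 : S.act P w1 ≠ w1 := fun hcon => hc (by rw [hcon])
    obtain ⟨t, ht, htP, htE⟩ := hE w hvw hPw
    have htv : S.act t v = v := ht.1.2
    have hti : S.act t⁻¹ v = v := by
      conv_lhs => rw [← htv]
      exact S.act_inv_act ht.1.1 v
    refine ⟨(S.act t w, S.act t w1), htE, ?_, ?_, ?_, ?_, x * t⁻¹, ?_, ?_, ?_, ?_⟩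
    · have := S.act_adj t ht.1.1 _ _ hvw
      rwa [htv] at this
    · have := S.act_adj t ht.1.1 _ _ hvw1
      rwa [htv] at this
    · show S.act P (S.act t w) = S.act t w
      rw [← S.act_mul _ hP _ ht.1.1, ← htP, S.act_mul _ ht.1.1 _ hP, hPw]
    · show S.act P (S.act t w1) ≠ S.act t w1
      rw [← S.act_mul _ hP _ ht.1.1, ← htP, S.act_mul _ ht.1.1 _ hP]
      exact fun hcon => hPw1 (S.act_inj ht.1.1 hcon)
    · exact (M ⊓ π.ker).mul_mem hx ((M ⊓ π.ker).inv_mem ⟨ht.1.1, ht.2⟩)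
    · rw [S.act_mul _ hx.1 _ (M.inv_mem ht.1.1), hti]
    · show S.act x w = S.act (x * t⁻¹) (S.act t w)
      rw [S.act_mul _ hx.1 _ (M.inv_mem ht.1.1), S.act_inv_act ht.1.1]
    · show S.act x w1 = S.act (x * t⁻¹) (S.act t w1)
      rw [S.act_mul _ hx.1 _ (M.inv_mem ht.1.1), S.act_inv_act ht.1.1]
  obtain ⟨x, hx, hb, h1 | h1⟩ := hg
  · obtain ⟨e, e1, e2, e3, e4, e5, x', hx', e6, e7, e8⟩ := key a c hab.symm hbc x hx hb h1.1 h1.2
    exact ⟨e, e1, e2, e3, e4, e5, x', hx', e6, Or.inl ⟨e7, e8⟩⟩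
  · obtain ⟨e, e1, e2, e3, e4, e5, x', hx', e6, e7, e8⟩ := key c a hbc hab.symm x hx hb h1.1 h1.2
    exact ⟨e, e1, e2, e3, e4, e5, x', hx', e6, Or.inr ⟨e8, e7⟩⟩

/-- step (3) for one edge of the ray -/
theorem attract (hc : Ctx π) (hfg : (M ⊓ π.ker).FG) (hS : S.IsSplitting π.ker) {v : S.X} {P : Γ} (hP : P ∈ M)
    (hPv : S.act P v = v) {Q : Γ} (hQ : Q ∈ M) (hQP : π Q = π P) {w1 : S.X} (hvw : S.G.Adj v w1)
    (hPw : S.act P w1 ≠ w1) (hQw : S.FixE Q v w1) {N : Set Γ} (hN : FinBd (M ⊓ π.ker) N)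
    {a : ℕ → Γ} (hend : SameEnd (S.stab v ⊓ π.ker) (fun n => P ^ n * (Q ^ n)⁻¹) a)
    (hin : ∃ m₀, ∀ m ≥ m₀, a m ∈ N) :
    ∃ n₀, ∀ n ≥ n₀, P ^ n * (Q ^ n)⁻¹ ∈ N ∧
      ∀ f ∈ M ⊓ π.ker, S.Beyond v w1 (S.act f v) → P ^ n * (Q ^ n)⁻¹ * f ∈ N := by
  have hAH : S.stab v ⊓ π.ker ≤ M ⊓ π.ker := fun x hx => ⟨hx.1.1, hx.2⟩
  obtain ⟨n₀, hn₀⟩ := hend N (hN.mono hAH)
  obtain ⟨m₀, hm₀⟩ := hin
  have hzN : ∀ n ≥ n₀, P ^ n * (Q ^ n)⁻¹ ∈ N := fun n hn =>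
    (hn₀ n hn (max n₀ m₀) (le_max_left _ _)).2 (hm₀ _ (le_max_right _ _))
  have hzH : ∀ n, P ^ n * (Q ^ n)⁻¹ ∈ M ⊓ π.ker := fun n =>
    Subgroup.mem_inf.2 ⟨M.mul_mem (M.pow_mem hP n) (M.inv_mem (M.pow_mem hQ n)), by
      rw [MonoidHom.mem_ker, map_mul, map_inv, map_pow, map_pow, hQP, mul_inv_cancel]⟩
  have hzv : ∀ n, S.act (P ^ n * (Q ^ n)⁻¹) v = v := by
    intro n
    have h1 : S.act (Q ^ n) v = v := S.fix_pow hQ hQw.1 n
    have h2 : S.act (Q ^ n)⁻¹ v = v := by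
      conv_lhs => rw [← h1]
      exact S.act_inv_act (M.pow_mem hQ n) v
    rw [S.act_mul _ (M.pow_mem hP n) _ (M.inv_mem (M.pow_mem hQ n)), h2, S.fix_pow hP hPv n]
  have hzw : ∀ n, S.act (P ^ n * (Q ^ n)⁻¹) w1 = S.act (P ^ n) w1 := by
    intro n
    have h1 : S.act (Q ^ n) w1 = w1 := S.fix_pow hQ hQw.2 n
    have h2 : S.act (Q ^ n)⁻¹ w1 = w1 := by
      conv_lhs => rw [← h1]
      exact S.act_inv_act (M.pow_mem hQ n) w1
    rw [S.act_mul _ (M.pow_mem hP n) _ (M.inv_mem (M.pow_mem hQ n)), h2]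
  -- powers of `P` move `w1` to different vertices
  have hpw : ∀ m n : ℕ, m < n → S.act (P ^ m) w1 ≠ S.act (P ^ n) w1 := by
    intro m n hmn hcon
    obtain ⟨k, rfl⟩ := Nat.exists_eq_add_of_lt hmn
    rw [show m + k + 1 = m + (k + 1) by ring, pow_add, S.act_mul _ (M.pow_mem hP m) _ (M.pow_mem hP (k + 1))] at hcon
    have h1 := S.act_inj (M.pow_mem hP m) hcon
    exact hPw (hS.pure hc P hP (k + 1) (Nat.succ_pos k) w1 h1.symm)
  have hinj' : ∀ m n : ℕ, P ^ m * (Q ^ m)⁻¹ = P ^ n * (Q ^ n)⁻¹ → m = n := by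
    intro m n hmn
    have h1 : S.act (P ^ m) w1 = S.act (P ^ n) w1 := by rw [← hzw m, ← hzw n, hmn]
    rcases lt_trichotomy m n with h | h | h
    · exact absurd h1 (hpw m n h)
    · exact h
    · exact absurd h1.symm (hpw n m h)
  obtain ⟨n₁, hn₁⟩ := nested hfg hN (finBd_H hS v hvw) (fun i => P ^ (i + n₀) * (Q ^ (i + n₀))⁻¹)
    (fun i => hzH _) (fun i j hij => by
      have := hinj' _ _ hij
      omega) (fun i => hzN _ (Nat.le_add_left _ _)) (by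
      intro c hcH
      refine Set.Subsingleton.finite ?_
      intro i hi j hj
      have conv : ∀ i, ((P ^ (i + n₀) * (Q ^ (i + n₀))⁻¹)⁻¹ * c ∈ {f | S.Beyond v w1 (S.act f v)}) →
          S.Beyond v (S.act (P ^ (i + n₀)) w1) (S.act c v) := by
        intro i hi
        have h1 : S.Beyond v w1 (S.act ((P ^ (i + n₀) * (Q ^ (i + n₀))⁻¹)⁻¹ * c) v) := hi
        rw [← S.beyond_act (hzH (i + n₀)).1, hzv, hzw,
          S.act_mul _ (M.inv_mem (hzH (i + n₀)).1) _ hcH.1, S.act_act_inv (hzH (i + n₀)).1] at h1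
        exact h1
      have h1 := conv i hi
      have h2 := conv j hj
      have adj : ∀ n, S.G.Adj v (S.act (P ^ n) w1) := by
        intro n
        have := S.act_adj (P ^ n) (M.pow_mem hP n) _ _ hvw
        rwa [S.fix_pow hP hPv n] at this
      have h3 : S.act (P ^ (i + n₀)) w1 = S.act (P ^ (j + n₀)) w1 := by
        refine TG.next_unique S.tree (adj _) (z := S.act c v) ?_ (adj _) ?_
        · unfold MTree.Beyond TG.Beyond at h1
          rcases TG.adj_dist S.tree (adj (i + n₀)) (S.act c v) with h | h <;> omega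
        · unfold MTree.Beyond TG.Beyond at h2
          rcases TG.adj_dist S.tree (adj (j + n₀)) (S.act c v) with h | h <;> omega
      rcases lt_trichotomy i j with h | h | h
      · exact absurd h3 (hpw _ _ (by omega))
      · exact h
      · exact absurd h3.symm (hpw _ _ (by omega)))
  refine ⟨n₁ + n₀, fun n hn => ⟨hzN n (by omega), fun f hf hfw => ?_⟩⟩
  have h1 := hn₁ (n - n₀) (by omega) f hf hfw
  rw [Nat.sub_add_cancel (by omega : n₀ ≤ n)] at h1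
  exact h1

/-! ### the turns `TurnIn` -/

theorem turnIn_symm (W : Finset (S.X × S.X)) (v : S.X) (a b c : S.X)
    (ht : TurnIn π.ker S W v a b c) : TurnIn π.ker S W v c b a := by
  obtain ⟨x, hx, e, he, hb, h1⟩ := ht
  refine ⟨x, hx, e, he, hb, ?_⟩
  rcases h1 with h1 | h1
  · exact Or.inr ⟨h1.2, h1.1⟩
  · exact Or.inl ⟨h1.2, h1.1⟩

theorem turnIn_act' (W : Finset (S.X × S.X)) (v : S.X) {f : Γ} (hf : f ∈ M ⊓ π.ker) (a b c : S.X)
    (ht : TurnIn π.ker S W v a b c) : TurnIn π.ker S W v (S.act f a) (S.act f b) (S.act f c) := by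
  obtain ⟨x, hx, e, he, hb, h1⟩ := ht
  refine ⟨f * x, (M ⊓ π.ker).mul_mem hf hx, e, he, ?_, ?_⟩
  · rw [hb, S.act_mul _ hf.1 _ hx.1]
  · rw [S.act_mul _ hf.1 _ hx.1, S.act_mul _ hf.1 _ hx.1]
    rcases h1 with h1 | h1
    · exact Or.inl ⟨by rw [h1.1], by rw [h1.2]⟩
    · exact Or.inr ⟨by rw [h1.1], by rw [h1.2]⟩

theorem turnIn_act (W : Finset (S.X × S.X)) (v : S.X) {f : Γ} (hf : f ∈ M ⊓ π.ker) (a b c : S.X) :
    TurnIn π.ker S W v (S.act f a) (S.act f b) (S.act f c) ↔ TurnIn π.ker S W v a b c := by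
  refine ⟨fun ht => ?_, turnIn_act' W v hf a b c⟩
  have h1 := turnIn_act' W v ((M ⊓ π.ker).inv_mem hf) _ _ _ ht
  rwa [S.act_inv_act hf.1, S.act_inv_act hf.1, S.act_inv_act hf.1] at h1

/-- step (4): the doubling inequality contradicts the growth hypothesis -/
theorem doubling_contra (hc : Ctx π) {M : Subgroup Γ} {g : G} (hM : Cyc π M g) {S : MTree M}
    (hS : S.IsSplitting π.ker) (hSmin : S.Minimal π.ker) {v : S.X} {P : Γ}
    (hPH : ∀ f ∈ M ⊓ π.ker, P * f * P⁻¹ ∈ M ⊓ π.ker) (W : Finset (S.X × S.X))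
    {a b c : S.X} (hab : S.G.Adj a b) (hbc : S.G.Adj b c) (hac : a ≠ c) (ht : TurnIn π.ker S W v a b c)
    (hd : ∀ f ∈ M ⊓ π.ker, ∀ f' ∈ M ⊓ π.ker,
      2 * S.cnt (TurnIn π.ker S W v) (S.act f v) (S.act f' v) ≤
        S.cnt (TurnIn π.ker S W v) (S.act (P * f * P⁻¹) v) (S.act (P * f' * P⁻¹) v)) : False := by
  classical
  have hmem : ∀ x, x ∈ S.core (M ⊓ π.ker) := fun x => by rw [hSmin.2]; trivial
  have hne : ¬ S.Ell ((M ⊓ π.ker : Subgroup Γ) : Set Γ) := by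
    rintro ⟨x, hx⟩
    obtain ⟨f, hf, hfx⟩ := hSmin.1 x
    exact hfx (hx f hf)
  obtain ⟨d, l, L, i, hd1, hL, ea, eb, ec⟩ := S.core_turn (hS.noInv hc) inf_le_left hne
    (fun d hd x y hxy hx hy => hS.free d hd x y hxy hx hy) (hmem a) (hmem b) (hmem c) hab hbc hac
  obtain ⟨k, hk⟩ := S.cnt_axis (TurnIn π.ker S W v) hd1.1 hL (F := π.ker) (fun a b c => turnIn_act W v hd1 a b c)
    (i := i) (by rw [ea, eb, ec]; exact ht) v
  have hfH : d ^ k ∈ M ⊓ π.ker := (M ⊓ π.ker).pow_mem hd1 k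
  obtain ⟨ρ, hρ1, hρ2⟩ := fac_retract hc hM.fac
  let N : Γ → ℕ := fun x => if hx : x ∈ π.ker then
    S.cnt (TurnIn π.ker S W v) v (S.act ((ρ ⟨x, hx⟩ : π.ker) : Γ) v) else 0
  have hN : ∀ x (hx : x ∈ π.ker), N x = S.cnt (TurnIn π.ker S W v) v (S.act ((ρ ⟨x, hx⟩ : π.ker) : Γ) v) :=
    fun x hx => dif_pos hx
  obtain ⟨n, hn⟩ := hc.growth P (d ^ k) hfH.2 N 1 (by
    intro x hx y hy
    rw [hN x hx, hN y hy, hN (x * y) (π.ker.mul_mem hx hy)]
    have e1 : (⟨x * y, π.ker.mul_mem hx hy⟩ : π.ker) = ⟨x, hx⟩ * ⟨y, hy⟩ := rfl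
    have e2 : ((ρ ⟨x * y, π.ker.mul_mem hx hy⟩ : π.ker) : Γ) = (ρ ⟨x, hx⟩ : Γ) * (ρ ⟨y, hy⟩ : Γ) := by
      rw [e1, map_mul]
      rfl
    rw [e2, S.act_mul _ (hρ1 _).1 _ (hρ1 _).1]
    refine (S.cnt_triangle (TurnIn π.ker S W v) v (S.act (ρ ⟨x, hx⟩ : Γ) v) _).trans ?_
    have e3 : S.cnt (TurnIn π.ker S W v) (S.act (ρ ⟨x, hx⟩ : Γ) v)
        (S.act (ρ ⟨x, hx⟩ : Γ) (S.act (ρ ⟨y, hy⟩ : Γ) v)) =
        S.cnt (TurnIn π.ker S W v) v (S.act (ρ ⟨y, hy⟩ : Γ) v) :=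
      S.cnt_act _ (hρ1 ⟨x, hx⟩).1 (fun a b c => turnIn_act W v (hρ1 ⟨x, hx⟩) a b c) _ _
    rw [e3])
  have key : ∀ n : ℕ, P ^ n * d ^ k * (P ^ n)⁻¹ ∈ M ⊓ π.ker ∧
      2 ^ n ≤ S.cnt (TurnIn π.ker S W v) v (S.act (P ^ n * d ^ k * (P ^ n)⁻¹) v) := by
    intro n
    induction n with
    | zero =>
      have e0 : P ^ 0 * d ^ k * (P ^ 0)⁻¹ = d ^ k := by rw [pow_zero, one_mul, inv_one, mul_one]
      rw [e0, pow_zero]
      exact ⟨hfH, hk⟩
    | succ n ih =>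
      obtain ⟨ih1, ih2⟩ := ih
      have e : P ^ (n + 1) * d ^ k * (P ^ (n + 1))⁻¹ = P * (P ^ n * d ^ k * (P ^ n)⁻¹) * P⁻¹ := by
        rw [pow_succ']
        group
      have h1 := hd 1 (M ⊓ π.ker).one_mem _ ih1
      rw [S.act_one, mul_one, mul_inv_cancel, S.act_one] at h1
      rw [e]
      refine ⟨hPH _ ih1, ?_⟩
      rw [pow_succ]
      omega
  obtain ⟨h1, h2⟩ := key n
  rw [hN _ h1.2, hρ2 ⟨_, h1.2⟩ h1] at hn
  exact absurd hn (not_lt.2 h2)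

end

theorem growth_lemma (hc : Ctx π) {M : Subgroup Γ} {g : G} (hM : Cyc π M g) {S : MTree M}
    (hS : S.IsSplitting π.ker) (hSmin : S.Minimal π.ker) {v : S.X} {P : Γ} (hP : P ∈ M) (hPg : π P = g)
    (hPv : S.act P v = v) {h : Γ} (hh : MulAut.conj h • (M ⊓ π.ker) = M ⊓ π.ker)
    (a : Bool → ℕ → Γ) (haA : ∀ b m, a b m ∈ S.stab v ⊓ π.ker)
    (hatt : ∀ w1, S.G.Adj v w1 → ∀ Q ∈ M, π Q = g → S.FixE Q v w1 → Q ≠ P →
      ∃ b, SameEnd (S.stab v ⊓ π.ker) (fun n => P ^ n * (Q ^ n)⁻¹) (a b))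
    (r : Bool → ℕ → S.X) (hr : ∀ b, S.IsRay (r b))
    (hgood : ∀ b k, ∃ k' ≥ k, GoodTurn π S v P (r b k') (r b (k' + 1)) (r b (k' + 2)))
    (hin : ∀ b k, ∃ m₀, ∀ m ≥ m₀, S.Beyond (r b k) (r b (k + 1)) (S.act (h * a b m * h⁻¹) v)) : False := by
  classical
  have hfg : (M ⊓ π.ker).FG := Loc.fg hc hM.toLoc
  obtain ⟨E₀, hE1, hE2⟩ := fixed_reps hS hP hPv
  -- (1) thresholds
  have hk₀ : ∀ b, ∃ k₀, (∀ k' ≥ k₀, ¬ S.Beyond (r b k') (r b (k' + 1)) v) ∧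
      ∀ w ∈ E₀, ∀ k' ≥ k₀, ∀ f ∈ M ⊓ π.ker, S.Beyond v w (S.act f v) →
        ¬ S.Beyond (r b k') (r b (k' + 1)) (S.act (h * f * h⁻¹) v) := by
    intro b
    obtain ⟨k1, hk1⟩ := TG.ray_not_beyond S.tree (hr b) v
    have hw : ∀ w : S.X, ∃ k, w ∈ E₀ → ∀ k' ≥ k, ∀ f ∈ M ⊓ π.ker, S.Beyond v w (S.act f v) →
        ¬ S.Beyond (r b k') (r b (k' + 1)) (S.act (h * f * h⁻¹) v) := by
      intro w
      by_cases hw : w ∈ E₀
      · obtain ⟨k, hk⟩ := far_disjoint hfg hS hh (haA b) (hr b) (hin b) (hE1 w hw).1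
        exact ⟨k, fun _ => hk⟩
      · exact ⟨0, fun h => absurd h hw⟩
    choose kw hkw using hw
    refine ⟨max k1 (E₀.sup kw), fun k' hk' => hk1 k' (le_trans (le_max_left _ _) hk'), fun w hw k' hk' => ?_⟩
    exact hkw w hw k' (le_trans (Finset.le_sup hw) (le_trans (le_max_right _ _) hk'))
  choose k₀ hk1 hk2 using hk₀
  -- (2) good turns
  choose α hα1 hα2 using fun b => hgood b (k₀ b)
  choose β hβ1 hβ2 using fun b => hgood b (α b + 1)
  have nf : ∀ b k, GoodTurn π S v P (r b k) (r b (k + 1)) (r b (k + 2)) →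
      ∃ e : S.X × S.X, e.1 ∈ E₀ ∧ S.G.Adj v e.1 ∧ S.G.Adj v e.2 ∧ S.act P e.1 = e.1 ∧ S.act P e.2 ≠ e.2 ∧
      ∃ x ∈ M ⊓ π.ker, r b (k + 1) = S.act x v ∧
        ((r b k = S.act x e.1 ∧ r b (k + 2) = S.act x e.2) ∨
          (r b k = S.act x e.2 ∧ r b (k + 2) = S.act x e.1)) := fun b k hg =>
    goodTurn_nf hP hE2 (TG.ray_adj' (hr b) k) (TG.ray_adj' (hr b) (k + 1)) hg
  choose eα hα3 hα4 hα5 hα6 hα7 hα8 using fun b => nf b (α b) (hα2 b)
  choose eβ hβ3 hβ4 hβ5 hβ6 hβ7 hβ8 using fun b => nf b (β b) (hβ2 b)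
  let W : Finset (S.X × S.X) := Finset.univ.image eα ∪ Finset.univ.image eβ
  have hWα : ∀ b, eα b ∈ W := fun b =>
    Finset.mem_union_left _ (Finset.mem_image_of_mem _ (Finset.mem_univ b))
  have hWβ : ∀ b, eβ b ∈ W := fun b =>
    Finset.mem_union_right _ (Finset.mem_image_of_mem _ (Finset.mem_univ b))
  have hW : ∀ e ∈ W, e.1 ∈ E₀ ∧ S.G.Adj v e.1 ∧ S.G.Adj v e.2 ∧ S.act P e.1 = e.1 ∧ S.act P e.2 ≠ e.2 := by
    intro e he
    rcases Finset.mem_union.1 he with he | he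
    · obtain ⟨b, _, rfl⟩ := Finset.mem_image.1 he
      exact ⟨hα3 b, hα4 b, hα5 b, hα6 b, hα7 b⟩
    · obtain ⟨b, _, rfl⟩ := Finset.mem_image.1 he
      exact ⟨hβ3 b, hβ4 b, hβ5 b, hβ6 b, hβ7 b⟩
  have hTα : ∀ b, TurnIn π.ker S W v (r b (α b)) (r b (α b + 1)) (r b (α b + 2)) := by
    intro b
    obtain ⟨x, hx, h1, h2⟩ := hα8 b
    exact ⟨x, hx, eα b, hWα b, h1, h2⟩
  have hTβ : ∀ b, TurnIn π.ker S W v (r b (β b)) (r b (β b + 1)) (r b (β b + 2)) := by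
    intro b
    obtain ⟨x, hx, h1, h2⟩ := hβ8 b
    exact ⟨x, hx, eβ b, hWβ b, h1, h2⟩
  -- (3) the lifts
  have hlift : ∀ e : S.X × S.X, ∃ (b : Bool) (Q : Γ), e ∈ W → Q ∈ M ∧ π Q = g ∧ S.FixE Q v e.2 ∧
      SameEnd (S.stab v ⊓ π.ker) (fun n => P ^ n * (Q ^ n)⁻¹) (a b) := by
    intro e
    by_cases he : e ∈ W
    · obtain ⟨_, h1, h2, h3, h4⟩ := hW e he
      obtain ⟨Q, ⟨hQM, hQg, hQe⟩, _⟩ := hS.lift h2 hP
      have hQP : Q ≠ P := fun hcon => h4 (by rw [← hcon]; exact hQe.2)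
      obtain ⟨b, hb⟩ := hatt e.2 h2 Q hQM (hQg.trans hPg) hQe hQP
      exact ⟨b, Q, fun _ => ⟨hQM, hQg.trans hPg, hQe, hb⟩⟩
    · exact ⟨true, 1, fun h => absurd h he⟩
  choose bb Q hQ using hlift
  have hatr : ∀ (e : S.X × S.X) (j : ℕ), ∃ n₀, e ∈ W → ∀ n ≥ n₀,
      S.Beyond (r (bb e) j) (r (bb e) (j + 1)) (S.act (h * (P ^ n * (Q e ^ n)⁻¹) * h⁻¹) v) ∧
      ∀ f ∈ M ⊓ π.ker, S.Beyond v e.2 (S.act f v) →
        S.Beyond (r (bb e) j) (r (bb e) (j + 1)) (S.act (h * (P ^ n * (Q e ^ n)⁻¹ * f) * h⁻¹) v) := by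
    intro e j
    by_cases he : e ∈ W
    · obtain ⟨_, h1, h2, h3, h4⟩ := hW e he
      obtain ⟨hQM, hQg, hQe, hend⟩ := hQ e he
      obtain ⟨n₀, hn₀⟩ := attract hc hfg hS hP hPv hQM (hQg.trans hPg.symm) h2 h4 hQe
        (finBd_tw hS hh v (TG.ray_adj' (hr (bb e)) j)) hend (hin (bb e) j)
      exact ⟨n₀, fun _ => hn₀⟩
    · exact ⟨0, fun h => absurd h he⟩
  choose ν hν using hatr
  let B : ℕ := max (β true + 1) (β false + 1)
  have hB : ∀ b, β b + 1 ≤ B := by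
    intro b
    cases b
    · exact le_max_right _ _
    · exact le_max_left _ _
  let n : ℕ := W.sup fun e => (Finset.range (B + 1)).sup fun j => ν e j
  have hn : ∀ e ∈ W, ∀ j ≤ B, ν e j ≤ n := by
    intro e he j hj
    have h1 : ν e j ≤ (Finset.range (B + 1)).sup fun j => ν e j :=
      Finset.le_sup (f := fun j => ν e j) (Finset.mem_range.2 (by omega))
    exact h1.trans (Finset.le_sup (f := fun e => (Finset.range (B + 1)).sup fun j => ν e j) he)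
  have hd := doubling hc hM hS hP hPg hPv hh W (fun e he => (hW e he).2) r hr α β (fun b => by
      have := hβ1 b
      omega) hTα hTβ bb n
    (fun e he j hj1 _ f hf hfe => hk2 (bb e) e.1 (hW e he).1 j ((hα1 (bb e)).trans hj1) f hf hfe)
    (fun b j hj1 _ => hk1 b j ((hα1 b).trans hj1))
    (fun e he j hj1 hj2 Q' hQ' hQg' hQe' => by
      obtain ⟨_, h1, h2, h3, h4⟩ := hW e he
      obtain ⟨hQM, hQg, hQe, hend⟩ := hQ e he
      have hQQ : Q' = Q e := (hS.lift h2 hP).unique ⟨hQ', hQg'.trans hPg.symm, hQe'⟩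
        ⟨hQM, hQg.trans hPg.symm, hQe⟩
      subst hQQ
      exact hν e j he n (hn e he j (hj2.trans (hB _))))
  have hPH : ∀ f ∈ M ⊓ π.ker, (h * P ^ n) * f * (h * P ^ n)⁻¹ ∈ M ⊓ π.ker := by
    intro f hf
    have h1 : P ^ n * f * (P ^ n)⁻¹ ∈ M ⊓ π.ker :=
      Subgroup.mem_inf.2 ⟨M.mul_mem (M.mul_mem (M.pow_mem hP n) hf.1) (M.inv_mem (M.pow_mem hP n)),
        (inferInstance : π.ker.Normal).conj_mem f hf.2 _⟩
    have h2 := hh_mem hh h1
    have e : (h * P ^ n) * f * (h * P ^ n)⁻¹ = h * (P ^ n * f * (P ^ n)⁻¹) * h⁻¹ := by group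
    rw [e]
    exact h2
  refine doubling_contra hc hM hS hSmin hPH W (TG.ray_adj' (hr true) (α true))
    (TG.ray_adj' (hr true) (α true + 1)) ?_ (hTα true) hd
  intro hcon
  have h1 := hr true (α true) (α true + 1 + 1)
  rw [← hcon, SimpleGraph.dist_self] at h1
  omega

end Pool.Agent.Lib.MP_6567fb_al
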