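import Pool.Agent.Lib.MP_6567fb_al.T2a
import Pool.Agent.Lib.MP_6567fb_al.T1c

/-!
# MP_6567fb_al, module T15a

FinBd A N: for every s in A only finitely many f in A are separated from f s by N.  bd_finite: f y₀ and f s y₀ are on different sides
of e = (x,y) iff f⁻¹ e is an edge of [y₀, s y₀]: finitely many edges, each for at most one f (trivial stabilisers).
-/

set_option autoImplicit false

open scoped Pointwise

namespace Pool.Agent.Lib.MP_6567fb_al

open MTree
variable {Γ : Type} [Group Γ]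

theorem FinBd.inter {A : Subgroup Γ} {N N' : Set Γ} (h : FinBd A N) (h' : FinBd A N') :
    FinBd A (N ∩ N') := by
  intro s hs
  refine ((h s hs).union (h' s hs)).subset ?_
  rintro f ⟨hf, hne⟩
  by_cases h1 : (f ∈ N ↔ f * s ∈ N)
  · right
    refine ⟨hf, fun h2 => hne ?_⟩
    exact ⟨fun hh => ⟨h1.1 hh.1, h2.1 hh.2⟩, fun hh => ⟨h1.2 hh.1, h2.2 hh.2⟩⟩
  · left
    exact ⟨hf, h1⟩

theorem FinBd.compl {A : Subgroup Γ} {N : Set Γ} (h : FinBd A N) : FinBd A Nᶜ := by
  intro s hs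
  refine (h s hs).subset ?_
  rintro f ⟨hf, hne⟩
  exact ⟨hf, fun h1 => hne (not_congr h1)⟩

theorem FinBd.mono {A A' : Subgroup Γ} {N : Set Γ} (h : FinBd A N) (hA : A' ≤ A) : FinBd A' N := by
  intro s hs
  refine (h s (hA hs)).subset ?_
  rintro f ⟨hf, hne⟩
  exact ⟨hA hf, hne⟩

theorem FinBd.translate {A : Subgroup Γ} {N : Set Γ} (h : FinBd A N) {a : Γ} (ha : a ∈ A) :
    FinBd A {f | a⁻¹ * f ∈ N} := by
  intro s hs
  refine ((h s hs).image (fun g => a * g)).subset ?_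
  rintro f ⟨hf, hne⟩
  refine ⟨a⁻¹ * f, ⟨A.mul_mem (A.inv_mem ha) hf, fun h1 => hne ?_⟩, by simp⟩
  simpa [mul_assoc] using h1

/-- intervals of a tree are finite -/
theorem finite_interval {X : Type} {G : SimpleGraph X} (hG : G.IsTree) (a b : X) :
    {p | TG.Btw G a p b}.Finite := by
  have : Set.InjOn (fun p => G.dist a p) {p | TG.Btw G a p b} := by
    intro p hp q hq hpq
    have hk : G.dist a p ≤ G.dist a b := by
      have h1 : G.dist a p + G.dist p b = G.dist a b := hp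
      omega
    obtain ⟨y, _, hy⟩ := TG.btw_point hG hk
    have h1 := hy p ⟨hp, rfl⟩
    have h2 := hy q ⟨hq, hpq.symm⟩
    rw [h1, h2]
  refine Set.Finite.of_finite_image ?_ this
  refine (Set.finite_Iic (G.dist a b)).subset ?_
  rintro n ⟨p, hp, rfl⟩
  have h1 : G.dist a p + G.dist p b = G.dist a b := hp
  simp only [Set.mem_Iic]
  omega

/-- half spaces have finite boundary -/
theorem bd_finite {A : Subgroup Γ} (T : MTree A)
    (hfree : ∀ h ∈ A, ∀ x y, T.G.Adj x y → T.act h x = x → T.act h y = y → h = 1) (y₀ : T.X) {x y : T.X}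
    (h : T.G.Adj x y) : FinBd A {f | T.Beyond x y (T.act f y₀)} := by
  intro s hs
  set I : Set T.X := {p | T.Btw y₀ p (T.act s y₀)} with hI
  have hIf : I.Finite := finite_interval T.tree _ _
  set I' : Set T.X := {p | T.Btw (T.act s y₀) p y₀} with hI'
  have hIf' : I'.Finite := finite_interval T.tree _ _
  have hfin : ((I ∪ I') ×ˢ (I ∪ I')).Finite := (hIf.union hIf').prod (hIf.union hIf')
  refine Set.Finite.of_finite_image (f := fun f => (T.act f⁻¹ x, T.act f⁻¹ y)) (hfin.subset ?_) ?_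
  · rintro _ ⟨f, ⟨hf, hne⟩, rfl⟩
    have hf' := A.inv_mem hf
    have hadj : T.G.Adj (T.act f⁻¹ x) (T.act f⁻¹ y) := T.act_adj _ hf' _ _ h
    have e1 : T.Beyond x y (T.act f y₀) ↔ T.Beyond (T.act f⁻¹ x) (T.act f⁻¹ y) y₀ := by
      rw [← T.beyond_act hf' x y (T.act f y₀), T.act_inv_act hf]
    have e2 : T.Beyond x y (T.act (f * s) y₀) ↔
        T.Beyond (T.act f⁻¹ x) (T.act f⁻¹ y) (T.act s y₀) := by
      rw [T.act_mul f hf s hs, ← T.beyond_act hf' x y (T.act f (T.act s y₀)), T.act_inv_act hf]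
    simp only [Set.mem_ofPred_eq, e1, e2] at hne
    by_cases h1 : T.Beyond (T.act f⁻¹ x) (T.act f⁻¹ y) y₀
    · have h2 : ¬ T.Beyond (T.act f⁻¹ x) (T.act f⁻¹ y) (T.act s y₀) := fun h2 =>
        hne ⟨fun _ => h2, fun _ => h1⟩
      have h3 := (TG.beyond_sep T.tree hadj).1 ⟨h2, h1⟩
      exact ⟨Or.inr h3.1, Or.inr h3.2.1⟩
    · have h2 : T.Beyond (T.act f⁻¹ x) (T.act f⁻¹ y) (T.act s y₀) := by
        by_contra h2
        exact hne ⟨fun h => absurd h h1, fun h => absurd h h2⟩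
      have h3 := (TG.beyond_sep T.tree hadj).1 ⟨h1, h2⟩
      exact ⟨Or.inl h3.1, Or.inl h3.2.1⟩
  · rintro f ⟨hf, _⟩ g ⟨hg, _⟩ hfg
    simp only [Prod.mk.injEq] at hfg
    have hg' := A.inv_mem hg
    have e1 : T.act (f * g⁻¹) x = x := by
      rw [T.act_mul f hf g⁻¹ hg', ← hfg.1, T.act_act_inv hf]
    have e2 : T.act (f * g⁻¹) y = y := by
      rw [T.act_mul f hf g⁻¹ hg', ← hfg.2, T.act_act_inv hf]
    have := hfree _ (A.mul_mem hf hg') x y h e1 e2
    exact mul_inv_eq_one.1 this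

end Pool.Agent.Lib.MP_6567fb_al
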