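import Pool.Agent.Lib.MP_6567fb_al.Defs4
import Pool.Agent.Lib.MP_6567fb_al.T15a
import Pool.Agent.Lib.MP_6567fb_al.T2a

/-!
# MP_6567fb_al, module K20

Dichotomy (K7.0).  For every edge (x,y) of Y the set {f : f y₀ beyond (x,y)} has finite boundary (bd_finite), so finally f i y₀ is beyond (x,y) or finally not
(hend).  If every vertex x has a neighbour y with f i y₀ finally beyond (x,y) then following these neighbours gives a ray (no backtracking).  Otherwise a vertex w such that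
for all neighbours y of w finally f i y₀ is not beyond (w,y).  Seg := vertices of the geodesics [y₀, s y₀], s in S₀ (finite).  If f i y₀ ≠ w it is beyond exactly one edge
eps = (w,y) at w.  For i large there is a time i' < i with f i' y₀ not beyond, f (i'+1) y₀ beyond eps and a time j ≥ i with f j y₀ beyond and f (j+1) y₀ not beyond.
So (f i')⁻¹ eps and (f j)⁻¹ eps are in Seg × Seg, (f i')⁻¹ f j is in a finite set and j - i' is bounded.  As (f j)⁻¹ w is in Seg, f j is in (stab w) K₁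
with K₁ finite, and f i = f j · (bounded number of increments)⁻¹.
-/

set_option autoImplicit false

open scoped Pointwise

namespace Pool.Agent.Lib.MP_6567fb_al

open MTree
variable {Γ : Type} [Group Γ]

namespace TG

variable {X : Type} {G : SimpleGraph X}

theorem beyond_unique (hG : G.IsTree) {w y y' z : X} (h : G.Adj w y) (h' : G.Adj w y')
    (hb : Beyond G w y z) (hb' : Beyond G w y' z) : y = y' := by
  refine next_unique hG (z := z) h ?_ h' ?_
  · have h1 : G.dist y z < G.dist w z := hb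
    rcases adj_dist hG h z with h2 | h2 <;> omega
  · have h1 : G.dist y' z < G.dist w z := hb'
    rcases adj_dist hG h' z with h2 | h2 <;> omega

end TG

theorem dichotomy {H : Subgroup Γ} (Y : MTree H)
    (hfree : ∀ h ∈ H, ∀ x y, Y.G.Adj x y → Y.act h x = x → Y.act h y = y → h = 1)
    (hco : ∃ S : Finset (Y.X × Y.X), ∀ x y, Y.G.Adj x y → ∃ h ∈ H, (Y.act h x, Y.act h y) ∈ S)
    (y₀ : Y.X) (f : ℕ → Γ) (hf : ∀ i, f i ∈ H) (S₀ : Finset Γ) (hinc : ∀ i, (f i)⁻¹ * f (i + 1) ∈ S₀)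
    (hgeo : ∀ k : Γ, ∃ c, ∀ i j, (f i)⁻¹ * f j = k → j ≤ i + c)
    (hend : ∀ N : Set Γ, FinBd H N → ∃ i₀, ∀ i ≥ i₀, (f i ∈ N ↔ f i₀ ∈ N)) :
    (∃ L : ℕ → Y.X, Y.IsRay L ∧ ∀ k, ∃ i₀, ∀ i ≥ i₀, Y.Beyond (L k) (L (k + 1)) (Y.act (f i) y₀)) ∨
      ∃ (w : Y.X) (K : Finset Γ) (i₀ : ℕ), ∀ i ≥ i₀, ∃ k ∈ K, f i * k⁻¹ ∈ Y.stab w := by
  classical
  have hG := Y.tree
  have hbd : ∀ x y, Y.G.Adj x y → ∃ i₀, ∀ i ≥ i₀,
      (Y.Beyond x y (Y.act (f i) y₀) ↔ Y.Beyond x y (Y.act (f i₀) y₀)) :=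
    fun x y hxy => hend {g | Y.Beyond x y (Y.act g y₀)} (bd_finite Y hfree y₀ hxy)
  by_cases hcase : ∀ x, ∃ y, Y.G.Adj x y ∧ ∃ i₀, ∀ i ≥ i₀, Y.Beyond x y (Y.act (f i) y₀)
  · left
    choose nx hnx1 hnx2 using hcase
    obtain ⟨L, hL⟩ : ∃ L : ℕ → Y.X, L = fun k => nx^[k] y₀ := ⟨_, rfl⟩
    have hLs : ∀ k, L (k + 1) = nx (L k) := fun k => by
      rw [hL]; exact Function.iterate_succ_apply' nx k y₀
    have hLb : ∀ k, ∃ i₀, ∀ i ≥ i₀, Y.Beyond (L k) (L (k + 1)) (Y.act (f i) y₀) := by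
      intro k
      rw [hLs]
      exact hnx2 (L k)
    have hLa : ∀ k, Y.G.Adj (L k) (L (k + 1)) := by
      intro k
      rw [hLs]
      exact hnx1 (L k)
    refine ⟨L, TG.ray_of_local hG L hLa (fun k hk => ?_), hLb⟩
    obtain ⟨i1, h1⟩ := hLb k
    obtain ⟨i2, h2⟩ := hLb (k + 1)
    have e1 := h1 (max i1 i2) (le_max_left _ _)
    have e2 := h2 (max i1 i2) (le_max_right _ _)
    have e3 : k + 1 + 1 = k + 2 := rfl
    rw [e3, ← hk] at e2
    exact (TG.beyond_iff hG (hLa k) _).1 e1 e2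
  · right
    push Not at hcase
    obtain ⟨w, hw⟩ := hcase
    -- finally not beyond the edges at `w`
    have hw' : ∀ y, Y.G.Adj w y → ∃ i₀, ∀ i ≥ i₀, ¬ Y.Beyond w y (Y.act (f i) y₀) := by
      intro y hy
      obtain ⟨i₀, hi₀⟩ := hbd w y hy
      obtain ⟨i1, hi1, hi1'⟩ := hw y hy i₀
      refine ⟨i₀, fun i hi => ?_⟩
      rw [hi₀ i hi, ← hi₀ i1 hi1]
      exact hi1'
    -- the finite set of vertices
    obtain ⟨Seg, hSeg⟩ : ∃ Seg : Set Y.X,
        Seg = insert y₀ (⋃ s ∈ (S₀ : Set Γ), {z | Y.Btw y₀ z (Y.act s y₀)}) := ⟨_, rfl⟩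
    have hSegf : Seg.Finite := by
      rw [hSeg]
      exact (S₀.finite_toSet.biUnion fun s _ => finite_interval hG _ _).insert _
    have hinvw : ∀ t (z : Y.X), Y.act (f t) (Y.act (f t)⁻¹ z) = z := fun t z =>
      Y.act_act_inv (hf t) z
    -- a crossing
    have hcross : ∀ t y, Y.G.Adj w y →
        ¬ (Y.Beyond w y (Y.act (f t) y₀) ↔ Y.Beyond w y (Y.act (f (t + 1)) y₀)) →
        Y.act (f t)⁻¹ w ∈ Seg ∧ Y.act (f t)⁻¹ y ∈ Seg := by
      intro t y hy hne
      have hb : Y.Btw (Y.act (f t) y₀) w (Y.act (f (t + 1)) y₀) ∧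
          Y.Btw (Y.act (f t) y₀) y (Y.act (f (t + 1)) y₀) := by
        by_cases h1 : Y.Beyond w y (Y.act (f t) y₀)
        · have h2 : ¬ Y.Beyond w y (Y.act (f (t + 1)) y₀) := fun h2 => hne ⟨fun _ => h2, fun _ => h1⟩
          obtain ⟨e1, e2, -⟩ := (TG.beyond_sep hG hy).1 ⟨h2, h1⟩
          exact ⟨TG.btw_symm hG e1, TG.btw_symm hG e2⟩
        · have h2 : Y.Beyond w y (Y.act (f (t + 1)) y₀) := by
            by_contra h2
            exact hne ⟨fun h => absurd h h1, fun h => absurd h h2⟩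
          obtain ⟨e1, e2, -⟩ := (TG.beyond_sep hG hy).1 ⟨h1, h2⟩
          exact ⟨e1, e2⟩
      have key : ∀ z, Y.Btw (Y.act (f t) y₀) z (Y.act (f (t + 1)) y₀) →
          Y.act (f t)⁻¹ z ∈ Seg := by
        intro z hz
        have hi := H.inv_mem (hf t)
        have h3 := (Y.btw_act hi _ _ _).2 hz
        rw [Y.act_inv_act (hf t), ← Y.act_mul _ hi _ (hf (t + 1))] at h3
        rw [hSeg]
        refine Set.mem_insert_of_mem _ (Set.mem_biUnion (hinc t) ?_)
        exact h3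
      exact ⟨key w hb.1, key y hb.2⟩
    -- the finite set of elements mapping an edge of `Seg` to an edge of `Seg`
    have hK2 : {k | k ∈ H ∧ ∃ a ∈ Seg, ∃ b ∈ Seg, ∃ a' ∈ Seg, ∃ b' ∈ Seg,
        Y.G.Adj a b ∧ Y.act k a = a' ∧ Y.act k b = b'}.Finite := by
      have h1 : {k | k ∈ H ∧ ∃ a ∈ Seg, ∃ b ∈ Seg, ∃ a' ∈ Seg, ∃ b' ∈ Seg,
          Y.G.Adj a b ∧ Y.act k a = a' ∧ Y.act k b = b'} ⊆
          ⋃ a ∈ Seg, ⋃ b ∈ Seg, ⋃ a' ∈ Seg, ⋃ b' ∈ Seg,
            {k | k ∈ H ∧ Y.G.Adj a b ∧ Y.act k a = a' ∧ Y.act k b = b'} := by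
        rintro k ⟨hk, a, ha, b, hb, a', ha', b', hb', hk'⟩
        simp only [Set.mem_iUnion]
        exact ⟨a, ha, b, hb, a', ha', b', hb', hk, hk'⟩
      refine Set.Finite.subset ?_ h1
      refine hSegf.biUnion fun a _ => hSegf.biUnion fun b _ => hSegf.biUnion fun a' _ =>
        hSegf.biUnion fun b' _ => Set.Subsingleton.finite ?_
      rintro k ⟨hk, hab, hka, hkb⟩ k' ⟨hk', -, hka', hkb'⟩
      have h2 : k⁻¹ * k' = 1 := by
        refine hfree _ (H.mul_mem (H.inv_mem hk) hk') a b hab ?_ ?_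
        · rw [Y.act_mul _ (H.inv_mem hk) _ hk', hka', ← hka, Y.act_inv_act hk]
        · rw [Y.act_mul _ (H.inv_mem hk) _ hk', hkb', ← hkb, Y.act_inv_act hk]
      exact inv_mul_eq_one.1 h2
    -- the bound
    obtain ⟨c, hcb⟩ : ∃ c : ℕ, ∀ k ∈ {k | k ∈ H ∧ ∃ a ∈ Seg, ∃ b ∈ Seg, ∃ a' ∈ Seg, ∃ b' ∈ Seg,
        Y.G.Adj a b ∧ Y.act k a = a' ∧ Y.act k b = b'}, ∀ i j, (f i)⁻¹ * f j = k → j ≤ i + c := by
      choose cc hcc using hgeo
      refine ⟨∑ k ∈ hK2.toFinset, cc k, fun k hk i j hij => ?_⟩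
      have h1 := hcc k i j hij
      have h2 : cc k ≤ ∑ k ∈ hK2.toFinset, cc k :=
        Finset.single_le_sum (fun _ _ => Nat.zero_le _) (hK2.mem_toFinset.2 hk)
      omega
    -- the time after which nothing is beyond the edge towards `f 0 y₀`
    obtain ⟨i₀, hi₀⟩ : ∃ i₀, ∀ i ≥ i₀, ∀ y, Y.G.Adj w y → Y.Beyond w y (Y.act (f 0) y₀) →
        ¬ Y.Beyond w y (Y.act (f i) y₀) := by
      by_cases h0 : ∃ y, Y.G.Adj w y ∧ Y.Beyond w y (Y.act (f 0) y₀)
      · obtain ⟨y, hy, hyb⟩ := h0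
        obtain ⟨i₀, hi₀⟩ := hw' y hy
        refine ⟨i₀, fun i hi y' hy' hyb' => ?_⟩
        rw [TG.beyond_unique hG hy' hy hyb' hyb]
        exact hi₀ i hi
      · push Not at h0
        exact ⟨0, fun i _ y hy hyb => absurd hyb (h0 y hy)⟩
    -- main claim
    have hmain : ∀ i ≥ i₀, ∃ m ≤ c, Y.act (f (i + m))⁻¹ w ∈ Seg := by
      intro i hi
      by_cases hz : w = Y.act (f i) y₀
      · refine ⟨0, Nat.zero_le _, ?_⟩
        rw [add_zero]
        have : Y.act (f i)⁻¹ w = y₀ := by rw [hz, Y.act_inv_act (hf i)]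
        rw [this, hSeg]
        exact Set.mem_insert _ _
      · obtain ⟨y, hy, hyd⟩ := TG.exists_next hG hz
        have hB : Y.Beyond w y (Y.act (f i) y₀) := by
          show Y.G.dist y _ < Y.G.dist w _
          omega
        have hB0 : ¬ Y.Beyond w y (Y.act (f 0) y₀) := fun h0 => hi₀ i hi y hy h0 hB
        -- entry
        obtain ⟨i', hi'1, hi'2, hi'3⟩ : ∃ i', i' < i ∧ ¬ Y.Beyond w y (Y.act (f i') y₀) ∧
            Y.Beyond w y (Y.act (f (i' + 1)) y₀) := by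
          by_contra hcon
          push Not at hcon
          have : ∀ t, t ≤ i → ¬ Y.Beyond w y (Y.act (f t) y₀) := by
            intro t
            induction t with
            | zero => exact fun _ => hB0
            | succ t ih => exact fun ht => hcon t (by omega) (ih (by omega))
          exact this i le_rfl hB
        -- exit
        obtain ⟨i1, hi1⟩ := hw' y hy
        obtain ⟨j, hj1, hj2, hj3⟩ : ∃ j, i ≤ j ∧ Y.Beyond w y (Y.act (f j) y₀) ∧
            ¬ Y.Beyond w y (Y.act (f (j + 1)) y₀) := by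
          by_contra hcon
          push Not at hcon
          have : ∀ t, Y.Beyond w y (Y.act (f (i + t)) y₀) := by
            intro t
            induction t with
            | zero => exact hB
            | succ t ih => exact hcon (i + t) (by omega) ih
          exact hi1 (i + i1) (by omega) (this i1)
        have c1 := hcross i' y hy (fun h => hi'2 (h.2 hi'3))
        have c2 := hcross j y hy (fun h => hj3 (h.1 hj2))
        have hk : (f i')⁻¹ * f j ∈ {k | k ∈ H ∧ ∃ a ∈ Seg, ∃ b ∈ Seg, ∃ a' ∈ Seg, ∃ b' ∈ Seg,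
            Y.G.Adj a b ∧ Y.act k a = a' ∧ Y.act k b = b'} := by
          refine ⟨H.mul_mem (H.inv_mem (hf i')) (hf j), _, c2.1, _, c2.2, _, c1.1, _, c1.2,
            (Y.adj_act_iff (H.inv_mem (hf j)) _ _).2 hy, ?_, ?_⟩
          · rw [Y.act_mul _ (H.inv_mem (hf i')) _ (hf j), hinvw]
          · rw [Y.act_mul _ (H.inv_mem (hf i')) _ (hf j), hinvw]
        have hjc := hcb _ hk i' j rfl
        refine ⟨j - i, by omega, ?_⟩
        have : i + (j - i) = j := by omega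
        rw [this]
        exact c2.1
    -- increments
    have hQ : ∀ m, {q | ∃ i, q = (f i)⁻¹ * f (i + m)}.Finite := by
      intro m
      induction m with
      | zero =>
        refine (Set.finite_singleton 1).subset ?_
        rintro q ⟨i, rfl⟩
        simp
      | succ m ih =>
        refine (ih.mul S₀.finite_toSet).subset ?_
        rintro q ⟨i, rfl⟩
        refine Set.mem_mul.2 ⟨(f i)⁻¹ * f (i + m), ⟨i, rfl⟩, (f (i + m))⁻¹ * f (i + m + 1),
          hinc (i + m), ?_⟩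
        rw [← add_assoc]
        group
    -- representatives
    obtain ⟨rep, hrep⟩ : ∃ rep : Y.X → Γ, ∀ a t, Y.act (f t) a = w →
        rep a ∈ H ∧ Y.act (rep a) a = w := by
      have : ∀ a : Y.X, ∃ g : Γ, ∀ t, Y.act (f t) a = w → g ∈ H ∧ Y.act g a = w := by
        intro a
        by_cases h : ∃ t, Y.act (f t) a = w
        · obtain ⟨t, ht⟩ := h
          exact ⟨f t, fun _ _ => ⟨hf t, ht⟩⟩
        · push Not at h
          exact ⟨1, fun t ht => absurd ht (h t)⟩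
      choose rep hrep using this
      exact ⟨rep, hrep⟩
    have hKf : (rep '' Seg * (⋃ m ∈ Set.Iic c, {q | ∃ i, q = (f i)⁻¹ * f (i + m)})⁻¹).Finite := by
      refine (hSegf.image rep).mul (Set.Finite.inv ?_)
      exact (Set.finite_Iic c).biUnion fun m _ => hQ m
    refine ⟨w, hKf.toFinset, i₀, fun i hi => ?_⟩
    obtain ⟨m, hm, hmS⟩ := hmain i hi
    have h1 : Y.act (f (i + m)) (Y.act (f (i + m))⁻¹ w) = w := hinvw _ w
    obtain ⟨r1, r2⟩ := hrep _ _ h1
    generalize Y.act (f (i + m))⁻¹ w = a at hmS h1 r1 r2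
    refine ⟨rep a * ((f i)⁻¹ * f (i + m))⁻¹, ?_, ?_⟩
    · rw [Set.Finite.mem_toFinset]
      refine Set.mul_mem_mul (Set.mem_image_of_mem _ hmS) (Set.inv_mem_inv.2 ?_)
      exact Set.mem_biUnion (Set.mem_Iic.2 hm) ⟨i, rfl⟩
    · have e1 : f i * (rep a * ((f i)⁻¹ * f (i + m))⁻¹)⁻¹ = f (i + m) * (rep a)⁻¹ := by group
      rw [e1]
      refine ⟨H.mul_mem (hf _) (H.inv_mem r1), ?_⟩
      rw [Y.act_mul _ (hf _) _ (H.inv_mem r1)]
      conv_lhs => rw [← r2, Y.act_inv_act r1]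
      exact h1

end Pool.Agent.Lib.MP_6567fb_al
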