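import Pool.Agent.Lib.MP_6567fb_al.Defs4
import Pool.Agent.Lib.MP_6567fb_al.T0
import Pool.Agent.Lib.MP_6567fb_al.T15b
import Pool.Agent.Lib.MP_6567fb_al.T1d
import Pool.Agent.Lib.MP_6567fb_al.K22

/-!
# MP_6567fb_al, module K21

A geodesic ray of A converging to the end of a sequence a.  C = Cayley tree of A (T0), c₀ its base vertex.  For an edge (x,y) of C the set N = {f in A : f c₀ beyond (x,y)} has
finite boundary (bd_finite); one_end on U with the ray L gives k such that {f : f u₀ beyond (L k, L(k+1))} is inside N or disjoint: so a m c₀ is finally on one side.  a m is not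
constant on an infinite set of indices (a m u₀ leaves every ball).  ray_of_seq (T1d) gives a ray R of C with R 0 = c₀ and a m c₀ finally beyond (R i, R(i+1)); f i := the
element with f i c₀ = R i.  Increments: C is locally finite at c₀.  hgeo: dist(c₀, f_i⁻¹ f_j c₀) = |i - j|.  SameEnd: for N with finite boundary one_end on C with the ray R: for some k the set {f : f c₀
beyond (R k, R(k+1))} is inside N or disjoint from N; both sequences are finally in it.
-/

set_option autoImplicit false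

open scoped Pointwise

namespace Pool.Agent.Lib.MP_6567fb_al

open MTree
variable {Γ G : Type} [Group Γ] [Group G] {π : Γ →* G}

theorem ray_of_attr (hc : Ctx π) {A : Subgroup Γ} (hA : IsFactor π.ker π.ker A) (U : MTree A)
    (hU : U.IsSplitting π.ker) {L : ℕ → U.X} (hL : U.IsRay L) (u₀ : U.X) (a : ℕ → Γ) (ha : ∀ m, a m ∈ A)
    (hatt : ∀ k, ∃ m₀, ∀ m ≥ m₀, U.Beyond (L k) (L (k + 1)) (U.act (a m) u₀)) :
    ∃ f : ℕ → Γ, (∀ i, f i ∈ A) ∧ (∃ S₀ : Finset Γ, ∀ i, (f i)⁻¹ * f (i + 1) ∈ S₀) ∧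
      (∀ k : Γ, ∃ c, ∀ i j, (f i)⁻¹ * f j = k → j ≤ i + c) ∧ SameEnd A f a := by
  classical
  have hle : A ≤ π.ker := fac_le hA
  have hfg : A.FG := fac_fg hc hA
  have hfree : ∀ (T : MTree A), T.IsSplitting π.ker → ∀ h ∈ A, ∀ x y, T.G.Adj x y → T.act h x = x →
      T.act h y = y → h = 1 := fun T hT h hh x y hxy hx hy => hT.free h ⟨hh, hle hh⟩ x y hxy hx hy
  have hco : ∀ (T : MTree A), T.IsSplitting π.ker → ∃ S : Finset (T.X × T.X), ∀ x y, T.G.Adj x y →
      ∃ h ∈ A, (T.act h x, T.act h y) ∈ S := by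
    intro T hT
    obtain ⟨S, hS⟩ := hT.cocpt
    refine ⟨S, fun x y hxy => ?_⟩
    obtain ⟨h, hh, hS'⟩ := hS x y hxy
    exact ⟨h, hh.1, hS'⟩
  -- the sequence is finally on one side of every set with finite boundary
  have hside : ∀ N : Set Γ, FinBd A N → ∃ n, (∀ m ≥ n, a m ∈ N) ∨ (∀ m ≥ n, a m ∉ N) := by
    intro N hN
    obtain ⟨k, hk⟩ := one_end hfg U (hfree U hU) (hco U hU) hL u₀ hN
    obtain ⟨m₀, hm₀⟩ := hatt k
    refine ⟨m₀, ?_⟩
    rcases hk with hk | hk
    · exact Or.inl fun m hm => hk _ (ha m) (hm₀ m hm)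
    · exact Or.inr fun m hm => hk _ (ha m) (hm₀ m hm)
  obtain ⟨C, c₀, hC, huniq, hlf⟩ := cayley_exists hc hA
  -- the inverse of the orbit map
  choose e he heu using huniq
  have heA : ∀ x, e x ∈ A := fun x => (he x).1
  have hex : ∀ x, C.act (e x) c₀ = x := fun x => (he x).2
  have heq : ∀ d ∈ A, e (C.act d c₀) = d := fun d hd => (heu _ d ⟨hd, rfl⟩).symm
  have hinf : ∀ x, {n | C.act (a n) c₀ = x}.Finite := by
    intro x
    obtain ⟨k, hk⟩ := K22.ray_escape U.tree hL (U.act (e x) u₀)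
    obtain ⟨m₀, hm₀⟩ := hatt k
    refine (Set.finite_lt_nat m₀).subset fun n hn => ?_
    by_contra hcon
    have h1 := hm₀ n (not_lt.1 hcon)
    have h2 : a n = e x := by
      rw [← heq (a n) (ha n)]
      exact congrArg e hn
    rw [h2] at h1
    exact hk k le_rfl h1
  obtain ⟨R, hR, hR0, hRa⟩ := TG.ray_of_seq C.tree hlf (fun n => C.act (a n) c₀) hinf
    (fun x y hxy => hside _ (bd_finite C (hfree C hC) c₀ hxy)) c₀
  have hRadj : ∀ i, C.G.Adj (R i) (R (i + 1)) := K22.ray_adj hR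
  refine ⟨fun i => e (R i), fun i => heA _, ?_, ?_, ?_⟩
  · -- increments
    refine ⟨(hlf c₀).toFinset.image e, fun i => ?_⟩
    have hmem : (e (R i))⁻¹ * e (R (i + 1)) ∈ A := A.mul_mem (A.inv_mem (heA _)) (heA _)
    refine Finset.mem_image.2 ⟨C.act ((e (R i))⁻¹ * e (R (i + 1))) c₀, ?_, heq _ hmem⟩
    rw [Set.Finite.mem_toFinset]
    change C.G.Adj c₀ _
    rw [C.act_mul _ (A.inv_mem (heA _)) _ (heA _), hex]
    have h1 := C.act_adj _ (A.inv_mem (heA (R i))) _ _ (hRadj i)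
    have h2 : C.act (e (R i))⁻¹ (R i) = c₀ := by
      have h3 := act_inv_act (T := C) (heA (R i)) c₀
      rwa [hex] at h3
    rwa [h2] at h1
  · intro k
    refine ⟨C.G.dist c₀ (C.act k c₀), fun i j hij => ?_⟩
    have h1 : C.G.dist (R i) (R j) = C.G.dist c₀ (C.act k c₀) := by
      rw [← hij, C.act_mul _ (A.inv_mem (heA _)) _ (heA _), hex]
      rw [← dist_act (T := C) (heA (R i)) c₀, act_act_inv (T := C) (heA (R i)), hex]
    have h2 := hR i j
    omega
  · intro N hN
    obtain ⟨k, hk⟩ := one_end hfg C (hfree C hC) (hco C hC) hR c₀ hN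
    obtain ⟨n₁, hn₁⟩ := hRa k
    refine ⟨max (k + 1) n₁, fun n hn m hm => ?_⟩
    have h1 : C.Beyond (R k) (R (k + 1)) (C.act (e (R n)) c₀) := by
      rw [hex]
      exact K22.ray_beyond_right hR (lt_of_lt_of_le (Nat.lt_succ_self k) ((le_max_left _ _).trans hn))
    have h2 : C.Beyond (R k) (R (k + 1)) (C.act (a m) c₀) := hn₁ m ((le_max_right _ _).trans hm)
    rcases hk with hk | hk
    · exact ⟨fun _ => hk _ (ha m) h2, fun _ => hk _ (heA _) h1⟩
    · exact ⟨fun h => absurd h (hk _ (heA _) h1), fun h => absurd h (hk _ (ha m) h2)⟩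

end Pool.Agent.Lib.MP_6567fb_al
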