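import Pool.Agent.Lib.MP_6567fb_al.Defs4
import Pool.Agent.Lib.MP_6567fb_al.T14c
import Pool.Agent.Lib.MP_6567fb_al.T14a
import Pool.Agent.Lib.MP_6567fb_al.T14b

/-!
# MP_6567fb_al, module K23

Meet of all translates.  For a finite set E ⊆ M with 1 in E let Om_E := {X ≠ ⊥ : X = ⨅_{e in E} e⁻¹ (T.stab (c e)) e for some choice c of vertices}: it is the family of an H-splitting (H = M ⊓ π.ker;
induction with meet_exists, the trees are T.tw e⁻¹ restricted to H).  Choose E with minimal complexity (T14a) of Om_E; then Om_E = Om_(E ∪ E') for every finite E' ⊆ M (Om_(E ∪ E') ≤ Om_E).  m Om_E = Om_(E m⁻¹), so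
Om_E ≤ m Om_E for all m in M, and m⁻¹ gives equality (two members meeting non-trivially are equal): Om_E is M-invariant.  Proper: 1 in E, T non-trivial, so H is not a member.  If T.Rel Om, Om M-invariant, B in Om: B is elliptic in every e⁻¹ T (e B
is in Om), so B is inside a member of Om_E.
-/

set_option autoImplicit false

open scoped Pointwise

namespace Pool.Agent.Lib.MP_6567fb_al

open MTree
variable {Γ G : Type} [Group Γ] [Group G] {π : Γ →* G}

namespace K23

/-- the subgroup of the elements `z` with `e z e⁻¹` in `T.stab (c e)` for all `e` in `E` -/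
def omS {H : Subgroup Γ} (T : MTree H) (E : Finset Γ) (c : Γ → T.X) : Subgroup Γ where
  carrier := {z | ∀ e ∈ E, e * z * e⁻¹ ∈ T.stab (c e)}
  one_mem' := by
    intro e _
    have h : e * 1 * e⁻¹ = 1 := by group
    rw [h]; exact (T.stab (c e)).one_mem
  mul_mem' := by
    intro a b ha hb e he
    have h := (T.stab (c e)).mul_mem (ha e he) (hb e he)
    have h2 : e * a * e⁻¹ * (e * b * e⁻¹) = e * (a * b) * e⁻¹ := by group
    rwa [h2] at h
  inv_mem' := by
    intro a ha e he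
    have h := (T.stab (c e)).inv_mem (ha e he)
    have h2 : (e * a * e⁻¹)⁻¹ = e * a⁻¹ * e⁻¹ := by group
    rwa [h2] at h

theorem mem_omS {H : Subgroup Γ} {T : MTree H} {E : Finset Γ} {c : Γ → T.X} {z : Γ} :
    z ∈ omS T E c ↔ ∀ e ∈ E, e * z * e⁻¹ ∈ T.stab (c e) := Iff.rfl

/-- the family of the meet of the translates -/
def omE {H : Subgroup Γ} (T : MTree H) (E : Finset Γ) : Set (Subgroup Γ) :=
  {X | X ≠ ⊥ ∧ ∃ c : Γ → T.X, X = omS T E c}

theorem omS_anti {H : Subgroup Γ} {T : MTree H} {E E' : Finset Γ} (h : E ⊆ E') (c : Γ → T.X) :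
    omS T E' c ≤ omS T E c := fun _ hz e he => hz e (h he)

theorem ne_bot_of_le {X Y : Subgroup Γ} (h : X ≤ Y) (hX : X ≠ ⊥) : Y ≠ ⊥ := by
  intro hY
  exact hX (le_bot_iff.mp (hY ▸ h))

theorem omE_anti {H : Subgroup Γ} {T : MTree H} {E E' : Finset Γ} (h : E ⊆ E') :
    FamLe (omE T E') (omE T E) := by
  rintro X ⟨hX, c, rfl⟩
  exact ⟨omS T E c, ⟨ne_bot_of_le (omS_anti h c) hX, c, rfl⟩, omS_anti h c⟩

/-- conjugation by an element of `M` preserves `M ⊓ F` -/
theorem conj_mem_inf {M : Subgroup Γ} {e z : Γ} (he : e ∈ M) (hz : z ∈ M ⊓ π.ker) :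
    e * z * e⁻¹ ∈ M ⊓ π.ker := by
  refine ⟨M.mul_mem (M.mul_mem he hz.1) (M.inv_mem he), ?_⟩
  have h1 : π z = 1 := hz.2
  change π (e * z * e⁻¹) = 1
  rw [map_mul, map_mul, h1, mul_one, map_inv, mul_inv_cancel]

theorem mem_inf_of_conj {M : Subgroup Γ} {e z : Γ} (he : e ∈ M) (hz : e * z * e⁻¹ ∈ M ⊓ π.ker) :
    z ∈ M ⊓ π.ker := by
  have h := conj_mem_inf (π := π) (M.inv_mem he) hz
  have h2 : e⁻¹ * (e * z * e⁻¹) * e⁻¹⁻¹ = z := by group
  rwa [h2] at h

/-- twisted tree -/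
def twist {M : Subgroup Γ} (T : MTree (M ⊓ π.ker)) (e : Γ) (he : e ∈ M) : MTree (M ⊓ π.ker) where
  X := T.X
  G := T.G
  tree := T.tree
  act := fun z x => T.act (e * z * e⁻¹) x
  act_one := fun x => by
    have h : e * 1 * e⁻¹ = 1 := by group
    rw [h]; exact T.act_one x
  act_mul := fun m hm m' hm' x => by
    have h : e * (m * m') * e⁻¹ = (e * m * e⁻¹) * (e * m' * e⁻¹) := by group
    rw [h]
    exact T.act_mul _ (conj_mem_inf he hm) _ (conj_mem_inf he hm') x
  act_adj := fun m hm x y hxy => T.act_adj _ (conj_mem_inf he hm) x y hxy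

theorem mem_twist_stab {M : Subgroup Γ} (T : MTree (M ⊓ π.ker)) (e : Γ) (he : e ∈ M) (x : T.X) (z : Γ) :
    z ∈ (twist T e he).stab x ↔ e * z * e⁻¹ ∈ T.stab x := by
  constructor
  · rintro ⟨h1, h2⟩
    exact ⟨conj_mem_inf he h1, h2⟩
  · rintro ⟨h1, h2⟩
    exact ⟨mem_inf_of_conj he h1, h2⟩

theorem twist_down {M : Subgroup Γ} (T : MTree (M ⊓ π.ker)) (e : Γ) (he : e ∈ M)
    (x : (twist T e he).X) : ∃ x' : T.X, ∀ z, z ∈ (twist T e he).stab x ↔ e * z * e⁻¹ ∈ T.stab x' :=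
  ⟨x, fun z => mem_twist_stab T e he x z⟩

theorem twist_up {M : Subgroup Γ} (T : MTree (M ⊓ π.ker)) (e : Γ) (he : e ∈ M)
    (x' : T.X) : ∃ x : (twist T e he).X, ∀ z, z ∈ (twist T e he).stab x ↔ e * z * e⁻¹ ∈ T.stab x' :=
  ⟨x', fun z => mem_twist_stab T e he x' z⟩

theorem twist_splitting {M : Subgroup Γ} {T : MTree (M ⊓ π.ker)} (hT : T.IsSplitting π.ker) (e : Γ)
    (he : e ∈ M) : (twist T e he).IsSplitting π.ker := by
  have key : ∀ z, z ∈ M ⊓ π.ker → z ∈ M ⊓ π.ker ⊓ π.ker := fun z hz => ⟨hz, hz.2⟩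
  refine ⟨?_, ?_, ?_⟩
  · intro h hh x y hxy hx hy
    have h1 := hT.free (e * h * e⁻¹) (key _ (conj_mem_inf he hh.1)) x y hxy hx hy
    have h2 : h = e⁻¹ * (e * h * e⁻¹) * e := by group
    rw [h2, h1]
    group
  · intro m hm x y hxy
    obtain ⟨h, hh, h1, h2⟩ := hT.orb (e * m * e⁻¹) (conj_mem_inf he hm) x y hxy
    have h3 : e * (e⁻¹ * h * e) * e⁻¹ = h := by group
    refine ⟨e⁻¹ * h * e, key _ (mem_inf_of_conj he (by rw [h3]; exact hh.1)), ?_, ?_⟩
    · change T.act (e * (e⁻¹ * h * e) * e⁻¹) x = _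
      rw [h3]; exact h1
    · change T.act (e * (e⁻¹ * h * e) * e⁻¹) y = _
      rw [h3]; exact h2
  · obtain ⟨S, hS⟩ := hT.cocpt
    refine ⟨S, fun x y hxy => ?_⟩
    obtain ⟨h, hh, h1⟩ := hS x y hxy
    have h3 : e * (e⁻¹ * h * e) * e⁻¹ = h := by group
    refine ⟨e⁻¹ * h * e, key _ (mem_inf_of_conj he (by rw [h3]; exact hh.1)), ?_⟩
    change (T.act (e * (e⁻¹ * h * e) * e⁻¹) x, T.act (e * (e⁻¹ * h * e) * e⁻¹) y) ∈ S
    rw [h3]; exact h1

theorem loc_fac {M : Subgroup Γ} (hM : Loc π M) : IsFactor π.ker π.ker (M ⊓ π.ker) := hM.fac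

theorem stab_inf_ker {M : Subgroup Γ} (T : MTree (M ⊓ π.ker)) (x : T.X) :
    T.stab x ⊓ π.ker = T.stab x := by
  apply le_antisymm inf_le_left
  intro z hz
  exact ⟨hz, hz.1.2⟩

/-- the family `omE T E` is the family of a splitting -/
theorem omE_tree (hc : Ctx π) {M : Subgroup Γ} (hM : Loc π M) (T : MTree (M ⊓ π.ker))
    (hT : T.IsSplitting π.ker) (E : Finset Γ) (hE : E.Nonempty) (hEM : ∀ e ∈ E, e ∈ M) :
    ∃ T' : MTree (M ⊓ π.ker), T'.IsSplitting π.ker ∧ T'.vgs π.ker = omE T E := by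
  classical
  induction hE using Finset.Nonempty.cons_induction with
  | singleton e =>
    have he : e ∈ M := hEM e (Finset.mem_singleton_self e)
    refine ⟨twist T e he, twist_splitting hT e he, ?_⟩
    ext X
    constructor
    · rintro ⟨hX, x, hx⟩
      obtain ⟨x', hx'⟩ := twist_down T e he x
      refine ⟨hX, fun _ => x', ?_⟩
      rw [stab_inf_ker (twist T e he)] at hx
      rw [← hx]
      ext z
      rw [hx', mem_omS]
      constructor
      · intro h e' he'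
        rw [Finset.mem_singleton.mp he']
        exact h
      · intro h
        exact h e (Finset.mem_singleton_self e)
    · rintro ⟨hX, c, hx⟩
      obtain ⟨x, hx'⟩ := twist_up T e he (c e)
      refine ⟨hX, x, ?_⟩
      rw [stab_inf_ker (twist T e he), hx]
      ext z
      rw [hx', mem_omS]
      constructor
      · intro h e' he'
        rw [Finset.mem_singleton.mp he']
        exact h
      · intro h
        exact h e (Finset.mem_singleton_self e)
  | cons e E he hE ih =>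
    have heM : e ∈ M := hEM e (Finset.mem_cons_self e E)
    obtain ⟨T₂, hT₂, hv₂⟩ := ih (fun e' he' => hEM e' (Finset.mem_cons_of_mem he'))
    obtain ⟨T', hT', hv'⟩ := meet_exists hc (loc_fac hM) (twist T e heM) T₂ (twist_splitting hT e heM) hT₂
    refine ⟨T', hT', ?_⟩
    rw [hv']
    ext X
    constructor
    · rintro ⟨hX, x, y, hxy⟩
      have hy : T₂.stab y ≠ ⊥ := ne_bot_of_le (by rw [hxy]; exact inf_le_right) hX
      have hy2 : T₂.stab y ∈ omE T E := by
        rw [← hv₂]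
        exact ⟨hy, y, stab_inf_ker T₂ y⟩
      obtain ⟨_, c, hcy⟩ := hy2
      obtain ⟨x', hx'⟩ := twist_down T e heM x
      refine ⟨hX, Function.update c e x', ?_⟩
      rw [hxy, hcy]
      ext z
      rw [Subgroup.mem_inf, hx', mem_omS, mem_omS]
      constructor
      · rintro ⟨h1, h2⟩ e' he'
        rcases Finset.mem_cons.mp he' with rfl | he''
        · rw [Function.update_self]; exact h1
        · have hne : e' ≠ e := fun h => he (h ▸ he'')
          rw [Function.update_of_ne hne]; exact h2 e' he''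
      · intro h
        refine ⟨?_, fun e' he' => ?_⟩
        · have := h e (Finset.mem_cons_self e E)
          rwa [Function.update_self] at this
        · have hne : e' ≠ e := fun h => he (h ▸ he')
          have := h e' (Finset.mem_cons_of_mem he')
          rwa [Function.update_of_ne hne] at this
    · rintro ⟨hX, c, hcX⟩
      have hsub : X ≤ omS T E c := by
        rw [hcX]
        exact omS_anti (Finset.subset_cons he) c
      have hmem : omS T E c ∈ T₂.vgs π.ker := by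
        rw [hv₂]
        exact ⟨ne_bot_of_le hsub hX, c, rfl⟩
      obtain ⟨_, y, hy⟩ := hmem
      rw [stab_inf_ker T₂] at hy
      obtain ⟨x, hx'⟩ := twist_up T e heM (c e)
      refine ⟨hX, x, y, ?_⟩
      rw [hy, hcX]
      ext z
      rw [Subgroup.mem_inf, hx', mem_omS, mem_omS]
      constructor
      · intro h
        exact ⟨h e (Finset.mem_cons_self e E), fun e' he' => h e' (Finset.mem_cons_of_mem he')⟩
      · rintro ⟨h1, h2⟩ e' he'
        rcases Finset.mem_cons.mp he' with rfl | he''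
        · exact h1
        · exact h2 e' he''

theorem loc_inf {M : Subgroup Γ} (hM : Loc π M) : Loc π (M ⊓ π.ker) := by
  have h : M ⊓ π.ker ⊓ π.ker = M ⊓ π.ker := by rw [inf_assoc, inf_idem]
  exact ⟨by rw [h]; exact hM.ne, by rw [h]; exact hM.fac⟩

theorem omE_stable (hc : Ctx π) {M : Subgroup Γ} (hM : Loc π M) (T : MTree (M ⊓ π.ker))
    (hT : T.IsSplitting π.ker) :
    ∃ E : Finset Γ, (∀ e ∈ E, e ∈ M) ∧ (1 : Γ) ∈ E ∧
      ∀ E' : Finset Γ, E ⊆ E' → (∀ e ∈ E', e ∈ M) → omE T E' = omE T E := by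
  have h := periph_min hc (loc_inf hM)
    {Om | ∃ E : Finset Γ, (∀ e ∈ E, e ∈ M) ∧ (1 : Γ) ∈ E ∧ Om = omE T E}
    ⟨omE T {1}, {1}, by intro e he; rw [Finset.mem_singleton.mp he]; exact M.one_mem,
      Finset.mem_singleton_self 1, rfl⟩ ?_
  · obtain ⟨Om, ⟨E, hEM, h1, rfl⟩, hmin⟩ := h
    refine ⟨E, hEM, h1, fun E' hE' hE'M => ?_⟩
    exact hmin _ ⟨E', hE'M, hE' h1, rfl⟩ (omE_anti hE')
  · rintro Om ⟨E, hEM, h1, rfl⟩
    obtain ⟨T', hT', hv⟩ := omE_tree hc hM T hT E ⟨1, h1⟩ hEM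
    rw [← hv]
    exact periph_of_splitting hT'

theorem omE_periph (hc : Ctx π) {M : Subgroup Γ} (hM : Loc π M) (T : MTree (M ⊓ π.ker))
    (hT : T.IsSplitting π.ker) (E : Finset Γ) (hE : E.Nonempty) (hEM : ∀ e ∈ E, e ∈ M) :
    IsPeriph π.ker (M ⊓ π.ker) (omE T E) := by
  obtain ⟨T', hT', hv⟩ := omE_tree hc hM T hT E hE hEM
  rw [← hv]
  exact periph_of_splitting hT'

/-- a member is contained in a translate of a member -/
theorem omE_translate {M : Subgroup Γ} {T : MTree (M ⊓ π.ker)} {E : Finset Γ} (hEM : ∀ e ∈ E, e ∈ M)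
    (hst : ∀ E' : Finset Γ, E ⊆ E' → (∀ e ∈ E', e ∈ M) → omE T E' = omE T E)
    {m : Γ} (hm : m ∈ M) {X : Subgroup Γ} (hX : X ∈ omE T E) :
    ∃ Y ∈ omE T E, MulAut.conj m • X ≤ Y := by
  classical
  have h1 : X ∈ omE T (E ∪ E.image (fun e => e * m)) := by
    rw [hst _ Finset.subset_union_left]
    · exact hX
    · intro e he
      rcases Finset.mem_union.mp he with he | he
      · exact hEM e he
      · obtain ⟨e', he', rfl⟩ := Finset.mem_image.mp he
        exact M.mul_mem (hEM e' he') hm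
  obtain ⟨hne, c, hcX⟩ := h1
  have hle : MulAut.conj m • X ≤ omS T E (fun e => c (e * m)) := by
    intro z hz
    rw [Subgroup.mem_pointwise_smul_iff_inv_smul_mem] at hz
    rw [hcX, mem_omS] at hz
    rw [mem_omS]
    intro e he
    have h2 := hz (e * m) (Finset.mem_union_right _ (Finset.mem_image_of_mem _ he))
    have h3 : e * m * ((MulAut.conj m)⁻¹ • z) * (e * m)⁻¹ = e * z * e⁻¹ := by
      rw [MulAut.smul_def, ← map_inv, MulAut.conj_apply]
      group
    rwa [h3] at h2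
  refine ⟨omS T E (fun e => c (e * m)), ⟨ne_bot_of_le hle ?_, _, rfl⟩, hle⟩
  intro hb
  apply hne
  have := congrArg (fun Z => (MulAut.conj m)⁻¹ • Z) hb
  simpa using this

theorem omE_inv (hc : Ctx π) {M : Subgroup Γ} (hM : Loc π M) {T : MTree (M ⊓ π.ker)}
    (hT : T.IsSplitting π.ker) {E : Finset Γ} (hEM : ∀ e ∈ E, e ∈ M) (h1 : (1 : Γ) ∈ E)
    (hst : ∀ E' : Finset Γ, E ⊆ E' → (∀ e ∈ E', e ∈ M) → omE T E' = omE T E)
    {m : Γ} (hm : m ∈ M) {X : Subgroup Γ} (hX : X ∈ omE T E) : MulAut.conj m • X ∈ omE T E := by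
  obtain ⟨Y, hY, hXY⟩ := omE_translate hEM hst hm hX
  obtain ⟨Z, hZ, hYZ⟩ := omE_translate hEM hst (M.inv_mem hm) hY
  have hle : X ≤ MulAut.conj m⁻¹ • Y := by
    have h2 : MulAut.conj m⁻¹ • (MulAut.conj m • X) ≤ MulAut.conj m⁻¹ • Y :=
      Subgroup.pointwise_smul_le_pointwise_smul_iff.mpr hXY
    rwa [smul_smul, ← map_mul, inv_mul_cancel, map_one, one_smul] at h2
  have hXZ : X ≤ Z := hle.trans hYZ
  have hP := omE_periph hc hM T hT E ⟨1, h1⟩ hEM
  have hEq : X = Z := by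
    apply periph_disj hP hX hZ
    rw [inf_eq_left.mpr hXZ]
    exact hX.1
  have hEq2 : MulAut.conj m⁻¹ • Y = X := le_antisymm (hEq ▸ hYZ) hle
  rw [← hEq2, smul_smul, ← map_mul, mul_inv_cancel, map_one, one_smul]
  exact hY

end K23

open K23 in
theorem meet_all (hc : Ctx π) {M : Subgroup Γ} (hM : Loc π M) (T : MTree (M ⊓ π.ker))
    (hT : T.IsSplitting π.ker) (hn : T.Nontriv π.ker) :
    ∃ (E : Finset Γ) (Om' : Set (Subgroup Γ)), (∀ e ∈ E, e ∈ M) ∧ (1 : Γ) ∈ E ∧ IsProper π.ker M Om' ∧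
      (∀ X, X ∈ Om' ↔ X ≠ ⊥ ∧ ∃ c : Γ → T.X, ∀ z, z ∈ X ↔ ∀ e ∈ E, e * z * e⁻¹ ∈ T.stab (c e)) ∧
      ∀ Om, IsPeriph π.ker M Om → T.Rel Om → FamLe Om Om' := by
  classical
  obtain ⟨E, hEM, h1, hst⟩ := omE_stable hc hM T hT
  refine ⟨E, omE T E, hEM, h1, ?_, ?_, ?_⟩
  · refine ⟨fun m hm B hB => omE_inv hc hM hT hEM h1 hst hm hB, ?_⟩
    obtain ⟨T', hT', hv⟩ := omE_tree hc hM T hT E ⟨1, h1⟩ hEM
    refine ⟨T', hT', ?_, hv⟩
    intro x
    by_contra hcon
    push Not at hcon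
    have hstab : T'.stab x = M ⊓ π.ker := by
      apply le_antisymm
      · exact fun z hz => hz.1
      · exact fun z hz => ⟨hz, hcon z ⟨hz, hz.2⟩⟩
    have hmem : M ⊓ π.ker ∈ omE T E := by
      rw [← hv]
      exact ⟨hM.ne, x, by rw [stab_inf_ker T', hstab]⟩
    obtain ⟨_, c, hcX⟩ := hmem
    obtain ⟨h, hh, hne⟩ := hn (c 1)
    have h2 : h ∈ omS T E c := by rw [← hcX]; exact hh.1
    have h3 := h2 1 h1
    apply hne
    have h4 : (1 : Γ) * h * 1⁻¹ = h := by group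
    rw [h4] at h3
    exact h3.2
  · intro X
    constructor
    · rintro ⟨hX, c, rfl⟩
      exact ⟨hX, c, fun z => mem_omS⟩
    · rintro ⟨hX, c, hcX⟩
      refine ⟨hX, c, ?_⟩
      ext z
      rw [hcX, mem_omS]
  · intro Om hOm hRel B hB
    have hex : ∀ e : Γ, ∃ x : T.X, e ∈ E → ∀ z ∈ B, e * z * e⁻¹ ∈ T.stab x := by
      intro e
      by_cases he : e ∈ E
      · obtain ⟨x, hx⟩ := hRel _ (hOm.inv e (hEM e he) B hB)
        refine ⟨x, fun _ z hz => ⟨conj_mem_inf (hEM e he) (periph_le hOm hB hz), hx _ ?_⟩⟩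
        change e * z * e⁻¹ ∈ MulAut.conj e • B
        have := Subgroup.smul_mem_pointwise_smul z (MulAut.conj e) B hz
        rwa [MulAut.smul_def, MulAut.conj_apply] at this
      · have : Nonempty T.X := T.tree.1.nonempty
        exact ⟨Classical.arbitrary _, fun h => absurd h he⟩
    choose c hcc using hex
    have hle : B ≤ omS T E c := fun z hz e he => hcc e he z hz
    exact ⟨omS T E c, ⟨ne_bot_of_le hle (periph_ne hOm hB), c, rfl⟩, hle⟩

end Pool.Agent.Lib.MP_6567fb_al
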