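import Pool.Agent.Lib.MP_6567fb_al.Defs4
import Pool.Agent.Lib.MP_6567fb_al.T14b
import Pool.Agent.Lib.MP_6567fb_al.T8

/-!
# MP_6567fb_al, module K24

Passing from M (Full) to the part over <g>.
-/

set_option autoImplicit false

open scoped Pointwise

namespace Pool.Agent.Lib.MP_6567fb_al

open MTree
variable {Γ G : Type} [Group Γ] [Group G] {π : Γ →* G}

theorem mgK_inf {M : Subgroup Γ} (g : G) : Mg π M g ⊓ π.ker = M ⊓ π.ker := by
  ext x
  constructor
  · rintro ⟨⟨h1, -⟩, h3⟩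
    exact ⟨h1, h3⟩
  · rintro ⟨h1, h3⟩
    refine ⟨⟨h1, ?_⟩, h3⟩
    have h3' : π x = 1 := h3
    show π x ∈ Subgroup.zpowers g
    rw [h3']
    exact Subgroup.one_mem _

theorem mg_cyc {M : Subgroup Γ} (hM : Full π M) (g : G) : Cyc π (Mg π M g) g where
  ne := by rw [mgK_inf]; exact hM.ne
  fac := by rw [mgK_inf]; exact hM.fac
  surj := by
    obtain ⟨m, hm, hg⟩ := hM.surj g
    refine ⟨m, ⟨hm, ?_⟩, hg⟩
    show π m ∈ Subgroup.zpowers g
    rw [hg]
    exact Subgroup.mem_zpowers g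
  cyc := fun m hm => hm.2

theorem mg_proper {M : Subgroup Γ} {Om : Set (Subgroup Γ)} (h : IsProper π.ker M Om) (g : G) :
    IsProper π.ker (Mg π M g) Om where
  inv := fun m hm B hB => h.inv m hm.1 B hB
  tree := by
    have := h.tree
    rw [mgK_inf]
    exact this

theorem mg_periph {M : Subgroup Γ} {Om : Set (Subgroup Γ)} (h : IsPeriph π.ker M Om) (g : G) :
    IsPeriph π.ker (Mg π M g) Om where
  inv := fun m hm B hB => h.inv m hm.1 B hB
  tree := by
    have := h.tree
    rw [mgK_inf]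
    exact this

end Pool.Agent.Lib.MP_6567fb_al
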