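import Pool.Agent.Lib.MP_6567fb_al.K16b
import Pool.Agent.Lib.MP_6567fb_al.K19
import Pool.Agent.Lib.MP_6567fb_al.K20
import Pool.Agent.Lib.MP_6567fb_al.K21
import Pool.Agent.Lib.MP_6567fb_al.K22
import Pool.Agent.Lib.MP_6567fb_al.K23
import Pool.Agent.Lib.MP_6567fb_al.K24
import Pool.Agent.Lib.MP_6567fb_al.K10
import Pool.Agent.Lib.MP_6567fb_al.K12

/-!
# MP_6567fb_al, module K25

K7.1: case 1 contradicts maximality.  N := Mg π M g, H := M ⊓ π.ker = N ⊓ π.ker, A = D.A, T := (K10).T for D (CutTree), it is an N-splitting (case 1), non-trivial, rel Om (K12).  Let Q₀ ≠ P be a lift in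
S.stab v (K8: an edge (v,w1) not fixed by P; its lift), a m := P^m Q₀^-m in A; a m u₀ tends to the positive end of L in U (K16a; case 1 excludes commuting).  K21 for A acting on U.res, ray L|ℕ: f i in A
geodesic, SameEnd A f a.  For h in M: dichotomy (K20) for the group H acting on T by f * t = (h f h⁻¹) t (T.tw h⁻¹ restricted to H), f i in H, hend from SameEnd and FinBd.mono.
(i) If it gives a ray of T: dichotomy for S with the twisted action.  It does not give (w, K): otherwise h f i h⁻¹ is in (S.stab w)·K', S.stab w fixes κ w, so (h f i h⁻¹) κ v stays in a ball: contradiction to the ray of T.  So a ray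
of S, with infinitely many good turns (K22 with F i := h f i h⁻¹), and h (a m) h⁻¹ v is finally beyond its edges (finite boundary, SameEnd).  growth_lemma with both r b and a b equal to these: False (hatt: attraction1).
(ii) So for every h in M there are w_h in T, K_h finite with h f i h⁻¹ in T.stab w_h · (h K_h h⁻¹) for large i.  meet_all for T restricted to H: E, Om'; Om ≤ Om', so Om' = Om (hmax).  For e in E pigeonhole: infinitely many i with the same k_e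
for all e in E; j one of them: z_i := f i (f j)⁻¹ has e z_i e⁻¹ in T.stab w_e for all e in E; z_i ≠ 1 for i ≠ j; so z_i lies in a member B of Om' = Om (the same B for all i: defined by the w_e), and in A.  B ⊓ A ∈ resFam Om A is elliptic in
U (hUrel), fixes u; dist(u, f i u₀) = dist(u, z_i f j u₀) = dist(u, f j u₀) for infinitely many i; but f i u₀ leaves every ball (SameEnd A f a with the half spaces of L): contradiction.
-/

set_option autoImplicit false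

open scoped Pointwise

namespace Pool.Agent.Lib.MP_6567fb_al

open MTree
variable {Γ G : Type} [Group Γ] [Group G] {π : Γ →* G}

namespace K25

/-- points beyond the edges of a ray leave every ball -/
theorem leaves_ball {X : Type} {Gr : SimpleGraph X} (hG : Gr.IsTree) {r : ℕ → X} (hr : TG.IsRay Gr r)
    (p : X) (B : ℕ) : ∃ k, ∀ z, TG.Beyond Gr (r k) (r (k + 1)) z → B < Gr.dist p z := by
  obtain ⟨k₀, hk₀⟩ := TG.ray_not_beyond hG hr p
  refine ⟨max k₀ (B + Gr.dist (r 0) p + 1), fun z hz => ?_⟩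
  set k := max k₀ (B + Gr.dist (r 0) p + 1) with hk
  have h1 := ((TG.beyond_sep hG (TG.ray_adj' hr k)).1 ⟨hk₀ k (le_max_left _ _), hz⟩).1
  have h2 := TG.dist_tri hG (r 0) p (r k)
  have h3 := hr 0 k
  have h4 : B + Gr.dist (r 0) p + 1 ≤ k := le_max_right _ _
  unfold TG.Btw at h1
  omega

/-- alternative (ii) holds for every `h` normalising `H` -/
theorem stay (hc : Ctx π) {N : Subgroup Γ} {g : G} (hcyc : Cyc π N g) {Om : Set (Subgroup Γ)}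
    (D : KData π N g Om) (C : CutTree D.S D.v D.P) (hCs : C.T.IsSplitting π.ker) {f a : ℕ → Γ}
    (hfA : ∀ i, f i ∈ D.S.stab D.v ⊓ π.ker) (S₀ : Finset Γ) (hinc : ∀ i, (f i)⁻¹ * f (i + 1) ∈ S₀)
    (hgeo : ∀ k : Γ, ∃ c, ∀ i j, (f i)⁻¹ * f j = k → j ≤ i + c)
    (hend : SameEnd (D.S.stab D.v ⊓ π.ker) f a) (ha : ∀ m, a m ∈ D.S.stab D.v ⊓ π.ker)
    (hatt : ∀ w1, D.S.G.Adj D.v w1 → ∀ Q ∈ N, π Q = g → D.S.FixE Q D.v w1 → Q ≠ D.P →
      SameEnd (D.S.stab D.v ⊓ π.ker) (fun n => D.P ^ n * (Q ^ n)⁻¹) a)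
    {h : Γ} (hh : MulAut.conj h • (N ⊓ π.ker) = N ⊓ π.ker) :
    ∃ (w : C.T.X) (K : Finset Γ) (i₀ : ℕ), ∀ i ≥ i₀, ∃ k ∈ K, f i * k⁻¹ ∈ N ⊓ π.ker ∧
      C.T.act (h * (f i * k⁻¹) * h⁻¹) w = w := by
  have hAH : D.S.stab D.v ⊓ π.ker ≤ N ⊓ π.ker := fun x hx => ⟨hx.1.1, hx.2⟩
  have hend' : ∀ N' : Set Γ, FinBd (N ⊓ π.ker) N' → ∃ i₀, ∀ i ≥ i₀, (f i ∈ N' ↔ f i₀ ∈ N') := by
    intro N' hN'
    obtain ⟨n₀, hn₀⟩ := hend N' (hN'.mono hAH)
    exact ⟨n₀, fun i hi => (hn₀ i hi n₀ le_rfl).trans (hn₀ n₀ le_rfl n₀ le_rfl).symm⟩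
  have hfH : ∀ i, f i ∈ N ⊓ π.ker := fun i => hAH (hfA i)
  rcases dichotomy (twTree C.T π h fun _ hf => hh_mem hh hf) (tw_free hCs hh) (tw_cocpt hCs hh)
    (C.κ D.v) f hfH S₀ hinc hgeo hend' with ⟨Λ, hΛ, hΛ2⟩ | ⟨w, K, i₀, hw⟩
  · exfalso
    have hΛ' : C.T.IsRay Λ := hΛ
    have hΛ2' : ∀ k, ∃ i₀, ∀ i ≥ i₀, C.T.Beyond (Λ k) (Λ (k + 1)) (C.T.act (h * f i * h⁻¹) (C.κ D.v)) := hΛ2
    rcases dichotomy (twTree D.S π h fun _ hf => hh_mem hh hf) (tw_free D.hS hh) (tw_cocpt D.hS hh)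
      D.v f hfH S₀ hinc hgeo hend' with ⟨r, hr, hr2⟩ | ⟨w, K, i₀, hw⟩
    · have hr' : D.S.IsRay r := hr
      have hr2' : ∀ k, ∃ i₀, ∀ i ≥ i₀, D.S.Beyond (r k) (r (k + 1)) (D.S.act (h * f i * h⁻¹) D.v) := hr2
      have hgood := cut_rays hc hcyc D.hS D.hP D.hPg D.hPe.1 C (fun i => h * f i * h⁻¹)
        (fun i => hh_mem hh (hfH i)) hr' hr2' hΛ' hΛ2'
      refine growth_lemma hc hcyc D.hS D.hSmin D.hP D.hPg D.hPe.1 hh (fun _ => a) (fun _ => ha)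
        (fun w1 hw1 Q hQ hQg hQe hne => ⟨true, hatt w1 hw1 Q hQ hQg hQe hne⟩) (fun _ => r) (fun _ => hr')
        (fun _ => hgood) (fun _ k => ?_)
      obtain ⟨n₀, hn₀⟩ := hend _ ((finBd_tw D.hS hh D.v (TG.ray_adj' hr' k)).mono hAH)
      obtain ⟨i₀, hi₀⟩ := hr2' k
      exact ⟨n₀, fun m hm => (hn₀ (max n₀ i₀) (le_max_left _ _) m hm).1 (hi₀ _ (le_max_right _ _))⟩
    · -- everything stays in a ball
      replace hw : ∀ i ≥ i₀, ∃ k ∈ K, f i * k⁻¹ ∈ N ⊓ π.ker ∧ D.S.act (h * (f i * k⁻¹) * h⁻¹) w = w := hw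
      obtain ⟨w, rfl⟩ : ∃ w' : D.S.X, w' = w := ⟨w, rfl⟩
      let B : ℕ := K.sup fun k => C.T.G.dist (C.κ w) (C.T.act (h * k * h⁻¹) (C.κ D.v))
      obtain ⟨k, hk⟩ := leaves_ball C.T.tree hΛ' (C.κ w) B
      obtain ⟨i₁, hi₁⟩ := hΛ2' k
      obtain ⟨k', hk', hs⟩ := hw (max i₀ i₁) (le_max_left _ _)
      have h1 := hk _ (hi₁ (max i₀ i₁) (le_max_right _ _))
      set i := max i₀ i₁
      have hs1 : f i * k'⁻¹ ∈ N ⊓ π.ker := hs.1
      have hs2 : D.S.act (h * (f i * k'⁻¹) * h⁻¹) w = w := hs.2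
      have hk'H : k' ∈ N ⊓ π.ker := by
        have h2 := (N ⊓ π.ker).mul_mem ((N ⊓ π.ker).inv_mem hs1) (hfH i)
        have e : (f i * k'⁻¹)⁻¹ * f i = k' := by group
        rwa [e] at h2
      have e1 : h * f i * h⁻¹ = (h * (f i * k'⁻¹) * h⁻¹) * (h * k' * h⁻¹) := by group
      have h3 : C.T.act (h * (f i * k'⁻¹) * h⁻¹) (C.κ w) = C.κ w := by
        rw [← C.κ_equi _ (hh_mem hh hs1).1, hs2]
      have h4 : C.T.G.dist (C.κ w) (C.T.act (h * f i * h⁻¹) (C.κ D.v)) =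
          C.T.G.dist (C.κ w) (C.T.act (h * k' * h⁻¹) (C.κ D.v)) := by
        rw [e1, C.T.act_mul _ (hh_mem hh hs1).1 _ (hh_mem hh hk'H).1]
        conv_lhs => rw [← h3]
        exact C.T.dist_act (hh_mem hh hs1).1 _ _
      have h5 : C.T.G.dist (C.κ w) (C.T.act (h * k' * h⁻¹) (C.κ D.v)) ≤ B :=
        Finset.le_sup (f := fun k => C.T.G.dist (C.κ w) (C.T.act (h * k * h⁻¹) (C.κ D.v))) hk'
      rw [h4] at h1
      exact absurd h1 (not_lt.2 h5)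
  · exact ⟨w, K, i₀, fun i hi => by
      obtain ⟨k, hk, hs⟩ := hw i hi
      exact ⟨k, hk, hs.1, hs.2⟩⟩

end K25

theorem case1_false (hc : Ctx π) {M : Subgroup Γ} (hM : Full π M) {Om : Set (Subgroup Γ)}
    (hOm : IsProper π.ker M Om) (hmax : ∀ Om', IsProper π.ker M Om' → FamLe Om Om' → Om' = Om) {g : G}
    (D : KData π (Mg π M g) g Om) (h1 : D.Case1) : False := by
  classical
  have hcyc := mg_cyc hM g
  have hOmN := mg_proper hOm g
  obtain ⟨C⟩ := cutTree_exists hc hcyc D.hS D.v D.hP D.hPg D.hPe.1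
  have hCs := D.cut_splitting hc hcyc hOmN C h1
  have hCr := D.cut_rel hc hcyc hOmN C
  obtain ⟨h₀, hh₀, hh₀hyp⟩ := D.cut_nontriv hc hcyc hOmN C
  have hPst : D.P ∈ D.S.stab D.v := ⟨D.hP, D.hPe.1⟩
  -- the second lift
  obtain ⟨w1, hw1, hPw1⟩ := D.k43 hc hcyc hOmN
  obtain ⟨Q₀, ⟨hQ₀, hQ₀π, hQ₀e⟩, _⟩ := D.hS.lift hw1 D.hP
  have hQ₀g : π Q₀ = g := hQ₀π.trans D.hPg
  have hQ₀P : Q₀ ≠ D.P := fun hcon => hPw1 (by rw [← hcon]; exact hQ₀e.2)
  have hQ₀st : Q₀ ∈ D.S.stab D.v := ⟨hQ₀, hQ₀e.1⟩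
  have hA : IsFactor π.ker π.ker (D.S.stab D.v ⊓ π.ker) := fac_stab hc hcyc.toLoc D.hS D.v
  set a : ℕ → Γ := fun m => D.P ^ m * (Q₀ ^ m)⁻¹ with ha
  have haA : ∀ m, a m ∈ D.S.stab D.v ⊓ π.ker := fun m =>
    Subgroup.mem_inf.2 ⟨(D.S.stab D.v).mul_mem ((D.S.stab D.v).pow_mem hPst m)
      ((D.S.stab D.v).inv_mem ((D.S.stab D.v).pow_mem hQ₀st m)), by
      rw [MonoidHom.mem_ker, ha, map_mul, map_inv, map_pow, map_pow, hQ₀g, D.hPg, mul_inv_cancel]⟩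
  have hattr : ∀ k : ℤ, ∃ n₀ : ℕ, ∀ n ≥ n₀,
      D.U.Beyond (D.L k) (D.L (k + 1)) (D.U.act (a n) (D.L 0)) := by
    rcases attr_or_comm hc hcyc D hQ₀st hQ₀g (D.L 0) with h | h
    · exact h
    · exfalso
      apply hQ₀P
      have hmem : Q₀ * D.P⁻¹ ∈ D.A := Subgroup.mem_inf.2 ⟨(D.S.stab D.v).mul_mem hQ₀st
        ((D.S.stab D.v).inv_mem hPst), by
          rw [MonoidHom.mem_ker, map_mul, map_inv, hQ₀g, D.hPg, mul_inv_cancel]⟩
      have h2 := h1 _ hmem (by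
        rw [inv_mul_cancel_right, ← mul_assoc, ← h, mul_inv_cancel_right])
      exact mul_inv_eq_one.1 h2
  -- the geodesic ray of `A`
  have hle : D.S.stab D.v ⊓ π.ker ≤ D.S.stab D.v := inf_le_left
  have hUs : (D.U.res hle).IsSplitting π.ker := D.hU.res hle (by rw [inf_assoc, inf_idem])
  have hray : D.U.IsRay (fun k : ℕ => D.L k) := by
    intro i j
    show D.U.G.dist (D.L i) (D.L j) = _
    rw [D.hL.2.1]
  obtain ⟨f, hfA, ⟨S₀, hinc⟩, hgeo, hend⟩ := ray_of_attr hc hA (D.U.res hle) hUs (L := fun k : ℕ => D.L k)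
    hray (D.L 0) a haA (fun k => by
      obtain ⟨n₀, hn₀⟩ := hattr k
      exact ⟨n₀, fun n hn => hn₀ n hn⟩)
  have hatt : ∀ w1, D.S.G.Adj D.v w1 → ∀ Q ∈ Mg π M g, π Q = g → D.S.FixE Q D.v w1 → Q ≠ D.P →
      SameEnd (D.S.stab D.v ⊓ π.ker) (fun n => D.P ^ n * (Q ^ n)⁻¹) a := fun w1 _ Q hQ hQg hQe hne =>
    attraction1 hc hcyc D h1 ⟨hQ, hQe.1⟩ hQg hQ₀st hQ₀g hne hQ₀P
  -- (ii) for every `h` in `M`
  have hnorm : ∀ h ∈ M, MulAut.conj h • (Mg π M g ⊓ π.ker) = Mg π M g ⊓ π.ker := by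
    intro h hh
    rw [mgK_inf]
    ext x
    rw [Subgroup.mem_pointwise_smul_iff_inv_smul_mem, ← map_inv, MulAut.smul_def, MulAut.conj_apply, inv_inv]
    constructor
    · intro hx
      have h2 := K23.conj_mem_inf (π := π) hh hx
      have e : h * (h⁻¹ * x * h) * h⁻¹ = x := by group
      rwa [e] at h2
    · intro hx
      have h2 := K23.conj_mem_inf (π := π) (M.inv_mem hh) hx
      rwa [inv_inv] at h2
  have hstay : ∀ h ∈ M, ∃ (w : C.T.X) (K : Finset Γ) (i₀ : ℕ), ∀ i ≥ i₀, ∃ k ∈ K,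
      f i * k⁻¹ ∈ Mg π M g ⊓ π.ker ∧ C.T.act (h * (f i * k⁻¹) * h⁻¹) w = w := fun h hh =>
    K25.stay hc hcyc D C hCs hfA S₀ hinc hgeo hend haA hatt (hnorm h hh)
  -- the meet
  have hleM : M ⊓ π.ker ≤ Mg π M g := by
    rw [← mgK_inf (π := π) g]
    exact inf_le_left
  have hT's : (C.T.res hleM).IsSplitting π.ker := hCs.res hleM (by rw [mgK_inf, inf_assoc, inf_idem])
  have hT'n : (C.T.res hleM).Nontriv π.ker := by
    intro x
    refine ⟨h₀, ?_, hh₀hyp x⟩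
    rw [inf_assoc, inf_idem, ← mgK_inf (π := π) g]
    exact hh₀
  obtain ⟨E, Om', hEM, _, hOm', hchar, hle'⟩ := meet_all hc hM.toLoc (C.T.res hleM) hT's hT'n
  have hOmeq : Om' = Om := hmax Om' hOm' (hle' Om hOm.periph (fun B hB => hCr B hB))
  subst hOmeq
  -- choose the data for `e` in `E`
  have : Nonempty C.T.X := ⟨C.κ D.v⟩
  choose! w K i₀ hw using hstay
  let I₀ : ℕ := E.sup i₀
  have hw' : ∀ i : ℕ, ∀ e : Γ, ∃ k, e ∈ E → I₀ ≤ i → k ∈ K e ∧ f i * k⁻¹ ∈ Mg π M g ⊓ π.ker ∧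
      C.T.act (e * (f i * k⁻¹) * e⁻¹) (w e) = w e := by
    intro i e
    by_cases he : e ∈ E ∧ I₀ ≤ i
    · obtain ⟨k, hk⟩ := hw e (hEM e he.1) i (le_trans (Finset.le_sup he.1) he.2)
      exact ⟨k, fun _ _ => hk⟩
    · exact ⟨1, fun h2 h3 => absurd ⟨h2, h3⟩ he⟩
  choose κ hκ using hw'
  -- pigeonhole
  obtain ⟨kk, hkk⟩ : ∃ kk : (E → Γ), {i : ℕ | I₀ ≤ i ∧ (fun e : E => κ i e) = kk}.Infinite := by
    by_contra hcon
    rw [not_exists] at hcon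
    have hfin : (Set.Ici I₀).Finite := by
      let PK : Finset (E → Γ) := Fintype.piFinset fun e : E => K e
      have hsub : Set.Ici I₀ ⊆ ⋃ kk ∈ (PK : Set (E → Γ)), {i : ℕ | I₀ ≤ i ∧ (fun e : E => κ i e) = kk} := by
        intro i hi
        refine Set.mem_biUnion (x := fun e : E => κ i e) ?_ ⟨hi, rfl⟩
        rw [Finset.mem_coe, Fintype.mem_piFinset]
        intro e
        exact (hκ i e e.2 hi).1
      refine Set.Finite.subset (Set.Finite.biUnion PK.finite_toSet fun kk _ => ?_) hsub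
      exact Set.not_infinite.1 (hcon kk)
    exact (Set.Ici_infinite I₀) hfin
  set I : Set ℕ := {i : ℕ | I₀ ≤ i ∧ (fun e : E => κ i e) = kk} with hI
  obtain ⟨j, hj⟩ := hkk.nonempty
  have hz : ∀ i ∈ I, ∀ e ∈ E, e * (f i * (f j)⁻¹) * e⁻¹ ∈ (C.T.res hleM).stab (w e) := by
    intro i hi e he
    have hκe : κ i e = κ j e := by
      have h2 : (fun e : E => κ i e) = fun e : E => κ j e := hi.2.trans hj.2.symm
      exact congrFun h2 ⟨e, he⟩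
    obtain ⟨_, h3, h4⟩ := hκ i e he hi.1
    obtain ⟨_, h5, h6⟩ := hκ j e he hj.1
    rw [hκe] at h3 h4
    have hne := hnorm e (hEM e he)
    have h3' := hh_mem hne h3
    have h5' := hh_mem hne h5
    have e1 : e * (f i * (f j)⁻¹) * e⁻¹ = (e * (f i * (κ j e)⁻¹) * e⁻¹) * (e * (f j * (κ j e)⁻¹) * e⁻¹)⁻¹ := by
      group
    rw [e1]
    refine ⟨?_, ?_⟩
    · rw [mgK_inf] at h3' h5'
      exact (M ⊓ π.ker).mul_mem h3' ((M ⊓ π.ker).inv_mem h5')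
    · show C.T.act _ (w e) = w e
      rw [C.T.act_mul _ h3'.1 _ ((Mg π M g).inv_mem h5'.1)]
      have h7 : C.T.act (e * (f j * (κ j e)⁻¹) * e⁻¹)⁻¹ (w e) = w e := by
        conv_lhs => rw [← h6]
        exact C.T.act_inv_act h5'.1 _
      rw [h7, h4]
  set X : Subgroup Γ := K23.omS (C.T.res hleM) E w with hX
  have hzX : ∀ i ∈ I, f i * (f j)⁻¹ ∈ X := fun i hi => K23.mem_omS.2 (hz i hi)
  have hzA : ∀ i, f i * (f j)⁻¹ ∈ D.S.stab D.v ⊓ π.ker := fun i =>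
    (D.S.stab D.v ⊓ π.ker).mul_mem (hfA i) ((D.S.stab D.v ⊓ π.ker).inv_mem (hfA j))
  -- `X ⊓ A ≠ ⊥`
  have hXA : X ⊓ (D.S.stab D.v ⊓ π.ker) ≠ ⊥ := by
    intro hbot
    obtain ⟨c, hcc⟩ := hgeo 1
    obtain ⟨i, hi, hic⟩ := hkk.exists_gt (j + c)
    have h2 : f i * (f j)⁻¹ ∈ X ⊓ (D.S.stab D.v ⊓ π.ker) := ⟨hzX i hi, hzA i⟩
    rw [hbot, Subgroup.mem_bot] at h2
    have h3 : (f j)⁻¹ * f i = 1 := by
      rw [mul_inv_eq_one.1 h2, inv_mul_cancel]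
    have := hcc j i h3
    omega
  have hXne : X ≠ ⊥ := by
    intro hbot
    apply hXA
    rw [hbot, bot_inf_eq]
  have hXOm : X ∈ Om' := (hchar X).2 ⟨hXne, w, fun z => K23.mem_omS⟩
  obtain ⟨u, hu⟩ := D.hUrel (X ⊓ (D.S.stab D.v ⊓ π.ker)) ⟨hXA, X, hXOm, rfl⟩
  -- `f i u₀` leaves every ball
  obtain ⟨k, hk⟩ := K25.leaves_ball D.U.tree hray u (D.U.G.dist u (D.U.act (f j) (D.L 0)))
  have hbd : FinBd (D.S.stab D.v ⊓ π.ker) {x | D.U.Beyond (D.L k) (D.L (k + 1)) (D.U.act x (D.L 0))} :=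
    bd_finite (D.U.res hle) (fun x hx y z hyz hy hz' => hUs.free x ⟨hx, hx.2⟩ y z hyz hy hz') (D.L 0)
      (TG.ray_adj' hray k)
  obtain ⟨n₀, hn₀⟩ := hend _ hbd
  obtain ⟨m₀, hm₀⟩ := hattr k
  obtain ⟨i, hi, hin₀⟩ := hkk.exists_gt n₀
  have h2 : D.U.Beyond (D.L k) (D.L (k + 1)) (D.U.act (f i) (D.L 0)) :=
    (hn₀ i hin₀.le (max n₀ m₀) (le_max_left _ _)).2 (hm₀ _ (le_max_right _ _))
  have h3 := hk _ h2
  have h4 : D.U.act (f i * (f j)⁻¹) u = u := hu _ ⟨hzX i hi, hzA i⟩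
  have h5 : D.U.G.dist u (D.U.act (f i) (D.L 0)) = D.U.G.dist u (D.U.act (f j) (D.L 0)) := by
    have e1 : f i = (f i * (f j)⁻¹) * f j := by group
    conv_lhs => rw [e1, D.U.act_mul _ (hzA i).1 _ (hfA j).1, ← h4]
    exact D.U.dist_act (hzA i).1 _ _
  rw [h5] at h3
  exact lt_irrefl _ h3

end Pool.Agent.Lib.MP_6567fb_al
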