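import Pool.Agent.Lib.MP_6567fb_al.K16b
import Pool.Agent.Lib.MP_6567fb_al.K19
import Pool.Agent.Lib.MP_6567fb_al.K24
import Pool.Agent.Lib.MP_6567fb_al.K10
import Pool.Agent.Lib.MP_6567fb_al.K12

/-!
# MP_6567fb_al, module K26a

K7.2, claim A: h y h⁻¹ is elliptic in T_y := C.T for all h in M.  Otherwise (K11, I1) h y h⁻¹ has an axis Lx in S with a good turn, so infinitely many in both directions (translates by powers; GoodTurn is
invariant under M ⊓ π.ker and symmetric).  growth_lemma (K19) for the group Mg π M g (K24), a true m := y^m, a false m := (y⁻¹)^m, r true k := Lx (k + const), r false k := Lx (-k + const), hatt: attraction2 (K16b);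
hin: (h y h⁻¹)^m v tends to the positive end of Lx, its inverse powers to the negative end.
-/

set_option autoImplicit false

open scoped Pointwise

namespace Pool.Agent.Lib.MP_6567fb_al

open MTree
variable {Γ G : Type} [Group Γ] [Group G] {π : Γ →* G}

namespace K26aux

theorem zpow_axis {M : Subgroup Γ} (S : MTree M) {z : Γ} (hz : z ∈ M) {l : ℕ} {L : ℤ → S.X}
    (hL : S.IsAxis z l L) (n i : ℤ) : S.act (z ^ n) (L i) = L (i + n * l) := by
  have hnat : ∀ (n : ℕ) (i : ℤ), S.act (z ^ n) (L i) = L (i + n * l) := by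
    intro n
    induction n with
    | zero => intro i; simp [S.act_one]
    | succ n ih =>
      intro i
      rw [pow_succ, S.act_mul _ (M.pow_mem hz n) _ hz, hL.2.2, ih]
      congr 1
      push_cast
      ring
  rcases Int.eq_nat_or_neg n with ⟨m, rfl | rfl⟩
  · rw [zpow_natCast]
    exact hnat m i
  · rw [zpow_neg, zpow_natCast]
    have h1 := hnat m (i + -(m : ℤ) * l)
    have h2 : i + -(m : ℤ) * l + m * l = i := by ring
    rw [h2] at h1
    rw [← h1, S.act_inv_act (M.pow_mem hz m)]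

theorem goodTurn_act {M : Subgroup Γ} {S : MTree M} {v : S.X} {P : Γ} (hP : P ∈ M) {a b c : S.X}
    (h : GoodTurn π S v P a b c) {m : Γ} (hm : m ∈ M ⊓ π.ker) :
    GoodTurn π S v P (S.act m a) (S.act m b) (S.act m c) := by
  obtain ⟨x, hx, hb, hor⟩ := h
  have hxP : x * P * x⁻¹ ∈ M := M.mul_mem (M.mul_mem hx.1 hP) (M.inv_mem hx.1)
  have key : ∀ p, S.act (m * x * P * (m * x)⁻¹) (S.act m p) = S.act m (S.act (x * P * x⁻¹) p) := by
    intro p
    have e : m * x * P * (m * x)⁻¹ = m * (x * P * x⁻¹) * m⁻¹ := by group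
    rw [e, S.act_mul _ (M.mul_mem hm.1 hxP) _ (M.inv_mem hm.1), S.act_inv_act hm.1,
      S.act_mul _ hm.1 _ hxP]
  refine ⟨m * x, (M ⊓ π.ker).mul_mem hm hx, ?_, ?_⟩
  · rw [hb, S.act_mul _ hm.1 _ hx.1]
  · rw [key, key]
    rcases hor with ⟨h1, h2⟩ | ⟨h1, h2⟩
    · left
      exact ⟨by rw [h1], fun h3 => h2 (S.act_inj hm.1 h3)⟩
    · right
      exact ⟨by rw [h1], fun h3 => h2 (S.act_inj hm.1 h3)⟩

theorem goodTurn_symm {M : Subgroup Γ} {S : MTree M} {v : S.X} {P : Γ} {a b c : S.X}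
    (h : GoodTurn π S v P a b c) : GoodTurn π S v P c b a := by
  obtain ⟨x, hx, hb, hor⟩ := h
  exact ⟨x, hx, hb, hor.symm⟩

end K26aux

open K26aux

theorem all_elliptic (hc : Ctx π) {M : Subgroup Γ} (hM : Full π M) {Om : Set (Subgroup Γ)}
    (hOm : IsProper π.ker M Om) {g : G} (D : KData π (Mg π M g) g Om) {y R : Γ} {k : ℤ}
    (h2 : D.Case2 y R k) (C : CutTree D.S D.v D.P) {h : Γ} (hh : h ∈ M) : ¬ C.T.Hyp (h * y * h⁻¹) := by
  intro hyp
  have hcyc : Cyc π (Mg π M g) g := mg_cyc hM g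
  have hK : Mg π M g ⊓ π.ker = M ⊓ π.ker := mgK_inf g
  have hyA : y ∈ D.S.stab D.v ⊓ π.ker := h2.yA
  have hyK : y ∈ M ⊓ π.ker := hK ▸ (⟨hyA.1.1, hyA.2⟩ : y ∈ Mg π M g ⊓ π.ker)
  set z : Γ := h * y * h⁻¹ with hz
  have hzK : z ∈ Mg π M g ⊓ π.ker := by
    rw [hK]
    exact ⟨M.mul_mem (M.mul_mem hh hyK.1) (M.inv_mem hh), π.normal_ker.conj_mem y hyK.2 h⟩
  obtain ⟨l, L, hL, j, hj⟩ := C.good_of_hyp hc hcyc D.hS D.hP D.hPg D.hPe.1 hzK.1 hyp
  have hl : 0 < l := hL.1
  have hline : D.S.IsLine L := hL.2.1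
  have hzn : ∀ n : ℤ, z ^ n ∈ Mg π M g ⊓ π.ker := fun n => Subgroup.zpow_mem _ hzK n
  have hturn : ∀ n : ℤ, GoodTurn π D.S D.v D.P (L (j - 1 + n * l)) (L (j + n * l)) (L (j + 1 + n * l)) := by
    intro n
    have h3 := goodTurn_act D.hP hj (hzn n)
    rw [zpow_axis D.S hzK.1 hL, zpow_axis D.S hzK.1 hL, zpow_axis D.S hzK.1 hL] at h3
    exact h3
  -- projection of v
  obtain ⟨i, hi, -⟩ := D.S.disp hzK.1 hL D.v
  have hdist : ∀ n q : ℤ, D.S.G.dist (D.S.act (z ^ n) D.v) (L q) =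
      D.S.G.dist D.v (L i) + (i + n * l - q).natAbs := by
    intro n q
    have h3 : D.S.G.dist D.v (L i) + D.S.G.dist (L i) (L (q - n * l)) = D.S.G.dist D.v (L (q - n * l)) :=
      hi (q - n * l)
    have h4 : L q = D.S.act (z ^ n) (L (q - n * l)) := by
      rw [zpow_axis D.S hzK.1 hL]
      congr 1; ring
    rw [h4, D.S.dist_act (hzn n).1, ← h3, hline]
    congr 2
    ring
  have hpow : ∀ m : ℕ, h * y ^ m * h⁻¹ = z ^ (m : ℤ) := by
    intro m
    rw [zpow_natCast, hz, conj_pow]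
  have hpow' : ∀ m : ℕ, h * (y⁻¹) ^ m * h⁻¹ = z ^ (-(m : ℤ)) := by
    intro m
    rw [zpow_neg, zpow_natCast, hz, conj_pow]
    group
  have hbig : ∀ K : ℤ, ∃ n₀ : ℕ, ∀ n ≥ n₀, K ≤ (n : ℤ) * l := by
    intro K
    refine ⟨K.toNat, fun n hn => ?_⟩
    have h3 : K ≤ (n : ℤ) := by omega
    have h4 : (n : ℤ) * 1 ≤ n * l := mul_le_mul_of_nonneg_left (by exact_mod_cast hl) (by positivity)
    linarith
  refine growth_lemma hc hcyc D.hS D.hSmin D.hP D.hPg D.hPe.1 (h := h) ?_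
    (fun b m => if b then y ^ m else (y⁻¹) ^ m) ?_ ?_
    (fun b k => if b then L k else L (-k)) ?_ ?_ ?_
  · rw [hK]
    ext x
    rw [Subgroup.mem_pointwise_smul_iff_inv_smul_mem, ← map_inv, MulAut.smul_def, MulAut.conj_apply, inv_inv]
    constructor
    · rintro ⟨h3, h4⟩
      refine ⟨?_, ?_⟩
      · have h5 := M.mul_mem (M.mul_mem hh h3) (M.inv_mem hh)
        have h6 : h * (h⁻¹ * x * h) * h⁻¹ = x := by group
        rwa [h6] at h5
      · have h5 := π.normal_ker.conj_mem _ h4 h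
        have h6 : h * (h⁻¹ * x * h) * h⁻¹ = x := by group
        rwa [h6] at h5
    · rintro ⟨h3, h4⟩
      refine ⟨M.mul_mem (M.mul_mem (M.inv_mem hh) h3) hh, ?_⟩
      have h5 := π.normal_ker.conj_mem _ h4 h⁻¹
      rwa [inv_inv] at h5
  · intro b m
    cases b
    · exact Subgroup.pow_mem _ (Subgroup.inv_mem _ hyA) m
    · exact Subgroup.pow_mem _ hyA m
  · intro w1 _ Q hQ hQg hQf hne
    rcases attraction2 hc hcyc D h2 (Q := Q) ⟨hQ, hQf.1⟩ hQg hne with h3 | h3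
    · exact ⟨true, h3⟩
    · exact ⟨false, h3⟩
  · intro b
    cases b
    · intro p q
      show D.S.G.dist (L (-(p : ℤ))) (L (-(q : ℤ))) = _
      rw [hline]
      omega
    · intro p q
      show D.S.G.dist (L (p : ℤ)) (L (q : ℤ)) = _
      rw [hline]
  · intro b K
    cases b
    · obtain ⟨n, hn⟩ := hbig (K + j + 1)
      have hn := hn n le_rfl
      refine ⟨(n * l - j - 1).toNat, by omega, ?_⟩
      have h3 := goodTurn_symm (hturn (-n))
      show GoodTurn π D.S D.v D.P (L (-(((n * l - j - 1 : ℤ)).toNat : ℕ) : ℤ)) (L (-((((n * l - j - 1 : ℤ)).toNat + 1 : ℕ) : ℤ)))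
        (L (-((((n * l - j - 1 : ℤ)).toNat + 2 : ℕ) : ℤ)))
      have e1 : (-(((n * l - j - 1 : ℤ)).toNat : ℕ) : ℤ) = j + 1 + -n * l := by
        rw [Int.toNat_of_nonneg (by omega)]; ring
      have e2 : (-((((n * l - j - 1 : ℤ)).toNat + 1 : ℕ) : ℤ)) = j + -n * l := by
        push_cast
        rw [Int.toNat_of_nonneg (by omega)]; ring
      have e3 : (-((((n * l - j - 1 : ℤ)).toNat + 2 : ℕ) : ℤ)) = j - 1 + -n * l := by
        push_cast
        rw [Int.toNat_of_nonneg (by omega)]; ring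
      rw [e1, e2, e3]
      exact h3
    · obtain ⟨n, hn⟩ := hbig (K - j + 1)
      have hn := hn n le_rfl
      refine ⟨(j - 1 + n * l).toNat, by omega, ?_⟩
      have h3 := hturn n
      show GoodTurn π D.S D.v D.P (L ((((j - 1 + n * l : ℤ)).toNat : ℕ) : ℤ)) (L ((((j - 1 + n * l : ℤ)).toNat + 1 : ℕ) : ℤ))
        (L ((((j - 1 + n * l : ℤ)).toNat + 2 : ℕ) : ℤ))
      have e1 : ((((j - 1 + n * l : ℤ)).toNat : ℕ) : ℤ) = j - 1 + n * l := by
        rw [Int.toNat_of_nonneg (by omega)]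
      have e2 : ((((j - 1 + n * l : ℤ)).toNat + 1 : ℕ) : ℤ) = j + n * l := by
        push_cast
        rw [Int.toNat_of_nonneg (by omega)]; ring
      have e3 : ((((j - 1 + n * l : ℤ)).toNat + 2 : ℕ) : ℤ) = j + 1 + n * l := by
        push_cast
        rw [Int.toNat_of_nonneg (by omega)]; ring
      rw [e1, e2, e3]
      exact h3
  · intro b K
    cases b
    · obtain ⟨n, hn⟩ := hbig (i + K + 1)
      refine ⟨n, fun m hm => ?_⟩
      have hm := hn m hm
      show D.S.Beyond (L (-(K : ℤ))) (L (-((K + 1 : ℕ) : ℤ))) (D.S.act (h * (y⁻¹) ^ m * h⁻¹) D.v)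
      rw [hpow']
      unfold MTree.Beyond TG.Beyond
      rw [SimpleGraph.dist_comm (u := L (-((K + 1 : ℕ) : ℤ))), SimpleGraph.dist_comm (u := L (-(K : ℤ))),
        hdist, hdist]
      push_cast
      have e : -(m : ℤ) * l = -(m * l) := by ring
      rw [e]
      generalize (m : ℤ) * l = q at *
      omega
    · obtain ⟨n, hn⟩ := hbig (K + 1 - i)
      refine ⟨n, fun m hm => ?_⟩
      have hm := hn m hm
      show D.S.Beyond (L (K : ℤ)) (L ((K + 1 : ℕ) : ℤ)) (D.S.act (h * y ^ m * h⁻¹) D.v)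
      rw [hpow]
      unfold MTree.Beyond TG.Beyond
      rw [SimpleGraph.dist_comm (u := L ((K + 1 : ℕ) : ℤ)), SimpleGraph.dist_comm (u := L (K : ℤ)),
        hdist, hdist]
      push_cast
      generalize (m : ℤ) * l = q at *
      omega

end Pool.Agent.Lib.MP_6567fb_al
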