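import Pool.Agent.Lib.MP_6567fb_al.K26a
import Pool.Agent.Lib.MP_6567fb_al.K14b
import Pool.Agent.Lib.MP_6567fb_al.K12
import Pool.Agent.Lib.MP_6567fb_al.K23
import Pool.Agent.Lib.MP_6567fb_al.T14d
import Pool.Agent.Lib.MP_6567fb_al.T12

/-!
# MP_6567fb_al, module K26d

Case 2 contradicts maximality (new proof, no Grushko induction, no X2').  H := M ⊓ π.ker (= Mg π M g ⊓ π.ker), C : CutTree (K10), My := {m y m⁻¹ : m in M}.
(1) Twisted trees: for m in M the H-tree Tw := C.T with f * x = (m⁻¹ f m) x satisfies for w := m y m⁻¹ all hypotheses of cyclic_refine (K14b) with any XX ⊆ Om ∪ {zpowers u : u in My}: edge stabilisers of C.T in H are x <y> x⁻¹, x in H (cut_edge_stab, K12),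
so those of Tw are conj (m x m⁻¹) • <w>, x can be taken in H; rel Om since C.T is rel Om (cut_rel, K12) and Om is M-invariant; every u in My is elliptic (K26a, hyp or fixed vertex); no vertex fixed by H (cut_nontriv, K12).
(2) PP := {Ω : IsProper π.ker H Ω and there is an H-invariant set XX of subgroups, Om ⊆ XX ⊆ Om ∪ {zpowers u : u in My}, every D in XX, D ≠ ⊥ is inside a member of Ω, and every H-splitting rel XX is rel Ω}.  gen_family (T14d, for the group H) with XX = Om: PP is non-empty.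
periph_max: Ω in PP maximal.  For w in My: cyclic_refine with XX, T₁ = a tree for Ω gives a non-trivial splitting rel XX with w elliptic; gen_family for XX' := XX ∪ {zpowers (h w h⁻¹) : h in H} gives Ω' in PP, a tree of Ω' is rel XX so rel Ω: FamLe Ω Ω', so Ω' = Ω
and w is in a member of Ω.  So all of My is elliptic in a tree T for Ω.
(3) meet_all (K23) for T: Om' proper for M, Om ≤ Om', so Om' = Om (hmax).  For e in E: e y e⁻¹ in My fixes a vertex c e of T; X := {z : for all e in E, e z e⁻¹ in T.stab (c e)} contains y ≠ 1, so X in Om' = Om, y in X: contradiction to Case2.notB with m = 1.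
-/

set_option autoImplicit false

open scoped Pointwise

namespace Pool.Agent.Lib.MP_6567fb_al

open MTree
variable {Γ G : Type} [Group Γ] [Group G] {π : Γ →* G}

/-- transport of a tree along an equality of groups -/
theorem transport_k26 {F K K' : Subgroup Γ} (e : K = K') (T : MTree K) (hT : T.IsSplitting F) :
    ∃ T' : MTree K', T'.IsSplitting F ∧ (T.Nontriv F → T'.Nontriv F) ∧
      (∀ D : Set Γ, T.Ell D → T'.Ell D) ∧ T'.vgs F = T.vgs F := by
  subst e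
  exact ⟨T, hT, id, fun _ h => h, rfl⟩

theorem mem_zpowers_conj_k26 {m y z : Γ} :
    z ∈ Subgroup.zpowers (m * y * m⁻¹) ↔ m⁻¹ * z * m ∈ Subgroup.zpowers y := by
  simp only [Subgroup.mem_zpowers_iff]
  constructor
  · rintro ⟨n, rfl⟩
    exact ⟨n, by rw [conj_zpow]; group⟩
  · rintro ⟨n, hn⟩
    refine ⟨n, ?_⟩
    rw [conj_zpow, hn]; group

theorem mem_conj_k26 {a d : Γ} {D : Subgroup Γ} : d ∈ MulAut.conj a • D ↔ a⁻¹ * d * a ∈ D := by
  rw [Subgroup.mem_pointwise_smul_iff_inv_smul_mem, ← map_inv, MulAut.smul_def, MulAut.conj_apply,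
    inv_inv]

theorem zpowers_conj_k26 (h w : Γ) :
    MulAut.conj h • Subgroup.zpowers w = Subgroup.zpowers (h * w * h⁻¹) := by
  ext z
  rw [mem_conj_k26, mem_zpowers_conj_k26]

/-- the vertex groups of a tree are elliptic -/
theorem rel_of_le_k26 {H : Subgroup Γ} {F : Subgroup Γ} (T : MTree H) {Ω XX : Set (Subgroup Γ)}
    (hv : T.vgs F = Ω) (h : ∀ D ∈ XX, D ≠ ⊥ → ∃ B ∈ Ω, D ≤ B) : T.Rel XX := by
  intro D hD
  by_cases hb : D = ⊥
  · subst hb
    obtain ⟨x⟩ := T.tree.connected.nonempty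
    refine ⟨x, fun d hd => ?_⟩
    have hd' : d = 1 := by simpa using hd
    rw [hd', T.act_one]
  · obtain ⟨B, hB, hle⟩ := h D hD hb
    rw [← hv] at hB
    obtain ⟨-, x, rfl⟩ := hB
    exact ⟨x, fun d hd => (hle hd).1.2⟩

/-- a family elliptic in a tree is below the family of the tree -/
theorem famLe_of_rel_k26 {H : Subgroup Γ} {F : Subgroup Γ} (T : MTree H) {Ω Ω' : Set (Subgroup Γ)}
    (hv : T.vgs F = Ω') (hle : ∀ B ∈ Ω, B ≤ H ⊓ F) (hne : ∀ B ∈ Ω, B ≠ ⊥) (h : T.Rel Ω) : FamLe Ω Ω' := by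
  intro B hB
  obtain ⟨x, hx⟩ := h B hB
  have h1 : B ≤ T.stab x ⊓ F := fun b hb => ⟨⟨(hle B hB hb).1, hx b hb⟩, (hle B hB hb).2⟩
  refine ⟨T.stab x ⊓ F, ?_, h1⟩
  rw [← hv]
  refine ⟨fun h0 => hne B hB ?_, x, rfl⟩
  rw [h0] at h1
  exact le_bot_iff.mp h1

theorem case2_false (hc : Ctx π) {M : Subgroup Γ} (hM : Full π M) {Om : Set (Subgroup Γ)}
    (hOm : IsProper π.ker M Om) (hmax : ∀ Om', IsProper π.ker M Om' → FamLe Om Om' → Om' = Om) {g : G}
    (D : KData π (Mg π M g) g Om) {y R : Γ} {k : ℤ} (h2 : D.Case2 y R k) : False := by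
  classical
  have hCyc := mg_cyc hM g
  have hOg := mg_proper hOm g
  have hper : IsPeriph π.ker M Om := hOm.periph
  have hinf : Mg π M g ⊓ π.ker = M ⊓ π.ker := mgK_inf g
  have hHM : (M ⊓ π.ker) ≤ Mg π M g := by rw [← hinf]; exact inf_le_left
  have hHH : (M ⊓ π.ker) ⊓ π.ker = M ⊓ π.ker := by rw [inf_assoc, inf_idem]
  have hnorm : ∀ m ∈ M, ∀ f ∈ M ⊓ π.ker, m * f * m⁻¹ ∈ M ⊓ π.ker := fun m hm f hf =>
    ⟨M.mul_mem (M.mul_mem hm hf.1) (M.inv_mem hm), (inferInstance : π.ker.Normal).conj_mem f hf.2 m⟩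
  have hnorm' : ∀ m ∈ M, ∀ f ∈ M ⊓ π.ker, m⁻¹ * f * m ∈ M ⊓ π.ker := fun m hm f hf => by
    have := hnorm m⁻¹ (M.inv_mem hm) f hf
    rwa [inv_inv] at this
  obtain ⟨C⟩ := cutTree_exists hc hCyc D.hS D.v D.hP D.hPg D.hPe.1
  have crel := D.cut_rel hc hCyc hOg C
  obtain ⟨h0, hh0, hh0'⟩ := D.cut_nontriv hc hCyc hOg C
  have cedge := D.cut_edge_stab hc hCyc hOg C h2
  rw [hinf] at hh0
  rw [hinf] at cedge
  have cell : ∀ m ∈ M, ∃ x, C.T.act (m * y * m⁻¹) x = x := fun m hm => by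
    have := all_elliptic hc hM hOm D h2 C hm
    unfold MTree.Hyp at this
    push Not at this
    exact this
  have hyH : y ∈ M ⊓ π.ker := by
    have := h2.yA
    rw [← hinf]
    exact ⟨this.1.1, this.2⟩
  -- the set of conjugates
  set My : Set Γ := {u | ∃ m ∈ M, u = m * y * m⁻¹} with hMy
  have hMyH : ∀ u ∈ My, u ∈ M ⊓ π.ker := by
    rintro u ⟨m, hm, rfl⟩
    exact hnorm m hm y hyH
  have hMy1 : ∀ u ∈ My, u ≠ 1 := by
    rintro u ⟨m, hm, rfl⟩ h
    apply h2.y1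
    have : m * y = m := by
      have := mul_inv_eq_one.mp h
      exact this
    simpa using this
  -- twisted trees
  have key : ∀ XX : Set (Subgroup Γ), (∀ D ∈ XX, D ∈ Om ∨ ∃ u ∈ My, D = Subgroup.zpowers u) → ∀ w ∈ My,
      ∃ Y : MTree (M ⊓ π.ker), Y.NoInv ∧ (∀ x, ∃ h ∈ M ⊓ π.ker, Y.act h x ≠ x) ∧ Y.Rel XX ∧
        (∀ a b, Y.G.Adj a b → ∃ h ∈ M ⊓ π.ker, ∀ x ∈ M ⊓ π.ker, (Y.act x a = a ∧ Y.act x b = b) ↔
          x ∈ MulAut.conj h • Subgroup.zpowers w) := by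
    rintro XX hXX w ⟨m, hm, rfl⟩
    let Y : MTree (M ⊓ π.ker) :=
      { X := C.T.X
        G := C.T.G
        tree := C.T.tree
        act := fun f x => C.T.act (m⁻¹ * f * m) x
        act_one := fun x => by
          show C.T.act (m⁻¹ * 1 * m) x = x
          rw [mul_one, inv_mul_cancel]
          exact C.T.act_one x
        act_mul := fun f hf f' hf' x => by
          show C.T.act (m⁻¹ * (f * f') * m) x = C.T.act (m⁻¹ * f * m) (C.T.act (m⁻¹ * f' * m) x)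
          rw [← C.T.act_mul _ (hHM (hnorm' m hm f hf)) _ (hHM (hnorm' m hm f' hf'))]
          congr 1
          group
        act_adj := fun f hf x y h => C.T.act_adj _ (hHM (hnorm' m hm f hf)) x y h }
    refine ⟨Y, ?_, ?_, ?_, ?_⟩
    · intro f hf x z hxz h
      exact C.noInv _ (hHM (hnorm' m hm f hf)) x z hxz h
    · intro x
      refine ⟨m * h0 * m⁻¹, hnorm m hm h0 hh0, ?_⟩
      show C.T.act (m⁻¹ * (m * h0 * m⁻¹) * m) x ≠ x
      have e : m⁻¹ * (m * h0 * m⁻¹) * m = h0 := by group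
      rw [e]
      exact hh0' x
    · intro B hB
      rcases hXX B hB with hB | ⟨u, ⟨m', hm', rfl⟩, rfl⟩
      · obtain ⟨x, hx⟩ := crel _ (hOm.inv m⁻¹ (M.inv_mem hm) B hB)
        refine ⟨x, fun d hd => hx _ ?_⟩
        show m⁻¹ * d * m ∈ MulAut.conj m⁻¹ • B
        rw [mem_conj_k26]
        have e : m⁻¹⁻¹ * (m⁻¹ * d * m) * m⁻¹ = d := by group
        rw [e]
        exact hd
      · obtain ⟨x, hx⟩ := cell (m⁻¹ * m') (M.mul_mem (M.inv_mem hm) hm')
        refine ⟨x, fun d hd => ?_⟩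
        show C.T.act (m⁻¹ * d * m) x = x
        obtain ⟨n, rfl⟩ := Subgroup.mem_zpowers_iff.mp hd
        have e : m⁻¹ * (m' * y * m'⁻¹) ^ n * m = (m⁻¹ * m' * y * (m⁻¹ * m')⁻¹) ^ n := by
          rw [conj_zpow, conj_zpow]
          group
        rw [e]
        have hst : m⁻¹ * m' * y * (m⁻¹ * m')⁻¹ ∈ C.T.stab x :=
          ⟨hHM (hnorm _ (M.mul_mem (M.inv_mem hm) hm') y hyH), hx⟩
        exact ((C.T.stab x).zpow_mem hst n).2
    · intro a b hab
      obtain ⟨h, hh, hiff⟩ := cedge a b hab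
      refine ⟨m * h * m⁻¹, hnorm m hm h hh, fun x hx => ?_⟩
      show (C.T.act (m⁻¹ * x * m) a = a ∧ C.T.act (m⁻¹ * x * m) b = b) ↔ _
      rw [hiff _ (hnorm' m hm x hx), mem_conj_k26, mem_conj_k26, mem_zpowers_conj_k26]
      have e : m⁻¹ * ((m * h * m⁻¹)⁻¹ * x * (m * h * m⁻¹)) * m = h⁻¹ * (m⁻¹ * x * m) * h := by group
      rw [e]
  -- the group H
  have hlocH : Loc π (M ⊓ π.ker) := hM.toLoc.ker_t14b
  have hfacH : IsFactor π.ker π.ker (M ⊓ π.ker) := hM.toLoc.fac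
  have hneH : M ⊓ π.ker ≠ ⊥ := hM.toLoc.ne
  have hOmle : ∀ B ∈ Om, B ≤ M ⊓ π.ker := fun B hB => periph_le hper hB
  let PP : Set (Set (Subgroup Γ)) := {Ω | IsProper π.ker (M ⊓ π.ker) Ω ∧ ∃ XX : Set (Subgroup Γ),
    (∀ h ∈ M ⊓ π.ker, ∀ D ∈ XX, MulAut.conj h • D ∈ XX) ∧ Om ⊆ XX ∧
    (∀ D ∈ XX, D ∈ Om ∨ ∃ u ∈ My, D = Subgroup.zpowers u) ∧
    (∀ D ∈ XX, D ≠ ⊥ → ∃ B ∈ Ω, D ≤ B) ∧
    (∀ T : MTree ((M ⊓ π.ker) ⊓ π.ker), T.IsSplitting π.ker → T.Rel XX → T.Rel Ω)}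
  have hXle : ∀ XX : Set (Subgroup Γ), (∀ D ∈ XX, D ∈ Om ∨ ∃ u ∈ My, D = Subgroup.zpowers u) →
      ∀ D ∈ XX, D ≤ M ⊓ π.ker := by
    intro XX hXX D hD
    rcases hXX D hD with h | ⟨u, hu, rfl⟩
    · exact hOmle D h
    · rw [Subgroup.zpowers_le]
      exact hMyH u hu
  have hPPne : PP.Nonempty := by
    obtain ⟨T, hT, hTn, hTv⟩ := hOm.tree
    obtain ⟨T', hT', hn', he', hv'⟩ := transport_k26 hHH.symm T hT
    have hrel : T'.Rel Om := rel_of_le_k26 T' (hv'.trans hTv) (fun D hD _ => ⟨D, hD, le_rfl⟩)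
    obtain ⟨Ω, hΩ, h3, h4⟩ := gen_family hc hlocH Om (fun m hm D hD => hOm.inv m hm.1 D hD)
      (fun D hD => by rw [hHH]; exact hOmle D hD) T' hT' (hn' hTn) hrel
    exact ⟨Ω, hΩ, Om, fun m hm D hD => hOm.inv m hm.1 D hD, le_rfl, fun D hD => Or.inl hD, h3, h4⟩
  obtain ⟨Ω, ⟨hΩ, XX, hXinv, hXOm, hXX, hXB, hXrel⟩, hΩmax⟩ := periph_max hc hlocH PP hPPne
    (fun Ω hΩ => hΩ.1.periph)
  have hall : ∀ w ∈ My, ∃ B ∈ Ω, w ∈ B := by
    intro w hw
    obtain ⟨T₁, hT₁, hn₁, hv₁⟩ := hΩ.tree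
    obtain ⟨T₁', hT₁', hn₁', -, hv₁'⟩ := transport_k26 hHH T₁ hT₁
    have hr₁ : T₁'.Rel XX := rel_of_le_k26 T₁' (hv₁'.trans hv₁) hXB
    obtain ⟨Y, hY1, hY2, hY3, hY4⟩ := key XX hXX w hw
    obtain ⟨T, hT, hTn, hTr, x, hx⟩ := cyclic_refine hc hfacH hneH XX hXinv (hXle XX hXX) T₁' hT₁'
      (hn₁' hn₁) hr₁ (hMyH w hw) (hMy1 w hw) Y hY1 hY2 hY3 hY4
    set XX' : Set (Subgroup Γ) := XX ∪ {D | ∃ h ∈ M ⊓ π.ker, D = Subgroup.zpowers (h * w * h⁻¹)} with hX'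
    have hXX' : ∀ D ∈ XX', D ∈ Om ∨ ∃ u ∈ My, D = Subgroup.zpowers u := by
      rintro D (hD | ⟨h, hh, rfl⟩)
      · exact hXX D hD
      · obtain ⟨m, hm, rfl⟩ := hw
        exact Or.inr ⟨_, ⟨h * m, M.mul_mem hh.1 hm, rfl⟩, by congr 1; group⟩
    have hXinv' : ∀ h ∈ M ⊓ π.ker, ∀ D ∈ XX', MulAut.conj h • D ∈ XX' := by
      rintro h hh D (hD | ⟨h', hh', rfl⟩)
      · exact Or.inl (hXinv h hh D hD)
      · refine Or.inr ⟨h * h', mul_mem hh hh', ?_⟩
        rw [zpowers_conj_k26]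
        congr 1
        group
    obtain ⟨T', hT', hn', he', -⟩ := transport_k26 hHH.symm T hT
    have hrel' : T'.Rel XX' := by
      rintro D (hD | ⟨h, hh, rfl⟩)
      · exact he' _ (hTr D hD)
      · apply he'
        refine ⟨T.act h x, fun d hd => ?_⟩
        have hd' := (mem_zpowers_conj_k26.mp hd)
        have hws : w ∈ T.stab x := ⟨hMyH w hw, hx⟩
        have h5 : h⁻¹ * d * h ∈ T.stab x := (Subgroup.zpowers_le.mpr hws) hd'
        have hdM : d ∈ M ⊓ π.ker := by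
          have : d = h * (h⁻¹ * d * h) * h⁻¹ := by group
          rw [this]
          exact mul_mem (mul_mem hh h5.1) (inv_mem hh)
        rw [← T.act_mul d hdM h hh]
        have e : d * h = h * (h⁻¹ * d * h) := by group
        rw [e, T.act_mul h hh _ h5.1, h5.2]
    obtain ⟨Ω', hΩ', h3, h4⟩ := gen_family hc hlocH XX' hXinv'
      (fun D hD => by rw [hHH]; exact hXle XX' hXX' D hD) T' hT' (hn' hTn) hrel'
    have hle : FamLe Ω Ω' := by
      obtain ⟨T'', hT'', -, hv''⟩ := hΩ'.tree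
      have hr'' : T''.Rel XX := rel_of_le_k26 T'' hv'' (fun D hD hne => h3 D (Or.inl hD) hne)
      have hr3 := hXrel T'' hT'' hr''
      exact famLe_of_rel_k26 T'' hv'' (fun B hB => by
        rw [hHH]; exact periph_le hΩ.periph hB |>.trans (by rw [hHH]))
        (fun B hB => periph_ne hΩ.periph hB) hr3
    have heq : Ω' = Ω := hΩmax Ω' ⟨hΩ', XX', hXinv', fun D hD => Or.inl (hXOm hD), hXX', h3, h4⟩ hle
    have hwX : Subgroup.zpowers w ∈ XX' := Or.inr ⟨1, one_mem _, by simp⟩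
    obtain ⟨B, hB, hle'⟩ := h3 _ hwX (by
      rw [Ne, Subgroup.zpowers_eq_bot]
      exact hMy1 w hw)
    rw [heq] at hB
    exact ⟨B, hB, hle' (Subgroup.mem_zpowers w)⟩
  -- a tree of `M ⊓ ker`
  obtain ⟨T₀, hT₀, hn₀, hv₀⟩ := hΩ.tree
  obtain ⟨T, hT, hTn, -, hTv⟩ := transport_k26 hHH T₀ hT₀
  have hTn' := hTn hn₀
  have hTv' := hTv.trans hv₀
  have hTr : T.Rel XX := rel_of_le_k26 T hTv' hXB
  obtain ⟨E, Om', hE, h1E, hOm', hX, hlast⟩ := meet_all hc hM.toLoc T hT hTn'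
  have hle : FamLe Om Om' := hlast Om hper (fun B hB => hTr B (hXOm hB))
  have heq := hmax Om' hOm' hle
  have hchoice : ∀ e : Γ, ∃ x : T.X, e ∈ E → e * y * e⁻¹ ∈ T.stab x := by
    intro e
    by_cases he : e ∈ E
    · obtain ⟨B, hB, hyB⟩ := hall (e * y * e⁻¹) ⟨e, hE e he, rfl⟩
      rw [← hTv'] at hB
      obtain ⟨-, x, rfl⟩ := hB
      exact ⟨x, fun _ => hyB.1⟩
    · obtain ⟨x⟩ := T.tree.connected.nonempty
      exact ⟨x, fun h => absurd h he⟩
  choose c hcE using hchoice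
  let X : Subgroup Γ :=
    { carrier := {z | ∀ e ∈ E, e * z * e⁻¹ ∈ T.stab (c e)}
      one_mem' := fun e _ => by simp only [mul_one, mul_inv_cancel]; exact one_mem _
      mul_mem' := by
        intro a b ha hb e he
        have e1 : e * (a * b) * e⁻¹ = (e * a * e⁻¹) * (e * b * e⁻¹) := by group
        rw [e1]
        exact mul_mem (ha e he) (hb e he)
      inv_mem' := by
        intro a ha e he
        have e1 : e * a⁻¹ * e⁻¹ = (e * a * e⁻¹)⁻¹ := by group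
        rw [e1]
        exact inv_mem (ha e he) }
  have hyX : y ∈ X := fun e he => hcE e he
  have hXmem : X ∈ Om' := (hX X).mpr ⟨fun h => h2.y1 (by rw [h] at hyX; simpa using hyX), c, fun z => Iff.rfl⟩
  rw [heq] at hXmem
  exact h2.notB X hXmem 1 one_ne_zero (by rw [zpow_one]; exact hyX)

end Pool.Agent.Lib.MP_6567fb_al
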