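import Pool.Agent.Lib.MP_6567fb_al.K25
import Pool.Agent.Lib.MP_6567fb_al.K26d
import Pool.Agent.Lib.MP_6567fb_al.K24
import Pool.Agent.Lib.MP_6567fb_al.K06
import Pool.Agent.Lib.MP_6567fb_al.K07
import Pool.Agent.Lib.MP_6567fb_al.K15

/-!
# MP_6567fb_al, module K27

All elements are bounded: otherwise KData (K06 for the group Mg π M g, K24, with Theorem R = K15), case split (K07), case1_false (K25), case2_false (K26d).
-/

set_option autoImplicit false

open scoped Pointwise

namespace Pool.Agent.Lib.MP_6567fb_al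

open MTree
variable {Γ G : Type} [Group Γ] [Group G] {π : Γ →* G}

theorem all_bounded (hc : Ctx π) {M : Subgroup Γ} (hM : Full π M) {Om : Set (Subgroup Γ)}
    (hOm : IsProper π.ker M Om) (hmax : ∀ Om', IsProper π.ker M Om' → FamLe Om Om' → Om' = Om) (g : G) :
    IsBdd π (Mg π M g) Om := by
  by_contra hb
  obtain ⟨D⟩ := kdata_of_unbounded hc (mg_cyc hM g)
    (fun M' hM' _ Ω' hΩ' => thmR hc hM' hΩ') (mg_proper hOm g) hb
  rcases D.case_split hc (mg_cyc hM g) (mg_proper hOm g) with h1 | ⟨y, R, k, h2⟩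
  · exact case1_false hc hM hOm hmax D h1
  · exact case2_false hc hM hOm hmax D h2

end Pool.Agent.Lib.MP_6567fb_al
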