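import Pool.Agent.Lib.MP_6567fb_al.Defs8
import Pool.Agent.Lib.MP_6567fb_al.K00a

/-!
# MP_6567fb_al, module K30a

Omega empty: the central section.
free_lift: T : splitting of Mg π M g with trivial vertex groups (IsBdd for ∅: T.vgs = ∅), Loc.ne gives an edge (a non-trivial h in H moves some vertex).  Adjacent edges have the same lift P (the two lifts differ by an element
of H fixing the common vertex), so P acts trivially on T; h P h⁻¹ is again the lift of g fixing an edge (IsSplitting.lift), so P commutes with H.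
centre_triv: c in H commuting with H, c ≠ 1: H acts freely on a tree (periph_empty), c is hyperbolic (ell_or_axis), every h in H translates its axis (comm_axis), h -> translation is injective (free action) and
H ≅ a subgroup of ℤ, H = zpowers y: rk_one.
central_section: the lift of g commuting with H is unique by centre_triv, s g := this lift; products commute with H.
section_rk1: H = zpowers y (rk_one); s g y (s g)⁻¹ generates H so is y or y⁻¹; y⁻¹: (s g)^2 commutes with y, Ctx.roots for y and s g y (s g)⁻¹ ... : s g commutes with y (use roots for s g and y (s g) y⁻¹: their squares are equal), so y = y⁻¹, y ^ 2 = 1 = 1 ^ 2, y = 1.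
-/

set_option autoImplicit false

open scoped Pointwise

namespace Pool.Agent.Lib.MP_6567fb_al

open MTree
variable {Γ G : Type} [Group Γ] [Group G] {π : Γ →* G}

/-- vertex groups of a free splitting are trivial -/
theorem free_vertex_k30 {M : Subgroup Γ} {T : MTree M} (hv : T.vgs π.ker = ∅) (x : T.X) {h : Γ}
    (hh : h ∈ M ⊓ π.ker) (hx : T.act h x = x) : h = 1 := by
  have h1 : T.stab x ⊓ π.ker = ⊥ := by
    by_contra hne
    have : T.stab x ⊓ π.ker ∈ T.vgs π.ker := ⟨hne, x, rfl⟩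
    rw [hv] at this
    exact this
  have h2 : h ∈ T.stab x ⊓ π.ker := ⟨⟨hh.1, hx⟩, hh.2⟩
  rw [h1] at h2
  exact Subgroup.mem_bot.1 h2

/-- the lift acting trivially on a free splitting -/
theorem free_lift (hc : Ctx π) {M : Subgroup Γ} (hM : Full π M) (g : G) (hb : IsBdd π (Mg π M g) ∅) :
    ∃ P ∈ M, π P = g ∧ ∀ h ∈ M ⊓ π.ker, P * h = h * P := by
  obtain ⟨T, hT, hv, -⟩ := hb
  have hinf : Mg π M g ⊓ π.ker = M ⊓ π.ker := (hM.cyc g).2
  have hfree : ∀ (x : T.X) (h : Γ), h ∈ M ⊓ π.ker → T.act h x = x → h = 1 := fun x h hh hx =>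
    free_vertex_k30 hv x (by rw [hinf]; exact hh) hx
  -- an edge
  obtain ⟨x⟩ := T.tree.connected.nonempty
  obtain ⟨h₀, hh₀, hh₀1⟩ : ∃ h ∈ M ⊓ π.ker, h ≠ 1 := by
    by_contra hcon
    push Not at hcon
    exact hM.ne ((Subgroup.eq_bot_iff_forall _).2 hcon)
  have hne : x ≠ T.act h₀ x := fun h => hh₀1 (hfree x h₀ hh₀ h.symm)
  obtain ⟨y, ⟨hxy, -⟩, -⟩ := TG.exists_unique_next T.tree hne
  -- an element over `g`
  obtain ⟨m, hm, hmg⟩ := hM.surj g
  have hmM : m ∈ Mg π M g := ⟨hm, by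
    show π m ∈ Subgroup.zpowers g
    rw [hmg]; exact Subgroup.mem_zpowers g⟩
  obtain ⟨P, ⟨hPM, hPg, hPe⟩, -⟩ := hT.lift hxy hmM
  have hPall : ∀ z, T.act P z = z := by
    intro z
    refine TG.adj_ind T.tree.connected.preconnected (P := fun z => T.act P z = z) ?_ x z hPe.1
    intro u w huw hu
    obtain ⟨Q, ⟨hQM, hQg, hQe⟩, -⟩ := hT.lift huw hmM
    have h1 : P * Q⁻¹ ∈ M ⊓ π.ker := by
      rw [← hinf]
      refine Subgroup.mem_inf.2 ⟨mul_mem hPM (inv_mem hQM), ?_⟩
      rw [MonoidHom.mem_ker, map_mul, map_inv, hPg, hQg, mul_inv_cancel]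
    have h2 : T.act (P * Q⁻¹) u = u := by
      rw [T.act_mul _ hPM _ (inv_mem hQM)]
      have : T.act Q⁻¹ u = u := by
        have := T.act_inv_act hQM u
        rwa [hQe.1] at this
      rw [this, hu]
    have h3 := hfree u _ h1 h2
    have h4 : P = Q := mul_inv_eq_one.1 h3
    rw [h4]
    exact hQe.2
  refine ⟨P, hPM.1, by rw [hPg, hmg], fun h hh => ?_⟩
  have hhM : h ∈ Mg π M g := by
    have : h ∈ Mg π M g ⊓ π.ker := by rw [hinf]; exact hh
    exact this.1
  have h1 : P * h * P⁻¹ * h⁻¹ ∈ M ⊓ π.ker := by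
    refine mul_mem (Subgroup.mem_inf.2 ⟨mul_mem (mul_mem hPM.1 hh.1) (inv_mem hPM.1), ?_⟩) (inv_mem hh)
    exact (inferInstance : π.ker.Normal).conj_mem h hh.2 P
  have h2 : T.act (P * h * P⁻¹ * h⁻¹) x = x := by
    rw [T.act_mul _ (mul_mem (mul_mem hPM hhM) (inv_mem hPM)) _ (inv_mem hhM),
      T.act_mul _ (mul_mem hPM hhM) _ (inv_mem hPM), T.act_mul _ hPM _ hhM, hPall]
    have h3 : ∀ z, T.act P⁻¹ z = z := by
      intro z
      have := T.act_inv_act hPM z
      rwa [hPall] at this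
    rw [h3, T.act_act_inv hhM]
  have h3 := hfree x _ h1 h2
  have h4 : P * h * P⁻¹ = h := mul_inv_eq_one.1 h3
  calc P * h = P * h * P⁻¹ * P := by group
    _ = h * P := by rw [h4]

theorem centre_triv (hc : Ctx π) {M : Subgroup Γ} (hM : Full π M) (hrk : rk (M ⊓ π.ker) ≠ 1) {c : Γ}
    (hcM : c ∈ M ⊓ π.ker) (h : ∀ h ∈ M ⊓ π.ker, c * h = h * c) : c = 1 := by
  classical
  by_contra hc1
  apply hrk
  obtain ⟨T, hT, -, hv⟩ := (periph_empty hc hM.toLoc).tree
  have hfree : ∀ (x : T.X) (h : Γ), h ∈ M ⊓ π.ker → T.act h x = x → h = 1 := fun x h hh hx =>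
    free_vertex_k30 hv x ⟨hh, hh.2⟩ hx
  rcases T.ell_or_axis (hT.noInv hc) hcM with ⟨x, hx⟩ | ⟨l, L, hL⟩
  · exact absurd (hfree x c hcM hx) hc1
  · have htr : ∀ k : (M ⊓ π.ker : Subgroup Γ), ∃ t : ℤ, ∀ i, T.act k (L i) = L (i + t) := by
      rintro ⟨k, hk⟩
      exact T.comm_axis hcM hk hL (h k hk).symm
    choose t ht using htr
    have htmul : ∀ a b, t (a * b) = t a + t b := by
      intro a b
      have h1 := ht (a * b) 0
      have h2 : T.act ((a * b : (M ⊓ π.ker : Subgroup Γ)) : Γ) (L 0) = L (0 + (t b) + t a) := by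
        have e : ((a * b : (M ⊓ π.ker : Subgroup Γ)) : Γ) = (a : Γ) * (b : Γ) := rfl
        rw [e, T.act_mul _ a.2 _ b.2, ht b 0, ht a]
      rw [h1] at h2
      have := TG.line_inj hL.2.1 h2
      linarith
    let τ : (M ⊓ π.ker : Subgroup Γ) →* Multiplicative ℤ :=
      { toFun := fun a => Multiplicative.ofAdd (t a)
        map_one' := by
          have h1 := htmul 1 1
          rw [mul_one] at h1
          have : t 1 = 0 := by linarith
          rw [this]; rfl
        map_mul' := fun a b => by rw [htmul]; rfl }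
    have hinj : Function.Injective τ := by
      rw [injective_iff_map_eq_one]
      intro a ha
      have h1 : t a = 0 := ha
      have h2 := ht a 0
      rw [h1, add_zero] at h2
      exact Subtype.ext (hfree (L 0) a a.2 h2)
    have hcyc : IsCyclic (M ⊓ π.ker : Subgroup Γ) := isCyclic_of_injective τ hinj
    obtain ⟨y, hy⟩ := hcyc.exists_generator
    rw [rk_one hc hM.toLoc.fac]
    refine ⟨(y : Γ), ?_, ?_⟩
    · intro hy1
      apply hM.ne
      rw [Subgroup.eq_bot_iff_forall]
      intro z hz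
      obtain ⟨k, hk⟩ := Subgroup.mem_zpowers_iff.1 (hy ⟨z, hz⟩)
      have h2 := congrArg Subtype.val hk
      have h3 : ((y ^ k : (M ⊓ π.ker : Subgroup Γ)) : Γ) = (y : Γ) ^ k := rfl
      rw [h3, hy1, one_zpow] at h2
      exact h2.symm
    · apply le_antisymm
      · intro z hz
        obtain ⟨k, hk⟩ := Subgroup.mem_zpowers_iff.1 (hy ⟨z, hz⟩)
        have h2 := congrArg Subtype.val hk
        exact Subgroup.mem_zpowers_iff.2 ⟨k, h2⟩
      · rw [Subgroup.zpowers_le]
        exact y.2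

theorem central_section (hc : Ctx π) {M : Subgroup Γ} (hM : Full π M) (hrk : rk (M ⊓ π.ker) ≠ 1)
    (hb : ∀ g, IsBdd π (Mg π M g) ∅) :
    ∃ s : G →* Γ, SecIn π M s ∧ ∀ g, ∀ h ∈ M ⊓ π.ker, s g * h = h * s g := by
  choose P hPM hPg hPc using fun g => free_lift hc hM g (hb g)
  have huniq : ∀ a b : Γ, a ∈ M → b ∈ M → π a = π b → (∀ h ∈ M ⊓ π.ker, a * h = h * a) →
      (∀ h ∈ M ⊓ π.ker, b * h = h * b) → a = b := by
    intro a b ha hb hab h1 h2
    have h3 : a * b⁻¹ = 1 := by
      apply centre_triv hc hM hrk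
      · refine Subgroup.mem_inf.2 ⟨mul_mem ha (inv_mem hb), ?_⟩
        rw [MonoidHom.mem_ker, map_mul, map_inv, hab, mul_inv_cancel]
      · intro h hh
        have h4 : b⁻¹ * h = h * b⁻¹ := by
          rw [inv_mul_eq_iff_eq_mul, ← mul_assoc, h2 h hh, mul_assoc, mul_inv_cancel, mul_one]
        rw [mul_assoc, h4, ← mul_assoc, h1 h hh, mul_assoc]
    exact mul_inv_eq_one.1 h3
  refine ⟨⟨⟨P, ?_⟩, ?_⟩, ⟨fun g => hPg g, fun g => hPM g⟩, fun g h hh => hPc g h hh⟩
  · apply huniq _ _ (hPM 1) (one_mem _) (by rw [hPg, map_one]) (hPc 1)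
    intro h _
    rw [one_mul, mul_one]
  · intro a b
    apply huniq _ _ (hPM _) (mul_mem (hPM a) (hPM b)) (by rw [hPg, map_mul, hPg, hPg]) (hPc _)
    intro h hh
    rw [mul_assoc, hPc b h hh, ← mul_assoc, hPc a h hh, mul_assoc]

theorem section_rk1 (hc : Ctx π) {M : Subgroup Γ} (hM : Full π M) (hrk : rk (M ⊓ π.ker) = 1) {s : G →* Γ}
    (hs : SecIn π M s) : ∀ g, ∀ h ∈ M ⊓ π.ker, s g * h = h * s g := by
  obtain ⟨y, hy1, hy⟩ := (rk_one hc hM.toLoc.fac).1 hrk
  intro g h hh
  set a := s g with ha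
  have haM : a ∈ M := hs.mem g
  have hyH : y ∈ M ⊓ π.ker := by rw [hy]; exact Subgroup.mem_zpowers y
  have hnorm : ∀ m ∈ M, m * y * m⁻¹ ∈ Subgroup.zpowers y := by
    intro m hm
    rw [← hy]
    exact Subgroup.mem_inf.2 ⟨mul_mem (mul_mem hm hyH.1) (inv_mem hm),
      (inferInstance : π.ker.Normal).conj_mem y hyH.2 m⟩
  obtain ⟨k, hk⟩ := Subgroup.mem_zpowers_iff.1 (hnorm a haM)
  obtain ⟨l, hl⟩ := Subgroup.mem_zpowers_iff.1 (hnorm a⁻¹ (inv_mem haM))
  have hkl : y ^ (k * l) = y := by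
    rw [zpow_mul, hk, conj_zpow, hl]; group
  have hone : ∀ n : ℤ, y ^ n = 1 → n = 0 := by
    intro n hn
    by_contra hn0
    apply hy1
    apply hc.roots y 1 n.natAbs (Int.natAbs_pos.mpr hn0)
    rw [one_pow]
    rcases Int.natAbs_eq n with h1 | h1
    · rw [h1, zpow_natCast] at hn; exact hn
    · rw [h1, zpow_neg, zpow_natCast, inv_eq_one] at hn; exact hn
  have hkl1 : k * l = 1 := by
    have : y ^ (k * l - 1) = 1 := by
      rw [zpow_sub, hkl, zpow_one, mul_inv_cancel]
    have := hone _ this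
    linarith
  have hcomm : a * y = y * a := by
    rcases Int.eq_one_or_neg_one_of_mul_eq_one hkl1 with h1 | h1
    · rw [h1, zpow_one] at hk
      have : a * y * a⁻¹ * a = y * a := by rw [← hk]
      rw [← this]; group
    · exfalso
      rw [h1, zpow_neg, zpow_one] at hk
      -- `a y a⁻¹ = y⁻¹`
      have h2 : a * y = y⁻¹ * a := by
        have : a * y * a⁻¹ * a = y⁻¹ * a := by rw [← hk]
        rw [← this]; group
      have h3 : y * a * y⁻¹ = a := by
        apply hc.roots _ _ 2 (by norm_num)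
        have h4 : a * a * y = y * (a * a) := by
          rw [mul_assoc, h2, ← mul_assoc]
          have h5 : a * y⁻¹ = y * a := by
            have h6 : a * y⁻¹ * a⁻¹ = y := by
              have h9 : a * y⁻¹ * a⁻¹ = (a * y * a⁻¹)⁻¹ := by group
              rw [h9, ← hk, inv_inv]
            have : a * y⁻¹ * a⁻¹ * a = y * a := by rw [h6]
            rw [← this]; group
          rw [h5, mul_assoc]
        rw [conj_pow, pow_two, ← h4]; group
      have h7 : y⁻¹ = y := by
        have h8 : y * a = a * y := by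
          have : y * a * y⁻¹ * y = a * y := by rw [h3]
          rw [← this]; group
        rw [hk, ← h8]; group
      apply hy1
      apply hc.roots y 1 2 (by norm_num)
      rw [one_pow, pow_two]
      nth_rewrite 1 [← h7]
      rw [inv_mul_cancel]
  rw [hy] at hh
  obtain ⟨n, rfl⟩ := Subgroup.mem_zpowers_iff.1 hh
  exact (Commute.zpow_right (show Commute a y from hcomm) n)

end Pool.Agent.Lib.MP_6567fb_al
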