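import Pool.Agent.Lib.MP_6567fb_al.K30a

/-!
# MP_6567fb_al, module K30b

A section s with values in M commuting with H := M ⊓ ker gives a free M-splitting: T₀ : MTree H from periph_empty (IsProper π.ker M ∅, a splitting of M ⊓ ker, non-trivial), act m := T₀.act (m (s (π m))⁻¹); it is an action:
m m' (s (π (m m')))⁻¹ = [m (s π m)⁻¹] [(s π m) m' (s π m')⁻¹ (s π m)⁻¹] = [m (s π m)⁻¹] [m' (s π m')⁻¹].  (s2): m and m (s π m)⁻¹ act in the same way.
omega_empty: K30a.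
-/

set_option autoImplicit false

open scoped Pointwise

namespace Pool.Agent.Lib.MP_6567fb_al

open MTree
variable {Γ G : Type} [Group Γ] [Group G] {π : Γ →* G}

theorem free_split_of_section (hc : Ctx π) {M : Subgroup Γ} (hM : Full π M) {s : G →* Γ}
    (hs : SecIn π M s) (hcm : ∀ g, ∀ h ∈ M ⊓ π.ker, s g * h = h * s g) :
    ∃ T : MTree M, T.IsSplitting π.ker ∧ T.Nontriv π.ker := by
  obtain ⟨T₀, hT, hn, -⟩ := (periph_empty hc hM.toLoc).tree
  have hmem : ∀ m ∈ M, m * (s (π m))⁻¹ ∈ M ⊓ π.ker := by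
    intro m hm
    refine Subgroup.mem_inf.2 ⟨mul_mem hm (inv_mem (hs.mem _)), ?_⟩
    rw [MonoidHom.mem_ker, map_mul, map_inv, hs.sec (π m), mul_inv_cancel]
  have hmul : ∀ m ∈ M, ∀ m' ∈ M, m * m' * (s (π (m * m')))⁻¹ =
      (m * (s (π m))⁻¹) * (m' * (s (π m'))⁻¹) := by
    intro m _ m' hm'
    have h1 := hcm (π m) _ (hmem m' hm')
    have h2 : (s (π m))⁻¹ * (m' * (s (π m'))⁻¹) = (m' * (s (π m'))⁻¹) * (s (π m))⁻¹ := by
      rw [inv_mul_eq_iff_eq_mul, ← mul_assoc, h1, mul_assoc, mul_inv_cancel, mul_one]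
    rw [map_mul, map_mul, mul_inv_rev]
    calc m * m' * ((s (π m'))⁻¹ * (s (π m))⁻¹) = m * ((m' * (s (π m'))⁻¹) * (s (π m))⁻¹) := by group
      _ = m * ((s (π m))⁻¹ * (m' * (s (π m'))⁻¹)) := by rw [h2]
      _ = _ := by group
  have hker : ∀ h ∈ M ⊓ π.ker, h * (s (π h))⁻¹ = h := by
    intro h hh
    have : π h = 1 := hh.2
    rw [this, map_one, inv_one, mul_one]
  let T : MTree M :=
    { X := T₀.X
      G := T₀.G
      tree := T₀.tree
      act := fun m x => T₀.act (m * (s (π m))⁻¹) x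
      act_one := fun x => by
        show T₀.act (1 * (s (π 1))⁻¹) x = x
        rw [hker 1 (one_mem _)]
        exact T₀.act_one x
      act_mul := fun m hm m' hm' x => by
        show T₀.act (m * m' * (s (π (m * m')))⁻¹) x =
          T₀.act (m * (s (π m))⁻¹) (T₀.act (m' * (s (π m'))⁻¹) x)
        rw [hmul m hm m' hm']
        exact T₀.act_mul _ (hmem m hm) _ (hmem m' hm') x
      act_adj := fun m hm x y h => T₀.act_adj _ (hmem m hm) x y h }
  have hact : ∀ h ∈ M ⊓ π.ker, ∀ x, T.act h x = T₀.act h x := by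
    intro h hh x
    show T₀.act (h * (s (π h))⁻¹) x = T₀.act h x
    rw [hker h hh]
  refine ⟨T, ⟨?_, ?_, ?_⟩, ?_⟩
  · intro h hh x y hxy hx hy
    rw [hact h hh] at hx hy
    exact hT.free h ⟨hh, hh.2⟩ x y hxy hx hy
  · intro m hm x y _
    exact ⟨m * (s (π m))⁻¹, hmem m hm, hact _ (hmem m hm) x, hact _ (hmem m hm) y⟩
  · obtain ⟨S, hS⟩ := hT.cocpt
    refine ⟨S, fun x y hxy => ?_⟩
    obtain ⟨h, hh, hhS⟩ := hS x y hxy
    refine ⟨h, hh.1, ?_⟩
    rw [hact h hh.1, hact h hh.1]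
    exact hhS
  · intro x
    obtain ⟨h, hh, hne⟩ := hn x
    refine ⟨h, hh.1, ?_⟩
    rw [hact h hh.1]
    exact hne

theorem omega_empty (hc : Ctx π) {M : Subgroup Γ} (hM : Full π M)
    (hrk : rk (M ⊓ π.ker) ≠ 1 ∨ ∃ s : G →* Γ, SecIn π M s) (hb : ∀ g, IsBdd π (Mg π M g) ∅) :
    ∃ T : MTree M, T.IsSplitting π.ker ∧ T.Nontriv π.ker := by
  by_cases h1 : rk (M ⊓ π.ker) = 1
  · rcases hrk with h | ⟨s, hs⟩
    · exact absurd h1 h
    · exact free_split_of_section hc hM hs (section_rk1 hc hM h1 hs)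
  · obtain ⟨s, hs, hcm⟩ := central_section hc hM h1 hb
    exact free_split_of_section hc hM hs hcm

end Pool.Agent.Lib.MP_6567fb_al
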