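import Pool.Agent.Lib.MP_6567fb_al.Defs8
import Pool.Agent.Lib.MP_6567fb_al.T2c

/-!
# MP_6567fb_al, module K31a

Equivariant retraction of a tree T onto an invariant set A of vertices, when the vertices outside A have trivial H-stabiliser (H := M ⊓ F).
d x := distance of x from A (sInf).  For x ∉ A there is a neighbour with smaller d (next vertex on the way to a nearest point).  Choose a representative x₀ of every H-orbit of vertices outside A and such a neighbour y₀ of x₀;
pick (h x₀) := h y₀ (well defined: the stabiliser of x₀ is trivial), pick := id on A.  pick is H-equivariant; it is M-equivariant: for m in M there is h in H with h x = m x, h (pick x) = m (pick x) (horb), so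
pick (m x) = pick (h x) = h (pick x) = m (pick x).  d (pick x) + 1 = d x for x ∉ A.  ρ x := pick^[d x] x.  The points x, pick x, pick² x, ..., ρ x form a geodesic (dist x (ρ x) >= d x = number of steps), so every point of [x, ρ x]
is some pick^[i] x, i <= d x (btw_point_unique), and ρ of it is ρ x.
-/

set_option autoImplicit false

open scoped Pointwise

namespace Pool.Agent.Lib.MP_6567fb_al

open MTree
variable {Γ : Type} [Group Γ]

/-- distance from a set -/
noncomputable def MTree.dA {M : Subgroup Γ} (T : MTree M) (A : Set T.X) (x : T.X) : ℕ :=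
  sInf {k | ∃ a ∈ A, T.G.dist x a = k}

section
variable {M : Subgroup Γ} (T : MTree M) {A : Set T.X}

theorem dA_exists (hA : A.Nonempty) (x : T.X) : ∃ a ∈ A, T.G.dist x a = T.dA A x := by
  obtain ⟨a, ha⟩ := hA
  exact Nat.sInf_mem (s := {k | ∃ a ∈ A, T.G.dist x a = k}) ⟨_, a, ha, rfl⟩

theorem dA_le {x a : T.X} (ha : a ∈ A) : T.dA A x ≤ T.G.dist x a :=
  Nat.sInf_le ⟨a, ha, rfl⟩

theorem dA_zero (hA : A.Nonempty) {x : T.X} (h : T.dA A x = 0) : x ∈ A := by
  obtain ⟨a, ha, hd⟩ := dA_exists T hA x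
  rw [h] at hd
  rw [TG.dist_zero T.tree hd]
  exact ha

theorem dA_of_mem {x : T.X} (h : x ∈ A) : T.dA A x = 0 := by
  have := dA_le T (x := x) h
  rw [SimpleGraph.dist_self] at this
  omega

theorem dA_act (hA : A.Nonempty) (hinv : ∀ m ∈ M, ∀ x ∈ A, T.act m x ∈ A) {m : Γ} (hm : m ∈ M)
    (x : T.X) : T.dA A (T.act m x) = T.dA A x := by
  apply le_antisymm
  · obtain ⟨a, ha, hd⟩ := dA_exists T hA x
    rw [← hd, ← T.dist_act hm x a]
    exact dA_le T (hinv m hm a ha)
  · obtain ⟨a, ha, hd⟩ := dA_exists T hA (T.act m x)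
    rw [← hd]
    have h1 := dA_le T (x := x) (hinv m⁻¹ (M.inv_mem hm) a ha)
    have h2 := T.dist_act hm x (T.act m⁻¹ a)
    rw [T.act_act_inv hm] at h2
    omega

theorem dA_next (hA : A.Nonempty) {x : T.X} (hx : x ∉ A) :
    ∃ y, T.G.Adj x y ∧ T.dA A y + 1 = T.dA A x := by
  obtain ⟨a, ha, hd⟩ := dA_exists T hA x
  have hxa : x ≠ a := by
    rintro rfl
    exact hx ha
  obtain ⟨y, hy, hya⟩ := TG.exists_next T.tree hxa
  refine ⟨y, hy, ?_⟩
  have h1 := dA_le T (x := y) ha
  obtain ⟨b, hb, hbd⟩ := dA_exists T hA y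
  have h2 := dA_le T (x := x) hb
  have h3 := TG.dist_tri T.tree x y b
  have h4 := TG.dist_eq_one hy
  omega

end

variable {M F : Subgroup Γ}

/-- equivariant choice of a neighbour which is nearer to `A` -/
theorem pick_exists (T : MTree M)
    (horb : ∀ m ∈ M, ∀ x y, T.G.Adj x y → ∃ h ∈ M ⊓ F, T.act h x = T.act m x ∧ T.act h y = T.act m y)
    (A : Set T.X) (hA : A.Nonempty) (hinv : ∀ m ∈ M, ∀ x ∈ A, T.act m x ∈ A)
    (htriv : ∀ h ∈ M ⊓ F, ∀ x, x ∉ A → T.act h x = x → h = 1) :
    ∃ pick : T.X → T.X, (∀ x ∈ A, pick x = x) ∧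
      (∀ x, x ∉ A → T.G.Adj x (pick x) ∧ T.dA A (pick x) + 1 = T.dA A x) ∧
      ∀ m ∈ M, ∀ x, pick (T.act m x) = T.act m (pick x) := by
  classical
  -- representatives of the orbits of `H = M ⊓ F`
  let st : Setoid T.X :=
    { r := fun x y => ∃ h ∈ M ⊓ F, T.act h x = y
      iseqv :=
        { refl := fun x => ⟨1, (M ⊓ F).one_mem, T.act_one x⟩
          symm := by
            rintro x y ⟨h, hh, rfl⟩
            exact ⟨h⁻¹, (M ⊓ F).inv_mem hh, T.act_inv_act hh.1 x⟩
          trans := by
            rintro x y z ⟨h, hh, rfl⟩ ⟨h', hh', rfl⟩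
            exact ⟨h' * h, (M ⊓ F).mul_mem hh' hh, T.act_mul _ hh'.1 _ hh.1 x⟩ } }
  let rep : T.X → T.X := fun x => (Quotient.mk st x).out
  have hrep : ∀ x, ∃ h ∈ M ⊓ F, T.act h (rep x) = x := fun x =>
    Quotient.exact (Quotient.out_eq (Quotient.mk st x))
  have hrep_eq : ∀ h ∈ M ⊓ F, ∀ x, rep (T.act h x) = rep x := by
    intro h hh x
    have : Quotient.mk st (T.act h x) = Quotient.mk st x :=
      (Quotient.sound (s := st) ⟨h, hh, rfl⟩ : Quotient.mk st x = Quotient.mk st (T.act h x)).symm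
    change (Quotient.mk st (T.act h x)).out = (Quotient.mk st x).out
    rw [this]
  choose k hkM hk using hrep
  choose nb hnb using fun (x : {x // x ∉ A}) => dA_next T hA x.2
  have hrepA : ∀ x, x ∉ A → rep x ∉ A := by
    intro x hx hr
    apply hx
    rw [← hk x]
    exact hinv _ (hkM x).1 _ hr
  let pick : T.X → T.X := fun x => if h : x ∈ A then x else T.act (k x) (nb ⟨rep x, hrepA x h⟩)
  have hpickA : ∀ x ∈ A, pick x = x := fun x hx => dif_pos hx
  have hpick : ∀ x (h : x ∉ A), pick x = T.act (k x) (nb ⟨rep x, hrepA x h⟩) :=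
    fun x h => dif_neg h
  have hadj : ∀ x, x ∉ A → T.G.Adj x (pick x) ∧ T.dA A (pick x) + 1 = T.dA A x := by
    intro x hx
    rw [hpick x hx]
    have h1 := hnb ⟨rep x, hrepA x hx⟩
    refine ⟨?_, ?_⟩
    · have h2 := T.act_adj (k x) (hkM x).1 _ _ h1.1
      have h3 : T.act (k x) (rep x) = x := hk x
      change T.G.Adj (T.act (k x) (rep x)) _ at h2
      rw [h3] at h2
      exact h2
    · rw [dA_act T hA hinv (hkM x).1, h1.2]
      change T.dA A (rep x) = _
      conv_rhs => rw [← hk x, dA_act T hA hinv (hkM x).1]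
  have hH : ∀ h ∈ M ⊓ F, ∀ x, pick (T.act h x) = T.act h (pick x) := by
    intro h hh x
    by_cases hx : x ∈ A
    · rw [hpickA x hx, hpickA _ (hinv h hh.1 x hx)]
    · have hx' : T.act h x ∉ A := by
        intro hc
        apply hx
        have := hinv h⁻¹ (M.inv_mem hh.1) _ hc
        rwa [T.act_inv_act hh.1] at this
      have hre := hrep_eq h hh x
      have e : (⟨rep (T.act h x), hrepA _ hx'⟩ : {x // x ∉ A}) = ⟨rep x, hrepA x hx⟩ :=
        Subtype.ext hre
      rw [hpick x hx, hpick _ hx', e]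
      -- the two group elements agree
      have h1 : T.act (k (T.act h x)) (rep x) = T.act h x := by
        rw [← hre]; exact hk _
      have h2 : T.act (h * k x) (rep x) = T.act h x := by
        rw [T.act_mul _ hh.1 _ (hkM x).1, hk x]
      have h3 : k (T.act h x) = h * k x := by
        have h4 : T.act ((h * k x)⁻¹ * k (T.act h x)) (rep x) = rep x := by
          rw [T.act_mul _ (M.inv_mem (M.mul_mem hh.1 (hkM x).1)) _ (hkM _).1, h1, ← h2,
            T.act_inv_act (M.mul_mem hh.1 (hkM x).1)]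
        have h5 := htriv _ ((M ⊓ F).mul_mem ((M ⊓ F).inv_mem ((M ⊓ F).mul_mem hh (hkM x))) (hkM _))
          (rep x) (hrepA x hx) h4
        exact (inv_mul_eq_one.1 h5).symm
      rw [h3, T.act_mul _ hh.1 _ (hkM x).1]
  refine ⟨pick, hpickA, hadj, ?_⟩
  intro m hm x
  by_cases hx : x ∈ A
  · rw [hpickA x hx, hpickA _ (hinv m hm x hx)]
  · obtain ⟨h, hh, h1, h2⟩ := horb m hm x (pick x) (hadj x hx).1
    rw [← h1, hH h hh x, h2]

theorem retract_exists {M F : Subgroup Γ} (T : MTree M)
    (horb : ∀ m ∈ M, ∀ x y, T.G.Adj x y → ∃ h ∈ M ⊓ F, T.act h x = T.act m x ∧ T.act h y = T.act m y)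
    (A : Set T.X) (hA : A.Nonempty) (hinv : ∀ m ∈ M, ∀ x ∈ A, T.act m x ∈ A)
    (htriv : ∀ h ∈ M ⊓ F, ∀ x, x ∉ A → T.act h x = x → h = 1) :
    ∃ ρ : T.X → T.X, (∀ x, ρ x ∈ A) ∧ (∀ x ∈ A, ρ x = x) ∧
      (∀ m ∈ M, ∀ x, ρ (T.act m x) = T.act m (ρ x)) ∧ ∀ x y, T.Btw x y (ρ x) → ρ y = ρ x := by
  obtain ⟨pick, hpA, hpn, hpe⟩ := pick_exists T horb A hA hinv htriv
  -- iterates
  have hdist : ∀ k x, k ≤ T.dA A x → T.dA A (pick^[k] x) + k = T.dA A x := by
    intro k
    induction k with
    | zero => intro x _; simp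
    | succ k ih =>
      intro x hk
      rw [Function.iterate_succ_apply']
      have h1 := ih x (by omega)
      have hn : pick^[k] x ∉ A := by
        intro hc
        have := dA_of_mem T hc
        omega
      have := (hpn _ hn).2
      omega
  have hstep : ∀ k x, T.G.dist x (pick^[k] x) ≤ k := by
    intro k
    induction k with
    | zero => intro x; simp
    | succ k ih =>
      intro x
      rw [Function.iterate_succ_apply']
      have h1 := ih x
      have h2 := TG.dist_tri T.tree x (pick^[k] x) (pick (pick^[k] x))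
      have h3 : T.G.dist (pick^[k] x) (pick (pick^[k] x)) ≤ 1 := by
        by_cases hc : pick^[k] x ∈ A
        · rw [hpA _ hc, SimpleGraph.dist_self]; omega
        · rw [TG.dist_eq_one (hpn _ hc).1]
      omega
  have hmem : ∀ x, pick^[T.dA A x] x ∈ A := by
    intro x
    apply dA_zero T hA
    have := hdist _ x le_rfl
    omega
  refine ⟨fun x => pick^[T.dA A x] x, hmem, ?_, ?_, ?_⟩
  · intro x hx
    simp only [dA_of_mem T hx, Function.iterate_zero, id]
  · intro m hm x
    simp only [dA_act T hA hinv hm]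
    have : ∀ k x, pick^[k] (T.act m x) = T.act m (pick^[k] x) := by
      intro k
      induction k with
      | zero => intro x; simp
      | succ k ih =>
        intro x
        rw [Function.iterate_succ_apply, Function.iterate_succ_apply, hpe m hm, ih]
    exact this _ x
  · intro x y hy
    simp only at hy ⊢
    -- the point at distance `k` on the geodesic
    have hd : T.G.dist x (pick^[T.dA A x] x) = T.dA A x :=
      le_antisymm (hstep _ x) (dA_le T (hmem x))
    set k := T.G.dist x y with hk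
    have hkd : k ≤ T.dA A x := by
      unfold MTree.Btw TG.Btw at hy
      omega
    have hsplit : pick^[T.dA A x] x = pick^[T.dA A x - k] (pick^[k] x) := by
      rw [← Function.iterate_add_apply]
      congr 2
      omega
    have h1 : T.G.dist x (pick^[k] x) ≤ k := hstep k x
    have h2 : T.G.dist (pick^[k] x) (pick^[T.dA A x] x) ≤ T.dA A x - k := by
      rw [hsplit]
      exact hstep _ _
    have h3 := TG.dist_tri T.tree x (pick^[k] x) (pick^[T.dA A x] x)
    have h4 : TG.Btw T.G x (pick^[k] x) (pick^[T.dA A x] x) := by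
      unfold TG.Btw
      omega
    have h5 : y = pick^[k] x :=
      TG.btw_point_unique T.tree hy hk.symm h4 (by omega)
    have h6 := hdist k x hkd
    rw [← h5] at h6 hsplit
    have h7 : T.dA A y = T.dA A x - k := by omega
    rw [h7, hsplit]

end Pool.Agent.Lib.MP_6567fb_al
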