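import Pool.Agent.Lib.MP_6567fb_al.Defs8
import Pool.Agent.Lib.MP_6567fb_al.T1c

/-!
# MP_6567fb_al, module K31b

Contraction of the fibres of a retraction ρ with hgeo: the geodesic from x to ρ x lies in the fibre.  Gr'.Adj a b :<-> exists an edge (x,y) of Gr with ρ x = a, ρ y = b, a ≠ b.
Key fact: if (x,y) is an edge with ρ x ≠ ρ y then for every z: z and ρ z are on the same side of (x,y) (otherwise [z, ρ z] contains x and y, so ρ x = ρ z = ρ y).
Connected: a walk of Gr from a to b gives, applying ρ and omitting repetitions, a walk of Gr' (induction).  isTree_of_sep: for the edge (a,b) of Gr' with underlying edge (x,y) take S := {c : not Beyond x y c}; a in S since a = ρ x and x are on the same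
side, b not in S; if (c,d) is an edge of Gr' with underlying (u,v), c in S, d not in S then u in S, v not in S so (u,v) = (x,y) (beyond_edge).  Last clause: two edges (x,y), (x',y') with ρ x = ρ x', ρ y = ρ y': x' is on the side of ρ x' = ρ x, i.e. of x, y' on the side of y: beyond_edge.
-/

set_option autoImplicit false

open scoped Pointwise

namespace Pool.Agent.Lib.MP_6567fb_al

open MTree

open TG in
/-- a point and its image are on the same side of an edge whose ends have different images -/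
theorem contract_side {X : Type} {Gr : SimpleGraph X} (hG : Gr.IsTree) (ρ : X → X)
    (hgeo : ∀ x y, TG.Btw Gr x y (ρ x) → ρ y = ρ x) {x y : X} (hxy : Gr.Adj x y)
    (hne : ρ x ≠ ρ y) (z : X) : TG.Beyond Gr x y z ↔ TG.Beyond Gr x y (ρ z) := by
  constructor
  · intro hz
    by_contra hcon
    have h := (TG.beyond_sep hG hxy).1 ⟨hcon, hz⟩
    have h1 := hgeo z x (TG.btw_symm hG h.1)
    have h2 := hgeo z y (TG.btw_symm hG h.2.1)
    exact hne (h1.trans h2.symm)
  · intro hz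
    by_contra hcon
    have h := (TG.beyond_sep hG hxy).1 ⟨hcon, hz⟩
    have h1 := hgeo z x h.1
    have h2 := hgeo z y h.2.1
    exact hne (h1.trans h2.symm)

theorem contract_tree {X : Type} {Gr : SimpleGraph X} (hG : Gr.IsTree) (ρ : X → X)
    (hid : ∀ x, ρ (ρ x) = ρ x) (hgeo : ∀ x y, TG.Btw Gr x y (ρ x) → ρ y = ρ x) :
    ∃ Gr' : SimpleGraph {x // ρ x = x}, Gr'.IsTree ∧
      (∀ a b, Gr'.Adj a b ↔ ∃ x y, Gr.Adj x y ∧ ρ x = a ∧ ρ y = b ∧ ρ x ≠ ρ y) ∧
      ∀ x y x' y', Gr.Adj x y → Gr.Adj x' y' → ρ x ≠ ρ y → ρ x = ρ x' → ρ y = ρ y' →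
        x = x' ∧ y = y' := by
  let Gr' : SimpleGraph {x // ρ x = x} :=
    { Adj := fun a b => ∃ x y, Gr.Adj x y ∧ ρ x = a ∧ ρ y = b ∧ ρ x ≠ ρ y
      symm := ⟨by
        rintro a b ⟨x, y, h1, h2, h3, h4⟩
        exact ⟨y, x, h1.symm, h3, h2, h4.symm⟩⟩
      loopless := ⟨by
        rintro a ⟨x, y, _, h2, h3, h4⟩
        exact h4 (h2.trans h3.symm)⟩ }
  have hadj : ∀ a b, Gr'.Adj a b ↔ ∃ x y, Gr.Adj x y ∧ ρ x = a ∧ ρ y = b ∧ ρ x ≠ ρ y :=
    fun a b => Iff.rfl
  have huniq : ∀ x y x' y', Gr.Adj x y → Gr.Adj x' y' → ρ x ≠ ρ y → ρ x = ρ x' → ρ y = ρ y' →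
      x = x' ∧ y = y' := by
    intro x y x' y' h1 h2 h3 h4 h5
    have e1 : ¬ TG.Beyond Gr x y x' := by
      rw [contract_side hG ρ hgeo h1 h3, ← h4, ← contract_side hG ρ hgeo h1 h3]
      exact TG.not_beyond_self_left x y
    have e2 : TG.Beyond Gr x y y' := by
      rw [contract_side hG ρ hgeo h1 h3, ← h5, ← contract_side hG ρ hgeo h1 h3]
      exact TG.beyond_self_right h1
    have := TG.beyond_edge hG h1 h2 e1 e2
    exact ⟨this.1.symm, this.2.symm⟩
  have hwalk : ∀ x y : X, Gr.Walk x y →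
      Gr'.Reachable ⟨ρ x, hid x⟩ ⟨ρ y, hid y⟩ := by
    intro x y p
    induction p with
    | nil => exact SimpleGraph.Reachable.refl _
    | @cons u v w huv p ih =>
      by_cases h : ρ u = ρ v
      · have e : (⟨ρ u, hid u⟩ : {x // ρ x = x}) = ⟨ρ v, hid v⟩ := Subtype.ext h
        rw [e]
        exact ih
      · refine SimpleGraph.Reachable.trans (SimpleGraph.Adj.reachable ?_) ih
        exact ⟨u, v, huv, rfl, rfl, h⟩
  have hconn : Gr'.Connected := by
    have hne : Nonempty X := hG.1.nonempty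
    obtain ⟨x₀⟩ := hne
    have : Nonempty {x // ρ x = x} := ⟨⟨ρ x₀, hid x₀⟩⟩
    refine ⟨?_⟩
    intro a b
    obtain ⟨p⟩ := hG.1.preconnected a.1 b.1
    have h := hwalk _ _ p
    have ea : (⟨ρ a.1, hid a.1⟩ : {x // ρ x = x}) = a := Subtype.ext a.2
    have eb : (⟨ρ b.1, hid b.1⟩ : {x // ρ x = x}) = b := Subtype.ext b.2
    rw [ea, eb] at h
    exact h
  refine ⟨Gr', TG.isTree_of_sep hconn ?_, hadj, huniq⟩
  rintro a b ⟨x, y, hxy, hxa, hyb, hne⟩
  have side := contract_side hG ρ hgeo hxy hne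
  refine ⟨{c | ¬ TG.Beyond Gr x y c.1}, ?_, ?_, ?_⟩
  · change ¬ TG.Beyond Gr x y a.1
    rw [← hxa, ← side]
    exact TG.not_beyond_self_left x y
  · change ¬ ¬ TG.Beyond Gr x y b.1
    rw [not_not, ← hyb, ← side]
    exact TG.beyond_self_right hxy
  · rintro c d ⟨u, v, huv, huc, hvd, huv'⟩ hc hd
    have hc' : ¬ TG.Beyond Gr x y c.1 := hc
    have hd' : TG.Beyond Gr x y d.1 := not_not.1 hd
    rw [← huc, ← side] at hc'
    rw [← hvd, ← side] at hd'
    obtain ⟨e1, e2⟩ := TG.beyond_edge hG hxy huv hc' hd'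
    subst e1 e2
    exact ⟨Subtype.ext (huc.symm.trans hxa), Subtype.ext (hvd.symm.trans hyb)⟩

end Pool.Agent.Lib.MP_6567fb_al
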