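import Pool.Agent.Lib.MP_6567fb_al.K31a
import Pool.Agent.Lib.MP_6567fb_al.K31b
import Pool.Agent.Lib.MP_6567fb_al.T12
import Pool.Agent.Lib.MP_6567fb_al.T14b

/-!
# MP_6567fb_al, module K31c

A bounded family has an M-invariant tree whose vertex set is Ω itself.  T : the tree of IsBdd (splitting, vgs = Ω).  A := {x : T.stab x ⊓ ker ≠ ⊥} (non-empty, M-invariant: tw/stab_act), ρ from retract_exists, graph on {x // ρ x = x} = A from contract_tree;
x -> T.stab x ⊓ ker is a bijection from A to Ω (fixed_unique), equivariant; transport the graph.  adj, orb (orb of T for the underlying edge, ρ equivariant), ninv: if h exchanges a and b it exchanges the ends of the underlying edge (last clause of contract_tree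
for (x,y) and (h y, h x)): T.NoInv (IsSplitting.noInv).
fix_two: h in M ⊓ ker fixing two different members is 1: it is in the intersection of the two vertex groups (members are self-normalising: stab of the vertex).
-/

set_option autoImplicit false

open scoped Pointwise

namespace Pool.Agent.Lib.MP_6567fb_al

open MTree
variable {Γ G : Type} [Group Γ] [Group G] {π : Γ →* G}

theorem ograph_exists (hc : Ctx π) {M : Subgroup Γ} {Ω : Set (Subgroup Γ)} (hne : Ω.Nonempty)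
    (hb : IsBdd π M Ω) : ∃ Gr : SimpleGraph Ω, OG π.ker M Ω Gr := by
  obtain ⟨T, hT, hv, -⟩ := hb
  -- the group at a vertex
  have hfm : ∀ m ∈ M, ∀ x : T.X, T.stab (T.act m x) ⊓ π.ker = MulAut.conj m • (T.stab x ⊓ π.ker) := by
    intro m hm x
    rw [T.stab_act hm, conj_smul_inf]
  let A : Set T.X := {x | T.stab x ⊓ π.ker ≠ ⊥}
  have hAne : A.Nonempty := by
    obtain ⟨B, hB⟩ := hne
    rw [← hv] at hB
    obtain ⟨h1, x, hx⟩ := hB
    exact ⟨x, by show T.stab x ⊓ π.ker ≠ ⊥; rw [hx]; exact h1⟩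
  have hAinv : ∀ m ∈ M, ∀ x ∈ A, T.act m x ∈ A := by
    intro m hm x hx
    show T.stab (T.act m x) ⊓ π.ker ≠ ⊥
    rw [hfm m hm]
    exact smul_ne_bot_t14b hx m
  have htriv : ∀ h ∈ M ⊓ π.ker, ∀ x, x ∉ A → T.act h x = x → h = 1 := by
    intro h hh x hx hfix
    have h1 : T.stab x ⊓ π.ker = ⊥ := not_not.1 hx
    have h2 : h ∈ T.stab x ⊓ π.ker := ⟨⟨hh.1, hfix⟩, hh.2⟩
    rw [h1] at h2
    exact Subgroup.mem_bot.1 h2
  obtain ⟨ρ, hρA, hρid, hρe, hρg⟩ := retract_exists T hT.orb A hAne hAinv htriv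
  obtain ⟨Gr', htree, hadj, huniq⟩ := contract_tree T.tree ρ (fun x => hρid _ (hρA x)) hρg
  -- members of A
  have hfix : ∀ x, ρ x = x ↔ x ∈ A := by
    intro x
    constructor
    · intro h
      rw [← h]
      exact hρA x
    · exact hρid x
  have hinj : ∀ x ∈ A, ∀ y ∈ A, T.stab x ⊓ π.ker = T.stab y ⊓ π.ker → x = y := by
    intro x hx y hy hxy
    obtain ⟨b, hb, hb1⟩ := exists_ne_one_t14b hx
    have hb' := hb
    rw [hxy] at hb'
    exact hT.fixed_unique (h := b) ⟨hb.1.1, hb.2⟩ hb1 hb.1.2 hb'.1.2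
  have hmemΩ : ∀ x ∈ A, T.stab x ⊓ π.ker ∈ Ω := by
    intro x hx
    rw [← hv]
    exact ⟨hx, x, rfl⟩
  have hsurj : ∀ B ∈ Ω, ∃ x ∈ A, T.stab x ⊓ π.ker = B := by
    intro B hB
    rw [← hv] at hB
    obtain ⟨h1, x, hx⟩ := hB
    exact ⟨x, by show T.stab x ⊓ π.ker ≠ ⊥; rw [hx]; exact h1, hx⟩
  have hΩinv : ∀ m ∈ M, ∀ B ∈ Ω, MulAut.conj m • B ∈ Ω := by
    intro m hm B hB
    obtain ⟨x, hx, rfl⟩ := hsurj B hB
    rw [← hfm m hm]
    exact hmemΩ _ (hAinv m hm x hx)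
  let f : {x // ρ x = x} → Ω := fun x => ⟨T.stab x.1 ⊓ π.ker, hmemΩ _ ((hfix _).1 x.2)⟩
  have hf : Function.Bijective f := by
    constructor
    · intro x y hxy
      apply Subtype.ext
      exact hinj _ ((hfix _).1 x.2) _ ((hfix _).1 y.2) (congrArg Subtype.val hxy)
    · rintro ⟨B, hB⟩
      obtain ⟨x, hx, h2⟩ := hsurj B hB
      exact ⟨⟨x, (hfix _).2 hx⟩, Subtype.ext h2⟩
  let e : {x // ρ x = x} ≃ Ω := Equiv.ofBijective f hf
  let Gr : SimpleGraph Ω := Gr'.comap e.symm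
  have hGr : Gr.IsTree := by
    have hiso : Gr ≃g Gr' := SimpleGraph.Iso.comap e.symm Gr'
    exact hiso.isTree_iff.2 htree
  -- the edges
  have hGA : ∀ B C : Ω, Gr.Adj B C ↔ ∃ x y, T.G.Adj x y ∧ T.stab (ρ x) ⊓ π.ker = B ∧
      T.stab (ρ y) ⊓ π.ker = C ∧ ρ x ≠ ρ y := by
    intro B C
    have hB : T.stab (e.symm B).1 ⊓ π.ker = B := congrArg Subtype.val (e.apply_symm_apply B)
    have hC : T.stab (e.symm C).1 ⊓ π.ker = C := congrArg Subtype.val (e.apply_symm_apply C)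
    have hBA : (e.symm B).1 ∈ A := (hfix _).1 (e.symm B).2
    have hCA : (e.symm C).1 ∈ A := (hfix _).1 (e.symm C).2
    show Gr'.Adj (e.symm B) (e.symm C) ↔ _
    rw [hadj]
    constructor
    · rintro ⟨x, y, h1, h2, h3, h4⟩
      exact ⟨x, y, h1, by rw [h2]; exact hB, by rw [h3]; exact hC, h4⟩
    · rintro ⟨x, y, h1, h2, h3, h4⟩
      refine ⟨x, y, h1, ?_, ?_, h4⟩
      · exact hinj _ (hρA x) _ hBA (h2.trans hB.symm)
      · exact hinj _ (hρA y) _ hCA (h3.trans hC.symm)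
  -- the action
  have hact : ∀ m ∈ M, ∀ x (B : Ω), T.stab (ρ x) ⊓ π.ker = B →
      T.stab (ρ (T.act m x)) ⊓ π.ker = (omAct Ω m B : Subgroup Γ) := by
    intro m hm x B hB
    rw [hρe m hm, hfm m hm, hB, omAct_coe (hΩinv m hm _ B.2)]
  refine ⟨Gr, hΩinv, hGr, ?_, ?_, ?_⟩
  · intro m hm B C hBC
    obtain ⟨x, y, h1, h2, h3, h4⟩ := (hGA B C).1 hBC
    refine (hGA _ _).2 ⟨T.act m x, T.act m y, T.act_adj m hm x y h1, hact m hm x B h2,
      hact m hm y C h3, ?_⟩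
    rw [hρe m hm, hρe m hm]
    exact fun h => h4 (T.act_inj hm h)
  · intro m hm B C hBC
    obtain ⟨x, y, h1, h2, h3, h4⟩ := (hGA B C).1 hBC
    obtain ⟨h, hh, hx, hy⟩ := hT.orb m hm x y h1
    refine ⟨h, hh, ?_, ?_⟩
    · apply Subtype.ext
      rw [← hact h hh.1 x B h2, ← hact m hm x B h2, hx]
    · apply Subtype.ext
      rw [← hact h hh.1 y C h3, ← hact m hm y C h3, hy]
  · rintro h hh B C hBC ⟨hB, hC⟩
    obtain ⟨x, y, h1, h2, h3, h4⟩ := (hGA B C).1 hBC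
    have hx : ρ x = ρ (T.act h y) := by
      apply hinj _ (hρA _) _ (hρA _)
      rw [hact h hh.1 y C h3, hC, h2]
    have hy : ρ y = ρ (T.act h x) := by
      apply hinj _ (hρA _) _ (hρA _)
      rw [hact h hh.1 x B h2, hB, h3]
    obtain ⟨e1, e2⟩ := huniq x y (T.act h y) (T.act h x) h1 (T.act_adj h hh.1 y x h1.symm) h4 hx hy
    exact hT.noInv hc h hh.1 x y h1 ⟨e2.symm, e1.symm⟩

theorem mem_of_fix {M : Subgroup Γ} {Ω : Set (Subgroup Γ)} (hΩ : IsPeriph π.ker M Ω) {h : Γ}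
    (hh : h ∈ M ⊓ π.ker) {B : Ω} : omAct Ω h B = B ↔ h ∈ (B : Subgroup Γ) := by
  have hco := omAct_coe (hΩ.inv h hh.1 _ B.2)
  constructor
  · intro h1
    rw [h1] at hco
    apply periph_self_norm hΩ B.2 hh
    rw [← hco, inf_idem]
    exact periph_ne hΩ B.2
  · intro h1
    apply Subtype.ext
    rw [hco]
    exact Subgroup.conj_smul_eq_self_of_mem h1

theorem fix_two {M : Subgroup Γ} {Ω : Set (Subgroup Γ)} (hΩ : IsPeriph π.ker M Ω) {h : Γ}
    (hh : h ∈ M ⊓ π.ker) {B C : Ω} (hBC : B ≠ C) (hB : omAct Ω h B = B) (hC : omAct Ω h C = C) : h = 1 := by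
  by_contra hne
  apply hBC
  apply Subtype.ext
  apply periph_disj hΩ B.2 C.2
  intro hbot
  apply hne
  have h1 : h ∈ (B : Subgroup Γ) ⊓ C := ⟨(mem_of_fix hΩ hh).1 hB, (mem_of_fix hΩ hh).1 hC⟩
  rw [hbot] at h1
  exact Subgroup.mem_bot.1 h1

/-- a lift is determined by two members which it preserves -/
theorem lift_two {M : Subgroup Γ} {Ω : Set (Subgroup Γ)} (hΩ : IsPeriph π.ker M Ω) {P Q : Γ} (hP : P ∈ M)
    (hQ : Q ∈ M) (hPQ : π P = π Q) {B C : Ω} (hBC : B ≠ C) (h1 : omAct Ω P B = B) (h2 : omAct Ω P C = C)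
    (h3 : omAct Ω Q B = B) (h4 : omAct Ω Q C = C) : P = Q := by
  have hk : Q⁻¹ * P ∈ M ⊓ π.ker := by
    refine ⟨M.mul_mem (M.inv_mem hQ) hP, ?_⟩
    show π (Q⁻¹ * P) = 1
    rw [map_mul, map_inv, hPQ, inv_mul_cancel]
  have hQi : ∀ D : Ω, omAct Ω Q D = D → omAct Ω Q⁻¹ D = D := by
    intro D hD
    have h5 := omAct_mul hΩ.inv (M.inv_mem hQ) hQ D
    rw [inv_mul_cancel, omAct_one, hD] at h5
    exact h5.symm
  have h5 : Q⁻¹ * P = 1 := by
    apply fix_two hΩ hk hBC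
    · rw [omAct_mul hΩ.inv (M.inv_mem hQ) hP, h1, hQi B h3]
    · rw [omAct_mul hΩ.inv (M.inv_mem hQ) hP, h2, hQi C h4]
  exact (inv_mul_eq_one.1 h5).symm

/-- an element preserving two members fixes the geodesic between them pointwise -/
theorem OG.fix_geod {F M : Subgroup Γ} {Ω : Set (Subgroup Γ)} {Gr : SimpleGraph Ω} (hG : OG F M Ω Gr) {m : Γ}
    (hm : m ∈ M) {B C D : Ω} (hB : omAct Ω m B = B) (hC : omAct Ω m C = C) (hD : TG.Btw Gr B D C) :
    omAct Ω m D = D :=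
  hG.toMTree.fix_conv hm B hB C hC D hD

/-- every edge is preserved by a lift -/
theorem OG.lift_edge {M : Subgroup Γ} {Ω : Set (Subgroup Γ)} {Gr : SimpleGraph Ω}
    (hG : OG π.ker M Ω Gr) {m : Γ} (hm : m ∈ M) {B C : Ω} (hBC : Gr.Adj B C) :
    ∃ P ∈ M, π P = π m ∧ omAct Ω P B = B ∧ omAct Ω P C = C := by
  obtain ⟨h, hh, hB, hC⟩ := hG.orb m hm B C hBC
  have hπ : π h = 1 := hh.2
  have hinv : ∀ D : Ω, omAct Ω h⁻¹ (omAct Ω h D) = D := by
    intro D
    rw [← omAct_mul hG.inv (M.inv_mem hh.1) hh.1, inv_mul_cancel, omAct_one]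
  refine ⟨h⁻¹ * m, M.mul_mem (M.inv_mem hh.1) hm, ?_, ?_, ?_⟩
  · rw [map_mul, map_inv, hπ, inv_one, one_mul]
  · rw [omAct_mul hG.inv (M.inv_mem hh.1) hm, ← hB, hinv]
  · rw [omAct_mul hG.inv (M.inv_mem hh.1) hm, ← hC, hinv]

end Pool.Agent.Lib.MP_6567fb_al
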