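import Pool.Agent.Lib.MP_6567fb_al.T7b

/-!
# MP_6567fb_al, module T13a

Quotient by a normal subgroup N generated by elliptic elements.  For an edge (a,b): crossing number c(x,y) = ±1 on the N-orbit of (a,b),
potential u, u(n x) - u(x) = χ(n) vanishes on elliptic elements, so on N: u is N-invariant, takes the values u(a), u(a)+1
only, every edge outside the orbit has equal values at its ends.  T' := orbits of N; a, b are not in the same orbit (u);
adjacent orbits as in the last-but-one clause; connected; {u = u(a)} separates: isTree_of_sep.  Last clause: (x,y), (x,y') with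
y' in N y not in one N-orbit of edges: u for the edge (x,y): u(y') = u(x) ≠ u(y): contradiction.
-/

set_option autoImplicit false

open scoped Pointwise

namespace Pool.Agent.Lib.MP_6567fb_al

open MTree
namespace MTree
variable {Γ : Type} [Group Γ] {M : Subgroup Γ}

/-- the potential of the orbit of the edge `(a,b)` -/
theorem exists_invariant_potential (T : MTree M) (hni : T.NoInv) (N : Subgroup Γ) (hN : N ≤ M)
    (hgen : N = Subgroup.closure {n | n ∈ N ∧ ∃ x, T.act n x = x}) {a b : T.X} (hab : T.G.Adj a b) :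
    ∃ u : T.X → ℤ, (∀ n ∈ N, ∀ x, u (T.act n x) = u x) ∧ u b = u a + 1 ∧
      ∀ x y, T.G.Adj x y → u x ≠ u y → (∃ n ∈ N, T.act n a = x ∧ T.act n b = y) ∨
        (∃ n ∈ N, T.act n b = x ∧ T.act n a = y) := by
  classical
  set P : T.X → T.X → Prop := fun x y => ∃ n ∈ N, T.act n a = x ∧ T.act n b = y with hP
  have hinv : ∀ n ∈ N, ∀ x, T.act n⁻¹ (T.act n x) = x := by
    intro n hn x
    rw [← T.act_mul _ (M.inv_mem (hN hn)) _ (hN hn), inv_mul_cancel, T.act_one]
  have hPP : ∀ x y, P x y → ¬ P y x := by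
    rintro x y ⟨n, hn, h1, h2⟩ ⟨k, hk, h3, h4⟩
    refine hni (n⁻¹ * k) (M.mul_mem (M.inv_mem (hN hn)) (hN hk)) a b hab ⟨?_, ?_⟩
    · rw [T.act_mul _ (M.inv_mem (hN hn)) _ (hN hk), h3, ← h2, hinv n hn]
    · rw [T.act_mul _ (M.inv_mem (hN hn)) _ (hN hk), h4, ← h1, hinv n hn]
  have hPi : ∀ h ∈ N, ∀ x y, P (T.act h x) (T.act h y) ↔ P x y := by
    intro h hh x y
    constructor
    · rintro ⟨n, hn, h1, h2⟩
      refine ⟨h⁻¹ * n, N.mul_mem (N.inv_mem hh) hn, ?_, ?_⟩
      · rw [T.act_mul _ (M.inv_mem (hN hh)) _ (hN hn), h1, hinv h hh]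
      · rw [T.act_mul _ (M.inv_mem (hN hh)) _ (hN hn), h2, hinv h hh]
    · rintro ⟨n, hn, h1, h2⟩
      refine ⟨h * n, N.mul_mem hh hn, ?_, ?_⟩
      · rw [T.act_mul _ (hN hh) _ (hN hn), h1]
      · rw [T.act_mul _ (hN hh) _ (hN hn), h2]
  set c : T.X → T.X → ℤ := fun x y => if P x y then 1 else if P y x then -1 else 0 with hc
  have hanti : ∀ x y, T.G.Adj x y → c y x = - c x y := by
    intro x y _
    by_cases h1 : P x y
    · have h2 := hPP x y h1
      simp [hc, h1, h2]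
    · by_cases h2 : P y x
      · simp [hc, h1, h2]
      · simp [hc, h1, h2]
  have hci : ∀ h ∈ N, ∀ x y, c (T.act h x) (T.act h y) = c x y := by
    intro h hh x y
    simp only [hc, hPi h hh x y, hPi h hh y x]
  obtain ⟨u, χ, hu, hχ⟩ := crossing_ab (T.res hN) (A := ℤ) c hanti hci
  have hχ1 : ∀ n, ∀ hn : n ∈ N, χ ⟨n, hn⟩ = 1 := by
    have hS : ∀ n ∈ Subgroup.closure {n | n ∈ N ∧ ∃ x, T.act n x = x},
        ∃ hn : n ∈ N, χ ⟨n, hn⟩ = 1 := by
      intro n hn
      induction hn using Subgroup.closure_induction with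
      | mem n hn =>
        obtain ⟨hnN, x, hx⟩ := hn
        refine ⟨hnN, ?_⟩
        have h1 := hχ ⟨n, hnN⟩ x
        have h2 : (T.res hN).act n x = x := hx
        simp only [h2, sub_self] at h1
        rw [h1]; rfl
      | one => exact ⟨N.one_mem, χ.map_one⟩
      | mul x y _ _ hx hy =>
        obtain ⟨hx1, hx2⟩ := hx
        obtain ⟨hy1, hy2⟩ := hy
        refine ⟨N.mul_mem hx1 hy1, ?_⟩
        have : (⟨x * y, N.mul_mem hx1 hy1⟩ : N) = ⟨x, hx1⟩ * ⟨y, hy1⟩ := rfl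
        rw [this, χ.map_mul, hx2, hy2, one_mul]
      | inv x _ hx =>
        obtain ⟨hx1, hx2⟩ := hx
        refine ⟨N.inv_mem hx1, ?_⟩
        have : (⟨x⁻¹, N.inv_mem hx1⟩ : N) = ⟨x, hx1⟩⁻¹ := rfl
        rw [this, χ.map_inv, hx2, inv_one]
    intro n hn
    obtain ⟨_, h2⟩ := hS n (hgen ▸ hn)
    exact h2
  refine ⟨u, ?_, ?_, ?_⟩
  · intro n hn x
    have h1 := hχ ⟨n, hn⟩ x
    rw [hχ1 n hn] at h1
    have h2 : u ((T.res hN).act n x) - u x = 0 := by
      have := congrArg Multiplicative.toAdd h1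
      simpa using this.symm
    exact sub_eq_zero.1 h2
  · have h1 := hu a b hab
    have h2 : P a b := ⟨1, N.one_mem, T.act_one a, T.act_one b⟩
    simp only [hc, if_pos h2] at h1
    linarith
  · intro x y hxy hne
    have h1 := hu x y hxy
    by_cases h2 : P x y
    · exact Or.inl h2
    · by_cases h3 : P y x
      · obtain ⟨n, hn, h4, h5⟩ := h3
        exact Or.inr ⟨n, hn, h5, h4⟩
      · exfalso
        simp only [hc, if_neg h2, if_neg h3] at h1
        exact hne (by linarith)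

theorem quotient_tree (T : MTree M) (hni : T.NoInv) (N : Subgroup Γ) (hN : N ≤ M)
    (hn : ∀ m ∈ M, ∀ n ∈ N, m * n * m⁻¹ ∈ N)
    (hgen : N = Subgroup.closure {n | n ∈ N ∧ ∃ x, T.act n x = x}) :
    ∃ (T' : MTree M) (pr : T.X → T'.X), Function.Surjective pr ∧
      (∀ m ∈ M, ∀ x, pr (T.act m x) = T'.act m (pr x)) ∧
      (∀ x y, pr x = pr y ↔ ∃ n ∈ N, T.act n x = y) ∧
      (∀ x y, T'.G.Adj (pr x) (pr y) ↔ ∃ n ∈ N, T.G.Adj x (T.act n y)) ∧
      (∀ x y y', T.G.Adj x y → T.G.Adj x y' → pr y = pr y' →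
        ∃ n ∈ N, T.act n x = x ∧ T.act n y = y') := by
  classical
  have hinv : ∀ n ∈ N, ∀ x, T.act n⁻¹ (T.act n x) = x := by
    intro n hn x
    rw [← T.act_mul _ (M.inv_mem (hN hn)) _ (hN hn), inv_mul_cancel, T.act_one]
  let r : Setoid T.X :=
    { r := fun x y => ∃ n ∈ N, T.act n x = y
      iseqv :=
        { refl := fun x => ⟨1, N.one_mem, T.act_one x⟩
          symm := by
            rintro x y ⟨n, hn, rfl⟩
            exact ⟨n⁻¹, N.inv_mem hn, hinv n hn x⟩
          trans := by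
            rintro x y z ⟨n, hn, rfl⟩ ⟨k, hk, rfl⟩
            exact ⟨k * n, N.mul_mem hk hn, T.act_mul k (hN hk) n (hN hn) x⟩ } }
  let pr : T.X → Quotient r := Quotient.mk r
  have hpr : ∀ x y, pr x = pr y ↔ ∃ n ∈ N, T.act n x = y := fun x y => Quotient.eq
  have hsurj : Function.Surjective pr := Quotient.mk_surjective
  have hadjne : ∀ x y, T.G.Adj x y → pr x ≠ pr y := by
    intro x y hxy h
    obtain ⟨n, hn, hn'⟩ := (hpr x y).1 h
    obtain ⟨u, hu1, hu2, _⟩ := exists_invariant_potential T hni N hN hgen hxy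
    have := hu1 n hn x
    rw [hn', hu2] at this
    omega
  let G' : SimpleGraph (Quotient r) :=
    { Adj := fun p q => ∃ x y, pr x = p ∧ pr y = q ∧ T.G.Adj x y
      symm := ⟨fun p q ⟨x, y, h1, h2, h3⟩ => ⟨y, x, h2, h1, h3.symm⟩⟩
      loopless := ⟨fun p ⟨x, y, h1, h2, h3⟩ => hadjne x y h3 (h1.trans h2.symm)⟩ }
  have hG' : ∀ p q, G'.Adj p q ↔ ∃ x y, pr x = p ∧ pr y = q ∧ T.G.Adj x y := fun p q => Iff.rfl
  have hadj : ∀ x y, T.G.Adj x y → G'.Adj (pr x) (pr y) := fun x y h => ⟨x, y, rfl, rfl, h⟩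
  have hact : ∀ m ∈ M, ∀ x y, pr x = pr y → pr (T.act m x) = pr (T.act m y) := by
    intro m hm x y h
    obtain ⟨n, hn1, rfl⟩ := (hpr x y).1 h
    refine (hpr _ _).2 ⟨m * n * m⁻¹, hn m hm n hn1, ?_⟩
    rw [← T.act_mul _ (hN (hn m hm n hn1)) _ hm, ← T.act_mul _ hm _ (hN hn1)]
    congr 1
    group
  have hconn : G'.Connected := by
    have h0 := T.tree.connected
    have hf : ∀ x y, T.G.Reachable x y → G'.Reachable (pr x) (pr y) := by
      intro x y h
      let f : T.G →g G' := ⟨pr, fun {x y} h => hadj x y h⟩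
      exact h.map f
    have : Nonempty (Quotient r) := h0.nonempty.map pr
    refine ⟨?_⟩
    intro p q
    obtain ⟨x, rfl⟩ := hsurj p
    obtain ⟨y, rfl⟩ := hsurj q
    exact hf x y (h0.preconnected x y)
  have htree : G'.IsTree := by
    refine TG.isTree_of_sep hconn ?_
    rintro p q ⟨a, b, rfl, rfl, hab⟩
    obtain ⟨u, hu1, hu2, hu3⟩ := exists_invariant_potential T hni N hN hgen hab
    refine ⟨{p | ∃ x, pr x = p ∧ u x = u a}, ⟨a, rfl, rfl⟩, ?_, ?_⟩
    · rintro ⟨x, hx, hx'⟩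
      obtain ⟨n, hn1, rfl⟩ := (hpr x b).1 hx
      rw [hu1 n hn1] at hu2
      omega
    · rintro p q ⟨x, y, rfl, rfl, hxy⟩ ⟨x', hx', hx''⟩ hy
      have hxa : u x = u a := by
        obtain ⟨n, hn1, rfl⟩ := (hpr x' x).1 hx'
        rw [hu1 n hn1, hx'']
      have hya : u y ≠ u a := fun h => hy ⟨y, rfl, h⟩
      rcases hu3 x y hxy (by rw [hxa]; exact hya.symm) with ⟨n, hn1, h1, h2⟩ | ⟨n, hn1, h1, h2⟩
      · exact ⟨((hpr a x).2 ⟨n, hn1, h1⟩).symm, ((hpr b y).2 ⟨n, hn1, h2⟩).symm⟩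
      · exfalso
        have := hu1 n hn1 b
        rw [h1] at this
        omega
  have hout : ∀ p : Quotient r, pr p.out = p := fun p => Quotient.out_eq p
  have hactpr : ∀ m ∈ M, ∀ x, pr (T.act m (pr x).out) = pr (T.act m x) :=
    fun m hm x => hact m hm _ _ (hout (pr x))
  let T' : MTree M :=
    { X := Quotient r
      G := G'
      tree := htree
      act := fun m p => pr (T.act m p.out)
      act_one := fun p => by rw [T.act_one]; exact hout p
      act_mul := fun m hm m' hm' p => by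
        rw [hactpr m hm, T.act_mul m hm m' hm']
      act_adj := by
        rintro m hm p q ⟨x, y, rfl, rfl, hxy⟩
        refine ⟨T.act m x, T.act m y, ?_, ?_, T.act_adj m hm x y hxy⟩
        · exact (hactpr m hm x).symm
        · exact (hactpr m hm y).symm }
  refine ⟨T', pr, hsurj, fun m hm x => (hactpr m hm x).symm, hpr, ?_, ?_⟩
  · intro x y
    constructor
    · rintro ⟨x0, y0, h1, h2, h3⟩
      obtain ⟨n, hn1, rfl⟩ := (hpr x0 x).1 h1
      obtain ⟨k, hk1, rfl⟩ := (hpr y y0).1 h2.symm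
      refine ⟨n * k, N.mul_mem hn1 hk1, ?_⟩
      rw [T.act_mul n (hN hn1) k (hN hk1)]
      exact T.act_adj n (hN hn1) _ _ h3
    · rintro ⟨n, hn1, h⟩
      exact ⟨x, T.act n y, rfl, ((hpr y _).2 ⟨n, hn1, rfl⟩).symm, h⟩
  · intro x y y' hy hy' h
    obtain ⟨k, hk, hk'⟩ := (hpr y y').1 h
    obtain ⟨u, hu1, hu2, hu3⟩ := exists_invariant_potential T hni N hN hgen hy
    have h1 : u y' = u y := by rw [← hk', hu1 k hk]
    rcases hu3 x y' hy' (by rw [h1, hu2]; omega) with h2 | ⟨n, hn1, h3, h4⟩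
    · exact h2
    · exfalso
      have := hu1 n hn1 y
      rw [h3] at this
      omega

/-- the stabiliser of a vertex of the quotient -/
theorem quotient_stab {T T' : MTree M} {pr : T.X → T'.X} {N : Subgroup Γ} (hN : N ≤ M)
    (heq : ∀ m ∈ M, ∀ x, pr (T.act m x) = T'.act m (pr x))
    (hor : ∀ x y, pr x = pr y ↔ ∃ n ∈ N, T.act n x = y) (x : T.X) (m : Γ) (hm : m ∈ M) :
    m ∈ T'.stab (pr x) ↔ ∃ n ∈ N, n * m ∈ T.stab x := by
  constructor
  · rintro ⟨_, h⟩
    rw [← heq m hm] at h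
    obtain ⟨n, hn1, h2⟩ := (hor _ _).1 h
    exact ⟨n, hn1, M.mul_mem (hN hn1) hm, by rw [T.act_mul n (hN hn1) m hm, h2]⟩
  · rintro ⟨n, hn1, h1, h2⟩
    refine ⟨hm, ?_⟩
    rw [← heq m hm]
    exact (hor _ _).2 ⟨n, hn1, by rw [← T.act_mul n (hN hn1) m hm, h2]⟩

end MTree

end Pool.Agent.Lib.MP_6567fb_al
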