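import Pool.Agent.Lib.MP_6567fb_al.K31c
import Pool.Agent.Lib.MP_6567fb_al.T13a

/-!
# MP_6567fb_al, module K32

Quotient of a tree on Ω by N (generated by elements fixing members).  quotient_tree (T13a) for hG.toMTree and N; NoInv of hG.toMTree: if m inverts (B,C) then h from orb inverts it (ninv).  T'.X is in bijection with Quot (omRel N Ω) (clause 3 of quotient_tree), transport.
quot_eq_iff: omRel N Ω is an equivalence relation (omAct_mul).
Last clause: h B = n B, h C = n' C: k := n⁻¹ h fixes B, (B, C) and (B, k C) are edges with C, k C in the same N-orbit (k C = n⁻¹ n' C): n'' in N with n'' B = B, n'' C = k C; n''⁻¹ k fixes B and C, so h = n n'' (hfix).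
-/

set_option autoImplicit false

open scoped Pointwise

namespace Pool.Agent.Lib.MP_6567fb_al

open MTree
variable {Γ G : Type} [Group Γ] [Group G] {π : Γ →* G}

theorem quot_eq_iff {M N : Subgroup Γ} {Ω : Set (Subgroup Γ)}
    (hi : ∀ m ∈ M, ∀ B ∈ Ω, MulAut.conj m • B ∈ Ω) (hN : N ≤ M) (B C : Ω) :
    Quot.mk (omRel N Ω) B = Quot.mk (omRel N Ω) C ↔ ∃ n ∈ N, omAct Ω n B = C := by
  have heq : Equivalence (omRel N Ω) := by
    refine ⟨fun B => ⟨1, N.one_mem, omAct_one Ω B⟩, ?_, ?_⟩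
    · rintro B C ⟨n, hn, rfl⟩
      refine ⟨n⁻¹, N.inv_mem hn, ?_⟩
      rw [← omAct_mul hi (hN (N.inv_mem hn)) (hN hn), inv_mul_cancel, omAct_one]
    · rintro B C D ⟨n, hn, rfl⟩ ⟨k, hk, rfl⟩
      exact ⟨k * n, N.mul_mem hk hn, omAct_mul hi (hN hk) (hN hn) B⟩
  constructor
  · intro h
    have h1 := Quot.eqvGen_exact h
    have h2 := (heq.eqvGen_iff).1 h1
    exact h2
  · intro h
    exact Quot.sound h

theorem oquot {F M : Subgroup Γ} {Ω : Set (Subgroup Γ)} {Gr : SimpleGraph Ω} (hG : OG F M Ω Gr)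
    (hfix : ∀ h ∈ M ⊓ F, ∀ B C : Ω, B ≠ C → omAct Ω h B = B → omAct Ω h C = C → h = 1)
    (N : Subgroup Γ) (hN : N ≤ M ⊓ F) (hn : ∀ m ∈ M, ∀ n ∈ N, m * n * m⁻¹ ∈ N)
    (hgen : N = Subgroup.closure {n | n ∈ N ∧ ∃ B : Ω, omAct Ω n B = B}) :
    ∃ Gr' : SimpleGraph (Quot (omRel N Ω)), Gr'.IsTree ∧
      (∀ B C, Gr'.Adj (Quot.mk _ B) (Quot.mk _ C) ↔ ∃ n ∈ N, Gr.Adj B (omAct Ω n C)) ∧
      (∀ B C D, Gr.Adj B C → Gr.Adj B D → Quot.mk (omRel N Ω) C = Quot.mk (omRel N Ω) D →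
        ∃ n ∈ N, omAct Ω n B = B ∧ omAct Ω n C = D) ∧
      ∀ h ∈ M ⊓ F, ∀ B C, Gr.Adj B C → Quot.mk (omRel N Ω) (omAct Ω h B) = Quot.mk (omRel N Ω) B →
        Quot.mk (omRel N Ω) (omAct Ω h C) = Quot.mk (omRel N Ω) C → h ∈ N := by
  have hNM : N ≤ M := hN.trans inf_le_left
  have hq := quot_eq_iff (Ω := Ω) hG.inv hNM
  have hni : hG.toMTree.NoInv := by
    intro m hm x y hxy ⟨h1, h2⟩
    obtain ⟨h, hh, h3, h4⟩ := hG.orb m hm x y hxy
    exact hG.ninv h hh x y hxy ⟨h3.trans h1, h4.trans h2⟩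
  obtain ⟨T', pr, hsurj, hequi, hpr, hadj, hfold⟩ :=
    quotient_tree hG.toMTree hni N hNM hn hgen
  have hpr' : ∀ B C : Ω, pr B = pr C ↔ ∃ n ∈ N, omAct Ω n B = C := hpr
  have hadj' : ∀ B C : Ω, T'.G.Adj (pr B) (pr C) ↔ ∃ n ∈ N, Gr.Adj B (omAct Ω n C) := hadj
  have hfold' : ∀ B C D : Ω, Gr.Adj B C → Gr.Adj B D → pr C = pr D →
      ∃ n ∈ N, omAct Ω n B = B ∧ omAct Ω n C = D := hfold
  let e0 : Quot (omRel N Ω) → T'.X := Quot.lift pr (fun B C h => (hpr' B C).2 h)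
  have he0 : ∀ B : Ω, e0 (Quot.mk _ B) = pr B := fun B => rfl
  have hinj : Function.Injective e0 := by
    intro p q
    induction p using Quot.ind with
    | mk B =>
      induction q using Quot.ind with
      | mk C =>
        intro h
        exact (hq B C).2 ((hpr' B C).1 h)
  have hsur : Function.Surjective e0 := by
    intro x
    obtain ⟨B, rfl⟩ := hsurj x
    exact ⟨Quot.mk _ B, rfl⟩
  let e : Quot (omRel N Ω) ≃ T'.X := Equiv.ofBijective e0 ⟨hinj, hsur⟩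
  have hfold2 : ∀ B C D : Ω, Gr.Adj B C → Gr.Adj B D →
      Quot.mk (omRel N Ω) C = Quot.mk (omRel N Ω) D →
      ∃ n ∈ N, omAct Ω n B = B ∧ omAct Ω n C = D := by
    intro B C D h1 h2 h3
    exact hfold' B C D h1 h2 ((hpr' C D).2 ((hq C D).1 h3))
  refine ⟨T'.G.comap e, ?_, ?_, hfold2, ?_⟩
  · exact (SimpleGraph.Iso.isTree_iff (SimpleGraph.Iso.comap e T'.G)).2 T'.tree
  · intro B C
    exact hadj' B C
  · intro h hh B C hBC h1 h2
    obtain ⟨n, hn1, hn2⟩ := (hq B (omAct Ω h B)).1 h1.symm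
    have hnM : n⁻¹ ∈ M := M.inv_mem (hNM hn1)
    have hhM : h ∈ M := hh.1
    have hk : n⁻¹ * h ∈ M ⊓ F := (M ⊓ F).mul_mem ((M ⊓ F).inv_mem (hN hn1)) hh
    have hkB : omAct Ω (n⁻¹ * h) B = B := by
      rw [omAct_mul hG.inv hnM hhM, ← hn2, ← omAct_mul hG.inv hnM (hNM hn1), inv_mul_cancel,
        omAct_one]
    have hadjk : Gr.Adj B (omAct Ω (n⁻¹ * h) C) := by
      have := hG.adj _ hk.1 B C hBC
      rwa [hkB] at this
    have hCk : Quot.mk (omRel N Ω) C = Quot.mk (omRel N Ω) (omAct Ω (n⁻¹ * h) C) := by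
      rw [← h2, omAct_mul hG.inv hnM hhM]
      exact (hq _ _).2 ⟨n⁻¹, N.inv_mem hn1, rfl⟩
    obtain ⟨n2, hn3, hn4, hn5⟩ := hfold2 B C _ hBC hadjk hCk
    have hn2M : n2⁻¹ ∈ M := M.inv_mem (hNM hn3)
    have h5 : n2⁻¹ * (n⁻¹ * h) = 1 := by
      refine hfix _ ((M ⊓ F).mul_mem ((M ⊓ F).inv_mem (hN hn3)) hk) B C hBC.ne ?_ ?_
      · rw [omAct_mul hG.inv hn2M hk.1, hkB]
        nth_rewrite 1 [← hn4]
        rw [← omAct_mul hG.inv hn2M (hNM hn3), inv_mul_cancel, omAct_one]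
      · rw [omAct_mul hG.inv hn2M hk.1, ← hn5, ← omAct_mul hG.inv hn2M (hNM hn3), inv_mul_cancel,
          omAct_one]
    have h6 : h = n * n2 := by
      have h7 : n⁻¹ * h = n2 := by
        have := congrArg (fun z => n2 * z) h5
        simpa using this
      rw [← h7]; simp
    rw [h6]
    exact N.mul_mem hn1 hn3

end Pool.Agent.Lib.MP_6567fb_al
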