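import Pool.Agent.Lib.MP_6567fb_al.Defs8
import Pool.Agent.Lib.MP_6567fb_al.T1c

/-!
# MP_6567fb_al, module K33a

If Gr is a tree on W, the elements over q are automorphisms, every edge is fixed by an element over q and an element over q is determined by two fixed points, then Bip a p q is a tree.
Connected: every P-vertex is adjacent to a W-vertex; adjacent points of Gr have a common lift.
isTree_of_sep for the edge (B,P) [and (P,B): complement].  side C := C ≠ B and the next point of B in the direction of C is fixed by P (Nxt Gr B C c, a P c = c).  Z := {inl C : side C} ∪ {inr P' : P' = P or (a P' B ≠ B and side C for all C fixed by P')}.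
inr P in Z, inl B not in Z.  Fixed sets of elements over q are convex (automorphisms of the tree Gr).  Let P' C = C.  (1) C not in Z, P' in Z: if P' = P and C ≠ B then P fixes [B,C], so side C: contradiction, so C = B: the edge (B,P).  If P' ≠ P: contradiction by definition.
(2) C in Z, P' not in Z: P' ≠ P.  If a P' B = B then P' fixes [B,C], P and P' both fix B and the next point: P = P'.  If a P' B ≠ B then for all C' fixed by P' the next points from B in the direction of C and C' are equal (B is not on [C,C'], which is fixed by P'), so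
side C' for all of them: P' in Z.
-/

set_option autoImplicit false

open scoped Pointwise

namespace Pool.Agent.Lib.MP_6567fb_al

open MTree

section K33a

variable {W GG Q : Type} [Group GG] [Group Q]

/-- fixed sets of adjacency preserving maps are convex -/
theorem K33a_fix_conv {Gr : SimpleGraph W} (hG : Gr.IsTree) (f : W → W)
    (hf : ∀ x y, Gr.Adj x y → Gr.Adj (f x) (f y)) : TG.Conv Gr {x | f x = x} := by
  have hle : ∀ x y, Gr.dist (f x) (f y) ≤ Gr.dist x y := by
    intro x y
    obtain ⟨w, hw⟩ := hG.connected.exists_walk_length_eq_dist x y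
    let F : Gr →g Gr := ⟨f, fun {a b} h => hf a b h⟩
    have := SimpleGraph.dist_le (w.map F)
    rw [SimpleGraph.Walk.length_map, hw] at this
    exact this
  intro x hx z hz y hy
  have hx' : f x = x := hx
  have hz' : f z = z := hz
  have h1 := hle x y
  have h2 := hle y z
  rw [hx'] at h1
  rw [hz'] at h2
  have h3 := TG.dist_tri hG x (f y) z
  have h4 : Gr.dist x y + Gr.dist y z = Gr.dist x z := hy
  have h5 : Gr.dist x (f y) = Gr.dist x y := by omega
  have h6 : TG.Btw Gr x (f y) z := by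
    show Gr.dist x (f y) + Gr.dist (f y) z = Gr.dist x z
    omega
  exact TG.btw_point_unique hG h6 h5 hy rfl

theorem K33a_next_eq {Gr : SimpleGraph W} (hG : Gr.IsTree) {B C C' c c' : W}
    (hc : Nxt Gr B C c) (hc' : Nxt Gr B C' c') (hn : ¬ TG.Btw Gr C B C') : c = c' := by
  by_contra hne
  apply hn
  have hd : Gr.dist c c' = 2 := by
    have h1 : Gr.dist B c = 1 := TG.dist_eq_one hc.1
    have h1' : Gr.dist B c' = 1 := TG.dist_eq_one hc'.1
    rcases TG.adj_dist hG hc.1 c' with h | h
    · rw [h1'] at h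
      exact absurd (TG.dist_zero hG (by omega)) hne
    · omega
  have h1 : TG.Btw Gr C c B := TG.btw_symm hG (TG.btw_next hc.1 hc.2)
  have h2 : TG.Btw Gr c B c' := by
    show Gr.dist c B + Gr.dist B c' = Gr.dist c c'
    rw [hd, TG.dist_eq_one hc.1.symm, TG.dist_eq_one hc'.1]
  have h3 := (TG.btw_glue hG h1 h2 hc.1.ne').2
  have h4 : TG.Btw Gr B c' C' := TG.btw_next hc'.1 hc'.2
  exact (TG.btw_glue hG h3 h4 hc'.1.ne).1

theorem bip_tree {W GG Q : Type} [Group GG] [Group Q] (a : GG →* Equiv.Perm W) (p : GG →* Q) (q : Q)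
    {Gr : SimpleGraph W} (hG : Gr.IsTree)
    (h1 : ∀ P, p P = q → ∀ x y, Gr.Adj x y → Gr.Adj (a P x) (a P y))
    (h2 : ∀ x y, Gr.Adj x y → ∃ P, p P = q ∧ a P x = x ∧ a P y = y)
    (h3 : ∀ P P' x y, p P = q → p P' = q → x ≠ y → a P x = x → a P y = y → a P' x = x → a P' y = y →
      P = P') : (Bip a p q).IsTree := by
  classical
  have hconv : ∀ P, p P = q → TG.Conv Gr {x | a P x = x} := fun P hP =>
    K33a_fix_conv hG (a P) (h1 P hP)
  have hcon : (Bip a p q).Connected := by
    have hinl : ∀ x y : W, (Bip a p q).Reachable (Sum.inl x) (Sum.inl y) := by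
      intro x y
      obtain ⟨w⟩ := hG.connected.preconnected x y
      induction w with
      | nil => exact SimpleGraph.Reachable.refl _
      | @cons u v w huv _ ih =>
        obtain ⟨P, hP, hu, hv⟩ := h2 u v huv
        have e1 : (Bip a p q).Adj (Sum.inl u) (Sum.inr ⟨P, hP, u, hu⟩) := hu
        have e2 : (Bip a p q).Adj (Sum.inr ⟨P, hP, u, hu⟩) (Sum.inl v) := hv
        exact (e1.reachable.trans e2.reachable).trans ih
    obtain ⟨x₀⟩ := hG.connected.nonempty
    have hall : ∀ v, (Bip a p q).Reachable (Sum.inl x₀) v := by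
      rintro (x | ⟨P, hP, x, hx⟩)
      · exact hinl x₀ x
      · have e1 : (Bip a p q).Adj (Sum.inl x) (Sum.inr ⟨P, hP, x, hx⟩) := hx
        exact (hinl x₀ x).trans e1.reachable
    haveI : Nonempty (W ⊕ {P : GG // p P = q ∧ ∃ B, a P B = B}) := ⟨Sum.inl x₀⟩
    exact ⟨fun u v => (hall u).symm.trans (hall v)⟩
  -- the separating set
  have hsep : ∀ (B : W) (P : {P : GG // p P = q ∧ ∃ B, a P B = B}), a (P : GG) B = B →
      ∃ Z : Set (W ⊕ {P : GG // p P = q ∧ ∃ B, a P B = B}), Sum.inl B ∉ Z ∧ Sum.inr P ∈ Z ∧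
        ∀ (C : W) (P' : {P : GG // p P = q ∧ ∃ B, a P B = B}), a (P' : GG) C = C →
          ((Sum.inl C ∉ Z ∧ Sum.inr P' ∈ Z → C = B ∧ P' = P) ∧
            ¬ (Sum.inl C ∈ Z ∧ Sum.inr P' ∉ Z)) := by
    intro B P hPB
    let side : W → Prop := fun C => C ≠ B ∧ ∃ c, Nxt Gr B C c ∧ a (P : GG) c = c
    refine ⟨{v | match v with
      | Sum.inl C => side C
      | Sum.inr P' => P' = P ∨ (a (P' : GG) B ≠ B ∧ ∀ C, a (P' : GG) C = C → side C)}, ?_, ?_, ?_⟩
    · intro h
      exact h.1 rfl
    · exact Or.inl rfl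
    · intro C P' hC
      have hstep : ∀ (R : {P : GG // p P = q ∧ ∃ B, a P B = B}) (D d : W), a (R : GG) B = B →
          a (R : GG) D = D → Nxt Gr B D d → a (R : GG) d = d := by
        intro R D d hRB hRD hd
        exact hconv R R.2.1 B hRB D hRD d (TG.btw_next hd.1 hd.2)
      constructor
      · rintro ⟨hC1, hP1⟩
        have hC2 : ¬ side C := hC1
        rcases hP1 with rfl | ⟨_, h5⟩
        · refine ⟨?_, rfl⟩
          by_contra hne
          obtain ⟨c, hc1, hc2⟩ := TG.exists_next hG (fun h => hne h.symm : B ≠ C)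
          exact hC2 ⟨hne, c, ⟨hc1, hc2⟩, hstep _ C c hPB hC ⟨hc1, hc2⟩⟩
        · exact absurd (h5 C hC) hC2
      · rintro ⟨hC1, hP1⟩
        obtain ⟨hCB, c, hc, hPc⟩ : side C := hC1
        have hP2 : ¬ (P' = P ∨ (a (P' : GG) B ≠ B ∧ ∀ C, a (P' : GG) C = C → side C)) := hP1
        push Not at hP2
        obtain ⟨hne, hP3⟩ := hP2
        by_cases hB : a (P' : GG) B = B
        · exact hne (Subtype.ext (h3 _ _ B c P'.2.1 P.2.1 hc.1.ne hB
            (hstep P' C c hB hC hc) hPB hPc))
        · obtain ⟨C', hC'1, hC'2⟩ := hP3 hB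
          have hC'B : C' ≠ B := by
            rintro rfl
            exact hB hC'1
          obtain ⟨c', hc'1, hc'2⟩ := TG.exists_next hG (fun h => hC'B h.symm : B ≠ C')
          have heq : c = c' := K33a_next_eq hG hc ⟨hc'1, hc'2⟩ (fun hb =>
            hB (hconv P' P'.2.1 C hC C' hC'1 B hb))
          subst heq
          exact hC'2 ⟨hC'B, c, ⟨hc'1, hc'2⟩, hPc⟩
  apply TG.isTree_of_sep hcon
  rintro (B | P) (B' | P') hab
  · exact absurd hab (by simp [Bip])
  · obtain ⟨Z, z1, z2, z3⟩ := hsep B P' hab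
    refine ⟨Zᶜ, z1, fun h => h z2, ?_⟩
    rintro (C | R) (C' | R') hxy hx hy
    · exact absurd hxy (by simp [Bip])
    · obtain ⟨rfl, rfl⟩ := (z3 C R' hxy).1 ⟨hx, not_not.1 hy⟩
      exact ⟨rfl, rfl⟩
    · exact absurd ⟨not_not.1 hy, hx⟩ (z3 C' R hxy).2
    · exact absurd hxy (by simp [Bip])
  · obtain ⟨Z, z1, z2, z3⟩ := hsep B' P hab
    refine ⟨Z, z2, z1, ?_⟩
    rintro (C | R) (C' | R') hxy hx hy
    · exact absurd hxy (by simp [Bip])
    · exact absurd ⟨hx, hy⟩ (z3 C R' hxy).2
    · obtain ⟨rfl, rfl⟩ := (z3 C' R hxy).1 ⟨hy, hx⟩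
      exact ⟨rfl, rfl⟩
    · exact absurd hxy (by simp [Bip])
  · exact absurd hab (by simp [Bip])

end K33a

end Pool.Agent.Lib.MP_6567fb_al
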