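import Pool.Agent.Lib.MP_6567fb_al.K33a

/-!
# MP_6567fb_al, module K33b

Let e be the edge (B,P) of the tree Bip.  Z := {z : Beyond (inl B) (inr P) z} contains inr P; the only edge between Z and its complement is (B,P) (beyond_edge).  Walk from c to C along the geodesic of Gr: it avoids B; consecutive points u, v are joined in Bip by u - P_uv - v, which avoids inl B; inr P - inl c also.
So inl C in Z: dist (inr P) (inl C) < dist (inl B) (inl C), adj_dist.
-/

set_option autoImplicit false

open scoped Pointwise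

namespace Pool.Agent.Lib.MP_6567fb_al

open MTree

theorem lam_of_next {W GG Q : Type} [Group GG] [Group Q] (a : GG →* Equiv.Perm W) (p : GG →* Q) (q : Q)
    {Gr : SimpleGraph W} (hG : Gr.IsTree)
    (h1 : ∀ P, p P = q → ∀ x y, Gr.Adj x y → Gr.Adj (a P x) (a P y))
    (h2 : ∀ x y, Gr.Adj x y → ∃ P, p P = q ∧ a P x = x ∧ a P y = y)
    (h3 : ∀ P P' x y, p P = q → p P' = q → x ≠ y → a P x = x → a P y = y → a P' x = x → a P' y = y →
      P = P') {B C c : W} {P : GG} (hP : p P = q) (hB : a P B = B) (hc : a P c = c)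
    (hn : Nxt Gr B C c) : Lam a p B C P := by
  have hT := bip_tree a p q hG h1 h2 h3
  subst hP
  refine ⟨hB, hB, ?_⟩
  have hadj : (Bip a p (p P)).Adj (Sum.inl B) (Sum.inr ⟨P, rfl, B, hB⟩) := hB
  have hadj' : (Bip a p (p P)).Adj (Sum.inr ⟨P, rfl, B, hB⟩) (Sum.inl c) := hc
  suffices hb : TG.Beyond (Bip a p (p P)) (Sum.inl B) (Sum.inr ⟨P, rfl, B, hB⟩) (Sum.inl C) by
    unfold TG.Beyond at hb
    rcases TG.adj_dist hT hadj (Sum.inl C) with h | h <;> omega
  have key : ∀ k : ℕ, ∀ D : W, Gr.dist c D = k → TG.Btw Gr B c D →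
      TG.Beyond (Bip a p (p P)) (Sum.inl B) (Sum.inr ⟨P, rfl, B, hB⟩) (Sum.inl D) := by
    intro k
    induction k with
    | zero =>
      intro D hk _
      have := TG.dist_zero hG hk
      subst this
      unfold TG.Beyond
      rcases TG.adj_dist hT hadj (Sum.inl c) with h | h
      · omega
      · exfalso
        rw [TG.dist_eq_one hadj'] at h
        have h5 := TG.dist_zero hT
          (by omega : (Bip a p (p P)).dist (Sum.inl B) (Sum.inl c) = 0)
        exact hn.1.ne (Sum.inl.inj h5)
    | succ k ih =>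
      intro D hk hb
      have hDc : D ≠ c := by
        rintro rfl
        rw [SimpleGraph.dist_self] at hk
        omega
      obtain ⟨D', hD1, hD2⟩ := TG.exists_next hG hDc
      have e1 := Gr.dist_comm (u := c) (v := D)
      have e2 := Gr.dist_comm (u := c) (v := D')
      have hb' : TG.Btw Gr B c D' := by
        have t1 := TG.dist_tri hG B D' D
        have t2 := TG.dist_tri hG B c D'
        rw [TG.dist_eq_one hD1.symm] at t1
        unfold TG.Btw at *
        omega
      have hbe := ih D' (by omega) hb'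
      obtain ⟨R, hR, hRD, hRD'⟩ := h2 D D' hD1
      by_contra hcon
      have a1 : (Bip a p (p P)).Adj (Sum.inl D) (Sum.inr ⟨R, hR, D, hRD⟩) := hRD
      have a2 : (Bip a p (p P)).Adj (Sum.inr ⟨R, hR, D, hRD⟩) (Sum.inl D') := hRD'
      by_cases hR2 : TG.Beyond (Bip a p (p P)) (Sum.inl B) (Sum.inr ⟨P, rfl, B, hB⟩)
        (Sum.inr ⟨R, hR, D, hRD⟩)
      · have h5 := (TG.beyond_edge hT hadj a1 hcon hR2).1
        have h6 : D = B := Sum.inl.inj h5
        subst h6
        unfold TG.Btw at hb
        rw [SimpleGraph.dist_self] at hb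
        omega
      · exact absurd (TG.beyond_edge hT hadj a2 hR2 hbe).1 Sum.inr_ne_inl
  exact key _ C rfl (TG.btw_next hn.1 hn.2)

end Pool.Agent.Lib.MP_6567fb_al
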