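import Pool.Agent.Lib.MP_6567fb_al.Defs8
import Pool.Agent.Lib.MP_6567fb_al.T1c

/-!
# MP_6567fb_al, module K34a

Lemma M0 (helper5), first facts.  All Bip a p q are trees.
bip_unique (i): B - P - C - P' - B would be a cycle (in a tree two vertices have at most one common neighbour: both are the Nxt of B in the direction of C).
lam_exists: exists_unique_next for inl B, inl C; a neighbour of inl B is an inr.  lam_unique: next_unique.
lam_comm (ii): Z with p Z central.  Conjugation by Z is an automorphism of Bip a p q (inl D -> inl (a Z D), inr P -> inr (Z P Z⁻¹), p (Z P Z⁻¹) = p P); it fixes inl B and inl C, so it fixes every vertex on the geodesic (isometry, btw_point_unique): in particular the next vertex inr P and all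
inl D between.
-/

set_option autoImplicit false

open scoped Pointwise

namespace Pool.Agent.Lib.MP_6567fb_al

open MTree
variable {W GG Q : Type} [Group GG] [Group Q] {a : GG →* Equiv.Perm W} {p : GG →* Q}

theorem k34a_adj {q : Q} {B : W} {P : {P : GG // p P = q ∧ ∃ B, a P B = B}} :
    (Bip a p q).Adj (Sum.inl B) (Sum.inr P) ↔ a (P : GG) B = B := Iff.rfl

theorem k34a_adj' {q : Q} {B : W} {P : {P : GG // p P = q ∧ ∃ B, a P B = B}} :
    (Bip a p q).Adj (Sum.inr P) (Sum.inl B) ↔ a (P : GG) B = B := Iff.rfl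

theorem lam_iff {q : Q} {B C : W} {P : GG} (hq : p P = q) :
    Lam a p B C P ↔ ∃ hP : a P B = B,
      Nxt (Bip a p q) (Sum.inl B) (Sum.inl C) (Sum.inr ⟨P, hq, B, hP⟩) := by
  subst hq
  exact Iff.rfl

theorem bip_unique (ht : ∀ q, (Bip a p q).IsTree) {P P' : GG} (hp : p P = p P') {B C : W} (hBC : B ≠ C)
    (h1 : a P B = B) (h2 : a P C = C) (h3 : a P' B = B) (h4 : a P' C = C) : P = P' := by
  have hT := ht (p P')
  have key : ∀ x : {R : GG // p R = p P' ∧ ∃ B, a R B = B}, a (x : GG) B = B → a (x : GG) C = C →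
      (Bip a p (p P')).Adj (Sum.inl B) (Sum.inr x) ∧
      (Bip a p (p P')).dist (Sum.inr x) (Sum.inl C) + 1 =
        (Bip a p (p P')).dist (Sum.inl B) (Sum.inl C) := by
    intro x hx hx'
    have e1 : (Bip a p (p P')).Adj (Sum.inl B) (Sum.inr x) := hx
    have e2 : (Bip a p (p P')).Adj (Sum.inr x) (Sum.inl C) := hx'
    refine ⟨e1, ?_⟩
    rcases TG.adj_dist hT e1 (Sum.inl C) with h | h
    · exact h.symm
    · exfalso
      rw [TG.dist_eq_one e2] at h
      have := TG.dist_zero hT (by omega : (Bip a p (p P')).dist (Sum.inl B) (Sum.inl C) = 0)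
      exact hBC (Sum.inl.inj this)
  have k1 := key ⟨P, hp, B, h1⟩ h1 h2
  have k2 := key ⟨P', rfl, B, h3⟩ h3 h4
  have h5 := TG.next_unique hT k1.1 k1.2 k2.1 k2.2
  exact congrArg Subtype.val (Sum.inr.inj h5)

theorem lam_ne {B C : W} {P : GG} (h : Lam a p B C P) : B ≠ C := by
  rintro rfl
  obtain ⟨_, _, h2⟩ := h
  rw [SimpleGraph.dist_self] at h2
  omega

theorem lam_exists (ht : ∀ q, (Bip a p q).IsTree) (q : Q) {B C : W} (hBC : B ≠ C) :
    ∃ P, p P = q ∧ Lam a p B C P := by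
  have hne : (Sum.inl B : W ⊕ {P : GG // p P = q ∧ ∃ B, a P B = B}) ≠ Sum.inl C :=
    fun h => hBC (Sum.inl.inj h)
  obtain ⟨y, hy1, hy2⟩ := TG.exists_next (ht q) hne
  rcases y with D | P
  · exact absurd hy1 (fun h => h)
  · obtain ⟨P, hp, hB⟩ := P
    refine ⟨P, hp, (lam_iff hp).2 ⟨hy1, hy1, hy2⟩⟩

theorem lam_unique (ht : ∀ q, (Bip a p q).IsTree) {B C : W} {P P' : GG} (hp : p P = p P')
    (h : Lam a p B C P) (h' : Lam a p B C P') : P = P' := by
  obtain ⟨h1, h2, h3⟩ := (lam_iff hp).1 h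
  obtain ⟨h1', h2', h3'⟩ := h'
  have h5 := TG.next_unique (ht _) h2 h3 h2' h3'
  exact congrArg Subtype.val (Sum.inr.inj h5)

/-- conjugation by `Z` on the bipartite graph -/
def bipConj (a : GG →* Equiv.Perm W) (p : GG →* Q) (q : Q) {Z : GG}
    (hz : ∀ P, p (Z * P) = p (P * Z)) :
    W ⊕ {P : GG // p P = q ∧ ∃ B, a P B = B} → W ⊕ {P : GG // p P = q ∧ ∃ B, a P B = B}
  | Sum.inl D => Sum.inl (a Z D)
  | Sum.inr P => Sum.inr ⟨Z * P * Z⁻¹, by
      rw [map_mul, hz, map_mul, map_inv, mul_assoc, mul_inv_cancel, mul_one]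
      exact P.2.1, by
      obtain ⟨B, hB⟩ := P.2.2
      refine ⟨a Z B, ?_⟩
      rw [map_mul, map_mul, Equiv.Perm.mul_apply, Equiv.Perm.mul_apply, map_inv,
        show (a Z)⁻¹ (a Z B) = B from (a Z).symm_apply_apply B, hB]⟩

theorem bipConj_dist (ht : ∀ q, (Bip a p q).IsTree) {Z : GG} (hz : ∀ P, p (Z * P) = p (P * Z))
    (q : Q) (x y : W ⊕ {P : GG // p P = q ∧ ∃ B, a P B = B}) :
    (Bip a p q).dist (bipConj a p q hz x) (bipConj a p q hz y) = (Bip a p q).dist x y := by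
  have hW : ∀ (P : GG) (B : W), a P B = B → a (Z * P * Z⁻¹) (a Z B) = a Z B := by
    intro P B hB
    rw [map_mul, map_mul, Equiv.Perm.mul_apply, Equiv.Perm.mul_apply, map_inv,
      show (a Z)⁻¹ (a Z B) = B from (a Z).symm_apply_apply B, hB]
  apply TG.local_inj (ht q) (ht q)
  · rintro (x | x) (y | y) hxy
    · exact hxy
    · exact hW _ _ hxy
    · exact hW _ _ hxy
    · exact hxy
  · rintro x y z - - hyz h
    apply hyz
    rcases y with y | y <;> rcases z with z | z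
    · have h1 := Sum.inl.inj h
      rw [(a Z).injective h1]
    · exact absurd h (by simp [bipConj])
    · exact absurd h (by simp [bipConj])
    · have h1 := congrArg Subtype.val (Sum.inr.inj h)
      have h2 : (y : GG) = z := by
        have h3 : Z * (y : GG) * Z⁻¹ = Z * z * Z⁻¹ := h1
        exact mul_left_cancel (mul_right_cancel h3)
      rw [Subtype.ext h2]

theorem k34a_fix (ht : ∀ q, (Bip a p q).IsTree) {Z : GG} (hz : ∀ P, p (Z * P) = p (P * Z)) {B C : W}
    (h1 : a Z B = B) (h2 : a Z C = C) (q : Q) {y : W ⊕ {P : GG // p P = q ∧ ∃ B, a P B = B}}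
    (hD : TG.Btw (Bip a p q) (Sum.inl B) y (Sum.inl C)) : bipConj a p q hz y = y := by
  have e1 : bipConj a p q hz (Sum.inl B) = Sum.inl B := congrArg Sum.inl h1
  have e2 : bipConj a p q hz (Sum.inl C) = Sum.inl C := congrArg Sum.inl h2
  have d1 := bipConj_dist ht hz q (Sum.inl B) y
  have d2 := bipConj_dist ht hz q y (Sum.inl C)
  rw [e1] at d1
  rw [e2] at d2
  refine TG.btw_point_unique (ht q) ?_ d1 hD rfl
  unfold TG.Btw at *
  rw [d1, d2, hD]

theorem btw_fixed (ht : ∀ q, (Bip a p q).IsTree) {Z : GG} (hz : ∀ P, p (Z * P) = p (P * Z)) {B C : W}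
    (h1 : a Z B = B) (h2 : a Z C = C) (q : Q) {D : W}
    (hD : TG.Btw (Bip a p q) (Sum.inl B) (Sum.inl D) (Sum.inl C)) : a Z D = D :=
  Sum.inl.inj (k34a_fix ht hz h1 h2 q hD)

theorem btw_fixed' (ht : ∀ q, (Bip a p q).IsTree) {Z : GG} (hz : ∀ P, p (Z * P) = p (P * Z)) {B C : W}
    (h1 : a Z B = B) (h2 : a Z C = C) (q : Q) {P : {P : GG // p P = q ∧ ∃ B, a P B = B}}
    (hD : TG.Btw (Bip a p q) (Sum.inl B) (Sum.inr P) (Sum.inl C)) : Z * P = P * Z := by
  have h := congrArg Subtype.val (Sum.inr.inj (k34a_fix ht hz h1 h2 q hD))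
  have h3 : Z * (P : GG) * Z⁻¹ = P := h
  exact mul_inv_eq_iff_eq_mul.1 h3

theorem lam_comm (ht : ∀ q, (Bip a p q).IsTree) {Z : GG} (hz : ∀ P, p (Z * P) = p (P * Z)) {B C : W}
    (hBC : B ≠ C) (h1 : a Z B = B) (h2 : a Z C = C) {P : GG} (hP : Lam a p B C P) :
    Z * P = P * Z := by
  obtain ⟨h3, h4, h5⟩ := hP
  exact btw_fixed' ht hz h1 h2 _ (TG.btw_next h4 h5)

end Pool.Agent.Lib.MP_6567fb_al
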