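import Pool.Agent.Lib.MP_6567fb_al.K34a

/-!
# MP_6567fb_al, module K34b

Lemma M0 (iii).  Let the geodesic of Bip a p (p Z) from B to C be B - Z - C_1 - Z_2 - C_2 - ... - C_k = C.  Claim: for every q, Lam B C_j = Lam B C_1 over q for all j (so Lam B C P implies Lam B C_1 P).  Otherwise let j >= 2 be minimal with Lam B C_j ≠ Lam B C_1 = Lam B C_(j-1) (over q).
Then B lies on the Bip q - geodesic from C_(j-1) to C_j (the first vertices are different); Z_j fixes C_(j-1) and C_j, p Z_j = p Z is central, so Z_j fixes B (btw_fixed).  In Bip (p Z): B - Z_j adjacent, so dist (inl B) (inr Z_j) = 1, but Z_j is at distance 2 j - 1 >= 3 from B on the geodesic: contradiction.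
-/

set_option autoImplicit false

open scoped Pointwise

namespace Pool.Agent.Lib.MP_6567fb_al

open MTree
variable {W GG Q : Type} [Group GG] [Group Q] {a : GG →* Equiv.Perm W} {p : GG →* Q}

/-- different first vertices: the vertex is between -/
theorem k34b_btw {X : Type} {G : SimpleGraph X} (hG : G.IsTree) {x y z u v : X} (hu : Nxt G x y u)
    (hv : Nxt G x z v) (huv : u ≠ v) : TG.Btw G y x z := by
  have h1 : TG.Btw G y u x := TG.btw_symm hG (TG.btw_next hu.1 hu.2)
  have h3 : TG.Btw G u x v := by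
    unfold TG.Btw
    rw [TG.dist_eq_one hu.1.symm, TG.dist_eq_one hv.1]
    rcases TG.adj_dist hG hu.1 v with h | h
    · exfalso
      rw [TG.dist_eq_one hv.1] at h
      exact huv (TG.dist_zero hG (by omega))
    · rw [h, TG.dist_eq_one hv.1]
  have h2 : TG.Btw G x v z := TG.btw_next hv.1 hv.2
  have h4 := TG.btw_glue hG h3 h2 hv.1.ne
  have h5 := TG.btw_glue hG h1 h4.1 hu.1.ne'
  exact h5.2

theorem lam_stable (ht : ∀ q, (Bip a p q).IsTree) {Z : GG} (hz : ∀ P, p (Z * P) = p (P * Z)) {B C : W}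
    (hZ : Lam a p B C Z) :
    ∃ C₁, C₁ ≠ B ∧ a Z B = B ∧ a Z C₁ = C₁ ∧ ∀ P, Lam a p B C P → Lam a p B C₁ P := by
  obtain ⟨hZB, hZ1, hZ2⟩ := hZ
  have hT := ht (p Z)
  obtain ⟨T, hTdef⟩ : ∃ T, T = Bip a p (p Z) := ⟨_, rfl⟩
  rw [← hTdef] at hZ1 hZ2 hT
  have hne : (Sum.inr ⟨Z, rfl, B, hZB⟩ : W ⊕ {P : GG // p P = p Z ∧ ∃ B, a P B = B}) ≠ Sum.inl C :=
    Sum.inr_ne_inl
  obtain ⟨y, hy1, hy2⟩ := TG.exists_next hT hne
  rcases y with C₁ | R
  swap
  · rw [hTdef] at hy1
    exact absurd hy1 (fun h => h)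
  have hZC₁ : a Z C₁ = C₁ := by
    rw [hTdef] at hy1
    exact hy1
  have hdC₁ : T.dist (Sum.inl B) (Sum.inl C₁) = 2 := by
    have t1 := TG.dist_tri hT (Sum.inl B) (Sum.inr ⟨Z, rfl, B, hZB⟩) (Sum.inl C₁)
    have t2 := TG.dist_tri hT (Sum.inl B) (Sum.inl C₁) (Sum.inl C)
    rw [TG.dist_eq_one hZ1, TG.dist_eq_one hy1] at t1
    omega
  refine ⟨C₁, ?_, hZB, hZC₁, ?_⟩
  · rintro rfl
    rw [SimpleGraph.dist_self] at hdC₁
    omega
  have key : ∀ k : ℕ, ∀ D : W, T.dist (Sum.inl C₁) (Sum.inl D) = k →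
      TG.Btw T (Sum.inl B) (Sum.inl C₁) (Sum.inl D) → ∀ P, Lam a p B D P → Lam a p B C₁ P := by
    intro k
    induction k using Nat.strong_induction_on with
    | _ k ih =>
      intro D hk hb P hP
      by_cases hD : D = C₁
      · rw [← hD]
        exact hP
      have hne2 : (Sum.inl D : W ⊕ {P : GG // p P = p Z ∧ ∃ B, a P B = B}) ≠ Sum.inl C₁ :=
        fun h => hD (Sum.inl.inj h)
      obtain ⟨y, hy3, hy4⟩ := TG.exists_next hT hne2
      rcases y with E | R
      · rw [hTdef] at hy3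
        exact absurd hy3 (fun h => h)
      have hne3 : (Sum.inr R : W ⊕ {P : GG // p P = p Z ∧ ∃ B, a P B = B}) ≠ Sum.inl C₁ :=
        Sum.inr_ne_inl
      obtain ⟨y, hy5, hy6⟩ := TG.exists_next hT hne3
      rcases y with E | R'
      swap
      · rw [hTdef] at hy5
        exact absurd hy5 (fun h => h)
      have hRD : a (R : GG) D = D := by
        rw [hTdef] at hy3
        exact hy3
      have hRE : a (R : GG) E = E := by
        rw [hTdef] at hy5
        exact hy5
      unfold TG.Btw at hb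
      have c1 := T.dist_comm (u := Sum.inl C₁) (v := Sum.inl D)
      have c2 := T.dist_comm (u := Sum.inl C₁) (v := Sum.inl E)
      have c3 := T.dist_comm (u := Sum.inr R) (v := Sum.inl D)
      have c4 := T.dist_comm (u := Sum.inr R) (v := Sum.inl E)
      have a1 := TG.dist_eq_one hy3
      have a2 := TG.dist_eq_one hy5
      have t1 := TG.dist_tri hT (Sum.inl B) (Sum.inr R) (Sum.inl D)
      have t2 := TG.dist_tri hT (Sum.inl B) (Sum.inl E) (Sum.inr R)
      have t3 := TG.dist_tri hT (Sum.inl B) (Sum.inl C₁) (Sum.inl E)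
      have hbE : TG.Btw T (Sum.inl B) (Sum.inl C₁) (Sum.inl E) := by
        unfold TG.Btw
        omega
      have hEne : E ≠ B := by
        rintro rfl
        unfold TG.Btw at hbE
        rw [SimpleGraph.dist_self] at hbE
        omega
      obtain ⟨P', hp', hP'⟩ := lam_exists ht (p P) (Ne.symm hEne)
      have hPE := ih _ (by omega) E rfl hbE P' hP'
      by_cases hPP : P' = P
      · rw [← hPP]
        exact hPE
      exfalso
      obtain ⟨hPB, hn1⟩ := hP
      obtain ⟨hPB', hn2⟩ := (lam_iff hp').1 hP'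
      have hb3 : TG.Btw (Bip a p (p P)) (Sum.inl E) (Sum.inl B) (Sum.inl D) := by
        refine k34b_btw (ht _) hn2 hn1 ?_
        intro h
        exact hPP (congrArg Subtype.val (Sum.inr.inj h))
      have hzR : ∀ P, p ((R : GG) * P) = p (P * R) := by
        intro P
        rw [map_mul, map_mul, R.2.1, ← map_mul, ← map_mul, hz]
      have hRB := btw_fixed ht hzR hRE hRD (p P) hb3
      have hadj : T.Adj (Sum.inl B) (Sum.inr R) := by
        rw [hTdef]
        exact hRB
      have a3 := TG.dist_eq_one hadj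
      omega
  intro P hP
  refine key _ C rfl ?_ P hP
  unfold TG.Btw
  omega

end Pool.Agent.Lib.MP_6567fb_al
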