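import Pool.Agent.Lib.MP_6567fb_al.K34a

/-!
# MP_6567fb_al, module K34c

Lemma M0 (iv): the sub-system.  GG' := C(Z) / <Z>, W' := Fix Z, Q' := Q / <p Z>, μ the projection.  a' : induced by P -> (a P restricted to Fix Z) (Z acts trivially); p' induced by p.  card Q' < card Q since p Z ≠ 1.
Every q is p P with P in C(Z) (lam_exists, lam_comm for B, C).  For q' in Q' choose q over q'.  Elements P' of GG' over q' correspond to the P in C(Z) over q: exists (multiply by a power of Z), unique: Z^i over 1 fixes B and C, so it is 1 (bip_unique with 1).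
So Bip a' p' q' is isomorphic to the subgraph of Bip a p q on Fix Z and {P : P in C(Z), over q, with a fixed point in Fix Z}: convex (btw_fixed, btw_fixed'), so a tree and geodesics are the same (induce_conv), which gives also the last clause.
-/

set_option autoImplicit false

open scoped Pointwise

namespace Pool.Agent.Lib.MP_6567fb_al

open MTree
variable {W GG Q : Type} [Group GG] [Group Q] {a : GG →* Equiv.Perm W} {p : GG →* Q}

namespace K34c

/-- the sub-system inside `Bip a p q` -/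
def SS (a : GG →* Equiv.Perm W) (p : GG →* Q) (Z : GG) (q : Q) :
    Set (W ⊕ {P : GG // p P = q ∧ ∃ B, a P B = B}) := fun v =>
  match v with
  | Sum.inl D => a Z D = D
  | Sum.inr P => Z * (P : GG) = (P : GG) * Z ∧ ∃ D, a (P : GG) D = D ∧ a Z D = D

theorem mem_inl {Z : GG} {q : Q} {D : W} : (Sum.inl D ∈ SS a p Z q) ↔ a Z D = D := Iff.rfl

theorem mem_inr {Z : GG} {q : Q} {P : {P : GG // p P = q ∧ ∃ B, a P B = B}} :
    (Sum.inr P ∈ SS a p Z q) ↔ (Z * (P : GG) = (P : GG) * Z ∧ ∃ D, a (P : GG) D = D ∧ a Z D = D) :=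
  Iff.rfl

/-- replacing an end point of a geodesic by a neighbour -/
theorem btw_red {X : Type} {T : SimpleGraph X} (hT : T.IsTree) {x x' z v : X} (h : T.Adj x x')
    (hb : TG.Btw T x v z) : v = x ∨ TG.Btw T x' v z := by
  by_cases hv : v = x
  · exact Or.inl hv
  right
  have hv' : x ≠ v := fun h => hv h.symm
  unfold TG.Btw at *
  have t1 := hT.1.dist_triangle (u := x') (v := v) (w := z)
  rcases TG.adj_dist hT h z with h1 | h1
  · obtain ⟨y0, ⟨hy1, hy2⟩, _⟩ := TG.exists_unique_next hT hv'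
    have t2 := hT.1.dist_triangle (u := y0) (v := v) (w := z)
    have t3 := hT.1.dist_triangle (u := x) (v := y0) (w := z)
    rw [SimpleGraph.dist_eq_one_iff_adj.2 hy1] at t3
    have hxz : x ≠ z := by
      rintro rfl
      rw [SimpleGraph.dist_self] at h1
      omega
    have e0 := (TG.exists_unique_next hT hxz).unique ⟨h, by omega⟩ (y₂ := y0) ⟨hy1, by omega⟩
    rw [← e0] at hy2
    omega
  · have t2 := hT.1.dist_triangle (u := x') (v := x) (w := v)
    rw [SimpleGraph.dist_eq_one_iff_adj.2 h.symm] at t2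
    omega

theorem conv (ht : ∀ q, (Bip a p q).IsTree) {Z : GG}
    (hz : ∀ P, p (Z * P) = p (P * Z)) (q : Q) : TG.Conv (Bip a p q) (SS a p Z q) := by
  have hT := ht q
  -- between two fixed members
  have step1 : ∀ D E : W, a Z D = D → a Z E = E → ∀ y, TG.Btw (Bip a p q) (Sum.inl D) y (Sum.inl E) →
      y ∈ SS a p Z q := by
    intro D E hD hE y hy
    rcases y with F | P
    · exact btw_fixed ht hz hD hE q hy
    · refine ⟨btw_fixed' ht hz hD hE q hy, ?_⟩
      have hne : (Sum.inr P : W ⊕ {P : GG // p P = q ∧ ∃ B, a P B = B}) ≠ Sum.inl D := by simp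
      obtain ⟨y', ⟨hy1, hy2⟩, _⟩ := TG.exists_unique_next hT hne
      rcases y' with D' | P'
      · have hb : TG.Btw (Bip a p q) (Sum.inl D) (Sum.inl D') (Sum.inl E) := by
          unfold TG.Btw at *
          have t1 := hT.1.dist_triangle (u := Sum.inl D') (v := Sum.inr P) (w := Sum.inl E)
          have t2 := hT.1.dist_triangle (u := Sum.inl D) (v := Sum.inl D') (w := Sum.inl E)
          rw [SimpleGraph.dist_eq_one_iff_adj.2 hy1.symm] at t1
          rw [SimpleGraph.dist_comm (u := Sum.inl D') (v := Sum.inl D),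
            SimpleGraph.dist_comm (u := Sum.inr P) (v := Sum.inl D)] at hy2
          omega
        exact ⟨D', hy1, btw_fixed ht hz hD hE q hb⟩
      · exact hy1.elim
  have step2 : ∀ D : W, a Z D = D → ∀ z ∈ SS a p Z q, ∀ y, TG.Btw (Bip a p q) (Sum.inl D) y z →
      y ∈ SS a p Z q := by
    intro D hD z hz' y hy
    rcases z with E | P
    · exact step1 D E hD hz' y hy
    · obtain ⟨_, E, hE1, hE2⟩ := hz'
      have hadj : (Bip a p q).Adj (Sum.inr P) (Sum.inl E) := hE1
      rcases btw_red hT hadj (TG.btw_symm hT hy) with h | h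
      · rw [h]; exact ⟨by assumption, E, hE1, hE2⟩
      · exact step1 D E hD hE2 y (TG.btw_symm hT h)
  intro x hx z hz' y hy
  rcases x with D | P
  · exact step2 D hx z hz' y hy
  · obtain ⟨h0, E, hE1, hE2⟩ := hx
    have hadj : (Bip a p q).Adj (Sum.inr P) (Sum.inl E) := hE1
    rcases btw_red hT hadj hy with h | h
    · rw [h]; exact ⟨h0, E, hE1, hE2⟩
    · exact step2 E hE2 z hz' y h

variable {Z : GG} {GG' Q' : Type} [Group GG'] [Group Q'] {a' : GG' →* Equiv.Perm {x : W // a Z x = x}}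
  {p' : GG' →* Q'} {μ : Subgroup.centralizer {Z} →* GG'} {ν : Q →* Q'}

/-- transfer of the tree -/
theorem transfer (hT : ∀ q, (Bip a p q).IsTree) (hz : ∀ P, p (Z * P) = p (P * Z))
    (hne : ∃ B, a Z B = B)
    (m1 : Function.Surjective μ)
    (m2 : ∀ (P : Subgroup.centralizer {Z}) (D : {x : W // a Z x = x}), (a' (μ P) D : W) = a P D)
    (m3 : ∀ P P' : Subgroup.centralizer {Z}, μ P = μ P' → p P = p P' → P = P')
    (m4 : ∀ (P : Subgroup.centralizer {Z}) (q : Q), p' (μ P) = ν q → ∃ P1, μ P1 = μ P ∧ p (P1 : GG) = q)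
    (m5 : ∀ P : Subgroup.centralizer {Z}, p' (μ P) = ν (p P)) (q : Q) :
    (Bip a' p' (ν q)).IsTree ∧
      ∃ f : SS a p Z q → {x : W // a Z x = x} ⊕ {P : GG' // p' P = ν q ∧ ∃ B, a' P B = B},
        (∀ x y, (Bip a' p' (ν q)).dist (f x) (f y) = (Bip a p q).dist x y) ∧
        (∀ (D : W) (h : Sum.inl D ∈ SS a p Z q), f ⟨Sum.inl D, h⟩ = Sum.inl ⟨D, h⟩) ∧
        ∀ (P : {P : GG // p P = q ∧ ∃ B, a P B = B}) (h : Sum.inr P ∈ SS a p Z q)
          (h1 : (P : GG) ∈ Subgroup.centralizer {Z}) (h2), f ⟨Sum.inr P, h⟩ = Sum.inr ⟨μ ⟨P, h1⟩, h2⟩ := by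
  classical
  obtain ⟨B0, hB0⟩ := hne
  have hc : TG.Conv (Bip a p q) (SS a p Z q) := conv hT hz q
  obtain ⟨t1, t2⟩ := TG.induce_conv (hT q) hc ⟨Sum.inl B0, hB0⟩
  have hcen : ∀ P : {P : GG // p P = q ∧ ∃ B, a P B = B}, Sum.inr P ∈ SS a p Z q →
      (P : GG) ∈ Subgroup.centralizer {Z} := by
    intro P h
    rw [Subgroup.mem_centralizer_singleton_iff]
    exact h.1.symm
  have hfix : ∀ (P : {P : GG // p P = q ∧ ∃ B, a P B = B}) (h : Sum.inr P ∈ SS a p Z q),
      p' (μ ⟨P, hcen P h⟩) = ν q ∧ ∃ B, a' (μ ⟨P, hcen P h⟩) B = B := by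
    intro P h
    refine ⟨?_, ?_⟩
    · rw [m5]
      exact congrArg ν P.2.1
    · obtain ⟨_, D, hD1, hD2⟩ := h
      exact ⟨⟨D, hD2⟩, Subtype.ext (by rw [m2]; exact hD1)⟩
  let f : SS a p Z q → {x : W // a Z x = x} ⊕ {P : GG' // p' P = ν q ∧ ∃ B, a' P B = B} :=
    fun v => match v with
      | ⟨Sum.inl D, h⟩ => Sum.inl ⟨D, h⟩
      | ⟨Sum.inr P, h⟩ => Sum.inr ⟨μ ⟨P, hcen P h⟩, hfix P h⟩
  have hinj : Function.Injective f := by
    rintro ⟨D | P, h⟩ ⟨D' | P', h'⟩ hf
    · have := Subtype.mk.inj (Sum.inl.inj hf)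
      subst this; rfl
    · exact absurd hf (by simp [f])
    · exact absurd hf (by simp [f])
    · have h1 := Subtype.mk.inj (Sum.inr.inj hf)
      have h2 := m3 _ _ h1 (P.2.1.trans P'.2.1.symm)
      have h3 : (P : GG) = P' := congrArg (fun z : Subgroup.centralizer {Z} => (z : GG)) h2
      have h4 : P = P' := Subtype.ext h3
      subst h4; rfl
  have hsurj : Function.Surjective f := by
    rintro (D | P')
    · exact ⟨⟨Sum.inl D.1, D.2⟩, rfl⟩
    · obtain ⟨P', hP1, ⟨B, hB⟩⟩ := P'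
      obtain ⟨P0, rfl⟩ := m1 P'
      obtain ⟨P, hPμ, hPq⟩ := m4 P0 q hP1
      have hPB : a (P : GG) (B : W) = B := by
        rw [← m2, hPμ, hB]
      have hmem : Sum.inr ⟨(P : GG), hPq, (B : W), hPB⟩ ∈ SS a p Z q := by
        refine ⟨?_, B, hPB, B.2⟩
        exact (Subgroup.mem_centralizer_singleton_iff.1 P.2).symm
      refine ⟨⟨_, hmem⟩, ?_⟩
      change Sum.inr _ = Sum.inr _
      congr 1
      exact Subtype.ext hPμ
  let e : (Bip a p q).induce (SS a p Z q) ≃g Bip a' p' (ν q) :=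
    { toEquiv := Equiv.ofBijective f ⟨hinj, hsurj⟩
      map_rel_iff' := by
        rintro ⟨D | P, h⟩ ⟨D' | P', h'⟩
        · exact Iff.rfl
        · change a' (μ ⟨P', _⟩) ⟨D, _⟩ = ⟨D, _⟩ ↔ a (P' : GG) D = D
          rw [Subtype.ext_iff, m2]
        · change a' (μ ⟨P, _⟩) ⟨D', _⟩ = ⟨D', _⟩ ↔ a (P : GG) D' = D'
          rw [Subtype.ext_iff, m2]
        · exact Iff.rfl }
  have hed : ∀ x y, (Bip a' p' (ν q)).dist (e x) (e y)
      = ((Bip a p q).induce (SS a p Z q)).dist x y := by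
    intro x y
    have key : ∀ {V V' : Type} {G1 : SimpleGraph V} {G2 : SimpleGraph V'} (e : G1 ≃g G2)
        (hG : G1.Connected) (x y : V), G2.dist (e x) (e y) ≤ G1.dist x y := by
      intro V V' G1 G2 e hG x y
      obtain ⟨w, hw⟩ := hG.exists_walk_length_eq_dist x y
      rw [← hw, ← SimpleGraph.Walk.length_map e.toHom w]
      exact SimpleGraph.dist_le _
    refine le_antisymm (key e t1.1 x y) ?_
    have := key e.symm ((SimpleGraph.Iso.connected_iff e).1 t1.1) (e x) (e y)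
    simpa using this
  refine ⟨(SimpleGraph.Iso.isTree_iff e).1 t1, f, fun x y => ?_, fun D h => rfl, fun P h h1 h2 => rfl⟩
  rw [← t2 x y]
  exact hed x y

end K34c

open K34c in
theorem sub_system (ht : ∀ q, (Bip a p q).IsTree) [Finite Q] (hQ : IsPGroup 3 Q) {Z : GG}
    (hz : ∀ P, p (Z * P) = p (P * Z)) (hz1 : p Z ≠ 1) {B C : W} (hBC : B ≠ C) (h1 : a Z B = B)
    (h2 : a Z C = C) :
    ∃ (GG' Q' : Type) (_ : Group GG') (_ : Group Q') (a' : GG' →* Equiv.Perm {x : W // a Z x = x})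
      (p' : GG' →* Q') (μ : Subgroup.centralizer {Z} →* GG'), Finite Q' ∧ IsPGroup 3 Q' ∧
      Nat.card Q' < Nat.card Q ∧ (∀ q', (Bip a' p' q').IsTree) ∧
      (∀ P : Subgroup.centralizer {Z}, μ P = 1 → p (P : GG) = 1 → (P : GG) = 1) ∧
      (∀ P P' : Subgroup.centralizer {Z}, p (P : GG) = p (P' : GG) → p' (μ P) = p' (μ P')) ∧
      ∀ (P : Subgroup.centralizer {Z}) (D E : {x : W // a Z x = x}), Lam a p D E (P : GG) →
        Lam a' p' D E (μ P) := by
  classical
  -- `p Z` is central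
  have hcenQ : ∀ q : Q, p Z * q = q * p Z := by
    intro q
    obtain ⟨P, rfl, _⟩ := lam_exists ht q hBC
    rw [← map_mul, ← map_mul, hz]
  have hZc : Z ∈ Subgroup.centralizer {Z} := by rw [Subgroup.mem_centralizer_singleton_iff]
  set z' : Subgroup.centralizer {Z} := ⟨Z, hZc⟩ with hz'
  have hcomm : ∀ P : Subgroup.centralizer {Z}, (P : GG) * Z = Z * (P : GG) := fun P =>
    Subgroup.mem_centralizer_singleton_iff.1 P.2
  have hn1 : (Subgroup.zpowers z').Normal := by
    refine ⟨fun n hn g => ?_⟩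
    obtain ⟨k, rfl⟩ := Subgroup.mem_zpowers_iff.1 hn
    have : Commute g (z' ^ k) := Commute.zpow_right (Subtype.ext (hcomm g)) k
    have e : g * z' ^ k * g⁻¹ = z' ^ k := by rw [this.eq, mul_inv_cancel_right]
    rw [e]; exact hn
  have hn2 : (Subgroup.zpowers (p Z)).Normal := by
    refine ⟨fun n hn g => ?_⟩
    obtain ⟨k, rfl⟩ := Subgroup.mem_zpowers_iff.1 hn
    have : Commute g (p Z ^ k) := Commute.zpow_right (hcenQ g).symm k
    have e : g * p Z ^ k * g⁻¹ = p Z ^ k := by rw [this.eq, mul_inv_cancel_right]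
    rw [e]; exact hn
  -- the action on the fixed points
  have hst : ∀ (P : Subgroup.centralizer {Z}) (x : W), a Z x = x ↔ a Z (a (P : GG) x) = a (P : GG) x := by
    intro P x
    have e : a Z (a (P : GG) x) = a (P : GG) (a Z x) := by
      rw [← Equiv.Perm.mul_apply, ← Equiv.Perm.mul_apply, ← map_mul, ← map_mul, hcomm]
    rw [e]
    constructor
    · intro h; rw [h]
    · intro h; exact (a (P : GG)).injective h
  let a0 : Subgroup.centralizer {Z} →* Equiv.Perm {x : W // a Z x = x} :=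
    { toFun := fun P => (a (P : GG)).subtypePerm (fun x => (hst P x).symm)
      map_one' := by
        ext x
        change a ((1 : Subgroup.centralizer {Z}) : GG) (x : W) = (x : W)
        rw [Subgroup.coe_one, map_one]; rfl
      map_mul' := fun P P' => by
        ext x
        change a ((P * P' : Subgroup.centralizer {Z}) : GG) (x : W) = a (P : GG) (a (P' : GG) (x : W))
        rw [Subgroup.coe_mul, map_mul]; rfl }
  have ha0 : ∀ P D, (a0 P D : W) = a (P : GG) D := fun P D => rfl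
  have hk1 : Subgroup.zpowers z' ≤ a0.ker := by
    rw [Subgroup.zpowers_le, MonoidHom.mem_ker]
    ext x
    rw [ha0]
    exact x.2
  let p0 : Subgroup.centralizer {Z} →* Q ⧸ Subgroup.zpowers (p Z) :=
    (QuotientGroup.mk' _).comp (p.comp (Subgroup.centralizer {Z}).subtype)
  have hk2 : Subgroup.zpowers z' ≤ p0.ker := by
    rw [Subgroup.zpowers_le, MonoidHom.mem_ker]
    exact (QuotientGroup.eq_one_iff (p Z)).2 (Subgroup.mem_zpowers _)
  let a' := QuotientGroup.lift (Subgroup.zpowers z') a0 hk1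
  let p' := QuotientGroup.lift (Subgroup.zpowers z') p0 hk2
  let μ := QuotientGroup.mk' (Subgroup.zpowers z')
  let ν := QuotientGroup.mk' (Subgroup.zpowers (p Z))
  have hμ1 : ∀ P : Subgroup.centralizer {Z}, μ P = 1 → p (P : GG) = 1 → (P : GG) = 1 := by
    intro P hP hp
    have hP' : P ∈ Subgroup.zpowers z' := (QuotientGroup.eq_one_iff P).1 hP
    obtain ⟨k, hk⟩ := Subgroup.mem_zpowers_iff.1 hP'
    have hf : ∀ D, a Z D = D → a (P : GG) D = D := by
      intro D hD
      have hk2 : (P : GG) = Z ^ k := by rw [← hk]; rfl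
      rw [hk2, map_zpow]
      exact Function.IsFixedPt.perm_zpow hD k
    refine bip_unique ht (P := (P : GG)) (P' := 1) (by rw [hp, map_one]) hBC (hf B h1) (hf C h2) ?_ ?_
    · rw [map_one]; rfl
    · rw [map_one]; rfl
  have m3 : ∀ P P' : Subgroup.centralizer {Z}, μ P = μ P' → p P = p P' → P = P' := by
    intro P P' e1 e2
    have := hμ1 (P * P'⁻¹) (by rw [map_mul, map_inv, e1, mul_inv_cancel])
      (by rw [Subgroup.coe_mul, Subgroup.coe_inv, map_mul, map_inv, e2, mul_inv_cancel])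
    have h3 : P * P'⁻¹ = 1 := Subtype.ext this
    exact mul_inv_eq_one.1 h3
  have m5 : ∀ P : Subgroup.centralizer {Z}, p' (μ P) = ν (p P) := fun P => rfl
  have m4 : ∀ (P : Subgroup.centralizer {Z}) (q : Q), p' (μ P) = ν q →
      ∃ P1, μ P1 = μ P ∧ p (P1 : GG) = q := by
    intro P q h
    rw [m5] at h
    have h3 : (p (P : GG))⁻¹ * q ∈ Subgroup.zpowers (p Z) := QuotientGroup.eq.1 h
    obtain ⟨k, hk⟩ := Subgroup.mem_zpowers_iff.1 h3
    refine ⟨P * z' ^ k, ?_, ?_⟩
    · rw [map_mul]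
      have : μ (z' ^ k) = 1 := (QuotientGroup.eq_one_iff _).2 (Subgroup.zpow_mem_zpowers z' k)
      rw [this, mul_one]
    · have : ((P * z' ^ k : Subgroup.centralizer {Z}) : GG) = P * Z ^ k := rfl
      rw [this, map_mul, map_zpow, hk, mul_inv_cancel_left]
  have m2 : ∀ (P : Subgroup.centralizer {Z}) (D : {x : W // a Z x = x}), (a' (μ P) D : W) = a P D :=
    fun P D => rfl
  have htr := transfer (a := a) (p := p) (Z := Z) (a' := a') (p' := p') (μ := μ) (ν := ν) ht hz
    ⟨B, h1⟩ (QuotientGroup.mk'_surjective _) m2 m3 m4 m5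
  refine ⟨Subgroup.centralizer {Z} ⧸ Subgroup.zpowers z', Q ⧸ Subgroup.zpowers (p Z), inferInstance,
    inferInstance, a', p', μ, inferInstance, hQ.to_quotient _, ?_, ?_, hμ1, ?_, ?_⟩
  · rw [Subgroup.card_eq_card_quotient_mul_card_subgroup (Subgroup.zpowers (p Z))]
    have h3 : 1 < Nat.card (Subgroup.zpowers (p Z)) := by
      rw [Nat.card_zpowers]
      have := orderOf_pos (p Z)
      have h4 : orderOf (p Z) ≠ 1 := fun h => hz1 (orderOf_eq_one_iff.1 h)
      omega
    have h5 : 0 < Nat.card (Q ⧸ Subgroup.zpowers (p Z)) := Nat.card_pos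
    nlinarith
  · intro q'
    obtain ⟨q, rfl⟩ := QuotientGroup.mk'_surjective _ q'
    exact (htr q).1
  · intro P P' h
    rw [m5, m5, h]
  · rintro P D E ⟨hP, hn⟩
    obtain ⟨_, f, hd, hfl, hfr⟩ := htr (p (P : GG))
    have hPD : a' (μ P) D = D := Subtype.ext hP
    refine ⟨hPD, ?_, ?_⟩
    · exact hPD
    · have hmD : Sum.inl (D : W) ∈ SS a p Z (p (P : GG)) := D.2
      have hmE : Sum.inl (E : W) ∈ SS a p Z (p (P : GG)) := E.2
      have hmP : Sum.inr ⟨(P : GG), rfl, (D : W), hP⟩ ∈ SS a p Z (p (P : GG)) :=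
        ⟨(hcomm P).symm, D, hP, D.2⟩
      have d1 := hd ⟨_, hmP⟩ ⟨_, hmE⟩
      have d2 := hd ⟨_, hmD⟩ ⟨_, hmE⟩
      rw [hfl _ hmE, hfr _ hmP P.2 ⟨rfl, D, hPD⟩] at d1
      rw [hfl _ hmE, hfl _ hmD] at d2
      have h3 := hn.2
      change (Bip a' p' (ν (p (P : GG)))).dist (Sum.inr ⟨μ P, rfl, D, hPD⟩) (Sum.inl E) + 1
        = (Bip a' p' (ν (p (P : GG)))).dist (Sum.inl D) (Sum.inl E)
      rw [← h3] at d2
      have d1' : (Bip a' p' (ν (p (P : GG)))).dist (Sum.inr ⟨μ P, rfl, D, hPD⟩) (Sum.inl E)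
        = _ := d1
      have d2' : (Bip a' p' (ν (p (P : GG)))).dist (Sum.inl D) (Sum.inl E)
        = _ := d2
      rw [d1', d2']

end Pool.Agent.Lib.MP_6567fb_al
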