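import Pool.Agent.Lib.MP_6567fb_al.K34b
import Pool.Agent.Lib.MP_6567fb_al.K34c

/-!
# MP_6567fb_al, module K34d

Lemma M0 (v): induction on card Q (generalising GG, Q, W, a, p: all types).  Q trivial: p P = 1 for all of them; 1 is the element over 1 fixing B and C..: Lam B C P with p P = 1: P fixes B and the next member C_1, so P = 1 (bip_unique with 1).
Otherwise choose z ≠ 1 central in Q (IsPGroup.center_nontrivial), Z := Lam z B C (lam_exists), C₁ from lam_stable; P, P', P'' are Lam B C₁; they commute with Z (lam_comm), so they are in C(Z), and their images are Lam' in the sub-system, p' (μ P'') = p' (μ P) p' (μ P'); by induction μ P'' = μ P μ P'; P P' P''⁻¹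
is in C(Z), over 1, and has μ = 1, so it is 1.
-/

set_option autoImplicit false

open scoped Pointwise

namespace Pool.Agent.Lib.MP_6567fb_al

open MTree

/-- `Lam` over the trivial element -/
theorem lam_one {W GG Q : Type} [Group GG] [Group Q] {a : GG →* Equiv.Perm W} {p : GG →* Q}
    (ht : ∀ q, (Bip a p q).IsTree) {B C : W} {P : GG} (h : Lam a p B C P) (hp : p P = 1) : P = 1 := by
  obtain ⟨hB, hadj, hd⟩ := h
  -- `P` is not a leaf: there is a next vertex
  have hne : (Sum.inr ⟨P, rfl, B, hB⟩ : W ⊕ {P' : GG // p P' = p P ∧ ∃ B, a P' B = B}) ≠ Sum.inl C := by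
    simp
  obtain ⟨y, ⟨hy1, hy2⟩, -⟩ := TG.exists_unique_next (ht (p P)) hne
  rcases y with C₁ | P'
  · have hC1 : a P C₁ = C₁ := hy1
    have hne' : B ≠ C₁ := by
      rintro rfl
      omega
    exact bip_unique ht (by rw [hp, map_one]) hne' hB hC1 (by simp) (by simp)
  · exact absurd hy1 (by simp [Bip])

theorem lam_mul {W GG Q : Type} [Group GG] [Group Q] [Finite Q] (hQ : IsPGroup 3 Q)
    {a : GG →* Equiv.Perm W} {p : GG →* Q} (ht : ∀ q, (Bip a p q).IsTree) {B C : W} {P P' P'' : GG}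
    (h : Lam a p B C P) (h' : Lam a p B C P') (h'' : Lam a p B C P'') (hp : p P'' = p P * p P') :
    P'' = P * P' := by
  obtain ⟨n, hn⟩ : ∃ n, Nat.card Q = n := ⟨_, rfl⟩
  induction n using Nat.strong_induction_on generalizing W GG Q with
  | _ n ih =>
  by_cases hQt : Nontrivial Q
  · haveI : Fact (Nat.Prime 3) := ⟨Nat.prime_three⟩
    haveI := hQ.center_nontrivial
    obtain ⟨⟨z, hz⟩, hz1⟩ := exists_ne (1 : Subgroup.center Q)
    have hz1' : z ≠ 1 := fun h => hz1 (Subtype.ext h)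
    rw [Subgroup.mem_center_iff] at hz
    have hBC : B ≠ C := lam_ne h
    obtain ⟨Z, hZz, hZ⟩ := lam_exists ht z hBC
    have hzc : ∀ P, p (Z * P) = p (P * Z) := by
      intro P
      rw [map_mul, map_mul, hZz, hz]
    obtain ⟨C₁, hC1, hZB, hZC, hst⟩ := lam_stable ht hzc hZ
    have l := hst P h
    have l' := hst P' h'
    have l'' := hst P'' h''
    have hBC1 : B ≠ C₁ := hC1.symm
    obtain ⟨GG', Q', i1, i2, a', p', μ, hfin, hQ3, hcard, ht', hker, hpp, hlam⟩ :=
      sub_system ht hQ hzc (by rw [hZz]; exact hz1') hBC1 hZB hZC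
    have mem : ∀ P, Lam a p B C₁ P → P ∈ Subgroup.centralizer {Z} := by
      intro P hP
      rw [Subgroup.mem_centralizer_iff]
      intro y hy
      rw [Set.mem_singleton_iff] at hy
      rw [hy]
      exact lam_comm ht hzc hBC1 hZB hZC hP
    have m1 := hlam ⟨P, mem P l⟩ ⟨B, hZB⟩ ⟨C₁, hZC⟩ l
    have m2 := hlam ⟨P', mem P' l'⟩ ⟨B, hZB⟩ ⟨C₁, hZC⟩ l'
    have m3 := hlam ⟨P'', mem P'' l''⟩ ⟨B, hZB⟩ ⟨C₁, hZC⟩ l''
    have hmul := ih (Nat.card Q') (hn ▸ hcard) hQ3 ht' m1 m2 m3 (by
      rw [← map_mul, ← map_mul]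
      apply hpp
      show p P'' = p (P * P')
      rw [map_mul, hp]) rfl
    have hone := hker (⟨P, mem P l⟩ * ⟨P', mem P' l'⟩ * (⟨P'', mem P'' l''⟩)⁻¹) (by
      rw [map_mul, map_mul, map_inv, ← hmul, mul_inv_cancel]) (by
      show p (P * P' * P''⁻¹) = 1
      rw [map_mul, map_mul, map_inv, hp, mul_inv_cancel])
    have : P * P' * P''⁻¹ = 1 := hone
    rw [mul_inv_eq_one] at this
    exact this.symm
  · rw [not_nontrivial_iff_subsingleton] at hQt
    rw [lam_one ht h (Subsingleton.elim _ _), lam_one ht h' (Subsingleton.elim _ _),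
      lam_one ht h'' (Subsingleton.elim _ _), one_mul]

end Pool.Agent.Lib.MP_6567fb_al
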