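import Pool.Agent.Lib.MP_6567fb_al.Defs8
import Pool.Agent.Lib.MP_6567fb_al.K00a
import Pool.Agent.Lib.MP_6567fb_al.A.Res3

/-!
# MP_6567fb_al, module K35a

Facts on the Frattini series `frat3`.
-/

set_option autoImplicit false

open scoped Pointwise

namespace Pool.Agent.Lib.MP_6567fb_al

open MTree
variable {Γ G : Type} [Group Γ] [Group G] {π : Γ →* G}

theorem frat3_zero (H : Subgroup Γ) : frat3 H 0 = H := rfl

theorem frat3_succ (H : Subgroup Γ) (m : ℕ) : frat3 H (m + 1) =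
    Subgroup.closure {z | ∃ x ∈ frat3 H m, ∃ y ∈ frat3 H m, z = x * y * x⁻¹ * y⁻¹ ∨ z = x ^ 3} := rfl

theorem frat3_comm_mem {H : Subgroup Γ} {m : ℕ} {x y : Γ} (hx : x ∈ frat3 H m) (hy : y ∈ frat3 H m) :
    x * y * x⁻¹ * y⁻¹ ∈ frat3 H (m + 1) := by
  rw [frat3_succ]
  exact Subgroup.subset_closure ⟨x, hx, y, hy, Or.inl rfl⟩

theorem frat3_cube_mem {H : Subgroup Γ} {m : ℕ} {x : Γ} (hx : x ∈ frat3 H m) :
    x ^ 3 ∈ frat3 H (m + 1) := by
  rw [frat3_succ]
  exact Subgroup.subset_closure ⟨x, hx, x, hx, Or.inr rfl⟩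

theorem frat3_succ_le (H : Subgroup Γ) (m : ℕ) : frat3 H (m + 1) ≤ frat3 H m := by
  rw [frat3_succ, Subgroup.closure_le]
  rintro z ⟨x, hx, y, hy, rfl | rfl⟩
  · exact (frat3 H m).mul_mem ((frat3 H m).mul_mem ((frat3 H m).mul_mem hx hy)
      ((frat3 H m).inv_mem hx)) ((frat3 H m).inv_mem hy)
  · exact (frat3 H m).pow_mem hx 3

theorem frat3_anti (H : Subgroup Γ) {m k : ℕ} (h : m ≤ k) : frat3 H k ≤ frat3 H m := by
  induction k, h using Nat.le_induction with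
  | base => exact le_rfl
  | succ k _ ih => exact (frat3_succ_le H k).trans ih

theorem frat3_le_self (H : Subgroup Γ) (m : ℕ) : frat3 H m ≤ H := frat3_anti H (Nat.zero_le m)

theorem frat3_mono {H H' : Subgroup Γ} (h : H ≤ H') (m : ℕ) : frat3 H m ≤ frat3 H' m := by
  induction m with
  | zero => exact h
  | succ m ih =>
    rw [frat3_succ, frat3_succ]
    refine Subgroup.closure_mono ?_
    rintro z ⟨x, hx, y, hy, hz⟩
    exact ⟨x, ih hx, y, ih hy, hz⟩

theorem frat3_norm {H : Subgroup Γ} {γ : Γ} (h : ∀ x ∈ H, γ * x * γ⁻¹ ∈ H) (m : ℕ) {x : Γ}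
    (hx : x ∈ frat3 H m) : γ * x * γ⁻¹ ∈ frat3 H m := by
  induction m generalizing x with
  | zero => exact h x hx
  | succ m ih =>
    have key : frat3 H (m + 1) ≤ (frat3 H (m + 1)).comap (MulAut.conj γ).toMonoidHom := by
      conv_lhs => rw [frat3_succ]
      rw [Subgroup.closure_le]
      rintro z ⟨x, hx, y, hy, rfl | rfl⟩
      · change MulAut.conj γ (x * y * x⁻¹ * y⁻¹) ∈ frat3 H (m + 1)
        rw [map_mul, map_mul, map_mul, map_inv, map_inv]
        exact frat3_comm_mem (ih hx) (ih hy)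
      · change MulAut.conj γ (x ^ 3) ∈ frat3 H (m + 1)
        rw [map_pow]
        exact frat3_cube_mem (ih hx)
    exact key hx

theorem mulZMod3_cube (a : Multiplicative (ZMod 3)) : a ^ 3 = 1 := by
  have h : ∀ b : ZMod 3, 3 • b = 0 := by decide
  exact h (Multiplicative.toAdd a)

theorem frat3_hom {H : Subgroup Γ} {m : ℕ} (χ : frat3 H m →* Multiplicative (ZMod 3)) {x : Γ}
    (hx : x ∈ frat3 H m) (hx' : x ∈ frat3 H (m + 1)) : χ ⟨x, hx⟩ = 1 := by
  have key : frat3 H (m + 1) ≤ χ.ker.map (frat3 H m).subtype := by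
    conv_lhs => rw [frat3_succ]
    rw [Subgroup.closure_le]
    rintro z ⟨x, hx, y, hy, rfl | rfl⟩
    · refine ⟨⟨x, hx⟩ * ⟨y, hy⟩ * ⟨x, hx⟩⁻¹ * ⟨y, hy⟩⁻¹, ?_, rfl⟩
      rw [SetLike.mem_coe, MonoidHom.mem_ker, map_mul, map_mul, map_mul, map_inv, map_inv,
        mul_comm (χ ⟨x, hx⟩), mul_inv_cancel_right, mul_inv_cancel]
    · refine ⟨⟨x, hx⟩ ^ 3, ?_, rfl⟩
      rw [SetLike.mem_coe, MonoidHom.mem_ker, map_pow, mulZMod3_cube]
  obtain ⟨y, hy, hyx⟩ := key hx'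
  have : y = ⟨x, hx⟩ := Subtype.ext hyx
  rw [← this]
  exact hy

theorem frat3_cap (hc : Ctx π) {M : Subgroup Γ} {x : Γ} (h : ∀ m, x ∈ frat3 (M ⊓ π.ker) m) :
    x = 1 := by
  by_contra hx
  obtain ⟨m, hm⟩ := Pool.MP6567.A.ctx_res3 π hc x (h 0).2 hx
  exact hm (frat3_mono inf_le_right m (h m))

/-- a homomorphism `K → K` with values in `B` maps the series of `K` to the series of `B` -/
theorem frat3_map {K B : Subgroup Γ} (r : K →* K) (hr : ∀ h, ((r h : K) : Γ) ∈ B) (k : ℕ) (h : K)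
    (hh : (h : Γ) ∈ frat3 K k) : ((r h : K) : Γ) ∈ frat3 B k := by
  induction k generalizing h with
  | zero => exact hr h
  | succ k ih =>
    have key : frat3 K (k + 1) ≤ ((frat3 B (k + 1)).comap (K.subtype.comp r)).map K.subtype := by
      conv_lhs => rw [frat3_succ]
      rw [Subgroup.closure_le]
      rintro z ⟨x, hx, y, hy, rfl | rfl⟩
      · have hx' := frat3_le_self K k hx
        have hy' := frat3_le_self K k hy
        refine ⟨⟨x, hx'⟩ * ⟨y, hy'⟩ * ⟨x, hx'⟩⁻¹ * ⟨y, hy'⟩⁻¹, ?_, rfl⟩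
        rw [SetLike.mem_coe, Subgroup.mem_comap, map_mul, map_mul, map_mul, map_inv, map_inv]
        exact frat3_comm_mem (ih _ hx) (ih _ hy)
      · have hx' := frat3_le_self K k hx
        refine ⟨⟨x, hx'⟩ ^ 3, ?_, rfl⟩
        rw [SetLike.mem_coe, Subgroup.mem_comap, map_pow]
        exact frat3_cube_mem (ih _ hx)
    obtain ⟨y, hy, hyx⟩ := key hh
    have : y = h := Subtype.ext hyx
    rw [← this]
    exact hy

theorem frat3_not_le (hc : Ctx π) {M : Subgroup Γ} (hM : Loc π M) {Ω : Set (Subgroup Γ)}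
    (hΩ : IsPeriph π.ker M Ω) {B : Subgroup Γ} (hB : B ∈ Ω) {m : ℕ} (hm : 1 ≤ m) :
    ¬ B ≤ frat3 (M ⊓ π.ker) m := by
  intro hle
  have hBm := periph_mfactor hc hM hΩ hB
  have hBf : IsFactor π.ker π.ker B := fac_trans hc le_rfl hM.fac hBm.fac
  obtain ⟨r, hr1, hr2⟩ := fac_retract hc hBf
  have h1 : B ≤ frat3 π.ker 1 :=
    hle.trans ((frat3_anti _ hm).trans (frat3_mono inf_le_right 1))
  have h2 : B ≤ frat3 B 1 := by
    intro b hb
    have hbk : b ∈ π.ker := frat3_le_self π.ker 1 (h1 hb)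
    have h3 := frat3_map r hr1 1 ⟨b, hbk⟩ (h1 hb)
    rw [hr2 ⟨b, hbk⟩ hb] at h3
    exact h3
  have h3 : ∀ k, frat3 B k = B := by
    intro k
    induction k with
    | zero => rfl
    | succ k ih =>
      have : frat3 B (k + 1) = frat3 B 1 := by
        rw [frat3_succ, frat3_succ, ih, frat3_zero]
      rw [this]
      exact le_antisymm (frat3_le_self B 1) h2
  apply hBm.ne
  rw [eq_bot_iff]
  intro b hb
  rw [Subgroup.mem_bot]
  by_contra hne
  have hbk : b ∈ π.ker := frat3_le_self π.ker 1 (h1 hb)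
  obtain ⟨k, hk⟩ := Pool.MP6567.A.ctx_res3 π hc b hbk hne
  apply hk
  refine frat3_mono (H := B) ?_ k ?_
  · exact h1.trans (frat3_le_self _ 1)
  · rw [h3]
    exact hb

end Pool.Agent.Lib.MP_6567fb_al
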