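import Pool.Agent.Lib.MP_6567fb_al.K35a

/-!
# MP_6567fb_al, module K35b

The Frattini series of a finitely generated group has 3-power index.
-/

set_option autoImplicit false

open scoped Pointwise

namespace Pool.Agent.Lib.MP_6567fb_al

open MTree
variable {Γ G : Type} [Group Γ] [Group G] {π : Γ →* G}

theorem frat3_normal (H : Subgroup Γ) (m : ℕ) : ((frat3 H m).subgroupOf H).Normal := by
  constructor
  intro n hn g
  rw [Subgroup.mem_subgroupOf] at hn ⊢
  exact frat3_norm (fun x hx => H.mul_mem (H.mul_mem g.2 hx) (H.inv_mem g.2)) m hn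

/-- a finitely generated abelian group of exponent three is finite -/
theorem finite_of_exp3 {Q : Type} [Group Q] [Group.FG Q] (hc : ∀ a b : Q, a * b = b * a)
    (h3 : ∀ a : Q, a ^ 3 = 1) : Finite Q := by
  let _inst : CommGroup Q := { (inferInstance : Group Q) with mul_comm := hc }
  refine CommGroup.finite_of_fg_isMulTorsion Q ?_
  intro a
  exact isOfFinOrder_iff_pow_eq_one.2 ⟨3, by norm_num, h3 a⟩

/-- the first step -/
theorem frat3_one_index {K : Subgroup Γ} (hfg : K.FG) :
    (∃ k : ℕ, (frat3 K 1).relIndex K = 3 ^ k) ∧ (frat3 K 1).FG := by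
  have hfgK : Group.FG K := (Group.fg_iff_subgroup_fg K).2 hfg
  have hN := frat3_normal K 1
  have hcomm : ∀ a b : K ⧸ (frat3 K 1).subgroupOf K, a * b = b * a := by
    intro a b
    induction a using QuotientGroup.induction_on with
    | H a =>
      induction b using QuotientGroup.induction_on with
      | H b =>
        rw [← QuotientGroup.mk_mul, ← QuotientGroup.mk_mul, QuotientGroup.eq,
          Subgroup.mem_subgroupOf]
        have h1 := frat3_comm_mem (H := K) (m := 0) (x := (b : Γ)⁻¹) (y := (a : Γ)⁻¹)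
          (K.inv_mem b.2) (K.inv_mem a.2)
        have h2 : (b : Γ)⁻¹ * (a : Γ)⁻¹ * ((b : Γ)⁻¹)⁻¹ * ((a : Γ)⁻¹)⁻¹ =
            (((a * b)⁻¹ * (b * a) : K) : Γ) := by
          push_cast
          group
        rw [h2] at h1
        exact h1
  have hcube : ∀ a : K ⧸ (frat3 K 1).subgroupOf K, a ^ 3 = 1 := by
    intro a
    induction a using QuotientGroup.induction_on with
    | H a =>
      rw [← QuotientGroup.mk_pow, QuotientGroup.eq_one_iff, Subgroup.mem_subgroupOf]
      exact frat3_cube_mem (H := K) (m := 0) a.2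
  have hfgQ : Group.FG (K ⧸ (frat3 K 1).subgroupOf K) :=
    Group.fg_of_surjective (f := QuotientGroup.mk' ((frat3 K 1).subgroupOf K))
      (QuotientGroup.mk'_surjective _)
  have hfin : Finite (K ⧸ (frat3 K 1).subgroupOf K) := finite_of_exp3 hcomm hcube
  constructor
  · have hp : IsPGroup 3 (K ⧸ (frat3 K 1).subgroupOf K) := fun a => ⟨1, by rw [pow_one, hcube]⟩
    have : Fact (Nat.Prime 3) := ⟨Nat.prime_three⟩
    obtain ⟨k, hk⟩ := IsPGroup.iff_card.1 hp
    exact ⟨k, hk⟩
  · have hFI : ((frat3 K 1).subgroupOf K).FiniteIndex := Subgroup.finiteIndex_of_finite_quotient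
    have h1 : Group.FG ((frat3 K 1).subgroupOf K) := Subgroup.fg_of_index_ne_zero _
    have h2 : Group.FG (frat3 K 1) :=
      Group.fg_of_surjective (f := (Subgroup.subgroupOfEquivOfLe (frat3_le_self K 1)).toMonoidHom)
        (Subgroup.subgroupOfEquivOfLe (frat3_le_self K 1)).surjective
    exact (Group.fg_iff_subgroup_fg _).1 h2

theorem frat3_succ_eq (H : Subgroup Γ) (m : ℕ) : frat3 H (m + 1) = frat3 (frat3 H m) 1 := rfl

theorem frat3_fg {H : Subgroup Γ} (hfg : H.FG) (m : ℕ) : (frat3 H m).FG := by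
  induction m with
  | zero => exact hfg
  | succ m ih =>
    rw [frat3_succ_eq]
    exact (frat3_one_index ih).2

theorem frat3_index {H : Subgroup Γ} (hfg : H.FG) (m : ℕ) :
    ∃ k : ℕ, (frat3 H m).relIndex H = 3 ^ k := by
  induction m with
  | zero => exact ⟨0, by rw [frat3_zero, Subgroup.relIndex_self, pow_zero]⟩
  | succ m ih =>
    obtain ⟨k, hk⟩ := ih
    obtain ⟨l, hl⟩ := (frat3_one_index (frat3_fg hfg m)).1
    refine ⟨l + k, ?_⟩
    rw [pow_add, ← hk, ← hl, ← frat3_succ_eq]
    exact (Subgroup.relIndex_mul_relIndex _ _ _ (frat3_succ_le H m) (frat3_le_self H m)).symm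

theorem frat3_pow (H : Subgroup Γ) (m : ℕ) {x : Γ} (hx : x ∈ H) : x ^ (3 ^ m) ∈ frat3 H m := by
  induction m with
  | zero =>
    rw [pow_zero, pow_one]
    exact hx
  | succ m ih =>
    rw [pow_succ, pow_mul]
    exact frat3_cube_mem ih

/-- the finite quotient `H / frat3 H m` -/
theorem frat3_quot {H : Subgroup Γ} (hfg : H.FG) (m : ℕ) :
    ∃ (R : Type) (_ : Group R) (φ : H →* R), Finite R ∧ IsPGroup 3 R ∧ Function.Surjective φ ∧
      ∀ x : H, φ x = 1 ↔ (x : Γ) ∈ frat3 H m := by
  have hN := frat3_normal H m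
  refine ⟨H ⧸ (frat3 H m).subgroupOf H, inferInstance, QuotientGroup.mk' _, ?_, ?_,
    QuotientGroup.mk'_surjective _, ?_⟩
  · obtain ⟨k, hk⟩ := frat3_index hfg m
    have : Nat.card (H ⧸ (frat3 H m).subgroupOf H) ≠ 0 := by
      change (frat3 H m).relIndex H ≠ 0
      rw [hk]
      positivity
    exact Nat.finite_of_card_ne_zero this
  · intro a
    refine ⟨m, ?_⟩
    induction a using QuotientGroup.induction_on with
    | H a =>
      rw [← QuotientGroup.mk_pow, QuotientGroup.eq_one_iff, Subgroup.mem_subgroupOf]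
      exact frat3_pow H m a.2
  · intro x
    rw [QuotientGroup.mk'_apply, QuotientGroup.eq_one_iff, Subgroup.mem_subgroupOf]

end Pool.Agent.Lib.MP_6567fb_al
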