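import Pool.Agent.Lib.MP_6567fb_al.Defs8

/-!
# MP_6567fb_al, module K36a

UNI.  (Proof here: an element of prime order different from 3 has a fixed point in every coset of the common kernel of the homomorphisms to ℤ/3, which is inside the Frattini subgroup.)  Original hint: induction on card R.  R trivial: clear.  C := {c in the centre : c^3 = 1}, a non-trivial (IsPGroup.center_nontrivial, Cauchy) normal subgroup with γ C = C.  The automorphism induced on R / C satisfies the hypothesis (homomorphisms of R / C are homomorphisms of R), so γ' := γ^(3^k) is the identity on R / C.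
δ x := x⁻¹ γ' x in C; C is central: δ (x y) = δ x δ y.  χ (δ x) = 1 for all χ : R -> ℤ/3.  δ (δ x) = 1: otherwise there is ψ : C -> ℤ/3 with ψ (δ (δ x)) ≠ 1 (C is an 𝔽₃-vector space), χ := ψ ∘ δ, χ (δ x) ≠ 1: contradiction.  So γ' (δ x) = δ x, γ'^3 x = x (δ x)^3 = x.
-/

set_option autoImplicit false

namespace Pool.Agent.Lib.MP_6567fb_al

namespace Uni3

/-- the common kernel of all homomorphisms to `ℤ/3` -/
def phi3 (R : Type) [Group R] : Subgroup R := ⨅ χ : R →* Multiplicative (ZMod 3), χ.ker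

theorem mem_phi3 {R : Type} [Group R] (x : R) :
    x ∈ phi3 R ↔ ∀ χ : R →* Multiplicative (ZMod 3), χ x = 1 := by
  unfold phi3
  rw [Subgroup.mem_iInf]
  exact forall_congr' fun χ => MonoidHom.mem_ker

/-- in a finite 3-group the Frattini subgroup contains the common kernel -/
theorem phi3_le_frattini {R : Type} [Group R] [Finite R] (hR : IsPGroup 3 R) :
    phi3 R ≤ frattini R := by
  classical
  have : Fact (Nat.Prime 3) := ⟨Nat.prime_three⟩
  have hnil : Group.IsNilpotent R := hR.isNilpotent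
  unfold frattini Order.radical
  refine le_iInf fun M => le_iInf fun hM => ?_
  have hMc : IsCoatom M := hM
  have hMn : M.Normal :=
    Subgroup.NormalizerCondition.normal_of_coatom M Group.normalizerCondition_of_isNilpotent hMc
  -- every element outside `M` generates modulo `M`
  have key : ∀ z : R, z ∉ M → ∀ y : R, ∃ k : ℤ, y * (z ^ k)⁻¹ ∈ M := by
    intro z hz y
    have h1 : M < M ⊔ Subgroup.zpowers z := by
      refine lt_of_le_of_ne le_sup_left fun h => hz ?_
      rw [h]
      exact Subgroup.mem_sup_right (Subgroup.mem_zpowers z)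
    have h2 := hMc.2 _ h1
    have h3 : y ∈ M ⊔ Subgroup.zpowers z := by rw [h2]; trivial
    rw [← SetLike.mem_coe, Subgroup.normal_mul, Set.mem_mul] at h3
    obtain ⟨m, hm, w, hw, rfl⟩ := h3
    obtain ⟨k, rfl⟩ := Subgroup.mem_zpowers_iff.1 hw
    exact ⟨k, by rwa [mul_inv_cancel_right]⟩
  have hq : ∀ z : R, z ^ 3 ∈ M := by
    intro z
    by_cases hz : z ∈ M
    · exact M.pow_mem hz 3
    by_contra h3
    obtain ⟨k, hk⟩ := key (z ^ 3) h3 z
    obtain ⟨m, hm⟩ := hR z
    have h1 : z ^ (1 - 3 * k) ∈ M := by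
      have : z * ((z ^ 3) ^ k)⁻¹ = z ^ (1 - 3 * k) := by
        rw [zpow_sub, zpow_one, zpow_mul]; norm_cast
      rwa [← this]
    have h2 : z ^ ((3 : ℤ) ^ m) ∈ M := by
      have : z ^ ((3 : ℤ) ^ m) = 1 := by
        rw [← hm]; norm_cast
      rw [this]; exact M.one_mem
    have hcop : IsCoprime (1 - 3 * k) ((3 : ℤ) ^ m) := by
      apply IsCoprime.pow_right
      exact ⟨1, k, by ring⟩
    obtain ⟨a, b, hab⟩ := hcop
    apply hz
    have : z = (z ^ (1 - 3 * k)) ^ a * (z ^ ((3 : ℤ) ^ m)) ^ b := by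
      rw [← zpow_mul, ← zpow_mul, ← zpow_add]
      have : (1 - 3 * k) * a + 3 ^ m * b = 1 := by linarith
      rw [this, zpow_one]
    rw [this]
    exact M.mul_mem (M.zpow_mem h1 a) (M.zpow_mem h2 b)
  -- a generator
  obtain ⟨z, hz⟩ : ∃ z, z ∉ M := by
    by_contra hcon
    push Not at hcon
    exact hMc.1 (by rw [eq_top_iff]; intro x _; exact hcon x)
  have hz1 : (QuotientGroup.mk z : R ⧸ M) ≠ 1 := by
    intro h
    exact hz ((QuotientGroup.eq_one_iff z).1 h)
  have hz3 : (QuotientGroup.mk z : R ⧸ M) ^ 3 = 1 := by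
    rw [← QuotientGroup.mk_pow, QuotientGroup.eq_one_iff]
    exact hq z
  have hord : orderOf (QuotientGroup.mk z : R ⧸ M) = 3 := orderOf_eq_prime hz3 hz1
  have hgen : ∀ y : R ⧸ M, y ∈ Subgroup.zpowers (QuotientGroup.mk z : R ⧸ M) := by
    intro y
    obtain ⟨y, rfl⟩ := QuotientGroup.mk_surjective y
    obtain ⟨k, hk⟩ := key z hz y
    rw [Subgroup.mem_zpowers_iff]
    refine ⟨k, ?_⟩
    have h1 := (QuotientGroup.eq_one_iff (N := M) _).2 hk
    rw [QuotientGroup.mk_mul, QuotientGroup.mk_inv, mul_inv_eq_one, QuotientGroup.mk_zpow] at h1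
    exact h1.symm
  have hcard : Nat.card (R ⧸ M) = 3 := by
    rw [← hord, ← Nat.card_zpowers]
    have : Subgroup.zpowers (QuotientGroup.mk z : R ⧸ M) = ⊤ := by
      rw [eq_top_iff]; intro y _; exact hgen y
    rw [this, Subgroup.card_top]
  have hcard2 : Nat.card (Multiplicative (ZMod 3)) = 3 := by
    rw [Nat.card_eq_fintype_card]; rfl
  have e : (R ⧸ M) ≃* Multiplicative (ZMod 3) := mulEquivOfPrimeCardEq (p := 3) hcard hcard2
  intro x hx
  rw [mem_phi3] at hx
  have h1 := hx (e.toMonoidHom.comp (QuotientGroup.mk' M))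
  have h2 : e (QuotientGroup.mk x) = 1 := h1
  rw [map_eq_one_iff e e.injective] at h2
  exact (QuotientGroup.eq_one_iff x).1 h2

/-- A finite group of automorphisms of a finite 3-group which preserves all homomorphisms to `ℤ/3` is a 3-group. -/
theorem aut3' {R Λ : Type} [Group R] [Finite R] (hR : IsPGroup 3 R) [Group Λ] [Finite Λ]
    (φ : Λ →* MulAut R) (hφ : Function.Injective φ)
    (h : ∀ (l : Λ) (χ : R →* Multiplicative (ZMod 3)) (x : R), χ (φ l x) = χ x) : IsPGroup 3 Λ := by
  have : Fact (Nat.Prime 3) := ⟨Nat.prime_three⟩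
  set Φ : Subgroup R := phi3 R with hΦ
  have h' : ∀ (l : Λ) (x : R), x⁻¹ * φ l x ∈ Φ := by
    intro l x
    rw [hΦ, mem_phi3]
    intro χ
    rw [map_mul, map_inv, h l χ x, inv_mul_cancel]
  obtain ⟨a, ha⟩ : ∃ a, Nat.card Φ = 3 ^ a := (hR.to_subgroup Φ).exists_card_eq
  by_contra hcon
  -- an element of prime order `q ≠ 3`
  obtain ⟨q, hq, hq3, hqd⟩ : ∃ q, Nat.Prime q ∧ q ≠ 3 ∧ q ∣ Nat.card Λ := by
    by_contra hno
    push Not at hno
    apply hcon
    rw [IsPGroup.iff_card]
    refine ⟨(Nat.card Λ).factorization 3, ?_⟩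
    refine Nat.eq_pow_of_factorization_eq_single ?_ ?_
    · exact Nat.card_pos.ne'
    · ext p
      by_cases hp : p = 3
      · subst hp; simp
      · rw [Finsupp.single_eq_of_ne hp]
        by_cases hp' : p.Prime
        · exact Nat.factorization_eq_zero_of_not_dvd fun hd => hno p hp' hp hd
        · exact Nat.factorization_eq_zero_of_not_prime _ hp'
  have : Fact q.Prime := ⟨hq⟩
  obtain ⟨σ, hσ⟩ := exists_prime_orderOf_dvd_card' q hqd
  -- fixed points of `σ`
  let F : Subgroup R :=
    { carrier := {x | φ σ x = x}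
      one_mem' := map_one _
      mul_mem' := fun {x y} hx hy => by
        change φ σ (x * y) = x * y
        rw [map_mul, hx, hy]
      inv_mem' := fun {x} hx => by
        change φ σ x⁻¹ = x⁻¹
        rw [map_inv, hx] }
  have hF : F ⊔ Φ = ⊤ := by
    rw [eq_top_iff]
    intro x _
    -- the coset `x Φ`
    let S : Set R := {y | x⁻¹ * y ∈ Φ}
    have hcard : Nat.card S = 3 ^ a := by
      rw [← ha]
      refine Nat.card_congr ⟨fun y => ⟨x⁻¹ * y.1, y.2⟩, fun z => ⟨x * z.1, ?_⟩, ?_, ?_⟩
      · change x⁻¹ * (x * z.1) ∈ Φ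
        rw [inv_mul_cancel_left]; exact z.2
      · intro y; simp
      · intro z; simp
    have hst : ∀ (l : Λ), ∀ y ∈ S, φ l y ∈ S := by
      intro l y hy
      have h1 := h' l y
      have h2 := Φ.mul_mem hy h1
      change x⁻¹ * φ l y ∈ Φ
      have : x⁻¹ * y * (y⁻¹ * φ l y) = x⁻¹ * φ l y := by group
      rwa [this] at h2
    let _ : MulAction (Subgroup.zpowers σ) S :=
      { smul := fun l y => ⟨φ (l : Λ) y.1, hst _ _ y.2⟩
        one_smul := fun y => by
          apply Subtype.ext
          change φ ((1 : Subgroup.zpowers σ) : Λ) y.1 = y.1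
          rw [Subgroup.coe_one, map_one]; rfl
        mul_smul := fun l m y => by
          apply Subtype.ext
          change φ ((l * m : Subgroup.zpowers σ) : Λ) y.1 = φ (l : Λ) (φ (m : Λ) y.1)
          rw [Subgroup.coe_mul, map_mul]; rfl }
    have hqg : IsPGroup q (Subgroup.zpowers σ) := by
      rw [IsPGroup.iff_card]
      exact ⟨1, by rw [Nat.card_zpowers, hσ, pow_one]⟩
    have hnd : ¬ q ∣ Nat.card S := by
      rw [hcard]
      intro hd
      exact hq3 ((Nat.prime_dvd_prime_iff_eq hq Nat.prime_three).1 (hq.dvd_of_dvd_pow hd))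
    obtain ⟨y, hy⟩ := hqg.nonempty_fixed_point_of_prime_not_dvd_card S hnd
    have hy1 : φ σ y.1 = y.1 := by
      have := hy ⟨σ, Subgroup.mem_zpowers σ⟩
      exact congrArg Subtype.val this
    have hy2 : x⁻¹ * y.1 ∈ Φ := y.2
    have : x = y.1 * (x⁻¹ * y.1)⁻¹ := by group
    rw [this]
    exact Subgroup.mul_mem_sup hy1 (Φ.inv_mem hy2)
  have hF2 : F = ⊤ := by
    apply frattini_nongenerating
    rw [eq_top_iff, ← hF]
    exact sup_le_sup_left (phi3_le_frattini hR) F
  have hσ1 : σ = 1 := by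
    apply hφ
    rw [map_one]
    refine MulEquiv.ext fun x => ?_
    have : x ∈ F := by rw [hF2]; trivial
    exact this
  rw [hσ1, orderOf_one] at hσ
  exact hq.one_lt.ne hσ

end Uni3

/-- UNI -/
theorem uni3 {R : Type} [Group R] [Finite R] (hR : IsPGroup 3 R) (γ : MulAut R)
    (h : ∀ (χ : R →* Multiplicative (ZMod 3)) (x : R), χ (γ x) = χ x) : ∃ k : ℕ, γ ^ (3 ^ k) = 1 := by
  have hfin : Finite (MulAut R) := by
    refine Finite.of_injective (fun g : MulAut R => (fun x => g x : R → R)) fun g g' hg => ?_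
    exact MulEquiv.ext fun x => congrFun hg x
  have hinv : ∀ (χ : R →* Multiplicative (ZMod 3)) (x : R), χ (γ⁻¹ x) = χ x := by
    intro χ x
    have := h χ (γ⁻¹ x)
    rw [MulAut.apply_inv_self] at this
    exact this.symm
  have hz : ∀ l : Subgroup.zpowers γ, ∀ (χ : R →* Multiplicative (ZMod 3)) (x : R),
      χ ((l : MulAut R) x) = χ x := by
    rintro ⟨l, hl⟩ χ x
    obtain ⟨n, rfl⟩ := Subgroup.mem_zpowers_iff.1 hl
    change χ ((γ ^ n) x) = χ x
    induction n using Int.induction_on generalizing x with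
    | zero => simp
    | succ n ih =>
      rw [zpow_add, zpow_one, MulAut.mul_apply]
      have := ih (γ x) (Subgroup.zpow_mem_zpowers γ _)
      rw [this, h χ x]
    | pred n ih =>
      rw [zpow_sub, zpow_one, MulAut.mul_apply]
      have := ih (γ⁻¹ x) (Subgroup.zpow_mem_zpowers γ _)
      rw [this, hinv χ x]
  have hp := Uni3.aut3' hR (Subgroup.zpowers γ).subtype Subtype.val_injective hz
  obtain ⟨k, hk⟩ := hp ⟨γ, Subgroup.mem_zpowers γ⟩
  exact ⟨k, congrArg Subtype.val hk⟩

end Pool.Agent.Lib.MP_6567fb_al
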