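import Pool.Agent.Lib.MP_6567fb_al.K35b
import Pool.Agent.Lib.MP_6567fb_al.K36a

/-!
# MP_6567fb_al, module K36b

M acts on R := H / frat3 H m (frat3_quot) by conjugation; K := kernel (as a subgroup of ↥M).  M / K embeds into MulAut R, finite.  For γ in M the induced automorphism satisfies the hypothesis of uni3: χ : R -> ℤ/3 gives χ ∘ φ : H -> ℤ/3, extended to π.ker by the retraction (fac_retract for hM.fac), invariant by Ctx.mod3.
-/

set_option autoImplicit false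

open scoped Pointwise

namespace Pool.Agent.Lib.MP_6567fb_al

open MTree

variable {Γ G : Type} [Group Γ] [Group G] {π : Γ →* G}

namespace K36b

theorem conj_mem {M : Subgroup Γ} {γ x : Γ} (hγ : γ ∈ M) (hx : x ∈ M ⊓ π.ker) :
    γ * x * γ⁻¹ ∈ M ⊓ π.ker := by
  refine ⟨M.mul_mem (M.mul_mem hγ hx.1) (M.inv_mem hγ), ?_⟩
  have h2 : π x = 1 := hx.2
  change π (γ * x * γ⁻¹) = 1
  rw [map_mul, map_mul, map_inv, h2, mul_one, mul_inv_cancel]

/-- conjugation -/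
def cj (M : Subgroup Γ) (γ : M) (x : (M ⊓ π.ker : Subgroup Γ)) : (M ⊓ π.ker : Subgroup Γ) :=
  ⟨(γ : Γ) * x * (γ : Γ)⁻¹, conj_mem γ.2 x.2⟩

theorem cj_mul (M : Subgroup Γ) (γ : M) (x y : (M ⊓ π.ker : Subgroup Γ)) :
    cj M γ (x * y) = cj M γ x * cj M γ y := by
  apply Subtype.ext
  change (γ : Γ) * (x * y) * (γ : Γ)⁻¹ = (γ : Γ) * x * (γ : Γ)⁻¹ * ((γ : Γ) * y * (γ : Γ)⁻¹)
  group

theorem cj_cj (M : Subgroup Γ) (γ δ : M) (x : (M ⊓ π.ker : Subgroup Γ)) :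
    cj M (γ * δ) x = cj M γ (cj M δ x) := by
  apply Subtype.ext
  change ((γ : Γ) * δ) * x * ((γ : Γ) * δ)⁻¹ = (γ : Γ) * ((δ : Γ) * x * (δ : Γ)⁻¹) * (γ : Γ)⁻¹
  group

theorem cj_one (M : Subgroup Γ) (x : (M ⊓ π.ker : Subgroup Γ)) : cj M 1 x = x := by
  apply Subtype.ext
  change (1 : Γ) * x * (1 : Γ)⁻¹ = x
  group

end K36b

open K36b in
theorem m1_quot (hc : Ctx π) {M : Subgroup Γ} (hM : Loc π M) (m : ℕ) :
    ∃ K : Subgroup M, K.Normal ∧
      (∀ γ : M, γ ∈ K ↔ ∀ x ∈ M ⊓ π.ker, (γ : Γ) * x * (γ : Γ)⁻¹ * x⁻¹ ∈ frat3 (M ⊓ π.ker) m) ∧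
      K.FiniteIndex ∧ ∀ γ : M, ∃ k : ℕ, γ ^ (3 ^ k) ∈ K := by
  obtain ⟨R, _, φ, hfin, hR, hsurj, hker⟩ := frat3_quot (hM.fg hc) m
  -- the action of `γ`
  obtain ⟨F, hF⟩ : ∃ F : M → R → R, ∀ γ x, F γ (φ x) = φ (cj M γ x) := by
    refine ⟨fun γ r => φ (cj M γ (Function.surjInv hsurj r)), ?_⟩
    intro γ x
    set y := Function.surjInv hsurj (φ x) with hy
    have hyx : φ y = φ x := Function.surjInv_eq hsurj _
    have h1 : φ (y * x⁻¹) = 1 := by rw [map_mul, map_inv, hyx, mul_inv_cancel]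
    have h2 : ((y * x⁻¹ : (M ⊓ π.ker : Subgroup Γ)) : Γ) ∈ frat3 (M ⊓ π.ker) m := (hker _).1 h1
    have h3 := frat3_norm (H := M ⊓ π.ker) (γ := (γ : Γ)) (fun z hz => conj_mem γ.2 hz) m h2
    have h4 : φ (cj M γ (y * x⁻¹)) = 1 := (hker _).2 h3
    have h5 : y = (y * x⁻¹) * x := by group
    change φ (cj M γ y) = φ (cj M γ x)
    rw [h5, cj_mul, map_mul, h4, one_mul]
  have hFF : ∀ γ δ r, F (γ * δ) r = F γ (F δ r) := by
    intro γ δ r
    obtain ⟨x, rfl⟩ := hsurj r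
    rw [hF, hF, hF, cj_cj]
  have hF1 : ∀ r, F 1 r = r := by
    intro r
    obtain ⟨x, rfl⟩ := hsurj r
    rw [hF, cj_one]
  let Ψ : M →* MulAut R :=
    { toFun := fun γ =>
        { toFun := F γ
          invFun := F γ⁻¹
          left_inv := fun r => by rw [← hFF, inv_mul_cancel, hF1]
          right_inv := fun r => by rw [← hFF, mul_inv_cancel, hF1]
          map_mul' := fun r s => by
            obtain ⟨x, rfl⟩ := hsurj r
            obtain ⟨y, rfl⟩ := hsurj s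
            rw [← map_mul, hF, hF, hF, cj_mul, map_mul] }
      map_one' := MulEquiv.ext fun r => hF1 r
      map_mul' := fun γ δ => MulEquiv.ext fun r => hFF γ δ r }
  have hΨ : ∀ γ x, Ψ γ (φ x) = φ (cj M γ x) := hF
  have hfinA : Finite (MulAut R) := by
    refine Finite.of_injective (fun g : MulAut R => (fun x => g x : R → R)) fun g g' hg => ?_
    exact MulEquiv.ext fun x => congrFun hg x
  refine ⟨Ψ.ker, inferInstance, ?_, inferInstance, ?_⟩
  · intro γ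
    rw [MonoidHom.mem_ker]
    constructor
    · intro h x hx
      have h1 : Ψ γ (φ ⟨x, hx⟩) = φ ⟨x, hx⟩ := by rw [h]; rfl
      rw [hΨ] at h1
      have h2 : φ (cj M γ ⟨x, hx⟩ * (⟨x, hx⟩ : (M ⊓ π.ker : Subgroup Γ))⁻¹) = 1 := by
        rw [map_mul, map_inv, h1, mul_inv_cancel]
      exact (hker _).1 h2
    · intro h
      refine MulEquiv.ext fun r => ?_
      obtain ⟨x, rfl⟩ := hsurj r
      have h1 : φ (cj M γ x * x⁻¹) = 1 := (hker _).2 (h x.1 x.2)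
      rw [map_mul, map_inv, mul_inv_eq_one] at h1
      rw [hΨ, h1]; rfl
  · intro γ
    obtain ⟨k, hk⟩ := uni3 hR (Ψ γ) (by
      intro χ r
      obtain ⟨x, rfl⟩ := hsurj r
      rw [hΨ]
      -- extend to the kernel
      obtain ⟨ρ, hρ1, hρ2⟩ := fac_retract hc hM.fac
      let ρ' : π.ker →* (M ⊓ π.ker : Subgroup Γ) :=
        (π.ker.subtype.comp ρ).codRestrict (M ⊓ π.ker) fun h => hρ1 h
      have hρ' : ∀ (z : (M ⊓ π.ker : Subgroup Γ)), ρ' ⟨z.1, z.2.2⟩ = z := by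
        intro z
        apply Subtype.ext
        change ((ρ ⟨z.1, z.2.2⟩ : π.ker) : Γ) = z.1
        rw [hρ2 ⟨z.1, z.2.2⟩ z.2]
      have h1 := hc.mod3 ((χ.comp φ).comp ρ') (γ : Γ) ⟨x.1, x.2.2⟩
      have h2 : (MulAut.conjNormal (γ : Γ) (⟨x.1, x.2.2⟩ : π.ker)) = ⟨(cj M γ x).1, (cj M γ x).2.2⟩ := by
        apply Subtype.ext
        rw [MulAut.conjNormal_apply]
        rfl
      rw [h2] at h1
      simp only [MonoidHom.comp_apply] at h1
      rw [hρ', hρ'] at h1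
      exact h1)
    exact ⟨k, by rw [MonoidHom.mem_ker, map_pow, hk]⟩

end Pool.Agent.Lib.MP_6567fb_al
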