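import Pool.Agent.Lib.MP_6567fb_al.Defs8

/-!
# MP_6567fb_al, module K37

FG, dimension count over 𝔽₃ (V := R → ZMod 3, dim = |R|).  φ f := (a ↦ f (a r) - f a); ker φ = functions constant on the left cosets a <r>, dimension |R| / orderOf r; so dim range φ = |R| - |R| / orderOf r >= (2/3) |R| if r ≠ 1.
range φ ⊆ V_Y + V_X, V_X := right X-invariant functions, dimension |R| / |X| <= |R| / 3, V_Y the same, and the constants are in V_X ∩ V_Y: dim (V_X + V_Y) <= (2/3) |R| - 1.  (dim of the functions constant on the classes of a setoid = number of classes: equivalence with functions on the quotient R ⧸ X;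
Nat.card X * Nat.card (R ⧸ X) = Nat.card R.)
-/

set_option autoImplicit false

namespace Pool.Agent.Lib.MP_6567fb_al

namespace Uni3

/-- functions on `R` invariant under right multiplication by `X` -/
def InvF {R : Type} [Group R] (X : Subgroup R) : Submodule (ZMod 3) (R → ZMod 3) where
  carrier := {u | ∀ a, ∀ x ∈ X, u (a * x) = u a}
  zero_mem' := fun a x _ => rfl
  add_mem' := fun {u v} hu hv a x hx => by
    change u (a * x) + v (a * x) = u a + v a
    rw [hu a x hx, hv a x hx]
  smul_mem' := fun c u hu a x hx => by
    change c * u (a * x) = c * u a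
    rw [hu a x hx]

theorem finrank_inv {R : Type} [Group R] [Finite R] (X : Subgroup R) :
    Module.finrank (ZMod 3) (InvF X) * Nat.card X = Nat.card R := by
  classical
  have : Fact (Nat.Prime 3) := ⟨Nat.prime_three⟩
  have : Fintype (R ⧸ X) := Fintype.ofFinite _
  let e : InvF X ≃ₗ[ZMod 3] (R ⧸ X → ZMod 3) :=
    { toFun := fun u q => Quotient.liftOn' q u.1 (fun a b hab => by
        rw [QuotientGroup.leftRel_apply] at hab
        have := u.2 a _ hab
        rwa [mul_inv_cancel_left, eq_comm] at this)
      invFun := fun w => ⟨fun a => w (QuotientGroup.mk a), fun a x hx => by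
        have : (QuotientGroup.mk (a * x) : R ⧸ X) = QuotientGroup.mk a :=
          QuotientGroup.mk_mul_of_mem a hx
        change w _ = w _
        rw [this]⟩
      left_inv := fun u => rfl
      right_inv := fun w => by
        funext q
        induction q using QuotientGroup.induction_on with
        | H a => rfl
      map_add' := fun u v => by
        funext q
        induction q using QuotientGroup.induction_on with
        | H a => rfl
      map_smul' := fun c u => by
        funext q
        induction q using QuotientGroup.induction_on with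
        | H a => rfl }
  rw [e.finrank_eq, Module.finrank_fintype_fun_eq_card, ← Nat.card_eq_fintype_card,
    ← Subgroup.card_eq_card_quotient_mul_card_subgroup]

end Uni3

open Uni3

/-- FG -/
theorem fg_dim {R : Type} [Group R] [Finite R] (X Y : Subgroup R) (hX : 3 ≤ Nat.card X)
    (hY : 3 ≤ Nat.card Y) (r : R) (hr : r = 1 ∨ 3 ≤ orderOf r)
    (h : ∀ f : R → ZMod 3, ∃ u v : R → ZMod 3, (∀ a, ∀ x ∈ X, u (a * x) = u a) ∧
      (∀ a, ∀ y ∈ Y, v (a * y) = v a) ∧ ∀ a, f (a * r) - f a = v a - u a) : r = 1 := by
  classical
  have : Fact (Nat.Prime 3) := ⟨Nat.prime_three⟩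
  have : Fintype R := Fintype.ofFinite _
  rcases hr with hr | hr
  · exact hr
  exfalso
  let τ : (R → ZMod 3) →ₗ[ZMod 3] (R → ZMod 3) :=
    { toFun := fun f a => f (a * r) - f a
      map_add' := fun f g => by funext a; simp only [Pi.add_apply]; ring
      map_smul' := fun c f => by
        funext a; simp only [Pi.smul_apply, smul_eq_mul, RingHom.id_apply]; ring }
  have hker : LinearMap.ker τ ≤ InvF (Subgroup.zpowers r) := by
    intro f hf a x hx
    have h1 : ∀ a, f (a * r) = f a := by
      intro a
      have := congrFun (LinearMap.mem_ker.1 hf) a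
      change f (a * r) - f a = 0 at this
      exact sub_eq_zero.1 this
    obtain ⟨n, rfl⟩ := Subgroup.mem_zpowers_iff.1 hx
    induction n using Int.induction_on generalizing a with
    | zero => simp
    | succ n ih =>
      rw [zpow_add, zpow_one, ← mul_assoc, h1]
      exact ih a (Subgroup.zpow_mem_zpowers r n)
    | pred n ih =>
      have := ih a (Subgroup.zpow_mem_zpowers r _)
      rw [← this, zpow_sub, zpow_one]
      have h2 := h1 (a * (r ^ (-(n : ℤ)) * r⁻¹))
      rw [← h2]; group
  have hran : LinearMap.range τ ≤ InvF X ⊔ InvF Y := by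
    rintro _ ⟨f, rfl⟩
    obtain ⟨u, v, hu, hv, huv⟩ := h f
    have : τ f = -u + v := by
      funext a
      change f (a * r) - f a = -u a + v a
      rw [huv]; ring
    rw [this]
    exact Submodule.add_mem_sup (Submodule.neg_mem _ hu) hv
  have e1 := LinearMap.finrank_range_add_finrank_ker τ
  have e2 := Submodule.finrank_mono hker
  have e3 := Submodule.finrank_mono hran
  have e4 := Submodule.finrank_sup_add_finrank_inf_eq (InvF X) (InvF Y)
  have e5 : 1 ≤ Module.finrank (ZMod 3) (InvF X ⊓ InvF Y : Submodule (ZMod 3) (R → ZMod 3)) := by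
    rw [Nat.one_le_iff_ne_zero]
    intro h0
    rw [Submodule.finrank_eq_zero] at h0
    have hm : (fun _ => 1 : R → ZMod 3) ∈ (InvF X ⊓ InvF Y : Submodule (ZMod 3) (R → ZMod 3)) :=
      ⟨fun _ _ _ => rfl, fun _ _ _ => rfl⟩
    rw [h0, Submodule.mem_bot] at hm
    exact one_ne_zero (congrFun hm 1)
  rw [Module.finrank_fintype_fun_eq_card, ← Nat.card_eq_fintype_card] at e1
  have f1 := finrank_inv X
  have f2 := finrank_inv Y
  have f3 := finrank_inv (Subgroup.zpowers r)
  rw [Nat.card_zpowers] at f3
  have g1 : 3 * Module.finrank (ZMod 3) (InvF X) ≤ Nat.card R := by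
    rw [← f1, mul_comm]; exact Nat.mul_le_mul_left _ hX
  have g2 : 3 * Module.finrank (ZMod 3) (InvF Y) ≤ Nat.card R := by
    rw [← f2, mul_comm]; exact Nat.mul_le_mul_left _ hY
  have g3 : 3 * Module.finrank (ZMod 3) (InvF (Subgroup.zpowers r)) ≤ Nat.card R := by
    rw [← f3, mul_comm]; exact Nat.mul_le_mul_left _ hr
  omega

end Pool.Agent.Lib.MP_6567fb_al
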