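import Pool.Agent.Lib.MP_6567fb_al.K31c
import Pool.Agent.Lib.MP_6567fb_al.K35b
import Pool.Agent.Lib.MP_6567fb_al.K37
import Pool.Agent.Lib.MP_6567fb_al.T1d

/-!
# MP_6567fb_al, module K38a

Edge claim.  H := M ⊓ ker, N := frat3 H m, R := H / N (frat3_quot, φ), e := (B,C), h_e in H with h_e e = γ e (orb), r := φ h_e.  Let f : R -> ZMod 3.  c (h B) (h C) := f (φ h), c (h C) (h B) := - f (φ h), c := 0 on all other pairs: well defined (fix_two: (h B, h C) = (h' B, h' C) implies h = h'; ninv excludes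
(h B, h C) = (h' C, h' B)).  U := potential of c (T1d.potential).  For n in N: U (n x) - U x does not depend on x (c is N-invariant: φ (n h) = φ h), =: χ n, a homomorphism N -> ℤ/3, so it kills frat3 H (m+1) (frat3_hom).  u x := U (γ x) - U x.
u (n x) - u x = χ (γ n γ⁻¹) - χ n = χ (γ n γ⁻¹ n⁻¹) = 0 by h1.  For x adjacent to y: u y - u x = c (γ x) (γ y) - c x y; on (h B, h C): γ h e = (γ h γ⁻¹) h_e e and γ h γ⁻¹ h⁻¹ in frat3 H (m+1) ≤ N, so u (h C) - u (h B) = f (φ h r) - f (φ h).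
v (φ h) := u (h C), u' (φ h) := u (h B): well defined (u is N-invariant, N normal), right invariant under Y := φ (C), X := φ (B) (subgroups of R; h b B = h B for b in B).  |X|, |Y| >= 3: non-trivial (frat3_not_le) subgroups of a 3-group.  orderOf r = 1 or >= 3.  fg_dim: r = 1, so h_e in N.
-/

set_option autoImplicit false

open scoped Pointwise

namespace Pool.Agent.Lib.MP_6567fb_al

open MTree

variable {Γ G : Type} [Group Γ] [Group G] {π : Γ →* G}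

namespace K38a

theorem three_le_of_ne {R : Type} [Group R] [Finite R] (hR : IsPGroup 3 R) (r : R) :
    r = 1 ∨ 3 ≤ orderOf r := by
  have : Fact (Nat.Prime 3) := ⟨Nat.prime_three⟩
  obtain ⟨k, hk⟩ := (IsPGroup.iff_orderOf.1 hR) r
  rcases Nat.eq_zero_or_pos k with rfl | hk0
  · left
    rw [pow_zero] at hk
    exact orderOf_eq_one_iff.1 hk
  · right
    rw [hk]
    calc 3 = 3 ^ 1 := by norm_num
      _ ≤ 3 ^ k := Nat.pow_le_pow_right (by norm_num) hk0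

theorem three_le_card {R : Type} [Group R] [Finite R] (hR : IsPGroup 3 R) (X : Subgroup R) {x : R}
    (hx : x ∈ X) (hx1 : x ≠ 1) : 3 ≤ Nat.card X := by
  have h1 := (three_le_of_ne hR x).resolve_left hx1
  have h2 : orderOf x ∣ Nat.card X := by
    have := orderOf_dvd_natCard (⟨x, hx⟩ : X)
    rwa [← Subgroup.orderOf_coe] at this
  exact h1.trans (Nat.le_of_dvd Nat.card_pos h2)

/-- the cochain -/
theorem cochain {Ω : Set (Subgroup Γ)} {M : Subgroup Γ} (hi : ∀ m ∈ M, ∀ B ∈ Ω, MulAut.conj m • B ∈ Ω)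
    {H : Subgroup Γ} (hHM : H ≤ M) {B C : Ω}
    (uniq : ∀ a ∈ H, ∀ a' ∈ H, omAct Ω a B = omAct Ω a' B → omAct Ω a C = omAct Ω a' C → a = a')
    (excl : ∀ a ∈ H, ∀ a' ∈ H, omAct Ω a B = omAct Ω a' C → omAct Ω a C = omAct Ω a' B → False)
    (N : Subgroup Γ) (hN : N ≤ H) (F : H → ZMod 3)
    (hF : ∀ n (hn : n ∈ N) (a : H), F (⟨n, hN hn⟩ * a) = F a) :
    ∃ c : Ω → Ω → ZMod 3, (∀ a : H, c (omAct Ω a B) (omAct Ω a C) = F a) ∧
      (∀ x y, c y x = - c x y) ∧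
      ∀ n ∈ N, ∀ x y, c (omAct Ω n x) (omAct Ω n y) = c x y := by
  classical
  let c : Ω → Ω → ZMod 3 := fun x y =>
    if h : ∃ a : H, omAct Ω (a : Γ) B = x ∧ omAct Ω (a : Γ) C = y then F h.choose
    else if h : ∃ a : H, omAct Ω (a : Γ) C = x ∧ omAct Ω (a : Γ) B = y then - F h.choose else 0
  have c1 : ∀ a : H, c (omAct Ω a B) (omAct Ω a C) = F a := by
    intro a
    have h : ∃ a' : H, omAct Ω (a' : Γ) B = omAct Ω a B ∧ omAct Ω (a' : Γ) C = omAct Ω a C :=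
      ⟨a, rfl, rfl⟩
    change (if h : _ then _ else _) = _
    rw [dif_pos h]
    obtain ⟨e1, e2⟩ := h.choose_spec
    exact congrArg F (Subtype.ext (uniq _ h.choose.2 _ a.2 e1 e2))
  have c1' : ∀ a : H, c (omAct Ω a C) (omAct Ω a B) = - F a := by
    intro a
    have h0 : ¬ ∃ a' : H, omAct Ω (a' : Γ) B = omAct Ω a C ∧ omAct Ω (a' : Γ) C = omAct Ω a B := by
      rintro ⟨a', e1, e2⟩
      exact excl _ a'.2 _ a.2 e1 e2
    have h : ∃ a' : H, omAct Ω (a' : Γ) C = omAct Ω a C ∧ omAct Ω (a' : Γ) B = omAct Ω a B :=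
      ⟨a, rfl, rfl⟩
    change (if h : _ then _ else _) = _
    rw [dif_neg h0, dif_pos h]
    obtain ⟨e1, e2⟩ := h.choose_spec
    exact congrArg (fun z => - F z) (Subtype.ext (uniq _ h.choose.2 _ a.2 e2 e1))
  have c0 : ∀ x y, (¬ ∃ a : H, omAct Ω (a : Γ) B = x ∧ omAct Ω (a : Γ) C = y) →
      (¬ ∃ a : H, omAct Ω (a : Γ) C = x ∧ omAct Ω (a : Γ) B = y) → c x y = 0 := by
    intro x y h1 h2
    change (if h : _ then _ else _) = _
    rw [dif_neg h1, dif_neg h2]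
  refine ⟨c, c1, ?_, ?_⟩
  · intro x y
    by_cases h1 : ∃ a : H, omAct Ω (a : Γ) B = x ∧ omAct Ω (a : Γ) C = y
    · obtain ⟨a, rfl, rfl⟩ := h1
      rw [c1, c1']
    by_cases h2 : ∃ a : H, omAct Ω (a : Γ) C = x ∧ omAct Ω (a : Γ) B = y
    · obtain ⟨a, rfl, rfl⟩ := h2
      rw [c1, c1', neg_neg]
    rw [c0 x y h1 h2, c0 y x (fun ⟨a, e1, e2⟩ => h2 ⟨a, e2, e1⟩) (fun ⟨a, e1, e2⟩ => h1 ⟨a, e2, e1⟩),
      neg_zero]
  · intro n hn x y
    have hnM := hHM (hN hn)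
    have tr : ∀ a : H, ∀ D : Ω, omAct Ω ((⟨n, hN hn⟩ * a : H) : Γ) D = omAct Ω n (omAct Ω a D) :=
      fun a D => omAct_mul hi hnM (hHM a.2) D
    have tr' : ∀ a : H, ∀ D x : Ω, omAct Ω (a : Γ) D = omAct Ω n x →
        omAct Ω (((⟨n, hN hn⟩ : H)⁻¹ * a : H) : Γ) D = x := by
      intro a D x h
      have : omAct Ω (((⟨n, hN hn⟩ : H)⁻¹ * a : H) : Γ) D = omAct Ω n⁻¹ (omAct Ω a D) :=
        omAct_mul hi (M.inv_mem hnM) (hHM a.2) D
      rw [this, h, ← omAct_mul hi (M.inv_mem hnM) hnM, inv_mul_cancel, omAct_one]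
    by_cases h1 : ∃ a : H, omAct Ω (a : Γ) B = x ∧ omAct Ω (a : Γ) C = y
    · obtain ⟨a, rfl, rfl⟩ := h1
      rw [c1, ← tr, ← tr, c1, hF n hn]
    by_cases h2 : ∃ a : H, omAct Ω (a : Γ) C = x ∧ omAct Ω (a : Γ) B = y
    · obtain ⟨a, rfl, rfl⟩ := h2
      rw [c1', ← tr, ← tr, c1', hF n hn]
    rw [c0 x y h1 h2, c0]
    · rintro ⟨a, e1, e2⟩
      exact h1 ⟨_, tr' a B x e1, tr' a C y e2⟩
    · rintro ⟨a, e1, e2⟩
      exact h2 ⟨_, tr' a C x e1, tr' a B y e2⟩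

end K38a

open K38a in
theorem edge_claim (hc : Ctx π) {M : Subgroup Γ} (hM : Loc π M) {Ω : Set (Subgroup Γ)}
    (hΩ : IsPeriph π.ker M Ω) {Gr : SimpleGraph Ω} (hG : OG π.ker M Ω Gr) {m : ℕ} (hm : 1 ≤ m) {γ : Γ}
    (hγ : γ ∈ M) (h1 : ∀ x ∈ M ⊓ π.ker, γ * x * γ⁻¹ * x⁻¹ ∈ frat3 (M ⊓ π.ker) (m + 1)) {B C : Ω}
    (hBC : Gr.Adj B C) :
    ∃ n ∈ frat3 (M ⊓ π.ker) m, omAct Ω n B = omAct Ω γ B ∧ omAct Ω n C = omAct Ω γ C := by
  have hfg := hM.fg hc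
  have hnle : ∀ D : Ω, ¬ (D : Subgroup Γ) ≤ frat3 (M ⊓ π.ker) m :=
    fun D => frat3_not_le hc hM hΩ D.2 hm
  set H : Subgroup Γ := M ⊓ π.ker with hH
  set N : Subgroup Γ := frat3 H m with hNdef
  obtain ⟨R, _, φ, hfin, hR, hsurj, hker⟩ := frat3_quot hfg m
  have hi := hΩ.inv
  have hHM : H ≤ M := inf_le_left
  have hNH : N ≤ H := frat3_le_self H m
  obtain ⟨he, heH, heB, heC⟩ := hG.orb γ hγ B C hBC
  suffices hr : φ ⟨he, heH⟩ = 1 from ⟨he, (hker ⟨he, heH⟩).1 hr, heB, heC⟩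
  have uniq : ∀ a ∈ H, ∀ a' ∈ H, omAct Ω a B = omAct Ω a' B → omAct Ω a C = omAct Ω a' C → a = a' := by
    intro a ha a' ha' e1 e2
    have k1 : ∀ D : Ω, omAct Ω a D = omAct Ω a' D → omAct Ω (a'⁻¹ * a) D = D := by
      intro D e
      rw [omAct_mul hi (M.inv_mem (hHM ha')) (hHM ha), e,
        ← omAct_mul hi (M.inv_mem (hHM ha')) (hHM ha'), inv_mul_cancel, omAct_one]
    have := fix_two hΩ (H.mul_mem (H.inv_mem ha') ha) hBC.ne (k1 B e1) (k1 C e2)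
    rwa [inv_mul_eq_one, eq_comm] at this
  have excl : ∀ a ∈ H, ∀ a' ∈ H, omAct Ω a B = omAct Ω a' C → omAct Ω a C = omAct Ω a' B → False := by
    intro a ha a' ha' e1 e2
    refine hG.ninv (a'⁻¹ * a) (H.mul_mem (H.inv_mem ha') ha) B C hBC ⟨?_, ?_⟩
    · rw [omAct_mul hi (M.inv_mem (hHM ha')) (hHM ha), e1,
        ← omAct_mul hi (M.inv_mem (hHM ha')) (hHM ha'), inv_mul_cancel, omAct_one]
    · rw [omAct_mul hi (M.inv_mem (hHM ha')) (hHM ha), e2,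
        ← omAct_mul hi (M.inv_mem (hHM ha')) (hHM ha'), inv_mul_cancel, omAct_one]
  -- subgroups of `R`
  let X : Subgroup R := ((B : Subgroup Γ).subgroupOf H).map φ
  let Y : Subgroup R := ((C : Subgroup Γ).subgroupOf H).map φ
  have hcard : ∀ D : Ω, 3 ≤ Nat.card (((D : Subgroup Γ).subgroupOf H).map φ) := by
    intro D
    have h2 := hnle D
    rw [SetLike.not_le_iff_exists] at h2
    obtain ⟨d, hd, hdN⟩ := h2
    have hdH : d ∈ H := periph_le hΩ D.2 hd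
    refine three_le_card hR _ (x := φ ⟨d, hdH⟩) ⟨⟨d, hdH⟩, hd, rfl⟩ ?_
    intro h3
    exact hdN ((hker _).1 h3)
  refine fg_dim X Y (hcard B) (hcard C) _ (three_le_of_ne hR _) fun f => ?_
  have hF : ∀ n (hn : n ∈ N) (a : H), f (φ (⟨n, hNH hn⟩ * a)) = f (φ a) := by
    intro n hn a
    rw [map_mul, (hker ⟨n, hNH hn⟩).2 hn, one_mul]
  obtain ⟨c, c1, c2, c3⟩ := cochain hi hHM uniq excl N hNH (fun a => f (φ a)) hF
  obtain ⟨U, hU⟩ := TG.potential hG.tree c fun x y _ => c2 x y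
  -- the homomorphism `χ`
  have hconst : ∀ n ∈ N, ∀ x y, U (omAct Ω n x) - U x = U (omAct Ω n y) - U y := by
    intro n hn
    refine TG.potential_unique hG.tree (fun x => U (omAct Ω n x) - U x) fun x y hxy => ?_
    have a1 := hU x y hxy
    have a2 := hU _ _ (hG.adj n (hHM (hNH hn)) x y hxy)
    rw [c3 n hn] at a2
    change U (omAct Ω n y) - U y = U (omAct Ω n x) - U x
    linear_combination a2 - a1
  let χ : N →* Multiplicative (ZMod 3) :=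
    { toFun := fun n => Multiplicative.ofAdd (U (omAct Ω (n : Γ) B) - U B)
      map_one' := by
        rw [Subgroup.coe_one, omAct_one, sub_self]; rfl
      map_mul' := fun n n' => by
        rw [← ofAdd_add]
        congr 1
        rw [Subgroup.coe_mul, omAct_mul hi (hHM (hNH n.2)) (hHM (hNH n'.2))]
        have := hconst n n.2 (omAct Ω n' B) B
        linear_combination this }
  have hχ : ∀ n (hn : n ∈ N) x, U (omAct Ω n x) - U x = (χ ⟨n, hn⟩).toAdd := by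
    intro n hn x
    rw [hconst n hn x B]; rfl
  have hχ0 : ∀ n ∈ frat3 H (m + 1), ∀ x, U (omAct Ω n x) - U x = 0 := by
    intro n hn x
    have hn' : n ∈ N := frat3_anti H (Nat.le_succ m) hn
    rw [hχ n hn' x, frat3_hom χ hn' hn]; rfl
  -- `u x = U (γ x) - U x` is `N`-invariant
  have huN : ∀ n ∈ N, ∀ x, U (omAct Ω γ (omAct Ω n x)) - U (omAct Ω n x) = U (omAct Ω γ x) - U x := by
    intro n hn x
    have hnH := hNH hn
    have hnM := hHM hnH
    have h2 := h1 n hnH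
    have hcm : γ * n * γ⁻¹ * n⁻¹ ∈ N := frat3_anti H (Nat.le_succ m) h2
    have hcmM := hHM (hNH hcm)
    have e : omAct Ω γ (omAct Ω n x) = omAct Ω (γ * n * γ⁻¹ * n⁻¹) (omAct Ω n (omAct Ω γ x)) := by
      rw [← omAct_mul hi hnM hγ, ← omAct_mul hi hcmM (M.mul_mem hnM hγ), ← omAct_mul hi hγ hnM]
      congr 1
      group
    have k1 := hχ0 _ h2 (omAct Ω n (omAct Ω γ x))
    have k2 := hconst n hn (omAct Ω γ x) x
    rw [e]
    linear_combination k1 + k2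
  -- the functions on `R`
  have hlift : ∀ D : Ω, ∃ v : R → ZMod 3, ∀ a : H,
      v (φ a) = U (omAct Ω γ (omAct Ω a D)) - U (omAct Ω a D) := by
    intro D
    refine ⟨fun r => U (omAct Ω γ (omAct Ω (Function.surjInv hsurj r : H) D))
      - U (omAct Ω (Function.surjInv hsurj r : H) D), fun a => ?_⟩
    set b := Function.surjInv hsurj (φ a) with hb
    have hba : φ b = φ a := Function.surjInv_eq hsurj _
    have hn : φ (b * a⁻¹) = 1 := by rw [map_mul, map_inv, hba, mul_inv_cancel]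
    have hn' : ((b * a⁻¹ : H) : Γ) ∈ N := (hker _).1 hn
    have e : omAct Ω (b : Γ) D = omAct Ω ((b * a⁻¹ : H) : Γ) (omAct Ω (a : Γ) D) := by
      rw [← omAct_mul hi (hHM (b * a⁻¹).2) (hHM a.2)]
      congr 1
      simp
    change U (omAct Ω γ (omAct Ω (b : Γ) D)) - U (omAct Ω (b : Γ) D) = _
    rw [e, huN _ hn']
  obtain ⟨u', hu'⟩ := hlift B
  obtain ⟨v, hv⟩ := hlift C
  have hright : ∀ (D : Ω) (w : R → ZMod 3), (∀ a : H,
      w (φ a) = U (omAct Ω γ (omAct Ω a D)) - U (omAct Ω a D)) →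
      ∀ b, ∀ x ∈ ((D : Subgroup Γ).subgroupOf H).map φ, w (b * x) = w b := by
    rintro D w hw b _ ⟨d, hd, rfl⟩
    obtain ⟨a, rfl⟩ := hsurj b
    have hdD : (d : Γ) ∈ (D : Subgroup Γ) := hd
    have hfix : omAct Ω (d : Γ) D = D := (mem_of_fix hΩ d.2).2 hdD
    rw [← map_mul, hw, hw, Subgroup.coe_mul, omAct_mul hi (hHM a.2) (hHM d.2), hfix]
  refine ⟨u', v, hright B u' hu', hright C v hv, fun b => ?_⟩
  obtain ⟨a, rfl⟩ := hsurj b
  -- the edge `(a B, a C)`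
  have haM := hHM a.2
  have hadj : Gr.Adj (omAct Ω (a : Γ) B) (omAct Ω (a : Γ) C) := hG.adj _ haM _ _ hBC
  have hadj2 := hG.adj _ hγ _ _ hadj
  have k1 := hU _ _ hadj
  have k2 := hU _ _ hadj2
  rw [c1] at k1
  have h2 := h1 a a.2
  have hcm : γ * a * γ⁻¹ * (a : Γ)⁻¹ ∈ N := frat3_anti H (Nat.le_succ m) h2
  have hconj : γ * a * γ⁻¹ ∈ H := by
    have := H.mul_mem (hNH hcm) a.2
    have e : γ * a * γ⁻¹ * (a : Γ)⁻¹ * a = γ * a * γ⁻¹ := by group
    rwa [e] at this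
  have ee : ∀ D : Ω, omAct Ω he D = omAct Ω γ D →
      omAct Ω γ (omAct Ω (a : Γ) D) = omAct Ω ((⟨γ * a * γ⁻¹, hconj⟩ * ⟨he, heH⟩ : H) : Γ) D := by
    intro D hD
    have : omAct Ω ((⟨γ * a * γ⁻¹, hconj⟩ * ⟨he, heH⟩ : H) : Γ) D
        = omAct Ω (γ * a * γ⁻¹) (omAct Ω he D) := omAct_mul hi (hHM hconj) (hHM heH) D
    rw [this, hD, ← omAct_mul hi (hHM hconj) hγ, ← omAct_mul hi hγ haM]
    congr 1
    group
  rw [ee B heB, ee C heC, c1, map_mul] at k2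
  have hφ : φ ⟨γ * a * γ⁻¹, hconj⟩ = φ a := by
    have h3 : φ (⟨γ * a * γ⁻¹, hconj⟩ * a⁻¹) = 1 := (hker _).2 hcm
    rwa [map_mul, map_inv, mul_inv_eq_one] at h3
  rw [hφ] at k2
  rw [hv, hu', ee B heB, ee C heC]
  linear_combination k1 - k2

end Pool.Agent.Lib.MP_6567fb_al
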