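import Pool.Agent.Lib.MP_6567fb_al.K38a

/-!
# MP_6567fb_al, module K38b

An element which acts trivially modulo a deep term of the Frattini series is, modulo this term, a pointwise product of
elements which fix members.
-/

set_option autoImplicit false

open scoped Pointwise

namespace Pool.Agent.Lib.MP_6567fb_al

open MTree
variable {Γ G : Type} [Group Γ] [Group G] {π : Γ →* G}

theorem oN_le (H : Subgroup Γ) (Ω : Set (Subgroup Γ)) (m : ℕ) : oN H Ω m ≤ frat3 H m := by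
  unfold oN
  rw [Subgroup.closure_le]
  exact fun x hx => hx.1

theorem oN_norm {M : Subgroup Γ} {Ω : Set (Subgroup Γ)} (hi : ∀ m ∈ M, ∀ B ∈ Ω, MulAut.conj m • B ∈ Ω)
    (k : ℕ) : ∀ m ∈ M, ∀ n ∈ oN (M ⊓ π.ker) Ω k, m * n * m⁻¹ ∈ oN (M ⊓ π.ker) Ω k := by
  intro m hm n hn
  have key : oN (M ⊓ π.ker) Ω k ≤ (oN (M ⊓ π.ker) Ω k).comap (MulAut.conj m).toMonoidHom := by
    conv_lhs => unfold oN
    rw [Subgroup.closure_le]
    rintro x ⟨hx, B, hB, hxB⟩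
    change m * x * m⁻¹ ∈ oN (M ⊓ π.ker) Ω k
    refine Subgroup.subset_closure ⟨?_, MulAut.conj m • B, hi m hm B hB, ?_⟩
    · refine frat3_norm ?_ k hx
      rintro y ⟨hy1, hy2⟩
      refine ⟨M.mul_mem (M.mul_mem hm hy1) (M.inv_mem hm), ?_⟩
      exact (MonoidHom.normal_ker π).conj_mem y hy2 m
    · exact Subgroup.smul_mem_pointwise_smul x (MulAut.conj m) B hxB
  exact key hn

theorem oN_gen {M : Subgroup Γ} {Ω : Set (Subgroup Γ)} (hΩ : IsPeriph π.ker M Ω) (k : ℕ) :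
    oN (M ⊓ π.ker) Ω k = Subgroup.closure {n | n ∈ oN (M ⊓ π.ker) Ω k ∧ ∃ B : Ω, omAct Ω n B = B} := by
  apply le_antisymm
  · conv_lhs => unfold oN
    rw [Subgroup.closure_le]
    rintro x ⟨hx, B, hB, hxB⟩
    refine Subgroup.subset_closure ⟨Subgroup.subset_closure ⟨hx, B, hB, hxB⟩, ⟨B, hB⟩, ?_⟩
    exact (mem_of_fix hΩ (frat3_le_self _ _ hx)).2 hxB
  · rw [Subgroup.closure_le]
    exact fun x hx => hx.1

theorem in_NC (hc : Ctx π) {M : Subgroup Γ} (hM : Loc π M) {Ω : Set (Subgroup Γ)}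
    (hΩ : IsPeriph π.ker M Ω) {Gr : SimpleGraph Ω} (hG : OG π.ker M Ω Gr) {m : ℕ} (hm : 1 ≤ m) {γ : Γ}
    (hγ : γ ∈ M) (h1 : ∀ x ∈ M ⊓ π.ker, γ * x * γ⁻¹ * x⁻¹ ∈ frat3 (M ⊓ π.ker) (m + 1)) :
    ∃ n ∈ frat3 (M ⊓ π.ker) m, ∀ B : Ω, ∃ n' ∈ oN (M ⊓ π.ker) Ω m,
      omAct Ω (n⁻¹ * γ) B = omAct Ω n' B := by
  obtain ⟨B₀⟩ := hG.tree.connected.nonempty
  have hsub : ∀ x ∈ frat3 (M ⊓ π.ker) m, x ∈ M := fun x hx => (frat3_le_self _ _ hx).1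
  have hedge := fun (B C : Ω) (h : Gr.Adj B C) => edge_claim hc hM hΩ hG hm hγ h1 h
  by_cases hE : ∃ C, Gr.Adj B₀ C
  · obtain ⟨C₀, hC₀⟩ := hE
    obtain ⟨n, hn, hn1, -⟩ := hedge B₀ C₀ hC₀
    have hnM := hsub n hn
    refine ⟨n, hn, ?_⟩
    have hδ : ∀ C C' : Ω, Gr.Adj C C' → ∃ x ∈ frat3 (M ⊓ π.ker) m,
        omAct Ω (n⁻¹ * γ) C = omAct Ω x C ∧ omAct Ω (n⁻¹ * γ) C' = omAct Ω x C' := by
      intro C C' hCC
      obtain ⟨y, hy, hy1, hy2⟩ := hedge C C' hCC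
      refine ⟨n⁻¹ * y, (frat3 _ m).mul_mem ((frat3 _ m).inv_mem hn) hy, ?_, ?_⟩
      · rw [omAct_mul hG.inv (M.inv_mem hnM) hγ, omAct_mul hG.inv (M.inv_mem hnM) (hsub y hy), hy1]
      · rw [omAct_mul hG.inv (M.inv_mem hnM) hγ, omAct_mul hG.inv (M.inv_mem hnM) (hsub y hy), hy2]
    have hbase : omAct Ω (n⁻¹ * γ) B₀ = B₀ := by
      rw [omAct_mul hG.inv (M.inv_mem hnM) hγ, ← hn1, ← omAct_mul hG.inv (M.inv_mem hnM) hnM,
        inv_mul_cancel, omAct_one]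
    have hstep : ∀ C C' : Ω, Gr.Adj C C' →
        (∃ n' ∈ oN (M ⊓ π.ker) Ω m, omAct Ω (n⁻¹ * γ) C = omAct Ω n' C) →
        ∃ n' ∈ oN (M ⊓ π.ker) Ω m, omAct Ω (n⁻¹ * γ) C' = omAct Ω n' C' := by
      rintro C C' hCC ⟨n', hn', hn'C⟩
      obtain ⟨x, hx, hx1, hx2⟩ := hδ C C' hCC
      have hn'f := oN_le _ _ _ hn'
      have hzf : n'⁻¹ * x ∈ frat3 (M ⊓ π.ker) m :=
        (frat3 _ m).mul_mem ((frat3 _ m).inv_mem hn'f) hx
      have hfix : omAct Ω (n'⁻¹ * x) C = C := by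
        rw [omAct_mul hG.inv (M.inv_mem (hsub n' hn'f)) (hsub x hx), ← hx1, hn'C,
          ← omAct_mul hG.inv (M.inv_mem (hsub n' hn'f)) (hsub n' hn'f), inv_mul_cancel, omAct_one]
      have hzC := (mem_of_fix hΩ (frat3_le_self _ _ hzf)).1 hfix
      have hzN : n'⁻¹ * x ∈ oN (M ⊓ π.ker) Ω m := Subgroup.subset_closure ⟨hzf, C, C.2, hzC⟩
      have hxN : x ∈ oN (M ⊓ π.ker) Ω m := by
        have := (oN (M ⊓ π.ker) Ω m).mul_mem hn' hzN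
        rwa [mul_inv_cancel_left] at this
      exact ⟨x, hxN, hx2⟩
    have hwalk : ∀ (u v : Ω) (_ : Gr.Walk u v),
        (∃ n' ∈ oN (M ⊓ π.ker) Ω m, omAct Ω (n⁻¹ * γ) u = omAct Ω n' u) →
        ∃ n' ∈ oN (M ⊓ π.ker) Ω m, omAct Ω (n⁻¹ * γ) v = omAct Ω n' v := by
      intro u v w
      induction w with
      | nil => exact id
      | cons h _ ih => exact fun hu => ih (hstep _ _ h hu)
    intro B
    obtain ⟨w⟩ := hG.tree.connected.preconnected B₀ B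
    exact hwalk B₀ B w ⟨1, Subgroup.one_mem _, by rw [hbase, omAct_one]⟩
  · have hall : ∀ B : Ω, B = B₀ := by
      intro B
      obtain ⟨w⟩ := hG.tree.connected.preconnected B₀ B
      cases w with
      | nil => rfl
      | cons h _ => exact absurd ⟨_, h⟩ hE
    refine ⟨1, Subgroup.one_mem _, fun B => ⟨1, Subgroup.one_mem _, ?_⟩⟩
    rw [hall (omAct Ω (1⁻¹ * γ) B), hall (omAct Ω 1 B)]

end Pool.Agent.Lib.MP_6567fb_al
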