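import Pool.Agent.Lib.MP_6567fb_al.K31c
import Pool.Agent.Lib.MP_6567fb_al.K32
import Pool.Agent.Lib.MP_6567fb_al.K35a

/-!
# MP_6567fb_al, module K39a

nofold_large: for the finitely many triples (x,y,z) of consecutive points on [B,C] (interior y) there is at most one h in H with h y = y, h x = z (two of them differ by an element fixing y and x: fix_two), it is ≠ 1; it is not in frat3 H m for large m (frat3_cap, frat3_anti).  Induction on the distance or finiteness of the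
geodesic {D : Btw B D C}.
nxt_quot: Gr' from oquot (clauses 2 and 3).  The images of the points of the geodesic from B to C form a walk of Gr' of the same length without backtracking: at y, mk x = mk z would give (clause 3) n in N with n y = y, n x = z, excluded by NoFold (N ≤ D).  chain_geod / dist_of_local: dist (mk B) (mk C) = dist B C; the same for e
in place of B.
-/

set_option autoImplicit false

open scoped Pointwise

namespace Pool.Agent.Lib.MP_6567fb_al

open MTree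
variable {Γ G : Type} [Group Γ] [Group G] {π : Γ →* G}

/-- a geodesic is finite -/
theorem K39a_seg_finite {X : Type} {Gr : SimpleGraph X} (hG : Gr.IsTree) (B C : X) :
    {D | TG.Btw Gr B D C}.Finite := by
  apply Set.Finite.of_finite_image (f := fun D => Gr.dist B D)
  · apply (Set.finite_Iic (Gr.dist B C)).subset
    rintro _ ⟨D, hD, rfl⟩
    have h : Gr.dist B D + Gr.dist D C = Gr.dist B C := hD
    simp only [Set.mem_Iic]
    omega
  · intro D hD D' hD' h
    exact TG.btw_point_unique hG hD rfl hD' h.symm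

theorem nofold_large (hc : Ctx π) {M : Subgroup Γ} (hM : Loc π M) {Ω : Set (Subgroup Γ)}
    (hΩ : IsPeriph π.ker M Ω) {Gr : SimpleGraph Ω} (hG : OG π.ker M Ω Gr) (B C : Ω) :
    ∃ m₀, ∀ m ≥ m₀, NoFold Gr (frat3 (M ⊓ π.ker) m) B C := by
  have hfin : ({D | TG.Btw Gr B D C} ×ˢ {D | TG.Btw Gr B D C} ×ˢ {D | TG.Btw Gr B D C}).Finite :=
    (K39a_seg_finite hG.tree B C).prod ((K39a_seg_finite hG.tree B C).prod (K39a_seg_finite hG.tree B C))
  have key : ∀ t ∈ ({D | TG.Btw Gr B D C} ×ˢ {D | TG.Btw Gr B D C} ×ˢ {D | TG.Btw Gr B D C}),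
      ∀ᶠ m in Filter.atTop, (Gr.Adj t.1 t.2.1 → t.1 ≠ t.2.2 →
        ¬ ∃ n ∈ frat3 (M ⊓ π.ker) m, omAct Ω n t.2.1 = t.2.1 ∧ omAct Ω n t.1 = t.2.2) := by
    rintro ⟨x, y, z⟩ -
    rw [Filter.eventually_atTop]
    by_contra hcon
    push Not at hcon
    obtain ⟨m1, -, hxy, hxz, n, hn, hny, hnx⟩ := hcon 0
    have hn' : n ∈ M ⊓ π.ker := frat3_le_self _ _ hn
    have hall : ∀ k, n ∈ frat3 (M ⊓ π.ker) k := by
      intro k
      obtain ⟨m2, hk, -, -, n', hn2, hny', hnx'⟩ := hcon k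
      have hn2' : n' ∈ M ⊓ π.ker := frat3_le_self _ _ hn2
      have e1 : ∀ w w', omAct Ω n w = w' → omAct Ω n' w = w' → omAct Ω (n⁻¹ * n') w = w := by
        intro w w' a b
        rw [omAct_mul hG.inv (M.inv_mem hn'.1) hn2'.1, b, ← a, ← omAct_mul hG.inv (M.inv_mem hn'.1) hn'.1,
          inv_mul_cancel, omAct_one]
      have h1 : n⁻¹ * n' = 1 :=
        fix_two hΩ ((M ⊓ π.ker).mul_mem ((M ⊓ π.ker).inv_mem hn') hn2') hxy.ne (e1 x z hnx hnx')
          (e1 y y hny hny')
      have h2 : n = n' := by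
        rw [inv_mul_eq_one] at h1
        exact h1
      rw [h2]
      exact frat3_anti _ hk hn2
    have h1 : n = 1 := frat3_cap hc hall
    apply hxz
    rw [h1, omAct_one] at hnx
    exact hnx
  rw [← Filter.eventually_all_finite hfin] at key
  rw [Filter.eventually_atTop] at key
  obtain ⟨m₀, h⟩ := key
  refine ⟨m₀, fun m hm => ?_⟩
  intro x y z hxy _ hxz hx hy hz
  exact h m hm (x, y, z) ⟨hx, hy, hz⟩ hxy hxz

theorem nxt_quot {F M : Subgroup Γ} {Ω : Set (Subgroup Γ)} {Gr : SimpleGraph Ω} (hG : OG F M Ω Gr)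
    {N D : Subgroup Γ} (hN : N ≤ M) (hND : N ≤ D) {Gr' : SimpleGraph (Quot (omRel N Ω))} (hG' : Gr'.IsTree)
    (h2 : ∀ B C, Gr'.Adj (Quot.mk _ B) (Quot.mk _ C) ↔ ∃ n ∈ N, Gr.Adj B (omAct Ω n C))
    (h3 : ∀ B C D, Gr.Adj B C → Gr.Adj B D → Quot.mk (omRel N Ω) C = Quot.mk (omRel N Ω) D →
      ∃ n ∈ N, omAct Ω n B = B ∧ omAct Ω n C = D) {B C e : Ω} (hf : NoFold Gr D B C)
    (hn : Nxt Gr B C e) : Nxt Gr' (Quot.mk _ B) (Quot.mk _ C) (Quot.mk _ e) := by
  have hT := hG.tree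
  have hadj' : ∀ x y, Gr.Adj x y → Gr'.Adj (Quot.mk _ x) (Quot.mk _ y) := fun x y h =>
    (h2 x y).2 ⟨1, N.one_mem, by rw [omAct_one]; exact h⟩
  obtain ⟨n, hnd⟩ : ∃ n, n = Gr.dist B C := ⟨_, rfl⟩
  have hpt : ∀ i : ℕ, ∃ y, i ≤ n → (TG.Btw Gr B y C ∧ Gr.dist B y = i) := by
    intro i
    by_cases hi : i ≤ n
    · obtain ⟨y, hy⟩ := TG.btw_point_exists hT (x := B) (z := C) (k := i) (by omega)
      exact ⟨y, fun _ => hy⟩
    · exact ⟨B, fun h => absurd h hi⟩
  choose p hp using hpt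
  have hadj : ∀ i, i + 1 ≤ n → Gr.Adj (p i) (p (i + 1)) := by
    intro i hi
    obtain ⟨a1, a2⟩ := hp i (by omega)
    obtain ⟨b1, b2⟩ := hp (i + 1) hi
    have h := (TG.btw_linear hT a1 b1 (by omega)).1
    rw [← SimpleGraph.dist_eq_one_iff_adj]
    have h' : Gr.dist B (p i) + Gr.dist (p i) (p (i + 1)) = Gr.dist B (p (i + 1)) := h
    omega
  have hloc : ∀ i, i + 2 ≤ n → Quot.mk (omRel N Ω) (p i) ≠ Quot.mk (omRel N Ω) (p (i + 2)) := by
    intro i hi heq
    obtain ⟨k, hk, hk1, hk2⟩ := h3 (p (i + 1)) (p i) (p (i + 2)) (hadj i (by omega)).symm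
      (hadj (i + 1) hi) heq
    refine hf (p i) (p (i + 1)) (p (i + 2)) (hadj i (by omega)) (hadj (i + 1) hi) ?_ (hp i (by omega)).1
      (hp (i + 1) (by omega)).1 (hp (i + 2) hi).1 ⟨k, hND hk, hk1, hk2⟩
    intro h0
    have a2 := (hp i (by omega)).2
    have b2 := (hp (i + 2) hi).2
    rw [h0, b2] at a2
    omega
  have hdist : ∀ a, a ≤ n → Gr'.dist (Quot.mk _ (p a)) (Quot.mk _ (p n)) = n - a := by
    intro a ha
    have h := TG.chain_geod hG' (fun j => Quot.mk (omRel N Ω) (p (a + j))) (n - a)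
      (fun i hi => (hadj' _ _ (hadj (a + i) (by omega))).ne)
      (fun i hi => by
        have u1 := hadj' _ _ (hadj (a + i) (by omega))
        have u2 := hadj' _ _ (hadj (a + i + 1) (by omega))
        have u3 := hloc (a + i) (by omega)
        have v1 := TG.dist_eq_one u1
        have v2 := TG.dist_eq_one u2
        have v3 := TG.adj_dist hG' u1.symm (Quot.mk _ (p (a + i + 2)))
        have v4 : Gr'.dist (Quot.mk _ (p (a + i))) (Quot.mk _ (p (a + i + 2))) ≠ 0 :=
          fun h0 => u3 (TG.dist_zero hG' h0)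
        show Gr'.dist (Quot.mk _ (p (a + i))) (Quot.mk _ (p (a + i + 1))) +
          Gr'.dist (Quot.mk _ (p (a + i + 1))) (Quot.mk _ (p (a + i + 2))) =
          Gr'.dist (Quot.mk _ (p (a + i))) (Quot.mk _ (p (a + i + 2)))
        have v5 : Gr'.dist (Quot.mk _ (p (a + i + 1))) (Quot.mk _ (p (a + i + 2))) = 1 := v2
        omega)
    simp only [add_zero] at h
    rw [show a + (n - a) = n by omega] at h
    rw [h, Finset.sum_congr rfl (g := fun _ => 1)]
    · simp
    · intro i hi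
      rw [Finset.mem_range] at hi
      exact TG.dist_eq_one (hadj' _ _ (hadj (a + i) (by omega)))
  have hn1 : 1 ≤ n := by
    have := hn.2
    omega
  have p0 : p 0 = B := (TG.dist_zero hT (hp 0 (by omega)).2).symm
  have pn : p n = C := by
    obtain ⟨a1, a2⟩ := hp n le_rfl
    have h' : Gr.dist B (p n) + Gr.dist (p n) C = Gr.dist B C := a1
    exact TG.dist_zero hT (by omega)
  have p1 : p 1 = e := by
    obtain ⟨a1, a2⟩ := hp 1 hn1
    exact TG.btw_point_unique hT a1 a2 (TG.btw_next hn.1 hn.2) (TG.dist_eq_one hn.1)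
  refine ⟨hadj' _ _ hn.1, ?_⟩
  have d0 := hdist 0 (by omega)
  have d1 := hdist 1 hn1
  rw [p0, pn] at d0
  rw [p1, pn] at d1
  rw [d0, d1]
  omega

end Pool.Agent.Lib.MP_6567fb_al
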