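import Pool.Agent.Lib.MP_6567fb_al.Defs8

/-!
# MP_6567fb_al, module K39b

The quotient system (groups).
-/

set_option autoImplicit false

open scoped Pointwise

namespace Pool.Agent.Lib.MP_6567fb_al

open MTree
variable {Γ G : Type} [Group Γ] [Group G] {π : Γ →* G}

theorem omRel_map {M : Subgroup Γ} {Ω : Set (Subgroup Γ)} (hi : ∀ m ∈ M, ∀ B ∈ Ω, MulAut.conj m • B ∈ Ω)
    {N : Subgroup Γ} (hN : N ≤ M) (hn : ∀ m ∈ M, ∀ n ∈ N, m * n * m⁻¹ ∈ N) {γ : Γ} (hγ : γ ∈ M)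
    (B C : Ω) (h : omRel N Ω B C) : omRel N Ω (omAct Ω γ B) (omAct Ω γ C) := by
  obtain ⟨n, hnN, rfl⟩ := h
  refine ⟨γ * n * γ⁻¹, hn γ hγ n hnN, ?_⟩
  rw [← omAct_mul hi (M.mul_mem (M.mul_mem hγ (hN hnN)) (M.inv_mem hγ)) hγ,
    ← omAct_mul hi hγ (hN hnN), inv_mul_cancel_right]

/-- the action on the quotient -/
noncomputable def qEnd {M : Subgroup Γ} {Ω : Set (Subgroup Γ)}
    (hi : ∀ m ∈ M, ∀ B ∈ Ω, MulAut.conj m • B ∈ Ω)
    {N : Subgroup Γ} (hN : N ≤ M) (hn : ∀ m ∈ M, ∀ n ∈ N, m * n * m⁻¹ ∈ N) :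
    M →* Function.End (Quot (omRel N Ω)) where
  toFun γ := Quot.map (omAct Ω (γ : Γ)) (omRel_map hi hN hn γ.2)
  map_one' := by
    funext x
    induction x using Quot.ind with
    | mk B =>
      change Quot.mk _ (omAct Ω ((1 : M) : Γ) B) = Quot.mk _ B
      rw [Subgroup.coe_one, omAct_one]
  map_mul' γ δ := by
    funext x
    induction x using Quot.ind with
    | mk B =>
      change Quot.mk _ (omAct Ω ((γ * δ : M) : Γ) B) =
        Quot.mk _ (omAct Ω (γ : Γ) (omAct Ω (δ : Γ) B))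
      rw [Subgroup.coe_mul, omAct_mul hi γ.2 δ.2]

theorem qsystem {M : Subgroup Γ} {Ω : Set (Subgroup Γ)} (hi : ∀ m ∈ M, ∀ B ∈ Ω, MulAut.conj m • B ∈ Ω)
    {N : Subgroup Γ} (hN : N ≤ M ⊓ π.ker) (hn : ∀ m ∈ M, ∀ n ∈ N, m * n * m⁻¹ ∈ N)
    {K : Subgroup M} (hK : K.Normal) (hKf : K.FiniteIndex) (hK3 : ∀ γ : M, ∃ k : ℕ, γ ^ (3 ^ k) ∈ K)
    (hKN : ∀ γ ∈ K, ∃ n ∈ M ⊓ π.ker, ∀ B : Ω, ∃ n' ∈ N, omAct Ω (n⁻¹ * (γ : Γ)) B = omAct Ω n' B) :
    ∃ (GG Q : Type) (_ : Group GG) (_ : Group Q) (a : GG →* Equiv.Perm (Quot (omRel N Ω)))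
      (p : GG →* Q) (μ : M →* GG), Finite Q ∧ IsPGroup 3 Q ∧ Function.Injective a ∧
      Function.Surjective μ ∧ Function.Surjective p ∧
      (∀ (γ : M) (B : Ω), a (μ γ) (Quot.mk _ B) = Quot.mk _ (omAct Ω γ B)) ∧
      ∀ γ δ : M, p (μ γ) = p (μ δ) ↔ ∃ x : M, (x : Γ) ∈ π.ker ∧ μ γ = μ (x * δ) := by
  have hNM : N ≤ M := hN.trans inf_le_left
  let A : M →* Equiv.Perm (Quot (omRel N Ω)) := (qEnd hi hNM hn).toHomPerm
  have hA : ∀ (γ : M) (B : Ω), A γ (Quot.mk _ B) = Quot.mk _ (omAct Ω (γ : Γ) B) := fun _ _ => rfl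
  let μ : M →* A.range := A.rangeRestrict
  have hμ : Function.Surjective μ := A.rangeRestrict_surjective
  let HH : Subgroup A.range := (π.ker.subgroupOf M).map μ
  have hHn : HH.Normal := Subgroup.Normal.map inferInstance μ hμ
  let p : A.range →* A.range ⧸ HH := QuotientGroup.mk' HH
  have hp : Function.Surjective p := QuotientGroup.mk'_surjective HH
  have hpK : ∀ γ ∈ K, p (μ γ) = 1 := by
    intro γ hγ
    obtain ⟨n, hnM, hB⟩ := hKN γ hγ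
    have h1 : A (⟨n, hnM.1⟩⁻¹ * γ) = 1 := by
      ext x
      induction x using Quot.ind with
      | mk B =>
        rw [hA, Equiv.Perm.one_apply]
        obtain ⟨n', hn', h2⟩ := hB B
        have h3 : (((⟨n, hnM.1⟩ : M)⁻¹ * γ : M) : Γ) = n⁻¹ * (γ : Γ) := rfl
        rw [h3, h2]
        exact (Quot.sound ⟨n', hn', rfl⟩).symm
    have h2 : A γ = A ⟨n, hnM.1⟩ := by
      rw [map_mul, map_inv, inv_mul_eq_one] at h1
      exact h1.symm
    have h3 : μ γ = μ ⟨n, hnM.1⟩ := Subtype.ext h2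
    rw [h3]
    refine (QuotientGroup.eq_one_iff _).2 ?_
    exact ⟨⟨n, hnM.1⟩, hnM.2, rfl⟩
  refine ⟨A.range, A.range ⧸ HH, inferInstance, inferInstance, A.range.subtype, p, μ, ?_, ?_,
    Subtype.val_injective, hμ, hp, hA, ?_⟩
  · have hfin : Finite (M ⧸ K) := Subgroup.finite_quotient_of_finiteIndex
    have h1 : Function.Surjective (QuotientGroup.lift K (p.comp μ) hpK) := by
      intro q
      obtain ⟨g, rfl⟩ := hp q
      obtain ⟨γ, rfl⟩ := hμ g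
      exact ⟨(γ : M ⧸ K), rfl⟩
    exact Finite.of_surjective _ h1
  · intro q
    obtain ⟨g, rfl⟩ := hp q
    obtain ⟨γ, rfl⟩ := hμ g
    obtain ⟨k, hk⟩ := hK3 γ
    exact ⟨k, by rw [← map_pow, ← map_pow, hpK _ hk]⟩
  · intro γ δ
    constructor
    · intro h
      have h1 : p (μ (γ * δ⁻¹)) = 1 := by
        rw [map_mul, map_mul, map_inv, map_inv, h, mul_inv_cancel]
      obtain ⟨x, hx, hx2⟩ := (QuotientGroup.eq_one_iff _).1 h1
      refine ⟨x, hx, ?_⟩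
      rw [map_mul, hx2, ← map_mul, inv_mul_cancel_right]
    · rintro ⟨x, hx, h⟩
      have h1 : p (μ x) = 1 := (QuotientGroup.eq_one_iff _).2 ⟨x, hx, rfl⟩
      rw [h, map_mul, map_mul, h1, one_mul]

end Pool.Agent.Lib.MP_6567fb_al
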