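import Pool.Agent.Lib.MP_6567fb_al.K39a
import Pool.Agent.Lib.MP_6567fb_al.K39b
import Pool.Agent.Lib.MP_6567fb_al.K38b
import Pool.Agent.Lib.MP_6567fb_al.K36b
import Pool.Agent.Lib.MP_6567fb_al.K33b
import Pool.Agent.Lib.MP_6567fb_al.K34d
import Pool.Agent.Lib.MP_6567fb_al.K24

/-!
# MP_6567fb_al, module K39c

system: N := oN H Ω m.  K from m1_quot with m + 1, hKN from in_NC for the group Mg π M (π γ) (Mg ⊓ ker = M ⊓ ker, K24.mgK_inf or K00a.Full.cyc).  qsystem.  For q = p (μ γ), g := π γ: Gr' := oquot of Gr g.  h1: an element over q is μ (x γ), x in H: x γ in Mg acts on Gr g, so on Gr' .  h2: an edge of Gr' is the image of an edge (B,C) of Gr g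
(clause 2); OG.lift_edge gives P over g fixing B, C.  h3: P = μ γ₁, P' = μ γ₂ over q fixing x ≠ y; γ₁ = x₁ γ, γ₂ = x₂ γ up to the kernel of μ, k := γ₁ γ₂⁻¹ in H fixes x and y in W, so the geodesic of Gr' between them, so an edge, which is the image of an edge of Gr g: last clause of oquot: k in N, so μ k = 1.
bip_tree; lam_of_next with nxt_quot.
ker clause: x in H, μ x = 1: it fixes all points of W, in particular the image of an edge: x in N ≤ frat3 H m (Gr g has an edge: hE; otherwise Ω has one element, excluded by hlam's hypothesis Nxt: so the clause is only claimed in presence of an edge).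
-/

set_option autoImplicit false

open scoped Pointwise

namespace Pool.Agent.Lib.MP_6567fb_al

open MTree
variable {Γ G : Type} [Group Γ] [Group G] {π : Γ →* G}

namespace K39c

/-- an injective graph morphism of a tree fixing two different points fixes the first edge between them -/
theorem fix_next {W : Type} {Gr : SimpleGraph W} (hG : Gr.IsTree) (f : W → W) (hf : Function.Injective f)
    (hadj : ∀ x y, Gr.Adj x y → Gr.Adj (f x) (f y)) {x y : W} (hxy : x ≠ y) (hx : f x = x)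
    (hy : f y = y) : ∃ z, Gr.Adj x z ∧ f z = z := by
  obtain ⟨z, hz, hzy⟩ := TG.exists_next hG hxy
  have hd := TG.local_inj hG hG f hadj (fun a b c _ _ hbc h => hbc (hf h))
  refine ⟨z, hz, ?_⟩
  apply TG.next_unique hG (x := x) (z := y)
  · have := hadj x z hz
    rwa [hx] at this
  · have h1 := hd z y
    rw [hy] at h1
    rw [h1]
    exact hzy
  · exact hz
  · exact hzy

/-- the tree of the quotient system over `π γ₀` -/
theorem gtree {M : Subgroup Γ} {Ω : Set (Subgroup Γ)}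
    (hΩ : IsPeriph π.ker M Ω) (Gr : G → SimpleGraph Ω)
    (hGr : ∀ g, OG π.ker (Mg π M g) Ω (Gr g)) (N : Subgroup Γ) (hle : N ≤ M ⊓ π.ker)
    (hnorm : ∀ m' ∈ M, ∀ n ∈ N, m' * n * m'⁻¹ ∈ N)
    (hgen : N = Subgroup.closure {n | n ∈ N ∧ ∃ B : Ω, omAct Ω n B = B})
    {GG Q : Type} [Group GG] [Group Q] (a : GG →* Equiv.Perm (Quot (omRel N Ω)))
    (p : GG →* Q) (μ : M →* GG) (hainj : Function.Injective a)
    (hμs : Function.Surjective μ)
    (haμ : ∀ (γ : M) (B : Ω), a (μ γ) (Quot.mk _ B) = Quot.mk _ (omAct Ω γ B))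
    (hpμ : ∀ γ δ : M, p (μ γ) = p (μ δ) ↔ ∃ x : M, (x : Γ) ∈ π.ker ∧ μ γ = μ (x * δ))
    (γ₀ : M) (g : G) (hg : π (γ₀ : Γ) = g) :
    ∃ Gr' : SimpleGraph (Quot (omRel N Ω)), Gr'.IsTree ∧
      (∀ B C, Gr'.Adj (Quot.mk _ B) (Quot.mk _ C) ↔ ∃ n ∈ N, (Gr g).Adj B (omAct Ω n C)) ∧
      (∀ B C D, (Gr g).Adj B C → (Gr g).Adj B D →
        Quot.mk (omRel N Ω) C = Quot.mk (omRel N Ω) D → ∃ n ∈ N, omAct Ω n B = B ∧ omAct Ω n C = D) ∧
      (∀ h ∈ M ⊓ π.ker, ∀ B C, (Gr g).Adj B C →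
        Quot.mk (omRel N Ω) (omAct Ω h B) = Quot.mk (omRel N Ω) B →
        Quot.mk (omRel N Ω) (omAct Ω h C) = Quot.mk (omRel N Ω) C → h ∈ N) ∧
      (∀ P, p P = p (μ γ₀) → ∀ x y, Gr'.Adj x y → Gr'.Adj (a P x) (a P y)) ∧
      (∀ x y, Gr'.Adj x y → ∃ P, p P = p (μ γ₀) ∧ a P x = x ∧ a P y = y) ∧
      (∀ P P' x y, p P = p (μ γ₀) → p P' = p (μ γ₀) → x ≠ y → a P x = x → a P y = y → a P' x = x →
        a P' y = y → P = P') := by
  classical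
  have hi := hΩ.inv
  have hOG := hGr g
  have hinf : Mg π M g ⊓ π.ker = M ⊓ π.ker := mgK_inf g
  have hΩg : IsPeriph π.ker (Mg π M g) Ω := mg_periph hΩ g
  have hγ₀ : (γ₀ : Γ) ∈ Mg π M g := by
    refine ⟨γ₀.2, ?_⟩
    change π (γ₀ : Γ) ∈ Subgroup.zpowers g
    rw [hg]
    exact Subgroup.mem_zpowers g
  have hkerM : ∀ k : Γ, k ∈ M ⊓ π.ker → k ∈ Mg π M g := by
    intro k hk
    rw [← hinf] at hk
    exact hk.1
  obtain ⟨Gr', htree, h2, h3, h4⟩ := oquot (F := π.ker) (M := Mg π M g) hOG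
    (fun h hh B C hBC hB hC => fix_two hΩg hh hBC hB hC) N (by rw [hinf]; exact hle)
    (fun m' hm' n hn => hnorm m' hm'.1 n hn) hgen
  -- elements over `q`
  have hover : ∀ P, p P = p (μ γ₀) → ∃ γ : M, (γ : Γ) ∈ Mg π M g ∧ π (γ : Γ) = g ∧ P = μ γ := by
    intro P hP
    obtain ⟨δ, rfl⟩ := hμs P
    obtain ⟨x, hx, hxe⟩ := (hpμ δ γ₀).1 hP
    refine ⟨x * γ₀, ?_, ?_, hxe⟩
    · rw [Subgroup.coe_mul]
      exact (Mg π M g).mul_mem (hkerM _ ⟨x.2, hx⟩) hγ₀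
    · rw [Subgroup.coe_mul, map_mul]
      have hx1 : π (x : Γ) = 1 := hx
      rw [hx1, one_mul, hg]
  have hNtriv : ∀ n ∈ N, ∀ B : Ω, Quot.mk (omRel N Ω) (omAct Ω n B) = Quot.mk (omRel N Ω) B :=
    fun n hn B => (Quot.sound ⟨n, hn, rfl⟩).symm
  have hadj : ∀ γ : M, (γ : Γ) ∈ Mg π M g → ∀ x y, Gr'.Adj x y → Gr'.Adj (a (μ γ) x) (a (μ γ) y) := by
    intro γ hγ x y hxy
    induction x using Quot.ind with
    | mk B =>
    induction y using Quot.ind with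
    | mk C =>
    obtain ⟨n, hn, hadj⟩ := (h2 B C).1 hxy
    rw [haμ, haμ]
    refine (h2 _ _).2 ⟨(γ : Γ) * n * (γ : Γ)⁻¹, hnorm _ γ.2 _ hn, ?_⟩
    have h5 := hOG.adj (γ : Γ) hγ _ _ hadj
    have hnM : n ∈ M := (hle hn).1
    have e1 : omAct Ω ((γ : Γ) * n * (γ : Γ)⁻¹) (omAct Ω (γ : Γ) C) = omAct Ω (γ : Γ) (omAct Ω n C) := by
      rw [← omAct_mul hi (M.mul_mem (M.mul_mem γ.2 hnM) (M.inv_mem γ.2)) γ.2,
        ← omAct_mul hi γ.2 hnM, inv_mul_cancel_right]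
    rw [e1]
    exact h5
  have hinjW : ∀ P : GG, Function.Injective (a P : Quot (omRel N Ω) → Quot (omRel N Ω)) :=
    fun P => (a P).injective
  refine ⟨Gr', htree, h2, h3, ?_, ?_, ?_, ?_⟩
  · intro h hh B C hBC hB hC
    exact h4 h (by rw [hinf]; exact hh) B C hBC hB hC
  · intro P hP x y hxy
    obtain ⟨γ, hγ, _, rfl⟩ := hover P hP
    exact hadj γ hγ x y hxy
  · intro x y hxy
    induction x using Quot.ind with
    | mk B =>
    induction y using Quot.ind with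
    | mk C =>
    obtain ⟨n, hn, hadj'⟩ := (h2 B C).1 hxy
    obtain ⟨P, hP, hPπ, hPB, hPC⟩ := hOG.lift_edge hγ₀ hadj'
    refine ⟨μ ⟨P, hP.1⟩, ?_, ?_, ?_⟩
    · refine (hpμ _ _).2 ⟨⟨P, hP.1⟩ * γ₀⁻¹, ?_, ?_⟩
      · change π (P * (γ₀ : Γ)⁻¹) = 1
        rw [map_mul, map_inv, hPπ, mul_inv_cancel]
      · rw [inv_mul_cancel_right]
    · rw [haμ]
      change Quot.mk (omRel N Ω) (omAct Ω P B) = _
      rw [hPB]
    · rw [← hNtriv n hn C, haμ]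
      change Quot.mk (omRel N Ω) (omAct Ω P (omAct Ω n C)) = _
      rw [hPC]
  · intro P P' x y hP hP' hxy hPx hPy hPx' hPy'
    obtain ⟨γ₁, hγ₁, hg₁, rfl⟩ := hover P hP
    obtain ⟨γ₂, hγ₂, hg₂, rfl⟩ := hover P' hP'
    have hinv : ∀ z, a (μ γ₂) z = z → a (μ γ₂⁻¹) z = z := by
      intro z hz
      have h5 : a (μ γ₂⁻¹) (a (μ γ₂) z) = z := by
        rw [← Equiv.Perm.mul_apply, ← map_mul, ← map_mul, inv_mul_cancel, map_one, map_one]
        rfl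
      rwa [hz] at h5
    have hkfix : ∀ z, a (μ γ₁) z = z → a (μ γ₂) z = z → a (μ (γ₁ * γ₂⁻¹)) z = z := by
      intro z hz1 hz2
      rw [map_mul, map_mul, Equiv.Perm.mul_apply, hinv z hz2, hz1]
    have hkker : ((γ₁ * γ₂⁻¹ : M) : Γ) ∈ M ⊓ π.ker := by
      refine ⟨(γ₁ * γ₂⁻¹).2, ?_⟩
      change π ((γ₁ : Γ) * (γ₂ : Γ)⁻¹) = 1
      rw [map_mul, map_inv, hg₁, hg₂, mul_inv_cancel]
    obtain ⟨z, hxz, hz⟩ := fix_next htree (a (μ (γ₁ * γ₂⁻¹))) (hinjW _)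
      (hadj _ (hkerM _ hkker)) hxy (hkfix x hPx hPx') (hkfix y hPy hPy')
    have hx := hkfix x hPx hPx'
    obtain ⟨B, rfl⟩ := Quot.exists_rep x
    obtain ⟨C, rfl⟩ := Quot.exists_rep z
    obtain ⟨n, hn, hadj'⟩ := (h2 B C).1 hxz
    have hkN : ((γ₁ * γ₂⁻¹ : M) : Γ) ∈ N := by
      refine h4 _ (by rw [hinf]; exact hkker) B (omAct Ω n C) hadj' ?_ ?_
      · rw [← haμ]
        exact hx
      · rw [← haμ, hNtriv n hn C]
        exact hz
    have hk1 : μ (γ₁ * γ₂⁻¹) = 1 := by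
      apply hainj
      rw [map_one]
      ext w
      induction w using Quot.ind with
      | mk D =>
      rw [haμ]
      exact hNtriv _ hkN D
    rw [map_mul, map_inv] at hk1
    exact mul_inv_eq_one.1 hk1

end K39c

theorem system_exists (hc : Ctx π) {M : Subgroup Γ} (hM : Full π M) {Ω : Set (Subgroup Γ)}
    (hΩ : IsProper π.ker M Ω) (Gr : G → SimpleGraph Ω)
    (hGr : ∀ g, OG π.ker (Mg π M g) Ω (Gr g)) {m : ℕ} (hm : 1 ≤ m) :
    ∃ (W GG Q : Type) (_ : Group GG) (_ : Group Q) (a : GG →* Equiv.Perm W) (p : GG →* Q)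
      (μ : M →* GG) (c : Ω → W), Finite Q ∧ IsPGroup 3 Q ∧ (∀ q, (Bip a p q).IsTree) ∧
      (∀ x y : M, π (x : Γ) = π (y : Γ) → p (μ x) = p (μ y)) ∧
      (∀ B C : Ω, B ≠ C → ∀ x : M, (x : Γ) ∈ π.ker → μ x = 1 → (x : Γ) ∈ frat3 (M ⊓ π.ker) m) ∧
      ∀ (g : G) (P : M) (B C e : Ω), π (P : Γ) = g → omAct Ω (P : Γ) B = B → omAct Ω (P : Γ) e = e →
        Nxt (Gr g) B C e → NoFold (Gr g) (frat3 (M ⊓ π.ker) m) B C → Lam a p (c B) (c C) (μ P) := by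
  classical
  have hΩp : IsPeriph π.ker M Ω := hΩ.periph
  have hi := hΩ.inv
  have hNle : oN (M ⊓ π.ker) Ω m ≤ M ⊓ π.ker := (oN_le _ _ _).trans (frat3_le_self _ _)
  have hnorm := oN_norm (π := π) hi m
  have hgen := oN_gen hΩp m
  have hNle' := oN_le (M ⊓ π.ker) Ω m
  obtain ⟨K, hKn, hKm, hKf, hK3⟩ := m1_quot hc hM.toLoc (m + 1)
  have hKN : ∀ γ ∈ K, ∃ n ∈ M ⊓ π.ker, ∀ B : Ω, ∃ n' ∈ oN (M ⊓ π.ker) Ω m,
      omAct Ω (n⁻¹ * (γ : Γ)) B = omAct Ω n' B := by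
    intro γ hγ
    have h1 := (hKm γ).1 hγ
    have hinf : Mg π M (π (γ : Γ)) ⊓ π.ker = M ⊓ π.ker := mgK_inf _
    have hγM : (γ : Γ) ∈ Mg π M (π (γ : Γ)) := ⟨γ.2, Subgroup.mem_zpowers _⟩
    have h2 := in_NC hc (mg_cyc hM (π (γ : Γ))).toLoc (mg_periph hΩp (π (γ : Γ))) (hGr (π (γ : Γ)))
      hm hγM (by rw [hinf]; exact h1)
    rw [hinf] at h2
    obtain ⟨n, hn, h3⟩ := h2
    exact ⟨n, frat3_le_self _ _ hn, h3⟩
  generalize oN (M ⊓ π.ker) Ω m = N at hNle hnorm hgen hNle' hKN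
  obtain ⟨GG, Q, iG, iQ, a, p, μ, hfin, hQ3, hainj, hμs, hps, haμ, hpμ⟩ :=
    qsystem hi hNle hnorm hKn hKf hK3 hKN
  have key := fun γ₀ g hg =>
    K39c.gtree hΩp Gr hGr N hNle hnorm hgen a p μ hainj hμs haμ hpμ γ₀ g hg
  refine ⟨Quot (omRel N Ω), GG, Q, iG, iQ, a, p, μ, Quot.mk _, hfin, hQ3, ?_, ?_, ?_, ?_⟩
  · intro q
    obtain ⟨P, rfl⟩ := hps q
    obtain ⟨γ₀, rfl⟩ := hμs P
    obtain ⟨Gr', htree, -, -, -, h1, h2, h3⟩ := key γ₀ _ rfl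
    exact bip_tree a p (p (μ γ₀)) htree h1 h2 h3
  · intro x y hxy
    refine (hpμ _ _).2 ⟨x * y⁻¹, ?_, ?_⟩
    · change π ((x : Γ) * (y : Γ)⁻¹) = 1
      rw [map_mul, map_inv, hxy, mul_inv_cancel]
    · rw [inv_mul_cancel_right]
  · intro B C hBC x hx hμx
    obtain ⟨Gr', -, -, -, h4, -, -, -⟩ := key 1 _ rfl
    obtain ⟨z, hz, -⟩ := TG.exists_next (hGr (π ((1 : M) : Γ))).tree hBC
    refine hNle' (h4 (x : Γ) ⟨x.2, hx⟩ B z hz ?_ ?_)
    · rw [← haμ, hμx, map_one]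
      rfl
    · rw [← haμ, hμx, map_one]
      rfl
  · intro g P B C e hP hPB hPe hn hf
    obtain ⟨Gr', htree, h2', h3', -, h1, h2, h3⟩ := key P g hP
    refine lam_of_next a p (p (μ P)) htree h1 h2 h3 rfl ?_ ?_
      (nxt_quot (hGr g) (hNle.trans ?_) hNle' htree h2' h3' hf hn)
    · rw [haμ, hPB]
    · rw [haμ, hPe]
    · intro k hk
      rw [← mgK_inf g] at hk
      exact hk.1

end Pool.Agent.Lib.MP_6567fb_al
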