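import Pool.Agent.Lib.MP_6567fb_al.K39c
import Pool.Agent.Lib.MP_6567fb_al.K24

/-!
# MP_6567fb_al, module K39d

Lemma M.  For all large m: NoFold for the three geodesics (nofold_large), system_exists and lam_mul: μ R = μ P μ Q, so x := P Q R⁻¹ is in M ⊓ ker with μ x = 1, x in frat3 H m for all large m, so for all m (frat3_anti), x = 1 (frat3_cap).
-/

set_option autoImplicit false

open scoped Pointwise

namespace Pool.Agent.Lib.MP_6567fb_al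

open MTree
variable {Γ G : Type} [Group Γ] [Group G] {π : Γ →* G}

theorem lemmaM (hc : Ctx π) {M : Subgroup Γ} (hM : Full π M) {Ω : Set (Subgroup Γ)}
    (hΩ : IsProper π.ker M Ω) (Gr : G → SimpleGraph Ω)
    (hGr : ∀ g, OG π.ker (Mg π M g) Ω (Gr g)) {B C : Ω} {g h : G} {P Q R : Γ} {e₁ e₂ e₃ : Ω}
    (hP : P ∈ M) (hQ : Q ∈ M) (hR : R ∈ M) (hPg : π P = g) (hQh : π Q = h) (hRgh : π R = g * h)
    (n1 : Nxt (Gr g) B C e₁) (n2 : Nxt (Gr h) B C e₂) (n3 : Nxt (Gr (g * h)) B C e₃)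
    (f1 : omAct Ω P B = B) (f1' : omAct Ω P e₁ = e₁) (f2 : omAct Ω Q B = B) (f2' : omAct Ω Q e₂ = e₂)
    (f3 : omAct Ω R B = B) (f3' : omAct Ω R e₃ = e₃) : P * Q = R := by
  have key : ∀ g, ∃ m₀, ∀ m ≥ m₀, NoFold (Gr g) (frat3 (M ⊓ π.ker) m) B C := by
    intro g
    have h1 := nofold_large hc (mg_cyc hM g).toLoc (mg_periph hΩ.periph g) (hGr g) B C
    rwa [mgK_inf] at h1
  obtain ⟨m1, h1⟩ := key g
  obtain ⟨m2, h2⟩ := key h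
  obtain ⟨m3, h3⟩ := key (g * h)
  have hx : P * Q * R⁻¹ ∈ M ⊓ π.ker := by
    refine ⟨M.mul_mem (M.mul_mem hP hQ) (M.inv_mem hR), ?_⟩
    show π (P * Q * R⁻¹) = 1
    rw [map_mul, map_mul, map_inv, hPg, hQh, hRgh, mul_inv_cancel]
  have hall : ∀ m, P * Q * R⁻¹ ∈ frat3 (M ⊓ π.ker) m := by
    intro m
    obtain ⟨m', hm1, hm2, hm3, hm4, hm5⟩ : ∃ m', 1 ≤ m' ∧ m1 ≤ m' ∧ m2 ≤ m' ∧ m3 ≤ m' ∧ m ≤ m' :=
      ⟨1 + m1 + m2 + m3 + m, by omega, by omega, by omega, by omega, by omega⟩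
    refine frat3_anti _ hm5 ?_
    obtain ⟨W, GG, QQ, i1, i2, a, p, μ, c, hfin, hQ3, ht, hpμ, hker, hlam⟩ :=
      system_exists hc hM hΩ Gr hGr hm1
    have l1 := hlam g ⟨P, hP⟩ B C e₁ hPg f1 f1' n1 (h1 m' hm2)
    have l2 := hlam h ⟨Q, hQ⟩ B C e₂ hQh f2 f2' n2 (h2 m' hm3)
    have l3 := hlam (g * h) ⟨R, hR⟩ B C e₃ hRgh f3 f3' n3 (h3 m' hm4)
    have hpp : p (μ ⟨R, hR⟩) = p (μ ⟨P, hP⟩) * p (μ ⟨Q, hQ⟩) := by
      rw [← map_mul, ← map_mul]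
      apply hpμ
      show π R = π (P * Q)
      rw [map_mul, hPg, hQh, hRgh]
    have hmul := lam_mul hQ3 ht l1 l2 l3 hpp
    have hBC : B ≠ C := by
      rintro rfl
      have := n1.2
      rw [SimpleGraph.dist_self] at this
      omega
    refine hker B C hBC ⟨P * Q * R⁻¹, hx.1⟩ hx.2 ?_
    have : (⟨P * Q * R⁻¹, hx.1⟩ : M) = ⟨P, hP⟩ * ⟨Q, hQ⟩ * (⟨R, hR⟩ : M)⁻¹ := rfl
    rw [this, map_mul, map_mul, map_inv, ← hmul, mul_inv_cancel]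
  have := frat3_cap hc hall
  rwa [mul_inv_eq_one] at this

end Pool.Agent.Lib.MP_6567fb_al
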