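import Pool.Agent.Lib.MP_6567fb_al.Defs8

/-!
# MP_6567fb_al, module K40a

Finitely many proper isolated subgroups do not cover G: B. H. Neumann (Mathlib: Subgroup.exists_finiteIndex_of_leftCoset_cover or ..._of_cover): otherwise one of them has finite index; then every g has a power g^k, k > 0, in it (Subgroup.exists_pow_mem_of_index_ne_zero), so g is in it: it is ⊤.
eq_isolK: the equaliser of two sections is isolated (Ctx.roots).
-/

set_option autoImplicit false

open scoped Pointwise

namespace Pool.Agent.Lib.MP_6567fb_al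

open MTree

theorem exists_generic {G : Type} [Group G] {ι : Type} (s : Finset ι) (Y : ι → Subgroup G)
    (hI : ∀ i ∈ s, Isol (Y i)) (hne : ∀ i ∈ s, Y i ≠ ⊤) : ∃ g, ∀ i ∈ s, g ∉ Y i := by
  by_contra hcon
  push Not at hcon
  have hcov : ⋃ i ∈ s, (1 : G) • (Y i : Set G) = Set.univ := by
    rw [Set.eq_univ_iff_forall]
    intro g
    obtain ⟨i, hi, hg⟩ := hcon g
    rw [Set.mem_iUnion₂]
    refine ⟨i, hi, ?_⟩
    rw [one_smul]
    exact hg
  obtain ⟨i, hi, hf⟩ := Subgroup.exists_finiteIndex_of_leftCoset_cover (g := fun _ => (1 : G)) hcov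
  apply hne i hi
  rw [eq_top_iff]
  intro g _
  obtain ⟨n, hn, -, hg⟩ := Subgroup.exists_pow_mem_of_index_ne_zero hf.index_ne_zero g
  exact hI i hi g n hn hg

theorem eq_isolK {Γ G : Type} [Group Γ] [Group G] {π : Γ →* G} (hc : Ctx π) (s s' : G →* Γ) :
    Isol (s.eqLocus s') ∧ (s ≠ s' → s.eqLocus s' ≠ ⊤) := by
  refine ⟨?_, ?_⟩
  · intro g k hk hg
    have h1 : s (g ^ k) = s' (g ^ k) := hg
    rw [map_pow, map_pow] at h1
    exact hc.roots _ _ k hk h1
  · intro hne htop
    apply hne
    ext g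
    have hg : g ∈ s.eqLocus s' := by
      rw [htop]
      exact Subgroup.mem_top g
    exact hg

end Pool.Agent.Lib.MP_6567fb_al
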