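import Pool.Agent.Lib.MP_6567fb_al.K39d
import Pool.Agent.Lib.MP_6567fb_al.K40a
import Pool.Agent.Lib.MP_6567fb_al.T1c

/-!
# MP_6567fb_al, module K40b

lam_sec: for every g let e := next vertex of Gr g from B to C (exists_unique_next), s g := the lift of g fixing B and e (OG.lift_edge with an element of M over g: hM.surj; unique: lift_two); multiplicative by lemmaM.
-/

set_option autoImplicit false

open scoped Pointwise

namespace Pool.Agent.Lib.MP_6567fb_al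

open MTree
variable {Γ G : Type} [Group Γ] [Group G] {π : Γ →* G}

/-- `s` is the section attached to `B`, `C`: `s g` preserves `B` and the next vertex of `Gr g` towards `C` -/
def IsLam (π : Γ →* G) (M : Subgroup Γ) {Ω : Set (Subgroup Γ)} (Gr : G → SimpleGraph Ω) (B C : Ω)
    (s : G →* Γ) : Prop :=
  SecIn π M s ∧ ∀ g, ∃ e, Nxt (Gr g) B C e ∧ omAct Ω (s g) B = B ∧ omAct Ω (s g) e = e

theorem lam_sec (hc : Ctx π) {M : Subgroup Γ} (hM : Full π M) {Ω : Set (Subgroup Γ)}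
    (hΩ : IsProper π.ker M Ω) (Gr : G → SimpleGraph Ω)
    (hGr : ∀ g, OG π.ker (Mg π M g) Ω (Gr g)) {B C : Ω} (hBC : B ≠ C) :
    ∃ s : G →* Γ, IsLam π M Gr B C s := by
  have key : ∀ g, ∃ P ∈ M, ∃ e, π P = g ∧ Nxt (Gr g) B C e ∧ omAct Ω P B = B ∧ omAct Ω P e = e := by
    intro g
    obtain ⟨m, hm, hmg⟩ := hM.surj g
    obtain ⟨e, he1, he2⟩ := TG.exists_next (hGr g).tree hBC
    have hmM : m ∈ Mg π M g := by
      refine ⟨hm, ?_⟩
      show π m ∈ Subgroup.zpowers g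
      rw [hmg]
      exact Subgroup.mem_zpowers g
    obtain ⟨P, hP, hPm, h1, h2⟩ := (hGr g).lift_edge hmM he1
    exact ⟨P, hP.1, e, hPm.trans hmg, ⟨he1, he2⟩, h1, h2⟩
  choose P hPM e hPg hn h1 h2 using key
  have hmul : ∀ g h, P (g * h) = P g * P h := fun g h =>
    (lemmaM hc hM hΩ Gr hGr (hPM g) (hPM h) (hPM (g * h)) (hPg g) (hPg h) (hPg (g * h)) (hn g) (hn h)
      (hn (g * h)) (h1 g) (h2 g) (h1 h) (h2 h) (h1 (g * h)) (h2 (g * h))).symm
  exact ⟨MonoidHom.mk' P hmul, ⟨hPg, hPM⟩, fun g => ⟨e g, hn g, h1 g, h2 g⟩⟩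

end Pool.Agent.Lib.MP_6567fb_al
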