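import Pool.Agent.Lib.MP_6567fb_al.K40b

/-!
# MP_6567fb_al, module K41a

The graph SG of sections is acyclic.  Let w be a cycle, s_1, ..., s_k the finitely many sections on it.  exists_generic: g with s_i g ≠ s_j g whenever s_i ≠ s_j.  The cycle alternates; rotate so that it starts at a member: members B_0, B_1, ..., B_n = B_0 (n >= 2), sections t_i fixing B_i and B_(i+1), t_i ≠ t_(i+1), B_i ≠ B_(i+1).
In Gr g: t_i g fixes the geodesic [B_i, B_(i+1)] (OG.fix_geod); if the geodesics from B_(i+1) to B_i and to B_(i+2) had the same first vertex then t_i g and t_(i+1) g would fix B_(i+1) and this vertex, so be equal (lift_two): excluded.  So Btw B_i B_(i+1) B_(i+2) for all i <= n - 2 and chain_geod gives dist B_0 B_n > 0.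
(Alternatively map the cycle to BG π (Mg π M g) g Ω, which is acyclic by K01.bg_acyclic; the map is injective on the support.)

The proof below shows that every edge is a bridge, with the separating set of K33a in `Gr g`.
-/

set_option autoImplicit false

open scoped Pointwise

namespace Pool.Agent.Lib.MP_6567fb_al

open MTree

/-- two directions at `B` are equal if `B` is not between -/
theorem K41a_next_eq {W : Type} {Gr : SimpleGraph W} (hG : Gr.IsTree) {B C C' c c' : W}
    (hc : Nxt Gr B C c) (hc' : Nxt Gr B C' c') (hn : ¬ TG.Btw Gr C B C') : c = c' := by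
  by_contra hne
  apply hn
  have hd : Gr.dist c c' = 2 := by
    have h1 : Gr.dist B c = 1 := TG.dist_eq_one hc.1
    have h1' : Gr.dist B c' = 1 := TG.dist_eq_one hc'.1
    rcases TG.adj_dist hG hc.1 c' with h | h
    · rw [h1'] at h
      exact absurd (TG.dist_zero hG (by omega)) hne
    · omega
  have h1 : TG.Btw Gr C c B := TG.btw_symm hG (TG.btw_next hc.1 hc.2)
  have h2 : TG.Btw Gr c B c' := by
    show Gr.dist c B + Gr.dist B c' = Gr.dist c c'
    rw [hd, TG.dist_eq_one hc.1.symm, TG.dist_eq_one hc'.1]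
  have h3 := (TG.btw_glue hG h1 h2 hc.1.ne').2
  have h4 : TG.Btw Gr B c' C' := TG.btw_next hc'.1 hc'.2
  exact (TG.btw_glue hG h3 h4 hc'.1.ne).1

/-- separation in the bipartite graph of points and convex sets with pairwise at most one common point -/
theorem K41a_sep {W L : Type} {Gr : SimpleGraph W} (hG : Gr.IsTree) (Fx : L → Set W)
    (hconv : ∀ P, TG.Conv Gr (Fx P))
    (h3 : ∀ P P' x y, x ≠ y → x ∈ Fx P → y ∈ Fx P → x ∈ Fx P' → y ∈ Fx P' → P = P')
    (B : W) (P : L) (hPB : B ∈ Fx P) :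
    ∃ (ZW : Set W) (ZL : Set L), B ∉ ZW ∧ P ∈ ZL ∧ ∀ C P', C ∈ Fx P' →
      ((C ∉ ZW → P' ∈ ZL → C = B ∧ P' = P) ∧ (C ∈ ZW → P' ∈ ZL)) := by
  classical
  let side : Set W := {C | C ≠ B ∧ ∃ c, Nxt Gr B C c ∧ c ∈ Fx P}
  refine ⟨side, {P' | P' = P ∨ (B ∉ Fx P' ∧ ∀ C ∈ Fx P', C ∈ side)}, fun h => h.1 rfl, Or.inl rfl, ?_⟩
  intro C P' hC
  have hstep : ∀ (R : L) (D d : W), B ∈ Fx R → D ∈ Fx R → Nxt Gr B D d → d ∈ Fx R :=
    fun R D d hRB hRD hd => hconv R B hRB D hRD d (TG.btw_next hd.1 hd.2)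
  constructor
  · intro hC2 hP1
    rcases hP1 with rfl | ⟨_, h5⟩
    · refine ⟨?_, rfl⟩
      by_contra hne
      obtain ⟨c, hc1, hc2⟩ := TG.exists_next hG (fun h => hne h.symm : B ≠ C)
      exact hC2 ⟨hne, c, ⟨hc1, hc2⟩, hstep _ C c hPB hC ⟨hc1, hc2⟩⟩
    · exact absurd (h5 C hC) hC2
  · rintro ⟨hCB, c, hc, hPc⟩
    by_contra hP1
    have hP2 : ¬ (P' = P ∨ (B ∉ Fx P' ∧ ∀ C ∈ Fx P', C ∈ side)) := hP1
    push Not at hP2
    obtain ⟨hne, hP3⟩ := hP2
    by_cases hB : B ∈ Fx P'
    · exact hne (h3 _ _ B c hc.1.ne hB (hstep P' C c hB hC hc) hPB hPc)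
    · obtain ⟨C', hC'1, hC'2⟩ := hP3 hB
      have hC'B : C' ≠ B := by
        rintro rfl
        exact hB hC'1
      obtain ⟨c', hc'1, hc'2⟩ := TG.exists_next hG (fun h => hC'B h.symm : B ≠ C')
      have heq : c = c' := K41a_next_eq hG hc ⟨hc'1, hc'2⟩ (fun hb =>
        hB (hconv P' C hC C' hC'1 B hb))
      subst heq
      exact hC'2 ⟨hC'B, c, ⟨hc'1, hc'2⟩, hPc⟩

variable {Γ G : Type} [Group Γ] [Group G] {π : Γ →* G}

theorem sg_acyclic (hc : Ctx π) {M : Subgroup Γ} (hM : Full π M) {Ω : Set (Subgroup Γ)}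
    (hΩ : IsProper π.ker M Ω) (Gr : G → SimpleGraph Ω)
    (hGr : ∀ g, OG π.ker (Mg π M g) Ω (Gr g)) : (SG π M Ω).IsAcyclic := by
  classical
  have hΩ' : IsPeriph π.ker M Ω := by
    obtain ⟨T, h1, _, h2⟩ := hΩ.tree
    exact ⟨hΩ.inv, T, h1, h2⟩
  -- the main claim
  have main : ∀ (B : Ω) (s : SecT π M Ω), (∀ g, omAct Ω (s.1 g) B = B) →
      ¬ (SG π M Ω \ SimpleGraph.fromEdgeSet {s(Sum.inl B, Sum.inr s)}).Reachable
        (Sum.inl B) (Sum.inr s) := by
    intro B s hBs hr
    obtain ⟨w⟩ := hr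
    -- generic element
    let S : Finset (SecT π M Ω) :=
      (w.support.filterMap (fun v => match v with
        | Sum.inl _ => none
        | Sum.inr t => if t = s then none else some t)).toFinset
    have hS : ∀ t : SecT π M Ω, Sum.inr t ∈ w.support → t ≠ s → t ∈ S := by
      intro t ht hts
      simp only [S, List.mem_toFinset, List.mem_filterMap]
      exact ⟨Sum.inr t, ht, by simp [hts]⟩
    have hS' : ∀ t ∈ S, t ≠ s := by
      intro t ht
      simp only [S, List.mem_toFinset, List.mem_filterMap] at ht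
      obtain ⟨v, _, hv⟩ := ht
      rcases v with C | t'
      · simp at hv
      · by_cases h : t' = s
        · simp [h] at hv
        · simp only [h, if_false, Option.some.injEq] at hv
          rw [← hv]
          exact h
    obtain ⟨g, hg⟩ := exists_generic S (fun t => t.1.eqLocus s.1)
      (fun t _ => (eq_isolK hc t.1 s.1).1)
      (fun t ht => (eq_isolK hc t.1 s.1).2 (fun h => hS' t ht (Subtype.ext h)))
    have hgen : ∀ t : SecT π M Ω, Sum.inr t ∈ w.support → t.1 g = s.1 g → t = s := by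
      intro t ht h
      by_contra hne
      exact hg t (hS t ht hne) h
    -- elements over g
    let L : Type := {P : Γ // P ∈ M ∧ π P = g}
    have hPg : ∀ P : L, (P : Γ) ∈ Mg π M g := fun P =>
      ⟨P.2.1, by
        show π (P : Γ) ∈ Subgroup.zpowers g
        rw [P.2.2]
        exact Subgroup.mem_zpowers g⟩
    have hsec : ∀ t : SecT π M Ω, t.1 g ∈ M ∧ π (t.1 g) = g := fun t =>
      ⟨t.2.1.mem g, t.2.1.sec g⟩
    obtain ⟨ZW, ZL, z1, z2, z3⟩ := K41a_sep (hGr g).tree
      (fun P : L => {C : Ω | omAct Ω (P : Γ) C = C})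
      (fun P x hx z hz y hy => OG.fix_geod (hGr g) (hPg P) hx hz hy)
      (fun P P' x y hxy h1 h2 h3 h4 => Subtype.ext
        (lift_two hΩ' P.2.1 P'.2.1 (P.2.2.trans P'.2.2.symm) hxy h1 h2 h3 h4))
      B ⟨s.1 g, hsec s⟩ (hBs g)
    let In : Ω ⊕ SecT π M Ω → Prop := fun v => match v with
      | Sum.inl C => C ∈ ZW
      | Sum.inr t => (⟨t.1 g, hsec t⟩ : L) ∈ ZL
    have key : ∀ (u v : Ω ⊕ SecT π M Ω)
        (q : (SG π M Ω \ SimpleGraph.fromEdgeSet {s(Sum.inl B, Sum.inr s)}).Walk u v),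
        (∀ t : SecT π M Ω, Sum.inr t ∈ q.support → t.1 g = s.1 g → t = s) → ¬ In u → ¬ In v := by
      intro u v q
      induction q with
      | nil => exact fun _ h => h
      | @cons u w v huw q ih =>
        intro ht hu
        apply ih (fun t h => ht t (by rw [SimpleGraph.Walk.support_cons]; exact List.mem_cons_of_mem _ h))
        intro hw
        have h1 : (SG π M Ω).Adj u w := huw.1
        rcases u with C | t <;> rcases w with C' | t'
        · exact absurd h1 (by simp [SG])
        · have h2 : omAct Ω (t'.1 g) C = C := h1 g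
          obtain ⟨rfl, h4⟩ := (z3 C ⟨t'.1 g, hsec t'⟩ h2).1 hu hw
          have h5 : t' = s := ht t' (by
            rw [SimpleGraph.Walk.support_cons]
            exact List.mem_cons_of_mem _ q.start_mem_support) (congrArg Subtype.val h4)
          subst h5
          exact huw.2 (by simp [SimpleGraph.fromEdgeSet_adj])
        · have h2 : omAct Ω (t.1 g) C' = C' := h1 g
          exact hu ((z3 C' ⟨t.1 g, hsec t⟩ h2).2 hw)
        · exact absurd h1 (by simp [SG])
    exact key _ _ w hgen z1 z2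
  rw [SimpleGraph.isAcyclic_iff_forall_adj_isBridge]
  rintro (B | s) (B' | s') hab
  · exact absurd hab (by simp [SG])
  · rw [SimpleGraph.isBridge_iff]
    exact main B s' hab
  · rw [SimpleGraph.isBridge_iff]
    intro hr
    have h := hr.symm
    rw [Sym2.eq_swap] at h
    exact main B' s hab h
  · exact absurd hab (by simp [SG])

end Pool.Agent.Lib.MP_6567fb_al
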