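import Pool.Agent.Lib.MP_6567fb_al.K40b

/-!
# MP_6567fb_al, module K41b

Let lam D E (D ≠ E) be sections with IsLam.  common: suppose lam D B = lam D C for all D ≠ B, C.  Then for every g the lift lam B C g fixes B and C: along the geodesic B = c_0, c_1, ..., c_n = C of Gr g the lift P_i fixing (c_i, c_(i+1)) is lam c_i C g (0 <= i < n, lift_two) and lam c_(i+1) B g = P_i; at an interior c_i: P_(i-1) = lam c_i B g = lam c_i C g = P_i.
So all P_i are equal to P_0 = lam B C g, which fixes c_n = C.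
between_finite: for s in a finite generating set of G, {D : lam D B s ≠ lam D C s} is inside the geodesic [B,C] of Gr s (D not on [B,C]: same next vertex), finite; homomorphisms which agree on generators are equal.
step: g in G; D ≠ B, C not on [B,C] in Gr g: lam D B g = lam D C g.  B' , C' on [B,C], D strictly between B' and C' on [B,C] (in this order): lam D B' g = lam D B g, lam D C' g = lam D C g (same next vertices).
-/

set_option autoImplicit false

open scoped Pointwise

namespace Pool.Agent.Lib.MP_6567fb_al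

open MTree
variable {Γ G : Type} [Group Γ] [Group G] {π : Γ →* G}

theorem K41b_periph {F M : Subgroup Γ} {Ω : Set (Subgroup Γ)} (h : IsProper F M Ω) : IsPeriph F M Ω := by
  obtain ⟨T, h1, -, h3⟩ := h.tree
  exact ⟨h.inv, T, h1, h3⟩

theorem K41b_nxt_unique {X : Type} {Gr : SimpleGraph X} (hG : Gr.IsTree) {x y c c' : X}
    (h : Nxt Gr x y c) (h' : Nxt Gr x y c') : c = c' :=
  TG.next_unique hG h.1 h.2 h'.1 h'.2

/-- different next vertices: the vertex is between -/
theorem K41b_btw_of_ne {X : Type} {Gr : SimpleGraph X} (hG : Gr.IsTree) {B C D e e' : X}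
    (h : Nxt Gr D B e) (h' : Nxt Gr D C e') (hne : e ≠ e') : TG.Btw Gr B D C := by
  have hd : Gr.dist e e' ≠ 0 := fun h0 => hne (TG.dist_zero hG h0)
  have h1 : TG.Btw Gr e D e' := by
    have a1 := TG.dist_eq_one h.1
    have a2 := TG.dist_eq_one h'.1
    have a3 := TG.adj_dist hG h.1 e'
    unfold TG.Btw
    rw [Gr.dist_comm (u := e) (v := D)]
    omega
  have h2 : TG.Btw Gr B e D := TG.btw_symm hG (TG.btw_next h.1 h.2)
  have h3 : TG.Btw Gr D e' C := TG.btw_next h'.1 h'.2
  have h4 := (TG.btw_glue hG h2 h1 h.1.ne').2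
  exact (TG.btw_glue hG h4 h3 h'.1.ne).1

/-- a geodesic is finite -/
theorem K41b_seg_finite {X : Type} {Gr : SimpleGraph X} (hG : Gr.IsTree) (B C : X) :
    {D | TG.Btw Gr B D C}.Finite := by
  apply Set.Finite.of_finite_image (f := fun D => Gr.dist B D)
  · apply (Set.finite_Iic (Gr.dist B C)).subset
    rintro _ ⟨D, hD, rfl⟩
    have h : Gr.dist B D + Gr.dist D C = Gr.dist B C := hD
    simp only [Set.mem_Iic]
    omega
  · intro D hD D' hD' h
    exact TG.btw_point_unique hG hD rfl hD' h.symm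

theorem lam_same (hc : Ctx π) {M : Subgroup Γ} (hM : Full π M) {Ω : Set (Subgroup Γ)}
    (hΩ : IsProper π.ker M Ω) (Gr : G → SimpleGraph Ω)
    (hGr : ∀ g, OG π.ker (Mg π M g) Ω (Gr g)) (lam : Ω → Ω → (G →* Γ))
    (hl : ∀ D E, D ≠ E → IsLam π M Gr D E (lam D E)) {g : G} {B C D e : Ω} (hB : D ≠ B) (hC : D ≠ C)
    (h1 : Nxt (Gr g) D B e) (h2 : Nxt (Gr g) D C e) : lam D B g = lam D C g := by
  obtain ⟨hs1, hl1⟩ := hl D B hB
  obtain ⟨hs2, hl2⟩ := hl D C hC
  obtain ⟨e1, n1, a1, b1⟩ := hl1 g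
  obtain ⟨e2, n2, a2, b2⟩ := hl2 g
  have q1 : e1 = e := K41b_nxt_unique (hGr g).tree n1 h1
  have q2 : e2 = e := K41b_nxt_unique (hGr g).tree n2 h2
  rw [q1] at b1
  rw [q2] at b2
  exact lift_two (K41b_periph hΩ) (hs1.mem g) (hs2.mem g) (by rw [hs1.sec g, hs2.sec g]) h1.1.ne a1 b1 a2 b2

theorem lam_common (hc : Ctx π) {M : Subgroup Γ} (hM : Full π M) {Ω : Set (Subgroup Γ)}
    (hΩ : IsProper π.ker M Ω) (Gr : G → SimpleGraph Ω)
    (hGr : ∀ g, OG π.ker (Mg π M g) Ω (Gr g)) (lam : Ω → Ω → (G →* Γ))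
    (hl : ∀ D E, D ≠ E → IsLam π M Gr D E (lam D E)) {B C : Ω} (hBC : B ≠ C)
    (h : ∀ D, D ≠ B → D ≠ C → lam D B = lam D C) :
    ∀ g, omAct Ω (lam B C g) B = B ∧ omAct Ω (lam B C g) C = C := by
  intro g
  obtain ⟨hs, hl0⟩ := hl B C hBC
  obtain ⟨e0, n0, a0, b0⟩ := hl0 g
  have hG := (hGr g).tree
  have key : ∀ k : ℕ, ∀ D, TG.Btw (Gr g) B D C → (Gr g).dist B D = k →
      omAct Ω (lam B C g) D = D := by
    intro k
    induction k using Nat.strong_induction_on with
    | _ k ih =>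
      intro D' hD' hk
      rcases Nat.eq_zero_or_pos k with rfl | hpos
      · rw [← TG.dist_zero hG hk]
        exact a0
      obtain ⟨j, rfl⟩ : ∃ j, k = j + 1 := ⟨k - 1, by omega⟩
      obtain ⟨D, hD1, hD2⟩ := TG.btw_point_exists hG (x := B) (z := D') (k := j) (by omega)
      obtain ⟨hD3, hD4⟩ := TG.btw_trans' hG hD1 hD'
      have hdd : (Gr g).dist D D' = 1 := by
        have : (Gr g).dist B D + (Gr g).dist D D' = (Gr g).dist B D' := hD1
        omega
      have hadj : (Gr g).Adj D D' := SimpleGraph.dist_eq_one_iff_adj.1 hdd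
      have hn : Nxt (Gr g) D C D' := by
        refine ⟨hadj, ?_⟩
        have : (Gr g).dist D D' + (Gr g).dist D' C = (Gr g).dist D C := hD4
        omega
      have hDC : D ≠ C := by
        rintro rfl
        have := hn.2
        rw [SimpleGraph.dist_self] at this
        omega
      rcases Nat.eq_zero_or_pos j with rfl | hj
      · have hBD : B = D := TG.dist_zero hG hD2
        subst hBD
        rw [K41b_nxt_unique hG hn n0]
        exact b0
      have hDB : D ≠ B := by
        rintro rfl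
        rw [SimpleGraph.dist_self] at hD2
        omega
      obtain ⟨hs1, hl1⟩ := hl D B hDB
      obtain ⟨e1, n1, a1, b1⟩ := hl1 g
      obtain ⟨hs2, hl2⟩ := hl D C hDC
      obtain ⟨e2, n2, a2, b2⟩ := hl2 g
      have h5 : TG.Btw (Gr g) B e1 D := TG.btw_symm hG (TG.btw_next n1.1 n1.2)
      have h6 := (TG.btw_trans' hG h5 hD3).1
      have h7 : (Gr g).dist B e1 = j - 1 := by
        have := n1.2
        rw [(Gr g).dist_comm (u := B) (v := e1)]
        rw [(Gr g).dist_comm (u := B) (v := D)] at hD2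
        omega
      have h8 := ih (j - 1) (by omega) e1 h6 h7
      have h9 := ih j (by omega) D hD3 hD2
      have h10 : lam B C g = lam D B g :=
        lift_two (K41b_periph hΩ) (hs.mem g) (hs1.mem g) (by rw [hs.sec g, hs1.sec g]) n1.1.ne h9 h8 a1 b1
      rw [h10, h D hDB hDC, K41b_nxt_unique hG hn n2]
      exact b2
  exact ⟨key _ B (TG.btw_left _ _) rfl, key _ C (TG.btw_right _ _) rfl⟩

theorem lam_finite (hc : Ctx π) {M : Subgroup Γ} (hM : Full π M) {Ω : Set (Subgroup Γ)}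
    (hΩ : IsProper π.ker M Ω) (Gr : G → SimpleGraph Ω)
    (hGr : ∀ g, OG π.ker (Mg π M g) Ω (Gr g)) (lam : Ω → Ω → (G →* Γ))
    (hl : ∀ D E, D ≠ E → IsLam π M Gr D E (lam D E)) (B C : Ω) :
    {D | D ≠ B ∧ D ≠ C ∧ lam D B ≠ lam D C}.Finite := by
  obtain ⟨S, hS, hSf⟩ := Group.fg_iff.1 hc.fgG
  apply (hSf.biUnion (fun s _ => K41b_seg_finite (hGr s).tree B C)).subset
  rintro D ⟨hB, hC, hne⟩
  simp only [Set.mem_iUnion, Set.mem_setOf_eq]
  by_contra hcon
  push Not at hcon
  apply hne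
  apply MonoidHom.eq_of_eqOn_dense hS
  intro s hs
  obtain ⟨e1, n1, -, -⟩ := (hl D B hB).2 s
  obtain ⟨e2, n2, -, -⟩ := (hl D C hC).2 s
  by_cases he : e1 = e2
  · subst he
    exact lam_same hc hM hΩ Gr hGr lam hl hB hC n1 n2
  · exact absurd (K41b_btw_of_ne (hGr s).tree n1 n2 he) (hcon s hs)

end Pool.Agent.Lib.MP_6567fb_al
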