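import Pool.Agent.Lib.MP_6567fb_al.K41a
import Pool.Agent.Lib.MP_6567fb_al.K41b

/-!
# MP_6567fb_al, module K41c

SG is connected: lam from lam_sec (choice).  Every section-vertex is adjacent to a member; so let B ≠ C be members.  E := {D ≠ B, C : lam D B ≠ lam D C} ∪ {B, C}, finite (lam_finite); for all B' ≠ C' in E and D ≠ B', C' with lam D B' ≠ lam D C' (finitely many triples) take the equaliser of the two sections; g outside all of them (K40a).
So for B' ≠ C' in E, D ≠ B', C': lam D B' g = lam D C' g implies lam D B' = lam D C' (**).  Claim: B', C' in E on the geodesic [B,C] of Gr g, B' before C', are joined in SG.  Induction on dist B' C' in Gr g.  If some D in E is strictly between B' and C': use (B',D), (D,C').  Otherwise for every D ≠ B', C': lam D B' g = lam D C' g: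
D not on [B',C']: same next vertex (lam_same); D strictly between: D not in E so lam D B = lam D C, and lam D B' g = lam D B g, lam D C' g = lam D C g (lam_same).  By (**) and lam_common the section lam B' C' fixes B' and C' and joins them in SG.
-/

set_option autoImplicit false

open scoped Pointwise

namespace Pool.Agent.Lib.MP_6567fb_al

open MTree
variable {Γ G : Type} [Group Γ] [Group G] {π : Γ →* G}

/-- the same next vertex towards a farther point -/
theorem K41c_nxt_far {X : Type} {Gr : SimpleGraph X} (hG : Gr.IsTree) {D B B' e : X}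
    (h : TG.Btw Gr B B' D) (hn : Nxt Gr D B' e) : Nxt Gr D B e :=
  ⟨hn.1, TG.next_of_btw hG (TG.btw_symm hG h) hn.1 hn.2⟩

theorem sg_tree (hc : Ctx π) {M : Subgroup Γ} (hM : Full π M) {Ω : Set (Subgroup Γ)}
    (hΩ : IsProper π.ker M Ω) (hne : Ω.Nonempty) (Gr : G → SimpleGraph Ω)
    (hGr : ∀ g, OG π.ker (Mg π M g) Ω (Gr g)) : (SG π M Ω).IsTree := by
  classical
  have hlam : ∃ lam : Ω → Ω → (G →* Γ), ∀ D E, D ≠ E → IsLam π M Gr D E (lam D E) := by
    refine ⟨fun D E => if h : D ≠ E then (lam_sec hc hM hΩ Gr hGr h).choose else 1, ?_⟩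
    intro D E h
    beta_reduce
    rw [dif_pos h]
    exact (lam_sec hc hM hΩ Gr hGr h).choose_spec
  obtain ⟨lam, hl⟩ := hlam
  have main : ∀ B C : Ω, (SG π M Ω).Reachable (Sum.inl B) (Sum.inl C) := by
    intro B C
    have hEf : ({D | D ≠ B ∧ D ≠ C ∧ lam D B ≠ lam D C} ∪ {B, C} : Set Ω).Finite :=
      (lam_finite hc hM hΩ Gr hGr lam hl B C).union (Set.toFinite _)
    set E : Set Ω := {D | D ≠ B ∧ D ≠ C ∧ lam D B ≠ lam D C} ∪ {B, C} with hE
    have hTf : {t : Ω × Ω × Ω | t.1 ∈ E ∧ t.2.1 ∈ E ∧ t.2.2 ≠ t.1 ∧ t.2.2 ≠ t.2.1 ∧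
        lam t.2.2 t.1 ≠ lam t.2.2 t.2.1}.Finite := by
      have h1 : (⋃ x ∈ E, ⋃ y ∈ E, (fun D => (x, y, D)) '' {D | D ≠ x ∧ D ≠ y ∧ lam D x ≠ lam D y}).Finite := by
        refine hEf.biUnion fun x _ => hEf.biUnion fun y _ => ?_
        exact (lam_finite hc hM hΩ Gr hGr lam hl x y).image _
      apply h1.subset
      rintro ⟨x, y, D⟩ ⟨hx, hy, h1, h2, h3⟩
      simp only [Set.mem_iUnion]
      exact ⟨x, hx, y, hy, D, ⟨h1, h2, h3⟩, rfl⟩
    obtain ⟨g, hg⟩ := exists_generic hTf.toFinset (fun t => (lam t.2.2 t.1).eqLocus (lam t.2.2 t.2.1))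
      (fun t _ => (eq_isolK hc _ _).1)
      (fun t ht => (eq_isolK hc _ _).2 (by
        rw [Set.Finite.mem_toFinset] at ht
        exact ht.2.2.2.2))
    have hgen : ∀ x ∈ E, ∀ y ∈ E, ∀ D, D ≠ x → D ≠ y → lam D x g = lam D y g → lam D x = lam D y := by
      intro x hx y hy D h1 h2 h3
      by_contra hcon
      exact hg (x, y, D) (by
        rw [Set.Finite.mem_toFinset]
        exact ⟨hx, hy, h1, h2, hcon⟩) h3
    have hG := (hGr g).tree
    have key : ∀ n : ℕ, ∀ x ∈ E, ∀ y ∈ E, TG.Btw (Gr g) B x C → TG.Btw (Gr g) x y C →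
        (Gr g).dist x y = n → (SG π M Ω).Reachable (Sum.inl x) (Sum.inl y) := by
      intro n
      induction n using Nat.strong_induction_on with
      | _ n ih =>
        intro x hx y hy hbx hxy hn
        by_cases hxy0 : x = y
        · subst hxy0
          exact SimpleGraph.Reachable.refl _
        by_cases hD : ∃ D ∈ E, D ≠ x ∧ D ≠ y ∧ TG.Btw (Gr g) x D y
        · obtain ⟨D, hDE, hDx, hDy, hbD⟩ := hD
          obtain ⟨h1, h2⟩ := TG.btw_trans' hG hbD hxy
          obtain ⟨h3, h4⟩ := TG.btw_trans hG hbx h1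
          have hd : (Gr g).dist x D + (Gr g).dist D y = (Gr g).dist x y := hbD
          have hp1 : (Gr g).dist x D ≠ 0 := fun h0 => hDx (TG.dist_zero hG h0).symm
          have hp2 : (Gr g).dist D y ≠ 0 := fun h0 => hDy (TG.dist_zero hG h0)
          exact (ih _ (by omega) x hx D hDE hbx h1 rfl).trans (ih _ (by omega) D hDE y hy h4 h2 rfl)
        · have hsame : ∀ D, D ≠ x → D ≠ y → lam D x = lam D y := by
            intro D hDx hDy
            apply hgen x hx y hy D hDx hDy
            obtain ⟨e1, n1, -, -⟩ := (hl D x hDx).2 g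
            obtain ⟨e2, n2, -, -⟩ := (hl D y hDy).2 g
            by_cases hbD : TG.Btw (Gr g) x D y
            · have hDE : D ∉ E := fun h => hD ⟨D, h, hDx, hDy, hbD⟩
              obtain ⟨h1, h2⟩ := TG.btw_trans' hG hbD hxy
              obtain ⟨h3, h4⟩ := TG.btw_trans hG hbx h1
              have hDB : D ≠ B := by
                rintro rfl
                exact hDE (Or.inr (Or.inl rfl))
              have hDC : D ≠ C := by
                rintro rfl
                exact hDE (Or.inr (Or.inr rfl))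
              have hBC : lam D B = lam D C := by
                by_contra hcon
                exact hDE (Or.inl ⟨hDB, hDC, hcon⟩)
              have m1 : Nxt (Gr g) D B e1 := K41c_nxt_far hG h3 n1
              have m2 : Nxt (Gr g) D C e2 := K41c_nxt_far hG (TG.btw_symm hG h2) n2
              rw [lam_same hc hM hΩ Gr hGr lam hl hDx hDB n1 m1,
                lam_same hc hM hΩ Gr hGr lam hl hDy hDC n2 m2, hBC]
            · have he : e1 = e2 := by
                by_contra hcon
                exact hbD (K41b_btw_of_ne hG n1 n2 hcon)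
              subst he
              exact lam_same hc hM hΩ Gr hGr lam hl hDx hDy n1 n2
          have hfix := lam_common hc hM hΩ Gr hGr lam hl hxy0 hsame
          let s : SecT π M Ω := ⟨lam x y, (hl x y hxy0).1, x, y, hxy0, hfix⟩
          have a1 : (SG π M Ω).Adj (Sum.inl x) (Sum.inr s) := fun g' => (hfix g').1
          have a2 : (SG π M Ω).Adj (Sum.inr s) (Sum.inl y) := fun g' => (hfix g').2
          exact a1.reachable.trans a2.reachable
    exact key _ B (Or.inr (Or.inl rfl)) C (Or.inr (Or.inr rfl)) (TG.btw_left _ _) (TG.btw_right _ _) rfl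
  have toMem : ∀ v : Ω ⊕ SecT π M Ω, ∃ B : Ω, (SG π M Ω).Reachable v (Sum.inl B) := by
    rintro (B | s)
    · exact ⟨B, SimpleGraph.Reachable.refl _⟩
    · obtain ⟨hs, B, C, hBC, hfix⟩ := s.2
      have a1 : (SG π M Ω).Adj (Sum.inr s) (Sum.inl B) := fun g' => (hfix g').1
      exact ⟨B, a1.reachable⟩
  obtain ⟨B0, hB0⟩ := hne
  refine ⟨?_, sg_acyclic hc hM hΩ Gr hGr⟩
  have : Nonempty (Ω ⊕ SecT π M Ω) := ⟨Sum.inl ⟨B0, hB0⟩⟩
  refine ⟨fun u v => ?_⟩
  obtain ⟨B, hB⟩ := toMem u
  obtain ⟨C, hC⟩ := toMem v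
  exact (hB.trans (main B C)).trans hC.symm

end Pool.Agent.Lib.MP_6567fb_al
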