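import Pool.Agent.Lib.MP_6567fb_al.Defs8
import Pool.Agent.Lib.MP_6567fb_al.K31c
import Pool.Agent.Lib.MP_6567fb_al.T12

/-!
# MP_6567fb_al, module K42a

sg_mtree: M acts on SG: m (inl B) = inl (omAct m B), m (inr s) = inr s', s' g := m s((π m)⁻¹ g (π m)) m⁻¹.
sec_fibre: s a section fixing B₀ ≠ C₀, Ms := {m in M : m s(g) m⁻¹ = s (π m g (π m)⁻¹)} (given as a subgroup V with this membership).  U := hull in Gr 1 (OG for Mg π M 1 ≥ H) of the members fixed by s; m in V acts by conjugation with x := m s(π m)⁻¹ in H (x commutes with all s(g), so it maps members fixed by s to such members;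
m -> x is a homomorphism on V).  U as an MTree V (T12.sub or directly induce_conv).  free: h in V ⊓ ker acts as h itself, fixes two members: fix_two.  orb: m acts as x = m s(π m)⁻¹ in V ⊓ ker.  ι B := B for B fixed by s.  m in V acts on ι B by m: s(π m) fixes B.
-/

set_option autoImplicit false

open scoped Pointwise

namespace Pool.Agent.Lib.MP_6567fb_al

open MTree
variable {Γ G : Type} [Group Γ] [Group G] {π : Γ →* G}

/-- conjugate of a section by `m` -/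
def secConj (π : Γ →* G) (m : Γ) (s : G →* Γ) : G →* Γ :=
  ((MulAut.conj m).toMonoidHom.comp s).comp (MulAut.conj (π m)⁻¹).toMonoidHom

theorem secConj_apply (m : Γ) (s : G →* Γ) (g : G) :
    secConj π m s g = m * s ((π m)⁻¹ * g * π m) * m⁻¹ := by
  simp [secConj, MulAut.conj_apply]

theorem secConj_mul (m m' : Γ) (s : G →* Γ) : secConj π (m * m') s = secConj π m (secConj π m' s) := by
  ext g
  rw [secConj_apply, secConj_apply, secConj_apply]
  have h : (π (m * m'))⁻¹ * g * π (m * m') = (π m')⁻¹ * ((π m)⁻¹ * g * π m) * π m' := by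
    rw [map_mul]
    group
  rw [h]
  group

theorem secConj_fix {M : Subgroup Γ} {Ω : Set (Subgroup Γ)} (hi : ∀ m ∈ M, ∀ B ∈ Ω, MulAut.conj m • B ∈ Ω)
    {m : Γ} (hm : m ∈ M) {s : G →* Γ} (hs : ∀ g, s g ∈ M) {B : Ω} (hB : ∀ g, omAct Ω (s g) B = B) (g : G) :
    omAct Ω (secConj π m s g) (omAct Ω m B) = omAct Ω m B := by
  rw [secConj_apply, ← omAct_mul hi (M.mul_mem (M.mul_mem hm (hs _)) (M.inv_mem hm)) hm,
    inv_mul_cancel_right, omAct_mul hi hm (hs _), hB]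

theorem omAct_inj {M : Subgroup Γ} {Ω : Set (Subgroup Γ)} (hi : ∀ m ∈ M, ∀ B ∈ Ω, MulAut.conj m • B ∈ Ω)
    {m : Γ} (hm : m ∈ M) {B C : Ω} (h : omAct Ω m B = omAct Ω m C) : B = C := by
  have h1 := congrArg (omAct Ω m⁻¹) h
  rwa [← omAct_mul hi (M.inv_mem hm) hm, ← omAct_mul hi (M.inv_mem hm) hm, inv_mul_cancel, omAct_one,
    omAct_one] at h1

/-- the action of `M` on sections -/
def secAct {M : Subgroup Γ} {Ω : Set (Subgroup Γ)} (hi : ∀ m ∈ M, ∀ B ∈ Ω, MulAut.conj m • B ∈ Ω)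
    {m : Γ} (hm : m ∈ M) (s : SecT π M Ω) : SecT π M Ω :=
  ⟨secConj π m s.1, ⟨fun g => by
      rw [secConj_apply, map_mul, map_mul, s.2.1.sec, map_inv]
      group, fun g => by
      rw [secConj_apply]
      exact M.mul_mem (M.mul_mem hm (s.2.1.mem _)) (M.inv_mem hm)⟩, by
    obtain ⟨B, C, hBC, hf⟩ := s.2.2
    exact ⟨omAct Ω m B, omAct Ω m C, fun h => hBC (omAct_inj hi hm h), fun g =>
      ⟨secConj_fix hi hm s.2.1.mem (fun g => (hf g).1) g,
        secConj_fix hi hm s.2.1.mem (fun g => (hf g).2) g⟩⟩⟩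

open Classical in
/-- the action of `M` on `SG` -/
noncomputable def sgAct {M : Subgroup Γ} {Ω : Set (Subgroup Γ)}
    (hi : ∀ m ∈ M, ∀ B ∈ Ω, MulAut.conj m • B ∈ Ω) (m : Γ) (x : Ω ⊕ SecT π M Ω) : Ω ⊕ SecT π M Ω :=
  if hm : m ∈ M then
    match x with
    | Sum.inl B => Sum.inl (omAct Ω m B)
    | Sum.inr s => Sum.inr (secAct hi hm s)
  else x

theorem sgAct_inl {M : Subgroup Γ} {Ω : Set (Subgroup Γ)}
    (hi : ∀ m ∈ M, ∀ B ∈ Ω, MulAut.conj m • B ∈ Ω) {m : Γ} (hm : m ∈ M) (B : Ω) :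
    sgAct (π := π) hi m (Sum.inl B) = Sum.inl (omAct Ω m B) := by
  simp only [sgAct, dif_pos hm]

theorem sgAct_inr {M : Subgroup Γ} {Ω : Set (Subgroup Γ)}
    (hi : ∀ m ∈ M, ∀ B ∈ Ω, MulAut.conj m • B ∈ Ω) {m : Γ} (hm : m ∈ M) (s : SecT π M Ω) :
    sgAct hi m (Sum.inr s) = Sum.inr (secAct hi hm s) := by
  simp only [sgAct, dif_pos hm]

theorem sgAct_adj {M : Subgroup Γ} {Ω : Set (Subgroup Γ)}
    (hi : ∀ m ∈ M, ∀ B ∈ Ω, MulAut.conj m • B ∈ Ω) {m : Γ} (hm : m ∈ M) {x y : Ω ⊕ SecT π M Ω}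
    (h : (SG π M Ω).Adj x y) : (SG π M Ω).Adj (sgAct hi m x) (sgAct hi m y) := by
  rcases x with B | s <;> rcases y with C | t
  · exact absurd h id
  · rw [sgAct_inl hi hm, sgAct_inr hi hm]
    exact secConj_fix hi hm t.2.1.mem h
  · rw [sgAct_inl hi hm, sgAct_inr hi hm]
    exact secConj_fix hi hm s.2.1.mem h
  · exact absurd h id

theorem sg_mtree {M : Subgroup Γ} {Ω : Set (Subgroup Γ)} (hΩ : IsProper π.ker M Ω)
    (ht : (SG π M Ω).IsTree) :
    ∃ (T : MTree M) (e : T.X ≃ Ω ⊕ SecT π M Ω), (∀ x y, T.G.Adj x y ↔ (SG π M Ω).Adj (e x) (e y)) ∧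
      (∀ m ∈ M, ∀ B : Ω, e (T.act m (e.symm (Sum.inl B))) = Sum.inl (omAct Ω m B)) ∧
      ∀ m ∈ M, ∀ s s' : SecT π M Ω, T.act m (e.symm (Sum.inr s)) = e.symm (Sum.inr s') ↔
        ∀ g, s'.1 (π m * g * (π m)⁻¹) = m * s.1 g * m⁻¹ := by
  have hi := hΩ.inv
  refine ⟨{ X := Ω ⊕ SecT π M Ω, G := SG π M Ω, tree := ht, act := sgAct hi, act_one := ?_,
            act_mul := ?_, act_adj := fun m hm x y h => sgAct_adj hi hm h }, Equiv.refl _, fun _ _ => Iff.rfl,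
            fun m hm B => sgAct_inl hi hm B, ?_⟩
  · intro x
    rcases x with B | s
    · rw [sgAct_inl hi M.one_mem, omAct_one]
    · rw [sgAct_inr hi M.one_mem]
      congr 1
      apply Subtype.ext
      ext g
      show secConj π 1 s.1 g = s.1 g
      rw [secConj_apply]
      simp
  · intro m hm m' hm' x
    rcases x with B | s
    · rw [sgAct_inl hi (M.mul_mem hm hm'), sgAct_inl hi hm', sgAct_inl hi hm, omAct_mul hi hm hm']
    · rw [sgAct_inr hi (M.mul_mem hm hm'), sgAct_inr hi hm', sgAct_inr hi hm]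
      congr 1
      exact Subtype.ext (secConj_mul m m' s.1)
  · intro m hm s s'
    show sgAct hi m (Sum.inr s) = Sum.inr s' ↔ _
    rw [sgAct_inr hi hm]
    constructor
    · intro h g
      have h1 := congrArg Subtype.val (Sum.inr_injective h)
      rw [← h1]
      show secConj π m s.1 _ = _
      rw [secConj_apply]
      congr 3
      group
    · intro h
      congr 1
      apply Subtype.ext
      ext g
      show secConj π m s.1 g = s'.1 g
      rw [secConj_apply, ← h]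
      congr 1
      group

theorem sec_fibre (hc : Ctx π) {M : Subgroup Γ} (hM : Full π M) {Ω : Set (Subgroup Γ)}
    (hΩ : IsProper π.ker M Ω) {Gr : SimpleGraph Ω} (hG : OG π.ker (Mg π M 1) Ω Gr) (s : SecT π M Ω)
    {V : Subgroup Γ} (hV : ∀ m, m ∈ V ↔ m ∈ M ∧ ∀ g, s.1 (π m * g * (π m)⁻¹) = m * s.1 g * m⁻¹) :
    ∃ (U : MTree V) (ι : Ω → U.X),
      (∀ B C, (∀ g, omAct Ω (s.1 g) B = B) → (∀ g, omAct Ω (s.1 g) C = C) → ι B = ι C → B = C) ∧
      (∀ m ∈ V, ∀ B, (∀ g, omAct Ω (s.1 g) B = B) → U.act m (ι B) = ι (omAct Ω m B)) ∧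
      (∀ h ∈ V ⊓ π.ker, ∀ x y, x ≠ y → U.act h x = x → U.act h y = y → h = 1) ∧
      (∀ h ∈ V ⊓ π.ker, ∀ x y, U.G.Adj x y → ¬ (U.act h x = y ∧ U.act h y = x)) ∧
      ∀ m ∈ V, ∃ h ∈ V ⊓ π.ker, ∀ x, U.act h x = U.act m x := by
  classical
  have hi := hΩ.inv
  have hper : IsPeriph π.ker M Ω := by
    obtain ⟨T, h1, _, h3⟩ := hΩ.tree
    exact ⟨hΩ.inv, T, h1, h3⟩
  let S : Set Ω := {B | ∀ g, omAct Ω (s.1 g) B = B}
  obtain ⟨B₀, C₀, _, hf⟩ := s.2.2
  have hB₀ : B₀ ∈ TG.hull Gr S := ⟨B₀, fun g => (hf g).1, B₀, fun g => (hf g).1, TG.btw_left _ _⟩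
  have hsubS : ∀ B ∈ S, B ∈ TG.hull Gr S := fun B hB => ⟨B, hB, B, hB, TG.btw_left _ _⟩
  -- the element `x`
  let xx : Γ → Γ := fun m => m * (s.1 (π m))⁻¹
  have hVM : ∀ m ∈ V, m ∈ M := fun m hm => ((hV m).1 hm).1
  have hxM : ∀ m ∈ V, xx m ∈ M := fun m hm => M.mul_mem (hVM m hm) (M.inv_mem (s.2.1.mem _))
  have hxπ : ∀ m, π (xx m) = 1 := by
    intro m
    show π (m * (s.1 (π m))⁻¹) = 1
    rw [map_mul, map_inv, s.2.1.sec, mul_inv_cancel]
  have hxk : ∀ m ∈ V, xx m ∈ Mg π M 1 := by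
    intro m hm
    refine ⟨hxM m hm, ?_⟩
    show π (xx m) ∈ Subgroup.zpowers (1 : G)
    rw [hxπ]
    exact one_mem _
  have hcomm : ∀ m ∈ V, ∀ g, xx m * s.1 g = s.1 g * xx m := by
    intro m hm g
    have h1 := ((hV m).1 hm).2 ((π m)⁻¹ * g * π m)
    have h2 : π m * ((π m)⁻¹ * g * π m) * (π m)⁻¹ = g := by group
    rw [h2] at h1
    rw [map_mul, map_mul, map_inv] at h1
    have h3 : s.1 g * m = m * ((s.1 (π m))⁻¹ * s.1 g * s.1 (π m)) := by
      exact eq_mul_inv_iff_mul_eq.1 h1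
    show m * (s.1 (π m))⁻¹ * s.1 g = s.1 g * (m * (s.1 (π m))⁻¹)
    rw [← mul_assoc (s.1 g), h3]
    group
  have hmapS : ∀ m ∈ V, ∀ B ∈ S, omAct Ω (xx m) B ∈ S := by
    intro m hm B hB g
    rw [← omAct_mul hi (s.2.1.mem g) (hxM m hm), ← hcomm m hm g, omAct_mul hi (hxM m hm) (s.2.1.mem g), hB g]
  have hbtw : ∀ m ∈ V, ∀ x y z : Ω, TG.Btw Gr x y z →
      TG.Btw Gr (omAct Ω (xx m) x) (omAct Ω (xx m) y) (omAct Ω (xx m) z) := by
    intro m hm x y z h
    exact (hG.toMTree.btw_act (hxk m hm) x y z).2 h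
  have hmapH : ∀ m ∈ V, ∀ B ∈ TG.hull Gr S, omAct Ω (xx m) B ∈ TG.hull Gr S := by
    rintro m hm B ⟨a, ha, b, hb, h⟩
    exact ⟨_, hmapS m hm a ha, _, hmapS m hm b hb, hbtw m hm _ _ _ h⟩
  have hmul : ∀ m ∈ V, ∀ m' ∈ V, xx (m * m') = xx m * xx m' := by
    intro m hm m' hm'
    have h1 := hcomm m' hm' (π m)
    have h2 : xx m * xx m' = m * ((s.1 (π m))⁻¹ * xx m') := by
      show m * (s.1 (π m))⁻¹ * xx m' = _
      rw [mul_assoc]
    have h3 : (s.1 (π m))⁻¹ * xx m' = xx m' * (s.1 (π m))⁻¹ := by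
      rw [eq_mul_inv_iff_mul_eq, mul_assoc, h1, inv_mul_cancel_left]
    rw [h2, h3]
    show m * m' * (s.1 (π (m * m')))⁻¹ = m * (m' * (s.1 (π m'))⁻¹ * (s.1 (π m))⁻¹)
    rw [map_mul, map_mul, mul_inv_rev]
    simp only [mul_assoc]
  have hone : xx 1 = 1 := by
    show 1 * (s.1 (π 1))⁻¹ = 1
    simp
  have hxker : ∀ h, π h = 1 → xx h = h := by
    intro h hh
    show h * (s.1 (π h))⁻¹ = h
    rw [hh, map_one, inv_one, mul_one]
  have hconv := TG.conv_hull hG.tree S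
  obtain ⟨htree, _⟩ := TG.induce_conv hG.tree hconv ⟨B₀, hB₀⟩
  let U : MTree V :=
    { X := TG.hull Gr S
      G := Gr.induce (TG.hull Gr S)
      tree := htree
      act := fun m p => if hm : m ∈ V then ⟨omAct Ω (xx m) p, hmapH m hm p p.2⟩ else p
      act_one := fun p => by
        rw [dif_pos V.one_mem]
        apply Subtype.ext
        show omAct Ω (xx 1) p = p
        rw [hone, omAct_one]
      act_mul := fun m hm m' hm' p => by
        rw [dif_pos (V.mul_mem hm hm'), dif_pos hm, dif_pos hm']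
        apply Subtype.ext
        show omAct Ω (xx (m * m')) p = omAct Ω (xx m) (omAct Ω (xx m') p)
        rw [hmul m hm m' hm', omAct_mul hi (hxM m hm) (hxM m' hm')]
      act_adj := fun m hm x y hxy => by
        rw [dif_pos hm, dif_pos hm]
        exact hG.adj _ (hxk m hm) _ _ hxy }
  have hact : ∀ m (hm : m ∈ V) (p : TG.hull Gr S), U.act m p = ⟨omAct Ω (xx m) p, hmapH m hm p p.2⟩ :=
    fun m hm p => dif_pos hm
  let ι : Ω → U.X := fun B => if h : B ∈ TG.hull Gr S then ⟨B, h⟩ else ⟨B₀, hB₀⟩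
  have hι : ∀ B (hB : B ∈ S), ι B = ⟨B, hsubS B hB⟩ := fun B hB => dif_pos (hsubS B hB)
  refine ⟨U, ι, ?_, ?_, ?_, ?_, ?_⟩
  · intro B C hB hC h
    rw [hι B hB, hι C hC] at h
    exact congrArg Subtype.val h
  · intro m hm B hB
    have e1 : omAct Ω (xx m) B = omAct Ω m B := by
      show omAct Ω (m * (s.1 (π m))⁻¹) B = _
      rw [omAct_mul hi (hVM m hm) (M.inv_mem (s.2.1.mem _)), ← map_inv, hB]
    have hB' : omAct Ω m B ∈ S := by
      rw [← e1]
      exact hmapS m hm B hB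
    rw [hι B hB, hι _ hB', hact m hm]
    exact Subtype.ext e1
  · intro h hh x y hxy hx hy
    have hπh : π h = 1 := hh.2
    rw [hact h hh.1] at hx hy
    have hx' : omAct Ω (xx h) (x : Ω) = x := congrArg Subtype.val hx
    have hy' : omAct Ω (xx h) (y : Ω) = y := congrArg Subtype.val hy
    rw [hxker h hπh] at hx' hy'
    exact fix_two hper ⟨hVM h hh.1, hh.2⟩ (fun e => hxy (Subtype.ext e)) hx' hy'
  · rintro h hh x y hxy ⟨hx, hy⟩
    have hπh : π h = 1 := hh.2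
    rw [hact h hh.1] at hx hy
    have hx' : omAct Ω (xx h) (x : Ω) = y := congrArg Subtype.val hx
    have hy' : omAct Ω (xx h) (y : Ω) = x := congrArg Subtype.val hy
    rw [hxker h hπh] at hx' hy'
    refine hG.ninv h ⟨?_, hh.2⟩ _ _ hxy ⟨hx', hy'⟩
    have := hxk h hh.1
    rwa [hxker h hπh] at this
  · intro m hm
    have hxV : xx m ∈ V := by
      rw [hV]
      refine ⟨hxM m hm, fun g => ?_⟩
      rw [hxπ, one_mul, inv_one, mul_one, hcomm m hm g, mul_inv_cancel_right]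
    refine ⟨xx m, ⟨hxV, hxπ m⟩, fun x => ?_⟩
    rw [hact _ hxV, hact m hm]
    apply Subtype.ext
    show omAct Ω (xx (xx m)) x = omAct Ω (xx m) x
    rw [hxker _ (hxπ m)]

end Pool.Agent.Lib.MP_6567fb_al
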