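import Pool.Agent.Lib.MP_6567fb_al.K42a
import Pool.Agent.Lib.MP_6567fb_al.T10b
import Pool.Agent.Lib.MP_6567fb_al.T10c
import Pool.Agent.Lib.MP_6567fb_al.T11
import Pool.Agent.Lib.MP_6567fb_al.T2c

/-!
# MP_6567fb_al, module K42b

Final splitting: blow up one section vertex, collapse all edges outside one orbit.
-/

set_option autoImplicit false

open scoped Pointwise

namespace Pool.Agent.Lib.MP_6567fb_al

open MTree
variable {Γ G : Type} [Group Γ] [Group G] {π : Γ →* G}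

/-- blow up of one vertex -/
theorem k42_blowup_one {M : Subgroup Γ} (B : MTree M) (v : B.X) (U : MTree (B.stab v))
    (at' : B.X → U.X)
    (hat : ∀ m ∈ B.stab v, ∀ w, B.G.Adj v w → at' (B.act m w) = U.act m (at' w)) :
    ∃ (T : MTree M) (pr : T.X → B.X) (j : U.X → T.X), IsBlowup T B pr ∧ IsEmb U T j ∧
      Set.range j = pr ⁻¹' {v} ∧
      (∀ w, B.G.Adj v w → ∃ z, pr z = w ∧ T.G.Adj (j (at' w)) z) ∧
      ∀ w, (¬ ∃ m ∈ M, B.act m v = w) → ∀ x y, pr x = w → pr y = w → x = y := by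
  classical
  obtain ⟨R, hvR, hR⟩ := exists_reps B v
  let D : ∀ w, Σ U' : MTree (B.stab w), (B.X → U'.X) := fun w =>
    if h : v = w then h ▸ ⟨U, at'⟩ else ⟨point _, fun _ => ()⟩
  have hDv : D v = ⟨U, at'⟩ := by simp [D]
  have hDn : ∀ w, v ≠ w → D w = ⟨point _, fun _ => ()⟩ := by
    intro w hw
    simp [D, hw]
  obtain ⟨T, pr, ι, hb, hι⟩ := blowup_exists B R hR (fun w => (D w).1) (fun w => (D w).2) (by
    intro w _ m hm z hz
    by_cases h : v = w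
    · subst h
      have key : ∀ d : Σ U' : MTree (B.stab v), (B.X → U'.X), d = ⟨U, at'⟩ →
          d.2 (B.act m z) = d.1.act m (d.2 z) := by
        rintro d rfl
        exact hat m hm z hz
      exact key _ hDv
    · have key : ∀ d : Σ U' : MTree (B.stab w), (B.X → U'.X), d = ⟨point _, fun _ => ()⟩ →
          d.2 (B.act m z) = d.1.act m (d.2 z) := by
        rintro d rfl
        rfl
      exact key _ (hDn w h))
  have key : ∀ d : Σ U' : MTree (B.stab v), (B.X → U'.X), d = ⟨U, at'⟩ →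
      (∃ j : d.1.X → T.X, IsEmb d.1 T j ∧ Set.range j = pr ⁻¹' {v} ∧
        ∀ w, B.G.Adj v w → ∃ z, pr z = w ∧ T.G.Adj (j (d.2 w)) z) →
      ∃ j : U.X → T.X, IsEmb U T j ∧ Set.range j = pr ⁻¹' {v} ∧
        ∀ w, B.G.Adj v w → ∃ z, pr z = w ∧ T.G.Adj (j (at' w)) z := by
    rintro d rfl h
    exact h
  obtain ⟨j, hj1, hj2, hj3⟩ := key _ hDv ⟨ι v, hι v hvR⟩
  refine ⟨T, pr, j, hb, hj1, hj2, hj3, ?_⟩
  intro w hw x y hx hy
  obtain ⟨r, ⟨hr, m, hm, hmr⟩, -⟩ := hR w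
  have hvr : v ≠ r := by
    rintro rfl
    exact hw ⟨m, hm, hmr⟩
  have key2 : ∀ (d : Σ U' : MTree (B.stab r), (B.X → U'.X)), d = ⟨point _, fun _ => ()⟩ →
      ∀ k : d.1.X → T.X, Set.range k = pr ⁻¹' {r} → ∀ a b, pr a = r → pr b = r → a = b := by
    rintro d rfl k hk a b ha hb'
    have h1 : a ∈ Set.range k := by rw [hk]; exact ha
    have h2 : b ∈ Set.range k := by rw [hk]; exact hb'
    obtain ⟨a', rfl⟩ := h1
    obtain ⟨b', rfl⟩ := h2
    have : a' = b' := Subsingleton.elim (α := Unit) a' b'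
    rw [this]
  have h3 := key2 _ (hDn r hvr) (ι r) (hι r hr).2.1 (T.act m⁻¹ x) (T.act m⁻¹ y)
    (by rw [hb.equi _ (M.inv_mem hm), hx, ← hmr, B.act_inv_act hm])
    (by rw [hb.equi _ (M.inv_mem hm), hy, ← hmr, B.act_inv_act hm])
  exact T.act_inj (M.inv_mem hm) h3

theorem final_split (hc : Ctx π) {M : Subgroup Γ} (hM : Full π M) {Ω : Set (Subgroup Γ)}
    (hΩ : IsProper π.ker M Ω) (hne : Ω.Nonempty) {Gr : SimpleGraph Ω} (hG : OG π.ker (Mg π M 1) Ω Gr)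
    (ht : (SG π M Ω).IsTree) :
    ∃ T : MTree M, T.IsSplitting π.ker ∧ T.Nontriv π.ker ∧ T.Rel Ω := by
  classical
  obtain ⟨T₀, hT₀s, hT₀n, hT₀v⟩ := hΩ.tree
  have hmem : ∀ B ∈ Ω, B ≠ ⊥ ∧ ∃ x, T₀.stab x ⊓ π.ker = B := by
    intro B hB
    rw [← hT₀v] at hB
    exact hB
  have hle : ∀ B ∈ Ω, B ≤ M ⊓ π.ker := by
    intro B hB
    obtain ⟨-, x, rfl⟩ := hmem B hB
    intro b hb
    exact ⟨hb.1.1.1, hb.2⟩
  have hex : ∀ B ∈ Ω, ∃ b ∈ B, b ≠ 1 := by
    intro B hB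
    by_contra hcon
    push Not at hcon
    exact (hmem B hB).1 ((Subgroup.eq_bot_iff_forall B).2 hcon)
  -- two members
  obtain ⟨B₁, hB₁⟩ := hne
  have htwo : ∃ B ∈ Ω, B ≠ B₁ := by
    by_contra hcon
    push Not at hcon
    obtain ⟨-, x, hx⟩ := hmem B₁ hB₁
    obtain ⟨b, hbB, hb1⟩ := hex B₁ hB₁
    obtain ⟨h, hh, hhx⟩ := hT₀n x
    have hhM : h ∈ M := hh.1.1
    have h1 : MulAut.conj h • B₁ = B₁ := hcon _ (hΩ.inv h hhM _ hB₁)
    have h2 : h⁻¹ * b * h ∈ B₁ := by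
      have h3 : b ∈ MulAut.conj h • B₁ := by
        rw [h1]
        exact hbB
      rw [Subgroup.mem_pointwise_smul_iff_inv_smul_mem] at h3
      simpa [MulAut.smul_def, ← map_inv, MulAut.conj_apply] using h3
    have h3 : T₀.act (h⁻¹ * b * h) x = x := by
      rw [← hx] at h2
      exact h2.1.2
    have hbM : b ∈ M ⊓ π.ker := hle B₁ hB₁ hbB
    have h4 : T₀.act b (T₀.act h x) = T₀.act h x := by
      have h5 : T₀.act (h * (h⁻¹ * b * h)) x = T₀.act h (T₀.act (h⁻¹ * b * h) x) :=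
        T₀.act_mul h hh.1 _ (mul_mem (mul_mem (inv_mem hh.1) hbM) hh.1) x
      rw [h3] at h5
      calc T₀.act b (T₀.act h x) = T₀.act (b * h) x := (T₀.act_mul b hbM h hh.1 x).symm
        _ = T₀.act (h * (h⁻¹ * b * h)) x := by
            congr 1
            group
        _ = T₀.act h x := h5
    have h6 : T₀.act b x = x := by
      have h7 := hbB
      rw [← hx] at h7
      exact h7.1.2
    exact hhx (hT₀s.fixed_unique ⟨hbM, hbM.2⟩ hb1 h4 h6)
  obtain ⟨B₂, hB₂, hB₂₁⟩ := htwo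
  obtain ⟨y, ⟨hy, -⟩, -⟩ := TG.exists_unique_next ht (x := Sum.inl ⟨B₁, hB₁⟩)
    (z := Sum.inl ⟨B₂, hB₂⟩) (fun h => hB₂₁ (congrArg Subtype.val (Sum.inl.inj h)).symm)
  obtain ⟨s, rfl⟩ : ∃ s, y = Sum.inr s := by
    cases y with
    | inl D => exact hy.elim
    | inr s => exact ⟨s, rfl⟩
  clear hy
  obtain ⟨hsec, B, C, hBC, hfix⟩ := s.2
  obtain ⟨T₁, e, hadj, hactB0, hactS⟩ := sg_mtree hΩ ht
  have hactB : ∀ m ∈ M, ∀ D : Ω, T₁.act m (e.symm (Sum.inl D)) =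
      e.symm (Sum.inl (omAct Ω m D)) := by
    intro m hm D
    rw [← hactB0 m hm D, e.symm_apply_apply]
  obtain ⟨v, hv⟩ : ∃ v, v = e.symm (Sum.inr s) := ⟨_, rfl⟩
  have hV : ∀ m, m ∈ T₁.stab v ↔
      m ∈ M ∧ ∀ g, s.1 (π m * g * (π m)⁻¹) = m * s.1 g * m⁻¹ := by
    intro m
    constructor
    · rintro ⟨hm, hmv⟩
      rw [hv] at hmv
      exact ⟨hm, (hactS m hm s s).1 hmv⟩
    · rintro ⟨hm, hmv⟩
      refine ⟨hm, ?_⟩
      rw [hv]
      exact (hactS m hm s s).2 hmv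
  obtain ⟨U, ι, hinj, hequi, hfree, -, horb⟩ := sec_fibre hc hM hΩ hG s hV
  -- neighbours of v
  have hnb : ∀ w, T₁.G.Adj v w → ∃ D, w = e.symm (Sum.inl D) ∧ ∀ g, omAct Ω (s.1 g) D = D := by
    intro w hw
    have hw' := (hadj v w).1 hw
    rw [hv, e.apply_symm_apply] at hw'
    obtain ⟨u, rfl⟩ := e.symm.surjective w
    rw [e.apply_symm_apply] at hw'
    cases u with
    | inl D => exact ⟨D, rfl, hw'⟩
    | inr s' => exact hw'.elim
  have hnb' : ∀ D : Ω, (∀ g, omAct Ω (s.1 g) D = D) → T₁.G.Adj v (e.symm (Sum.inl D)) := by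
    intro D hD
    rw [hadj, hv, e.apply_symm_apply, e.apply_symm_apply]
    exact hD
  have hnorb : ∀ D : Ω, ¬ ∃ m ∈ M, T₁.act m v = e.symm (Sum.inl D) := by
    rintro D ⟨m, hm, h⟩
    have h1 := congrArg (T₁.act m⁻¹) h
    rw [T₁.act_inv_act hm, hactB m⁻¹ (M.inv_mem hm), hv] at h1
    cases e.symm.injective h1
  let at' : T₁.X → U.X := fun w => Sum.elim ι (fun _ => ι B) (e w)
  have hat1 : ∀ D : Ω, at' (e.symm (Sum.inl D)) = ι D := by
    intro D
    simp [at']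
  obtain ⟨T, pr, j, hb, hj, hrange, hedge, hpt⟩ := k42_blowup_one T₁ v U at' (by
    intro m hm w hw
    obtain ⟨D, rfl, hD⟩ := hnb w hw
    rw [hactB m hm.1, hat1, hat1]
    exact (hequi m hm D hD).symm)
  have hprj : ∀ x, pr (j x) = v := by
    intro x
    have : j x ∈ pr ⁻¹' {v} := by
      rw [← hrange]
      exact ⟨x, rfl⟩
    exact this
  have hBfix : ∀ g, omAct Ω (s.1 g) B = B := fun g => (hfix g).1
  have hCfix : ∀ g, omAct Ω (s.1 g) C = C := fun g => (hfix g).2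
  have hιBC : ι B ≠ ι C := fun h => hBC (hinj B C hBfix hCfix h)
  obtain ⟨y₀, ⟨hxy, hyd⟩, -⟩ := TG.exists_unique_next U.tree hιBC
  obtain ⟨x₀, hx₀⟩ : ∃ x₀, x₀ = ι B := ⟨_, rfl⟩
  rw [← hx₀] at hxy
  have hTadj : T.G.Adj (j x₀) (j y₀) := (hj.t10_adj_iff x₀ y₀).2 hxy
  -- the fibre over a member
  have hz : ∀ D : Ω, ∃ z, pr z = e.symm (Sum.inl D) ∧ ∀ d ∈ (D : Subgroup Γ), T.act d z = z := by
    intro D
    obtain ⟨z, hz⟩ := hb.surj (e.symm (Sum.inl D))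
    refine ⟨z, hz, fun d hd => ?_⟩
    have hdM : d ∈ M := (hle D D.2 hd).1
    refine hpt _ (hnorb D) _ _ ?_ hz
    rw [hb.equi d hdM, hz, hactB d hdM]
    congr 2
    apply Subtype.ext
    have h1 : MulAut.conj d • (D : Subgroup Γ) = D := Subgroup.conj_smul_eq_self_of_mem hd
    rw [omAct_coe (by rw [h1]; exact D.2), h1]
  -- the orbit of the edge
  have claim : ∀ m ∈ M, ∃ h ∈ M ⊓ π.ker, ∀ x : U.X, T.act h (j x) = T.act m (j x) := by
    intro m hm
    have hsM : s.1 (π m) ∈ M := hsec.mem _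
    have hsV : s.1 (π m) ∈ T₁.stab v := by
      rw [hV]
      refine ⟨hsM, fun k => ?_⟩
      rw [hsec.sec]
      simp only [map_mul, map_inv]
    obtain ⟨h, hh, hhx⟩ := horb _ hsV
    have hhM : h ∈ M := hh.1.1
    have hker : m * (s.1 (π m))⁻¹ * h ∈ π.ker := by
      have h1 : π h = 1 := hh.2
      have h2 : π (s.1 (π m)) = π m := hsec.sec (π m)
      rw [MonoidHom.mem_ker, map_mul, map_mul, map_inv, h1, h2, mul_inv_cancel, one_mul]
    refine ⟨m * (s.1 (π m))⁻¹ * h, ⟨M.mul_mem (M.mul_mem hm (M.inv_mem hsM)) hhM, hker⟩, ?_⟩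
    intro x
    rw [T.act_mul _ (M.mul_mem hm (M.inv_mem hsM)) _ hhM, ← hj.equi h hh.1, hhx,
      hj.equi _ hsV, ← T.act_mul _ (M.mul_mem hm (M.inv_mem hsM)) _ hsM, inv_mul_cancel_right]
  -- collapse
  let K : T.X → T.X → Prop := fun a b => ∃ m ∈ M, ∃ p q : U.X,
    ((p = x₀ ∧ q = y₀) ∨ (p = y₀ ∧ q = x₀)) ∧ a = T.act m (j p) ∧ b = T.act m (j q)
  obtain ⟨S, pr₂, hb₂, hK⟩ := collapse_exists T K (by
    rintro a b ⟨m, hm, p, q, hpq, rfl, rfl⟩
    exact ⟨m, hm, q, p, by tauto, rfl, rfl⟩) (by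
    rintro n hn a b ⟨m, hm, p, q, hpq, rfl, rfl⟩
    exact ⟨n * m, M.mul_mem hn hm, p, q, hpq, (T.act_mul n hn m hm _).symm,
      (T.act_mul n hn m hm _).symm⟩)
  have hlift : ∀ u w, S.G.Adj u w → ∃ m ∈ M, ∃ p q : U.X,
      ((p = x₀ ∧ q = y₀) ∨ (p = y₀ ∧ q = x₀)) ∧ pr₂ (T.act m (j p)) = u ∧ pr₂ (T.act m (j q)) = w ∧
        T.G.Adj (T.act m (j p)) (T.act m (j q)) := by
    intro u w huw
    obtain ⟨⟨a, b⟩, ⟨hab, ha, hb'⟩, -⟩ := hb₂.lift u w huw
    simp only at hab ha hb'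
    have hne : pr₂ a ≠ pr₂ b := by
      rw [ha, hb']
      exact huw.ne
    obtain ⟨m, hm, p, q, hpq, rfl, rfl⟩ := (hK a b hab).1 hne
    exact ⟨m, hm, p, q, hpq, ha, hb', hab⟩
  have hpqne : ∀ p q : U.X, ((p = x₀ ∧ q = y₀) ∨ (p = y₀ ∧ q = x₀)) → p ≠ q := by
    rintro p q (⟨rfl, rfl⟩ | ⟨rfl, rfl⟩)
    · exact hxy.ne
    · exact hxy.ne.symm
  have hSsplit : S.IsSplitting π.ker := by
    refine ⟨?_, ?_, ?_⟩
    · intro h hh u w huw hu hw
      obtain ⟨m, hm, p, q, hpq, hpu, hqw, hab⟩ := hlift u w huw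
      have huniq := (hb₂.lift u w huw).unique
        (y₁ := (T.act h (T.act m (j p)), T.act h (T.act m (j q))))
        (y₂ := (T.act m (j p), T.act m (j q)))
        ⟨T.act_adj h hh.1 _ _ hab, by rw [hb₂.equi h hh.1, hpu, hu],
          by rw [hb₂.equi h hh.1, hqw, hw]⟩ ⟨hab, hpu, hqw⟩
      rw [Prod.mk.injEq] at huniq
      have hnM : m⁻¹ * h * m ∈ M := M.mul_mem (M.mul_mem (M.inv_mem hm) hh.1) hm
      have hnk : m⁻¹ * h * m ∈ π.ker := by
        have := (MonoidHom.normal_ker π).conj_mem h hh.2 m⁻¹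
        rwa [inv_inv] at this
      have hn : ∀ x : U.X, T.act h (T.act m (j x)) = T.act m (j x) →
          T.act (m⁻¹ * h * m) (j x) = j x := by
        intro x hx
        rw [T.act_mul _ (M.mul_mem (M.inv_mem hm) hh.1) m hm, T.act_mul _ (M.inv_mem hm) h hh.1, hx,
          T.act_inv_act hm]
      have hnV : m⁻¹ * h * m ∈ T₁.stab v := by
        refine ⟨hnM, ?_⟩
        have h1 := congrArg pr (hn p huniq.1)
        rw [hb.equi _ hnM, hprj] at h1
        exact h1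
      have hfx : ∀ x : U.X, T.act h (T.act m (j x)) = T.act m (j x) →
          U.act (m⁻¹ * h * m) x = x := by
        intro x hx
        apply hj.inj
        rw [hj.equi _ hnV]
        exact hn x hx
      have h1 := hfree _ ⟨hnV, hnk⟩ p q (hpqne p q hpq) (hfx p huniq.1) (hfx q huniq.2)
      have h2 : h = m * (m⁻¹ * h * m) * m⁻¹ := by group
      rw [h2, h1]
      group
    · intro n hn u w huw
      obtain ⟨m, hm, p, q, hpq, hpu, hqw, hab⟩ := hlift u w huw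
      obtain ⟨h', hh', hx'⟩ := claim (m⁻¹ * n * m) (M.mul_mem (M.mul_mem (M.inv_mem hm) hn) hm)
      have hhM : m * h' * m⁻¹ ∈ M := M.mul_mem (M.mul_mem hm hh'.1) (M.inv_mem hm)
      have key : ∀ x : U.X, T.act (m * h' * m⁻¹) (T.act m (j x)) = T.act n (T.act m (j x)) := by
        intro x
        rw [← T.act_mul _ hhM m hm, inv_mul_cancel_right, T.act_mul m hm h' hh'.1, hx',
          ← T.act_mul m hm _ (M.mul_mem (M.mul_mem (M.inv_mem hm) hn) hm), ← T.act_mul n hn m hm]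
        congr 1
        group
      refine ⟨m * h' * m⁻¹, ⟨hhM, (MonoidHom.normal_ker π).conj_mem h' hh'.2 m⟩, ?_, ?_⟩
      · rw [← hpu, ← hb₂.equi _ hhM, ← hb₂.equi _ hn, key]
      · rw [← hqw, ← hb₂.equi _ hhM, ← hb₂.equi _ hn, key]
    · refine ⟨{(pr₂ (j x₀), pr₂ (j y₀)), (pr₂ (j y₀), pr₂ (j x₀))}, fun u w huw => ?_⟩
      obtain ⟨m, hm, p, q, hpq, hpu, hqw, hab⟩ := hlift u w huw
      obtain ⟨h, hh, hx⟩ := claim m hm
      have hhi : h⁻¹ ∈ M := M.inv_mem hh.1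
      refine ⟨h⁻¹, inv_mem hh, ?_⟩
      have key : ∀ x : U.X, T.act h⁻¹ (T.act m (j x)) = j x := by
        intro x
        rw [← hx, T.act_inv_act hh.1]
      rw [← hpu, ← hqw, ← hb₂.equi _ hhi, ← hb₂.equi _ hhi, key, key, Finset.mem_insert,
        Finset.mem_singleton]
      rcases hpq with ⟨rfl, rfl⟩ | ⟨rfl, rfl⟩
      · exact Or.inl rfl
      · exact Or.inr rfl
  refine ⟨S, hSsplit, ?_, ?_⟩
  · -- nontrivial
    by_contra hcon
    unfold MTree.Nontriv at hcon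
    push Not at hcon
    obtain ⟨z, hzz⟩ := hcon
    obtain ⟨zB, hzB, hzB'⟩ := hz B
    obtain ⟨zC, hzC, hzC'⟩ := hz C
    have hcom : ∀ (D : Ω) (zD : T.X), (∀ d ∈ (D : Subgroup Γ), T.act d zD = zD) → z = pr₂ zD := by
      intro D zD hD
      obtain ⟨d, hd, hd1⟩ := hex D D.2
      have hdM := hle D D.2 hd
      refine hSsplit.fixed_unique hdM hd1 (hzz d hdM) ?_
      rw [← hb₂.equi d hdM.1, hD d hd]
    have heq : pr₂ zB = pr₂ zC := by rw [← hcom B zB hzB', ← hcom C zC hzC']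
    -- the two vertices are adjacent to the fibre
    obtain ⟨zB2, hzB2, hadjB⟩ := hedge _ (hnb' B hBfix)
    obtain ⟨zC2, hzC2, hadjC⟩ := hedge _ (hnb' C hCfix)
    rw [hat1] at hadjB hadjC
    rw [hpt _ (hnorb B) zB2 zB hzB2 hzB] at hadjB
    rw [hpt _ (hnorb C) zC2 zC hzC2 hzC] at hadjC
    have hvB : pr zB ≠ v := by
      rw [hzB]
      intro h
      exact hnorb B ⟨1, M.one_mem, by rw [T₁.act_one, h]⟩
    have hvC : pr zC ≠ v := by
      rw [hzC]
      intro h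
      exact hnorb C ⟨1, M.one_mem, by rw [T₁.act_one, h]⟩
    have hbtw : ∀ (z' : T.X) (a b : U.X), pr z' ≠ v → T.G.Adj (j a) z' →
        T.G.dist z' (j b) = 1 + T.G.dist (j a) (j b) := by
      intro z' a b hz' had
      rcases TG.adj_dist T.tree had (j b) with h | h
      · exfalso
        apply hz'
        refine hb.conv v (j a) (hprj a) (j b) (hprj b) z' ?_
        unfold TG.Btw
        rw [SimpleGraph.dist_eq_one_iff_adj.2 had]
        omega
      · omega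
    have d1 := hbtw zB (ι B) (ι C) hvB hadjB
    have d2 := hbtw zC (ι C) (ι B) hvC hadjC
    have dBadj : T.G.dist zB (j (ι B)) = 1 := by
      rw [SimpleGraph.dist_comm]
      exact SimpleGraph.dist_eq_one_iff_adj.2 hadjB
    have dCadj : T.G.dist (j (ι C)) zC = 1 := SimpleGraph.dist_eq_one_iff_adj.2 hadjC
    have b1 : T.Btw zB (j (ι B)) (j (ι C)) := by
      show T.G.dist _ _ + _ = _
      omega
    have b2 : T.Btw (j (ι B)) (j (ι C)) zC := by
      show T.G.dist _ _ + _ = _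
      rw [SimpleGraph.dist_comm (u := j (ι B)) (v := zC), SimpleGraph.dist_comm (u := j (ι B))]
      omega
    have b3 := TG.btw_glue T.tree b1 b2 (fun h => hιBC (hj.inj h))
    have b4 : T.Btw zB (j (ι B)) zC := b3.1
    have b5 : T.Btw zB (j y₀) zC := by
      have c1 : T.G.dist zB (j (ι B)) + T.G.dist (j (ι B)) zC = T.G.dist zB zC := b3.1
      have c2 : T.G.dist (j (ι B)) (j (ι C)) + T.G.dist (j (ι C)) zC = T.G.dist (j (ι B)) zC := b2
      have c3 : T.G.dist (j (ι B)) (j y₀) + T.G.dist (j y₀) (j (ι C)) =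
          T.G.dist (j (ι B)) (j (ι C)) := by
        rw [hj.dist, hj.dist, hj.dist, ← hx₀, SimpleGraph.dist_eq_one_iff_adj.2 hxy, hx₀]
        omega
      have t1 := T.tree.1.dist_triangle (u := zB) (v := j (ι B)) (w := j y₀)
      have t2 := T.tree.1.dist_triangle (u := j y₀) (v := j (ι C)) (w := zC)
      have t3 := T.tree.1.dist_triangle (u := zB) (v := j y₀) (w := zC)
      show T.G.dist _ _ + _ = _
      omega
    have h1 := (hb₂.pr_eq_iff zB zC).1 heq (j x₀) (j y₀) hTadj (by rw [hx₀]; exact b4) b5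
    refine (hK (j x₀) (j y₀) hTadj).2 ?_ h1
    exact ⟨1, M.one_mem, x₀, y₀, Or.inl ⟨rfl, rfl⟩, (T.act_one _).symm, (T.act_one _).symm⟩
  · intro D hD
    obtain ⟨z, -, hz'⟩ := hz ⟨D, hD⟩
    exact hb₂.ell (fun d hd => (hle D hD hd).1) ⟨z, fun d hd => hz' d hd⟩

end Pool.Agent.Lib.MP_6567fb_al
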