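import Pool.Agent.Lib.MP_6567fb_al.K42b
import Pool.Agent.Lib.MP_6567fb_al.K41c
import Pool.Agent.Lib.MP_6567fb_al.K30b
import Pool.Agent.Lib.MP_6567fb_al.K27

/-!
# MP_6567fb_al, module K43

Theorem K.  Ω proper; Ω' := maximal proper family with FamLe Ω Ω' (periph_max for PP := {Ω' proper : FamLe Ω Ω'}).  all_bounded (K27): IsBdd π (Mg π M g) Ω' for all g.  Ω' = ∅: Ω = ∅, K30b.omega_empty.  Ω' ≠ ∅: Gr g from ograph_exists, sg_tree, final_split: splitting rel Ω', so rel Ω (FamLe).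
bounded_split: the non-empty case separately.
-/

set_option autoImplicit false

open scoped Pointwise

namespace Pool.Agent.Lib.MP_6567fb_al

open MTree
variable {Γ G : Type} [Group Γ] [Group G] {π : Γ →* G}

theorem bounded_split (hc : Ctx π) {M : Subgroup Γ} (hM : Full π M) {Ω : Set (Subgroup Γ)}
    (hΩ : IsProper π.ker M Ω) (hne : Ω.Nonempty) (hb : ∀ g, IsBdd π (Mg π M g) Ω) :
    ∃ T : MTree M, T.IsSplitting π.ker ∧ T.Nontriv π.ker ∧ T.Rel Ω := by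
  choose Gr hGr using fun g => ograph_exists hc hne (hb g)
  exact final_split hc hM hΩ hne (hGr 1) (sg_tree hc hM hΩ hne Gr hGr)

theorem theoremK (hc : Ctx π) : TheoremK π := by
  intro M Ω hM hΩ hrk
  obtain ⟨Ω', hΩ', hmax⟩ := periph_max hc hM.toLoc {Ω' | IsProper π.ker M Ω' ∧ FamLe Ω Ω'}
    ⟨Ω, hΩ, fun B hB => ⟨B, hB, le_refl B⟩⟩ (fun Ω' h => h.1.periph)
  obtain ⟨hP', hle⟩ := hΩ'
  have hb : ∀ g, IsBdd π (Mg π M g) Ω' := by
    intro g
    refine all_bounded hc hM hP' (fun Ω'' h'' hle'' => hmax Ω'' ⟨h'', ?_⟩ hle'') g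
    intro B hB
    obtain ⟨B', hB', h1⟩ := hle B hB
    obtain ⟨B'', hB'', h2⟩ := hle'' B' hB'
    exact ⟨B'', hB'', h1.trans h2⟩
  rcases Set.eq_empty_or_nonempty Ω' with he | hne
  · subst he
    obtain ⟨T, h1, h2⟩ := omega_empty hc hM hrk hb
    refine ⟨T, h1, h2, ?_⟩
    intro B hB
    obtain ⟨B', hB', -⟩ := hle B hB
    exact absurd hB' (Set.notMem_empty _)
  · obtain ⟨T, h1, h2, h3⟩ := bounded_split hc hM hP' hne hb
    refine ⟨T, h1, h2, ?_⟩
    intro B hB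
    obtain ⟨B', hB', hBB'⟩ := hle B hB
    obtain ⟨x, hx⟩ := h3 B' hB'
    exact ⟨x, fun d hd => hx d (hBB' hd)⟩

end Pool.Agent.Lib.MP_6567fb_al
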