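import Pool.Agent.Lib.MP_6567fb_al.A.BSI
import Pool.Agent.Lib.MP_6567fb_al.A.Red
import Pool.Agent.Lib.MP_6567fb_al.A.Ctx
import Pool.Agent.Lib.MP_6567fb_al.F8c
import Pool.Agent.Lib.MP_6567fb_al.K43

/-!
# MP_6567fb_al : assembly of the parts A, K, F
-/

set_option autoImplicit false

open scoped Pointwise

namespace Pool.Agent.Lib.MP_6567fb_al

open Pool.MP6567.A

theorem conj_inF {n : ℕ} (G1 : Subgroup (MulAut (FG n))) (g : G1) (x : FG n) :
    (inG G1 g * inF G1 x * (inG G1 g)⁻¹ : Gam G1) = inF G1 ((g : MulAut (FG n)) x) := by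
  have := SemidirectProduct.inl_aut (φ := G1.subtype) g x
  rw [map_inv] at this
  exact this.symm

theorem honest_of_tri {n : ℕ} (G1 : Subgroup (MulAut (FG n))) (g : G1)
    (b : FreeGroupBasis (Fin n) (FG n)) (hb : Tri b (g : MulAut (FG n))) :
    HonestFlag (prG G1) (inG G1 g) := by
  refine ⟨n, b.map (kerEquiv G1), fun i => ?_⟩
  have hbb : ∀ j, ((b.map (kerEquiv G1)) j : Gam G1) = inF G1 (b j) := by
    intro j
    rw [← kerEquiv_coe]
    rfl
  have h3 := map_low G1 b i (fun j => ((b.map (kerEquiv G1)) j : Gam G1)) hbb {k | k < i}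
    (fun k => Iff.rfl)
  obtain ⟨w, hw, v, hv, h4⟩ := hb i
  refine ⟨inF G1 w, ?_, inF G1 v, ?_, ?_⟩
  · rw [h3]; exact ⟨w, hw, rfl⟩
  · rw [h3]; exact ⟨v, hv, rfl⟩
  · rw [hbb, conj_inF, h4, map_mul, map_mul]

theorem tri_of_common {n : ℕ} (G1 : Subgroup (MulAut (FG n)))
    (h : CommonFlag (prG G1) (inG G1)) :
    ∃ b : FreeGroupBasis (Fin n) (FG n), ∀ g ∈ G1, Tri b g := by
  obtain ⟨n', b, hb⟩ := h
  obtain rfl : n' = n := basis_card (kerEquiv G1) b
  refine ⟨b.map (kerEquiv G1).symm, fun g hg => ?_⟩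
  have hbb : ∀ j, (b j : Gam G1) = inF G1 ((b.map (kerEquiv G1).symm) j) := by
    intro j
    rw [← kerEquiv_coe]
    have : (b.map (kerEquiv G1).symm) j = (kerEquiv G1).symm (b j) := rfl
    rw [this, MulEquiv.apply_symm_apply]
  intro j
  have h3 := map_low G1 (b.map (kerEquiv G1).symm) j (fun j => (b j : Gam G1)) hbb {k | k < j}
    (fun k => Iff.rfl)
  obtain ⟨w, hw, v, hv, h4⟩ := hb ⟨g, hg⟩ j
  rw [h3] at hw hv
  obtain ⟨w, hw, rfl⟩ := hw
  obtain ⟨v, hv, rfl⟩ := hv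
  refine ⟨w, hw, v, hv, ?_⟩
  rw [hbb, conj_inF, ← map_mul, ← map_mul] at h4
  exact SemidirectProduct.inl_injective h4

theorem mainThm (n : ℕ) (G : Subgroup (MulAut (FreeGroup (Fin n)))) (hG : G.FG)
    (h : ∀ φ ∈ G, ∃ b : FreeGroupBasis (Fin n) (FreeGroup (Fin n)),
        ∃ k : ℕ, 0 < k ∧ ∀ i : Fin n,
          ∃ w ∈ Subgroup.closure (Set.image (fun j => b j) {j : Fin n | j < i}),
          ∃ v ∈ Subgroup.closure (Set.image (fun j => b j) {j : Fin n | j < i}),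
            (φ ^ k) (b i) = w * b i * v) :
      ∃ b : FreeGroupBasis (Fin n) (FreeGroup (Fin n)),
        ∃ H : Subgroup (MulAut (FreeGroup (Fin n))), H ≤ G ∧ (H.subgroupOf G).FiniteIndex ∧
          ∀ φ ∈ H, ∃ k : ℕ, 0 < k ∧ ∀ i : Fin n,
            ∃ w ∈ Subgroup.closure (Set.image (fun j => b j) {j : Fin n | j < i}),
            ∃ v ∈ Subgroup.closure (Set.image (fun j => b j) {j : Fin n | j < i}),
              (φ ^ k) (b i) = w * b i * v := by
  have hT := G3_tri G h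
  have hc : Ctx (prG (G3 G)) := gam_ctx (G3 G) (G3_fg G hG) (fun g hg => hg.2) hT
  have hf : ∀ g : G3 G, HonestFlag (prG (G3 G)) (inG (G3 G) g) := fun g => by
    obtain ⟨b, hb⟩ := hT g g.2
    exact honest_of_tri _ g b hb
  obtain ⟨b, hb⟩ := tri_of_common (G3 G)
    (common_flag hc (theoremK hc) (fun g => SemidirectProduct.rightHom_inr g) (bstrees (G3 G)) hf)
  exact final G b hb

end Pool.Agent.Lib.MP_6567fb_al
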