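import Pool.Agent.Lib.MP_6567fb_al.T13a

/-!
# MP_6567fb_al, module T13b

Converse.  N₀ := closure of the elliptic elements of N (normal).  T/N₀ is a tree (T13a for N₀); the map T/N₀ → X' is locally
injective by hedge (the element n fixes x so is in N₀), so injective by local_inj; so n x is in N₀ x for n in N: n in N₀.
-/

set_option autoImplicit false

open scoped Pointwise

namespace Pool.Agent.Lib.MP_6567fb_al

open MTree
namespace MTree
variable {Γ : Type} [Group Γ] {M : Subgroup Γ}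

theorem gen_of_quotient_tree (T : MTree M) (hni : T.NoInv) (N : Subgroup Γ) (hN : N ≤ M)
    (hn : ∀ m ∈ M, ∀ n ∈ N, m * n * m⁻¹ ∈ N) {X' : Type} {G' : SimpleGraph X'} (hG' : G'.IsTree)
    (pr : T.X → X') (hadj : ∀ x y, T.G.Adj x y → G'.Adj (pr x) (pr y))
    (hor : ∀ n ∈ N, ∀ x, pr (T.act n x) = pr x)
    (hedge : ∀ x y y', T.G.Adj x y → T.G.Adj x y' → pr y = pr y' →
      ∃ n ∈ N, T.act n x = x ∧ T.act n y = y') :
    N = Subgroup.closure {n | n ∈ N ∧ ∃ x, T.act n x = x} := by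
  classical
  set N₀ := Subgroup.closure {n | n ∈ N ∧ ∃ x, T.act n x = x} with hN₀
  have hle : N₀ ≤ N := (Subgroup.closure_le _).2 fun n h => h.1
  have hell : ∀ n ∈ N, ∀ x, T.act n x = x → n ∈ N₀ :=
    fun n h x hx => Subgroup.subset_closure ⟨h, x, hx⟩
  have hN₀M : N₀ ≤ M := hle.trans hN
  have hnorm : ∀ m ∈ M, ∀ n ∈ N₀, m * n * m⁻¹ ∈ N₀ := by
    intro m hm n hnn
    induction hnn using Subgroup.closure_induction with
    | mem n hnn =>
      obtain ⟨h1, x, hx⟩ := hnn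
      refine hell _ (hn m hm n h1) (T.act m x) ?_
      rw [← T.act_mul _ (hN (hn m hm n h1)) _ hm]
      have : m * n * m⁻¹ * m = m * n := by group
      rw [this, T.act_mul _ hm _ (hN h1), hx]
    | one => simp
    | mul x y _ _ hx hy =>
      have : m * (x * y) * m⁻¹ = (m * x * m⁻¹) * (m * y * m⁻¹) := by group
      rw [this]
      exact N₀.mul_mem hx hy
    | inv x _ hx =>
      have : m * x⁻¹ * m⁻¹ = (m * x * m⁻¹)⁻¹ := by group
      rw [this]
      exact N₀.inv_mem hx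
  have hgen : N₀ = Subgroup.closure {n | n ∈ N₀ ∧ ∃ x, T.act n x = x} := by
    refine le_antisymm ?_ ((Subgroup.closure_le _).2 fun n h => h.1)
    rw [hN₀]
    refine Subgroup.closure_mono ?_
    rintro n ⟨h1, x, hx⟩
    exact ⟨hell n h1 x hx, x, hx⟩
  obtain ⟨T₀, pr₀, hsurj, -, hpr₀, hadj₀, -⟩ := quotient_tree T hni N₀ hN₀M hnorm hgen
  have hwell : ∀ x y, pr₀ x = pr₀ y → pr x = pr y := by
    intro x y h
    obtain ⟨n, h1, rfl⟩ := (hpr₀ x y).1 h
    exact (hor n (hle h1) x).symm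
  choose s hs using hsurj
  let f : T₀.X → X' := fun p => pr (s p)
  have hf : ∀ x, f (pr₀ x) = pr x := fun x => hwell _ _ (hs (pr₀ x))
  have hlift : ∀ x q, T₀.G.Adj (pr₀ x) q → ∃ y, pr₀ y = q ∧ T.G.Adj x y := by
    intro x q h
    rw [← hs q] at h
    obtain ⟨n, h1, h2⟩ := (hadj₀ x (s q)).1 h
    refine ⟨T.act n (s q), ?_, h2⟩
    rw [← (hpr₀ (s q) _).2 ⟨n, h1, rfl⟩, hs q]
  have hfadj : ∀ p q, T₀.G.Adj p q → G'.Adj (f p) (f q) := by
    intro p q h
    rw [← hs p] at h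
    obtain ⟨y, rfl, h2⟩ := hlift _ _ h
    have := hadj _ _ h2
    rw [hf]
    exact this
  have hloc : ∀ p q q', T₀.G.Adj p q → T₀.G.Adj p q' → q ≠ q' → f q ≠ f q' := by
    intro p q q' h1 h2 hne heq
    rw [← hs p] at h1 h2
    obtain ⟨y, rfl, h3⟩ := hlift _ _ h1
    obtain ⟨y', rfl, h4⟩ := hlift _ _ h2
    rw [hf, hf] at heq
    obtain ⟨n, hnN, h5, h6⟩ := hedge _ _ _ h3 h4 heq
    exact hne ((hpr₀ y y').2 ⟨n, hell n hnN _ h5, h6⟩)
  have hdist := TG.local_inj hG' T₀.tree f hfadj hloc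
  have hinj : Function.Injective f := by
    intro p q h
    have h1 := hdist p q
    rw [h, SimpleGraph.dist_self] at h1
    exact (T₀.tree.connected.dist_eq_zero_iff).1 h1.symm
  refine le_antisymm ?_ hle
  intro n hnN
  obtain ⟨x⟩ := T.tree.connected.nonempty
  have h1 : pr₀ (T.act n x) = pr₀ x := hinj (by rw [hf, hf, hor n hnN])
  obtain ⟨k, hk, h2⟩ := (hpr₀ _ _).1 h1
  rw [← T.act_mul _ (hN₀M hk) _ (hN hnN)] at h2
  have h3 : k * n ∈ N₀ := hell _ (N.mul_mem (hle hk) hnN) x h2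
  have := N₀.mul_mem (N₀.inv_mem hk) h3
  rwa [inv_mul_cancel_left] at this

end MTree

end Pool.Agent.Lib.MP_6567fb_al
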