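import Pool.Agent.Lib.MP_6567fb_al.T2a

/-!
# MP_6567fb_al, module T13c

Push forward.
-/

set_option autoImplicit false

open scoped Pointwise

namespace Pool.Agent.Lib.MP_6567fb_al

open MTree
namespace MTree
variable {Γ : Type} [Group Γ] {M : Subgroup Γ}

theorem descend {Γ' : Type} [Group Γ'] (φ : Γ →* Γ') (T : MTree M)
    (htriv : ∀ m ∈ M, φ m = 1 → ∀ x, T.act m x = x) :
    ∃ (T' : MTree (M.map φ)) (e : T.X ≃ T'.X), (∀ x y, T'.G.Adj (e x) (e y) ↔ T.G.Adj x y) ∧
      ∀ m ∈ M, ∀ x, T'.act (φ m) (e x) = e (T.act m x) := by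
  classical
  have hind : ∀ m ∈ M, ∀ k ∈ M, φ m = φ k → ∀ x, T.act m x = T.act k x := by
    intro m hm k hk h x
    have h1 : k⁻¹ * m ∈ M := M.mul_mem (M.inv_mem hk) hm
    have h2 : φ (k⁻¹ * m) = 1 := by rw [map_mul, map_inv, h, inv_mul_cancel]
    have h3 : m = k * (k⁻¹ * m) := by rw [mul_inv_cancel_left]
    rw [h3, T.act_mul k hk _ h1, htriv _ h1 h2]
  let act' : Γ' → T.X → T.X := fun g x =>
    if h : ∃ m ∈ M, φ m = g then T.act h.choose x else x
  have hact : ∀ m ∈ M, ∀ x, act' (φ m) x = T.act m x := by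
    intro m hm x
    have h : ∃ k ∈ M, φ k = φ m := ⟨m, hm, rfl⟩
    simp only [act', dif_pos h]
    exact hind _ h.choose_spec.1 m hm h.choose_spec.2 x
  let T' : MTree (M.map φ) :=
    { X := T.X
      G := T.G
      tree := T.tree
      act := act'
      act_one := fun x => by
        have := hact 1 M.one_mem x
        rw [map_one] at this
        rw [this, T.act_one]
      act_mul := by
        rintro _ ⟨m, hm, rfl⟩ _ ⟨k, hk, rfl⟩ x
        rw [← map_mul, hact _ (M.mul_mem hm hk), hact _ hm, hact _ hk, T.act_mul m hm k hk]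
      act_adj := by
        rintro _ ⟨m, hm, rfl⟩ x y h
        rw [hact _ hm, hact _ hm]
        exact T.act_adj m hm x y h }
  exact ⟨T', Equiv.refl _, fun x y => Iff.rfl, fun m hm x => hact m hm x⟩

end MTree

end Pool.Agent.Lib.MP_6567fb_al
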