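import Pool.Agent.Lib.MP_6567fb_al.T1d
import Pool.Agent.Lib.MP_6567fb_al.T2a

/-!
# MP_6567fb_al, module T17a

hom_ext: choose representatives v(x) of the H-orbits of vertices and d_x in H with d_x v(x) = x.
z(h)(x) := φ_{v(x)}(d_{hx}⁻¹ h d_x) (an element of the stabiliser of v(x)), a cocycle:
z(h h')(x) = z(h)(h'x) + z(h')(x).  For an adjacent pair (x,y) = D(a,b), (a,b) the representative of its orbit,
c₀(x,y) := z(D)(b) - z(D)(a), independent of D by hed; c(x,y) := (c₀(x,y) - c₀(y,x))/2.  Potential u of c (T1d):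
z(h)(x) - u(hx) + u(x) is independent of x (potential_unique) =: χ(h); χ is a
homomorphism, and for s in stab x χ(s) = z(s)(x) = φ_x(s) by heq.
-/

set_option autoImplicit false

open scoped Pointwise

namespace Pool.Agent.Lib.MP_6567fb_al

open MTree
variable {Γ : Type} [Group Γ]

/-- homomorphisms on the vertex groups which are compatible on the edges extend -/
theorem hom_ext {H : Subgroup Γ} (T : MTree H) (φ : T.X → Γ → ℚ)
    (hφ : ∀ x, ∀ s ∈ T.stab x, ∀ t ∈ T.stab x, φ x (s * t) = φ x s + φ x t)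
    (heq : ∀ h ∈ H, ∀ x, ∀ s ∈ T.stab x, φ (T.act h x) (h * s * h⁻¹) = φ x s)
    (hed : ∀ x y, T.G.Adj x y → ∀ s, s ∈ T.stab x → s ∈ T.stab y → φ x s = φ y s) (hni : T.NoInv) :
    ∃ χ : H →* Multiplicative ℚ, ∀ x, ∀ s : H, (s : Γ) ∈ T.stab x →
      χ s = Multiplicative.ofAdd (φ x (s : Γ)) := by
  classical
  have ainv : ∀ h ∈ H, ∀ x, T.act h⁻¹ (T.act h x) = x := fun h hh x => T.act_inv_act hh x
  -- orbit representatives of the vertices
  let S : Setoid T.X :=
    { r := fun x y => ∃ h ∈ H, T.act h x = y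
      iseqv := ⟨fun x => ⟨1, H.one_mem, T.act_one x⟩,
        fun {x y} ⟨h, hh, e⟩ => ⟨h⁻¹, H.inv_mem hh, by rw [← e]; exact ainv h hh x⟩,
        fun {x y z} ⟨h, hh, e⟩ ⟨k, hk, e'⟩ => ⟨k * h, H.mul_mem hk hh, by
          rw [T.act_mul k hk h hh, e, e']⟩⟩ }
  let v : T.X → T.X := fun x => (Quotient.mk S x).out
  have hv : ∀ x, ∃ h ∈ H, T.act h (v x) = x := fun x => Quotient.exact (Quotient.out_eq (Quotient.mk S x))
  have hvh : ∀ h ∈ H, ∀ x, v (T.act h x) = v x := by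
    intro h hh x
    have : Quotient.mk S (T.act h x) = Quotient.mk S x :=
      (Quotient.sound (s := S) (show S.r x (T.act h x) from ⟨h, hh, rfl⟩)).symm
    show (Quotient.mk S (T.act h x)).out = (Quotient.mk S x).out
    rw [this]
  choose d hdH hd using hv
  let Z : Γ → T.X → ℚ := fun h x => φ (v x) ((d (T.act h x))⁻¹ * h * d x)
  have hst : ∀ h ∈ H, ∀ x, (d (T.act h x))⁻¹ * h * d x ∈ T.stab (v x) := by
    intro h hh x
    refine ⟨H.mul_mem (H.mul_mem (H.inv_mem (hdH _)) hh) (hdH _), ?_⟩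
    rw [T.act_mul _ (H.mul_mem (H.inv_mem (hdH _)) hh) _ (hdH _), hd,
      T.act_mul _ (H.inv_mem (hdH _)) _ hh]
    have h1 := hd (T.act h x)
    rw [hvh h hh] at h1
    have h2 := ainv _ (hdH (T.act h x)) (v x)
    rw [h1] at h2
    exact h2
  have hZ : ∀ h ∈ H, ∀ h' ∈ H, ∀ x, Z (h * h') x = Z h (T.act h' x) + Z h' x := by
    intro h hh h' hh' x
    show φ (v x) ((d (T.act (h * h') x))⁻¹ * (h * h') * d x) =
      φ (v (T.act h' x)) ((d (T.act h (T.act h' x)))⁻¹ * h * d (T.act h' x)) +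
      φ (v x) ((d (T.act h' x))⁻¹ * h' * d x)
    rw [hvh h' hh', T.act_mul h hh h' hh']
    have h1 := hst h hh (T.act h' x)
    rw [hvh h' hh'] at h1
    rw [← hφ _ _ h1 _ (hst h' hh' x)]
    congr 1
    group
  have hZs : ∀ x, ∀ s ∈ T.stab x, Z s x = φ x s := by
    intro x s hs
    have h0 := hst s hs.1 x
    have h1 := heq (d x) (hdH x) (v x) _ h0
    show φ (v x) ((d (T.act s x))⁻¹ * s * d x) = φ x s
    rw [← h1, hd x]
    congr 1
    rw [hs.2]
    group
  -- orbit representatives of pairs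
  let S2 : Setoid (T.X × T.X) :=
    { r := fun x y => ∃ h ∈ H, T.act h x.1 = y.1 ∧ T.act h x.2 = y.2
      iseqv := ⟨fun x => ⟨1, H.one_mem, T.act_one x.1, T.act_one x.2⟩,
        fun {x y} ⟨h, hh, e, e2⟩ => ⟨h⁻¹, H.inv_mem hh, by rw [← e]; exact ainv h hh _,
          by rw [← e2]; exact ainv h hh _⟩,
        fun {x y z} ⟨h, hh, e, e2⟩ ⟨k, hk, e', e2'⟩ => ⟨k * h, H.mul_mem hk hh, by
          rw [T.act_mul k hk h hh, e, e'], by rw [T.act_mul k hk h hh, e2, e2']⟩⟩ }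
  let r : T.X × T.X → T.X × T.X := fun p => (Quotient.mk S2 p).out
  have hr : ∀ p : T.X × T.X, ∃ h ∈ H, T.act h (r p).1 = p.1 ∧ T.act h (r p).2 = p.2 :=
    fun p => Quotient.exact (Quotient.out_eq (Quotient.mk S2 p))
  have hrh : ∀ h ∈ H, ∀ x y, r (T.act h x, T.act h y) = r (x, y) := by
    intro h hh x y
    have : Quotient.mk S2 (T.act h x, T.act h y) = Quotient.mk S2 (x, y) :=
      (Quotient.sound (s := S2) (show S2.r (x, y) (T.act h x, T.act h y) from ⟨h, hh, rfl, rfl⟩)).symm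
    show (Quotient.mk S2 (T.act h x, T.act h y)).out = (Quotient.mk S2 (x, y)).out
    rw [this]
  choose D hDH hD1 hD2 using hr
  let c₀ : T.X → T.X → ℚ := fun x y => Z (D (x, y)) (r (x, y)).2 - Z (D (x, y)) (r (x, y)).1
  have hadjr : ∀ x y, T.G.Adj x y → T.G.Adj (r (x, y)).1 (r (x, y)).2 := by
    intro x y h
    rw [← T.adj_act_iff (hDH (x, y)), hD1, hD2]
    exact h
  have hwell : ∀ x y, T.G.Adj x y → ∀ k ∈ H, T.act k (r (x, y)).1 = x → T.act k (r (x, y)).2 = y →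
      Z k (r (x, y)).2 - Z k (r (x, y)).1 = c₀ x y := by
    intro x y hxy k hk h1 h2
    set a := (r (x, y)).1
    set b := (r (x, y)).2
    set E := D (x, y) with hE
    have hEH : E ∈ H := hDH (x, y)
    have e1 : T.act E a = x := hD1 (x, y)
    have e2 : T.act E b = y := hD2 (x, y)
    have ha : T.act (E⁻¹ * k) a = a := by
      rw [T.act_mul _ (H.inv_mem hEH) _ hk, h1, ← e1]; exact ainv E hEH a
    have hb : T.act (E⁻¹ * k) b = b := by
      rw [T.act_mul _ (H.inv_mem hEH) _ hk, h2, ← e2]; exact ainv E hEH b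
    have hm : E⁻¹ * k ∈ H := H.mul_mem (H.inv_mem hEH) hk
    have ha' : E⁻¹ * k ∈ T.stab a := ⟨hm, ha⟩
    have hb' : E⁻¹ * k ∈ T.stab b := ⟨hm, hb⟩
    have hk' : k = E * (E⁻¹ * k) := by group
    show Z k b - Z k a = Z E b - Z E a
    rw [hk', hZ E hEH _ hm b, hZ E hEH _ hm a, ha, hb, hZs a _ ha', hZs b _ hb',
      hed a b (hadjr x y hxy) _ ha' hb']
    ring
  have hc₀ : ∀ h ∈ H, ∀ x y, T.G.Adj x y →
      c₀ (T.act h x) (T.act h y) = Z h y - Z h x + c₀ x y := by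
    intro h hh x y hxy
    have hxy' := T.act_adj h hh x y hxy
    have hm : h * D (x, y) ∈ H := H.mul_mem hh (hDH _)
    have := hwell (T.act h x) (T.act h y) hxy' (h * D (x, y)) hm
      (by rw [hrh h hh, T.act_mul h hh _ (hDH _), hD1])
      (by rw [hrh h hh, T.act_mul h hh _ (hDH _), hD2])
    rw [← this, hrh h hh, hZ h hh _ (hDH _), hZ h hh _ (hDH _), hD1, hD2]
    show _ = Z h y - Z h x + (Z (D (x, y)) (r (x, y)).2 - Z (D (x, y)) (r (x, y)).1)
    ring
  obtain ⟨u, hu⟩ := TG.potential T.tree (fun x y => (c₀ x y - c₀ y x) / 2)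
    (fun x y _ => by ring)
  have hconst : ∀ h ∈ H, ∀ x y, Z h x - u (T.act h x) + u x = Z h y - u (T.act h y) + u y := by
    intro h hh x y
    refine TG.potential_unique T.tree (fun x => Z h x - u (T.act h x) + u x) ?_ x y
    intro x y hxy
    have h1 := hu x y hxy
    have h2 := hu _ _ (T.act_adj h hh x y hxy)
    have h3 := hc₀ h hh x y hxy
    have h4 := hc₀ h hh y x hxy.symm
    linarith
  obtain ⟨x₀⟩ := T.tree.1.nonempty
  refine ⟨{ toFun := fun h => Multiplicative.ofAdd (Z h x₀ - u (T.act h x₀) + u x₀)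
            map_one' := ?_, map_mul' := ?_ }, ?_⟩
  · have h1 := hZs x₀ 1 (T.stab x₀).one_mem
    have h2 := hφ x₀ 1 (T.stab x₀).one_mem 1 (T.stab x₀).one_mem
    rw [one_mul] at h2
    have h3 : φ x₀ 1 = 0 := by linarith
    rw [← ofAdd_zero]
    congr 1
    rw [Subgroup.coe_one, h1, h3, T.act_one]
    ring
  · intro h k
    rw [← ofAdd_add]
    congr 1
    have h1 := hconst h h.2 x₀ (T.act k x₀)
    rw [Subgroup.coe_mul, hZ h h.2 k k.2, T.act_mul h h.2 k k.2]
    rw [h1]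
    ring
  · intro x s hs
    show Multiplicative.ofAdd (Z s x₀ - u (T.act s x₀) + u x₀) = _
    congr 1
    rw [hconst s s.2 x₀ x, hs.2, hZs x _ hs]
    ring

end Pool.Agent.Lib.MP_6567fb_al
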