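import Pool.Agent.Lib.MP_6567fb_al.T17a
import Pool.Agent.Lib.MP_6567fb_al.T7b
import Pool.Agent.Lib.MP_6567fb_al.T7d

/-!
# MP_6567fb_al, module T17b

Edge bound.  sV representatives of all vertex orbits, s representatives of all edge orbits, n = rk H.  Every stab v is free and
not cyclic, so there are two independent homomorphisms to ℚ; compatible families extend (T17b_ext); count dimensions.
-/

set_option autoImplicit false

open scoped Pointwise

namespace Pool.Agent.Lib.MP_6567fb_al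

open MTree
variable {Γ G : Type} [Group Γ] [Group G] {π : Γ →* G}

/-- two independent homomorphisms of a non-cyclic subgroup of a free group -/
theorem T17b_two {F D : Subgroup Γ} {n : ℕ} (b : FreeGroupBasis (Fin n) F) (hD : D ≤ F)
    (hnc : ∀ z, D ≠ Subgroup.zpowers z) :
    ∃ q : (Fin 2 → ℚ) →ₗ[ℚ] (Additive D →+ ℚ), Function.Injective q := by
  classical
  have : IsFreeGroup F := ⟨⟨_, ⟨b⟩⟩⟩
  let e : D.subgroupOf F ≃* D := Subgroup.subgroupOfEquivOfLe hD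
  have h2 : IsFreeGroup D := IsFreeGroup.ofMulEquiv e
  let X := IsFreeGroup.Generators D
  by_cases hX : ∃ i j : X, i ≠ j
  · obtain ⟨i, j, hij⟩ := hX
    let φ : X → (Additive D →+ ℚ) := fun i => (IsFreeGroup.lift (G := D)
      (fun k => Multiplicative.ofAdd (if k = i then (1 : ℚ) else 0))).toAdditiveLeft
    have hφ : ∀ i k : X, φ i (Additive.ofMul (IsFreeGroup.of k)) = if k = i then 1 else 0 := by
      intro i k
      exact congrArg Multiplicative.toAdd (IsFreeGroup.lift_of (G := D)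
        (fun k => Multiplicative.ofAdd (if k = i then (1 : ℚ) else 0)) k)
    let q : (Fin 2 → ℚ) →ₗ[ℚ] (Additive D →+ ℚ) :=
      { toFun := fun c => c 0 • φ i + c 1 • φ j
        map_add' := fun c c' => by
          refine DFunLike.ext _ _ fun d => ?_
          show (c 0 + c' 0) * φ i d + (c 1 + c' 1) * φ j d =
            c 0 * φ i d + c 1 * φ j d + (c' 0 * φ i d + c' 1 * φ j d)
          ring
        map_smul' := fun a c => by
          refine DFunLike.ext _ _ fun d => ?_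
          show (a * c 0) * φ i d + (a * c 1) * φ j d = a * (c 0 * φ i d + c 1 * φ j d)
          ring }
    have hq : ∀ c d, q c d = c 0 * φ i d + c 1 * φ j d := fun _ _ => rfl
    refine ⟨q, fun c c' h => ?_⟩
    have e1 := DFunLike.congr_fun h (Additive.ofMul (IsFreeGroup.of i))
    have e2 := DFunLike.congr_fun h (Additive.ofMul (IsFreeGroup.of j))
    rw [hq, hq, hφ, hφ, if_pos rfl, if_neg hij] at e1
    rw [hq, hq, hφ, hφ, if_pos rfl, if_neg (Ne.symm hij)] at e2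
    funext k
    fin_cases k
    · simpa using e1
    · simpa using e2
  · exfalso
    push Not at hX
    have hcl : ∃ w : FreeGroup X, Subgroup.zpowers w = ⊤ := by
      by_cases hne : Nonempty X
      · obtain ⟨i⟩ := hne
        refine ⟨FreeGroup.of i, ?_⟩
        rw [eq_top_iff, ← FreeGroup.closure_range_of, Subgroup.closure_le]
        rintro _ ⟨k, rfl⟩
        rw [hX k i]
        exact Subgroup.mem_zpowers _
      · refine ⟨1, ?_⟩
        rw [eq_top_iff, ← FreeGroup.closure_range_of, Subgroup.closure_le]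
        rintro _ ⟨k, rfl⟩
        exact absurd ⟨k⟩ hne
    obtain ⟨w, hw⟩ := hcl
    let z : D := IsFreeGroup.mulEquiv D w
    refine hnc (z : Γ) ?_
    ext g
    constructor
    · intro hg
      have h1 : (IsFreeGroup.mulEquiv D).symm ⟨g, hg⟩ ∈ Subgroup.zpowers w := by
        rw [hw]; exact Subgroup.mem_top _
      obtain ⟨k, hk⟩ := Subgroup.mem_zpowers_iff.1 h1
      have h3 : z ^ k = ⟨g, hg⟩ := by
        rw [← map_zpow, hk, MulEquiv.apply_symm_apply]
      rw [Subgroup.mem_zpowers_iff]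
      exact ⟨k, congrArg Subtype.val h3⟩
    · rintro ⟨k, rfl⟩
      exact (z ^ k).2

/-- equivariance of the extended functions -/
theorem T17b_equi {H : Subgroup Γ} (T : MTree H) (sV : Finset T.X)
    (hV : ∀ v ∈ sV, ∀ w ∈ sV, ∀ d ∈ H, T.act d v = w → v = w)
    (rep : T.X → T.X) (d : T.X → Γ) (hrep : ∀ x, rep x ∈ sV)
    (hd : ∀ x, d x ∈ H) (hact : ∀ x, T.act (d x) (rep x) = x) (Ψ : T.X → Γ → ℚ)
    (hadd : ∀ v ∈ sV, ∀ g ∈ T.stab v, ∀ g' ∈ T.stab v, Ψ v (g * g') = Ψ v g + Ψ v g') :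
    (∀ x, ∀ s ∈ T.stab x, ∀ t ∈ T.stab x, Ψ (rep x) ((d x)⁻¹ * (s * t) * d x) =
      Ψ (rep x) ((d x)⁻¹ * s * d x) + Ψ (rep x) ((d x)⁻¹ * t * d x)) ∧
    ∀ h ∈ H, ∀ x, ∀ s ∈ T.stab x,
      Ψ (rep (T.act h x)) ((d (T.act h x))⁻¹ * (h * s * h⁻¹) * d (T.act h x)) =
        Ψ (rep x) ((d x)⁻¹ * s * d x) := by
  have hconj : ∀ v ∈ sV, ∀ g ∈ T.stab v, ∀ t ∈ T.stab v, Ψ v (g * t * g⁻¹) = Ψ v t := by
    intro v hv g hg t ht
    have h1 := hadd v hv (g * t * g⁻¹)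
      ((T.stab v).mul_mem ((T.stab v).mul_mem hg ht) ((T.stab v).inv_mem hg)) g hg
    rw [inv_mul_cancel_right, hadd v hv g hg t ht] at h1
    linarith
  have hinvd : ∀ x, T.act (d x)⁻¹ x = rep x := by
    intro x
    have := T.act_inv_act (hd x) (rep x)
    rwa [hact x] at this
  have hmem : ∀ x, ∀ s ∈ T.stab x, (d x)⁻¹ * s * d x ∈ T.stab (rep x) := by
    intro x s hs
    refine ⟨H.mul_mem (H.mul_mem (H.inv_mem (hd x)) hs.1) (hd x), ?_⟩
    rw [T.act_mul _ (H.mul_mem (H.inv_mem (hd x)) hs.1) _ (hd x), hact,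
      T.act_mul _ (H.inv_mem (hd x)) _ hs.1, hs.2, hinvd]
  constructor
  · intro x s hs t ht
    have h1 := hadd (rep x) (hrep x) _ (hmem x s hs) _ (hmem x t ht)
    rw [← h1]
    congr 1
    group
  · intro h hh x s hs
    have hr : rep (T.act h x) = rep x := by
      symm
      refine hV _ (hrep x) _ (hrep _) ((d (T.act h x))⁻¹ * (h * d x))
        (H.mul_mem (H.inv_mem (hd _)) (H.mul_mem hh (hd x))) ?_
      rw [T.act_mul _ (H.inv_mem (hd _)) _ (H.mul_mem hh (hd x)), T.act_mul _ hh _ (hd x), hact,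
        hinvd]
    rw [hr]
    have hg : (d (T.act h x))⁻¹ * h * d x ∈ T.stab (rep x) := by
      refine ⟨H.mul_mem (H.mul_mem (H.inv_mem (hd _)) hh) (hd x), ?_⟩
      rw [mul_assoc, T.act_mul _ (H.inv_mem (hd _)) _ (H.mul_mem hh (hd x)),
        T.act_mul _ hh _ (hd x), hact, hinvd, hr]
    have h1 := hconj (rep x) (hrep x) _ hg _ (hmem x s hs)
    rw [← h1]
    congr 1
    group

/-- extension of homomorphisms given on representatives, cyclic edge groups -/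
theorem T17b_ext {H : Subgroup Γ} (T : MTree H) (hni : T.NoInv) (sV : Finset T.X)
    (hV : ∀ v ∈ sV, ∀ w ∈ sV, ∀ d ∈ H, T.act d v = w → v = w)
    (rep : T.X → T.X) (d : T.X → Γ) (hrep : ∀ x, rep x ∈ sV)
    (hd : ∀ x, d x ∈ H) (hact : ∀ x, T.act (d x) (rep x) = x) (Ψ : T.X → Γ → ℚ)
    (hadd : ∀ v ∈ sV, ∀ g ∈ T.stab v, ∀ g' ∈ T.stab v, Ψ v (g * g') = Ψ v g + Ψ v g')
    (sE : Finset (T.X × T.X))
    (hEc : ∀ x y, T.G.Adj x y → ∃ e ∈ sE, ∃ d ∈ H, (T.act d e.1 = x ∧ T.act d e.2 = y) ∨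
        (T.act d e.1 = y ∧ T.act d e.2 = x))
    (z : T.X × T.X → Γ) (hz : ∀ e ∈ sE, T.stab e.1 ⊓ T.stab e.2 = Subgroup.zpowers (z e))
    (hed : ∀ e ∈ sE, Ψ (rep e.1) ((d e.1)⁻¹ * z e * d e.1) =
      Ψ (rep e.2) ((d e.2)⁻¹ * z e * d e.2)) :
    ∃ χ : Additive H →+ ℚ, ∀ v ∈ sV, ∀ s : H, (s : Γ) ∈ T.stab v →
      χ (Additive.ofMul s) = Ψ v s := by
  obtain ⟨hθa, hθe⟩ := T17b_equi T sV hV rep d hrep hd hact Ψ hadd
  have hpow : ∀ x, ∀ s ∈ T.stab x, ∀ k : ℤ, Ψ (rep x) ((d x)⁻¹ * s ^ k * d x) =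
      k * Ψ (rep x) ((d x)⁻¹ * s * d x) := by
    intro x s hs k
    let f : T.stab x →* Multiplicative ℚ :=
      MonoidHom.mk' (fun s => Multiplicative.ofAdd (Ψ (rep x) ((d x)⁻¹ * (s : Γ) * d x)))
        (fun s t => by
          show Multiplicative.ofAdd (Ψ (rep x) ((d x)⁻¹ * ((s : Γ) * (t : Γ)) * d x)) = _
          rw [hθa x s s.2 t t.2]
          rfl)
    have h1 := map_zpow f ⟨s, hs⟩ k
    have h2 := congrArg Multiplicative.toAdd h1
    rw [toAdd_zpow] at h2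
    have h3 : Ψ (rep x) ((d x)⁻¹ * s ^ k * d x) = k • Ψ (rep x) ((d x)⁻¹ * s * d x) := h2
    rw [h3, zsmul_eq_mul]
  have hed1 : ∀ e ∈ sE, ∀ s, s ∈ T.stab e.1 → s ∈ T.stab e.2 →
      Ψ (rep e.1) ((d e.1)⁻¹ * s * d e.1) = Ψ (rep e.2) ((d e.2)⁻¹ * s * d e.2) := by
    intro e he s h1 h2
    have h3 : s ∈ T.stab e.1 ⊓ T.stab e.2 := ⟨h1, h2⟩
    rw [hz e he, Subgroup.mem_zpowers_iff] at h3
    obtain ⟨k, rfl⟩ := h3
    have h4 : z e ∈ T.stab e.1 ⊓ T.stab e.2 := by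
      rw [hz e he]; exact Subgroup.mem_zpowers _
    rw [hpow e.1 (z e) h4.1, hpow e.2 (z e) h4.2, hed e he]
  refine T16a_ext T hni sV hV rep d hrep hd hact Ψ hadd fun x y hxy s hsx hsy => ?_
  obtain ⟨e, he, h, hh, h'⟩ := hEc x y hxy
  have hst : ∀ w, s ∈ T.stab (T.act h w) → h⁻¹ * s * h ∈ T.stab w := by
    intro w hw
    refine ⟨H.mul_mem (H.mul_mem (H.inv_mem hh) hw.1) hh, ?_⟩
    rw [T.act_mul _ (H.mul_mem (H.inv_mem hh) hw.1) _ hh, T.act_mul _ (H.inv_mem hh) _ hw.1, hw.2,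
      T.act_inv_act hh]
  have hgr : h * (h⁻¹ * s * h) * h⁻¹ = s := by group
  rcases h' with ⟨rfl, rfl⟩ | ⟨rfl, rfl⟩
  · have h1 := hθe h hh e.1 _ (hst _ hsx)
    have h2 := hθe h hh e.2 _ (hst _ hsy)
    rw [hgr] at h1 h2
    rw [h1, h2]
    exact hed1 e he _ (hst _ hsx) (hst _ hsy)
  · have h1 := hθe h hh e.1 _ (hst _ hsy)
    have h2 := hθe h hh e.2 _ (hst _ hsx)
    rw [hgr] at h1 h2
    rw [h1, h2]
    exact (hed1 e he _ (hst _ hsy) (hst _ hsx)).symm

theorem edge_bound (hc : Ctx π) {H : Subgroup Γ} (hH : IsFactor π.ker π.ker H) (T : MTree H)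
    (hni : T.NoInv)
    (hcyc : ∀ x y, T.G.Adj x y → ∃ z, z ≠ 1 ∧ T.stab x ⊓ T.stab y = Subgroup.zpowers z)
    (hnc : ∀ x, ∀ z, T.stab x ≠ Subgroup.zpowers z)
    (hco : ∃ S : Finset (T.X × T.X), ∀ x y, T.G.Adj x y → ∃ h ∈ H, (T.act h x, T.act h y) ∈ S)
    (sE : Finset (T.X × T.X)) (hE0 : ∀ e ∈ sE, T.G.Adj e.1 e.2)
    (hE : ∀ e ∈ sE, ∀ e' ∈ sE, ∀ d ∈ H, ((T.act d e.1 = e'.1 ∧ T.act d e.2 = e'.2) ∨
      (T.act d e.1 = e'.2 ∧ T.act d e.2 = e'.1)) → e = e') :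
    sE.card ≤ 2 * rk H := by
  classical
  have hfg : H.FG := fac_fg hc hH
  have hle : H ≤ π.ker := fac_le hH
  have := T16a_fd hfg
  obtain ⟨sV, hV, hV'⟩ := T16a_vreps T hco
  obtain ⟨s, hs0, hs, hEc, hEm⟩ := T16a_ereps T hco
  refine (hEm sE hE0 hE).trans ?_
  choose rep hrep d hd hact using hV'
  obtain ⟨X, hX, hXk⟩ := T16a_cross T hni sV s rep d hrep hd hact hs0 hs
  obtain ⟨n, ⟨b⟩⟩ := hc.free
  choose q hq using fun v : T.X => T17b_two b (D := T.stab v) (fun s hs => hle hs.1) (hnc v)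
  choose z hz1 hz using hcyc
  let zz : T.X × T.X → Γ := fun e => if h : T.G.Adj e.1 e.2 then z e.1 e.2 h else 1
  have hzz : ∀ e ∈ s, T.stab e.1 ⊓ T.stab e.2 = Subgroup.zpowers (zz e) := by
    intro e he
    have h1 : zz e = z e.1 e.2 (hs0 e he) := dif_pos (hs0 e he)
    rw [h1, hz]
  -- restriction
  let res : ∀ v : sV, (Additive H →+ ℚ) →ₗ[ℚ] (Additive (T.stab v) →+ ℚ) := fun v =>
    { toFun := fun χ =>
        { toFun := fun g => χ (Additive.ofMul ⟨((Additive.toMul g : T.stab (v : T.X)) : Γ),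
            (Additive.toMul g).2.1⟩)
          map_zero' := χ.map_zero
          map_add' := fun a b => by rw [← χ.map_add]; rfl }
      map_add' := fun _ _ => rfl
      map_smul' := fun _ _ => rfl }
  let R : (Additive H →+ ℚ) →ₗ[ℚ] (∀ v : sV, (Additive (T.stab v) →+ ℚ)) := LinearMap.pi res
  have hR : ∀ χ v, R χ v = res v χ := fun _ _ => rfl
  let Ψ : (sV → Fin 2 → ℚ) → T.X → Γ → ℚ := fun c v g =>
    if h : v ∈ sV ∧ g ∈ T.stab v then q v (c ⟨v, h.1⟩) (Additive.ofMul ⟨g, h.2⟩) else 0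
  have hΨ : ∀ c v (hv : v ∈ sV) g (hg : g ∈ T.stab v),
      Ψ c v g = q v (c ⟨v, hv⟩) (Additive.ofMul ⟨g, hg⟩) := fun c v hv g hg => dif_pos ⟨hv, hg⟩
  have hΨadd : ∀ c c' v g, Ψ (c + c') v g = Ψ c v g + Ψ c' v g := by
    intro c c' v g
    by_cases h : v ∈ sV ∧ g ∈ T.stab v
    · rw [hΨ _ v h.1 g h.2, hΨ _ v h.1 g h.2, hΨ _ v h.1 g h.2, Pi.add_apply, map_add]
      rfl
    · simp only [Ψ, dif_neg h, add_zero]
  have hΨsmul : ∀ (a : ℚ) c v g, Ψ (a • c) v g = a * Ψ c v g := by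
    intro a c v g
    by_cases h : v ∈ sV ∧ g ∈ T.stab v
    · rw [hΨ _ v h.1 g h.2, hΨ _ v h.1 g h.2, Pi.smul_apply, map_smul]
      rfl
    · simp only [Ψ, dif_neg h, mul_zero]
  let W : (sV → Fin 2 → ℚ) →ₗ[ℚ] (s → ℚ) :=
    { toFun := fun c e => Ψ c (rep e.1.1) ((d e.1.1)⁻¹ * zz e * d e.1.1) -
        Ψ c (rep e.1.2) ((d e.1.2)⁻¹ * zz e * d e.1.2)
      map_add' := fun c c' => by
        funext e
        simp only [Pi.add_apply, hΨadd]
        ring
      map_smul' := fun a c => by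
        funext e
        simp only [Pi.smul_apply, hΨsmul, RingHom.id_apply, smul_eq_mul]
        ring }
  let Q : (sV → Fin 2 → ℚ) →ₗ[ℚ] (∀ v : sV, (Additive (T.stab v) →+ ℚ)) :=
    LinearMap.pi fun v => (q v).comp (LinearMap.proj v)
  have hQ : ∀ c v, Q c v = q v (c v) := fun _ _ => rfl
  have hQi : Function.Injective Q := by
    intro c c' h
    funext v
    exact hq v (congrFun h v)
  have hWR : (LinearMap.ker W).map Q ≤ LinearMap.range R := by
    rintro _ ⟨c, hc', rfl⟩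
    have hc'' : W c = 0 := hc'
    obtain ⟨χ, hχ⟩ := T17b_ext T hni sV hV rep d hrep hd hact (Ψ c) (by
        intro v hv g hg g' hg'
        rw [hΨ c v hv _ ((T.stab v).mul_mem hg hg'), hΨ c v hv g hg, hΨ c v hv g' hg', ← map_add]
        rfl) s hEc zz hzz (fun e he => sub_eq_zero.1 (congrFun hc'' ⟨e, he⟩))
    refine ⟨χ, ?_⟩
    funext v
    ext g
    rw [hR, hQ]
    have h1 := hχ v v.2 ⟨((Additive.toMul g : T.stab (v : T.X)) : Γ), (Additive.toMul g).2.1⟩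
      (Additive.toMul g).2
    have h2 := hΨ c v v.2 ((Additive.toMul g : T.stab (v : T.X)) : Γ) (Additive.toMul g).2
    exact h1.trans h2
  have hXR : LinearMap.range X ≤ LinearMap.ker R := by
    rintro _ ⟨c, rfl⟩
    rw [LinearMap.mem_ker]
    funext v
    ext g
    rw [hR]
    exact hX c v ⟨((Additive.toMul g : T.stab (v : T.X)) : Γ), (Additive.toMul g).2.1⟩
      (Additive.toMul g).2
  have h1 := LinearMap.finrank_range_add_finrank_ker R
  have h2 := LinearMap.finrank_range_add_finrank_ker X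
  have h3 := LinearMap.finrank_range_add_finrank_ker W
  have h4 := Submodule.finrank_mono hXR
  have h5 := Submodule.finrank_mono hWR
  have h6 := LinearEquiv.finrank_eq (Submodule.equivMapOfInjective Q hQi (LinearMap.ker W))
  have h7 := Submodule.finrank_le (LinearMap.range W)
  rw [Module.finrank_fintype_fun_eq_card, Fintype.card_coe] at h2 h7
  have h8 : Module.finrank ℚ (sV → Fin 2 → ℚ) = 2 * sV.card := by
    rw [Module.finrank_pi_fintype]
    simp [mul_comm]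
  rw [h8] at h3
  have h9 : rk H = Module.finrank ℚ (Additive H →+ ℚ) := rfl
  omega

end Pool.Agent.Lib.MP_6567fb_al
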