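import Pool.Agent.Lib.MP_6567fb_al.Defs2

/-!
# MP_6567fb_al, module T1a

Geometry of trees 1.
-/

set_option autoImplicit false

open scoped Pointwise

namespace Pool.Agent.Lib.MP_6567fb_al

open MTree
namespace TG
variable {X : Type} {G : SimpleGraph X}

/-- adjacent vertices have distances to any vertex differing by exactly one -/
theorem adj_dist (hG : G.IsTree) {x y : X} (h : G.Adj x y) (z : X) :
    G.dist x z = G.dist y z + 1 ∨ G.dist y z = G.dist x z + 1 := by
  have h1 := hG.dist_eq_dist_add_one_of_adj z h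
  rw [G.dist_comm (u := z), G.dist_comm (u := z) (v := y)] at h1
  exact h1

theorem dist_eq_one {x y : X} (h : G.Adj x y) : G.dist x y = 1 :=
  SimpleGraph.dist_eq_one_iff_adj.2 h

theorem dist_tri (hG : G.IsTree) (x y z : X) : G.dist x z ≤ G.dist x y + G.dist y z :=
  hG.connected.dist_triangle

theorem dist_zero (hG : G.IsTree) {x y : X} (h : G.dist x y = 0) : x = y :=
  hG.connected.dist_eq_zero_iff.1 h

theorem exists_next (hG : G.IsTree) {x z : X} (h : x ≠ z) :
    ∃ y, G.Adj x y ∧ G.dist y z + 1 = G.dist x z := by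
  obtain ⟨p, hp⟩ := hG.connected.exists_walk_length_eq_dist x z
  cases p with
  | nil => exact absurd rfl h
  | @cons _ y _ hxy q =>
    refine ⟨y, hxy, ?_⟩
    rw [SimpleGraph.Walk.length_cons] at hp
    have h1 := SimpleGraph.dist_le q
    rcases adj_dist hG hxy z with h2 | h2 <;> omega

theorem next_unique (hG : G.IsTree) {x z y y' : X} (hy : G.Adj x y)
    (hyz : G.dist y z + 1 = G.dist x z) (hy' : G.Adj x y') (hyz' : G.dist y' z + 1 = G.dist x z) :
    y = y' := by
  obtain ⟨p, hp⟩ := hG.connected.exists_walk_length_eq_dist y z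
  obtain ⟨p', hp'⟩ := hG.connected.exists_walk_length_eq_dist y' z
  have h1 : (SimpleGraph.Walk.cons hy p).IsPath :=
    SimpleGraph.Walk.isPath_of_length_eq_dist _ (by rw [SimpleGraph.Walk.length_cons]; omega)
  have h2 : (SimpleGraph.Walk.cons hy' p').IsPath :=
    SimpleGraph.Walk.isPath_of_length_eq_dist _ (by rw [SimpleGraph.Walk.length_cons]; omega)
  have h3 := hG.isAcyclic.path_unique ⟨_, h1⟩ ⟨_, h2⟩
  have h4 : SimpleGraph.Walk.cons hy p = SimpleGraph.Walk.cons hy' p' := congrArg Subtype.val h3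
  have h5 := congrArg SimpleGraph.Walk.snd h4
  simpa using h5

/-- the unique neighbour of `x` in the direction of `z` -/
theorem exists_unique_next (hG : G.IsTree) {x z : X} (h : x ≠ z) :
    ∃! y, G.Adj x y ∧ G.dist y z + 1 = G.dist x z := by
  obtain ⟨y, hy, hyz⟩ := exists_next hG h
  exact ⟨y, ⟨hy, hyz⟩, fun y' hy' => next_unique hG hy'.1 hy'.2 hy hyz⟩

theorem btw_symm (hG : G.IsTree) {x y z : X} (h : Btw G x y z) : Btw G z y x := by
  unfold Btw at *
  rw [G.dist_comm (u := z) (v := y), G.dist_comm (u := y) (v := x), G.dist_comm (u := z) (v := x)]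
  omega

theorem btw_trans (hG : G.IsTree) {x y z w : X} (h1 : Btw G x y w) (h2 : Btw G y z w) :
    Btw G x y z ∧ Btw G x z w := by
  unfold Btw at *
  have t1 := dist_tri hG x y z
  have t2 := dist_tri hG x z w
  omega

/-- metric form -/
theorem btw_trans' (hG : G.IsTree) {x y z w : X} (h1 : Btw G x y z) (h2 : Btw G x z w) :
    Btw G x y w ∧ Btw G y z w := by
  unfold Btw at *
  have t1 := dist_tri hG x y w
  have t2 := dist_tri hG y z w
  omega

theorem btw_left (x y : X) : Btw G x x y := by
  simp [Btw]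

theorem btw_right (x y : X) : Btw G x y y := by
  simp [Btw]

theorem btw_next {x y z : X} (h : G.Adj x y) (h2 : G.dist y z + 1 = G.dist x z) : Btw G x y z := by
  unfold Btw
  rw [dist_eq_one h]
  omega

/-- the first step towards a point between -/
theorem next_of_btw (hG : G.IsTree) {x n y z : X} (h : Btw G x y z) (hn : G.Adj x n)
    (hny : G.dist n y + 1 = G.dist x y) : G.dist n z + 1 = G.dist x z := by
  unfold Btw at h
  have t := dist_tri hG n y z
  rcases adj_dist hG hn z with h2 | h2 <;> omega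

theorem btw_point_unique (hG : G.IsTree) {k : ℕ} : ∀ {x z y y' : X}, Btw G x y z → G.dist x y = k →
    Btw G x y' z → G.dist x y' = k → y = y' := by
  induction k with
  | zero =>
    intro x z y y' _ h2 _ h4
    rw [← dist_zero hG h2, ← dist_zero hG h4]
  | succ k ih =>
    intro x z y y' h1 h2 h3 h4
    have hxy : x ≠ y := by
      rintro rfl
      simp at h2
    have hxy' : x ≠ y' := by
      rintro rfl
      simp at h4
    obtain ⟨n, hn, hny⟩ := exists_next hG hxy
    obtain ⟨n', hn', hny'⟩ := exists_next hG hxy'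
    have e1 := next_of_btw hG h1 hn hny
    have e2 := next_of_btw hG h3 hn' hny'
    have e3 := next_unique hG hn e1 hn' e2
    subst e3
    refine ih (x := n) (z := z) ?_ (by omega) ?_ (by omega)
    · unfold Btw at *; omega
    · unfold Btw at *; omega

theorem btw_point_exists (hG : G.IsTree) {k : ℕ} : ∀ {x z : X}, k ≤ G.dist x z →
    ∃ y, Btw G x y z ∧ G.dist x y = k := by
  induction k with
  | zero => exact fun {x z} _ => ⟨x, btw_left x z, by simp⟩
  | succ k ih =>
    intro x z hk
    have hxz : x ≠ z := by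
      rintro rfl
      simp at hk
    obtain ⟨n, hn, hnz⟩ := exists_next hG hxz
    obtain ⟨y, hy1, hy2⟩ := ih (x := n) (z := z) (by omega)
    have h1 := btw_trans hG (btw_next hn hnz) hy1
    refine ⟨y, h1.2, ?_⟩
    have h2 := h1.1
    unfold Btw at h2
    rw [dist_eq_one hn] at h2
    omega

theorem btw_point (hG : G.IsTree) {x z : X} {k : ℕ} (hk : k ≤ G.dist x z) :
    ∃! y, Btw G x y z ∧ G.dist x y = k := by
  obtain ⟨y, h1, h2⟩ := btw_point_exists hG hk
  exact ⟨y, ⟨h1, h2⟩, fun y' h => btw_point_unique hG h.1 h.2 h1 h2⟩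

/-- local geodesics are geodesics -/
theorem btw_glue (hG : G.IsTree) {x y z w : X} (h1 : Btw G x y z) (h2 : Btw G y z w) (h : y ≠ z) :
    Btw G x y w ∧ Btw G x z w := by
  obtain ⟨k, hk⟩ : ∃ k, k = G.dist x y := ⟨_, rfl⟩
  induction k generalizing x with
  | zero =>
    have := dist_zero hG hk.symm
    subst this
    exact ⟨btw_left x w, h2⟩
  | succ k ih =>
    have hxy : x ≠ y := by
      rintro rfl
      simp at hk
    obtain ⟨x1, hx1, hx1y⟩ := exists_next hG hxy
    have hz1 := next_of_btw hG h1 hx1 hx1y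
    have hb1 : Btw G x1 y z := by
      unfold Btw at *
      omega
    obtain ⟨i1, i2⟩ := ih hb1 (by omega)
    have hx1z : x1 ≠ z := by
      rintro rfl
      unfold Btw at hb1
      rw [SimpleGraph.dist_self] at hb1
      have : G.dist y x1 = 0 := by omega
      exact h (dist_zero hG this)
    obtain ⟨n, hn, hnz⟩ := exists_next hG hx1z
    have hnw := next_of_btw hG i2 hn hnz
    have key : G.dist x w = G.dist x1 w + 1 := by
      rcases adj_dist hG hx1 w with h3 | h3
      · exact h3
      · exfalso
        have h4 := next_unique hG hn hnw hx1.symm h3.symm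
        subst h4
        omega
    constructor
    · unfold Btw at *; omega
    · unfold Btw at *; omega

/-- two points of a geodesic are comparable -/
theorem btw_linear (hG : G.IsTree) {x y z w : X} (h1 : Btw G x y w) (h2 : Btw G x z w)
    (h : G.dist x y ≤ G.dist x z) : Btw G x y z ∧ Btw G y z w := by
  have h3 : G.dist x z - G.dist x y ≤ G.dist y w := by
    unfold Btw at *
    omega
  obtain ⟨z', hz1, hz2⟩ := btw_point_exists hG h3
  have h4 := btw_trans hG h1 hz1
  have h5 : z' = z := by
    refine btw_point_unique hG h4.2 ?_ h2 rfl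
    have := h4.1
    unfold Btw at this
    omega
  subst h5
  exact ⟨h4.1, hz1⟩

theorem median_exists (hG : G.IsTree) (x y z : X) :
    ∃ m, Btw G x m y ∧ Btw G y m z ∧ Btw G x m z := by
  obtain ⟨k, hk⟩ : ∃ k, k = G.dist x y := ⟨_, rfl⟩
  induction k generalizing x with
  | zero =>
    have := dist_zero hG hk.symm
    subst this
    exact ⟨x, btw_left _ _, btw_left _ _, btw_left _ _⟩
  | succ k ih =>
    have hxy : x ≠ y := by
      rintro rfl
      simp at hk
    obtain ⟨x1, hx1, hx1y⟩ := exists_next hG hxy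
    rcases adj_dist hG hx1 z with h3 | h3
    · obtain ⟨m, m1, m2, m3⟩ := ih x1 (by omega)
      exact ⟨m, (btw_trans hG (btw_next hx1 hx1y) m1).2, m2,
        (btw_trans hG (btw_next hx1 h3.symm) m3).2⟩
    · refine ⟨x, btw_left _ _, ?_, btw_left _ _⟩
      have b1 : Btw G y x1 x := btw_symm hG (btw_next hx1 hx1y)
      have b2 : Btw G x1 x z := btw_next hx1.symm h3.symm
      exact (btw_glue hG b1 b2 hx1.ne').2

theorem median (hG : G.IsTree) (x y z : X) :
    ∃! m, Btw G x m y ∧ Btw G y m z ∧ Btw G x m z := by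
  obtain ⟨m, m1, m2, m3⟩ := median_exists hG x y z
  refine ⟨m, ⟨m1, m2, m3⟩, ?_⟩
  rintro m' ⟨n1, n2, n3⟩
  refine btw_point_unique hG n1 ?_ m1 rfl
  unfold Btw at *
  rw [G.dist_comm (u := y) (v := m)] at m2
  rw [G.dist_comm (u := y) (v := m')] at n2
  omega

end TG

end Pool.Agent.Lib.MP_6567fb_al
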