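import Pool.Agent.Lib.MP_6567fb_al.T1a

/-!
# MP_6567fb_al, module T1b

Geometry of trees 2: projections, bridges, Helly.
-/

set_option autoImplicit false

open scoped Pointwise

namespace Pool.Agent.Lib.MP_6567fb_al

open MTree
namespace TG
variable {X : Type} {G : SimpleGraph X}

/-- a walk without backtracking is a geodesic (last step) -/
theorem chain_last (hG : G.IsTree) (p : ℕ → X) : ∀ n : ℕ, (∀ i < n + 1, p i ≠ p (i + 1)) →
    (∀ i, i + 2 ≤ n + 1 → Btw G (p i) (p (i + 1)) (p (i + 2))) → Btw G (p 0) (p n) (p (n + 1)) := by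
  intro n
  induction n with
  | zero => exact fun _ _ => btw_left _ _
  | succ n ih =>
    intro hne hb
    have h1 := ih (fun i hi => hne i (by omega)) (fun i hi => hb i (by omega))
    exact (btw_glue hG h1 (hb n (by omega)) (hne n (by omega))).2

/-- a walk without backtracking is a geodesic -/
theorem chain_geod (hG : G.IsTree) (p : ℕ → X) (n : ℕ) (hne : ∀ i < n, p i ≠ p (i + 1))
    (hb : ∀ i, i + 2 ≤ n → Btw G (p i) (p (i + 1)) (p (i + 2))) :
    G.dist (p 0) (p n) = ∑ i ∈ Finset.range n, G.dist (p i) (p (i + 1)) := by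
  induction n with
  | zero => simp
  | succ n ih =>
    have h1 := chain_last hG p n hne hb
    rw [Finset.sum_range_succ, ← ih (fun i hi => hne i (by omega)) (fun i hi => hb i (by omega))]
    unfold Btw at h1
    omega

/-- local injectivity of a graph map into a tree gives global injectivity, and geodesics are mapped to
geodesics -/
theorem local_inj (hG : G.IsTree) {Y : Type} {G' : SimpleGraph Y} (hG' : G'.IsTree) (f : Y → X)
    (hadj : ∀ a b, G'.Adj a b → G.Adj (f a) (f b))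
    (hloc : ∀ a b c, G'.Adj a b → G'.Adj a c → b ≠ c → f b ≠ f c) :
    ∀ a b, G.dist (f a) (f b) = G'.dist a b := by
  intro a b
  obtain ⟨k, hk⟩ : ∃ k, k = G'.dist a b := ⟨_, rfl⟩
  induction k using Nat.strong_induction_on generalizing a with
  | _ k ih =>
    rcases Nat.eq_zero_or_pos k with rfl | hpos
    · have := dist_zero hG' hk.symm
      subst this
      simp
    · have hab : a ≠ b := by
        rintro rfl
        simp at hk
        omega
      obtain ⟨a1, ha1, ha1b⟩ := exists_next hG' hab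
      have h1 := ih (k - 1) (by omega) a1 (by omega)
      rcases adj_dist hG (hadj a a1 ha1) (f b) with h3 | h3
      · omega
      · exfalso
        have ha1b' : a1 ≠ b := by
          rintro rfl
          simp at h3
        obtain ⟨a2, ha2, ha2b⟩ := exists_next hG' ha1b'
        have h4 := ih (k - 2) (by omega) a2 (by omega)
        have h5 : a ≠ a2 := by
          rintro rfl
          omega
        refine hloc a1 a a2 ha1.symm ha2 h5 ?_
        exact next_unique hG (hadj a1 a ha1.symm) h3.symm (hadj a1 a2 ha2) (by omega)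

theorem proj_exists (hG : G.IsTree) {S : Set X} (hS : Conv G S) (hne : S.Nonempty) (x : X) :
    ∃ p, p ∈ S ∧ ∀ s ∈ S, Btw G x p s := by
  classical
  obtain ⟨p, hp, hmin⟩ : ∃ p ∈ S, ∀ s ∈ S, G.dist x p ≤ G.dist x s := by
    have hex : ∃ k, ∃ s ∈ S, G.dist x s = k := by
      obtain ⟨s, hs⟩ := hne
      exact ⟨_, s, hs, rfl⟩
    obtain ⟨p, hp, hpk⟩ := Nat.find_spec hex
    refine ⟨p, hp, fun s hs => ?_⟩
    rw [hpk]
    exact Nat.find_min' hex ⟨s, hs, rfl⟩
  refine ⟨p, hp, fun s hs => ?_⟩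
  obtain ⟨m, m1, m2, m3⟩ := median_exists hG x p s
  have hm : m ∈ S := hS p hp s hs m m2
  have h1 := hmin m hm
  have h2 : m = p := by
    apply dist_zero hG
    unfold Btw at m1
    omega
  subst h2
  exact m3

/-- projection to a non-empty convex set -/
theorem exists_unique_proj (hG : G.IsTree) {S : Set X} (hS : Conv G S) (hne : S.Nonempty) (x : X) :
    ∃! p, p ∈ S ∧ ∀ s ∈ S, Btw G x p s := by
  obtain ⟨p, hp, hps⟩ := proj_exists hG hS hne x
  refine ⟨p, ⟨hp, hps⟩, ?_⟩
  rintro p' ⟨hp', hps'⟩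
  have h1 := hps p' hp'
  have h2 := hps' p hp
  apply dist_zero hG
  unfold Btw at *
  rw [G.dist_comm (u := p) (v := p')] at h1
  omega

/-- bridge between disjoint non-empty convex sets -/
theorem exists_unique_bridge (hG : G.IsTree) {S S' : Set X} (hS : Conv G S) (hS' : Conv G S')
    (hne : S.Nonempty) (hne' : S'.Nonempty) (hd : Disjoint S S') :
    ∃! e : X × X, e.1 ∈ S ∧ e.2 ∈ S' ∧ ∀ s ∈ S, ∀ s' ∈ S', Btw G s e.1 s' ∧ Btw G s e.2 s' ∧
      Btw G e.1 e.2 s' ∧ Btw G s e.1 e.2 := by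
  classical
  obtain ⟨e1, he1, e2, he2, hmin⟩ : ∃ p ∈ S, ∃ q ∈ S', ∀ s ∈ S, ∀ s' ∈ S',
      G.dist p q ≤ G.dist s s' := by
    have hex : ∃ k, ∃ s ∈ S, ∃ s' ∈ S', G.dist s s' = k := by
      obtain ⟨s, hs⟩ := hne
      obtain ⟨s', hs'⟩ := hne'
      exact ⟨_, s, hs, s', hs', rfl⟩
    obtain ⟨p, hp, q, hq, hpk⟩ := Nat.find_spec hex
    refine ⟨p, hp, q, hq, fun s hs s' hs' => ?_⟩
    rw [hpk]
    exact Nat.find_min' hex ⟨s, hs, s', hs', rfl⟩
  have hp2 : ∀ s' ∈ S', Btw G e1 e2 s' := by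
    intro s' hs'
    obtain ⟨p, hp, hps⟩ := proj_exists hG hS' hne' e1
    have h1 := hps e2 he2
    have h2 := hmin e1 he1 p hp
    have h3 : p = e2 := by
      apply dist_zero hG
      unfold Btw at h1
      omega
    subst h3
    exact hps s' hs'
  have hp1 : ∀ s ∈ S, Btw G e2 e1 s := by
    intro s hs
    obtain ⟨p, hp, hps⟩ := proj_exists hG hS hne e2
    have h1 := hps e1 he1
    have h2 := hmin p hp e2 he2
    have h3 : p = e1 := by
      apply dist_zero hG
      unfold Btw at h1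
      rw [G.dist_comm (u := e2) (v := p), G.dist_comm (u := e2) (v := e1)] at h1
      omega
    subst h3
    exact hps s hs
  have hne12 : e1 ≠ e2 := by
    rintro rfl
    exact Set.disjoint_left.1 hd he1 he2
  have hall : ∀ s ∈ S, ∀ s' ∈ S', Btw G s e1 s' ∧ Btw G s e2 s' ∧
      Btw G e1 e2 s' ∧ Btw G s e1 e2 := by
    intro s hs s' hs'
    have h1 := btw_symm hG (hp1 s hs)
    have h2 := hp2 s' hs'
    have h3 := btw_glue hG h1 h2 hne12
    exact ⟨h3.1, h3.2, h2, h1⟩
  refine ⟨(e1, e2), ⟨he1, he2, hall⟩, ?_⟩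
  rintro ⟨f1, f2⟩ ⟨hf1, hf2, hf⟩
  simp only at hf1 hf2 hf
  obtain ⟨a1, a2, a3, a4⟩ := hall f1 hf1 f2 hf2
  obtain ⟨b1, b2, b3, b4⟩ := hf e1 he1 e2 he2
  unfold Btw at *
  rw [G.dist_comm (u := f1) (v := e1)] at *
  rw [G.dist_comm (u := f2) (v := e2)] at *
  have h1 : G.dist e1 f1 = 0 := by omega
  have h2 : G.dist e2 f2 = 0 := by omega
  rw [dist_zero hG h1, dist_zero hG h2]

/-- geodesic segments are convex -/
theorem conv_seg (hG : G.IsTree) (x z : X) : Conv G {y | Btw G x y z} := by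
  have key : ∀ a b c, Btw G x a z → Btw G x b z → G.dist x a ≤ G.dist x b → Btw G a c b →
      Btw G x c z := by
    intro a b c ha hb hle hc
    obtain ⟨h1, h2⟩ := btw_linear hG ha hb hle
    have h3 := btw_trans' hG hc h2
    exact (btw_trans hG ha h3.1).2
  intro a ha b hb c hc
  rcases le_total (G.dist x a) (G.dist x b) with h | h
  · exact key a b c ha hb h hc
  · exact key b a c hb ha h (btw_symm hG hc)

/-- union of two intersecting convex sets is convex -/
theorem conv_union (hG : G.IsTree) {A B : Set X} (hA : Conv G A) (hB : Conv G B)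
    (hAB : (A ∩ B).Nonempty) : Conv G (A ∪ B) := by
  obtain ⟨c, hcA, hcB⟩ := hAB
  have key : ∀ a ∈ A, ∀ b ∈ B, ∀ y, Btw G a y b → y ∈ A ∪ B := by
    intro a ha b hb y hy
    obtain ⟨m, m1, m2, m3⟩ := median_exists hG a b c
    have hmA : m ∈ A := hA a ha c hcA m m3
    have hmB : m ∈ B := hB b hb c hcB m m2
    rcases le_total (G.dist a y) (G.dist a m) with h | h
    · exact Or.inl (hA a ha m hmA y (btw_linear hG hy m1 h).1)
    · exact Or.inr (hB m hmB b hb y (btw_linear hG m1 hy h).2)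
  rintro a (ha | ha) b (hb | hb) y hy
  · exact Or.inl (hA a ha b hb y hy)
  · exact key a ha b hb y hy
  · exact key b hb a ha y (btw_symm hG hy)
  · exact Or.inr (hB a ha b hb y hy)

theorem conv_hull (hG : G.IsTree) (S : Set X) : Conv G (hull G S) := by
  rintro a ⟨x, hx, z, hz, ha⟩ b ⟨x', hx', z', hz', hb⟩ c hc
  have h1 : Conv G ({y | Btw G x y z} ∪ {y | Btw G z y x'}) :=
    conv_union hG (conv_seg hG x z) (conv_seg hG z x') ⟨z, btw_right _ _, btw_left _ _⟩
  have h2 : Conv G (({y | Btw G x y z} ∪ {y | Btw G z y x'}) ∪ {y | Btw G x' y z'}) :=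
    conv_union hG h1 (conv_seg hG x' z') ⟨x', Or.inr (btw_right _ _), btw_left _ _⟩
  rcases h2 a (Or.inl (Or.inl ha)) b (Or.inr hb) c hc with (h | h) | h
  · exact ⟨x, hx, z, hz, h⟩
  · exact ⟨z, hz, x', hx', h⟩
  · exact ⟨x', hx', z', hz', h⟩

theorem conv_inter (S S' : Set X) (hS : Conv G S) (hS' : Conv G S') : Conv G (S ∩ S') :=
  fun x hx z hz y h => ⟨hS x hx.1 z hz.1 y h, hS' x hx.2 z hz.2 y h⟩

/-- three pairwise intersecting convex sets -/
theorem helly3 (hG : G.IsTree) {A B C : Set X} (hA : Conv G A) (hB : Conv G B) (hC : Conv G C)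
    (hAB : (A ∩ B).Nonempty) (hBC : (B ∩ C).Nonempty) (hAC : (A ∩ C).Nonempty) :
    (A ∩ B ∩ C).Nonempty := by
  obtain ⟨x, hxA, hxB⟩ := hAB
  obtain ⟨y, hyB, hyC⟩ := hBC
  obtain ⟨z, hzA, hzC⟩ := hAC
  obtain ⟨m, m1, m2, m3⟩ := median_exists hG x y z
  exact ⟨m, ⟨hA x hxA z hzA m m3, hB x hxB y hyB m m1⟩, hC y hyC z hzC m m2⟩

/-- Helly -/
theorem helly (hG : G.IsTree) {ι : Type} (s : Finset ι) (S : ι → Set X) (hne : s.Nonempty)
    (hc : ∀ i ∈ s, Conv G (S i)) (h2 : ∀ i ∈ s, ∀ j ∈ s, (S i ∩ S j).Nonempty) :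
    (⋂ i ∈ s, S i).Nonempty := by
  classical
  induction s using Finset.induction_on generalizing S with
  | empty => exact absurd hne (by simp)
  | insert a s _ ih =>
    rcases s.eq_empty_or_nonempty with rfl | hs
    · obtain ⟨x, hx, _⟩ := h2 a (by simp) a (by simp)
      exact ⟨x, by simpa using hx⟩
    · have ha : a ∈ insert a s := Finset.mem_insert_self a s
      have hm : ∀ i ∈ s, i ∈ insert a s := fun i hi => Finset.mem_insert_of_mem hi
      obtain ⟨x, hx⟩ := ih (fun i => S i ∩ S a) hs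
        (fun i hi => conv_inter _ _ (hc i (hm i hi)) (hc a ha))
        (fun i hi j hj => by
          obtain ⟨y, ⟨hy1, hy2⟩, hy3⟩ := helly3 hG (hc i (hm i hi)) (hc j (hm j hj)) (hc a ha)
            (h2 i (hm i hi) j (hm j hj)) (h2 j (hm j hj) a ha) (h2 i (hm i hi) a ha)
          exact ⟨y, ⟨hy1, hy3⟩, hy2, hy3⟩)
      simp only [Set.mem_iInter] at hx
      obtain ⟨i0, hi0⟩ := hs
      refine ⟨x, ?_⟩
      simp only [Set.mem_iInter]
      intro i hi
      rcases Finset.mem_insert.1 hi with rfl | hi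
      · exact (hx i0 hi0).2
      · exact (hx i hi).1

end TG

end Pool.Agent.Lib.MP_6567fb_al
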